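import Pool.Agent.H86.UM.KA1

/-!
# Project UM, module KA2: unipotence of representations, abstract form

`B` a group with normal subgroups `U 0 ≥ U 1 ≥ ... ≥ U M = ⊥`, `U m / U (m+1)` commutative, and for
each `m < M` an infinite set `𝒮 ⊆ B` such that for distinct `τ, τ' ∈ 𝒮` every `w ∈ U m` is
`τ u τ⁻¹ (τ' u τ'⁻¹)⁻¹` modulo `U (m+1)` for some `u ∈ U m`. Then in each finite dimensional
representation of `B` over an algebraically closed field all elements of `U 0` are unipotent.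

Proof. (1) `exists_fixed_abs`: in a nonzero finite dimensional representation `V` there is a nonzero
vector fixed by `U 0`: by induction on `j`, `W_j := {v | ρ x v = v for all x ∈ U (M - j)}` is nonzero
(`j ≤ M`); `W_0 = V`. `W_j` is stable under all `ρ b` (`U (M-j)` is normal). Step from `U (m+1)` to `U m`:
apply `torus_fixed` with `A = U m`, `W = {v | ρ x v = v for all x ∈ U (m+1)}`: on `W` the operators of
`U m` commute because `x y x⁻¹ y⁻¹ ∈ U (m+1)` and `W` is stable (`ρ (x y) v = ρ (c y x) v`,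
`c = x y x⁻¹ y⁻¹`, `ρ c` is trivial on `W`), and `hdiv` holds because
`w⁻¹ (τ u τ⁻¹ (τ' u τ'⁻¹)⁻¹) ∈ U (m+1)` acts trivially on `W`.
(2) `unipotent_abs`: strong induction on `finrank V` (over all `V` in the universe and all `ρ`). `V = 0`:
trivial. `V₁ := {v | ρ x v = v for all x ∈ U 0} ≠ 0` by (1), stable under all `ρ b`; `B` acts on
`V ⧸ V₁` (`Submodule.mapQ`), by induction `(ρ u - 1) ^ m` maps `V` to `V₁` and `ρ u - 1` kills `V₁`; so
`(ρ u - 1) ^ (m+1) = 0`.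
(3) `unipotent_matrix`: the same for homomorphisms to `GL ι L` (`Matrix.toLin'`/`mulVecLin`).
-/

set_option autoImplicit false

universe v

namespace Pool.Agent.H86.UM

/-- vectors fixed by a subgroup -/
private def KA2_fix {B L V : Type*} [Group B] [Field L] [AddCommGroup V] [Module L V]
    (ρ : B →* Module.End L V) (H : Subgroup B) : Submodule L V where
  carrier := {v | ∀ x ∈ H, ρ x v = v}
  add_mem' := by
    intro a b ha hb x hx
    rw [map_add, ha x hx, hb x hx]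
  zero_mem' := by
    intro x _
    exact map_zero _
  smul_mem' := by
    intro c a ha x hx
    rw [map_smul, ha x hx]

private theorem KA2_stable {B L V : Type*} [Group B] [Field L] [AddCommGroup V] [Module L V]
    (ρ : B →* Module.End L V) (H : Subgroup B) (hH : H.Normal) (b : B) (v : V)
    (hv : v ∈ KA2_fix ρ H) : ρ b v ∈ KA2_fix ρ H := by
  intro x hx
  have h1 : x * b = b * (b⁻¹ * x * b) := by group
  have h2 : b⁻¹ * x * b ∈ H := by
    have := hH.conj_mem x hx b⁻¹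
    rwa [inv_inv] at this
  calc ρ x (ρ b v) = ρ (x * b) v := by rw [map_mul]; rfl
    _ = ρ (b * (b⁻¹ * x * b)) v := by rw [← h1]
    _ = ρ b (ρ (b⁻¹ * x * b) v) := by rw [map_mul]; rfl
    _ = ρ b v := by rw [hv _ h2]

private theorem KA2_exists_fixed {B L : Type*} [Group B] [Field L] [IsAlgClosed L] (M : ℕ)
    (U : ℕ → Subgroup B) (hn : ∀ m, (U m).Normal) (hdec : ∀ m, U (m + 1) ≤ U m) (hbot : U M = ⊥)
    (hab : ∀ m < M, ∀ x ∈ U m, ∀ y ∈ U m, x * y * x⁻¹ * y⁻¹ ∈ U (m + 1))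
    (hS : ∀ m < M, ∃ S : Set B, S.Infinite ∧ ∀ τ ∈ S, ∀ τ' ∈ S, τ ≠ τ' → ∀ w ∈ U m, ∃ u ∈ U m,
      w⁻¹ * (τ * u * τ⁻¹ * (τ' * u * τ'⁻¹)⁻¹) ∈ U (m + 1))
    {V : Type*} [AddCommGroup V] [Module L V] [FiniteDimensional L V] [Nontrivial V]
    (ρ : B →* Module.End L V) (j : ℕ) (hj : j ≤ M) :
    ∃ v : V, v ≠ 0 ∧ ∀ x ∈ U (M - j), ρ x v = v := by
  induction j with
  | zero =>
    obtain ⟨v, hv⟩ := exists_ne (0 : V)
    refine ⟨v, hv, fun x hx => ?_⟩
    rw [Nat.sub_zero, hbot, Subgroup.mem_bot] at hx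
    rw [hx, map_one]
    rfl
  | succ j ih =>
    obtain ⟨v0, hv0, hfix0⟩ := ih (by omega)
    have hm : M - (j + 1) < M := by omega
    have hm1 : M - j = M - (j + 1) + 1 := by omega
    generalize M - (j + 1) = m at hm hm1
    rw [hm1] at hfix0
    obtain ⟨S, hSinf, hSd⟩ := hS m hm
    have hWst : ∀ b, ∀ v ∈ KA2_fix ρ (U (m + 1)), ρ b v ∈ KA2_fix ρ (U (m + 1)) :=
      fun b v hv => KA2_stable ρ _ (hn _) b v hv
    have hne : KA2_fix ρ (U (m + 1)) ≠ ⊥ := by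
      intro h
      have : v0 ∈ KA2_fix ρ (U (m + 1)) := hfix0
      rw [h, Submodule.mem_bot] at this
      exact hv0 this
    have hcomm : ∀ x ∈ U m, ∀ y ∈ U m, ∀ v ∈ KA2_fix ρ (U (m + 1)),
        ρ x (ρ y v) = ρ y (ρ x v) := by
      intro x hx y hy v hv
      have h1 : x * y = (x * y * x⁻¹ * y⁻¹) * (y * x) := by group
      have h2 := hab m hm x hx y hy
      calc ρ x (ρ y v) = ρ (x * y) v := by rw [map_mul]; rfl
        _ = ρ ((x * y * x⁻¹ * y⁻¹) * (y * x)) v := by rw [← h1]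
        _ = ρ (x * y * x⁻¹ * y⁻¹) (ρ (y * x) v) := by rw [map_mul]; rfl
        _ = ρ (y * x) v := hWst (y * x) v hv _ h2
        _ = ρ y (ρ x v) := by rw [map_mul]; rfl
    have hdiv : ∀ τ ∈ S, ∀ τ' ∈ S, τ ≠ τ' → ∀ w ∈ U m, ∃ u ∈ U m,
        ∀ v ∈ KA2_fix ρ (U (m + 1)), ρ w v = ρ (τ * u * τ⁻¹ * (τ' * u * τ'⁻¹)⁻¹) v := by
      intro τ hτ τ' hτ' hne' w hw
      obtain ⟨u, hu, h1⟩ := hSd τ hτ τ' hτ' hne' w hw
      refine ⟨u, hu, fun v hv => ?_⟩
      have h2 : τ * u * τ⁻¹ * (τ' * u * τ'⁻¹)⁻¹ =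
          w * (w⁻¹ * (τ * u * τ⁻¹ * (τ' * u * τ'⁻¹)⁻¹)) := by group
      rw [h2, map_mul]
      show ρ w v = ρ w (ρ (w⁻¹ * (τ * u * τ⁻¹ * (τ' * u * τ'⁻¹)⁻¹)) v)
      rw [hv _ h1]
    obtain ⟨v, -, hv0', hvf⟩ := torus_fixed ρ (U m) (KA2_fix ρ (U (m + 1))) hWst hne hcomm S hSinf
      (fun τ _ u hu => (hn m).conj_mem u hu τ) hdiv
    exact ⟨v, hv0', hvf⟩

/-- the representation on a quotient -/
private def KA2_quot {B L V : Type*} [Group B] [Field L] [AddCommGroup V] [Module L V]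
    (ρ : B →* Module.End L V) (W : Submodule L V) (hW : ∀ b, ∀ v ∈ W, ρ b v ∈ W) :
    B →* Module.End L (V ⧸ W) where
  toFun b := W.mapQ W (ρ b) (fun v hv => hW b v hv)
  map_one' := by
    refine Submodule.linearMap_qext _ ?_
    ext v
    simp
  map_mul' a b := by
    refine Submodule.linearMap_qext _ ?_
    ext v
    simp

private theorem KA2_quot_apply {B L V : Type*} [Group B] [Field L] [AddCommGroup V] [Module L V]
    (ρ : B →* Module.End L V) (W : Submodule L V) (hW : ∀ b, ∀ v ∈ W, ρ b v ∈ W) (b : B) (v : V) :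
    KA2_quot ρ W hW b (W.mkQ v) = W.mkQ (ρ b v) := rfl

private theorem KA2_quot_pow {B L V : Type*} [Group B] [Field L] [AddCommGroup V] [Module L V]
    (ρ : B →* Module.End L V) (W : Submodule L V) (hW : ∀ b, ∀ v ∈ W, ρ b v ∈ W) (b : B) (m : ℕ)
    (v : V) : ((KA2_quot ρ W hW b - 1) ^ m) (W.mkQ v) = W.mkQ (((ρ b - 1) ^ m) v) := by
  induction m generalizing v with
  | zero => simp
  | succ m ih =>
    rw [pow_succ, pow_succ]
    show ((KA2_quot ρ W hW b - 1) ^ m) ((KA2_quot ρ W hW b - 1) (W.mkQ v)) =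
      W.mkQ (((ρ b - 1) ^ m) ((ρ b - 1) v))
    rw [← ih]
    congr 1

theorem unipotent_abs {B L : Type*} [Group B] [Field L] [IsAlgClosed L] (M : ℕ)
    (U : ℕ → Subgroup B) (hn : ∀ m, (U m).Normal) (hdec : ∀ m, U (m + 1) ≤ U m) (hbot : U M = ⊥)
    (hab : ∀ m < M, ∀ x ∈ U m, ∀ y ∈ U m, x * y * x⁻¹ * y⁻¹ ∈ U (m + 1))
    (hS : ∀ m < M, ∃ S : Set B, S.Infinite ∧ ∀ τ ∈ S, ∀ τ' ∈ S, τ ≠ τ' → ∀ w ∈ U m, ∃ u ∈ U m,
      w⁻¹ * (τ * u * τ⁻¹ * (τ' * u * τ'⁻¹)⁻¹) ∈ U (m + 1))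
    (V : Type v) [AddCommGroup V] [Module L V] [FiniteDimensional L V] (ρ : B →* Module.End L V)
    (u : B) (hu : u ∈ U 0) : IsNilpotent (ρ u - 1) := by
  have key : ∀ d : ℕ, ∀ (V : Type v) [AddCommGroup V] [Module L V] [FiniteDimensional L V]
      (ρ : B →* Module.End L V), Module.finrank L V = d → IsNilpotent (ρ u - 1) := by
    intro d
    induction d using Nat.strong_induction_on with
    | _ d ih =>
      intro V _ _ _ ρ hd
      rcases subsingleton_or_nontrivial V with hV | hV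
      · refine ⟨1, ?_⟩
        ext v
        exact Subsingleton.elim _ _
      · obtain ⟨v0, hv0, hf0⟩ := KA2_exists_fixed M U hn hdec hbot hab hS ρ M le_rfl
        rw [Nat.sub_self] at hf0
        have hWst : ∀ b, ∀ v ∈ KA2_fix ρ (U 0), ρ b v ∈ KA2_fix ρ (U 0) :=
          fun b v hv => KA2_stable ρ _ (hn _) b v hv
        have hpos : 0 < Module.finrank L (KA2_fix ρ (U 0)) := by
          have : Nontrivial (KA2_fix ρ (U 0)) := by
            refine ⟨⟨⟨v0, hf0⟩, 0, ?_⟩⟩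
            intro h
            exact hv0 (congrArg Subtype.val h)
          exact Module.finrank_pos
        have hsum := Submodule.finrank_quotient_add_finrank (KA2_fix ρ (U 0))
        obtain ⟨m, hm⟩ := ih (Module.finrank L (V ⧸ KA2_fix ρ (U 0))) (by omega) _
          (KA2_quot ρ (KA2_fix ρ (U 0)) hWst) rfl
        refine ⟨m + 1, ?_⟩
        ext v
        have h1 := KA2_quot_pow ρ (KA2_fix ρ (U 0)) hWst u m v
        rw [hm, LinearMap.zero_apply] at h1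
        have h2 : ((ρ u - 1) ^ m) v ∈ KA2_fix ρ (U 0) := by
          rw [← Submodule.Quotient.mk_eq_zero]
          exact h1.symm
        rw [pow_succ']
        show (ρ u - 1) (((ρ u - 1) ^ m) v) = 0
        rw [LinearMap.sub_apply, h2 u hu]
        simp
  exact key _ V ρ rfl

theorem unipotent_matrix {B L ι : Type*} [Group B] [Field L] [IsAlgClosed L] [Fintype ι]
    [DecidableEq ι] (M : ℕ)
    (U : ℕ → Subgroup B) (hn : ∀ m, (U m).Normal) (hdec : ∀ m, U (m + 1) ≤ U m) (hbot : U M = ⊥)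
    (hab : ∀ m < M, ∀ x ∈ U m, ∀ y ∈ U m, x * y * x⁻¹ * y⁻¹ ∈ U (m + 1))
    (hS : ∀ m < M, ∃ S : Set B, S.Infinite ∧ ∀ τ ∈ S, ∀ τ' ∈ S, τ ≠ τ' → ∀ w ∈ U m, ∃ u ∈ U m,
      w⁻¹ * (τ * u * τ⁻¹ * (τ' * u * τ'⁻¹)⁻¹) ∈ U (m + 1))
    (ρ : B →* Matrix.GeneralLinearGroup ι L) (u : B) (hu : u ∈ U 0) :
    IsNilpotent ((ρ u : Matrix ι ι L) - 1) := by
  have e := (Matrix.toLinAlgEquiv' : Matrix ι ι L ≃ₐ[L] ((ι → L) →ₗ[L] (ι → L)))
  let ρ₂ : B →* Module.End L (ι → L) :=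
    ((e : Matrix ι ι L →* ((ι → L) →ₗ[L] (ι → L))).comp (Units.coeHom (Matrix ι ι L))).comp ρ
  have h := unipotent_abs M U hn hdec hbot hab hS (ι → L) ρ₂ u hu
  have h1 : ρ₂ u - 1 = e ((ρ u : Matrix ι ι L) - 1) := by
    rw [map_sub, map_one]
    rfl
  rw [h1] at h
  have h2 := h.map e.symm
  rwa [AlgEquiv.symm_apply_apply] at h2

end Pool.Agent.H86.UM
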