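import Pool.Agent.H86.UM.FX

/-!
# Project UM, module SR: the source structure of `Eg S s`

`U`, `T`, `X J` are the subgroups of `Eg S s` given by `fixU S s`, `S.T`, `fixX D S s (simple J.out)`;
`q J x = xi J.out (p x)`, `a J h = chi (p h) (simple J.out)`; `ν J` is an element of `S.N ⊓ Eg S s` acting by
`wd (wl J.out)` (`exists_nJ`); `k0 = fixF θ`, `N = natAbs (det A)`.

Facts (all elements of `Eg S s` are fixed by `s`, `Eg_le_fix`; `p` maps `S.U m`, `S.T`, `S.N` to the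
corresponding subgroups of `adS` by `S9_U`, `S9_T`, `S9_N`; for `h ∈ S.T`, `h x_β(u) h⁻¹ = x_β(c_β u)`
(`T_acts'`), with `c_β = chi (p h) β` (`T_fix`, `xg_inj`); `SR_T`).
* `SR_chi`: for `h ∈ S.T` fixed by `s`: `chi (p h) (r β) = θ (chi (p h) β)`: apply `s` to
  `h x_β(u) h⁻¹ = x_β(c_β u)`.
* `T_comm` is `S.T_comm`; `T_conj_U`: `S.T_conj_U` and fixed points; `X_le`: `fixX_le_fixU`;
  `q_mul`: `xi_mul`; `a_mul`: `chi_mul` (`Fil_T`); `a_ne`: `T_fix`; `X_conj`: conjugation by `h ∈ T`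
  maps root elements to root elements of the same root; `q_conj`: `xi_conj`.
* `q_smul`: `fixX_xi_exists` for `c * q J x` (if `ρ i = i` then `q J x` is fixed by `θ` by `fixX_xi`, `l = 1`).
* `ker_q`: `fixX_xi_zero` (transport the commutator subgroup to the subgroup `Eg S s`,
  `Subgroup.map_commutator`, `subgroupOf`).
* `cent`: `a J h = 1` implies `chi (p h) (r^l β) = 1` (`SR_chi`), and `chi` is multiplicative on `β + r β`
  (`T_acts'`/`chi_prod`), so `h` commutes with `XO β`. `cent_neg`: `ν_J XO(β) ν_J⁻¹ ≤ XO(-β)` (`ν_J` acts by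
  `w_J`, which maps the orbit of `β` to the negatives (`wJ_neg`, `wJ_supp`, `supp_inO`)), and
  `chi (p h) (-γ) = (chi (p h) γ)⁻¹`.
* `k0_inf`: if `k0` is finite, every `t ∈ k` is a root of `∏_{l<m} (X - θ^l t)`, a monic polynomial of degree
  `m` over `k0`, so `k` is finite.
* `sep`: `v = ∑_{j ∈ J} y_j` with `ip w y_j = det * w j` (`exists_dual`), is `ρ`-invariant if the `y_j` are
  chosen as in `exists_dual` (`y_j = adjugate *ᵥ single j`, `adjugate` commutes with `ρ`; or replace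
  `v` by the dual vector characterised by `ip w v = det * ∑_{j∈J} w j` for all `w`, which is unique as the
  form is nondegenerate, so invariant); `exists_tor` with `c = s` (and `s⁻¹` if `det < 0`; in fact
  `det > 0`), `sep` gives `a J h = s ^ det`.
* `ν_conj`: `N_conj_T`, `Eg`. `a_ν`: `ν⁻¹ h ν` acts on `x_β` as `h` on `ν x_β ν⁻¹ = x_(w_J β)(..)`, and
  `w_J (simple i) = - simple j` for some `j` in the orbit of `i` (orthogonal case `j = i`, adjacent
  case `j = ρ i`: see `wJ_adj` and D5.lean), so `a J (ν⁻¹ h ν) = (θ^l (a J h))⁻¹ = (a J h)⁻¹` if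
  `a J h ∈ k0`.
-/

set_option autoImplicit false
open Matrix

namespace Pool.Agent.H86.UM

open Pool.Agent.H75.UL

variable {n : ℕ} {C : SLC n} {D : Dg C} {k : Type*} [Field k] {θ : k ≃+* k} {H : Type*} [Group H]
  {S : StSys C k H} {s : H →* H} {p : H →* GL C.Idx k}

private theorem SR_gad (he : Env D θ S s p) (h : H) (hh : h ∈ S.T) :
    p h ∈ C.Gad k ∧ C.Fil 0 (p h : Matrix C.Idx C.Idx k) := by
  have h1 := C.S9_T S p he.hp h hh
  refine ⟨?_, C.Fil_T _ h1⟩
  rw [← C.gen_adS k]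
  exact (C.adS k).T_le_gen h1

private theorem SR_inj (he : Env D θ S s p) (β : C.Root) (u v : k) (hu : u ≠ 0)
    (h : S.x β u = S.x β v) : u = v := by
  have e1 := congrArg p h
  rw [he.hp, he.hp] at e1
  exact (C.xg_inj β β _ _ hu e1).2

private theorem SR_sg_ne (D : Dg C) (β : C.Root) : (D.sg β : k) ≠ 0 := by
  rcases D.sg_eq β with h | h <;> simp [h]

theorem SR_T (he : Env D θ S s p) (h : H) (hh : h ∈ S.T) (β : C.Root) (u : k) :
    C.chi (p h : Matrix C.Idx C.Idx k) β ≠ 0 ∧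
      h * S.x β u * h⁻¹ = S.x β (C.chi (p h : Matrix C.Idx C.Idx k) β * u) := by
  obtain ⟨c, hc, -, h3⟩ := S.T_acts' h hh
  have hT := C.S9_T S p he.hp h hh
  have key : C.chi (p h : Matrix C.Idx C.Idx k) β = c β := by
    have e1 := congrArg p (h3 β 1)
    rw [map_mul, map_mul, map_inv, he.hp, he.hp, (C.T_fix (p h) hT β 1).2] at e1
    have e2 := (C.xg_inj β β _ _ (by
      rw [mul_one]
      exact (C.T_fix (p h) hT β 1).1) e1).2
    simpa using e2
  exact ⟨(C.T_fix (p h) hT β u).1, by rw [key]; exact h3 β u⟩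

theorem SR_chi (he : Env D θ S s p) (h : H) (hh : h ∈ S.T) (hs : s h = h) (β : C.Root) :
    C.chi (p h : Matrix C.Idx C.Idx k) (D.r β) = θ (C.chi (p h : Matrix C.Idx C.Idx k) β) := by
  have h1 := congrArg s (SR_T he h hh β 1).2
  rw [map_mul, map_mul, map_inv, hs, he.sig, he.sig, (SR_T he h hh (D.r β) _).2] at h1
  have h2 := SR_inj he _ _ _ (mul_ne_zero (SR_T he h hh (D.r β) 0).1 (by
    rw [map_one, mul_one]
    exact SR_sg_ne D β)) h1
  rw [map_one, mul_one, mul_one, mul_comm] at h2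
  exact mul_left_cancel₀ (SR_sg_ne D β) h2

private theorem SR_add (he : Env D θ S s p) (h : H) (hh : h ∈ S.T) (α β γ : C.Root)
    (hγ : γ.1 = α.1 + β.1) : C.chi (p h : Matrix C.Idx C.Idx k) γ =
      C.chi (p h : Matrix C.Idx C.Idx k) α * C.chi (p h : Matrix C.Idx C.Idx k) β := by
  obtain ⟨h1, h2⟩ := SR_gad he h hh
  rw [C.chi_prod _ h1 h2 γ, C.chi_prod _ h1 h2 α, C.chi_prod _ h1 h2 β,
    ← Finset.prod_mul_distrib]
  refine Finset.prod_congr rfl fun j _ => ?_
  rw [hγ, Pi.add_apply, zpow_add₀ (SR_T he h hh (C.simple j) 0).1]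

private theorem SR_neg (he : Env D θ S s p) (h : H) (hh : h ∈ S.T) (β : C.Root) :
    C.chi (p h : Matrix C.Idx C.Idx k) (-β) = (C.chi (p h : Matrix C.Idx C.Idx k) β)⁻¹ := by
  obtain ⟨h1, h2⟩ := SR_gad he h hh
  rw [C.chi_prod _ h1 h2 (-β), C.chi_prod _ h1 h2 β, ← Finset.prod_inv_distrib]
  refine Finset.prod_congr rfl fun j _ => ?_
  rw [SLC.Root.neg_val, Pi.neg_apply, _root_.zpow_neg]

private theorem SR_chi_iter (he : Env D θ S s p) (h : H) (hh : h ∈ S.T) (hs : s h = h)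
    (β : C.Root) (l : ℕ) : C.chi (p h : Matrix C.Idx C.Idx k) (D.r^[l] β) =
      (⇑θ)^[l] (C.chi (p h : Matrix C.Idx C.Idx k) β) := by
  induction l with
  | zero => rfl
  | succ l ih =>
    rw [Function.iterate_succ_apply', Function.iterate_succ_apply', SR_chi he h hh hs, ih]

private theorem SR_comm (he : Env D θ S s p) (h : H) (hh : h ∈ S.T) (hs : s h = h) (β : C.Root)
    (h1 : C.chi (p h : Matrix C.Idx C.Idx k) β = 1) (x : H) (hx : x ∈ XO D S β) :
    h * x = x * h := by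
  have hr : ∀ l : ℕ, C.chi (p h : Matrix C.Idx C.Idx k) (D.r^[l] β) = 1 := by
    intro l
    rw [SR_chi_iter he h hh hs, h1, iterate_map_one]
  have hO : ∀ γ, D.inO β γ → C.chi (p h : Matrix C.Idx C.Idx k) γ = 1 := by
    rintro γ (⟨l, rfl⟩ | hγ)
    · exact hr l
    · rw [SR_add he h hh β (D.r β) γ hγ, h1, one_mul]
      exact hr 1
  unfold XO at hx
  induction hx using Subgroup.closure_induction with
  | mem g hg =>
    obtain ⟨γ, t, hγ, rfl⟩ := hg
    have h2 := (SR_T he h hh γ t).2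
    rw [hO γ hγ, one_mul] at h2
    exact mul_inv_eq_iff_eq_mul.mp h2
  | one => rw [mul_one, one_mul]
  | mul a b _ _ ha hb => rw [← mul_assoc, ha, mul_assoc, hb, mul_assoc]
  | inv a _ ha =>
    have : Commute h a := ha
    exact this.inv_right

theorem SR_cent (he : Env D θ S s p) (h : H) (hh : h ∈ S.T) (hs : s h = h) (i : Fin n)
    (h1 : C.chi (p h : Matrix C.Idx C.Idx k) (C.simple i) = 1) :
    (∀ x ∈ XO D S (C.simple i), h * x = x * h) ∧
      ∀ x ∈ XO D S (-(C.simple i)), h * x = x * h :=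
  ⟨fun x hx => SR_comm he h hh hs _ h1 x hx, fun x hx => SR_comm he h hh hs _ (by
    rw [SR_neg he h hh, h1, inv_one]) x hx⟩

theorem SR_k0_inf (he : Env D θ S s p) : Infinite (fixF θ) := by
  by_contra hfin
  rw [not_infinite_iff_finite] at hfin
  have hm : θ ^ D.m = 1 := by
    ext t
    have h1 : (⇑(θ ^ D.m)) = (⇑θ)^[D.m] := by
      exact (RingAut.coe_pow θ D.m)
    rw [h1, he.hθ]
    rfl
  have hm0 : 0 < D.m := by
    rcases D.m_cases with h | h | h <;> omega
  have hfo : IsOfFinOrder (θ : RingAut k) := isOfFinOrder_iff_pow_eq_one.mpr ⟨D.m, hm0, hm⟩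
  have h0 : Finite (Subgroup.zpowers (θ : RingAut k)) := (finite_zpowers.mpr hfo).to_subtype
  have h1 : Finite (FixedPoints.subfield (Subgroup.zpowers (θ : RingAut k)) k) := by
    refine Finite.of_injective (β := fixF θ) (fun t => ⟨t.1, ?_⟩) ?_
    · exact t.2 ⟨θ, Subgroup.mem_zpowers θ⟩
    · intro a b hab
      exact Subtype.ext (congrArg (fun x : fixF θ => x.1) hab)
  have h2 : FiniteDimensional (FixedPoints.subfield (Subgroup.zpowers (θ : RingAut k)) k) k :=
    inferInstance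
  have h3 : Finite k :=
    Module.finite_of_finite (FixedPoints.subfield (Subgroup.zpowers (θ : RingAut k)) k)
  exact he.inf.not_finite h3

theorem SR_sep (he : Env D θ S s p) (i : Fin n) (c : k) (hc : c ∈ fixF θ) (hc0 : c ≠ 0) :
    ∃ h ∈ S.T ⊓ Eg S s,
      (∀ j, D.ρ.SameCycle i j → C.chi (p h : Matrix C.Idx C.Idx k) (C.simple j) =
        c ^ C.A.det.natAbs) ∧
      ∀ j, ¬ D.ρ.SameCycle i j → C.chi (p h : Matrix C.Idx C.Idx k) (C.simple j) = 1 := by
  classical
  choose y hy using C.exists_dual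
  obtain ⟨v, hv⟩ : ∃ v : Fin n → ℤ, ∀ w, C.ip w v =
      C.A.det * ∑ j, if D.ρ.SameCycle i j then w j else 0 := by
    refine ⟨∑ j, if D.ρ.SameCycle i j then y j else 0, fun w => ?_⟩
    have hsum : ∀ (t : Finset (Fin n)) (g : Fin n → Fin n → ℤ),
        C.ip w (∑ j ∈ t, g j) = ∑ j ∈ t, C.ip w (g j) := by
      intro t g
      induction t using Finset.induction_on with
      | empty => rw [Finset.sum_empty, Finset.sum_empty, C.ip_zero_right]
      | insert a t ha ih => rw [Finset.sum_insert ha, Finset.sum_insert ha, C.ip_add_right, ih]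
    rw [hsum, Finset.mul_sum]
    refine Finset.sum_congr rfl fun j _ => ?_
    split_ifs
    · exact hy j w
    · rw [C.ip_zero_right, mul_zero]
  have hinv : SLC.lmap D.ρ v = v := by
    have h1 : ∀ w, C.ip w (SLC.lmap D.ρ v) = C.ip w v := by
      intro w
      have e1 : w = SLC.lmap D.ρ (SLC.lmap D.ρ.symm w) := by
        funext j
        simp [SLC.lmap]
      conv_lhs => rw [e1]
      rw [C.ip_lmap D.ρ D.hρ, hv, hv]
      congr 1
      rw [← Equiv.sum_comp D.ρ (fun j => if D.ρ.SameCycle i j then w j else 0)]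
      refine Finset.sum_congr rfl fun j _ => ?_
      by_cases hj : D.ρ.SameCycle i j
      · rw [if_pos hj, if_pos (Equiv.Perm.sameCycle_apply_right.mpr hj)]
        rfl
      · rw [if_neg hj, if_neg (fun h => hj (Equiv.Perm.sameCycle_apply_right.mp h))]
    by_contra hne
    have h2 : SLC.lmap D.ρ v - v ≠ 0 := sub_ne_zero.mpr hne
    have h3 := C.ip_pos _ h2
    rw [C.ip_sub_right, h1, sub_self] at h3
    exact lt_irrefl _ h3
  have key : ∀ c' : k, c' ≠ 0 → θ c' = c' → ∃ h ∈ S.T ⊓ Eg S s,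
      (∀ j, D.ρ.SameCycle i j → C.chi (p h : Matrix C.Idx C.Idx k) (C.simple j) =
        c' ^ C.A.det) ∧
      ∀ j, ¬ D.ρ.SameCycle i j → C.chi (p h : Matrix C.Idx C.Idx k) (C.simple j) = 1 := by
    intro c' h0 h1
    obtain ⟨τ, hτ, hact⟩ := exists_tor he.sig he.hθ he.hA v hinv c' h0 h1
    have h2 : ∀ β, C.chi (p τ : Matrix C.Idx C.Idx k) β = c' ^ C.ip v β.1 := by
      intro β
      have h3 := (SR_T he τ hτ.1 β 1).2
      rw [hact β 1] at h3
      have h4 := SR_inj he β _ _ (mul_ne_zero (zpow_ne_zero _ h0) one_ne_zero) h3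
      rw [mul_one, mul_one] at h4
      exact h4.symm
    have h5 : ∀ j, C.ip v (C.simple j).1 = C.A.det * if D.ρ.SameCycle i j then 1 else 0 := by
      intro j
      rw [C.ip_comm, hv, Finset.sum_eq_single j]
      · rw [SLC.simple_val, Pi.single_eq_same]
      · intro l _ hl
        rw [SLC.simple_val, Pi.single_eq_of_ne hl, ite_self]
      · intro h
        exact absurd (Finset.mem_univ j) h
    refine ⟨τ, hτ, fun j hj => ?_, fun j hj => ?_⟩
    · rw [h2, h5, if_pos hj, mul_one]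
    · rw [h2, h5, if_neg hj, mul_zero, zpow_zero]
  rcases le_or_gt 0 C.A.det with hd | hd
  · obtain ⟨h, hh, h1, h2⟩ := key c hc0 hc
    refine ⟨h, hh, fun j hj => ?_, h2⟩
    rw [h1 j hj]
    obtain ⟨m, hm⟩ := Int.eq_ofNat_of_zero_le hd
    rw [hm, zpow_natCast, Int.natAbs_natCast]
  · obtain ⟨h, hh, h1, h2⟩ := key c⁻¹ (inv_ne_zero hc0) (by rw [map_inv₀, (mem_fixF θ c).mp hc])
    refine ⟨h, hh, fun j hj => ?_, h2⟩
    rw [h1 j hj]
    obtain ⟨m, hm⟩ := Int.eq_ofNat_of_zero_le (show 0 ≤ -C.A.det by omega)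
    have hm' : C.A.det = -(m : ℤ) := by omega
    rw [hm', _root_.zpow_neg, _root_.inv_zpow, inv_inv, zpow_natCast, Int.natAbs_neg, Int.natAbs_natCast]

private theorem SR_inO_pos (i : Fin n) (γ : C.Root) (h : D.inO (C.simple i) γ) :
    C.Pos γ ∧ D.supp i γ := by
  have hl : ∀ l : ℕ, C.Pos (C.simple ((D.ρ ^ l) i)) ∧ D.supp i (C.simple ((D.ρ ^ l) i)) := by
    intro l
    refine ⟨C.simple_pos _, fun j hj => ?_⟩
    rw [SLC.simple_val] at hj
    have : j = (D.ρ ^ l) i := by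
      by_contra hne
      exact hj (Pi.single_eq_of_ne hne _)
    rw [this]
    exact ⟨l, by rw [zpow_natCast]⟩
  rcases h with ⟨l, rfl⟩ | h
  · rw [D.r_iter_simple]
    exact hl l
  · rw [D.r_simple] at h
    have h0 := hl 0
    have h1 := hl 1
    rw [pow_zero, Equiv.Perm.one_apply] at h0
    rw [pow_one] at h1
    refine ⟨?_, fun j hj => ?_⟩
    · have a1 := h0.1
      have a2 := h1.1
      unfold SLC.Pos at a1 a2 ⊢
      rw [h, ht_add]
      omega
    · rw [h, Pi.add_apply] at hj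
      by_cases h2 : (C.simple i).1 j = 0
      · exact h1.2 j (fun h3 => hj (by rw [h2, h3, add_zero]))
      · exact h0.2 j h2

private theorem SR_iter_neg (D : Dg C) (l : ℕ) (β : C.Root) : D.r^[l] (-β) = -(D.r^[l] β) := by
  induction l with
  | zero => rfl
  | succ l ih => rw [Function.iterate_succ_apply', Function.iterate_succ_apply', ih, D.r_neg]

private theorem SR_inO_neg (D : Dg C) (β γ : C.Root) (hγ : D.inO β γ) : D.inO (-β) (-γ) := by
  rcases hγ with ⟨l, rfl⟩ | h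
  · exact Or.inl ⟨l, (SR_iter_neg D l β).symm⟩
  · right
    rw [D.r_neg, SLC.Root.neg_val, SLC.Root.neg_val, SLC.Root.neg_val, h, neg_add]

private theorem SR_supp_neg (i : Fin n) (β : C.Root) (h : D.supp i β) : D.supp i (-β) := by
  intro j hj
  apply h j
  rw [SLC.Root.neg_val, Pi.neg_apply, neg_ne_zero] at hj
  exact hj

private theorem SR_w1 (D : Dg C) (i : Fin n) (γ : C.Root) (h : D.inO (C.simple i) γ) :
    D.inO (-(C.simple i)) (C.wd (D.wl i) γ) := by
  obtain ⟨h1, h2⟩ := SR_inO_pos i γ h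
  have h3 := D.wJ_neg i γ h1 h2
  rw [C.not_pos_iff] at h3
  have h4 := SR_supp_neg i _ ((D.wJ_supp i γ).mpr h2)
  have h5 := SR_inO_neg D _ _ (supp_inO D i _ h3 h4)
  rwa [C.neg_neg_root] at h5

private theorem SR_w2 (D : Dg C) (i : Fin n) (γ : C.Root) (h : D.inO (-(C.simple i)) γ) :
    D.inO (C.simple i) (C.wd (D.wl i) γ) := by
  have h1 := SR_inO_neg D _ _ h
  rw [C.neg_neg_root] at h1
  have h2 := SR_inO_neg D _ _ (SR_w1 D i _ h1)
  rwa [C.W_neg _ (C.wd_mem_W _), C.neg_neg_root, C.neg_neg_root] at h2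

private theorem SR_map (S : StSys C k H) (ν : H) (w : Equiv.Perm C.Root) (ha : S.Acts ν w)
    (β β' : C.Root) (hO : ∀ γ, D.inO β γ → D.inO β' (w γ)) (x : H) (hx : x ∈ XO D S β) :
    ν * x * ν⁻¹ ∈ XO D S β' := by
  obtain ⟨c, hc, hact⟩ := ha
  unfold XO at hx
  induction hx using Subgroup.closure_induction with
  | mem g hg =>
    obtain ⟨γ, t, hγ, rfl⟩ := hg
    rw [hact]
    exact Subgroup.subset_closure ⟨_, _, hO γ hγ, rfl⟩
  | one =>
    rw [mul_one, mul_inv_cancel]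
    exact Subgroup.one_mem _
  | mul a b _ _ ha hb =>
    have : ν * (a * b) * ν⁻¹ = (ν * a * ν⁻¹) * (ν * b * ν⁻¹) := by group
    rw [this]
    exact Subgroup.mul_mem _ ha hb
  | inv a _ ha =>
    have : ν * a⁻¹ * ν⁻¹ = (ν * a * ν⁻¹)⁻¹ := by group
    rw [this]
    exact Subgroup.inv_mem _ ha

/-- conjugation by `ν_J` exchanges the positive and negative simple root groups -/
theorem SR_ν (he : Env D θ S s p) (i : Fin n) (ν : H) (hν : ν ∈ S.N ⊓ Eg S s)
    (ha : S.Acts ν (C.wd (D.wl i))) :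
    (∀ x, x ∈ XO D S (C.simple i) ↔ ν * x * ν⁻¹ ∈ XO D S (-(C.simple i))) ∧
    (∀ x, x ∈ fixX D S s (C.simple i) ↔ ν * x * ν⁻¹ ∈ fixX D S s (-(C.simple i))) ∧
    ∃ l : ℕ, ∀ h ∈ S.T ⊓ Eg S s, C.chi (p (ν⁻¹ * h * ν) : Matrix C.Idx C.Idx k) (C.simple i) =
      ((⇑θ)^[l] (C.chi (p h : Matrix C.Idx C.Idx k) (C.simple i)))⁻¹ := by
  have hw2 : (C.wd (D.wl i))⁻¹ = C.wd (D.wl i) := by
    rw [inv_eq_iff_mul_eq_one]
    exact D.wJ_sq i
  have ha' : S.Acts ν⁻¹ (C.wd (D.wl i)) := by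
    have h1 := C.Acts_inv S ν _ ha
    rwa [hw2] at h1
  have hX : ∀ x, x ∈ XO D S (C.simple i) ↔ ν * x * ν⁻¹ ∈ XO D S (-(C.simple i)) := by
    intro x
    constructor
    · exact SR_map S ν _ ha _ _ (SR_w1 D i) x
    · intro hx
      have h1 := SR_map S ν⁻¹ _ ha' _ _ (SR_w2 D i) _ hx
      have h2 : ν⁻¹ * (ν * x * ν⁻¹) * ν⁻¹⁻¹ = x := by group
      rwa [h2] at h1
  have hsν : s ν = ν := Eg_le_fix S s ν hν.2
  have hfix : ∀ x, s x = x ↔ s (ν * x * ν⁻¹) = ν * x * ν⁻¹ := by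
    intro x
    rw [map_mul, map_mul, map_inv, hsν]
    constructor
    · intro h
      rw [h]
    · intro h
      exact mul_left_cancel (mul_right_cancel h)
  refine ⟨hX, fun x => ?_, ?_⟩
  · unfold fixX
    rw [Subgroup.mem_inf, Subgroup.mem_inf]
    exact and_congr (hX x) (hfix x)
  · obtain ⟨l, hl⟩ : ∃ l : ℕ, C.wd (D.wl i) (C.simple i) = -(D.r^[l] (C.simple i)) := by
      by_cases hadj : C.A i (D.ρ i) = -1
      · have hip : C.ip (C.simple i).1 (C.simple (D.ρ i)).1 = -1 := by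
          rw [SLC.simple_val, SLC.simple_val, SLC.ip_single]
          exact hadj
        obtain ⟨γ, hγ⟩ := C.exists_add _ _ hip
        refine ⟨1, ?_⟩
        rw [D.wJ_adj i hadj γ hγ, SLC.reflE_apply]
        apply SLC.Root.ext
        rw [SLC.refl_val, SLC.Root.neg_val]
        have h1 : C.ip γ.1 (C.simple i).1 = 1 := by
          rw [hγ, C.ip_add_left, (C.simple i).2, C.ip_comm (C.simple (D.ρ i)).1, hip]
          norm_num
        have h2 : (D.r^[1] (C.simple i)) = C.simple (D.ρ i) := D.r_simple i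
        rw [h1, h2, hγ]
        module
      · have h0 : D.inO (C.simple i) (C.simple i) := Or.inl ⟨0, rfl⟩
        rcases SR_w1 D i _ h0 with ⟨l, hl⟩ | hl
        · exact ⟨l, by rw [hl, SR_iter_neg]⟩
        · exfalso
          have h1 := C.ip_add_root _ _ _ hl
          rw [D.r_neg, SLC.Root.neg_val, SLC.Root.neg_val, C.ip_neg_neg, D.r_simple,
            SLC.simple_val, SLC.simple_val, SLC.ip_single] at h1
          exact hadj h1
    refine ⟨l, fun h hh => ?_⟩
    have hT : ν⁻¹ * h * ν ∈ S.T := by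
      have h1 := S.N_conj_T ν⁻¹ h (Subgroup.inv_mem _ hν.1) hh.1
      rwa [inv_inv] at h1
    obtain ⟨c, hc, hact⟩ := ha
    have h1 := (SR_T he _ hT (C.simple i) 1).2
    have h2 : ν⁻¹ * h * ν * S.x (C.simple i) 1 * (ν⁻¹ * h * ν)⁻¹ =
        ν⁻¹ * (h * (ν * S.x (C.simple i) 1 * ν⁻¹) * h⁻¹) * ν := by group
    rw [h2, hact, (SR_T he h hh.1 _ _).2] at h1
    have h3 := hact (C.simple i) (C.chi (p (ν⁻¹ * h * ν) : Matrix C.Idx C.Idx k) (C.simple i) * 1)
    rw [← h1] at h3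
    have h4 : ν * (ν⁻¹ * S.x ((C.wd (D.wl i)) (C.simple i))
        (C.chi (p h : Matrix C.Idx C.Idx k) ((C.wd (D.wl i)) (C.simple i)) *
          (c (C.simple i) * 1)) * ν) * ν⁻¹ = S.x ((C.wd (D.wl i)) (C.simple i))
        (C.chi (p h : Matrix C.Idx C.Idx k) ((C.wd (D.wl i)) (C.simple i)) *
          (c (C.simple i) * 1)) := by group
    rw [h4] at h3
    have h5 := SR_inj he _ _ _ (mul_ne_zero (SR_T he h hh.1 _ 0).1
      (mul_ne_zero (hc _) one_ne_zero)) h3
    rw [mul_one, mul_one, mul_comm] at h5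
    have h6 := mul_left_cancel₀ (hc _) h5
    rw [← h6, hl, SR_neg he h hh.1, SR_chi_iter he h hh.1 (Eg_le_fix S s h hh.2)]

/-- the element `ν_J` -/
noncomputable def nuJ (he : Env D θ S s p) (i : Fin n) : H :=
  (exists_nJ he.sig he.hθ he.hA i).choose

theorem nuJ_mem (he : Env D θ S s p) (i : Fin n) : nuJ he i ∈ S.N ⊓ Eg S s :=
  (exists_nJ he.sig he.hθ he.hA i).choose_spec.1

theorem nuJ_acts (he : Env D θ S s p) (i : Fin n) : S.Acts (nuJ he i) (C.wd (D.wl i)) :=
  (exists_nJ he.sig he.hθ he.hA i).choose_spec.2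

end Pool.Agent.H86.UM
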