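import Pool.Agent.H86.UM.FX
import Pool.Agent.H86.UM.SR
import Pool.Agent.H86.UM.KA2
import Pool.Agent.H75.UL.M0

/-!
# Project UM, module UNI: representations of `Eg S s` are unipotent on `fixU S s`

Apply `unipotent_matrix` (KA2) to `B = fixU S s ⊔ (S.T ⊓ Eg S s)` (a subgroup of `H` contained in `Eg S s`),
`U m = fixU S s ⊓ S.U (m + 1)`, restricted to `B`, and the restriction of `ρ'` to `B`.
* normal: `U_conj`, `T_conj_U`, and all elements are fixed by `s`. `M`: `exists_U_eq_bot`.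
* `hab`: commutators of elements of `S.U (m + 1)` are in `S.U (m + 2)` (see S3.lean, K2.lean).
* `hS` for `m`: let `c` run over `k0 = fixF θ`, `c ≠ 0`. By `exists_tor` with `v` an invariant vector with
  `ip v β = N * ht β` for all `β` (`N = det ≠ 0`, `v = ∑ y_j`, see `exists_dual`, invariant as in SR.lean)
  there is `τ_c ∈ S.T ⊓ Eg` with `τ_c x_β(u) τ_c⁻¹ = x_β(c ^ (N ht β) u)`. Choose an infinite set of `c`
  with pairwise different `c ^ (N (m + 1))` (`k0` is infinite, `SR_k0_inf`; the equation `c ^ e = d` has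
  finitely many solutions), and let the set be the set of these `τ_c`. For `w ∈ U m`: by `layer` (D3;
  hypotheses `inj_of_map`, `he.hB`) `w = v * u'` with `v` in the closure of the `fixX β`,
  `ht β = m + 1`. Scaling: for `λ ∈ k0` and `w ∈ U m` there is `u ∈ U m` whose coordinates at the roots of
  height `m + 1` are `λ` times those of `w`; by closure induction on `v` it is enough for `g ∈ fixX β`:
  `g = yb β t * z` (`fixX_form`), take `yb β (λ t) * z'` (`fixX_exists`). To formulate this: let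
  `P λ w u` be: for all `t : C.Root → k` with `w ∈ lp posList t * S.U (m + 2)`, `t` supported in height
  `m + 1`, `u ∈ lp posList (λ t) * S.U (m + 2)`; this is compatible with products by `lp_add_layer`,
  `exists_layer`; and `τ_c w τ_c⁻¹` has coordinates `c ^ (N (m + 1)) t`. With
  `λ = (c ^ (N (m + 1)) - c' ^ (N (m + 1)))⁻¹` the element `u` satisfies
  `w⁻¹ * (τ_c u τ_c⁻¹ * (τ_c' u τ_c'⁻¹)⁻¹) ∈ S.U (m + 2)`.
`uniE'`: apply `uniE` to `mp` to the algebraic closure, or directly base change the matrices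
(`nilpotent_map_iff` in M0 for `C.Idx`).
-/

set_option autoImplicit false
open Matrix

namespace Pool.Agent.H86.UM

open Pool.Agent.H75.UL

variable {n : ℕ} {C : SLC n} {D : Dg C} {k : Type*} [Field k] {θ : k ≃+* k} {H : Type*} [Group H]
  {S : StSys C k H} {s : H →* H} {p : H →* GL C.Idx k}

/-! ### coordinates in one height -/

private theorem UNI_conj' (S : StSys C k H) (m : ℤ) (hm : 1 ≤ m) (g u : H) (hg : g ∈ S.U 1)
    (hu : u ∈ S.U m) : g⁻¹ * u * g ∈ S.U m := by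
  have := S.U_conj m hm g⁻¹ u (inv_mem hg) hu
  rwa [inv_inv] at this

private theorem UNI_single (S : StSys C k H) (β : C.Root) (a : k) (l : List C.Root) (hl : l.Nodup)
    (hβ : β ∈ l) : S.lp l (fun γ => if γ = β then a else 0) = S.x β a := by
  have hcons : ∀ (β : C.Root) (l : List C.Root) (t : C.Root → k),
      S.lp (β :: l) t = S.x β (t β) * S.lp l t := by
    intro β l t
    unfold StSys.lp
    rw [List.map_cons, List.prod_cons]
  induction l with
  | nil => simp at hβ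
  | cons γ l ih =>
    rw [hcons]
    rw [List.nodup_cons] at hl
    by_cases h : γ = β
    · subst h
      rw [S.lp_zero l, if_pos rfl, mul_one]
      intro δ hδ
      rw [if_neg]
      rintro rfl
      exact hl.1 hδ
    · rw [if_neg h, S.x_zero, one_mul]
      refine ih hl.2 ?_
      rw [List.mem_cons] at hβ
      rcases hβ with rfl | hβ
      · exact absurd rfl h
      · exact hβ

/-- `g` has the coordinates `t` in height `m`. -/
private def UNI_Co (S : StSys C k H) (m : ℤ) (g : H) (t : C.Root → k) : Prop :=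
  (∀ β, ht β.1 ≠ m → t β = 0) ∧ ∃ u' ∈ S.U (m + 1), g = S.lp C.posList t * u'

private theorem UNI_lp_mem (S : StSys C k H) (m : ℤ) (hm : 1 ≤ m) (t : C.Root → k)
    (h : ∀ β, ht β.1 ≠ m → t β = 0) : S.lp C.posList t ∈ S.U 1 :=
  S.lp_mem 1 t fun γ hγ => h γ (by omega)

private theorem UNI_Co_mul {m : ℤ} (hm : 1 ≤ m) {g g' : H} {t t' : C.Root → k}
    (h : UNI_Co S m g t) (h' : UNI_Co S m g' t') :
    UNI_Co S m (g * g') (fun β => t β + t' β) := by
  obtain ⟨h0, a, ha, rfl⟩ := h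
  obtain ⟨h0', b, hb, rfl⟩ := h'
  obtain ⟨c, hc, e⟩ := S.lp_add_layer m hm t t' h0 h0'
  refine ⟨fun β hβ => by beta_reduce; rw [h0 β hβ, h0' β hβ, add_zero], ?_⟩
  refine ⟨c⁻¹ * ((S.lp C.posList t')⁻¹ * a * S.lp C.posList t') * b,
    mul_mem (mul_mem (inv_mem hc) ?_) hb, ?_⟩
  · exact UNI_conj' S (m + 1) (by omega) _ _ (UNI_lp_mem S m hm t' h0') ha
  · rw [e]
    group

private theorem UNI_Co_zero {m : ℤ} {g : H} (h : g ∈ S.U (m + 1)) :
    UNI_Co S m g (fun _ => 0) :=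
  ⟨fun _ _ => rfl, g, h, by rw [S.lp_zero _ _ (fun _ _ => rfl), one_mul]⟩

private theorem UNI_Co_of_zero {m : ℤ} {g : H} {t : C.Root → k} (h : UNI_Co S m g t)
    (h0 : ∀ β, t β = 0) : g ∈ S.U (m + 1) := by
  obtain ⟨-, a, ha, rfl⟩ := h
  rw [S.lp_zero _ _ (fun β _ => h0 β), one_mul]
  exact ha

private theorem UNI_Co_inv {m : ℤ} (hm : 1 ≤ m) {g : H} {t : C.Root → k} (h : UNI_Co S m g t) :
    UNI_Co S m g⁻¹ (fun β => - t β) := by
  obtain ⟨h0, a, ha, rfl⟩ := h
  have h0' : ∀ β, ht β.1 ≠ m → (fun β => - t β) β = 0 := by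
    intro β hβ
    simp [h0 β hβ]
  obtain ⟨c, hc, e⟩ := S.lp_add_layer m hm t (fun β => - t β) h0 h0'
  rw [S.lp_zero _ _ (fun β _ => add_neg_cancel _)] at e
  have e2 : (S.lp C.posList t)⁻¹ = S.lp C.posList (fun β => - t β) * c := by
    rw [inv_eq_iff_mul_eq_one, ← mul_assoc]
    exact e.symm
  refine ⟨h0', ((S.lp C.posList (fun β => - t β))⁻¹ * a⁻¹ * S.lp C.posList (fun β => - t β)) * c,
    mul_mem ?_ hc, ?_⟩
  · exact UNI_conj' S (m + 1) (by omega) _ _ (UNI_lp_mem S m hm _ h0') (inv_mem ha)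
  · rw [_root_.mul_inv_rev, e2]
    group

private theorem UNI_Co_x (S : StSys C k H) {m : ℤ} (hm : 1 ≤ m) (β : C.Root) (hβ : ht β.1 = m)
    (a : k) : UNI_Co S m (S.x β a) (fun γ => if γ = β then a else 0) := by
  refine ⟨fun γ hγ => ?_, 1, one_mem _, ?_⟩
  · beta_reduce
    rw [if_neg]
    rintro rfl
    exact hγ hβ
  · rw [mul_one, UNI_single S β a C.posList C.posList_nodup]
    rw [C.mem_posList]
    unfold SLC.Pos
    omega

private theorem UNI_Co_conj {m : ℤ} {g : H} {t : C.Root → k} (h : UNI_Co S m g t) (τ : H)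
    (hτ : τ ∈ S.T) (c : C.Root → k) (hc : ∀ β u, τ * S.x β u * τ⁻¹ = S.x β (c β * u)) :
    UNI_Co S m (τ * g * τ⁻¹) (fun β => c β * t β) := by
  obtain ⟨h0, a, ha, rfl⟩ := h
  refine ⟨fun β hβ => by beta_reduce; rw [h0 β hβ, mul_zero], τ * a * τ⁻¹, S.T_conj_U (m + 1) τ a hτ ha, ?_⟩
  have e : ∀ l : List C.Root, τ * S.lp l t * τ⁻¹ = S.lp l (fun β => c β * t β) := by
    intro l
    induction l with
    | nil => simp [StSys.lp]
    | cons β l ih =>
      unfold StSys.lp at ih ⊢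
      rw [List.map_cons, List.prod_cons, List.map_cons, List.prod_cons, ← ih, ← hc]
      group
  rw [← e]
  group

/-- The relation: the coordinates of `g'` are `c` times those of `g`. -/
private def UNI_R (S : StSys C k H) (m : ℤ) (c : k) (g g' : H) : Prop :=
  ∃ t, UNI_Co S m g t ∧ UNI_Co S m g' (fun β => c * t β)

private theorem UNI_R_mul {m : ℤ} (hm : 1 ≤ m) {c : k} {g g' h h' : H} (h1 : UNI_R S m c g g')
    (h2 : UNI_R S m c h h') : UNI_R S m c (g * h) (g' * h') := by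
  obtain ⟨t, a1, a2⟩ := h1
  obtain ⟨t', b1, b2⟩ := h2
  refine ⟨_, UNI_Co_mul hm a1 b1, ?_⟩
  have := UNI_Co_mul hm a2 b2
  simpa only [mul_add] using this

private theorem UNI_R_inv {m : ℤ} (hm : 1 ≤ m) {c : k} {g g' : H} (h1 : UNI_R S m c g g') :
    UNI_R S m c g⁻¹ g'⁻¹ := by
  obtain ⟨t, a1, a2⟩ := h1
  refine ⟨_, UNI_Co_inv hm a1, ?_⟩
  have := UNI_Co_inv hm a2
  simpa only [mul_neg] using this

private theorem UNI_R_zero {m : ℤ} (c : k) {g g' : H} (h1 : g ∈ S.U (m + 1))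
    (h2 : g' ∈ S.U (m + 1)) : UNI_R S m c g g' := by
  refine ⟨_, UNI_Co_zero h1, ?_⟩
  have := UNI_Co_zero (S := S) (m := m) h2
  simpa only [mul_zero] using this

private theorem UNI_R_x (S : StSys C k H) {m : ℤ} (hm : 1 ≤ m) (c : k) (β : C.Root)
    (hβ : ht β.1 = m) (a : k) : UNI_R S m c (S.x β a) (S.x β (c * a)) := by
  refine ⟨_, UNI_Co_x S hm β hβ a, ?_⟩
  have := UNI_Co_x S hm β hβ (c * a)
  simpa only [mul_ite, mul_zero] using this

private theorem UNI_ZZ (S : StSys C k H) {m : ℤ} (hm : 1 ≤ m) (β : C.Root) (hβ : ht β.1 = m)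
    (z : H) (hz : z ∈ ZZ D S β) : z ∈ S.U (m + 1) := by
  have h : ZZ D S β ≤ S.U (m + 1) := by
    unfold ZZ
    rw [Subgroup.closure_le]
    rintro g ⟨γ, v, hγ, rfl⟩
    refine Subgroup.subset_closure ⟨γ, v, ?_, rfl⟩
    rw [hγ, ht_add, D.r_ht]
    omega
  exact h hz

private theorem UNI_ht_iter (β : C.Root) (l : ℕ) : ht (D.r^[l] β).1 = ht β.1 := by
  induction l with
  | zero => rfl
  | succ l ih => rw [Function.iterate_succ_apply', D.r_ht, ih]

private theorem UNI_θ_iter (θ : k ≃+* k) (c : k) (hc : θ c = c) (t : k) (l : ℕ) :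
    (⇑θ)^[l] (c * t) = c * (⇑θ)^[l] t := by
  induction l with
  | zero => rfl
  | succ l ih => rw [Function.iterate_succ_apply', ih, Function.iterate_succ_apply', map_mul, hc]

private theorem UNI_R_yb (he : Env D θ S s p) {m : ℤ} (hm : 1 ≤ m) (c : k) (hc : θ c = c)
    (β : C.Root) (hβ : ht β.1 = m) (t : k) :
    UNI_R S m c (yb D S s β t) (yb D S s β (c * t)) := by
  have key : ∀ j : ℕ, UNI_R S m c ((List.range j).map fun l => s^[l] (S.x β t)).prod
      ((List.range j).map fun l => s^[l] (S.x β (c * t))).prod := by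
    intro j
    induction j with
    | zero => exact UNI_R_zero c (one_mem _) (one_mem _)
    | succ j ih =>
      rw [List.range_succ, List.map_append, List.prod_append, List.map_append, List.prod_append]
      refine UNI_R_mul hm ih ?_
      simp only [List.map_cons, List.map_nil, List.prod_cons, List.prod_nil, mul_one]
      rw [he.sig.iter, he.sig.iter, UNI_θ_iter θ c hc]
      have := UNI_R_x S hm c (D.r^[j] β) (by rw [UNI_ht_iter]; exact hβ)
        ((D.sgp j β : k) * (⇑θ)^[j] t)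
      have e : c * ((D.sgp j β : k) * (⇑θ)^[j] t) = (D.sgp j β : k) * (c * (⇑θ)^[j] t) := by ring
      rwa [e] at this
  exact key _

private theorem UNI_fixX_le (S : StSys C k H) (s : H →* H) {m : ℤ} (β : C.Root)
    (hβ : ht β.1 = m) (hm : 1 ≤ m) (g : H) (hg : g ∈ fixX D S s β) : g ∈ S.U m ∧ s g = g := by
  have hp : C.Pos β := by
    unfold SLC.Pos
    omega
  refine ⟨?_, hg.2⟩
  have := XO_le_U S β hp hg.1
  rwa [hβ] at this

/-- Scaling by elements of the fixed field. -/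
private theorem UNI_scale (he : Env D θ S s p) {m : ℤ} (hm : 1 ≤ m) (c : k) (hc : θ c = c) (w : H)
    (hw : w ∈ S.U m) (hs : s w = w) : ∃ u ∈ S.U m, s u = u ∧ UNI_R S m c w u := by
  obtain ⟨v, hv, u', hu', hsu', rfl⟩ :=
    layer (inj_of_map S p he.hp).1 he.sig he.hθ he.hB m hm w hw hs
  have key : ∃ u ∈ S.U m, s u = u ∧ UNI_R S m c v u := by
    clear hw hs
    induction hv using Subgroup.closure_induction with
    | mem g hg =>
      obtain ⟨β, hβ, hg⟩ := hg
      have hp : C.Pos β := by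
        unfold SLC.Pos
        omega
      obtain ⟨t, ht, z, hz, rfl⟩ := fixX_form he β hp g hg
      obtain ⟨z', hz', h'⟩ := fixX_exists he β hp (c * t) (by
        intro hr
        rw [map_mul, hc]
        have := ht hr
        calc (D.sg β : k) * (c * θ t) = c * ((D.sg β : k) * θ t) := by ring
          _ = c * t := by rw [this])
      obtain ⟨a1, a2⟩ := UNI_fixX_le S s β hβ hm _ h'
      exact ⟨_, a1, a2, UNI_R_mul hm (UNI_R_yb he hm c hc β hβ t)
        (UNI_R_zero c (UNI_ZZ S hm β hβ z hz) (UNI_ZZ S hm β hβ z' hz'))⟩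
    | one => exact ⟨1, one_mem _, map_one s, UNI_R_zero c (one_mem _) (one_mem _)⟩
    | mul a b _ _ ha hb =>
      obtain ⟨u, a1, a2, a3⟩ := ha
      obtain ⟨u2, b1, b2, b3⟩ := hb
      exact ⟨u * u2, mul_mem a1 b1, by rw [map_mul, a2, b2], UNI_R_mul hm a3 b3⟩
    | inv a _ ha =>
      obtain ⟨u, a1, a2, a3⟩ := ha
      exact ⟨u⁻¹, inv_mem a1, by rw [map_inv, a2], UNI_R_inv hm a3⟩
  obtain ⟨u, a1, a2, a3⟩ := key
  refine ⟨u, a1, a2, ?_⟩
  have := UNI_R_mul hm a3 (UNI_R_zero (g := u') (g' := 1) c hu' (one_mem _))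
  rwa [mul_one] at this

/-- commutators -/
private theorem UNI_comm (S : StSys C k H) (m : ℤ) (hm : 1 ≤ m) (x y : H) (hx : x ∈ S.U m)
    (hy : y ∈ S.U m) : x * y * x⁻¹ * y⁻¹ ∈ S.U (m + 1) := by
  obtain ⟨t, h0, a, ha, e⟩ := S.exists_layer m hm x hx
  obtain ⟨t', h0', b, hb, e'⟩ := S.exists_layer m hm y hy
  have hX : UNI_Co S m x t := ⟨h0, a, ha, e⟩
  have hY : UNI_Co S m y t' := ⟨h0', b, hb, e'⟩
  refine UNI_Co_of_zero (UNI_Co_mul hm (UNI_Co_mul hm (UNI_Co_mul hm hX hY) (UNI_Co_inv hm hX))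
    (UNI_Co_inv hm hY)) ?_
  intro β
  ring

/-! ### the torus -/

private theorem UNI_lmap_ht (ρ : Equiv.Perm (Fin n)) (v : Fin n → ℤ) :
    ht (SLC.lmap ρ v) = ht v := by
  unfold ht
  exact Equiv.sum_comp ρ.symm v

private theorem UNI_vec (D : Dg C) : ∃ v : Fin n → ℤ, SLC.lmap D.ρ v = v ∧
    ∀ w, C.ip v w = C.A.det * ht w := by
  choose y hy using C.exists_dual
  have hv : ∀ w, C.ip w (∑ i, y i) = C.A.det * ht w := by
    intro w
    have h1 : ∀ S : Finset (Fin n), C.ip w (∑ i ∈ S, y i) = ∑ i ∈ S, C.A.det * w i := by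
      intro S
      classical
      induction S using Finset.induction_on with
      | empty => simp [C.ip_zero_right]
      | insert i S hi ih => rw [Finset.sum_insert hi, C.ip_add_right, ih, hy,
          Finset.sum_insert hi]
    rw [h1]
    unfold ht
    rw [Finset.mul_sum]
  refine ⟨∑ i, y i, ?_, fun w => by rw [C.ip_comm, hv]⟩
  set v := ∑ i, y i with hvd
  have h2 : ∀ w, C.ip w (SLC.lmap D.ρ v) = C.ip w v := by
    intro w
    have e : w = SLC.lmap D.ρ (fun i => w (D.ρ i)) := by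
      funext i
      simp [SLC.lmap]
    have h3 : ht (fun i => w (D.ρ i)) = ht w := by
      unfold ht
      exact Equiv.sum_comp D.ρ w
    conv_lhs => rw [e]
    rw [C.ip_lmap D.ρ D.hρ, hv, hv, h3]
  by_contra hne
  have h4 : SLC.lmap D.ρ v - v ≠ 0 := sub_ne_zero.2 hne
  have h5 := C.ip_pos _ h4
  rw [C.ip_sub_right, h2, sub_self] at h5
  exact lt_irrefl _ h5

private theorem UNI_fin (e : ℤ) (he : e ≠ 0) (d : k) : {c : k | c ^ e = d}.Finite := by
  classical
  have hE : 0 < e.natAbs := Int.natAbs_pos.2 he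
  refine Set.Finite.subset ((Polynomial.nthRoots e.natAbs d).toFinset ∪
    (Polynomial.nthRoots e.natAbs d⁻¹).toFinset).finite_toSet ?_
  intro c hc
  have hc' : c ^ e = d := hc
  rw [Finset.mem_coe, Finset.mem_union, Multiset.mem_toFinset, Multiset.mem_toFinset,
    Polynomial.mem_nthRoots hE, Polynomial.mem_nthRoots hE]
  rcases Int.natAbs_eq e with h | h
  · left
    rw [h, zpow_natCast] at hc'
    exact hc'
  · right
    rw [h, _root_.zpow_neg, zpow_natCast] at hc'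
    rw [← hc', inv_inv]

private theorem UNI_inf (he : Env D θ S s p) (e : ℤ) (he0 : e ≠ 0) :
    {d : k | ∃ c, θ c = c ∧ c ≠ 0 ∧ c ^ e = d}.Infinite := by
  intro hfin
  have hinf := SR_k0_inf he
  have h1 : {c : k | θ c = c ∧ c ≠ 0}.Finite := by
    refine Set.Finite.subset (hfin.biUnion fun d _ => UNI_fin e he0 d) ?_
    rintro c ⟨h1, h2⟩
    rw [Set.mem_iUnion₂]
    exact ⟨c ^ e, ⟨c, h1, h2, rfl⟩, rfl⟩
  have h2 : {c : k | θ c = c}.Finite := by
    refine Set.Finite.subset (h1.union (Set.finite_singleton (0 : k))) ?_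
    intro c hc
    by_cases h0 : c = 0
    · right; exact h0
    · left; exact ⟨hc, h0⟩
  have h3 : ((fixF θ : Subfield k) : Set k).Finite := h2
  exact (Set.infinite_coe_iff.1 hinf) h3

private theorem UNI_layer (he : Env D θ S s p) (hn : 0 < n) (m : ℤ) (hm : 1 ≤ m) :
    ∃ Q : Set H, Q.Infinite ∧ (∀ τ ∈ Q, τ ∈ S.T ⊓ Eg S s) ∧ ∀ τ ∈ Q, ∀ τ' ∈ Q, τ ≠ τ' →
      ∀ w ∈ S.U m, s w = w → ∃ u ∈ S.U m, s u = u ∧
        w⁻¹ * (τ * u * τ⁻¹ * (τ' * u * τ'⁻¹)⁻¹) ∈ S.U (m + 1) := by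
  obtain ⟨v, hv, hip⟩ := UNI_vec D
  have hdet := C.det_ne_zero
  have he0 : C.A.det * m ≠ 0 := mul_ne_zero hdet (by omega)
  have hI := UNI_inf he (C.A.det * m) he0
  set I := {d : k | ∃ c, θ c = c ∧ c ≠ 0 ∧ c ^ (C.A.det * m) = d} with hId
  have hch : ∀ d : I, ∃ c : k, θ c = c ∧ c ≠ 0 ∧ c ^ (C.A.det * m) = d.1 := fun d => d.2
  choose c hc1 hc2 hc3 using hch
  have htor : ∀ d : I, ∃ τ ∈ S.T ⊓ Eg S s, ∀ γ u, τ * S.x γ u * τ⁻¹ =
      S.x γ (c d ^ C.ip v γ.1 * u) := fun d =>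
    exists_tor he.sig he.hθ he.hA v hv (c d) (hc2 d) (hc1 d)
  choose τ hτ1 hτ2 using htor
  have hinj : Function.Injective τ := by
    intro d d' hdd
    have h1 := hτ2 d (C.simple ⟨0, hn⟩) 1
    have h2 := hτ2 d' (C.simple ⟨0, hn⟩) 1
    rw [← hdd, h1] at h2
    have h3 := congrArg p h2
    rw [he.hp, he.hp, hip, C.ht_simple, mul_one, mul_one, mul_one] at h3
    have h4 := (C.xg_inj _ _ _ _ (zpow_ne_zero _ (hc2 d)) h3).2
    apply Subtype.ext
    rw [← hc3 d, ← hc3 d', _root_.zpow_mul, _root_.zpow_mul, h4]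
  have hθd : ∀ d : I, θ d.1 = d.1 := by
    intro d
    rw [← hc3 d, map_zpow₀, hc1]
  have : Infinite I := hI.to_subtype
  refine ⟨Set.range τ, Set.infinite_range_of_injective hinj, ?_, ?_⟩
  · rintro _ ⟨d, rfl⟩
    exact hτ1 d
  · rintro _ ⟨d, rfl⟩ _ ⟨d', rfl⟩ hne w hw hsw
    have hdd : d.1 - d'.1 ≠ 0 := by
      rw [sub_ne_zero]
      intro h
      apply hne
      rw [Subtype.ext h]
    obtain ⟨u, hu1, hu2, t, ht1, ht2⟩ := UNI_scale he hm (d.1 - d'.1)⁻¹
      (by rw [map_inv₀, map_sub, hθd, hθd]) w hw hsw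
    refine ⟨u, hu1, hu2, ?_⟩
    have a1 := UNI_Co_conj ht2 (τ d) (hτ1 d).1 (fun γ => c d ^ C.ip v γ.1) (hτ2 d)
    have a2 := UNI_Co_conj ht2 (τ d') (hτ1 d').1 (fun γ => c d' ^ C.ip v γ.1) (hτ2 d')
    refine UNI_Co_of_zero (UNI_Co_mul hm (UNI_Co_inv hm ht1)
      (UNI_Co_mul hm a1 (UNI_Co_inv hm a2))) ?_
    intro β
    by_cases hβ : ht β.1 = m
    · simp only [hip, hβ, hc3]
      field_simp
      ring
    · simp only [ht1.1 β hβ]
      ring

private theorem UNI_sup_le (S : StSys C k H) (s : H →* H) :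
    fixU S s ⊔ (S.T ⊓ Eg S s) ≤ Eg S s :=
  sup_le le_sup_left inf_le_right

/-- The normaliser of `S.U m`. -/
private def UNI_Nm (S : StSys C k H) (m : ℤ) : Subgroup H where
  carrier := {b | (∀ u ∈ S.U m, b * u * b⁻¹ ∈ S.U m) ∧ ∀ u ∈ S.U m, b⁻¹ * u * b ∈ S.U m}
  one_mem' := ⟨fun u hu => by simpa using hu, fun u hu => by simpa using hu⟩
  mul_mem' := by
    rintro a b ⟨ha1, ha2⟩ ⟨hb1, hb2⟩
    refine ⟨fun u hu => ?_, fun u hu => ?_⟩
    · have e : a * b * u * (a * b)⁻¹ = a * (b * u * b⁻¹) * a⁻¹ := by group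
      rw [e]
      exact ha1 _ (hb1 u hu)
    · have e : (a * b)⁻¹ * u * (a * b) = b⁻¹ * (a⁻¹ * u * a) * b := by group
      rw [e]
      exact hb2 _ (ha2 u hu)
  inv_mem' := by
    rintro a ⟨ha1, ha2⟩
    refine ⟨fun u hu => ?_, fun u hu => ?_⟩
    · rw [inv_inv]
      exact ha2 u hu
    · rw [inv_inv]
      exact ha1 u hu

private theorem UNI_normal (S : StSys C k H) (s : H →* H) (m : ℤ) (hm : 1 ≤ m) (b : H)
    (hb : b ∈ fixU S s ⊔ (S.T ⊓ Eg S s)) (u : H) (hu : u ∈ S.U m) : b * u * b⁻¹ ∈ S.U m := by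
  have key : fixU S s ⊔ (S.T ⊓ Eg S s) ≤ UNI_Nm S m := by
    refine sup_le ?_ ?_
    · intro x hx
      exact ⟨fun u hu => S.U_conj m hm x u hx.1 hu, fun u hu => UNI_conj' S m hm x u hx.1 hu⟩
    · intro x hx
      refine ⟨fun u hu => S.T_conj_U m x u hx.1 hu, fun u hu => ?_⟩
      have := S.T_conj_U m x⁻¹ u (inv_mem hx.1) hu
      rwa [inv_inv] at this
  exact (key hb).1 u hu

theorem uniE (he : Env D θ S s p) {L κ : Type*} [Field L] [IsAlgClosed L] [Fintype κ]
    [DecidableEq κ] (ρ' : Eg S s →* GL κ L) (u : Eg S s) (hu : (u : H) ∈ fixU S s) :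
    IsNilpotent ((ρ' u : Matrix κ κ L) - 1) := by
  rcases Nat.eq_zero_or_pos n with hn | hn
  · -- no roots
    subst hn
    have hbot : S.U 1 = ⊥ := by
      unfold StSys.U
      rw [Subgroup.closure_eq_bot_iff]
      rintro g ⟨β, t, -, -⟩
      exact absurd (Subsingleton.elim β.1 0) (C.root_ne_zero β)
    have h1 : (u : H) ∈ S.U 1 := hu.1
    rw [hbot, Subgroup.mem_bot] at h1
    have h2 : u = 1 := Subtype.ext h1
    rw [h2, map_one]
    simp
  · set B : Subgroup H := fixU S s ⊔ (S.T ⊓ Eg S s) with hB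
    have hBE : B ≤ Eg S s := UNI_sup_le S s
    have hBs : ∀ b ∈ B, s b = b := fun b hb => Eg_le_fix S s b (hBE hb)
    obtain ⟨M, hM1, -, hM3⟩ := S.exists_U_eq_bot
    let V : ℕ → Subgroup H := fun m => fixU S s ⊓ S.U ((m : ℤ) + 1)
    have hVB : ∀ m, V m ≤ B := fun m => inf_le_left.trans le_sup_left
    let U : ℕ → Subgroup B := fun m => (V m).subgroupOf B
    have hfix : ∀ (m : ℕ) (x : H), x ∈ S.U ((m : ℤ) + 1) → s x = x → x ∈ V m := by
      intro m x hx hs
      exact ⟨⟨S.U_mono (by omega) hx, hs⟩, hx⟩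
    have hmul : ∀ b ∈ B, ∀ x, s x = x → s (b * x * b⁻¹) = b * x * b⁻¹ := by
      intro b hb x hx
      rw [map_mul, map_mul, map_inv, hBs b hb, hx]
    have hU0 : (⟨(u : H), Subgroup.mem_sup_left hu⟩ : B) ∈ U 0 := by
      rw [Subgroup.mem_subgroupOf]
      refine ⟨hu, ?_⟩
      have : (((0 : ℕ) : ℤ) + 1) = 1 := by norm_num
      rw [this]
      exact hu.1
    have := unipotent_matrix M.toNat U ?_ ?_ ?_ ?_ ?_ (ρ'.comp (Subgroup.inclusion hBE))
      ⟨(u : H), Subgroup.mem_sup_left hu⟩ hU0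
    · exact this
    · intro m
      refine ⟨fun x hx b => ?_⟩
      rw [Subgroup.mem_subgroupOf] at hx ⊢
      refine hfix m _ ?_ ?_
      · exact UNI_normal S s _ (by omega) b.1 b.2 _ hx.2
      · exact hmul b.1 b.2 _ hx.1.2
    · intro m x hx
      rw [Subgroup.mem_subgroupOf] at hx ⊢
      exact ⟨hx.1, S.U_mono (by push_cast; omega) hx.2⟩
    · rw [eq_bot_iff]
      intro x hx
      rw [Subgroup.mem_subgroupOf] at hx
      have h1 : (x : H) ∈ S.U M := S.U_mono (by omega) hx.2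
      rw [hM3, Subgroup.mem_bot] at h1
      rw [Subgroup.mem_bot]
      exact Subtype.ext h1
    · intro m _ x hx y hy
      rw [Subgroup.mem_subgroupOf] at hx hy ⊢
      refine hfix (m + 1) _ ?_ ?_
      · have := UNI_comm S ((m : ℤ) + 1) (by omega) _ _ hx.2 hy.2
        push_cast
        exact this
      · have h1 := hx.1.2
        have h2 := hy.1.2
        have h1' : s x = x := h1
        have h2' : s y = y := h2
        push_cast
        rw [map_mul, map_mul, map_mul, map_inv, map_inv, h1', h2']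
    · intro m _
      obtain ⟨Q, hQ1, hQ2, hQ3⟩ := UNI_layer he hn ((m : ℤ) + 1) (by omega)
      refine ⟨(Subtype.val : B → H) ⁻¹' Q, ?_, ?_⟩
      · refine hQ1.preimage ?_
        intro τ hτ
        exact ⟨⟨τ, Subgroup.mem_sup_right (hQ2 τ hτ)⟩, rfl⟩
      · intro τ hτ τ' hτ' hne w hw
        rw [Subgroup.mem_subgroupOf] at hw
        obtain ⟨u, hu1, hu2, hu3⟩ := hQ3 τ.1 hτ τ'.1 hτ' (fun h => hne (Subtype.ext h)) w.1 hw.2
          hw.1.2
        have huV : u ∈ V m := hfix m u hu1 hu2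
        refine ⟨⟨u, hVB m huV⟩, ?_, ?_⟩
        · rw [Subgroup.mem_subgroupOf]
          exact huV
        · rw [Subgroup.mem_subgroupOf]
          refine hfix (m + 1) _ ?_ ?_
          · push_cast
            exact hu3
          · exact hBs _ (Subtype.property _)

theorem uniE' (he : Env D θ S s p) {K : Type*} [Field K] (Ψ : Eg S s →* GL C.Idx K)
    (u : Eg S s) (hu : (u : H) ∈ fixU S s) :
    IsNilpotent ((Ψ u : Matrix C.Idx C.Idx K) - 1) := by
  have h := uniE he ((C.mp (algebraMap K (AlgebraicClosure K))).comp Ψ) u hu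
  rw [← C.nilpotent_map_iff (algebraMap K (AlgebraicClosure K))
    (algebraMap K (AlgebraicClosure K)).injective]
  have e : ((((C.mp (algebraMap K (AlgebraicClosure K))).comp Ψ) u :
      GL C.Idx (AlgebraicClosure K)) : Matrix C.Idx C.Idx (AlgebraicClosure K)) =
      (Ψ u : Matrix C.Idx C.Idx K).map (algebraMap K (AlgebraicClosure K)) := C.mp_val _ _
  rw [e] at h
  rw [Matrix.map_sub _ (map_sub _), Matrix.map_one _ (map_zero _) (map_one _)]
  exact h

end Pool.Agent.H86.UM
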