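import Pool.Agent.H86.UM.Src
import Pool.Agent.H75.UL.P3a

/-!
# Project UM, module CT: conjugation of the torus

`torus_chamber'`: copy the proof of `torus_chamber` (H75/UL/T9.lean); the hypothesis `hinj` is not
used there.
`conj_torus'`: as in `conj_torus` of H75/UL/P3a.lean: `t₀ ∈ S.T` regular; `Ψ t₀ = τ u` (`upper`),
`chi τ = chi (Ψ t₀)` (`chi_mul_U`), `conj_T` gives `w ∈ U 1` with `w⁻¹ (Ψ t₀) w = τ`; for `h ∈ S.T`
`w⁻¹ (Ψ h) w` is in `Gad`, satisfies `Fil 0`, commutes with `τ`, so is in `T` (`centralizer_B`).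
`Tgt_conj`: the homomorphism `w⁻¹ Ψ w`, `w ∈ U 1`, satisfies the same hypotheses with the same `fib`,
as `xi j` is invariant under conjugation by elements of `U 1` (`xi_mul`, `xi_inv`) and `chi` of elements
of `B` as well (`chi_mul`).
-/

set_option autoImplicit false
open Matrix

universe u
namespace Pool.Agent.H75.UL

namespace SLC
variable {n : ℕ} (C : SLC n) {K : Type*} [Field K]

/-- `M` strictly lowers the height. -/
private def CT_Low {R : Type*} [CommRing R] (M : Matrix C.Idx C.Idx R) : Prop :=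
  ∀ a b, C.hti b ≤ C.hti a → M a b = 0

private theorem CT_low_zero {R : Type*} [CommRing R] : C.CT_Low (0 : Matrix C.Idx C.Idx R) :=
  fun _ _ _ => rfl

private theorem CT_low_add {R : Type*} [CommRing R] {M N : Matrix C.Idx C.Idx R}
    (hM : C.CT_Low M) (hN : C.CT_Low N) : C.CT_Low (M + N) := by
  intro a b hab
  rw [Matrix.add_apply, hM a b hab, hN a b hab, add_zero]

private theorem CT_low_smul {R : Type*} [CommRing R] (c : R) {M : Matrix C.Idx C.Idx R}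
    (hM : C.CT_Low M) : C.CT_Low (c • M) := by
  intro a b hab
  rw [Matrix.smul_apply, hM a b hab, smul_zero]

private theorem CT_low_mul {R : Type*} [CommRing R] {M N : Matrix C.Idx C.Idx R}
    (hM : C.CT_Low M) (hN : C.CT_Low N) : C.CT_Low (M * N) := by
  intro a b hab
  rw [Matrix.mul_apply]
  refine Finset.sum_eq_zero fun c _ => ?_
  by_cases h1 : C.hti c ≤ C.hti a
  · rw [hM a c h1, zero_mul]
  · rw [hN c b (by omega), mul_zero]

private theorem CT_low_E {R : Type*} [CommRing R] (α : C.Root) (hα : ht α.1 < 0) :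
    C.CT_Low ((C.E α).map (Int.cast : ℤ → R)) := by
  have h : ∀ a b, C.hti b ≤ C.hti a → C.E α a b = 0 := by
    intro a b hab
    rcases a with i | γ <;> rcases b with j | β
    · rfl
    · simp only [hti, Sum.elim_inl, Sum.elim_inr] at hab
      simp only [E]
      rw [if_neg]
      intro h1
      rw [h1, ht_neg] at hab
      omega
    · simp only [hti, Sum.elim_inl, Sum.elim_inr] at hab
      simp only [E]
      rw [if_neg]
      intro h1
      rw [h1] at hab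
      omega
    · simp only [hti, Sum.elim_inr] at hab
      simp only [E]
      rw [if_neg]
      intro h1
      rw [h1, ht_add] at hab
      omega
  intro a b hab
  rw [Matrix.map_apply, h a b hab, Int.cast_zero]

private theorem CT_low_F {R : Type*} [CommRing R] (α : C.Root) (hα : ht α.1 < 0) :
    C.CT_Low ((C.F α).map (Int.cast : ℤ → R)) := by
  have h : ∀ a b, C.hti b ≤ C.hti a → C.F α a b = 0 := by
    intro a b hab
    rcases a with i | γ <;> rcases b with j | β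
    · rfl
    · rfl
    · rfl
    · simp only [hti, Sum.elim_inr] at hab
      simp only [F]
      rw [if_neg]
      rintro ⟨h1, h2⟩
      rw [h1, h2, ht_neg] at hab
      omega
  intro a b hab
  rw [Matrix.map_apply, h a b hab, Int.cast_zero]

private theorem CT_low_xg (α : C.Root) (hα : ht α.1 < 0) (t : K) :
    C.CT_Low ((C.xg K α t : Matrix C.Idx C.Idx K) - 1) := by
  have h1 : (C.xg K α t : Matrix C.Idx C.Idx K) - 1 =
      t • (C.E α).map (Int.cast : ℤ → K) + t ^ 2 • (C.F α).map (Int.cast : ℤ → K) := by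
    show C.X K α t - 1 = _
    unfold X
    rw [add_assoc, add_sub_cancel_left]
  rw [h1]
  exact C.CT_low_add (C.CT_low_smul _ (C.CT_low_E α hα)) (C.CT_low_smul _ (C.CT_low_F α hα))

/-- The subgroup generated by the root elements of negative height. -/
private noncomputable def CT_V (K : Type*) [Field K] : Subgroup (GL C.Idx K) :=
  Subgroup.closure {g | ∃ (β : C.Root) (t : K), ht β.1 < 0 ∧ g = C.xg K β t}

private theorem CT_xg_inv (β : C.Root) (t : K) : (C.xg K β t)⁻¹ = C.xg K β (-t) := by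
  rw [inv_eq_iff_mul_eq_one, ← C.xg_map_add, add_neg_cancel]
  exact Units.ext (C.X_zero K β)

private theorem CT_V_low (g : GL C.Idx K) (hg : g ∈ C.CT_V K) :
    C.CT_Low ((g : Matrix C.Idx C.Idx K) - 1) := by
  refine Subgroup.closure_induction'' (p := fun (g : GL C.Idx K) _ => C.CT_Low ((g : Matrix C.Idx C.Idx K) - 1))
    ?_ ?_ ?_ ?_ hg
  · rintro x ⟨β, t, hβ, rfl⟩
    exact C.CT_low_xg β hβ t
  · rintro x ⟨β, t, hβ, rfl⟩
    rw [CT_xg_inv]
    exact C.CT_low_xg β hβ (-t)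
  · rw [Units.val_one, sub_self]
    exact C.CT_low_zero
  · intro x y _ _ hx hy
    have h1 : ((x * y : GL C.Idx K) : Matrix C.Idx C.Idx K) - 1 =
        ((x : Matrix C.Idx C.Idx K) - 1) * ((y : Matrix C.Idx C.Idx K) - 1) +
          (((x : Matrix C.Idx C.Idx K) - 1) + ((y : Matrix C.Idx C.Idx K) - 1)) := by
      rw [Units.val_mul]
      noncomm_ring
    rw [h1]
    exact C.CT_low_add (C.CT_low_mul hx hy) (C.CT_low_add hx hy)

private theorem CT_eq_one (g : GL C.Idx K) (hg : g ∈ C.CT_V K)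
    (h0 : C.Fil 0 (g : Matrix C.Idx C.Idx K)) : g = 1 := by
  apply Units.ext
  rw [Units.val_one]
  have h1 := C.CT_V_low g hg
  ext a b
  by_cases hab : C.hti b ≤ C.hti a
  · have h2 := h1 a b hab
    rw [Matrix.sub_apply, sub_eq_zero] at h2
    exact h2
  · rw [h0 a b (by omega), Matrix.one_apply_ne]
    rintro rfl
    exact hab le_rfl

private theorem CT_conj_lp (ν : GL C.Idx K) (w : Equiv.Perm C.Root) (ha : (C.adS K).Acts ν w)
    (t : C.Root → K) (l : List C.Root) (h : ∀ β ∈ l, t β = 0 ∨ ht (w⁻¹ β).1 < 0) :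
    ν⁻¹ * (C.adS K).lp l t * ν ∈ C.CT_V K := by
  obtain ⟨c, hc0, hc⟩ := ha
  induction l with
  | nil =>
    have h1 : (C.adS K).lp [] t = 1 := rfl
    rw [h1]
    have h2 : ν⁻¹ * 1 * ν = 1 := by group
    rw [h2]
    exact Subgroup.one_mem _
  | cons β l ih =>
    have h1 : (C.adS K).lp (β :: l) t = C.xg K β (t β) * (C.adS K).lp l t := rfl
    have h2 : ν⁻¹ * (C.xg K β (t β) * (C.adS K).lp l t) * ν =
        (ν⁻¹ * C.xg K β (t β) * ν) * (ν⁻¹ * (C.adS K).lp l t * ν) := by group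
    rw [h1, h2]
    refine Subgroup.mul_mem _ ?_ (ih fun γ hγ => h γ (List.mem_cons_of_mem _ hγ))
    rcases h β List.mem_cons_self with h3 | h3
    · have h4 : C.xg K β (t β) = 1 := by
        rw [h3]
        exact Units.ext (C.X_zero K β)
      rw [h4]
      have h5 : ν⁻¹ * 1 * ν = 1 := by group
      rw [h5]
      exact Subgroup.one_mem _
    · have h4 := hc (w⁻¹ β) ((c (w⁻¹ β))⁻¹ * t β)
      rw [← mul_assoc, mul_inv_cancel₀ (hc0 _), one_mul, ← Equiv.Perm.mul_apply, mul_inv_cancel,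
        Equiv.Perm.one_apply] at h4
      have h5 : ν⁻¹ * C.xg K β (t β) * ν = C.xg K (w⁻¹ β) ((c (w⁻¹ β))⁻¹ * t β) := by
        rw [adS_x] at h4
        rw [← h4]
        group
      rw [h5]
      exact Subgroup.subset_closure ⟨_, _, h3, rfl⟩

private theorem CT_tau_lp (τ : GL C.Idx K) (hτ : τ ∈ (C.adS K).T) (t : C.Root → K)
    (l : List C.Root) : τ * (C.adS K).lp l t * τ⁻¹ =
      (C.adS K).lp l (fun β => C.chi (τ : Matrix C.Idx C.Idx K) β * t β) := by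
  induction l with
  | nil =>
    have h1 : ∀ t : C.Root → K, (C.adS K).lp [] t = 1 := fun _ => rfl
    rw [h1, h1]
    group
  | cons β l ih =>
    have h1 : ∀ t : C.Root → K, (C.adS K).lp (β :: l) t = C.xg K β (t β) * (C.adS K).lp l t :=
      fun _ => rfl
    have h2 : τ * (C.xg K β (t β) * (C.adS K).lp l t) * τ⁻¹ =
        (τ * C.xg K β (t β) * τ⁻¹) * (τ * (C.adS K).lp l t * τ⁻¹) := by group
    rw [h1, h1, h2, ih, (C.T_fix τ hτ β (t β)).2]

private theorem CT_chamber (τ g : GL C.Idx K) (hτ : τ ∈ (C.adS K).T)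
    (h1 : ∀ γ, C.chi (τ : Matrix C.Idx C.Idx K) γ ≠ 1)
    (hg : g ∈ C.Gad K)
    (h : C.Fil 0 ((g⁻¹ * τ * g : GL C.Idx K) : Matrix C.Idx C.Idx K)) :
    ∃ ν ∈ (C.adS K).N, ∃ u ∈ (C.adS K).U 1, g = ν * u := by
  rw [← C.gen_adS K] at hg
  obtain ⟨u, hu, ν, hν, v, hv, hguv⟩ := (C.adS K).bruhat g hg
  obtain ⟨w, hw, ha, -⟩ := (C.adS K).N_acts ν hν
  obtain ⟨t, ht0, b, hb, hub⟩ := (C.adS K).exists_lp_inv ν w ha u hu
  have hg' : g = (C.adS K).lp C.posList t * ν * (b * v) := by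
    rw [hguv, hub, mul_assoc]
  have hb' : b * v ∈ (C.adS K).U 1 := Subgroup.mul_mem _ hb hv
  have hτ1 : ν⁻¹ * τ * ν ∈ (C.adS K).T := by
    have h2 := (C.adS K).N_conj_T ν⁻¹ τ (Subgroup.inv_mem _ hν) hτ
    rwa [inv_inv] at h2
  set x := (C.adS K).lp C.posList t with hx
  set x' := (C.adS K).lp C.posList (fun β => C.chi (τ : Matrix C.Idx C.Idx K) β * t β) with hx'
  have hxx' : τ * x * τ⁻¹ = x' := C.CT_tau_lp τ hτ t C.posList
  have hneg : ∀ β ∈ C.posList, t β = 0 ∨ ht (w⁻¹ β).1 < 0 := by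
    intro β _
    by_cases h3 : C.Pos (w⁻¹ β)
    · exact Or.inl (ht0 β h3)
    · right
      have h4 := C.ht_ne_zero (w⁻¹ β)
      have h5 : ¬ (0 < ht (w⁻¹ β).1) := h3
      omega
  have hz : (ν⁻¹ * x * ν)⁻¹ * (ν⁻¹ * x' * ν) = 1 := by
    refine C.CT_eq_one _ ?_ ?_
    · refine Subgroup.mul_mem _ (Subgroup.inv_mem _ (C.CT_conj_lp ν w ha t _ hneg))
        (C.CT_conj_lp ν w ha _ _ ?_)
      intro β hβ
      rcases hneg β hβ with h3 | h3
      · left
        rw [h3, mul_zero]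
      · exact Or.inr h3
    · have e1 : (ν⁻¹ * x * ν)⁻¹ * (ν⁻¹ * x' * ν) =
          (b * v) * (g⁻¹ * τ * g) * (b * v)⁻¹ * (ν⁻¹ * τ * ν)⁻¹ := by
        rw [hg', ← hxx']
        group
      rw [e1, Units.val_mul, Units.val_mul, Units.val_mul]
      have hm : ∀ {M N : Matrix C.Idx C.Idx K}, C.Fil 0 M → C.Fil 0 N → C.Fil 0 (M * N) := by
        intro M N hM hN
        have h3 := C.Fil_mul hM hN
        rwa [add_zero] at h3
      exact hm (hm (hm (C.Fil_U_zero _ hb') h) (C.Fil_U_zero _ (Subgroup.inv_mem _ hb')))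
        (C.Fil_T _ (Subgroup.inv_mem _ hτ1))
  have hxe : x = x' := by
    have h3 : ν⁻¹ * x * ν = ν⁻¹ * x' * ν := by
      rw [inv_mul_eq_one] at hz
      exact hz
    have h4 := mul_left_cancel (mul_right_cancel h3)
    exact h4
  have hx1 : x = 1 := by
    refine (C.adS K).lp_zero _ _ fun β hβ => ?_
    have h3 := C.lp_unique t _ hxe β ((C.mem_posList β).mp hβ)
    by_contra h4
    refine h1 β ?_
    have h5 : (1 : K) * t β = C.chi (τ : Matrix C.Idx C.Idx K) β * t β := by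
      rw [one_mul]
      exact h3
    exact (mul_right_cancel₀ h4 h5).symm
  refine ⟨ν, hν, b * v, hb', ?_⟩
  rw [hg', hx1, one_mul]

end SLC

end Pool.Agent.H75.UL

namespace Pool.Agent.H86.UM

open Pool.Agent.H75.UL

variable {n : ℕ} (C : SLC n)

theorem torus_chamber' {K : Type*} [Field K] (τ g : GL C.Idx K) (hτ : τ ∈ (C.adS K).T)
    (h1 : ∀ γ, C.chi (τ : Matrix C.Idx C.Idx K) γ ≠ 1) (hg : g ∈ C.Gad K)
    (h : C.Fil 0 ((g⁻¹ * τ * g : GL C.Idx K) : Matrix C.Idx C.Idx K)) :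
    ∃ ν ∈ (C.adS K).N, ∃ u ∈ (C.adS K).U 1, g = ν * u :=
  C.CT_chamber τ g hτ h1 hg h

/-- conjugation of a homomorphism -/
def cj {E : Type*} [Group E] {G : Type*} [Group G] (Ψ : E →* G) (w : G) : E →* G :=
  (MulAut.conj w⁻¹).toMonoidHom.comp Ψ

theorem cj_apply {E : Type*} [Group E] {G : Type*} [Group G] (Ψ : E →* G) (w : G) (x : E) :
    cj Ψ w x = w⁻¹ * Ψ x * w := by
  simp [cj]

theorem conj_torus' {ι : Type} {E : Type*} [Group E] {k : Type*} [Field k] (S : Src ι E k)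
    {F : Type*} [Field F] (Ψ : E →* GL C.Idx F) (h : Tgt C S Ψ) (t₀ : E) (ht₀ : t₀ ∈ S.T)
    (hreg : ∀ γ : C.Root, C.chi (Ψ t₀ : Matrix C.Idx C.Idx F) γ ≠ 1) :
    ∃ w ∈ (C.adS F).U 1, ∀ x ∈ S.T, w⁻¹ * Ψ x * w ∈ (C.adS F).T := by
  obtain ⟨τ, hτ, u, hu, hτu⟩ := C.upper (Ψ t₀) (h.mem t₀) (h.T_le t₀ ht₀)
  have hreg' : ∀ γ, C.Pos γ → C.chi (τ : Matrix C.Idx C.Idx F) γ ≠ 1 := by
    intro γ _
    rw [← C.chi_mul_U τ u hτ hu γ, ← hτu]
    exact hreg γ
  obtain ⟨w, hw, hwt⟩ := C.conj_T τ u hτ hu hreg'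
  refine ⟨w, hw, fun x hx => ?_⟩
  have hwg : w ∈ C.Gad F := by
    rw [← C.gen_adS F]
    exact (C.adS F).U_le_gen 1 hw
  have hb : w⁻¹ * Ψ x * w ∈ C.Gad F :=
    mul_mem (mul_mem (inv_mem hwg) (h.mem x)) hwg
  have hb0 : C.Fil 0 ((w⁻¹ * Ψ x * w : GL C.Idx F) : Matrix C.Idx C.Idx F) := by
    have h1 := C.Fil_mul (C.Fil_mul (C.Fil_U_zero w⁻¹ (inv_mem hw)) (h.T_le x hx))
      (C.Fil_U_zero w hw)
    rw [Units.val_mul, Units.val_mul]
    exact h1
  refine C.centralizer_B τ (w⁻¹ * Ψ x * w) hτ hb hb0 hreg' ?_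
  rw [← hτu] at hwt
  have hcomm : Ψ t₀ * Ψ x = Ψ x * Ψ t₀ := by
    rw [← map_mul, ← map_mul, S.T_comm _ ht₀ _ hx]
  calc τ * (w⁻¹ * Ψ x * w) = w⁻¹ * Ψ t₀ * w * (w⁻¹ * Ψ x * w) := by rw [hwt]
    _ = w⁻¹ * (Ψ t₀ * Ψ x) * w := by group
    _ = w⁻¹ * (Ψ x * Ψ t₀) * w := by rw [hcomm]
    _ = w⁻¹ * Ψ x * w * (w⁻¹ * Ψ t₀ * w) := by group
    _ = w⁻¹ * Ψ x * w * τ := by rw [hwt]

theorem Tgt_conj {ι : Type} {E : Type*} [Group E] {k : Type*} [Field k] (S : Src ι E k)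
    {F : Type*} [Field F] (Ψ : E →* GL C.Idx F) (h : Tgt C S Ψ) (w : GL C.Idx F)
    (hw : w ∈ (C.adS F).U 1) : Tgt C S (cj Ψ w) ∧
      (∀ x ∈ S.U, ∀ j, C.xi j (cj Ψ w x : Matrix C.Idx C.Idx F) =
        C.xi j (Ψ x : Matrix C.Idx C.Idx F)) ∧
      (∀ x ∈ S.T, ∀ γ, C.chi (cj Ψ w x : Matrix C.Idx C.Idx F) γ =
        C.chi (Ψ x : Matrix C.Idx C.Idx F) γ) ∧
      ∀ fib, Fib C S Ψ fib → Fib C S (cj Ψ w) fib := by
  have hwg : w ∈ C.Gad F := by
    rw [← C.gen_adS F]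
    exact (C.adS F).U_le_gen 1 hw
  have hxi : ∀ x ∈ S.U, ∀ j, C.xi j (cj Ψ w x : Matrix C.Idx C.Idx F) =
      C.xi j (Ψ x : Matrix C.Idx C.Idx F) := by
    intro x hx j
    have hx1 := h.U_le x hx
    rw [cj_apply, C.xi_mul j (w⁻¹ * Ψ x) w (mul_mem (inv_mem hw) hx1) hw,
      C.xi_mul j w⁻¹ (Ψ x) (inv_mem hw) hx1, C.xi_inv j w hw]
    ring
  have hchi : ∀ x ∈ S.T, ∀ γ, C.chi (cj Ψ w x : Matrix C.Idx C.Idx F) γ =
      C.chi (Ψ x : Matrix C.Idx C.Idx F) γ := by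
    intro x hx γ
    have hx0 := h.T_le x hx
    have hw0 := C.Fil_U_zero w hw
    have hwi0 := C.Fil_U_zero w⁻¹ (inv_mem hw)
    have h1 : C.Fil 0 ((w⁻¹ * Ψ x : GL C.Idx F) : Matrix C.Idx C.Idx F) := by
      have h2 := C.Fil_mul hwi0 hx0
      rw [Units.val_mul]
      exact h2
    have hww : C.chi ((w⁻¹ : GL C.Idx F) : Matrix C.Idx C.Idx F) γ *
        C.chi (w : Matrix C.Idx C.Idx F) γ = 1 := by
      rw [← C.chi_mul w⁻¹ w (inv_mem hwg) hwg hwi0 hw0 γ, inv_mul_cancel]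
      simp [SLC.chi]
    rw [cj_apply, C.chi_mul (w⁻¹ * Ψ x) w (mul_mem (inv_mem hwg) (h.mem x)) hwg h1 hw0 γ,
      C.chi_mul w⁻¹ (Ψ x) (inv_mem hwg) (h.mem x) hwi0 hx0 γ]
    calc C.chi ((w⁻¹ : GL C.Idx F) : Matrix C.Idx C.Idx F) γ *
          C.chi (Ψ x : Matrix C.Idx C.Idx F) γ * C.chi (w : Matrix C.Idx C.Idx F) γ =
          (C.chi ((w⁻¹ : GL C.Idx F) : Matrix C.Idx C.Idx F) γ *
            C.chi (w : Matrix C.Idx C.Idx F) γ) * C.chi (Ψ x : Matrix C.Idx C.Idx F) γ := by ring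
      _ = _ := by rw [hww, one_mul]
  refine ⟨⟨?_, ?_, ?_, ?_, ?_⟩, hxi, hchi, ?_⟩
  · intro x
    rw [cj_apply]
    exact mul_mem (mul_mem (inv_mem hwg) (h.mem x)) hwg
  · intro u hu
    rw [cj_apply]
    exact mul_mem (mul_mem (inv_mem hw) (h.U_le u hu)) hw
  · intro x hx
    rw [cj_apply]
    have h1 := C.Fil_mul (C.Fil_mul (C.Fil_U_zero w⁻¹ (inv_mem hw)) (h.T_le x hx))
      (C.Fil_U_zero w hw)
    rw [Units.val_mul, Units.val_mul]
    exact h1
  · intro j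
    obtain ⟨J, x, hx, hne⟩ := h.nonvan j
    exact ⟨J, x, hx, by rw [hxi x (S.X_le J hx) j]; exact hne⟩
  · intro J
    obtain ⟨j, x, hx, hne⟩ := h.occ J
    exact ⟨j, x, hx, by rw [hxi x (S.X_le J hx) j]; exact hne⟩
  · intro fib hf
    refine ⟨hf.surj, ?_, ?_, ?_, ?_⟩
    · intro j
      obtain ⟨x, hx, hne⟩ := hf.ne j
      exact ⟨x, hx, by rw [hxi x (S.X_le _ hx) j]; exact hne⟩
    · intro j J hJ x hx
      rw [hxi x (S.X_le _ hx) j]
      exact hf.zero j J hJ x hx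
    · intro j x hx ha
      rw [hchi x hx]
      exact hf.chi_one j x hx ha
    · intro j
      obtain ⟨Φ, h1, h2, h3, h4⟩ := hf.poly j
      refine ⟨Φ, h1, h2, ?_, h4⟩
      intro x hx s hs ha
      rw [hchi x hx]
      exact h3 x hx s hs ha

end Pool.Agent.H86.UM
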