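import Pool.Agent.H86.UM.Src

/-!
# Project UM, module Fib: each simple root of the target belongs to one orbit of the source

Proof. `f_j(x) = xi_j (Ψ x)` is a homomorphism `X J → (F, +)` (`xi_mul`, `U_le`), so it kills
`⁅X J, X J⁆` and by `ker_q` it depends only on `q J x` (if `q J x = q J y` then `x y⁻¹ ∈ ker`,
`q J (y⁻¹) = - q J y`). For `h ∈ T`: `f_j(h x h⁻¹) = chi_j(h) f_j(x)` with `chi_j(h) = chi (Ψ h) (simple j)`
(`xi_conj` with `b = Ψ h`; `T_le`).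
(1) If `f_j(x) ≠ 0` for some `x ∈ X J` and `a J h = 1` then `chi_j(h) = 1`
(`q (h x h⁻¹) = q x`, so `f_j(h x h⁻¹) = f_j(x)`).
(2) Uniqueness of `J`: let `f_j ≠ 0` on `X J` and on `X J'`, `J ≠ J'`. `k0` is infinite and `N ≠ 0`: there
is `s ∈ k0`, `s ≠ 0`, `s ^ N ≠ 1`. `sep J'`: `h ∈ T` with `a J' h = s ^ N`, `a J h = 1`. By (1)
`chi_j(h) = 1`. Let `x' ∈ X J'` be arbitrary; `q_smul` gives `y ∈ X J'` with
`q y = (s ^ N - 1)⁻¹ q x'`; then `q (h y h⁻¹) = s ^ N q y = q y + q x' = q (y x')`, so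
`f_j(y) = f_j(h y h⁻¹) = f_j(y) + f_j(x')`, `f_j(x') = 0`. Contradiction.
(3) `fib j` := the `J` from `nonvan`; `zero` by (2); `surj` by `occ` and (2); `chi_one` by (1).
(4) `poly`: let `x₀ ∈ X (fib j)`, `f_j(x₀) ≠ 0`; for `r ∈ k0` let `y_r ∈ X (fib j)`, `q y_r = r q x₀`
(`q_smul`), `Φ r = f_j(y_r) / f_j(x₀)`; well defined and additive since `f_j` depends only on `q`;
`Φ 1 = 1`. If `a h = s ^ N`: `q (h y_r h⁻¹) = s ^ N r q x₀`, so
`Φ (s ^ N r) = chi_j(h) Φ r`; `r = 1`: `Φ (s ^ N) = chi_j(h)`. For `s ≠ 0` such an `h` exists (`sep`);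
`s = 0` trivial (`Φ 0 = 0`, as `N ≠ 0`).
-/

set_option autoImplicit false
open Matrix

namespace Pool.Agent.H86.UM

open Pool.Agent.H75.UL

variable {n : ℕ} (C : SLC n)

private theorem Fib_f_mul {ι : Type} {E : Type*} [Group E] {k : Type*} [Field k] (S : Src ι E k)
    {F : Type*} [Field F] (Ψ : E →* GL C.Idx F) (h : Tgt C S Ψ) (j : Fin n) (x y : E)
    (hx : x ∈ S.U) (hy : y ∈ S.U) :
    C.xi j (Ψ (x * y) : Matrix C.Idx C.Idx F) =
      C.xi j (Ψ x : Matrix C.Idx C.Idx F) + C.xi j (Ψ y : Matrix C.Idx C.Idx F) := by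
  rw [map_mul]
  exact C.xi_mul j _ _ (h.U_le x hx) (h.U_le y hy)

private theorem Fib_f_one {E : Type*} [Group E]
    {F : Type*} [Field F] (Ψ : E →* GL C.Idx F) (j : Fin n) :
    C.xi j (Ψ 1 : Matrix C.Idx C.Idx F) = 0 := by
  rw [map_one, Units.val_one]
  exact C.xi_one j

private theorem Fib_f_inv {ι : Type} {E : Type*} [Group E] {k : Type*} [Field k] (S : Src ι E k)
    {F : Type*} [Field F] (Ψ : E →* GL C.Idx F) (h : Tgt C S Ψ) (j : Fin n) (x : E)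
    (hx : x ∈ S.U) :
    C.xi j (Ψ x⁻¹ : Matrix C.Idx C.Idx F) = - C.xi j (Ψ x : Matrix C.Idx C.Idx F) := by
  rw [map_inv]
  exact C.xi_inv j _ (h.U_le x hx)

/-- the elements of `U` killed by `xi j ∘ Ψ` -/
private def FibK {ι : Type} {E : Type*} [Group E] {k : Type*} [Field k] (S : Src ι E k)
    {F : Type*} [Field F] (Ψ : E →* GL C.Idx F) (h : Tgt C S Ψ) (j : Fin n) : Subgroup E where
  carrier := {x | x ∈ S.U ∧ C.xi j (Ψ x : Matrix C.Idx C.Idx F) = 0}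
  mul_mem' := by
    rintro x y ⟨hx, hx0⟩ ⟨hy, hy0⟩
    exact ⟨S.U.mul_mem hx hy, by rw [Fib_f_mul C S Ψ h j x y hx hy, hx0, hy0, add_zero]⟩
  one_mem' := ⟨S.U.one_mem, Fib_f_one C Ψ j⟩
  inv_mem' := by
    rintro x ⟨hx, hx0⟩
    exact ⟨S.U.inv_mem hx, by rw [Fib_f_inv C S Ψ h j x hx, hx0, neg_zero]⟩

private theorem Fib_comm {ι : Type} {E : Type*} [Group E] {k : Type*} [Field k] (S : Src ι E k)
    {F : Type*} [Field F] (Ψ : E →* GL C.Idx F) (h : Tgt C S Ψ) (j : Fin n) (J : ι) (x : E)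
    (hx : x ∈ ⁅S.X J, S.X J⁆) : C.xi j (Ψ x : Matrix C.Idx C.Idx F) = 0 := by
  have h1 : ⁅S.X J, S.X J⁆ ≤ FibK C S Ψ h j := by
    rw [Subgroup.commutator_le]
    intro g hg g' hg'
    have hU : g ∈ S.U := S.X_le J hg
    have hU' : g' ∈ S.U := S.X_le J hg'
    rw [commutatorElement_def]
    refine ⟨S.U.mul_mem (S.U.mul_mem (S.U.mul_mem hU hU') (S.U.inv_mem hU)) (S.U.inv_mem hU'), ?_⟩
    rw [Fib_f_mul C S Ψ h j _ _ (S.U.mul_mem (S.U.mul_mem hU hU') (S.U.inv_mem hU))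
      (S.U.inv_mem hU'), Fib_f_mul C S Ψ h j _ _ (S.U.mul_mem hU hU') (S.U.inv_mem hU),
      Fib_f_mul C S Ψ h j _ _ hU hU', Fib_f_inv C S Ψ h j _ hU, Fib_f_inv C S Ψ h j _ hU']
    ring
  exact (h1 hx).2

private theorem Fib_q_one {ι : Type} {E : Type*} [Group E] {k : Type*} [Field k] (S : Src ι E k)
    (J : ι) : S.q J 1 = 0 := by
  have h := S.q_mul J 1 (S.X J).one_mem 1 (S.X J).one_mem
  rw [mul_one] at h
  exact left_eq_add.1 h

private theorem Fib_q_inv {ι : Type} {E : Type*} [Group E] {k : Type*} [Field k] (S : Src ι E k)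
    (J : ι) (x : E) (hx : x ∈ S.X J) : S.q J x⁻¹ = - S.q J x := by
  have h := S.q_mul J x hx x⁻¹ ((S.X J).inv_mem hx)
  rw [mul_inv_cancel, Fib_q_one S J] at h
  exact eq_neg_of_add_eq_zero_right h.symm

/-- `xi j (Ψ x)` depends only on the coordinate `q J x`. -/
theorem xi_eq_of_q {ι : Type} {E : Type*} [Group E] {k : Type*} [Field k] (S : Src ι E k)
    {F : Type*} [Field F] (Ψ : E →* GL C.Idx F) (h : Tgt C S Ψ) (j : Fin n) (J : ι) (x y : E)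
    (hx : x ∈ S.X J) (hy : y ∈ S.X J) (hq : S.q J x = S.q J y) :
    C.xi j (Ψ x : Matrix C.Idx C.Idx F) = C.xi j (Ψ y : Matrix C.Idx C.Idx F) := by
  have hxy : x * y⁻¹ ∈ S.X J := (S.X J).mul_mem hx ((S.X J).inv_mem hy)
  have h0 : S.q J (x * y⁻¹) = 0 := by
    rw [S.q_mul J x hx y⁻¹ ((S.X J).inv_mem hy), Fib_q_inv S J y hy, hq, add_neg_cancel]
  have h1 := Fib_comm C S Ψ h j J _ (S.ker_q J _ hxy h0)
  rw [Fib_f_mul C S Ψ h j x y⁻¹ (S.X_le J hx) (S.U.inv_mem (S.X_le J hy)),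
    Fib_f_inv C S Ψ h j y (S.X_le J hy)] at h1
  exact eq_of_sub_eq_zero (by rw [sub_eq_add_neg]; exact h1)

theorem xi_T_conj {ι : Type} {E : Type*} [Group E] {k : Type*} [Field k] (S : Src ι E k)
    {F : Type*} [Field F] (Ψ : E →* GL C.Idx F) (h : Tgt C S Ψ) (j : Fin n) (u τ : E)
    (hu : u ∈ S.U) (hτ : τ ∈ S.T) :
    C.xi j (Ψ (τ * u * τ⁻¹) : Matrix C.Idx C.Idx F) =
      C.chi (Ψ τ : Matrix C.Idx C.Idx F) (C.simple j) * C.xi j (Ψ u : Matrix C.Idx C.Idx F) := by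
  have h1 := (C.xi_conj (Ψ τ) (Ψ u) (h.mem τ) (h.T_le τ hτ) (h.U_le u hu) j).2
  rw [map_mul, map_mul, map_inv]
  exact h1

private theorem Fib_chi {ι : Type} {E : Type*} [Group E] {k : Type*} [Field k] (S : Src ι E k)
    {F : Type*} [Field F] (Ψ : E →* GL C.Idx F) (h : Tgt C S Ψ) (j : Fin n) (J : ι) (x : E)
    (hx : x ∈ S.X J) (hx0 : C.xi j (Ψ x : Matrix C.Idx C.Idx F) ≠ 0) (τ : E) (hτ : τ ∈ S.T)
    (ha : S.a J τ = 1) : C.chi (Ψ τ : Matrix C.Idx C.Idx F) (C.simple j) = 1 := by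
  have h1 := xi_T_conj C S Ψ h j x τ (S.X_le J hx) hτ
  have h2 : τ * x * τ⁻¹ = x := by
    rw [S.cent J τ hτ ha x hx, mul_assoc, mul_inv_cancel, mul_one]
  rw [h2] at h1
  have h3 : (1 : F) * C.xi j (Ψ x : Matrix C.Idx C.Idx F) =
      C.chi (Ψ τ : Matrix C.Idx C.Idx F) (C.simple j) * C.xi j (Ψ x : Matrix C.Idx C.Idx F) := by
    rw [one_mul]
    exact h1
  exact (mul_right_cancel₀ hx0 h3).symm

private theorem Fib_uniq {ι : Type} {E : Type*} [Group E] {k : Type*} [Field k] (S : Src ι E k)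
    {F : Type*} [Field F] (Ψ : E →* GL C.Idx F) (h : Tgt C S Ψ) (j : Fin n) (J J' : ι)
    (hJ : J' ≠ J) (x : E) (hx : x ∈ S.X J) (hx0 : C.xi j (Ψ x : Matrix C.Idx C.Idx F) ≠ 0)
    (x' : E) (hx' : x' ∈ S.X J') : C.xi j (Ψ x' : Matrix C.Idx C.Idx F) = 0 := by
  classical
  have := S.k0_inf
  obtain ⟨s, hs⟩ := Infinite.exists_notMem_finset
    (insert (0 : S.k0) (Polynomial.nthRoots S.N (1 : S.k0)).toFinset)
  rw [Finset.mem_insert, Multiset.mem_toFinset,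
    Polynomial.mem_nthRoots (Nat.pos_of_ne_zero S.N_ne)] at hs
  push Not at hs
  obtain ⟨hs0, hs1⟩ := hs
  have hs0' : (s : k) ≠ 0 := fun h0 => hs0 (by exact_mod_cast h0)
  have hs1' : (s : k) ^ S.N ≠ 1 := fun h0 => hs1 (by exact_mod_cast h0)
  have hs2 : (s : k) ^ S.N - 1 ≠ 0 := sub_ne_zero.2 hs1'
  obtain ⟨τ, hτ, ha, ha'⟩ := S.sep J' s s.2 hs0'
  have hchi := Fib_chi C S Ψ h j J x hx hx0 τ hτ (ha' J (Ne.symm hJ))
  have hc : ((s : k) ^ S.N - 1)⁻¹ ∈ S.k0 :=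
    S.k0.inv_mem (S.k0.sub_mem (pow_mem s.2 S.N) S.k0.one_mem)
  obtain ⟨y, hy, hqy⟩ := S.q_smul J' _ hc x' hx'
  have e1 : S.q J' (τ * y * τ⁻¹) = S.q J' (y * x') := by
    rw [S.q_conj J' τ hτ y hy, S.q_mul J' y hy x' hx', ha, hqy]
    field_simp
    ring
  have e2 := xi_eq_of_q C S Ψ h j J' (τ * y * τ⁻¹) (y * x') (S.X_conj J' τ hτ y hy)
    ((S.X J').mul_mem hy hx') e1
  rw [xi_T_conj C S Ψ h j y τ (S.X_le J' hy) hτ, hchi, one_mul,
    Fib_f_mul C S Ψ h j y x' (S.X_le J' hy) (S.X_le J' hx')] at e2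
  exact left_eq_add.1 e2

theorem exists_fib {ι : Type} {E : Type*} [Group E] {k : Type*} [Field k] (S : Src ι E k)
    {F : Type*} [Field F] (Ψ : E →* GL C.Idx F) (h : Tgt C S Ψ) :
    ∃ fib : Fin n → ι, Fib C S Ψ fib := by
  choose fib x0 hx0 hne using h.nonvan
  have hzero : ∀ j J, J ≠ fib j → ∀ x ∈ S.X J, C.xi j (Ψ x : Matrix C.Idx C.Idx F) = 0 :=
    fun j J hJ x hx => Fib_uniq C S Ψ h j (fib j) J hJ (x0 j) (hx0 j) (hne j) x hx
  refine ⟨fib, ?_, fun j => ⟨x0 j, hx0 j, hne j⟩, hzero,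
    fun j τ hτ ha => Fib_chi C S Ψ h j (fib j) (x0 j) (hx0 j) (hne j) τ hτ ha, fun j => ?_⟩
  · intro J
    obtain ⟨j, x, hx, hxne⟩ := h.occ J
    refine ⟨j, ?_⟩
    by_contra hcon
    exact hxne (hzero j J (Ne.symm hcon) x hx)
  · have hex : ∀ r : S.k0, ∃ y ∈ S.X (fib j), S.q (fib j) y = (r : k) * S.q (fib j) (x0 j) :=
      fun r => S.q_smul (fib j) r r.2 (x0 j) (hx0 j)
    choose y hy hqy using hex
    have hkey : ∀ (r : S.k0) (z : E), z ∈ S.X (fib j) →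
        S.q (fib j) z = (r : k) * S.q (fib j) (x0 j) →
        C.xi j (Ψ (y r) : Matrix C.Idx C.Idx F) = C.xi j (Ψ z : Matrix C.Idx C.Idx F) :=
      fun r z hz hqz => xi_eq_of_q C S Ψ h j (fib j) (y r) z (hy r) hz (by rw [hqy, hqz])
    have hadd : ∀ s t : S.k0, C.xi j (Ψ (y (s + t)) : Matrix C.Idx C.Idx F) =
        C.xi j (Ψ (y s) : Matrix C.Idx C.Idx F) + C.xi j (Ψ (y t) : Matrix C.Idx C.Idx F) := by
      intro s t
      rw [← Fib_f_mul C S Ψ h j (y s) (y t) (S.X_le _ (hy s)) (S.X_le _ (hy t))]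
      refine hkey (s + t) _ ((S.X (fib j)).mul_mem (hy s) (hy t)) ?_
      rw [S.q_mul _ _ (hy s) _ (hy t), hqy, hqy]
      push_cast
      ring
    have hone : C.xi j (Ψ (y 1) : Matrix C.Idx C.Idx F) =
        C.xi j (Ψ (x0 j) : Matrix C.Idx C.Idx F) := by
      refine hkey 1 _ (hx0 j) ?_
      push_cast
      ring
    have hmul : ∀ τ ∈ S.T, ∀ s r : S.k0, S.a (fib j) τ = (s : k) ^ S.N →
        C.xi j (Ψ (y (s ^ S.N * r)) : Matrix C.Idx C.Idx F) =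
        C.chi (Ψ τ : Matrix C.Idx C.Idx F) (C.simple j) *
          C.xi j (Ψ (y r) : Matrix C.Idx C.Idx F) := by
      intro τ hτ s r ha
      rw [← xi_T_conj C S Ψ h j (y r) τ (S.X_le _ (hy r)) hτ]
      refine hkey _ _ (S.X_conj _ τ hτ _ (hy r)) ?_
      rw [S.q_conj _ τ hτ _ (hy r), ha, hqy]
      push_cast
      ring
    have hne0 := hne j
    have hchi : ∀ τ ∈ S.T, ∀ s : S.k0, S.a (fib j) τ = (s : k) ^ S.N →
        C.chi (Ψ τ : Matrix C.Idx C.Idx F) (C.simple j) =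
          C.xi j (Ψ (y (s ^ S.N)) : Matrix C.Idx C.Idx F) /
            C.xi j (Ψ (x0 j) : Matrix C.Idx C.Idx F) := by
      intro τ hτ s ha
      have h1 := hmul τ hτ s 1 ha
      rw [mul_one, hone] at h1
      rw [h1, mul_div_cancel_right₀ _ hne0]
    refine ⟨fun r => C.xi j (Ψ (y r) : Matrix C.Idx C.Idx F) /
      C.xi j (Ψ (x0 j) : Matrix C.Idx C.Idx F), ?_, ?_, ?_, ?_⟩
    · intro s t
      show C.xi j (Ψ (y (s + t)) : Matrix C.Idx C.Idx F) /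
        C.xi j (Ψ (x0 j) : Matrix C.Idx C.Idx F) = _
      rw [hadd s t, add_div]
    · show C.xi j (Ψ (y 1) : Matrix C.Idx C.Idx F) /
        C.xi j (Ψ (x0 j) : Matrix C.Idx C.Idx F) = 1
      rw [hone, div_self hne0]
    · intro τ hτ s _ ha
      exact hchi τ hτ s ha
    · intro s r
      show C.xi j (Ψ (y (s ^ S.N * r)) : Matrix C.Idx C.Idx F) /
          C.xi j (Ψ (x0 j) : Matrix C.Idx C.Idx F) =
        C.xi j (Ψ (y (s ^ S.N)) : Matrix C.Idx C.Idx F) /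
            C.xi j (Ψ (x0 j) : Matrix C.Idx C.Idx F) *
        (C.xi j (Ψ (y r) : Matrix C.Idx C.Idx F) /
            C.xi j (Ψ (x0 j) : Matrix C.Idx C.Idx F))
      by_cases hs : s = 0
      · subst hs
        have h0 : C.xi j (Ψ (y 0) : Matrix C.Idx C.Idx F) = 0 := by
          have h1 := hadd 0 0
          rw [add_zero] at h1
          exact left_eq_add.1 h1
        rw [zero_pow S.N_ne, zero_mul, h0, zero_div, zero_mul]
      · have hs' : (s : k) ≠ 0 := fun h0 => hs (by exact_mod_cast h0)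
        obtain ⟨τ, hτ, ha, -⟩ := S.sep (fib j) s s.2 hs'
        rw [hmul τ hτ s r ha, ← hchi τ hτ s ha, mul_div_assoc]

end Pool.Agent.H86.UM
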