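import Mathlib

/-!
# Project UM, module Poly: polynomial maps

`IsPoly d f`: `f : A → F` (`A` an abelian group) has vanishing iterated differences of order `d + 1`:
`IsPoly 0 f` iff `f` is constant, `IsPoly (d+1) f` iff `s ↦ f (s + x) - f s` is `IsPoly d` for all `x`.

Proofs.
* `IsPoly.mono`, `IsPoly.shift` (`s ↦ f (s + x)`), `IsPoly.add`, `IsPoly.sub`, `IsPoly.const`: induction.
* `IsPoly.mul`: induction on `d + e`; `D_x (f g)(s) = D_x f(s) * g (s + x) + f s * D_x g(s)`
  (if `d = 0` or `e = 0` one factor is constant).
* `IsPoly.of_add`: an additive map is `IsPoly 1`.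
* `IsPoly.pow`, `IsPoly.prod`: induction.
* `IsPoly.comp_pow`: `Φ : k → F` additive, `k` a commutative ring: `s ↦ Φ (c * s ^ i)` is `IsPoly i`, by
  strong induction on `i` (for all `c`): `c (s + x)^i - c s^i = ∑_{j<i} c binom(i,j) x^(i-j) s^j`.
* `IsPoly.eq_const`: `A` infinite, `f s = c` for all `s` outside a finite set implies `f s = c` for all
  `s`. Induction on `d`: `d = 0` clear (`A` infinite). `d + 1`: for each `x` the function
  `D_x f` is `IsPoly d` and is `0` outside a finite set (`B ∪ (B - x)`), so it is `0` everywhere; so `f`
  is constant.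
* `IsPoly.not_one`: if `k` is an infinite field, `f : k → F` is `IsPoly d` and `f 0 = 0` then there is
  `s ≠ 0` with `f s ≠ 1`.
-/

set_option autoImplicit false

namespace Pool.Agent.H86.UM

/-- Polynomial maps of degree at most `d`. -/
def IsPoly {A F : Type*} [AddCommGroup A] [CommRing F] : ℕ → (A → F) → Prop
  | 0, f => ∀ s t, f s = f t
  | d + 1, f => ∀ x, IsPoly d (fun s => f (s + x) - f s)

namespace IsPoly
variable {A F : Type*} [AddCommGroup A] [CommRing F]

theorem const (d : ℕ) (c : F) : IsPoly d (fun _ : A => c) := by
  induction d generalizing c with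
  | zero => exact fun _ _ => rfl
  | succ d ih =>
    intro x
    show IsPoly d (fun _ : A => c - c)
    rw [sub_self]
    exact ih 0

private theorem poly_succ {d : ℕ} {f : A → F} (hf : IsPoly d f) : IsPoly (d + 1) f := by
  induction d generalizing f with
  | zero =>
    intro x s t
    have h1 : f (s + x) = f s := hf _ _
    have h2 : f (t + x) = f t := hf _ _
    show f (s + x) - f s = f (t + x) - f t
    rw [h1, h2, sub_self, sub_self]
  | succ d ih =>
    intro x
    exact ih (hf x)

theorem mono {d e : ℕ} (h : d ≤ e) {f : A → F} (hf : IsPoly d f) : IsPoly e f := by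
  induction e, h using Nat.le_induction with
  | base => exact hf
  | succ e _ ih => exact poly_succ ih

theorem shift {d : ℕ} {f : A → F} (hf : IsPoly d f) (x : A) : IsPoly d (fun s => f (s + x)) := by
  induction d generalizing f with
  | zero => exact fun s t => hf _ _
  | succ d ih =>
    intro y
    have h := ih (hf y)
    have e : (fun s => f (s + y + x) - f (s + x)) = (fun s => f (s + x + y) - f (s + x)) := by
      funext s
      rw [add_right_comm]
    show IsPoly d (fun s => f (s + y + x) - f (s + x))
    rw [e]
    exact h

theorem add {d : ℕ} {f g : A → F} (hf : IsPoly d f) (hg : IsPoly d g) :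
    IsPoly d (fun s => f s + g s) := by
  induction d generalizing f g with
  | zero =>
    intro s t
    show f s + g s = f t + g t
    rw [show f s = f t from hf s t, show g s = g t from hg s t]
  | succ d ih =>
    intro y
    have h := ih (hf y) (hg y)
    have e : (fun s => (f (s + y) + g (s + y)) - (f s + g s)) =
        (fun s => (f (s + y) - f s) + (g (s + y) - g s)) := by
      funext s
      ring
    show IsPoly d (fun s => (f (s + y) + g (s + y)) - (f s + g s))
    rw [e]
    exact h

private theorem poly_cmul {d : ℕ} {f : A → F} (c : F) (hf : IsPoly d f) :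
    IsPoly d (fun s => c * f s) := by
  induction d generalizing f with
  | zero =>
    intro s t
    show c * f s = c * f t
    rw [show f s = f t from hf s t]
  | succ d ih =>
    intro y
    have h := ih (hf y)
    have e : (fun s => c * f (s + y) - c * f s) = (fun s => c * (f (s + y) - f s)) := by
      funext s
      ring
    show IsPoly d (fun s => c * f (s + y) - c * f s)
    rw [e]
    exact h

theorem sub {d : ℕ} {f g : A → F} (hf : IsPoly d f) (hg : IsPoly d g) :
    IsPoly d (fun s => f s - g s) := by
  have h := add hf (poly_cmul (-1) hg)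
  have e : (fun s => f s - g s) = (fun s => f s + -1 * g s) := by
    funext s
    ring
  rw [e]
  exact h

private theorem poly_mul_aux (n : ℕ) : ∀ (d e : ℕ), d + e = n → ∀ {f g : A → F},
    IsPoly d f → IsPoly e g → IsPoly (d + e) (fun s => f s * g s) := by
  induction n with
  | zero =>
    intro d e hde f g hf hg
    obtain rfl : d = 0 := by omega
    obtain rfl : e = 0 := by omega
    intro s t
    show f s * g s = f t * g t
    rw [show f s = f t from hf s t, show g s = g t from hg s t]
  | succ n ih =>
    intro d e hde f g hf hg
    cases d with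
    | zero =>
      have e1 : (fun s => f s * g s) = (fun s => f 0 * g s) := by
        funext s
        rw [show f s = f 0 from hf s 0]
      rw [e1, Nat.zero_add]
      exact poly_cmul _ hg
    | succ d =>
      cases e with
      | zero =>
        have e1 : (fun s => f s * g s) = (fun s => g 0 * f s) := by
          funext s
          rw [show g s = g 0 from hg s 0, mul_comm]
        rw [e1, Nat.add_zero]
        exact poly_cmul _ hf
      | succ e =>
        have e0 : d + 1 + (e + 1) = (d + e + 1) + 1 := by omega
        rw [e0]
        intro x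
        have h1 : IsPoly (d + (e + 1)) (fun s => (f (s + x) - f s) * g (s + x)) :=
          ih d (e + 1) (by omega) (hf x) (shift hg x)
        have h2 : IsPoly (d + 1 + e) (fun s => f s * (g (s + x) - g s)) :=
          ih (d + 1) e (by omega) hf (hg x)
        have h1' : IsPoly (d + e + 1) (fun s => (f (s + x) - f s) * g (s + x)) :=
          mono (by omega) h1
        have h2' : IsPoly (d + e + 1) (fun s => f s * (g (s + x) - g s)) :=
          mono (by omega) h2
        have h := add h1' h2'
        have e1 : (fun s => f (s + x) * g (s + x) - f s * g s) =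
            (fun s => (f (s + x) - f s) * g (s + x) + f s * (g (s + x) - g s)) := by
          funext s
          ring
        show IsPoly (d + e + 1) (fun s => f (s + x) * g (s + x) - f s * g s)
        rw [e1]
        exact h

theorem mul {d e : ℕ} {f g : A → F} (hf : IsPoly d f) (hg : IsPoly e g) :
    IsPoly (d + e) (fun s => f s * g s) :=
  poly_mul_aux (d + e) d e rfl hf hg

theorem of_add {f : A → F} (hf : ∀ s t, f (s + t) = f s + f t) : IsPoly 1 f := by
  intro x s t
  show f (s + x) - f s = f (t + x) - f t
  rw [hf, hf]
  ring

theorem pow {d : ℕ} {f : A → F} (hf : IsPoly d f) (m : ℕ) : IsPoly (d * m) (fun s => f s ^ m) := by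
  induction m with
  | zero =>
    have e : (fun s => f s ^ 0) = (fun _ : A => (1 : F)) := by
      funext s
      simp
    rw [e]
    exact const _ _
  | succ m ih =>
    have h := mul ih hf
    have e : (fun s => f s ^ (m + 1)) = (fun s => f s ^ m * f s) := by
      funext s
      rw [pow_succ]
    rw [e, Nat.mul_succ]
    exact h

theorem prod {ι : Type*} (S : Finset ι) (d : ι → ℕ) (f : ι → A → F) (hf : ∀ i ∈ S, IsPoly (d i) (f i)) :
    IsPoly (∑ i ∈ S, d i) (fun s => ∏ i ∈ S, f i s) := by
  classical
  induction S using Finset.induction_on with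
  | empty =>
    simp only [Finset.sum_empty, Finset.prod_empty]
    exact const _ _
  | insert a S ha ih =>
    simp only [Finset.sum_insert ha, Finset.prod_insert ha]
    exact mul (hf a (Finset.mem_insert_self _ _))
      (ih fun i hi => hf i (Finset.mem_insert_of_mem hi))

private theorem poly_sum {ι : Type*} (S : Finset ι) (d : ℕ) (f : ι → A → F)
    (hf : ∀ i ∈ S, IsPoly d (f i)) : IsPoly d (fun s => ∑ i ∈ S, f i s) := by
  classical
  induction S using Finset.induction_on with
  | empty =>
    simp only [Finset.sum_empty]
    exact const _ _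
  | insert a S ha ih =>
    simp only [Finset.sum_insert ha]
    exact add (hf a (Finset.mem_insert_self _ _))
      (ih fun i hi => hf i (Finset.mem_insert_of_mem hi))

theorem comp_pow {k : Type*} [CommRing k] (Φ : k → F) (hΦ : ∀ s t, Φ (s + t) = Φ s + Φ t) (i : ℕ)
    (c : k) : IsPoly i (fun s : k => Φ (c * s ^ i)) := by
  induction i using Nat.strong_induction_on generalizing c with
  | _ i ih =>
    cases i with
    | zero =>
      intro s t
      simp
    | succ i =>
      intro x
      have e : (fun s : k => Φ (c * (s + x) ^ (i + 1)) - Φ (c * s ^ (i + 1))) =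
          (fun s : k => ∑ j ∈ Finset.range (i + 1),
            Φ (c * x ^ (i + 1 - j) * ((i + 1).choose j : k) * s ^ j)) := by
        funext s
        have h1 : c * (s + x) ^ (i + 1) = (∑ j ∈ Finset.range (i + 1),
            (c * x ^ (i + 1 - j) * ((i + 1).choose j : k) * s ^ j)) + c * s ^ (i + 1) := by
          rw [add_pow, Finset.sum_range_succ, mul_add, Finset.mul_sum]
          congr 1
          · refine Finset.sum_congr rfl fun j _ => ?_
            ring
          · simp
        have h2 : ∀ S : Finset ℕ, ∀ g : ℕ → k, Φ (∑ j ∈ S, g j) = ∑ j ∈ S, Φ (g j) := by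
          intro S g
          exact map_sum (AddMonoidHom.mk' Φ hΦ) g S
        rw [h1, hΦ, h2, add_sub_cancel_right]
      show IsPoly i (fun s : k => Φ (c * (s + x) ^ (i + 1)) - Φ (c * s ^ (i + 1)))
      rw [e]
      refine poly_sum _ _ _ fun j hj => ?_
      rw [Finset.mem_range] at hj
      exact mono (by omega) (ih j (by omega) _)

theorem eq_const [Infinite A] {d : ℕ} {f : A → F} (hf : IsPoly d f) (B : Set A) (hB : B.Finite)
    (c : F) (h : ∀ s, s ∉ B → f s = c) (s : A) : f s = c := by
  induction d generalizing f B c s with
  | zero =>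
    obtain ⟨t, ht⟩ := hB.exists_notMem
    rw [show f s = f t from hf s t]
    exact h t ht
  | succ d ih =>
    have key : ∀ x s, f (s + x) - f s = 0 := by
      intro x s
      refine ih (f := fun s => f (s + x) - f s) (hf x) (B ∪ (fun s => s - x) '' B)
        (hB.union (hB.image _)) 0 ?_ s
      intro s hs
      have h1 : s ∉ B := fun hh => hs (Or.inl hh)
      have h2 : s + x ∉ B := fun hh => hs (Or.inr ⟨s + x, hh, by simp⟩)
      show f (s + x) - f s = 0
      rw [h _ h1, h _ h2, sub_self]
    obtain ⟨t, ht⟩ := hB.exists_notMem
    have h1 := key (s - t) t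
    rw [add_sub_cancel, sub_eq_zero] at h1
    rw [h1]
    exact h t ht

theorem not_one {k : Type*} [Field k] [Infinite k] [Nontrivial F] {d : ℕ} {f : k → F}
    (hf : IsPoly d f) (h0 : f 0 = 0) : ∃ s, s ≠ 0 ∧ f s ≠ 1 := by
  by_contra hcon
  have h1 : ∀ s, s ∉ ({0} : Set k) → f s = 1 := by
    intro s hs
    by_contra h2
    exact hcon ⟨s, by simpa using hs, h2⟩
  have h2 := eq_const hf {0} (Set.finite_singleton _) 1 h1 0
  rw [h0] at h2
  exact zero_ne_one h2

end IsPoly
end Pool.Agent.H86.UM
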