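import Pool.Agent.H86.UM.Src
import Pool.Agent.H86.UM.Poly

/-!
# Project UM, module Reg: regular and semiregular elements

Notation: `chi_γ(h) = chi (Ψ h) γ` for `h ∈ T`; `chi_γ(h) = ∏ j, chi_j(h) ^ γ_j` (`chi_prod`, with
`chi_j(h) = chi (Ψ h) (simple j)`); `chi_γ(h h') = chi_γ(h) chi_γ(h')` (`chi_mul`), `chi_γ(h) ≠ 0`.
(1) `chi_pow_ne_one`: let `γ` be a root with all coordinates `≥ 0`, and `J` with `γ_j ≠ 0` for some `j`
with `fib j = J`; `m ≥ 1`. There are `s ∈ k0`, `s ≠ 0` and `h ∈ T` with `a J h = s ^ N`, `a J' h = 1` for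
`J' ≠ J` and `chi_γ(h) ^ m ≠ 1`. Proof: for `h` as given by `sep J s`: `chi_j(h) = Φ_j(s ^ N)` if
`fib j = J` (`Fib.poly`) and `chi_j(h) = 1` otherwise (`chi_one`). So
`chi_γ(h) ^ m = P(s)`, `P(s) = ∏_(j with fib j = J) Φ_j(s ^ N) ^ (γ_j * m)` (natural number exponents).
`P` is `IsPoly` (`comp_pow`, `pow`, `prod`) and `P 0 = 0` (`Φ_j(0) = 0`, `N ≠ 0`, some exponent is
`≥ 1`), so `not_one` gives `s ≠ 0` with `P s ≠ 1`.
(2) `reg_aux`: let `T' ≤ T` be a subgroup and `R` a set of roots such that for each `γ ∈ R` and each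
`m ≥ 1` some `h ∈ T'` has `chi_γ(h) ^ m ≠ 1`. Then there is `h ∈ T'` with `chi_γ(h) ≠ 1` for all
`γ ∈ R`. Proof: the kernels `K_γ = {h ∈ T' | chi_γ(h) = 1}`, `γ ∈ R`, are subgroups of `T'` of infinite
index (if the index is `m` then `h ^ m ∈ K_γ` for all `h ∈ T'`, as `T'` is commutative; `K_γ` is normal,
`Subgroup.pow_index_mem`); by B.H. Neumann's lemma (Mathlib:
`Subgroup.exists_finiteIndex_of_leftCoset_cover` or a variant in
`Mathlib/GroupTheory/CosetCover.lean`) finitely many subgroups of infinite index do not cover `T'`.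
(3) `exists_regular'`: (2) with `T' = T`, `R` = positive roots, (1) for some `j` with `γ_j ≠ 0`; for
negative roots `chi_(-γ) = chi_γ⁻¹`.
(4) `exists_semiregular'`: (2) with `T' = {h ∈ T | a J h = 1}` (a subgroup by `a_mul`; contains the
elements of `sep J'`, `J' ≠ J`) and `R` = positive roots `γ` with `γ_j ≠ 0` for some `j`, `fib j ≠ J`;
apply (1) with `J' = fib j`. Positive roots have coordinates `≥ 0` (`pos_iff`), negative roots by
inversion.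
-/

set_option autoImplicit false
open Matrix
open scoped Pointwise

namespace Pool.Agent.H86.UM

open Pool.Agent.H75.UL

variable {n : ℕ} (C : SLC n)

private theorem Reg_neumann {G : Type*} [Group G] {F : Type*} [Field F] {ι : Type*} (R : Finset ι)
    (φ : ι → G →* F) (h : ∀ γ ∈ R, ∀ m : ℕ, 1 ≤ m → ∃ g : G, φ γ g ^ m ≠ 1) :
    ∃ g, ∀ γ ∈ R, φ γ g ≠ 1 := by
  by_contra hc
  push Not at hc
  have hcov : ⋃ i ∈ R, (1 : G) • (((φ i).ker : Subgroup G) : Set G) = Set.univ := by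
    rw [Set.eq_univ_iff_forall]
    intro g
    obtain ⟨γ, hγ, h1⟩ := hc g
    rw [Set.mem_iUnion₂]
    refine ⟨γ, hγ, ?_⟩
    rw [one_smul]
    exact h1
  obtain ⟨γ, hγ, hfin⟩ := Subgroup.exists_finiteIndex_of_leftCoset_cover hcov
  obtain ⟨g, hg⟩ := h γ hγ (φ γ).ker.index (Nat.one_le_iff_ne_zero.2 hfin.index_ne_zero)
  have h2 := Subgroup.pow_index_mem (φ γ).ker g
  rw [MonoidHom.mem_ker, map_pow] at h2
  exact hg h2

private noncomputable def Reg_hom {ι : Type} {E : Type*} [Group E] {k : Type*} [Field k]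
    (S : Src ι E k) {F : Type*} [Field F] (Ψ : E →* GL C.Idx F) (h : Tgt C S Ψ)
    (T' : Subgroup E) (hT : T' ≤ S.T) (γ : C.Root) : T' →* F where
  toFun t := C.chi (Ψ t : Matrix C.Idx C.Idx F) γ
  map_one' := by
    rw [OneMemClass.coe_one, map_one]
    unfold SLC.chi
    rw [Units.val_one, Matrix.one_apply_eq]
  map_mul' s t := by
    rw [Subgroup.coe_mul, map_mul]
    exact C.chi_mul (Ψ s) (Ψ t) (h.mem s) (h.mem t) (h.T_le s (hT s.2)) (h.T_le t (hT t.2)) γ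

private theorem Reg_aux {ι : Type} {E : Type*} [Group E] {k : Type*} [Field k]
    (S : Src ι E k) {F : Type*} [Field F] (Ψ : E →* GL C.Idx F) (h : Tgt C S Ψ)
    (T' : Subgroup E) (hT : T' ≤ S.T) (R : Finset C.Root)
    (hR : ∀ γ ∈ R, ∀ m : ℕ, 1 ≤ m → ∃ t ∈ T', C.chi (Ψ t : Matrix C.Idx C.Idx F) γ ^ m ≠ 1) :
    ∃ t ∈ T', ∀ γ ∈ R, C.chi (Ψ t : Matrix C.Idx C.Idx F) γ ≠ 1 := by
  obtain ⟨g, hg⟩ := Reg_neumann R (Reg_hom C S Ψ h T' hT) fun γ hγ m hm => by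
    obtain ⟨t, ht, h1⟩ := hR γ hγ m hm
    exact ⟨⟨t, ht⟩, h1⟩
  exact ⟨g, g.2, fun γ hγ => hg γ hγ⟩

private theorem Reg_neg {ι : Type} {E : Type*} [Group E] {k : Type*} [Field k]
    (S : Src ι E k) {F : Type*} [Field F] (Ψ : E →* GL C.Idx F) (h : Tgt C S Ψ)
    (t : E) (ht : t ∈ S.T) (γ : C.Root) :
    C.chi (Ψ t : Matrix C.Idx C.Idx F) (-γ) = (C.chi (Ψ t : Matrix C.Idx C.Idx F) γ)⁻¹ := by
  rw [C.chi_prod (Ψ t) (h.mem t) (h.T_le t ht) (-γ), C.chi_prod (Ψ t) (h.mem t) (h.T_le t ht) γ,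
    ← Finset.prod_inv_distrib]
  refine Finset.prod_congr rfl fun j _ => ?_
  rw [SLC.Root.neg_val, Pi.neg_apply, _root_.zpow_neg]

private theorem Reg_pow {ι : Type} {E : Type*} [Group E] {k : Type*} [Field k] (S : Src ι E k)
    {F : Type*} [Field F] (Ψ : E →* GL C.Idx F) (h : Tgt C S Ψ) (fib : Fin n → ι)
    (hf : Fib C S Ψ fib) (γ : C.Root) (hγ : ∀ i, 0 ≤ γ.1 i) (J : ι) (j0 : Fin n)
    (hj0 : fib j0 = J) (hγ0 : γ.1 j0 ≠ 0) (m : ℕ) (hm : 1 ≤ m) :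
    ∃ t ∈ S.T, (∀ J', J' ≠ J → S.a J' t = 1) ∧
      C.chi (Ψ t : Matrix C.Idx C.Idx F) γ ^ m ≠ 1 := by
  classical
  have : Infinite S.k0 := S.k0_inf
  choose Φ hΦadd hΦ1 hΦ hΦmul using hf.poly
  let P : S.k0 → F := fun s => ∏ j ∈ Finset.univ.filter (fun j => fib j = J),
    (Φ j (1 * s ^ S.N)) ^ ((γ.1 j).toNat * m)
  have hP : IsPoly (∑ j ∈ Finset.univ.filter (fun j => fib j = J),
      S.N * ((γ.1 j).toNat * m)) P := by
    refine IsPoly.prod _ (fun j => S.N * ((γ.1 j).toNat * m)) _ fun j _ => ?_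
    exact (IsPoly.comp_pow (Φ j) (hΦadd j) S.N 1).pow _
  have hP0 : P 0 = 0 := by
    refine Finset.prod_eq_zero (i := j0) ?_ ?_
    · rw [Finset.mem_filter]
      exact ⟨Finset.mem_univ _, hj0⟩
    · rw [zero_pow S.N_ne, mul_zero]
      have h0 : Φ j0 0 = 0 := by
        have := hΦadd j0 0 0
        rw [add_zero] at this
        exact left_eq_add.1 this
      rw [h0, zero_pow]
      have h1 : 0 ≤ γ.1 j0 := hγ j0
      have h2 : (γ.1 j0).toNat ≠ 0 := by omega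
      exact Nat.mul_ne_zero h2 (by omega)
  obtain ⟨s, hs0, hs1⟩ := hP.not_one hP0
  have hsk : (s : k) ≠ 0 := fun h0 => hs0 (by exact_mod_cast h0)
  obtain ⟨t, ht, ha, ha'⟩ := S.sep J (s : k) s.2 hsk
  refine ⟨t, ht, ha', ?_⟩
  have hchi : C.chi (Ψ t : Matrix C.Idx C.Idx F) γ ^ m = P s := by
    rw [C.chi_prod (Ψ t) (h.mem t) (h.T_le t ht) γ, ← Finset.prod_pow]
    simp only [P]
    rw [Finset.prod_filter]
    refine Finset.prod_congr rfl fun j _ => ?_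
    have hcast : γ.1 j = (((γ.1 j).toNat : ℕ) : ℤ) := (Int.toNat_of_nonneg (hγ j)).symm
    rw [hcast, zpow_natCast, Int.toNat_natCast]
    split_ifs with hj
    · rw [hΦ j t ht s hs0 (by rw [hj]; exact ha), one_mul, pow_mul]
    · rw [hf.chi_one j t ht (ha' (fib j) hj), one_pow, one_pow]
  rw [hchi]
  exact hs1

private theorem Reg_pow' {ι : Type} {E : Type*} [Group E] {k : Type*} [Field k] (S : Src ι E k)
    {F : Type*} [Field F] (Ψ : E →* GL C.Idx F) (h : Tgt C S Ψ) (fib : Fin n → ι)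
    (hf : Fib C S Ψ fib) (γ : C.Root) (J : ι) (j0 : Fin n)
    (hj0 : fib j0 = J) (hγ0 : γ.1 j0 ≠ 0) (m : ℕ) (hm : 1 ≤ m) :
    ∃ t ∈ S.T, (∀ J', J' ≠ J → S.a J' t = 1) ∧
      C.chi (Ψ t : Matrix C.Idx C.Idx F) γ ^ m ≠ 1 := by
  rcases C.pos_or_neg γ with hγ | hγ
  · exact Reg_pow C S Ψ h fib hf γ hγ J j0 hj0 hγ0 m hm
  · obtain ⟨t, ht, ha, h1⟩ := Reg_pow C S Ψ h fib hf (-γ) (fun i => by
      have := hγ i
      rw [SLC.Root.neg_val, Pi.neg_apply]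
      omega) J j0 hj0 (by
      rw [SLC.Root.neg_val, Pi.neg_apply]
      omega) m hm
    refine ⟨t, ht, ha, fun h2 => h1 ?_⟩
    rw [Reg_neg C S Ψ h t ht γ, inv_pow, h2, inv_one]

theorem exists_regular' {ι : Type} {E : Type*} [Group E] {k : Type*} [Field k] (S : Src ι E k)
    {F : Type*} [Field F] (Ψ : E →* GL C.Idx F) (h : Tgt C S Ψ) (fib : Fin n → ι)
    (hf : Fib C S Ψ fib) :
    ∃ t ∈ S.T, ∀ γ : C.Root, C.chi (Ψ t : Matrix C.Idx C.Idx F) γ ≠ 1 := by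
  classical
  obtain ⟨t, ht, h1⟩ := Reg_aux C S Ψ h S.T le_rfl Finset.univ fun γ _ m hm => by
    obtain ⟨j, hj⟩ := Function.ne_iff.1 (C.root_ne_zero γ)
    obtain ⟨t, ht, _, h1⟩ := Reg_pow' C S Ψ h fib hf γ (fib j) j rfl hj m hm
    exact ⟨t, ht, h1⟩
  exact ⟨t, ht, fun γ => h1 γ (Finset.mem_univ γ)⟩

theorem exists_semiregular' {ι : Type} {E : Type*} [Group E] {k : Type*} [Field k] (S : Src ι E k)
    {F : Type*} [Field F] (Ψ : E →* GL C.Idx F) (h : Tgt C S Ψ) (fib : Fin n → ι)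
    (hf : Fib C S Ψ fib) (J : ι) :
    ∃ t ∈ S.T, S.a J t = 1 ∧ ∀ γ : C.Root, (∃ j, fib j ≠ J ∧ γ.1 j ≠ 0) →
      C.chi (Ψ t : Matrix C.Idx C.Idx F) γ ≠ 1 := by
  classical
  have ha1 : S.a J 1 = 1 := by
    have h1 := S.a_mul J 1 S.T.one_mem 1 S.T.one_mem
    rw [mul_one] at h1
    have h2 := S.a_ne J 1 S.T.one_mem
    exact (mul_right_cancel₀ h2 (by rw [one_mul]; exact h1)).symm
  let T' : Subgroup E :=
    { carrier := {t | t ∈ S.T ∧ S.a J t = 1}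
      mul_mem' := by
        rintro s t ⟨hs, hs1⟩ ⟨ht, ht1⟩
        exact ⟨S.T.mul_mem hs ht, by rw [S.a_mul J s hs t ht, hs1, ht1, one_mul]⟩
      one_mem' := ⟨S.T.one_mem, ha1⟩
      inv_mem' := by
        rintro t ⟨ht, ht1⟩
        refine ⟨S.T.inv_mem ht, ?_⟩
        have h1 := S.a_mul J t⁻¹ (S.T.inv_mem ht) t ht
        rw [inv_mul_cancel, ha1, ht1, mul_one] at h1
        exact h1.symm }
  have hT' : T' ≤ S.T := fun t ht => ht.1
  obtain ⟨t, ht, h1⟩ := Reg_aux C S Ψ h T' hT'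
    (Finset.univ.filter fun γ : C.Root => ∃ j, fib j ≠ J ∧ γ.1 j ≠ 0) fun γ hγ m hm => by
    rw [Finset.mem_filter] at hγ
    obtain ⟨j, hj, hγj⟩ := hγ.2
    obtain ⟨t, ht, ha, h1⟩ := Reg_pow' C S Ψ h fib hf γ (fib j) j rfl hγj m hm
    exact ⟨t, ⟨ht, ha J (Ne.symm hj)⟩, h1⟩
  refine ⟨t, ht.1, ht.2, fun γ hγ => h1 γ ?_⟩
  rw [Finset.mem_filter]
  exact ⟨Finset.mem_univ _, hγ⟩

end Pool.Agent.H86.UM
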