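import Pool.Agent.H86.UL.P1

/-!
# Project UM, module UC: uniqueness of the fixed chamber

`Γ` a set of elements of `U(F)` such that for each simple root `j` some `γ ∈ Γ` has `xi_j γ ≠ 0`. If
`y ∈ Gad F` and all `y⁻¹ γ y` are upper triangular then `y` is upper triangular.
This is the second half of the proof of `unique_chamber'` in H86/UL/P1.lean (see the docstring there):
`bruhat`, `N_acts`, `eq_one_of_pos`, `xi_eq_zero`, `xi_mul`, `xi_inv`.
-/

set_option autoImplicit false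
open Matrix

namespace Pool.Agent.H86.UM

open Pool.Agent.H75.UL

variable {n : ℕ} (C : SLC n)

theorem upper_of_fix {F : Type*} [Field F] (Γ : Set (GL C.Idx F))
    (hΓ : ∀ γ ∈ Γ, γ ∈ (C.adS F).U 1)
    (hnv : ∀ j, ∃ γ ∈ Γ, C.xi j (γ : Matrix C.Idx C.Idx F) ≠ 0)
    (y : GL C.Idx F) (hy : y ∈ C.Gad F)
    (h : ∀ γ ∈ Γ, C.Fil 0 ((y⁻¹ * γ * y : GL C.Idx F) : Matrix C.Idx C.Idx F)) :
    C.Fil 0 (y : Matrix C.Idx C.Idx F) := by
  classical
  have hy' : y ∈ (C.adS F).gen := by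
    rw [C.gen_adS]
    exact hy
  obtain ⟨u₀, hu₀, ν, hν, v, hv, hyeq⟩ := (C.adS F).bruhat y hy'
  obtain ⟨w, hw, hacts, hw1⟩ := (C.adS F).N_acts ν hν
  by_cases hw' : w = 1
  · obtain ⟨c, hc⟩ := C.T_diag ν (hw1 hw')
    have hνF : C.Fil 0 (ν : Matrix C.Idx C.Idx F) := by
      intro a b hab
      rw [hc]
      apply Matrix.diagonal_apply_ne
      rintro rfl
      omega
    have h1 := C.Fil_mul (C.Fil_mul (C.P1_Fil_zero_of_U hu₀) hνF) (C.P1_Fil_zero_of_U hv)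
    rw [hyeq, Units.val_mul, Units.val_mul]
    simpa using h1
  · exfalso
    have hj : ∃ j, ¬ C.Pos (w⁻¹ (C.simple j)) := by
      by_contra hcon
      apply hw'
      have h1 := C.eq_one_of_pos w⁻¹ (inv_mem hw) (by
        intro i
        by_contra h
        exact hcon ⟨i, h⟩)
      rwa [inv_eq_one] at h1
    obtain ⟨j, hj⟩ := hj
    obtain ⟨γ, hγΓ, hxi⟩ := hnv j
    apply hxi
    have hγ := hΓ γ hγΓ
    have hx : u₀⁻¹ * γ * u₀ ∈ (C.adS F).U 1 :=
      mul_mem (mul_mem (inv_mem hu₀) hγ) hu₀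
    have hF : C.Fil 0 ((ν⁻¹ * (u₀⁻¹ * γ * u₀) * ν : GL C.Idx F) :
        Matrix C.Idx C.Idx F) := by
      have h1 : ν⁻¹ * (u₀⁻¹ * γ * u₀) * ν = v * (y⁻¹ * γ * y) * v⁻¹ := by
        rw [hyeq]
        group
      have h3 := C.Fil_mul (C.Fil_mul (C.P1_Fil_zero_of_U hv) (h γ hγΓ))
        (C.P1_Fil_zero_of_U (inv_mem hv))
      rw [h1, Units.val_mul, Units.val_mul]
      simpa using h3
    have h4 := C.xi_eq_zero ν _ w hν hacts hx hF j hj
    rw [C.xi_mul j _ _ (mul_mem (inv_mem hu₀) hγ) hu₀, C.xi_mul j _ _ (inv_mem hu₀) hγ] at h4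
    have h5 := C.xi_mul j u₀⁻¹ u₀ (inv_mem hu₀) hu₀
    rw [inv_mul_cancel] at h5
    have h6 : C.xi j ((1 : GL C.Idx F) : Matrix C.Idx C.Idx F) = 0 := by
      simp [SLC.xi]
    rw [h6] at h5
    linear_combination h4 + h5

end Pool.Agent.H86.UM
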