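import Pool.Agent.H86.UM.Src

/-!
# Project UM, module W2: nonvanishing from a word

`Ψ` maps `U` into `U(F)`; `x₀ ∈ X J₀` and the entries `p` of `l`, `p.2 ∈ X p.1`, form a word of length
`ht θ` whose iterated commutator is not killed by `Ψ`, and all orbits `J` occur in the word. Then
(a) for each simple root `j` of the target `xi_j` is not zero on `Ψ (X J)` for some `J`: otherwise
`iad_eq_zero` and `icomm_eq_one` (as in `nonvanish` in H86/UL/P1.lean, `P1_icomm_map`);
(b) for each `J` some `xi_j` is not zero on `Ψ (X J)`: otherwise one of the entries `h` has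
`ld (Ψ h) = 0`, so `iad .. = 0` and again `icomm_eq_one`.
-/

set_option autoImplicit false
open Matrix

namespace Pool.Agent.H86.UM

open Pool.Agent.H75.UL

variable {n : ℕ} (C : SLC n)

private theorem W2_iad_zero {ι R : Type*} [Fintype ι] [CommRing R] (l : List (Matrix ι ι R)) :
    iad (0 : Matrix ι ι R) l = 0 := by
  induction l with
  | nil => rfl
  | cons B l ih =>
    have h1 : iad (0 : Matrix ι ι R) (B :: l) = iad (B * 0 - 0 * B) l := rfl
    rw [h1, mul_zero, zero_mul, sub_zero, ih]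

private theorem W2_iad_mem_zero {ι R : Type*} [Fintype ι] [CommRing R] (l : List (Matrix ι ι R)) :
    ∀ A : Matrix ι ι R, (∃ B ∈ l, B = 0) → iad A l = 0 := by
  induction l with
  | nil =>
    rintro A ⟨B, hB, -⟩
    exact absurd hB List.not_mem_nil
  | cons B l ih =>
    rintro A ⟨B', hB', h0⟩
    have h1 : iad A (B :: l) = iad (B * A - A * B) l := rfl
    rw [h1]
    rcases List.mem_cons.mp hB' with h | h
    · rw [← h, h0, mul_zero, zero_mul, sub_zero, W2_iad_zero]
    · exact ih _ ⟨B', h, h0⟩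

private theorem W2_ld_zero {F : Type*} [Field F] (M : Matrix C.Idx C.Idx F)
    (h : ∀ j, C.xi j M = 0) : C.ld M = 0 := by
  unfold SLC.ld
  apply Finset.sum_eq_zero
  intro j _
  rw [h j, zero_smul]

theorem nonvan_of_word (θ : C.Root) (hθ : C.IsHighest θ) {ι : Type} {E : Type*} [Group E]
    {F : Type*} [Field F] (Ψ : E →* GL C.Idx F) (X : ι → Subgroup E)
    (hU : ∀ J, ∀ u ∈ X J, Ψ u ∈ (C.adS F).U 1)
    (J₀ : ι) (x₀ : E) (hx₀ : x₀ ∈ X J₀) (l : List (ι × E)) (hl : ∀ p ∈ l, p.2 ∈ X p.1)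
    (hlen : (l.length : ℤ) + 1 = ht θ.1) (hocc : ∀ J, J = J₀ ∨ ∃ p ∈ l, p.1 = J)
    (hne : Ψ (icomm x₀ (l.map Prod.snd)) ≠ 1) :
    (∀ j, ∃ J, ∃ x ∈ X J, C.xi j (Ψ x : Matrix C.Idx C.Idx F) ≠ 0) ∧
    ∀ J, ∃ j, ∃ x ∈ X J, C.xi j (Ψ x : Matrix C.Idx C.Idx F) ≠ 0 := by
  have key : iad (C.ld (Ψ x₀ : Matrix C.Idx C.Idx F))
      (l.map fun p => C.ld (Ψ p.2 : Matrix C.Idx C.Idx F)) ≠ 0 := by
    intro h0
    apply hne
    rw [SLC.P1_icomm_map, List.map_map]
    apply C.icomm_eq_one θ hθ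
    · exact hU J₀ x₀ hx₀
    · intro h hh
      obtain ⟨p, hp, rfl⟩ := List.mem_map.mp hh
      exact hU p.1 p.2 (hl p hp)
    · rw [List.length_map]
      exact hlen
    · have h3 : ∀ l' : List (GL C.Idx F),
          (l' >>= fun a => pure (a : Matrix C.Idx C.Idx F)) =
            l'.map (fun h : GL C.Idx F => (h : Matrix C.Idx C.Idx F)) := by
        intro l'
        simp [List.map_eq_flatMap]
      rw [h3, List.map_map, List.map_map]
      exact h0
  constructor
  · intro j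
    by_contra hcon
    have hz : ∀ J, ∀ x ∈ X J, C.xi j (Ψ x : Matrix C.Idx C.Idx F) = 0 := by
      intro J x hx
      by_contra h
      exact hcon ⟨J, x, hx, h⟩
    apply key
    have h1 := C.iad_eq_zero θ hθ j (Ψ x₀ : Matrix C.Idx C.Idx F)
      (l.map fun p => (Ψ p.2 : Matrix C.Idx C.Idx F)) (hz J₀ x₀ hx₀)
      (by
        intro B hB
        obtain ⟨p, hp, rfl⟩ := List.mem_map.mp hB
        exact hz p.1 p.2 (hl p hp))
      (by rw [List.length_map]; exact hlen)
    rw [List.map_map] at h1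
    exact h1
  · intro J
    by_contra hcon
    have hz : ∀ x ∈ X J, C.ld (Ψ x : Matrix C.Idx C.Idx F) = 0 := by
      intro x hx
      apply W2_ld_zero
      intro j
      by_contra h
      exact hcon ⟨j, x, hx, h⟩
    apply key
    rcases hocc J with h | ⟨p, hp, h⟩
    · rw [hz x₀ (h ▸ hx₀), W2_iad_zero]
    · apply W2_iad_mem_zero
      exact ⟨_, List.mem_map.mpr ⟨p, hp, rfl⟩, hz p.2 (h ▸ hl p hp)⟩

end Pool.Agent.H86.UM
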