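import Pool.Agent.H86.UM.RD4
import Pool.Agent.H86.UM.UC
import Pool.Agent.H86.UM.W2
import Pool.Agent.H86.UM.Reg
import Pool.Agent.H86.UM.CT
import Pool.Agent.H86.UM.Fib
import Pool.Agent.H75.UL.P3b

/-!
# Project UM, module AS1: assembly of the first stage

`Word C θ S`: a word in the simple root groups of the source, of length `ht θ`, in which all orbits occur.

`stage_L`: `Γ = (S.U).map (mp ∘ Ψ) ≤ Gad L` consists of unipotents, so `fixed_chamber` (H86/UL/F2) gives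
`g ∈ Gad L` with `g⁻¹ Γ g` in `Fil 0`, so in `U(L)` (`mem_U_of_unipotent`; conjugates of unipotents are
unipotent). `nonvan_of_word` for `Ψ' = cj (mp ∘ Ψ) g` (`Ψ' w ≠ 1` as `mp` is injective, `mp_injective`).
For `h ∈ S.T` put `y = g⁻¹ mp(Ψ h) g`; for `u ∈ S.U`, `y⁻¹ (Ψ' u) y = Ψ' (h⁻¹ u h) ∈ U(L)`
(`T_conj_U` for `h⁻¹`), so `upper_of_fix` (with `nonvan`, `X_le`) gives `Fil 0 y`. For
`σ : L ≃ₐ[K] L` put `y = g⁻¹ (mp σ g)`: `y⁻¹ (Ψ' u) y = mp σ (Ψ' u) ∈ U(L)` (`mp_U`; the entries of `Ψ u`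
are in `K`, see `P3b_mp_fix`), so `Fil 0 y`.

`stage_K`: (the hypotheses on `g` are the conclusions of `stage_L`) `exists_fib` and `exists_regular'` over
`L` for `Ψ' = cj (mp ∘ Ψ) g` give `t ∈ S.T` such that all `chi (Ψ' t) γ ≠ 1`; `rational_der` with
`Γ = Ψ '' (S.U ∪ S.T)` gives `g₀ ∈ Gad K` with `b = g⁻¹ (mp g₀)` in `Fil 0`. For `u ∈ S.U`:
`mp (g₀⁻¹ Ψ(u) g₀) = b⁻¹ (Ψ' u) b`, so `g₀⁻¹ Ψ(u) g₀` is `Fil 0` (`Fil_map_iff`, `upper_inv`, `Fil_mul`) and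
unipotent (`nilpotent_map_iff`; `Ψ' u ∈ U(L)` is unipotent by `Fil_U` and `exists_Fil_eq_zero'`), so in
`U(K)` by `mem_U_of_unipotent`. For `h ∈ S.T` it is `Fil 0`. `xi j (b⁻¹ (Ψ' u) b)` is a nonzero multiple of
`xi j (Ψ' u)` (`xi_conj` with `b⁻¹`, `chi_ne_zero`), and `xi j (M.map f) = f (xi j M)`, so `nonvan`, `occ`
hold over `K`. So `Tgt C S (cj Ψ g₀)`. Then `exists_fib`, `exists_regular'`, `conj_torus'`, `Tgt_conj` over
`K` give `w`, `g₀ * w`. `unique_of_Tgt`: `upper_of_fix` (`y ∈ Gad`, `Γ = Ψ '' S.U`). `torus_of_Tgt`: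
`Fil 0 y` by `unique_of_Tgt`; take `t` with `chi (Ψ t) γ ≠ 1` (`exists_regular'`); `y⁻¹ (Ψ t) y ∈ T` has
the same `chi` as `Ψ t` (`chi_mul`, as in `P3b_chi_conj`), so `y⁻¹ (Ψ t) y = Ψ t` (`T_ext`), and
`centralizer_B`.
-/

set_option autoImplicit false
open Matrix

namespace Pool.Agent.H86.UM

open Pool.Agent.H75.UL

variable {n : ℕ} (C : SLC n)

/-- A word in the simple root groups of the source, of length `ht θ`, in which all orbits occur. -/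
structure Word (θ : C.Root) {ι : Type} {E : Type*} [Group E] {k : Type*} [Field k]
    (S : Src ι E k) where
  J₀ : ι
  x₀ : E
  l : List (ι × E)
  hx₀ : x₀ ∈ S.X J₀
  hl : ∀ p ∈ l, p.2 ∈ S.X p.1
  hlen : (l.length : ℤ) + 1 = ht θ.1
  hocc : ∀ J, J = J₀ ∨ ∃ p ∈ l, p.1 = J

/-- the iterated commutator -/
def Word.elt {C : SLC n} {θ : C.Root} {ι : Type} {E : Type*} [Group E] {k : Type*} [Field k]
    {S : Src ι E k} (w : Word C θ S) : E := icomm w.x₀ (w.l.map Prod.snd)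

private theorem AS1_Fil_mul3 {F : Type*} [Field F] (a b c : GL C.Idx F)
    (ha : C.Fil 0 (a : Matrix C.Idx C.Idx F)) (hb : C.Fil 0 (b : Matrix C.Idx C.Idx F))
    (hc : C.Fil 0 (c : Matrix C.Idx C.Idx F)) :
    C.Fil 0 ((a * b * c : GL C.Idx F) : Matrix C.Idx C.Idx F) := by
  have h := C.Fil_mul (C.Fil_mul ha hb) hc
  rw [add_zero, add_zero] at h
  exact h

private theorem AS1_U_Gad {F : Type*} [Field F] (u : GL C.Idx F) (hu : u ∈ (C.adS F).U 1) :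
    u ∈ C.Gad F := by
  rw [← C.gen_adS]
  exact (C.adS F).U_le_gen 1 hu

private theorem AS1_nil_conj {F : Type*} [Field F] (g x : GL C.Idx F)
    (hx : IsNilpotent ((x : Matrix C.Idx C.Idx F) - 1)) :
    IsNilpotent (((g⁻¹ * x * g : GL C.Idx F) : Matrix C.Idx C.Idx F) - 1) := by
  obtain ⟨N, hN⟩ := hx
  refine ⟨N, ?_⟩
  have e : ((g⁻¹ * x * g : GL C.Idx F) : Matrix C.Idx C.Idx F) - 1 =
      ((g⁻¹ : GL C.Idx F) : Matrix C.Idx C.Idx F) * ((x : Matrix C.Idx C.Idx F) - 1) *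
        (g : Matrix C.Idx C.Idx F) := by
    rw [mul_sub, sub_mul, mul_one, Units.inv_mul, Units.val_mul, Units.val_mul]
  rw [e, Units.conj_pow', hN, mul_zero, zero_mul]

private theorem AS1_U_nil {F : Type*} [Field F] (u : GL C.Idx F) (hu : u ∈ (C.adS F).U 1) :
    IsNilpotent ((u : Matrix C.Idx C.Idx F) - 1) := by
  have h1 := C.Fil_U 1 le_rfl u hu
  obtain ⟨m₀, hm₀⟩ := C.exists_Fil_eq_zero' F
  have hp : ∀ N : ℕ, C.Fil (N : ℤ) (((u : Matrix C.Idx C.Idx F) - 1) ^ N) := by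
    intro N
    induction N with
    | zero =>
      rw [pow_zero]
      exact C.Fil_one
    | succ N ih =>
      have h := C.Fil_mul ih h1
      rw [pow_succ]
      push_cast
      exact h
  refine ⟨m₀.toNat, hm₀ _ (C.Fil_mono ?_ (hp _))⟩
  exact Int.self_le_toNat m₀

private theorem AS1_xi_map {F F' : Type*} [Field F] [Field F'] (f : F →+* F')
    (M : Matrix C.Idx C.Idx F) (j : Fin n) : C.xi j (M.map f) = f (C.xi j M) := by
  simp [SLC.xi]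

theorem stage_L (θ : C.Root) (hθ : C.IsHighest θ) {ι : Type} {E : Type*} [Group E] {k : Type*}
    [Field k] (S : Src ι E k) (w : Word C θ S) {K L : Type*} [Field K] [Field L] [Algebra K L]
    [IsAlgClosure K L] (Ψ : E →* GL C.Idx K) (hΨ : ∀ x, Ψ x ∈ C.Gad K) (hw : Ψ w.elt ≠ 1)
    (huni : ∀ u ∈ S.U, IsNilpotent ((Ψ u : Matrix C.Idx C.Idx K) - 1)) :
    ∃ g ∈ C.Gad L, Tgt C S (cj ((C.mp (algebraMap K L)).comp Ψ) g) ∧
      ∀ σ : L ≃ₐ[K] L, C.Fil 0 ((g⁻¹ * C.mp (σ : L →+* L) g : GL C.Idx L) :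
        Matrix C.Idx C.Idx L) := by
  have : IsAlgClosed L := IsAlgClosure.isAlgClosed K
  let Φ : E →* GL C.Idx L := (C.mp (algebraMap K L)).comp Ψ
  have hΦ : ∀ x, Φ x = C.mp (algebraMap K L) (Ψ x) := fun _ => rfl
  have hΦm : ∀ x, Φ x ∈ C.Gad L := fun x => C.mp_Gad _ _ (hΨ x)
  obtain ⟨g, hg, hgF⟩ := C.fixed_chamber L (S.U.map Φ) (by
    rintro _ ⟨x, _, rfl⟩
    exact hΦm x) (by
    rintro _ ⟨u, hu, rfl⟩
    rw [hΦ, C.mp_val]
    have e : (Ψ u : Matrix C.Idx C.Idx K).map (algebraMap K L) - 1 =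
        ((Ψ u : Matrix C.Idx C.Idx K) - 1).map (algebraMap K L) := by
      rw [Matrix.map_sub _ (fun a b => _root_.map_sub _ a b), Matrix.map_one _ (_root_.map_zero _) (_root_.map_one _)]
    rw [e, C.nilpotent_map_iff _ (algebraMap K L).injective]
    exact huni u hu)
  refine ⟨g, hg, ?_⟩
  have hmem : ∀ x, cj Φ g x ∈ C.Gad L := by
    intro x
    rw [cj_apply]
    exact mul_mem (mul_mem (inv_mem hg) (hΦm x)) hg
  have hUle : ∀ u ∈ S.U, cj Φ g u ∈ (C.adS L).U 1 := by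
    intro u hu
    refine C.mem_U_of_unipotent _ (hmem u) ?_ ?_
    · rw [cj_apply]
      exact hgF _ (Subgroup.mem_map_of_mem Φ hu)
    · rw [cj_apply]
      apply AS1_nil_conj
      rw [hΦ, C.mp_val]
      have e : (Ψ u : Matrix C.Idx C.Idx K).map (algebraMap K L) - 1 =
          ((Ψ u : Matrix C.Idx C.Idx K) - 1).map (algebraMap K L) := by
        rw [Matrix.map_sub _ (fun a b => _root_.map_sub _ a b), Matrix.map_one _ (_root_.map_zero _) (_root_.map_one _)]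
      rw [e, C.nilpotent_map_iff _ (algebraMap K L).injective]
      exact huni u hu
  have hne : cj Φ g (icomm w.x₀ (w.l.map Prod.snd)) ≠ 1 := by
    intro h1
    rw [cj_apply] at h1
    have h2 : Φ (icomm w.x₀ (w.l.map Prod.snd)) = 1 := by
      have h3 : Φ (icomm w.x₀ (w.l.map Prod.snd)) =
          g * (g⁻¹ * Φ (icomm w.x₀ (w.l.map Prod.snd)) * g) * g⁻¹ := by group
      rw [h3, h1]
      group
    apply hw
    apply C.mp_injective (algebraMap K L) (algebraMap K L).injective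
    rw [_root_.map_one]
    exact h2
  obtain ⟨hnv, hocc⟩ := nonvan_of_word C θ hθ (cj Φ g) S.X (fun J u hu => hUle u (S.X_le J hu))
    w.J₀ w.x₀ w.hx₀ w.l w.hl w.hlen w.hocc hne
  have hnv' : ∀ j, ∃ γ ∈ (cj Φ g) '' (S.U : Set E), C.xi j (γ : Matrix C.Idx C.Idx L) ≠ 0 := by
    intro j
    obtain ⟨J, x, hx, h⟩ := hnv j
    exact ⟨_, ⟨x, S.X_le J hx, rfl⟩, h⟩
  have hΓU : ∀ γ ∈ (cj Φ g) '' (S.U : Set E), γ ∈ (C.adS L).U 1 := by
    rintro _ ⟨u, hu, rfl⟩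
    exact hUle u hu
  have hTle : ∀ h ∈ S.T, C.Fil 0 (cj Φ g h : Matrix C.Idx C.Idx L) := by
    intro h hh
    refine upper_of_fix C _ hΓU hnv' _ (hmem h) ?_
    rintro _ ⟨u, hu, rfl⟩
    rw [← _root_.map_inv, ← _root_.map_mul, ← _root_.map_mul]
    have h1 := S.T_conj_U h⁻¹ (inv_mem hh) u hu
    rw [inv_inv] at h1
    exact C.Fil_U_zero _ (hUle _ h1)
  refine ⟨⟨hmem, hUle, hTle, hnv, hocc⟩, ?_⟩
  intro σ
  refine upper_of_fix C _ hΓU hnv' _ (mul_mem (inv_mem hg) (C.mp_Gad _ g hg)) ?_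
  rintro _ ⟨u, hu, rfl⟩
  have e : (g⁻¹ * C.mp (σ : L →+* L) g)⁻¹ * cj Φ g u * (g⁻¹ * C.mp (σ : L →+* L) g) =
      C.mp (σ : L →+* L) (cj Φ g u) := by
    rw [cj_apply, _root_.map_mul, _root_.map_mul, _root_.map_inv, hΦ, C.P3b_mp_fix]
    group
  rw [e, C.mp_val]
  exact C.Fil_map _ (C.Fil_U_zero _ (hUle u hu))

theorem stage_K {ι : Type} {E : Type*} [Group E] {k : Type*} [Field k] (S : Src ι E k)
    {K L : Type*} [Field K] [Field L] [Algebra K L] [IsAlgClosure K L]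
    (Ψ : E →* GL C.Idx K) (hΨ : ∀ x, Ψ x ∈ C.Gad K) (g : GL C.Idx L) (hg : g ∈ C.Gad L)
    (hT : Tgt C S (cj ((C.mp (algebraMap K L)).comp Ψ) g))
    (hfix : ∀ σ : L ≃ₐ[K] L, C.Fil 0 ((g⁻¹ * C.mp (σ : L →+* L) g : GL C.Idx L) :
        Matrix C.Idx C.Idx L)) :
    ∃ g₀ ∈ C.Gad K, Tgt C S (cj Ψ g₀) ∧ (∀ h ∈ S.T, cj Ψ g₀ h ∈ (C.adS K).T) ∧
      ∃ fib : Fin n → ι, Fib C S (cj Ψ g₀) fib := by
  let Φ : E →* GL C.Idx L := (C.mp (algebraMap K L)).comp Ψ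
  have hΦ : ∀ x, Φ x = C.mp (algebraMap K L) (Ψ x) := fun _ => rfl
  have hT' : Tgt C S (cj Φ g) := hT
  obtain ⟨fib, hf⟩ := exists_fib C S (cj Φ g) hT'
  obtain ⟨t, ht, hreg⟩ := exists_regular' C S (cj Φ g) hT' fib hf
  obtain ⟨g₀, hg₀, hb0⟩ := rational_der C (L := L) (Ψ '' ((S.U : Set E) ∪ (S.T : Set E)))
    (by
      rintro _ ⟨x, _, rfl⟩
      exact hΨ x) g hg
    (by
      rintro _ ⟨x, hx, rfl⟩
      have e : g⁻¹ * C.mp (algebraMap K L) (Ψ x) * g = cj Φ g x := by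
        rw [cj_apply]
        rfl
      rw [e]
      rcases hx with hx | hx
      · exact C.Fil_U_zero _ (hT'.U_le x hx)
      · exact hT'.T_le x hx) hfix
    (by
      intro δ
      refine ⟨Ψ t, ⟨t, Or.inr ht, rfl⟩, ?_⟩
      have e : g⁻¹ * C.mp (algebraMap K L) (Ψ t) * g = cj Φ g t := by
        rw [cj_apply]
        rfl
      rw [e]
      exact hreg δ)
  obtain ⟨b, hb⟩ : ∃ b : GL C.Idx L, b = g⁻¹ * C.mp (algebraMap K L) g₀ := ⟨_, rfl⟩
  rw [← hb] at hb0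
  have hbm : b ∈ C.Gad L := by
    rw [hb]
    exact mul_mem (inv_mem hg) (C.mp_Gad _ g₀ hg₀)
  have hbi := C.upper_inv b hbm hb0
  have hmp : ∀ x, C.mp (algebraMap K L) (cj Ψ g₀ x) = b⁻¹ * cj Φ g x * b := by
    intro x
    rw [cj_apply, cj_apply, _root_.map_mul, _root_.map_mul, _root_.map_inv, hΦ, hb]
    group
  have hinj : Function.Injective (algebraMap K L) := (algebraMap K L).injective
  have hmem : ∀ x, cj Ψ g₀ x ∈ C.Gad K := by
    intro x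
    rw [cj_apply]
    exact mul_mem (mul_mem (inv_mem hg₀) (hΨ x)) hg₀
  have hFil : ∀ x, C.Fil 0 (cj Φ g x : Matrix C.Idx C.Idx L) →
      C.Fil 0 (cj Ψ g₀ x : Matrix C.Idx C.Idx K) := by
    intro x hx
    rw [← C.Fil_map_iff (algebraMap K L) hinj, ← C.mp_val, hmp]
    exact AS1_Fil_mul3 C _ _ _ hbi hx hb0
  have hxic : ∀ u ∈ S.U, C.mp (algebraMap K L) (cj Ψ g₀ u) ∈ (C.adS L).U 1 ∧ ∀ j,
      algebraMap K L (C.xi j (cj Ψ g₀ u : Matrix C.Idx C.Idx K)) =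
        C.chi ((b⁻¹ : GL C.Idx L) : Matrix C.Idx C.Idx L) (C.simple j) *
          C.xi j (cj Φ g u : Matrix C.Idx C.Idx L) := by
    intro u hu
    have hU := hT'.U_le u hu
    have h1 := fun j => C.xi_conj b⁻¹ (cj Φ g u) (inv_mem hbm) hbi hU j
    simp only [inv_inv, ← hmp] at h1
    refine ⟨?_, fun j => ?_⟩
    · have h2 := C.mem_U_of_unipotent (C.mp (algebraMap K L) (cj Ψ g₀ u))
        (C.mp_Gad _ _ (hmem u)) (by
          rw [C.mp_val, C.Fil_map_iff _ hinj]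
          exact hFil u (C.Fil_U_zero _ hU)) (by
          rw [hmp]
          exact AS1_nil_conj C b _ (AS1_U_nil C _ hU))
      exact h2
    · rw [← AS1_xi_map, ← C.mp_val]
      exact (h1 j).2
  have hxine : ∀ u ∈ S.U, ∀ j, C.xi j (cj Φ g u : Matrix C.Idx C.Idx L) ≠ 0 →
      C.xi j (cj Ψ g₀ u : Matrix C.Idx C.Idx K) ≠ 0 := by
    intro u hu j h h0
    have h1 := (hxic u hu).2 j
    rw [h0, _root_.map_zero] at h1
    rcases mul_eq_zero.1 h1.symm with h2 | h2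
    · exact C.chi_ne_zero b⁻¹ (inv_mem hbm) hbi _ h2
    · exact h h2
  have hTgt : Tgt C S (cj Ψ g₀) := by
    refine ⟨hmem, ?_, fun h hh => hFil h (hT'.T_le h hh), ?_, ?_⟩
    · intro u hu
      refine C.mem_U_of_unipotent _ (hmem u) (hFil u (C.Fil_U_zero _ (hT'.U_le u hu))) ?_
      rw [← C.nilpotent_map_iff (algebraMap K L) hinj]
      have e : ((cj Ψ g₀ u : Matrix C.Idx C.Idx K) - 1).map (algebraMap K L) =
          (C.mp (algebraMap K L) (cj Ψ g₀ u) : Matrix C.Idx C.Idx L) - 1 := by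
        rw [Matrix.map_sub _ (fun a b => _root_.map_sub _ a b), Matrix.map_one _ (_root_.map_zero _) (_root_.map_one _), C.mp_val]
      rw [e]
      exact AS1_U_nil C _ (hxic u hu).1
    · intro j
      obtain ⟨J, x, hx, h⟩ := hT'.nonvan j
      exact ⟨J, x, hx, hxine x (S.X_le J hx) j h⟩
    · intro J
      obtain ⟨j, x, hx, h⟩ := hT'.occ J
      exact ⟨j, x, hx, hxine x (S.X_le J hx) j h⟩
  obtain ⟨fib₀, hf₀⟩ := exists_fib C S (cj Ψ g₀) hTgt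
  obtain ⟨t₀, ht₀, hreg₀⟩ := exists_regular' C S (cj Ψ g₀) hTgt fib₀ hf₀
  obtain ⟨w, hw, hwT⟩ := conj_torus' C S (cj Ψ g₀) hTgt t₀ ht₀ hreg₀
  obtain ⟨h1, _, _, h4⟩ := Tgt_conj C S (cj Ψ g₀) hTgt w hw
  have e : cj (cj Ψ g₀) w = cj Ψ (g₀ * w) := by
    ext1 x
    rw [cj_apply, cj_apply, cj_apply]
    group
  rw [e] at h1 h4
  refine ⟨g₀ * w, mul_mem hg₀ (AS1_U_Gad C w hw), h1, ?_, fib₀, h4 fib₀ hf₀⟩
  intro x hx
  rw [← e, cj_apply]
  exact hwT x hx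

/-- uniqueness of the chamber -/
theorem unique_of_Tgt {ι : Type} {E : Type*} [Group E] {k : Type*} [Field k] (S : Src ι E k)
    {K : Type*} [Field K] (Ψ : E →* GL C.Idx K) (h : Tgt C S Ψ) (y : GL C.Idx K)
    (hy : y ∈ C.Gad K) (h1 : ∀ u ∈ S.U, C.Fil 0 ((y⁻¹ * Ψ u * y : GL C.Idx K) :
      Matrix C.Idx C.Idx K)) : C.Fil 0 (y : Matrix C.Idx C.Idx K) := by
  refine upper_of_fix C (Ψ '' (S.U : Set E)) ?_ ?_ y hy ?_
  · rintro _ ⟨u, hu, rfl⟩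
    exact h.U_le u hu
  · intro j
    obtain ⟨J, x, hx, h0⟩ := h.nonvan j
    exact ⟨_, ⟨x, S.X_le J hx, rfl⟩, h0⟩
  · rintro _ ⟨u, hu, rfl⟩
    exact h1 u hu

/-- uniqueness of the chamber with torus: the torus of the source determines the apartment -/
theorem torus_of_Tgt {ι : Type} {E : Type*} [Group E] {k : Type*} [Field k] (S : Src ι E k)
    {K : Type*} [Field K] (Ψ : E →* GL C.Idx K) (h : Tgt C S Ψ)
    (hT : ∀ x ∈ S.T, Ψ x ∈ (C.adS K).T) (fib : Fin n → ι) (hf : Fib C S Ψ fib) (y : GL C.Idx K)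
    (hy : y ∈ C.Gad K) (h1 : ∀ u ∈ S.U, C.Fil 0 ((y⁻¹ * Ψ u * y : GL C.Idx K) :
      Matrix C.Idx C.Idx K)) (h2 : ∀ x ∈ S.T, y⁻¹ * Ψ x * y ∈ (C.adS K).T) :
    y ∈ (C.adS K).T := by
  have hy0 := unique_of_Tgt C S Ψ h y hy h1
  obtain ⟨t, ht, hreg⟩ := exists_regular' C S Ψ h fib hf
  have e : y⁻¹ * Ψ t * y = Ψ t := by
    refine C.T_ext _ _ (h2 t ht) (hT t ht) fun j => ?_
    exact C.P3b_chi_conj (Ψ t) y (h.mem t) (h.T_le t ht) hy hy0 (C.simple j)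
  refine C.centralizer_B (Ψ t) y (hT t ht) hy hy0 (fun γ _ => hreg γ) ?_
  have e2 : y * (y⁻¹ * Ψ t * y) = y * Ψ t := by rw [e]
  rw [← e2]
  group

end Pool.Agent.H86.UM
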