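import Pool.Agent.H86.UL.P1

/-!
# Project UM, module W1: nonvanishing iterated commutators with entries in a spanning set

`vm v = ∑_j v_j E_(α_j)`. `G` is a set of vectors in `k^n` which spans `k^n`.
(1) `exists_word`: there are `v₀ ∈ G` and a list `l` of elements of `G` of length `ht θ - 1` such that the
iterated bracket `iad (vm v₀) (l.map vm)` is not `0`. Proof: by `IsHighest.chain` (see the proof of
`nonvanish` in H86/UL/P1.lean) there is a chain of simple roots with `iad (vm e_(i₀)) (l.map ..) ≠ 0`: e.g.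
from `icomm_chain` in the group and `icomm_lead`, or from `T5_map_comm_add` directly (the bracket of
`E_(α_i)` and `E_β` is `± E_(β + α_i)`), `E_θ ≠ 0` over `k`. Then replace the entries one after the other by
elements of `G`: `iad` is linear in the first argument, and `iad A (B :: l) = iad (B * A - A * B) l`, so
induct on the list for arbitrary `A`: if `iad A ((e_i :: l).map vm) ≠ 0`, the map
`v ↦ iad (vm v * A - A * vm v) l'` is linear and not zero at `e_i ∈ span G`, so it is not zero at some
`v ∈ G` (do this for the head after the tail has been treated for all `A`: formulate the induction as: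
for all `A` with `iad A (l.map vm) ≠ 0` (`l` any list of vectors) there is `l'` of the same length with
entries in `G` and `iad A (l'.map vm) ≠ 0`).
(2) `word_occ`: if `iad (vm v₀) (l.map vm) ≠ 0` and `l.length + 1 = ht θ` then each simple root `j` occurs:
some `v` in `v₀ :: l` has `v j ≠ 0`. This is `iad_eq_zero` (`xi j (vm v) = v j`, `ld (vm v) = vm v`).
(3) `icomm_ne_one`: if `g, l` are elements of `U` with `iad (ld g) (l.map ld) ≠ 0`, `l.length + 1 = ht θ`,
then `icomm g l ≠ 1`: by `icomm_lead`, if `icomm g l = 1` then `iad ..` is `Fil (ht θ + 1)`; it is also in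
the span of the `E_β` with `ht β = ht θ` (see `T5_V`, `T5_iad` for the method), i.e. of `E_θ`
(`IsHighest`), and `c • E_θ` in `Fil (ht θ + 1)` implies `c • E_θ = 0` (its nonzero entries raise the height by
exactly `ht θ`).
-/

set_option autoImplicit false
open Matrix

namespace Pool.Agent.H86.UM

open Pool.Agent.H75.UL
open Pool.Agent.H75.UL.SLC

variable {n : ℕ} (C : SLC n)

/-- the matrix of `ad (∑ v_j e_j)` -/
def vm {k : Type*} [Field k] (v : Fin n → k) : Matrix C.Idx C.Idx k :=
  ∑ j, v j • (C.E (C.simple j)).map (Int.cast : ℤ → k)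

/-! ### helper lemmas -/

private theorem W1_iad_add {ι R : Type*} [Fintype ι] [CommRing R] (l : List (Matrix ι ι R))
    (A B : Matrix ι ι R) : iad (A + B) l = iad A l + iad B l := by
  induction l generalizing A B with
  | nil => rfl
  | cons M l ih =>
    have h1 : ∀ D : Matrix ι ι R, iad D (M :: l) = iad (M * D - D * M) l := fun D => rfl
    rw [h1, h1, h1, ← ih]
    congr 1
    rw [mul_add, add_mul]
    abel

private theorem W1_iad_smul {ι R : Type*} [Fintype ι] [CommRing R] (l : List (Matrix ι ι R))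
    (c : R) (A : Matrix ι ι R) : iad (c • A) l = c • iad A l := by
  induction l generalizing A with
  | nil => rfl
  | cons M l ih =>
    have h1 : ∀ D : Matrix ι ι R, iad D (M :: l) = iad (M * D - D * M) l := fun D => rfl
    rw [h1, h1, ← ih]
    congr 1
    rw [mul_smul_comm, smul_mul_assoc, smul_sub]

private theorem W1_iad_zero {ι R : Type*} [Fintype ι] [CommRing R] (l : List (Matrix ι ι R)) :
    iad (0 : Matrix ι ι R) l = 0 := by
  have h := W1_iad_smul l (0 : R) (0 : Matrix ι ι R)
  rwa [zero_smul, zero_smul] at h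

private theorem W1_vm_add {k : Type*} [Field k] (v w : Fin n → k) :
    vm C (v + w) = vm C v + vm C w := by
  unfold vm
  rw [← Finset.sum_add_distrib]
  exact Finset.sum_congr rfl fun j _ => by rw [Pi.add_apply, add_smul]

private theorem W1_vm_smul {k : Type*} [Field k] (c : k) (v : Fin n → k) :
    vm C (c • v) = c • vm C v := by
  unfold vm
  rw [Finset.smul_sum]
  exact Finset.sum_congr rfl fun j _ => by rw [Pi.smul_apply, smul_eq_mul, mul_smul]

private theorem W1_vm_single {k : Type*} [Field k] (i : Fin n) :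
    vm C (Pi.single i (1 : k)) = (C.E (C.simple i)).map (Int.cast : ℤ → k) := by
  unfold vm
  rw [Finset.sum_eq_single i]
  · rw [Pi.single_eq_same, one_smul]
  · intro j _ hj
    rw [Pi.single_eq_of_ne hj, zero_smul]
  · intro h
    exact absurd (Finset.mem_univ i) h

/-- a linear function which is not zero is not zero on a spanning set -/
private theorem W1_exists {k M : Type*} [Field k] [AddCommGroup M] [Module k M]
    (f : (Fin n → k) → M) (hadd : ∀ v w, f (v + w) = f v + f w)
    (hsmul : ∀ (c : k) v, f (c • v) = c • f v)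
    (G : Set (Fin n → k)) (hG : Submodule.span k G = ⊤) (v : Fin n → k) (hv : f v ≠ 0) :
    ∃ w ∈ G, f w ≠ 0 := by
  by_contra hcon
  push Not at hcon
  apply hv
  have h1 : v ∈ Submodule.span k G := by rw [hG]; exact Submodule.mem_top
  induction h1 using Submodule.span_induction with
  | mem x hx => exact hcon x hx
  | zero =>
    have h := hsmul 0 0
    rwa [zero_smul, zero_smul] at h
  | add x y _ _ hx hy =>
    rw [hadd]
    by_cases h1 : f x = 0
    · by_cases h2 : f y = 0
      · rw [h1, h2, add_zero]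
      · exact absurd (hy h2) h2
    · exact absurd (hx h1) h1
  | smul c x _ hx =>
    rw [hsmul]
    by_cases h1 : f x = 0
    · rw [h1, smul_zero]
    · exact absurd (hx h1) h1

/-- replace the entries of the list by elements of a spanning set -/
private theorem W1_replace {k : Type*} [Field k] (G : Set (Fin n → k))
    (hG : Submodule.span k G = ⊤) (l : List (Fin n → k)) (A : Matrix C.Idx C.Idx k)
    (h : iad A (l.map (vm C)) ≠ 0) :
    ∃ l' : List (Fin n → k), (∀ v ∈ l', v ∈ G) ∧ l'.length = l.length ∧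
      iad A (l'.map (vm C)) ≠ 0 := by
  induction l generalizing A with
  | nil => exact ⟨[], by simp, rfl, h⟩
  | cons v l ih =>
    obtain ⟨l', hl', hlen, hne⟩ := ih (vm C v * A - A * vm C v) h
    obtain ⟨w, hw, hwne⟩ := W1_exists
      (fun w => iad (vm C w * A - A * vm C w) (l'.map (vm C)))
      (by
        intro x y
        rw [← W1_iad_add, W1_vm_add]
        congr 1
        rw [mul_add, add_mul]
        abel)
      (by
        intro c x
        rw [← W1_iad_smul, W1_vm_smul]
        congr 1
        rw [mul_smul_comm, smul_mul_assoc, smul_sub])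
      G hG v hne
    refine ⟨w :: l', ?_, by rw [List.length_cons, List.length_cons, hlen], hwne⟩
    intro x hx
    rcases List.mem_cons.1 hx with rfl | hx
    · exact hw
    · exact hl' x hx

private theorem W1_chain {k : Type*} [Field k] {β δ : C.Root} {l : List (Fin n)}
    (hc : C.Chain β l δ) : ∃ e : k, e ≠ 0 ∧
      iad ((C.E β).map (Int.cast : ℤ → k)) ((l.map fun i => Pi.single i (1 : k)).map (vm C)) =
        e • (C.E δ).map (Int.cast : ℤ → k) := by
  induction hc with
  | nil β => exact ⟨1, one_ne_zero, by rw [one_smul]; rfl⟩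
  | @cons i β γ δ l h _ ih =>
    obtain ⟨e, he, hs⟩ := ih
    refine ⟨(C.eps (C.simple i).1 β.1 : k) * e, ?_, ?_⟩
    · apply mul_ne_zero _ he
      rcases C.eps_eq_one_or (C.simple i).1 β.1 with h1 | h1 <;> rw [h1] <;> simp
    · have h1 : iad ((C.E β).map (Int.cast : ℤ → k))
          (((i :: l).map fun i => Pi.single i (1 : k)).map (vm C)) =
          iad (vm C (Pi.single i (1 : k)) * (C.E β).map (Int.cast : ℤ → k) -
            (C.E β).map (Int.cast : ℤ → k) * vm C (Pi.single i (1 : k)))
            ((l.map fun i => Pi.single i (1 : k)).map (vm C)) := rfl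
      rw [h1, W1_vm_single, C.T5_map_comm_add (C.simple i) β γ h, W1_iad_smul, hs, smul_smul]

private theorem W1_E_ne_zero {k : Type*} [Field k] (α : C.Root) :
    (C.E α).map (Int.cast : ℤ → k) ≠ 0 := by
  intro h
  have hent : ∀ a b, ((C.E α a b : ℤ) : k) = 0 := by
    intro a b
    have h1 := congrFun (congrFun h a) b
    rwa [Matrix.map_apply, Matrix.zero_apply] at h1
  obtain ⟨i, hi⟩ : ∃ i, C.ip (C.simple i).1 α.1 ≠ 0 := by
    by_contra hcon
    push Not at hcon
    have h2 := C.sum_ip_single α.1 α.1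
    rw [α.2, Finset.sum_eq_zero] at h2
    · omega
    · intro i _
      have h3 := hcon i
      rw [simple_val] at h3
      rw [h3, mul_zero]
  have h1 := hent (Sum.inr α) (Sum.inl i)
  have h2 : C.E α (Sum.inr α) (Sum.inl i) = - C.ip (C.simple i).1 α.1 := by
    simp [E]
  rw [h2] at h1
  rcases C.ip_cases (C.simple i) α with h3 | h3 | h3 | h3 | h3
  · have h4 := (C.ip_eq_neg_two_iff _ _).1 h3
    have h5 := hent (Sum.inl i) (Sum.inr (-α))
    have h6 : C.E α (Sum.inl i) (Sum.inr (-α)) = - α.1 i := by
      simp [E]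
    rw [h6, h4, Root.neg_val, simple_val, Pi.neg_apply, Pi.single_eq_same] at h5
    simp at h5
  · rw [h3] at h1
    simp at h1
  · exact hi h3
  · rw [h3] at h1
    simp at h1
  · have h4 := (C.ip_eq_two_iff _ _).1 h3
    have h5 := hent (Sum.inl i) (Sum.inr (-α))
    have h6 : C.E α (Sum.inl i) (Sum.inr (-α)) = - α.1 i := by
      simp [E]
    rw [h6, ← h4, simple_val, Pi.single_eq_same] at h5
    simp at h5

private theorem W1_xi_vm {k : Type*} [Field k] (j : Fin n) (v : Fin n → k) :
    C.xi j (vm C v) = v j := by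
  unfold xi vm
  rw [Matrix.sum_apply, Finset.sum_eq_single j]
  · rw [Matrix.smul_apply, Matrix.map_apply]
    simp [E]
  · intro i _ hij
    rw [Matrix.smul_apply, Matrix.map_apply]
    have h1 : C.E (C.simple i) (Sum.inl j) (Sum.inr (-(C.simple j))) = 0 := by
      simp only [E, Root.neg_val, neg_inj]
      rw [if_neg]
      intro h
      exact hij (C.simple_injective (Root.ext h.symm))
    rw [h1, Int.cast_zero, smul_zero]
  · intro h
    exact absurd (Finset.mem_univ j) h

private theorem W1_ld_vm {k : Type*} [Field k] (v : Fin n → k) :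
    C.ld (vm C v) = vm C v := by
  unfold ld
  simp only [W1_xi_vm]
  rfl

/-- homogeneous matrices -/
private def W1_Hom {R : Type*} [CommRing R] (m : ℤ) (M : Matrix C.Idx C.Idx R) : Prop :=
  ∀ a b, C.hti a ≠ C.hti b + m → M a b = 0

private theorem W1_Hom_mul {R : Type*} [CommRing R] {m k : ℤ} {M N : Matrix C.Idx C.Idx R}
    (hM : W1_Hom C m M) (hN : W1_Hom C k N) : W1_Hom C (m + k) (M * N) := by
  intro a b hab
  rw [Matrix.mul_apply]
  refine Finset.sum_eq_zero fun c _ => ?_
  by_cases h : C.hti a = C.hti c + m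
  · rw [hN c b (by omega), mul_zero]
  · rw [hM a c h, zero_mul]

private theorem W1_Hom_sub {R : Type*} [CommRing R] {m : ℤ} {M N : Matrix C.Idx C.Idx R}
    (hM : W1_Hom C m M) (hN : W1_Hom C m N) : W1_Hom C m (M - N) := by
  intro a b hab
  rw [Matrix.sub_apply, hM a b hab, hN a b hab, sub_zero]

private theorem W1_Hom_E (R : Type*) [CommRing R] (α : C.Root) :
    W1_Hom C (ht α.1) ((C.E α).map (Int.cast : ℤ → R)) := by
  intro a b hab
  rw [Matrix.map_apply]
  have h : C.E α a b = 0 := by
    rcases a with i | γ <;> rcases b with j | β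
    · rfl
    · simp only [E]
      rw [if_neg]
      intro h
      simp only [hti, Sum.elim_inl, Sum.elim_inr] at hab
      rw [h, ht_neg] at hab
      omega
    · simp only [E]
      rw [if_neg]
      intro h
      simp only [hti, Sum.elim_inl, Sum.elim_inr] at hab
      rw [h] at hab
      omega
    · simp only [E]
      rw [if_neg]
      intro h
      simp only [hti, Sum.elim_inr] at hab
      rw [h, ht_add] at hab
      omega
  rw [h, Int.cast_zero]

private theorem W1_Hom_ld {K : Type*} [Field K] (M : Matrix C.Idx C.Idx K) :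
    W1_Hom C 1 (C.ld M) := by
  intro a b hab
  unfold ld
  rw [Matrix.sum_apply]
  refine Finset.sum_eq_zero fun j _ => ?_
  have h1 := W1_Hom_E C K (C.simple j)
  rw [C.ht_simple] at h1
  rw [Matrix.smul_apply, h1 a b hab, smul_zero]

private theorem W1_Hom_iad {K : Type*} [Field K] (l : List (Matrix C.Idx C.Idx K))
    (hl : ∀ B ∈ l, W1_Hom C 1 B) (m : ℤ) (A : Matrix C.Idx C.Idx K) (hA : W1_Hom C m A) :
    W1_Hom C (m + l.length) (iad A l) := by
  induction l generalizing m A with
  | nil => simpa [iad] using hA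
  | cons B l ih =>
    have hB := hl B List.mem_cons_self
    have h1 : W1_Hom C (m + 1) (B * A - A * B) := by
      refine W1_Hom_sub C ?_ (W1_Hom_mul C hA hB)
      have h2 := W1_Hom_mul C hB hA
      rwa [add_comm 1 m] at h2
    have h2 := ih (fun B' hB' => hl B' (List.mem_cons_of_mem _ hB')) (m + 1) _ h1
    have e : iad A (B :: l) = iad (B * A - A * B) l := rfl
    have e2 : m + (((B :: l).length : ℕ) : ℤ) = m + 1 + (l.length : ℤ) := by
      rw [List.length_cons]
      push_cast
      ring
    rw [e, e2]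
    exact h2

private theorem W1_eq_zero {R : Type*} [CommRing R] {m : ℤ} {M : Matrix C.Idx C.Idx R}
    (hM : W1_Hom C m M) (hF : C.Fil (m + 1) M) : M = 0 := by
  ext a b
  rw [Matrix.zero_apply]
  by_cases h : C.hti a = C.hti b + m
  · exact hF a b (by omega)
  · exact hM a b h

theorem exists_word {k : Type*} [Field k] (θ : C.Root) (hθ : C.IsHighest θ) (hn : 0 < n)
    (G : Set (Fin n → k)) (hG : Submodule.span k G = ⊤) :
    ∃ v₀ ∈ G, ∃ l : List (Fin n → k), (∀ v ∈ l, v ∈ G) ∧ (l.length : ℤ) + 1 = ht θ.1 ∧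
      iad (vm C v₀) (l.map (vm C)) ≠ 0 := by
  obtain ⟨l, hc⟩ := hθ.chain (C.simple ⟨0, hn⟩) (C.simple_pos ⟨0, hn⟩)
  have hlen := hc.ht_eq
  rw [C.ht_simple] at hlen
  obtain ⟨e, he, heq⟩ := W1_chain (k := k) C hc
  have h1 : iad ((C.E (C.simple ⟨0, hn⟩)).map (Int.cast : ℤ → k))
      ((l.map fun i => Pi.single i (1 : k)).map (vm C)) ≠ 0 := by
    rw [heq]
    exact smul_ne_zero he (W1_E_ne_zero C θ)
  obtain ⟨l', hl', hlen', hne⟩ := W1_replace C G hG _ _ h1
  rw [← W1_vm_single] at hne
  obtain ⟨v₀, hv₀, hne'⟩ := W1_exists (fun w => iad (vm C w) (l'.map (vm C)))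
    (by intro x y; rw [← W1_iad_add, W1_vm_add])
    (by intro c x; rw [← W1_iad_smul, W1_vm_smul]) G hG _ hne
  refine ⟨v₀, hv₀, l', hl', ?_, hne'⟩
  rw [hlen', List.length_map, hlen]
  ring

theorem word_occ {k : Type*} [Field k] (θ : C.Root) (hθ : C.IsHighest θ)
    (v₀ : Fin n → k) (l : List (Fin n → k)) (hlen : (l.length : ℤ) + 1 = ht θ.1)
    (h : iad (vm C v₀) (l.map (vm C)) ≠ 0) (j : Fin n) : ∃ v ∈ v₀ :: l, v j ≠ 0 := by
  by_contra hcon
  push Not at hcon
  apply h
  have h1 := C.iad_eq_zero θ hθ j (vm C v₀) (l.map (vm C))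
    (by rw [W1_xi_vm]; exact hcon v₀ List.mem_cons_self)
    (by
      intro B hB
      obtain ⟨v, hv, rfl⟩ := List.mem_map.1 hB
      rw [W1_xi_vm]
      exact hcon v (List.mem_cons_of_mem _ hv))
    (by rw [List.length_map]; exact hlen)
  rw [W1_ld_vm, List.map_map] at h1
  have h2 : (C.ld ∘ vm C : (Fin n → k) → Matrix C.Idx C.Idx k) = vm C := by
    funext v
    exact W1_ld_vm C v
  rwa [h2] at h1

theorem icomm_ne_one {k : Type*} [Field k] (θ : C.Root) (hθ : C.IsHighest θ)
    (g : GL C.Idx k) (l : List (GL C.Idx k)) (hg : g ∈ (C.adS k).U 1)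
    (hl : ∀ h ∈ l, h ∈ (C.adS k).U 1) (hlen : (l.length : ℤ) + 1 = ht θ.1)
    (h : iad (C.ld (g : Matrix C.Idx C.Idx k))
      (l.map fun h => C.ld (h : Matrix C.Idx C.Idx k)) ≠ 0) : icomm g l ≠ 1 := by
  intro h1
  apply h
  have hg2 : C.Fil (1 + 1) ((g : Matrix C.Idx C.Idx k) - 1 - C.ld (g : Matrix C.Idx C.Idx k)) :=
    C.lead_U g hg
  have h2 := (C.icomm_lead g l 1 le_rfl _ (C.Fil_ld _) hg2 hl).2
  rw [h1, Units.val_one, sub_self, zero_sub] at h2
  have h3 := C.Fil_neg h2
  rw [neg_neg] at h3
  have h4 := W1_Hom_iad C (l.map fun h => C.ld (h : Matrix C.Idx C.Idx k))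
    (by
      intro B hB
      obtain ⟨x, _, rfl⟩ := List.mem_map.1 hB
      exact W1_Hom_ld C _) 1 (C.ld (g : Matrix C.Idx C.Idx k)) (W1_Hom_ld C _)
  rw [List.length_map] at h4
  have h5 : ∀ l : List (GL C.Idx k),
      (l >>= fun a => pure (a : Matrix C.Idx C.Idx k)).length = l.length := by
    intro l
    simp
  rw [h5] at h4
  exact W1_eq_zero C h4 h3

end Pool.Agent.H86.UM
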