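import Mathlib

/-!
# Project UM, module W3: twisted vectors span

`θ` an automorphism of the field `k` of order `m` (`θ^m = 1`, `θ^i ≠ 1` for `0 < i < m`), `ρ` a
permutation of `Fin n` with `ρ^m = 1` such that every orbit has one or `m` elements. Then the vectors `v`
with `v (ρ i) = θ (v i)` which are supported on one orbit of `ρ` span `k^n`.
Proof: by induction it is enough that each `Pi.single j 1` is in the span. If `ρ j = j` it is in `G`.
Otherwise the elements `v_t`, `v_t (ρ^a j) = θ^a t`, `v_t i = 0` for `i` not in the orbit, are in `G`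
(`t ∈ k`); if `Pi.single j 1` is not in the span of the `v_t`, there is a linear functional vanishing on the
`v_t` and not on `Pi.single j 1` (e.g. `Submodule.exists_le_ker_of_notMem` or similar), i.e. `c_a ∈ k`
with `∑_{a < m} c_a θ^a t = 0` for all `t`, `c_0 ≠ 0`. This contradicts the linear independence of the
distinct homomorphisms `θ^a` (`linearIndependent_monoidHom`).
-/

set_option autoImplicit false

namespace Pool.Agent.H86.UM

private theorem W3_pow_ne {k : Type*} [Field k] (θ : k ≃+* k) (m : ℕ)
    (hθ : ∀ i, 0 < i → i < m → θ ^ i ≠ 1) (a b : ℕ) (hab : a < b) (hb : b < m) :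
    θ ^ a ≠ θ ^ b := by
  intro h
  refine hθ (b - a) (by omega) (by omega) ?_
  have h1 : θ ^ b = θ ^ a * θ ^ (b - a) := by
    rw [← pow_add]
    congr 1
    omega
  rw [h1] at h
  exact (left_eq_mul.mp h)

theorem span_twisted {n : ℕ} {k : Type*} [Field k] (θ : k ≃+* k) (ρ : Equiv.Perm (Fin n)) (m : ℕ)
    (hm : 0 < m) (hθ1 : θ ^ m = 1) (hθ : ∀ i, 0 < i → i < m → θ ^ i ≠ 1) (hρ1 : ρ ^ m = 1)
    (hρ : ∀ j, ρ j ≠ j → ∀ i, 0 < i → i < m → (ρ ^ i) j ≠ j) :
    Submodule.span k {v : Fin n → k | (∃ j, ∀ i, v i ≠ 0 → ∃ a : ℕ, i = (ρ ^ a) j) ∧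
      ∀ i, v (ρ i) = θ (v i)} = ⊤ := by
  classical
  set G := Submodule.span k {v : Fin n → k | (∃ j, ∀ i, v i ≠ 0 → ∃ a : ℕ, i = (ρ ^ a) j) ∧
      ∀ i, v (ρ i) = θ (v i)} with hG
  have key : ∀ j : Fin n, Pi.single j (1 : k) ∈ G := by
    intro j
    by_cases hj : ρ j = j
    · refine Submodule.subset_span ⟨⟨j, fun i hi => ⟨0, ?_⟩⟩, fun i => ?_⟩
      · by_contra h
        exact hi (Pi.single_eq_of_ne h _)
      · by_cases h : i = j
        · subst h
          rw [hj, Pi.single_eq_same, map_one]
        · have h1 : ρ i ≠ j := fun h2 => h (ρ.injective (h2.trans hj.symm))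
          rw [Pi.single_eq_of_ne h1, Pi.single_eq_of_ne h, map_zero]
    · by_contra hcon
      obtain ⟨f, hf1, hf2⟩ := Submodule.exists_le_ker_of_notMem hcon
      have hv : ∀ t : k, (∑ a ∈ Finset.range m, Pi.single ((ρ ^ a) j) ((θ ^ a) t) : Fin n → k) ∈ G := by
        intro t
        refine Submodule.subset_span ⟨⟨j, fun i hi => ?_⟩, fun i => ?_⟩
        · by_contra h
          push Not at h
          apply hi
          rw [Finset.sum_apply]
          exact Finset.sum_eq_zero fun a _ => Pi.single_eq_of_ne (h a) _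
        · rw [Finset.sum_apply, Finset.sum_apply, map_sum]
          have e : ∀ a ∈ Finset.range m, θ ((Pi.single ((ρ ^ a) j) ((θ ^ a) t) : Fin n → k) i) =
              (Pi.single ((ρ ^ (a + 1)) j) ((θ ^ (a + 1)) t) : Fin n → k) (ρ i) := by
            intro a _
            by_cases h : i = (ρ ^ a) j
            · have h1 : ρ i = (ρ ^ (a + 1)) j := by
                rw [h, pow_succ', Equiv.Perm.mul_apply]
              rw [h1, Pi.single_eq_same, h, Pi.single_eq_same, pow_succ']
              rfl
            · have h1 : ρ i ≠ (ρ ^ (a + 1)) j := by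
                rw [pow_succ', Equiv.Perm.mul_apply]
                exact fun h2 => h (ρ.injective h2)
              rw [Pi.single_eq_of_ne h1, Pi.single_eq_of_ne h, map_zero]
          rw [Finset.sum_congr rfl e]
          have h1 := Finset.sum_range_succ
            (fun a => (Pi.single ((ρ ^ a) j) ((θ ^ a) t) : Fin n → k) (ρ i)) m
          have h2 := Finset.sum_range_succ'
            (fun a => (Pi.single ((ρ ^ a) j) ((θ ^ a) t) : Fin n → k) (ρ i)) m
          have h3 : (fun a => (Pi.single ((ρ ^ a) j) ((θ ^ a) t) : Fin n → k) (ρ i)) m =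
              (fun a => (Pi.single ((ρ ^ a) j) ((θ ^ a) t) : Fin n → k) (ρ i)) 0 := by
            simp only [hθ1, hρ1, pow_zero]
          rw [h2] at h1
          simp only at h3
          rw [h3] at h1
          exact (add_right_cancel h1).symm
      have hsum : ∀ t : k, ∑ a : Fin m, f (Pi.single ((ρ ^ (a : ℕ)) j) 1) * (θ ^ (a : ℕ)) t = 0 := by
        intro t
        have h1 := hf2 (hv t)
        rw [LinearMap.mem_ker, map_sum] at h1
        rw [← h1, ← Fin.sum_univ_eq_sum_range
          (fun a => f (Pi.single ((ρ ^ a) j) ((θ ^ a) t) : Fin n → k)) m]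
        refine Finset.sum_congr rfl fun a _ => ?_
        have h2 : (Pi.single ((ρ ^ (a : ℕ)) j) ((θ ^ (a : ℕ)) t) : Fin n → k) =
            (θ ^ (a : ℕ)) t • (Pi.single ((ρ ^ (a : ℕ)) j) 1 : Fin n → k) := by
          rw [← Pi.single_smul]
          simp
        rw [h2, map_smul, smul_eq_mul, mul_comm]
      have hli := linearIndependent_monoidHom k k
      have hinj : Function.Injective (fun a : Fin m => ((θ ^ (a : ℕ) : k ≃+* k) : k →* k)) := by
        intro a b hab
        by_contra hne
        have hEq : θ ^ (a : ℕ) = θ ^ (b : ℕ) := by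
          ext t
          exact DFunLike.congr_fun hab t
        rcases lt_trichotomy (a : ℕ) (b : ℕ) with h | h | h
        · exact W3_pow_ne θ m hθ a b h b.2 hEq
        · exact hne (Fin.ext h)
        · exact W3_pow_ne θ m hθ b a h a.2 hEq.symm
      have hli2 := hli.comp _ hinj
      rw [Fintype.linearIndependent_iff] at hli2
      have h0 := hli2 (fun a => f (Pi.single ((ρ ^ (a : ℕ)) j) 1)) (by
        funext t
        rw [Finset.sum_apply]
        exact hsum t) ⟨0, hm⟩
      exact hf1 (by simpa using h0)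
  rw [eq_top_iff]
  intro v _
  have hv : v = ∑ j, v j • (Pi.single j 1 : Fin n → k) := by
    funext i
    rw [Finset.sum_apply]
    simp [Pi.single_apply]
  rw [hv]
  exact Submodule.sum_mem _ fun j _ => Submodule.smul_mem _ _ (key j)

end Pool.Agent.H86.UM
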