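import Pool.Agent.H86.UM.SRc
import Pool.Agent.H86.UM.AS1
import Pool.Agent.H86.UM.W1
import Pool.Agent.H86.UM.W3

/-!
# Project UM, module WD: a word in the Steinberg case

`θ` has order exactly `m` on `k`. Let `G` be the set of the vectors `v` supported on one orbit of `ρ` with
`v (ρ i) = θ (v i)`; by `span_twisted` (`m = D.m = orderOf ρ`; orbits have one or `m` elements by
`r_iter_eq`, `r_iter_simple`) `G` spans `k^n`. `exists_word` gives `v₀` and `l`. For `v ∈ G`, `v ≠ 0`, supported on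
the orbit `J`, `v (J.out)` determines `v`, and by `fixX_xi_exists`, `fixX_xi` there is `x ∈ fixX (simple J.out)`
with `xi j (p x) = v j` for all `j` (if `v = 0` take `x = 1`, any `J`). This gives `x₀`, and the list of pairs
`(J, x)`. `hocc`: by `word_occ` for `j = J.out` some entry `v` has `v j ≠ 0`, so its orbit is `J` (choose the
orbit of an entry `v` by its support; entries are not zero, since otherwise `iad = 0`).
`p w.elt ≠ 1`: `p (icomm ..) = icomm (p ..) ..` (`P1_icomm_map`; the inclusion of `Eg S s` is also a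
homomorphism), `icomm_ne_one`, where `ld (p x) = vm C v` as the `xi j` agree.
`w.elt` is not central: it is in `S.U (ht θr)` (commutators of elements of `S.U a` and `S.U b` are in
`S.U (a + b)`), so equal to `x_θr(t)` (`exists_lp`, `IsHighest`; or work in the adjoint group with `icomm_mem_U`,
`mem_U_of_Fil`), and `t ≠ 0`; `exists_tor` with an invariant `v` with `ip v β = N * ht β` (`N ≠ 0`; see UNI.lean and
SR.lean) and `c ∈ fixF θ` with `c ^ (N * ht θr) ≠ 1` (`SR_k0_inf`) gives `τ ∈ Eg` with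
`τ x_θr(t) τ⁻¹ = x_θr(c ^ .. * t) ≠ x_θr(t)` (apply `p`, `xg_inj`).
-/

set_option autoImplicit false
open Matrix

namespace Pool.Agent.H86.UM

open Pool.Agent.H75.UL

variable {n : ℕ} {C : SLC n} {D : Dg C} {k : Type*} [Field k] {θ : k ≃+* k} {H : Type*} [Group H]
  {S : StSys C k H} {s : H →* H} {p : H →* GL C.Idx k}

private theorem WD_iter (θ : k ≃+* k) (l : ℕ) (t : k) : (θ ^ l) t = (⇑θ)^[l] t := by
  induction l with
  | zero => rfl
  | succ l ih =>
    rw [pow_succ', Function.iterate_succ_apply', ← ih]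
    rfl

private theorem WD_span (he : Env D θ S s p)
    (hord : ∀ l, 0 < l → l < D.m → ∃ t, (⇑θ)^[l] t ≠ t) :
    Submodule.span k {v : Fin n → k | (∃ j, ∀ i, v i ≠ 0 → ∃ a : ℕ, i = (D.ρ ^ a) j) ∧
      ∀ i, v (D.ρ i) = θ (v i)} = ⊤ := by
  refine span_twisted θ D.ρ D.m ?_ ?_ ?_ ?_ ?_
  · rcases D.m_cases with h | h | h <;> omega
  · ext t
    rw [WD_iter, he.hθ]
    rfl
  · intro l h0 hl h
    obtain ⟨t, ht⟩ := hord l h0 hl
    apply ht
    rw [← WD_iter, h]
    rfl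
  · exact pow_orderOf_eq_one _
  · intro j hj l h0 hl h
    have h1 : D.r (C.simple j) ≠ C.simple j := by
      rw [D.r_simple]
      exact fun h => hj (C.simple_injective h)
    have h2 := D.r_iter_eq (C.simple j) h1 l 0 hl (by omega) (by
      rw [D.r_iter_simple, h]
      rfl)
    omega

/-- a vector of `G` is the vector of coordinates of an element of a simple root group -/
private theorem WD_exists (he : Env D θ S s p) (v : Fin n → k)
    (hv1 : ∃ j, ∀ i, v i ≠ 0 → ∃ a : ℕ, i = (D.ρ ^ a) j)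
    (hv2 : ∀ i, v (D.ρ i) = θ (v i)) :
    ∃ (J : D.Orb) (x : Eg S s), x ∈ (srcOf he).X J ∧
      C.ld (p (x : H) : Matrix C.Idx C.Idx k) = vm C v ∧
      ∀ j, v j ≠ 0 → (Quotient.mk (Equiv.Perm.SameCycle.setoid D.ρ) j) = J := by
  obtain ⟨j, hj⟩ := hv1
  obtain ⟨J, hJ⟩ : ∃ J : D.Orb, J = Quotient.mk (Equiv.Perm.SameCycle.setoid D.ρ) j := ⟨_, rfl⟩
  obtain ⟨i, hi⟩ : ∃ i, i = Quotient.out J := ⟨_, rfl⟩
  have hij : D.ρ.SameCycle i j := by
    have h1 := Quotient.out_eq J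
    rw [← hi, hJ] at h1
    exact Quotient.exact h1
  have hit : ∀ l : ℕ, v ((D.ρ ^ l) i) = (⇑θ)^[l] (v i) := by
    intro l
    induction l with
    | zero => rfl
    | succ l ih => rw [pow_succ', Equiv.Perm.mul_apply, hv2, ih, Function.iterate_succ_apply']
  obtain ⟨x, hx, hxt⟩ := fixX_xi_exists he i (v i) (by
    intro h
    rw [← hv2, h])
  obtain ⟨hx1, hx2⟩ := fixX_xi he i x hx
  have hxE : x ∈ Eg S s :=
    Subgroup.mem_sup_left (fixX_le_fixU S s (C.simple i) (C.simple_pos i) hx)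
  have hxi : ∀ j', C.xi j' (p x : Matrix C.Idx C.Idx k) = v j' := by
    intro j'
    by_cases h : D.ρ.SameCycle i j'
    · obtain ⟨l, hl⟩ := h.exists_nat_pow_eq
      rw [← hl, hx1, hxt, hit]
    · rw [hx2 j' h]
      by_contra h0
      obtain ⟨a, ha⟩ := hj j' (Ne.symm h0)
      apply h
      rw [ha]
      exact hij.trans ⟨(a : ℤ), by rw [zpow_natCast]⟩
  refine ⟨J, ⟨x, hxE⟩, ?_, ?_, ?_⟩
  · show x ∈ fixX D S s (C.simple (Quotient.out J))
    rw [← hi]
    exact hx
  · show C.ld (p x : Matrix C.Idx C.Idx k) = vm C v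
    unfold SLC.ld vm
    exact Finset.sum_congr rfl fun j' _ => by rw [hxi]
  · intro j' h0
    obtain ⟨a, ha⟩ := hj j' h0
    rw [hJ]
    apply Quotient.sound
    show D.ρ.SameCycle j' j
    rw [ha]
    exact Equiv.Perm.SameCycle.symm ⟨(a : ℤ), by rw [zpow_natCast]⟩

private theorem WD_list (he : Env D θ S s p) (l : List (Fin n → k))
    (hl : ∀ v ∈ l, (∃ j, ∀ i, v i ≠ 0 → ∃ a : ℕ, i = (D.ρ ^ a) j) ∧
      ∀ i, v (D.ρ i) = θ (v i)) :
    ∃ L : List (D.Orb × Eg S s), (∀ q ∈ L, q.2 ∈ (srcOf he).X q.1) ∧ L.length = l.length ∧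
      (L.map fun q => C.ld (p (q.2 : H) : Matrix C.Idx C.Idx k)) = l.map (vm C) ∧
      ∀ v ∈ l, ∃ q ∈ L, ∀ j, v j ≠ 0 →
        (Quotient.mk (Equiv.Perm.SameCycle.setoid D.ρ) j) = q.1 := by
  induction l with
  | nil => exact ⟨[], by simp, rfl, rfl, by simp⟩
  | cons v l ih =>
    obtain ⟨L, h1, h2, h3, h4⟩ := ih fun v hv => hl v (List.mem_cons_of_mem _ hv)
    obtain ⟨hv1, hv2⟩ := hl v List.mem_cons_self
    obtain ⟨J, x, hx, hx1, hx2⟩ := WD_exists he v hv1 hv2
    refine ⟨(J, x) :: L, ?_, ?_, ?_, ?_⟩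
    · intro q hq
      rcases List.mem_cons.1 hq with rfl | hq
      · exact hx
      · exact h1 q hq
    · rw [List.length_cons, List.length_cons, h2]
    · rw [List.map_cons, List.map_cons, h3, hx1]
    · intro w hw
      rcases List.mem_cons.1 hw with rfl | hw
      · exact ⟨(J, x), List.mem_cons_self, hx2⟩
      · obtain ⟨q, hq, hq'⟩ := h4 w hw
        exact ⟨q, List.mem_cons_of_mem _ hq, hq'⟩

/-- an invariant vector dual to the height -/
private theorem WD_dual (D : Dg C) : ∃ v : Fin n → ℤ, SLC.lmap D.ρ v = v ∧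
    ∀ w, C.ip v w = C.A.det * ht w := by
  choose y hy using C.exists_dual
  obtain ⟨v, hv⟩ : ∃ v : Fin n → ℤ, v = ∑ j, y j := ⟨_, rfl⟩
  have h1 : ∀ w, C.ip w v = C.A.det * ht w := by
    intro w
    have h2 : ∀ (T : Finset (Fin n)), C.ip w (∑ j ∈ T, y j) = ∑ j ∈ T, C.A.det * w j := by
      intro T
      induction T using Finset.induction_on with
      | empty => rw [Finset.sum_empty, Finset.sum_empty, C.ip_zero_right]
      | insert a T ha ih => rw [Finset.sum_insert ha, Finset.sum_insert ha, C.ip_add_right, ih, hy]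
    rw [hv, h2, ← Finset.mul_sum]
    rfl
  refine ⟨v, ?_, fun w => by rw [C.ip_comm, h1]⟩
  have h3 : ∀ w, C.ip w (SLC.lmap D.ρ v) = C.A.det * ht w := by
    intro w
    have h4 : SLC.lmap D.ρ (SLC.lmap D.ρ.symm w) = w := by
      funext i
      show w (D.ρ.symm.symm (D.ρ.symm i)) = w i
      rw [Equiv.symm_symm, Equiv.apply_symm_apply]
    have h5 : ht (SLC.lmap D.ρ.symm w) = ht w := by
      unfold ht
      exact Equiv.sum_comp D.ρ.symm.symm w
    have h6 := C.ip_lmap D.ρ D.hρ (SLC.lmap D.ρ.symm w) v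
    rw [h4, h1, h5] at h6
    exact h6
  by_contra hne
  have h7 : SLC.lmap D.ρ v - v ≠ 0 := sub_ne_zero.2 hne
  have h8 := C.ip_pos _ h7
  rw [C.ip_sub_right, h3, h1] at h8
  omega

private theorem WD_top (C : SLC n) (k : Type*) [Field k] (θr : C.Root) (hθr : C.IsHighest θr)
    (u : GL C.Idx k) (hu : u ∈ (C.adS k).U (ht θr.1)) : ∃ c, u = C.xg k θr c := by
  unfold StSys.U at hu
  induction hu using Subgroup.closure_induction with
  | mem g hg =>
    obtain ⟨β, t, hβ, rfl⟩ := hg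
    have h1 := hθr.uniq β (le_antisymm (hθr.le β) hβ)
    subst h1
    exact ⟨t, rfl⟩
  | one => exact ⟨0, ((C.adS k).x_zero θr).symm⟩
  | mul x y _ _ hx hy =>
    obtain ⟨c, rfl⟩ := hx
    obtain ⟨d, rfl⟩ := hy
    exact ⟨c + d, ((C.adS k).map_add θr c d).symm⟩
  | inv x _ hx =>
    obtain ⟨c, rfl⟩ := hx
    exact ⟨-c, ((C.adS k).x_neg θr c).symm⟩

private theorem WD_coe (l : List (GL C.Idx k)) :
    (l >>= fun a => pure (a : Matrix C.Idx C.Idx k)) =
      l.map (fun h : GL C.Idx k => (h : Matrix C.Idx C.Idx k)) := by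
  simp [List.map_eq_flatMap]

/-- an element of the highest root group is not central -/
private theorem WD_central (he : Env D θ S s p) (θr : C.Root) (hθr : C.IsHighest θr)
    (hn : 0 < n) (x : Eg S s) (c : k) (hc : c ≠ 0) (hx : p (x : H) = C.xg k θr c) :
    x ∉ Subgroup.center (Eg S s) := by
  classical
  intro hcen
  obtain ⟨v, hv, hv2⟩ := WD_dual D
  have := SR_k0_inf he
  have hht : 1 ≤ ht θr.1 := by
    have h := hθr.le (C.simple ⟨0, hn⟩)
    rwa [C.ht_simple] at h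
  have he0 : C.ip v θr.1 ≠ 0 := by
    rw [hv2]
    exact mul_ne_zero C.det_ne_zero (by omega)
  obtain ⟨c₀, hc0, hc1⟩ : ∃ c₀ : fixF θ, c₀ ≠ 0 ∧ c₀ ^ (C.ip v θr.1).natAbs ≠ 1 := by
    obtain ⟨c₀, h0⟩ := Infinite.exists_notMem_finset
      ((Polynomial.X * (Polynomial.X ^ (C.ip v θr.1).natAbs - 1) :
        Polynomial (fixF θ)).roots.toFinset)
    have hne : (Polynomial.X * (Polynomial.X ^ (C.ip v θr.1).natAbs - 1) :
        Polynomial (fixF θ)) ≠ 0 :=
      mul_ne_zero Polynomial.X_ne_zero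
        (Polynomial.X_pow_sub_C_ne_zero (Int.natAbs_pos.2 he0) 1)
    rw [Multiset.mem_toFinset, Polynomial.mem_roots hne, Polynomial.IsRoot.def,
      Polynomial.eval_mul, mul_eq_zero, not_or] at h0
    refine ⟨c₀, ?_, ?_⟩
    · simpa using h0.1
    · intro h1
      apply h0.2
      rw [Polynomial.eval_sub, Polynomial.eval_pow, Polynomial.eval_X, Polynomial.eval_one, h1,
        sub_self]
  have hc0' : (c₀ : k) ≠ 0 := fun h => hc0 (Subtype.ext h)
  obtain ⟨τ, hτ, hτ2⟩ := exists_tor he.sig he.hθ he.hA v hv (c₀ : k) hc0' c₀.2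
  have h1 : (⟨τ, hτ.2⟩ : Eg S s) * x = x * ⟨τ, hτ.2⟩ := by
    have h2 := Subgroup.mem_center_iff.1 hcen ⟨τ, hτ.2⟩
    exact h2
  have h2 : τ * (x : H) = (x : H) * τ := congrArg Subtype.val h1
  have h3 : p τ * C.xg k θr c * (p τ)⁻¹ = C.xg k θr c := by
    rw [← hx, ← map_mul, h2, map_mul, mul_inv_cancel_right]
  have h4 := congrArg p (hτ2 θr c)
  rw [map_mul, map_mul, map_inv, he.hp, he.hp, h3] at h4
  have h5 := (C.xg_inj θr θr c _ hc h4).2
  have h6 : (c₀ : k) ^ C.ip v θr.1 = 1 := by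
    have h7 : (c₀ : k) ^ C.ip v θr.1 * c = 1 * c := by rw [one_mul]; exact h5.symm
    exact mul_right_cancel₀ hc h7
  apply hc1
  apply Subtype.ext
  show (c₀ : k) ^ (C.ip v θr.1).natAbs = 1
  rcases Int.natAbs_eq (C.ip v θr.1) with h7 | h7
  · rw [h7, zpow_natCast] at h6
    exact h6
  · rw [h7, _root_.zpow_neg, zpow_natCast, inv_eq_one] at h6
    exact h6

theorem exists_wordE (he : Env D θ S s p) (θr : C.Root) (hθr : C.IsHighest θr) (hn : 0 < n)
    (hord : ∀ l, 0 < l → l < D.m → ∃ t, (⇑θ)^[l] t ≠ t) :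
    ∃ w : Word C θr (srcOf he), p (w.elt : Eg S s) ≠ 1 ∧
      (w.elt : Eg S s) ∉ Subgroup.center (Eg S s) := by
  obtain ⟨v₀, hv₀, l, hl, hlen, hne⟩ := exists_word C θr hθr hn _ (WD_span he hord)
  obtain ⟨J₀, x₀, hx₀, hx₀1, hx₀2⟩ := WD_exists he v₀ hv₀.1 hv₀.2
  obtain ⟨L, hL1, hL2, hL3, hL4⟩ := WD_list he l hl
  let w : Word C θr (srcOf he) :=
    { J₀ := J₀
      x₀ := x₀
      l := L
      hx₀ := hx₀
      hl := hL1
      hlen := by rw [hL2]; exact hlen
      hocc := by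
        intro J
        obtain ⟨v, hv, hvj⟩ := word_occ C θr hθr v₀ l hlen hne (Quotient.out J)
        have hJ : Quotient.mk (Equiv.Perm.SameCycle.setoid D.ρ) (Quotient.out J) = J :=
          Quotient.out_eq J
        rcases List.mem_cons.1 hv with rfl | hv
        · left
          rw [← hJ]
          exact hx₀2 _ hvj
        · right
          obtain ⟨q, hq, hq2⟩ := hL4 v hv
          refine ⟨q, hq, ?_⟩
          rw [← hJ]
          exact (hq2 _ hvj).symm }
  let f : Eg S s →* GL C.Idx k := p.comp (Eg S s).subtype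
  have hf : ∀ x : Eg S s, f x = p (x : H) := fun _ => rfl
  have hfU : ∀ J, ∀ x ∈ (srcOf he).X J, f x ∈ (C.adS k).U 1 := by
    intro J x hx
    have h1 : x ∈ (srcOf he).U := (srcOf he).X_le J hx
    have h2 : (x : H) ∈ fixU S s := h1
    exact C.S9_U S p he.hp 1 x h2.1
  have hP : p (w.elt : Eg S s) = icomm (f x₀) ((L.map Prod.snd).map f) := by
    rw [← SLC.P1_icomm_map]
    rfl
  have hx₀U : f x₀ ∈ (C.adS k).U 1 := hfU J₀ x₀ hx₀
  have hLU : ∀ h ∈ (L.map Prod.snd).map f, h ∈ (C.adS k).U 1 := by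
    intro h hh
    obtain ⟨a, ha, rfl⟩ := List.mem_map.1 hh
    obtain ⟨q, hq, rfl⟩ := List.mem_map.1 ha
    exact hfU q.1 q.2 (hL1 q hq)
  have hlen' : (((L.map Prod.snd).map f).length : ℤ) + 1 = ht θr.1 := by
    rw [List.length_map, List.length_map, hL2]
    exact hlen
  have hmap : ((((L.map Prod.snd).map f) >>= fun a => pure (a : Matrix C.Idx C.Idx k)).map
      fun h => C.ld h) = l.map (vm C) := by
    rw [WD_coe, List.map_map, List.map_map, List.map_map]
    exact hL3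
  have hne1 : p (w.elt : Eg S s) ≠ 1 := by
    rw [hP]
    refine icomm_ne_one C θr hθr _ _ hx₀U hLU hlen' ?_
    rw [hmap, hf, hx₀1]
    exact hne
  refine ⟨w, hne1, ?_⟩
  have hU1 : icomm (f x₀) ((L.map Prod.snd).map f) ∈ (C.adS k).U 1 :=
    C.icomm_mem_U _ _ hx₀U hLU
  obtain ⟨h1, h2⟩ := C.icomm_lead (f x₀) ((L.map Prod.snd).map f) 1 le_rfl
    (C.ld (f x₀ : Matrix C.Idx C.Idx k)) (C.Fil_ld _) (C.lead_U _ hx₀U) hLU
  have e1 : (1 : ℤ) + (((L.map Prod.snd).map f).length : ℤ) = ht θr.1 := by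
    rw [← hlen']
    ring
  rw [e1] at h1 h2
  have hF : C.Fil (ht θr.1)
      (((icomm (f x₀) ((L.map Prod.snd).map f) : GL C.Idx k) : Matrix C.Idx C.Idx k) - 1) := by
    have h3 := C.Fil_add (C.Fil_mono (by omega) h2) h1
    rwa [sub_add_cancel] at h3
  have hUt := C.mem_U_of_Fil (ht θr.1) (by omega) _ hU1 hF
  obtain ⟨c, hc⟩ := WD_top C k θr hθr _ hUt
  refine WD_central he θr hθr hn w.elt c ?_ ?_
  · rintro rfl
    apply hne1
    rw [hP, hc]
    exact (C.adS k).x_zero θr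
  · rw [hP, hc]

end Pool.Agent.H86.UM
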