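import Pool.Agent.H86.UM.EX2
import Pool.Agent.H86.UM.WD
import Pool.Agent.H86.UM.UNI

/-!
# Project UM, module EX3: the exact stage

`Exact D θ' Ψ g π`: after conjugation with `g` the homomorphism `Ψ` maps the simple root group of the orbit
`J` and its opposite into those of the orbit `π J`.

`exact_of_L`: `stage_K` (`S = srcOf he`), `sigma_stage`, `image_stage` for `cj Ψ g`; for the positive part
`fixX (simple i) = fixX (simple ⟦i⟧.out)` (`fixX_simple_congr`), which is `X ⟦i⟧`; for the negative part every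
element of `fixX (- simple i)` is `ν x ν⁻¹` with `x ∈ X ⟦i⟧` by `SR_ν` (`nuJ`).
`exact_steinberg`: `L = AlgebraicClosure K`; a highest root exists (see how `IsHighest` is obtained in
H75/UL, module R3/R5 or C-modules; `n > 0`); `exists_wordE`, `uniE'`, `stage_L` (the word element is not
killed: `hker`), `exact_of_L`.
-/

set_option autoImplicit false
open Matrix

namespace Pool.Agent.H86.UM

open Pool.Agent.H75.UL

variable {n : ℕ} {C : SLC n} {D : Dg C} {k : Type*} [Field k] {θ : k ≃+* k} {H : Type*} [Group H]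
  {S : StSys C k H} {s : H →* H} {p : H →* GL C.Idx k}

/-- `Ψ` maps the simple root group of `J` into the conjugate by `g` of the one of `π J`; the same for the
opposite root groups. -/
def Exact (D : Dg C) (S : StSys C k H) (s : H →* H) {K : Type*} [Field K] (θ' : K ≃+* K)
    (Ψ : Eg S s →* GL C.Idx K) (g : GL C.Idx K) (π : Equiv.Perm D.Orb) : Prop :=
  ∀ i i' : Fin n, (Quotient.mk _ i' : D.Orb) = π (Quotient.mk _ i) →
    (∀ x : Eg S s, (x : H) ∈ fixX D S s (C.simple i) →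
      g⁻¹ * Ψ x * g ∈ fixX D (C.adS K) (D.sgl θ') (C.simple i')) ∧
    ∀ x : Eg S s, (x : H) ∈ fixX D S s (-(C.simple i)) →
      g⁻¹ * Ψ x * g ∈ fixX D (C.adS K) (D.sgl θ') (-(C.simple i'))

theorem exact_of_L (he : Env D θ S s p) {K L : Type*} [Field K] [Field L] [Algebra K L]
    [IsAlgClosure K L] (θ' : K ≃+* K) (hθ : ∀ t, (⇑θ')^[D.m] t = t)
    (hA : D.NA ∨ ∃ e, e ≠ 0 ∧ θ' e = -e) (Ψ : Eg S s →* GL C.Idx K) (hΨ : ∀ x, Ψ x ∈ C.Gad K)
    (hσ : ∀ x, D.sgl θ' (Ψ x) = Ψ x) (g : GL C.Idx L) (hg : g ∈ C.Gad L)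
    (hT : Tgt C (srcOf he) (cj ((C.mp (algebraMap K L)).comp Ψ) g))
    (hfix : ∀ σ : L ≃ₐ[K] L, C.Fil 0 ((g⁻¹ * C.mp (σ : L →+* L) g : GL C.Idx L) :
        Matrix C.Idx C.Idx L)) :
    ∃ g₁ ∈ Eg (C.adS K) (D.sgl θ'), ∃ π : Equiv.Perm D.Orb, Exact D S s θ' Ψ g₁ π := by
  obtain ⟨g₀, hg₀, hT₀, hTT₀, fib, hf₀⟩ := stage_K C (srcOf he) Ψ hΨ g hg hT hfix
  obtain ⟨g₁, hg₁, hT₁, hTT₁, hf₁, hr, hσ₁⟩ :=
    sigma_stage C D (srcOf he) θ' hθ hA Ψ hΨ hσ g₀ hg₀ hT₀ hTT₀ fib hf₀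
  obtain ⟨π, hπ⟩ := image_stage C D (srcOf he) θ' (cj Ψ g₁) hσ₁ hT₁ hTT₁ fib hf₁ hr
  refine ⟨g₁, hg₁, π, ?_⟩
  intro i i' hii
  have hcyc : D.ρ.SameCycle i (Quotient.out (Quotient.mk _ i : D.Orb)) :=
    (Quotient.mk_out (s := Equiv.Perm.SameCycle.setoid D.ρ) i).symm
  have hcg := fixX_simple_congr (D := D) S s i _ hcyc
  refine ⟨?_, ?_⟩
  · intro x hx
    rw [hcg.1] at hx
    have h1 := (hπ i i' hii x hx).1
    rwa [cj_apply] at h1
  · intro x hx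
    rw [hcg.2] at hx
    let o : Fin n := Quotient.out (Quotient.mk _ i : D.Orb)
    have hν := (SR_ν he o (nuJ he o) (nuJ_mem he o) (nuJ_acts he o)).2.1
    let ν : Eg S s := ⟨nuJ he o, (nuJ_mem he o).2⟩
    have hx' : ((ν⁻¹ * x * ν : Eg S s) : H) ∈ fixX D S s (C.simple o) := by
      rw [hν]
      have e : nuJ he o * ((ν⁻¹ * x * ν : Eg S s) : H) * (nuJ he o)⁻¹ = (x : H) := by
        have e2 : ((ν⁻¹ * x * ν : Eg S s) : H) = (nuJ he o)⁻¹ * (x : H) * nuJ he o := rfl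
        rw [e2]
        group
      rw [e]
      exact hx
    have h1 := (hπ i i' hii (ν⁻¹ * x * ν) hx').2
    have e3 : (srcOf he).ν (Quotient.mk _ i) * (ν⁻¹ * x * ν) *
        ((srcOf he).ν (Quotient.mk _ i))⁻¹ = x := by
      change ν * (ν⁻¹ * x * ν) * ν⁻¹ = x
      group
    rwa [e3, cj_apply] at h1

theorem exact_steinberg (he : Env D θ S s p) (hn : 0 < n)
    (hord : ∀ l, 0 < l → l < D.m → ∃ t, (⇑θ)^[l] t ≠ t) {K : Type*} [Field K] (θ' : K ≃+* K)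
    (hθ : ∀ t, (⇑θ')^[D.m] t = t) (hA : D.NA ∨ ∃ e, e ≠ 0 ∧ θ' e = -e)
    (Ψ : Eg S s →* GL C.Idx K) (hΨ : ∀ x, Ψ x ∈ C.Gad K) (hσ : ∀ x, D.sgl θ' (Ψ x) = Ψ x)
    (hker : ∀ x : Eg S s, Ψ x = 1 → x ∈ Subgroup.center (Eg S s)) :
    ∃ g₁ ∈ Eg (C.adS K) (D.sgl θ'), ∃ π : Equiv.Perm D.Orb, Exact D S s θ' Ψ g₁ π := by
  obtain ⟨θr, hθr⟩ := C.exists_highest hn
  obtain ⟨w, _, hw2⟩ := exists_wordE he θr hθr hn hord
  obtain ⟨g, hg, hT, hfix⟩ := stage_L C θr hθr (srcOf he) w (L := AlgebraicClosure K) Ψ hΨ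
    (fun h => hw2 (hker _ h)) (fun u hu => uniE' he Ψ u hu)
  exact exact_of_L he θ' hθ hA Ψ hΨ hσ g hg hT hfix

end Pool.Agent.H86.UM
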