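import Pool.Agent.H86.UM.Env

/-!
# Project UM, module FX: the elements of `fixX`

`β` a positive root (so that `Inj` can be used; `inj_of_map`). The orbit of `β` is `{β}`, or orthogonal with
`m` elements, or `m = 2` and `ip β (r β) = -1` (`ip_r`, `ip_orb`, `r_iter_eq`); `γ = β + r β` is a root only in
the last case, `r γ = γ`, `sg γ = -1` (`sg_adj`).
`fixX_form`: an element of `XO β` is a product `x_β(t₀) x_(rβ)(t₁) ... z` (the root elements of `XO β` commute
modulo `ZZ β`, and `ZZ β` is central in `XO β`: `comm`, `comm_add`); if it is fixed by `s` then comparing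
coordinates (`Inj`; the product over the orbit can be written as `lp posList`, see D3.lean) gives
`t_(l+1) = sg (r^l β) θ t_l`, so the element is `yb β t₀ * z` (`iter`).
`fixX_exists`: orthogonal: `yb β t` is fixed by `s` (`iter_m`, `prod_x_mem` has the same proof);
adjacent: see the header of D3.lean: `s (yb β t * x_γ v) = yb β t * x_γ v` iff
`v + θ v = - eps β (r β) * sg β * t * θ t`, and the right side is fixed by `θ` (`hB`).
`fixX_coord`: if `yb β t * z = yb β t' * z'` with `z, z' ∈ ZZ β` then `t = t'` (`Inj`).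
`fixX_simple`: for `β = simple i`: `xi i (p (yb β t * z)) = t`, and more generally
`xi (ρ^l i) (p x) = θ^l t`, all other `xi j` are `0` (`xi_xg`, `xi_mul`; `ZZ` has height 2).
`supp_XO`: a positive root supported on the orbit of `i` is in `XO`: see `wJ_neg` in D5.lean.
-/

set_option autoImplicit false
open Matrix

namespace Pool.Agent.H86.UM

open Pool.Agent.H75.UL

variable {n : ℕ} {C : SLC n} {D : Dg C} {k : Type*} [Field k] {θ : k ≃+* k} {H : Type*} [Group H]
  {S : StSys C k H} {s : H →* H} {p : H →* GL C.Idx k}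

private theorem FX_mem (S : StSys C k H) (m : ℤ) (β : C.Root) (t : k) (h : m ≤ ht β.1) :
    S.x β t ∈ S.U m := Subgroup.subset_closure ⟨β, t, h, rfl⟩

private theorem FX_mono (S : StSys C k H) {m k : ℤ} (h : m ≤ k) : S.U k ≤ S.U m := by
  unfold StSys.U
  apply Subgroup.closure_mono
  rintro g ⟨β, t, hβ, rfl⟩
  exact ⟨β, t, h.trans hβ, rfl⟩

private theorem FX_conj' (S : StSys C k H) (m : ℤ) (hm : 1 ≤ m) (g u : H) (hg : g ∈ S.U 1)
    (hu : u ∈ S.U m) : g⁻¹ * u * g ∈ S.U m := by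
  have := S.U_conj m hm g⁻¹ u (inv_mem hg) hu
  rwa [inv_inv] at this

private theorem FX_cons (S : StSys C k H) (β : C.Root) (l : List C.Root) (t : C.Root → k) :
    S.lp (β :: l) t = S.x β (t β) * S.lp l t := by
  unfold StSys.lp
  rw [List.map_cons, List.prod_cons]

private theorem FX_single (S : StSys C k H) (β : C.Root) (s : k) (l : List C.Root) (hl : l.Nodup)
    (hβ : β ∈ l) : S.lp l (fun γ => if γ = β then s else 0) = S.x β s := by
  induction l with
  | nil => simp at hβ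
  | cons γ l ih =>
    rw [FX_cons]
    rw [List.nodup_cons] at hl
    by_cases h : γ = β
    · subst h
      rw [S.lp_zero l, if_pos rfl, mul_one]
      intro δ hδ
      rw [if_neg]
      rintro rfl
      exact hl.1 hδ
    · rw [if_neg h, S.x_zero, one_mul]
      refine ih hl.2 ?_
      rw [List.mem_cons] at hβ
      rcases hβ with rfl | hβ
      · exact absurd rfl h
      · exact hβ

private theorem FX_iter_ht (D : Dg C) (l : ℕ) (β : C.Root) : ht (D.r^[l] β).1 = ht β.1 := by
  induction l with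
  | zero => rfl
  | succ l ih => rw [Function.iterate_succ_apply', D.r_ht, ih]

/-- `g` has the coordinates `t` in height `m`. -/
private def FXR (S : StSys C k H) (m : ℤ) (g : H) (t : C.Root → k) : Prop :=
  (∀ β, ht β.1 ≠ m → t β = 0) ∧ ∃ u' ∈ S.U (m + 1), g = S.lp C.posList t * u'

private theorem FX_lp_mem1 (S : StSys C k H) (m : ℤ) (hm : 1 ≤ m) (t : C.Root → k)
    (h : ∀ β, ht β.1 ≠ m → t β = 0) : S.lp C.posList t ∈ S.U 1 :=
  S.lp_mem 1 t fun β hβ => h β (by omega)

private theorem FX_R_one (S : StSys C k H) (m : ℤ) (g : H) (hg : g ∈ S.U (m + 1)) :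
    FXR S m g (fun _ => 0) :=
  ⟨fun _ _ => rfl, g, hg, by rw [S.lp_zero _ _ (fun _ _ => rfl), one_mul]⟩

private theorem FX_R_single (S : StSys C k H) (m : ℤ) (hm : 1 ≤ m) (β : C.Root) (hβ : ht β.1 = m)
    (a : k) : FXR S m (S.x β a) (fun γ => if γ = β then a else 0) := by
  refine ⟨fun γ hγ => if_neg ?_, 1, one_mem _, ?_⟩
  · rintro rfl
    exact hγ hβ
  · rw [FX_single S β a C.posList C.posList_nodup, mul_one]
    rw [C.mem_posList]
    unfold SLC.Pos
    omega

private theorem FX_R_mul (S : StSys C k H) (m : ℤ) (hm : 1 ≤ m) {g g' : H} {t t' : C.Root → k}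
    (h : FXR S m g t) (h' : FXR S m g' t') : FXR S m (g * g') (fun β => t β + t' β) := by
  obtain ⟨h0, u, hu, rfl⟩ := h
  obtain ⟨h0', u', hu', rfl⟩ := h'
  obtain ⟨u'', hu'', h3⟩ := S.lp_add_layer m hm t t' h0 h0'
  refine ⟨fun β hβ => by simp only [h0 β hβ, h0' β hβ, add_zero],
    u''⁻¹ * (((S.lp C.posList t')⁻¹ * u * S.lp C.posList t') * u'), ?_, ?_⟩
  · refine mul_mem (inv_mem hu'') (mul_mem ?_ hu')
    exact FX_conj' S (m + 1) (by omega) _ _ (FX_lp_mem1 S m hm t' h0') hu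
  · rw [h3]
    group

private theorem FX_R_unique (S : StSys C k H) (hI : S.Inj) (m : ℤ) (hm : 1 ≤ m) {g : H}
    {t t' : C.Root → k} (h : FXR S m g t) (h' : FXR S m g t') : t = t' := by
  obtain ⟨h0, u, hu, hg⟩ := h
  obtain ⟨h0', u', hu', hg'⟩ := h'
  obtain ⟨t1, ht1, rfl⟩ := S.exists_lp (m + 1) (by omega) u hu
  obtain ⟨t2, ht2, rfl⟩ := S.exists_lp (m + 1) (by omega) u' hu'
  have key : ∀ (a b : C.Root → k), (∀ β, ht β.1 ≠ m → a β = 0) → (∀ β, ht β.1 < m + 1 → b β = 0) →
      S.lp C.posList a * S.lp C.posList b =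
        S.lp C.posList (fun β => if ht β.1 ≤ m then a β else b β) := by
    intro a b ha hb
    rw [S.lp_split m (fun β => if ht β.1 ≤ m then a β else b β)]
    congr 1
    · apply S.lp_congr
      intro β _
      by_cases hβ : ht β.1 ≤ m
      · simp only [if_pos hβ]
      · simp only [if_neg hβ]
        exact ha β (by omega)
    · apply S.lp_congr
      intro β _
      by_cases hβ : ht β.1 ≤ m
      · simp only [if_pos hβ]
        exact hb β (by omega)
      · simp only [if_neg hβ]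
  rw [hg, key t t1 h0 ht1, key t' t2 h0' ht2] at hg'
  have h4 := hI _ _ hg'
  funext β
  by_cases hβ : ht β.1 = m
  · have h5 := h4 β (by unfold SLC.Pos; omega)
    simpa only [if_pos hβ.le] using h5
  · rw [h0 β hβ, h0' β hβ]

private theorem FX_R_congr_mem (S : StSys C k H) (m : ℤ) {g g' : H} {t : C.Root → k}
    (h : FXR S m g t) (h' : FXR S m g' t) : g⁻¹ * g' ∈ S.U (m + 1) := by
  obtain ⟨-, u, hu, rfl⟩ := h
  obtain ⟨-, u', hu', rfl⟩ := h'
  have e : (S.lp C.posList t * u)⁻¹ * (S.lp C.posList t * u') = u⁻¹ * u' := by group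
  rw [e]
  exact mul_mem (inv_mem hu) hu'

private theorem FX_R_map_lp (S : StSys C k H) (h : IsSig D θ S s) (m : ℤ) (hm : 1 ≤ m)
    (t : C.Root → k) (h0 : ∀ β, ht β.1 ≠ m → t β = 0) (l : List C.Root) (hl : l.Nodup) :
    ∃ T : C.Root → k, FXR S m (s (S.lp l t)) T ∧
      (∀ β ∈ l, T (D.r β) = (D.sg β : k) * θ (t β)) ∧ (∀ β, β ∉ l → T (D.r β) = 0) := by
  induction l with
  | nil =>
    refine ⟨fun _ => 0, ?_, by simp, by simp⟩
    have : S.lp ([] : List C.Root) t = 1 := by simp [StSys.lp]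
    rw [this, _root_.map_one]
    exact FX_R_one S m 1 (one_mem _)
  | cons β l ih =>
    rw [List.nodup_cons] at hl
    obtain ⟨T, hT, hT1, hT2⟩ := ih hl.2
    rw [FX_cons, _root_.map_mul, h β (t β)]
    have hb : FXR S m (S.x (D.r β) ((D.sg β : k) * θ (t β)))
        (fun γ => if γ = D.r β then (D.sg β : k) * θ (t β) else 0) := by
      by_cases hβ : ht β.1 = m
      · exact FX_R_single S m hm (D.r β) (by rw [D.r_ht, hβ]) _
      · rw [h0 β hβ, _root_.map_zero, mul_zero, S.x_zero]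
        have : (fun γ : C.Root => if γ = D.r β then (0 : k) else 0) = fun _ => 0 := by
          funext γ
          simp
        rw [this]
        exact FX_R_one S m 1 (one_mem _)
    refine ⟨_, FX_R_mul S m hm hb hT, fun γ hγ => ?_, fun γ hγ => ?_⟩
    · rw [List.mem_cons] at hγ
      by_cases h1 : γ = β
      · subst h1
        simp only [if_true]
        rw [hT2 γ hl.1, add_zero]
      · have h2 : γ ∈ l := by
          rcases hγ with h3 | h3
          · exact absurd h3 h1
          · exact h3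
        have h3 : ¬ D.r γ = D.r β := fun h4 => h1 (D.r_injective h4)
        simp only [if_neg h3, zero_add]
        exact hT1 γ h2
    · rw [List.mem_cons, not_or] at hγ
      have h3 : ¬ D.r γ = D.r β := fun h4 => hγ.1 (D.r_injective h4)
      simp only [if_neg h3, zero_add]
      exact hT2 γ hγ.2

private theorem FX_R_map (S : StSys C k H) (h : IsSig D θ S s) (m : ℤ) (hm : 1 ≤ m) {g : H}
    {t : C.Root → k} (hg : FXR S m g t) :
    ∃ T : C.Root → k, FXR S m (s g) T ∧ ∀ β, T (D.r β) = (D.sg β : k) * θ (t β) := by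
  obtain ⟨h0, u, hu, rfl⟩ := hg
  obtain ⟨T, hT, hT1, hT2⟩ := FX_R_map_lp S h m hm t h0 C.posList C.posList_nodup
  refine ⟨T, ?_, fun β => ?_⟩
  · obtain ⟨h3, u', hu', h4⟩ := hT
    refine ⟨h3, u' * s u, mul_mem hu' (h.map_U (m + 1) u hu), ?_⟩
    rw [_root_.map_mul, h4, mul_assoc]
  · by_cases hβ : β ∈ C.posList
    · exact hT1 β hβ
    · rw [hT2 β hβ, h0 β, _root_.map_zero, mul_zero]
      rw [C.mem_posList] at hβ
      unfold SLC.Pos at hβ
      omega

/-- A fixed element has coordinates compatible with `σ`. -/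
private theorem FX_R_fixed (S : StSys C k H) (hI : S.Inj) (h : IsSig D θ S s) (m : ℤ) (hm : 1 ≤ m)
    {g : H} {t : C.Root → k} (hg : FXR S m g t) (hs : s g = g) (β : C.Root) :
    t (D.r β) = (D.sg β : k) * θ (t β) := by
  obtain ⟨T, hT, hT1⟩ := FX_R_map S h m hm hg
  rw [hs] at hT
  rw [FX_R_unique S hI m hm hg hT]
  rw [hT1 β, ← FX_R_unique S hI m hm hg hT]

private theorem FX_mo_pos (D : Dg C) (β : C.Root) : 0 < mo D β := by
  unfold mo
  split_ifs
  · exact Nat.one_pos
  · rcases D.m_cases with h | h | h <;> omega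

private theorem FX_mod (D : Dg C) (β : C.Root) (l : ℕ) : D.r^[l % mo D β] β = D.r^[l] β := by
  unfold mo
  split_ifs with h
  · rw [Function.iterate_fixed h, Function.iterate_fixed h]
  · have h1 : Function.IsPeriodicPt D.r D.m β := D.r_m β
    exact h1.iterate_mod_apply l

private theorem FX_inj (D : Dg C) (β : C.Root) (l l' : ℕ) (hl : l < mo D β) (hl' : l' < mo D β)
    (h : D.r^[l] β = D.r^[l'] β) : l = l' := by
  unfold mo at hl hl'
  by_cases h1 : D.r β = β
  · rw [if_pos h1] at hl hl'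
    omega
  · rw [if_neg h1] at hl hl'
    exact D.r_iter_eq β h1 l l' hl hl' h

private theorem FX_cases (D : Dg C) (β : C.Root) :
    (D.r β = β ∧ mo D β = 1) ∨ (D.r β ≠ β ∧ mo D β = D.m ∧ C.ip β.1 (D.r β).1 = 0) ∨
    (D.r β ≠ β ∧ mo D β = 2 ∧ D.m = 2 ∧ C.ip β.1 (D.r β).1 = -1) := by
  unfold mo
  by_cases h : D.r β = β
  · exact Or.inl ⟨h, if_pos h⟩
  · right
    rw [if_neg h]
    rcases D.ip_r β h with h1 | ⟨h1, h2⟩
    · exact Or.inl ⟨h, rfl, h1⟩
    · exact Or.inr ⟨h, h1, h1, h2⟩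

private theorem FX_sum (D : Dg C) (β γ : C.Root) (hγ : γ.1 = β.1 + (D.r β).1) :
    D.r β ≠ β ∧ mo D β = 2 ∧ D.m = 2 ∧ C.ip β.1 (D.r β).1 = -1 := by
  have h1 := C.ip_add_root _ _ _ hγ
  rcases FX_cases D β with ⟨h, -⟩ | ⟨-, -, h⟩ | h
  · exfalso
    rw [h, β.2] at h1
    omega
  · omega
  · exact h

private theorem FX_ip_lt (β : C.Root) (hβ : D.r β ≠ β) (ho : C.ip β.1 (D.r β).1 = 0) (l d : ℕ)
    (hd : 0 < d) (hl : l + d < D.m) : C.ip (D.r^[l] β).1 (D.r^[l + d] β).1 = 0 := by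
  induction l with
  | zero =>
    rw [Nat.zero_add] at hl ⊢
    rw [Function.iterate_zero, id, D.ip_orb β hβ d hd hl, ho]
  | succ l ih =>
    have : l + 1 + d = (l + d) + 1 := by omega
    rw [this, Function.iterate_succ', Function.iterate_succ', Function.comp, Function.comp, D.r_ip]
    exact ih (by omega)

private theorem FX_ip (β : C.Root) (hβ : D.r β ≠ β) (ho : C.ip β.1 (D.r β).1 = 0) (l l' : ℕ)
    (hl : l < D.m) (hl' : l' < D.m) : 0 ≤ C.ip (D.r^[l] β).1 (D.r^[l'] β).1 := by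
  rcases lt_trichotomy l l' with h | h | h
  · obtain ⟨d, rfl⟩ := Nat.exists_eq_add_of_lt h
    exact (FX_ip_lt β hβ ho l (d + 1) (by omega) hl').ge
  · subst h
    rw [(D.r^[l] β).2]
    omega
  · obtain ⟨d, rfl⟩ := Nat.exists_eq_add_of_lt h
    rw [C.ip_comm]
    exact (FX_ip_lt β hβ ho l' (d + 1) (by omega) hl).ge

/-- two roots of the orbit -/
private theorem FX_orb (D : Dg C) (β : C.Root) (l l' : ℕ) :
    0 ≤ C.ip (D.r^[l] β).1 (D.r^[l'] β).1 ∨
      ∃ δ : C.Root, δ.1 = (D.r^[l] β).1 + (D.r^[l'] β).1 ∧ δ.1 = β.1 + (D.r β).1 := by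
  have hpos := FX_mo_pos D β
  have hl := Nat.mod_lt l hpos
  have hl' := Nat.mod_lt l' hpos
  rw [← FX_mod D β l, ← FX_mod D β l']
  rcases FX_cases D β with ⟨h, -⟩ | ⟨h, hm, ho⟩ | ⟨h, hm, hm', ho⟩
  · left
    rw [Function.iterate_fixed h, Function.iterate_fixed h, β.2]
    omega
  · left
    rw [hm] at hl hl'
    rw [hm]
    exact FX_ip β h ho _ _ hl hl'
  · rw [hm] at hl hl' ⊢
    have h1 : l % 2 = 0 ∨ l % 2 = 1 := by omega
    have h2 : l' % 2 = 0 ∨ l' % 2 = 1 := by omega
    rcases h1 with h1 | h1 <;> rcases h2 with h2 | h2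
    · left
      rw [h1, h2, Function.iterate_zero, id, β.2]
      omega
    · right
      rw [h1, h2]
      obtain ⟨δ, hδ⟩ := C.exists_add _ _ ho
      exact ⟨δ, hδ, hδ⟩
    · right
      rw [h1, h2]
      obtain ⟨δ, hδ⟩ := C.exists_add _ _ ho
      exact ⟨δ, by rw [hδ, add_comm]; rfl, hδ⟩
    · left
      rw [h1, h2]
      change 0 ≤ C.ip (D.r β).1 (D.r β).1
      rw [(D.r β).2]
      omega

private theorem FX_ip_sum (D : Dg C) (β γ γ' : C.Root) (hγ : γ.1 = β.1 + (D.r β).1)
    (hγ' : D.inO β γ') : 0 ≤ C.ip γ.1 γ'.1 := by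
  obtain ⟨h, hm, hm', ho⟩ := FX_sum D β γ hγ
  rcases hγ' with ⟨l, rfl⟩ | h1
  · rw [← FX_mod D β l, hm]
    have h1 : l % 2 = 0 ∨ l % 2 = 1 := by omega
    rcases h1 with h1 | h1 <;> rw [h1, hγ]
    · change 0 ≤ C.ip (β.1 + (D.r β).1) β.1
      rw [C.ip_add_left, β.2, C.ip_comm, ho]
      omega
    · change 0 ≤ C.ip (β.1 + (D.r β).1) (D.r β).1
      rw [C.ip_add_left, (D.r β).2, ho]
      omega
  · rw [hγ, ← h1, γ'.2]
    omega

private theorem FX_pair (D : Dg C) (β γ γ' : C.Root) (h : D.inO β γ) (h' : D.inO β γ') :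
    0 ≤ C.ip γ.1 γ'.1 ∨ ∃ δ : C.Root, δ.1 = γ.1 + γ'.1 ∧ δ.1 = β.1 + (D.r β).1 := by
  rcases h with ⟨l, rfl⟩ | h1
  · rcases h' with ⟨l', rfl⟩ | h1'
    · exact FX_orb D β l l'
    · left
      rw [C.ip_comm]
      exact FX_ip_sum D β _ _ h1' (Or.inl ⟨l, rfl⟩)
  · exact Or.inl (FX_ip_sum D β _ _ h1 h')

private theorem FX_central (S : StSys C k H) (β : C.Root) (z h : H) (hz : z ∈ ZZ D S β)
    (hh : h ∈ XO D S β) : z * h = h * z := by
  have h1 : XO D S β ≤ Subgroup.centralizer (ZZ D S β : Set H) := by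
    unfold XO
    rw [Subgroup.closure_le]
    rintro g ⟨γ', t, hγ', rfl⟩
    rw [SetLike.mem_coe, Subgroup.mem_centralizer_iff]
    intro z hz
    have h2 : ZZ D S β ≤ Subgroup.centralizer {S.x γ' t} := by
      unfold ZZ
      rw [Subgroup.closure_le]
      rintro g ⟨γ, v, hγ, rfl⟩
      rw [SetLike.mem_coe, Subgroup.mem_centralizer_iff]
      rintro _ rfl
      exact (S.comm γ γ' v t (FX_ip_sum D β γ γ' hγ hγ')).symm
    have h3 := h2 hz
    rw [Subgroup.mem_centralizer_iff] at h3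
    exact (h3 _ rfl).symm
  have h2 := h1 hh
  rw [Subgroup.mem_centralizer_iff] at h2
  exact h2 z hz

private theorem FX_ZZ_le (S : StSys C k H) (β : C.Root) : ZZ D S β ≤ XO D S β := by
  unfold ZZ XO
  apply Subgroup.closure_mono
  rintro g ⟨γ, v, hγ, rfl⟩
  exact ⟨γ, v, Or.inr hγ, rfl⟩

private theorem FX_ZZ_U (S : StSys C k H) (β : C.Root) (m : ℤ) (hm : ht β.1 = m) :
    ZZ D S β ≤ S.U (2 * m) := by
  unfold ZZ StSys.U
  apply Subgroup.closure_mono
  rintro g ⟨γ, v, hγ, rfl⟩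
  refine ⟨γ, v, ?_, rfl⟩
  rw [hγ, ht_add, D.r_ht]
  omega

private theorem FX_comm (S : StSys C k H) (β γ : C.Root) (hγ : D.inO β γ) (c : k) (h : H)
    (hh : h ∈ XO D S β) : ∃ z ∈ ZZ D S β, S.x γ c * h = h * S.x γ c * z := by
  have hx : S.x γ c ∈ XO D S β := Subgroup.subset_closure ⟨γ, c, hγ, rfl⟩
  unfold XO at hh
  induction hh using Subgroup.closure_induction with
  | mem h hh =>
    obtain ⟨γ', t, hγ', rfl⟩ := hh
    rcases FX_pair D β γ γ' hγ hγ' with h1 | ⟨δ, h1, h2⟩
    · exact ⟨1, one_mem _, by rw [mul_one, S.comm γ γ' c t h1]⟩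
    · have h3 := S.comm_add γ γ' δ c t h1
      have hz : S.x δ (C.eps γ.1 γ'.1 * c * t) ∈ ZZ D S β :=
        Subgroup.subset_closure ⟨δ, _, h2, rfl⟩
      refine ⟨_, hz, ?_⟩
      have hx' : S.x γ' t ∈ XO D S β := Subgroup.subset_closure ⟨γ', t, hγ', rfl⟩
      rw [← FX_central S β _ _ hz (mul_mem hx' hx), ← h3]
      group
  | one => exact ⟨1, one_mem _, by group⟩
  | mul a b ha hb iha ihb =>
    obtain ⟨z1, hz1, h1⟩ := iha
    obtain ⟨z2, hz2, h2⟩ := ihb
    refine ⟨z2 * z1, mul_mem hz2 hz1, ?_⟩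
    have hb' : b ∈ XO D S β := hb
    calc S.x γ c * (a * b) = (S.x γ c * a) * b := by group
      _ = a * S.x γ c * (z1 * b) := by rw [h1]; group
      _ = a * (S.x γ c * b) * z1 := by rw [FX_central S β z1 b hz1 hb']; group
      _ = a * b * S.x γ c * (z2 * z1) := by rw [h2]; group
  | inv a ha iha =>
    obtain ⟨z1, hz1, h1⟩ := iha
    refine ⟨z1⁻¹, inv_mem hz1, ?_⟩
    have ha' : a⁻¹ ∈ XO D S β := inv_mem ha
    have h2 := FX_central S β z1⁻¹ a⁻¹ (inv_mem hz1) ha'
    calc S.x γ c * a⁻¹ = a⁻¹ * (a * S.x γ c * z1) * (z1⁻¹ * a⁻¹) := by group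
      _ = a⁻¹ * (S.x γ c * a) * (a⁻¹ * z1⁻¹) := by rw [← h1, h2]
      _ = a⁻¹ * S.x γ c * z1⁻¹ := by group

/-- The product over the orbit. -/
private def FXP (D : Dg C) (S : StSys C k H) (β : C.Root) (a : ℕ → k) (N : ℕ) : H :=
  ((List.range N).map fun l => S.x (D.r^[l] β) (a l)).prod

private theorem FXP_succ (S : StSys C k H) (β : C.Root) (a : ℕ → k) (N : ℕ) :
    FXP D S β a (N + 1) = FXP D S β a N * S.x (D.r^[N] β) (a N) := by
  unfold FXP
  rw [List.range_succ, List.map_append, List.prod_append, List.map_cons, List.map_nil,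
    List.prod_cons, List.prod_nil, mul_one]

private theorem FX_x_mem (S : StSys C k H) (β : C.Root) (l : ℕ) (c : k) :
    S.x (D.r^[l] β) c ∈ XO D S β := Subgroup.subset_closure ⟨_, c, Or.inl ⟨l, rfl⟩, rfl⟩

private theorem FXP_mem (S : StSys C k H) (β : C.Root) (a : ℕ → k) (N : ℕ) :
    FXP D S β a N ∈ XO D S β := by
  induction N with
  | zero => exact one_mem _
  | succ N ih =>
    rw [FXP_succ]
    exact mul_mem ih (FX_x_mem S β N _)

private theorem FXP_zero (S : StSys C k H) (β : C.Root) (a : ℕ → k) (N : ℕ)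
    (h : ∀ l < N, a l = 0) : FXP D S β a N = 1 := by
  induction N with
  | zero => rfl
  | succ N ih =>
    rw [FXP_succ, ih fun l hl => h l (by omega), h N (by omega), S.x_zero, mul_one]

private theorem FXP_single (S : StSys C k H) (β : C.Root) (c : k) (l N : ℕ) (hl : l < N) :
    FXP D S β (fun j => if j = l then c else 0) N = S.x (D.r^[l] β) c := by
  induction N with
  | zero => omega
  | succ N ih =>
    rw [FXP_succ]
    by_cases h : N = l
    · subst h
      rw [if_pos rfl, FXP_zero, one_mul]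
      intro j hj
      exact if_neg (by omega)
    · rw [if_neg h, S.x_zero, mul_one]
      exact ih (by omega)

private theorem FXP_add (S : StSys C k H) (β : C.Root) (a b : ℕ → k) (N : ℕ) :
    ∃ z ∈ ZZ D S β, FXP D S β a N * FXP D S β b N = FXP D S β (fun l => a l + b l) N * z := by
  induction N with
  | zero => exact ⟨1, one_mem _, by simp [FXP]⟩
  | succ N ih =>
    obtain ⟨z, hz, h1⟩ := ih
    obtain ⟨z', hz', h2⟩ := FX_comm S β (D.r^[N] β) (Or.inl ⟨N, rfl⟩) (a N) _
      (FXP_mem (D := D) S β b N)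
    refine ⟨z * z', mul_mem hz hz', ?_⟩
    have hc := FX_central S β (z * z') _ (mul_mem hz hz') (FX_x_mem (D := D) S β N (b N))
    have hc' := FX_central S β z _ hz (FX_x_mem (D := D) S β N (a N))
    rw [FXP_succ, FXP_succ, FXP_succ, S.map_add]
    calc FXP D S β a N * S.x (D.r^[N] β) (a N) * (FXP D S β b N * S.x (D.r^[N] β) (b N))
        = FXP D S β a N * (S.x (D.r^[N] β) (a N) * FXP D S β b N) * S.x (D.r^[N] β) (b N) := by
          group
      _ = (FXP D S β a N * FXP D S β b N) * S.x (D.r^[N] β) (a N) *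
            (z' * S.x (D.r^[N] β) (b N)) := by rw [h2]; group
      _ = FXP D S β (fun l => a l + b l) N * (z * S.x (D.r^[N] β) (a N)) *
            (z' * S.x (D.r^[N] β) (b N)) := by rw [h1]; group
      _ = FXP D S β (fun l => a l + b l) N * S.x (D.r^[N] β) (a N) *
            (z * z' * S.x (D.r^[N] β) (b N)) := by rw [hc']; group
      _ = _ := by rw [hc]; group

private theorem FXP_form (S : StSys C k H) (β : C.Root) (x : H) (hx : x ∈ XO D S β) :
    ∃ a, ∃ z ∈ ZZ D S β, x = FXP D S β a (mo D β) * z := by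
  unfold XO at hx
  induction hx using Subgroup.closure_induction with
  | mem x hx =>
    obtain ⟨γ, t, hγ, rfl⟩ := hx
    rcases hγ with ⟨l, rfl⟩ | hγ
    · refine ⟨fun j => if j = l % mo D β then t else 0, 1, one_mem _, ?_⟩
      rw [← FX_mod D β l, mul_one]
      exact (FXP_single S β t _ (mo D β) (Nat.mod_lt l (FX_mo_pos D β))).symm
    · refine ⟨fun _ => 0, _, Subgroup.subset_closure ⟨γ, t, hγ, rfl⟩, ?_⟩
      rw [FXP_zero S β _ _ fun _ _ => rfl, one_mul]
  | one =>
    exact ⟨fun _ => 0, 1, one_mem _, by rw [FXP_zero S β _ _ fun _ _ => rfl, one_mul]⟩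
  | mul x y _ _ hx hy =>
    obtain ⟨a, z, hz, rfl⟩ := hx
    obtain ⟨b, z', hz', rfl⟩ := hy
    obtain ⟨z'', hz'', h1⟩ := FXP_add (D := D) S β a b (mo D β)
    refine ⟨fun l => a l + b l, z'' * z * z', mul_mem (mul_mem hz'' hz) hz', ?_⟩
    have hc := FX_central S β z _ hz (FXP_mem (D := D) S β b (mo D β))
    calc FXP D S β a (mo D β) * z * (FXP D S β b (mo D β) * z')
        = FXP D S β a (mo D β) * (z * FXP D S β b (mo D β)) * z' := by group
      _ = (FXP D S β a (mo D β) * FXP D S β b (mo D β)) * z * z' := by rw [hc]; group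
      _ = _ := by rw [h1]; group
  | inv x _ hx =>
    obtain ⟨a, z, hz, rfl⟩ := hx
    obtain ⟨z'', hz'', h1⟩ := FXP_add (D := D) S β a (fun l => - a l) (mo D β)
    refine ⟨fun l => - a l, z''⁻¹ * z⁻¹, mul_mem (inv_mem hz'') (inv_mem hz), ?_⟩
    rw [FXP_zero S β _ _ fun l _ => add_neg_cancel (a l), one_mul] at h1
    have hc := FX_central S β z⁻¹ _ (inv_mem hz) (FXP_mem (D := D) S β (fun l => - a l) (mo D β))
    have h2 : (FXP D S β a (mo D β))⁻¹ = FXP D S β (fun l => - a l) (mo D β) * z''⁻¹ := by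
      rw [inv_eq_iff_mul_eq_one, ← mul_assoc, h1, mul_inv_cancel]
    rw [_root_.mul_inv_rev, h2, ← mul_assoc, hc, mul_assoc]
    congr 1
    exact FX_central S β _ _ (inv_mem hz) (FX_ZZ_le S β (inv_mem hz''))

private theorem FXP_R (S : StSys C k H) (m : ℤ) (hm : 1 ≤ m) (β : C.Root) (hβ : ht β.1 = m)
    (a : ℕ → k) (N : ℕ) :
    FXR S m (FXP D S β a N) (fun γ => ∑ l ∈ Finset.range N, if γ = D.r^[l] β then a l else 0) := by
  induction N with
  | zero => exact FX_R_one S m 1 (one_mem _)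
  | succ N ih =>
    rw [FXP_succ]
    have h1 := FX_R_mul S m hm ih (FX_R_single S m hm (D.r^[N] β)
      (by rw [FX_iter_ht, hβ]) (a N))
    have e : (fun γ : C.Root => ∑ l ∈ Finset.range (N + 1), if γ = D.r^[l] β then a l else 0) =
        fun γ => (∑ l ∈ Finset.range N, if γ = D.r^[l] β then a l else 0) +
          (if γ = D.r^[N] β then a N else 0) := by
      funext γ
      rw [Finset.sum_range_succ]
    rw [e]
    exact h1

private theorem FX_eval (D : Dg C) (β : C.Root) (a : ℕ → k) (l : ℕ) (hl : l < mo D β) :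
    (∑ j ∈ Finset.range (mo D β), if D.r^[l] β = D.r^[j] β then a j else 0) = a l := by
  rw [Finset.sum_eq_single l]
  · exact if_pos rfl
  · intro j hj hne
    rw [Finset.mem_range] at hj
    exact if_neg fun h => hne (FX_inj D β j l hj hl h.symm)
  · intro h
    exact absurd (Finset.mem_range.2 hl) h

private theorem FX_R_Z (S : StSys C k H) (m : ℤ) (hm : 1 ≤ m) (β : C.Root) (hβ : ht β.1 = m)
    {g z : H} {T : C.Root → k} (hg : FXR S m g T) (hz : z ∈ ZZ D S β) : FXR S m (g * z) T := by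
  have h1 := FX_R_mul S m hm hg (FX_R_one S m z
    (FX_mono S (by omega) (FX_ZZ_U S β m hβ hz)))
  simpa only [add_zero] using h1

private theorem FX_yb (he : IsSig D θ S s) (β : C.Root) (t : k) :
    yb D S s β t = FXP D S β (fun l => (D.sgp l β : k) * (⇑θ)^[l] t) (mo D β) := by
  unfold yb FXP
  congr 1
  apply List.map_congr_left
  intro l _
  exact he.iter l β t

private theorem FXP_congr (S : StSys C k H) (β : C.Root) (a b : ℕ → k) (N : ℕ)
    (h : ∀ l < N, a l = b l) : FXP D S β a N = FXP D S β b N := by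
  unfold FXP
  congr 1
  apply List.map_congr_left
  intro l hl
  rw [List.mem_range] at hl
  rw [h l hl]

theorem fixX_form (he : Env D θ S s p) (β : C.Root) (hβ : C.Pos β) (x : H)
    (hx : x ∈ fixX D S s β) : ∃ t, (D.r β = β → (D.sg β : k) * θ t = t) ∧ ∃ z ∈ ZZ D S β,
      x = yb D S s β t * z := by
  obtain ⟨hx, hs⟩ := Subgroup.mem_inf.1 hx
  have hs : s x = x := hs
  obtain ⟨a, z, hz, rfl⟩ := FXP_form S β x hx
  have hpos := FX_mo_pos D β
  have hm : 1 ≤ ht β.1 := by
    unfold SLC.Pos at hβ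
    omega
  have hI := (inj_of_map S p he.hp).1
  have hR := FX_R_Z S _ hm β rfl (FXP_R (D := D) S _ hm β rfl a (mo D β)) hz
  set T : C.Root → k := fun γ => ∑ l ∈ Finset.range (mo D β), if γ = D.r^[l] β then a l else 0
    with hT
  have hT1 : ∀ γ, T (D.r γ) = (D.sg γ : k) * θ (T γ) := FX_R_fixed S hI he.sig _ hm hR hs
  have hT2 : ∀ l, l < mo D β → T (D.r^[l] β) = a l := fun l hl => FX_eval D β a l hl
  have hT3 : ∀ l, T (D.r^[l] β) = (D.sgp l β : k) * (⇑θ)^[l] (a 0) := by
    intro l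
    induction l with
    | zero =>
      rw [hT2 0 hpos]
      simp [Dg.sgp]
    | succ l ih =>
      rw [Function.iterate_succ_apply', hT1, ih, Function.iterate_succ_apply']
      unfold Dg.sgp
      rw [Finset.prod_range_succ, _root_.map_mul, map_intCast]
      push_cast
      ring
  refine ⟨a 0, fun hr => ?_, z, hz, ?_⟩
  · have h1 := hT1 β
    rw [hr] at h1
    have h2 := hT2 0 hpos
    change T β = a 0 at h2
    rw [h2] at h1
    exact h1.symm
  · rw [FX_yb he.sig]
    congr 1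
    apply FXP_congr
    intro l hl
    rw [← hT2 l hl, hT3]

theorem fixX_exists (he : Env D θ S s p) (β : C.Root) (hβ : C.Pos β) (t : k)
    (ht : D.r β = β → (D.sg β : k) * θ t = t) : ∃ z ∈ ZZ D S β,
      yb D S s β t * z ∈ fixX D S s β := by
  have hmem : yb D S s β t ∈ XO D S β := by
    rw [FX_yb he.sig]
    exact FXP_mem S β _ _
  rcases FX_cases D β with ⟨h, hm⟩ | ⟨h, hm, ho⟩ | ⟨h, hm, hm', ho⟩
  · refine ⟨1, one_mem _, ?_⟩
    rw [mul_one]
    refine Subgroup.mem_inf.2 ⟨hmem, ?_⟩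
    change s (yb D S s β t) = yb D S s β t
    unfold yb
    rw [hm]
    simp only [List.range_one, List.map_cons, List.map_nil, List.prod_cons, List.prod_nil, mul_one,
      Function.iterate_zero, id]
    rw [he.sig, h, ht h]
  · refine ⟨1, one_mem _, ?_⟩
    rw [mul_one]
    refine Subgroup.mem_inf.2 ⟨hmem, ?_⟩
    change s (yb D S s β t) = yb D S s β t
    have h1 := Eg_le_fix S s _ (prod_x_mem he.sig he.hθ β h ho t)
    unfold yb
    rw [hm]
    exact h1
  · obtain ⟨γ, hγ⟩ := C.exists_add β (D.r β) ho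
    obtain ⟨hrγ, hsγ⟩ := D.sg_adj β γ h hγ
    have hθ2 : ∀ a, θ (θ a) = a := fun a => by
      have := he.hθ a
      rw [hm'] at this
      exact this
    have hsq : (D.sg β : k) * (D.sg β : k) = 1 := by
      rw [← Int.cast_mul, D.sg_sq, Int.cast_one]
    have hy : yb D S s β t = S.x β t * S.x (D.r β) ((D.sg β : k) * θ t) := by
      unfold yb
      rw [hm, ← he.sig]
      simp [List.range_succ]
    have hrr : D.r (D.r β) = β := by
      have := D.r_m β
      rw [hm'] at this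
      exact this
    have hss : s (S.x (D.r β) ((D.sg β : k) * θ t)) = S.x β t := by
      rw [← he.sig]
      have h2 := he.sig.iter_m he.hθ (S.x β t) (Subgroup.subset_closure ⟨β, t, rfl⟩)
      rw [hm'] at h2
      exact h2
    have hz : θ (-((C.eps β.1 (D.r β).1 : k) * t * ((D.sg β : k) * θ t))) =
        -((C.eps β.1 (D.r β).1 : k) * t * ((D.sg β : k) * θ t)) := by
      rw [_root_.map_neg, _root_.map_mul, _root_.map_mul, _root_.map_mul, map_intCast,
        map_intCast, hθ2]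
      ring
    have hv : ∃ v, v + θ v = -((C.eps β.1 (D.r β).1 : k) * t * ((D.sg β : k) * θ t)) := by
      rcases he.hB with hA | hA
      · exfalso
        have := D.ip_r_NA hA β h
        omega
      · exact hA _ hz
    obtain ⟨v, hv⟩ := hv
    have hZ : ∀ a, S.x γ a ∈ ZZ D S β := fun a => Subgroup.subset_closure ⟨γ, a, hγ, rfl⟩
    refine ⟨S.x γ v, hZ v, Subgroup.mem_inf.2 ⟨mul_mem hmem (FX_ZZ_le S β (hZ v)), ?_⟩⟩
    change s (yb D S s β t * S.x γ v) = yb D S s β t * S.x γ v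
    have h1 : s (S.x γ v) = S.x γ (-θ v) := by
      rw [he.sig, hrγ, hsγ]
      congr 1
      push_cast
      ring
    have h2 : s (yb D S s β t) =
        yb D S s β t * S.x γ (-((C.eps β.1 (D.r β).1 : k) * t * ((D.sg β : k) * θ t))) := by
      rw [← FX_central S β _ _ (hZ _) hmem, hy, _root_.map_mul, hss, he.sig, S.x_neg,
        ← S.comm_add β (D.r β) γ t ((D.sg β : k) * θ t) hγ]
      group
    rw [_root_.map_mul, h1, h2, mul_assoc, ← S.map_add, ← hv]
    congr 2
    ring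

theorem fixX_coord (he : Env D θ S s p) (β : C.Root) (hβ : C.Pos β) (t t' : k) (z z' : H)
    (hz : z ∈ ZZ D S β) (hz' : z' ∈ ZZ D S β) (h : yb D S s β t * z = yb D S s β t' * z') :
    t = t' := by
  have hpos := FX_mo_pos D β
  have hm : 1 ≤ ht β.1 := by
    unfold SLC.Pos at hβ
    omega
  have hI := (inj_of_map S p he.hp).1
  rw [FX_yb he.sig, FX_yb he.sig] at h
  have hR := FX_R_Z S _ hm β rfl (FXP_R (D := D) S _ hm β rfl
    (fun l => (D.sgp l β : k) * (⇑θ)^[l] t) (mo D β)) hz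
  have hR' := FX_R_Z S _ hm β rfl (FXP_R (D := D) S _ hm β rfl
    (fun l => (D.sgp l β : k) * (⇑θ)^[l] t') (mo D β)) hz'
  rw [h] at hR
  have h1 := congrFun (FX_R_unique S hI _ hm hR hR') (D.r^[0] β)
  rw [FX_eval D β _ 0 hpos, FX_eval D β _ 0 hpos] at h1
  simpa [Dg.sgp] using h1

theorem yb_mem_XO (he : Env D θ S s p) (β : C.Root) (t : k) (z : H) (hz : z ∈ ZZ D S β) :
    yb D S s β t * z ∈ XO D S β := by
  rw [FX_yb he.sig]
  exact mul_mem (FXP_mem S β _ _) (FX_ZZ_le S β hz)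

private theorem FX_sgp (D : Dg C) (i : Fin n) (l : ℕ) : D.sgp l (C.simple i) = 1 := by
  unfold Dg.sgp
  apply Finset.prod_eq_one
  intro j _
  rw [D.r_iter_simple, D.sg_simple]

private theorem FX_pU (hp : ∀ β t, p (S.x β t) = C.xg k β t) (m : ℤ) (u : H) (hu : u ∈ S.U m) :
    p u ∈ (C.adS k).U m := by
  have h1 : S.U m ≤ ((C.adS k).U m).comap p := by
    conv_lhs => unfold StSys.U
    rw [Subgroup.closure_le]
    rintro g ⟨β, t, hβ, rfl⟩
    change p (S.x β t) ∈ (C.adS k).U m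
    rw [hp]
    exact Subgroup.subset_closure ⟨β, t, hβ, rfl⟩
  exact h1 hu

private theorem FX_xi_P (hp : ∀ β t, p (S.x β t) = C.xg k β t) (D : Dg C) (i j : Fin n)
    (a : ℕ → k) (N : ℕ) :
    FXP D S (C.simple i) a N ∈ S.U 1 ∧
    C.xi j (p (FXP D S (C.simple i) a N) : Matrix C.Idx C.Idx k) =
      ∑ l ∈ Finset.range N, if (D.ρ ^ l) i = j then a l else 0 := by
  induction N with
  | zero =>
    refine ⟨one_mem _, ?_⟩
    have : FXP D S (C.simple i) a 0 = 1 := rfl
    rw [this, _root_.map_one, Units.val_one, C.xi_one]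
    simp
  | succ N ih =>
    have h1 : S.x (D.r^[N] (C.simple i)) (a N) ∈ S.U 1 :=
      FX_mem S 1 _ _ (by rw [D.r_iter_simple, C.ht_simple])
    rw [FXP_succ]
    refine ⟨mul_mem ih.1 h1, ?_⟩
    rw [_root_.map_mul, C.xi_mul j _ _ (FX_pU hp 1 _ ih.1) (FX_pU hp 1 _ h1), ih.2, hp,
      D.r_iter_simple, C.xi_xg j _ (C.simple_pos _), Finset.sum_range_succ]
    congr 1
    by_cases h2 : (D.ρ ^ N) i = j
    · rw [if_pos h2, if_pos (by rw [h2])]
    · rw [if_neg h2, if_neg fun h3 => h2 (C.simple_injective h3)]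

private theorem FX_xi (he : Env D θ S s p) (i j : Fin n) (t : k) (z : H)
    (hz : z ∈ ZZ D S (C.simple i)) :
    C.xi j (p (yb D S s (C.simple i) t * z) : Matrix C.Idx C.Idx k) =
      ∑ l ∈ Finset.range (mo D (C.simple i)), if (D.ρ ^ l) i = j then (⇑θ)^[l] t else 0 := by
  have h1 := FX_xi_P (S := S) he.hp D i j (fun l => (D.sgp l (C.simple i) : k) * (⇑θ)^[l] t)
    (mo D (C.simple i))
  have hz2 : z ∈ S.U 2 := FX_ZZ_U S (C.simple i) 1 (C.ht_simple i) hz
  have hz1 : z ∈ S.U 1 := FX_mono S (by norm_num) hz2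
  have hz3 : C.xi j (p z : Matrix C.Idx C.Idx k) = 0 :=
    C.xi_eq_zero_of_Fil j _ (C.Fil_U 2 (by norm_num) _ (FX_pU he.hp 2 z hz2))
  rw [FX_yb he.sig, _root_.map_mul, C.xi_mul j _ _ (FX_pU he.hp 1 _ h1.1) (FX_pU he.hp 1 _ hz1),
    hz3, add_zero, h1.2]
  apply Finset.sum_congr rfl
  intro l _
  rw [FX_sgp, Int.cast_one, one_mul]

private theorem FX_pow_mod (D : Dg C) (i : Fin n) (l : ℕ) :
    (D.ρ ^ (l % mo D (C.simple i))) i = (D.ρ ^ l) i := by
  apply C.simple_injective
  rw [← D.r_iter_simple, ← D.r_iter_simple, FX_mod]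

private theorem FX_xi_pow (he : Env D θ S s p) (i : Fin n) (t : k)
    (ht : D.r (C.simple i) = C.simple i → (D.sg (C.simple i) : k) * θ t = t) (z : H)
    (hz : z ∈ ZZ D S (C.simple i)) (l : ℕ) :
    C.xi ((D.ρ ^ l) i) (p (yb D S s (C.simple i) t * z) : Matrix C.Idx C.Idx k) =
      (⇑θ)^[l] t := by
  have hpos := FX_mo_pos D (C.simple i)
  have hl := Nat.mod_lt l hpos
  rw [FX_xi he i _ t z hz, Finset.sum_eq_single (l % mo D (C.simple i))]
  · rw [if_pos (FX_pow_mod D i l)]
    rcases FX_cases D (C.simple i) with ⟨h, hm⟩ | ⟨-, hm, -⟩ | ⟨-, hm, hm', -⟩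
    · have h1 := ht h
      rw [D.sg_simple, Int.cast_one, one_mul] at h1
      rw [Function.iterate_fixed h1, Function.iterate_fixed h1]
    · have h1 : Function.IsPeriodicPt (⇑θ) D.m t := he.hθ t
      rw [hm]
      exact h1.iterate_mod_apply l
    · have h1 : Function.IsPeriodicPt (⇑θ) D.m t := he.hθ t
      rw [hm, ← hm']
      exact h1.iterate_mod_apply l
  · intro j hj hne
    rw [Finset.mem_range] at hj
    apply if_neg
    intro h
    apply hne
    apply FX_inj D (C.simple i) _ _ hj hl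
    rw [D.r_iter_simple, D.r_iter_simple, h, FX_pow_mod]
  · intro h
    exact absurd (Finset.mem_range.2 hl) h

/-- the coordinates of an element of a simple root group -/
theorem fixX_xi (he : Env D θ S s p) (i : Fin n) (x : H) (hx : x ∈ fixX D S s (C.simple i)) :
    (∀ l : ℕ, C.xi ((D.ρ ^ l) i) (p x : Matrix C.Idx C.Idx k) =
      (⇑θ)^[l] (C.xi i (p x : Matrix C.Idx C.Idx k))) ∧
    ∀ j, ¬ D.ρ.SameCycle i j → C.xi j (p x : Matrix C.Idx C.Idx k) = 0 := by
  obtain ⟨t, ht, z, hz, rfl⟩ := fixX_form he (C.simple i) (C.simple_pos i) x hx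
  have h0 := FX_xi_pow he i t ht z hz 0
  change C.xi i (p (yb D S s (C.simple i) t * z) : Matrix C.Idx C.Idx k) = t at h0
  refine ⟨fun l => ?_, fun j hj => ?_⟩
  · rw [h0, FX_xi_pow he i t ht z hz l]
  · rw [FX_xi he i j t z hz]
    apply Finset.sum_eq_zero
    intro l _
    apply if_neg
    rintro rfl
    exact hj ⟨l, by rw [zpow_natCast]⟩

/-- existence of elements of simple root groups with given coordinate -/
theorem fixX_xi_exists (he : Env D θ S s p) (i : Fin n) (t : k) (ht : D.ρ i = i → θ t = t) :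
    ∃ x ∈ fixX D S s (C.simple i), C.xi i (p x : Matrix C.Idx C.Idx k) = t := by
  have ht' : D.r (C.simple i) = C.simple i → (D.sg (C.simple i) : k) * θ t = t := by
    intro h
    rw [D.sg_simple, Int.cast_one, one_mul]
    rw [D.r_simple] at h
    exact ht (C.simple_injective h)
  obtain ⟨z, hz, h1⟩ := fixX_exists he (C.simple i) (C.simple_pos i) t ht'
  exact ⟨_, h1, FX_xi_pow he i t ht' z hz 0⟩

private theorem FX_ZZ_bot (S : StSys C k H) (β : C.Root)
    (h : ∀ γ : C.Root, γ.1 ≠ β.1 + (D.r β).1) (z : H) (hz : z ∈ ZZ D S β) : z = 1 := by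
  have h1 : ZZ D S β = ⊥ := by
    unfold ZZ
    rw [Subgroup.closure_eq_bot_iff]
    rintro g ⟨γ, v, hγ, -⟩
    exact absurd hγ (h γ)
  rw [h1] at hz
  exact hz

private theorem FX_ZZ_x (S : StSys C k H) (β γ : C.Root) (hγ : γ.1 = β.1 + (D.r β).1) (z : H)
    (hz : z ∈ ZZ D S β) : ∃ v, z = S.x γ v := by
  unfold ZZ at hz
  induction hz using Subgroup.closure_induction with
  | mem z hz =>
    obtain ⟨γ', v, hγ', rfl⟩ := hz
    have : γ' = γ := SLC.Root.ext (hγ'.trans hγ.symm)
    exact ⟨v, by rw [this]⟩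
  | one => exact ⟨0, (S.x_zero γ).symm⟩
  | mul a b _ _ ha hb =>
    obtain ⟨v, rfl⟩ := ha
    obtain ⟨w, rfl⟩ := hb
    exact ⟨v + w, (S.map_add γ v w).symm⟩
  | inv a _ ha =>
    obtain ⟨v, rfl⟩ := ha
    exact ⟨-v, (S.x_neg γ v).symm⟩

private theorem FX_heis (A1 A2 B1 B2 P Q z1 z2 : H) (h1 : A2 * B1 = P * (B1 * A2))
    (h2 : A1 * B2 = Q * (B2 * A1)) (h3 : A1 * B1 = B1 * A1) (h4 : A2 * B2 = B2 * A2)
    (hP : A1 * P = P * A1) (hQ : B1 * Q = Q * B1) (hz1 : z1 * (B1 * B2) = B1 * B2 * z1)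
    (hz2 : z2 * (A1 * A2) = A1 * A2 * z2) (hz : z1 * z2 = z2 * z1) :
    (A1 * A2 * z1) * (B1 * B2 * z2) * (A1 * A2 * z1)⁻¹ * (B1 * B2 * z2)⁻¹ = P * Q := by
  rw [mul_inv_eq_iff_eq_mul, mul_inv_eq_iff_eq_mul]
  calc (A1 * A2 * z1) * (B1 * B2 * z2) = A1 * A2 * (z1 * (B1 * B2)) * z2 := by group
    _ = A1 * (A2 * B1) * B2 * (z1 * z2) := by rw [hz1]; group
    _ = (A1 * P) * B1 * (A2 * B2) * (z1 * z2) := by rw [h1]; group
    _ = P * (A1 * B1) * B2 * A2 * (z1 * z2) := by rw [hP, h4]; group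
    _ = P * B1 * (A1 * B2) * A2 * (z1 * z2) := by rw [h3]; group
    _ = P * (B1 * Q) * B2 * A1 * A2 * (z1 * z2) := by rw [h2]; group
    _ = P * Q * (B1 * B2) * (A1 * A2 * z2) * z1 := by rw [hQ, hz]; group
    _ = P * Q * (B1 * B2 * z2) * (A1 * A2 * z1) := by rw [← hz2]; group

/-- elements of simple root groups with coordinate zero are commutators -/
theorem fixX_xi_zero (he : Env D θ S s p) (i : Fin n) (x : H)
    (hx : x ∈ fixX D S s (C.simple i)) (h0 : C.xi i (p x : Matrix C.Idx C.Idx k) = 0) :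
    x ∈ ⁅fixX D S s (C.simple i), fixX D S s (C.simple i)⁆ := by
  obtain ⟨t, ht, z, hz, rfl⟩ := fixX_form he (C.simple i) (C.simple_pos i) x hx
  have h1 := FX_xi_pow he i t ht z hz 0
  change C.xi i (p (yb D S s (C.simple i) t * z) : Matrix C.Idx C.Idx k) = t at h1
  rw [h0] at h1
  subst h1
  have hy0 : yb D S s (C.simple i) 0 = 1 := by
    rw [FX_yb he.sig]
    apply FXP_zero
    intro l _
    rw [iterate_map_zero, mul_zero]
  rw [hy0, one_mul] at hx ⊢
  have hs : s z = z := (Subgroup.mem_inf.1 hx).2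
  rcases FX_cases D (C.simple i) with ⟨h, -⟩ | ⟨h, -, ho⟩ | ⟨h, hm, hm', ho⟩
  · rw [FX_ZZ_bot (D := D) S (C.simple i) (fun γ hγ => (FX_sum D _ γ hγ).1 h) z hz]
    exact one_mem _
  · rw [FX_ZZ_bot (D := D) S (C.simple i) (fun γ hγ => by
      have := (FX_sum D _ γ hγ).2.2.2
      omega) z hz]
    exact one_mem _
  · obtain ⟨γ, hγ⟩ := C.exists_add (C.simple i) (D.r (C.simple i)) ho
    obtain ⟨hrγ, hsγ⟩ := D.sg_adj (C.simple i) γ h hγ
    obtain ⟨v, rfl⟩ := FX_ZZ_x (D := D) S (C.simple i) γ hγ z hz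
    have h1 : s (S.x γ v) = S.x γ (-θ v) := by
      rw [he.sig, hrγ, hsγ]
      congr 1
      push_cast
      ring
    have h2 : v + θ v = 0 := by
      by_cases hv : v = 0
      · rw [hv, map_zero, add_zero]
      · rw [h1] at hs
        have h3 := congrArg p hs
        rw [he.hp, he.hp] at h3
        have h4 := (C.xg_inj γ γ v (-θ v) hv h3.symm).2
        linear_combination h4
    have hC : ∃ t, v = t - θ t := by
      rcases he.hC with hA | hA
      · exfalso
        have := D.ip_r_NA hA (C.simple i) h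
        omega
      · exact hA v h2
    obtain ⟨a, ha⟩ := hC
    set β := C.simple i with hβ
    set e : k := (C.eps β.1 (D.r β).1 : k) with hee
    have hee2 : e * e = 1 := by
      rw [hee]
      rcases C.eps_eq_one_or β.1 (D.r β).1 with h5 | h5 <;> simp [h5]
    have hθe : θ e = e := map_intCast θ _
    have hy : ∀ t, yb D S s β t = S.x β t * S.x (D.r β) (θ t) := by
      intro t
      unfold yb
      rw [hm]
      have h6 : s (S.x β t) = S.x (D.r β) (θ t) := by
        rw [he.sig, hβ, D.sg_simple, Int.cast_one, one_mul]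
      simp [List.range_succ, h6]
    obtain ⟨z1, hz1, hm1⟩ := fixX_exists he β (C.simple_pos i) a (fun h' => absurd h' h)
    obtain ⟨z2, hz2, hm2⟩ := fixX_exists he β (C.simple_pos i) e (fun h' => absurd h' h)
    have hZ : ∀ a, S.x γ a ∈ ZZ D S β := fun a => Subgroup.subset_closure ⟨γ, a, hγ, rfl⟩
    have hc : ∀ a b, S.x β a * S.x (D.r β) b = S.x γ (e * a * b) * (S.x (D.r β) b * S.x β a) := by
      intro a b
      rw [← S.comm_add β (D.r β) γ a b hγ]
      group
    have hX1 : ∀ a, S.x β a ∈ XO D S β := fun a => FX_x_mem (D := D) S β 0 a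
    have hX2 : ∀ a, S.x (D.r β) a ∈ XO D S β := fun a => FX_x_mem (D := D) S β 1 a
    have key := FX_heis (S.x β a) (S.x (D.r β) (θ a)) (S.x β e) (S.x (D.r β) (θ e))
      (S.x γ (-(e * e * θ a))) (S.x γ (e * a * θ e)) z1 z2
      (by rw [hc e (θ a), ← mul_assoc, ← S.map_add, neg_add_cancel, S.x_zero, one_mul])
      (hc a (θ e))
      (by rw [← S.map_add, ← S.map_add, add_comm])
      (by rw [← S.map_add, ← S.map_add, add_comm])
      (FX_central S β _ _ (hZ _) (hX1 _)).symm
      (FX_central S β _ _ (hZ _) (hX1 _)).symm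
      (FX_central S β _ _ hz1 (mul_mem (hX1 _) (hX2 _)))
      (FX_central S β _ _ hz2 (mul_mem (hX1 _) (hX2 _)))
      (FX_central S β _ _ hz1 (FX_ZZ_le S β hz2))
    rw [← hy, ← hy, ← S.map_add] at key
    have hv : -(e * e * θ a) + e * a * θ e = v := by
      rw [hθe, ha]
      linear_combination (a - θ a) * hee2
    rw [hv] at key
    rw [← key]
    exact Subgroup.commutator_mem_commutator hm1 hm2

private theorem FX_cyc (D : Dg C) (i j : Fin n) (h : D.ρ.SameCycle i j) :
    ∃ l, l < D.m ∧ (D.ρ ^ l) i = j := by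
  obtain ⟨z, hz⟩ := h
  have hm : 0 < D.m := by
    rcases D.m_cases with h | h | h <;> omega
  have h1 : 0 ≤ z % (D.m : ℤ) := Int.emod_nonneg _ (by omega)
  have h2 : z % (D.m : ℤ) < D.m := Int.emod_lt_of_pos _ (by omega)
  refine ⟨(z % (D.m : ℤ)).toNat, by omega, ?_⟩
  have h3 : D.ρ ^ (z % (D.m : ℤ)) = D.ρ ^ z := zpow_mod_orderOf _ _
  rw [← hz, ← h3]
  conv_rhs => rw [← Int.toNat_of_nonneg h1]
  rw [zpow_natCast]

/-- inner products of simple roots in an orbit -/
private theorem FX_ortho (D : Dg C) (i j l : Fin n) (h : C.ip (C.simple i).1 (D.r (C.simple i)).1 ≠ -1)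
    (hj : D.ρ.SameCycle i j) (hl : D.ρ.SameCycle i l) (hne : j ≠ l) :
    C.ip (C.simple j).1 (C.simple l).1 = 0 := by
  obtain ⟨a, -, rfl⟩ := FX_cyc D i j hj
  obtain ⟨b, -, rfl⟩ := FX_cyc D i l hl
  have h1 : 0 ≤ C.ip (C.simple ((D.ρ ^ a) i)).1 (C.simple ((D.ρ ^ b) i)).1 := by
    rw [← D.r_iter_simple, ← D.r_iter_simple]
    rcases FX_orb D (C.simple i) a b with h1 | ⟨δ, -, h2⟩
    · exact h1
    · exact absurd (FX_sum D _ δ h2).2.2.2 h
  have h2 : C.ip (C.simple ((D.ρ ^ a) i)).1 (C.simple ((D.ρ ^ b) i)).1 ≤ 0 := by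
    simp only [SLC.simple_val, SLC.ip_single]
    rcases C.off _ _ hne with h3 | h3 <;> omega
  omega

/-- positive roots supported on an orbit of simple roots -/
theorem supp_inO (D : Dg C) (i : Fin n) (γ : C.Root) (hγ : C.Pos γ) (h : D.supp i γ) :
    D.inO (C.simple i) γ := by
  have h0 := (C.pos_iff γ).1 hγ
  unfold Dg.supp at h
  by_cases ha : C.ip (C.simple i).1 (D.r (C.simple i)).1 = -1
  · obtain ⟨δ, hδ⟩ := C.exists_add _ _ ha
    obtain ⟨hne, hm, hm', -⟩ := FX_sum D _ δ hδ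
    have hi : D.ρ i ≠ i := fun h1 => hne (by rw [D.r_simple, h1])
    have hρ2 : D.ρ (D.ρ i) = i := by
      have h1 : D.ρ ^ 2 = 1 := by
        rw [← hm']
        exact pow_orderOf_eq_one _
      have h2 := congrArg (fun σ : Equiv.Perm (Fin n) => σ i) h1
      simpa [sq] using h2
    have hcyc : ∀ j, D.ρ.SameCycle i j → j = i ∨ j = D.ρ i := by
      intro j hj
      obtain ⟨a, h1, rfl⟩ := FX_cyc D i j hj
      rw [hm'] at h1
      have h2 : a = 0 ∨ a = 1 := by omega
      rcases h2 with rfl | rfl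
      · exact Or.inl rfl
      · exact Or.inr rfl
    have hv : γ.1 = γ.1 i • (C.simple i).1 + γ.1 (D.ρ i) • (C.simple (D.ρ i)).1 := by
      funext j
      simp only [Pi.add_apply, Pi.smul_apply, SLC.simple_val, smul_eq_mul]
      by_cases hk : D.ρ.SameCycle i j
      · rcases hcyc j hk with h1 | h1
        · rw [h1, Pi.single_eq_same, Pi.single_eq_of_ne hi.symm]
          ring
        · rw [h1, Pi.single_eq_same, Pi.single_eq_of_ne hi]
          ring
      · have h1 : γ.1 j = 0 := by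
          by_contra h1
          exact hk (h j h1)
        rw [Pi.single_eq_of_ne, Pi.single_eq_of_ne, h1]
        · ring
        · rintro rfl
          exact hk ⟨1, by simp⟩
        · rintro rfl
          exact hk (Equiv.Perm.SameCycle.refl _ _)
    have hnorm := γ.2
    have ha' : C.ip (C.simple i).1 (C.simple (D.ρ i)).1 = -1 := by
      rw [← D.r_simple]
      exact ha
    rw [hv, SLC.ip_add_left, SLC.ip_add_right, SLC.ip_add_right, SLC.ip_smul_left,
      SLC.ip_smul_left, SLC.ip_smul_left, SLC.ip_smul_left, SLC.ip_smul_right,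
      SLC.ip_smul_right, SLC.ip_smul_right, SLC.ip_smul_right, (C.simple i).2,
      (C.simple (D.ρ i)).2, ha', C.ip_comm (C.simple (D.ρ i)).1, ha'] at hnorm
    have h1 := h0 i
    have h2 := h0 (D.ρ i)
    generalize hA : γ.1 i = x at *
    generalize hB : γ.1 (D.ρ i) = y at *
    have h3 : (x - y) ^ 2 + x * y = 1 := by linarith
    have h4 : 0 ≤ x * y := mul_nonneg h1 h2
    have h5 : x * y = 0 ∨ x * y = 1 := by
      have : x * y ≤ 1 := by nlinarith [sq_nonneg (x - y)]
      omega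
    rcases h5 with h5 | h5
    · rcases mul_eq_zero.1 h5 with h6 | h6
      · have h7 : y = 1 := by
          rw [h6] at h3
          nlinarith
        left
        refine ⟨1, SLC.Root.ext ?_⟩
        change γ.1 = (D.r (C.simple i)).1
        rw [D.r_simple, hv, h6, h7, zero_smul, one_smul, zero_add]
      · have h7 : x = 1 := by
          rw [h6] at h3
          nlinarith
        left
        refine ⟨0, SLC.Root.ext ?_⟩
        change γ.1 = (C.simple i).1
        rw [hv, h6, h7, zero_smul, one_smul, add_zero]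
    · have h6 : x = y := by
        rw [h5] at h3
        have : (x - y) ^ 2 = 0 := by linarith
        have := pow_eq_zero_iff (two_ne_zero) |>.1 this
        omega
      have h7 : x = 1 := by
        rw [← h6] at h5
        nlinarith
      right
      rw [hv, ← h6, h7, one_smul, one_smul, D.r_simple]
  · obtain ⟨j, hj⟩ : ∃ j, γ.1 j ≠ 0 := by
      by_contra h1
      push Not at h1
      exact C.root_ne_zero γ (funext h1)
    have hcj := h j hj
    have h5 : C.ip (C.simple j).1 γ.1 = 2 * γ.1 j := by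
      rw [C.ip_comm, ← C.sum_ip_single, Finset.sum_eq_single j]
      · rw [SLC.simple_val, SLC.ip_single, C.diag, mul_comm]
      · intro l _ hl
        by_cases hl' : D.ρ.SameCycle i l
        · have := FX_ortho D i l j ha hl' hcj hl
          rw [SLC.simple_val] at this
          rw [this, mul_zero]
        · have h1 : γ.1 l = 0 := by
            by_contra h1
            exact hl' (h l h1)
          rw [h1, zero_mul]
      · intro hj
        exact absurd (Finset.mem_univ _) hj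
    have h6 := h0 j
    have h7 := C.ip_cases (C.simple j) γ
    have h8 : C.simple j = γ := by
      rw [← C.ip_eq_two_iff]
      omega
    obtain ⟨a, -, rfl⟩ := FX_cyc D i j hcj
    left
    exact ⟨a, by rw [← h8, D.r_iter_simple]⟩

private theorem FX_inO_iter (D : Dg C) (β γ : C.Root) (l : ℕ) (h : D.inO (D.r^[l] β) γ) :
    D.inO β γ := by
  rcases h with ⟨l', rfl⟩ | h
  · left
    exact ⟨l' + l, by rw [Function.iterate_add_apply]⟩
  · right
    have h1 := C.ip_add_root _ _ _ h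
    have h2 : D.r (D.r^[l] β) = D.r^[l + 1] β := (Function.iterate_succ_apply' _ _ _).symm
    rw [h2] at h h1
    rcases FX_orb D β l (l + 1) with h3 | ⟨δ, h3, h4⟩
    · omega
    · rw [h, ← h3, h4]

private theorem FX_XO_le (S : StSys C k H) (β : C.Root) (l : ℕ) :
    XO D S (D.r^[l] β) ≤ XO D S β := by
  unfold XO
  apply Subgroup.closure_mono
  rintro g ⟨γ, t, hγ, rfl⟩
  exact ⟨γ, t, FX_inO_iter D β γ l hγ, rfl⟩

private theorem FX_iter_neg (D : Dg C) (β : C.Root) (l : ℕ) : D.r^[l] (-β) = -(D.r^[l] β) := by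
  induction l with
  | zero => rfl
  | succ l ih =>
    rw [Function.iterate_succ_apply', ih, D.r_neg, Function.iterate_succ_apply']

private theorem FX_XO_simple (D : Dg C) (S : StSys C k H) (i j : Fin n) (h : D.ρ.SameCycle i j) :
    XO D S (C.simple j) ≤ XO D S (C.simple i) ∧
      XO D S (-(C.simple j)) ≤ XO D S (-(C.simple i)) := by
  obtain ⟨a, -, rfl⟩ := FX_cyc D i j h
  rw [← D.r_iter_simple, ← FX_iter_neg]
  exact ⟨FX_XO_le S _ a, FX_XO_le S _ a⟩

theorem fixX_simple_congr (S : StSys C k H) (s : H →* H) (i j : Fin n)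
    (h : D.ρ.SameCycle i j) : fixX D S s (C.simple i) = fixX D S s (C.simple j) ∧
      fixX D S s (-(C.simple i)) = fixX D S s (-(C.simple j)) := by
  have h1 := FX_XO_simple D S i j h
  have h2 := FX_XO_simple D S j i h.symm
  unfold fixX
  exact ⟨by rw [le_antisymm h2.1 h1.1], by rw [le_antisymm h2.2 h1.2]⟩

end Pool.Agent.H86.UM
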