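import Pool.Agent.H86.UM.SR
import Pool.Agent.H75.UT.D5

/-!
# Project UM, module GEN: `Eg S s` is generated by the simple root groups

Let `G₀` be the subgroup generated by the `fixX D S s (± simple i)`. By `fixU_eq`, `fixUm_eq` (UT/D3; hypotheses
from `inj_of_map`, `he.hB`) it is enough that `fixX β ≤ G₀` for all roots `β`.
(1) For each `i` there is `ν ∈ G₀ ∩ S.N` acting by `wd (wl i)`: the elements constructed in `exists_nJ`
(UT/D6a) are products of elements of `fixX (± simple i)`: non-adjacent: `y(1) y⁻(1) y(1)` with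
`y = yb (simple i)`, `y⁻ = yb (- simple i)` (`prod_nn_mem` proof in UT/D6y); adjacent: `nn x γ e`, with
`x_γ(e) ∈ fixX (simple i)`, `x_(-γ)(e⁻¹) ∈ fixX (- simple i)`.
(2) Let `β` be positive, not supported on one orbit of simple roots. There is a simple `α_i` with
`ip β α_j > 0` for some `j` in the orbit `J` of `i` (else `ip β β ≤ 0`); more precisely let
`B = ∑_{j∈J} α_j`; `∑_J (coefficient) ..`: it is enough to find `J` such that `w_J β` has smaller height:
since `β + r β + ..` (the sum over the orbit, invariant, positive norm) has positive inner product with some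
`B_J`, so has `β` (`ip (r β) B_J = ip β B_J`); `w_J β = β - ∑ (..)` subtracts a positive multiple of `B_J` from
the orbit sum, so its height is smaller (orthogonal case: `w_J β = β - ∑_{j∈J} ip β α_j α_j`, height
decreases by `ip β B_J`; adjacent case: `w_J = reflE γ`, `γ = B_J`, height decreases by `2 ip β γ`).
`w_J β` is positive (`wJ_pos`). `ν fixX(β) ν⁻¹ = fixX (w_J β)` (`ν` fixed by `s`, acts by `w_J` which commutes
with `ρ`, `wJ_comm`, and is additive on roots), so induct on the height. (3) `β` positive and supported on the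
orbit of `i`: `inO (simple i) β` (`supp_inO`), so `XO β ≤ XO (simple i)`, `fixX β ≤ fixX (simple i)`.
Negative roots: `S.neg` (`IsSig.neg`, `neg_x`) or conjugation with the `ν`.
-/

set_option autoImplicit false
open Matrix

namespace Pool.Agent.H86.UM

open Pool.Agent.H75.UL

section descent
variable {n : ℕ} {C : SLC n} {D : Dg C}

private theorem GEN_m_pos : 0 < D.m := by
  rcases D.m_cases with h | h | h <;> omega

private theorem GEN_wd_cons (j : Fin n) (l : List (Fin n)) :
    C.wd (j :: l) = C.reflE (C.simple j) * C.wd l := by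
  simp [SLC.wd]

private theorem GEN_cyc (i j : Fin n) (h : D.ρ.SameCycle i j) :
    ∃ l, l < D.m ∧ (D.ρ ^ l) i = j := by
  obtain ⟨z, hz⟩ := h
  have hm : 0 < D.m := GEN_m_pos
  have h1 : 0 ≤ z % (D.m : ℤ) := Int.emod_nonneg _ (by omega)
  have h2 : z % (D.m : ℤ) < D.m := Int.emod_lt_of_pos _ (by omega)
  refine ⟨(z % (D.m : ℤ)).toNat, by omega, ?_⟩
  have h3 : D.ρ ^ (z % (D.m : ℤ)) = D.ρ ^ z := zpow_mod_orderOf _ _
  rw [← hz, ← h3]
  conv_rhs => rw [← Int.toNat_of_nonneg h1]
  rw [zpow_natCast]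

private theorem GEN_same (i : Fin n) (l : ℕ) : D.ρ.SameCycle i ((D.ρ ^ l) i) :=
  ⟨l, by rw [zpow_natCast]⟩

private theorem GEN_A_pow (l : ℕ) (i k : Fin n) :
    C.A ((D.ρ ^ l) i) ((D.ρ ^ l) k) = C.A i k := by
  induction l with
  | zero => rfl
  | succ l ih =>
    rw [pow_succ', Equiv.Perm.mul_apply, Equiv.Perm.mul_apply, D.hρ, ih]

private theorem GEN_simple_ne (i : Fin n) (h : D.ρ i ≠ i) :
    D.r (C.simple i) ≠ C.simple i := by
  rw [D.r_simple]
  exact fun h1 => h (C.simple_injective h1)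

private theorem GEN_orth (i j k : Fin n) (h : C.A i (D.ρ i) ≠ -1) (hj : D.ρ.SameCycle i j)
    (hk : D.ρ.SameCycle i k) (hne : j ≠ k) : C.A j k = 0 := by
  obtain ⟨a, ha, rfl⟩ := GEN_cyc i j hj
  obtain ⟨b, hb, rfl⟩ := GEN_cyc i k hk
  by_cases hi : D.ρ i = i
  · exfalso
    apply hne
    rw [Equiv.Perm.pow_apply_eq_self_of_apply_eq_self hi,
      Equiv.Perm.pow_apply_eq_self_of_apply_eq_self hi]
  · have h0 : ∀ l, 0 < l → l < D.m → C.A i ((D.ρ ^ l) i) = 0 := by
      intro l hl hl'
      have h1 := D.ip_orb (C.simple i) (GEN_simple_ne i hi) l hl hl'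
      rw [D.r_iter_simple, D.r_simple] at h1
      simp only [SLC.simple_val, SLC.ip_single] at h1
      rw [h1]
      rcases D.ip_r (C.simple i) (GEN_simple_ne i hi) with h2 | ⟨-, h2⟩
      · rw [D.r_simple] at h2
        simpa only [SLC.simple_val, SLC.ip_single] using h2
      · rw [D.r_simple] at h2
        simp only [SLC.simple_val, SLC.ip_single] at h2
        exact absurd h2 h
    rcases lt_trichotomy a b with hab | hab | hab
    · have h1 : (D.ρ ^ b) i = (D.ρ ^ a) ((D.ρ ^ (b - a)) i) := by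
        rw [← Equiv.Perm.mul_apply, ← pow_add]
        congr 2
        omega
      rw [h1, GEN_A_pow]
      exact h0 _ (by omega) (by omega)
    · exact absurd (by rw [hab]) hne
    · have h1 : (D.ρ ^ a) i = (D.ρ ^ b) ((D.ρ ^ (a - b)) i) := by
        rw [← Equiv.Perm.mul_apply, ← pow_add]
        congr 2
        omega
      rw [h1, GEN_A_pow, C.symm]
      exact h0 _ (by omega) (by omega)

private theorem GEN_mem (i j : Fin n) (h : C.A i (D.ρ i) ≠ -1) :
    j ∈ D.wl i ↔ D.ρ.SameCycle i j := by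
  unfold Dg.wl
  rw [if_neg h]
  split_ifs with hi
  · rw [List.mem_singleton]
    constructor
    · rintro rfl
      exact Equiv.Perm.SameCycle.refl _ _
    · intro hj
      obtain ⟨a, ha, rfl⟩ := GEN_cyc i j hj
      exact Equiv.Perm.pow_apply_eq_self_of_apply_eq_self hi a
  · rw [List.mem_map]
    constructor
    · rintro ⟨l, -, rfl⟩
      exact GEN_same i l
    · intro hj
      obtain ⟨a, ha, rfl⟩ := GEN_cyc i j hj
      exact ⟨a, List.mem_range.2 ha, rfl⟩

private theorem GEN_nodup (i : Fin n) (h : C.A i (D.ρ i) ≠ -1) : (D.wl i).Nodup := by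
  unfold Dg.wl
  rw [if_neg h]
  split_ifs with hi
  · exact List.nodup_singleton _
  · refine List.Nodup.map_on ?_ List.nodup_range
    intro a ha b hb hab
    rw [List.mem_range] at ha hb
    refine D.r_iter_eq (C.simple i) (GEN_simple_ne i hi) a b ha hb ?_
    rw [D.r_iter_simple, D.r_iter_simple, hab]

private theorem GEN_wd_out (l : List (Fin n)) (β : C.Root) (k : Fin n) (hk : k ∉ l) :
    (C.wd l β).1 k = β.1 k := by
  induction l with
  | nil => rfl
  | cons j l ih =>
    rw [List.mem_cons, not_or] at hk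
    rw [GEN_wd_cons, Equiv.Perm.mul_apply, SLC.reflE_apply, SLC.refl_val]
    simp only [Pi.sub_apply, Pi.smul_apply, SLC.simple_val, Pi.single_eq_of_ne hk.1, smul_zero,
      sub_zero]
    exact ih hk.2

private theorem GEN_ip_orth (l : List (Fin n)) (β : C.Root) (j : Fin n)
    (h : ∀ k ∈ l, C.A j k = 0) :
    C.ip (C.simple j).1 (C.wd l β).1 = C.ip (C.simple j).1 β.1 := by
  induction l with
  | nil => rfl
  | cons k l ih =>
    rw [GEN_wd_cons, Equiv.Perm.mul_apply, SLC.reflE_apply, SLC.refl_val, SLC.ip_sub_right,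
      SLC.ip_smul_right]
    have h1 : C.ip (C.simple j).1 (C.simple k).1 = 0 := by
      simp only [SLC.simple_val, SLC.ip_single]
      exact h k List.mem_cons_self
    rw [h1, mul_zero, sub_zero]
    exact ih fun k' hk' => h k' (List.mem_cons_of_mem _ hk')

private theorem GEN_wd_in (l : List (Fin n)) (hnd : l.Nodup)
    (ho : ∀ j ∈ l, ∀ k ∈ l, j ≠ k → C.A j k = 0) (β : C.Root) (k : Fin n) (hk : k ∈ l) :
    (C.wd l β).1 k = β.1 k - C.ip (C.simple k).1 β.1 := by
  induction l with
  | nil => exact absurd hk List.not_mem_nil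
  | cons j l ih =>
    rw [List.nodup_cons] at hnd
    rw [GEN_wd_cons, Equiv.Perm.mul_apply, SLC.reflE_apply, SLC.refl_val]
    simp only [Pi.sub_apply, Pi.smul_apply, SLC.simple_val]
    by_cases hkj : k = j
    · subst hkj
      have h1 := GEN_ip_orth l β k fun k' hk' => ho k List.mem_cons_self k'
        (List.mem_cons_of_mem _ hk') (fun he => hnd.1 (he ▸ hk'))
      simp only [SLC.simple_val] at h1
      rw [h1, GEN_wd_out l β k hnd.1, Pi.single_eq_same, smul_eq_mul, mul_one]
    · have hk' : k ∈ l := by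
        rcases List.mem_cons.1 hk with h | h
        · exact absurd h hkj
        · exact h
      rw [Pi.single_eq_of_ne hkj, smul_zero, sub_zero]
      exact ih hnd.2 (fun a ha b hb => ho a (List.mem_cons_of_mem _ ha) b
        (List.mem_cons_of_mem _ hb)) hk'

private theorem GEN_in (i : Fin n) (h : C.A i (D.ρ i) ≠ -1) (β : C.Root) (k : Fin n)
    (hk : D.ρ.SameCycle i k) :
    (C.wd (D.wl i) β).1 k = β.1 k - C.ip (C.simple k).1 β.1 :=
  GEN_wd_in _ (GEN_nodup i h) (fun a ha b hb hab =>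
    GEN_orth i a b h ((GEN_mem i a h).1 ha) ((GEN_mem i b h).1 hb) hab) β k
    ((GEN_mem i k h).2 hk)

private theorem GEN_out (i : Fin n) (h : C.A i (D.ρ i) ≠ -1) (β : C.Root) (k : Fin n)
    (hk : ¬ D.ρ.SameCycle i k) : (C.wd (D.wl i) β).1 k = β.1 k :=
  GEN_wd_out _ β k fun h1 => hk ((GEN_mem i k h).1 h1)

private theorem GEN_comm (i : Fin n) (β : C.Root) :
    D.r (C.wd (D.wl i) β) = C.wd (D.wl i) (D.r β) := by
  have h := D.wJ_comm i
  rw [mul_inv_eq_iff_eq_mul] at h
  have h3 := congrArg (fun σ : Equiv.Perm C.Root => σ β) h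
  simpa using h3

private theorem GEN_comm_iter (i : Fin n) (l : ℕ) (β : C.Root) :
    D.r^[l] (C.wd (D.wl i) β) = C.wd (D.wl i) (D.r^[l] β) := by
  induction l with
  | zero => rfl
  | succ l ih => rw [Function.iterate_succ_apply', ih, GEN_comm, Function.iterate_succ_apply']

private theorem GEN_ip_sum (C : SLC n) {ι : Type*} (v : Fin n → ℤ) (s : Finset ι)
    (f : ι → Fin n → ℤ) : C.ip v (∑ i ∈ s, f i) = ∑ i ∈ s, C.ip v (f i) :=
  map_sum (AddMonoidHom.mk' (C.ip v) (C.ip_add_right v)) f s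

private theorem GEN_lmap_sum {ι : Type*} (π : Equiv.Perm (Fin n)) (s : Finset ι)
    (f : ι → Fin n → ℤ) : SLC.lmap π (∑ i ∈ s, f i) = ∑ i ∈ s, SLC.lmap π (f i) :=
  map_sum (AddMonoidHom.mk' (SLC.lmap π) (SLC.lmap_add π)) f s

private theorem GEN_ht_sum {ι : Type*} (s : Finset ι)
    (f : ι → Fin n → ℤ) : ht (∑ i ∈ s, f i) = ∑ i ∈ s, ht (f i) :=
  map_sum (AddMonoidHom.mk' (ht (n := n)) ht_add) f s

private theorem GEN_ht_iter (β : C.Root) (l : ℕ) : ht (D.r^[l] β).1 = ht β.1 := by
  induction l with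
  | zero => rfl
  | succ l ih => rw [Function.iterate_succ_apply', D.r_ht, ih]

/-- the orbit sum -/
private noncomputable def GEN_B (D : Dg C) (β : C.Root) : Fin n → ℤ :=
  ∑ l ∈ Finset.range D.m, (D.r^[l] β).1

private theorem GEN_inv (β : C.Root) : SLC.lmap D.ρ (GEN_B D β) = GEN_B D β := by
  unfold GEN_B
  rw [GEN_lmap_sum]
  have h1 : ∀ l, SLC.lmap D.ρ (D.r^[l] β).1 = (D.r^[l + 1] β).1 := by
    intro l
    rw [Function.iterate_succ_apply']
    rfl
  rw [Finset.sum_congr rfl (fun l _ => h1 l)]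
  have h2 := Finset.sum_range_succ' (fun l => (D.r^[l] β).1) D.m
  have h3 := Finset.sum_range_succ (fun l => (D.r^[l] β).1) D.m
  rw [h3] at h2
  simp only [D.r_m, Function.iterate_zero_apply] at h2
  exact (add_right_cancel h2).symm

private theorem GEN_ip_inv (v : Fin n → ℤ) (hv : SLC.lmap D.ρ v = v) (β : C.Root) (l : ℕ) :
    C.ip v (D.r^[l] β).1 = C.ip v β.1 := by
  induction l with
  | zero => rfl
  | succ l ih =>
    rw [Function.iterate_succ_apply', ← ih]
    have h1 := C.ip_lmap D.ρ D.hρ v (D.r^[l] β).1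
    rw [hv] at h1
    exact h1

private theorem GEN_ip_B (v : Fin n → ℤ) (hv : SLC.lmap D.ρ v = v) (β : C.Root) :
    C.ip v (GEN_B D β) = D.m * C.ip v β.1 := by
  unfold GEN_B
  rw [GEN_ip_sum, Finset.sum_congr rfl (fun l _ => GEN_ip_inv v hv β l), Finset.sum_const,
    Finset.card_range, nsmul_eq_mul]

private theorem GEN_ip_same (v : Fin n → ℤ) (hv : SLC.lmap D.ρ v = v) (i j : Fin n)
    (h : D.ρ.SameCycle i j) : C.ip v (C.simple j).1 = C.ip v (C.simple i).1 := by
  obtain ⟨a, -, rfl⟩ := GEN_cyc i j h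
  rw [← D.r_iter_simple, GEN_ip_inv v hv]

private theorem GEN_ht_B (β : C.Root) : ht (GEN_B D β) = D.m * ht β.1 := by
  unfold GEN_B
  rw [GEN_ht_sum, Finset.sum_congr rfl (fun l _ => GEN_ht_iter β l), Finset.sum_const,
    Finset.card_range, nsmul_eq_mul]

private theorem GEN_exists (β : C.Root) (hβ : C.Pos β) :
    ∃ j, 0 < C.ip (GEN_B D β) (C.simple j).1 := by
  by_contra hcon
  push Not at hcon
  have h0 : ∀ i, 0 ≤ GEN_B D β i := by
    intro i
    unfold GEN_B
    rw [Finset.sum_apply]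
    apply Finset.sum_nonneg
    intro l _
    refine (C.pos_iff _).1 ?_ i
    unfold SLC.Pos
    rw [GEN_ht_iter]
    exact hβ
  have h1 : GEN_B D β ≠ 0 := by
    intro h
    have h2 := GEN_ht_B (D := D) β
    rw [h] at h2
    have h3 : 0 < (D.m : ℤ) * ht β.1 :=
      mul_pos (by exact_mod_cast GEN_m_pos) hβ
    rw [← h2] at h3
    simp [ht] at h3
  have h2 := C.ip_pos _ h1
  rw [← C.sum_ip_single] at h2
  refine absurd h2 (not_lt.mpr (Finset.sum_nonpos fun i _ => ?_))
  rw [C.ip_comm]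
  exact mul_nonpos_of_nonneg_of_nonpos (h0 i) (hcon i)

open Classical in
/-- the indicator of an orbit of simple roots -/
private noncomputable def GEN_J (D : Dg C) (j : Fin n) : Fin n → ℤ :=
  fun k => if D.ρ.SameCycle j k then 1 else 0

private theorem GEN_J_inv (j : Fin n) : SLC.lmap D.ρ (GEN_J D j) = GEN_J D j := by
  funext k
  change GEN_J D j (D.ρ.symm k) = GEN_J D j k
  unfold GEN_J
  have h : D.ρ.SameCycle j (D.ρ.symm k) ↔ D.ρ.SameCycle j k := by
    have h1 := Equiv.Perm.sameCycle_apply_right (f := D.ρ) (x := j) (y := D.ρ.symm k)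
    rw [Equiv.apply_symm_apply] at h1
    exact h1.symm
  by_cases hk : D.ρ.SameCycle j k
  · rw [if_pos hk, if_pos (h.2 hk)]
  · rw [if_neg hk, if_neg fun h1 => hk (h.1 h1)]

/-- the height decreases -/
private theorem GEN_ht_lt (β : C.Root) (j : Fin n)
    (hj : 0 < C.ip (GEN_B D β) (C.simple j).1) : ht (C.wd (D.wl j) β).1 < ht β.1 := by
  have hm : (0 : ℤ) < D.m := by exact_mod_cast GEN_m_pos
  by_cases ha : C.A j (D.ρ j) = -1
  · have hip : C.ip (C.simple j).1 (C.simple (D.ρ j)).1 = -1 := by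
      simp only [SLC.simple_val, SLC.ip_single]
      exact ha
    obtain ⟨γ, hγ⟩ := C.exists_add _ _ hip
    have hne : D.r (C.simple j) ≠ C.simple j := by
      rw [D.r_simple]
      intro hc
      rw [hc, (C.simple j).2] at hip
      omega
    have hγ' : γ.1 = (C.simple j).1 + (D.r (C.simple j)).1 := by
      rw [D.r_simple]
      exact hγ
    obtain ⟨hr, -⟩ := D.sg_adj (C.simple j) γ hne hγ'
    have hinv : SLC.lmap D.ρ γ.1 = γ.1 := congrArg SLC.Root.val hr
    have h1 := GEN_ip_B γ.1 hinv β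
    have h2 : C.ip γ.1 (GEN_B D β) = 2 * C.ip (GEN_B D β) (C.simple j).1 := by
      rw [hγ, C.ip_add_left, C.ip_comm _ (GEN_B D β), C.ip_comm _ (GEN_B D β),
        GEN_ip_same (GEN_B D β) (GEN_inv β) j (D.ρ j) (GEN_same j 1)]
      ring
    have h3 : 0 < C.ip γ.1 β.1 := by
      rw [h2] at h1
      have h4 : 0 < (D.m : ℤ) * C.ip γ.1 β.1 := by omega
      exact pos_of_mul_pos_right h4 hm.le
    have h5 : 0 < ht γ.1 := by
      have a1 : 0 < ht (C.simple j).1 := C.simple_pos j
      have a2 : 0 < ht (C.simple (D.ρ j)).1 := C.simple_pos (D.ρ j)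
      rw [hγ, ht_add]
      omega
    rw [D.wJ_adj j ha γ hγ, SLC.reflE_apply, SLC.refl_val, ht_sub, ht_smul]
    have h6 := mul_pos h3 h5
    omega
  · have h1 : ht (C.wd (D.wl j) β).1 = ht β.1 - C.ip (GEN_J D j) β.1 := by
      rw [← C.sum_ip_single]
      unfold ht
      rw [← Finset.sum_sub_distrib]
      refine Finset.sum_congr rfl fun k _ => ?_
      unfold GEN_J
      by_cases hk : D.ρ.SameCycle j k
      · rw [GEN_in j ha β k hk, if_pos hk, one_mul]
        rfl
      · rw [GEN_out j ha β k hk, if_neg hk, zero_mul, sub_zero]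
    have h2 := GEN_ip_B (D := D) _ (GEN_J_inv j) β
    have h3 : 0 < C.ip (GEN_J D j) (GEN_B D β) := by
      rw [← C.sum_ip_single]
      apply Finset.sum_pos'
      · intro k _
        unfold GEN_J
        by_cases hk : D.ρ.SameCycle j k
        · rw [if_pos hk, one_mul, C.ip_comm]
          have h4 := GEN_ip_same (GEN_B D β) (GEN_inv β) j k hk
          rw [SLC.simple_val] at h4
          rw [h4]
          exact hj.le
        · rw [if_neg hk, zero_mul]
      · refine ⟨j, Finset.mem_univ _, ?_⟩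
        unfold GEN_J
        rw [if_pos (Equiv.Perm.SameCycle.refl _ _), one_mul, C.ip_comm]
        exact hj
    have h4 : 0 < C.ip (GEN_J D j) β.1 := by
      rw [h2] at h3
      exact pos_of_mul_pos_right h3 hm.le
    omega

private theorem GEN_wd_neg (i : Fin n) (β : C.Root) :
    C.wd (D.wl i) (-β) = -(C.wd (D.wl i) β) := C.W_neg _ (C.wd_mem_W _) β

private theorem GEN_iter_neg (D : Dg C) (l : ℕ) (β : C.Root) :
    D.r^[l] (-β) = -(D.r^[l] β) := by
  induction l with
  | zero => rfl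
  | succ l ih => rw [Function.iterate_succ_apply', Function.iterate_succ_apply', ih, D.r_neg]

private theorem GEN_inO_neg (D : Dg C) (β γ : C.Root) (hγ : D.inO β γ) : D.inO (-β) (-γ) := by
  rcases hγ with ⟨l, rfl⟩ | h
  · exact Or.inl ⟨l, (GEN_iter_neg D l β).symm⟩
  · right
    rw [D.r_neg, SLC.Root.neg_val, SLC.Root.neg_val, SLC.Root.neg_val, h, neg_add]

private theorem GEN_inO_w (i : Fin n) (β γ : C.Root) (h : D.inO β γ) :
    D.inO (C.wd (D.wl i) β) (C.wd (D.wl i) γ) := by
  rcases h with ⟨l, rfl⟩ | h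
  · exact Or.inl ⟨l, (GEN_comm_iter i l β).symm⟩
  · right
    rw [GEN_comm, C.W_add _ (C.wd_mem_W _) _ _ _ h]

/-- roots supported on an orbit of simple roots -/
private theorem GEN_inO_supp (j : Fin n) (β γ : C.Root) (hβ : C.Pos β) (hs : D.supp j β)
    (h : D.inO β γ) : D.inO (C.simple j) γ := by
  have hl : ∀ l : ℕ, C.Pos (D.r^[l] β) ∧ D.supp j (D.r^[l] β) := by
    intro l
    refine ⟨?_, ?_⟩
    · unfold SLC.Pos
      rw [GEN_ht_iter]
      exact hβ
    · intro k hk
      rw [D.r_iter] at hk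
      have h1 := hs _ hk
      have h2 : D.ρ.SameCycle ((D.ρ ^ l).symm k) ((D.ρ ^ l) ((D.ρ ^ l).symm k)) := GEN_same _ l
      rw [Equiv.apply_symm_apply] at h2
      exact h1.trans h2
  rcases h with ⟨l, rfl⟩ | h
  · exact supp_inO D j _ (hl l).1 (hl l).2
  · refine supp_inO D j _ ?_ ?_
    · have a1 := (hl 0).1
      have a2 := (hl 1).1
      rw [Function.iterate_zero_apply] at a1
      rw [Function.iterate_one] at a2
      unfold SLC.Pos at a1 a2 ⊢
      rw [h, ht_add]
      omega
    · intro k hk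
      rw [h, Pi.add_apply] at hk
      by_cases h2 : β.1 k = 0
      · refine (hl 1).2 k ?_
        rw [Function.iterate_one]
        intro h3
        exact hk (by rw [h2, h3, add_zero])
      · exact hs k h2

end descent

variable {n : ℕ} {C : SLC n} {D : Dg C} {k : Type*} [Field k] {θ : k ≃+* k} {H : Type*} [Group H]
  {S : StSys C k H} {s : H →* H} {p : H →* GL C.Idx k}

/-- The subgroup generated by the simple root groups. -/
private def GEN_G (D : Dg C) (S : StSys C k H) (s : H →* H) : Subgroup H :=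
  Subgroup.closure {g | ∃ i, g ∈ fixX D S s (C.simple i) ∨ g ∈ fixX D S s (-(C.simple i))}

private theorem GEN_G_pos (i : Fin n) : fixX D S s (C.simple i) ≤ GEN_G D S s :=
  fun _ hg => Subgroup.subset_closure ⟨i, Or.inl hg⟩

private theorem GEN_G_neg (i : Fin n) : fixX D S s (-(C.simple i)) ≤ GEN_G D S s :=
  fun _ hg => Subgroup.subset_closure ⟨i, Or.inr hg⟩

private theorem GEN_G_fix (g : H) (hg : g ∈ GEN_G D S s) : s g = g := by
  have h1 : GEN_G D S s ≤ MonoidHom.eqLocus s (MonoidHom.id H) := by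
    unfold GEN_G
    rw [Subgroup.closure_le]
    rintro x ⟨i, hx | hx⟩
    · exact hx.2
    · exact hx.2
  exact h1 hg

private theorem GEN_prod_mul (a b : ℕ → H) (k : ℕ)
    (h : ∀ l l', l < k → l' < k → l ≠ l' → Commute (a l) (b l')) :
    ((List.range k).map fun l => a l * b l).prod =
      ((List.range k).map a).prod * ((List.range k).map b).prod := by
  induction k with
  | zero => simp
  | succ k ih =>
    have ih' := ih (fun l l' hl hl' hne => h l l' (by omega) (by omega) hne)
    simp only [List.range_succ, List.map_append, List.map_cons, List.map_nil, List.prod_append,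
      List.prod_cons, List.prod_nil, mul_one] at ih' ⊢
    rw [ih']
    have hc : Commute (a k) ((List.range k).map b).prod := by
      apply Commute.list_prod_right
      intro y hy
      rw [List.mem_map] at hy
      obtain ⟨l, hl, rfl⟩ := hy
      rw [List.mem_range] at hl
      exact h k l (by omega) (by omega) (by omega)
    calc ((List.range k).map a).prod * ((List.range k).map b).prod * (a k * b k)
        = ((List.range k).map a).prod * (((List.range k).map b).prod * a k) * b k := by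
          simp only [mul_assoc]
      _ = ((List.range k).map a).prod * (a k * ((List.range k).map b).prod) * b k := by
          rw [hc.eq]
      _ = _ := by simp only [mul_assoc]

private theorem GEN_ip_lt (β : C.Root) (hβ : D.r β ≠ β) (ho : C.ip β.1 (D.r β).1 = 0) (l d : ℕ)
    (hd : 0 < d) (hl : l + d < D.m) : C.ip (D.r^[l] β).1 (D.r^[l + d] β).1 = 0 := by
  induction l with
  | zero =>
    rw [Nat.zero_add] at hl ⊢
    rw [Function.iterate_zero, id, D.ip_orb β hβ d hd hl, ho]
  | succ l ih =>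
    have : l + 1 + d = (l + d) + 1 := by omega
    rw [this, Function.iterate_succ', Function.iterate_succ', Function.comp, Function.comp, D.r_ip]
    exact ih (by omega)

private theorem GEN_ip (β : C.Root) (hβ : D.r β ≠ β) (ho : C.ip β.1 (D.r β).1 = 0) (l l' : ℕ)
    (hl : l < D.m) (hl' : l' < D.m) (hne : l ≠ l') :
    C.ip (D.r^[l] β).1 (D.r^[l'] β).1 = 0 := by
  rcases lt_or_gt_of_ne hne with h | h
  · obtain ⟨d, rfl⟩ := Nat.exists_eq_add_of_lt h
    exact GEN_ip_lt β hβ ho l (d + 1) (by omega) hl'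
  · obtain ⟨d, rfl⟩ := Nat.exists_eq_add_of_lt h
    rw [C.ip_comm]
    exact GEN_ip_lt β hβ ho l' (d + 1) (by omega) hl

private theorem GEN_sx_comm (h : IsSig D θ S s) (β : C.Root) (hβ : D.r β ≠ β)
    (ho : C.ip β.1 (D.r β).1 = 0) (γ δ : C.Root) (hγ : γ = β ∨ γ = -β) (hδ : δ = β ∨ δ = -β)
    (t u : k) (l l' : ℕ) (hl : l < D.m) (hl' : l' < D.m) (hne : l ≠ l') :
    Commute (s^[l] (S.x γ t)) (s^[l'] (S.x δ u)) := by
  rw [h.iter, h.iter]
  apply S.comm
  apply le_of_eq
  have h0 := GEN_ip β hβ ho l l' hl hl' hne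
  symm
  rcases hγ with rfl | rfl <;> rcases hδ with rfl | rfl <;>
    simp only [GEN_iter_neg, SLC.Root.neg_val, C.ip_neg_left, C.ip_neg_right, h0, neg_zero]

private theorem GEN_yb (he : Env D θ S s p) (β : C.Root) (hβ : D.r β ≠ β)
    (ho : C.ip β.1 (D.r β).1 = 0) (c : k) :
    ((List.range D.m).map fun l => s^[l] (S.x β c)).prod ∈ fixX D S s β := by
  refine ⟨?_, Eg_le_fix S s _ (prod_x_mem he.sig he.hθ β hβ ho c)⟩
  apply Subgroup.list_prod_mem
  intro y hy
  rw [List.mem_map] at hy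
  obtain ⟨l, -, rfl⟩ := hy
  rw [he.sig.iter]
  exact Subgroup.subset_closure ⟨_, _, Or.inl ⟨l, rfl⟩, rfl⟩

private theorem GEN_prod_nn (he : Env D θ S s p) (i : Fin n)
    (hβ : D.r (C.simple i) ≠ C.simple i) (ho : C.ip (C.simple i).1 (D.r (C.simple i)).1 = 0)
    (c : k) : ((List.range D.m).map fun l => s^[l] (nn S.x (C.simple i) c)).prod ∈
      GEN_G D S s := by
  have e : (fun l => s^[l] (nn S.x (C.simple i) c)) =
      fun l => (s^[l] (S.x (C.simple i) c) * s^[l] (S.x (-(C.simple i)) c⁻¹)) *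
        s^[l] (S.x (C.simple i) c) := by
    funext l
    unfold nn
    rw [iterate_map_mul, iterate_map_mul]
  rw [e, GEN_prod_mul (fun l => s^[l] (S.x (C.simple i) c) * s^[l] (S.x (-(C.simple i)) c⁻¹))
      (fun l => s^[l] (S.x (C.simple i) c)),
    GEN_prod_mul (fun l => s^[l] (S.x (C.simple i) c))
      (fun l => s^[l] (S.x (-(C.simple i)) c⁻¹))]
  · apply mul_mem (mul_mem _ _)
    · exact GEN_G_pos i (GEN_yb he _ hβ ho c)
    · exact GEN_G_pos i (GEN_yb he _ hβ ho c)
    · refine GEN_G_neg i (GEN_yb he _ ?_ ?_ c⁻¹)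
      · rw [D.r_neg]
        intro h1
        apply hβ
        have := congrArg (fun x : C.Root => -x) h1
        simpa [C.neg_neg_root] using this
      · rw [D.r_neg, SLC.Root.neg_val, SLC.Root.neg_val, C.ip_neg_neg, ho]
  · intro l l' hl hl' hne
    exact GEN_sx_comm he.sig _ hβ ho _ _ (Or.inl rfl) (Or.inr rfl) _ _ l l' hl hl' hne
  · intro l l' hl hl' hne
    exact (GEN_sx_comm he.sig _ hβ ho _ _ (Or.inl rfl) (Or.inl rfl) _ _ l l' hl hl' hne).mul_left
      (GEN_sx_comm he.sig _ hβ ho _ _ (Or.inr rfl) (Or.inl rfl) _ _ l l' hl hl' hne)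

private theorem GEN_cs (α β : C.Root) : C.cs α β = 1 ∨ C.cs α β = -1 := by
  unfold SLC.cs
  split_ifs
  · exact C.eps_eq_one_or _ _
  · exact Or.inl rfl

private theorem GEN_acts (S : StSys C k H) (α : C.Root) (t : k) (ht : t ≠ 0) :
    S.Acts (nn S.x α t) (C.reflE α) := by
  refine ⟨fun β => (C.cs α β : k) * t ^ (- C.ip α.1 β.1), fun β => ?_, fun β u => ?_⟩
  · apply mul_ne_zero
    · rcases GEN_cs (C := C) α β with h | h <;> simp [h]
    · exact zpow_ne_zero _ ht
  · rw [S.n_conj_all α β t u ht]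
    rfl

/-- `nn γ e` for a fixed root `γ` in the simple orbit of `i`, of sign `ε`, and `θ e = ε e`. -/
private theorem GEN_nn_G (he : Env D θ S s p) (i : Fin n) (γ : C.Root)
    (hO : D.inO (C.simple i) γ) (hr : D.r γ = γ) (e : k) (hs : (D.sg γ : k) * θ e = e) :
    nn S.x γ e ∈ GEN_G D S s := by
  have hs1 : s (S.x γ e) = S.x γ e := by rw [he.sig, hr, hs]
  have he' : (D.sg γ : k) * θ e⁻¹ = e⁻¹ := by
    rcases D.sg_eq γ with h1 | h1
    · rw [h1] at hs ⊢
      rw [Int.cast_one, one_mul] at hs ⊢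
      rw [map_inv₀, hs]
    · rw [h1] at hs ⊢
      rw [Int.cast_neg, Int.cast_one, neg_one_mul] at hs ⊢
      rw [map_inv₀, neg_inv, hs]
  have hs2 : s (S.x (-γ) e⁻¹) = S.x (-γ) e⁻¹ := by rw [he.sig, D.r_neg, D.sg_neg, hr, he']
  have h1 : S.x γ e ∈ GEN_G D S s :=
    GEN_G_pos i ⟨Subgroup.subset_closure ⟨γ, e, hO, rfl⟩, hs1⟩
  have h2 : S.x (-γ) e⁻¹ ∈ GEN_G D S s :=
    GEN_G_neg i ⟨Subgroup.subset_closure ⟨-γ, e⁻¹, GEN_inO_neg D _ _ hO, rfl⟩, hs2⟩
  exact Subgroup.mul_mem _ (Subgroup.mul_mem _ h1 h2) h1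

private theorem GEN_iter_nn (h : IsSig D θ S s) (i : Fin n) (l : ℕ) :
    s^[l] (nn S.x (C.simple i) 1) = nn S.x (C.simple ((D.ρ ^ l) i)) 1 := by
  induction l with
  | zero => rfl
  | succ l ih =>
    rw [Function.iterate_succ_apply', ih, h.map_nn, D.r_simple, D.sg_simple, map_one, Int.cast_one,
      mul_one, pow_succ', Equiv.Perm.mul_apply]

private theorem GEN_nJ (he : Env D θ S s p) (i : Fin n) :
    ∃ ν ∈ GEN_G D S s, S.Acts ν (C.wd (D.wl i)) := by
  by_cases h1 : C.A i (D.ρ i) = -1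
  · -- adjacent
    rcases he.hA with hA | ⟨e, he0, hθe⟩
    · exact absurd h1 (hA i)
    have hip : C.ip (C.simple i).1 (C.simple (D.ρ i)).1 = -1 := by
      rw [SLC.simple_val, SLC.simple_val, SLC.ip_single]
      exact h1
    obtain ⟨γ, hγ⟩ := C.exists_add _ _ hip
    have hne : D.r (C.simple i) ≠ C.simple i := by
      rw [D.r_simple]
      intro hc
      rw [hc, (C.simple i).2] at hip
      omega
    have hγ' : γ.1 = (C.simple i).1 + (D.r (C.simple i)).1 := by
      rw [D.r_simple]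
      exact hγ
    obtain ⟨hr, hsg⟩ := D.sg_adj (C.simple i) γ hne hγ'
    refine ⟨nn S.x γ e, GEN_nn_G he i γ (Or.inr hγ') hr e ?_, ?_⟩
    · rw [hsg, hθe]
      push_cast
      ring
    · rw [D.wJ_adj i h1 γ hγ]
      exact GEN_acts S γ e he0
  · by_cases h2 : D.ρ i = i
    · have hw : D.wl i = [i] := by
        unfold Dg.wl
        rw [if_neg h1, if_pos h2]
      refine ⟨nn S.x (C.simple i) 1, GEN_nn_G he i (C.simple i) (Or.inl ⟨0, rfl⟩) ?_ 1 ?_, ?_⟩
      · rw [D.r_simple, h2]
      · rw [D.sg_simple, map_one]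
        simp
      · rw [hw]
        have : C.wd [i] = C.reflE (C.simple i) := by
          unfold SLC.wd
          simp
        rw [this]
        exact GEN_acts S _ _ one_ne_zero
    · have hw : D.wl i = (List.range D.m).map fun l => (D.ρ ^ l) i := by
        unfold Dg.wl
        rw [if_neg h1, if_neg h2]
      have hne : D.r (C.simple i) ≠ C.simple i := by
        rw [D.r_simple]
        exact fun hc => h2 (C.simple_injective hc)
      have ho : C.ip (C.simple i).1 (D.r (C.simple i)).1 = 0 := by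
        rw [D.r_simple, SLC.simple_val, SLC.simple_val, SLC.ip_single]
        exact (C.off i (D.ρ i) (fun hc => h2 hc.symm)).resolve_right h1
      have hprod := GEN_prod_nn he i hne ho 1
      have heq : ((List.range D.m).map fun l => s^[l] (nn S.x (C.simple i) 1)).prod =
          S.nword (D.wl i) := by
        rw [hw]
        unfold StSys.nword
        rw [List.map_map]
        congr 1
        apply List.map_congr_left
        intro l _
        exact GEN_iter_nn he.sig i l
      rw [heq] at hprod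
      exact ⟨S.nword (D.wl i), hprod, S.nword_acts _⟩

private theorem GEN_XO_mono (β β' : C.Root) (hO : ∀ γ, D.inO β γ → D.inO β' γ) :
    fixX D S s β ≤ fixX D S s β' := by
  unfold fixX
  refine inf_le_inf_right _ ?_
  unfold XO
  apply Subgroup.closure_mono
  rintro g ⟨γ, t, hγ, rfl⟩
  exact ⟨γ, t, hO γ hγ, rfl⟩

private theorem GEN_conj (ν : H) (w : Equiv.Perm C.Root) (ha : S.Acts ν w) (hν : s ν = ν)
    (β β' : C.Root) (hO : ∀ γ, D.inO β γ → D.inO β' (w γ)) (x : H) (hx : x ∈ fixX D S s β) :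
    ν * x * ν⁻¹ ∈ fixX D S s β' := by
  obtain ⟨hx1, hx2⟩ := hx
  refine ⟨?_, ?_⟩
  · obtain ⟨c, hc, hact⟩ := ha
    clear hx2
    unfold XO at hx1
    induction hx1 using Subgroup.closure_induction with
    | mem g hg =>
      obtain ⟨γ, t, hγ, rfl⟩ := hg
      rw [hact]
      exact Subgroup.subset_closure ⟨_, _, hO γ hγ, rfl⟩
    | one =>
      rw [mul_one, mul_inv_cancel]
      exact Subgroup.one_mem _
    | mul a b _ _ ha hb =>
      have : ν * (a * b) * ν⁻¹ = (ν * a * ν⁻¹) * (ν * b * ν⁻¹) := by group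
      rw [this]
      exact Subgroup.mul_mem _ ha hb
    | inv a _ ha =>
      have : ν * a⁻¹ * ν⁻¹ = (ν * a * ν⁻¹)⁻¹ := by group
      rw [this]
      exact Subgroup.inv_mem _ ha
  · change s (ν * x * ν⁻¹) = ν * x * ν⁻¹
    have hx3 : s x = x := hx2
    rw [map_mul, map_mul, map_inv, hν, hx3]

private theorem GEN_step (he : Env D θ S s p) (i : Fin n) (β : C.Root)
    (h : fixX D S s (C.wd (D.wl i) β) ≤ GEN_G D S s) : fixX D S s β ≤ GEN_G D S s := by
  obtain ⟨ν, hν, hact⟩ := GEN_nJ he i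
  intro x hx
  have h1 := h (GEN_conj ν _ hact (GEN_G_fix ν hν) β _ (fun γ hγ => GEN_inO_w i β γ hγ) x hx)
  have h2 : x = ν⁻¹ * (ν * x * ν⁻¹) * ν := by group
  rw [h2]
  exact Subgroup.mul_mem _ (Subgroup.mul_mem _ (Subgroup.inv_mem _ hν) h1) hν

private theorem GEN_all (he : Env D θ S s p) (β : C.Root) : fixX D S s β ≤ GEN_G D S s := by
  have hpos : ∀ N : ℕ, ∀ β : C.Root, C.Pos β → ht β.1 ≤ N →
      fixX D S s β ≤ GEN_G D S s ∧ fixX D S s (-β) ≤ GEN_G D S s := by
    intro N
    induction N with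
    | zero =>
      intro β hβ hN0
      unfold SLC.Pos at hβ
      exact absurd hβ (by push_cast at hN0; omega)
    | succ N ih =>
      intro β hβ hN1
      obtain ⟨j, hj⟩ := GEN_exists (D := D) β hβ
      by_cases hs : D.supp j β
      · refine ⟨(GEN_XO_mono β _ fun γ hγ => GEN_inO_supp j β γ hβ hs hγ).trans (GEN_G_pos j),
          (GEN_XO_mono (-β) _ fun γ hγ => ?_).trans (GEN_G_neg j)⟩
        have h1 := GEN_inO_neg D _ _ hγ
        rw [C.neg_neg_root] at h1
        have h2 := GEN_inO_neg D _ _ (GEN_inO_supp j β _ hβ hs h1)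
        rwa [C.neg_neg_root] at h2
      · have h1 := GEN_ht_lt β j hj
        have h2 := ih _ (D.wJ_pos j β hβ hs) (by push_cast at hN1; omega)
        refine ⟨GEN_step he j β h2.1, GEN_step he j (-β) ?_⟩
        rw [GEN_wd_neg]
        exact h2.2
  by_cases hβ : C.Pos β
  · exact (hpos (ht β.1).toNat β hβ (Int.self_le_toNat _)).1
  · have h1 := (hpos (ht (-β).1).toNat (-β) ((C.not_pos_iff β).1 hβ) (Int.self_le_toNat _)).2
    rwa [C.neg_neg_root] at h1

theorem Eg_gen (he : Env D θ S s p) :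
    Eg S s = Subgroup.closure {g | ∃ i, g ∈ fixX D S s (C.simple i) ∨
      g ∈ fixX D S s (-(C.simple i))} := by
  have hI := inj_of_map S p he.hp
  change Eg S s = GEN_G D S s
  apply le_antisymm
  · unfold Eg
    rw [fixU_eq hI.1 he.sig he.hθ he.hB, fixUm_eq hI.2 he.sig he.hθ he.hB]
    refine sup_le ?_ ?_
    · rw [Subgroup.closure_le]
      rintro g ⟨β, -, hg⟩
      exact GEN_all he β hg
    · rw [Subgroup.closure_le]
      rintro g ⟨β, -, hg⟩
      exact GEN_all he β hg
  · unfold GEN_G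
    rw [Subgroup.closure_le]
    rintro g ⟨i, hg | hg⟩
    · exact Subgroup.mem_sup_left (fixX_le_fixU S s _ (C.simple_pos i) hg)
    · refine Subgroup.mem_sup_right ?_
      rw [fixUm_eq hI.2 he.sig he.hθ he.hB]
      refine Subgroup.subset_closure ⟨_, ?_, hg⟩
      rw [C.not_pos_iff, C.neg_neg_root]
      exact C.simple_pos i

theorem Eg_gen_ext (he : Env D θ S s p) {G : Type*} [Group G] (f g : Eg S s →* G)
    (h : ∀ (i : Fin n) (x : Eg S s), (x : H) ∈ fixX D S s (C.simple i) ∨
      (x : H) ∈ fixX D S s (-(C.simple i)) → f x = g x) : f = g := by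
  have h1 : Eg S s ≤ (MonoidHom.eqLocus f g).map (Eg S s).subtype := by
    conv_lhs => rw [Eg_gen he]
    rw [Subgroup.closure_le]
    rintro x ⟨i, hx⟩
    have hxE : x ∈ Eg S s := by
      rw [Eg_gen he]
      exact Subgroup.subset_closure ⟨i, hx⟩
    exact ⟨⟨x, hxE⟩, h i ⟨x, hxE⟩ hx, rfl⟩
  ext x
  obtain ⟨y, hy, hyx⟩ := h1 x.2
  have h2 : y = x := Subtype.ext hyx
  rw [← h2]
  exact hy

end Pool.Agent.H86.UM
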