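import Pool.Agent.H86.UM.FC2
import Pool.Agent.H86.UM.GEN

/-!
# Project UM, module FC3: field compatibility (assembly)

For each `i` with `A i (ρ i) ≠ -1` fix `(c_i, φ_i)` with `RO` (`exists_RO`), for the others `(c_i, φ_i)` with
`RA` (`exists_RA`).
Case 1: all `ρ i = i`. Then `m = 1` (`ρ = 1`), `θ = 1`, `θ' = 1` (`he.hθ`, `hP.hθ` with `m = 1`), `fixF θ` is
everything; `φ` := `φ_(i₀)` for any `i₀` (`n > 0`), all `φ_i` are equal to `φ` on `k` by `sp_fx` and `C.conn`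
(the set of `i` with `φ_i = φ` is closed under neighbours).
Case 2: some `i₀` is not fixed; choose `i₀` not fixed, and if there is an adjacent orbit choose `i₀` in it. `φ` :=
`φ_(i₀) : k → K` (`kO = ⊤`, `mem_kO`).
(a) Relation between `φ θ` and `θ' φ`. If `i₀` is in an adjacent orbit: `exists_RA`. Otherwise by `exists_adj`
there is a fixed node, and there is no adjacent orbit. Let `A` be the set of nonfixed `i` with
`φ_i = φ` or ... it is convenient to prove first: for all nonfixed `i`: either for all `t`, `φ_i (θ t) = θ' (φ_i t)`,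
or `m = 3` and for all `t`, `φ_i (θ t) = θ' (θ' (φ_i t))`, and it is the same alternative for neighbours with
`φ_i = φ_j`. By `C.conn` for the set of fixed nodes there are a fixed `j` and a nonfixed `i` with `A i j ≠ 0`;
`sp_norm` gives `φ_j (N t) = N' (φ_i t)`, `sp_fx` gives `φ_i = φ_j` on the fixed field, so
`φ_i (N t) = N' (φ_i t)`: `m = 2`: `φ_i (θ t) = θ' (φ_i t)`; `m = 3`: `cubic_sign`.
(b) If `φ_i (θ t) = θ' (φ_i t)` then `φ_(ρ i) = φ_i` by `RO_rho`; so with `sp_nn` the set of the nonfixed `i`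
with `φ_i = φ` is `ρ`-stable and closed under nonfixed neighbours, so by `nonfixed_conn` it contains all nonfixed
`i` (start from the `i` found in (a); take `φ` := `φ_i`). With an adjacent orbit: `sp_adj`, `adj_nbr`; there are
no other adjacent orbits by the same argument with `RA` (if `j` is in another adjacent orbit and a
neighbour `i` of it has `φ_i = φ`, `sp_adj` gives `φ_j = φ`). Then all fixed `j` have `φ_j = φ` on the
fixed field: `C.conn` and `sp_fx` (both directions), `sp_fx` applied with the roles: `i` fixed, `j` any.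
(c) `cc`: `cc i = c_i`; we need `cc (ρ j) = θ' (cc j)`: `RO_rho` for non-adjacent orbits; `RO.c_fix` for
fixed ones; for the adjacent orbit `xi (ρ i) (Ψ x) = θ' (xi i (Ψ x))` and `φ θ = θ' φ` give
`c_(ρ i) = θ' c_i`. (d) `RO_eq`, `adj_eq`, `Eg_gen_ext` (`f = Ψ`, `g = conj ∘ mp φ ∘ p`).
In the second alternative of (a) (`m = 3`), if no nonfixed `i` has `φ_i θ = θ' φ_i`, all nonfixed `i` satisfy
`φ_i θ = θ' θ' φ_i` (`FC3_spread`), which is the second conclusion of the theorem (`RO_RA`); it excludes the first one.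
-/

set_option autoImplicit false
open Matrix

namespace Pool.Agent.H86.UM

open Pool.Agent.H75.UL

variable {n : ℕ} {C : SLC n} {D : Dg C} {k : Type*} [Field k] {θ : k ≃+* k} {H : Type*} [Group H]
  {S : StSys C k H} {s : H →* H} {p : H →* GL C.Idx k}

/-- an element of a simple root group with given coordinate -/
private theorem FC3_ex (he : Env D θ S s p) (i : Fin n) (t : k) (ht : D.ρ i = i → θ t = t) :
    ∃ x : Eg S s, (x : H) ∈ fixX D S s (C.simple i) ∧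
      C.xi i (p x : Matrix C.Idx C.Idx k) = t := by
  obtain ⟨x, hx, hxt⟩ := fixX_xi_exists he i t ht
  have h1 : x ∈ Eg S s := (le_sup_left : fixU S s ≤ Eg S s)
    (fixX_le_fixU S s (C.simple i) (C.simple_pos i) hx)
  exact ⟨⟨x, h1⟩, hx, hxt⟩

private theorem FC3_uniq (he : Env D θ S s p) {K : Type*} [Field K]
    (Ψ : Eg S s →* GL C.Idx K) (i : Fin n) (hi : D.ρ i ≠ i) (c c' : K) (φ φ' : k →+* K)
    (h : RA he Ψ i c φ) (h' : RA he Ψ i c' φ') : c = c' ∧ φ = φ' := by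
  have hc : c = c' := by
    obtain ⟨x, hx, hx1⟩ := FC3_ex he i 1 (fun h => absurd h hi)
    have h1 := h.coord x hx
    have h2 := h'.coord x hx
    rw [hx1, map_one, mul_one] at h1 h2
    exact h1.symm.trans h2
  refine ⟨hc, ?_⟩
  subst hc
  ext t
  obtain ⟨x, hx, hx1⟩ := FC3_ex he i t (fun h => absurd h hi)
  have h1 := h.coord x hx
  have h2 := h'.coord x hx
  rw [hx1] at h1 h2
  exact mul_left_cancel₀ h.c_ne (h1.symm.trans h2)

private theorem FC3_rho (he : Env D θ S s p) {K : Type*} [Field K] (θ' : K ≃+* K)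
    (Ψ : Eg S s →* GL C.Idx K) (hP : Pin he θ' Ψ) (i : Fin n) (c : K) (φ φ' : k →+* K)
    (hφ : ∀ t, φ' (θ t) = θ' (φ t)) (h : RA he Ψ i c φ) : RA he Ψ (D.ρ i) (θ' c) φ' := by
  refine ⟨by simpa using h.c_ne, fun x hx => ?_⟩
  have hcyc : D.ρ.SameCycle i (D.ρ i) := ⟨1, by simp⟩
  rw [← (fixX_simple_congr (D := D) S s i (D.ρ i) hcyc).1] at hx
  have h1 := h.coord x hx
  have h2 := (fixX_xi he i x hx).1 1
  rw [pow_one, Function.iterate_one] at h2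
  have h3 := xi_sgl D θ' (Ψ x) i
  rw [hP.fix x] at h3
  rw [h3, h1, map_mul, h2, hφ]

/-- the data of a nonfixed orbit which is not adjacent -/
private theorem FC3_ext (he : Env D θ S s p) {K : Type*} [Field K] (θ' : K ≃+* K)
    (Ψ : Eg S s →* GL C.Idx K) (hP : Pin he θ' Ψ) (i : Fin n) (hi : C.A i (D.ρ i) ≠ -1)
    (hi' : D.ρ i ≠ i) :
    ∃ (c : K) (φ : k →+* K) (φ₁ : kO D θ i →+* K), RO he θ' Ψ i c φ₁ ∧
      (∀ t : kO D θ i, φ t = φ₁ t) ∧ RA he Ψ i c φ := by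
  obtain ⟨c, φ₁, hR⟩ := exists_RO he θ' Ψ hP i hi
  have h0 : ∀ t : kO D θ i,
      (φ₁.comp ((RingHom.id k).codRestrict (kO D θ i)
        (fun t => (mem_kO D θ i t).2 (fun h => absurd h hi')))) (t : k) = φ₁ t := fun t => rfl
  exact ⟨c, _, φ₁, hR, h0, RO_RA he θ' Ψ hP i hi c φ₁ hR _ h0⟩

/-- from a nonfixed node to a nonfixed neighbour -/
private theorem FC3_step (he : Env D θ S s p) {K : Type*} [Field K] (θ' : K ≃+* K)
    (Ψ : Eg S s →* GL C.Idx K) (hP : Pin he θ' Ψ) (i j : Fin n) (hi' : D.ρ i ≠ i)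
    (hj' : D.ρ j ≠ j) (hij : ¬ D.ρ.SameCycle i j) (hA : C.A i j ≠ 0) (c : K) (φ : k →+* K)
    (h : RA he Ψ i c φ) : ∃ c', RA he Ψ j c' φ := by
  by_cases hi : C.A i (D.ρ i) = -1
  · have hj : C.A j (D.ρ j) ≠ -1 := (adj_nbr D i j hi hij hA).2.1
    obtain ⟨c', φ', φ₁, hR, h0, hRA⟩ := FC3_ext he θ' Ψ hP j hj hj'
    have e : φ' = φ := by
      ext t
      have ht : t ∈ kO D θ j := (mem_kO D θ j t).2 (fun h => absurd h hj')
      have h1 := sp_adj he θ' Ψ hP j i hj hi (fun h => hij h.symm) (by rwa [C.symm]) hj' c' φ₁ hR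
        c φ h ⟨t, ht⟩
      exact (h0 ⟨t, ht⟩).trans h1.symm
    rw [e] at hRA
    exact ⟨c', hRA⟩
  · obtain ⟨c₁, φ₂, φ₁, hR, h0, hRA⟩ := FC3_ext he θ' Ψ hP i hi hi'
    obtain ⟨-, e1⟩ := FC3_uniq he Ψ i hi' _ _ _ _ h hRA
    by_cases hj : C.A j (D.ρ j) = -1
    · obtain ⟨c', φ', hR', -⟩ := exists_RA he θ' Ψ hP j hj
      have e : φ' = φ := by
        ext t
        have ht : t ∈ kO D θ i := (mem_kO D θ i t).2 (fun h => absurd h hi')
        have h1 := sp_adj he θ' Ψ hP i j hi hj hij hA hi' c₁ φ₁ hR c' φ' hR' ⟨t, ht⟩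
        rw [e1]
        exact h1.trans (h0 ⟨t, ht⟩).symm
      rw [e] at hR'
      exact ⟨c', hR'⟩
    · obtain ⟨c', φ', φ₃, hR', h0', hRA'⟩ := FC3_ext he θ' Ψ hP j hj hj'
      have e : φ' = φ := by
        ext t
        have ht : t ∈ kO D θ i := (mem_kO D θ i t).2 (fun h => absurd h hi')
        have ht' : t ∈ kO D θ j := (mem_kO D θ j t).2 (fun h => absurd h hj')
        have h1 := sp_nn he θ' Ψ hP i j hi hj hij hA hi' hj' c₁ φ₁ hR c' φ₃ hR' ⟨t, ht⟩ ⟨t, ht'⟩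
          rfl
        rw [e1]
        exact ((h0' ⟨t, ht'⟩).trans h1).trans (h0 ⟨t, ht⟩).symm
      rw [e] at hRA'
      exact ⟨c', hRA'⟩

private theorem FC3_cyc (D : Dg C) (A : Finset (Fin n)) (hAr : ∀ i ∈ A, D.ρ i ∈ A) (i j : Fin n)
    (hi : i ∈ A) (hj : j ∉ A) : ¬ D.ρ.SameCycle i j := by
  intro h
  obtain ⟨l, hl⟩ := h.exists_nat_pow_eq
  apply hj
  rw [← hl]
  clear hl
  induction l with
  | zero => simpa using hi
  | succ l ih =>
    rw [pow_succ', Equiv.Perm.mul_apply]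
    exact hAr _ ih

/-- spreading a property of the nonfixed nodes -/
private theorem FC3_spread (D : Dg C) (P : Fin n → Prop) (hr : ∀ i, D.ρ i ≠ i → P i → P (D.ρ i))
    (hs : ∀ i j, D.ρ i ≠ i → D.ρ j ≠ j → ¬ D.ρ.SameCycle i j → C.A i j ≠ 0 → P i → P j)
    (i₁ : Fin n) (h1 : D.ρ i₁ ≠ i₁) (hP : P i₁) : ∀ i, D.ρ i ≠ i → P i := by
  classical
  by_contra hcon
  push Not at hcon
  obtain ⟨j, hj, hjP⟩ := hcon
  have memA : ∀ i, i ∈ Finset.univ.filter (fun i => D.ρ i ≠ i ∧ P i) ↔ (D.ρ i ≠ i ∧ P i) := by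
    intro i
    simp
  have hAr : ∀ i ∈ Finset.univ.filter (fun i => D.ρ i ≠ i ∧ P i),
      D.ρ i ∈ Finset.univ.filter (fun i => D.ρ i ≠ i ∧ P i) := by
    intro i hi
    rw [memA] at hi ⊢
    exact ⟨fun h => hi.1 (D.ρ.injective h), hr i hi.1 hi.2⟩
  obtain ⟨i, hiA, j', hj'A, hj', hA⟩ := nonfixed_conn D
    (Finset.univ.filter (fun i => D.ρ i ≠ i ∧ P i)) (fun i hi => ((memA i).1 hi).1) hAr
    ⟨i₁, (memA i₁).2 ⟨h1, hP⟩⟩ j hj (fun h => hjP ((memA j).1 h).2)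
  have hcyc := FC3_cyc D _ hAr i j' hiA hj'A
  apply hj'A
  rw [memA] at hiA ⊢
  exact ⟨hj', hs i j' hiA.1 hj' hcyc hA hiA.2⟩

private theorem FC3_nonfixed (he : Env D θ S s p) {K : Type*} [Field K] (θ' : K ≃+* K)
    (Ψ : Eg S s →* GL C.Idx K) (hP : Pin he θ' Ψ) (φ : k →+* K)
    (hφ : ∀ t, φ (θ t) = θ' (φ t)) (i₁ : Fin n) (h1 : D.ρ i₁ ≠ i₁) (c₁ : K)
    (hc₁ : RA he Ψ i₁ c₁ φ) : ∀ i, D.ρ i ≠ i → ∃ c, RA he Ψ i c φ := by
  refine FC3_spread D (fun i => ∃ c, RA he Ψ i c φ) ?_ ?_ i₁ h1 ⟨c₁, hc₁⟩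
  · rintro i hi ⟨c, hc⟩
    exact ⟨θ' c, FC3_rho he θ' Ψ hP i c φ φ hφ hc⟩
  · rintro i j hi hj hij hA ⟨c, hc⟩
    exact FC3_step he θ' Ψ hP i j hi hj hij hA c φ hc

private theorem FC3_diag (D : Dg C) (j : Fin n) (hj : D.ρ j = j) : C.A j (D.ρ j) ≠ -1 := by
  rw [hj, C.diag]
  norm_num

private theorem FC3_fixed (he : Env D θ S s p) {K : Type*} [Field K] (θ' : K ≃+* K)
    (Ψ : Eg S s →* GL C.Idx K) (hP : Pin he θ' Ψ) (φ : k →+* K)
    (hnf : ∀ i, D.ρ i ≠ i → ∃ c, RA he Ψ i c φ)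
    (i₁ : Fin n) (h1 : D.ρ i₁ = i₁ → ∃ (c : K) (φ₁ : kO D θ i₁ →+* K),
      RO he θ' Ψ i₁ c φ₁ ∧ ∀ t : kO D θ i₁, φ t = φ₁ t) :
    ∀ i, D.ρ i = i → ∃ (c : K) (φ₁ : kO D θ i →+* K),
      RO he θ' Ψ i c φ₁ ∧ ∀ t : kO D θ i, φ t = φ₁ t := by
  classical
  by_contra hcon
  push Not at hcon
  obtain ⟨j₀, hj₀, hj₀P⟩ := hcon
  have memA : ∀ i, i ∈ Finset.univ.filter (fun i => D.ρ i = i → ∃ (c : K) (φ₁ : kO D θ i →+* K),
      RO he θ' Ψ i c φ₁ ∧ ∀ t : kO D θ i, φ t = φ₁ t) ↔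
      (D.ρ i = i → ∃ (c : K) (φ₁ : kO D θ i →+* K),
      RO he θ' Ψ i c φ₁ ∧ ∀ t : kO D θ i, φ t = φ₁ t) := by
    intro i
    simp
  obtain ⟨i, hi, j, hj, hA⟩ := C.conn (Finset.univ.filter (fun i => D.ρ i = i →
    ∃ (c : K) (φ₁ : kO D θ i →+* K), RO he θ' Ψ i c φ₁ ∧ ∀ t : kO D θ i, φ t = φ₁ t))
    ⟨i₁, (memA i₁).2 h1⟩ (by
      intro h
      have h2 : j₀ ∈ Finset.univ.filter (fun i => D.ρ i = i → ∃ (c : K) (φ₁ : kO D θ i →+* K),
        RO he θ' Ψ i c φ₁ ∧ ∀ t : kO D θ i, φ t = φ₁ t) := by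
        rw [h]
        exact Finset.mem_univ _
      rw [memA] at h2
      obtain ⟨c, φ₁, hR, h3⟩ := h2 hj₀
      obtain ⟨t, ht⟩ := hj₀P c φ₁ hR
      exact ht (h3 t))
  apply hj
  have hne : i ≠ j := by
    rintro rfl
    exact hj hi
  rw [memA] at hi ⊢
  intro hjf
  obtain ⟨c, φj, hR⟩ := exists_RO he θ' Ψ hP j (FC3_diag D j hjf)
  refine ⟨c, φj, hR, ?_⟩
  by_cases hif : D.ρ i = i
  · obtain ⟨c', φi, hR', h3⟩ := hi hif
    intro t
    have ht : (t : k) ∈ kO D θ i := (mem_kO D θ i t).2 (fun _ => (mem_kO D θ j t).1 t.2 hjf)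
    have h4 := sp_fx he θ' Ψ hP i j (FC3_diag D j hjf) hne hA hif c' φi hR' c φj hR ⟨t, ht⟩ t rfl
    exact (h3 ⟨t, ht⟩).trans h4.symm
  · by_cases hiA : C.A i (D.ρ i) = -1
    · exfalso
      have hcyc : ¬ D.ρ.SameCycle i j := by
        intro h
        obtain ⟨l, hl⟩ := h.symm.exists_nat_pow_eq
        apply hne
        rw [← hl]
        clear hl
        induction l with
        | zero => simp
        | succ l ih => rw [pow_succ, Equiv.Perm.mul_apply, hjf, ih]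
      exact (adj_nbr D i j hiA hcyc hA).1 hjf
    · obtain ⟨c₁, φ₂, φ₁, hR₁, h0, hRA⟩ := FC3_ext he θ' Ψ hP i hiA hif
      obtain ⟨c₂, hc₂⟩ := hnf i hif
      obtain ⟨-, e⟩ := FC3_uniq he Ψ i hif _ _ _ _ hc₂ hRA
      intro t
      have ht : (t : k) ∈ kO D θ i := (mem_kO D θ i t).2 (fun h => absurd h hif)
      have h4 := sp_fx he θ' Ψ hP j i hiA hne.symm (by rwa [C.symm]) hjf c φj hR c₁ φ₁ hR₁ t
        ⟨t, ht⟩ rfl
      rw [e]
      exact (h0 ⟨t, ht⟩).trans h4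

/-- the conclusion from a field homomorphism which fits everywhere -/
private theorem FC3_final (he : Env D θ S s p) {K : Type*} [Field K] (θ' : K ≃+* K)
    (Ψ : Eg S s →* GL C.Idx K) (hP : Pin he θ' Ψ) (φ : k →+* K)
    (hφ : ∀ t, φ (θ t) = θ' (φ t)) (hnf : ∀ i, D.ρ i ≠ i → ∃ c, RA he Ψ i c φ)
    (hf : ∀ i, D.ρ i = i → ∃ (c : K) (φ₁ : kO D θ i →+* K),
      RO he θ' Ψ i c φ₁ ∧ ∀ t : kO D θ i, φ t = φ₁ t) :
    ∃ (φ : k →+* K) (cc : Fin n → Kˣ), (∀ t, φ (θ t) = θ' (φ t)) ∧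
      (∀ j, (cc (D.ρ j) : K) = θ' (cc j)) ∧
      ∀ x, Ψ x = tad C cc * C.mp φ (p x) * (tad C cc)⁻¹ := by
  have h0 : ∀ i, ∃ c : Kˣ, (D.ρ i ≠ i → RA he Ψ i c φ) ∧
      (D.ρ i = i → ∃ (φ₁ : kO D θ i →+* K),
        RO he θ' Ψ i c φ₁ ∧ ∀ t : kO D θ i, φ t = φ₁ t) := by
    intro i
    by_cases hi : D.ρ i = i
    · obtain ⟨c, φ₁, hR, h1⟩ := hf i hi
      exact ⟨Units.mk0 c hR.c_ne, fun h => absurd hi h, fun _ => ⟨φ₁, hR, h1⟩⟩
    · obtain ⟨c, hR⟩ := hnf i hi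
      exact ⟨Units.mk0 c hR.c_ne, fun _ => hR, fun h => absurd h hi⟩
  choose cc hcn hcf using h0
  have hcc : ∀ j, (cc (D.ρ j) : K) = θ' (cc j) := by
    intro j
    by_cases hj : D.ρ j = j
    · obtain ⟨φ₁, hR, -⟩ := hcf j hj
      rw [hj]
      exact (hR.c_fix hj).symm
    · have hj2 : D.ρ (D.ρ j) ≠ D.ρ j := fun h => hj (D.ρ.injective h)
      exact (FC3_uniq he Ψ (D.ρ j) hj2 _ _ _ _ (hcn _ hj2)
        (FC3_rho he θ' Ψ hP j (cc j) φ φ hφ (hcn j hj))).1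
  refine ⟨φ, cc, hφ, hcc, ?_⟩
  have hfg : Ψ = ((MulAut.conj (tad C cc)).toMonoidHom.comp
      ((C.mp φ).comp (p.comp (Eg S s).subtype))) := by
    refine Eg_gen_ext he _ _ fun i x hx => ?_
    change Ψ x = tad C cc * C.mp φ (p x) * (tad C cc)⁻¹
    by_cases hi : C.A i (D.ρ i) = -1
    · have hi' : D.ρ i ≠ i := fun h => FC3_diag D i h hi
      exact adj_eq he θ' Ψ hP i hi (cc i) φ (hcn i hi') hφ cc rfl (hcc i) x hx
    · by_cases hi' : D.ρ i = i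
      · obtain ⟨φ₁, hR, h1⟩ := hcf i hi'
        exact RO_eq he θ' Ψ hP i hi (cc i) φ₁ hR φ h1 hφ cc rfl hcc x hx
      · obtain ⟨c₁, φ₂, φ₁, hR₁, h0, hRA⟩ := FC3_ext he θ' Ψ hP i hi hi'
        obtain ⟨e1, e2⟩ := FC3_uniq he Ψ i hi' _ _ _ _ (hcn i hi') hRA
        rw [← e2] at h0
        exact RO_eq he θ' Ψ hP i hi c₁ φ₁ hR₁ φ h0 hφ cc e1 hcc x hx
  intro x
  exact DFunLike.congr_fun hfg x

private theorem FC3_done (he : Env D θ S s p) {K : Type*} [Field K] (θ' : K ≃+* K)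
    (Ψ : Eg S s →* GL C.Idx K) (hP : Pin he θ' Ψ) (φ : k →+* K)
    (hφ : ∀ t, φ (θ t) = θ' (φ t)) (i₁ : Fin n) (h1 : D.ρ i₁ ≠ i₁) (c₁ : K)
    (hc₁ : RA he Ψ i₁ c₁ φ) :
    ∃ (φ : k →+* K) (cc : Fin n → Kˣ), (∀ t, φ (θ t) = θ' (φ t)) ∧
      (∀ j, (cc (D.ρ j) : K) = θ' (cc j)) ∧
      ∀ x, Ψ x = tad C cc * C.mp φ (p x) * (tad C cc)⁻¹ := by
  have hnf := FC3_nonfixed he θ' Ψ hP φ hφ i₁ h1 c₁ hc₁
  exact FC3_final he θ' Ψ hP φ hφ hnf
    (FC3_fixed he θ' Ψ hP φ hnf i₁ (fun h => absurd h h1))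

private theorem FC3_m1 (D : Dg C) (h : D.m = 1) (i : Fin n) : D.ρ i = i := by
  unfold Dg.m at h
  rw [orderOf_eq_one_iff] at h
  rw [h]
  rfl

/-- the relation between `φ θ` and `θ' φ` at a neighbour of a fixed node -/
private theorem FC3_norm (he : Env D θ S s p) {K : Type*} [Field K] (θ' : K ≃+* K)
    (Ψ : Eg S s →* GL C.Idx K) (hP : Pin he θ' Ψ) (i j : Fin n) (hi : C.A i (D.ρ i) ≠ -1)
    (hi' : D.ρ i ≠ i) (hj' : D.ρ j = j) (hA : C.A i j ≠ 0) :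
    ∃ (c : K) (φ : k →+* K), RA he Ψ i c φ ∧ ((∀ t, φ (θ t) = θ' (φ t)) ∨
      (D.m = 3 ∧ ∀ t, φ (θ t) = θ' (θ' (φ t)))) := by
  obtain ⟨c, φ, φ₁, hR, h0, hRA⟩ := FC3_ext he θ' Ψ hP i hi hi'
  refine ⟨c, φ, hRA, ?_⟩
  have hjA := FC3_diag D j hj'
  obtain ⟨c', φ', hR'⟩ := exists_RO he θ' Ψ hP j hjA
  have hne : j ≠ i := by
    rintro rfl
    exact hi' hj'
  have hmem : ∀ t, t ∈ kO D θ i := fun t => (mem_kO D θ i t).2 (fun h => absurd h hi')
  have key : ∀ t P : k, θ P = P → P = ∏ l ∈ Finset.range D.m, (⇑θ)^[l] t →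
      φ P = ∏ l ∈ Finset.range D.m, (⇑θ')^[l] (φ t) := by
    intro t P hP1 hP2
    have hPm : P ∈ kO D θ j := (mem_kO D θ j P).2 (fun _ => hP1)
    have h1 := sp_norm he θ' Ψ hP i j hi hA hi' hj' c φ₁ hR c' φ' hR' ⟨t, hmem t⟩ ⟨P, hPm⟩ hP2
    have h2 := sp_fx he θ' Ψ hP j i hi hne (by rwa [C.symm]) hj' c' φ' hR' c φ₁ hR ⟨P, hPm⟩
      ⟨P, hmem P⟩ rfl
    have h3 := h0 ⟨P, hmem P⟩
    have h4 := h0 ⟨t, hmem t⟩
    simp only at h3 h4
    rw [h3, h2, h1, h4]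
  rcases D.m_cases with hm | hm | hm
  · exact absurd (FC3_m1 D hm i) hi'
  · left
    intro t
    by_cases ht : t = 0
    · subst ht
      simp
    have hθ := he.hθ t
    have h1 := key t (t * θ t) (by
      rw [hm] at hθ
      simp only [Function.iterate_succ, Function.iterate_zero, Function.comp, id] at hθ
      rw [map_mul, hθ, mul_comm]) (by
      rw [hm, Finset.prod_range_succ, Finset.prod_range_one]
      simp)
    rw [hm, Finset.prod_range_succ, Finset.prod_range_one, map_mul] at h1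
    simp only [Function.iterate_succ, Function.iterate_zero, Function.comp, id] at h1
    have h2 : φ t ≠ 0 := by simpa using ht
    exact mul_left_cancel₀ h2 h1
  · have h5 : ∀ t, φ (θ t) * φ (θ (θ t)) = θ' (φ t) * θ' (θ' (φ t)) := by
      intro t
      by_cases ht : t = 0
      · subst ht
        simp
      have hθ := he.hθ t
      have h1 := key t (t * (θ t * θ (θ t))) (by
        rw [hm] at hθ
        simp only [Function.iterate_succ, Function.iterate_zero, Function.comp, id] at hθ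
        rw [map_mul, map_mul, hθ]
        ring) (by
        rw [hm, Finset.prod_range_succ, Finset.prod_range_succ, Finset.prod_range_one]
        simp only [Function.iterate_succ, Function.iterate_zero, Function.comp, id]
        ring)
      rw [hm, Finset.prod_range_succ, Finset.prod_range_succ, Finset.prod_range_one, map_mul,
        map_mul] at h1
      simp only [Function.iterate_succ, Function.iterate_zero, Function.comp, id] at h1
      have h2 : φ t ≠ 0 := by simpa using ht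
      rw [mul_assoc] at h1
      exact mul_left_cancel₀ h2 h1
    rcases cubic_sign θ θ' φ h5 with h | h
    · exact Or.inl h
    · exact Or.inr ⟨hm, h⟩

theorem field_compat (he : Env D θ S s p) (hn : 0 < n) {K : Type*} [Field K] (θ' : K ≃+* K)
    (Ψ : Eg S s →* GL C.Idx K) (hP : Pin he θ' Ψ) :
    (∃ (φ : k →+* K) (cc : Fin n → Kˣ), (∀ t, φ (θ t) = θ' (φ t)) ∧
      (∀ j, (cc (D.ρ j) : K) = θ' (cc j)) ∧
      ∀ x, Ψ x = tad C cc * C.mp φ (p x) * (tad C cc)⁻¹) ∨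
    (D.m = 3 ∧ ∀ i, D.ρ i ≠ i → ∃ (φ : k →+* K) (c : K),
      (∀ t, φ (θ t) = θ' (θ' (φ t))) ∧ (∃ t, φ (θ t) ≠ θ' (φ t)) ∧ RA he Ψ i c φ) := by
  by_cases hall : ∀ i, D.ρ i = i
  · -- everything is fixed
    left
    have hm : D.m = 1 := by
      unfold Dg.m
      rw [orderOf_eq_one_iff]
      exact Equiv.ext hall
    have hθ1 : ∀ t, θ t = t := fun t => by
      have := he.hθ t
      rwa [hm, Function.iterate_one] at this
    have hθ2 : ∀ t, θ' t = t := fun t => by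
      have := hP.hθ t
      rwa [hm, Function.iterate_one] at this
    obtain ⟨c, φ₁, hR⟩ := exists_RO he θ' Ψ hP ⟨0, hn⟩ (FC3_diag D _ (hall _))
    have h0 : ∀ t : kO D θ ⟨0, hn⟩,
        (φ₁.comp ((RingHom.id k).codRestrict (kO D θ ⟨0, hn⟩)
          (fun t => (mem_kO D θ _ t).2 (fun _ => hθ1 t)))) (t : k) = φ₁ t := fun t => rfl
    have hφ : ∀ t, (φ₁.comp ((RingHom.id k).codRestrict (kO D θ ⟨0, hn⟩)
          (fun t => (mem_kO D θ _ t).2 (fun _ => hθ1 t)))) (θ t) =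
          θ' ((φ₁.comp ((RingHom.id k).codRestrict (kO D θ ⟨0, hn⟩)
          (fun t => (mem_kO D θ _ t).2 (fun _ => hθ1 t)))) t) := fun t => by
      rw [hθ1, hθ2]
    have hnf : ∀ i, D.ρ i ≠ i → ∃ c, RA he Ψ i c (φ₁.comp ((RingHom.id k).codRestrict
        (kO D θ ⟨0, hn⟩) (fun t => (mem_kO D θ _ t).2 (fun _ => hθ1 t)))) :=
      fun i hi => absurd (hall i) hi
    exact FC3_final he θ' Ψ hP _ hφ hnf
      (FC3_fixed he θ' Ψ hP _ hnf ⟨0, hn⟩ (fun _ => ⟨c, φ₁, hR, h0⟩))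
  by_cases hadj : ∃ i, C.A i (D.ρ i) = -1
  · -- an adjacent orbit
    left
    obtain ⟨i, hi⟩ := hadj
    obtain ⟨c, φ, hR, hφ⟩ := exists_RA he θ' Ψ hP i hi
    exact FC3_done he θ' Ψ hP φ hφ i (fun h => FC3_diag D i h hi) c hR
  push Not at hadj
  -- a nonfixed neighbour of a fixed node
  have hex : ∃ i j, D.ρ i ≠ i ∧ D.ρ j = j ∧ C.A i j ≠ 0 := by
    classical
    obtain ⟨j₀, hj₀⟩ : ∃ j, D.ρ j = j := by
      by_contra hcon
      push Not at hcon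
      obtain ⟨i, hi⟩ := exists_adj D hn hcon
      exact hadj i hi
    obtain ⟨j, hj, i, hi, hA⟩ := C.conn (Finset.univ.filter (fun j => D.ρ j = j))
      ⟨j₀, by simpa using hj₀⟩ (by
        intro h
        apply hall
        intro i
        have h2 : i ∈ Finset.univ.filter (fun j => D.ρ j = j) := by
          rw [h]
          exact Finset.mem_univ _
        simpa using h2)
    refine ⟨i, j, by simpa using hi, by simpa using hj, ?_⟩
    rwa [C.symm]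
  obtain ⟨i₁, j₁, hi₁, hj₁, hA₁⟩ := hex
  by_cases hP1 : ∃ i, D.ρ i ≠ i ∧ ∃ (c : K) (φ : k →+* K), RA he Ψ i c φ ∧
      ∀ t, φ (θ t) = θ' (φ t)
  · left
    obtain ⟨i, hi, c, φ, hR, hφ⟩ := hP1
    exact FC3_done he θ' Ψ hP φ hφ i hi c hR
  right
  have hno : ∀ i, D.ρ i ≠ i → ∀ (c : K) (φ : k →+* K), RA he Ψ i c φ →
      ¬ ∀ t, φ (θ t) = θ' (φ t) := fun i hi c φ hR h => hP1 ⟨i, hi, c, φ, hR, h⟩
  obtain ⟨c₁, φ₁, hR₁, h1⟩ := FC3_norm he θ' Ψ hP i₁ j₁ (hadj i₁) hi₁ hj₁ hA₁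
  rcases h1 with h1 | ⟨hm, h1⟩
  · exact absurd h1 (hno i₁ hi₁ c₁ φ₁ hR₁)
  refine ⟨hm, ?_⟩
  have h2 : ∀ i, D.ρ i ≠ i → ∃ (c : K) (φ : k →+* K), RA he Ψ i c φ ∧
      ∀ t, φ (θ t) = θ' (θ' (φ t)) := by
    refine FC3_spread D (fun i => ∃ (c : K) (φ : k →+* K), RA he Ψ i c φ ∧
      ∀ t, φ (θ t) = θ' (θ' (φ t))) ?_ ?_ i₁ hi₁ ⟨c₁, φ₁, hR₁, h1⟩
    · rintro i hi ⟨c, φ, hR, hφ⟩
      refine ⟨θ' c, ((θ' : K →+* K).comp φ).comp (θ.symm : k →+* k), ?_, ?_⟩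
      · refine FC3_rho he θ' Ψ hP i c φ _ (fun t => ?_) hR
        simp
      · intro t
        have h3 := hφ (θ.symm t)
        rw [RingEquiv.apply_symm_apply] at h3
        simp only [RingHom.comp_apply, RingHom.coe_coe, RingEquiv.symm_apply_apply]
        rw [h3]
    · rintro i j hi hj hij hA ⟨c, φ, hR, hφ⟩
      obtain ⟨c', hR'⟩ := FC3_step he θ' Ψ hP i j hi hj hij hA c φ hR
      exact ⟨c', φ, hR', hφ⟩
  intro i hi
  obtain ⟨c, φ, hR, hφ⟩ := h2 i hi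
  refine ⟨φ, c, hφ, ?_, hR⟩
  have h3 := hno i hi c φ hR
  push Not at h3
  exact h3

end Pool.Agent.H86.UM
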