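import Pool.Agent.H75.UL.T8
import Pool.Agent.H75.UL.T9
import Pool.Agent.H75.UL.P4
import Pool.Agent.H86.UL.P1

/-!
# Project UM: abstract source groups

`Src ι E k`: a group `E` with the data of a group of Lie type used in the proofs: unipotent group `U`,
torus `T`, for each simple orbit `J : ι` a simple root group `X J ≤ U` with a coordinate
`q J : X J → k` (additive), the character `a J` by which `T` acts on it, and an element `ν J` which maps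
`X J` to the opposite root group. `k0` is an infinite subfield of `k`, and `T` contains for each `J` and
each `s ∈ k0`, `s ≠ 0`, an element with `a J = s ^ N` and `a J' = 1` for `J' ≠ J`.

Target: a homomorphism `Ψ : E →* GL C.Idx F` into `C.Gad F` with `Ψ U ≤ U` and `Ψ T ≤ B`.
-/

set_option autoImplicit false
open Matrix

namespace Pool.Agent.H86.UM

open Pool.Agent.H75.UL

/-- Abstract source group. -/
structure Src (ι : Type) (E : Type*) [Group E] (k : Type*) [Field k] where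
  U : Subgroup E
  T : Subgroup E
  X : ι → Subgroup E
  q : ι → E → k
  a : ι → E → k
  ν : ι → E
  k0 : Subfield k
  N : ℕ
  T_comm : ∀ s ∈ T, ∀ t ∈ T, s * t = t * s
  T_conj_U : ∀ h ∈ T, ∀ u ∈ U, h * u * h⁻¹ ∈ U
  X_le : ∀ J, X J ≤ U
  q_mul : ∀ J, ∀ x ∈ X J, ∀ y ∈ X J, q J (x * y) = q J x + q J y
  a_mul : ∀ J, ∀ s ∈ T, ∀ t ∈ T, a J (s * t) = a J s * a J t
  a_ne : ∀ J, ∀ h ∈ T, a J h ≠ 0
  X_conj : ∀ J, ∀ h ∈ T, ∀ x ∈ X J, h * x * h⁻¹ ∈ X J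
  q_conj : ∀ J, ∀ h ∈ T, ∀ x ∈ X J, q J (h * x * h⁻¹) = a J h * q J x
  q_smul : ∀ J, ∀ c ∈ k0, ∀ x ∈ X J, ∃ y ∈ X J, q J y = c * q J x
  ker_q : ∀ J, ∀ x ∈ X J, q J x = 0 → x ∈ ⁅X J, X J⁆
  cent : ∀ J, ∀ h ∈ T, a J h = 1 → ∀ x ∈ X J, h * x = x * h
  cent_neg : ∀ J, ∀ h ∈ T, a J h = 1 → ∀ x ∈ X J,
    h * (ν J * x * (ν J)⁻¹) = (ν J * x * (ν J)⁻¹) * h
  k0_inf : Infinite k0
  N_ne : N ≠ 0
  sep : ∀ J, ∀ s ∈ k0, s ≠ 0 → ∃ h ∈ T, a J h = s ^ N ∧ ∀ J', J' ≠ J → a J' h = 1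
  ν_conj : ∀ J, ∀ h ∈ T, (ν J)⁻¹ * h * ν J ∈ T
  a_ν : ∀ J, ∀ h ∈ T, a J h ∈ k0 → a J ((ν J)⁻¹ * h * ν J) = (a J h)⁻¹

variable {n : ℕ} (C : SLC n)

/-- Hypotheses on a homomorphism from a source group to the adjoint group. -/
structure Tgt {ι : Type} {E : Type*} [Group E] {k : Type*} [Field k] (S : Src ι E k) {F : Type*}
    [Field F] (Ψ : E →* GL C.Idx F) : Prop where
  mem : ∀ x, Ψ x ∈ C.Gad F
  U_le : ∀ u ∈ S.U, Ψ u ∈ (C.adS F).U 1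
  T_le : ∀ h ∈ S.T, C.Fil 0 (Ψ h : Matrix C.Idx C.Idx F)
  /-- nonvanishing -/
  nonvan : ∀ j, ∃ J, ∃ x ∈ S.X J, C.xi j (Ψ x : Matrix C.Idx C.Idx F) ≠ 0
  occ : ∀ J, ∃ j, ∃ x ∈ S.X J, C.xi j (Ψ x : Matrix C.Idx C.Idx F) ≠ 0

/-- `fib j` is the orbit belonging to the simple root `j` of the target. -/
structure Fib {ι : Type} {E : Type*} [Group E] {k : Type*} [Field k] (S : Src ι E k) {F : Type*}
    [Field F] (Ψ : E →* GL C.Idx F) (fib : Fin n → ι) : Prop where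
  surj : Function.Surjective fib
  ne : ∀ j, ∃ x ∈ S.X (fib j), C.xi j (Ψ x : Matrix C.Idx C.Idx F) ≠ 0
  zero : ∀ j J, J ≠ fib j → ∀ x ∈ S.X J, C.xi j (Ψ x : Matrix C.Idx C.Idx F) = 0
  chi_one : ∀ j, ∀ h ∈ S.T, S.a (fib j) h = 1 →
    C.chi (Ψ h : Matrix C.Idx C.Idx F) (C.simple j) = 1
  /-- on elements acting by `s ^ N` the character is a polynomial map -/
  poly : ∀ j, ∃ Φ : S.k0 → F, (∀ s t, Φ (s + t) = Φ s + Φ t) ∧ Φ 1 = 1 ∧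
    (∀ h ∈ S.T, ∀ s : S.k0, s ≠ 0 → S.a (fib j) h = (s : k) ^ S.N →
      C.chi (Ψ h : Matrix C.Idx C.Idx F) (C.simple j) = Φ (s ^ S.N)) ∧
    ∀ s r : S.k0, Φ (s ^ S.N * r) = Φ (s ^ S.N) * Φ r

end Pool.Agent.H86.UM
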