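import Pool.Agent.H86.UM.SR

/-!
# Project UM, module SRc: the source structure of `Eg S s` (assembly)

See the header of SR.lean for the proof of each field.
-/

set_option autoImplicit false
open Matrix

namespace Pool.Agent.H86.UM

open Pool.Agent.H75.UL

variable {n : ℕ} {C : SLC n} {D : Dg C} {k : Type*} [Field k] {θ : k ≃+* k} {H : Type*} [Group H]
  {S : StSys C k H} {s : H →* H} {p : H →* GL C.Idx k}

private theorem SRc_T (x : Eg S s) : x ∈ S.T.subgroupOf (Eg S s) ↔ (x : H) ∈ S.T := Iff.rfl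

private theorem SRc_X (i : Fin n) (x : Eg S s) :
    x ∈ (fixX D S s (C.simple i)).subgroupOf (Eg S s) ↔ (x : H) ∈ fixX D S s (C.simple i) :=
  Iff.rfl

private theorem SRc_gad (he : Env D θ S s p) (h : H) (hh : h ∈ S.T) :
    p h ∈ C.Gad k ∧ C.Fil 0 (p h : Matrix C.Idx C.Idx k) := by
  have h1 := C.S9_T S p he.hp h hh
  refine ⟨?_, C.Fil_T _ h1⟩
  rw [← C.gen_adS k]
  exact (C.adS k).T_le_gen h1

private theorem SRc_XU (he : Env D θ S s p) (i : Fin n) (x : H)
    (hx : x ∈ fixX D S s (C.simple i)) : p x ∈ (C.adS k).U 1 :=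
  C.S9_U S p he.hp 1 x (fixX_le_fixU S s _ (C.simple_pos i) hx).1

private theorem SRc_XO_conj (he : Env D θ S s p) (h : H) (hh : h ∈ S.T) (β : C.Root) (x : H)
    (hx : x ∈ XO D S β) : h * x * h⁻¹ ∈ XO D S β := by
  unfold XO at hx
  induction hx using Subgroup.closure_induction with
  | mem g hg =>
    obtain ⟨γ, t, hγ, rfl⟩ := hg
    rw [(SR_T he h hh γ t).2]
    exact Subgroup.subset_closure ⟨_, _, hγ, rfl⟩
  | one =>
    rw [mul_one, mul_inv_cancel]
    exact Subgroup.one_mem _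
  | mul a b _ _ ha hb =>
    have : h * (a * b) * h⁻¹ = (h * a * h⁻¹) * (h * b * h⁻¹) := by group
    rw [this]
    exact Subgroup.mul_mem _ ha hb
  | inv a _ ha =>
    have : h * a⁻¹ * h⁻¹ = (h * a * h⁻¹)⁻¹ := by group
    rw [this]
    exact Subgroup.inv_mem _ ha

private theorem SRc_fix_conj (h x : H) (h1 : s h = h) (h2 : s x = x) :
    s (h * x * h⁻¹) = h * x * h⁻¹ := by
  rw [map_mul, map_mul, map_inv, h1, h2]

private theorem SRc_Eg (S : StSys C k H) (s : H →* H) (i : Fin n) :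
    fixX D S s (C.simple i) ≤ Eg S s :=
  (fixX_le_fixU S s _ (C.simple_pos i)).trans le_sup_left

private theorem SRc_out (J J' : D.Orb) (h : J' ≠ J) :
    ¬ D.ρ.SameCycle (Quotient.out J) (Quotient.out J') := by
  intro hc
  apply h
  have h1 : (Quotient.mk (Equiv.Perm.SameCycle.setoid D.ρ) (Quotient.out J)) =
      Quotient.mk (Equiv.Perm.SameCycle.setoid D.ρ) (Quotient.out J') := Quotient.sound hc
  rw [Quotient.out_eq, Quotient.out_eq] at h1
  exact h1.symm

/-- The source structure of `Eg S s`. -/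
noncomputable def srcOf (he : Env D θ S s p) : Src D.Orb (Eg S s) k where
  U := (fixU S s).subgroupOf (Eg S s)
  T := S.T.subgroupOf (Eg S s)
  X J := (fixX D S s (C.simple (Quotient.out J))).subgroupOf (Eg S s)
  q J x := C.xi (Quotient.out J) (p x : Matrix C.Idx C.Idx k)
  a J x := C.chi (p x : Matrix C.Idx C.Idx k) (C.simple (Quotient.out J))
  ν J := ⟨nuJ he (Quotient.out J), (nuJ_mem he (Quotient.out J)).2⟩
  k0 := fixF θ
  N := C.A.det.natAbs
  T_comm := fun x hx y hy => Subtype.ext (S.T_comm x.1 y.1 hx hy)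
  T_conj_U := fun h hh u hu => ⟨S.T_conj_U 1 h.1 u.1 hh hu.1,
    SRc_fix_conj h.1 u.1 (Eg_le_fix S s _ h.2) (Eg_le_fix S s _ u.2)⟩
  X_le := fun J x hx => fixX_le_fixU S s _ (C.simple_pos _) hx
  q_mul := fun J x hx y hy => by
    rw [Subgroup.coe_mul, map_mul]
    exact C.xi_mul _ _ _ (SRc_XU he _ x.1 hx) (SRc_XU he _ y.1 hy)
  a_mul := fun J x hx y hy => by
    rw [Subgroup.coe_mul, map_mul]
    exact C.chi_mul _ _ (SRc_gad he x.1 hx).1 (SRc_gad he y.1 hy).1 (SRc_gad he x.1 hx).2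
      (SRc_gad he y.1 hy).2 _
  a_ne := fun J h hh => (SR_T he h.1 hh _ 0).1
  X_conj := fun J h hh x hx => ⟨SRc_XO_conj he h.1 hh _ x.1 hx.1,
    SRc_fix_conj h.1 x.1 (Eg_le_fix S s _ h.2) (Eg_le_fix S s _ x.2)⟩
  q_conj := fun J h hh x hx => by
    have h1 := C.xi_conj (p h.1) (p x.1) (SRc_gad he h.1 hh).1 (SRc_gad he h.1 hh).2
      (SRc_XU he _ x.1 hx) (Quotient.out J)
    rw [Subgroup.coe_mul, Subgroup.coe_mul, Subgroup.coe_inv, map_mul, map_mul, map_inv]
    exact h1.2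
  q_smul := fun J c hc x hx => by
    obtain ⟨y, hy, h1⟩ := fixX_xi_exists he (Quotient.out J)
      (c * C.xi (Quotient.out J) (p x : Matrix C.Idx C.Idx k)) (by
        intro hρ
        have h2 := (fixX_xi he (Quotient.out J) x.1 hx).1 1
        rw [pow_one, hρ] at h2
        rw [map_mul, (mem_fixF θ c).mp hc]
        congr 1
        exact h2.symm)
    exact ⟨⟨y, SRc_Eg S s _ hy⟩, hy, h1⟩
  ker_q := fun J x hx h0 => by
    have h1 := fixX_xi_zero he _ x.1 hx h0
    set A : Subgroup (Eg S s) := (fixX D S s (C.simple (Quotient.out J))).subgroupOf (Eg S s)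
      with hA
    have h2 : A.map (Eg S s).subtype = fixX D S s (C.simple (Quotient.out J)) := by
      rw [hA, Subgroup.subgroupOf_map_subtype, inf_eq_left]
      exact SRc_Eg S s _
    rw [← h2, ← Subgroup.map_commutator] at h1
    obtain ⟨y, hy, hyx⟩ := Subgroup.mem_map.mp h1
    have h3 : y = x := Subtype.ext hyx
    rwa [← h3]
  cent := fun J h hh h1 x hx => Subtype.ext
    ((SR_cent he h.1 hh (Eg_le_fix S s _ h.2) _ h1).1 x.1 hx.1)
  cent_neg := fun J h hh h1 x hx => Subtype.ext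
    ((SR_cent he h.1 hh (Eg_le_fix S s _ h.2) _ h1).2 _
      (((SR_ν he _ _ (nuJ_mem he (Quotient.out J)) (nuJ_acts he _)).1 x.1).mp hx.1))
  k0_inf := SR_k0_inf he
  N_ne := Int.natAbs_ne_zero.mpr C.det_ne_zero
  sep := fun J c hc hc0 => by
    obtain ⟨h, hh, h1, h2⟩ := SR_sep he (Quotient.out J) c hc hc0
    exact ⟨⟨h, hh.2⟩, hh.1, h1 _ (Equiv.Perm.SameCycle.refl _ _),
      fun J' hJ' => h2 _ (SRc_out J J' hJ')⟩
  ν_conj := fun J h hh => by
    have h1 := S.N_conj_T (nuJ he (Quotient.out J))⁻¹ h.1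
      (Subgroup.inv_mem _ (nuJ_mem he (Quotient.out J)).1) hh
    rw [inv_inv] at h1
    exact h1
  a_ν := fun J h hh h1 => by
    obtain ⟨l, hl⟩ := (SR_ν he _ _ (nuJ_mem he (Quotient.out J)) (nuJ_acts he _)).2.2
    have h2 := hl h.1 ⟨hh, h.2⟩
    have h3 : (⇑θ)^[l] (C.chi (p h.1 : Matrix C.Idx C.Idx k) (C.simple (Quotient.out J))) =
        C.chi (p h.1 : Matrix C.Idx C.Idx k) (C.simple (Quotient.out J)) :=
      Function.iterate_fixed h1 l
    rw [h3] at h2
    exact h2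

end Pool.Agent.H86.UM
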