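import Pool.Agent.H86.UM.EX3

/-!
# Project UM, module FC0: field compatibility, definitions

`tad c`: the element of the full adjoint torus with `c j` on the simple root `j`.
`kO D θ i`: the field of the orbit of `i`: `fixF θ` if `ρ i = i`, otherwise all of `k`.
`Pin he θ' Ψ`: `Ψ : Eg S s →* GL C.Idx K` maps the simple root groups into the simple root groups of the same
orbit, both signs; its kernel is central; the values are in `Gad K` and fixed by `σ'`.
`RO he θ' Ψ i c φ`: on the orbit of `i` (not adjacent) `Ψ (y_i(t)) = y_i(c φ(t))`,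
`Ψ (y_(-i)(t)) = y_(-i)(c⁻¹ φ(t))`, where `y` is `yb`.
-/

set_option autoImplicit false
open Matrix

namespace Pool.Agent.H86.UM

open Pool.Agent.H75.UL

section tad
variable {n : ℕ} (C : SLC n) {K : Type*} [Field K]

/-- The matrix of an element of the full adjoint torus. -/
def tadM (c : Fin n → Kˣ) : Matrix C.Idx C.Idx K :=
  Matrix.diagonal (Sum.elim (fun _ => 1) (fun γ => ((∏ j, c j ^ γ.1 j : Kˣ) : K)))

theorem tadM_mul (c c' : Fin n → Kˣ) : tadM C c * tadM C c' = tadM C (c * c') := by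
  unfold tadM
  rw [Matrix.diagonal_mul_diagonal]
  congr 1
  funext a
  rcases a with i | γ
  · simp
  · simp only [Sum.elim_inr]
    rw [← Units.val_mul, ← Finset.prod_mul_distrib]
    congr 1
    refine Finset.prod_congr rfl fun j _ => ?_
    rw [Pi.mul_apply, mul_zpow]

theorem tadM_one : tadM C (1 : Fin n → Kˣ) = 1 := by
  unfold tadM
  rw [← Matrix.diagonal_one]
  congr 1
  funext a
  rcases a with i | γ <;> simp

/-- An element of the full adjoint torus. -/
noncomputable def tad (c : Fin n → Kˣ) : GL C.Idx K where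
  val := tadM C c
  inv := tadM C c⁻¹
  val_inv := by rw [tadM_mul, mul_inv_cancel, tadM_one]
  inv_val := by rw [tadM_mul, inv_mul_cancel, tadM_one]

theorem tad_mul (c c' : Fin n → Kˣ) : tad C c * tad C c' = tad C (c * c') :=
  Units.ext (tadM_mul C c c')

end tad

variable {n : ℕ} {C : SLC n} {D : Dg C} {k : Type*} [Field k] {θ : k ≃+* k} {H : Type*} [Group H]
  {S : StSys C k H} {s : H →* H} {p : H →* GL C.Idx k}

open Classical in
/-- The field of the orbit of `i`. -/
noncomputable def kO (D : Dg C) {k : Type*} [Field k] (θ : k ≃+* k) (i : Fin n) : Subfield k :=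
  if D.ρ i = i then fixF θ else ⊤

theorem mem_kO (D : Dg C) {k : Type*} [Field k] (θ : k ≃+* k) (i : Fin n) (t : k) :
    t ∈ kO D θ i ↔ (D.ρ i = i → θ t = t) := by
  unfold kO
  by_cases h : D.ρ i = i
  · rw [if_pos h, mem_fixF]
    exact ⟨fun h1 _ => h1, fun h1 => h1 h⟩
  · rw [if_neg h]
    exact ⟨fun _ h1 => absurd h1 h, fun _ => Subfield.mem_top t⟩

/-- `Ψ` maps simple root groups into simple root groups of the same orbit. -/
structure Pin (he : Env D θ S s p) {K : Type*} [Field K] (θ' : K ≃+* K)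
    (Ψ : Eg S s →* GL C.Idx K) : Prop where
  hθ : ∀ t, (⇑θ')^[D.m] t = t
  mem : ∀ x, Ψ x ∈ C.Gad K
  fix : ∀ x, D.sgl θ' (Ψ x) = Ψ x
  ker : ∀ x, Ψ x = 1 → x ∈ Subgroup.center (Eg S s)
  pos : ∀ (i : Fin n) (x : Eg S s), (x : H) ∈ fixX D S s (C.simple i) →
    Ψ x ∈ fixX D (C.adS K) (D.sgl θ') (C.simple i)
  neg : ∀ (i : Fin n) (x : Eg S s), (x : H) ∈ fixX D S s (-(C.simple i)) →
    Ψ x ∈ fixX D (C.adS K) (D.sgl θ') (-(C.simple i))

/-- The coordinates of `Ψ` on a simple root group which is not adjacent to its image. -/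
structure RO (he : Env D θ S s p) {K : Type*} [Field K] (θ' : K ≃+* K)
    (Ψ : Eg S s →* GL C.Idx K) (i : Fin n) (c : K) (φ : kO D θ i →+* K) : Prop where
  c_ne : c ≠ 0
  c_fix : D.ρ i = i → θ' c = c
  φ_fix : D.ρ i = i → ∀ t, θ' (φ t) = φ t
  pos : ∀ (t : kO D θ i) (x : Eg S s), (x : H) = yb D S s (C.simple i) t →
    Ψ x = yb D (C.adS K) (D.sgl θ') (C.simple i) (c * φ t)
  neg : ∀ (t : kO D θ i) (x : Eg S s), (x : H) = yb D S s (-(C.simple i)) t →
    Ψ x = yb D (C.adS K) (D.sgl θ') (-(C.simple i)) (c⁻¹ * φ t)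

end Pool.Agent.H86.UM
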