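import Pool.Agent.H86.UM.Z0
import Pool.Agent.H75.UK.F1a
import Pool.Agent.H75.UK.F1b
import Pool.Agent.H75.UT.D8u

/-!
# Project UM, Suzuki-Ree groups, module Z1: the root elements `yg` of the folded group

`env_ad D hN k : Env ..` allows to use the modules of UM and UK (F1b). `s = D.sgl (RingEquiv.refl k)`, `IsSig` from `isSig_adS`; `IsSig.iter`:
`s^[l] (x_β(t)) = x_(r^l β)(sgp l β * t)`; the factors of `yb β t` commute (`ip_r_NA`, `ip_orb`, `xg_comm`).
Many of the statements are contained in FX.lean, F1b.lean (UK), GEN.lean, D6*.lean (UT).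
`yg_r`: the product over the orbit does not depend on the starting point (`r_m`, `sgp_m`).
`yg_inj`: compare coordinates (`adS_inj`, `adS_neg_inj`; negative roots: `S.neg`). `FU_eq`: `fixU_eq` with
`adS_inj`, and `fixX β = {yg β t}` (`fixX_form` has the proof: `ZZ` is trivial). `FUm_eq` similarly.
`nJ_conj`: `nJ = ∏_l s^l (nn x α_j 1)` (the factors commute), `n_conj_all` for one factor after the other,
then apply `s^l` (`nJ` is fixed by `s`, acts by `w = wd (wl j)` which commutes with `rE` (`wJ_comm`), so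
`mo (w β) = mo β`). `xi_yg`: `xi_mul`, `xi_xg`.
-/

set_option autoImplicit false
open Matrix

namespace Pool.Agent.H86.UM

open Pool.Agent.H75.UL

section
variable {n : ℕ} {C : SLC n} {D : Dg C} {k : Type*} [Field k] {H : Type*} [Group H]
  {S : StSys C k H} {s : H →* H}

private theorem Z1_iter (hs : IsSig D (RingEquiv.refl k) S s) (l : ℕ) (β : C.Root) (t : k) :
    s^[l] (S.x β t) = S.x (D.r^[l] β) ((D.sgp l β : k) * t) := by
  rw [hs.iter]
  congr 2
  exact Function.iterate_fixed rfl l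

private theorem Z1_r_fix (β : C.Root) (h : D.r β = β) (l : ℕ) : D.r^[l] β = β :=
  Function.iterate_fixed h l

private theorem Z1_ip0 (hNA : D.NA) (β : C.Root) : ∀ j : ℕ, 0 ≤ C.ip β.1 (D.r^[j] β).1 := by
  intro j
  induction j using Nat.strong_induction_on with
  | _ j ih =>
    by_cases h : D.r β = β
    · rw [Z1_r_fix β h, β.2]
      norm_num
    · by_cases hj : j < D.m
      · rcases Nat.eq_zero_or_pos j with h0 | h0
        · subst h0
          change 0 ≤ C.ip β.1 β.1
          rw [β.2]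
          norm_num
        · rw [D.ip_orb β h j h0 hj, D.ip_r_NA hNA β h]
      · have hm : 0 < D.m := by rcases D.m_cases with h | h | h <;> omega
        have h1 : D.r^[j] β = D.r^[j - D.m] β := by
          have h2 : j = (j - D.m) + D.m := by omega
          conv_lhs => rw [h2]
          rw [Function.iterate_add_apply, D.r_m]
        rw [h1]
        exact ih _ (by omega)

private theorem Z1_ip_shift (β γ : C.Root) (l : ℕ) :
    C.ip (D.r^[l] β).1 (D.r^[l] γ).1 = C.ip β.1 γ.1 := by
  induction l with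
  | zero => rfl
  | succ l ih =>
    rw [Function.iterate_succ_apply', Function.iterate_succ_apply', D.r_ip, ih]

private theorem Z1_ip (hNA : D.NA) (β : C.Root) (l l' : ℕ) :
    0 ≤ C.ip (D.r^[l] β).1 (D.r^[l'] β).1 := by
  rcases le_total l l' with h | h
  · have h2 : l' = l + (l' - l) := by omega
    rw [h2, Function.iterate_add_apply, Z1_ip_shift]
    exact Z1_ip0 hNA β _
  · have h2 : l = l' + (l - l') := by omega
    rw [h2, Function.iterate_add_apply, Z1_ip_shift, C.ip_comm]
    exact Z1_ip0 hNA β _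

private theorem Z1_comm (hNA : D.NA) (β : C.Root) (l l' : ℕ) (a b : k) :
    Commute (S.x (D.r^[l] β) a) (S.x (D.r^[l'] β) b) :=
  S.comm _ _ a b (Z1_ip hNA β l l')

private theorem Z1_form (hs : IsSig D (RingEquiv.refl k) S s) (β : C.Root) (t : k) :
    yb D S s β t = ((List.range (mo D β)).map fun l =>
      S.x (D.r^[l] β) ((D.sgp l β : k) * t)).prod := by
  unfold yb
  congr 1
  apply List.map_congr_left
  intro l _
  exact Z1_iter hs l β t

private theorem Z1_mo_pos (β : C.Root) : 0 < mo D β := by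
  unfold mo
  split_ifs
  · exact one_pos
  · rcases D.m_cases with h | h | h <;> omega

private theorem Z1_fix (hs : IsSig D (RingEquiv.refl k) S s) (hNA : D.NA) (β : C.Root) (t : k) :
    s (yb D S s β t) = yb D S s β t := by
  obtain ⟨m', hm'⟩ : ∃ m', mo D β = m' + 1 := ⟨mo D β - 1, by have := Z1_mo_pos (D := D) β; omega⟩
  have hper : s^[m' + 1] (S.x β t) = S.x β t := by
    rw [← hm', Z1_iter hs]
    unfold mo
    split_ifs with h
    · have h1 : D.sgp 1 β = 1 := by
        unfold Dg.sgp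
        rw [Finset.prod_range_one]
        exact D.sg_fix hNA β h
      rw [h1, Z1_r_fix β h]
      simp
    · rw [D.r_m, D.sgp_m]
      simp
  have hcomm : Commute (S.x β t) ((List.range m').map fun l => s^[l + 1] (S.x β t)).prod := by
    apply Commute.list_prod_right
    intro x hx
    obtain ⟨l, -, rfl⟩ := List.mem_map.mp hx
    rw [Z1_iter hs]
    exact Z1_comm hNA β 0 (l + 1) _ _
  have e1 : s (yb D S s β t) = ((List.range m').map fun l => s^[l + 1] (S.x β t)).prod *
      s^[m' + 1] (S.x β t) := by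
    unfold yb
    rw [hm', map_list_prod, List.map_map, List.range_succ, List.map_append, List.prod_append,
      List.map_singleton, List.prod_singleton]
    simp only [Function.comp_def, Function.iterate_succ_apply']
  have e2 : yb D S s β t = S.x β t * ((List.range m').map fun l => s^[l + 1] (S.x β t)).prod := by
    unfold yb
    rw [hm', List.range_succ_eq_map, List.map_cons, List.prod_cons, List.map_map]
    rfl
  rw [e1, e2, hper]
  exact hcomm.eq.symm

private theorem Z1_ht (β : C.Root) (l : ℕ) : ht (D.r^[l] β).1 = ht β.1 := by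
  induction l with
  | zero => rfl
  | succ l ih => rw [Function.iterate_succ_apply', D.r_ht, ih]

private theorem Z1_yb_zero (β : C.Root) : yb D S s β 0 = 1 := by
  unfold yb
  apply List.prod_eq_one
  intro x hx
  obtain ⟨l, -, rfl⟩ := List.mem_map.mp hx
  rw [S.x_zero]
  exact iterate_map_one s l

private theorem Z1_mo_congr (β γ : C.Root) (h : D.r γ = γ ↔ D.r β = β) : mo D γ = mo D β := by
  unfold mo
  by_cases h1 : D.r β = β
  · rw [if_pos h1, if_pos (h.2 h1)]
  · rw [if_neg h1, if_neg (fun h2 => h1 (h.1 h2))]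

private theorem Z1_mo_r (β : C.Root) : mo D (D.r β) = mo D β :=
  Z1_mo_congr β _ ⟨fun h => D.r_injective h, fun h => congrArg D.r h⟩

private theorem Z1_neg_inj (β γ : C.Root) (h : -β = -γ) : β = γ := by
  rw [← C.neg_neg_root β, h, C.neg_neg_root]

private theorem Z1_mo_neg (β : C.Root) : mo D (-β) = mo D β :=
  Z1_mo_congr β _ ⟨fun h => by rw [D.r_neg] at h; exact Z1_neg_inj _ _ h,
    fun h => by rw [D.r_neg, h]⟩

private theorem Z1_w_r (w : Equiv.Perm C.Root) (hw : D.rE * w * D.rE⁻¹ = w) (β : C.Root) :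
    D.r (w β) = w (D.r β) := by
  have h1 : D.rE * w = w * D.rE := by
    conv_rhs => rw [← hw]
    group
  have h2 := congrArg (fun f : Equiv.Perm C.Root => f β) h1
  simpa only [Equiv.Perm.mul_apply, Dg.rE_apply] using h2

private theorem Z1_mo_w (w : Equiv.Perm C.Root) (hw : D.rE * w * D.rE⁻¹ = w) (β : C.Root) :
    mo D (w β) = mo D β :=
  Z1_mo_congr β _ ⟨fun h => by rw [Z1_w_r w hw] at h; exact w.injective h,
    fun h => by rw [Z1_w_r w hw, h]⟩

private theorem Z1_yb_r (hs : IsSig D (RingEquiv.refl k) S s) (hNA : D.NA) (β : C.Root) (t : k) :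
    yb D S s (D.r β) ((D.sg β : k) * t) = yb D S s β t := by
  rw [← Z1_fix hs hNA β t]
  unfold yb
  rw [Z1_mo_r, map_list_prod, List.map_map]
  congr 1
  apply List.map_congr_left
  intro l _
  have h1 : S.x (D.r β) ((D.sg β : k) * t) = s (S.x β t) := by
    rw [hs β t]
    rfl
  rw [h1]
  change s^[l] (s (S.x β t)) = s (s^[l] (S.x β t))
  rw [← Function.iterate_succ_apply s l, Function.iterate_succ_apply' s l]

private theorem Z1_fix_iter (g : H) (hg : s g = g) (l : ℕ) : s^[l] g = g :=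
  Function.iterate_fixed hg l

private theorem Z1_iter_conj (g x : H) (hg : s g = g) (l : ℕ) :
    s^[l] (g * x * g⁻¹) = g * s^[l] x * g⁻¹ := by
  induction l with
  | zero => rfl
  | succ l ih =>
    rw [Function.iterate_succ_apply', ih, map_mul, map_mul, map_inv, hg,
      Function.iterate_succ_apply']

private theorem Z1_conj_yb (g : H) (hg : s g = g) (w : Equiv.Perm C.Root)
    (hw : D.rE * w * D.rE⁻¹ = w) (β : C.Root) (c t : k)
    (h : g * S.x β t * g⁻¹ = S.x (w β) (c * t)) :
    g * yb D S s β t * g⁻¹ = yb D S s (w β) (c * t) := by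
  have h1 : ∀ x : H, g * x * g⁻¹ = MulAut.conj g x := fun x => rfl
  unfold yb
  rw [Z1_mo_w w hw, h1, map_list_prod, List.map_map]
  congr 1
  apply List.map_congr_left
  intro l _
  rw [Function.comp_apply, ← h1, ← Z1_iter_conj g _ hg, h]

private theorem Z1_iter_neg (β : C.Root) (l : ℕ) : D.r^[l] (-β) = -(D.r^[l] β) := by
  induction l with
  | zero => rfl
  | succ l ih =>
    rw [Function.iterate_succ', Function.comp, ih, D.r_neg]
    rfl

private theorem Z1_yb_neg (β : C.Root) (t : k) : yb D S.neg s β t = yb D S s (-β) t := by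
  unfold yb
  rw [Z1_mo_neg]
  rfl

private theorem Z1_inO_neg (β γ : C.Root) : D.inO β γ → D.inO (-β) (-γ) := by
  rintro (⟨l, rfl⟩ | h)
  · exact Or.inl ⟨l, (Z1_iter_neg β l).symm⟩
  · right
    rw [D.r_neg, SLC.Root.neg_val, SLC.Root.neg_val, SLC.Root.neg_val, h, neg_add]

private theorem Z1_XO_neg (β : C.Root) : XO D S.neg β = XO D S (-β) := by
  unfold XO
  congr 1
  ext g
  constructor
  · rintro ⟨γ, t, h, rfl⟩
    exact ⟨-γ, t, Z1_inO_neg _ _ h, rfl⟩
  · rintro ⟨γ, t, h, rfl⟩
    refine ⟨-γ, t, ?_, ?_⟩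
    · have h1 := Z1_inO_neg _ _ h
      rwa [C.neg_neg_root] at h1
    · rw [StSys.neg_x, C.neg_neg_root]

private theorem Z1_fixX_neg (β : C.Root) : fixX D S.neg s β = fixX D S s (-β) := by
  unfold fixX
  rw [Z1_XO_neg]

private theorem Z1_fixU_neg : fixU S.neg s = fixUm S s := by
  unfold fixU fixUm
  rw [StSys.neg_U]

private theorem Z1_ZZ (hNA : D.NA) (β : C.Root) (z : H) (hz : z ∈ ZZ D S β) : z = 1 := by
  unfold ZZ at hz
  have h1 : {g | ∃ (γ : C.Root) (v : k), γ.1 = β.1 + (D.r β).1 ∧ g = S.x γ v} = (∅ : Set H) := by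
    ext g
    simp only [Set.mem_ofPred_eq, Set.mem_empty_iff_false, iff_false]
    rintro ⟨γ, v, hγ, -⟩
    have h2 := C.ip_add_root _ _ _ hγ
    by_cases h3 : D.r β = β
    · rw [h3, β.2] at h2
      omega
    · rw [D.ip_r_NA hNA β h3] at h2
      omega
  rw [h1, Subgroup.closure_empty, Subgroup.mem_bot] at hz
  exact hz

end

section
variable {n : ℕ} {C : SLC n} {D : Dg C} {k : Type*} [Field k] {H : Type*} [Group H]
  {S : StSys C k H} {s : H →* H} {p : H →* GL C.Idx k}

private theorem Z1_fixX (he : Env D (RingEquiv.refl k) S s p) (hNA : D.NA) (β : C.Root)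
    (hβ : C.Pos β) (x : H) (hx : x ∈ fixX D S s β) : ∃ t, x = yb D S s β t := by
  obtain ⟨t, -, z, hz, h⟩ := fixX_form he β hβ x hx
  refine ⟨t, ?_⟩
  rw [h, Z1_ZZ hNA β z hz, mul_one]

private theorem Z1_yb_fixX (he : Env D (RingEquiv.refl k) S s p) (hNA : D.NA) (β : C.Root)
    (t : k) : yb D S s β t ∈ fixX D S s β := by
  refine ⟨?_, Z1_fix he.sig hNA β t⟩
  have h1 := yb_mem_XO he β t 1 (one_mem _)
  rwa [mul_one] at h1

private theorem Z1_inj (he : Env D (RingEquiv.refl k) S s p) (hNA : D.NA) (β γ : C.Root)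
    (hβ : C.Pos β) (hγ : C.Pos γ) (t u : k) (ht : t ≠ 0)
    (h : yb D S s β t = yb D S s γ u) : D.rE.SameCycle β γ ∧ (β = γ → t = u) := by
  constructor
  · by_contra hne
    obtain ⟨τ, hτ, h1, h2⟩ := tor_sep he hNA β γ hβ hγ hne
    have h3 := yb_T he hNA β τ hτ t
    have h4 := yb_T he hNA γ τ hτ u
    rw [h1, one_mul, h] at h3
    rw [h3] at h4
    have h5 : yb D S s γ (C.chi (p τ : Matrix C.Idx C.Idx k) γ * u - u) = 1 := by
      have h6 := yb_add he hNA γ (C.chi (p τ : Matrix C.Idx C.Idx k) γ * u - u) u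
      rw [sub_add_cancel, ← h4] at h6
      exact (mul_eq_right.mp h6.symm)
    have h6 := yb_one he hNA γ hγ _ h5
    have h7 : (C.chi (p τ : Matrix C.Idx C.Idx k) γ - 1) * u = 0 := by
      rw [sub_mul, one_mul]
      exact h6
    rcases mul_eq_zero.mp h7 with h8 | h8
    · exact h2 (sub_eq_zero.mp h8)
    · rw [h8, Z1_yb_zero] at h
      exact ht (yb_one he hNA β hβ _ h)
  · rintro rfl
    exact fixX_coord he β hβ t u 1 1 (one_mem _) (one_mem _) (by rw [mul_one, mul_one, h])

private theorem Z1_sc_neg (β γ : C.Root) (h : D.rE.SameCycle (-β) (-γ)) :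
    D.rE.SameCycle β γ := by
  obtain ⟨l, hl, h1⟩ := (D.sameCycle_iff _ _).mp h
  rw [Z1_iter_neg] at h1
  exact (D.sameCycle_iff _ _).mpr ⟨l, hl, Z1_neg_inj _ _ h1⟩

end

section
variable {n : ℕ}

/-- The matrix of the opposition involution. -/
private def Z1_om (C : SLC n) : Matrix C.Idx C.Idx ℤ := fun a b =>
  match a, b with
  | Sum.inl i, Sum.inl j => if i = j then -1 else 0
  | Sum.inr γ, Sum.inr β => if γ = -β then 1 else 0
  | Sum.inl _, Sum.inr _ => 0
  | Sum.inr _, Sum.inl _ => 0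

variable {C : SLC n} {F : Type*} [Field F]

private theorem Z1_neg_neg (β : C.Root) : - -β = β := by
  apply SLC.Root.ext
  rw [SLC.Root.neg_val, SLC.Root.neg_val, neg_neg]

private theorem Z1_om_mul (M : Matrix C.Idx C.Idx ℤ) (a b : C.Idx) :
    (Z1_om C * M) a b = match a with
      | Sum.inl i => - M (Sum.inl i) b
      | Sum.inr γ => M (Sum.inr (-γ)) b := by
  rw [Matrix.mul_apply, Fintype.sum_sum_type]
  rcases a with i | γ
  · simp only [Z1_om, zero_mul, Finset.sum_const_zero, add_zero]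
    rw [Finset.sum_eq_single i]
    · simp
    · intro j _ hj
      rw [if_neg (Ne.symm hj), zero_mul]
    · intro h
      exact absurd (Finset.mem_univ i) h
  · simp only [Z1_om, zero_mul, Finset.sum_const_zero, zero_add]
    rw [Finset.sum_eq_single (-γ)]
    · rw [Z1_neg_neg, if_pos rfl, one_mul]
    · intro j _ hj
      rw [if_neg, zero_mul]
      intro h
      apply hj
      rw [h, Z1_neg_neg]
    · intro h
      exact absurd (Finset.mem_univ _) h

private theorem Z1_mul_om (M : Matrix C.Idx C.Idx ℤ) (a b : C.Idx) :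
    (M * Z1_om C) a b = match b with
      | Sum.inl i => - M a (Sum.inl i)
      | Sum.inr γ => M a (Sum.inr (-γ)) := by
  rw [Matrix.mul_apply, Fintype.sum_sum_type]
  rcases b with i | γ
  · simp only [Z1_om, mul_zero, Finset.sum_const_zero, add_zero]
    rw [Finset.sum_eq_single i]
    · simp
    · intro j _ hj
      rw [if_neg hj, mul_zero]
    · intro h
      exact absurd (Finset.mem_univ i) h
  · simp only [Z1_om, mul_zero, Finset.sum_const_zero, zero_add]
    rw [Finset.sum_eq_single (-γ)]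
    · rw [if_pos rfl, mul_one]
    · intro j _ hj
      rw [if_neg hj, mul_zero]
    · intro h
      exact absurd (Finset.mem_univ _) h

private theorem Z1_om_sq : Z1_om C * Z1_om C = 1 := by
  ext a b
  rw [Z1_om_mul]
  rcases a with i | γ <;> rcases b with j | β
  · simp only [Z1_om, Matrix.one_apply, Sum.inl.injEq]
    split_ifs <;> rfl
  · simp [Z1_om]
  · simp [Z1_om]
  · simp only [Z1_om, Matrix.one_apply, Sum.inr.injEq]
    have h : -γ = -β ↔ γ = β := by
      constructor
      · intro h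
        rw [← Z1_neg_neg γ, h, Z1_neg_neg]
      · intro h
        rw [h]
    simp only [h]

private theorem Z1_eps (v w : Fin n → ℤ) : C.eps (-v) (-w) = C.eps v w := by
  unfold SLC.eps SLC.hf
  rw [Matrix.mulVec_neg, neg_dotProduct, dotProduct_neg, neg_neg]

private theorem Z1_om_E (α : C.Root) : Z1_om C * C.E α = C.E (-α) * Z1_om C := by
  ext a b
  rw [Z1_om_mul, Z1_mul_om]
  rcases a with i | γ <;> rcases b with j | β
  · simp [SLC.E]
  · simp only [SLC.E, SLC.Root.neg_val, Pi.neg_apply, neg_neg]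
    have h : -β.1 = α.1 ↔ β.1 = -α.1 := neg_eq_iff_eq_neg
    simp only [h]
    split_ifs <;> simp
  · simp only [SLC.E, SLC.Root.neg_val]
    have h : -γ.1 = α.1 ↔ γ.1 = -α.1 := neg_eq_iff_eq_neg
    simp only [h]
    split_ifs
    · rw [SLC.ip_neg_right]
      ring
    · simp
  · simp only [SLC.E, SLC.Root.neg_val, Z1_eps]
    have h : -γ.1 = α.1 + β.1 ↔ γ.1 = -α.1 + -β.1 := by
      rw [neg_eq_iff_eq_neg, neg_add]
    simp only [h]

private theorem Z1_om_F (α : C.Root) : Z1_om C * C.F α = C.F (-α) * Z1_om C := by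
  ext a b
  rw [Z1_om_mul, Z1_mul_om]
  rcases a with i | γ <;> rcases b with j | β
  · simp [SLC.F]
  · simp [SLC.F]
  · simp [SLC.F]
  · simp only [SLC.F, SLC.Root.neg_val, neg_neg]
    have h : -γ.1 = α.1 ↔ γ.1 = -α.1 := neg_eq_iff_eq_neg
    have h' : -β.1 = α.1 ↔ β.1 = -α.1 := neg_eq_iff_eq_neg
    simp only [h, h']

private def Z1_O (C : SLC n) (F : Type*) [Field F] : Matrix C.Idx C.Idx F :=
  (Z1_om C).map (Int.castRingHom F)

private theorem Z1_O_sq : Z1_O C F * Z1_O C F = 1 := by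
  unfold Z1_O
  rw [← Matrix.map_mul, Z1_om_sq, Matrix.map_one _ (map_zero _) (map_one _)]

private theorem Z1_O_X (α : C.Root) (t : F) :
    Z1_O C F * C.X F α t = C.X F (-α) t * Z1_O C F := by
  have h1 : Z1_O C F * (C.E α).map (Int.cast : ℤ → F) =
      (C.E (-α)).map (Int.cast : ℤ → F) * Z1_O C F := by
    have := congrArg (fun M : Matrix C.Idx C.Idx ℤ => M.map (Int.castRingHom F)) (Z1_om_E α)
    simp only [Matrix.map_mul] at this
    exact this
  have h2 : Z1_O C F * (C.F α).map (Int.cast : ℤ → F) =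
      (C.F (-α)).map (Int.cast : ℤ → F) * Z1_O C F := by
    have := congrArg (fun M : Matrix C.Idx C.Idx ℤ => M.map (Int.castRingHom F)) (Z1_om_F α)
    simp only [Matrix.map_mul] at this
    exact this
  unfold SLC.X
  simp only [add_mul, mul_add, one_mul, mul_one, smul_mul_assoc, mul_smul_comm, h1, h2]

private noncomputable def Z1_g (C : SLC n) (F : Type*) [Field F] : GL C.Idx F where
  val := Z1_O C F
  inv := Z1_O C F
  val_inv := Z1_O_sq
  inv_val := Z1_O_sq

private theorem Z1_g_xg (α : C.Root) (t : F) :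
    Z1_g C F * C.xg F α t = C.xg F (-α) t * Z1_g C F := by
  apply Units.ext
  exact Z1_O_X α t

end

private theorem Z1_env_neg {n : ℕ} {C : SLC n} (D : Dg C) (hN : D.NA) (k : Type*) [Field k]
    [Infinite k] : ∃ p : GL C.Idx k →* GL C.Idx k,
      Env D (RingEquiv.refl k) (C.adS k).neg (D.sgl (RingEquiv.refl k)) p := by
  have he := env_ad D hN k
  refine ⟨(MulAut.conj (Z1_g C k)).toMonoidHom, ?_⟩
  refine ⟨he.inf, he.sig.neg, fun β t => ?_, he.hθ, he.hA, he.hB, he.hC⟩
  change Z1_g C k * (C.adS k).neg.x β t * (Z1_g C k)⁻¹ = _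
  rw [StSys.neg_x]
  have h1 := Z1_g_xg (F := k) (-β) t
  rw [C.neg_neg_root] at h1
  rw [mul_inv_eq_iff_eq_mul, ← h1]
  rfl

private theorem Z1_npos {n : ℕ} {C : SLC n} (β : C.Root) (h : ¬ C.Pos β) : C.Pos (-β) := by
  have := C.ht_ne_zero β
  unfold SLC.Pos at h ⊢
  rw [SLC.Root.neg_val, ht_neg]
  omega

private theorem Z1_fixX_iff {n : ℕ} {C : SLC n} (D : Dg C) (hN : D.NA) (k : Type*) [Field k]
    [Infinite k] (β : C.Root) (x : GL C.Idx k) :
    x ∈ fixX D (C.adS k) (D.sgl (RingEquiv.refl k)) β ↔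
      ∃ t, x = yb D (C.adS k) (D.sgl (RingEquiv.refl k)) β t := by
  constructor
  · intro hx
    by_cases h : C.Pos β
    · exact Z1_fixX (env_ad D hN k) hN β h x hx
    · obtain ⟨p, he'⟩ := Z1_env_neg D hN k
      obtain ⟨t, ht⟩ := Z1_fixX he' hN (-β) (Z1_npos β h) x (by
        rw [Z1_fixX_neg, C.neg_neg_root]
        exact hx)
      refine ⟨t, ?_⟩
      rw [ht, Z1_yb_neg, C.neg_neg_root]
  · rintro ⟨t, rfl⟩
    exact Z1_yb_fixX (env_ad D hN k) hN β t

private theorem Z1_xi0 {n : ℕ} {C : SLC n} {k : Type*} [Field k] (i : Fin n)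
    (L : List (GL C.Idx k)) (h : ∀ g ∈ L, g ∈ (C.adS k).U 1 ∧ C.xi i (g : Matrix C.Idx C.Idx k) = 0) :
    L.prod ∈ (C.adS k).U 1 ∧ C.xi i (L.prod : Matrix C.Idx C.Idx k) = 0 := by
  induction L with
  | nil =>
    refine ⟨one_mem _, ?_⟩
    exact C.xi_one i
  | cons g L ih =>
    have h1 := h g (List.mem_cons_self)
    have h2 := ih (fun g' hg' => h g' (List.mem_cons_of_mem _ hg'))
    rw [List.prod_cons]
    refine ⟨mul_mem h1.1 h2.1, ?_⟩
    rw [C.xi_mul i _ _ h1.1 h2.1, h1.2, h2.2, add_zero]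

private theorem Z1_prod_mul {G : Type*} [Group G] (a b : ℕ → G) (k : ℕ)
    (h : ∀ l l', l < k → l' < k → l ≠ l' → Commute (a l) (b l')) :
    ((List.range k).map fun l => a l * b l).prod =
      ((List.range k).map a).prod * ((List.range k).map b).prod := by
  induction k with
  | zero => simp
  | succ k ih =>
    have ih' := ih (fun l l' hl hl' hne => h l l' (by omega) (by omega) hne)
    simp only [List.range_succ, List.map_append, List.map_cons, List.map_nil, List.prod_append,
      List.prod_cons, List.prod_nil, mul_one] at ih' ⊢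
    rw [ih']
    have hc : Commute (a k) ((List.range k).map b).prod := by
      apply Commute.list_prod_right
      intro y hy
      rw [List.mem_map] at hy
      obtain ⟨l, hl, rfl⟩ := hy
      rw [List.mem_range] at hl
      exact h k l (by omega) (by omega) (by omega)
    calc ((List.range k).map a).prod * ((List.range k).map b).prod * (a k * b k)
        = ((List.range k).map a).prod * (((List.range k).map b).prod * a k) * b k := by
          simp only [mul_assoc]
      _ = ((List.range k).map a).prod * (a k * ((List.range k).map b).prod) * b k := by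
          rw [hc.eq]
      _ = _ := by simp only [mul_assoc]

private theorem Z1_ip_lt {n : ℕ} {C : SLC n} {D : Dg C} (β : C.Root) (hβ : D.r β ≠ β)
    (ho : C.ip β.1 (D.r β).1 = 0) (l d : ℕ)
    (hd : 0 < d) (hl : l + d < D.m) : C.ip (D.r^[l] β).1 (D.r^[l + d] β).1 = 0 := by
  induction l with
  | zero =>
    rw [Nat.zero_add] at hl ⊢
    rw [Function.iterate_zero, id, D.ip_orb β hβ d hd hl, ho]
  | succ l ih =>
    have : l + 1 + d = (l + d) + 1 := by omega
    rw [this, Function.iterate_succ', Function.iterate_succ', Function.comp, Function.comp, D.r_ip]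
    exact ih (by omega)

private theorem Z1_ip_ne {n : ℕ} {C : SLC n} {D : Dg C} (β : C.Root) (hβ : D.r β ≠ β)
    (ho : C.ip β.1 (D.r β).1 = 0) (l l' : ℕ)
    (hl : l < D.m) (hl' : l' < D.m) (hne : l ≠ l') :
    C.ip (D.r^[l] β).1 (D.r^[l'] β).1 = 0 := by
  rcases lt_or_gt_of_ne hne with h | h
  · obtain ⟨d, rfl⟩ := Nat.exists_eq_add_of_lt h
    exact Z1_ip_lt β hβ ho l (d + 1) (by omega) hl'
  · obtain ⟨d, rfl⟩ := Nat.exists_eq_add_of_lt h
    rw [C.ip_comm]
    exact Z1_ip_lt β hβ ho l' (d + 1) (by omega) hl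

private theorem Z1_comm' {n : ℕ} {C : SLC n} {D : Dg C} {k : Type*} [Field k] {H : Type*}
    [Group H] {S : StSys C k H} {s : H →* H}
    (hs : IsSig D (RingEquiv.refl k) S s) (β : C.Root) (hβ : D.r β ≠ β)
    (ho : C.ip β.1 (D.r β).1 = 0) (γ δ : C.Root) (hγ : γ = β ∨ γ = -β) (hδ : δ = β ∨ δ = -β)
    (t u : k) (l l' : ℕ) (hl : l < D.m) (hl' : l' < D.m) (hne : l ≠ l') :
    Commute (s^[l] (S.x γ t)) (s^[l'] (S.x δ u)) := by
  rw [hs.iter, hs.iter]
  apply S.comm
  apply le_of_eq
  have h0 := Z1_ip_ne β hβ ho l l' hl hl' hne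
  symm
  rcases hγ with rfl | rfl <;> rcases hδ with rfl | rfl <;>
    simp only [Z1_iter_neg, SLC.Root.neg_val, C.ip_neg_left, C.ip_neg_right, h0, neg_zero]

private theorem Z1_nn {n : ℕ} {C : SLC n} {D : Dg C} {k : Type*} [Field k] {H : Type*}
    [Group H] {S : StSys C k H} {s : H →* H} (hN : D.NA)
    (hs : IsSig D (RingEquiv.refl k) S s) (β : C.Root) (u : k) :
    yb D S s β u * yb D S s (-β) u⁻¹ * yb D S s β u =
      ((List.range (mo D β)).map fun l => s^[l] (nn S.x β u)).prod := by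
  unfold yb
  rw [Z1_mo_neg]
  by_cases hβ : D.r β = β
  · have h1 : mo D β = 1 := by
      unfold mo
      rw [if_pos hβ]
    rw [h1]
    simp [nn]
  · have h1 : mo D β = D.m := by
      unfold mo
      rw [if_neg hβ]
    have ho := D.ip_r_NA hN β hβ
    rw [h1, ← Z1_prod_mul, ← Z1_prod_mul]
    · congr 1
      apply List.map_congr_left
      intro l _
      unfold nn
      rw [iterate_map_mul, iterate_map_mul]
    · intro l l' hl hl' hne
      exact Commute.mul_left
        (Z1_comm' hs β hβ ho β β (Or.inl rfl) (Or.inl rfl) _ _ l l' hl hl' hne)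
        (Z1_comm' hs β hβ ho (-β) β (Or.inr rfl) (Or.inl rfl) _ _ l l' hl hl' hne)
    · intro l l' hl hl' hne
      exact Z1_comm' hs β hβ ho β (-β) (Or.inl rfl) (Or.inr rfl) _ _ l l' hl hl' hne

private theorem Z1_iter_nn {n : ℕ} {C : SLC n} {D : Dg C} {k : Type*} [Field k] {H : Type*}
    [Group H] {S : StSys C k H} {s : H →* H}
    (h : IsSig D (RingEquiv.refl k) S s) (i : Fin n) (l : ℕ) :
    s^[l] (nn S.x (C.simple i) 1) = nn S.x (C.simple ((D.ρ ^ l) i)) 1 := by
  induction l with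
  | zero => rfl
  | succ l ih =>
    rw [Function.iterate_succ_apply', ih, h.map_nn, D.r_simple, D.sg_simple, map_one, Int.cast_one,
      mul_one, pow_succ', Equiv.Perm.mul_apply]

private theorem Z1_nJ {n : ℕ} {C : SLC n} {D : Dg C} {k : Type*} [Field k] {H : Type*}
    [Group H] {S : StSys C k H} {s : H →* H} (hN : D.NA)
    (hs : IsSig D (RingEquiv.refl k) S s) (i : Fin n) :
    yb D S s (C.simple i) 1 * yb D S s (-(C.simple i)) 1 * yb D S s (C.simple i) 1 =
      S.nword (D.wl i) := by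
  have h0 := Z1_nn hN hs (C.simple i) 1
  rw [inv_one] at h0
  rw [h0]
  have h1 : C.A i (D.ρ i) ≠ -1 := hN i
  unfold StSys.nword Dg.wl mo
  rw [if_neg h1]
  by_cases h2 : D.ρ i = i
  · rw [if_pos h2, if_pos (by rw [D.r_simple, h2])]
    simp
  · rw [if_neg h2, if_neg (by
      rw [D.r_simple]
      exact fun hc => h2 (C.simple_injective hc)), List.map_map]
    congr 1
    apply List.map_congr_left
    intro l _
    exact Z1_iter_nn hs i l

private theorem Z1_cs {n : ℕ} {C : SLC n} (α β : C.Root) : C.cs α β = 1 ∨ C.cs α β = -1 := by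
  unfold SLC.cs
  split_ifs
  · exact C.eps_eq_one_or _ _
  · exact Or.inl rfl

private theorem Z1_nword {n : ℕ} {C : SLC n} {k : Type*} [Field k] {H : Type*}
    [Group H] (S : StSys C k H) (l : List (Fin n)) (β : C.Root) :
    ∃ e : ℤ, (e = 1 ∨ e = -1) ∧ ∀ t : k,
      S.nword l * S.x β t * (S.nword l)⁻¹ = S.x (C.wd l β) ((e : k) * t) := by
  induction l with
  | nil =>
    refine ⟨1, Or.inl rfl, fun t => ?_⟩
    have h1 : S.nword [] = 1 := by simp [StSys.nword]
    have h2 : C.wd [] = 1 := by simp [SLC.wd]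
    rw [h1, h2, Int.cast_one, one_mul, one_mul, inv_one, mul_one]
    rfl
  | cons j l ih =>
    obtain ⟨e, he, h1⟩ := ih
    have h2 : S.nword (j :: l) = nn S.x (C.simple j) 1 * S.nword l := by
      simp [StSys.nword]
    have h3 : C.wd (j :: l) = C.reflE (C.simple j) * C.wd l := by
      simp [SLC.wd]
    refine ⟨C.cs (C.simple j) (C.wd l β) * e, ?_, fun t => ?_⟩
    · rcases Z1_cs (C.simple j) (C.wd l β) with h4 | h4 <;> rcases he with h5 | h5 <;>
        rw [h4, h5] <;> norm_num
    · have h4 : S.nword (j :: l) * S.x β t * (S.nword (j :: l))⁻¹ =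
          nn S.x (C.simple j) 1 * (S.nword l * S.x β t * (S.nword l)⁻¹) *
            (nn S.x (C.simple j) 1)⁻¹ := by
        rw [h2]
        group
      rw [h4, h1, S.n_conj_all _ _ _ _ one_ne_zero, h3, _root_.one_zpow, mul_one, Int.cast_mul, mul_assoc]
      rfl


variable {n : ℕ} {C : SLC n} {D : Dg C} (hN : D.NA) {k : Type*} [Field k] [Infinite k]

include hN in
theorem mem_GF_fix (x : GL C.Idx k) (hx : x ∈ GF D k) :
    D.sgl (RingEquiv.refl k) x = x ∧ x ∈ C.Gad k := by
  refine ⟨Eg_le_fix _ _ x hx, ?_⟩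
  rw [← C.gen_adS k]
  exact Eg_le_gen _ _ hx

theorem yg_add (β : C.Root) (s t : k) : yg hN β (s + t) = yg hN β s * yg hN β t := by
  apply Subtype.ext
  exact yb_add (env_ad D hN k) hN β s t

theorem yg_zero (β : C.Root) : yg hN β (0 : k) = 1 := by
  apply Subtype.ext
  exact Z1_yb_zero β

theorem yg_neg (β : C.Root) (t : k) : yg hN β (-t) = (yg hN β t)⁻¹ := by
  apply eq_inv_of_mul_eq_one_left
  rw [← yg_add, neg_add_cancel, yg_zero]

theorem yg_r (β : C.Root) (t : k) : yg hN (D.r β) ((D.sg β : k) * t) = yg hN β t := by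
  apply Subtype.ext
  exact Z1_yb_r (env_ad D hN k).sig hN β t

/-- the root elements of the roots of one orbit are the same up to a sign -/
theorem yg_cycle (β γ : C.Root) (h : D.rE.SameCycle β γ) :
    ∃ e : ℤ, (e = 1 ∨ e = -1) ∧ ∀ t : k, yg hN γ ((e : k) * t) = yg hN β t := by
  obtain ⟨l, -, rfl⟩ := (D.sameCycle_iff _ _).mp h
  clear h
  induction l with
  | zero =>
    refine ⟨1, Or.inl rfl, fun t => ?_⟩
    rw [Int.cast_one, one_mul]
    rfl
  | succ l ih =>
    obtain ⟨e, he, h1⟩ := ih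
    refine ⟨D.sg (D.r^[l] β) * e, ?_, fun t => ?_⟩
    · rcases D.sg_eq (D.r^[l] β) with h2 | h2 <;> rcases he with h3 | h3 <;> rw [h2, h3] <;>
        norm_num
    · rw [Function.iterate_succ_apply', Int.cast_mul, mul_assoc, yg_r]
      exact h1 t

/-- without a sign for simple roots -/
theorem yg_cycle_simple (i j : Fin n) (h : D.ρ.SameCycle i j) (t : k) :
    yg hN (C.simple i) t = yg hN (C.simple j) t ∧
      yg hN (-(C.simple i)) t = yg hN (-(C.simple j)) t := by
  obtain ⟨l, -, h1⟩ := (D.sameCycle_iff _ _).mp ((D.sameCycle_simple i j).mpr h)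
  rw [h1]
  clear h1 h
  induction l with
  | zero => exact ⟨rfl, rfl⟩
  | succ l ih =>
    have h1 : D.sg (D.r^[l] (C.simple i)) = 1 := by
      rw [D.r_iter_simple]
      exact D.sg_simple _
    have h2 := yg_r hN (D.r^[l] (C.simple i)) t
    have h3 := yg_r hN (-(D.r^[l] (C.simple i))) t
    rw [D.sg_neg, h1, Int.cast_one, one_mul, D.r_neg] at h3
    rw [h1, Int.cast_one, one_mul] at h2
    rw [Function.iterate_succ_apply', h2, h3]
    exact ih

theorem yg_long (β : C.Root) (h : D.r β = β) (t : k) :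
    ((yg hN β t : GF D k) : GL C.Idx k) = C.xg k β t := by
  rw [yg_val]
  unfold yb mo
  rw [if_pos h]
  simp

theorem yg_pos (β : C.Root) (h : C.Pos β) (t : k) : yg hN β t ∈ FU D k := by
  rw [FU, Subgroup.mem_subgroupOf]
  exact yb_fixU (env_ad D hN k) hN β h t

theorem yg_npos (β : C.Root) (h : ¬ C.Pos β) (t : k) : yg hN β t ∈ FUm D k := by
  rw [FUm, Subgroup.mem_subgroupOf, yg_val]
  obtain ⟨p, he⟩ := Z1_env_neg D hN k
  have h1 : C.Pos (-β) := by
    have := C.ht_ne_zero β
    unfold SLC.Pos at h ⊢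
    rw [SLC.Root.neg_val, ht_neg]
    omega
  have h2 := yb_fixU he hN (-β) h1 t
  rwa [Z1_yb_neg, C.neg_neg_root, Z1_fixU_neg] at h2

theorem yg_inj (β γ : C.Root) (t u : k) (ht : t ≠ 0) (h : yg hN β t = yg hN γ u) :
    D.rE.SameCycle β γ ∧ (β = γ → t = u) := by
  have h0 : yb D (C.adS k) (D.sgl (RingEquiv.refl k)) β t =
      yb D (C.adS k) (D.sgl (RingEquiv.refl k)) γ u := congrArg Subtype.val h
  have hneg : ∀ δ : C.Root, ¬ C.Pos δ → C.Pos (-δ) := fun δ hδ => by
    have := C.ht_ne_zero δ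
    unfold SLC.Pos at hδ ⊢
    rw [SLC.Root.neg_val, ht_neg]
    omega
  have he := env_ad D hN k
  obtain ⟨p, he'⟩ := Z1_env_neg D hN k
  by_cases h1 : C.Pos β <;> by_cases h2 : C.Pos γ
  · exact Z1_inj he hN β γ h1 h2 t u ht h0
  · exfalso
    have h3 : yb D (C.adS k) (D.sgl (RingEquiv.refl k)) β t = 1 := by
      apply U_inf_Um
      · exact (yb_fixU he hN β h1 t).1
      · rw [h0]
        have h4 := yg_npos hN γ h2 u
        rw [FUm, Subgroup.mem_subgroupOf, yg_val] at h4
        exact h4.1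
    exact ht (yb_one he hN β h1 t h3)
  · exfalso
    have h3 : yb D (C.adS k) (D.sgl (RingEquiv.refl k)) β t = 1 := by
      apply U_inf_Um
      · rw [h0]
        exact (yb_fixU he hN γ h2 u).1
      · have h4 := yg_npos hN β h1 t
        rw [FUm, Subgroup.mem_subgroupOf, yg_val] at h4
        exact h4.1
    refine ht (yb_one he' hN (-β) (hneg β h1) t ?_)
    rw [Z1_yb_neg, C.neg_neg_root]
    exact h3
  · have h3 := Z1_inj he' hN (-β) (-γ) (hneg β h1) (hneg γ h2) t u ht (by
      rw [Z1_yb_neg, Z1_yb_neg, C.neg_neg_root, C.neg_neg_root]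
      exact h0)
    exact ⟨Z1_sc_neg β γ h3.1, fun h4 => h3.2 (congrArg Neg.neg h4)⟩

theorem yg_T (h : GF D k) (hh : h ∈ FT D k) (β : C.Root) (t : k) :
    h * yg hN β t * h⁻¹ =
      yg hN β (C.chi ((h : GL C.Idx k) : Matrix C.Idx C.Idx k) β * t) := by
  apply Subtype.ext
  rw [FT, Subgroup.mem_subgroupOf] at hh
  exact yb_T (env_ad D hN k) hN β (h : GL C.Idx k) ⟨hh, h.2⟩ t

/-- an element of the folded group acting on the root elements of the ambient group -/
theorem yg_acts (g : GF D k) (w : Equiv.Perm C.Root) (hg : (C.adS k).Acts (g : GL C.Idx k) w)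
    (hw : D.rE * w * D.rE⁻¹ = w) : ∃ c : C.Root → k, (∀ β, c β ≠ 0) ∧
      ∀ β t, g * yg hN β t * g⁻¹ = yg hN (w β) (c β * t) := by
  obtain ⟨c, hc, h1⟩ := hg
  refine ⟨c, hc, fun β t => ?_⟩
  apply Subtype.ext
  exact Z1_conj_yb (g : GL C.Idx k) (mem_GF_fix hN _ g.2).1 w hw β (c β) t (h1 β t)

theorem FU_eq : FU D k = Subgroup.closure {g | ∃ β : C.Root, C.Pos β ∧ ∃ t : k, g = yg hN β t} := by
  have he := env_ad D hN k
  have h1 : (Subgroup.closure {g : GF D k | ∃ β : C.Root, C.Pos β ∧ ∃ t : k, g = yg hN β t}).map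
      (GF D k).subtype = fixU (C.adS k) (D.sgl (RingEquiv.refl k)) := by
    rw [MonoidHom.map_closure, fixU_eq adS_inj he.sig he.hθ he.hB]
    congr 1
    ext g
    constructor
    · rintro ⟨_, ⟨β, hβ, t, rfl⟩, rfl⟩
      exact ⟨β, hβ, (Z1_fixX_iff D hN k β _).2 ⟨t, rfl⟩⟩
    · rintro ⟨β, hβ, hg⟩
      obtain ⟨t, rfl⟩ := (Z1_fixX_iff D hN k β _).1 hg
      exact ⟨yg hN β t, ⟨β, hβ, t, rfl⟩, rfl⟩
  unfold FU
  rw [← h1]
  exact Subgroup.comap_map_eq_self_of_injective (Subgroup.subtype_injective _) _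

theorem FUm_eq :
    FUm D k = Subgroup.closure {g | ∃ β : C.Root, ¬ C.Pos β ∧ ∃ t : k, g = yg hN β t} := by
  have he := env_ad D hN k
  have h1 : (Subgroup.closure {g : GF D k | ∃ β : C.Root, ¬ C.Pos β ∧ ∃ t : k, g = yg hN β t}).map
      (GF D k).subtype = fixUm (C.adS k) (D.sgl (RingEquiv.refl k)) := by
    rw [MonoidHom.map_closure, fixUm_eq adS_neg_inj he.sig he.hθ he.hB]
    congr 1
    ext g
    constructor
    · rintro ⟨_, ⟨β, hβ, t, rfl⟩, rfl⟩
      exact ⟨β, hβ, (Z1_fixX_iff D hN k β _).2 ⟨t, rfl⟩⟩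
    · rintro ⟨β, hβ, hg⟩
      obtain ⟨t, rfl⟩ := (Z1_fixX_iff D hN k β _).1 hg
      exact ⟨yg hN β t, ⟨β, hβ, t, rfl⟩, rfl⟩
  unfold FUm
  rw [← h1]
  exact Subgroup.comap_map_eq_self_of_injective (Subgroup.subtype_injective _) _

theorem xi_yg (i : Fin n) (β : C.Root) (hβ : C.Pos β) (t : k) :
    ((∃ j, β = C.simple j ∧ D.ρ.SameCycle j i) →
      C.xi i (((yg hN β t : GF D k) : GL C.Idx k) : Matrix C.Idx C.Idx k) = t) ∧
    ((¬ ∃ j, β = C.simple j ∧ D.ρ.SameCycle j i) →
      C.xi i (((yg hN β t : GF D k) : GL C.Idx k) : Matrix C.Idx C.Idx k) = 0) := by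
  have hs : IsSig D (RingEquiv.refl k) (C.adS k) (D.sgl (RingEquiv.refl k)) :=
    (env_ad D hN k).sig
  have hU : ∀ l (c : k), (C.adS k).x (D.r^[l] β) c ∈ (C.adS k).U 1 := by
    intro l c
    refine Subgroup.subset_closure ⟨_, _, ?_, rfl⟩
    rw [Z1_ht]
    unfold SLC.Pos at hβ
    omega
  have hP : ∀ l, C.Pos (D.r^[l] β) := by
    intro l
    unfold SLC.Pos at hβ ⊢
    rw [Z1_ht]
    exact hβ
  constructor
  · rintro ⟨j, rfl, hj⟩
    rw [(yg_cycle_simple hN j i hj t).1, yg_val, Z1_form hs]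
    obtain ⟨m', hm'⟩ : ∃ m', mo D (C.simple i) = m' + 1 :=
      ⟨mo D (C.simple i) - 1, by have := Z1_mo_pos (D := D) (C.simple i); omega⟩
    rw [hm', List.range_succ_eq_map, List.map_cons, List.prod_cons, List.map_map]
    have hPi : ∀ l, C.Pos (D.r^[l] (C.simple i)) := by
      intro l
      have := C.simple_pos i
      unfold SLC.Pos at this ⊢
      rw [Z1_ht]
      exact this
    have hUi : ∀ l (c : k), (C.adS k).x (D.r^[l] (C.simple i)) c ∈ (C.adS k).U 1 := by
      intro l c
      refine Subgroup.subset_closure ⟨_, _, ?_, rfl⟩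
      have := hPi l
      unfold SLC.Pos at this
      omega
    have h1 := Z1_xi0 (k := k) i ((List.range m').map ((fun l => (C.adS k).x
      (D.r^[l] (C.simple i)) ((D.sgp l (C.simple i) : k) * t)) ∘ Nat.succ)) (by
      intro g hg
      obtain ⟨l, hl, rfl⟩ := List.mem_map.mp hg
      rw [List.mem_range] at hl
      refine ⟨hUi _ _, ?_⟩
      have h2 := C.xi_xg i (D.r^[l + 1] (C.simple i)) (hPi (l + 1))
        ((D.sgp (l + 1) (C.simple i) : k) * t)
      refine h2.trans (if_neg ?_)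
      intro h3
      unfold mo at hm'
      by_cases h4 : D.r (C.simple i) = C.simple i
      · rw [if_pos h4] at hm'
        omega
      · rw [if_neg h4] at hm'
        have h5 := D.r_iter_eq (C.simple i) h4 (l + 1) 0 (by omega) (by omega) h3
        omega)
    rw [C.xi_mul i _ _ (hUi 0 _) h1.1, h1.2, add_zero]
    have h2 := C.xi_xg i (C.simple i) (C.simple_pos i) ((D.sgp 0 (C.simple i) : k) * t)
    rw [if_pos rfl] at h2
    have h3 : D.sgp 0 (C.simple i) = 1 := by
      unfold Dg.sgp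
      simp
    refine h2.trans ?_
    rw [h3, Int.cast_one, one_mul]
  · intro hne
    rw [yg_val, Z1_form hs]
    refine (Z1_xi0 (k := k) i _ ?_).2
    intro g hg
    obtain ⟨l, hl, rfl⟩ := List.mem_map.mp hg
    refine ⟨hU _ _, ?_⟩
    have h2 := C.xi_xg i (D.r^[l] β) (hP l) ((D.sgp l β : k) * t)
    refine h2.trans (if_neg ?_)
    intro h3
    apply hne
    have h4 : D.rE.SameCycle (C.simple i) β := by
      refine Equiv.Perm.SameCycle.symm ⟨l, ?_⟩
      rw [zpow_natCast, ← h3]
      clear h3 h2 hg hl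
      induction l with
      | zero => rfl
      | succ l ih =>
        rw [pow_succ', Equiv.Perm.mul_apply, ih, Function.iterate_succ_apply']
        rfl
    obtain ⟨l', -, h5⟩ := (D.sameCycle_iff _ _).mp h4
    rw [D.r_iter_simple] at h5
    refine ⟨_, h5, ?_⟩
    rw [h5, D.sameCycle_simple] at h4
    exact h4.symm

/-- The standard monomial element belonging to the simple root `j`. -/
noncomputable def nJ (k : Type*) [Field k] (j : Fin n) : GF D k :=
  yg hN (C.simple j) (1 : k) * yg hN (-(C.simple j)) 1 * yg hN (C.simple j) 1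

theorem nJ_mem (j : Fin n) : nJ hN k j ∈ FN D k ∧
    (C.adS k).Acts ((nJ hN k j : GF D k) : GL C.Idx k) (C.wd (D.wl j)) := by
  have h1 : ((nJ hN k j : GF D k) : GL C.Idx k) = (C.adS k).nword (D.wl j) :=
    Z1_nJ hN (env_ad D hN k).sig j
  constructor
  · rw [FN, Subgroup.mem_subgroupOf, h1]
    exact (C.adS k).nword_mem _
  · rw [h1]
    exact (C.adS k).nword_acts _

/-- conjugation with `nJ` changes the parameters by a sign only -/
theorem nJ_conj (j : Fin n) (β : C.Root) : ∃ e : ℤ, (e = 1 ∨ e = -1) ∧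
    ∀ t : k, nJ hN k j * yg hN β t * (nJ hN k j)⁻¹ =
      yg hN (C.wd (D.wl j) β) ((e : k) * t) := by
  have h1 : ((nJ hN k j : GF D k) : GL C.Idx k) = (C.adS k).nword (D.wl j) :=
    Z1_nJ hN (env_ad D hN k).sig j
  obtain ⟨e, he, h2⟩ := Z1_nword (C.adS k) (D.wl j) β
  refine ⟨e, he, fun t => ?_⟩
  apply Subtype.ext
  refine Z1_conj_yb ((nJ hN k j : GF D k) : GL C.Idx k) (mem_GF_fix hN _ (nJ hN k j).2).1 _
    (D.wJ_comm j) β (e : k) t ?_
  rw [h1]
  exact h2 t

theorem nJ_cycle (i j : Fin n) (h : D.ρ.SameCycle i j) : nJ hN k i = nJ hN k j := by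
  unfold nJ
  rw [(yg_cycle_simple hN i j h (1 : k)).1, (yg_cycle_simple hN i j h (1 : k)).2]

/-- elements of the folded group which commute with the simple root elements -/
theorem GF_gen : Subgroup.closure {g : GF D k | ∃ (j : Fin n) (t : k),
    g = yg hN (C.simple j) t ∨ g = yg hN (-(C.simple j)) t} = ⊤ := by
  have he := env_ad D hN k
  have h1 : (Subgroup.closure {g : GF D k | ∃ (j : Fin n) (t : k),
      g = yg hN (C.simple j) t ∨ g = yg hN (-(C.simple j)) t}).map
      (GF D k).subtype = (⊤ : Subgroup (GF D k)).map (GF D k).subtype := by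
    rw [← MonoidHom.range_eq_map, Subgroup.range_subtype, MonoidHom.map_closure]
    have h2 := Eg_gen he
    refine Eq.trans ?_ h2.symm
    congr 1
    ext g
    constructor
    · rintro ⟨_, ⟨j, t, rfl | rfl⟩, rfl⟩
      · exact ⟨j, Or.inl ((Z1_fixX_iff D hN k _ _).2 ⟨t, rfl⟩)⟩
      · exact ⟨j, Or.inr ((Z1_fixX_iff D hN k _ _).2 ⟨t, rfl⟩)⟩
    · rintro ⟨j, hg | hg⟩
      · obtain ⟨t, rfl⟩ := (Z1_fixX_iff D hN k _ _).1 hg
        exact ⟨yg hN _ t, ⟨j, t, Or.inl rfl⟩, rfl⟩
      · obtain ⟨t, rfl⟩ := (Z1_fixX_iff D hN k _ _).1 hg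
        exact ⟨yg hN _ t, ⟨j, t, Or.inr rfl⟩, rfl⟩
  exact Subgroup.map_injective (Subgroup.subtype_injective _) h1

end Pool.Agent.H86.UM
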