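import Pool.Agent.H86.UM.FX
import Pool.Agent.H86.UM.GEN

/-!
# Project UM, Suzuki-Ree groups, module Z0: definitions

`GF D k` is the folded group over `k` (the group `G(Φ, k)` for `Φ = B₂, F₄, G₂` if `C, D` is `A₃` with
`ρ` of order `2`, `E₆` with `ρ` of order `2`, `D₄` with `ρ` of order `3`), in its adjoint version: the subgroup of
`GL C.Idx k` generated by the fixed points of the graph automorphism in `U⁺` and in `U⁻`. `D.r β = β`: long
root, otherwise the orbit of `β` is a short root of `Φ`.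
-/

set_option autoImplicit false
open Matrix

namespace Pool.Agent.H86.UM

open Pool.Agent.H75.UL

variable {n : ℕ} {C : SLC n}

/-- The folded group. -/
noncomputable abbrev GF (D : Dg C) (k : Type*) [Field k] : Subgroup (GL C.Idx k) :=
  Eg (C.adS k) (D.sgl (RingEquiv.refl k))

theorem env_ad (D : Dg C) (hN : D.NA) (k : Type*) [Field k] [Infinite k] :
    Env D (RingEquiv.refl k) (C.adS k) (D.sgl (RingEquiv.refl k)) (MonoidHom.id _) where
  inf := inferInstance
  sig := isSig_adS D _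
  hp := fun _ _ => rfl
  hθ := fun t => by simp [Function.iterate_fixed]
  hA := Or.inl hN
  hB := Or.inl hN
  hC := Or.inl hN

theorem yb_mem (D : Dg C) (hN : D.NA) (k : Type*) [Field k] (β : C.Root) (t : k) :
    yb D (C.adS k) (D.sgl (RingEquiv.refl k)) β t ∈ GF D k := by
  have hs : IsSig D (RingEquiv.refl k) (C.adS k) (D.sgl (RingEquiv.refl k)) := isSig_adS D _
  by_cases h : D.r β = β
  · have e : yb D (C.adS k) (D.sgl (RingEquiv.refl k)) β t = (C.adS k).x β t := by
      unfold yb mo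
      rw [if_pos h]
      simp
    have hf : D.sgl (RingEquiv.refl k) ((C.adS k).x β t) = (C.adS k).x β t := by
      rw [hs β t, h, D.sg_fix hN β h]
      simp
    rw [e]
    by_cases hp : C.Pos β
    · refine (le_sup_left : fixU _ _ ≤ _) ⟨Subgroup.subset_closure ⟨β, t, ?_, rfl⟩, hf⟩
      unfold SLC.Pos at hp
      omega
    · refine (le_sup_right : fixUm _ _ ≤ _) ⟨Subgroup.subset_closure ⟨β, t, ?_, rfl⟩, hf⟩
      have := C.ht_ne_zero β
      unfold SLC.Pos at hp
      omega
  · have h1 := prod_x_mem hs (fun t => by simp [Function.iterate_fixed]) β h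
      (D.ip_r_NA hN β h) t
    unfold yb mo
    rw [if_neg h]
    exact h1

/-- The root elements of the folded group. -/
noncomputable def yg {D : Dg C} (hN : D.NA) {k : Type*} [Field k] (β : C.Root) (t : k) :
    GF D k := ⟨yb D (C.adS k) (D.sgl (RingEquiv.refl k)) β t, yb_mem D hN k β t⟩

theorem yg_val {D : Dg C} (hN : D.NA) {k : Type*} [Field k] (β : C.Root) (t : k) :
    ((yg hN β t : GF D k) : GL C.Idx k) = yb D (C.adS k) (D.sgl (RingEquiv.refl k)) β t := rfl

section
variable (D : Dg C) (k : Type*) [Field k]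

/-- `U⁺` -/
noncomputable def FU : Subgroup (GF D k) :=
  (fixU (C.adS k) (D.sgl (RingEquiv.refl k))).subgroupOf (GF D k)

/-- `U⁻` -/
noncomputable def FUm : Subgroup (GF D k) :=
  (fixUm (C.adS k) (D.sgl (RingEquiv.refl k))).subgroupOf (GF D k)

/-- The torus. -/
noncomputable def FT : Subgroup (GF D k) := (C.adS k).T.subgroupOf (GF D k)

/-- The monomial subgroup. -/
noncomputable def FN : Subgroup (GF D k) := (C.adS k).N.subgroupOf (GF D k)

end

/-- The linear map exchanging the long and the short roots (on `ρ`-invariant vectors). -/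
noncomputable def TT (D : Dg C) (t0 : Fin n → Fin n) (v : Fin n → ℤ) : Fin n → ℤ :=
  fun j => (if D.ρ j = j then (D.m : ℤ) else 1) * v (t0 j)

/-- `t0` maps each node to a node of the other length. -/
structure Swap (D : Dg C) (t0 : Fin n → Fin n) : Prop where
  na : D.NA
  m_ne : D.m ≠ 1
  fix_iff : ∀ j, D.ρ (t0 j) = t0 j ↔ D.ρ j ≠ j
  rho : ∀ j, t0 (D.ρ j) = t0 j
  inv : ∀ j, D.ρ.SameCycle j (t0 (t0 j))
  scale : ∀ v w, SLC.lmap D.ρ v = v → SLC.lmap D.ρ w = w →
    C.ip (TT D t0 v) (TT D t0 w) = (D.m : ℤ) * C.ip v w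

open Classical in
/-- The action of `σ` on the parameters. -/
noncomputable def th (D : Dg C) {k : Type*} [Field k] (θ : k ≃+* k) (β : C.Root) (t : k) : k :=
  if D.r β = β then θ.symm t else θ t

/-- `σ` is the automorphism `x_(± α)(t) ↦ x_(± t0 α)(θ^(±1) t)` (`α` simple) of the folded group, where
`θ (θ t) = t ^ m`, `m = char k`. -/
structure SRs (D : Dg C) (t0 : Fin n → Fin n) {k : Type*} [Field k] (θ : k ≃+* k)
    (σ : GF D k →* GF D k) : Prop where
  chr : CharP k D.m
  hθ : ∀ t, θ (θ t) = t ^ D.m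
  pos : ∀ (j : Fin n) (t : k) (x : GF D k),
    (x : GL C.Idx k) = yb D (C.adS k) (D.sgl (RingEquiv.refl k)) (C.simple j) t →
    (σ x : GL C.Idx k) = yb D (C.adS k) (D.sgl (RingEquiv.refl k)) (C.simple (t0 j))
      (th D θ (C.simple j) t)
  neg : ∀ (j : Fin n) (t : k) (x : GF D k),
    (x : GL C.Idx k) = yb D (C.adS k) (D.sgl (RingEquiv.refl k)) (-(C.simple j)) t →
    (σ x : GL C.Idx k) = yb D (C.adS k) (D.sgl (RingEquiv.refl k)) (-(C.simple (t0 j)))
      (th D θ (C.simple j) t)

/-- The fixed points of `σ`. -/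
def Fx {G : Type*} [Group G] (σ : G →* G) : Subgroup G := MonoidHom.eqLocus σ (MonoidHom.id G)

theorem mem_Fx {G : Type*} [Group G] (σ : G →* G) (x : G) : x ∈ Fx σ ↔ σ x = x := Iff.rfl

/-- The Suzuki-Ree group: generated by the fixed points of `σ` in `U⁺` and in `U⁻`. -/
noncomputable def Esr (D : Dg C) {k : Type*} [Field k] (σ : GF D k →* GF D k) :
    Subgroup (GF D k) := (FU D k ⊓ Fx σ) ⊔ (FUm D k ⊓ Fx σ)

/-- The sum over the orbit of `β`. -/
noncomputable def osum (D : Dg C) (β : C.Root) : Fin n → ℤ :=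
  ∑ l ∈ Finset.range (mo D β), (D.r^[l] β).1

/-- `τ` exchanges the long and the short roots. -/
structure IsTau (D : Dg C) (t0 : Fin n → Fin n) (τ : C.Root → C.Root) : Prop where
  long : ∀ β, D.r β = β → D.r (τ β) ≠ τ β ∧ osum D (τ β) = TT D t0 β.1
  short : ∀ β, D.r β ≠ β → D.r (τ β) = τ β ∧ (D.m : ℤ) • (τ β).1 = TT D t0 (osum D β)

/-- `σ` on all root elements. -/
structure SRt {D : Dg C} (hN : D.NA) (t0 : Fin n → Fin n) {k : Type*} [Field k] (θ : k ≃+* k)
    (σ : GF D k →* GF D k) (τ : C.Root → C.Root) (e : C.Root → ℤ) : Prop where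
  tau : IsTau D t0 τ
  e_eq : ∀ β, e β = 1 ∨ e β = -1
  map : ∀ β t, σ (yg hN β t) = yg hN (τ β) ((e β : k) * th D θ β t)

/-- The nodes belonging to `i`. -/
def JJ (D : Dg C) (t0 : Fin n → Fin n) (i j : Fin n) : Prop :=
  D.ρ.SameCycle i j ∨ D.ρ.SameCycle (t0 i) j

/-- `β` is supported on the nodes belonging to `i`. -/
def suppJ (D : Dg C) (t0 : Fin n → Fin n) (i : Fin n) (β : C.Root) : Prop :=
  ∀ j, β.1 j ≠ 0 → JJ D t0 i j

/-- The subgroup of the folded group generated by the root elements of a set of roots. -/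
noncomputable def FR {D : Dg C} (hN : D.NA) (k : Type*) [Field k] (R : Set C.Root) :
    Subgroup (GF D k) := Subgroup.closure {g | ∃ β ∈ R, ∃ t : k, g = yg hN β t}

/-- Positive roots supported on the nodes belonging to `i`. -/
def RJ (D : Dg C) (t0 : Fin n → Fin n) (i : Fin n) : Set C.Root :=
  {β | C.Pos β ∧ suppJ D t0 i β}

/-- The other positive roots. -/
def RcJ (D : Dg C) (t0 : Fin n → Fin n) (i : Fin n) : Set C.Root :=
  {β | C.Pos β ∧ ¬ suppJ D t0 i β}

/-- The simple root groups of the Suzuki-Ree group. -/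
noncomputable def XJ {D : Dg C} (hN : D.NA) (t0 : Fin n → Fin n) {k : Type*} [Field k]
    (σ : GF D k →* GF D k) (i : Fin n) : Subgroup (GF D k) := FR hN k (RJ D t0 i) ⊓ Fx σ

/-- The opposite simple root groups of the Suzuki-Ree group. -/
noncomputable def XmJ {D : Dg C} (hN : D.NA) (t0 : Fin n → Fin n) {k : Type*} [Field k]
    (σ : GF D k →* GF D k) (i : Fin n) : Subgroup (GF D k) :=
  FR hN k {β | -β ∈ RJ D t0 i} ⊓ Fx σ

end Pool.Agent.H86.UM
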