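import Pool.Agent.H86.UM.ZT
import Pool.Agent.H86.UM.Z0

/-!
# Project UM, Suzuki-Ree groups, module ZTs: the three types satisfy `Swap`

`scale`: write `v, w` (invariant under `ρ`, e.g. `v 2 = v 0` for `A₃`) in coordinates and expand
(`SLC.ip`, `Fin.sum_univ_succ`, `Matrix.mulVec`, `dotProduct`), `ring`. `D.m` is known (`dA3_m`, ..).
`SameCycle`: give the power (`0` or `1` or `2`) and `decide`.
-/

set_option autoImplicit false
open Matrix

namespace Pool.Agent.H86.UM

open Pool.Agent.H75.UL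

theorem swap_A3 : Swap dA3 tA3 where
  na := by
    show ∀ i, cA3.A i (dA3.ρ i) ≠ -1
    decide
  m_ne := by rw [dA3_m]; norm_num
  fix_iff := by decide
  rho := by decide
  inv := by
    have h : ∀ j : Fin 3, (dA3.ρ ^ 0) j = tA3 (tA3 j) ∨ (dA3.ρ ^ 1) j = tA3 (tA3 j) := by decide
    intro j
    rcases h j with h | h
    · exact ⟨(0 : ℕ), by rw [zpow_natCast]; exact h⟩
    · exact ⟨(1 : ℕ), by rw [zpow_natCast]; exact h⟩
  scale := by
    intro v w hv hw
    have v2 : v 2 = v 0 := congrFun hv 0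
    have w2 : w 2 = w 0 := congrFun hw 0
    have p0 : ¬ (dA3.ρ 0 = 0) := by decide
    have p1 : dA3.ρ 1 = 1 := by decide
    have p2 : ¬ (dA3.ρ 2 = 2) := by decide
    have hT : ∀ u : Fin 3 → ℤ, TT dA3 tA3 u = ![u 1, 2 * u 0, u 1] := by
      intro u
      funext j
      fin_cases j
      · show (if dA3.ρ 0 = 0 then (dA3.m : ℤ) else 1) * u 1 = u 1
        rw [if_neg p0, one_mul]
      · show (if dA3.ρ 1 = 1 then (dA3.m : ℤ) else 1) * u 0 = 2 * u 0
        rw [if_pos p1, dA3_m]
        norm_num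
      · show (if dA3.ρ 2 = 2 then (dA3.m : ℤ) else 1) * u 1 = u 1
        rw [if_neg p2, one_mul]
    have hv' : v = ![v 0, v 1, v 0] := by
      funext j
      fin_cases j
      · rfl
      · rfl
      · exact v2
    have hw' : w = ![w 0, w 1, w 0] := by
      funext j
      fin_cases j
      · rfl
      · rfl
      · exact w2
    rw [hT v, hT w, dA3_m]
    conv_rhs => rw [hv', hw']
    generalize v 0 = a, v 1 = b, w 0 = c, w 1 = d
    simp [SLC.ip, cA3, Matrix.mulVec, dotProduct, Fin.sum_univ_succ]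
    ring

theorem swap_D4 : Swap dD4 tD4 where
  na := by
    show ∀ i, cD4.A i (dD4.ρ i) ≠ -1
    decide
  m_ne := by rw [dD4_m]; norm_num
  fix_iff := by decide
  rho := by decide
  inv := by
    have h : ∀ j : Fin 4, (dD4.ρ ^ 0) j = tD4 (tD4 j) ∨ (dD4.ρ ^ 1) j = tD4 (tD4 j) ∨
        (dD4.ρ ^ 2) j = tD4 (tD4 j) := by decide
    intro j
    rcases h j with h | h | h
    · exact ⟨(0 : ℕ), by rw [zpow_natCast]; exact h⟩
    · exact ⟨(1 : ℕ), by rw [zpow_natCast]; exact h⟩
    · exact ⟨(2 : ℕ), by rw [zpow_natCast]; exact h⟩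
  scale := by
    intro v w hv hw
    have hv2 : v 0 = v 2 := congrFun hv 2
    have hv3 : v 2 = v 3 := congrFun hv 3
    have hw2 : w 0 = w 2 := congrFun hw 2
    have hw3 : w 2 = w 3 := congrFun hw 3
    have p0 : ¬ (dD4.ρ 0 = 0) := by decide
    have p1 : dD4.ρ 1 = 1 := by decide
    have p2 : ¬ (dD4.ρ 2 = 2) := by decide
    have p3 : ¬ (dD4.ρ 3 = 3) := by decide
    have hT : ∀ u : Fin 4 → ℤ, TT dD4 tD4 u = ![u 1, 3 * u 0, u 1, u 1] := by
      intro u
      funext j
      fin_cases j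
      · show (if dD4.ρ 0 = 0 then (dD4.m : ℤ) else 1) * u 1 = u 1
        rw [if_neg p0, one_mul]
      · show (if dD4.ρ 1 = 1 then (dD4.m : ℤ) else 1) * u 0 = 3 * u 0
        rw [if_pos p1, dD4_m]
        norm_num
      · show (if dD4.ρ 2 = 2 then (dD4.m : ℤ) else 1) * u 1 = u 1
        rw [if_neg p2, one_mul]
      · show (if dD4.ρ 3 = 3 then (dD4.m : ℤ) else 1) * u 1 = u 1
        rw [if_neg p3, one_mul]
    have hv' : v = ![v 0, v 1, v 0, v 0] := by
      funext j
      fin_cases j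
      · rfl
      · rfl
      · exact hv2.symm
      · exact (hv2.trans hv3).symm
    have hw' : w = ![w 0, w 1, w 0, w 0] := by
      funext j
      fin_cases j
      · rfl
      · rfl
      · exact hw2.symm
      · exact (hw2.trans hw3).symm
    rw [hT v, hT w, dD4_m]
    conv_rhs => rw [hv', hw']
    generalize v 0 = a, v 1 = b, w 0 = c, w 1 = d
    simp [SLC.ip, cD4, Matrix.mulVec, dotProduct, Fin.sum_univ_succ]
    ring

theorem swap_E6 : Swap dE6 tE6 where
  na := by
    show ∀ i, cE6.A i (dE6.ρ i) ≠ -1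
    decide
  m_ne := by rw [dE6_m]; norm_num
  fix_iff := by decide
  rho := by decide
  inv := by
    have h : ∀ j : Fin 6, (dE6.ρ ^ 0) j = tE6 (tE6 j) ∨ (dE6.ρ ^ 1) j = tE6 (tE6 j) := by decide
    intro j
    rcases h j with h | h
    · exact ⟨(0 : ℕ), by rw [zpow_natCast]; exact h⟩
    · exact ⟨(1 : ℕ), by rw [zpow_natCast]; exact h⟩
  scale := by
    intro v w hv hw
    have hv5 : v 5 = v 0 := congrFun hv 0
    have hv4 : v 4 = v 2 := congrFun hv 2
    have hw5 : w 5 = w 0 := congrFun hw 0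
    have hw4 : w 4 = w 2 := congrFun hw 2
    have p0 : ¬ (dE6.ρ 0 = 0) := by decide
    have p1 : dE6.ρ 1 = 1 := by decide
    have p2 : ¬ (dE6.ρ 2 = 2) := by decide
    have p3 : dE6.ρ 3 = 3 := by decide
    have p4 : ¬ (dE6.ρ 4 = 4) := by decide
    have p5 : ¬ (dE6.ρ 5 = 5) := by decide
    have hT : ∀ u : Fin 6 → ℤ, TT dE6 tE6 u = ![u 1, 2 * u 0, u 3, 2 * u 2, u 3, u 1] := by
      intro u
      funext j
      fin_cases j
      · show (if dE6.ρ 0 = 0 then (dE6.m : ℤ) else 1) * u 1 = u 1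
        rw [if_neg p0, one_mul]
      · show (if dE6.ρ 1 = 1 then (dE6.m : ℤ) else 1) * u 0 = 2 * u 0
        rw [if_pos p1, dE6_m]
        norm_num
      · show (if dE6.ρ 2 = 2 then (dE6.m : ℤ) else 1) * u 3 = u 3
        rw [if_neg p2, one_mul]
      · show (if dE6.ρ 3 = 3 then (dE6.m : ℤ) else 1) * u 2 = 2 * u 2
        rw [if_pos p3, dE6_m]
        norm_num
      · show (if dE6.ρ 4 = 4 then (dE6.m : ℤ) else 1) * u 3 = u 3
        rw [if_neg p4, one_mul]
      · show (if dE6.ρ 5 = 5 then (dE6.m : ℤ) else 1) * u 1 = u 1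
        rw [if_neg p5, one_mul]
    have hv' : v = ![v 0, v 1, v 2, v 3, v 2, v 0] := by
      funext j
      fin_cases j
      · rfl
      · rfl
      · rfl
      · rfl
      · exact hv4
      · exact hv5
    have hw' : w = ![w 0, w 1, w 2, w 3, w 2, w 0] := by
      funext j
      fin_cases j
      · rfl
      · rfl
      · rfl
      · rfl
      · exact hw4
      · exact hw5
    rw [hT v, hT w, dE6_m]
    conv_rhs => rw [hv', hw']
    generalize v 0 = a, v 1 = b, v 2 = c, v 3 = d, w 0 = a', w 1 = b', w 2 = c', w 3 = d'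
    simp [SLC.ip, cE6, Matrix.mulVec, dotProduct, Fin.sum_univ_succ]
    ring

end Pool.Agent.H86.UM
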