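import Pool.Agent.H75.UT.D7i
import Pool.Agent.H75.UT.D8u
import Pool.Agent.H86.UM.UC

/-!
# Project UM, module OM: the opposite group

`omG` is the matrix `ω` with `ω (inl i) (inl i) = -1`, `ω (inr (-β)) (inr β) = 1`, other entries `0` (see the
private part of H75/UT/D7i.lean, which proves `ω² = 1`, `ω E_α = E_(-α) ω`, `ω F_α = F_(-α) ω`).
`omG_FilL`: `(ω M ω⁻¹) (-a) (-b) = ± M a b`, `hti (-a) = - hti a`; the right side says that `x` is lower
triangular.
`T_of_both`: `g = τ u` by `upper`; `u = τ⁻¹ g` is lower triangular too and `Fil 1 (u - 1)`, so `u = 1`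
(`τ` is diagonal, `T_diag`).
`lower_of_fix`: apply `upper_of_fix` to `ω Γ ω⁻¹`, `ω y ω⁻¹`.
-/

set_option autoImplicit false
open Matrix

namespace Pool.Agent.H86.UM

open Pool.Agent.H75.UL

variable {n : ℕ} (C : SLC n)

/-- The matrix of the opposition. -/
def omM (R : Type*) [CommRing R] : Matrix C.Idx C.Idx R := fun a b =>
  match a, b with
  | Sum.inl i, Sum.inl j => if i = j then -1 else 0
  | Sum.inr γ, Sum.inr β => if γ = -β then 1 else 0
  | _, _ => 0

private theorem OM_neg_neg (β : C.Root) : - -β = β := by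
  apply SLC.Root.ext
  rw [SLC.Root.neg_val, SLC.Root.neg_val, neg_neg]

private theorem OM_ll (R : Type*) [CommRing R] (i j : Fin n) :
    omM C R (Sum.inl i) (Sum.inl j) = if i = j then -1 else 0 := rfl

private theorem OM_lr (R : Type*) [CommRing R] (i : Fin n) (β : C.Root) :
    omM C R (Sum.inl i) (Sum.inr β) = 0 := rfl

private theorem OM_rl (R : Type*) [CommRing R] (γ : C.Root) (j : Fin n) :
    omM C R (Sum.inr γ) (Sum.inl j) = 0 := rfl

private theorem OM_rr (R : Type*) [CommRing R] (γ β : C.Root) :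
    omM C R (Sum.inr γ) (Sum.inr β) = if γ = -β then 1 else 0 := rfl

private theorem OM_mul (R : Type*) [CommRing R] (M : Matrix C.Idx C.Idx R) (a b : C.Idx) :
    (omM C R * M) a b = match a with
      | Sum.inl i => - M (Sum.inl i) b
      | Sum.inr γ => M (Sum.inr (-γ)) b := by
  rw [Matrix.mul_apply, Fintype.sum_sum_type]
  rcases a with i | γ
  · simp only [OM_lr, OM_ll, zero_mul, Finset.sum_const_zero, add_zero]
    rw [Finset.sum_eq_single i]
    · simp
    · intro j _ hj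
      rw [if_neg (Ne.symm hj), zero_mul]
    · intro h
      exact absurd (Finset.mem_univ i) h
  · simp only [OM_rl, OM_rr, zero_mul, Finset.sum_const_zero, zero_add]
    rw [Finset.sum_eq_single (-γ)]
    · rw [OM_neg_neg, if_pos rfl, one_mul]
    · intro j _ hj
      rw [if_neg, zero_mul]
      intro h
      apply hj
      rw [h, OM_neg_neg]
    · intro h
      exact absurd (Finset.mem_univ _) h

private theorem OM_mul' (R : Type*) [CommRing R] (M : Matrix C.Idx C.Idx R) (a b : C.Idx) :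
    (M * omM C R) a b = match b with
      | Sum.inl i => - M a (Sum.inl i)
      | Sum.inr γ => M a (Sum.inr (-γ)) := by
  rw [Matrix.mul_apply, Fintype.sum_sum_type]
  rcases b with i | γ
  · simp only [OM_rl, OM_ll, mul_zero, Finset.sum_const_zero, add_zero]
    rw [Finset.sum_eq_single i]
    · simp
    · intro j _ hj
      rw [if_neg hj, mul_zero]
    · intro h
      exact absurd (Finset.mem_univ i) h
  · simp only [OM_lr, OM_rr, mul_zero, Finset.sum_const_zero, zero_add]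
    rw [Finset.sum_eq_single (-γ)]
    · rw [if_pos rfl, mul_one]
    · intro j _ hj
      rw [if_neg hj, mul_zero]
    · intro h
      exact absurd (Finset.mem_univ _) h

theorem omM_sq (R : Type*) [CommRing R] : omM C R * omM C R = 1 := by
  ext a b
  rw [OM_mul]
  rcases a with i | γ <;> rcases b with j | β
  · simp only [OM_ll, Matrix.one_apply, Sum.inl.injEq]
    split_ifs <;> simp
  · simp [OM_lr]
  · simp [OM_rl]
  · simp only [OM_rr, Matrix.one_apply, Sum.inr.injEq]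
    have h : -γ = -β ↔ γ = β := by
      constructor
      · intro h
        rw [← OM_neg_neg C γ, h, OM_neg_neg]
      · intro h
        rw [h]
    simp only [h]

/-- The opposition as an element of `GL`. -/
def omG (R : Type*) [CommRing R] : GL C.Idx R where
  val := omM C R
  inv := omM C R
  val_inv := omM_sq C R
  inv_val := omM_sq C R

theorem omG_inv (R : Type*) [CommRing R] : (omG C R)⁻¹ = omG C R := rfl

variable {F : Type*} [Field F]

private theorem OM_eps (v w : Fin n → ℤ) : C.eps (-v) (-w) = C.eps v w := by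
  unfold SLC.eps SLC.hf
  rw [Matrix.mulVec_neg, neg_dotProduct, dotProduct_neg, neg_neg]

private theorem OM_E (α : C.Root) : omM C ℤ * C.E α = C.E (-α) * omM C ℤ := by
  ext a b
  rw [OM_mul, OM_mul']
  rcases a with i | γ <;> rcases b with j | β
  · simp [SLC.E]
  · simp only [SLC.E, SLC.Root.neg_val, Pi.neg_apply, neg_neg]
    have h : -β.1 = α.1 ↔ β.1 = -α.1 := neg_eq_iff_eq_neg
    simp only [h]
    split_ifs <;> simp
  · simp only [SLC.E, SLC.Root.neg_val]
    have h : -γ.1 = α.1 ↔ γ.1 = -α.1 := neg_eq_iff_eq_neg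
    simp only [h]
    split_ifs
    · rw [SLC.ip_neg_right]
      ring
    · simp
  · simp only [SLC.E, SLC.Root.neg_val, OM_eps]
    have h : -γ.1 = α.1 + β.1 ↔ γ.1 = -α.1 + -β.1 := by
      rw [neg_eq_iff_eq_neg, neg_add]
    simp only [h]

private theorem OM_F (α : C.Root) : omM C ℤ * C.F α = C.F (-α) * omM C ℤ := by
  ext a b
  rw [OM_mul, OM_mul']
  rcases a with i | γ <;> rcases b with j | β
  · simp [SLC.F]
  · simp [SLC.F]
  · simp [SLC.F]
  · simp only [SLC.F, SLC.Root.neg_val, neg_neg]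
    have h : -γ.1 = α.1 ↔ γ.1 = -α.1 := neg_eq_iff_eq_neg
    have h' : -β.1 = α.1 ↔ β.1 = -α.1 := neg_eq_iff_eq_neg
    simp only [h, h']

private theorem OM_map (R : Type*) [CommRing R] :
    (omM C ℤ).map (Int.castRingHom R) = omM C R := by
  ext a b
  rw [Matrix.map_apply]
  rcases a with i | γ <;> rcases b with j | β
  · rw [OM_ll, OM_ll]
    split_ifs <;> simp
  · rw [OM_lr, OM_lr, map_zero]
  · rw [OM_rl, OM_rl, map_zero]
  · rw [OM_rr, OM_rr]
    split_ifs <;> simp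

private theorem OM_X (α : C.Root) (t : F) :
    omM C F * C.X F α t = C.X F (-α) t * omM C F := by
  have h1 : omM C F * (C.E α).map (Int.cast : ℤ → F) =
      (C.E (-α)).map (Int.cast : ℤ → F) * omM C F := by
    have := congrArg (fun M : Matrix C.Idx C.Idx ℤ => M.map (Int.castRingHom F)) (OM_E C α)
    simp only [Matrix.map_mul, OM_map] at this
    exact this
  have h2 : omM C F * (C.F α).map (Int.cast : ℤ → F) =
      (C.F (-α)).map (Int.cast : ℤ → F) * omM C F := by
    have := congrArg (fun M : Matrix C.Idx C.Idx ℤ => M.map (Int.castRingHom F)) (OM_F C α)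
    simp only [Matrix.map_mul, OM_map] at this
    exact this
  unfold SLC.X
  simp only [add_mul, mul_add, one_mul, mul_one, smul_mul_assoc, mul_smul_comm, h1, h2]

theorem omG_xg (β : C.Root) (t : F) : omG C F * C.xg F β t * (omG C F)⁻¹ = C.xg F (-β) t := by
  rw [mul_inv_eq_iff_eq_mul]
  apply Units.ext
  exact OM_X C β t

private theorem OM_invol (x : GL C.Idx F) :
    omG C F * (omG C F * x * (omG C F)⁻¹) * (omG C F)⁻¹ = x := by
  have h : omG C F * omG C F = 1 := by
    apply Units.ext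
    exact omM_sq C F
  calc omG C F * (omG C F * x * (omG C F)⁻¹) * (omG C F)⁻¹
      = (omG C F * omG C F) * x * (omG C F * omG C F)⁻¹ := by group
    _ = x := by rw [h, one_mul, inv_one, mul_one]

private theorem OM_cl {A : Set (GL C.Idx F)} {S : Subgroup (GL C.Idx F)}
    (h : ∀ a ∈ A, omG C F * a * (omG C F)⁻¹ ∈ S) :
    ∀ x ∈ Subgroup.closure A, omG C F * x * (omG C F)⁻¹ ∈ S := by
  have h1 : Subgroup.closure A ≤ S.comap (MulAut.conj (omG C F)).toMonoidHom :=
    (Subgroup.closure_le _).2 h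
  exact fun x hx => h1 hx

private theorem OM_conj_mul (x y : GL C.Idx F) : omG C F * (x * y) * (omG C F)⁻¹ =
    (omG C F * x * (omG C F)⁻¹) * (omG C F * y * (omG C F)⁻¹) := by
  group

private theorem OM_nn (α : C.Root) (t : F) :
    omG C F * nn (C.adS F).x α t * (omG C F)⁻¹ = nn (C.adS F).x (-α) t := by
  unfold nn
  rw [OM_conj_mul, OM_conj_mul]
  have h : ∀ (β : C.Root) (s : F), omG C F * (C.adS F).x β s * (omG C F)⁻¹ =
      (C.adS F).x (-β) s := fun β s => omG_xg C β s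
  rw [h, h]

private theorem OM_hh (α : C.Root) (t : F) :
    omG C F * hh (C.adS F).x α t * (omG C F)⁻¹ = hh (C.adS F).x (-α) t := by
  unfold hh
  rw [OM_conj_mul, OM_nn, OM_nn]

theorem omG_Gad (x : GL C.Idx F) : omG C F * x * (omG C F)⁻¹ ∈ C.Gad F ↔ x ∈ C.Gad F := by
  have key : ∀ y ∈ C.Gad F, omG C F * y * (omG C F)⁻¹ ∈ C.Gad F := by
    apply OM_cl
    rintro a ⟨p, rfl⟩
    change omG C F * C.xg F p.1 p.2 * (omG C F)⁻¹ ∈ C.Gad F
    rw [omG_xg]
    exact Subgroup.subset_closure ⟨(-p.1, p.2), rfl⟩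
  constructor
  · intro h
    have h1 := key _ h
    rwa [OM_invol] at h1
  · exact key x

theorem omG_U (x : GL C.Idx F) : omG C F * x * (omG C F)⁻¹ ∈ (C.adS F).U 1 ↔
    x ∈ (C.adS F).Um := by
  have k1 : ∀ y ∈ (C.adS F).U 1, omG C F * y * (omG C F)⁻¹ ∈ (C.adS F).Um := by
    apply OM_cl
    rintro a ⟨β, t, hβ, rfl⟩
    have h : omG C F * (C.adS F).x β t * (omG C F)⁻¹ = (C.adS F).x (-β) t := omG_xg C β t
    rw [h]
    refine Subgroup.subset_closure ⟨-β, t, ?_, rfl⟩
    rw [SLC.Root.neg_val, ht_neg]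
    omega
  have k2 : ∀ y ∈ (C.adS F).Um, omG C F * y * (omG C F)⁻¹ ∈ (C.adS F).U 1 := by
    apply OM_cl
    rintro a ⟨β, t, hβ, rfl⟩
    have h : omG C F * (C.adS F).x β t * (omG C F)⁻¹ = (C.adS F).x (-β) t := omG_xg C β t
    rw [h]
    refine Subgroup.subset_closure ⟨-β, t, ?_, rfl⟩
    rw [SLC.Root.neg_val, ht_neg]
    omega
  constructor
  · intro h
    have h1 := k1 _ h
    rwa [OM_invol] at h1
  · exact k2 x

theorem omG_T (x : GL C.Idx F) : omG C F * x * (omG C F)⁻¹ ∈ (C.adS F).T ↔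
    x ∈ (C.adS F).T := by
  have key : ∀ y ∈ (C.adS F).T, omG C F * y * (omG C F)⁻¹ ∈ (C.adS F).T := by
    apply OM_cl
    rintro a ⟨α, t, ht, rfl⟩
    rw [OM_hh]
    exact Subgroup.subset_closure ⟨-α, t, ht, rfl⟩
  constructor
  · intro h
    have h1 := key _ h
    rwa [OM_invol] at h1
  · exact key x

/-- the opposite index -/
private def OM_ng : C.Idx → C.Idx
  | Sum.inl i => Sum.inl i
  | Sum.inr γ => Sum.inr (-γ)

private theorem OM_ng_ng (a : C.Idx) : OM_ng C (OM_ng C a) = a := by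
  rcases a with i | γ
  · rfl
  · show Sum.inr (- -γ) = Sum.inr γ
    rw [OM_neg_neg]

private theorem OM_hti (a : C.Idx) : C.hti (OM_ng C a) = - C.hti a := by
  rcases a with i | γ
  · show (0 : ℤ) = -0
    omega
  · show ht (-γ).1 = - ht γ.1
    rw [SLC.Root.neg_val, ht_neg]

private theorem OM_entry (x : GL C.Idx F) (a b : C.Idx) :
    ((omG C F * x * (omG C F)⁻¹ : GL C.Idx F) : Matrix C.Idx C.Idx F) (OM_ng C a) (OM_ng C b) = 0 ↔
      (x : Matrix C.Idx C.Idx F) a b = 0 := by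
  have h : ((omG C F * x * (omG C F)⁻¹ : GL C.Idx F) : Matrix C.Idx C.Idx F) =
      omM C F * (x : Matrix C.Idx C.Idx F) * omM C F := rfl
  rw [h, OM_mul']
  rcases b with j | β
  · show -((omM C F * (x : Matrix C.Idx C.Idx F)) (OM_ng C a) (Sum.inl j)) = 0 ↔ _
    rw [OM_mul, neg_eq_zero]
    rcases a with i | γ
    · show -((x : Matrix C.Idx C.Idx F) (Sum.inl i) (Sum.inl j)) = 0 ↔ _
      rw [neg_eq_zero]
    · show (x : Matrix C.Idx C.Idx F) (Sum.inr (- -γ)) (Sum.inl j) = 0 ↔ _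
      rw [OM_neg_neg]
  · show (omM C F * (x : Matrix C.Idx C.Idx F)) (OM_ng C a) (Sum.inr (- -β)) = 0 ↔ _
    rw [OM_mul, OM_neg_neg]
    rcases a with i | γ
    · show -((x : Matrix C.Idx C.Idx F) (Sum.inl i) (Sum.inr β)) = 0 ↔ _
      rw [neg_eq_zero]
    · show (x : Matrix C.Idx C.Idx F) (Sum.inr (- -γ)) (Sum.inr β) = 0 ↔ _
      rw [OM_neg_neg]

theorem omG_FilL (x : GL C.Idx F) :
    C.Fil 0 ((omG C F * x * (omG C F)⁻¹ : GL C.Idx F) : Matrix C.Idx C.Idx F) ↔
      ∀ a b, C.hti b < C.hti a → (x : Matrix C.Idx C.Idx F) a b = 0 := by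
  constructor
  · intro h a b hab
    rw [← OM_entry]
    apply h
    rw [OM_hti, OM_hti]
    omega
  · intro h a b hab
    rw [← OM_ng_ng C a, ← OM_ng_ng C b, OM_entry]
    apply h
    rw [OM_hti, OM_hti]
    omega

theorem T_of_both (g : GL C.Idx F) (hg : g ∈ C.Gad F) (h : C.Fil 0 (g : Matrix C.Idx C.Idx F))
    (h' : C.Fil 0 ((omG C F * g * (omG C F)⁻¹ : GL C.Idx F) : Matrix C.Idx C.Idx F)) :
    g ∈ (C.adS F).T := by
  obtain ⟨τ, hτ, u, hu, rfl⟩ := C.upper g hg h
  have hFu : C.Fil 0 ((omG C F * u * (omG C F)⁻¹ : GL C.Idx F) : Matrix C.Idx C.Idx F) := by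
    have e1 : omG C F * u * (omG C F)⁻¹ =
        (omG C F * τ⁻¹ * (omG C F)⁻¹) * (omG C F * (τ * u) * (omG C F)⁻¹) := by
      rw [← OM_conj_mul, inv_mul_cancel_left]
    have h1 := C.Fil_T _ ((omG_T C τ⁻¹).2 (Subgroup.inv_mem _ hτ))
    have h2 := C.Fil_mul h1 h'
    rw [e1, Units.val_mul]
    rwa [add_zero] at h2
  rw [omG_FilL] at hFu
  have hF1 := C.Fil_U 1 le_rfl u hu
  have hu1 : u = 1 := by
    apply Units.ext
    ext a b
    rw [Units.val_one]
    by_cases hab : C.hti b < C.hti a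
    · rw [hFu a b hab, Matrix.one_apply_ne]
      rintro rfl
      omega
    · have h3 := hF1 a b (by omega)
      rw [Matrix.sub_apply, sub_eq_zero] at h3
      exact h3
  rw [hu1, mul_one]
  exact hτ

theorem lower_of_fix (Γ : Set (GL C.Idx F)) (hΓ : ∀ γ ∈ Γ, γ ∈ (C.adS F).Um)
    (hnv : ∀ j, ∃ γ ∈ Γ,
      C.xi j ((omG C F * γ * (omG C F)⁻¹ : GL C.Idx F) : Matrix C.Idx C.Idx F) ≠ 0)
    (y : GL C.Idx F) (hy : y ∈ C.Gad F) (h : ∀ γ ∈ Γ, y⁻¹ * γ * y ∈ (C.adS F).Um) :
    C.Fil 0 ((omG C F * y * (omG C F)⁻¹ : GL C.Idx F) : Matrix C.Idx C.Idx F) := by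
  refine upper_of_fix C ((fun γ : GL C.Idx F => omG C F * γ * (omG C F)⁻¹) '' Γ) ?_ ?_ _
    ((omG_Gad C y).2 hy) ?_
  · rintro _ ⟨γ, hγ, rfl⟩
    exact (omG_U C γ).2 (hΓ γ hγ)
  · intro j
    obtain ⟨γ, hγ, hxi⟩ := hnv j
    exact ⟨_, ⟨γ, hγ, rfl⟩, hxi⟩
  · rintro _ ⟨γ, hγ, rfl⟩
    have e1 : (omG C F * y * (omG C F)⁻¹)⁻¹ * (omG C F * γ * (omG C F)⁻¹) *
        (omG C F * y * (omG C F)⁻¹) = omG C F * (y⁻¹ * γ * y) * (omG C F)⁻¹ := by
      group
    show C.Fil 0 (((omG C F * y * (omG C F)⁻¹)⁻¹ * (omG C F * γ * (omG C F)⁻¹) *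
        (omG C F * y * (omG C F)⁻¹) : GL C.Idx F) : Matrix C.Idx C.Idx F)
    rw [e1]
    exact C.Fil_U_zero _ ((omG_U C _).2 (h γ hγ))

end Pool.Agent.H86.UM
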