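import Pool.Agent.H86.UM.FC0
import Pool.Agent.H86.UM.OM

/-!
# Project UM, module FCa: the full adjoint torus; first facts on `Pin`

`tad_xg`: the matrix of `C.X` is `1 + t E + t ^ 2 F`; conjugation of an entry `(a, b)` multiplies it by
`d a / d b`, `d (inl i) = 1`, `d (inr γ) = ∏ c_j ^ γ_j` (multiplicative in `γ`). (See `T_fix` in T6.lean for
elements of `T`.) `sgl_tad`: entrywise. `Pin_inj`: `x` is central; for `x ∈ fixX (simple i)` conjugation with
`nuJ he i ∈ Eg` maps `x` to `XO (- simple i)` (`SR_ν`), so `p x` is upper and lower unitriangular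
(`S9_U`; `U_inf_Um` in UT/D8u), `p x = 1`, and `x = 1` (`fixX_form` and `Inj` (`inj_of_map`), or: `p` is
injective on `S.U 1`, as `u = lp t` by `exists_lp`, `S9_lp`, `lp_unique`, `lp_zero`). Negative: conjugate with
`nuJ`. `Pin_nonvan`: orthogonal orbits: take `x` with `xi i (p x) = 1` (`fixX_xi_exists`); `xi i (Ψ x) = 0` implies
that all `xi j (Ψ x)` vanish (`Pin.fix` and `xi_sgl`; `Ψ x ∈ XO' (simple i)` is a product of root elements for the
simple roots in the orbit), so `Ψ x = 1`, `x = 1` by `Pin_inj`, contradiction. Adjacent orbit (`m = 2`,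
`γ = α_i + α_(ρ i)`): `X = fixX (simple i)` is not abelian (`fixX_xi_exists` for `1` and `t`, `θ t ≠ t`; such `t`
exists by `hB`; the commutator is `x_γ (± (θ t - t))`, see `fixX_form`), so by `Pin_inj` two elements of `Ψ X` do not
commute; if all `xi i (Ψ x) = 0` then also `xi (ρ i) (Ψ x) = θ' (xi i (Ψ x)) = 0` and `Ψ X ≤ {x_γ(v)}` is abelian.
`Pin_nonvan_neg`: the same for the negative roots: conjugation with `omG` (module OM) exchanges the two
cases on both sides (on the source side use `S.neg`, `IsSig.neg`, or conjugation with `nuJ he i`, `SR_ν`).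
`Pin_T`: for `h ∈ S.T` and `x ∈ fixX (± simple i)`: `(Ψ h)⁻¹ (Ψ x) (Ψ h) = Ψ (h⁻¹ x h)` is in
`fixX' (± simple i)`; `upper_of_fix` with `Pin_nonvan`, `lower_of_fix` with `Pin_nonvan_neg`, `T_of_both`.
`Pin_xi`: `xi_conj`.
-/

set_option autoImplicit false
open Matrix

namespace Pool.Agent.H86.UM

open Pool.Agent.H75.UL

/-! ### Root elements of one orbit -/

section orbit
variable {n : ℕ} {C : SLC n} {D : Dg C} {k : Type*} [Field k] {H : Type*} [Group H]

private theorem FCa_iter_ht (D : Dg C) (l : ℕ) (β : C.Root) : ht (D.r^[l] β).1 = ht β.1 := by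
  induction l with
  | zero => rfl
  | succ l ih => rw [Function.iterate_succ_apply', D.r_ht, ih]

private theorem FCa_XO_U (S : StSys C k H) (i : Fin n) (y : H) (hy : y ∈ XO D S (C.simple i)) :
    y ∈ S.U 1 := by
  have h := XO_le_U S (C.simple i) (C.simple_pos i) hy
  rwa [C.ht_simple] at h

private theorem FCa_XO_Um (S : StSys C k H) (i : Fin n) (y : H)
    (hy : y ∈ XO D S (-(C.simple i))) : y ∈ S.Um := by
  have h1 : XO D S (-(C.simple i)) ≤ S.Um := by
    unfold XO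
    rw [Subgroup.closure_le]
    rintro g ⟨γ, t, hγ, rfl⟩
    refine Subgroup.subset_closure ⟨γ, t, ?_, rfl⟩
    have h2 : ht (-(C.simple i)).1 = -1 := by rw [SLC.Root.neg_val, ht_neg, C.ht_simple]
    rcases hγ with ⟨l, rfl⟩ | h3
    · rw [FCa_iter_ht, h2]
      omega
    · rw [h3, ht_add, D.r_ht, h2]
      omega
  exact h1 hy

private theorem FCa_p_Um (S : StSys C k H) (p : H →* GL C.Idx k)
    (hp : ∀ β t, p (S.x β t) = C.xg k β t) (u : H) (hu : u ∈ S.Um) : p u ∈ (C.adS k).Um := by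
  have h1 : S.Um ≤ (C.adS k).Um.comap p := by
    conv_lhs => unfold StSys.Um
    rw [Subgroup.closure_le]
    rintro g ⟨β, t, hβ, rfl⟩
    refine Subgroup.subset_closure ⟨β, t, hβ, ?_⟩
    exact hp β t
  exact h1 hu

private theorem FCa_p_XO (S : StSys C k H) (p : H →* GL C.Idx k)
    (hp : ∀ β t, p (S.x β t) = C.xg k β t) (β : C.Root) (u : H) (hu : u ∈ XO D S β) :
    p u ∈ XO D (C.adS k) β := by
  have h1 : XO D S β ≤ (XO D (C.adS k) β).comap p := by
    conv_lhs => unfold XO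
    rw [Subgroup.closure_le]
    rintro g ⟨γ, t, hγ, rfl⟩
    refine Subgroup.subset_closure ⟨γ, t, hγ, ?_⟩
    exact hp γ t
  exact h1 hu

private theorem FCa_p_inj (S : StSys C k H) (p : H →* GL C.Idx k)
    (hp : ∀ β t, p (S.x β t) = C.xg k β t) (u : H) (hu : u ∈ S.U 1) (h : p u = 1) : u = 1 := by
  obtain ⟨t, -, rfl⟩ := S.exists_lp 1 le_rfl u hu
  rw [C.S9_lp S p hp] at h
  have h1 : (C.adS k).lp C.posList (fun _ => 0) = 1 := StSys.lp_zero _ _ _ (fun _ _ => rfl)
  have h2 := C.lp_unique t (fun _ => 0) (h.trans h1.symm)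
  apply S.lp_zero
  intro β hβ
  exact h2 β ((C.mem_posList β).1 hβ)

private theorem FCa_cons (S : StSys C k H) (β : C.Root) (l : List C.Root) (t : C.Root → k) :
    S.lp (β :: l) t = S.x β (t β) * S.lp l t := by
  unfold StSys.lp
  rw [List.map_cons, List.prod_cons]

private theorem FCa_single (S : StSys C k H) (β : C.Root) (a : k) (l : List C.Root)
    (hl : l.Nodup) (hβ : β ∈ l) : S.lp l (fun γ => if γ = β then a else 0) = S.x β a := by
  induction l with
  | nil => simp at hβ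
  | cons γ l ih =>
    rw [FCa_cons]
    rw [List.nodup_cons] at hl
    by_cases h : γ = β
    · subst h
      rw [S.lp_zero l, if_pos rfl, mul_one]
      intro δ hδ
      rw [if_neg]
      rintro rfl
      exact hl.1 hδ
    · rw [if_neg h, S.x_zero, one_mul]
      refine ih hl.2 ?_
      rw [List.mem_cons] at hβ
      rcases hβ with rfl | hβ
      · exact absurd rfl h
      · exact hβ

private theorem FCa_comm_lp (S : StSys C k H) (g : H) (l : List C.Root) (t : C.Root → k)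
    (h : ∀ γ, g * S.x γ (t γ) = S.x γ (t γ) * g) : g * S.lp l t = S.lp l t * g := by
  induction l with
  | nil => simp [StSys.lp]
  | cons γ l ih =>
    rw [FCa_cons, ← mul_assoc, h γ, mul_assoc, ih, mul_assoc]

private theorem FCa_lp_mul (S : StSys C k H) (l : List C.Root) (t t' : C.Root → k)
    (h : ∀ β γ, S.x β (t' β) * S.x γ (t γ) = S.x γ (t γ) * S.x β (t' β)) :
    S.lp l t * S.lp l t' = S.lp l (fun β => t β + t' β) := by
  induction l with
  | nil => simp [StSys.lp]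
  | cons β l ih =>
    rw [FCa_cons, FCa_cons, FCa_cons, ← ih, S.map_add]
    have h1 := FCa_comm_lp S (S.x β (t' β)) l t (h β)
    calc S.x β (t β) * S.lp l t * (S.x β (t' β) * S.lp l t')
        = S.x β (t β) * (S.lp l t * S.x β (t' β)) * S.lp l t' := by group
      _ = S.x β (t β) * (S.x β (t' β) * S.lp l t) * S.lp l t' := by rw [h1]
      _ = _ := by group

private theorem FCa_lp_U (S : StSys C k H) (l : List C.Root) (t : C.Root → k)
    (h : ∀ β ∈ l, C.Pos β) : S.lp l t ∈ S.U 1 := by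
  induction l with
  | nil =>
    have : S.lp ([] : List C.Root) t = 1 := by simp [StSys.lp]
    rw [this]
    exact one_mem _
  | cons β l ih =>
    rw [FCa_cons]
    refine mul_mem (Subgroup.subset_closure ⟨β, t β, ?_, rfl⟩) (ih fun γ hγ => h γ (by simp [hγ]))
    have h1 : 0 < ht β.1 := h β (by simp)
    omega

private theorem FCa_xi_lp (j : Fin n) (l : List C.Root) (hl : l.Nodup) (t : C.Root → k)
    (h : ∀ β ∈ l, C.Pos β) : C.xi j (((C.adS k).lp l t : GL C.Idx k) : Matrix C.Idx C.Idx k) =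
      if C.simple j ∈ l then t (C.simple j) else 0 := by
  induction l with
  | nil =>
    have : (C.adS k).lp ([] : List C.Root) t = 1 := by simp [StSys.lp]
    rw [this, Units.val_one, C.xi_one]
    simp
  | cons β l ih =>
    rw [List.nodup_cons] at hl
    have hβ : C.Pos β := h β (by simp)
    have hl2 : ∀ γ ∈ l, C.Pos γ := fun γ hγ => h γ (by simp [hγ])
    have h1 : (C.adS k).x β (t β) ∈ (C.adS k).U 1 := by
      refine Subgroup.subset_closure ⟨β, t β, ?_, rfl⟩
      have : 0 < ht β.1 := hβ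
      omega
    rw [FCa_cons, C.xi_mul j _ _ h1 (FCa_lp_U _ l t hl2), ih hl.2 hl2]
    change C.xi j (C.xg k β (t β) : Matrix C.Idx C.Idx k) + _ = _
    rw [C.xi_xg j β hβ]
    by_cases h2 : β = C.simple j
    · subst h2
      rw [if_pos rfl, if_neg hl.1, if_pos (by simp), add_zero]
    · have h3 : ¬ C.simple j = β := fun h' => h2 h'.symm
      rw [if_neg h2, zero_add]
      simp [h3]

/-- The roots of the orbit of a simple root which is not adjacent to its image. -/
private theorem FCa_inO (i : Fin n) (hi : C.A i (D.ρ i) ≠ -1) (γ : C.Root)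
    (h : D.inO (C.simple i) γ) : ∃ l, γ = D.r^[l] (C.simple i) := by
  rcases h with h | h
  · exact h
  · exfalso
    have h1 := C.ip_add_root _ _ _ h
    rw [D.r_simple] at h1
    apply hi
    rw [← C.ip_single]
    exact h1

private theorem FCa_ip_nonneg (i : Fin n) (hi : C.A i (D.ρ i) ≠ -1) (a b : ℕ) :
    0 ≤ C.ip (D.r^[a] (C.simple i)).1 (D.r^[b] (C.simple i)).1 := by
  have h0 : ∀ c : ℕ, 0 ≤ C.ip (C.simple i).1 (D.r^[c] (C.simple i)).1 := by
    intro c
    by_cases hr : D.r (C.simple i) = C.simple i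
    · have h1 : D.r^[c] (C.simple i) = C.simple i := Function.iterate_fixed hr c
      rw [h1, (C.simple i).2]
      norm_num
    · have hpos : 0 < D.m := by
        rcases D.m_cases with h | h | h <;> omega
      have h1 : Function.IsPeriodicPt D.r D.m (C.simple i) := D.r_m _
      rw [← h1.iterate_mod_apply c]
      have h2 : C.ip (C.simple i).1 (D.r (C.simple i)).1 = 0 := by
        rcases D.ip_r _ hr with h | ⟨-, h⟩
        · exact h
        · exfalso
          apply hi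
          rw [D.r_simple] at h
          rw [← C.ip_single]
          exact h
      rcases Nat.eq_zero_or_pos (c % D.m) with h3 | h3
      · rw [h3]
        change 0 ≤ C.ip (C.simple i).1 (C.simple i).1
        rw [(C.simple i).2]
        norm_num
      · rw [D.ip_orb _ hr _ h3 (Nat.mod_lt _ hpos), h2]
  have h1 : ∀ a c : ℕ, C.ip (D.r^[a] (C.simple i)).1 (D.r^[a] (D.r^[c] (C.simple i))).1 =
      C.ip (C.simple i).1 (D.r^[c] (C.simple i)).1 := by
    intro a c
    induction a with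
    | zero => rfl
    | succ a ih =>
      rw [Function.iterate_succ_apply', Function.iterate_succ_apply', D.r_ip, ih]
  rcases le_total a b with h | h
  · obtain ⟨c, rfl⟩ := Nat.exists_eq_add_of_le h
    rw [Function.iterate_add_apply, h1]
    exact h0 c
  · obtain ⟨c, rfl⟩ := Nat.exists_eq_add_of_le h
    rw [Function.iterate_add_apply, C.ip_comm, h1]
    exact h0 c

/-- The form of the elements of an orthogonal orbit. -/
private theorem FCa_form (S : StSys C k H) (i : Fin n) (hi : C.A i (D.ρ i) ≠ -1) (y : H)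
    (hy : y ∈ XO D S (C.simple i)) : ∃ t : C.Root → k,
      (∀ γ, t γ ≠ 0 → ∃ l, γ = D.r^[l] (C.simple i)) ∧ y = S.lp C.posList t := by
  have hcomm : ∀ t t' : C.Root → k, (∀ γ, t γ ≠ 0 → ∃ l, γ = D.r^[l] (C.simple i)) →
      (∀ γ, t' γ ≠ 0 → ∃ l, γ = D.r^[l] (C.simple i)) →
      ∀ β γ, S.x β (t' β) * S.x γ (t γ) = S.x γ (t γ) * S.x β (t' β) := by
    intro t t' h h' β γ
    by_cases h1 : t γ = 0
    · rw [h1, S.x_zero, mul_one, one_mul]
    by_cases h2 : t' β = 0
    · rw [h2, S.x_zero, mul_one, one_mul]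
    obtain ⟨a, ha⟩ := h γ h1
    obtain ⟨b, hb⟩ := h' β h2
    apply S.comm
    rw [ha, hb]
    exact FCa_ip_nonneg i hi b a
  unfold XO at hy
  induction hy using Subgroup.closure_induction with
  | mem y hy =>
    obtain ⟨γ, a, hγ, rfl⟩ := hy
    have h1 := FCa_inO i hi γ hγ
    refine ⟨fun δ => if δ = γ then a else 0, ?_, ?_⟩
    · intro δ hδ
      by_cases h2 : δ = γ
      · rw [h2]
        exact h1
      · exact absurd (if_neg h2) hδ
    · rw [FCa_single S γ a C.posList C.posList_nodup]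
      rw [C.mem_posList]
      obtain ⟨l, rfl⟩ := h1
      unfold SLC.Pos
      rw [FCa_iter_ht, C.ht_simple]
      norm_num
  | one =>
    exact ⟨fun _ => 0, fun γ h => absurd rfl h, (S.lp_zero _ _ (fun _ _ => rfl)).symm⟩
  | mul y z _ _ hy hz =>
    obtain ⟨t, ht, rfl⟩ := hy
    obtain ⟨t', ht', rfl⟩ := hz
    refine ⟨fun β => t β + t' β, ?_, FCa_lp_mul S _ t t' (hcomm t t' ht ht')⟩
    intro γ hγ
    by_cases h1 : t γ = 0
    · apply ht'
      intro h2
      apply hγ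
      change t γ + t' γ = 0
      rw [h1, h2, add_zero]
    · exact ht γ h1
  | inv y _ hy =>
    obtain ⟨t, ht, rfl⟩ := hy
    have ht' : ∀ γ, (fun β => - t β) γ ≠ 0 → ∃ l, γ = D.r^[l] (C.simple i) := by
      intro γ hγ
      apply ht
      intro h1
      apply hγ
      change - t γ = 0
      rw [h1, neg_zero]
    refine ⟨fun β => - t β, ht', ?_⟩
    apply inv_eq_of_mul_eq_one_right
    rw [FCa_lp_mul S _ t (fun β => - t β) (hcomm t _ ht ht')]
    apply S.lp_zero
    intro β _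
    exact add_neg_cancel (t β)

/-- The coordinates of an element of an orthogonal orbit. -/
private theorem FCa_one (i : Fin n) (hi : C.A i (D.ρ i) ≠ -1) (y : GL C.Idx k)
    (hy : y ∈ XO D (C.adS k) (C.simple i))
    (h : ∀ l : ℕ, C.xi ((D.ρ ^ l) i) (y : Matrix C.Idx C.Idx k) = 0) : y = 1 := by
  obtain ⟨t, ht, rfl⟩ := FCa_form (C.adS k) i hi y hy
  apply StSys.lp_zero
  intro γ _
  by_contra h1
  obtain ⟨l, hl⟩ := ht γ h1
  rw [D.r_iter_simple] at hl
  have h2 := h l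
  rw [FCa_xi_lp _ _ C.posList_nodup t (fun β hβ => (C.mem_posList β).1 hβ), if_pos, ← hl] at h2
  · exact h1 h2
  · rw [C.mem_posList]
    exact C.simple_pos _

/-- The sum of two adjacent simple roots. -/
private def FCa_g (D : Dg C) (i : Fin n) (hi : C.A i (D.ρ i) = -1) : C.Root where
  val := (C.simple i).1 + (C.simple (D.ρ i)).1
  norm := by
    have h1 : C.ip (C.simple i).1 (C.simple (D.ρ i)).1 = -1 := by
      rw [SLC.simple_val, SLC.simple_val, C.ip_single]
      exact hi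
    rw [C.ip_add_left, C.ip_add_right, C.ip_add_right, (C.simple i).2, (C.simple (D.ρ i)).2,
      C.ip_comm (C.simple (D.ρ i)).1, h1]
    norm_num

private theorem FCa_ip (i : Fin n) (hi : C.A i (D.ρ i) = -1) :
    C.ip (C.simple i).1 (C.simple (D.ρ i)).1 = -1 := by
  rw [SLC.simple_val, SLC.simple_val, C.ip_single]
  exact hi

private theorem FCa_rr (i : Fin n) (hi : C.A i (D.ρ i) = -1) :
    D.ρ i ≠ i ∧ D.r (C.simple (D.ρ i)) = C.simple i := by
  have h1 : D.ρ i ≠ i := by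
    intro h
    rw [h, C.diag] at hi
    omega
  have h2 : D.r (C.simple i) ≠ C.simple i := by
    rw [D.r_simple]
    intro h
    exact h1 (C.simple_injective h)
  refine ⟨h1, ?_⟩
  rcases D.ip_r _ h2 with h | ⟨h, -⟩
  · exfalso
    rw [D.r_simple, FCa_ip i hi] at h
    omega
  · have h3 := D.r_m (C.simple i)
    rw [h] at h3
    rw [← D.r_simple]
    exact h3

/-- The form of the elements of an adjacent orbit. -/
private theorem FCa_form2 (S : StSys C k H) (i : Fin n) (hi : C.A i (D.ρ i) = -1) (y : H)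
    (hy : y ∈ XO D S (C.simple i)) : ∃ a b c : k,
      y = S.x (C.simple i) a * S.x (C.simple (D.ρ i)) b * S.x (FCa_g D i hi) c := by
  obtain ⟨hne, hrr⟩ := FCa_rr i hi
  have hip := FCa_ip i hi
  have hgv : (FCa_g D i hi).1 = (C.simple i).1 + (C.simple (D.ρ i)).1 := rfl
  have c1 : ∀ u v, S.x (FCa_g D i hi) u * S.x (C.simple i) v =
      S.x (C.simple i) v * S.x (FCa_g D i hi) u := by
    intro u v
    apply S.comm
    rw [hgv, C.ip_add_left, (C.simple i).2, C.ip_comm, hip]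
    norm_num
  have c2 : ∀ u v, S.x (FCa_g D i hi) u * S.x (C.simple (D.ρ i)) v =
      S.x (C.simple (D.ρ i)) v * S.x (FCa_g D i hi) u := by
    intro u v
    apply S.comm
    rw [hgv, C.ip_add_left, (C.simple (D.ρ i)).2, hip]
    norm_num
  have c3 : ∀ u v, ∃ w, S.x (C.simple (D.ρ i)) u * S.x (C.simple i) v =
      S.x (FCa_g D i hi) w * (S.x (C.simple i) v * S.x (C.simple (D.ρ i)) u) := by
    intro u v
    refine ⟨C.eps (C.simple (D.ρ i)).1 (C.simple i).1 * u * v, ?_⟩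
    rw [← S.comm_add (C.simple (D.ρ i)) (C.simple i) (FCa_g D i hi) u v
      (by rw [hgv, add_comm])]
    group
  have hmul : ∀ a b c a' b' c' : k, ∃ a'' b'' c'' : k,
      (S.x (C.simple i) a * S.x (C.simple (D.ρ i)) b * S.x (FCa_g D i hi) c) *
      (S.x (C.simple i) a' * S.x (C.simple (D.ρ i)) b' * S.x (FCa_g D i hi) c') =
      S.x (C.simple i) a'' * S.x (C.simple (D.ρ i)) b'' * S.x (FCa_g D i hi) c'' := by
    intro a b c a' b' c'
    obtain ⟨w, hw⟩ := c3 b a'
    refine ⟨a + a', b + b', w + c + c', ?_⟩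
    rw [S.map_add, S.map_add, S.map_add, S.map_add]
    calc (S.x (C.simple i) a * S.x (C.simple (D.ρ i)) b * S.x (FCa_g D i hi) c) *
          (S.x (C.simple i) a' * S.x (C.simple (D.ρ i)) b' * S.x (FCa_g D i hi) c')
        = S.x (C.simple i) a * S.x (C.simple (D.ρ i)) b *
          (S.x (FCa_g D i hi) c * S.x (C.simple i) a') * S.x (C.simple (D.ρ i)) b' *
            S.x (FCa_g D i hi) c' := by group
      _ = S.x (C.simple i) a * (S.x (C.simple (D.ρ i)) b * S.x (C.simple i) a') *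
          (S.x (FCa_g D i hi) c * S.x (C.simple (D.ρ i)) b') * S.x (FCa_g D i hi) c' := by
          rw [c1]
          group
      _ = S.x (C.simple i) a * (S.x (FCa_g D i hi) w * S.x (C.simple i) a') *
          (S.x (C.simple (D.ρ i)) b * S.x (C.simple (D.ρ i)) b') *
            (S.x (FCa_g D i hi) c * S.x (FCa_g D i hi) c') := by
          rw [hw, c2]
          group
      _ = S.x (C.simple i) a * S.x (C.simple i) a' * (S.x (FCa_g D i hi) w *
          S.x (C.simple (D.ρ i)) b) * S.x (C.simple (D.ρ i)) b' *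
            (S.x (FCa_g D i hi) c * S.x (FCa_g D i hi) c') := by
          rw [c1]
          group
      _ = S.x (C.simple i) a * S.x (C.simple i) a' * S.x (C.simple (D.ρ i)) b *
          (S.x (FCa_g D i hi) w * S.x (C.simple (D.ρ i)) b') *
            (S.x (FCa_g D i hi) c * S.x (FCa_g D i hi) c') := by
          rw [c2]
          group
      _ = _ := by
          rw [c2]
          group
  unfold XO at hy
  induction hy using Subgroup.closure_induction with
  | mem y hy =>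
    obtain ⟨γ, u, hγ, rfl⟩ := hy
    have h1 : γ = C.simple i ∨ γ = C.simple (D.ρ i) ∨ γ = FCa_g D i hi := by
      rcases hγ with ⟨l, rfl⟩ | h
      · induction l with
        | zero => exact Or.inl rfl
        | succ l ih =>
          rw [Function.iterate_succ_apply']
          rcases ih with h | h | h
          · rw [h, D.r_simple]
            exact Or.inr (Or.inl rfl)
          · rw [h, hrr]
            exact Or.inl rfl
          · exfalso
            have h2 := congrArg (fun δ : C.Root => ht δ.1) h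
            simp only [FCa_iter_ht, hgv, ht_add, C.ht_simple] at h2
            omega
      · refine Or.inr (Or.inr (SLC.Root.ext ?_))
        rw [h, hgv, D.r_simple]
    rcases h1 with h | h | h
    · exact ⟨u, 0, 0, by rw [h, S.x_zero, S.x_zero, mul_one, mul_one]⟩
    · exact ⟨0, u, 0, by rw [h, S.x_zero, S.x_zero, one_mul, mul_one]⟩
    · exact ⟨0, 0, u, by rw [h, S.x_zero, S.x_zero, one_mul, one_mul]⟩
  | one => exact ⟨0, 0, 0, by rw [S.x_zero, S.x_zero, S.x_zero, one_mul, one_mul]⟩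
  | mul y z _ _ hy hz =>
    obtain ⟨a, b, c, rfl⟩ := hy
    obtain ⟨a', b', c', rfl⟩ := hz
    exact hmul a b c a' b' c'
  | inv y _ hy =>
    obtain ⟨a, b, c, rfl⟩ := hy
    obtain ⟨a1, b1, c1', h1⟩ := hmul 0 0 (-c) 0 (-b) 0
    obtain ⟨a2, b2, c2', h2⟩ := hmul a1 b1 c1' (-a) 0 0
    refine ⟨a2, b2, c2', ?_⟩
    rw [← h2, ← h1, S.x_zero, S.x_zero, S.x_zero, S.x_neg, S.x_neg, S.x_neg]
    group

/-- The coordinates. -/
private theorem FCa_xi2 (i : Fin n) (hi : C.A i (D.ρ i) = -1) (a b c : k) :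
    C.xi i (((C.adS k).x (C.simple i) a * (C.adS k).x (C.simple (D.ρ i)) b *
      (C.adS k).x (FCa_g D i hi) c : GL C.Idx k) : Matrix C.Idx C.Idx k) = a ∧
    C.xi (D.ρ i) (((C.adS k).x (C.simple i) a * (C.adS k).x (C.simple (D.ρ i)) b *
      (C.adS k).x (FCa_g D i hi) c : GL C.Idx k) : Matrix C.Idx C.Idx k) = b := by
  obtain ⟨hne, -⟩ := FCa_rr i hi
  have hgp : C.Pos (FCa_g D i hi) := by
    change 0 < ht ((C.simple i).1 + (C.simple (D.ρ i)).1)
    rw [ht_add, C.ht_simple, C.ht_simple]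
    norm_num
  have hgn : ∀ j, FCa_g D i hi ≠ C.simple j := by
    intro j h
    have h1 := congrArg (fun δ : C.Root => ht δ.1) h
    change ht ((C.simple i).1 + (C.simple (D.ρ i)).1) = ht (C.simple j).1 at h1
    rw [ht_add, C.ht_simple, C.ht_simple, C.ht_simple] at h1
    omega
  have hU : ∀ (β : C.Root) (u : k), C.Pos β → (C.adS k).x β u ∈ (C.adS k).U 1 := by
    intro β u hβ
    refine Subgroup.subset_closure ⟨β, u, ?_, rfl⟩
    have : 0 < ht β.1 := hβ
    omega
  have m1 := hU (C.simple i) a (C.simple_pos i)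
  have m2 := hU (C.simple (D.ρ i)) b (C.simple_pos _)
  have m3 := hU (FCa_g D i hi) c hgp
  have n1 : C.simple (D.ρ i) ≠ C.simple i := fun h => hne (C.simple_injective h)
  constructor
  · rw [C.xi_mul i _ _ (mul_mem m1 m2) m3, C.xi_mul i _ _ m1 m2]
    change C.xi i (C.xg k (C.simple i) a : Matrix C.Idx C.Idx k) +
      C.xi i (C.xg k (C.simple (D.ρ i)) b : Matrix C.Idx C.Idx k) +
      C.xi i (C.xg k (FCa_g D i hi) c : Matrix C.Idx C.Idx k) = a
    rw [C.xi_xg i _ (C.simple_pos i), C.xi_xg i _ (C.simple_pos _), C.xi_xg i _ hgp, if_pos rfl,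
      if_neg n1, if_neg (hgn i), add_zero, add_zero]
  · rw [C.xi_mul _ _ _ (mul_mem m1 m2) m3, C.xi_mul _ _ _ m1 m2]
    change C.xi (D.ρ i) (C.xg k (C.simple i) a : Matrix C.Idx C.Idx k) +
      C.xi (D.ρ i) (C.xg k (C.simple (D.ρ i)) b : Matrix C.Idx C.Idx k) +
      C.xi (D.ρ i) (C.xg k (FCa_g D i hi) c : Matrix C.Idx C.Idx k) = b
    rw [C.xi_xg _ _ (C.simple_pos i), C.xi_xg _ _ (C.simple_pos _), C.xi_xg _ _ hgp,
      if_neg n1.symm, if_pos rfl, if_neg (hgn _), add_zero, zero_add]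

/-- Elements without simple coordinates commute. -/
private theorem FCa_comm2 (i : Fin n) (hi : C.A i (D.ρ i) = -1) (y z : GL C.Idx k)
    (hy : y ∈ XO D (C.adS k) (C.simple i)) (hz : z ∈ XO D (C.adS k) (C.simple i))
    (y1 : C.xi i (y : Matrix C.Idx C.Idx k) = 0) (y2 : C.xi (D.ρ i) (y : Matrix C.Idx C.Idx k) = 0)
    (z1 : C.xi i (z : Matrix C.Idx C.Idx k) = 0)
    (z2 : C.xi (D.ρ i) (z : Matrix C.Idx C.Idx k) = 0) : y * z = z * y := by
  obtain ⟨a, b, c, rfl⟩ := FCa_form2 (C.adS k) i hi y hy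
  obtain ⟨a', b', c', rfl⟩ := FCa_form2 (C.adS k) i hi z hz
  rw [(FCa_xi2 i hi a b c).1] at y1
  rw [(FCa_xi2 i hi a b c).2] at y2
  rw [(FCa_xi2 i hi a' b' c').1] at z1
  rw [(FCa_xi2 i hi a' b' c').2] at z2
  rw [y1, y2, z1, z2]
  simp only [StSys.x_zero, one_mul]
  apply StSys.comm
  rw [(FCa_g D i hi).2]
  norm_num

/-- Noncommuting elements. -/
private theorem FCa_ncomm (i : Fin n) (hi : C.A i (D.ρ i) = -1) (y z : GL C.Idx k)
    (hy : y ∈ XO D (C.adS k) (C.simple i)) (hz : z ∈ XO D (C.adS k) (C.simple i))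
    (h : C.xi (D.ρ i) (y : Matrix C.Idx C.Idx k) * C.xi i (z : Matrix C.Idx C.Idx k) ≠
      C.xi (D.ρ i) (z : Matrix C.Idx C.Idx k) * C.xi i (y : Matrix C.Idx C.Idx k)) :
    y * z ≠ z * y := by
  obtain ⟨a, b, c, rfl⟩ := FCa_form2 (C.adS k) i hi y hy
  obtain ⟨a', b', c', rfl⟩ := FCa_form2 (C.adS k) i hi z hz
  rw [(FCa_xi2 i hi a b c).1, (FCa_xi2 i hi a b c).2, (FCa_xi2 i hi a' b' c').1,
    (FCa_xi2 i hi a' b' c').2] at h
  intro hcomm
  apply h
  obtain ⟨S, hS⟩ : ∃ S : StSys C k (GL C.Idx k), S = C.adS k := ⟨_, rfl⟩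
  rw [← hS] at hcomm
  have hip := FCa_ip i hi
  have hgv : (FCa_g D i hi).1 = (C.simple i).1 + (C.simple (D.ρ i)).1 := rfl
  have c1 : ∀ u v, S.x (FCa_g D i hi) u * S.x (C.simple i) v =
      S.x (C.simple i) v * S.x (FCa_g D i hi) u := by
    intro u v
    apply S.comm
    rw [hgv, C.ip_add_left, (C.simple i).2, C.ip_comm, hip]
    norm_num
  have c2 : ∀ u v, S.x (FCa_g D i hi) u * S.x (C.simple (D.ρ i)) v =
      S.x (C.simple (D.ρ i)) v * S.x (FCa_g D i hi) u := by
    intro u v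
    apply S.comm
    rw [hgv, C.ip_add_left, (C.simple (D.ρ i)).2, hip]
    norm_num
  have c4 : ∀ u v, S.x (FCa_g D i hi) u * S.x (FCa_g D i hi) v =
      S.x (FCa_g D i hi) v * S.x (FCa_g D i hi) u := by
    intro u v
    apply S.comm
    rw [(FCa_g D i hi).2]
    norm_num
  have c3 : ∀ u v, S.x (C.simple (D.ρ i)) u * S.x (C.simple i) v =
      S.x (FCa_g D i hi) (C.eps (C.simple (D.ρ i)).1 (C.simple i).1 * u * v) *
        (S.x (C.simple i) v * S.x (C.simple (D.ρ i)) u) := by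
    intro u v
    rw [← S.comm_add (C.simple (D.ρ i)) (C.simple i) (FCa_g D i hi) u v
      (by rw [hgv, add_comm])]
    group
  have key : ∀ a b c a' b' c' : k,
      (S.x (C.simple i) a * S.x (C.simple (D.ρ i)) b * S.x (FCa_g D i hi) c) *
      (S.x (C.simple i) a' * S.x (C.simple (D.ρ i)) b' * S.x (FCa_g D i hi) c') =
      S.x (C.simple i) (a + a') * S.x (C.simple (D.ρ i)) (b + b') *
        S.x (FCa_g D i hi) (c + c') *
        S.x (FCa_g D i hi) (C.eps (C.simple (D.ρ i)).1 (C.simple i).1 * b * a') := by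
    intro a b c a' b' c'
    obtain ⟨w, hw⟩ : ∃ w, w = (C.eps (C.simple (D.ρ i)).1 (C.simple i).1 : k) * b * a' :=
      ⟨_, rfl⟩
    have hc3 := c3 b a'
    rw [← hw] at hc3 ⊢
    rw [S.map_add, S.map_add, S.map_add]
    calc (S.x (C.simple i) a * S.x (C.simple (D.ρ i)) b * S.x (FCa_g D i hi) c) *
          (S.x (C.simple i) a' * S.x (C.simple (D.ρ i)) b' * S.x (FCa_g D i hi) c')
        = S.x (C.simple i) a * S.x (C.simple (D.ρ i)) b *
          (S.x (FCa_g D i hi) c * S.x (C.simple i) a') * S.x (C.simple (D.ρ i)) b' *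
            S.x (FCa_g D i hi) c' := by group
      _ = S.x (C.simple i) a * (S.x (C.simple (D.ρ i)) b * S.x (C.simple i) a') *
          (S.x (FCa_g D i hi) c * S.x (C.simple (D.ρ i)) b') * S.x (FCa_g D i hi) c' := by
          rw [c1]
          group
      _ = S.x (C.simple i) a * (S.x (FCa_g D i hi) w * S.x (C.simple i) a') *
          (S.x (C.simple (D.ρ i)) b * S.x (C.simple (D.ρ i)) b') *
            (S.x (FCa_g D i hi) c * S.x (FCa_g D i hi) c') := by
          rw [hc3, c2]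
          group
      _ = S.x (C.simple i) a * S.x (C.simple i) a' * (S.x (FCa_g D i hi) w *
          S.x (C.simple (D.ρ i)) b) * S.x (C.simple (D.ρ i)) b' *
            (S.x (FCa_g D i hi) c * S.x (FCa_g D i hi) c') := by
          rw [c1]
          group
      _ = S.x (C.simple i) a * S.x (C.simple i) a' * S.x (C.simple (D.ρ i)) b *
          (S.x (FCa_g D i hi) w * S.x (C.simple (D.ρ i)) b') *
            (S.x (FCa_g D i hi) c * S.x (FCa_g D i hi) c') := by
          rw [c2]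
          group
      _ = S.x (C.simple i) a * S.x (C.simple i) a' * S.x (C.simple (D.ρ i)) b *
          S.x (C.simple (D.ρ i)) b' *
            ((S.x (FCa_g D i hi) w * S.x (FCa_g D i hi) c) * S.x (FCa_g D i hi) c') := by
          rw [c2]
          group
      _ = S.x (C.simple i) a * S.x (C.simple i) a' * S.x (C.simple (D.ρ i)) b *
          S.x (C.simple (D.ρ i)) b' *
            (S.x (FCa_g D i hi) c * (S.x (FCa_g D i hi) w * S.x (FCa_g D i hi) c')) := by
          rw [c4 w c]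
          group
      _ = _ := by
          rw [c4 w c']
          group
  rw [key, key, add_comm a' a, add_comm b' b, add_comm c' c] at hcomm
  have h1 := mul_left_cancel hcomm
  rw [hS] at h1
  have h2 : C.xg k (FCa_g D i hi) (C.eps (C.simple (D.ρ i)).1 (C.simple i).1 * b * a') =
      C.xg k (FCa_g D i hi) (C.eps (C.simple (D.ρ i)).1 (C.simple i).1 * b' * a) := h1
  have hinj : ∀ u v : k, C.xg k (FCa_g D i hi) u = C.xg k (FCa_g D i hi) v → u = v := by
    intro u v huv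
    by_cases hu : u = 0
    · by_cases hv : v = 0
      · rw [hu, hv]
      · exact ((C.xg_inj _ _ v u hv huv.symm).2).symm
    · exact (C.xg_inj _ _ u v hu huv).2
  have h3 := hinj _ _ h2
  rcases C.eps_eq_one_or (C.simple (D.ρ i)).1 (C.simple i).1 with h4 | h4
  · rw [h4] at h3
    simpa using h3
  · rw [h4] at h3
    simpa using h3

end orbit

/-! ### The full adjoint torus -/

/-- The character. -/
private def FCa_ch {n : ℕ} {K : Type*} [Field K] (c : Fin n → Kˣ) (v : Fin n → ℤ) : Kˣ :=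
  ∏ j, c j ^ v j

private theorem FCa_ch_add {n : ℕ} {K : Type*} [Field K] (c : Fin n → Kˣ) (v w : Fin n → ℤ) :
    FCa_ch c (v + w) = FCa_ch c v * FCa_ch c w := by
  unfold FCa_ch
  rw [← Finset.prod_mul_distrib]
  exact Finset.prod_congr rfl fun j _ => by rw [Pi.add_apply, _root_.zpow_add]

private theorem FCa_ch_neg {n : ℕ} {K : Type*} [Field K] (c : Fin n → Kˣ) (v : Fin n → ℤ) :
    FCa_ch c (-v) = (FCa_ch c v)⁻¹ := by
  unfold FCa_ch
  rw [← Finset.prod_inv_distrib]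
  exact Finset.prod_congr rfl fun j _ => by rw [Pi.neg_apply, _root_.zpow_neg]

private theorem FCa_ch_single {n : ℕ} {K : Type*} [Field K] (c : Fin n → Kˣ) (i : Fin n) :
    FCa_ch c (Pi.single i 1) = c i := by
  unfold FCa_ch
  rw [Finset.prod_eq_single i]
  · rw [Pi.single_eq_same, zpow_one]
  · intro j _ hj
    rw [Pi.single_eq_of_ne hj, zpow_zero]
  · intro h
    exact absurd (Finset.mem_univ i) h

/-- The diagonal entries of `tadM`. -/
private def FCa_d {n : ℕ} (C : SLC n) {K : Type*} [Field K] (c : Fin n → Kˣ) : C.Idx → K :=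
  Sum.elim (fun _ => 1) (fun γ => ((FCa_ch c γ.1 : Kˣ) : K))

private theorem FCa_tadM {n : ℕ} (C : SLC n) {K : Type*} [Field K] (c : Fin n → Kˣ) :
    tadM C c = Matrix.diagonal (FCa_d C c) := rfl

private theorem FCa_E {n : ℕ} (C : SLC n) {K : Type*} [Field K] (c : Fin n → Kˣ) (β : C.Root)
    (a b : C.Idx) : FCa_d C c a * (C.E β a b : K) =
      ((FCa_ch c β.1 : Kˣ) : K) * ((C.E β a b : K) * FCa_d C c b) := by
  rcases a with i | γ <;> rcases b with j | δ
  · simp [SLC.E]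
  · by_cases h : δ.1 = -β.1
    · have h1 : FCa_d C c (Sum.inr δ) = (((FCa_ch c β.1)⁻¹ : Kˣ) : K) := by
        unfold FCa_d
        rw [Sum.elim_inr, h, FCa_ch_neg]
      have h2 : FCa_d C c (Sum.inl i) = 1 := rfl
      have h3 : ((FCa_ch c β.1 : Kˣ) : K) * (((FCa_ch c β.1)⁻¹ : Kˣ) : K) = 1 :=
        Units.mul_inv _
      rw [h1, h2]
      linear_combination (-(C.E β (Sum.inl i) (Sum.inr δ) : K)) * h3
    · have h1 : C.E β (Sum.inl i) (Sum.inr δ) = 0 := by
        simp only [SLC.E]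
        rw [if_neg h]
      rw [h1]
      simp
  · by_cases h : γ.1 = β.1
    · have h1 : FCa_d C c (Sum.inr γ) = ((FCa_ch c β.1 : Kˣ) : K) := by
        unfold FCa_d
        rw [Sum.elim_inr, h]
      have h2 : FCa_d C c (Sum.inl j) = 1 := rfl
      rw [h1, h2, mul_one]
    · have h1 : C.E β (Sum.inr γ) (Sum.inl j) = 0 := by
        simp only [SLC.E]
        rw [if_neg h]
      rw [h1]
      simp
  · by_cases h : γ.1 = β.1 + δ.1
    · have h1 : FCa_d C c (Sum.inr γ) =
          ((FCa_ch c β.1 : Kˣ) : K) * FCa_d C c (Sum.inr δ) := by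
        unfold FCa_d
        rw [Sum.elim_inr, Sum.elim_inr, h, FCa_ch_add, Units.val_mul]
      rw [h1]
      ring
    · have h1 : C.E β (Sum.inr γ) (Sum.inr δ) = 0 := by
        simp only [SLC.E]
        rw [if_neg h]
      rw [h1]
      simp

private theorem FCa_F {n : ℕ} (C : SLC n) {K : Type*} [Field K] (c : Fin n → Kˣ) (β : C.Root)
    (a b : C.Idx) : FCa_d C c a * (C.F β a b : K) =
      ((FCa_ch c β.1 : Kˣ) : K) ^ 2 * ((C.F β a b : K) * FCa_d C c b) := by
  rcases a with i | γ <;> rcases b with j | δ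
  · simp [SLC.F]
  · simp [SLC.F]
  · simp [SLC.F]
  · by_cases h : γ.1 = β.1 ∧ δ.1 = -β.1
    · have h1 : FCa_d C c (Sum.inr γ) = ((FCa_ch c β.1 : Kˣ) : K) := by
        unfold FCa_d
        rw [Sum.elim_inr, h.1]
      have h2 : FCa_d C c (Sum.inr δ) = (((FCa_ch c β.1)⁻¹ : Kˣ) : K) := by
        unfold FCa_d
        rw [Sum.elim_inr, h.2, FCa_ch_neg]
      have h3 : ((FCa_ch c β.1 : Kˣ) : K) * (((FCa_ch c β.1)⁻¹ : Kˣ) : K) = 1 :=
        Units.mul_inv _
      rw [h1, h2]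
      linear_combination (-((FCa_ch c β.1 : Kˣ) : K) *
        (C.F β (Sum.inr γ) (Sum.inr δ) : K)) * h3
    · have h1 : C.F β (Sum.inr γ) (Sum.inr δ) = 0 := by
        simp only [SLC.F]
        rw [if_neg h]
      rw [h1]
      simp

section tad
variable {n : ℕ} (C : SLC n) {K : Type*} [Field K]

theorem tad_xg (c : Fin n → Kˣ) (β : C.Root) (t : K) :
    tad C c * C.xg K β t * (tad C c)⁻¹ = C.xg K β (((∏ j, c j ^ β.1 j : Kˣ) : K) * t) := by
  have key : tad C c * C.xg K β t = C.xg K β (((FCa_ch c β.1 : Kˣ) : K) * t) * tad C c := by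
    apply Units.ext
    change tadM C c * C.X K β t = C.X K β (((FCa_ch c β.1 : Kˣ) : K) * t) * tadM C c
    rw [FCa_tadM]
    ext a b
    rw [Matrix.diagonal_mul, Matrix.mul_diagonal]
    have h1 : FCa_d C c a * (1 : Matrix C.Idx C.Idx K) a b =
        (1 : Matrix C.Idx C.Idx K) a b * FCa_d C c b := by
      by_cases h : a = b
      · rw [h, mul_comm]
      · rw [Matrix.one_apply_ne h, mul_zero, zero_mul]
    have h2 := FCa_E C c β a b
    have h3 := FCa_F C c β a b
    unfold SLC.X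
    simp only [Matrix.add_apply, Matrix.smul_apply, Matrix.map_apply, smul_eq_mul]
    linear_combination h1 + t * h2 + t ^ 2 * h3
  rw [mul_inv_eq_iff_eq_mul]
  exact key

theorem tad_Gad (c : Fin n → Kˣ) (x : GL C.Idx K) :
    tad C c * x * (tad C c)⁻¹ ∈ C.Gad K ↔ x ∈ C.Gad K := by
  have h0 : ∀ (d : Fin n → Kˣ) (y : GL C.Idx K), y ∈ C.Gad K →
      tad C d * y * (tad C d)⁻¹ ∈ C.Gad K := by
    intro d y hy
    have h1 : C.Gad K ≤ (C.Gad K).comap (MulAut.conj (tad C d)).toMonoidHom := by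
      conv_lhs => unfold SLC.Gad
      rw [Subgroup.closure_le]
      rintro z ⟨q, rfl⟩
      change tad C d * C.xg K q.1 q.2 * (tad C d)⁻¹ ∈ C.Gad K
      rw [tad_xg]
      exact Subgroup.subset_closure ⟨(q.1, _), rfl⟩
    exact h1 hy
  constructor
  · intro h
    have h1 := h0 c⁻¹ _ h
    have h2 : tad C c⁻¹ = (tad C c)⁻¹ := Units.ext rfl
    rw [h2] at h1
    have h3 : (tad C c)⁻¹ * (tad C c * x * (tad C c)⁻¹) * ((tad C c)⁻¹)⁻¹ = x := by group
    rwa [h3] at h1
  · exact h0 c x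

theorem T_eq_tad (τ : GL C.Idx K) (hτ : τ ∈ (C.adS K).T) : ∃ c : Fin n → Kˣ, τ = tad C c ∧
    ∀ j, C.chi (τ : Matrix C.Idx C.Idx K) (C.simple j) = c j := by
  obtain ⟨c, hc⟩ := C.T_diag τ hτ
  refine ⟨c, Units.ext hc, fun j => ?_⟩
  unfold SLC.chi
  rw [hc, Matrix.diagonal_apply_eq]
  change ((FCa_ch c (C.simple j).1 : Kˣ) : K) = c j
  rw [SLC.simple_val, FCa_ch_single]

theorem sgl_tad (D : Dg C) (θ' : K ≃+* K) (c : Fin n → Kˣ) :
    D.sgl θ' (tad C c) = tad C (fun j => Units.map (θ' : K →* K) (c (D.ρ.symm j))) := by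
  rw [Dg.sgl_apply, mul_inv_eq_iff_eq_mul]
  apply Units.ext
  rw [Units.val_mul, Units.val_mul, SLC.mp_val]
  change D.mat K * (tadM C c).map θ' =
    tadM C (fun j => Units.map (θ' : K →* K) (c (D.ρ.symm j))) * D.mat K
  rw [FCa_tadM, FCa_tadM, Matrix.diagonal_map (map_zero θ')]
  ext a b
  rw [Matrix.diagonal_mul, Matrix.mul_diagonal]
  rcases a with i | γ <;> rcases b with j | δ
  · simp [FCa_d]
  · simp [Dg.mat]
  · simp [Dg.mat]
  · by_cases h : γ = D.r δ
    · have h1 : FCa_ch (fun j => Units.map (θ' : K →* K) (c (D.ρ.symm j))) (D.r δ).1 =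
          Units.map (θ' : K →* K) (FCa_ch c δ.1) := by
        unfold FCa_ch
        rw [map_prod, ← Equiv.prod_comp D.ρ]
        refine Finset.prod_congr rfl fun j _ => ?_
        change (Units.map (θ' : K →* K) (c (D.ρ.symm (D.ρ j)))) ^ (D.r δ).1 (D.ρ j) = _
        rw [Equiv.symm_apply_apply, D.r_val, map_zpow]
      have h2 : FCa_d C (fun j => Units.map (θ' : K →* K) (c (D.ρ.symm j))) (Sum.inr γ) =
          θ' (FCa_d C c (Sum.inr δ)) := by
        unfold FCa_d
        rw [Sum.elim_inr, Sum.elim_inr, h, h1]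
        rfl
      rw [h2, mul_comm]
    · have h1 : D.mat K (Sum.inr γ) (Sum.inr δ) = 0 := by
        simp only [Dg.mat]
        rw [if_neg h]
      rw [h1, zero_mul, mul_zero]

end tad

/-! ### The simple root groups of the source and of the target -/

section pin
variable {n : ℕ} {C : SLC n} {D : Dg C} {k : Type*} [Field k] {θ : k ≃+* k} {H : Type*} [Group H]
  {S : StSys C k H} {s : H →* H} {p : H →* GL C.Idx k}

private theorem FCa_core {G : Type*} [Group G] {K : Type*} [Field K] (Y : Subgroup G)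
    (Φ : G →* GL C.Idx K) (θ' : K ≃+* K) (i : Fin n)
    (hΦ : ∀ x ∈ Y, Φ x ∈ XO D (C.adS K) (C.simple i))
    (hfix : ∀ x ∈ Y, D.sgl θ' (Φ x) = Φ x) (hinj : ∀ x ∈ Y, Φ x = 1 → x = 1)
    (h1 : C.A i (D.ρ i) ≠ -1 → ∃ x ∈ Y, x ≠ 1)
    (h2 : C.A i (D.ρ i) = -1 → ∃ x ∈ Y, ∃ y ∈ Y, x * y ≠ y * x) :
    ∃ x ∈ Y, C.xi i (Φ x : Matrix C.Idx C.Idx K) ≠ 0 := by
  by_contra hcon
  push Not at hcon
  have hall : ∀ (l : ℕ), ∀ x ∈ Y, C.xi ((D.ρ ^ l) i) (Φ x : Matrix C.Idx C.Idx K) = 0 := by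
    intro l
    induction l with
    | zero =>
      intro x hx
      exact hcon x hx
    | succ l ih =>
      intro x hx
      have e1 := xi_sgl D θ' (Φ x) ((D.ρ ^ l) i)
      rw [hfix x hx, ih x hx, map_zero] at e1
      rw [pow_succ', Equiv.Perm.mul_apply]
      exact e1
  by_cases hi : C.A i (D.ρ i) = -1
  · obtain ⟨x, hx, y, hy, hxy⟩ := h2 hi
    apply hxy
    have e1 := FCa_comm2 i hi (Φ x) (Φ y) (hΦ x hx) (hΦ y hy) (hcon x hx) (hall 1 x hx)
      (hcon y hy) (hall 1 y hy)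
    have e2 : x * y * (y * x)⁻¹ ∈ Y := mul_mem (mul_mem hx hy) (inv_mem (mul_mem hy hx))
    have e3 : Φ (x * y * (y * x)⁻¹) = 1 := by
      rw [map_mul, map_inv, map_mul, map_mul, e1, mul_inv_cancel]
    exact mul_inv_eq_one.1 (hinj _ e2 e3)
  · obtain ⟨x, hx, hx1⟩ := h1 hi
    exact hx1 (hinj x hx (FCa_one i hi (Φ x) (hΦ x hx) fun l => hall l x hx))

private theorem FCa_le (S : StSys C k H) (s : H →* H) (i : Fin n) (x : H)
    (hx : x ∈ fixX D S s (C.simple i)) : x ∈ Eg S s := by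
  have h1 : fixU S s ≤ Eg S s := le_sup_left
  exact h1 (fixX_le_fixU S s (C.simple i) (C.simple_pos i) hx)

private theorem FCa_src1 (he : Env D θ S s p) (i : Fin n) :
    ∃ x ∈ fixX D S s (C.simple i), x ≠ 1 := by
  obtain ⟨x, hx, h1⟩ := fixX_xi_exists he i 1 (fun _ => map_one θ)
  refine ⟨x, hx, ?_⟩
  rintro rfl
  rw [map_one, Units.val_one, C.xi_one] at h1
  exact zero_ne_one h1

private theorem FCa_src2 (he : Env D θ S s p) (i : Fin n) (hi : C.A i (D.ρ i) = -1) :
    ∃ x ∈ fixX D S s (C.simple i), ∃ y ∈ fixX D S s (C.simple i), x * y ≠ y * x := by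
  have hNA : ¬ D.NA := fun h => h i hi
  have hA := he.hA.resolve_left hNA
  have hB := he.hB.resolve_left hNA
  have hne : D.ρ i ≠ i := (FCa_rr i hi).1
  obtain ⟨t, ht⟩ : ∃ t, θ t ≠ t := by
    by_contra hcon
    push Not at hcon
    obtain ⟨e, he0, he1⟩ := hA
    rw [hcon e] at he1
    obtain ⟨v, hv⟩ := hB 1 (map_one θ)
    rw [hcon v] at hv
    have h1 : e * (v + v) = 0 := by linear_combination v * he1
    rw [hv, mul_one] at h1
    exact he0 h1
  obtain ⟨x, hx, hx1⟩ := fixX_xi_exists he i 1 (fun h => absurd h hne)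
  obtain ⟨y, hy, hy1⟩ := fixX_xi_exists he i t (fun h => absurd h hne)
  refine ⟨x, hx, y, hy, ?_⟩
  have hx2 := (fixX_xi he i x hx).1 1
  have hy2 := (fixX_xi he i y hy).1 1
  rw [hx1, pow_one, Function.iterate_one, map_one] at hx2
  rw [hy1, pow_one, Function.iterate_one] at hy2
  intro hxy
  have h3 := FCa_ncomm i hi (p x) (p y) (FCa_p_XO S p he.hp _ x hx.1)
    (FCa_p_XO S p he.hp _ y hy.1) (by
      rw [hx1, hx2, hy1, hy2, one_mul, mul_one]
      exact fun h => ht h.symm)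
  apply h3
  rw [← map_mul, hxy, map_mul]

private theorem FCa_neg_neg (β : C.Root) : -(-β) = β := by
  apply SLC.Root.ext
  rw [SLC.Root.neg_val, SLC.Root.neg_val, neg_neg]

private theorem FCa_r_iter_neg (D : Dg C) (l : ℕ) (β : C.Root) :
    D.r^[l] (-β) = -(D.r^[l] β) := by
  induction l with
  | zero => rfl
  | succ l ih => rw [Function.iterate_succ_apply', Function.iterate_succ_apply', ih, D.r_neg]

private theorem FCa_om_XO {K : Type*} [Field K] (β : C.Root) (y : GL C.Idx K)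
    (hy : y ∈ XO D (C.adS K) β) : omG C K * y * (omG C K)⁻¹ ∈ XO D (C.adS K) (-β) := by
  have h1 : XO D (C.adS K) β ≤
      (XO D (C.adS K) (-β)).comap (MulAut.conj (omG C K)).toMonoidHom := by
    conv_lhs => unfold XO
    rw [Subgroup.closure_le]
    rintro g ⟨γ, t, hγ, rfl⟩
    refine Subgroup.subset_closure ⟨-γ, t, ?_, ?_⟩
    · rcases hγ with ⟨l, rfl⟩ | h
      · exact Or.inl ⟨l, (FCa_r_iter_neg D l β).symm⟩
      · refine Or.inr ?_
        rw [SLC.Root.neg_val, SLC.Root.neg_val, D.r_neg, SLC.Root.neg_val, h, neg_add]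
    · exact omG_xg C γ t
  exact h1 hy

private theorem FCa_om_sgl {K : Type*} [Field K] (D : Dg C) (θ' : K ≃+* K) (y : GL C.Idx K)
    (hy : y ∈ C.Gad K) : D.sgl θ' (omG C K * y * (omG C K)⁻¹) =
      omG C K * D.sgl θ' y * (omG C K)⁻¹ := by
  have h1 : C.Gad K ≤ ((D.sgl θ').comp (MulAut.conj (omG C K)).toMonoidHom).eqLocus
      ((MulAut.conj (omG C K)).toMonoidHom.comp (D.sgl θ')) := by
    conv_lhs => unfold SLC.Gad
    rw [Subgroup.closure_le]
    rintro g ⟨q, rfl⟩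
    change D.sgl θ' (omG C K * C.xg K q.1 q.2 * (omG C K)⁻¹) =
      omG C K * D.sgl θ' (C.xg K q.1 q.2) * (omG C K)⁻¹
    have h2 : ∀ β t, D.sgl θ' (C.xg K β t) = C.xg K (D.r β) ((D.sg β : K) * θ' t) :=
      isSig_adS D θ'
    rw [omG_xg, h2, h2, omG_xg, D.r_neg, D.sg_neg]
  exact h1 hy

private theorem FCa_T_fixX (he : Env D θ S s p) (h : H) (hh : h ∈ S.T) (hs : s h = h)
    (β : C.Root) (x : H) (hx : x ∈ fixX D S s β) : h⁻¹ * x * h ∈ fixX D S s β := by
  constructor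
  · have h1 : XO D S β ≤ (XO D S β).comap (MulAut.conj h⁻¹).toMonoidHom := by
      conv_lhs => unfold XO
      rw [Subgroup.closure_le]
      rintro g ⟨γ, t, hγ, rfl⟩
      exact Subgroup.subset_closure
        ⟨γ, C.chi (p h⁻¹ : Matrix C.Idx C.Idx k) γ * t, hγ, (SR_T he h⁻¹ (inv_mem hh) γ t).2⟩
    have h2 : h⁻¹ * x * h⁻¹⁻¹ ∈ XO D S β := h1 hx.1
    rwa [inv_inv] at h2
  · have h1 : s x = x := hx.2
    change s (h⁻¹ * x * h) = h⁻¹ * x * h
    rw [map_mul, map_mul, map_inv, h1, hs]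

end pin

variable {n : ℕ} {C : SLC n} {D : Dg C} {k : Type*} [Field k] {θ : k ≃+* k} {H : Type*} [Group H]
  {S : StSys C k H} {s : H →* H} {p : H →* GL C.Idx k}

theorem Pin_inj (he : Env D θ S s p) {K : Type*} [Field K] (θ' : K ≃+* K)
    (Ψ : Eg S s →* GL C.Idx K) (hP : Pin he θ' Ψ) (i : Fin n) (x : Eg S s)
    (hx : (x : H) ∈ fixX D S s (C.simple i) ∨ (x : H) ∈ fixX D S s (-(C.simple i)))
    (h1 : Ψ x = 1) : x = 1 := by
  have hc := hP.ker x h1
  obtain ⟨ν, hν⟩ : ∃ ν, ν = nuJ he i := ⟨_, rfl⟩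
  have hνm : ν ∈ S.N ⊓ Eg S s := hν ▸ nuJ_mem he i
  have hνa : S.Acts ν (C.wd (D.wl i)) := hν ▸ nuJ_acts he i
  have hiff := (SR_ν he i ν hνm hνa).2.1 (x : H)
  have hcx : ν * (x : H) * ν⁻¹ = x := by
    have h2 := Subgroup.mem_center_iff.1 hc ⟨ν, hνm.2⟩
    have h3 : ν * (x : H) = x * ν := congrArg Subtype.val h2
    rw [h3, mul_inv_cancel_right]
  rw [hcx] at hiff
  have hboth : (x : H) ∈ fixX D S s (C.simple i) ∧ (x : H) ∈ fixX D S s (-(C.simple i)) := by
    rcases hx with h | h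
    · exact ⟨h, hiff.1 h⟩
    · exact ⟨hiff.2 h, h⟩
  have hU : (x : H) ∈ S.U 1 := FCa_XO_U S i _ hboth.1.1
  have hUm : (x : H) ∈ S.Um := FCa_XO_Um S i _ hboth.2.1
  have hp1 : p (x : H) = 1 := U_inf_Um _ (C.S9_U S p he.hp 1 _ hU)
    (FCa_p_Um S p he.hp _ hUm)
  exact Subtype.ext (FCa_p_inj S p he.hp _ hU hp1)

theorem Pin_nonvan (he : Env D θ S s p) {K : Type*} [Field K] (θ' : K ≃+* K)
    (Ψ : Eg S s →* GL C.Idx K) (hP : Pin he θ' Ψ) (i : Fin n) :
    ∃ x : Eg S s, (x : H) ∈ fixX D S s (C.simple i) ∧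
      C.xi i (Ψ x : Matrix C.Idx C.Idx K) ≠ 0 := by
  have h := FCa_core (D := D) ((fixX D S s (C.simple i)).subgroupOf (Eg S s)) Ψ θ' i
    (fun x hx => (hP.pos i x (Subgroup.mem_subgroupOf.1 hx)).1)
    (fun x _ => hP.fix x)
    (fun x hx h1 => Pin_inj he θ' Ψ hP i x (Or.inl (Subgroup.mem_subgroupOf.1 hx)) h1)
    (fun _ => by
      obtain ⟨x, hx, hx1⟩ := FCa_src1 he i
      exact ⟨⟨x, FCa_le S s i x hx⟩, Subgroup.mem_subgroupOf.2 hx,
        fun h => hx1 (congrArg Subtype.val h)⟩)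
    (fun hi => by
      obtain ⟨x, hx, y, hy, hxy⟩ := FCa_src2 he i hi
      exact ⟨⟨x, FCa_le S s i x hx⟩, Subgroup.mem_subgroupOf.2 hx,
        ⟨y, FCa_le S s i y hy⟩, Subgroup.mem_subgroupOf.2 hy,
        fun h => hxy (congrArg Subtype.val h)⟩)
  obtain ⟨x, hx, hx1⟩ := h
  exact ⟨x, Subgroup.mem_subgroupOf.1 hx, hx1⟩

theorem Pin_nonvan_neg (he : Env D θ S s p) {K : Type*} [Field K] (θ' : K ≃+* K)
    (Ψ : Eg S s →* GL C.Idx K) (hP : Pin he θ' Ψ) (i : Fin n) :
    ∃ x : Eg S s, (x : H) ∈ fixX D S s (-(C.simple i)) ∧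
      C.xi i ((omG C K * Ψ x * (omG C K)⁻¹ : GL C.Idx K) : Matrix C.Idx C.Idx K) ≠ 0 := by
  obtain ⟨ν, hν⟩ : ∃ ν, ν = nuJ he i := ⟨_, rfl⟩
  have hνm : ν ∈ S.N ⊓ Eg S s := hν ▸ nuJ_mem he i
  have hνa : S.Acts ν (C.wd (D.wl i)) := hν ▸ nuJ_acts he i
  have hiff := (SR_ν he i ν hνm hνa).2.1
  have hE : ∀ x ∈ fixX D S s (C.simple i), ν * x * ν⁻¹ ∈ Eg S s := fun x hx =>
    mul_mem (mul_mem hνm.2 (FCa_le S s i x hx)) (inv_mem hνm.2)
  have h := FCa_core (D := D) ((fixX D S s (-(C.simple i))).subgroupOf (Eg S s))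
    ((MulAut.conj (omG C K)).toMonoidHom.comp Ψ) θ' i
    (fun x hx => by
      have h1 := FCa_om_XO (-(C.simple i)) (Ψ x) (hP.neg i x (Subgroup.mem_subgroupOf.1 hx)).1
      rw [FCa_neg_neg] at h1
      exact h1)
    (fun x _ => by
      have h1 := FCa_om_sgl D θ' (Ψ x) (hP.mem x)
      rw [hP.fix x] at h1
      exact h1)
    (fun x hx h1 => by
      have h2 : omG C K * Ψ x * (omG C K)⁻¹ = 1 := h1
      refine Pin_inj he θ' Ψ hP i x (Or.inr (Subgroup.mem_subgroupOf.1 hx)) ?_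
      rw [mul_inv_eq_one] at h2
      exact mul_eq_left.1 h2)
    (fun _ => by
      obtain ⟨x, hx, hx1⟩ := FCa_src1 he i
      refine ⟨⟨ν * x * ν⁻¹, hE x hx⟩, Subgroup.mem_subgroupOf.2 ((hiff x).1 hx), fun h => ?_⟩
      have h2 : ν * x * ν⁻¹ = 1 := congrArg Subtype.val h
      rw [mul_inv_eq_one] at h2
      exact hx1 (mul_eq_left.1 h2))
    (fun hi => by
      obtain ⟨x, hx, y, hy, hxy⟩ := FCa_src2 he i hi
      refine ⟨⟨ν * x * ν⁻¹, hE x hx⟩, Subgroup.mem_subgroupOf.2 ((hiff x).1 hx),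
        ⟨ν * y * ν⁻¹, hE y hy⟩, Subgroup.mem_subgroupOf.2 ((hiff y).1 hy), fun h => ?_⟩
      have h2 : ν * x * ν⁻¹ * (ν * y * ν⁻¹) = ν * y * ν⁻¹ * (ν * x * ν⁻¹) :=
        congrArg Subtype.val h
      apply hxy
      have h3 : ν * (x * y) * ν⁻¹ = ν * (y * x) * ν⁻¹ := by
        calc ν * (x * y) * ν⁻¹ = ν * x * ν⁻¹ * (ν * y * ν⁻¹) := by group
          _ = ν * y * ν⁻¹ * (ν * x * ν⁻¹) := h2
          _ = ν * (y * x) * ν⁻¹ := by group
      exact mul_left_cancel (mul_right_cancel h3))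
  obtain ⟨x, hx, hx1⟩ := h
  exact ⟨x, Subgroup.mem_subgroupOf.1 hx, hx1⟩

theorem Pin_T (he : Env D θ S s p) {K : Type*} [Field K] (θ' : K ≃+* K)
    (Ψ : Eg S s →* GL C.Idx K) (hP : Pin he θ' Ψ) (h : Eg S s) (hh : (h : H) ∈ S.T) :
    Ψ h ∈ (C.adS K).T := by
  have hs : s (h : H) = h := Eg_le_fix S s _ h.2
  have hconj : ∀ x : Eg S s, (Ψ h)⁻¹ * Ψ x * Ψ h = Ψ (h⁻¹ * x * h) := by
    intro x
    rw [map_mul, map_mul, map_inv]
  refine T_of_both C (Ψ h) (hP.mem h) ?_ ?_
  · refine upper_of_fix C {γ | ∃ i, ∃ x : Eg S s, (x : H) ∈ fixX D S s (C.simple i) ∧ γ = Ψ x}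
      ?_ ?_ (Ψ h) (hP.mem h) ?_
    · rintro γ ⟨i, x, hx, rfl⟩
      exact FCa_XO_U _ i _ (hP.pos i x hx).1
    · intro j
      obtain ⟨x, hx, hx1⟩ := Pin_nonvan he θ' Ψ hP j
      exact ⟨Ψ x, ⟨j, x, hx, rfl⟩, hx1⟩
    · rintro γ ⟨i, x, hx, rfl⟩
      rw [hconj]
      have h1 : ((h⁻¹ * x * h : Eg S s) : H) ∈ fixX D S s (C.simple i) :=
        FCa_T_fixX he h hh hs _ _ hx
      exact C.Fil_U_zero _ (FCa_XO_U _ i _ (hP.pos i _ h1).1)
  · refine lower_of_fix C
      {γ | ∃ i, ∃ x : Eg S s, (x : H) ∈ fixX D S s (-(C.simple i)) ∧ γ = Ψ x}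
      ?_ ?_ (Ψ h) (hP.mem h) ?_
    · rintro γ ⟨i, x, hx, rfl⟩
      exact FCa_XO_Um _ i _ (hP.neg i x hx).1
    · intro j
      obtain ⟨x, hx, hx1⟩ := Pin_nonvan_neg he θ' Ψ hP j
      exact ⟨Ψ x, ⟨j, x, hx, rfl⟩, hx1⟩
    · rintro γ ⟨i, x, hx, rfl⟩
      rw [hconj]
      have h1 : ((h⁻¹ * x * h : Eg S s) : H) ∈ fixX D S s (-(C.simple i)) :=
        FCa_T_fixX he h hh hs _ _ hx
      exact FCa_XO_Um _ i _ (hP.neg i _ h1).1

theorem Pin_xi (he : Env D θ S s p) {K : Type*} [Field K] (θ' : K ≃+* K)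
    (Ψ : Eg S s →* GL C.Idx K) (hP : Pin he θ' Ψ) (h : Eg S s) (hh : (h : H) ∈ S.T) (i : Fin n)
    (x : Eg S s) (hx : (x : H) ∈ fixX D S s (C.simple i)) :
    C.xi i (Ψ (h * x * h⁻¹) : Matrix C.Idx C.Idx K) =
      C.chi (Ψ h : Matrix C.Idx C.Idx K) (C.simple i) * C.xi i (Ψ x : Matrix C.Idx C.Idx K) := by
  have h1 : Ψ (h * x * h⁻¹) = Ψ h * Ψ x * (Ψ h)⁻¹ := by
    rw [map_mul, map_mul, map_inv]
  rw [h1]
  exact (C.xi_conj (Ψ h) (Ψ x) (hP.mem h) (C.Fil_T _ (Pin_T he θ' Ψ hP h hh))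
    (FCa_XO_U _ i _ (hP.pos i x hx).1) i).2

end Pool.Agent.H86.UM
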