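import Pool.Agent.H86.UM.Z9
import Pool.Agent.H75.UE.E4

/-!
# Project UM, Suzuki-Ree groups, module ZCt: the centre of the Suzuki-Ree group is trivial

`S = srcSR hS h hJ`, `Ψ` the inclusion `Esr D σ → GL C.Idx k`. `Tgt C S Ψ`: `mem`: `mem_GF_fix`. `U_le`: `x ∈ FU` is
in `fixU`, so in `(C.adS k).U 1`. `T_le`: `x ∈ FT` is diagonal (`T_diag` or `T_le_..` in UL). `nonvan`: for a node `j` let
`J = mk j`, `i = srep hS J`, `JJ i j` (`srep_spec`); `x ∈ XJ i` with `ξ_i x = 1` (`JHyp.onto`), `x ∈ Esr D σ` (`XJ_le`,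
`Esr`). If `j` is in the cycle of `i` then `ξ_j x = ξ_i x = 1` (`xi_sgl` with `θ = 1`, `mem_GF_fix`); if `j` is in the
cycle of `t0 i` then `j = t0 i` (`t0 i` is fixed), `ξ_(t0 i) x = ξ_(t0 i) (σ x) = θ (ξ_i x) = 1` (`sig_xi`).
`occ`: for `J` take `j = srep hS J` and `x` as above. Then `Tgt_center` (H75/UE/E4.lean): an element `z` of the
centre satisfies `z x = x z` in `GL`, so `z = 1`.
-/

set_option autoImplicit false
open Matrix

namespace Pool.Agent.H86.UM

open Pool.Agent.H75.UL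

variable {n : ℕ} {C : SLC n} {D : Dg C} {t0 : Fin n → Fin n}

private theorem ZCt_cycle (hN : D.NA) {k : Type*} [Field k] [Infinite k] (x : GF D k)
    (i j : Fin n) (h : D.ρ.SameCycle i j) :
    C.xi j ((x : GL C.Idx k) : Matrix C.Idx C.Idx k) =
      C.xi i ((x : GL C.Idx k) : Matrix C.Idx C.Idx k) := by
  have h1 : ∀ i, C.xi (D.ρ i) ((x : GL C.Idx k) : Matrix C.Idx C.Idx k) =
      C.xi i ((x : GL C.Idx k) : Matrix C.Idx C.Idx k) := by
    intro i
    have h2 := xi_sgl D (RingEquiv.refl k) (x : GL C.Idx k) i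
    rw [(mem_GF_fix hN _ x.2).1] at h2
    exact h2
  obtain ⟨l, -, hl⟩ := h.exists_pow_eq'
  rw [← hl]
  clear hl
  induction l with
  | zero => rfl
  | succ l ih => rw [pow_succ', Equiv.Perm.mul_apply, h1, ih]

theorem center_SR (hS : Swap D t0) {k : Type*} [Field k] [Infinite k] {θ : k ≃+* k}
    {σ : GF D k →* GF D k} (h : SRs D t0 θ σ) {N : ℕ} (hJ : JHyp hS σ N) :
    Subgroup.center (Esr D σ) = ⊥ := by
  have key : ∀ J : TOrb hS, ∃ x ∈ (srcSR hS h hJ).X J, ∀ j, JJ D t0 (srep hS J) j →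
      C.xi j (((x : GF D k) : GL C.Idx k) : Matrix C.Idx C.Idx k) = 1 := by
    intro J
    obtain ⟨x, hx, h1⟩ := hJ.onto (srep hS J) (srep_spec hS J).1 1
    have hxE : x ∈ Esr D σ :=
      (le_sup_left : FU D k ⊓ Fx σ ≤ Esr D σ) ((XJ_le hS (σ := σ) (srep hS J)).1 hx)
    refine ⟨⟨x, hxE⟩, hx, ?_⟩
    have hxU := ((XJ_le hS (σ := σ) (srep hS J)).1 hx).1
    intro j hj
    change C.xi j ((x : GL C.Idx k) : Matrix C.Idx C.Idx k) = 1
    rcases hj with hj | hj
    · rw [ZCt_cycle hS.na x _ j hj, h1]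
    · have h2 := sig_xi hS h x hxU (srep hS J)
      have h3 : σ x = x := hx.2
      rw [h3, h1, th_one] at h2
      rw [ZCt_cycle hS.na x _ j hj, h2]
  have hT : Tgt C (srcSR hS h hJ) ((GF D k).subtype.comp (Esr D σ).subtype) := by
    refine ⟨?_, ?_, ?_, ?_, ?_⟩
    · intro x
      exact (mem_GF_fix hS.na _ (x : GF D k).2).2
    · intro u hu
      have hu' : (u : GF D k) ∈ FU D k := hu
      exact hu'.1
    · intro x hx
      exact C.Fil_T _ hx
    · intro j
      obtain ⟨x, hx, h1⟩ := key (Quotient.mk (tset hS) j)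
      refine ⟨_, x, hx, ?_⟩
      rw [show C.xi j ((((GF D k).subtype.comp (Esr D σ).subtype) x : GL C.Idx k) :
        Matrix C.Idx C.Idx k) = 1 from h1 j (((srep_spec hS _).2.2 j).1 rfl)]
      exact one_ne_zero
    · intro J
      obtain ⟨x, hx, h1⟩ := key J
      refine ⟨srep hS J, x, hx, ?_⟩
      rw [show C.xi (srep hS J) ((((GF D k).subtype.comp (Esr D σ).subtype) x : GL C.Idx k) :
        Matrix C.Idx C.Idx k) = 1 from h1 _ (JJ_refl _)]
      exact one_ne_zero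
  rw [eq_bot_iff]
  intro z hz
  rw [Subgroup.mem_bot]
  have h1 := Tgt_center C (srcSR hS h hJ) ((GF D k).subtype.comp (Esr D σ).subtype) hT
    ((z : GF D k) : GL C.Idx k) (hT.mem z) (fun x => by
      have h2 := (Subgroup.mem_center_iff.mp hz x).symm
      exact congrArg (fun y : Esr D σ => ((y : GF D k) : GL C.Idx k)) h2)
  exact Subtype.ext (Subtype.ext h1)

end Pool.Agent.H86.UM
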