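import Pool.Agent.H86.UM.ZFin
import Pool.Agent.H86.UM.ZCt
import Pool.Agent.H75.US.S0

/-!
# Project UM, Suzuki-Ree groups, module ZH: the input of the project US

`Rig` (H75/US/S0.lean): if the target field `K'` is finite then `Esr D σ'` is finite, but `Esr D σ` is infinite
(`JHyp.onto` with `XJ_le`: the map `t ↦ x` with `ξ_i x = t` is injective), so there is no injective homomorphism.
Otherwise `rigid_A3` etc. `center`: `center_SR` with `jhyp_A3` etc.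
-/

set_option autoImplicit false
open Matrix
universe u

namespace Pool.Agent.H86.UM

open Pool.Agent.H75.UL

private theorem ZH_inf {n : ℕ} {C : SLC n} {D : Dg C} {t0 : Fin n → Fin n} (hS : Swap D t0)
    {k : Type u} [Field k] [Infinite k] {σ : GF D k →* GF D k} {N : ℕ} (hJ : JHyp hS σ N)
    (i : Fin n) (hi : D.ρ i ≠ i) : Infinite (Esr D σ) := by
  choose f hf1 hf2 using hJ.onto i hi
  have hmem : ∀ t, f t ∈ Esr D σ := fun t =>
    (le_sup_left : FU D k ⊓ Fx σ ≤ Esr D σ) ((XJ_le hS (σ := σ) i).1 (hf1 t))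
  refine Infinite.of_injective (fun t : k => (⟨f t, hmem t⟩ : Esr D σ)) ?_
  intro s t hst
  have h1 : f s = f t := congrArg Subtype.val hst
  rw [← hf2 s, ← hf2 t, h1]

private theorem ZH_rig {n : ℕ} {C : SLC n} {D : Dg C} {t0 : Fin n → Fin n} (hS : Swap D t0)
    (i : Fin n) (hi : D.ρ i ≠ i) (N : ℕ)
    (hJ : ∀ (k : Type u) [Field k] [Infinite k] (θ : k ≃+* k) (σ : GF D k →* GF D k),
      SRs D t0 θ σ → JHyp hS σ N)
    (hR : ∀ (k K : Type u) [Field k] [Infinite k] [Field K] [Infinite K] (θ : k ≃+* k)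
      (θ' : K ≃+* K) (σ : GF D k →* GF D k) (σ' : GF D K →* GF D K),
      SRs D t0 θ σ → SRs D t0 θ' σ' → ∀ Ψ : Esr D σ →* Esr D σ', Function.Injective Ψ →
      RigS D t0 θ θ' Ψ) : Rig.{u} D t0 := by
  intro K K' _ _ _ θ θ' σ σ' h h' Ψ hinj
  rcases finite_or_infinite K' with hfin | hinf
  · exfalso
    have : Infinite (Esr D σ) := ZH_inf hS (hJ K θ σ h) i hi
    have : Finite (Matrix C.Idx C.Idx K') := Pi.finite
    have : Finite (GL C.Idx K') := inferInstanceAs (Finite (Matrix C.Idx C.Idx K')ˣ)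
    have : Finite (GF D K') := Subtype.finite
    have : Finite (Esr D σ') := Subtype.finite
    exact not_finite_iff_infinite.mpr ‹Infinite (Esr D σ)› (Finite.of_injective Ψ hinj)
  · obtain ⟨φ, cc, g, h1, h2, h3, h4⟩ := hR K K' θ θ' σ σ' h h' Ψ hinj
    exact ⟨φ, g, cc, h1, h2, h3, h4⟩

theorem rig_A3 : Rig.{u} dA3 tA3 :=
  ZH_rig swap_A3 0 (by decide) 1 (fun k _ _ θ σ h => jhyp_A3 h)
    (fun k K _ _ _ _ θ θ' σ σ' h h' Ψ hinj => rigid_A3 h h' Ψ hinj)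

theorem rig_D4 : Rig.{u} dD4 tD4 :=
  ZH_rig swap_D4 0 (by decide) 2 (fun k _ _ θ σ h => jhyp_D4 h)
    (fun k K _ _ _ _ θ θ' σ σ' h h' Ψ hinj => rigid_D4 h h' Ψ hinj)

theorem rig_E6 : Rig.{u} dE6 tE6 :=
  ZH_rig swap_E6 0 (by decide) 1 (fun k _ _ θ σ h => jhyp_E6 h)
    (fun k K _ _ _ _ θ θ' σ σ' h h' Ψ hinj => rigid_E6 h h' Ψ hinj)

theorem cen_A3 (K : Type u) [Field K] [Infinite K] (θ : K ≃+* K) (σ : GF dA3 K →* GF dA3 K)
    (h : SRs dA3 tA3 θ σ) : Subgroup.center (Esr dA3 σ) = ⊥ :=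
  center_SR swap_A3 h (jhyp_A3 h)

theorem cen_D4 (K : Type u) [Field K] [Infinite K] (θ : K ≃+* K) (σ : GF dD4 K →* GF dD4 K)
    (h : SRs dD4 tD4 θ σ) : Subgroup.center (Esr dD4 σ) = ⊥ :=
  center_SR swap_D4 h (jhyp_D4 h)

theorem cen_E6 (K : Type u) [Field K] [Infinite K] (θ : K ≃+* K) (σ : GF dE6 K →* GF dE6 K)
    (h : SRs dE6 tE6 θ σ) : Subgroup.center (Esr dE6 σ) = ⊥ :=
  center_SR swap_E6 h (jhyp_E6 h)

end Pool.Agent.H86.UM
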