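import Pool.Agent.H86.UM.SR
import Pool.Agent.H75.UT.D8

/-!
# Project UM, module A2: a torus element in the case of one adjacent orbit (type `A_2`, `SU_3`)

Here `n = 2`, `C` is of type `A_2`, `ρ` exchanges the two simple roots `α = α_i`, `β = α_(ρ i)`, `m = 2`;
`γ = α + β`, the roots are `±α, ±β, ±γ`. Wanted: `h ∈ S.T ⊓ Eg S s` whose character `χ` at `α` is not fixed by `θ`.

Work first in the adjoint group `G = Gad k` with `A = C.adS k`, `σ = D.sgl θ` (`isSig_adS`). Choose `t = 1` and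
`v ∈ k` with `v + θ v` equal to the value needed for `y = x_(-α)(1) σ(x_(-α)(1)) x_(-γ)(v)` to be fixed by `σ`
(see the header of UT/D3.lean; `hB`), `v + θ v ≠ 0`, `v ≠ 0`. All `v + z`, `θ z = -z`, are possible too;
there are infinitely many (`k` is infinite, `t ↦ t - θ t` has kernel the fixed field, or: if `θ e = -e`,
`e ≠ 0`, all `λ e`, `λ ∈ fixF θ`).
Bruhat for `y`: `y = u₁ ν₁ v₁` (`bruhat`, `gen_adS`), `ν₁` acts by `w`. Coefficients (columns of the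
matrices, with `E_(-γ)` etc. from Defs): the coefficient of `e_(-γ)` in `y e_γ` is `± v θ(v) ≠ 0` (up to sign
`v^2 ± v t θ t`), and `y e_γ = u₁ ν₁ e_γ` is a multiple of `u₁ e_(wγ)`, so `w γ = -γ`, hence `w α = -β`,
`w β = -α` (a permutation of the roots compatible with addition, `W_add`; `w α + w β = -γ`; `w ≠ 1`). So
`w = w_J`, `U ∩ ν₁ B ν₁⁻¹ = 1`, and comparing `y = σ(y)`: `u₁, ν₁, v₁` are fixed by `σ` up to `T`; choose
`u₁, v₁ ∈ fixU`, `ν₁ ∈ N` fixed by `σ` (`N_acts`, `U_inf_Um`). So `u₁, v₁ ∈ Eg`, and `ν₁ = u₁⁻¹ y v₁⁻¹ ∈ Eg`.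
`κ`: `ν₁ e_α = κ e_(-β)`, `ν₁ e_γ = κ' e_(-γ)`. Write `u₁ = x_α(a) x_β(θ a) x_γ(c)`,
`v₁ = x_α(a') x_β(θ a') x_γ(c')` (signs `1` on simple roots), `t = 1`:
`y e_γ = u₁ (κ' e_(-γ))`: coefficient of `e_(-γ)`: `κ' = ± v θ v`; of `e_(-β)`: `± a κ' = ± v`.
`y e_α = u₁ ν₁ (e_α ± θ(a') e_γ) = u₁ (κ e_(-β) ± θ(a') κ' e_(-γ))`: coefficient of `e_(-γ)`:
`± θ(a') κ' = ± v`; of `e_(-β)`: `κ ± a θ(a') κ' = ± v`. So `κ = ± v ± v / θ(v) * (sign)`; more precisely the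
signs work out to `κ = ± v (θ(v) ± t θ t) / θ(v) = ± v^2 / θ(v)` (since `θ v ± t θ t = -v` with the sign of the
condition on `v`; the calculation in `SL_3` is: `X = [[1,t,w],[0,1,θt],[0,0,1]]`, `w + θ w = t θ t`,
`X Y X' = antidiag(w, -θ(w)/w, 1/θ(w))`).
With `n₀ = nn x_γ e` (`e ≠ 0`, `θ e = -e`, fixed by `σ`, in `Eg`), which maps `e_α` to `± e⁻¹ e_(-β)`, the element
`h₁ = n₀⁻¹ ν₁` is in `T ∩ Eg` and acts on `x_α` by `χ = ± e v^2 / θ(v)` (or its inverse or `θ`-image; what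
matters: `θ χ = χ` only if `v^3 = - θ(v)^3` up to sign, i.e. `(v / θ v)^3 = ± 1`).
`v / θ v = ζ` and `v + θ v = τ ≠ 0` determine `v`, so at most six `v` are excluded; choose another one.
Finally lift to `H`: `h₁ = u₁⁻¹ ..` is a product of elements of `fixU`, `fixUm` of the adjoint group, which are
images of elements of `fixX D S s (± simple i)` under `p` (`fixX_form`, `fixX_exists` or the explicit
elements), so `h₁ = p h` with `h ∈ Eg S s`; `h ∈ S.gen`, Bruhat in `H`: `h = u ν v`, `p ν` acts by `1` by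
`bruhat_unique`, so `ν ∈ S.T` (`N_acts`), and `h = (u (ν v ν⁻¹)) ν` with `p (u (ν v ν⁻¹)) ∈ T ∩ U = 1`
(`S9_T_one`), so `u (ν v ν⁻¹) = 1` by injectivity of `p` on `S.U 1` (`exists_lp`, `lp_unique`), `h = ν ∈ S.T`.
(One may also work in `H` throughout: `y ∈ H`, `S.bruhat`.)
-/

set_option autoImplicit false
open Matrix

namespace Pool.Agent.H86.UM

open Pool.Agent.H75.UL

section ident
variable {n : ℕ} {C : SLC n} {K : Type*} [Field K] {H : Type*} [Group H]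

/-- The root data of type `A_2`. -/
private structure A2D (C : SLC n) (α β γ : C.Root) (ε : ℤ) : Prop where
  hγ : γ.1 = α.1 + β.1
  ab : C.ip α.1 β.1 = -1
  hε : C.eps α.1 β.1 = ε

private theorem A2D.ba {α β γ : C.Root} {ε : ℤ} (d : A2D C α β γ ε) : C.ip β.1 α.1 = -1 := by
  rw [C.ip_comm, d.ab]

private theorem A2D.ag {α β γ : C.Root} {ε : ℤ} (d : A2D C α β γ ε) : C.ip α.1 γ.1 = 1 := by
  rw [d.hγ, C.ip_add_right, α.2, d.ab]; norm_num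

private theorem A2D.bg {α β γ : C.Root} {ε : ℤ} (d : A2D C α β γ ε) : C.ip β.1 γ.1 = 1 := by
  rw [d.hγ, C.ip_add_right, β.2, d.ba]; norm_num

private theorem A2D.ga {α β γ : C.Root} {ε : ℤ} (d : A2D C α β γ ε) : C.ip γ.1 α.1 = 1 := by
  rw [C.ip_comm, d.ag]

private theorem A2D.gb {α β γ : C.Root} {ε : ℤ} (d : A2D C α β γ ε) : C.ip γ.1 β.1 = 1 := by
  rw [C.ip_comm, d.bg]

private theorem A2D.eba {α β γ : C.Root} {ε : ℤ} (d : A2D C α β γ ε) : C.eps β.1 α.1 = -ε := by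
  rw [C.eps_swap_of_odd α.1 β.1 (Or.inr d.ab), d.hε]

private theorem A2D.eag {α β γ : C.Root} {ε : ℤ} (d : A2D C α β γ ε) : C.eps α.1 γ.1 = -ε := by
  rw [d.hγ, C.eps_add_right, C.eps_self, d.hε]; ring

private theorem A2D.ega {α β γ : C.Root} {ε : ℤ} (d : A2D C α β γ ε) : C.eps γ.1 α.1 = ε := by
  rw [d.hγ, C.eps_add_left, C.eps_self, d.eba]; ring

private theorem A2D.ebg {α β γ : C.Root} {ε : ℤ} (d : A2D C α β γ ε) : C.eps β.1 γ.1 = ε := by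
  rw [d.hγ, C.eps_add_right, C.eps_self, d.eba]; ring

private theorem A2D.egb {α β γ : C.Root} {ε : ℤ} (d : A2D C α β γ ε) : C.eps γ.1 β.1 = -ε := by
  rw [d.hγ, C.eps_add_left, C.eps_self, d.hε]; ring

private theorem A2D.sq {α β γ : C.Root} {ε : ℤ} (d : A2D C α β γ ε) : (ε : K) * ε = 1 := by
  have h := C.eps_sq α.1 β.1
  rw [d.hε] at h
  exact_mod_cast congrArg (Int.cast : ℤ → K) h

/-- Conjugation by `nn` with all data given. -/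
private theorem A2_conj (S : StSys C K H) (α β δ : C.Root) (e m : ℤ) (t u : K) (ht : t ≠ 0)
    (h1 : C.ip α.1 β.1 = m) (hm : m = 1 ∨ m = -1) (hδ : δ.1 = β.1 - m • α.1)
    (he : C.eps α.1 β.1 = e) :
    nn S.x α t * S.x β u * (nn S.x α t)⁻¹ = S.x δ ((e : K) * t ^ (-m) * u) := by
  have h := S.n_conj_all α β t u ht
  have h2 : C.refl α β = δ := by
    apply SLC.Root.ext
    rw [C.refl_val, h1, hδ]
  have h3 : C.cs α β = e := by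
    unfold SLC.cs
    rw [if_pos (by rw [h1]; exact hm), he]
  rw [h2, h3, h1] at h
  exact h

/-- The same, moved through. -/
private theorem A2_mv (S : StSys C K H) (α β δ : C.Root) (e m : ℤ) (t u z : K) (ht : t ≠ 0)
    (h1 : C.ip α.1 β.1 = m) (hm : m = 1 ∨ m = -1) (hδ : δ.1 = β.1 - m • α.1)
    (he : C.eps α.1 β.1 = e) (hz : (e : K) * t ^ (-m) * u = z) :
    nn S.x α t * S.x β u = S.x δ z * nn S.x α t := by
  rw [← hz, ← A2_conj S α β δ e m t u ht h1 hm hδ he]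
  group

private theorem A2_mv' (S : StSys C K H) (α β δ : C.Root) (e m : ℤ) (t u z : K) (ht : t ≠ 0)
    (h1 : C.ip α.1 β.1 = m) (hm : m = 1 ∨ m = -1) (hδ : δ.1 = β.1 - m • α.1)
    (he : C.eps α.1 β.1 = e) (hz : (e : K) * (-t) ^ (-m) * u = z) :
    S.x β u * nn S.x α t = nn S.x α t * S.x δ z := by
  have h := A2_conj S α β δ e m (-t) u (neg_ne_zero.mpr ht) h1 hm hδ he
  rw [← S.nn_inv, inv_inv, hz] at h
  rw [← h]
  group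

/-- Commutation of two root elements whose sum is a root. -/
private theorem A2_cm (S : StSys C K H) (α β γ : C.Root) (e : ℤ) (t u z : K)
    (hγ : γ.1 = α.1 + β.1) (he : C.eps α.1 β.1 = e) (hz : (e : K) * t * u = z) :
    S.x α t * S.x β u = S.x γ z * (S.x β u * S.x α t) := by
  have h := S.comm_add α β γ t u hγ
  rw [he, hz] at h
  rw [← h]
  group


private theorem A2_single (S : StSys C K H) (α : C.Root) (t z : K) (hz : t⁻¹ = z) :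
    S.x (-α) t = S.x α (-z) * nn S.x α z * S.x α (-z) := by
  unfold nn
  rw [← hz, inv_inv, S.x_neg]
  group

private theorem A2_one (S : StSys C K H) (α : C.Root) (u : K) :
    nn S.x α 1 * S.x (-α) u = S.x α u * nn S.x α 1 := by
  have h := S.n_conj α (-1) u (by simp)
  rw [← S.nn_inv] at h
  have h2 : ((-1 : K)⁻¹) ^ 2 * u = u := by rw [inv_pow]; simp
  rw [h2] at h
  rw [← h]
  group

/-- The Bruhat decomposition of `x_(-α)(1) x_(-β)(1) x_(-γ)(v)`. -/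
private theorem A2_ident (S : StSys C K H) {α β γ : C.Root} {ε : ℤ} (d : A2D C α β γ ε) (v v' : K)
    (hv : v ≠ 0) (hv' : v' ≠ 0) (h : v + v' = -(ε : K)) :
    S.x (-α) 1 * S.x (-β) 1 * S.x (-γ) v =
      S.x β (ε * v⁻¹) * S.x γ (-v⁻¹) * S.x α (ε * v'⁻¹) *
      (nn S.x α 1 * nn S.x γ v⁻¹ * nn S.x β (-(ε * v'⁻¹))) *
      (S.x γ v'⁻¹ * S.x α (ε * v⁻¹) * S.x β (ε * v'⁻¹)) := by
  have hε : (ε : K) * ε = 1 := d.sq
  have hε0 : (ε : K) ≠ 0 := fun h0 => by rw [h0, mul_zero] at hε; exact zero_ne_one hε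
  have hc : v⁻¹ ≠ 0 := inv_ne_zero hv
  have hq : (-(ε * v') : K) ≠ 0 := neg_ne_zero.mpr (mul_ne_zero hε0 hv')
  have hεi : (ε : K)⁻¹ = ε := inv_eq_of_mul_eq_one_left hε
  have hr : (-(ε * v') : K)⁻¹ = -(ε * v'⁻¹) := by
    rw [inv_neg, mul_inv, hεi]
  have hr0 : (-(ε * v'⁻¹) : K) ≠ 0 := by rw [← hr]; exact inv_ne_zero hq
  have hv2 : v' = -(ε : K) - v := by rw [← h]; ring
  -- step 1
  have s1 : S.x (-γ) v = S.x γ (-v⁻¹) * nn S.x γ v⁻¹ * S.x γ (-v⁻¹) := A2_single S γ v _ rfl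
  -- step 2
  have s2 : S.x (-β) 1 * S.x γ (-v⁻¹) = S.x α (-(ε * v⁻¹)) * (S.x γ (-v⁻¹) * S.x (-β) 1) :=
    A2_cm S (-β) γ α ε 1 (-v⁻¹) _ (by rw [SLC.Root.neg_val, d.hγ]; abel)
      (by rw [SLC.Root.neg_val, C.eps_neg_left, d.ebg]) (by ring)
  -- step 3
  have s3 : S.x (-α) 1 * S.x γ (-v⁻¹) = S.x β (ε * v⁻¹) * (S.x γ (-v⁻¹) * S.x (-α) 1) :=
    A2_cm S (-α) γ β (-ε) 1 (-v⁻¹) _ (by rw [SLC.Root.neg_val, d.hγ]; abel)
      (by rw [SLC.Root.neg_val, C.eps_neg_left, d.eag]) (by push_cast; ring)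
  have s3' : S.x α (-(ε * v⁻¹)) * S.x γ (-v⁻¹) = S.x γ (-v⁻¹) * S.x α (-(ε * v⁻¹)) :=
    S.comm α γ _ _ (by rw [d.ag]; norm_num)
  -- step 4
  have s4 : S.x (-α) 1 = S.x α (-1) * nn S.x α 1 * S.x α (-1) :=
    A2_single S α 1 _ (by simp)
  have s4' : S.x α (-1) * S.x α (-(ε * v⁻¹)) = S.x α (-1 - ε * v⁻¹) := by
    rw [← S.map_add]; congr 1; ring
  -- step 5
  have s5 : S.x α (-1 - ε * v⁻¹) * S.x (-β) 1 = S.x (-β) 1 * S.x α (-1 - ε * v⁻¹) :=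
    S.comm α (-β) _ _ (by rw [SLC.Root.neg_val, C.ip_neg_right, d.ab]; norm_num)
  -- step 6
  have s6 : S.x α (-1 - ε * v⁻¹) * nn S.x γ v⁻¹ = nn S.x γ v⁻¹ * S.x (-β) (-(ε * v')) :=
    A2_mv' S γ α (-β) ε 1 v⁻¹ _ _ hc d.ga (Or.inl rfl)
      (by rw [SLC.Root.neg_val, d.hγ, one_smul]; abel) d.ega (by
        rw [hv2, _root_.zpow_neg, zpow_one, inv_neg, inv_inv]
        have e1 : v⁻¹ * v = 1 := inv_mul_cancel₀ hv
        linear_combination (ε : K) * (ε : K) * e1)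
  -- step 7
  have s7 : S.x (-β) 1 * nn S.x γ v⁻¹ = nn S.x γ v⁻¹ * S.x α (ε * v⁻¹) :=
    A2_mv' S γ (-β) α (-ε) (-1) v⁻¹ _ _ hc
      (by rw [SLC.Root.neg_val, C.ip_neg_right, d.gb]) (Or.inr rfl)
      (by rw [SLC.Root.neg_val, d.hγ, neg_smul, one_smul]; abel)
      (by rw [SLC.Root.neg_val, C.eps_neg_right, d.egb]) (by
        rw [neg_neg, zpow_one]; push_cast; ring)
  -- step 8
  have s8 : S.x (-β) (-(ε * v')) * S.x γ (-v⁻¹) =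
      S.x α (v' * v⁻¹) * (S.x γ (-v⁻¹) * S.x (-β) (-(ε * v'))) :=
    A2_cm S (-β) γ α ε _ (-v⁻¹) _ (by rw [SLC.Root.neg_val, d.hγ]; abel)
      (by rw [SLC.Root.neg_val, C.eps_neg_left, d.ebg]) (by linear_combination (v' * v⁻¹) * hε)
  have s8' : S.x α (ε * v⁻¹) * S.x α (v' * v⁻¹) = S.x α (-1) := by
    rw [← S.map_add]
    congr 1
    have e1 : v⁻¹ * v = 1 := inv_mul_cancel₀ hv
    rw [hv2]
    linear_combination -e1
  -- step 9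
  have s9 : S.x (-β) (-(ε * v')) =
      S.x β (ε * v'⁻¹) * nn S.x β (-(ε * v'⁻¹)) * S.x β (ε * v'⁻¹) := by
    have := A2_single S β (-(ε * v')) _ hr
    rwa [neg_neg] at this
  -- step 10
  have s10 : S.x γ (-v⁻¹) * S.x β (ε * v'⁻¹) = S.x β (ε * v'⁻¹) * S.x γ (-v⁻¹) :=
    S.comm γ β _ _ (by rw [d.gb]; norm_num)
  have s10a : S.x α (-1) * S.x β (ε * v'⁻¹) =
      S.x γ (-v'⁻¹) * (S.x β (ε * v'⁻¹) * S.x α (-1)) :=
    A2_cm S α β γ ε _ _ _ d.hγ d.hε (by linear_combination (-v'⁻¹) * hε)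
  have s10b : S.x γ (-v'⁻¹) * S.x β (ε * v'⁻¹) = S.x β (ε * v'⁻¹) * S.x γ (-v'⁻¹) :=
    S.comm γ β _ _ (by rw [d.gb]; norm_num)
  have s10c : S.x γ (-v'⁻¹) * S.x α (-1) = S.x α (-1) * S.x γ (-v'⁻¹) :=
    S.comm γ α _ _ (by rw [d.ga]; norm_num)
  have s10d : S.x γ (-v'⁻¹) * S.x γ (-v⁻¹) = S.x γ (-v'⁻¹ - v⁻¹) := by
    rw [← S.map_add]; congr 1; ring
  -- step 11
  have s11 : nn S.x γ v⁻¹ * S.x β (ε * v'⁻¹) = S.x (-α) (-(v * v'⁻¹)) * nn S.x γ v⁻¹ :=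
    A2_mv S γ β (-α) (-ε) 1 v⁻¹ _ _ hc d.gb (Or.inl rfl)
      (by rw [SLC.Root.neg_val, d.hγ, one_smul]; abel) d.egb (by
        rw [_root_.zpow_neg, zpow_one, inv_inv]
        push_cast
        linear_combination (-(v * v'⁻¹)) * hε)
  have s12 := A2_one S α (-(v * v'⁻¹))
  have s12' : S.x α (-1) * S.x α (-(v * v'⁻¹)) = S.x α (ε * v'⁻¹) := by
    rw [← S.map_add]
    congr 1
    have e1 : v' * v'⁻¹ = 1 := mul_inv_cancel₀ hv'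
    linear_combination e1 - v'⁻¹ * h
  -- step 13
  have s13 : S.x α (-1) * nn S.x β (-(ε * v'⁻¹)) = nn S.x β (-(ε * v'⁻¹)) * S.x γ v'⁻¹ :=
    A2_mv' S β α γ (-ε) (-1) _ _ _ hr0 d.ba (Or.inr rfl)
      (by rw [d.hγ, neg_smul, one_smul]; abel) d.eba (by
        rw [neg_neg, neg_neg, zpow_one]
        push_cast
        linear_combination v'⁻¹ * hε)
  have s14 : S.x γ (-v'⁻¹ - v⁻¹) * nn S.x β (-(ε * v'⁻¹)) =
      nn S.x β (-(ε * v'⁻¹)) * S.x α (ε * v⁻¹) :=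
    A2_mv' S β γ α ε 1 _ _ _ hr0 d.bg (Or.inl rfl)
      (by rw [d.hγ, one_smul]; abel) d.ebg (by
        rw [neg_neg, _root_.zpow_neg, zpow_one, mul_inv, hεi, inv_inv]
        have e1 : v' * v'⁻¹ = 1 := mul_inv_cancel₀ hv'
        have e2 : v * v⁻¹ = 1 := mul_inv_cancel₀ hv
        linear_combination (-v' * v'⁻¹ - v' * v⁻¹) * hε - e1 - v⁻¹ * h + e2)
  -- assembly
  calc S.x (-α) 1 * S.x (-β) 1 * S.x (-γ) v
      = S.x (-α) 1 * S.x (-β) 1 * (S.x γ (-v⁻¹) * nn S.x γ v⁻¹ * S.x γ (-v⁻¹)) := by rw [s1]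
    _ = S.x (-α) 1 * (S.x (-β) 1 * S.x γ (-v⁻¹)) * nn S.x γ v⁻¹ * S.x γ (-v⁻¹) := by group
    _ = S.x (-α) 1 * (S.x α (-(ε * v⁻¹)) * (S.x γ (-v⁻¹) * S.x (-β) 1)) * nn S.x γ v⁻¹ *
          S.x γ (-v⁻¹) := by rw [s2]
    _ = S.x (-α) 1 * (S.x α (-(ε * v⁻¹)) * S.x γ (-v⁻¹)) * (S.x (-β) 1 * nn S.x γ v⁻¹ *
          S.x γ (-v⁻¹)) := by group
    _ = S.x (-α) 1 * (S.x γ (-v⁻¹) * S.x α (-(ε * v⁻¹))) * (S.x (-β) 1 * nn S.x γ v⁻¹ *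
          S.x γ (-v⁻¹)) := by rw [s3']
    _ = (S.x (-α) 1 * S.x γ (-v⁻¹)) * (S.x α (-(ε * v⁻¹)) * (S.x (-β) 1 * nn S.x γ v⁻¹ *
          S.x γ (-v⁻¹))) := by group
    _ = (S.x β (ε * v⁻¹) * (S.x γ (-v⁻¹) * S.x (-α) 1)) * (S.x α (-(ε * v⁻¹)) *
          (S.x (-β) 1 * nn S.x γ v⁻¹ * S.x γ (-v⁻¹))) := by rw [s3]
    _ = (S.x β (ε * v⁻¹) * (S.x γ (-v⁻¹) * (S.x α (-1) * nn S.x α 1 * S.x α (-1)))) *
          (S.x α (-(ε * v⁻¹)) * (S.x (-β) 1 * nn S.x γ v⁻¹ * S.x γ (-v⁻¹))) := by rw [← s4]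
    _ = (S.x β (ε * v⁻¹) * S.x γ (-v⁻¹) * S.x α (-1) * nn S.x α 1) *
          (S.x α (-1) * S.x α (-(ε * v⁻¹))) * (S.x (-β) 1 * nn S.x γ v⁻¹ * S.x γ (-v⁻¹)) := by
        group
    _ = (S.x β (ε * v⁻¹) * S.x γ (-v⁻¹) * S.x α (-1) * nn S.x α 1) *
          (S.x α (-1 - ε * v⁻¹) * S.x (-β) 1) * (nn S.x γ v⁻¹ * S.x γ (-v⁻¹)) := by
        rw [s4']; group
    _ = (S.x β (ε * v⁻¹) * S.x γ (-v⁻¹) * S.x α (-1) * nn S.x α 1) * S.x (-β) 1 *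
          (S.x α (-1 - ε * v⁻¹) * nn S.x γ v⁻¹) * S.x γ (-v⁻¹) := by
        rw [s5]; group
    _ = (S.x β (ε * v⁻¹) * S.x γ (-v⁻¹) * S.x α (-1) * nn S.x α 1) *
          (S.x (-β) 1 * nn S.x γ v⁻¹) * (S.x (-β) (-(ε * v')) * S.x γ (-v⁻¹)) := by
        rw [s6]; group
    _ = (S.x β (ε * v⁻¹) * S.x γ (-v⁻¹) * S.x α (-1) * nn S.x α 1) *
          (nn S.x γ v⁻¹ * S.x α (ε * v⁻¹)) * (S.x α (v' * v⁻¹) *
            (S.x γ (-v⁻¹) * S.x (-β) (-(ε * v')))) := by rw [s7, s8]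
    _ = (S.x β (ε * v⁻¹) * S.x γ (-v⁻¹) * S.x α (-1) * nn S.x α 1 * nn S.x γ v⁻¹) *
          (S.x α (ε * v⁻¹) * S.x α (v' * v⁻¹)) * (S.x γ (-v⁻¹) * S.x (-β) (-(ε * v'))) := by
        group
    _ = (S.x β (ε * v⁻¹) * S.x γ (-v⁻¹) * S.x α (-1) * nn S.x α 1 * nn S.x γ v⁻¹) *
          S.x α (-1) * (S.x γ (-v⁻¹) * (S.x β (ε * v'⁻¹) * nn S.x β (-(ε * v'⁻¹)) *
            S.x β (ε * v'⁻¹))) := by rw [s8', s9]
    _ = (S.x β (ε * v⁻¹) * S.x γ (-v⁻¹) * S.x α (-1) * nn S.x α 1 * nn S.x γ v⁻¹) *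
          S.x α (-1) * (S.x γ (-v⁻¹) * S.x β (ε * v'⁻¹)) * (nn S.x β (-(ε * v'⁻¹)) *
            S.x β (ε * v'⁻¹)) := by group
    _ = (S.x β (ε * v⁻¹) * S.x γ (-v⁻¹) * S.x α (-1) * nn S.x α 1 * nn S.x γ v⁻¹) *
          (S.x α (-1) * S.x β (ε * v'⁻¹)) * (S.x γ (-v⁻¹) * (nn S.x β (-(ε * v'⁻¹)) *
            S.x β (ε * v'⁻¹))) := by rw [s10]; group
    _ = (S.x β (ε * v⁻¹) * S.x γ (-v⁻¹) * S.x α (-1) * nn S.x α 1 * nn S.x γ v⁻¹) *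
          (S.x γ (-v'⁻¹) * S.x β (ε * v'⁻¹)) * (S.x α (-1) * (S.x γ (-v⁻¹) *
            (nn S.x β (-(ε * v'⁻¹)) * S.x β (ε * v'⁻¹)))) := by rw [s10a]; group
    _ = (S.x β (ε * v⁻¹) * S.x γ (-v⁻¹) * S.x α (-1) * nn S.x α 1 * nn S.x γ v⁻¹) *
          S.x β (ε * v'⁻¹) * (S.x γ (-v'⁻¹) * S.x α (-1)) * (S.x γ (-v⁻¹) *
            (nn S.x β (-(ε * v'⁻¹)) * S.x β (ε * v'⁻¹))) := by rw [s10b]; group
    _ = (S.x β (ε * v⁻¹) * S.x γ (-v⁻¹) * S.x α (-1) * nn S.x α 1 * nn S.x γ v⁻¹) *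
          S.x β (ε * v'⁻¹) * S.x α (-1) * (S.x γ (-v'⁻¹) * S.x γ (-v⁻¹)) *
            (nn S.x β (-(ε * v'⁻¹)) * S.x β (ε * v'⁻¹)) := by rw [s10c]; group
    _ = (S.x β (ε * v⁻¹) * S.x γ (-v⁻¹) * S.x α (-1) * nn S.x α 1 * nn S.x γ v⁻¹) *
          S.x β (ε * v'⁻¹) * S.x α (-1) * (S.x γ (-v'⁻¹ - v⁻¹) *
            nn S.x β (-(ε * v'⁻¹))) * S.x β (ε * v'⁻¹) := by rw [s10d]; group
    _ = (S.x β (ε * v⁻¹) * S.x γ (-v⁻¹) * S.x α (-1) * nn S.x α 1 * nn S.x γ v⁻¹) *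
          S.x β (ε * v'⁻¹) * (S.x α (-1) * nn S.x β (-(ε * v'⁻¹))) * (S.x α (ε * v⁻¹) *
            S.x β (ε * v'⁻¹)) := by rw [s14]; group
    _ = (S.x β (ε * v⁻¹) * S.x γ (-v⁻¹) * S.x α (-1) * nn S.x α 1) * (nn S.x γ v⁻¹ *
          S.x β (ε * v'⁻¹)) * (nn S.x β (-(ε * v'⁻¹)) * (S.x γ v'⁻¹ * S.x α (ε * v⁻¹) *
            S.x β (ε * v'⁻¹))) := by rw [s13]; group
    _ = (S.x β (ε * v⁻¹) * S.x γ (-v⁻¹) * S.x α (-1)) * (nn S.x α 1 *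
          S.x (-α) (-(v * v'⁻¹))) * (nn S.x γ v⁻¹ * nn S.x β (-(ε * v'⁻¹)) *
            (S.x γ v'⁻¹ * S.x α (ε * v⁻¹) * S.x β (ε * v'⁻¹))) := by rw [s11]; group
    _ = (S.x β (ε * v⁻¹) * S.x γ (-v⁻¹)) * (S.x α (-1) * S.x α (-(v * v'⁻¹))) *
          (nn S.x α 1 * nn S.x γ v⁻¹ * nn S.x β (-(ε * v'⁻¹)) *
            (S.x γ v'⁻¹ * S.x α (ε * v⁻¹) * S.x β (ε * v'⁻¹))) := by rw [s12]; group
    _ = _ := by rw [s12']; group

private theorem A2_abi {ε v v' : K} (hv : v ≠ 0) (hv' : v' ≠ 0) (h : v + v' = -ε) :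
    ε * v⁻¹ * v'⁻¹ + v'⁻¹ = -v⁻¹ := by
  have e1 : v' * v'⁻¹ = 1 := mul_inv_cancel₀ hv'
  have e2 : v * v⁻¹ = 1 := mul_inv_cancel₀ hv
  linear_combination v⁻¹ * v'⁻¹ * h - v'⁻¹ * e2 - v⁻¹ * e1

private theorem A2_u1 (S : StSys C K H) {α β γ : C.Root} {ε : ℤ} (d : A2D C α β γ ε) (v v' : K)
    (hv : v ≠ 0) (hv' : v' ≠ 0) (h : v + v' = -(ε : K)) :
    S.x α (ε * v'⁻¹) * S.x γ v'⁻¹ * S.x β (ε * v⁻¹) =
      S.x β (ε * v⁻¹) * S.x γ (-v⁻¹) * S.x α (ε * v'⁻¹) := by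
  have hε : (ε : K) * ε = 1 := d.sq
  have s1 : S.x γ v'⁻¹ * S.x β (ε * v⁻¹) = S.x β (ε * v⁻¹) * S.x γ v'⁻¹ :=
    S.comm γ β _ _ (by rw [d.gb]; norm_num)
  have s2 : S.x α (ε * v'⁻¹) * S.x β (ε * v⁻¹) =
      S.x γ (ε * v⁻¹ * v'⁻¹) * (S.x β (ε * v⁻¹) * S.x α (ε * v'⁻¹)) :=
    A2_cm S α β γ ε _ _ _ d.hγ d.hε (by linear_combination (ε * v⁻¹ * v'⁻¹) * hε)
  have s3 : S.x γ (ε * v⁻¹ * v'⁻¹) * S.x β (ε * v⁻¹) =
      S.x β (ε * v⁻¹) * S.x γ (ε * v⁻¹ * v'⁻¹) := S.comm γ β _ _ (by rw [d.gb]; norm_num)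
  have s4 : S.x α (ε * v'⁻¹) * S.x γ v'⁻¹ = S.x γ v'⁻¹ * S.x α (ε * v'⁻¹) :=
    S.comm α γ _ _ (by rw [d.ag]; norm_num)
  have s5 : S.x γ (ε * v⁻¹ * v'⁻¹) * S.x γ v'⁻¹ = S.x γ (-v⁻¹) := by
    rw [← S.map_add, A2_abi hv hv' h]
  calc S.x α (ε * v'⁻¹) * S.x γ v'⁻¹ * S.x β (ε * v⁻¹)
      = S.x α (ε * v'⁻¹) * (S.x γ v'⁻¹ * S.x β (ε * v⁻¹)) := by group
    _ = (S.x α (ε * v'⁻¹) * S.x β (ε * v⁻¹)) * S.x γ v'⁻¹ := by rw [s1]; group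
    _ = (S.x γ (ε * v⁻¹ * v'⁻¹) * S.x β (ε * v⁻¹)) * (S.x α (ε * v'⁻¹) * S.x γ v'⁻¹) := by
        rw [s2]; group
    _ = S.x β (ε * v⁻¹) * (S.x γ (ε * v⁻¹ * v'⁻¹) * S.x γ v'⁻¹) * S.x α (ε * v'⁻¹) := by
        rw [s3, s4]; group
    _ = _ := by rw [s5]

private theorem A2_v1 (S : StSys C K H) {α β γ : C.Root} {ε : ℤ} (d : A2D C α β γ ε) (v v' : K)
    (hv : v ≠ 0) (hv' : v' ≠ 0) (h : v + v' = -(ε : K)) :
    S.x γ (-v⁻¹) * S.x β (ε * v'⁻¹) * S.x α (ε * v⁻¹) =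
      S.x γ v'⁻¹ * S.x α (ε * v⁻¹) * S.x β (ε * v'⁻¹) := by
  have hε : (ε : K) * ε = 1 := d.sq
  have s2 : S.x α (ε * v⁻¹) * S.x β (ε * v'⁻¹) =
      S.x γ (ε * v⁻¹ * v'⁻¹) * (S.x β (ε * v'⁻¹) * S.x α (ε * v⁻¹)) :=
    A2_cm S α β γ ε _ _ _ d.hγ d.hε (by linear_combination (ε * v⁻¹ * v'⁻¹) * hε)
  have s5 : S.x γ v'⁻¹ * S.x γ (ε * v⁻¹ * v'⁻¹) = S.x γ (-v⁻¹) := by
    rw [← S.map_add, ← A2_abi hv hv' h, add_comm]
  calc S.x γ (-v⁻¹) * S.x β (ε * v'⁻¹) * S.x α (ε * v⁻¹)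
      = S.x γ v'⁻¹ * (S.x γ (ε * v⁻¹ * v'⁻¹) * (S.x β (ε * v'⁻¹) * S.x α (ε * v⁻¹))) := by
        rw [← s5]; group
    _ = _ := by rw [← s2]; group

private theorem A2_y (S : StSys C K H) {α β γ : C.Root} {ε : ℤ} (d : A2D C α β γ ε) (v v' : K)
    (h : v + v' = -(ε : K)) :
    S.x (-β) 1 * S.x (-α) 1 * S.x (-γ) (-v') = S.x (-α) 1 * S.x (-β) 1 * S.x (-γ) v := by
  have s2 : S.x (-α) 1 * S.x (-β) 1 = S.x (-γ) (ε : K) * (S.x (-β) 1 * S.x (-α) 1) :=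
    A2_cm S (-α) (-β) (-γ) ε _ _ _ (by simp only [SLC.Root.neg_val]; rw [d.hγ]; abel)
      (by rw [SLC.Root.neg_val, SLC.Root.neg_val, C.eps_neg_left, C.eps_neg_right, d.hε])
      (by ring)
  have s3 : S.x (-γ) (ε : K) * S.x (-β) 1 = S.x (-β) 1 * S.x (-γ) (ε : K) :=
    S.comm (-γ) (-β) _ _ (by
      rw [SLC.Root.neg_val, SLC.Root.neg_val, C.ip_neg_neg, d.gb]; norm_num)
  have s4 : S.x (-γ) (ε : K) * S.x (-α) 1 = S.x (-α) 1 * S.x (-γ) (ε : K) :=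
    S.comm (-γ) (-α) _ _ (by
      rw [SLC.Root.neg_val, SLC.Root.neg_val, C.ip_neg_neg, d.ga]; norm_num)
  have s5 : S.x (-γ) (ε : K) * S.x (-γ) v = S.x (-γ) (-v') := by
    rw [← S.map_add]
    congr 1
    linear_combination h
  calc S.x (-β) 1 * S.x (-α) 1 * S.x (-γ) (-v')
      = S.x (-β) 1 * (S.x (-α) 1 * S.x (-γ) (ε : K)) * S.x (-γ) v := by rw [← s5]; group
    _ = (S.x (-β) 1 * S.x (-γ) (ε : K)) * (S.x (-α) 1 * S.x (-γ) v) := by rw [← s4]; group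
    _ = S.x (-γ) (ε : K) * (S.x (-β) 1 * S.x (-α) 1) * S.x (-γ) v := by rw [← s3]; group
    _ = _ := by rw [← s2]

/-- The action on `x_α`. -/
private theorem A2_act1 (S : StSys C K H) {α β γ : C.Root} {ε : ℤ} (d : A2D C α β γ ε)
    (v v' e u : K) (hv : v ≠ 0) (hv' : v' ≠ 0) (he : e ≠ 0) :
    ((nn S.x γ e)⁻¹ * (nn S.x α 1 * nn S.x γ v⁻¹ * nn S.x β (-(ε * v'⁻¹)))) * S.x α u *
      ((nn S.x γ e)⁻¹ * (nn S.x α 1 * nn S.x γ v⁻¹ * nn S.x β (-(ε * v'⁻¹))))⁻¹ =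
      S.x α (-(e * v ^ 2 * v'⁻¹) * u) := by
  have hε : (ε : K) * ε = 1 := d.sq
  have hε0 : (ε : K) ≠ 0 := fun h0 => by rw [h0, mul_zero] at hε; exact zero_ne_one hε
  have hr0 : (-(ε * v'⁻¹) : K) ≠ 0 := neg_ne_zero.mpr (mul_ne_zero hε0 (inv_ne_zero hv'))
  have s1 : nn S.x β (-(ε * v'⁻¹)) * S.x α u = S.x γ (v'⁻¹ * u) * nn S.x β (-(ε * v'⁻¹)) :=
    A2_mv S β α γ (-ε) (-1) _ _ _ hr0 d.ba (Or.inr rfl)
      (by rw [d.hγ, neg_smul, one_smul]; abel) d.eba (by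
        rw [neg_neg, zpow_one]
        push_cast
        linear_combination (v'⁻¹ * u) * hε)
  have s2 : nn S.x γ v⁻¹ * S.x γ (v'⁻¹ * u) = S.x (-γ) (v ^ 2 * (v'⁻¹ * u)) * nn S.x γ v⁻¹ := by
    have h := S.n_conj γ v⁻¹ (v'⁻¹ * u) (inv_ne_zero hv)
    rw [inv_inv] at h
    rw [← h]
    group
  have s3 : nn S.x α 1 * S.x (-γ) (v ^ 2 * (v'⁻¹ * u)) =
      S.x (-β) (-ε * (v ^ 2 * (v'⁻¹ * u))) * nn S.x α 1 :=
    A2_mv S α (-γ) (-β) (-ε) (-1) _ _ _ one_ne_zero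
      (by rw [SLC.Root.neg_val, C.ip_neg_right, d.ag]) (Or.inr rfl)
      (by simp only [SLC.Root.neg_val]; rw [d.hγ, neg_smul, one_smul]; abel)
      (by rw [SLC.Root.neg_val, C.eps_neg_right, d.eag]) (by
        rw [_root_.one_zpow]; push_cast; ring)
  have s4 : nn S.x γ (-e) * S.x (-β) (-ε * (v ^ 2 * (v'⁻¹ * u))) =
      S.x α (-(e * v ^ 2 * v'⁻¹) * u) * nn S.x γ (-e) :=
    A2_mv S γ (-β) α (-ε) (-1) _ _ _ (neg_ne_zero.mpr he)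
      (by rw [SLC.Root.neg_val, C.ip_neg_right, d.gb]) (Or.inr rfl)
      (by rw [SLC.Root.neg_val, d.hγ, neg_smul, one_smul]; abel)
      (by rw [SLC.Root.neg_val, C.eps_neg_right, d.egb]) (by
        rw [neg_neg, zpow_one]
        push_cast
        linear_combination (-(e * v ^ 2 * v'⁻¹ * u)) * hε)
  rw [S.nn_inv, mul_inv_eq_iff_eq_mul]
  calc nn S.x γ (-e) * (nn S.x α 1 * nn S.x γ v⁻¹ * nn S.x β (-(ε * v'⁻¹))) * S.x α u
      = nn S.x γ (-e) * nn S.x α 1 * nn S.x γ v⁻¹ * (nn S.x β (-(ε * v'⁻¹)) * S.x α u) := by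
        group
    _ = nn S.x γ (-e) * nn S.x α 1 * (nn S.x γ v⁻¹ * S.x γ (v'⁻¹ * u)) *
          nn S.x β (-(ε * v'⁻¹)) := by rw [s1]; group
    _ = nn S.x γ (-e) * (nn S.x α 1 * S.x (-γ) (v ^ 2 * (v'⁻¹ * u))) * (nn S.x γ v⁻¹ *
          nn S.x β (-(ε * v'⁻¹))) := by rw [s2]; group
    _ = (nn S.x γ (-e) * S.x (-β) (-ε * (v ^ 2 * (v'⁻¹ * u)))) * (nn S.x α 1 * nn S.x γ v⁻¹ *
          nn S.x β (-(ε * v'⁻¹))) := by rw [s3]; group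
    _ = _ := by rw [s4]; group

/-- The action on `x_β`. -/
private theorem A2_act2 (S : StSys C K H) {α β γ : C.Root} {ε : ℤ} (d : A2D C α β γ ε)
    (v v' e u : K) (hv : v ≠ 0) (hv' : v' ≠ 0) (he : e ≠ 0) :
    ((nn S.x γ e)⁻¹ * (nn S.x α 1 * nn S.x γ v⁻¹ * nn S.x β (-(ε * v'⁻¹)))) * S.x β u *
      ((nn S.x γ e)⁻¹ * (nn S.x α 1 * nn S.x γ v⁻¹ * nn S.x β (-(ε * v'⁻¹))))⁻¹ =
      S.x β (e * v⁻¹ * v' ^ 2 * u) := by
  have hε : (ε : K) * ε = 1 := d.sq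
  have hε0 : (ε : K) ≠ 0 := fun h0 => by rw [h0, mul_zero] at hε; exact zero_ne_one hε
  have hεi : (ε : K)⁻¹ = ε := inv_eq_of_mul_eq_one_left hε
  have hr0 : (-(ε * v'⁻¹) : K) ≠ 0 := neg_ne_zero.mpr (mul_ne_zero hε0 (inv_ne_zero hv'))
  have hr : (-(ε * v'⁻¹) : K)⁻¹ ^ 2 * u = v' ^ 2 * u := by
    rw [inv_neg, mul_inv, inv_inv, hεi]
    linear_combination (v' ^ 2 * u) * hε
  have s1 : nn S.x β (-(ε * v'⁻¹)) * S.x β u = S.x (-β) (v' ^ 2 * u) *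
      nn S.x β (-(ε * v'⁻¹)) := by
    have h := S.n_conj β (-(ε * v'⁻¹)) u hr0
    rw [hr] at h
    rw [← h]
    group
  have s2 : nn S.x γ v⁻¹ * S.x (-β) (v' ^ 2 * u) =
      S.x α (-ε * v⁻¹ * (v' ^ 2 * u)) * nn S.x γ v⁻¹ :=
    A2_mv S γ (-β) α (-ε) (-1) _ _ _ (inv_ne_zero hv)
      (by rw [SLC.Root.neg_val, C.ip_neg_right, d.gb]) (Or.inr rfl)
      (by rw [SLC.Root.neg_val, d.hγ, neg_smul, one_smul]; abel)
      (by rw [SLC.Root.neg_val, C.eps_neg_right, d.egb]) (by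
        rw [neg_neg, zpow_one]; push_cast; ring)
  have s3 : nn S.x α 1 * S.x α (-ε * v⁻¹ * (v' ^ 2 * u)) =
      S.x (-α) (-ε * v⁻¹ * (v' ^ 2 * u)) * nn S.x α 1 := by
    have h := S.n_conj α 1 (-ε * v⁻¹ * (v' ^ 2 * u)) one_ne_zero
    rw [inv_one, one_pow, one_mul] at h
    rw [← h]
    group
  have s4 : nn S.x γ (-e) * S.x (-α) (-ε * v⁻¹ * (v' ^ 2 * u)) =
      S.x β (e * v⁻¹ * v' ^ 2 * u) * nn S.x γ (-e) :=
    A2_mv S γ (-α) β ε (-1) _ _ _ (neg_ne_zero.mpr he)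
      (by rw [SLC.Root.neg_val, C.ip_neg_right, d.ga]) (Or.inr rfl)
      (by rw [SLC.Root.neg_val, d.hγ, neg_smul, one_smul]; abel)
      (by rw [SLC.Root.neg_val, C.eps_neg_right, d.ega]) (by
        rw [neg_neg, zpow_one]
        linear_combination (e * v⁻¹ * v' ^ 2 * u) * hε)
  rw [S.nn_inv, mul_inv_eq_iff_eq_mul]
  calc nn S.x γ (-e) * (nn S.x α 1 * nn S.x γ v⁻¹ * nn S.x β (-(ε * v'⁻¹))) * S.x β u
      = nn S.x γ (-e) * nn S.x α 1 * nn S.x γ v⁻¹ * (nn S.x β (-(ε * v'⁻¹)) * S.x β u) := by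
        group
    _ = nn S.x γ (-e) * nn S.x α 1 * (nn S.x γ v⁻¹ * S.x (-β) (v' ^ 2 * u)) *
          nn S.x β (-(ε * v'⁻¹)) := by rw [s1]; group
    _ = nn S.x γ (-e) * (nn S.x α 1 * S.x α (-ε * v⁻¹ * (v' ^ 2 * u))) * (nn S.x γ v⁻¹ *
          nn S.x β (-(ε * v'⁻¹))) := by rw [s2]; group
    _ = (nn S.x γ (-e) * S.x (-α) (-ε * v⁻¹ * (v' ^ 2 * u))) * (nn S.x α 1 * nn S.x γ v⁻¹ *
          nn S.x β (-(ε * v'⁻¹))) := by rw [s3]; group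
    _ = _ := by rw [s4]; group

end ident


variable {n : ℕ} {C : SLC n} {D : Dg C} {k : Type*} [Field k] {θ : k ≃+* k} {H : Type*} [Group H]
  {S : StSys C k H} {s : H →* H} {p : H →* GL C.Idx k}

private theorem A2_choose (he : Env D θ S s p) (e ε : k) (he0 : e ≠ 0) (hθe : θ e = -e)
    (hB : ∀ z, θ z = z → ∃ v, v + θ v = z) (hε : θ ε = ε) (hε0 : ε ≠ 0) :
    ∃ v, v + θ v = -ε ∧ 3 * (v * θ v) ≠ ε ^ 2 := by
  classical
  obtain ⟨v0, hv0⟩ := hB (-ε) (by rw [map_neg, hε])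
  by_cases h3 : 3 * (v0 * θ v0) = ε ^ 2
  · have h30 : (3 : k) ≠ 0 := by
      intro h
      rw [h, zero_mul] at h3
      exact pow_ne_zero 2 hε0 h3.symm
    have hinf := SR_k0_inf he
    obtain ⟨y, hy, hy2⟩ := (Set.infinite_range_of_injective
      (Subtype.val_injective (p := fun x => x ∈ fixF θ))).exists_notMem_finset
        ({0, (θ v0 - v0) * e⁻¹} : Finset k)
    obtain ⟨⟨l, hl⟩, rfl⟩ := hy
    simp only [Finset.mem_insert, Finset.mem_singleton, not_or] at hy2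
    obtain ⟨hl0, hl1⟩ := hy2
    have hl' : θ l = l := hl
    refine ⟨v0 + l * e, ?_, ?_⟩
    · rw [map_add, map_mul, hl', hθe]
      linear_combination hv0
    · rw [map_add, map_mul, hl', hθe]
      intro h
      have h1 : 3 * (l * e) * ((θ v0 - v0) - l * e) = 0 := by
        linear_combination h - h3
      rcases mul_eq_zero.mp h1 with h2 | h2
      · rcases mul_eq_zero.mp h2 with h4 | h4
        · exact h30 h4
        · rcases mul_eq_zero.mp h4 with h5 | h5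
          · exact hl0 h5
          · exact he0 h5
      · apply hl1
        rw [sub_eq_zero.mp h2, mul_assoc, mul_inv_cancel₀ he0, mul_one]
  · exact ⟨v0, hv0, h3⟩

theorem A2_tor (he : Env D θ S s p) (i : Fin n) (hi : C.A i (D.ρ i) = -1)
    (hc : ∀ j, D.ρ.SameCycle i j) :
    ∃ h ∈ S.T ⊓ Eg S s, θ (C.chi (p h : Matrix C.Idx C.Idx k) (C.simple i)) ≠
      C.chi (p h : Matrix C.Idx C.Idx k) (C.simple i) := by
  have hr : D.r (C.simple i) = C.simple (D.ρ i) := D.r_simple i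
  have hip : C.ip (C.simple i).1 (C.simple (D.ρ i)).1 = -1 := by
    rw [SLC.simple_val, SLC.simple_val, C.ip_single]
    exact hi
  have hne : D.r (C.simple i) ≠ C.simple i := by
    rw [hr]
    intro h
    rw [h, (C.simple i).2] at hip
    norm_num at hip
  have hm : D.m = 2 := by
    rcases D.ip_r (C.simple i) hne with h | h
    · rw [hr, hip] at h
      norm_num at h
    · exact h.1
  have hρ2 : D.ρ ^ 2 = 1 := by
    rw [← hm]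
    exact pow_orderOf_eq_one D.ρ
  have hρρ : D.ρ (D.ρ i) = i := by
    have h := congrArg (fun f : Equiv.Perm (Fin n) => f i) hρ2
    simpa [pow_succ] using h
  have hr2 : D.r (C.simple (D.ρ i)) = C.simple i := by rw [D.r_simple, hρρ]
  have hθ2 : ∀ t, θ (θ t) = t := by
    have h := he.hθ
    rw [hm] at h
    exact h
  obtain ⟨γ, hγ⟩ := C.exists_add _ _ hip
  obtain ⟨hγr, hγs⟩ := D.sg_adj (C.simple i) γ hne (by rw [hr]; exact hγ)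
  have hNA : ¬ D.NA := fun h => h i hi
  obtain ⟨e, he0, hθe⟩ := he.hA.resolve_left hNA
  have hB := he.hB.resolve_left hNA
  obtain ⟨ε, hε⟩ : ∃ ε, C.eps (C.simple i).1 (C.simple (D.ρ i)).1 = ε := ⟨_, rfl⟩
  have d : A2D C (C.simple i) (C.simple (D.ρ i)) γ ε := ⟨hγ, hip, hε⟩
  generalize hα : C.simple i = α at *
  generalize hβ : C.simple (D.ρ i) = β at *
  have hεε : (ε : k) * ε = 1 := d.sq
  have hε0 : (ε : k) ≠ 0 := fun h0 => by rw [h0, mul_zero] at hεε; exact zero_ne_one hεε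
  have hθε : θ (ε : k) = ε := map_intCast θ ε
  obtain ⟨v, hv, hv3⟩ := A2_choose he e (ε : k) he0 hθe hB hθε hε0
  have hv0 : v ≠ 0 := by
    rintro rfl
    rw [map_zero, add_zero] at hv
    exact hε0 (neg_eq_zero.mp hv.symm)
  have hv0' : θ v ≠ 0 := by
    intro h
    exact hv0 ((map_eq_zero θ).mp h)
  have hsα : ∀ t, s (S.x α t) = S.x β (θ t) := fun t => by
    rw [he.sig, hr, ← hα, D.sg_simple, Int.cast_one, one_mul]
  have hsβ : ∀ t, s (S.x β t) = S.x α (θ t) := fun t => by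
    rw [he.sig, hr2, ← hβ, D.sg_simple, Int.cast_one, one_mul]
  have hsγ : ∀ t, s (S.x γ t) = S.x γ (-θ t) := fun t => by
    rw [he.sig, hγr, hγs, Int.cast_neg, Int.cast_one, neg_one_mul]
  have hsα' : ∀ t, s (S.x (-α) t) = S.x (-β) (θ t) := fun t => by
    rw [he.sig, D.r_neg, D.sg_neg, hr, ← hα, D.sg_simple, Int.cast_one, one_mul]
  have hsβ' : ∀ t, s (S.x (-β) t) = S.x (-α) (θ t) := fun t => by
    rw [he.sig, D.r_neg, D.sg_neg, hr2, ← hβ, D.sg_simple, Int.cast_one, one_mul]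
  have hsγ' : ∀ t, s (S.x (-γ) t) = S.x (-γ) (-θ t) := fun t => by
    rw [he.sig, D.r_neg, D.sg_neg, hγr, hγs, Int.cast_neg, Int.cast_one, neg_one_mul]
  have hhα : ht α.1 = 1 := by rw [← hα]; exact C.ht_simple i
  have hhβ : ht β.1 = 1 := by rw [← hβ]; exact C.ht_simple _
  have hhγ : ht γ.1 = 2 := by rw [hγ, ht_add, hhα, hhβ]; norm_num
  have mU : ∀ (δ : C.Root) (t : k), 1 ≤ ht δ.1 → S.x δ t ∈ S.U 1 := fun δ t h =>
    Subgroup.subset_closure ⟨δ, t, h, rfl⟩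
  have mUm : ∀ (δ : C.Root) (t : k), 1 ≤ ht δ.1 → S.x (-δ) t ∈ S.Um := fun δ t h =>
    Subgroup.subset_closure ⟨-δ, t, by rw [SLC.Root.neg_val, ht_neg]; omega, rfl⟩
  have eU : ∀ g, g ∈ S.U 1 → s g = g → g ∈ Eg S s := fun g h1 h2 =>
    (le_sup_left : fixU S s ≤ Eg S s) ⟨h1, h2⟩
  have eUm : ∀ g, g ∈ S.Um → s g = g → g ∈ Eg S s := fun g h1 h2 =>
    (le_sup_right : fixUm S s ≤ Eg S s) ⟨h1, h2⟩
  have hi1 : θ v⁻¹ = (θ v)⁻¹ := map_inv₀ θ v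
  have hi2 : θ (θ v)⁻¹ = v⁻¹ := by rw [map_inv₀, hθ2]
  -- the three factors
  have m1 : S.x β (ε * v⁻¹) * S.x γ (-v⁻¹) * S.x α (ε * (θ v)⁻¹) ∈ Eg S s := by
    refine eU _ (mul_mem (mul_mem (mU _ _ (by rw [hhβ])) (mU _ _ (by rw [hhγ]; norm_num)))
      (mU _ _ (by rw [hhα]))) ?_
    rw [map_mul, map_mul, hsβ, hsγ, hsα, map_mul, map_mul, map_neg, hi1, hi2, hθε, neg_neg]
    exact A2_u1 S d v (θ v) hv0 hv0' hv
  have m2 : S.x γ (θ v)⁻¹ * S.x α (ε * v⁻¹) * S.x β (ε * (θ v)⁻¹) ∈ Eg S s := by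
    refine eU _ (mul_mem (mul_mem (mU _ _ (by rw [hhγ]; norm_num)) (mU _ _ (by rw [hhα])))
      (mU _ _ (by rw [hhβ]))) ?_
    rw [map_mul, map_mul, hsβ, hsγ, hsα, map_mul, map_mul, hi1, hi2, hθε]
    exact A2_v1 S d v (θ v) hv0 hv0' hv
  have m3 : S.x (-α) 1 * S.x (-β) 1 * S.x (-γ) v ∈ Eg S s := by
    refine eUm _ (mul_mem (mul_mem (mUm _ _ (by rw [hhα])) (mUm _ _ (by rw [hhβ])))
      (mUm _ _ (by rw [hhγ]; norm_num))) ?_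
    rw [map_mul, map_mul, hsβ', hsγ', hsα', map_one]
    exact A2_y S d v (θ v) hv
  have m4 : nn S.x α 1 * nn S.x γ v⁻¹ * nn S.x β (-(ε * (θ v)⁻¹)) ∈ Eg S s := by
    have h1 := A2_ident S d v (θ v) hv0 hv0' hv
    have h2 : nn S.x α 1 * nn S.x γ v⁻¹ * nn S.x β (-(ε * (θ v)⁻¹)) =
        (S.x β (ε * v⁻¹) * S.x γ (-v⁻¹) * S.x α (ε * (θ v)⁻¹))⁻¹ *
          (S.x (-α) 1 * S.x (-β) 1 * S.x (-γ) v) *
          (S.x γ (θ v)⁻¹ * S.x α (ε * v⁻¹) * S.x β (ε * (θ v)⁻¹))⁻¹ := by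
      rw [h1]
      group
    rw [h2]
    exact mul_mem (mul_mem (inv_mem m1) m3) (inv_mem m2)
  have m5 : nn S.x γ e ∈ Eg S s := by
    have a1 : S.x γ e ∈ Eg S s := eU _ (mU _ _ (by rw [hhγ]; norm_num)) (by
      rw [hsγ, hθe, neg_neg])
    have a2 : S.x (-γ) e⁻¹ ∈ Eg S s := eUm _ (mUm _ _ (by rw [hhγ]; norm_num)) (by
      rw [hsγ', map_inv₀, hθe, inv_neg, neg_neg])
    exact mul_mem (mul_mem a1 a2) a1
  have hnN : ∀ (δ : C.Root) (t : k), t ≠ 0 → nn S.x δ t ∈ S.N := fun δ t h =>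
    Subgroup.subset_closure ⟨δ, t, h, rfl⟩
  have m6 : (nn S.x γ e)⁻¹ * (nn S.x α 1 * nn S.x γ v⁻¹ * nn S.x β (-(ε * (θ v)⁻¹))) ∈ S.N :=
    mul_mem (inv_mem (hnN _ _ he0)) (mul_mem (mul_mem (hnN _ _ one_ne_zero)
      (hnN _ _ (inv_ne_zero hv0))) (hnN _ _ (neg_ne_zero.mpr (mul_ne_zero hε0
        (inv_ne_zero hv0')))))
  obtain ⟨g, hg⟩ : ∃ g, (nn S.x γ e)⁻¹ * (nn S.x α 1 * nn S.x γ v⁻¹ *
    nn S.x β (-(ε * (θ v)⁻¹))) = g := ⟨_, rfl⟩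
  have act1 := fun u => A2_act1 S d v (θ v) e u hv0 hv0' he0
  have act2 := fun u => A2_act2 S d v (θ v) e u hv0 hv0' he0
  rw [hg] at m6
  simp only [hg] at act1 act2
  have hgE : g ∈ Eg S s := by
    rw [← hg]
    exact mul_mem (inv_mem m5) m4
  obtain ⟨w, hw, hact, hw1⟩ := S.N_acts g m6
  obtain ⟨c, hc0, hcx⟩ := hact
  have hwα : w α = α := by
    have h1 := (hcx α 1).symm.trans (act1 1)
    have h2 := congrArg p h1
    rw [he.hp, he.hp] at h2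
    exact (C.xg_inj _ _ _ _ (mul_ne_zero (hc0 α) one_ne_zero) h2).1
  have hwβ : w β = β := by
    have h1 := (hcx β 1).symm.trans (act2 1)
    have h2 := congrArg p h1
    rw [he.hp, he.hp] at h2
    exact (C.xg_inj _ _ _ _ (mul_ne_zero (hc0 β) one_ne_zero) h2).1
  have hw2 : w = 1 := by
    apply C.eq_one_of_pos w hw
    intro j
    obtain ⟨z, hz⟩ := hc j
    have h1 : j = i ∨ j = D.ρ i := by
      have h2 : D.ρ ^ (z % ((orderOf D.ρ : ℕ) : ℤ)) = D.ρ ^ z := zpow_mod_orderOf _ _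
      have h3 : (orderOf D.ρ : ℤ) = 2 := by
        have : orderOf D.ρ = 2 := hm
        rw [this]
        rfl
      rw [h3] at h2
      rw [← h2] at hz
      rcases Int.emod_two_eq_zero_or_one z with h4 | h4
      · left
        rw [h4] at hz
        simpa using hz.symm
      · right
        rw [h4] at hz
        simpa using hz.symm
    rcases h1 with rfl | rfl
    · rw [hα, hwα, ← hα]
      exact C.simple_pos _
    · rw [hβ, hwβ, ← hβ]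
      exact C.simple_pos _
  have hgT : g ∈ S.T := hw1 hw2
  refine ⟨g, ⟨hgT, hgE⟩, ?_⟩
  have hchi : C.chi (p g : Matrix C.Idx C.Idx k) α = -(e * v ^ 2 * (θ v)⁻¹) := by
    have h1 := (SR_T he g hgT α 1).2
    have h0 := (SR_T he g hgT α 1).1
    rw [act1 1] at h1
    have h2 := congrArg p h1.symm
    rw [he.hp, he.hp, mul_one, mul_one] at h2
    exact (C.xg_inj _ _ _ _ h0 h2).2
  rw [hchi]
  intro h
  apply hv3
  rw [map_neg, map_mul, map_mul, map_pow, hθe, hi2] at h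
  have e1 : v * v⁻¹ = 1 := mul_inv_cancel₀ hv0
  have e2 : θ v * (θ v)⁻¹ = 1 := mul_inv_cancel₀ hv0'
  have h3 : e * (v ^ 3 + (θ v) ^ 3) = 0 := by
    linear_combination (v * θ v) * h - e * v ^ 3 * e2 - e * (θ v) ^ 3 * e1
  have h4 : v ^ 3 + (θ v) ^ 3 = 0 := (mul_eq_zero.mp h3).resolve_left he0
  have h5 : (ε : k) * ((v + θ v) ^ 2 - 3 * (v * θ v)) = 0 := by
    have h6 : (v + θ v) * ((v + θ v) ^ 2 - 3 * (v * θ v)) = 0 := by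
      linear_combination h4
    rw [hv] at h6 ⊢
    linear_combination -h6
  have h6 := (mul_eq_zero.mp h5).resolve_left hε0
  rw [hv] at h6
  linear_combination -h6

end Pool.Agent.H86.UM
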