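import Mathlib

/-!
# Project UM, module FCf: field lemmas

`hua`: `φ t = f t / f 1` satisfies `φ 1 = 1`, `φ (t ^ 2 * u⁻¹) * φ u = φ t ^ 2` for `t, u ≠ 0`. `t = 1`:
`φ (u⁻¹) * φ u = 1`; `u = 1`: `φ (t ^ 2) = φ t ^ 2`; replace `u` by `u⁻¹`: `φ (t ^ 2 * u) = φ t ^ 2 * φ u`. If
`2 ≠ 0` in `F` then `2 ≠ 0` in `K` (`f 2 = 2 f 1`, injectivity), and the difference of the identities for
`t + s`, `t`, `s` gives `2 φ (t s u) = 2 φ t φ s φ u` (also if `t + s = 0`, trivially or by injectivity). If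
`2 = 0` in `F` then `2 = 0` in `K` and `(φ (t s)) ^ 2 = φ (t ^ 2 s ^ 2) = (φ t φ s) ^ 2`, so
`φ (t s) = φ t φ s` (squaring is injective in characteristic two).
`semilin`: the set `A` of all `x ∈ k` for which there is `x'` with `f (x u) = x' f u` for all `u` is a subring
containing the fixed elements of `θ` and `χ`, so `A = k` (`x = λ + μ χ`, `μ = (x - θ x) / (χ - θ χ)`,
`λ = x - μ χ`, both fixed by `θ`); `φ x = f x / f 1` is a ring homomorphism.
`twist_eq`: for `c ≠ 0` apply `h` to `(a, b)` and `(a c, b (θ c)⁻¹)`. With `a = b = 1`: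
`φ c / ψ (θ c) = ψ c / φ (θ c) =: r`. With `a = 1`, `b` arbitrary: `(r - 1) (ψ b - φ b) = 0`. If `ψ = φ` this
contradicts `hne`; so for some `b` `ψ b ≠ φ b`, and then `r = 1` for all `c`, i.e. `φ c = ψ (θ c)`.
`zeta_zero`: if `2 ≠ 0` in `k` take `λ = 2`: `ζ (2 t) = 2 ζ t = 4 ζ t`. If `2 = 0`: `N = χ θχ`, `T = χ + θχ`
are fixed by `θ`, `T ≠ 0`, `N ≠ 0`, `χ ^ 2 = T χ + N` (characteristic two), so
`φ(N)^2 ζ t = ζ (χ^2 t) = ζ (T χ t) + ζ (N t) = φ(T)^2 φ(N) ζ t + φ(N)^2 ζ t`.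
`cubic_sign`: replace `t` by `t + 1` in `hN`: the sums `φ(θt) + φ(θθt)` and `θ'(φt) + θ'(θ'(φt))` are also
equal, so for every `t` either `φ(θt) = θ'(φt)` or `φ(θt) = θ'(θ'(φt))`; `k` is the union of two additive
subgroups, so one of them is `k`.
-/

set_option autoImplicit false

namespace Pool.Agent.H86.UM

theorem hua {F K : Type*} [Field F] [Field K] (f : F → K) (hadd : ∀ a b, f (a + b) = f a + f b)
    (hinj : ∀ a, f a = 0 → a = 0)
    (h : ∀ t u, t ≠ 0 → u ≠ 0 → f (t ^ 2 * u⁻¹) * f u = f t ^ 2) :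
    ∃ (c : K) (φ : F →+* K), c ≠ 0 ∧ ∀ t, f t = c * φ t := by
  have hf0 : f 0 = 0 := by
    have h1 := hadd 0 0
    simp only [add_zero] at h1
    have : f 0 - f 0 = f 0 := by nth_rewrite 1 [h1]; ring
    rw [sub_self] at this
    exact this.symm
  have hf1 : f 1 ≠ 0 := fun h1 => one_ne_zero (hinj 1 h1)
  obtain ⟨g, hg⟩ : ∃ g : F → K, ∀ t, f t = f 1 * g t :=
    ⟨fun t => f t / f 1, fun t => by field_simp⟩
  have hgadd : ∀ a b, g (a + b) = g a + g b := by
    intro a b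
    have h1 := hadd a b
    rw [hg (a + b), hg a, hg b] at h1
    apply mul_left_cancel₀ hf1
    rw [h1]; ring
  have hg1 : g 1 = 1 := by
    have h1 := hg 1
    apply mul_left_cancel₀ hf1
    rw [← h1, mul_one]
  have hg0 : g 0 = 0 := by
    have h1 := hg 0
    rw [hf0] at h1
    rcases mul_eq_zero.1 h1.symm with h2 | h2
    · exact absurd h2 hf1
    · exact h2
  have hq : ∀ t u, t ≠ 0 → u ≠ 0 → g (t ^ 2 * u⁻¹) * g u = g t ^ 2 := by
    intro t u ht hu
    have h1 := h t u ht hu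
    rw [hg (t ^ 2 * u⁻¹), hg u, hg t] at h1
    apply mul_left_cancel₀ (pow_ne_zero 2 hf1)
    linear_combination h1
  have hinv : ∀ u, u ≠ 0 → g (u⁻¹) * g u = 1 := by
    intro u hu
    have h1 := hq 1 u one_ne_zero hu
    simpa [hg1] using h1
  have hsq : ∀ t, g (t ^ 2) = g t ^ 2 := by
    intro t
    by_cases ht : t = 0
    · subst ht; simp [hg0]
    · have h1 := hq t 1 ht one_ne_zero
      simpa [hg1] using h1
  have hm : ∀ t u, g (t ^ 2 * u) = g t ^ 2 * g u := by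
    intro t u
    by_cases ht : t = 0
    · subst ht; simp [hg0]
    by_cases hu : u = 0
    · subst hu; simp [hg0]
    have h1 := hq t u⁻¹ ht (inv_ne_zero hu)
    rw [inv_inv] at h1
    have h2 := hinv u hu
    calc g (t ^ 2 * u) = (g (t ^ 2 * u) * g u⁻¹) * g u := by
            rw [mul_assoc, h2, mul_one]
      _ = g t ^ 2 * g u := by rw [h1]
  have h2m : ∀ t s, 2 * g (t * s) = 2 * (g t * g s) := by
    intro t s
    have h1 : g ((t + s) ^ 2) = g (t + s) ^ 2 := hsq _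
    have h3 : (t + s) ^ 2 = t ^ 2 + (t * s + t * s) + s ^ 2 := by ring
    rw [h3, hgadd, hgadd, hgadd, hgadd, hsq, hsq] at h1
    linear_combination h1
  have hmul : ∀ t s, g (t * s) = g t * g s := by
    intro t s
    by_cases h2 : (2 : K) = 0
    · have h3 : g (t * s) ^ 2 = (g t * g s) ^ 2 := by
        rw [← hsq, mul_pow, hm, hsq]; ring
      have h4 : (g (t * s) - g t * g s) ^ 2 = 0 := by
        linear_combination h3 + (-(g (t * s) * (g t * g s)) + (g t * g s) ^ 2) * h2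
      exact sub_eq_zero.1 (pow_eq_zero_iff (two_ne_zero) |>.1 h4)
    · exact mul_left_cancel₀ h2 (h2m t s)
  exact ⟨f 1, { toFun := g, map_one' := hg1, map_mul' := hmul, map_zero' := hg0,
                map_add' := hgadd }, hf1, fun t => hg t⟩

theorem semilin {k K : Type*} [Field k] [Field K] (θ : k ≃+* k) (hθ : ∀ t, θ (θ t) = t)
    (f : k → K) (hadd : ∀ a b, f (a + b) = f a + f b) (hne : ∃ t, f t ≠ 0)
    (h0 : ∀ l, θ l = l → l ≠ 0 → ∃ l' : K, ∀ u, f (l * u) = l' * f u) (χ : k)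
    (hχ : θ χ ≠ χ) (h1 : ∃ χ' : K, ∀ u, f (χ * u) = χ' * f u) :
    ∃ (c : K) (φ : k →+* K), c ≠ 0 ∧ ∀ t, f t = c * φ t := by
  have hf0 : f 0 = 0 := by
    have h1 := hadd 0 0
    simp only [add_zero] at h1
    have : f 0 - f 0 = f 0 := by nth_rewrite 1 [h1]; ring
    rw [sub_self] at this
    exact this.symm
  have hfix : ∀ l, θ l = l → ∃ l' : K, ∀ u, f (l * u) = l' * f u := by
    intro l hl
    by_cases h : l = 0
    · subst h
      exact ⟨0, fun u => by rw [zero_mul, zero_mul, hf0]⟩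
    · exact h0 l hl h
  have hall : ∀ x, ∃ x' : K, ∀ u, f (x * u) = x' * f u := by
    intro x
    have hd : χ - θ χ ≠ 0 := fun h => hχ (sub_eq_zero.1 h).symm
    have hd' : θ χ - χ ≠ 0 := sub_ne_zero.2 hχ
    obtain ⟨m, hm⟩ : ∃ m : k, m = (x - θ x) / (χ - θ χ) := ⟨_, rfl⟩
    have hmfix : θ m = m := by
      rw [hm, map_div₀, map_sub, map_sub, hθ, hθ]
      rw [div_eq_div_iff hd' hd]; ring
    have hmul : m * (χ - θ χ) = x - θ x := by rw [hm]; field_simp
    have hlfix : θ (x - m * χ) = x - m * χ := by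
      rw [map_sub, map_mul, hmfix]
      linear_combination hmul
    obtain ⟨l', hl'⟩ := hfix _ hlfix
    obtain ⟨m', hm'⟩ := hfix _ hmfix
    obtain ⟨c', hc'⟩ := h1
    refine ⟨l' + m' * c', fun u => ?_⟩
    have e : x * u = (x - m * χ) * u + m * (χ * u) := by ring
    rw [e, hadd, hl', hm', hc']; ring
  choose φ hφ using hall
  have hf1 : f 1 ≠ 0 := by
    intro h
    obtain ⟨t, ht⟩ := hne
    apply ht
    have := hφ t 1
    rw [mul_one, h, mul_zero] at this
    exact this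
  have hft : ∀ t, f t = f 1 * φ t := by
    intro t
    have := hφ t 1
    rw [mul_one] at this
    rw [this]; ring
  refine ⟨f 1, { toFun := φ, map_one' := ?_, map_mul' := ?_, map_zero' := ?_, map_add' := ?_ },
    hf1, fun t => hft t⟩
  · apply mul_left_cancel₀ hf1
    rw [← hft, mul_one]
  · intro x y
    apply mul_left_cancel₀ hf1
    rw [← hft, hφ, hft y]; ring
  · apply mul_left_cancel₀ hf1
    rw [← hft, mul_zero, hf0]
  · intro x y
    apply mul_left_cancel₀ hf1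
    rw [← hft, hadd, hft x, hft y]; ring

theorem twist_eq {k K : Type*} [Field k] [Field K] (θ : k ≃+* k) (hθ : ∀ t, θ (θ t) = t)
    (φ ψ : k →+* K)
    (h : ∀ a b a' b', a * θ b - b * θ a = a' * θ b' - b' * θ a' →
      φ a * ψ b - φ b * ψ a = φ a' * ψ b' - φ b' * ψ a')
    (hne : ∃ a b, φ a * ψ b - φ b * ψ a ≠ 0) (t : k) : ψ (θ t) = φ t := by
  by_cases ht : t = 0
  · subst ht; simp
  have hθt : θ t ≠ 0 := fun h => ht (by
    have := hθ t
    rw [h, map_zero] at this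
    exact this.symm)
  have hφt : φ t ≠ 0 := (map_ne_zero φ).2 ht
  have hψt : ψ t ≠ 0 := (map_ne_zero ψ).2 ht
  have hφθ : φ (θ t) ≠ 0 := (map_ne_zero φ).2 hθt
  have hψθ : ψ (θ t) ≠ 0 := (map_ne_zero ψ).2 hθt
  have key : ∀ a b, φ a * ψ b - φ b * ψ a =
      φ a * φ t * (ψ b * (ψ (θ t))⁻¹) - φ b * (φ (θ t))⁻¹ * (ψ a * ψ t) := by
    intro a b
    have h1 := h a b (a * t) (b * (θ t)⁻¹) (by
      rw [map_mul, map_mul, map_inv₀, hθ]
      field_simp)
    rw [map_mul, map_mul, map_mul, map_mul, map_inv₀, map_inv₀] at h1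
    rw [h1]
  obtain ⟨r, hr⟩ : ∃ r : K, r = φ t * (ψ (θ t))⁻¹ := ⟨_, rfl⟩
  obtain ⟨s, hs⟩ : ∃ s : K, s = (φ (θ t))⁻¹ * ψ t := ⟨_, rfl⟩
  have key2 : ∀ a b, φ a * ψ b - φ b * ψ a = φ a * ψ b * r - φ b * ψ a * s := by
    intro a b
    rw [key a b, hr, hs]; ring
  have hrs : r = s := by
    have := key2 1 1
    simp only [map_one] at this
    linear_combination -this
  have hr1 : r = 1 := by
    obtain ⟨a, b, hab⟩ := hne
    have h1 := key2 a b
    rw [← hrs] at h1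
    have h2 : (φ a * ψ b - φ b * ψ a) * (r - 1) = 0 := by linear_combination -h1
    rcases mul_eq_zero.1 h2 with h3 | h3
    · exact absurd h3 hab
    · exact sub_eq_zero.1 h3
  rw [hr1] at hr
  field_simp at hr
  exact hr

theorem zeta_zero {k K : Type*} [Field k] [Field K] (θ : k ≃+* k) (hθ : ∀ t, θ (θ t) = t)
    (φ : k →+* K) (ζ : k → K) (hadd : ∀ a b, ζ (a + b) = ζ a + ζ b)
    (h0 : ∀ l, θ l = l → l ≠ 0 → ∀ t, ζ (l * t) = φ l ^ 2 * ζ t) (χ : k) (hχ : θ χ ≠ χ)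
    (h1 : ∀ t, ζ (χ * t) = φ (χ * θ χ) * ζ t) (t : k) : ζ t = 0 := by
  by_cases h2 : (2 : k) = 0
  · obtain ⟨T, hT⟩ : ∃ T : k, T = χ + θ χ := ⟨_, rfl⟩
    obtain ⟨N, hN⟩ : ∃ N : k, N = χ * θ χ := ⟨_, rfl⟩
    have hTfix : θ T = T := by rw [hT, map_add, hθ]; ring
    have hNfix : θ N = N := by rw [hN, map_mul, hθ]; ring
    have hT0 : T ≠ 0 := by
      intro h
      apply hχ
      rw [hT] at h
      linear_combination h - χ * h2
    have hχ0 : χ ≠ 0 := by
      intro h; apply hχ; rw [h, map_zero]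
    have hθχ0 : θ χ ≠ 0 := (map_ne_zero θ).2 hχ0
    have hN0 : N ≠ 0 := by rw [hN]; exact mul_ne_zero hχ0 hθχ0
    have e : χ * (χ * t) = T * (χ * t) + N * t := by
      rw [hT, hN]
      linear_combination -(χ * θ χ * t) * h2
    have e1 : ζ (χ * (χ * t)) = φ N * (φ N * ζ t) := by
      rw [h1, h1, hN]
    have e2 : ζ (T * (χ * t)) = φ T ^ 2 * (φ N * ζ t) := by
      rw [h0 T hTfix hT0, h1, hN]
    have e3 : ζ (N * t) = φ N ^ 2 * ζ t := h0 N hNfix hN0 t
    have e4 : φ T ^ 2 * (φ N * ζ t) = 0 := by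
      have e5 : ζ (χ * (χ * t)) = ζ (T * (χ * t)) + ζ (N * t) := by rw [e, hadd]
      rw [e1, e2, e3] at e5
      linear_combination -e5
    have hφT : φ T ≠ 0 := (map_ne_zero φ).2 hT0
    have hφN : φ N ≠ 0 := (map_ne_zero φ).2 hN0
    rcases mul_eq_zero.1 e4 with h3 | h3
    · exact absurd h3 (pow_ne_zero 2 hφT)
    · rcases mul_eq_zero.1 h3 with h4 | h4
      · exact absurd h4 hφN
      · exact h4
  · have hfix : θ 2 = 2 := map_ofNat θ 2
    have e1 := h0 2 hfix h2 t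
    have e2 : ζ (2 * t) = ζ t + ζ t := by rw [two_mul, hadd]
    rw [e2, map_ofNat] at e1
    have h2K : (2 : K) ≠ 0 := by
      have := (map_ne_zero φ).2 h2
      rwa [map_ofNat] at this
    have e3 : (2 : K) * ζ t = 0 := by linear_combination -e1
    rcases mul_eq_zero.1 e3 with h3 | h3
    · exact absurd h3 h2K
    · exact h3

theorem cubic_sign {k K : Type*} [Field k] [Field K] (θ : k ≃+* k) (θ' : K ≃+* K)
    (φ : k →+* K) (hN : ∀ t, φ (θ t) * φ (θ (θ t)) = θ' (φ t) * θ' (θ' (φ t))) :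
    (∀ t, φ (θ t) = θ' (φ t)) ∨ ∀ t, φ (θ t) = θ' (θ' (φ t)) := by
  have hsum : ∀ t, φ (θ t) + φ (θ (θ t)) = θ' (φ t) + θ' (θ' (φ t)) := by
    intro t
    have h1 := hN (t + 1)
    have h2 := hN t
    simp only [map_add, map_one] at h1
    linear_combination h1 - h2
  have hor : ∀ t, φ (θ t) = θ' (φ t) ∨ φ (θ t) = θ' (θ' (φ t)) := by
    intro t
    have h1 : (φ (θ t) - θ' (φ t)) * (φ (θ t) - θ' (θ' (φ t))) = 0 := by
      linear_combination φ (θ t) * hsum t - hN t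
    rcases mul_eq_zero.1 h1 with h3 | h3
    · exact Or.inl (sub_eq_zero.1 h3)
    · exact Or.inr (sub_eq_zero.1 h3)
  by_contra hcon
  rw [not_or, not_forall, not_forall] at hcon
  obtain ⟨⟨a, ha⟩, ⟨b, hb⟩⟩ := hcon
  have ha' := (hor a).resolve_left ha
  have hb' := (hor b).resolve_right hb
  rcases hor (a + b) with h | h
  · apply ha
    simp only [map_add] at h
    linear_combination h - hb'
  · apply hb
    simp only [map_add] at h
    linear_combination h - ha'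

end Pool.Agent.H86.UM
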