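import Pool.Agent.H86.UM.Env

/-!
# Project UM, module FCm: rank one calculations with matrices

`rank_mat'` (one root `α`): let `N = X_α(a) X_(-α)(b) X_α(a)`. Apply `N X_α(c) = X_(-α)(d) N` to the basis
vector `e_α = e (inr α)`, which is fixed by `X_α`. `N e_α = (1 - a b)^2 e_α + b (1 - a b) h_α + b^2 e_(-α)` with
`h_α = ∑ α_i e (inl i)` (`C.E`, `C.F` in Defs; `X_(-α)(b) e_α = e_α + b h_α + b^2 e_(-α)`,
`X_α(a) h_α = h_α - 2 a e_α`, `X_α(a) e_(-α) = e_(-α) - a h_α + a^2 e_α`), and it is fixed by `X_(-α)(d)`; the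
coefficient of `h_α` gives `d (1 - a b)^2 = 0` (some coordinate `α_i` is not zero in `K`, see T3.lean;
for simple roots it is `1`). If `d = 0` then `X_α(c) = 1`, so `c = 0` (`xg_inj`). So `a b = 1`.
`rank_mat`: the orbit of `simple i` is `{simple i}` or orthogonal; `yb` is the product of the
commuting elements `xg (simple (ρ^l i)) (θ'^l a)` (`isSig_adS`, `IsSig.iter`, signs `1` on simple roots). All
factors with `l ≠ 0` fix `e_(±α)` and `h_α = e (inl i)` for `α = simple i` (the inner products are `0`, so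
`α ± α_l` are not roots), so on these three vectors `yb (±α) a` acts as `xg (±α) a`, and the
calculation above applies.
-/

set_option autoImplicit false
open Matrix

namespace Pool.Agent.H86.UM

open Pool.Agent.H75.UL

variable {n : ℕ} (C : SLC n)

section
variable {K : Type*} [Field K]

/-- the basis vector of the root `β` -/
private def FCm_e (β : C.Root) : C.Idx → K := Pi.single (Sum.inr β) 1

/-- the vector `h_α` -/
private def FCm_h (α : C.Root) : C.Idx → K := Sum.elim (fun i => (α.1 i : K)) (fun _ => 0)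

private theorem FCm_h_neg (α : C.Root) : FCm_h C (K := K) (-α) = - FCm_h C α := by
  funext a
  rcases a with i | γ
  · simp [FCm_h]
  · simp [FCm_h]

private theorem FCm_mulVec_e (M : Matrix C.Idx C.Idx K) (β : C.Root) (a : C.Idx) :
    (M *ᵥ FCm_e C β) a = M a (Sum.inr β) := by
  unfold FCm_e
  rw [Matrix.mulVec_single_one]
  rfl

private theorem FCm_mulVec_h (M : Matrix C.Idx C.Idx K) (α : C.Root) (a : C.Idx) :
    (M *ᵥ FCm_h C α) a = ∑ i, M a (Sum.inl i) * (α.1 i : K) := by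
  unfold FCm_h Matrix.mulVec dotProduct
  rw [Fintype.sum_sum_type]
  simp

private theorem FCm_ip_cast (β α : C.Root) :
    ∑ i, ((C.ip (Pi.single i 1) β.1 : ℤ) : K) * (α.1 i : K) = ((C.ip α.1 β.1 : ℤ) : K) := by
  rw [← C.sum_ip_single α.1 β.1, Int.cast_sum]
  refine Finset.sum_congr rfl fun i _ => ?_
  rw [Int.cast_mul, mul_comm]

private theorem FCm_E_h (β α : C.Root) :
    ((C.E β).map (Int.cast : ℤ → K)) *ᵥ FCm_h C α = (-(C.ip α.1 β.1 : ℤ) : K) • FCm_e C β := by
  funext a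
  rw [FCm_mulVec_h]
  rcases a with j | γ
  · simp [SLC.E, FCm_e]
  · simp only [Matrix.map_apply, SLC.E, Pi.smul_apply, smul_eq_mul, FCm_e]
    by_cases h : γ = β
    · subst h
      simp only [if_true, Pi.single_eq_same, mul_one]
      rw [← FCm_ip_cast C γ α, ← Finset.sum_neg_distrib]
      refine Finset.sum_congr rfl fun i _ => ?_
      rw [Int.cast_neg, neg_mul]
    · have h1 : ¬ γ.1 = β.1 := fun h1 => h (SLC.Root.ext h1)
      have h2 : (Sum.inr γ : C.Idx) ≠ Sum.inr β := fun h2 => h (Sum.inr.inj h2)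
      simp [h1, Pi.single_eq_of_ne h2]

private theorem FCm_F_h (β α : C.Root) :
    ((C.F β).map (Int.cast : ℤ → K)) *ᵥ FCm_h C α = 0 := by
  funext a
  rw [FCm_mulVec_h]
  rcases a with j | γ
  · simp [SLC.F]
  · simp [SLC.F]

private theorem FCm_X (β : C.Root) (t : K) (v : C.Idx → K) :
    C.X K β t *ᵥ v = v + t • (((C.E β).map (Int.cast : ℤ → K)) *ᵥ v) +
      t ^ 2 • (((C.F β).map (Int.cast : ℤ → K)) *ᵥ v) := by
  unfold SLC.X
  rw [Matrix.add_mulVec, Matrix.add_mulVec, Matrix.one_mulVec, Matrix.smul_mulVec,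
    Matrix.smul_mulVec]

private theorem FCm_E_self (α : C.Root) :
    ((C.E α).map (Int.cast : ℤ → K)) *ᵥ FCm_e C α = 0 := by
  funext a
  rw [FCm_mulVec_e]
  rcases a with j | γ
  · have h1 : ¬ α.1 = -α.1 := fun h => C.neg_ne_self α h.symm
    simp [SLC.E, h1]
  · have h1 := C.root_add_self α γ
    simp [SLC.E, h1]

private theorem FCm_F_self (α : C.Root) :
    ((C.F α).map (Int.cast : ℤ → K)) *ᵥ FCm_e C α = 0 := by
  funext a
  rw [FCm_mulVec_e]
  rcases a with j | γ
  · simp [SLC.F]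
  · have h1 : ¬ α.1 = -α.1 := fun h => C.neg_ne_self α h.symm
    simp [SLC.F, h1]

private theorem FCm_E_neg (α : C.Root) :
    ((C.E α).map (Int.cast : ℤ → K)) *ᵥ FCm_e C (-α) = - FCm_h C α := by
  funext a
  rw [FCm_mulVec_e]
  rcases a with j | γ
  · simp [SLC.E, FCm_h]
  · have h1 : ¬ γ.1 = 0 := C.root_ne_zero γ
    simp [SLC.E, FCm_h, h1]

private theorem FCm_F_neg (α : C.Root) :
    ((C.F α).map (Int.cast : ℤ → K)) *ᵥ FCm_e C (-α) = FCm_e C α := by
  funext a
  rw [FCm_mulVec_e]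
  rcases a with j | γ
  · simp [SLC.F, FCm_e]
  · by_cases h : γ = α
    · subst h
      simp [SLC.F, FCm_e]
    · have h1 : ¬ γ.1 = α.1 := fun h1 => h (SLC.Root.ext h1)
      have h2 : (Sum.inr γ : C.Idx) ≠ Sum.inr α := fun h2 => h (Sum.inr.inj h2)
      simp [SLC.F, FCm_e, h1, Pi.single_eq_of_ne h2]

/-- the matrix `M` acts on `e_α, h_α, e_(-α)` as `X_α(t)` -/
private structure FCm_P (α : C.Root) (t : K) (M : Matrix C.Idx C.Idx K) : Prop where
  e : M *ᵥ FCm_e C α = FCm_e C α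
  h : M *ᵥ FCm_h C α = FCm_h C α - (2 * t) • FCm_e C α
  f : M *ᵥ FCm_e C (-α) = FCm_e C (-α) - t • FCm_h C α + t ^ 2 • FCm_e C α

private theorem FCm_P_X (α : C.Root) (t : K) : FCm_P C α t (C.X K α t) := by
  refine ⟨?_, ?_, ?_⟩
  · rw [FCm_X, FCm_E_self, FCm_F_self, smul_zero, smul_zero, add_zero, add_zero]
  · rw [FCm_X, FCm_E_h, FCm_F_h, smul_zero, add_zero, α.2, smul_smul, sub_eq_add_neg, ← neg_smul]
    congr 2
    push_cast
    ring
  · rw [FCm_X, FCm_E_neg, FCm_F_neg, smul_neg, sub_eq_add_neg]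

/-- the main calculation -/
private theorem FCm_core (α : C.Root) (a b c d : K) (Pa Pc Qb Qd : Matrix C.Idx C.Idx K)
    (hPa : FCm_P C α a Pa) (hPc : FCm_P C α c Pc) (hQb : FCm_P C (-α) b Qb)
    (hQd : FCm_P C (-α) d Qd) (h : Pa * Qb * Pa * Pc = Qd * (Pa * Qb * Pa)) (i : Fin n)
    (hi : (α.1 i : K) ≠ 0) : d = 0 ∨ a * b = 1 := by
  have q1 : Qb *ᵥ FCm_e C α = FCm_e C α + b • FCm_h C α + b ^ 2 • FCm_e C (-α) := by
    have := hQb.f
    rw [C.neg_neg_root, FCm_h_neg, smul_neg, sub_neg_eq_add] at this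
    exact this
  have q1' : Qd *ᵥ FCm_e C α = FCm_e C α + d • FCm_h C α + d ^ 2 • FCm_e C (-α) := by
    have := hQd.f
    rw [C.neg_neg_root, FCm_h_neg, smul_neg, sub_neg_eq_add] at this
    exact this
  have q2' : Qd *ᵥ FCm_h C α = FCm_h C α + (2 * d) • FCm_e C (-α) := by
    have := hQd.h
    rw [FCm_h_neg, Matrix.mulVec_neg] at this
    have h2 := congrArg Neg.neg this
    rw [neg_neg] at h2
    rw [h2, neg_sub, sub_neg_eq_add, add_comm]
  have q3' : Qd *ᵥ FCm_e C (-α) = FCm_e C (-α) := hQd.e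
  have hN : (Pa * Qb * Pa) *ᵥ FCm_e C α = ((1 - a * b) ^ 2) • FCm_e C α +
      (b * (1 - a * b)) • FCm_h C α + b ^ 2 • FCm_e C (-α) := by
    rw [← Matrix.mulVec_mulVec, hPa.e, ← Matrix.mulVec_mulVec, q1, Matrix.mulVec_add,
      Matrix.mulVec_add, Matrix.mulVec_smul, Matrix.mulVec_smul, hPa.e, hPa.h, hPa.f]
    module
  have h1 : (Pa * Qb * Pa * Pc) *ᵥ FCm_e C α = (Pa * Qb * Pa) *ᵥ FCm_e C α := by
    rw [← Matrix.mulVec_mulVec, hPc.e]
  have h2 : Qd *ᵥ ((Pa * Qb * Pa) *ᵥ FCm_e C α) = (Pa * Qb * Pa) *ᵥ FCm_e C α := by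
    rw [Matrix.mulVec_mulVec, ← h, h1]
  rw [hN, Matrix.mulVec_add, Matrix.mulVec_add, Matrix.mulVec_smul, Matrix.mulVec_smul,
    Matrix.mulVec_smul, q1', q2', q3'] at h2
  have h3 := congrFun h2 (Sum.inl i)
  have e1 : ∀ β : C.Root, (FCm_e C β : C.Idx → K) (Sum.inl i) = 0 := by
    intro β
    simp [FCm_e]
  have e2 : (FCm_h C α : C.Idx → K) (Sum.inl i) = (α.1 i : K) := rfl
  simp only [Pi.add_apply, Pi.smul_apply, smul_eq_mul, e1, e2] at h3
  have h4 : d * (1 - a * b) ^ 2 * (α.1 i : K) = 0 := by linear_combination h3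
  rcases mul_eq_zero.1 h4 with h5 | h5
  · rcases mul_eq_zero.1 h5 with h6 | h6
    · exact Or.inl h6
    · right
      have := pow_eq_zero_iff (two_ne_zero) |>.1 h6
      linear_combination -this
  · exact absurd h5 hi

/-- if `X_α(c)` acts trivially then `c = 0` -/
private theorem FCm_triv (α : C.Root) (c : K) (hP : FCm_P C α c (1 : Matrix C.Idx C.Idx K)) :
    c = 0 := by
  have h1 := congrFun hP.f (Sum.inr α)
  rw [Matrix.one_mulVec] at h1
  have e1 : (FCm_e C (-α) : C.Idx → K) (Sum.inr α) = 0 := by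
    unfold FCm_e
    rw [Pi.single_eq_of_ne]
    intro h
    exact C.neg_ne_self α (congrArg SLC.Root.val (Sum.inr.inj h)).symm
  have e2 : (FCm_h C α : C.Idx → K) (Sum.inr α) = 0 := rfl
  have e3 : (FCm_e C α : C.Idx → K) (Sum.inr α) = 1 := by
    unfold FCm_e
    rw [Pi.single_eq_same]
  simp only [Pi.add_apply, Pi.sub_apply, Pi.smul_apply, smul_eq_mul, e1, e2, e3] at h1
  have h2 : c ^ 2 = 0 := by linear_combination -h1
  exact pow_eq_zero_iff (two_ne_zero) |>.1 h2

/-- roots orthogonal to `β` -/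
private theorem FCm_orth (γ β : C.Root) (h : C.ip γ.1 β.1 = 0) (u : K) :
    C.X K γ u *ᵥ FCm_e C β = FCm_e C β := by
  have h1 : ¬ β.1 = -γ.1 := by
    intro h1
    rw [h1, C.ip_neg_right, γ.2] at h
    omega
  have hE : ((C.E γ).map (Int.cast : ℤ → K)) *ᵥ FCm_e C β = 0 := by
    funext a
    rw [FCm_mulVec_e]
    rcases a with j | δ
    · simp [SLC.E, h1]
    · have h2 : ¬ δ.1 = γ.1 + β.1 := by
        intro h2
        have := C.ip_add_root γ β δ h2
        omega
      simp [SLC.E, h2]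
  have hF : ((C.F γ).map (Int.cast : ℤ → K)) *ᵥ FCm_e C β = 0 := by
    funext a
    rw [FCm_mulVec_e]
    rcases a with j | δ
    · simp [SLC.F]
    · simp [SLC.F, h1]
  rw [FCm_X, hE, hF, smul_zero, smul_zero, add_zero, add_zero]

private theorem FCm_orth_h (γ β : C.Root) (h : C.ip γ.1 β.1 = 0) (u : K) :
    C.X K γ u *ᵥ FCm_h C β = FCm_h C β := by
  rw [FCm_X, FCm_E_h, FCm_F_h, C.ip_comm, h]
  simp

private theorem FCm_list (v : C.Idx → K) (l : List (GL C.Idx K))
    (h : ∀ g ∈ l, (g : Matrix C.Idx C.Idx K) *ᵥ v = v) :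
    ((l.prod : GL C.Idx K) : Matrix C.Idx C.Idx K) *ᵥ v = v := by
  induction l with
  | nil => simp
  | cons g l ih =>
    rw [List.prod_cons, Units.val_mul, ← Matrix.mulVec_mulVec,
      ih fun g hg => h g (List.mem_cons_of_mem _ hg), h g List.mem_cons_self]

private theorem FCm_yb (D : Dg C) (θ' : K ≃+* K) (β : C.Root)
    (hβ : D.r β ≠ β → C.ip β.1 (D.r β).1 = 0) (t : K) :
    FCm_P C β t ((yb D (C.adS K) (D.sgl θ') β t : GL C.Idx K) : Matrix C.Idx C.Idx K) := by
  obtain ⟨j, hj⟩ : ∃ j, mo D β = j + 1 := by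
    refine ⟨mo D β - 1, ?_⟩
    have : 0 < mo D β := by
      unfold mo
      split_ifs
      · exact one_pos
      · rcases D.m_cases with h | h | h <;> omega
    omega
  have horth : ∀ l, l < j → C.ip (D.r^[l + 1] β).1 β.1 = 0 := by
    intro l hl
    have hr : D.r β ≠ β := by
      intro hr
      unfold mo at hj
      rw [if_pos hr] at hj
      omega
    have hm : mo D β = D.m := by
      unfold mo
      rw [if_neg hr]
    rw [C.ip_comm, D.ip_orb β hr (l + 1) (by omega) (by omega)]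
    exact hβ hr
  have hy : yb D (C.adS K) (D.sgl θ') β t = C.xg K β t *
      ((List.range j).map fun l => (D.sgl θ')^[l + 1] (C.xg K β t)).prod := by
    unfold yb
    rw [hj, List.range_succ_eq_map, List.map_cons, List.prod_cons, List.map_map]
    rfl
  have hfix : ∀ v : C.Idx → K, (∀ γ : C.Root, C.ip γ.1 β.1 = 0 → ∀ u, C.X K γ u *ᵥ v = v) →
      ((yb D (C.adS K) (D.sgl θ') β t : GL C.Idx K) : Matrix C.Idx C.Idx K) *ᵥ v =
        C.X K β t *ᵥ v := by
    intro v hv
    rw [hy, Units.val_mul, ← Matrix.mulVec_mulVec, FCm_list]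
    · rfl
    · intro g hg
      rw [List.mem_map] at hg
      obtain ⟨l, hl, rfl⟩ := hg
      rw [List.mem_range] at hl
      have e := (isSig_adS (D := D) θ').iter (l + 1) β t
      rw [SLC.adS_x] at e
      rw [e]
      exact hv _ (horth l hl) _
  have hX := FCm_P_X C β t
  refine ⟨?_, ?_, ?_⟩
  · rw [hfix _ fun γ hγ u => FCm_orth C γ β hγ u]
    exact hX.e
  · rw [hfix _ fun γ hγ u => FCm_orth_h C γ β hγ u]
    exact hX.h
  · rw [hfix _ fun γ hγ u => FCm_orth C γ (-β) (by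
      rw [SLC.Root.neg_val, C.ip_neg_right, hγ, neg_zero]) u]
    exact hX.f

private theorem FCm_yb_zero (D : Dg C) (θ' : K ≃+* K) (β : C.Root) :
    yb D (C.adS K) (D.sgl θ') β 0 = 1 := by
  unfold yb
  apply List.prod_eq_one
  intro g hg
  rw [List.mem_map] at hg
  obtain ⟨l, -, rfl⟩ := hg
  rw [(C.adS K).x_zero]
  exact iterate_map_one _ l

end

theorem rank_mat' {K : Type*} [Field K] (α : C.Root) (a b c d : K) (hc : c ≠ 0)
    (h : C.xg K α a * C.xg K (-α) b * C.xg K α a * C.xg K α c =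
      C.xg K (-α) d * (C.xg K α a * C.xg K (-α) b * C.xg K α a)) : a * b = 1 := by
  obtain ⟨i, hi⟩ := C.exists_coeff_ne_zero α K
  have hm := congrArg Units.val h
  simp only [Units.val_mul] at hm
  rcases FCm_core C α a b c d _ _ _ _ (FCm_P_X C α a) (FCm_P_X C α c) (FCm_P_X C (-α) b)
    (FCm_P_X C (-α) d) hm i hi with h1 | h1
  · exfalso
    subst h1
    have e : C.xg K (-α) 0 = 1 := Units.ext (C.X_zero K (-α))
    rw [e, one_mul, mul_eq_left] at h
    have h2 : C.X K α c = 1 := congrArg Units.val h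
    have h3 := FCm_P_X C α c
    rw [h2] at h3
    exact hc (FCm_triv C α c h3)
  · exact h1

theorem rank_mat (D : Dg C) {K : Type*} [Field K] (θ' : K ≃+* K)
    (hθ : ∀ t, (⇑θ')^[D.m] t = t) (i : Fin n) (hi : C.A i (D.ρ i) ≠ -1) (a b c d : K)
    (hc : c ≠ 0)
    (h : yb D (C.adS K) (D.sgl θ') (C.simple i) a * yb D (C.adS K) (D.sgl θ') (-(C.simple i)) b *
      yb D (C.adS K) (D.sgl θ') (C.simple i) a * yb D (C.adS K) (D.sgl θ') (C.simple i) c =
      yb D (C.adS K) (D.sgl θ') (-(C.simple i)) d *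
        (yb D (C.adS K) (D.sgl θ') (C.simple i) a *
          yb D (C.adS K) (D.sgl θ') (-(C.simple i)) b *
          yb D (C.adS K) (D.sgl θ') (C.simple i) a)) : a * b = 1 := by
  have h1 : D.r (C.simple i) ≠ C.simple i →
      C.ip (C.simple i).1 (D.r (C.simple i)).1 = 0 := by
    intro hr
    rw [D.r_simple] at hr ⊢
    rw [SLC.simple_val, SLC.simple_val, SLC.ip_single]
    exact (C.off i (D.ρ i) (fun he => hr (by rw [← he]))).resolve_right hi
  have h2 : D.r (-(C.simple i)) ≠ -(C.simple i) →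
      C.ip (-(C.simple i)).1 (D.r (-(C.simple i))).1 = 0 := by
    intro hr
    rw [D.r_neg] at hr ⊢
    rw [SLC.Root.neg_val, SLC.Root.neg_val, C.ip_neg_neg]
    exact h1 fun he => hr (by rw [he])
  have hone : ((C.simple i).1 i : K) ≠ 0 := by
    rw [SLC.simple_val, Pi.single_eq_same, Int.cast_one]
    exact one_ne_zero
  have hm := congrArg Units.val h
  simp only [Units.val_mul] at hm
  rcases FCm_core C (C.simple i) a b c d _ _ _ _ (FCm_yb C D θ' _ h1 a) (FCm_yb C D θ' _ h1 c)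
    (FCm_yb C D θ' _ h2 b) (FCm_yb C D θ' _ h2 d) hm i hone with h3 | h3
  · exfalso
    subst h3
    rw [FCm_yb_zero, one_mul, mul_eq_left] at h
    have h4 := FCm_yb C D θ' _ h1 c
    rw [h, Units.val_one] at h4
    exact hc (FCm_triv C _ c h4)
  · exact h3

end Pool.Agent.H86.UM
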