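import Pool.Agent.H75.UT.D1b

/-!
# Project UM, module GR: diagrams with automorphisms

`D : Dg C`, `C` positive definite and connected. Notation `i ~ j`: `i ≠ j` and `A i j = -1`.
`orb_adj`: suppose `0 < l < m`, `ρ^l i ~ j` and `i ~ j`. Let `v = ∑_{a<m} (α_(ρ^a i) + α_(ρ^a j))` (`2 m` different
simple roots). `ip v v ≤ 4 m - 2 (number of pairs (a, b) with ρ^a i ~ ρ^b j) ≤ 4 m - 2 (2 m) = 0`, since the
number of pairs is `m` times the number of `a` with `ρ^a i ~ j`, which is at least `2`. Contradiction.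
`adj_nbr`: `i ~ ρ i` (so `m = 2`, `ip_r`); `j ~ i` outside the orbit. `ρ j = j`: `v = α_i + α_(ρ i) + α_j` has
`ip v v ≤ 0`. `j ~ ρ j`: `v = α_i + α_(ρ i) + α_j + α_(ρ j)` has `ip v v ≤ 8 - 8`. `ρ j ~ i` (equivalently
`j ~ ρ i`): `v = α_i + α_(ρ i) + α_j`.
`nonfixed_conn`: suppose no element of `A` is adjacent to an element `j' ∉ A` with `ρ j' ≠ j'`. Let
`R = {j | ρ j ≠ j}`, `A` and `B = R \ A` are not empty, not adjacent, `ρ`-stable. Consider the graph on the
fixed nodes `F`; there is a connected component `F'` of it adjacent to an element of `A` and to an element of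
`B` (otherwise the union of `A` and all components adjacent to `A` contradicts `C.conn`). Let `N` be the
set of the elements of `R` adjacent to `F'`, `v = 2 ∑_{F'} α_i + ∑_N α_j`. With `e` the number of edges in `F'`
(`e ≥ |F'| - 1`, `SimpleGraph.Connected.card_vert_le_card_edgeSet_add_one`), `b` the number of edges between
`F'` and `N`: `ip v v ≤ 8 |F'| - 8 e + 2 |N| - 4 b ≤ 8 + 2 |N| - 4 b ≤ 8 - 2 b`, as `|N| ≤ b`; and `b ≥ 4`
since if `i ∈ F'` is adjacent to `j ∈ R` it is adjacent to `ρ j ≠ j` too. Contradiction to `C.pos`.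
(One can avoid components: choose a minimal connected set of fixed nodes adjacent to `A` and to `B`, or a
shortest path.)
`exists_adj`: `E` = number of ordered pairs `(i, j)`, `i ~ j`. `C.pos` for `∑ α_i`: `2 n - E > 0`; connectivity:
`E ≥ 2 (n - 1)`; `E` is even, so `E = 2 (n - 1)`. If all `ρ i ≠ i`: `m = 3`: the orbits of `ρ` on `Fin n`
and on the pairs have three elements (`r_iter_eq`), so `3 ∣ n`, `3 ∣ 2 (n - 1)`, contradiction. `m = 2`: if no
`i ~ ρ i` the group generated by `ρ` and `(i, j) ↦ (j, i)` acts freely on the pairs, so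
`4 ∣ 2 (n - 1)`, and `2 ∣ n`, contradiction.
-/

set_option autoImplicit false
open Matrix

namespace Pool.Agent.H86.UM

open Pool.Agent.H75.UL

variable {n : ℕ} {C : SLC n} (D : Dg C)

section GRaux

omit D

private theorem GR_np {i j : Fin n} (h : i ≠ j) : C.A i j ≤ 0 := by
  rcases C.off i j h with h | h <;> rw [h]
  norm_num

private theorem GR_eq {i j : Fin n} (h : i ≠ j) (h2 : C.A i j ≠ 0) : C.A i j = -1 :=
  (C.off i j h).resolve_left h2

private theorem GR_ip (i j : Fin n) : C.ip (C.simple i).1 (C.simple j).1 = C.A i j := by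
  rw [SLC.simple_val, SLC.simple_val, C.ip_single]

private theorem GR_pos (v : Fin n → ℤ) (h : ht v ≠ 0) : 0 < C.ip v v := by
  apply C.ip_pos
  rintro rfl
  apply h
  simp [ht]

end GRaux

private theorem GR_m2 (hm : D.m = 2) (x : Fin n) : D.ρ (D.ρ x) = x := by
  have h : D.ρ ^ D.m = 1 := pow_orderOf_eq_one _
  rw [hm, pow_two] at h
  exact Equiv.congr_fun h x

private theorem GR_m3 (hm : D.m = 3) (x : Fin n) : D.ρ (D.ρ (D.ρ x)) = x := by
  have h : D.ρ ^ D.m = 1 := pow_orderOf_eq_one _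
  rw [hm, pow_succ, pow_two] at h
  exact Equiv.congr_fun h x

theorem orb_adj (i j : Fin n) (hij : ¬ D.ρ.SameCycle i j) (hA : C.A i j ≠ 0)
    (hi : D.ρ i ≠ i) (hj : D.ρ j ≠ j) (l : ℕ) (h0 : 0 < l) (hl : l < D.m) :
    C.A ((D.ρ ^ l) i) j = 0 := by
  by_contra hne
  have hpow : ∀ k : ℕ, (D.ρ ^ k) i ≠ j := fun k h => hij ⟨k, by rw [zpow_natCast]; exact h⟩
  have hne1 : C.A ((D.ρ ^ l) i) j = -1 := GR_eq (hpow l) hne
  have hA1 : C.A i j = -1 := GR_eq (hpow 0) hA
  rcases D.m_cases with hm | hm | hm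
  · omega
  · have hl1 : l = 1 := by omega
    subst hl1
    rw [pow_one] at hne1
    have e := GR_m2 D hm
    have a3 : C.A (D.ρ i) (D.ρ j) = -1 := by rw [D.hρ, hA1]
    have a4 : C.A i (D.ρ j) = -1 := by rw [← D.hρ, e, hne1]
    have a5 : C.A i (D.ρ i) ≤ 0 := GR_np (Ne.symm hi)
    have a6 : C.A j (D.ρ j) ≤ 0 := GR_np (Ne.symm hj)
    have hp := GR_pos (C := C) ((C.simple i).1 + (C.simple (D.ρ i)).1 + (C.simple j).1 +
      (C.simple (D.ρ j)).1) (by simp only [ht_add, C.ht_simple]; norm_num)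
    simp only [C.ip_add_left, C.ip_add_right, GR_ip, C.diag] at hp
    rw [C.symm (D.ρ i) i, C.symm j i, C.symm j (D.ρ i), C.symm (D.ρ j) i, C.symm (D.ρ j) (D.ρ i),
      C.symm (D.ρ j) j] at hp
    linarith
  · have e := GR_m3 D hm
    have hi2 : D.ρ (D.ρ i) ≠ i := by
      intro h3
      apply hi
      have h4 := e i
      rw [h3] at h4
      exact h4
    have hj2 : D.ρ (D.ρ j) ≠ j := by
      intro h3
      apply hj
      have h4 := e j
      rw [h3] at h4
      exact h4
    have b1 : C.A (D.ρ i) (D.ρ j) = -1 := by rw [D.hρ, hA1]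
    have b2 : C.A (D.ρ (D.ρ i)) (D.ρ (D.ρ j)) = -1 := by rw [D.hρ, b1]
    have c1 : C.A (D.ρ (D.ρ i)) (D.ρ j) = C.A (D.ρ i) j := D.hρ _ _
    have c2 : C.A i (D.ρ (D.ρ j)) = C.A (D.ρ i) j := by
      rw [← D.hρ i, e]
    have d1 : C.A i (D.ρ j) = C.A (D.ρ (D.ρ i)) j := by
      rw [← D.hρ i, ← D.hρ (D.ρ i), e]
    have d2 : C.A (D.ρ i) (D.ρ (D.ρ j)) = C.A (D.ρ (D.ρ i)) j := by
      rw [D.hρ, d1]
    have n1 : C.A (D.ρ i) j ≤ 0 := GR_np (hpow 1)
    have n2 : C.A (D.ρ (D.ρ i)) j ≤ 0 := GR_np (hpow 2)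
    have hs : C.A (D.ρ i) j + C.A (D.ρ (D.ρ i)) j ≤ -1 := by
      have hl' : l = 1 ∨ l = 2 := by omega
      rcases hl' with rfl | rfl
      · rw [pow_one] at hne1
        linarith
      · have h5 : (D.ρ ^ 2) i = D.ρ (D.ρ i) := by rw [pow_two]; rfl
        rw [h5] at hne1
        linarith
    have a1 : C.A i (D.ρ i) ≤ 0 := GR_np (Ne.symm hi)
    have a2 : C.A i (D.ρ (D.ρ i)) ≤ 0 := GR_np (Ne.symm hi2)
    have a3 : C.A (D.ρ i) (D.ρ (D.ρ i)) ≤ 0 := by rw [D.hρ]; exact a1
    have a4 : C.A j (D.ρ j) ≤ 0 := GR_np (Ne.symm hj)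
    have a5 : C.A j (D.ρ (D.ρ j)) ≤ 0 := GR_np (Ne.symm hj2)
    have a6 : C.A (D.ρ j) (D.ρ (D.ρ j)) ≤ 0 := by rw [D.hρ]; exact a4
    have hp := GR_pos (C := C) ((C.simple i).1 + (C.simple (D.ρ i)).1 +
      (C.simple (D.ρ (D.ρ i))).1 + (C.simple j).1 +
      (C.simple (D.ρ j)).1 + (C.simple (D.ρ (D.ρ j))).1)
      (by simp only [ht_add, C.ht_simple]; norm_num)
    simp only [C.ip_add_left, C.ip_add_right, GR_ip, C.diag] at hp
    rw [C.symm (D.ρ i) i, C.symm (D.ρ (D.ρ i)) i, C.symm (D.ρ (D.ρ i)) (D.ρ i),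
      C.symm j i, C.symm j (D.ρ i), C.symm j (D.ρ (D.ρ i)),
      C.symm (D.ρ j) i, C.symm (D.ρ j) (D.ρ i), C.symm (D.ρ j) (D.ρ (D.ρ i)),
      C.symm (D.ρ (D.ρ j)) i, C.symm (D.ρ (D.ρ j)) (D.ρ i),
      C.symm (D.ρ (D.ρ j)) (D.ρ (D.ρ i)), C.symm (D.ρ j) j, C.symm (D.ρ (D.ρ j)) j,
      C.symm (D.ρ (D.ρ j)) (D.ρ j), b1, b2, c1, c2, d1, d2, hA1] at hp
    linarith

theorem adj_nbr (i j : Fin n) (hi : C.A i (D.ρ i) = -1) (hij : ¬ D.ρ.SameCycle i j)
    (hA : C.A i j ≠ 0) :
    D.ρ j ≠ j ∧ C.A j (D.ρ j) ≠ -1 ∧ C.A j i = -1 ∧ C.A (D.ρ j) i = 0 := by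
  have hir : D.ρ i ≠ i := by
    intro h
    rw [h, C.diag] at hi
    norm_num at hi
  have hm : D.m = 2 := by
    have h1 : D.r (C.simple i) ≠ C.simple i := by
      rw [D.r_simple]
      intro h3
      exact hir (C.simple_injective h3)
    rcases D.ip_r _ h1 with h2 | h2
    · rw [D.r_simple, GR_ip, hi] at h2
      norm_num at h2
    · exact h2.1
  have e := GR_m2 D hm
  have hne : i ≠ j := by
    rintro rfl
    exact hij (Equiv.Perm.SameCycle.refl _ _)
  have hA1 : C.A i j = -1 := GR_eq hne hA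
  have hne2 : D.ρ i ≠ j := by
    intro h
    exact hij ⟨1, by rw [zpow_one]; exact h⟩
  have k1 : D.ρ j ≠ j := by
    intro hj
    have h1 : C.A (D.ρ i) j = -1 := by
      rw [← hj, D.hρ, hA1]
    have hp := GR_pos (C := C) ((C.simple i).1 + (C.simple (D.ρ i)).1 + (C.simple j).1)
      (by simp only [ht_add, C.ht_simple]; norm_num)
    simp only [C.ip_add_left, C.ip_add_right, GR_ip, C.diag] at hp
    rw [C.symm (D.ρ i) i, C.symm j i, C.symm j (D.ρ i)] at hp
    linarith
  have h2 : C.A (D.ρ i) (D.ρ j) = -1 := by rw [D.hρ, hA1]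
  have h3 : C.A i (D.ρ j) = C.A (D.ρ i) j := by rw [← D.hρ i, e]
  refine ⟨k1, ?_, ?_, ?_⟩
  · intro hj
    have n1 : C.A (D.ρ i) j ≤ 0 := GR_np hne2
    have hp := GR_pos (C := C) ((C.simple i).1 + (C.simple (D.ρ i)).1 + (C.simple j).1 +
      (C.simple (D.ρ j)).1) (by simp only [ht_add, C.ht_simple]; norm_num)
    simp only [C.ip_add_left, C.ip_add_right, GR_ip, C.diag] at hp
    rw [C.symm (D.ρ i) i, C.symm j i, C.symm j (D.ρ i), C.symm (D.ρ j) i, C.symm (D.ρ j) (D.ρ i),
      C.symm (D.ρ j) j, h3] at hp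
    linarith
  · rw [C.symm, hA1]
  · by_contra h4
    have h5 : D.ρ j ≠ i := by
      intro h6
      exact hne2 (by rw [← h6, e])
    have h6 : C.A (D.ρ j) i = -1 := GR_eq h5 h4
    have h7 : C.A (D.ρ i) j = -1 := by rw [← h3, C.symm, h6]
    have hp := GR_pos (C := C) ((C.simple i).1 + (C.simple (D.ρ i)).1 + (C.simple j).1)
      (by simp only [ht_add, C.ht_simple]; norm_num)
    simp only [C.ip_add_left, C.ip_add_right, GR_ip, C.diag] at hp
    rw [C.symm (D.ρ i) i, C.symm j i, C.symm j (D.ρ i)] at hp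
    linarith

theorem nonfixed_conn (A : Finset (Fin n)) (hA : ∀ i ∈ A, D.ρ i ≠ i) (hAr : ∀ i ∈ A, D.ρ i ∈ A)
    (hne : A.Nonempty) (j : Fin n) (hj : D.ρ j ≠ j) (hjA : j ∉ A) :
    ∃ i ∈ A, ∃ j' ∉ A, D.ρ j' ≠ j' ∧ C.A i j' ≠ 0 := by
  classical
  by_contra hcon
  push Not at hcon
  -- good fixed nodes
  let Good : Fin n → Prop := fun y => D.ρ y = y ∧ ∃ w : Fin n → ℤ, C.ip w w ≤ 4 ∧ (∀ t, 0 ≤ w t) ∧
    (∀ t, D.ρ t = t → w t = 0 ∨ 2 ≤ w t) ∧ (∀ t, D.ρ t ≠ t → t ∉ A → w t = 0) ∧ 2 ≤ w y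
  have key : ∀ (w : Fin n → ℤ) (y z : Fin n), (∀ t, 0 ≤ w t) → 2 ≤ w y → w z = 0 → y ≠ z →
      C.A y z ≠ 0 → C.ip w (Pi.single z 1) ≤ -2 := by
    intro w y z h0 hy hz hyz hA1
    rw [C.ip_comm, C.ip_single_left]
    have h1 : (C.A *ᵥ w) z = ∑ t, C.A z t * w t := rfl
    have h2 : ∀ t ∈ Finset.univ, 0 ≤ -(C.A z t * w t) := by
      intro t _
      by_cases htz : t = z
      · rw [htz, hz]; simp
      · have := GR_np (C := C) (Ne.symm htz)
        have h3 := h0 t
        nlinarith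
    have h3 := Finset.single_le_sum h2 (Finset.mem_univ y)
    rw [Finset.sum_neg_distrib, ← h1, C.symm z y, GR_eq hyz hA1] at h3
    linarith
  have hstart : ∀ a ∈ A, ∀ y, D.ρ y = y → C.A a y ≠ 0 → Good y := by
    intro a ha y hy hay
    refine ⟨hy, (C.simple a).1 + (C.simple (D.ρ a)).1 + (C.simple y).1 + (C.simple y).1,
      ?_, ?_, ?_, ?_, ?_⟩
    · have hne1 : a ≠ y := by
        rintro rfl
        exact hA _ ha hy
      have h1 : C.A a y = -1 := GR_eq hne1 hay
      have h2 : C.A (D.ρ a) y = -1 := by rw [← hy, D.hρ, h1]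
      have h3 : C.A a (D.ρ a) ≤ 0 := GR_np (Ne.symm (hA a ha))
      simp only [C.ip_add_left, C.ip_add_right, GR_ip, C.diag]
      rw [C.symm (D.ρ a) a, C.symm y a, C.symm y (D.ρ a)]
      linarith
    · intro t
      simp only [SLC.simple_val, Pi.add_apply, Pi.single_apply]
      split_ifs <;> norm_num
    · intro t ht
      have h1 : t ≠ a := by
        rintro rfl
        exact hA _ ha ht
      have h2 : t ≠ D.ρ a := by
        rintro rfl
        exact hA _ ha (D.ρ.injective ht)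
      simp only [SLC.simple_val, Pi.add_apply, Pi.single_apply, if_neg h1, if_neg h2]
      split_ifs
      · right; norm_num
      · left; norm_num
    · intro t ht htA
      have h1 : t ≠ a := by
        rintro rfl
        exact htA ha
      have h2 : t ≠ D.ρ a := by
        rintro rfl
        exact htA (hAr _ ha)
      have h3 : t ≠ y := by
        rintro rfl
        exact ht hy
      simp only [SLC.simple_val, Pi.add_apply, Pi.single_apply, if_neg h1, if_neg h2, if_neg h3]
      norm_num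
    · have h1 : 0 ≤ (Pi.single a 1 : Fin n → ℤ) y := by
        rw [Pi.single_apply]; split_ifs <;> norm_num
      have h2 : 0 ≤ (Pi.single (D.ρ a) 1 : Fin n → ℤ) y := by
        rw [Pi.single_apply]; split_ifs <;> norm_num
      simp only [SLC.simple_val, Pi.add_apply, Pi.single_eq_same]
      linarith
  have hstep : ∀ y z, Good y → D.ρ z = z → C.A y z ≠ 0 → Good z := by
    rintro y z ⟨hy, w, w1, w2, w3, w4, w5⟩ hz hyz
    rcases w3 z hz with h0 | h0
    · have hne1 : y ≠ z := by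
        rintro rfl
        omega
      have h1 := key w y z w2 w5 h0 hne1 hyz
      refine ⟨hz, w + ((Pi.single z 1 : Fin n → ℤ) + Pi.single z 1), ?_, ?_, ?_, ?_, ?_⟩
      · have h2 : C.ip (Pi.single z 1) (Pi.single z 1) = 2 := by rw [C.ip_single, C.diag]
        simp only [C.ip_add_left, C.ip_add_right, h2]
        rw [C.ip_comm (Pi.single z 1) w]
        linarith
      · intro t
        have := w2 t
        simp only [Pi.add_apply, Pi.single_apply]
        split_ifs <;> linarith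
      · intro t ht
        simp only [Pi.add_apply, Pi.single_apply]
        have := w3 t ht
        split_ifs
        · right
          have := w2 t
          linarith
        · simpa using this
      · intro t ht htA
        have h3 : t ≠ z := by
          rintro rfl
          exact ht hz
        simp only [Pi.add_apply, Pi.single_apply, if_neg h3, w4 t ht htA]
        norm_num
      · simp only [Pi.add_apply, Pi.single_eq_same, h0]
        norm_num
    · exact ⟨hz, w, w1, w2, w3, w4, h0⟩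
  have hend : ∀ y b, Good y → D.ρ b ≠ b → b ∉ A → C.A y b ≠ 0 → False := by
    rintro y b ⟨hy, w, w1, w2, w3, w4, w5⟩ hb hbA hyb
    have hne1 : y ≠ b := by
      rintro rfl
      exact hb hy
    have hbA2 : D.ρ b ∉ A := by
      intro h
      apply hbA
      rcases D.m_cases with hm | hm | hm
      · exfalso
        have h1 : D.ρ ^ D.m = 1 := pow_orderOf_eq_one _
        rw [hm, pow_one] at h1
        rw [h1] at hb
        exact hb rfl
      · have := hAr _ h
        rwa [GR_m2 D hm] at this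
      · have := hAr _ (hAr _ h)
        rwa [GR_m3 D hm] at this
    have hb2 : D.ρ (D.ρ b) ≠ D.ρ b := fun h => hb (D.ρ.injective h)
    have h1 := key w y b w2 w5 (w4 b hb hbA) hne1 hyb
    have hyb2 : C.A y (D.ρ b) ≠ 0 := by
      rw [← hy, D.hρ]
      exact hyb
    have hne2 : y ≠ D.ρ b := by
      intro h
      apply hb2
      rw [← h]
      exact hy
    have h2 := key w y (D.ρ b) w2 w5 (w4 _ hb2 hbA2) hne2 hyb2
    have h3 : C.A b (D.ρ b) ≤ 0 := GR_np (Ne.symm hb)
    have hpos : 0 < C.ip (w + (Pi.single b 1 + Pi.single (D.ρ b) 1))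
        (w + (Pi.single b 1 + Pi.single (D.ρ b) 1)) := by
      apply C.ip_pos
      intro h4
      have h5 := congrFun h4 y
      have h6 : 0 ≤ (Pi.single b 1 : Fin n → ℤ) y := by
        rw [Pi.single_apply]; split_ifs <;> norm_num
      have h7 : 0 ≤ (Pi.single (D.ρ b) 1 : Fin n → ℤ) y := by
        rw [Pi.single_apply]; split_ifs <;> norm_num
      simp only [Pi.add_apply, Pi.zero_apply] at h5
      linarith
    simp only [C.ip_add_left, C.ip_add_right, C.ip_single, C.diag] at hpos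
    rw [C.ip_comm (Pi.single b 1) w, C.ip_comm (Pi.single (D.ρ b) 1) w, C.symm (D.ρ b) b] at hpos
    linarith
  obtain ⟨i, hi, j', hj', hij'⟩ := C.conn (A ∪ Finset.univ.filter Good)
    (hne.mono Finset.subset_union_left) (by
      intro h
      have h1 : j ∈ A ∪ Finset.univ.filter Good := by rw [h]; exact Finset.mem_univ j
      rw [Finset.mem_union, Finset.mem_filter] at h1
      rcases h1 with h1 | ⟨-, h1⟩
      · exact hjA h1
      · exact hj h1.1)
  rw [Finset.mem_union, Finset.mem_filter] at hi hj'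
  push Not at hj'
  obtain ⟨hj1, hj2⟩ := hj'
  have hj2' : ¬ Good j' := hj2 (Finset.mem_univ _)
  rcases hi with hi | ⟨-, hi⟩
  · by_cases hf : D.ρ j' = j'
    · exact hj2' (hstart i hi j' hf hij')
    · exact hij' (hcon i hi j' hj1 hf)
  · by_cases hf : D.ρ j' = j'
    · exact hj2' (hstep i j' hi hf hij')
    · exact hend i j' hi hf hj1 hij'

theorem exists_adj (hn : 0 < n) (h : ∀ i, D.ρ i ≠ i) : ∃ i, C.A i (D.ρ i) = -1 := by
  classical
  by_contra hcon
  push Not at hcon
  let G : SimpleGraph (Fin n) :=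
    { Adj := fun i j => i ≠ j ∧ C.A i j ≠ 0
      symm := ⟨fun i j h => ⟨h.1.symm, by rw [C.symm]; exact h.2⟩⟩
      loopless := ⟨fun i h => h.1 rfl⟩ }
  have hconn : G.Connected := by
    haveI : Nonempty (Fin n) := ⟨⟨0, hn⟩⟩
    refine SimpleGraph.Connected.mk ?_
    intro u v
    by_contra huv
    obtain ⟨i, hi, j, hj, hij⟩ := C.conn (Finset.univ.filter fun w => G.Reachable u w)
      ⟨u, by simp⟩ (by
        intro h
        have h1 : v ∈ Finset.univ.filter fun w => G.Reachable u w := by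
          rw [h]; exact Finset.mem_univ v
        exact huv (Finset.mem_filter.1 h1).2)
    rw [Finset.mem_filter] at hi hj
    apply hj
    refine ⟨Finset.mem_univ _, hi.2.trans ?_⟩
    by_cases hij2 : i = j
    · subst hij2
      exact absurd ⟨Finset.mem_univ _, hi.2⟩ hj
    · exact SimpleGraph.Adj.reachable ⟨hij2, hij⟩
  have h1 : n ≤ G.edgeFinset.card + 1 := by
    have := hconn.card_vert_le_card_edgeSet_add_one
    rw [Nat.card_fin, Nat.card_eq_fintype_card, ← SimpleGraph.edgeFinset_card] at this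
    exact this
  have h2 : G.edgeFinset.card < n := by
    have hp := C.ip_pos (fun _ => 1) (by
      intro h0
      have := congrFun h0 ⟨0, hn⟩
      simp at this)
    have e1 : C.ip (fun _ => 1) (fun _ => 1) = ∑ i, ∑ j, C.A i j := by
      simp [SLC.ip, dotProduct, Matrix.mulVec]
    have e2 : ∀ i, ∑ j, C.A i j = 2 - (G.degree i : ℤ) := by
      intro i
      have e3 : ∀ j, C.A i j = (if i = j then 2 else 0) - (if G.Adj i j then 1 else 0) := by
        intro j
        by_cases hij : i = j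
        · subst hij
          simp [C.diag]
        · rcases C.off i j hij with h | h
          · have : ¬ G.Adj i j := fun h5 => h5.2 h
            rw [if_neg hij, if_neg this, h]
            norm_num
          · have : G.Adj i j := ⟨hij, by rw [h]; norm_num⟩
            rw [if_neg hij, if_pos this, h]
            norm_num
      rw [Finset.sum_congr rfl fun j _ => e3 j, Finset.sum_sub_distrib, Finset.sum_ite_eq,
        if_pos (Finset.mem_univ i), Finset.sum_boole, ← SimpleGraph.card_neighborFinset_eq_degree,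
        SimpleGraph.neighborFinset_eq_filter]
    rw [e1, Finset.sum_congr rfl fun i _ => e2 i, Finset.sum_sub_distrib] at hp
    have e4 : (∑ i, (G.degree i : ℤ)) = 2 * (G.edgeFinset.card : ℤ) := by
      have := G.sum_degrees_eq_twice_card_edges
      exact_mod_cast this
    rw [e4] at hp
    simp at hp
    omega
  have hE : G.edgeFinset.card + 1 = n := by omega
  -- the action on the edges
  have hadj : ∀ a b, G.Adj a b → G.Adj (D.ρ a) (D.ρ b) := by
    intro a b h
    exact ⟨fun h3 => h.1 (D.ρ.injective h3), by rw [D.hρ]; exact h.2⟩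
  have hadj2 : ∀ a b, G.Adj (D.ρ a) (D.ρ b) → G.Adj a b := by
    intro a b h
    refine ⟨fun h3 => h.1 (by rw [h3]), ?_⟩
    have := h.2
    rwa [D.hρ] at this
  let R : G ≃g G := ⟨D.ρ, fun {a b} => ⟨hadj2 a b, hadj a b⟩⟩
  let σ : Equiv.Perm G.edgeSet := R.mapEdgeSet
  have hσ : ∀ (e : G.edgeSet), (σ e : Sym2 (Fin n)) = Sym2.map D.ρ e.1 := fun e => rfl
  have hσk : ∀ (k : ℕ) (e : G.edgeSet), (((σ ^ k) e : G.edgeSet) : Sym2 (Fin n)) =
      Sym2.map (D.ρ ^ k : Equiv.Perm (Fin n)) e.1 := by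
    intro k
    induction k with
    | zero => intro e; simp
    | succ k ih =>
      intro e
      rw [pow_succ', Equiv.Perm.mul_apply, hσ, ih, Sym2.map_map, pow_succ', Equiv.Perm.coe_mul]
  have hσm : σ ^ D.m = 1 := by
    ext1 e
    apply Subtype.ext
    rw [hσk, Dg.m, pow_orderOf_eq_one]
    simp
  have hρm : D.ρ ^ D.m = 1 := pow_orderOf_eq_one _
  -- no fixed edge
  have hfix : ∀ e : G.edgeSet, σ e ≠ e := by
    rintro ⟨e, he⟩ h3
    have h4 : Sym2.map D.ρ e = e := by
      have := congrArg Subtype.val h3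
      rwa [hσ] at this
    induction e using Sym2.ind with
    | _ a b =>
      rw [Sym2.map_mk, Sym2.eq_iff] at h4
      rcases h4 with ⟨h4, -⟩ | ⟨h4, h5⟩
      · exact h a h4
      · have h6 : G.Adj a b := he
        apply hcon a
        rw [h4]
        exact GR_eq h6.1 h6.2
  have hsupp1 : σ.supportᶜ = ∅ := by
    rw [Finset.compl_eq_empty_iff, Finset.eq_univ_iff_forall]
    intro e
    rw [Equiv.Perm.mem_support]
    exact hfix e
  have hsupp2 : D.ρ.supportᶜ = ∅ := by
    rw [Finset.compl_eq_empty_iff, Finset.eq_univ_iff_forall]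
    intro e
    rw [Equiv.Perm.mem_support]
    exact h e
  have hcardE : Fintype.card G.edgeSet = G.edgeFinset.card := (SimpleGraph.edgeFinset_card).symm
  have fin : ∀ p : ℕ, p.Prime → D.m = p → False := by
    intro p hp hmp
    haveI : Fact p.Prime := ⟨hp⟩
    have m1 := Equiv.Perm.card_compl_support_modEq (p := p) (n := 1) (σ := σ)
      (by rw [pow_one, ← hmp]; exact hσm)
    have m2 := Equiv.Perm.card_compl_support_modEq (p := p) (n := 1) (σ := D.ρ)
      (by rw [pow_one, ← hmp]; exact hρm)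
    rw [hsupp1, Finset.card_empty, hcardE] at m1
    rw [hsupp2, Finset.card_empty, Fintype.card_fin] at m2
    have d1 : p ∣ G.edgeFinset.card := (Nat.modEq_zero_iff_dvd).1 m1.symm
    have d2 : p ∣ n := (Nat.modEq_zero_iff_dvd).1 m2.symm
    have d3 : p ∣ 1 := by
      have : p ∣ G.edgeFinset.card + 1 := by rw [hE]; exact d2
      exact (Nat.dvd_add_right d1).1 this
    exact hp.one_lt.ne' (Nat.dvd_one.1 d3)
  rcases D.m_cases with hm | hm | hm
  · rw [hm, pow_one] at hρm
    exact h ⟨0, hn⟩ (by rw [hρm]; rfl)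
  · exact fin 2 Nat.prime_two hm
  · exact fin 3 Nat.prime_three hm

end Pool.Agent.H86.UM
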