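import Pool.Agent.H86.UM.FCa
import Pool.Agent.H86.UM.FCf
import Pool.Agent.H86.UM.FCm
import Pool.Agent.H86.UM.A2
import Pool.Agent.H86.UM.GR

/-!
# Project UM, module AD: the adjacent orbit

`C.A i (ρ i) = -1`, so `m = 2` (`ip_r`), `γ = α_i + α_(ρ i)` is a root, `r γ = γ`, `sg γ = -1` (`sg_adj`),
`X = fixX (simple i)` consists of `x = x_i(t) s(x_i(t)) x_γ(v)`, `v + θ v = - eps * t * θ t`,
`Z = ZZ (simple i) ∩ X = {x_γ(v) : v + θ v = 0} = [X, X]` (`fixX_form`, `fixX_exists`, `fixX_xi_zero`), and the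
same in the target.
`adj_tor0`: `exists_tor` with `v = α_i + α_(ρ i)` (`ip v α_i = 2 - 1 = 1`), `SR_T`, `xg_inj`.
`adj_tor`: if all simple roots are in the orbit of `i`: `A2_tor`. Otherwise by `C.conn` (for the orbit of `i`)
there is `j` outside adjacent to an element of the orbit; replacing `j` by `ρ j`, `A i j ≠ 0`; by `adj_nbr`
`ρ j ≠ j`, `A j (ρ j) ≠ -1`, `A j i = -1`, `A (ρ j) i = 0`. `exists_h` for `β = simple j` and `c = t⁻¹` with
`θ t ≠ t` (exists by `hB`: otherwise `v + θ v = 2 v` is onto and, if `2 = 0`, zero; if `2 ≠ 0` use `hA`)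
acts on `x_(α_i)` by `c ^ (-1) = t`.
`exists_RA`: let `f t = xi i (Ψ x)` for `x ∈ X` with `xi i (p x) = t`; well defined and additive: if
`xi i (p x) = xi i (p x')` then `x⁻¹ x' ∈ [X, X]` (`fixX_xi_zero`), and `Ψ` maps commutators of elements of
`X` to commutators of elements of `fixX' (simple i)`, where `xi i` is additive. `f ≠ 0` by `Pin_nonvan`. For
`h ∈ S.T ⊓ Eg`: `f (chi(p h) t) = chi(Ψ h) f t` (`Pin_xi`, `xi_conj`). `semilin` with `adj_tor0`, `adj_tor`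
gives `f = c φ`. Then `φ θ = θ' φ`: for `a, b ∈ k` choose `x_a, x_b ∈ X`; `[x_a, x_b] = x_γ(± (a θ b - b θ a))`
(`comm_add`, `ip` and `eps_swap`), and `Ψ [x_a, x_b] = x_γ(± (f_a θ'(f_b) - f_b θ'(f_a)))` with the same sign
(`xi (ρ i) (Ψ x) = θ' (xi i (Ψ x))` by `Pin.fix`, `xi_sgl`). So with `ψ t = θ' (φ t)` the hypothesis `h` of
`twist_eq` holds (divide by `c θ' c`), and `hne` holds since `Ψ` is injective on `[X, X]`, which is not trivial.
So `θ' (φ (θ t)) = φ t`, and `θ' ∘ θ' = 1` (`Pin.hθ`, `m = 2`).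
`adj_eq`: let `Φ x = tad cc * mp φ (p x) * (tad cc)⁻¹`. For `x ∈ X`, `Φ x` and `Ψ x` are in `fixX' (simple i)`
(`sgl_mp`, `sgl_tad`-like calculation on the generators; or show only that both are in `XO'`), with the same
coordinates `xi i`, `xi (ρ i)`; so `Ψ x = Φ x * x_γ(ζ(x))`; as `x_γ(..)` is central in `XO'`, `ζ` is additive on
`X`, zero on `[X, X]` (both `Ψ`, `Φ` are homomorphisms and `[Ψ x, Ψ y] = [Φ x, Φ y]`), so a function of
`t = xi i (p x)`; conjugation with `h ∈ S.T ⊓ Eg`, `χ = chi (p h) (simple i)`: `Ψ h ∈ T` (`Pin_T`) has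
`chi (Ψ h) (simple i) = φ χ`, `chi (Ψ h) (simple (ρ i)) = θ' (φ χ) = φ (θ χ)`, so `ζ (χ t) = φ (χ θ χ) ζ t`;
`zeta_zero` with `adj_tor0` and `adj_tor` gives `ζ = 0`. Negative roots: `e ≠ 0`, `θ e = -e` (`hA`);
`n = nn S.x γ e = x_γ(e) x_(-γ)(e⁻¹) x_γ(e) ∈ Eg`. `Ψ x_γ(e) = Φ x_γ(e) = x_γ(a)`; `Ψ x_(-γ)(e⁻¹)` is in
`fixX' (- simple i)`, and central in it..., it is `x_(-γ)(b)` as `x_(-γ)(e⁻¹)` is a commutator of elements of
`fixX (- simple i)`; from `nn γ e * x_γ(u) * (nn γ e)⁻¹ = x_(-γ)(e⁻² u)` (for `u` with `θ u = -u`) and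
`rank_mat'` (`c ≠ 0` by `Pin_inj`) `a b = 1`. So `Ψ n = nn γ a = Φ n`. Every element of `fixX (- simple i)` is
`n x n⁻¹` with `x ∈ X` (`n` acts by `reflE γ`, `α_i ↦ - α_(ρ i)`), so `Ψ = Φ` there too.
-/

set_option autoImplicit false
open Matrix

namespace Pool.Agent.H86.UM

open Pool.Agent.H75.UL
open scoped commutatorElement

section hei
variable {n : ℕ} {C : SLC n} {K : Type*} [Field K] {H : Type*} [Group H] (S : StSys C K H)

/-- The product `x_α(a) x_β(b) x_γ(c)`. -/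
def AD_h (α β γ : C.Root) (a b c : K) : H := S.x α a * S.x β b * S.x γ c

theorem AD_c1 (α β γ : C.Root) (hγ : γ.1 = α.1 + β.1) (c a : K) :
    S.x γ c * S.x α a = S.x α a * S.x γ c := by
  apply S.comm
  have h1 := C.ip_add_root α β γ hγ
  rw [hγ, C.ip_add_left, α.2, C.ip_comm, h1]
  norm_num

theorem AD_c2 (α β γ : C.Root) (hγ : γ.1 = α.1 + β.1) (c b : K) :
    S.x γ c * S.x β b = S.x β b * S.x γ c :=
  AD_c1 S β α γ (by rw [hγ, add_comm]) c b

theorem AD_c3 (α β γ : C.Root) (hγ : γ.1 = α.1 + β.1) (b a : K) :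
    S.x β b * S.x α a = S.x α a * S.x β b * S.x γ ((C.eps β.1 α.1 : K) * b * a) := by
  have h := S.comm_add β α γ b a (by rw [hγ, add_comm])
  have h1 : S.x β b * S.x α a = S.x γ ((C.eps β.1 α.1 : K) * b * a) * (S.x α a * S.x β b) := by
    rw [← h]
    group
  have e1 := AD_c1 S α β γ hγ ((C.eps β.1 α.1 : K) * b * a) a
  have e2 := AD_c2 S α β γ hγ ((C.eps β.1 α.1 : K) * b * a) b
  rw [h1]
  generalize S.x γ ((C.eps β.1 α.1 : K) * b * a) = z at e1 e2
  rw [← mul_assoc, e1, mul_assoc, e2, mul_assoc]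

theorem AD_h_mul (α β γ : C.Root) (hγ : γ.1 = α.1 + β.1) (a b c a' b' c' : K) :
    AD_h S α β γ a b c * AD_h S α β γ a' b' c' =
      AD_h S α β γ (a + a') (b + b') (c + c' + (C.eps β.1 α.1 : K) * b * a') := by
  unfold AD_h
  have e1 : S.x γ c * S.x α a' = S.x α a' * S.x γ c := AD_c1 S α β γ hγ c a'
  have e2 : S.x γ c * S.x β b' = S.x β b' * S.x γ c := AD_c2 S α β γ hγ c b'
  have e3 := AD_c3 S α β γ hγ b a'
  have e4 := AD_c2 S α β γ hγ ((C.eps β.1 α.1 : K) * b * a') b'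
  rw [S.map_add, S.map_add, S.map_add, S.map_add]
  calc S.x α a * S.x β b * S.x γ c * (S.x α a' * S.x β b' * S.x γ c')
      = S.x α a * S.x β b * (S.x γ c * S.x α a') * S.x β b' * S.x γ c' := by
        simp only [mul_assoc]
    _ = S.x α a * (S.x β b * S.x α a') * (S.x γ c * S.x β b') * S.x γ c' := by
        rw [e1]; simp only [mul_assoc]
    _ = S.x α a * S.x α a' * S.x β b * (S.x γ ((C.eps β.1 α.1 : K) * b * a') * S.x β b') *
          S.x γ c * S.x γ c' := by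
        rw [e3, e2]; simp only [mul_assoc]
    _ = S.x α a * S.x α a' * (S.x β b * S.x β b') *
          (S.x γ ((C.eps β.1 α.1 : K) * b * a') * (S.x γ c * S.x γ c')) := by
        rw [e4]; simp only [mul_assoc]
    _ = _ := by
        have e5 : S.x γ ((C.eps β.1 α.1 : K) * b * a') * (S.x γ c * S.x γ c') =
            S.x γ c * S.x γ c' * S.x γ ((C.eps β.1 α.1 : K) * b * a') := by
          rw [← S.map_add, ← S.map_add, ← S.map_add]
          congr 1
          ring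
        rw [e5]

theorem AD_h_one (α β γ : C.Root) : AD_h S α β γ 0 0 0 = 1 := by
  unfold AD_h
  rw [S.x_zero, S.x_zero, S.x_zero, one_mul, one_mul]

theorem AD_h_c (α β γ : C.Root) (c : K) : AD_h S α β γ 0 0 c = S.x γ c := by
  unfold AD_h
  rw [S.x_zero, S.x_zero, one_mul, one_mul]

theorem AD_h_inv (α β γ : C.Root) (hγ : γ.1 = α.1 + β.1) (a b c : K) :
    (AD_h S α β γ a b c)⁻¹ =
      AD_h S α β γ (-a) (-b) (-c + (C.eps β.1 α.1 : K) * b * a) := by
  apply inv_eq_of_mul_eq_one_right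
  rw [AD_h_mul S α β γ hγ, ← AD_h_one S α β γ]
  congr 1 <;> ring

theorem AD_h_comm (α β γ : C.Root) (hγ : γ.1 = α.1 + β.1) (a b c a' b' c' : K) :
    ⁅AD_h S α β γ a b c, AD_h S α β γ a' b' c'⁆ =
      S.x γ ((C.eps β.1 α.1 : K) * (b * a' - b' * a)) := by
  rw [commutatorElement_def, mul_inv_eq_iff_eq_mul, mul_inv_eq_iff_eq_mul, ← AD_h_c S α β γ,
    AD_h_mul S α β γ hγ, AD_h_mul S α β γ hγ, AD_h_mul S α β γ hγ]
  congr 1 <;> ring

/-- The subgroup of all `x_α(a) x_β(b) x_γ(c)`. -/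
def AD_H (α β γ : C.Root) (hγ : γ.1 = α.1 + β.1) : Subgroup H where
  carrier := {g | ∃ a b c, g = AD_h S α β γ a b c}
  mul_mem' := by
    rintro _ _ ⟨a, b, c, rfl⟩ ⟨a', b', c', rfl⟩
    exact ⟨_, _, _, AD_h_mul S α β γ hγ a b c a' b' c'⟩
  one_mem' := ⟨0, 0, 0, (AD_h_one S α β γ).symm⟩
  inv_mem' := by
    rintro _ ⟨a, b, c, rfl⟩
    exact ⟨_, _, _, AD_h_inv S α β γ hγ a b c⟩

/-- The subgroup of all `x_γ(c)`. -/
def AD_Z (γ : C.Root) : Subgroup H where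
  carrier := {g | ∃ c, g = S.x γ c}
  mul_mem' := by
    rintro _ _ ⟨c, rfl⟩ ⟨c', rfl⟩
    exact ⟨c + c', (S.map_add γ c c').symm⟩
  one_mem' := ⟨0, (S.x_zero γ).symm⟩
  inv_mem' := by
    rintro _ ⟨c, rfl⟩
    exact ⟨-c, (S.x_neg γ c).symm⟩

theorem AD_H_comm_le (α β γ : C.Root) (hγ : γ.1 = α.1 + β.1) :
    ⁅AD_H S α β γ hγ, AD_H S α β γ hγ⁆ ≤ AD_Z S γ := by
  rw [Subgroup.commutator_le]
  rintro _ ⟨a, b, c, rfl⟩ _ ⟨a', b', c', rfl⟩
  exact ⟨_, AD_h_comm S α β γ hγ a b c a' b' c'⟩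

/-- the root element of `γ` is central -/
theorem AD_h_cent (α β γ : C.Root) (hγ : γ.1 = α.1 + β.1) (a b c z : K) :
    S.x γ z * AD_h S α β γ a b c = AD_h S α β γ a b c * S.x γ z := by
  rw [← AD_h_c S α β γ z, AD_h_mul S α β γ hγ, AD_h_mul S α β γ hγ]
  congr 1 <;> ring

theorem AD_h_mul_z (α β γ : C.Root) (a b c z : K) :
    AD_h S α β γ a b c * S.x γ z = AD_h S α β γ a b (c + z) := by
  unfold AD_h
  rw [S.map_add, mul_assoc _ (S.x γ c)]

end hei

/-- Data of an adjacent orbit. -/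
structure AD_c {n : ℕ} {C : SLC n} (D : Dg C) (β β' γ : C.Root) : Prop where
  m2 : D.m = 2
  ne : β' ≠ β
  r1 : D.r β = β'
  r2 : D.r β' = β
  hγ : γ.1 = β.1 + β'.1
  r3 : D.r γ = γ
  s1 : D.sg β = 1
  s2 : D.sg β' = 1
  s3 : D.sg γ = -1

theorem AD_c.neg {n : ℕ} {C : SLC n} {D : Dg C} {β β' γ : C.Root} (h : AD_c D β β' γ) :
    AD_c D (-β) (-β') (-γ) where
  m2 := h.m2
  ne := fun e => h.ne (by
    apply SLC.Root.ext
    have := congrArg (fun δ : C.Root => -δ.1) e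
    simpa using this)
  r1 := by rw [D.r_neg, h.r1]
  r2 := by rw [D.r_neg, h.r2]
  hγ := by
    rw [SLC.Root.neg_val, SLC.Root.neg_val, SLC.Root.neg_val, h.hγ, neg_add]
  r3 := by rw [D.r_neg, h.r3]
  s1 := by rw [D.sg_neg, h.s1]
  s2 := by rw [D.sg_neg, h.s2]
  s3 := by rw [D.sg_neg, h.s3]

section ctx
variable {n : ℕ} {C : SLC n} (D : Dg C)

theorem AD_c_exists (i : Fin n) (hi : C.A i (D.ρ i) = -1) :
    ∃ γ, AD_c D (C.simple i) (C.simple (D.ρ i)) γ := by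
  have hne : D.ρ i ≠ i := by
    intro h
    rw [h, C.diag] at hi
    norm_num at hi
  have hr : D.r (C.simple i) ≠ C.simple i := by
    rw [D.r_simple]
    exact fun h => hne (C.simple_injective h)
  have hip : C.ip (C.simple i).1 (D.r (C.simple i)).1 = -1 := by
    rw [D.r_simple, C.simple_val, C.simple_val, C.ip_single, hi]
  have hm : D.m = 2 := by
    rcases D.ip_r _ hr with h | h
    · rw [hip] at h
      norm_num at h
    · exact h.1
  have hn : C.ip ((C.simple i).1 + (C.simple (D.ρ i)).1)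
      ((C.simple i).1 + (C.simple (D.ρ i)).1) = 2 := by
    rw [D.r_simple] at hip
    rw [C.ip_add_left, C.ip_add_right, C.ip_add_right, (C.simple i).2,
      (C.simple (D.ρ i)).2, C.ip_comm (C.simple (D.ρ i)).1, hip]
    norm_num
  have hadj := D.sg_adj (C.simple i) ⟨_, hn⟩ hr (by rw [D.r_simple])
  refine ⟨⟨_, hn⟩, hm, fun h => hne (C.simple_injective h), D.r_simple i, ?_, rfl, hadj.1,
    D.sg_simple i, D.sg_simple _, hadj.2⟩
  have h2 := D.r_m (C.simple i)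
  rw [hm] at h2
  rw [← D.r_simple]
  exact h2

variable {D}

theorem AD_inO {β β' γ : C.Root} (h : AD_c D β β' γ) (δ : C.Root) :
    D.inO β δ ↔ δ = β ∨ δ = β' ∨ δ = γ := by
  constructor
  · rintro (⟨l, hl⟩ | hl)
    · have : ∀ l : ℕ, D.r^[l] β = β ∨ D.r^[l] β = β' := by
        intro l
        induction l with
        | zero => left; rfl
        | succ l ih =>
          rw [Function.iterate_succ_apply']
          rcases ih with e | e
          · right; rw [e, h.r1]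
          · left; rw [e, h.r2]
      rcases this l with e | e
      · left; rw [hl, e]
      · right; left; rw [hl, e]
    · right; right
      apply SLC.Root.ext
      rw [hl, h.r1, h.hγ]
  · rintro (e | e | e)
    · exact Or.inl ⟨0, e⟩
    · exact Or.inl ⟨1, by rw [e, ← h.r1]; rfl⟩
    · right; rw [e, h.hγ, h.r1]

theorem AD_XO {K : Type*} [Field K] {H : Type*} [Group H] (S : StSys C K H) {β β' γ : C.Root}
    (h : AD_c D β β' γ) : XO D S β = AD_H S β β' γ h.hγ := by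
  apply le_antisymm
  · unfold XO
    rw [Subgroup.closure_le]
    rintro g ⟨δ, t, hδ, rfl⟩
    rw [AD_inO h] at hδ
    rcases hδ with e | e | e
    · refine ⟨t, 0, 0, ?_⟩
      unfold AD_h
      rw [e, S.x_zero, S.x_zero, mul_one, mul_one]
    · refine ⟨0, t, 0, ?_⟩
      unfold AD_h
      rw [e, S.x_zero, S.x_zero, mul_one, one_mul]
    · refine ⟨0, 0, t, ?_⟩
      rw [e, AD_h_c]
  · rintro _ ⟨a, b, c, rfl⟩
    refine mul_mem (mul_mem ?_ ?_) ?_
    · exact Subgroup.subset_closure ⟨β, a, (AD_inO h β).2 (Or.inl rfl), rfl⟩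
    · exact Subgroup.subset_closure ⟨β', b, (AD_inO h β').2 (Or.inr (Or.inl rfl)), rfl⟩
    · exact Subgroup.subset_closure ⟨γ, c, (AD_inO h γ).2 (Or.inr (Or.inr rfl)), rfl⟩

theorem AD_sig {K : Type*} [Field K] {H : Type*} [Group H] {S : StSys C K H} {s : H →* H}
    {θ : K ≃+* K} (hs : IsSig D θ S s) {β β' γ : C.Root}
    (h : AD_c D β β' γ) (a b c : K) : s (AD_h S β β' γ a b c) =
      AD_h S β β' γ (θ b) (θ a) (-θ c + (C.eps β'.1 β.1 : K) * θ a * θ b) := by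
  have e1 : s (AD_h S β β' γ a b c) = S.x β' (θ a) * S.x β (θ b) * S.x γ (-θ c) := by
    unfold AD_h
    rw [map_mul, map_mul, hs, hs, hs, h.r1, h.r2, h.r3, h.s1, h.s2, h.s3]
    simp
  rw [e1, AD_c3 S β β' γ h.hγ, mul_assoc, ← S.map_add]
  unfold AD_h
  congr 2
  ring

end ctx


section tgt
variable {n : ℕ} {C : SLC n} {D : Dg C} {K : Type*} [Field K]

theorem AD_eps_sq (C : SLC n) (v w : Fin n → ℤ) :
    (C.eps v w : K) * (C.eps v w : K) = 1 := by
  unfold SLC.eps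
  rcases Int.units_eq_one_or (C.hf v w).negOnePow with h | h <;> rw [h] <;> simp

theorem AD_eps_ne (C : SLC n) (v w : Fin n → ℤ) : (C.eps v w : K) ≠ 0 := by
  intro h
  have h1 := AD_eps_sq (K := K) C v w
  rw [h, mul_zero] at h1
  exact zero_ne_one h1

theorem AD_xg_inj (γ : C.Root) (v v' : K) (h : C.xg K γ v = C.xg K γ v') : v = v' := by
  by_contra hne
  have h1 : C.xg K γ (v - v') = C.xg K γ 0 := by
    have e1 : C.xg K γ (v + -v') = C.xg K γ v * C.xg K γ (-v') := (C.adS K).map_add γ v (-v')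
    have e2 : C.xg K γ (-v') = (C.xg K γ v')⁻¹ := (C.adS K).x_neg γ v'
    have e3 : C.xg K γ 0 = 1 := (C.adS K).x_zero γ
    rw [sub_eq_add_neg, e1, e2, h, mul_inv_cancel, e3]
  have h2 := (C.xg_inj γ γ (v - v') 0 (sub_ne_zero.2 hne) h1).2
  exact hne (sub_eq_zero.1 h2)

theorem AD_posγ {γ : C.Root} {i j : Fin n}
    (h : AD_c D (C.simple i) (C.simple j) γ) : ht γ.1 = 2 := by
  rw [h.hγ, ht_add, C.ht_simple, C.ht_simple]
  norm_num

theorem AD_mem_U {H : Type*} [Group H] (S : StSys C K H) {β' γ : C.Root} {i : Fin n}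
    (_ : AD_c D (C.simple i) β' γ) (x : H) (hx : x ∈ XO D S (C.simple i)) : x ∈ S.U 1 := by
  have h1 := XO_le_U (D := D) S (C.simple i) (C.simple_pos i) hx
  rwa [C.ht_simple] at h1

theorem AD_xi {i j : Fin n} {γ : C.Root} (h : AD_c D (C.simple i) (C.simple j) γ) (a b c : K) :
    C.xi i ((AD_h (C.adS K) (C.simple i) (C.simple j) γ a b c : GL C.Idx K) :
      Matrix C.Idx C.Idx K) = a ∧
    C.xi j ((AD_h (C.adS K) (C.simple i) (C.simple j) γ a b c : GL C.Idx K) :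
      Matrix C.Idx C.Idx K) = b := by
  have hU : ∀ δ : C.Root, ∀ t : K, D.inO (C.simple i) δ → (C.adS K).x δ t ∈ (C.adS K).U 1 :=
    fun δ t hδ => AD_mem_U (C.adS K) h _ (Subgroup.subset_closure ⟨δ, t, hδ, rfl⟩)
  have u1 := hU (C.simple i) a ((AD_inO h _).2 (Or.inl rfl))
  have u2 := hU (C.simple j) b ((AD_inO h _).2 (Or.inr (Or.inl rfl)))
  have u3 := hU γ c ((AD_inO h _).2 (Or.inr (Or.inr rfl)))
  have hg : ∀ l, γ ≠ C.simple l := by
    intro l e
    have := AD_posγ h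
    rw [e, C.ht_simple] at this
    norm_num at this
  have hp : C.Pos γ := by
    unfold SLC.Pos
    rw [AD_posγ h]
    norm_num
  unfold AD_h
  constructor
  · rw [C.xi_mul _ _ _ (mul_mem u1 u2) u3, C.xi_mul _ _ _ u1 u2]
    simp only [SLC.adS_x]
    rw [C.xi_xg _ _ (C.simple_pos i), C.xi_xg _ _ (C.simple_pos j), C.xi_xg _ _ hp,
      if_pos rfl, if_neg h.ne, if_neg (hg i), add_zero, add_zero]
  · rw [C.xi_mul _ _ _ (mul_mem u1 u2) u3, C.xi_mul _ _ _ u1 u2]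
    simp only [SLC.adS_x]
    rw [C.xi_xg _ _ (C.simple_pos i), C.xi_xg _ _ (C.simple_pos j), C.xi_xg _ _ hp,
      if_pos rfl, if_neg h.ne.symm, if_neg (hg j), add_zero, zero_add]

theorem AD_h_inj {i j : Fin n} {γ : C.Root} (h : AD_c D (C.simple i) (C.simple j) γ)
    (a b c a' b' c' : K) (e : AD_h (C.adS K) (C.simple i) (C.simple j) γ a b c =
      AD_h (C.adS K) (C.simple i) (C.simple j) γ a' b' c') : a = a' ∧ b = b' ∧ c = c' := by
  have h1 := AD_xi h a b c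
  have h2 := AD_xi h a' b' c'
  rw [e] at h1
  have ha : a = a' := h1.1.symm.trans h2.1
  have hb : b = b' := h1.2.symm.trans h2.2
  refine ⟨ha, hb, ?_⟩
  subst ha
  subst hb
  unfold AD_h at e
  exact AD_xg_inj γ c c' (mul_left_cancel e)

/-- elements of the simple root group of the target -/
theorem AD_tgt {i : Fin n} {γ : C.Root} (h : AD_c D (C.simple i) (C.simple (D.ρ i)) γ)
    (θ' : K ≃+* K) (x : GL C.Idx K) (hx : x ∈ fixX D (C.adS K) (D.sgl θ') (C.simple i)) :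
    ∃ w, x = AD_h (C.adS K) (C.simple i) (C.simple (D.ρ i)) γ
      (C.xi i (x : Matrix C.Idx C.Idx K)) (θ' (C.xi i (x : Matrix C.Idx C.Idx K))) w := by
  have h1 := hx.1
  rw [AD_XO (C.adS K) h] at h1
  obtain ⟨a, b, c, e⟩ := h1
  have h2 := AD_xi h a b c
  rw [← e] at h2
  have h3 := xi_sgl D θ' x i
  have h4 : D.sgl θ' x = x := hx.2
  rw [h4, h2.2, h2.1] at h3
  refine ⟨c, ?_⟩
  rw [h2.1, ← h3]
  exact e

theorem AD_Tconj {β β' γ : C.Root} (τ : GL C.Idx K) (hτ : τ ∈ (C.adS K).T) (a b c : K) :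
    τ * AD_h (C.adS K) β β' γ a b c * τ⁻¹ =
      AD_h (C.adS K) β β' γ (C.chi (τ : Matrix C.Idx C.Idx K) β * a)
        (C.chi (τ : Matrix C.Idx C.Idx K) β' * b) (C.chi (τ : Matrix C.Idx C.Idx K) γ * c) := by
  unfold AD_h
  simp only [SLC.adS_x]
  rw [← (C.T_fix τ hτ β a).2, ← (C.T_fix τ hτ β' b).2, ← (C.T_fix τ hτ γ c).2]
  group

theorem AD_chi_γ {γ : C.Root} {i j : Fin n} (h : AD_c D (C.simple i) (C.simple j) γ)
    (τ : GL C.Idx K) (hτ : τ ∈ (C.adS K).T) : C.chi (τ : Matrix C.Idx C.Idx K) γ =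
      C.chi (τ : Matrix C.Idx C.Idx K) (C.simple i) *
        C.chi (τ : Matrix C.Idx C.Idx K) (C.simple j) := by
  have hG : τ ∈ C.Gad K := by
    rw [← C.gen_adS]
    exact (C.adS K).T_le_gen hτ
  have hF := C.Fil_T τ hτ
  rw [C.chi_prod τ hG hF γ, h.hγ]
  have h0 : ∀ l, C.chi (τ : Matrix C.Idx C.Idx K) (C.simple l) ≠ 0 :=
    fun l => C.chi_ne_zero τ hG hF _
  simp only [Pi.add_apply]
  rw [Finset.prod_congr rfl fun l _ => zpow_add₀ (h0 l) _ _, Finset.prod_mul_distrib]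
  congr 1
  · rw [Finset.prod_eq_single i]
    · simp
    · intro l _ hl
      simp [hl]
    · simp
  · rw [Finset.prod_eq_single j]
    · simp
    · intro l _ hl
      simp [hl]
    · simp

end tgt

section src
variable {n : ℕ} {C : SLC n} {D : Dg C} {k : Type*} [Field k] {θ : k ≃+* k} {H : Type*} [Group H]
  {S : StSys C k H} {s : H →* H} {p : H →* GL C.Idx k}

theorem AD_p (he : Env D θ S s p) (β β' γ : C.Root) (a b c : k) :
    p (AD_h S β β' γ a b c) = AD_h (C.adS k) β β' γ a b c := by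
  unfold AD_h
  rw [map_mul, map_mul, he.hp, he.hp, he.hp]
  rfl

theorem AD_x_inj (he : Env D θ S s p) (γ : C.Root) (v v' : k) (h : S.x γ v = S.x γ v') :
    v = v' := by
  have h1 := congrArg p h
  rw [he.hp, he.hp] at h1
  exact AD_xg_inj γ v v' h1

theorem AD_θθ (he : Env D θ S s p) {β β' γ : C.Root} (h : AD_c D β β' γ) (t : k) :
    θ (θ t) = t := by
  have h1 := he.hθ t
  rw [h.m2] at h1
  exact h1

/-- elements of the simple root group of the source -/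
theorem AD_src (he : Env D θ S s p) {i : Fin n} {γ : C.Root}
    (h : AD_c D (C.simple i) (C.simple (D.ρ i)) γ) (x : H)
    (hx : x ∈ fixX D S s (C.simple i)) :
    ∃ v, x = AD_h S (C.simple i) (C.simple (D.ρ i)) γ
      (C.xi i (p x : Matrix C.Idx C.Idx k)) (θ (C.xi i (p x : Matrix C.Idx C.Idx k))) v := by
  have h1 := hx.1
  rw [AD_XO S h] at h1
  obtain ⟨a, b, c, e⟩ := h1
  have h2 := AD_xi h a b c
  rw [← AD_p he, ← e] at h2
  have h3 := AD_sig he.sig h a b c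
  rw [← e] at h3
  have h4 : s x = x := hx.2
  rw [h4] at h3
  have h5 := congrArg p (e.symm.trans h3)
  rw [AD_p he, AD_p he] at h5
  have h6 := AD_h_inj h _ _ _ _ _ _ h5
  refine ⟨c, ?_⟩
  rw [h2.1, ← h6.2.1]
  exact e

theorem AD_Eg {i : Fin n} (x : H) (hx : x ∈ fixX D S s (C.simple i)) : x ∈ Eg S s :=
  (le_sup_left : fixU S s ≤ Eg S s) (fixX_le_fixU S s (C.simple i) (C.simple_pos i) hx)

theorem AD_Sconj (he : Env D θ S s p) {β β' γ : C.Root} (h : H) (hh : h ∈ S.T) (a b c : k) :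
    h * AD_h S β β' γ a b c * h⁻¹ =
      AD_h S β β' γ (C.chi (p h : Matrix C.Idx C.Idx k) β * a)
        (C.chi (p h : Matrix C.Idx C.Idx k) β' * b)
        (C.chi (p h : Matrix C.Idx C.Idx k) γ * c) := by
  unfold AD_h
  rw [← (SR_T he h hh β a).2, ← (SR_T he h hh β' b).2, ← (SR_T he h hh γ c).2]
  group

theorem AD_conj (he : Env D θ S s p) {i : Fin n} {γ : C.Root}
    (hc : AD_c D (C.simple i) (C.simple (D.ρ i)) γ) (h : H) (hh : h ∈ S.T ⊓ Eg S s) (x : H)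
    (hx : x ∈ fixX D S s (C.simple i)) : h * x * h⁻¹ ∈ fixX D S s (C.simple i) ∧
      C.xi i (p (h * x * h⁻¹) : Matrix C.Idx C.Idx k) =
        C.chi (p h : Matrix C.Idx C.Idx k) (C.simple i) *
          C.xi i (p x : Matrix C.Idx C.Idx k) := by
  obtain ⟨v, hv⟩ := AD_src he hc x hx
  have e := AD_Sconj he (β := C.simple i) (β' := C.simple (D.ρ i)) (γ := γ) h hh.1
    (C.xi i (p x : Matrix C.Idx C.Idx k)) (θ (C.xi i (p x : Matrix C.Idx C.Idx k))) v
  rw [← hv] at e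
  refine ⟨⟨?_, ?_⟩, ?_⟩
  · rw [AD_XO S hc]
    exact ⟨_, _, _, e⟩
  · change s (h * x * h⁻¹) = h * x * h⁻¹
    have h1 : s x = x := hx.2
    rw [map_mul, map_mul, map_inv, h1, Eg_le_fix S s h hh.2]
  · rw [e, AD_p he]
    exact (AD_xi hc _ _ _).1

end src


section main
variable {n : ℕ} {C : SLC n} {D : Dg C} {k : Type*} [Field k] {θ : k ≃+* k} {H : Type*} [Group H]
  {S : StSys C k H} {s : H →* H} {p : H →* GL C.Idx k}

/-- The coordinate of `Ψ` on a simple root group. -/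
structure RA (he : Env D θ S s p) {K : Type*} [Field K]
    (Ψ : Eg S s →* GL C.Idx K) (i : Fin n) (c : K) (φ : k →+* K) : Prop where
  c_ne : c ≠ 0
  coord : ∀ x : Eg S s, (x : H) ∈ fixX D S s (C.simple i) →
    C.xi i (Ψ x : Matrix C.Idx C.Idx K) = c * φ (C.xi i (p x : Matrix C.Idx C.Idx k))

theorem adj_tor0 (he : Env D θ S s p) (i : Fin n) (hi : C.A i (D.ρ i) = -1) (c : k)
    (hc : θ c = c) (hc0 : c ≠ 0) : ∃ h ∈ S.T ⊓ Eg S s,
      C.chi (p h : Matrix C.Idx C.Idx k) (C.simple i) = c := by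
  obtain ⟨γ, hγ⟩ := AD_c_exists D i hi
  obtain ⟨τ, hτ, h1⟩ := exists_tor he.sig he.hθ he.hA γ.1
    (congrArg SLC.Root.val hγ.r3) c hc0 hc
  refine ⟨τ, hτ, ?_⟩
  have h2 := h1 (C.simple i) 1
  have h3 : C.ip γ.1 (C.simple i).1 = 1 := by
    rw [hγ.hγ, C.ip_add_left, (C.simple i).2, C.ip_comm, C.simple_val, C.simple_val,
      C.ip_single, hi]
    norm_num
  rw [h3, zpow_one, (SR_T he τ hτ.1 (C.simple i) 1).2] at h2
  have h4 := AD_x_inj he _ _ _ h2
  simpa using h4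

theorem AD_nonfix (he : Env D θ S s p) (i : Fin n) (hi : C.A i (D.ρ i) = -1) :
    ∃ t, θ t ≠ t := by
  have hNA : ¬ D.NA := fun h => h i hi
  by_contra hcon
  push Not at hcon
  obtain ⟨e, he0, he1⟩ := he.hA.resolve_left hNA
  obtain ⟨v, hv⟩ := he.hB.resolve_left hNA 1 (map_one θ)
  rw [hcon] at he1 hv
  have h2 : (2 : k) * e = 0 := by linear_combination he1
  have h3 : (2 : k) = 0 := (mul_eq_zero.1 h2).resolve_right he0
  have h4 : (1 : k) = 0 := by linear_combination v * h3 - hv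
  exact one_ne_zero h4

theorem adj_tor (he : Env D θ S s p) (i : Fin n) (hi : C.A i (D.ρ i) = -1) :
    ∃ h ∈ S.T ⊓ Eg S s, θ (C.chi (p h : Matrix C.Idx C.Idx k) (C.simple i)) ≠
      C.chi (p h : Matrix C.Idx C.Idx k) (C.simple i) := by
  classical
  by_cases hall : ∀ j, D.ρ.SameCycle i j
  · exact A2_tor he i hi hall
  push Not at hall
  obtain ⟨γ, hγ⟩ := AD_c_exists D i hi
  have hρρ : ∀ j, D.ρ (D.ρ j) = j := by
    intro j
    have h2 := D.r_m (C.simple j)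
    rw [hγ.m2] at h2
    have h3 : D.r (D.r (C.simple j)) = C.simple j := h2
    rw [D.r_simple, D.r_simple] at h3
    exact C.simple_injective h3
  obtain ⟨j₀, hj₀⟩ := hall
  have hcyc : ∀ j, D.ρ.SameCycle i j ↔ j = i ∨ j = D.ρ i := by
    intro j
    constructor
    · intro h
      by_contra hcon
      push Not at hcon
      have : ∀ l : ℕ, (D.ρ ^ l) i = i ∨ (D.ρ ^ l) i = D.ρ i := by
        intro l
        induction l with
        | zero => left; simp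
        | succ l ih =>
          rw [pow_succ', Equiv.Perm.mul_apply]
          rcases ih with e | e
          · right; rw [e]
          · left; rw [e, hρρ]
      obtain ⟨l, hl, -, e⟩ := h.exists_pow_eq
      rcases this l with e' | e'
      · exact hcon.1 (e ▸ e')
      · exact hcon.2 (e ▸ e')
    · rintro (e | e)
      · rw [e]
      · rw [e]
        exact ⟨1, by simp⟩
  obtain ⟨a, ha, b, hb, hab⟩ := C.conn {i, D.ρ i} ⟨i, by simp⟩ (by
    intro h
    apply hj₀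
    rw [hcyc]
    have : j₀ ∈ ({i, D.ρ i} : Finset (Fin n)) := by rw [h]; exact Finset.mem_univ _
    simpa using this)
  have hb' : ¬ D.ρ.SameCycle i b := by
    rw [hcyc]
    simpa using hb
  obtain ⟨j, hj, hij⟩ : ∃ j, ¬ D.ρ.SameCycle i j ∧ C.A i j ≠ 0 := by
    simp only [Finset.mem_insert, Finset.mem_singleton] at ha
    rcases ha with rfl | rfl
    · exact ⟨b, hb', hab⟩
    · refine ⟨D.ρ b, ?_, ?_⟩
      · rwa [Equiv.Perm.sameCycle_apply_right]
      · rw [← D.hρ, hρρ] at hab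
        exact hab
  obtain ⟨h1, h2, h3, h4⟩ := adj_nbr D i j hi hj hij
  obtain ⟨t, ht⟩ := AD_nonfix he i hi
  have ht0 : t ≠ 0 := by
    rintro rfl
    exact ht (map_zero θ)
  have hrj : D.r (C.simple j) ≠ C.simple j := by
    rw [D.r_simple]
    exact fun h => h1 (C.simple_injective h)
  have hoj : C.ip (C.simple j).1 (D.r (C.simple j)).1 = 0 := by
    rcases D.ip_r _ hrj with h | h
    · exact h
    · exfalso
      apply h2
      have := h.2
      rwa [D.r_simple, C.simple_val, C.simple_val, C.ip_single] at this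
  obtain ⟨τ, hτ, h5⟩ := exists_h he.sig he.hθ (C.simple j) hrj hoj t⁻¹ (inv_ne_zero ht0)
  refine ⟨τ, hτ, ?_⟩
  have h6 := h5 (C.simple i) 1
  have h7 : (∏ l ∈ Finset.range D.m, ((⇑θ)^[l] t⁻¹) ^ C.ip (D.r^[l] (C.simple j)).1
      (C.simple i).1) = t := by
    rw [hγ.m2, Finset.prod_range_succ, Finset.prod_range_succ, Finset.prod_range_zero, one_mul]
    have e1 : C.ip (D.r^[0] (C.simple j)).1 (C.simple i).1 = -1 := by
      change C.ip (C.simple j).1 (C.simple i).1 = -1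
      rw [C.simple_val, C.simple_val, C.ip_single, h3]
    have e2 : C.ip (D.r^[1] (C.simple j)).1 (C.simple i).1 = 0 := by
      change C.ip (D.r (C.simple j)).1 (C.simple i).1 = 0
      rw [D.r_simple, C.simple_val, C.simple_val, C.ip_single, h4]
    rw [e1, e2, zpow_zero, mul_one]
    change (t⁻¹) ^ (-1 : ℤ) = t
    rw [_root_.zpow_neg_one, inv_inv]
  rw [h7, (SR_T he τ hτ.1 (C.simple i) 1).2] at h6
  have h8 := AD_x_inj he _ _ _ h6
  rw [mul_one, mul_one] at h8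
  rw [h8]
  exact ht

/-- additive functions on the simple root group factor through the coordinate -/
theorem AD_factor (he : Env D θ S s p) {i : Fin n} {γ : C.Root}
    (hc : AD_c D (C.simple i) (C.simple (D.ρ i)) γ) {A : Type*} [AddCommGroup A]
    (g : Eg S s → A)
    (hg : ∀ x y : Eg S s, (x : H) ∈ fixX D S s (C.simple i) →
      (y : H) ∈ fixX D S s (C.simple i) → g (x * y) = g x + g y) :
    ∃ F : k → A, (∀ a b, F (a + b) = F a + F b) ∧
      ∀ x : Eg S s, (x : H) ∈ fixX D S s (C.simple i) →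
        g x = F (C.xi i (p x : Matrix C.Idx C.Idx k)) := by
  have hne : D.ρ i ≠ i := fun h => hc.ne (by rw [h])
  have hE : ∀ x : H, x ∈ fixX D S s (C.simple i) → x ∈ Eg S s := fun x hx => AD_Eg x hx
  have g1 : g 1 = 0 := by
    have h1 := hg 1 1 (one_mem _) (one_mem _)
    rw [one_mul] at h1
    simpa using h1
  have ginv : ∀ x : Eg S s, (x : H) ∈ fixX D S s (C.simple i) → g x⁻¹ = - g x := by
    intro x hx
    have h1 := hg x⁻¹ x (inv_mem hx) hx
    rw [inv_mul_cancel, g1] at h1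
    exact (neg_eq_of_add_eq_zero_left h1.symm).symm
  let Kr : Subgroup H :=
    { carrier := {y | ∃ hy : y ∈ fixX D S s (C.simple i), g ⟨y, hE y hy⟩ = 0}
      mul_mem' := by
        rintro a b ⟨ha, ha'⟩ ⟨hb, hb'⟩
        refine ⟨mul_mem ha hb, ?_⟩
        have h1 := hg ⟨a, hE a ha⟩ ⟨b, hE b hb⟩ ha hb
        rw [ha', hb', add_zero] at h1
        exact h1
      one_mem' := ⟨one_mem _, g1⟩
      inv_mem' := by
        rintro a ⟨ha, ha'⟩
        refine ⟨inv_mem ha, ?_⟩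
        have h1 := ginv ⟨a, hE a ha⟩ ha
        rw [ha', neg_zero] at h1
        exact h1 }
  have hK : ⁅fixX D S s (C.simple i), fixX D S s (C.simple i)⁆ ≤ Kr := by
    rw [Subgroup.commutator_le]
    intro a ha b hb
    refine ⟨mul_mem (mul_mem (mul_mem ha hb) (inv_mem ha)) (inv_mem hb), ?_⟩
    have h1 := hg (⟨a, hE a ha⟩ * ⟨b, hE b hb⟩ * ⟨a, hE a ha⟩⁻¹) (⟨b, hE b hb⟩⁻¹)
      (mul_mem (mul_mem ha hb) (inv_mem ha)) (inv_mem hb)
    have h2 := hg (⟨a, hE a ha⟩ * ⟨b, hE b hb⟩) (⟨a, hE a ha⟩⁻¹)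
      (mul_mem ha hb) (inv_mem ha)
    have h3 := hg ⟨a, hE a ha⟩ ⟨b, hE b hb⟩ ha hb
    rw [h2, h3, ginv _ ha, ginv _ hb] at h1
    refine Eq.trans ?_ (h1.trans ?_)
    · rfl
    · abel
  have hex : ∀ t : k, ∃ x : Eg S s, (x : H) ∈ fixX D S s (C.simple i) ∧
      C.xi i (p x : Matrix C.Idx C.Idx k) = t := by
    intro t
    obtain ⟨x, hx, hx1⟩ := fixX_xi_exists he i t (fun h => absurd h hne)
    exact ⟨⟨x, hE x hx⟩, hx, hx1⟩
  choose X hX hX1 using hex
  have hU : ∀ x : Eg S s, (x : H) ∈ fixX D S s (C.simple i) → p x ∈ (C.adS k).U 1 :=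
    fun x hx => C.S9_U S p he.hp 1 x (AD_mem_U S hc _ hx.1)
  have key : ∀ x y : Eg S s, (x : H) ∈ fixX D S s (C.simple i) →
      (y : H) ∈ fixX D S s (C.simple i) →
      C.xi i (p x : Matrix C.Idx C.Idx k) = C.xi i (p y : Matrix C.Idx C.Idx k) →
      g x = g y := by
    intro x y hx hy hxy
    have hm : ((x * y⁻¹ : Eg S s) : H) ∈ fixX D S s (C.simple i) := mul_mem hx (inv_mem hy)
    have h0 : C.xi i (p ((x * y⁻¹ : Eg S s) : H) : Matrix C.Idx C.Idx k) = 0 := by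
      have e : p ((x * y⁻¹ : Eg S s) : H) = p x * (p y)⁻¹ := by
        rw [Subgroup.coe_mul, Subgroup.coe_inv, map_mul, map_inv]
      rw [e, C.xi_mul i _ _ (hU x hx) (inv_mem (hU y hy)), C.xi_inv i _ (hU y hy), hxy]
      ring
    obtain ⟨hy1, hy2⟩ := hK (fixX_xi_zero he i _ hm h0)
    have h1 := hg (x * y⁻¹) y hm hy
    have h2 : g (x * y⁻¹) = 0 := hy2
    rw [h2, zero_add, inv_mul_cancel_right] at h1
    exact h1
  refine ⟨fun t => g (X t), ?_, ?_⟩
  · intro a b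
    rw [← hg _ _ (hX a) (hX b)]
    apply key _ _ (hX _) (mul_mem (hX a) (hX b))
    rw [hX1]
    have e : p ((X a * X b : Eg S s) : H) = p (X a) * p (X b) := by
      rw [Subgroup.coe_mul, map_mul]
    rw [e, C.xi_mul i _ _ (hU _ (hX a)) (hU _ (hX b)), hX1, hX1]
  · intro x hx
    exact key _ _ hx (hX _) (hX1 _).symm

theorem exists_RA (he : Env D θ S s p) {K : Type*} [Field K] (θ' : K ≃+* K)
    (Ψ : Eg S s →* GL C.Idx K) (hP : Pin he θ' Ψ) (i : Fin n) (hi : C.A i (D.ρ i) = -1) :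
    ∃ (c : K) (φ : k →+* K), RA he Ψ i c φ ∧ ∀ t, φ (θ t) = θ' (φ t) := by
  obtain ⟨γ, hc⟩ := AD_c_exists D i hi
  have hne : D.ρ i ≠ i := fun h => hc.ne (by rw [h])
  have hU : ∀ x : Eg S s, (x : H) ∈ fixX D S s (C.simple i) → Ψ x ∈ (C.adS K).U 1 :=
    fun x hx => AD_mem_U (C.adS K) hc _ (hP.pos i x hx).1
  obtain ⟨f, hadd, hf⟩ := AD_factor he hc (fun x => C.xi i (Ψ x : Matrix C.Idx C.Idx K))
    (by
      intro x y hx hy
      rw [map_mul]
      exact C.xi_mul i _ _ (hU x hx) (hU y hy))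
  have hex : ∀ t : k, ∃ x : Eg S s, (x : H) ∈ fixX D S s (C.simple i) ∧
      C.xi i (p x : Matrix C.Idx C.Idx k) = t := by
    intro t
    obtain ⟨x, hx, hx1⟩ := fixX_xi_exists he i t (fun h => absurd h hne)
    exact ⟨⟨x, AD_Eg x hx⟩, hx, hx1⟩
  have hT : ∀ h ∈ S.T ⊓ Eg S s, ∃ l' : K, ∀ u,
      f (C.chi (p h : Matrix C.Idx C.Idx k) (C.simple i) * u) = l' * f u := by
    intro h hh
    refine ⟨C.chi (Ψ ⟨h, hh.2⟩ : Matrix C.Idx C.Idx K) (C.simple i), fun u => ?_⟩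
    obtain ⟨x, hx, rfl⟩ := hex u
    have h1 := AD_conj he hc h hh x hx
    have h2 := hf (⟨h, hh.2⟩ * x * ⟨h, hh.2⟩⁻¹) h1.1
    have h3 := Pin_xi he θ' Ψ hP ⟨h, hh.2⟩ hh.1 i x hx
    have h4 := hf x hx
    change C.xi i (Ψ _ : Matrix C.Idx C.Idx K) = f (C.xi i (p (h * x * h⁻¹) :
      Matrix C.Idx C.Idx k)) at h2
    change C.xi i (Ψ x : Matrix C.Idx C.Idx K) = _ at h4
    rw [h1.2] at h2
    rw [← h2, ← h4]
    exact h3
  have hfne : ∃ t, f t ≠ 0 := by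
    obtain ⟨x, hx, hx1⟩ := Pin_nonvan he θ' Ψ hP i
    refine ⟨C.xi i (p x : Matrix C.Idx C.Idx k), ?_⟩
    rw [← hf x hx]
    exact hx1
  obtain ⟨h', hh', hχ⟩ := adj_tor he i hi
  obtain ⟨c, φ, hc0, hcφ⟩ := semilin θ (AD_θθ he hc) f hadd hfne
    (by
      intro l hl hl0
      obtain ⟨h, hh, h1⟩ := adj_tor0 he i hi l hl hl0
      have h2 := hT h hh
      rwa [h1] at h2)
    (C.chi (p h' : Matrix C.Idx C.Idx k) (C.simple i)) hχ (hT h' hh')
  refine ⟨c, φ, ⟨hc0, fun x hx => (hf x hx).trans (hcφ _)⟩, ?_⟩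
  have hθ' : ∀ t, θ' (θ' t) = t := by
    intro t
    have h1 := hP.hθ t
    rw [hc.m2] at h1
    exact h1
  have hθc : θ' c ≠ 0 := by
    rwa [ne_eq, EmbeddingLike.map_eq_zero_iff]
  choose X hX hX1 using hex
  -- the commutator of two elements
  have hcs : ∀ a b : k, ((⁅X a, X b⁆ : Eg S s) : H) =
      S.x γ ((C.eps (C.simple (D.ρ i)).1 (C.simple i).1 : k) * (θ a * b - θ b * a)) := by
    intro a b
    obtain ⟨v, hv⟩ := AD_src he hc (X a) (hX a)
    obtain ⟨w, hw⟩ := AD_src he hc (X b) (hX b)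
    rw [hX1] at hv hw
    have e : ((⁅X a, X b⁆ : Eg S s) : H) = ⁅(X a : H), (X b : H)⁆ := rfl
    rw [e, hv, hw, AD_h_comm S _ _ _ hc.hγ]
  have hct : ∀ a b : k, Ψ ⁅X a, X b⁆ =
      C.xg K γ ((C.eps (C.simple (D.ρ i)).1 (C.simple i).1 : K) *
        (θ' (c * φ a) * (c * φ b) - θ' (c * φ b) * (c * φ a))) := by
    intro a b
    obtain ⟨v, hv⟩ := AD_tgt hc θ' (Ψ (X a)) (hP.pos i _ (hX a))
    obtain ⟨w, hw⟩ := AD_tgt hc θ' (Ψ (X b)) (hP.pos i _ (hX b))
    have ha : C.xi i (Ψ (X a) : Matrix C.Idx C.Idx K) = c * φ a := by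
      rw [← hcφ, ← hX1 a]
      have := hf (X a) (hX a)
      rw [hX1] at this ⊢
      exact this
    have hb : C.xi i (Ψ (X b) : Matrix C.Idx C.Idx K) = c * φ b := by
      rw [← hcφ, ← hX1 b]
      have := hf (X b) (hX b)
      rw [hX1] at this ⊢
      exact this
    rw [ha] at hv
    rw [hb] at hw
    rw [map_commutatorElement, hv, hw, AD_h_comm (C.adS K) _ _ _ hc.hγ]
    rfl
  have hε : (C.eps (C.simple (D.ρ i)).1 (C.simple i).1 : K) ≠ 0 := AD_eps_ne C _ _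
  have htw := twist_eq θ (AD_θθ he hc) φ ((θ' : K →+* K).comp φ)
    (by
      intro a b a' b' hab
      have h1 : (⁅X a, X b⁆ : Eg S s) = ⁅X a', X b'⁆ := by
        apply Subtype.ext
        rw [hcs, hcs]
        congr 2
        linear_combination -hab
      have h2 := congrArg Ψ h1
      rw [hct, hct] at h2
      have h3 := mul_left_cancel₀ hε (AD_xg_inj γ _ _ h2)
      rw [map_mul, map_mul, map_mul, map_mul] at h3
      change φ a * θ' (φ b) - φ b * θ' (φ a) = φ a' * θ' (φ b') - φ b' * θ' (φ a')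
      have h4 : c * θ' c ≠ 0 := mul_ne_zero hc0 hθc
      apply mul_left_cancel₀ h4
      linear_combination -h3)
    (by
      obtain ⟨t, ht⟩ := AD_nonfix he i hi
      refine ⟨1, t, ?_⟩
      intro h0
      have h1 : Ψ ⁅X 1, X t⁆ = 1 := by
        rw [hct]
        have e : (C.eps (C.simple (D.ρ i)).1 (C.simple i).1 : K) *
            (θ' (c * φ 1) * (c * φ t) - θ' (c * φ t) * (c * φ 1)) = 0 := by
          change φ 1 * θ' (φ t) - φ t * θ' (φ 1) = 0 at h0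
          rw [map_mul, map_mul]
          linear_combination (-(C.eps (C.simple (D.ρ i)).1 (C.simple i).1 : K) * c * θ' c) * h0
        rw [e]
        exact (C.adS K).x_zero γ
      have h2 := Pin_inj he θ' Ψ hP i ⁅X 1, X t⁆ (Or.inl (mul_mem (mul_mem (mul_mem (hX 1) (hX t))
        (inv_mem (hX 1))) (inv_mem (hX t)))) h1
      have h3 := congrArg (fun y : Eg S s => (y : H)) h2
      change ((⁅X 1, X t⁆ : Eg S s) : H) = 1 at h3
      rw [hcs, ← S.x_zero γ] at h3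
      have h4 := AD_x_inj he _ _ _ h3
      have hε' : (C.eps (C.simple (D.ρ i)).1 (C.simple i).1 : k) ≠ 0 := AD_eps_ne C _ _
      have h5 := (mul_eq_zero.1 h4).resolve_left hε'
      rw [map_one] at h5
      apply ht
      linear_combination -h5)
  intro t
  have h1 : θ' (φ (θ t)) = φ t := htw t
  rw [← h1, hθ']

end main


section eq
variable {n : ℕ} {C : SLC n} {D : Dg C} {k : Type*} [Field k] {θ : k ≃+* k} {H : Type*} [Group H]
  {S : StSys C k H} {s : H →* H} {p : H →* GL C.Idx k}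

/-- The product of the values of `cc` over a root. -/
def AD_pr {K : Type*} [Field K] (cc : Fin n → Kˣ) (β : C.Root) : Kˣ := ∏ j, cc j ^ β.1 j

theorem AD_pr_simple {K : Type*} [Field K] (cc : Fin n → Kˣ) (i : Fin n) :
    AD_pr cc (C.simple i) = cc i := by
  unfold AD_pr
  rw [Finset.prod_eq_single i]
  · simp
  · intro l _ hl
    simp [hl]
  · simp

theorem AD_pr_add {K : Type*} [Field K] (cc : Fin n → Kˣ) (β β' γ : C.Root)
    (h : γ.1 = β.1 + β'.1) : AD_pr cc γ = AD_pr cc β * AD_pr cc β' := by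
  unfold AD_pr
  rw [h, ← Finset.prod_mul_distrib]
  refine Finset.prod_congr rfl fun l _ => ?_
  rw [Pi.add_apply, _root_.zpow_add]

theorem AD_pr_neg {K : Type*} [Field K] (cc : Fin n → Kˣ) (β : C.Root) :
    AD_pr cc (-β) = (AD_pr cc β)⁻¹ := by
  unfold AD_pr
  rw [SLC.Root.neg_val, ← Finset.prod_inv_distrib]
  refine Finset.prod_congr rfl fun l _ => ?_
  rw [Pi.neg_apply, _root_.zpow_neg]

theorem AD_tad (he : Env D θ S s p) {K : Type*} [Field K] (cc : Fin n → Kˣ) (φ : k →+* K)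
    (β β' γ : C.Root) (a b v : k) :
    tad C cc * C.mp φ (p (AD_h S β β' γ a b v)) * (tad C cc)⁻¹ =
      AD_h (C.adS K) β β' γ ((AD_pr cc β : K) * φ a) ((AD_pr cc β' : K) * φ b)
        ((AD_pr cc γ : K) * φ v) := by
  rw [AD_p he]
  unfold AD_h AD_pr
  simp only [SLC.adS_x, map_mul, C.mp_xg]
  rw [← tad_xg C cc β, ← tad_xg C cc β', ← tad_xg C cc γ]
  group

theorem AD_XO_x (S : StSys C k H) {β β' γ : C.Root} (h : AD_c D β β' γ) :
    (∀ t, S.x β t ∈ XO D S β) ∧ (∀ t, S.x β' t ∈ XO D S β) ∧ ∀ t, S.x γ t ∈ XO D S β :=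
  ⟨fun t => Subgroup.subset_closure ⟨β, t, (AD_inO h β).2 (Or.inl rfl), rfl⟩,
    fun t => Subgroup.subset_closure ⟨β', t, (AD_inO h β').2 (Or.inr (Or.inl rfl)), rfl⟩,
    fun t => Subgroup.subset_closure ⟨γ, t, (AD_inO h γ).2 (Or.inr (Or.inr rfl)), rfl⟩⟩

/-- conjugation with a monomial element of the root `γ` -/
theorem AD_nn (S : StSys C k H) {β β' γ : C.Root} (h : AD_c D β β' γ) (e : k) (he0 : e ≠ 0)
    (x : H) (hx : x ∈ XO D S β) : nn S.x γ e * x * (nn S.x γ e)⁻¹ ∈ XO D S (-β) := by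
  have hip := C.ip_add_root β β' γ h.hγ
  have i1 : C.ip γ.1 β.1 = 1 := by
    rw [h.hγ, C.ip_add_left, β.2, C.ip_comm, hip]
    norm_num
  have i2 : C.ip γ.1 β'.1 = 1 := by
    rw [h.hγ, C.ip_add_left, β'.2, hip]
    norm_num
  have r1 : C.refl γ β = -β' := by
    apply SLC.Root.ext
    rw [C.refl_val, i1, one_smul, h.hγ, SLC.Root.neg_val]
    abel
  have r2 : C.refl γ β' = -β := by
    apply SLC.Root.ext
    rw [C.refl_val, i2, one_smul, h.hγ, SLC.Root.neg_val]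
    abel
  have r3 : C.refl γ γ = -γ := by
    apply SLC.Root.ext
    rw [C.refl_val, γ.2, two_smul, SLC.Root.neg_val]
    abel
  rw [AD_XO S h] at hx
  obtain ⟨a, b, c, rfl⟩ := hx
  have e1 : nn S.x γ e * AD_h S β β' γ a b c * (nn S.x γ e)⁻¹ =
      (nn S.x γ e * S.x β a * (nn S.x γ e)⁻¹) * (nn S.x γ e * S.x β' b * (nn S.x γ e)⁻¹) *
        (nn S.x γ e * S.x γ c * (nn S.x γ e)⁻¹) := by
    unfold AD_h
    group
  rw [e1, S.n_conj_all _ _ _ _ he0, S.n_conj_all _ _ _ _ he0, S.n_conj_all _ _ _ _ he0, r1, r2, r3]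
  have hX := AD_XO_x S h.neg
  exact mul_mem (mul_mem (hX.2.1 _) (hX.1 _)) (hX.2.2 _)

theorem AD_nn' (S : StSys C k H) {β β' γ : C.Root} (h : AD_c D β β' γ) (e : k) (he0 : e ≠ 0)
    (x : H) (hx : x ∈ XO D S (-β)) : (nn S.x γ e)⁻¹ * x * nn S.x γ e ∈ XO D S β := by
  have h1 := AD_nn S h.neg (-e)⁻¹ (inv_ne_zero (neg_ne_zero.2 he0)) x hx
  rw [← S.nn_eq γ (-e) (neg_ne_zero.2 he0), ← S.nn_inv, inv_inv] at h1
  have h2 : - -β = β := by
    apply SLC.Root.ext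
    rw [SLC.Root.neg_val, SLC.Root.neg_val, neg_neg]
  rwa [h2] at h1

theorem AD_Eg_neg {i : Fin n} {γ : C.Root} (h : AD_c D (C.simple i) (C.simple (D.ρ i)) γ)
    (x : H) (hx : x ∈ fixX D S s (-(C.simple i))) : x ∈ Eg S s := by
  apply (le_sup_right : fixUm S s ≤ Eg S s)
  refine ⟨?_, hx.2⟩
  have h1 := hx.1
  rw [AD_XO S h.neg] at h1
  obtain ⟨a, b, c, rfl⟩ := h1
  have hm : ∀ (δ : C.Root) (t : k), C.Pos δ → S.x (-δ) t ∈ S.Um := by
    intro δ t hδ
    refine Subgroup.subset_closure ⟨-δ, t, ?_, rfl⟩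
    rw [SLC.Root.neg_val, ht_neg]
    unfold SLC.Pos at hδ
    omega
  have hp : C.Pos γ := by
    unfold SLC.Pos
    rw [AD_posγ h]
    norm_num
  exact mul_mem (mul_mem (hm _ _ (C.simple_pos i)) (hm _ _ (C.simple_pos _))) (hm _ _ hp)

theorem AD_eq_pos (he : Env D θ S s p) {K : Type*} [Field K] (θ' : K ≃+* K)
    (Ψ : Eg S s →* GL C.Idx K) (hP : Pin he θ' Ψ) (i : Fin n) (hi : C.A i (D.ρ i) = -1)
    (c : K) (φ : k →+* K) (hR : RA he Ψ i c φ) (hφ : ∀ t, φ (θ t) = θ' (φ t))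
    (cc : Fin n → Kˣ) (h1 : (cc i : K) = c) (h2 : (cc (D.ρ i) : K) = θ' c) (x : Eg S s)
    (hx : (x : H) ∈ fixX D S s (C.simple i)) :
    Ψ x = tad C cc * C.mp φ (p x) * (tad C cc)⁻¹ := by
  obtain ⟨γ, hc⟩ := AD_c_exists D i hi
  have hne : D.ρ i ≠ i := fun h => hc.ne (by rw [h])
  have hprγ : ((AD_pr cc γ : Kˣ) : K) = c * θ' c := by
    rw [AD_pr_add cc _ _ _ hc.hγ, AD_pr_simple, AD_pr_simple, Units.val_mul, h1, h2]
  let Φ : Eg S s →* GL C.Idx K :=
    (MulAut.conj (tad C cc)).toMonoidHom.comp ((C.mp φ).comp (p.comp (Eg S s).subtype))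
  have hΦ : ∀ y : Eg S s, Φ y = tad C cc * C.mp φ (p y) * (tad C cc)⁻¹ := fun _ => rfl
  have hΦ' : ∀ (y : Eg S s) (a b v : k),
      (y : H) = AD_h S (C.simple i) (C.simple (D.ρ i)) γ a b v →
      Φ y = AD_h (C.adS K) (C.simple i) (C.simple (D.ρ i)) γ (c * φ a) (θ' c * φ b)
        (c * θ' c * φ v) := by
    intro y a b v hy
    rw [hΦ, hy, AD_tad he, AD_pr_simple, AD_pr_simple, hprγ, h1, h2]
  have hex : ∀ y : Eg S s, ∃ z : K, (y : H) ∈ fixX D S s (C.simple i) →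
      Ψ y = Φ y * C.xg K γ z := by
    intro y
    by_cases hy : (y : H) ∈ fixX D S s (C.simple i)
    · obtain ⟨v, hv⟩ := AD_src he hc y hy
      obtain ⟨w, hw⟩ := AD_tgt hc θ' (Ψ y) (hP.pos i y hy)
      refine ⟨w - c * θ' c * φ v, fun _ => ?_⟩
      rw [hR.coord y hy, map_mul, ← hφ] at hw
      rw [hΦ' y _ _ _ hv, hw]
      have e := AD_h_mul_z (C.adS K) (C.simple i) (C.simple (D.ρ i)) γ
        (c * φ (C.xi i (p y : Matrix C.Idx C.Idx k)))
        (θ' c * φ (θ (C.xi i (p y : Matrix C.Idx C.Idx k)))) (c * θ' c * φ v)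
        (w - c * θ' c * φ v)
      rw [add_sub_cancel] at e
      exact e.symm
    · exact ⟨0, fun h => absurd h hy⟩
  choose ζ hζ using hex
  have hcent : ∀ (y : Eg S s) (z : K), (y : H) ∈ fixX D S s (C.simple i) →
      C.xg K γ z * Φ y = Φ y * C.xg K γ z := by
    intro y z hy
    obtain ⟨v, hv⟩ := AD_src he hc y hy
    rw [hΦ' y _ _ _ hv]
    exact AD_h_cent (C.adS K) _ _ _ hc.hγ _ _ _ z
  have hxadd : ∀ z z' : K, C.xg K γ (z + z') = C.xg K γ z * C.xg K γ z' :=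
    fun z z' => (C.adS K).map_add γ z z'
  obtain ⟨F, hF, hFζ⟩ := AD_factor he hc ζ (by
    intro y y' hy hy'
    have e1 := hζ (y * y') (mul_mem hy hy')
    rw [map_mul, map_mul, hζ y hy, hζ y' hy'] at e1
    have e2 : Φ y * C.xg K γ (ζ y) * (Φ y' * C.xg K γ (ζ y')) =
        Φ y * Φ y' * C.xg K γ (ζ y + ζ y') := by
      rw [hxadd, mul_assoc, ← mul_assoc (C.xg K γ (ζ y)), hcent y' _ hy']
      simp only [mul_assoc]
    rw [e2] at e1
    exact (AD_xg_inj γ _ _ (mul_left_cancel e1)).symm)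
  have hex1 : ∀ t : k, ∃ x : Eg S s, (x : H) ∈ fixX D S s (C.simple i) ∧
      C.xi i (p x : Matrix C.Idx C.Idx k) = t := by
    intro t
    obtain ⟨x, hx, hx1⟩ := fixX_xi_exists he i t (fun h => absurd h hne)
    exact ⟨⟨x, AD_Eg x hx⟩, hx, hx1⟩
  have hT : ∀ h ∈ S.T ⊓ Eg S s, ∀ u,
      F (C.chi (p h : Matrix C.Idx C.Idx k) (C.simple i) * u) =
        φ (C.chi (p h : Matrix C.Idx C.Idx k) (C.simple i) *
          θ (C.chi (p h : Matrix C.Idx C.Idx k) (C.simple i))) * F u := by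
    intro h hh u
    obtain ⟨y, hy, rfl⟩ := hex1 u
    obtain ⟨y1, hy1, hy11⟩ := hex1 1
    have hh' : (((⟨h, hh.2⟩ : Eg S s) : Eg S s) : H) ∈ S.T := hh.1
    have hΨT := Pin_T he θ' Ψ hP ⟨h, hh.2⟩ hh.1
    have c1 := AD_conj he hc h hh y1 hy1
    have c2 := AD_conj he hc h hh y hy
    -- the characters
    have k1 : C.chi (Ψ ⟨h, hh.2⟩ : Matrix C.Idx C.Idx K) (C.simple i) =
        φ (C.chi (p h : Matrix C.Idx C.Idx k) (C.simple i)) := by
      have e1 := Pin_xi he θ' Ψ hP ⟨h, hh.2⟩ hh.1 i y1 hy1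
      have e2 := hR.coord (⟨h, hh.2⟩ * y1 * ⟨h, hh.2⟩⁻¹) c1.1
      have e3 := hR.coord y1 hy1
      have e4 : C.xi i (p ((⟨h, hh.2⟩ * y1 * ⟨h, hh.2⟩⁻¹ : Eg S s) : H) :
          Matrix C.Idx C.Idx k) = C.chi (p h : Matrix C.Idx C.Idx k) (C.simple i) * 1 := by
        rw [← hy11]
        exact c1.2
      rw [e4, mul_one] at e2
      rw [hy11, map_one, mul_one] at e3
      rw [e2, e3] at e1
      exact (mul_right_cancel₀ hR.c_ne ((mul_comm c _).symm.trans e1)).symm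
    have k2 : C.chi (Ψ ⟨h, hh.2⟩ : Matrix C.Idx C.Idx K) (C.simple (D.ρ i)) =
        φ (θ (C.chi (p h : Matrix C.Idx C.Idx k) (C.simple i))) := by
      have e1 := chi_sgl D θ' (Ψ ⟨h, hh.2⟩) (C.simple i)
      rw [hP.fix, D.r_simple, k1] at e1
      rw [e1, hφ]
    have k3 := AD_chi_γ hc (Ψ ⟨h, hh.2⟩) hΨT
    rw [k1, k2, ← map_mul] at k3
    have l2 : C.chi (p h : Matrix C.Idx C.Idx k) (C.simple (D.ρ i)) =
        θ (C.chi (p h : Matrix C.Idx C.Idx k) (C.simple i)) := by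
      rw [← D.r_simple]
      exact SR_chi he h hh.1 (Eg_le_fix S s h hh.2) (C.simple i)
    have l3 := AD_chi_γ hc (p h) (C.S9_T S p he.hp h hh.1)
    rw [l2] at l3
    obtain ⟨v, hv⟩ := AD_src he hc y hy
    have m1 : ((⟨h, hh.2⟩ * y * ⟨h, hh.2⟩⁻¹ : Eg S s) : H) =
        AD_h S (C.simple i) (C.simple (D.ρ i)) γ
          (C.chi (p h : Matrix C.Idx C.Idx k) (C.simple i) *
            C.xi i (p y : Matrix C.Idx C.Idx k))
          (θ (C.chi (p h : Matrix C.Idx C.Idx k) (C.simple i)) *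
            θ (C.xi i (p y : Matrix C.Idx C.Idx k)))
          (C.chi (p h : Matrix C.Idx C.Idx k) (C.simple i) *
            θ (C.chi (p h : Matrix C.Idx C.Idx k) (C.simple i)) * v) := by
      have e := AD_Sconj he (β := C.simple i) (β' := C.simple (D.ρ i)) (γ := γ) h hh.1
        (C.xi i (p y : Matrix C.Idx C.Idx k)) (θ (C.xi i (p y : Matrix C.Idx C.Idx k))) v
      rw [← hv, l2, l3] at e
      exact e
    have m2 := hΦ' _ _ _ _ m1
    have m3 := hζ _ (show ((⟨h, hh.2⟩ * y * ⟨h, hh.2⟩⁻¹ : Eg S s) : H) ∈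
      fixX D S s (C.simple i) from c2.1)
    have m4 : Ψ (⟨h, hh.2⟩ * y * ⟨h, hh.2⟩⁻¹) =
        Ψ ⟨h, hh.2⟩ * Φ y * (Ψ ⟨h, hh.2⟩)⁻¹ *
          (Ψ ⟨h, hh.2⟩ * C.xg K γ (ζ y) * (Ψ ⟨h, hh.2⟩)⁻¹) := by
      rw [map_mul, map_mul, map_inv, hζ y hy]
      group
    rw [(C.T_fix _ hΨT γ _).2, k3, hΦ' y _ _ _ hv, AD_Tconj _ hΨT, k1, k2, k3] at m4
    rw [m2, m4] at m3
    have m5 : AD_h (C.adS K) (C.simple i) (C.simple (D.ρ i)) γ
        (φ (C.chi (p h : Matrix C.Idx C.Idx k) (C.simple i)) *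
          (c * φ (C.xi i (p y : Matrix C.Idx C.Idx k))))
        (φ (θ (C.chi (p h : Matrix C.Idx C.Idx k) (C.simple i))) *
          (θ' c * φ (θ (C.xi i (p y : Matrix C.Idx C.Idx k)))))
        (φ (C.chi (p h : Matrix C.Idx C.Idx k) (C.simple i) *
          θ (C.chi (p h : Matrix C.Idx C.Idx k) (C.simple i))) * (c * θ' c * φ v)) =
        AD_h (C.adS K) (C.simple i) (C.simple (D.ρ i)) γ
        (c * φ (C.chi (p h : Matrix C.Idx C.Idx k) (C.simple i) *
            C.xi i (p y : Matrix C.Idx C.Idx k)))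
        (θ' c * φ (θ (C.chi (p h : Matrix C.Idx C.Idx k) (C.simple i)) *
            θ (C.xi i (p y : Matrix C.Idx C.Idx k))))
        (c * θ' c * φ (C.chi (p h : Matrix C.Idx C.Idx k) (C.simple i) *
            θ (C.chi (p h : Matrix C.Idx C.Idx k) (C.simple i)) * v)) := by
      congr 1
      · rw [map_mul]; ring
      · rw [map_mul]; ring
      · rw [map_mul φ (_ * _) v]; ring
    rw [m5] at m3
    have m6 := AD_xg_inj γ _ _ (mul_left_cancel m3)
    have n1 := hFζ _ hy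
    have n2 := hFζ (⟨h, hh.2⟩ * y * ⟨h, hh.2⟩⁻¹) c2.1
    have n3 : C.xi i (p ((⟨h, hh.2⟩ * y * ⟨h, hh.2⟩⁻¹ : Eg S s) : H) :
          Matrix C.Idx C.Idx k) = C.chi (p h : Matrix C.Idx C.Idx k) (C.simple i) *
            C.xi i (p y : Matrix C.Idx C.Idx k) := c2.2
    rw [n3, ← m6, n1] at n2
    exact n2.symm
  obtain ⟨h', hh', hχ⟩ := adj_tor he i hi
  have hz := zeta_zero θ (AD_θθ he hc) φ F hF
    (by
      intro l hl hl0 t
      obtain ⟨h, hh, hl1⟩ := adj_tor0 he i hi l hl hl0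
      have e := hT h hh t
      rw [hl1, hl, map_mul, ← pow_two] at e
      exact e)
    (C.chi (p h' : Matrix C.Idx C.Idx k) (C.simple i)) hχ (hT h' hh')
  have h3 := hζ x hx
  rw [hFζ x hx, hz] at h3
  have h4 : C.xg K γ 0 = 1 := (C.adS K).x_zero γ
  rw [h4, mul_one] at h3
  exact h3

theorem adj_eq (he : Env D θ S s p) {K : Type*} [Field K] (θ' : K ≃+* K)
    (Ψ : Eg S s →* GL C.Idx K) (hP : Pin he θ' Ψ) (i : Fin n) (hi : C.A i (D.ρ i) = -1)
    (c : K) (φ : k →+* K) (hR : RA he Ψ i c φ) (hφ : ∀ t, φ (θ t) = θ' (φ t))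
    (cc : Fin n → Kˣ) (h1 : (cc i : K) = c) (h2 : (cc (D.ρ i) : K) = θ' c) (x : Eg S s)
    (hx : (x : H) ∈ fixX D S s (C.simple i) ∨ (x : H) ∈ fixX D S s (-(C.simple i))) :
    Ψ x = tad C cc * C.mp φ (p x) * (tad C cc)⁻¹ := by
  have hpos := AD_eq_pos he θ' Ψ hP i hi c φ hR hφ cc h1 h2
  rcases hx with hx | hx
  · exact hpos x hx
  obtain ⟨γ, hc⟩ := AD_c_exists D i hi
  have hNA : ¬ D.NA := fun h => h i hi
  obtain ⟨e, he0, he1⟩ := he.hA.resolve_left hNA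
  have hprγ : ((AD_pr cc γ : Kˣ) : K) = c * θ' c := by
    rw [AD_pr_add cc _ _ _ hc.hγ, AD_pr_simple, AD_pr_simple, Units.val_mul, h1, h2]
  let Φ : Eg S s →* GL C.Idx K :=
    (MulAut.conj (tad C cc)).toMonoidHom.comp ((C.mp φ).comp (p.comp (Eg S s).subtype))
  have hΦ : ∀ y : Eg S s, Φ y = tad C cc * C.mp φ (p y) * (tad C cc)⁻¹ := fun _ => rfl
  have hsA : ∀ u : k, θ u = -u → s (S.x γ u) = S.x γ u := by
    intro u hu
    rw [he.sig, hc.r3, hc.s3, hu]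
    simp
  have hsB : ∀ u : k, θ u = -u → s (S.x (-γ) u) = S.x (-γ) u := by
    intro u hu
    rw [he.sig, hc.neg.r3, hc.neg.s3, hu]
    simp
  have he1' : θ e⁻¹ = -e⁻¹ := by rw [map_inv₀, he1, inv_neg]
  have hAX : S.x γ e ∈ fixX D S s (C.simple i) := ⟨(AD_XO_x S hc).2.2 e, hsA e he1⟩
  have hBX : S.x (-γ) e⁻¹ ∈ fixX D S s (-(C.simple i)) :=
    ⟨(AD_XO_x S hc.neg).2.2 e⁻¹, hsB _ he1'⟩
  let A : Eg S s := ⟨S.x γ e, AD_Eg _ hAX⟩
  let B : Eg S s := ⟨S.x (-γ) e⁻¹, AD_Eg_neg hc _ hBX⟩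
  let N : Eg S s := A * B * A
  -- conjugation with `N`
  have hconj : ∀ y : Eg S s, (y : H) ∈ fixX D S s (C.simple i) →
      ((N * y * N⁻¹ : Eg S s) : H) ∈ fixX D S s (-(C.simple i)) := by
    intro y hy
    refine ⟨AD_nn S hc e he0 _ hy.1, ?_⟩
    exact Eg_le_fix S s _ (N * y * N⁻¹).2
  have hconj' : ∀ y : Eg S s, (y : H) ∈ fixX D S s (-(C.simple i)) →
      ((N⁻¹ * y * N : Eg S s) : H) ∈ fixX D S s (C.simple i) := by
    intro y hy
    refine ⟨AD_nn' S hc e he0 _ hy.1, ?_⟩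
    exact Eg_le_fix S s _ (N⁻¹ * y * N).2
  have hNA1 : N * A * N⁻¹ = B := by
    apply Subtype.ext
    change nn S.x γ e * S.x γ e * (nn S.x γ e)⁻¹ = S.x (-γ) e⁻¹
    rw [S.n_conj γ e e he0]
    congr 1
    field_simp
  -- the image of `A`
  have hΦA : Φ A = C.xg K γ (c * θ' c * φ e) := by
    rw [hΦ]
    change tad C cc * C.mp φ (p (S.x γ e)) * (tad C cc)⁻¹ = _
    rw [he.hp, C.mp_xg, tad_xg]
    change C.xg K γ (((AD_pr cc γ : Kˣ) : K) * φ e) = _
    rw [hprγ]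
  have hΦB : Φ B = C.xg K (-γ) (c * θ' c * φ e)⁻¹ := by
    rw [hΦ]
    change tad C cc * C.mp φ (p (S.x (-γ) e⁻¹)) * (tad C cc)⁻¹ = _
    rw [he.hp, C.mp_xg, tad_xg]
    change C.xg K (-γ) (((AD_pr cc (-γ) : Kˣ) : K) * φ e⁻¹) = _
    rw [AD_pr_neg, Units.val_inv_eq_inv_val, hprγ, map_inv₀, ← mul_inv]
  have hθc : θ' c ≠ 0 := by
    rw [ne_eq, EmbeddingLike.map_eq_zero_iff]
    exact hR.c_ne
  have ha0 : c * θ' c * φ e ≠ 0 :=
    mul_ne_zero (mul_ne_zero hR.c_ne hθc) ((map_ne_zero φ).2 he0)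
  have hΨA : Ψ A = C.xg K γ (c * θ' c * φ e) := by
    rw [← hΦA]
    exact hpos A hAX
  -- the image of `B`
  obtain ⟨b, hΨB⟩ : ∃ b, Ψ B = C.xg K (-γ) b := by
    obtain ⟨t, ht⟩ := he.hC.resolve_left hNA e (by rw [he1, add_neg_cancel])
    have hne : D.ρ i ≠ i := fun h => hc.ne (by rw [h])
    obtain ⟨x1, hx1, hx11⟩ := fixX_xi_exists he i 1 (fun h => absurd h hne)
    obtain ⟨x2, hx2, hx21⟩ := fixX_xi_exists he i
      ((C.eps (C.simple (D.ρ i)).1 (C.simple i).1 : k) * t) (fun h => absurd h hne)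
    let X1 : Eg S s := ⟨x1, AD_Eg _ hx1⟩
    let X2 : Eg S s := ⟨x2, AD_Eg _ hx2⟩
    have hA : A = ⁅X1, X2⁆ := by
      apply Subtype.ext
      obtain ⟨v, hv⟩ := AD_src he hc x1 hx1
      obtain ⟨w, hw⟩ := AD_src he hc x2 hx2
      rw [hx11] at hv
      rw [hx21] at hw
      change S.x γ e = ⁅x1, x2⁆
      rw [hv, hw, AD_h_comm S _ _ _ hc.hγ]
      congr 1
      rw [map_one, map_mul, map_intCast]
      have hε := AD_eps_sq (K := k) C (C.simple (D.ρ i)).1 (C.simple i).1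
      rw [ht]
      linear_combination (θ t - t) * hε
    have hB : B = ⁅N * X1 * N⁻¹, N * X2 * N⁻¹⁆ := by
      rw [← hNA1, hA, commutatorElement_def, commutatorElement_def]
      group
    have y1 := (hP.neg i _ (hconj X1 hx1)).1
    have y2 := (hP.neg i _ (hconj X2 hx2)).1
    rw [AD_XO (C.adS K) hc.neg] at y1 y2
    have y3 := AD_H_comm_le (C.adS K) _ _ _ hc.neg.hγ (Subgroup.commutator_mem_commutator y1 y2)
    rw [← map_commutatorElement, ← hB] at y3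
    exact y3
  have hrel : Ψ N * Ψ A = Ψ B * Ψ N := by
    rw [← map_mul, ← map_mul, ← hNA1]
    congr 1
    group
  have hΨN : Ψ N = C.xg K γ (c * θ' c * φ e) * C.xg K (-γ) b *
      C.xg K γ (c * θ' c * φ e) := by
    change Ψ (A * B * A) = _
    rw [map_mul, map_mul, hΨA, hΨB]
  rw [hΨN, hΨA, hΨB] at hrel
  have hab := rank_mat' C γ (c * θ' c * φ e) b (c * θ' c * φ e) b ha0 hrel
  have hb : b = (c * θ' c * φ e)⁻¹ := eq_inv_of_mul_eq_one_right hab
  have hNN : Ψ N = Φ N := by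
    change Ψ (A * B * A) = Φ (A * B * A)
    rw [map_mul, map_mul, map_mul, map_mul, hΨA, hΨB, hΦA, hΦB, hb]
  have hx' := hpos (N⁻¹ * x * N) (hconj' x hx)
  change Ψ (N⁻¹ * x * N) = Φ (N⁻¹ * x * N) at hx'
  change Ψ x = Φ x
  have q1 : ∀ f : Eg S s →* GL C.Idx K, f (N⁻¹ * x * N) = (f N)⁻¹ * f x * f N := fun f => by
    rw [map_mul f (N⁻¹ * x) N, map_mul f N⁻¹ x, map_inv f N]
  rw [q1 Ψ, q1 Φ, hNN] at hx'
  exact mul_left_cancel (mul_right_cancel hx')

end eq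

end Pool.Agent.H86.UM
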