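import Pool.Agent.H86.UM.AS1
import Pool.Agent.H75.UT.D8
import Pool.Agent.H75.UT.D3

/-!
# Project UM, module EX1: the chamber over `K` and `σ'`

`sigma_stage`: let `y = g₀⁻¹ σ'(g₀)`. For `u ∈ S.U`: `y⁻¹ (cj Ψ g₀ u) y = σ'(g₀)⁻¹ Ψ(u) σ'(g₀) =
σ'(g₀⁻¹ Ψ(u) g₀)` is in `U(K)` (`hσ`, `isSig_adS`, `IsSig.map_U`), similarly for `T` (`IsSig.map_T`), so by
`torus_of_Tgt` `y ∈ T(K)`. `sigma_chamber` (D8; `sgl_Gad`) gives `g₁ ∈ Eg` with `g₁⁻¹ g₀` in `Fil 0`, so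
`g₀ = g₁ * u * τ` with `u ∈ U(K)`, `τ ∈ T(K)` (`upper` gives `τ u`; move `τ` to the right with
`T_conj_U`). Put `g = g₁ * u = g₀ τ⁻¹`. `σ'(g₀) = g₀ y` gives `u⁻¹ σ'(u) = τ y σ'(τ)⁻¹ ∈ T ∩ U = 1`
(`S9_T_one`), so `u ∈ fixU ≤ Eg`, `g ∈ Eg`. `cj Ψ g x = τ (cj Ψ g₀ x) τ⁻¹`: conjugation by `τ ∈ T(K)`
preserves `Tgt`, `Fib` and `T` (`T_conj_U`, `T_comm`, `xi_conj`, `Fil_mul`, `Fil_T`; `chi` of elements of
`T` does not change). The last statement: `σ'(g) = g` (`Eg_le_fix`). `fib (ρ j) = fib j`: `xi_sgl` gives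
`xi (ρ j) M = θ' (xi j M)` for `M = cj Ψ g x`; use `Fib.ne`, `Fib.zero`.
-/

set_option autoImplicit false
open Matrix

namespace Pool.Agent.H86.UM

open Pool.Agent.H75.UL

variable {n : ℕ} (C : SLC n)

theorem sigma_stage (D : Dg C) {ι : Type} {E : Type*} [Group E] {k : Type*} [Field k]
    (S : Src ι E k) {K : Type*} [Field K] (θ' : K ≃+* K) (hθ : ∀ t, (⇑θ')^[D.m] t = t)
    (hA : D.NA ∨ ∃ e, e ≠ 0 ∧ θ' e = -e) (Ψ : E →* GL C.Idx K) (hΨ : ∀ x, Ψ x ∈ C.Gad K)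
    (hσ : ∀ x, D.sgl θ' (Ψ x) = Ψ x) (g₀ : GL C.Idx K) (hg₀ : g₀ ∈ C.Gad K)
    (hT : Tgt C S (cj Ψ g₀)) (hTT : ∀ h ∈ S.T, cj Ψ g₀ h ∈ (C.adS K).T) (fib : Fin n → ι)
    (hf : Fib C S (cj Ψ g₀) fib) :
    ∃ g ∈ Eg (C.adS K) (D.sgl θ'), Tgt C S (cj Ψ g) ∧ (∀ h ∈ S.T, cj Ψ g h ∈ (C.adS K).T) ∧
      Fib C S (cj Ψ g) fib ∧ (∀ j, fib (D.ρ j) = fib j) ∧
      ∀ x, D.sgl θ' (cj Ψ g x) = cj Ψ g x := by
  have hsig : IsSig D θ' (C.adS K) (D.sgl θ') := isSig_adS D θ'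
  have hUG : ∀ x, x ∈ (C.adS K).U 1 → x ∈ C.Gad K := by
    intro x hx
    rw [← C.gen_adS]
    exact (C.adS K).U_le_gen 1 hx
  have hTG : ∀ x, x ∈ (C.adS K).T → x ∈ C.Gad K := by
    intro x hx
    rw [← C.gen_adS]
    exact (C.adS K).T_le_gen hx
  obtain ⟨y, hy⟩ : ∃ y : GL C.Idx K, y = g₀⁻¹ * D.sgl θ' g₀ := ⟨_, rfl⟩
  have hyG : y ∈ C.Gad K := by
    rw [hy]
    exact mul_mem (inv_mem hg₀) (sgl_Gad D θ' g₀ hg₀)
  have hconj : ∀ x, y⁻¹ * cj Ψ g₀ x * y = D.sgl θ' (cj Ψ g₀ x) := by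
    intro x
    rw [cj_apply, map_mul, map_mul, map_inv, hσ, hy]
    group
  have hyT : y ∈ (C.adS K).T := by
    refine torus_of_Tgt C S (cj Ψ g₀) hT hTT fib hf y hyG ?_ ?_
    · intro u hu
      rw [hconj]
      exact C.Fil_U_zero _ (hsig.map_U 1 _ (hT.U_le u hu))
    · intro x hx
      rw [hconj]
      exact hsig.map_T _ (hTT x hx)
  obtain ⟨g₁, hg₁, hb0⟩ := sigma_chamber D θ' hθ hA g₀ hg₀ (by
    rw [← hy]
    exact C.Fil_T y hyT)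
  have hg₁G : g₁ ∈ C.Gad K := by
    rw [← C.gen_adS]
    exact Eg_le_gen _ _ hg₁
  obtain ⟨τ, hτ, u₀, hu₀, hb⟩ := C.upper (g₁⁻¹ * g₀) (mul_mem (inv_mem hg₁G) hg₀) hb0
  obtain ⟨u, hu⟩ : ∃ u : GL C.Idx K, u = τ * u₀ * τ⁻¹ := ⟨_, rfl⟩
  have huU : u ∈ (C.adS K).U 1 := by
    rw [hu]
    exact (C.adS K).T_conj_U 1 τ u₀ hτ hu₀
  have hg₀' : g₀ = g₁ * u * τ := by
    have h1 : g₀ = g₁ * (g₁⁻¹ * g₀) := by group
    rw [h1, hb, hu]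
    group
  have hg₁s : D.sgl θ' g₁ = g₁ := Eg_le_fix _ _ g₁ hg₁
  have hus : D.sgl θ' u = u := by
    have h1 : D.sgl θ' g₀ = g₀ * y := by
      rw [hy]
      group
    rw [hg₀', map_mul, map_mul, hg₁s] at h1
    have h2 : u⁻¹ * D.sgl θ' u = τ * y * (D.sgl θ' τ)⁻¹ := by
      have h3 : u⁻¹ * D.sgl θ' u =
          u⁻¹ * g₁⁻¹ * (g₁ * D.sgl θ' u * D.sgl θ' τ) * (D.sgl θ' τ)⁻¹ := by group
      rw [h3, h1]
      group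
    have h4 : u⁻¹ * D.sgl θ' u ∈ (C.adS K).T := by
      rw [h2]
      exact mul_mem (mul_mem hτ hyT) (inv_mem (hsig.map_T τ hτ))
    have h5 : u⁻¹ * D.sgl θ' u ∈ (C.adS K).U 1 :=
      mul_mem (inv_mem huU) (hsig.map_U 1 u huU)
    have h6 := C.S9_T_one _ h4 h5
    exact (inv_mul_eq_one.1 h6).symm
  obtain ⟨g, hg⟩ : ∃ g : GL C.Idx K, g = g₁ * u := ⟨_, rfl⟩
  have hgE : g ∈ Eg (C.adS K) (D.sgl θ') := by
    rw [hg]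
    exact mul_mem hg₁ (Subgroup.mem_sup_left ⟨huU, hus⟩)
  have hgG : g ∈ C.Gad K := by
    rw [hg]
    exact mul_mem hg₁G (hUG u huU)
  have hgs : D.sgl θ' g = g := Eg_le_fix _ _ g hgE
  have hcj : ∀ x, cj Ψ g x = τ * cj Ψ g₀ x * τ⁻¹ := by
    intro x
    rw [cj_apply, cj_apply, hg₀', hg]
    group
  have hcjT : ∀ x ∈ S.T, cj Ψ g x = cj Ψ g₀ x := by
    intro x hx
    rw [hcj, (C.adS K).T_comm τ _ hτ (hTT x hx)]
    group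
  have hτG := hTG τ hτ
  have hτ0 := C.Fil_T τ hτ
  have hxi : ∀ x ∈ S.U, ∀ j, C.xi j (cj Ψ g x : Matrix C.Idx C.Idx K) =
      C.chi (τ : Matrix C.Idx C.Idx K) (C.simple j) *
        C.xi j (cj Ψ g₀ x : Matrix C.Idx C.Idx K) := by
    intro x hx j
    rw [hcj]
    exact (C.xi_conj τ (cj Ψ g₀ x) hτG hτ0 (hT.U_le x hx) j).2
  have hxine : ∀ x ∈ S.U, ∀ j, C.xi j (cj Ψ g₀ x : Matrix C.Idx C.Idx K) ≠ 0 →
      C.xi j (cj Ψ g x : Matrix C.Idx C.Idx K) ≠ 0 := by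
    intro x hx j h
    rw [hxi x hx j]
    exact mul_ne_zero (C.chi_ne_zero τ hτG hτ0 _) h
  have hcjs : ∀ x, D.sgl θ' (cj Ψ g x) = cj Ψ g x := by
    intro x
    rw [cj_apply, map_mul, map_mul, map_inv, hσ, hgs]
  have hF : Fib C S (cj Ψ g) fib := by
    refine ⟨hf.surj, ?_, ?_, ?_, ?_⟩
    · intro j
      obtain ⟨x, hx, h⟩ := hf.ne j
      exact ⟨x, hx, hxine x (S.X_le _ hx) j h⟩
    · intro j J hJ x hx
      rw [hxi x (S.X_le _ hx) j, hf.zero j J hJ x hx, mul_zero]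
    · intro j h hh ha
      rw [hcjT h hh]
      exact hf.chi_one j h hh ha
    · intro j
      obtain ⟨Φ, h1, h2, h3, h4⟩ := hf.poly j
      refine ⟨Φ, h1, h2, ?_, h4⟩
      intro h hh s hs ha
      rw [hcjT h hh]
      exact h3 h hh s hs ha
  refine ⟨g, hgE, ⟨?_, ?_, ?_, ?_, ?_⟩, ?_, hF, ?_, hcjs⟩
  · intro x
    rw [cj_apply]
    exact mul_mem (mul_mem (inv_mem hgG) (hΨ x)) hgG
  · intro x hx
    rw [hcj]
    exact (C.adS K).T_conj_U 1 τ _ hτ (hT.U_le x hx)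
  · intro x hx
    rw [hcjT x hx]
    exact hT.T_le x hx
  · intro j
    obtain ⟨J, x, hx, h⟩ := hT.nonvan j
    exact ⟨J, x, hx, hxine x (S.X_le J hx) j h⟩
  · intro J
    obtain ⟨j, x, hx, h⟩ := hT.occ J
    exact ⟨j, x, hx, hxine x (S.X_le J hx) j h⟩
  · intro x hx
    rw [hcjT x hx]
    exact hTT x hx
  · intro j
    obtain ⟨x, hx, h⟩ := hF.ne j
    by_contra hne
    have h1 := hF.zero (D.ρ j) (fib j) (fun h => hne h.symm) x hx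
    have h2 := xi_sgl D θ' (cj Ψ g x) j
    rw [hcjs, h1] at h2
    apply h
    have h3 : θ' (C.xi j (cj Ψ g x : Matrix C.Idx C.Idx K)) = θ' 0 := by
      rw [← h2, map_zero]
    exact θ'.injective h3

end Pool.Agent.H86.UM
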