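import Pool.Agent.H86.UM.ImP
import Pool.Agent.H86.UM.Reg
import Pool.Agent.H86.UM.CT

/-!
# Project UM, module ImN: images of the opposite simple root groups

`Ψ` maps `S.T` into the torus. Claim: there are `ν' ∈ N` acting by `w ∈ W` with `w α_j` negative and
supported on the fibre of `J` for all `j` with `fib j = J`, and for each `x ∈ X J`,
`Ψ (ν_J x ν_J⁻¹) = ν' y ν'⁻¹` with `y` a product of `x_β`, `β` positive supported on the fibre of `J`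
(so `w β` is negative, supported on the fibre of `J`).

Proof. Let `t₀` be regular (`exists_regular'`), `t` semiregular for `J` (`exists_semiregular'`).
(1) `g = Ψ ν_J`; `g⁻¹ Ψ(t₀) g = Ψ (ν_J⁻¹ t₀ ν_J) ∈ T` satisfies `Fil 0` (`Fil_T`), so `g = ν' u`
(`torus_chamber'`), `Acts ν' w`, `w ∈ W` (`N_acts`).
(2) For `x ∈ X J` put `y(x) = u Ψ(x) u⁻¹ ∈ U 1`; `Ψ (ν_J x ν_J⁻¹) = ν' y(x) ν'⁻¹`. Simple coordinates:
`xi j (y(x)) = xi j (Ψ x)` (`xi_mul`, `xi_inv`), nonzero for some `x` if `fib j = J` (`Fib.ne`).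
(3) For `h ∈ T`: put `h' = ν_J⁻¹ h ν_J ∈ T` and `τ_h = ν'⁻¹ Ψ(h) ν' ∈ T` (`N_conj_T`). As
`h (ν_J x ν_J⁻¹) h⁻¹ = ν_J (h' x h'⁻¹) ν_J⁻¹`: `y(h' x h'⁻¹) = τ_h y(x) τ_h⁻¹`, and
`chi τ_h β = chi (Ψ h) (w β)` (`T_fix`, `Acts ν' w`, `xg_inj`).
(4) `t` commutes with `ν_J x ν_J⁻¹` (`cent_neg`), so `y(x)` commutes with `τ_t`; `centralizer_U`:
`y(x) = lp posList z` with `z β ≠ 0 → chi (Ψ t) (w β) = 1`, so `(w β)_j = 0` for `fib j ≠ J`
(`hsemi` of `t`). In particular (with (2) and `xi j (lp z) = z (simple j)`, see `lp_entry`/`xi_xg`):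
`w α_j` is supported on the fibre of `J` if `fib j = J`.
(5) `w α_j` is negative for `fib j = J`: suppose `δ = w α_j` is positive (all coordinates `≥ 0`,
supported on the fibre of `J`). Let `f(x) = xi j (y(x))`, a homomorphism `X J → (F,+)`, so it depends
only on `q J x` (`ker_q`); for `s ∈ k0`, `s ≠ 0`, `h` from `sep J s`: `a J h' = (s ^ N)⁻¹` (`a_ν`) and
`f(h' x h'⁻¹) = chi (Ψ h) δ * f(x) = P(s) f(x)` where `P(s) = ∏ j, Φ_j(s ^ N) ^ δ_j`
(`chi_prod`, `Fib.poly`, as in Reg.lean), a polynomial map with `P 0 = 0`. Take `x₀` with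
`f(x₀) ≠ 0`; `Θ r := f(y_r) / f(x₀)` with `q y_r = r q x₀`, `r ∈ k0`, is additive, `Θ 1 = 1`, and
`Θ ((s ^ N)⁻¹ r) = P(s) Θ r`; `r = s ^ N`: `1 = P(s) Θ(s ^ N)` for all `s ≠ 0`. But
`s ↦ P(s) Θ(s ^ N)` is a polynomial map with value `0` at `0`: contradiction to `IsPoly.not_one`.
(6) So `w` maps the span of the `α_j`, `fib j = J`, into itself and is injective (`W_lin`), so (finite
dimension, over `ℚ`) `w⁻¹` also maps it into itself; so in (4) `β` itself is supported on the fibre of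
`J`.
-/

set_option autoImplicit false
open Matrix

namespace Pool.Agent.H86.UM

open Pool.Agent.H75.UL

variable {n : ℕ} (C : SLC n)

private theorem ImN_chi {F : Type*} [Field F] (ν' τ : GL C.Idx F) (w : Equiv.Perm C.Root)
    (hν : ν' ∈ (C.adS F).N) (ha : (C.adS F).Acts ν' w) (hτ : τ ∈ (C.adS F).T) :
    ν'⁻¹ * τ * ν' ∈ (C.adS F).T ∧ ∀ β : C.Root,
    C.chi ((ν'⁻¹ * τ * ν' : GL C.Idx F) : Matrix C.Idx C.Idx F) β =
      C.chi (τ : Matrix C.Idx C.Idx F) (w β) := by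
  have h1 : ν'⁻¹ * τ * ν' ∈ (C.adS F).T := by
    have := (C.adS F).N_conj_T ν'⁻¹ τ (inv_mem hν) hτ
    simpa using this
  refine ⟨h1, fun β => ?_⟩
  obtain ⟨c, hc, hc2⟩ := ha
  obtain ⟨h2, h3⟩ := C.T_fix _ h1 β 1
  obtain ⟨h4, h5⟩ := C.T_fix τ hτ (w β) (c β)
  have e1 := hc2 β 1
  have e2 := hc2 β (C.chi (τ : Matrix C.Idx C.Idx F) (w β))
  rw [SLC.adS_x] at e1 e2
  have h6 : ν'⁻¹ * τ * ν' * C.xg F β 1 * (ν'⁻¹ * τ * ν')⁻¹ =
      C.xg F β (C.chi (τ : Matrix C.Idx C.Idx F) (w β)) := by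
    calc ν'⁻¹ * τ * ν' * C.xg F β 1 * (ν'⁻¹ * τ * ν')⁻¹
        = ν'⁻¹ * (τ * (ν' * C.xg F β 1 * ν'⁻¹) * τ⁻¹) * ν' := by group
      _ = ν'⁻¹ * (ν' * C.xg F β (C.chi (τ : Matrix C.Idx C.Idx F) (w β)) * ν'⁻¹) * ν' := by
          rw [e1, e2, mul_one, h5, mul_comm (c β)]
      _ = C.xg F β (C.chi (τ : Matrix C.Idx C.Idx F) (w β)) := by group
  rw [h6] at h3
  have h7 := (C.xg_inj β β _ _ h4 h3).2
  rw [mul_one] at h7
  exact h7.symm

private theorem ImN_xi {F : Type*} [Field F] (z : C.Root → F) (hz : ∀ β, z β ≠ 0 → C.Pos β)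
    (j : Fin n) : C.xi j ((C.adS F).lp C.posList z : Matrix C.Idx C.Idx F) = z (C.simple j) := by
  have h := C.lp_entry z 1 le_rfl (fun γ hγ => by
    by_contra hc
    have h2 := hz γ hc
    unfold SLC.Pos at h2
    omega) (C.simple j) (C.ht_simple j) j
  unfold SLC.xi
  rw [h]
  simp

private theorem ImN_chi_conj {F : Type*} [Field F] (τ u : GL C.Idx F) (hτ : τ ∈ (C.adS F).T)
    (hu : u ∈ (C.adS F).U 1) (γ : C.Root) :
    C.chi ((u⁻¹ * τ * u : GL C.Idx F) : Matrix C.Idx C.Idx F) γ =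
      C.chi (τ : Matrix C.Idx C.Idx F) γ := by
  have h1 : u⁻¹ * τ * u = τ * (τ⁻¹ * u⁻¹ * τ * u) := by group
  have h2 : τ⁻¹ * u⁻¹ * τ * u ∈ (C.adS F).U 1 := by
    have h3 := (C.adS F).T_conj_U 1 τ⁻¹ u⁻¹ (inv_mem hτ) (inv_mem hu)
    rw [inv_inv] at h3
    exact mul_mem h3 hu
  rw [h1]
  exact C.chi_mul_U τ _ hτ h2 γ

theorem image_neg {ι : Type} {E : Type*} [Group E] {k : Type*} [Field k] (S : Src ι E k)
    {F : Type*} [Field F] (Ψ : E →* GL C.Idx F) (h : Tgt C S Ψ) (fib : Fin n → ι)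
    (hf : Fib C S Ψ fib) (hT : ∀ x ∈ S.T, Ψ x ∈ (C.adS F).T) (J : ι) :
    ∃ ν' ∈ (C.adS F).N, ∃ w ∈ C.W, (C.adS F).Acts ν' w ∧
      (∀ β : C.Root, C.Pos β → (∀ j, fib j ≠ J → β.1 j = 0) →
        ¬ C.Pos (w β) ∧ ∀ j, fib j ≠ J → (w β).1 j = 0) ∧
      ∀ x ∈ S.X J, ∃ y : C.Root → F,
        Ψ (S.ν J * x * (S.ν J)⁻¹) = ν' * (C.adS F).lp C.posList y * ν'⁻¹ ∧
        ∀ β, y β ≠ 0 → C.Pos β ∧ ∀ j, fib j ≠ J → β.1 j = 0 := by
  classical
  obtain ⟨t₀, ht₀, hreg⟩ := exists_regular' C S Ψ h fib hf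
  obtain ⟨t, htT, ht1, hsemi⟩ := exists_semiregular' C S Ψ h fib hf J
  obtain ⟨g, hg⟩ : ∃ g, g = Ψ (S.ν J) := ⟨_, rfl⟩
  have hgm : g ∈ C.Gad F := by rw [hg]; exact h.mem _
  have hconj : ∀ x, g⁻¹ * Ψ x * g = Ψ ((S.ν J)⁻¹ * x * S.ν J) := by
    intro x; rw [hg]; simp
  obtain ⟨ν', hν', u, hu, hgu⟩ := torus_chamber' C (Ψ t₀) g (hT t₀ ht₀) hreg hgm (by
    rw [hconj]
    exact C.Fil_T _ (hT _ (S.ν_conj J t₀ ht₀)))
  obtain ⟨w, hw, hacts, -⟩ := (C.adS F).N_acts ν' hν'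
  have hyU : ∀ x ∈ S.X J, u * Ψ x * u⁻¹ ∈ (C.adS F).U 1 := fun x hx =>
    mul_mem (mul_mem hu (h.U_le x (S.X_le J hx))) (inv_mem hu)
  have hyΨ : ∀ x, Ψ (S.ν J * x * (S.ν J)⁻¹) = ν' * (u * Ψ x * u⁻¹) * ν'⁻¹ := by
    intro x
    rw [map_mul, map_mul, map_inv, ← hg, hgu]
    group
  have hyxi : ∀ x ∈ S.X J, ∀ j, C.xi j ((u * Ψ x * u⁻¹ : GL C.Idx F) : Matrix C.Idx C.Idx F) =
      C.xi j (Ψ x : Matrix C.Idx C.Idx F) := by
    intro x hx j
    rw [C.xi_mul j (u * Ψ x) u⁻¹ (mul_mem hu (h.U_le x (S.X_le J hx))) (inv_mem hu),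
      C.xi_mul j u (Ψ x) hu (h.U_le x (S.X_le J hx)), C.xi_inv j u hu]
    ring
  have h4 : ∀ x ∈ S.X J, ∃ z : C.Root → F, u * Ψ x * u⁻¹ = (C.adS F).lp C.posList z ∧
      (∀ β, z β ≠ 0 → C.Pos β) ∧ ∀ β, z β ≠ 0 → ∀ j, fib j ≠ J → (w β).1 j = 0 := by
    intro x hx
    obtain ⟨hτ, hchi⟩ := ImN_chi C ν' (Ψ t) w hν' hacts (hT t htT)
    have hcomm : (ν'⁻¹ * Ψ t * ν') * (u * Ψ x * u⁻¹) =
        (u * Ψ x * u⁻¹) * (ν'⁻¹ * Ψ t * ν') := by
      have e := congrArg Ψ (S.cent_neg J t htT ht1 x hx)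
      rw [map_mul, map_mul Ψ (S.ν J * x * (S.ν J)⁻¹) t, hyΨ] at e
      calc (ν'⁻¹ * Ψ t * ν') * (u * Ψ x * u⁻¹)
          = ν'⁻¹ * (Ψ t * (ν' * (u * Ψ x * u⁻¹) * ν'⁻¹)) * ν' := by group
        _ = ν'⁻¹ * ((ν' * (u * Ψ x * u⁻¹) * ν'⁻¹) * Ψ t) * ν' := by rw [e]
        _ = (u * Ψ x * u⁻¹) * (ν'⁻¹ * Ψ t * ν') := by group
    obtain ⟨z, hz1, hz2⟩ := C.centralizer_U _ _ hτ (hyU x hx) hcomm
    refine ⟨fun β => if C.Pos β then z β else 0, ?_, ?_, ?_⟩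
    · rw [hz1]
      apply (C.adS F).lp_congr
      intro β hβ
      rw [if_pos ((C.mem_posList β).1 hβ)]
    · intro β hβ
      by_contra hc
      exact hβ (if_neg hc)
    · intro β hβ j hj
      have hp : C.Pos β := by
        by_contra hc
        exact hβ (if_neg hc)
      have hz : z β ≠ 0 := by
        simpa [hp] using hβ
      have h5 := hz2 β hp hz
      rw [hchi β] at h5
      by_contra hc
      exact hsemi (w β) ⟨j, hj, hc⟩ h5
  have hsupp : ∀ j, fib j = J → ∀ i, fib i ≠ J → (w (C.simple j)).1 i = 0 := by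
    intro j hj
    obtain ⟨x, hx, hne⟩ := hf.ne j
    rw [hj] at hx
    obtain ⟨z, hz1, hz2, hz3⟩ := h4 x hx
    apply hz3
    rw [← ImN_xi C z hz2 j, ← hz1, hyxi x hx]
    exact hne
  have hneg : ∀ j, fib j = J → ¬ C.Pos (w (C.simple j)) := by
    intro j hj hpos
    choose Φ hΦadd hΦ1 hΦchi hΦmul using hf.poly
    have hinf : Infinite S.k0 := S.k0_inf
    have hδ : ∀ i, 0 ≤ (w (C.simple j)).1 i := (C.pos_iff _).1 hpos
    have key : ∀ s : S.k0, s ≠ 0 →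
        (∏ i, Φ i (s ^ S.N) ^ ((w (C.simple j)).1 i).toNat) * Φ j (s ^ S.N) = 1 := by
      intro s hs
      have hs' : (s : k) ≠ 0 := fun hc => hs (Subtype.ext hc)
      obtain ⟨h', hh', ha1, ha2⟩ := S.sep J (s : k) s.2 hs'
      have c1 : C.chi (Ψ ((S.ν J)⁻¹ * h' * S.ν J) : Matrix C.Idx C.Idx F) (C.simple j) =
          Φ j (s⁻¹ ^ S.N) := by
        apply hΦchi j _ (S.ν_conj J h' hh') s⁻¹ (inv_ne_zero hs)
        rw [hj, S.a_ν J h' hh' (by rw [ha1]; exact pow_mem s.2 _), ha1]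
        simp
      have c2 : C.chi (Ψ h' : Matrix C.Idx C.Idx F) (w (C.simple j)) =
          ∏ i, Φ i (s ^ S.N) ^ ((w (C.simple j)).1 i).toNat := by
        rw [C.chi_prod (Ψ h') (h.mem _) (h.T_le h' hh')]
        apply Finset.prod_congr rfl
        intro i _
        by_cases hi : fib i = J
        · rw [hΦchi i h' hh' s hs (by rw [hi, ha1])]
          conv_lhs => rw [← Int.toNat_of_nonneg (hδ i)]
          rw [zpow_natCast]
        · rw [hsupp j hj i hi]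
          simp
      have c3 : C.chi (Ψ ((S.ν J)⁻¹ * h' * S.ν J) : Matrix C.Idx C.Idx F) (C.simple j) =
          C.chi (Ψ h' : Matrix C.Idx C.Idx F) (w (C.simple j)) := by
        obtain ⟨hτ, hchi⟩ := ImN_chi C ν' (Ψ h') w hν' hacts (hT h' hh')
        rw [← hchi, ← hconj, hgu]
        have e : (ν' * u)⁻¹ * Ψ h' * (ν' * u) = u⁻¹ * (ν'⁻¹ * Ψ h' * ν') * u := by group
        rw [e]
        exact ImN_chi_conj C _ u hτ hu _
      rw [← c2, ← c3, c1, mul_comm, ← hΦmul j s (s⁻¹ ^ S.N), ← mul_pow, mul_inv_cancel₀ hs,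
        one_pow, hΦ1]
    have hΦ0 : Φ j 0 = 0 := by
      have := hΦadd j 0 0
      rw [add_zero] at this
      exact left_eq_add.1 this
    have hcp : ∀ i, IsPoly S.N (fun s : S.k0 => Φ i (s ^ S.N)) := by
      intro i
      have := IsPoly.comp_pow (Φ i) (hΦadd i) S.N 1
      simpa using this
    have hpoly := (IsPoly.prod Finset.univ (fun i => S.N * ((w (C.simple j)).1 i).toNat)
      (fun i (s : S.k0) => Φ i (s ^ S.N) ^ ((w (C.simple j)).1 i).toNat)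
      (fun i _ => (hcp i).pow _)).mul (hcp j)
    obtain ⟨s, hs, hs1⟩ := hpoly.not_one (by
      rw [zero_pow S.N_ne, hΦ0, mul_zero])
    exact hs1 (key s hs)
  have hlin : ∀ (β : C.Root) (i : Fin n),
      (w β).1 i = ∑ j, β.1 j * (w (C.simple j)).1 i := by
    obtain ⟨f, hf1, -⟩ := C.W_lin w hw
    intro β i
    have e : β.1 = ∑ j, β.1 j • (C.simple j).1 := by
      funext i
      rw [Finset.sum_apply]
      simp [Pi.single_apply]
    rw [hf1 β]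
    conv_lhs => rw [e]
    rw [map_sum, Finset.sum_apply]
    apply Finset.sum_congr rfl
    intro j _
    rw [map_zsmul, hf1 (C.simple j)]
    simp
  have hw1 : ∀ γ : C.Root, (∀ j, fib j ≠ J → γ.1 j = 0) → ∀ i, fib i ≠ J → (w γ).1 i = 0 := by
    intro γ hγ i hi
    rw [hlin]
    apply Finset.sum_eq_zero
    intro j _
    by_cases hj : fib j = J
    · rw [hsupp j hj i hi, mul_zero]
    · rw [hγ j hj, zero_mul]
  have hw2 : ∀ m : ℕ, ∀ γ : C.Root, (∀ j, fib j ≠ J → γ.1 j = 0) →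
      ∀ i, fib i ≠ J → ((w ^ m) γ).1 i = 0 := by
    intro m
    induction m with
    | zero => intro γ hγ i hi; simpa using hγ i hi
    | succ m ih =>
      intro γ hγ i hi
      rw [pow_succ', Equiv.Perm.mul_apply]
      exact hw1 _ (ih γ hγ) i hi
  have hw3 : ∀ β : C.Root, (∀ j, fib j ≠ J → (w β).1 j = 0) → ∀ i, fib i ≠ J → β.1 i = 0 := by
    intro β hβ i hi
    obtain ⟨m, hm, hm1⟩ := isOfFinOrder_iff_pow_eq_one.1 (isOfFinOrder_of_finite w)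
    have e : (w ^ (m - 1)) (w β) = β := by
      rw [← Equiv.Perm.mul_apply, ← pow_succ, Nat.sub_add_cancel hm, hm1]
      rfl
    have := hw2 (m - 1) (w β) hβ i hi
    rwa [e] at this
  refine ⟨ν', hν', w, hw, hacts, fun β hβ hβs => ⟨?_, hw1 β hβs⟩, fun x hx => ?_⟩
  · intro hp
    have h5 : ht (w β).1 ≤ 0 := by
      unfold ht
      apply Finset.sum_nonpos
      intro i _
      rw [hlin]
      apply Finset.sum_nonpos
      intro j _
      by_cases hj : fib j = J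
      · have h6 : (w (C.simple j)).1 i ≤ 0 := by
          rcases C.pos_or_neg (w (C.simple j)) with h7 | h7
          · exact absurd ((C.pos_iff _).2 h7) (hneg j hj)
          · exact h7 i
        exact mul_nonpos_of_nonneg_of_nonpos ((C.pos_iff β).1 hβ j) h6
      · rw [hβs j hj, zero_mul]
    unfold SLC.Pos at hp
    omega
  · obtain ⟨z, hz1, hz2, hz3⟩ := h4 x hx
    exact ⟨z, by rw [hyΨ, hz1], fun β hβ => ⟨hz2 β hβ, hw3 β (hz3 β hβ)⟩⟩

end Pool.Agent.H86.UM
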