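import Pool.Agent.H86.UM.Src

/-!
# Project UM, module ImP: images of the simple root groups

`Ψ` maps `S.T` into the torus; `t ∈ S.T` semiregular for `J` (`hsemi`). Then for `x ∈ X J` the element
`Ψ x` is a product of root elements `x_β` with `β` positive and supported on the fibre of `J`.
Proof. `t` commutes with `x` (`cent`), so `Ψ x ∈ U 1` commutes with `Ψ t ∈ T`; `centralizer_U` gives
`Ψ x = lp posList y` with `y β ≠ 0 → chi (Ψ t) β = 1` for positive `β`, so by `hsemi` `β_j = 0`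
for all `j` with `fib j ≠ J`. Replace `y β` by `0` for non positive `β` (`lp_congr`, `mem_posList`).
-/

set_option autoImplicit false
open Matrix

namespace Pool.Agent.H86.UM

open Pool.Agent.H75.UL

variable {n : ℕ} (C : SLC n)

theorem image_pos {ι : Type} {E : Type*} [Group E] {k : Type*} [Field k] (S : Src ι E k)
    {F : Type*} [Field F] (Ψ : E →* GL C.Idx F) (h : Tgt C S Ψ) (fib : Fin n → ι)
    (hT : ∀ x ∈ S.T, Ψ x ∈ (C.adS F).T) (J : ι) (t : E) (ht : t ∈ S.T) (ht1 : S.a J t = 1)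
    (hsemi : ∀ γ : C.Root, (∃ j, fib j ≠ J ∧ γ.1 j ≠ 0) →
      C.chi (Ψ t : Matrix C.Idx C.Idx F) γ ≠ 1) (x : E) (hx : x ∈ S.X J) :
    ∃ y : C.Root → F, Ψ x = (C.adS F).lp C.posList y ∧
      ∀ β, y β ≠ 0 → C.Pos β ∧ ∀ j, fib j ≠ J → β.1 j = 0 := by
  classical
  have hXU : x ∈ S.U := S.X_le J hx
  have hu : Ψ x ∈ (C.adS F).U 1 := h.U_le x hXU
  have hcomm : Ψ t * Ψ x = Ψ x * Ψ t := by
    rw [← map_mul, ← map_mul, S.cent J t ht ht1 x hx]
  obtain ⟨y, hy, hy'⟩ := C.centralizer_U (Ψ t) (Ψ x) (hT t ht) hu hcomm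
  refine ⟨fun β => if C.Pos β then y β else 0, ?_, ?_⟩
  · rw [hy]
    apply (C.adS F).lp_congr
    intro β hβ
    rw [C.mem_posList] at hβ
    rw [if_pos hβ]
  · intro β hβ
    beta_reduce at hβ
    by_cases hp : C.Pos β
    · rw [if_pos hp] at hβ
      refine ⟨hp, fun j hj => ?_⟩
      by_contra hne
      exact hsemi β ⟨j, hj, hne⟩ (hy' β hp hβ)
    · rw [if_neg hp] at hβ
      exact absurd rfl hβ

end Pool.Agent.H86.UM
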