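import Pool.Agent.H86.UM.EX1
import Pool.Agent.H86.UM.ImP
import Pool.Agent.H86.UM.ImN
import Pool.Agent.H86.UM.SRc

/-!
# Project UM, module EX2: images of the simple root groups

`fib` is constant on the orbits of `ρ` and surjective onto `D.Orb`, so it induces a surjection
`D.Orb → D.Orb`, which is a bijection (`D.Orb` is finite); `π` is its inverse: the fibre of `⟦i⟧` is the orbit
`π ⟦i⟧`. For `x ∈ X ⟦i⟧`: `image_pos` (the element `t` from `exists_semiregular'`) gives
`Ψ x = lp posList y` with `y β ≠ 0` only for positive `β` supported on the fibre, i.e. on the orbit of `i'`;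
so all factors are in `XO (simple i')` (`supp_inO`, FX), and `Ψ x` is fixed by `σ'`, so in `fixX`. Negative:
`image_neg`: `Ψ (ν x ν⁻¹) = ν' (lp y) ν'⁻¹ = ∏ ν' x_β ν'⁻¹`, factors `x_(wβ)` with `w β` negative and
supported on the orbit, so in `XO (- simple i')` (`supp_inO` for `-(w β)`; `XO D S (-β)` is generated by the
root elements for the negatives).
-/

set_option autoImplicit false
open Matrix

namespace Pool.Agent.H86.UM

open Pool.Agent.H75.UL

variable {n : ℕ} (C : SLC n)

private theorem EX2_iter_neg (D : Dg C) (l : ℕ) (β : C.Root) : D.r^[l] (-β) = -(D.r^[l] β) := by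
  induction l with
  | zero => rfl
  | succ l ih =>
    rw [Function.iterate_succ', Function.comp, ih, D.r_neg]
    rfl

private theorem EX2_inO_neg (D : Dg C) (β γ : C.Root) (h : D.inO β (-γ)) : D.inO (-β) γ := by
  rcases h with ⟨l, hl⟩ | h
  · left
    refine ⟨l, ?_⟩
    rw [EX2_iter_neg, ← hl, C.neg_neg_root]
  · right
    rw [D.r_neg, SLC.Root.neg_val, SLC.Root.neg_val]
    rw [SLC.Root.neg_val] at h
    funext i
    have h1 := congrFun h i
    simp only [Pi.add_apply, Pi.neg_apply] at h1 ⊢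
    omega

private theorem EX2_x_zero {K : Type*} [Field K] (β : C.Root) :
    (C.adS K).x β 0 = 1 := (C.adS K).x_zero β

private theorem EX2_fib_pow {D : Dg C} {α : Type*} (fib : Fin n → α) (hr : ∀ j, fib (D.ρ j) = fib j)
    (i j : Fin n) (h : D.ρ.SameCycle i j) : fib i = fib j := by
  have hn : ∀ (m : ℕ) (i : Fin n), fib ((D.ρ ^ m) i) = fib i := by
    intro m
    induction m with
    | zero => intro i; rfl
    | succ m ih =>
      intro i
      rw [pow_succ, Equiv.Perm.mul_apply, ih, hr]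
  obtain ⟨z, hz⟩ := h
  obtain ⟨m, hm⟩ := z.eq_nat_or_neg
  rcases hm with rfl | rfl
  · rw [← hz, zpow_natCast, hn]
  · rw [_root_.zpow_neg, zpow_natCast, Equiv.Perm.inv_eq_iff_eq] at hz
    rw [hz, hn]

theorem image_stage (D : Dg C) {E : Type*} [Group E] {k : Type*} [Field k]
    (S : Src D.Orb E k) {K : Type*} [Field K] (θ' : K ≃+* K) (Ψ : E →* GL C.Idx K)
    (hσ : ∀ x, D.sgl θ' (Ψ x) = Ψ x) (hT : Tgt C S Ψ)
    (hTT : ∀ h ∈ S.T, Ψ h ∈ (C.adS K).T) (fib : Fin n → D.Orb)
    (hf : Fib C S Ψ fib) (hr : ∀ j, fib (D.ρ j) = fib j) :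
    ∃ π : Equiv.Perm D.Orb, ∀ i i' : Fin n, (Quotient.mk _ i' : D.Orb) = π (Quotient.mk _ i) →
      ∀ x ∈ S.X (Quotient.mk _ i),
        Ψ x ∈ fixX D (C.adS K) (D.sgl θ') (C.simple i') ∧
        Ψ (S.ν (Quotient.mk _ i) * x * (S.ν (Quotient.mk _ i))⁻¹) ∈
          fixX D (C.adS K) (D.sgl θ') (-(C.simple i')) := by
  classical
  let f : D.Orb → D.Orb := Quotient.lift fib (fun i j h => EX2_fib_pow C fib hr i j h)
  have hfq : ∀ j, f (Quotient.mk _ j) = fib j := fun _ => rfl
  have hfs : Function.Surjective f := by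
    intro J
    obtain ⟨j, hj⟩ := hf.surj J
    exact ⟨Quotient.mk _ j, hj⟩
  have hfb : Function.Bijective f := Function.Surjective.bijective_of_finite hfs
  refine ⟨(Equiv.ofBijective f hfb).symm, ?_⟩
  intro i i' hii' x hx
  have hi' : fib i' = Quotient.mk _ i := by
    have h1 : (Equiv.ofBijective f hfb) (Quotient.mk _ i') = Quotient.mk _ i := by
      rw [hii', Equiv.apply_symm_apply]
    exact h1
  have hsupp : ∀ β : C.Root, (∀ j, fib j ≠ Quotient.mk _ i → β.1 j = 0) → D.supp i' β := by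
    intro β hβ j hj
    have h1 : fib j = fib i' := by
      rw [hi']
      by_contra h2
      exact hj (hβ j h2)
    have h2 : (Quotient.mk _ j : D.Orb) = Quotient.mk _ i' := hfb.1 h1
    exact (Quotient.exact h2).symm
  constructor
  · obtain ⟨t, ht, ht1, hsemi⟩ := exists_semiregular' C S Ψ hT fib hf (Quotient.mk _ i)
    obtain ⟨y, hy, hy0⟩ := image_pos C S Ψ hT fib hTT (Quotient.mk _ i) t ht ht1 hsemi x hx
    refine ⟨?_, hσ x⟩
    rw [hy]
    refine Subgroup.list_prod_mem _ ?_
    intro g hg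
    obtain ⟨β, _, rfl⟩ := List.mem_map.1 hg
    by_cases hβ : y β = 0
    · rw [hβ, EX2_x_zero C β]
      exact one_mem _
    · obtain ⟨h1, h2⟩ := hy0 β hβ
      exact Subgroup.subset_closure ⟨β, y β, supp_inO D i' β h1 (hsupp β h2), rfl⟩
  · obtain ⟨ν', hν', w, hw, hact, hneg, himg⟩ := image_neg C S Ψ hT fib hf hTT (Quotient.mk _ i)
    obtain ⟨y, hy, hy0⟩ := himg x hx
    refine ⟨?_, hσ _⟩
    rw [hy]
    obtain ⟨c, _, hc⟩ := hact
    have hle : ((C.adS K).lp C.posList y) ∈
        (XO D (C.adS K) (-(C.simple i'))).comap (MulAut.conj ν').toMonoidHom := by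
      refine Subgroup.list_prod_mem _ ?_
      intro g hg
      obtain ⟨β, _, rfl⟩ := List.mem_map.1 hg
      by_cases hβ : y β = 0
      · rw [hβ, EX2_x_zero C β]
        exact one_mem _
      · obtain ⟨h1, h2⟩ := hy0 β hβ
        obtain ⟨h3, h4⟩ := hneg β h1 h2
        rw [Subgroup.mem_comap]
        change ν' * (C.adS K).x β (y β) * ν'⁻¹ ∈ _
        rw [hc]
        refine Subgroup.subset_closure ⟨w β, _, ?_, rfl⟩
        apply EX2_inO_neg
        apply supp_inO D i'
        · unfold SLC.Pos at h3 ⊢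
          have h5 := C.ht_ne_zero (w β)
          rw [SLC.Root.neg_val, ht_neg]
          omega
        · apply hsupp
          intro j hj
          rw [SLC.Root.neg_val, Pi.neg_apply, h4 j hj, neg_zero]
    exact hle

end Pool.Agent.H86.UM
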