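import Pool.Agent.H75.UT.D3
import Pool.Agent.H75.UT.D6a
import Pool.Agent.H75.UT.D6b
import Pool.Agent.H75.UT.D7
import Pool.Agent.H75.UT.D7i
import Pool.Agent.H86.UM.Src

/-!
# Project UM: the source groups `Eg S s`, environment

`Env D θ S s p`: `S` is a Steinberg system in `H` over the infinite field `k`, `s` acts as `σ`
(`IsSig`), `p` is the adjoint representation. `Z β` is the group of the root elements of `β + ρ β`
(trivial if this is not a root), `yb β t` the product of the elements `s^l (x_β(t))`.
-/

set_option autoImplicit false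
open Matrix

namespace Pool.Agent.H86.UM

open Pool.Agent.H75.UL

variable {n : ℕ} {C : SLC n}

/-- The data of a twisted or folded group. -/
structure Env (D : Dg C) {k : Type*} [Field k] (θ : k ≃+* k) {H : Type*} [Group H]
    (S : StSys C k H) (s : H →* H) (p : H →* GL C.Idx k) : Prop where
  inf : Infinite k
  sig : IsSig D θ S s
  hp : ∀ β t, p (S.x β t) = C.xg k β t
  hθ : ∀ t, (⇑θ)^[D.m] t = t
  hA : D.NA ∨ ∃ e, e ≠ 0 ∧ θ e = -e
  hB : D.NA ∨ ∀ z, θ z = z → ∃ v, v + θ v = z
  hC : D.NA ∨ ∀ v, v + θ v = 0 → ∃ t, v = t - θ t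

/-- The fixed field of `θ`. -/
def fixF {k : Type*} [Field k] (θ : k ≃+* k) : Subfield k where
  carrier := {t | θ t = t}
  mul_mem' := by
    intro a b ha hb
    simp only [Set.mem_setOf_eq] at *
    rw [map_mul, ha, hb]
  one_mem' := map_one θ
  add_mem' := by
    intro a b ha hb
    simp only [Set.mem_setOf_eq] at *
    rw [map_add, ha, hb]
  zero_mem' := map_zero θ
  neg_mem' := by
    intro a ha
    simp only [Set.mem_setOf_eq] at *
    rw [map_neg, ha]
  inv_mem' := by
    intro a ha
    simp only [Set.mem_setOf_eq] at *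
    rw [map_inv₀, ha]

theorem mem_fixF {k : Type*} [Field k] (θ : k ≃+* k) (t : k) : t ∈ fixF θ ↔ θ t = t := Iff.rfl

open Classical in
/-- The number of roots in the orbit of `β`. -/
noncomputable def mo (D : Dg C) (β : C.Root) : ℕ := if D.r β = β then 1 else D.m

/-- The root elements of `β + ρ β`. -/
def ZZ (D : Dg C) {k : Type*} [Field k] {H : Type*} [Group H] (S : StSys C k H) (β : C.Root) :
    Subgroup H := Subgroup.closure {g | ∃ γ v, γ.1 = β.1 + (D.r β).1 ∧ g = S.x γ v}

/-- The product of the elements `s^l (x_β(t))` over the orbit of `β`. -/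
noncomputable def yb (D : Dg C) {k : Type*} [Field k] {H : Type*} [Group H] (S : StSys C k H)
    (s : H →* H) (β : C.Root) (t : k) : H :=
  ((List.range (mo D β)).map fun l => s^[l] (S.x β t)).prod

end Pool.Agent.H86.UM
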