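import Pool.Agent.H86.UM.FC1
import Pool.Agent.H86.UM.AD
import Pool.Agent.H86.UM.GR

/-!
# Project UM, module FC2: the field homomorphisms of neighbouring orbits

`mo D (simple i)` is `1` if `ρ i = i`, otherwise `m` (`r_simple`, `simple_injective`).
`sp_nn`: `P = ∏_l (θ^l t) ^ A (ρ^l i) j = t⁻¹` by `orb_adj` (`A i j = -1` by `C.off`); `RO_compat`.
`sp_fx`: `i` fixed: `P = t ^ A i j = t⁻¹`. `sp_norm`: `j` fixed, `A (ρ^l i) j = A i j = -1` for all `l`
(`hρ`), so `P` is the inverse of the product, `RO_compat`. `sp_adj`: `RO_tor` for `i`, `t`: `h` with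
`chi (p h) (simple j) = t⁻¹` (`orb_adj`), `chi (Ψ h) (simple j) = (φ t)⁻¹`; apply `Ψ` to `h x h⁻¹` with
`x ∈ fixX (simple j)`, `xi j (p x) = 1` (`fixX_xi_exists`), `Pin_xi`, `xi_conj`.
`RO_eq`: `x = yb (± simple i) t` (`fixX_form`, `mem_kO`, `ZZ` trivial; negative case with `S.neg` or `SR_ν`), and
`mp φ (p x) = yb' (± simple i) (φ t)` (`IsSig.iter`, `sgl`, `φ (θ^l t) = θ'^l (φ t)`), conjugation with `tad cc`
multiplies the coordinate at `± simple (ρ^l i)` by `(cc (ρ^l i)) ^ ± 1 = (θ'^l c) ^ ± 1`.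
-/

set_option autoImplicit false
open Matrix

namespace Pool.Agent.H86.UM

open Pool.Agent.H75.UL

variable {n : ℕ} {C : SLC n} {D : Dg C} {k : Type*} [Field k] {θ : k ≃+* k} {H : Type*} [Group H]
  {S : StSys C k H} {s : H →* H} {p : H →* GL C.Idx k}

private theorem FC2_off (i j : Fin n) (hij : i ≠ j) (hA : C.A i j ≠ 0) : C.A i j = -1 :=
  (C.off i j hij).resolve_left hA

private theorem FC2_diag (i : Fin n) (h : D.ρ i = i) : C.A i (D.ρ i) ≠ -1 := by
  rw [h, C.diag]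
  norm_num

private theorem FC2_m_pos (D : Dg C) : 0 < D.m := by
  rcases D.m_cases with h | h | h <;> omega

private theorem FC2_mo_fix (i : Fin n) (h : D.ρ i = i) : mo D (C.simple i) = 1 := by
  unfold mo
  rw [if_pos]
  rw [D.r_simple, h]

private theorem FC2_mo_ne (i : Fin n) (h : D.ρ i ≠ i) : mo D (C.simple i) = D.m := by
  unfold mo
  rw [if_neg]
  rw [D.r_simple]
  exact fun hc => h (C.simple_injective hc)

private theorem FC2_prod {F : Type*} [Field F] (f : ℕ → F) (i j : Fin n) (m : ℕ) (hm : 0 < m)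
    (hA : C.A i j = -1) (h : ∀ l, 0 < l → l < m → C.A ((D.ρ ^ l) i) j = 0) :
    ∏ l ∈ Finset.range m, f l ^ C.A ((D.ρ ^ l) i) j = (f 0)⁻¹ := by
  rw [Finset.prod_eq_single 0]
  · rw [pow_zero, Equiv.Perm.one_apply, hA, _root_.zpow_neg_one]
  · intro l hl hl0
    rw [h l (Nat.pos_of_ne_zero hl0) (Finset.mem_range.mp hl), _root_.zpow_zero]
  · intro h0
    exact absurd (Finset.mem_range.mpr hm) h0

/-- two neighbouring orbits, not fixed, not adjacent -/
theorem sp_nn (he : Env D θ S s p) {K : Type*} [Field K] (θ' : K ≃+* K)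
    (Ψ : Eg S s →* GL C.Idx K) (hP : Pin he θ' Ψ) (i j : Fin n) (hi : C.A i (D.ρ i) ≠ -1)
    (hj : C.A j (D.ρ j) ≠ -1) (hij : ¬ D.ρ.SameCycle i j) (hA : C.A i j ≠ 0)
    (hi' : D.ρ i ≠ i) (hj' : D.ρ j ≠ j)
    (c : K) (φ : kO D θ i →+* K) (hR : RO he θ' Ψ i c φ)
    (c' : K) (φ' : kO D θ j →+* K) (hR' : RO he θ' Ψ j c' φ')
    (t : kO D θ i) (t' : kO D θ j) (htt : (t' : k) = t) : φ' t' = φ t := by
  by_cases h0 : t = 0
  · have h1 : t' = 0 := by
      apply Subtype.ext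
      rw [htt, h0]
      rfl
    rw [h0, h1, map_zero, map_zero]
  · have hne : i ≠ j := fun h => hij (h ▸ Equiv.Perm.SameCycle.refl _ _)
    have hA1 := FC2_off i j hne hA
    have hz : ∀ l, 0 < l → l < mo D (C.simple i) → C.A ((D.ρ ^ l) i) j = 0 := by
      intro l h1 h2
      rw [FC2_mo_ne i hi'] at h2
      exact orb_adj D i j hij hA hi' hj' l h1 h2
    have hm : 0 < mo D (C.simple i) := by
      rw [FC2_mo_ne i hi']
      exact FC2_m_pos D
    have h1 := RO_compat he θ' Ψ hP i j hi hj c φ hR c' φ' hR' t h0 t'⁻¹ (by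
      rw [FC2_prod (fun l => (⇑θ)^[l] (t : k)) i j _ hm hA1 hz]
      change ((t' : k))⁻¹ = _
      rw [htt]
      rfl)
    rw [FC2_prod (fun l => (⇑θ')^[l] (φ t)) i j _ hm hA1 hz, map_inv₀] at h1
    exact inv_injective h1

/-- `i` fixed, `j` a neighbour (fixed or not, not adjacent) -/
theorem sp_fx (he : Env D θ S s p) {K : Type*} [Field K] (θ' : K ≃+* K)
    (Ψ : Eg S s →* GL C.Idx K) (hP : Pin he θ' Ψ) (i j : Fin n)
    (hj : C.A j (D.ρ j) ≠ -1) (hij : i ≠ j) (hA : C.A i j ≠ 0) (hi' : D.ρ i = i)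
    (c : K) (φ : kO D θ i →+* K) (hR : RO he θ' Ψ i c φ)
    (c' : K) (φ' : kO D θ j →+* K) (hR' : RO he θ' Ψ j c' φ')
    (t : kO D θ i) (t' : kO D θ j) (htt : (t' : k) = t) : φ' t' = φ t := by
  by_cases h0 : t = 0
  · have h1 : t' = 0 := by
      apply Subtype.ext
      rw [htt, h0]
      rfl
    rw [h0, h1, map_zero, map_zero]
  · have hA1 := FC2_off i j hij hA
    have hz : ∀ l, 0 < l → l < mo D (C.simple i) → C.A ((D.ρ ^ l) i) j = 0 := by
      intro l h1 h2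
      rw [FC2_mo_fix i hi'] at h2
      omega
    have hm : 0 < mo D (C.simple i) := by
      rw [FC2_mo_fix i hi']
      exact one_pos
    have h1 := RO_compat he θ' Ψ hP i j (FC2_diag i hi') hj c φ hR c' φ' hR' t h0 t'⁻¹ (by
      rw [FC2_prod (fun l => (⇑θ)^[l] (t : k)) i j _ hm hA1 hz]
      change ((t' : k))⁻¹ = _
      rw [htt]
      rfl)
    rw [FC2_prod (fun l => (⇑θ')^[l] (φ t)) i j _ hm hA1 hz, map_inv₀] at h1
    exact inv_injective h1

private theorem FC2_pow (D : Dg C) (i j : Fin n) (hj : D.ρ j = j) (l : ℕ) :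
    C.A ((D.ρ ^ l) i) j = C.A i j := by
  induction l with
  | zero => rfl
  | succ l ih =>
    rw [pow_succ', Equiv.Perm.mul_apply]
    conv_lhs => rw [← hj]
    rw [D.hρ, ih]

/-- `j` fixed, `i` a neighbour which is not fixed: norms -/
theorem sp_norm (he : Env D θ S s p) {K : Type*} [Field K] (θ' : K ≃+* K)
    (Ψ : Eg S s →* GL C.Idx K) (hP : Pin he θ' Ψ) (i j : Fin n) (hi : C.A i (D.ρ i) ≠ -1)
    (hA : C.A i j ≠ 0) (hi' : D.ρ i ≠ i) (hj' : D.ρ j = j)
    (c : K) (φ : kO D θ i →+* K) (hR : RO he θ' Ψ i c φ)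
    (c' : K) (φ' : kO D θ j →+* K) (hR' : RO he θ' Ψ j c' φ')
    (t : kO D θ i) (P : kO D θ j) (hPt : (P : k) = ∏ l ∈ Finset.range D.m, (⇑θ)^[l] (t : k)) :
    φ' P = ∏ l ∈ Finset.range D.m, (⇑θ')^[l] (φ t) := by
  have hm := FC2_m_pos D
  by_cases h0 : t = 0
  · have h1 : P = 0 := by
      apply Subtype.ext
      rw [hPt, h0]
      exact Finset.prod_eq_zero (Finset.mem_range.mpr hm) rfl
    rw [h0, h1, map_zero, map_zero]
    exact (Finset.prod_eq_zero (Finset.mem_range.mpr hm) rfl).symm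
  · have hne : i ≠ j := fun h => hi' (by rw [h, hj'])
    have hA1 := FC2_off i j hne hA
    have h1 := RO_compat he θ' Ψ hP i j hi (FC2_diag j hj') c φ hR c' φ' hR' t h0 P⁻¹ (by
      rw [FC2_mo_ne i hi']
      change ((P : k))⁻¹ = _
      rw [hPt, ← Finset.prod_inv_distrib]
      refine Finset.prod_congr rfl fun l _ => ?_
      rw [FC2_pow D i j hj', hA1, _root_.zpow_neg_one])
    rw [FC2_mo_ne i hi', map_inv₀] at h1
    have h2 : ∏ l ∈ Finset.range D.m, (⇑θ')^[l] (φ t) ^ C.A ((D.ρ ^ l) i) j =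
        (∏ l ∈ Finset.range D.m, (⇑θ')^[l] (φ t))⁻¹ := by
      rw [← Finset.prod_inv_distrib]
      refine Finset.prod_congr rfl fun l _ => ?_
      rw [FC2_pow D i j hj', hA1, _root_.zpow_neg_one]
    rw [h2] at h1
    exact inv_injective h1

private theorem FC2_gad (he : Env D θ S s p) (h : H) (hh : h ∈ S.T) :
    p h ∈ C.Gad k ∧ C.Fil 0 (p h : Matrix C.Idx C.Idx k) := by
  have h1 := C.S9_T S p he.hp h hh
  refine ⟨?_, C.Fil_T _ h1⟩
  rw [← C.gen_adS k]
  exact (C.adS k).T_le_gen h1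

private theorem FC2_XO_conj (he : Env D θ S s p) (h : H) (hh : h ∈ S.T) (β : C.Root) (x : H)
    (hx : x ∈ XO D S β) : h * x * h⁻¹ ∈ XO D S β := by
  unfold XO at hx
  induction hx using Subgroup.closure_induction with
  | mem g hg =>
    obtain ⟨γ, t, hγ, rfl⟩ := hg
    rw [(SR_T he h hh γ t).2]
    exact Subgroup.subset_closure ⟨_, _, hγ, rfl⟩
  | one =>
    rw [mul_one, mul_inv_cancel]
    exact Subgroup.one_mem _
  | mul a b _ _ ha hb =>
    have : h * (a * b) * h⁻¹ = (h * a * h⁻¹) * (h * b * h⁻¹) := by group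
    rw [this]
    exact Subgroup.mul_mem _ ha hb
  | inv a _ ha =>
    have : h * a⁻¹ * h⁻¹ = (h * a * h⁻¹)⁻¹ := by group
    rw [this]
    exact Subgroup.inv_mem _ ha

/-- `j` in the adjacent orbit, `i` a neighbour outside -/
theorem sp_adj (he : Env D θ S s p) {K : Type*} [Field K] (θ' : K ≃+* K)
    (Ψ : Eg S s →* GL C.Idx K) (hP : Pin he θ' Ψ) (i j : Fin n) (hi : C.A i (D.ρ i) ≠ -1)
    (hj : C.A j (D.ρ j) = -1) (hij : ¬ D.ρ.SameCycle i j) (hA : C.A i j ≠ 0)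
    (hi' : D.ρ i ≠ i)
    (c : K) (φ : kO D θ i →+* K) (hR : RO he θ' Ψ i c φ)
    (c' : K) (φ' : k →+* K) (hR' : RA he Ψ j c' φ') (t : kO D θ i) : φ' t = φ t := by
  by_cases h0 : t = 0
  · rw [h0, map_zero]
    exact map_zero φ'
  · have hne : i ≠ j := fun h => hij (h ▸ Equiv.Perm.SameCycle.refl _ _)
    have hA1 := FC2_off i j hne hA
    have hj' : D.ρ j ≠ j := by
      intro h
      exact FC2_diag j h hj
    have hz : ∀ l, 0 < l → l < mo D (C.simple i) → C.A ((D.ρ ^ l) i) j = 0 := by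
      intro l h1 h2
      rw [FC2_mo_ne i hi'] at h2
      exact orb_adj D i j hij hA hi' hj' l h1 h2
    have hm : 0 < mo D (C.simple i) := by
      rw [FC2_mo_ne i hi']
      exact FC2_m_pos D
    obtain ⟨h, hT, hh1, hh2⟩ := RO_tor he θ' Ψ hP i hi c φ hR t h0
    have e1 := hh1 j
    rw [FC2_prod (fun l => (⇑θ)^[l] (t : k)) i j _ hm hA1 hz] at e1
    have e2 := hh2 j
    rw [FC2_prod (fun l => (⇑θ')^[l] (φ t)) i j _ hm hA1 hz] at e2
    obtain ⟨x, hx, hx1⟩ := fixX_xi_exists he j 1 (fun _ => map_one θ)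
    have hxE : x ∈ Eg S s := Subgroup.mem_sup_left (fixX_le_fixU S s _ (C.simple_pos j) hx)
    have hy : ((h * ⟨x, hxE⟩ * h⁻¹ : Eg S s) : H) ∈ fixX D S s (C.simple j) := by
      refine ⟨FC2_XO_conj he h.1 hT _ x hx.1, ?_⟩
      change s (h.1 * x * h.1⁻¹) = h.1 * x * h.1⁻¹
      rw [map_mul, map_mul, map_inv, Eg_le_fix S s _ h.2, Eg_le_fix S s _ hxE]
    have h3 := hR'.coord _ hy
    have h4 := Pin_xi he θ' Ψ hP h hT j ⟨x, hxE⟩ hx
    have h5 := hR'.coord ⟨x, hxE⟩ hx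
    rw [hx1, map_one, mul_one] at h5
    rw [h4, h5, e2] at h3
    have h6 : C.xi j (p ((h * ⟨x, hxE⟩ * h⁻¹ : Eg S s) : H) : Matrix C.Idx C.Idx k) =
        (t : k)⁻¹ := by
      have h7 := (C.xi_conj (p h.1) (p x) (FC2_gad he h.1 hT).1 (FC2_gad he h.1 hT).2
        (C.S9_U S p he.hp 1 x (fixX_le_fixU S s _ (C.simple_pos j) hx).1) j).2
      rw [e1, hx1, mul_one] at h7
      rw [Subgroup.coe_mul, Subgroup.coe_mul, Subgroup.coe_inv, map_mul, map_mul, map_inv]
      exact h7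
    rw [h6, map_inv₀, mul_comm] at h3
    exact (inv_injective (mul_left_cancel₀ hR'.c_ne h3)).symm

/-! ### explicit form of `yb` -/

private theorem FC2_sgp (D : Dg C) (i : Fin n) (l : ℕ) : D.sgp l (C.simple i) = 1 := by
  unfold Dg.sgp
  refine Finset.prod_eq_one fun j _ => ?_
  rw [D.r_iter_simple, D.sg_simple]

private theorem FC2_iter_neg (D : Dg C) (l : ℕ) (β : C.Root) : D.r^[l] (-β) = -(D.r^[l] β) := by
  induction l with
  | zero => rfl
  | succ l ih => rw [Function.iterate_succ_apply', Function.iterate_succ_apply', ih, D.r_neg]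

private theorem FC2_sgp_neg (D : Dg C) (i : Fin n) (l : ℕ) : D.sgp l (-(C.simple i)) = 1 := by
  unfold Dg.sgp
  refine Finset.prod_eq_one fun j _ => ?_
  rw [FC2_iter_neg, D.sg_neg, D.r_iter_simple, D.sg_simple]

private theorem FC2_mo_neg (D : Dg C) (β : C.Root) : mo D (-β) = mo D β := by
  unfold mo
  have h : D.r (-β) = -β ↔ D.r β = β := by
    rw [D.r_neg]
    constructor
    · intro h
      have := congrArg (fun x : C.Root => -x) h
      simpa [C.neg_neg_root] using this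
    · intro h
      rw [h]
  by_cases h1 : D.r β = β
  · rw [if_pos h1, if_pos (h.mpr h1)]
  · rw [if_neg h1, if_neg (fun h2 => h1 (h.mp h2))]

private theorem FC2_yb_pos {F : Type*} [Field F] {ϑ : F ≃+* F} {G : Type*} [Group G]
    {A : StSys C F G} {a : G →* G} (h : IsSig D ϑ A a) (i : Fin n) (t : F) :
    yb D A a (C.simple i) t = ((List.range (mo D (C.simple i))).map fun l =>
      A.x (C.simple ((D.ρ ^ l) i)) ((⇑ϑ)^[l] t)).prod := by
  unfold yb
  congr 1
  apply List.map_congr_left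
  intro l _
  rw [h.iter, FC2_sgp, D.r_iter_simple, Int.cast_one, one_mul]

private theorem FC2_yb_neg {F : Type*} [Field F] {ϑ : F ≃+* F} {G : Type*} [Group G]
    {A : StSys C F G} {a : G →* G} (h : IsSig D ϑ A a) (i : Fin n) (t : F) :
    yb D A a (-(C.simple i)) t = ((List.range (mo D (C.simple i))).map fun l =>
      A.x (-(C.simple ((D.ρ ^ l) i))) ((⇑ϑ)^[l] t)).prod := by
  unfold yb
  rw [FC2_mo_neg]
  congr 1
  apply List.map_congr_left
  intro l _
  rw [h.iter, FC2_sgp_neg, FC2_iter_neg, D.r_iter_simple, Int.cast_one, one_mul]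

private theorem FC2_ZZ (S : StSys C k H) (i : Fin n) (hi : C.A i (D.ρ i) ≠ -1) (z : H)
    (hz : z ∈ ZZ D S (C.simple i)) : z = 1 := by
  unfold ZZ at hz
  rw [← Subgroup.mem_bot]
  refine (Subgroup.closure_le (K := (⊥ : Subgroup H))).mpr ?_ hz
  rintro g ⟨γ, v, hγ, rfl⟩
  exfalso
  have h1 := C.ip_add_root _ _ _ hγ
  rw [D.r_simple, SLC.simple_val, SLC.simple_val, SLC.ip_single] at h1
  exact hi h1

private theorem FC2_form (he : Env D θ S s p) (i : Fin n) (hi : C.A i (D.ρ i) ≠ -1) (x : H)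
    (hx : x ∈ fixX D S s (C.simple i)) :
    ∃ t : kO D θ i, x = yb D S s (C.simple i) t := by
  obtain ⟨t, ht, z, hz, hxz⟩ := fixX_form he (C.simple i) (C.simple_pos i) x hx
  refine ⟨⟨t, (mem_kO D θ i t).mpr fun h => ?_⟩, ?_⟩
  · have h1 := ht (by rw [D.r_simple, h])
    rwa [D.sg_simple, Int.cast_one, one_mul] at h1
  · rw [hxz, FC2_ZZ S i hi z hz, mul_one]

/-- the environment for the negative roots -/
private theorem FC2_neg (he : Env D θ S s p) :
    Env D θ S.neg s ((MulAut.conj (omG C k)).toMonoidHom.comp p) where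
  inf := he.inf
  sig := he.sig.neg
  hp := by
    intro β t
    change omG C k * p (S.x (-β) t) * (omG C k)⁻¹ = C.xg k β t
    rw [he.hp, omG_xg, C.neg_neg_root]
  hθ := he.hθ
  hA := he.hA
  hB := he.hB
  hC := he.hC

private theorem FC2_inO_neg (D : Dg C) (β γ : C.Root) (hγ : D.inO β γ) : D.inO (-β) (-γ) := by
  rcases hγ with ⟨l, rfl⟩ | h
  · exact Or.inl ⟨l, (FC2_iter_neg D l β).symm⟩
  · right
    rw [D.r_neg, SLC.Root.neg_val, SLC.Root.neg_val, SLC.Root.neg_val, h, neg_add]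

private theorem FC2_XO_neg (D : Dg C) (S : StSys C k H) (β : C.Root) :
    XO D S (-β) ≤ XO D S.neg β := by
  unfold XO
  apply Subgroup.closure_mono
  rintro g ⟨γ, t, hγ, rfl⟩
  refine ⟨-γ, t, ?_, ?_⟩
  · have h := FC2_inO_neg D _ _ hγ
    rwa [C.neg_neg_root] at h
  · rw [StSys.neg_x, C.neg_neg_root]

private theorem FC2_form_neg (he : Env D θ S s p) (i : Fin n) (hi : C.A i (D.ρ i) ≠ -1) (x : H)
    (hx : x ∈ fixX D S s (-(C.simple i))) :
    ∃ t : kO D θ i, x = yb D S s (-(C.simple i)) t := by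
  have hx' : x ∈ fixX D S.neg s (C.simple i) := ⟨FC2_XO_neg D S _ hx.1, hx.2⟩
  obtain ⟨t, ht⟩ := FC2_form (FC2_neg he) i hi x hx'
  refine ⟨t, ?_⟩
  rw [ht, FC2_yb_neg he.sig, FC2_yb_pos he.sig.neg]
  rfl

private theorem FC2_rho_ne (i : Fin n) (l : ℕ) (h0 : 0 < l) (hl : l < mo D (C.simple i)) :
    (D.ρ ^ l) i ≠ i := by
  by_cases h : D.ρ i = i
  · rw [FC2_mo_fix i h] at hl
    omega
  · rw [FC2_mo_ne i h] at hl
    intro hc
    have h1 : D.r (C.simple i) ≠ C.simple i := by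
      rw [D.r_simple]
      exact fun hc => h (C.simple_injective hc)
    have h2 := D.r_iter_eq (C.simple i) h1 l 0 hl (FC2_m_pos D) (by
      rw [D.r_iter_simple, hc]
      rfl)
    omega

private theorem FC2_xi_prod {F : Type*} [Field F] (D : Dg C) (i : Fin n) (f : ℕ → F) (k : ℕ)
    (h : ∀ l, 0 < l → l < k → (D.ρ ^ l) i ≠ i) :
    ((List.range k).map fun l => C.xg F (C.simple ((D.ρ ^ l) i)) (f l)).prod ∈ (C.adS F).U 1 ∧
    (0 < k → C.xi i (((List.range k).map fun l =>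
      C.xg F (C.simple ((D.ρ ^ l) i)) (f l)).prod : GL C.Idx F) = f 0) := by
  have hU : ∀ (j : Fin n) (u : F), C.xg F (C.simple j) u ∈ (C.adS F).U 1 := by
    intro j u
    refine Subgroup.subset_closure ⟨C.simple j, u, ?_, rfl⟩
    have := C.simple_pos j
    unfold SLC.Pos at this
    omega
  induction k with
  | zero =>
    refine ⟨?_, fun h => absurd h (lt_irrefl 0)⟩
    exact Subgroup.one_mem _
  | succ k ih =>
    obtain ⟨ih1, ih2⟩ := ih (fun l h0 hl => h l h0 (by omega))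
    rw [List.range_succ, List.map_append, List.prod_append, List.map_cons, List.map_nil,
      List.prod_cons, List.prod_nil, mul_one]
    refine ⟨Subgroup.mul_mem _ ih1 (hU _ _), fun _ => ?_⟩
    rw [C.xi_mul i _ _ ih1 (hU _ _), C.xi_xg i _ (C.simple_pos _)]
    rcases Nat.eq_zero_or_pos k with hk | hk
    · subst hk
      rw [List.range_zero, List.map_nil, List.prod_nil, pow_zero, Equiv.Perm.one_apply, if_pos rfl]
      have h1 := C.xi_mul i (1 : GL C.Idx F) 1 (Subgroup.one_mem _) (Subgroup.one_mem _)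
      rw [mul_one] at h1
      have h2 : C.xi i ((1 : GL C.Idx F) : Matrix C.Idx C.Idx F) = 0 := by
        have h3 := h1.symm
        rwa [add_eq_left] at h3
      rw [h2, zero_add]
    · rw [ih2 hk, if_neg, add_zero]
      exact fun hc => h k hk (by omega) (C.simple_injective hc)

private theorem FC2_mo_pos (D : Dg C) (β : C.Root) : 0 < mo D β := by
  unfold mo
  split_ifs
  · exact one_pos
  · exact FC2_m_pos D

theorem RO_RA (he : Env D θ S s p) {K : Type*} [Field K] (θ' : K ≃+* K)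
    (Ψ : Eg S s →* GL C.Idx K) (hP : Pin he θ' Ψ) (i : Fin n) (hi : C.A i (D.ρ i) ≠ -1)
    (c : K) (φ : kO D θ i →+* K) (hR : RO he θ' Ψ i c φ) (φ₀ : k →+* K)
    (h0 : ∀ t : kO D θ i, φ₀ t = φ t) : RA he Ψ i c φ₀ := by
  refine ⟨hR.c_ne, fun x hx => ?_⟩
  obtain ⟨t, ht⟩ := FC2_form he i hi x.1 hx
  have h1 := hR.pos t x ht
  rw [h1, FC2_yb_pos (isSig_adS D θ'), ht, FC2_yb_pos he.sig, map_list_prod, List.map_map]
  have e1 := (FC2_xi_prod (F := K) D i (fun l => (⇑θ')^[l] (c * φ t)) _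
    (fun l h0 hl => FC2_rho_ne i l h0 hl)).2 (FC2_mo_pos D _)
  have e2 := (FC2_xi_prod (F := k) D i (fun l => (⇑θ)^[l] (t : k)) _
    (fun l h0 hl => FC2_rho_ne i l h0 hl)).2 (FC2_mo_pos D _)
  have e3 : (⇑p ∘ fun l => S.x (C.simple ((D.ρ ^ l) i)) ((⇑θ)^[l] (t : k))) =
      fun l => C.xg k (C.simple ((D.ρ ^ l) i)) ((⇑θ)^[l] (t : k)) := by
    funext l
    exact he.hp _ _
  rw [e3, e2, ← h0 t]
  rw [← h0 t] at e1
  exact e1

private theorem FC2_single {F : Type*} [Field F] (c : Fin n → Fˣ) (j : Fin n) :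
    (∏ i, c i ^ (C.simple j).1 i : Fˣ) = c j := by
  rw [Finset.prod_eq_single j]
  · rw [SLC.simple_val, Pi.single_eq_same, zpow_one]
  · intro i _ hi
    rw [SLC.simple_val, Pi.single_eq_of_ne hi, zpow_zero]
  · intro h
    exact absurd (Finset.mem_univ j) h

private theorem FC2_single_neg {F : Type*} [Field F] (c : Fin n → Fˣ) (j : Fin n) :
    (∏ i, c i ^ (-(C.simple j)).1 i : Fˣ) = (c j)⁻¹ := by
  rw [← FC2_single (C := C) c j, ← Finset.prod_inv_distrib]
  refine Finset.prod_congr rfl fun i _ => ?_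
  rw [SLC.Root.neg_val, Pi.neg_apply, _root_.zpow_neg]

private theorem FC2_cc {K : Type*} [Field K] (D : Dg C) (θ' : K ≃+* K) (cc : Fin n → Kˣ)
    (h2 : ∀ j, (cc (D.ρ j) : K) = θ' (cc j)) (i : Fin n) (l : ℕ) :
    (cc ((D.ρ ^ l) i) : K) = (⇑θ')^[l] (cc i : K) := by
  induction l with
  | zero => rfl
  | succ l ih => rw [pow_succ', Equiv.Perm.mul_apply, h2, ih, Function.iterate_succ_apply']

private theorem FC2_phi {K : Type*} [Field K] (θ : k ≃+* k) (θ' : K ≃+* K) (φ₀ : k →+* K)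
    (hφ : ∀ t, φ₀ (θ t) = θ' (φ₀ t)) (t : k) (l : ℕ) :
    φ₀ ((⇑θ)^[l] t) = (⇑θ')^[l] (φ₀ t) := by
  induction l with
  | zero => rfl
  | succ l ih => rw [Function.iterate_succ_apply', hφ, ih, Function.iterate_succ_apply']

private theorem FC2_iter_mul {K : Type*} [Field K] (θ' : K ≃+* K) (a b : K) (l : ℕ) :
    (⇑θ')^[l] (a * b) = (⇑θ')^[l] a * (⇑θ')^[l] b := iterate_map_mul θ' l a b

private theorem FC2_iter_inv {K : Type*} [Field K] (θ' : K ≃+* K) (a : K) (l : ℕ) :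
    (⇑θ')^[l] a⁻¹ = ((⇑θ')^[l] a)⁻¹ := by
  induction l with
  | zero => rfl
  | succ l ih => rw [Function.iterate_succ_apply', ih, map_inv₀, Function.iterate_succ_apply']

theorem RO_eq (he : Env D θ S s p) {K : Type*} [Field K] (θ' : K ≃+* K)
    (Ψ : Eg S s →* GL C.Idx K) (hP : Pin he θ' Ψ) (i : Fin n) (hi : C.A i (D.ρ i) ≠ -1)
    (c : K) (φ : kO D θ i →+* K) (hR : RO he θ' Ψ i c φ) (φ₀ : k →+* K)
    (h0 : ∀ t : kO D θ i, φ₀ t = φ t) (hφ : ∀ t, φ₀ (θ t) = θ' (φ₀ t))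
    (cc : Fin n → Kˣ) (h1 : (cc i : K) = c) (h2 : ∀ j, (cc (D.ρ j) : K) = θ' (cc j)) (x : Eg S s)
    (hx : (x : H) ∈ fixX D S s (C.simple i) ∨ (x : H) ∈ fixX D S s (-(C.simple i))) :
    Ψ x = tad C cc * C.mp φ₀ (p x) * (tad C cc)⁻¹ := by
  set g : H →* GL C.Idx K := (MulAut.conj (tad C cc)).toMonoidHom.comp ((C.mp φ₀).comp p) with hg
  have hgx : ∀ β u, g (S.x β u) = C.xg K β (((∏ j, cc j ^ β.1 j : Kˣ) : K) * φ₀ u) := by
    intro β u
    change tad C cc * C.mp φ₀ (p (S.x β u)) * (tad C cc)⁻¹ = _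
    rw [he.hp, C.mp_xg, tad_xg]
  change Ψ x = g x
  rcases hx with hx | hx
  · obtain ⟨t, ht⟩ := FC2_form he i hi x.1 hx
    rw [hR.pos t x ht, FC2_yb_pos (isSig_adS D θ'), ht, FC2_yb_pos he.sig, map_list_prod,
      List.map_map]
    congr 1
    apply List.map_congr_left
    intro l _
    change C.xg K _ _ = g (S.x _ _)
    rw [hgx, FC2_single, FC2_cc D θ' cc h2, FC2_phi θ θ' φ₀ hφ, FC2_iter_mul, h1, h0]
  · obtain ⟨t, ht⟩ := FC2_form_neg he i hi x.1 hx
    rw [hR.neg t x ht, FC2_yb_neg (isSig_adS D θ'), ht, FC2_yb_neg he.sig, map_list_prod,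
      List.map_map]
    congr 1
    apply List.map_congr_left
    intro l _
    change C.xg K _ _ = g (S.x _ _)
    rw [hgx, FC2_single_neg, Units.val_inv_eq_inv_val, FC2_cc D θ' cc h2, FC2_phi θ θ' φ₀ hφ,
      FC2_iter_mul, FC2_iter_inv, h1, h0]

end Pool.Agent.H86.UM
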