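import Mathlib
import Pool.Agent.H62.CA.FixedVec

/-!
# Project UM, module KA1: the torus trick with an infinite set of group elements

`V` finite dimensional over an algebraically closed field `L`, `ρ : B →* End V`, `A` a subgroup of `B`,
`W` a submodule stable under all `ρ b`, on which the operators `ρ x`, `x ∈ A`, commute. `𝒮 ⊆ B`
infinite, `b A b⁻¹ ≤ A` for `b ∈ 𝒮`, such that for all distinct `τ, τ' ∈ 𝒮` and all `w ∈ A` there is
`u ∈ A` with `ρ w = ρ (τ u τ⁻¹ (τ' u τ'⁻¹)⁻¹)` on `W`. Then each `ρ w`, `w ∈ A`, is unipotent on `W`.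

Proof (compare `Pool.Agent.H75.UL.torus_trick` in H86/UL/K1.lean, the same argument for a
one-parameter family; it can be adapted). Work with the restrictions `a w : W → W` (`w ∈ A`), a
commuting family of invertible operators on the finite dimensional space `W`. For `χ : A → L` let
`W_χ` be the intersection of the maximal generalized eigenspaces of `a w` for `χ w`. By Mathlib
(`Module.End.iSup_iInf_maxGenEigenspace_eq_top_of_iSup_maxGenEigenspace_eq_top_of_commute` or the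
variant used in K1) `W` is the sum of the `W_χ`, and they are independent; so only finitely many `χ`
have `W_χ ≠ ⊥`. Such a `χ` is multiplicative. `ρ τ` maps `W_χ` to `W_χ'` with
`χ' (τ w τ⁻¹) = χ w`; hence with `χ` also the functions `w ↦ χ (τ⁻¹ w τ)`; to avoid inverses apply this
to ...: the operator `ρ τ⁻¹` maps `W_χ` into `W_χ''` with `χ'' w = χ (τ w τ⁻¹)`. So all
`w ↦ χ (τ w τ⁻¹)`, `τ ∈ 𝒮`, are in the finite set; `𝒮` is infinite so there are `τ ≠ τ'` in `𝒮` with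
`χ (τ u τ⁻¹) = χ (τ' u τ'⁻¹)` for all `u ∈ A`. By the hypothesis every `w ∈ A` acts on `W` as
`τ u τ⁻¹ (τ' u τ'⁻¹)⁻¹`, so `χ w = χ (τ u τ⁻¹) / χ (τ' u τ'⁻¹) = 1`. So `χ = 1` is the only character,
i.e. `a w - 1` is nilpotent on `W` for all `w ∈ A`.
(If `A` is not stable under `τ⁻¹ · τ` nothing else is needed: only `τ A τ⁻¹ ≤ A` is used.)
-/

set_option autoImplicit false

namespace Pool.Agent.H86.UM

private theorem KA1_last {L V : Type*} [Field L] [AddCommGroup V] [Module L V]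
    (f : Module.End L V) (v : V) (hv : v ≠ 0) (k : ℕ) (hk : (f ^ k) v = 0) :
    ∃ j, (f ^ j) v ≠ 0 ∧ f ((f ^ j) v) = 0 := by
  classical
  have hex : ∃ k, (f ^ k) v = 0 := ⟨k, hk⟩
  have h0 : Nat.find hex ≠ 0 := by
    intro h
    have h1 := Nat.find_spec hex
    rw [h, pow_zero, Module.End.one_apply] at h1
    exact hv h1
  obtain ⟨j, hj⟩ := Nat.exists_eq_succ_of_ne_zero h0
  refine ⟨j, Nat.find_min hex (by omega), ?_⟩
  have h1 := Nat.find_spec hex
  rw [hj, Nat.succ_eq_add_one, pow_succ', Module.End.mul_apply] at h1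
  exact h1

private theorem KA1_mul {L V : Type*} [Field L] [AddCommGroup V] [Module L V]
    (A B : Module.End L V) (hAB : A * B = B * A) (μ ν ξ : L) (v : V) (hv : v ≠ 0)
    (h1 : ∃ k : ℕ, ((A - μ • (1 : Module.End L V)) ^ k) v = 0)
    (h2 : ∃ k : ℕ, ((B - ν • (1 : Module.End L V)) ^ k) v = 0)
    (h3 : ∃ k : ℕ, ((A * B - ξ • (1 : Module.End L V)) ^ k) v = 0) : ξ = μ * ν := by
  obtain ⟨k, hk⟩ := h1
  obtain ⟨l, hl⟩ := h2
  obtain ⟨m, hm⟩ := h3
  have hcAB : Commute A B := hAB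
  have hs : ∀ (X : Module.End L V) (c : L), Commute X (c • (1 : Module.End L V)) :=
    fun X c => (Commute.one_right X).smul_right c
  have hs' : ∀ (X : Module.End L V) (c : L), Commute (c • (1 : Module.End L V)) X :=
    fun X c => (hs X c).symm
  set P := A - μ • (1 : Module.End L V) with hP
  set Q := B - ν • (1 : Module.End L V) with hQ
  set R := A * B - ξ • (1 : Module.End L V) with hR
  have hPQ : Commute P Q := (hcAB.sub_right (hs _ _)).sub_left ((hs' _ _).sub_right (hs' _ _))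
  have hAP : Commute A R := ((Commute.refl A).mul_right hcAB).sub_right (hs _ _)
  have hBR : Commute B R := (hcAB.symm.mul_right (Commute.refl B)).sub_right (hs _ _)
  have hPR : Commute P R := hAP.sub_left (hs' _ _)
  have hQR : Commute Q R := hBR.sub_left (hs' _ _)
  obtain ⟨i, hi1, hi2⟩ := KA1_last P v hv k hk
  have hl' : (Q ^ l) ((P ^ i) v) = 0 := by
    rw [← Module.End.mul_apply, ← (hPQ.pow_pow i l).eq, Module.End.mul_apply, hl, map_zero]
  obtain ⟨j, hj1, hj2⟩ := KA1_last Q _ hi1 l hl'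
  set w := (Q ^ j) ((P ^ i) v) with hw
  have hPw : P w = 0 := by
    rw [hw, ← Module.End.mul_apply, (hPQ.pow_right j).eq, Module.End.mul_apply, hi2, map_zero]
  have hRw : (R ^ m) w = 0 := by
    rw [hw, ← Module.End.mul_apply, ← (hQR.pow_pow j m).eq, Module.End.mul_apply,
      ← Module.End.mul_apply (R ^ m), ← (hPR.pow_pow i m).eq, Module.End.mul_apply, hm, map_zero,
      map_zero]
  have hAw : A w = μ • w := by
    have := hPw
    rw [hP, LinearMap.sub_apply, LinearMap.smul_apply, Module.End.one_apply, sub_eq_zero] at this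
    exact this
  have hBw : B w = ν • w := by
    have := hj2
    rw [hQ, LinearMap.sub_apply, LinearMap.smul_apply, Module.End.one_apply, sub_eq_zero] at this
    exact this
  have hRw1 : ∀ c : L, R (c • w) = ((μ * ν - ξ) * c) • w := by
    intro c
    rw [hR, LinearMap.sub_apply, LinearMap.smul_apply, Module.End.one_apply, Module.End.mul_apply,
      map_smul, hBw, map_smul, map_smul, hAw]
    module
  have hRm : ∀ m : ℕ, (R ^ m) w = (μ * ν - ξ) ^ m • w := by
    intro m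
    induction m with
    | zero => simp
    | succ m ih => rw [pow_succ', Module.End.mul_apply, ih, hRw1, pow_succ']
  rw [hRm] at hRw
  have h4 := (smul_eq_zero.mp hRw).resolve_right hj1
  have h6 : μ * ν - ξ = 0 := by
    by_contra hne
    exact pow_ne_zero m hne h4
  exact (sub_eq_zero.mp h6).symm

/-- the torus trick for a group representation on a whole space. -/
private theorem KA1_core {B L V : Type*} [Group B] [Field L] [IsAlgClosed L] [AddCommGroup V]
    [Module L V] [FiniteDimensional L V] (r : B →* Module.End L V) (A : Subgroup B)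
    (hcomm : ∀ x ∈ A, ∀ y ∈ A, r x * r y = r y * r x)
    (S : Set B) (hS : S.Infinite) (hSA : ∀ τ ∈ S, ∀ u ∈ A, τ * u * τ⁻¹ ∈ A)
    (hdiv : ∀ τ ∈ S, ∀ τ' ∈ S, τ ≠ τ' → ∀ w ∈ A, ∃ u ∈ A,
      r w = r (τ * u * τ⁻¹ * (τ' * u * τ'⁻¹)⁻¹)) (w : B) (hw : w ∈ A) :
    IsNilpotent (r w - 1) := by
  classical
  set a : A → Module.End L V := fun x => r x.1 with ha
  have hc : ∀ s t : A, a s * a t = a t * a s := fun s t => hcomm _ s.2 _ t.2
  have hamul : ∀ s t : A, a (s * t) = a s * a t := fun s t => by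
    rw [ha]
    exact map_mul r _ _
  have haone : a 1 = 1 := by
    rw [ha]
    exact map_one r
  set G : (A → L) → Submodule L V := fun χ => ⨅ i, (a i).maxGenEigenspace (χ i) with hG
  have hmem : ∀ (χ : A → L) (w : V), w ∈ G χ ↔
      ∀ j, ∃ m : ℕ, ((a j - χ j • (1 : Module.End L V)) ^ m) w = 0 := fun χ w =>
    Module.End.mem_iInf_maxGenEigenspace_iff a χ w
  have htop : ⨆ χ, G χ = ⊤ :=
    Module.End.iSup_iInf_maxGenEigenspace_eq_top_of_iSup_maxGenEigenspace_eq_top_of_commute a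
      (fun i j _ => hc i j) (fun i => Module.End.iSup_maxGenEigenspace_eq_top (a i))
  have hind : iSupIndep G := Module.End.independent_iInf_maxGenEigenspace_of_forall_mapsTo a
    (fun i j φ => Module.End.mapsTo_maxGenEigenspace_of_comm (hc j i) φ)
  have hfin : {χ | G χ ≠ ⊥}.Finite := WellFoundedGT.finite_ne_bot_of_iSupIndep hind
  -- characters
  have hchar : ∀ χ, G χ ≠ ⊥ → (∀ s t, χ (s * t) = χ s * χ t) ∧ χ 1 = 1 := by
    intro χ hχ
    obtain ⟨w, hw, hw0⟩ := Submodule.exists_mem_ne_zero_of_ne_bot hχ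
    rw [hmem] at hw
    have h1 : ∀ s t, χ (s * t) = χ s * χ t := by
      intro s t
      refine KA1_mul (a s) (a t) (hc s t) _ _ _ w hw0 (hw s) (hw t) ?_
      rw [← hamul]
      exact hw (s * t)
    refine ⟨h1, ?_⟩
    obtain ⟨m, hm⟩ := hw 1
    rw [haone] at hm
    have h2 : ∀ m : ℕ, (((1 : Module.End L V) - χ 1 • (1 : Module.End L V)) ^ m) w
        = (1 - χ 1) ^ m • w := by
      intro m
      induction m with
      | zero => simp
      | succ m ih =>
        rw [pow_succ', Module.End.mul_apply, ih, LinearMap.sub_apply, LinearMap.smul_apply,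
          Module.End.one_apply, pow_succ']
        module
    rw [h2] at hm
    have h3 := (smul_eq_zero.mp hm).resolve_right hw0
    have h4 : 1 - χ 1 = 0 := by
      by_contra hne
      exact pow_ne_zero m hne h3
    exact (sub_eq_zero.mp h4).symm
  -- the set permutes the characters
  have hperm : ∀ χ, G χ ≠ ⊥ → ∀ τ (hτ : τ ∈ S),
      G (fun u : A => χ ⟨τ * u.1 * τ⁻¹, hSA τ hτ u.1 u.2⟩) ≠ ⊥ := by
    intro χ hχ τ hτ
    obtain ⟨w, hw, hw0⟩ := Submodule.exists_mem_ne_zero_of_ne_bot hχ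
    rw [hmem] at hw
    refine (Submodule.ne_bot_iff _).mpr ⟨r τ⁻¹ w, ?_, ?_⟩
    · rw [hmem]
      intro u
      obtain ⟨m, hm⟩ := hw ⟨τ * u.1 * τ⁻¹, hSA τ hτ u.1 u.2⟩
      refine ⟨m, ?_⟩
      have h2 : r τ⁻¹ * r (τ * u.1 * τ⁻¹) = r u.1 * r τ⁻¹ := by
        rw [← map_mul, ← map_mul]
        congr 1
        group
      have h3 : SemiconjBy (r τ⁻¹)
          (r (τ * u.1 * τ⁻¹) - χ ⟨τ * u.1 * τ⁻¹, hSA τ hτ u.1 u.2⟩ • (1 : Module.End L V))
          (r u.1 - χ ⟨τ * u.1 * τ⁻¹, hSA τ hτ u.1 u.2⟩ • (1 : Module.End L V)) := by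
        refine SemiconjBy.sub_right h2 ?_
        unfold SemiconjBy
        rw [mul_smul_comm, smul_mul_assoc, mul_one, one_mul]
      have h4 := (h3.pow_right m).eq
      have h5 := congrArg (fun f : Module.End L V => f w) h4
      simp only [Module.End.mul_apply] at h5
      have hm' : ((r (τ * u.1 * τ⁻¹) - χ ⟨τ * u.1 * τ⁻¹, hSA τ hτ u.1 u.2⟩ •
        (1 : Module.End L V)) ^ m) w = 0 := hm
      rw [hm', map_zero] at h5
      exact h5.symm
    · intro h
      apply hw0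
      have h1 : r τ (r τ⁻¹ w) = w := by
        rw [← Module.End.mul_apply, ← map_mul, mul_inv_cancel, map_one, Module.End.one_apply]
      rw [← h1, h, map_zero]
  have hone : ∀ χ, G χ ≠ ⊥ → χ = fun _ => 1 := by
    intro χ hχ
    obtain ⟨hm, hz⟩ := hchar χ hχ
    have : Finite {χ | G χ ≠ ⊥} := hfin
    have : Infinite S := hS.to_subtype
    obtain ⟨τ, τ', hne, heq0⟩ := Finite.exists_ne_map_eq_of_infinite
      (fun τ : S => (⟨fun u : A => χ ⟨τ.1 * u.1 * τ.1⁻¹, hSA τ.1 τ.2 u.1 u.2⟩,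
        hperm χ hχ τ.1 τ.2⟩ : {χ | G χ ≠ ⊥}))
    have heq : ∀ u : A, χ ⟨τ.1 * u.1 * τ.1⁻¹, hSA τ.1 τ.2 u.1 u.2⟩ =
        χ ⟨τ'.1 * u.1 * τ'.1⁻¹, hSA τ'.1 τ'.2 u.1 u.2⟩ := fun u =>
      congrFun (congrArg Subtype.val heq0) u
    have hnz : ∀ u, χ u ≠ 0 := by
      intro u h
      have h1 := hm u u⁻¹
      rw [mul_inv_cancel, hz, h, zero_mul] at h1
      exact one_ne_zero h1
    funext w
    obtain ⟨u, huA, hu⟩ := hdiv τ.1 τ.2 τ'.1 τ'.2 (fun h => hne (Subtype.ext h)) w.1 w.2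
    set p : A := ⟨τ.1 * u * τ.1⁻¹, hSA τ.1 τ.2 u huA⟩ with hp
    set p' : A := ⟨τ'.1 * u * τ'.1⁻¹, hSA τ'.1 τ'.2 u huA⟩ with hp'
    have hpp : χ p = χ p' := heq ⟨u, huA⟩
    have hop : a w * a p' = a p := by
      have h1 : a w = r (p.1 * p'.1⁻¹) := hu
      rw [h1, ha]
      change r (p.1 * p'.1⁻¹) * r p'.1 = r p.1
      rw [← map_mul]
      congr 1
      group
    obtain ⟨v, hv, hv0⟩ := Submodule.exists_mem_ne_zero_of_ne_bot hχ
    rw [hmem] at hv
    have h1 : χ p = χ w * χ p' := by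
      refine KA1_mul (a w) (a p') (hc w p') _ _ _ v hv0 (hv w) (hv p') ?_
      rw [hop]
      exact hv p
    rw [hpp] at h1
    exact (mul_right_cancel₀ (hnz p') ((one_mul _).trans h1)).symm
  have hG1 : G (fun _ => 1) = ⊤ := by
    rw [eq_top_iff, ← htop]
    refine iSup_le fun χ => ?_
    by_cases h : G χ = ⊥
    · rw [h]
      exact bot_le
    · rw [hone χ h]
  have h1 : (a ⟨w, hw⟩).maxGenEigenspace 1 = ⊤ := by
    rw [eq_top_iff, ← hG1]
    exact iInf_le (fun i => (a i).maxGenEigenspace (1 : L)) ⟨w, hw⟩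
  rw [Module.End.maxGenEigenspace_eq_genEigenspace_finrank, Module.End.genEigenspace_nat] at h1
  refine ⟨Module.finrank L V, ?_⟩
  rw [LinearMap.ker_eq_top] at h1
  rw [one_smul] at h1
  exact h1

/-- the restriction of a representation to a stable submodule. -/
private noncomputable def KA1_res {B L V : Type*} [Group B] [Field L] [AddCommGroup V]
    [Module L V] (ρ : B →* Module.End L V) (W : Submodule L V)
    (hW : ∀ b, ∀ v ∈ W, ρ b v ∈ W) : B →* Module.End L W where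
  toFun b := (ρ b).restrict (hW b)
  map_one' := by
    ext v
    rw [LinearMap.coe_restrict_apply, map_one, Module.End.one_apply, Module.End.one_apply]
  map_mul' x y := by
    ext v
    rw [Module.End.mul_apply, LinearMap.coe_restrict_apply, LinearMap.coe_restrict_apply,
      LinearMap.coe_restrict_apply, map_mul, Module.End.mul_apply]

private theorem KA1_res_apply {B L V : Type*} [Group B] [Field L] [AddCommGroup V]
    [Module L V] (ρ : B →* Module.End L V) (W : Submodule L V)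
    (hW : ∀ b, ∀ v ∈ W, ρ b v ∈ W) (b : B) (v : W) : (KA1_res ρ W hW b v : V) = ρ b v :=
  LinearMap.coe_restrict_apply (hW b) v

private theorem KA1_nil {B L V : Type*} [Group B] [Field L] [IsAlgClosed L] [AddCommGroup V]
    [Module L V] [FiniteDimensional L V] (ρ : B →* Module.End L V) (A : Subgroup B)
    (W : Submodule L V) (hW : ∀ b, ∀ v ∈ W, ρ b v ∈ W)
    (hcomm : ∀ x ∈ A, ∀ y ∈ A, ∀ v ∈ W, ρ x (ρ y v) = ρ y (ρ x v))
    (S : Set B) (hS : S.Infinite) (hSA : ∀ τ ∈ S, ∀ u ∈ A, τ * u * τ⁻¹ ∈ A)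
    (hdiv : ∀ τ ∈ S, ∀ τ' ∈ S, τ ≠ τ' → ∀ w ∈ A, ∃ u ∈ A, ∀ v ∈ W,
      ρ w v = ρ (τ * u * τ⁻¹ * (τ' * u * τ'⁻¹)⁻¹) v) (w : B) (hw : w ∈ A) :
    IsNilpotent (KA1_res ρ W hW w - 1) := by
  refine KA1_core (KA1_res ρ W hW) A ?_ S hS hSA ?_ w hw
  · intro x hx y hy
    ext v
    rw [Module.End.mul_apply, Module.End.mul_apply, KA1_res_apply, KA1_res_apply, KA1_res_apply,
      KA1_res_apply]
    exact hcomm x hx y hy v.1 v.2
  · intro τ hτ τ' hτ' hne w hw
    obtain ⟨u, hu, h⟩ := hdiv τ hτ τ' hτ' hne w hw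
    refine ⟨u, hu, ?_⟩
    ext v
    rw [KA1_res_apply, KA1_res_apply]
    exact h v.1 v.2

theorem torus_set {B L V : Type*} [Group B] [Field L] [IsAlgClosed L] [AddCommGroup V] [Module L V]
    [FiniteDimensional L V] (ρ : B →* Module.End L V) (A : Subgroup B) (W : Submodule L V)
    (hW : ∀ b, ∀ v ∈ W, ρ b v ∈ W)
    (hcomm : ∀ x ∈ A, ∀ y ∈ A, ∀ v ∈ W, ρ x (ρ y v) = ρ y (ρ x v))
    (S : Set B) (hS : S.Infinite) (hSA : ∀ τ ∈ S, ∀ u ∈ A, τ * u * τ⁻¹ ∈ A)
    (hdiv : ∀ τ ∈ S, ∀ τ' ∈ S, τ ≠ τ' → ∀ w ∈ A, ∃ u ∈ A, ∀ v ∈ W,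
      ρ w v = ρ (τ * u * τ⁻¹ * (τ' * u * τ'⁻¹)⁻¹) v) (w : B) (hw : w ∈ A) :
    ∃ m : ℕ, ∀ v ∈ W, ((ρ w - 1) ^ m) v = 0 := by
  obtain ⟨m, hm⟩ := KA1_nil ρ A W hW hcomm S hS hSA hdiv w hw
  refine ⟨m, fun v hv => ?_⟩
  have h1 : ∀ (j : ℕ) (v : W), (((KA1_res ρ W hW w - 1) ^ j) v : V) = ((ρ w - 1) ^ j) (v : V) := by
    intro j
    induction j with
    | zero =>
      intro v
      rw [pow_zero, pow_zero, Module.End.one_apply, Module.End.one_apply]
    | succ j ih =>
      intro v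
      rw [pow_succ, pow_succ, Module.End.mul_apply, Module.End.mul_apply, ih]
      have h3 : (((KA1_res ρ W hW w - 1) v : W) : V) = (ρ w - 1) (v : V) := by
        rw [LinearMap.sub_apply, LinearMap.sub_apply, Submodule.coe_sub, KA1_res_apply,
          Module.End.one_apply, Module.End.one_apply]
      rw [h3]
  have h2 := h1 m ⟨v, hv⟩
  rw [hm, LinearMap.zero_apply] at h2
  exact h2.symm

/-- Consequently `A` has a common fixed vector in `W` (if `W ≠ ⊥`): the operators `ρ w`, `w ∈ A`,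
restricted to `W` are commuting unipotent operators, see `Pool.Agent.H62.CA.exists_common_fixed`
(apply it to the restrictions to `W`, as operators on the space `W`). -/
theorem torus_fixed {B L V : Type*} [Group B] [Field L] [IsAlgClosed L] [AddCommGroup V] [Module L V]
    [FiniteDimensional L V] (ρ : B →* Module.End L V) (A : Subgroup B) (W : Submodule L V)
    (hW : ∀ b, ∀ v ∈ W, ρ b v ∈ W) (hne : W ≠ ⊥)
    (hcomm : ∀ x ∈ A, ∀ y ∈ A, ∀ v ∈ W, ρ x (ρ y v) = ρ y (ρ x v))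
    (S : Set B) (hS : S.Infinite) (hSA : ∀ τ ∈ S, ∀ u ∈ A, τ * u * τ⁻¹ ∈ A)
    (hdiv : ∀ τ ∈ S, ∀ τ' ∈ S, τ ≠ τ' → ∀ w ∈ A, ∃ u ∈ A, ∀ v ∈ W,
      ρ w v = ρ (τ * u * τ⁻¹ * (τ' * u * τ'⁻¹)⁻¹) v) :
    ∃ v ∈ W, v ≠ 0 ∧ ∀ x ∈ A, ρ x v = v := by
  have htop : (⊤ : Submodule L W) ≠ ⊥ := by
    obtain ⟨v, hv, hv0⟩ := Submodule.exists_mem_ne_zero_of_ne_bot hne
    refine (Submodule.ne_bot_iff _).mpr ⟨⟨v, hv⟩, Submodule.mem_top, fun h => hv0 ?_⟩
    exact congrArg Subtype.val h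
  obtain ⟨v, -, hv0, hv⟩ := Pool.Agent.H62.CA.exists_common_fixed
    (fun x : A => KA1_res ρ W hW x.1)
    (fun x => KA1_nil ρ A W hW hcomm S hS hSA hdiv x.1 x.2) ⊤ htop
    (fun _ _ _ => Submodule.mem_top) (fun x y w _ => by
      apply Subtype.ext
      rw [KA1_res_apply, KA1_res_apply, KA1_res_apply, KA1_res_apply]
      exact hcomm x.1 x.2 y.1 y.2 w.1 w.2)
  refine ⟨v.1, v.2, fun h => hv0 (Subtype.ext h), fun x hx => ?_⟩
  have h1 := congrArg Subtype.val (hv ⟨x, hx⟩)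
  rw [KA1_res_apply] at h1
  exact h1

end Pool.Agent.H86.UM
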