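import Pool.Agent.H75.UL.T7
import Pool.Agent.H75.UL.T3
import Pool.Agent.H75.UL.S4
import Pool.Agent.H75.UL.S5
import Pool.Agent.H75.UL.S6
import Pool.Agent.H75.UL.M0
import Pool.Agent.H75.UL.P3f
import Pool.Agent.H86.UL.F2

/-!
# Project UM, module RD1: Bruhat normal form of a chamber

`normal_form`: every chamber `g B` has a representative `lp C.posList y * nword l`, with the support of `y`
in the positive roots `β` for which `(wd l)⁻¹ β` is negative. Proof: `bruhat` (with `gen_adS`):
`g = u ν v`; `N_word`: `ν = nword l * τ`; `exists_lp_inv` (for `nword l`, `wd l`, see `nword_acts`):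
`u * nword l = lp posList t * nword l * b` (make `t` zero outside the positive roots, `mem_posList`,
`lp_congr`); the rest `b τ v` is `Fil 0` (`Fil_U_zero`, `Fil_T`, `Fil_mul`, `upper_inv`).

`normal_unique`: `x = (lp y)⁻¹ (lp y')`; `nword⁻¹ x nword` is `Fil 0`, and it is a product of elements
`xg γ s` with `γ` negative (`nword_acts`), so it is also lower unitriangular: the matrices `M` with
`M a a = 1` and `M a b = 0` for `a ≠ b`, `hti b ≤ hti a` are closed under products and inverses (of such
elements in a subgroup); a matrix which is `Fil 0` and lower unitriangular is `1`. So `lp y = lp y'` and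
`lp_unique` gives `y β = y' β` for positive `β`; for the others both are `0`.

`coords_perfect`: `mp σ (lp y * nword l) = lp (σ ∘ y) * nword l` (`mp_lp`, `mp_xg`, cf. `mp_N`), so by
`normal_unique` `σ (y β) = y β` for all `σ : L ≃ₐ[K] L`; then `pow_mem_of_fixed`.
-/

set_option autoImplicit false
open Matrix

namespace Pool.Agent.H86.UM

open Pool.Agent.H75.UL

variable {n : ℕ} (C : SLC n)

theorem normal_form {F : Type*} [Field F] (g : GL C.Idx F) (hg : g ∈ C.Gad F) :
    ∃ (l : List (Fin n)) (y : C.Root → F),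
      (∀ β, y β ≠ 0 → C.Pos β ∧ ¬ C.Pos ((C.wd l)⁻¹ β)) ∧
      C.Fil 0 ((((C.adS F).lp C.posList y * (C.adS F).nword l)⁻¹ * g : GL C.Idx F) :
        Matrix C.Idx C.Idx F) := by
  classical
  rw [← C.gen_adS F] at hg
  obtain ⟨u, hu, ν, hν, v, hv, hguv⟩ := (C.adS F).bruhat g hg
  obtain ⟨l, τ, hτ, hντ⟩ := (C.adS F).N_word ν hν
  obtain ⟨t, ht, b, hb, hub⟩ := (C.adS F).exists_lp_inv ((C.adS F).nword l) (C.wd l)
    ((C.adS F).nword_acts l) u hu
  have hly : (C.adS F).lp C.posList (fun β => if C.Pos β then t β else 0) =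
      (C.adS F).lp C.posList t := by
    apply StSys.lp_congr
    intro β hβ
    exact if_pos ((C.mem_posList β).1 hβ)
  refine ⟨l, fun β => if C.Pos β then t β else 0, fun β hβ => ?_, ?_⟩
  · have hpos : C.Pos β := by
      by_contra h
      exact hβ (if_neg h)
    refine ⟨hpos, fun h => hβ ?_⟩
    change (if C.Pos β then t β else 0) = 0
    rw [if_pos hpos]
    exact ht β h
  · have e1 : ((C.adS F).lp C.posList (fun β => if C.Pos β then t β else 0) *
        (C.adS F).nword l)⁻¹ * g = b * τ * v := by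
      rw [hguv, hντ, hly, ← mul_assoc u, hub]
      group
    rw [e1, Units.val_mul, Units.val_mul]
    have := C.Fil_mul (C.Fil_mul (C.Fil_U_zero b hb) (C.Fil_T τ hτ)) (C.Fil_U_zero v hv)
    simpa using this

/-- `N` is strictly lowering. -/
private def RD1_Low {R : Type*} [CommRing R] (N : Matrix C.Idx C.Idx R) : Prop :=
  ∀ a b, C.hti b ≤ C.hti a → N a b = 0

private theorem RD1_Low_mul {R : Type*} [CommRing R] {M N : Matrix C.Idx C.Idx R}
    (hM : RD1_Low C (M - 1)) (hN : RD1_Low C (N - 1)) : RD1_Low C (M * N - 1) := by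
  have e : M * N - 1 = (M - 1) * (N - 1) + (M - 1) + (N - 1) := by
    rw [sub_mul, mul_sub, mul_one, one_mul]
    abel
  intro a b hab
  rw [e, Matrix.add_apply, Matrix.add_apply, hM a b hab, hN a b hab, add_zero, add_zero,
    Matrix.mul_apply]
  refine Finset.sum_eq_zero fun c _ => ?_
  by_cases h : C.hti c ≤ C.hti a
  · rw [hM a c h, zero_mul]
  · rw [hN c b (by omega), mul_zero]

private theorem RD1_E (α : C.Root) (a b : C.Idx) (h : C.E α a b ≠ 0) :
    C.hti a = C.hti b + ht α.1 := by
  rcases a with i | γ <;> rcases b with j | β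
  · exact absurd rfl h
  · simp only [SLC.E] at h
    have h1 : β.1 = -α.1 := by
      by_contra hc
      exact h (if_neg hc)
    simp only [SLC.hti, Sum.elim_inl, Sum.elim_inr]
    rw [h1, ht_neg]
    omega
  · simp only [SLC.E] at h
    have h1 : γ.1 = α.1 := by
      by_contra hc
      exact h (if_neg hc)
    simp only [SLC.hti, Sum.elim_inl, Sum.elim_inr]
    rw [h1]
    omega
  · simp only [SLC.E] at h
    have h1 : γ.1 = α.1 + β.1 := by
      by_contra hc
      exact h (if_neg hc)
    simp only [SLC.hti, Sum.elim_inr]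
    rw [h1, ht_add]
    omega

private theorem RD1_F (α : C.Root) (a b : C.Idx) (h : C.F α a b ≠ 0) :
    C.hti a = C.hti b + 2 * ht α.1 := by
  rcases a with i | γ <;> rcases b with j | β
  · exact absurd rfl h
  · exact absurd rfl h
  · exact absurd rfl h
  · simp only [SLC.F] at h
    have h1 : γ.1 = α.1 ∧ β.1 = -α.1 := by
      by_contra hc
      exact h (if_neg hc)
    simp only [SLC.hti, Sum.elim_inr]
    rw [h1.1, h1.2, ht_neg]
    omega

private theorem RD1_Low_xg {R : Type*} [CommRing R] (γ : C.Root) (s : R) (hγ : ¬ C.Pos γ) :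
    RD1_Low C ((C.xg R γ s : Matrix C.Idx C.Idx R) - 1) := by
  have h0 := C.ht_ne_zero γ
  have hneg : ht γ.1 < 0 := by
    unfold SLC.Pos at hγ
    omega
  have h : (C.xg R γ s : Matrix C.Idx C.Idx R) - 1 =
      s • (C.E γ).map (Int.cast : ℤ → R) + s ^ 2 • (C.F γ).map (Int.cast : ℤ → R) := by
    show C.X R γ s - 1 = _
    unfold SLC.X
    abel
  intro a b hab
  have h1 : C.E γ a b = 0 := by
    by_contra hc
    have := RD1_E C γ a b hc
    omega
  have h2 : C.F γ a b = 0 := by
    by_contra hc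
    have := RD1_F C γ a b hc
    omega
  rw [h, Matrix.add_apply, Matrix.smul_apply, Matrix.smul_apply, Matrix.map_apply,
    Matrix.map_apply, h1, h2]
  simp

private theorem RD1_Low_closure {R : Type*} [CommRing R] (g : GL C.Idx R)
    (hg : g ∈ Subgroup.closure {x : GL C.Idx R | ∃ (γ : C.Root) (s : R), ¬ C.Pos γ ∧
      x = C.xg R γ s}) : RD1_Low C ((g : Matrix C.Idx C.Idx R) - 1) := by
  induction hg using Subgroup.closure_induction_left with
  | one =>
    rw [Units.val_one, sub_self]
    intro a b _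
    rfl
  | mul_left x hx y _ ih =>
    obtain ⟨γ, s, hγ, rfl⟩ := hx
    rw [Units.val_mul]
    exact RD1_Low_mul C (RD1_Low_xg C γ s hγ) ih
  | inv_mul_cancel x hx y _ ih =>
    obtain ⟨γ, s, hγ, rfl⟩ := hx
    have e : (C.xg R γ s)⁻¹ = C.xg R γ (-s) := by
      rw [inv_eq_iff_mul_eq_one]
      apply Units.ext
      rw [Units.val_mul, Units.val_one]
      show C.X R γ s * C.X R γ (-s) = 1
      rw [← SLC.X_add, add_neg_cancel, SLC.X_zero]
    rw [Units.val_mul, e]
    exact RD1_Low_mul C (RD1_Low_xg C γ (-s) hγ) ih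

/-- the conjugate of `lp y` by `nword l` -/
private theorem RD1_conj {F : Type*} [Field F] (l : List (Fin n)) (y : C.Root → F)
    (hy : ∀ β, y β ≠ 0 → C.Pos β ∧ ¬ C.Pos ((C.wd l)⁻¹ β)) :
    ((C.adS F).nword l)⁻¹ * (C.adS F).lp C.posList y * (C.adS F).nword l ∈
      Subgroup.closure {x : GL C.Idx F | ∃ (γ : C.Root) (s : F), ¬ C.Pos γ ∧
        x = C.xg F γ s} := by
  obtain ⟨c, hc, hact⟩ := (C.adS F).nword_acts l
  unfold StSys.lp
  generalize C.posList = L
  induction L with
  | nil =>
    simp only [List.map_nil, List.prod_nil, mul_one, inv_mul_cancel]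
    exact Subgroup.one_mem _
  | cons β L ih =>
    rw [List.map_cons, List.prod_cons]
    have e : ((C.adS F).nword l)⁻¹ * ((C.adS F).x β (y β) *
        (L.map fun β => (C.adS F).x β (y β)).prod) * (C.adS F).nword l =
        (((C.adS F).nword l)⁻¹ * (C.adS F).x β (y β) * (C.adS F).nword l) *
        (((C.adS F).nword l)⁻¹ * (L.map fun β => (C.adS F).x β (y β)).prod *
          (C.adS F).nword l) := by
      group
    rw [e]
    refine Subgroup.mul_mem _ ?_ ih
    by_cases h0 : y β = 0
    · rw [h0]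
      have : (C.adS F).x β 0 = 1 := (C.adS F).x_zero β
      rw [this, mul_one, inv_mul_cancel]
      exact Subgroup.one_mem _
    · refine Subgroup.subset_closure ⟨(C.wd l)⁻¹ β, (c ((C.wd l)⁻¹ β))⁻¹ * y β, (hy β h0).2, ?_⟩
      have h1 := hact ((C.wd l)⁻¹ β) ((c ((C.wd l)⁻¹ β))⁻¹ * y β)
      rw [mul_inv_cancel_left₀ (hc _), ← Equiv.Perm.mul_apply, mul_inv_cancel,
        Equiv.Perm.one_apply] at h1
      change _ = (C.adS F).x _ _
      rw [← h1]
      group

theorem normal_unique {F : Type*} [Field F] (l : List (Fin n)) (y y' : C.Root → F)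
    (hy : ∀ β, y β ≠ 0 → C.Pos β ∧ ¬ C.Pos ((C.wd l)⁻¹ β))
    (hy' : ∀ β, y' β ≠ 0 → C.Pos β ∧ ¬ C.Pos ((C.wd l)⁻¹ β))
    (h : C.Fil 0 ((((C.adS F).lp C.posList y * (C.adS F).nword l)⁻¹ *
      ((C.adS F).lp C.posList y' * (C.adS F).nword l) : GL C.Idx F) :
        Matrix C.Idx C.Idx F)) : y = y' := by
  have e : ((C.adS F).lp C.posList y * (C.adS F).nword l)⁻¹ *
      ((C.adS F).lp C.posList y' * (C.adS F).nword l) =
      (((C.adS F).nword l)⁻¹ * (C.adS F).lp C.posList y * (C.adS F).nword l)⁻¹ *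
      (((C.adS F).nword l)⁻¹ * (C.adS F).lp C.posList y' * (C.adS F).nword l) := by
    group
  have hmem : ((C.adS F).lp C.posList y * (C.adS F).nword l)⁻¹ *
      ((C.adS F).lp C.posList y' * (C.adS F).nword l) ∈
      Subgroup.closure {x : GL C.Idx F | ∃ (γ : C.Root) (s : F), ¬ C.Pos γ ∧
        x = C.xg F γ s} := by
    rw [e]
    exact Subgroup.mul_mem _ (Subgroup.inv_mem _ (RD1_conj C l y hy)) (RD1_conj C l y' hy')
  have hlow := RD1_Low_closure C _ hmem
  have hone : ((C.adS F).lp C.posList y * (C.adS F).nword l)⁻¹ *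
      ((C.adS F).lp C.posList y' * (C.adS F).nword l) = 1 := by
    apply Units.ext
    ext a b
    rw [Units.val_one]
    by_cases hab : C.hti b ≤ C.hti a
    · have h1 := hlow a b hab
      rw [Matrix.sub_apply, sub_eq_zero] at h1
      exact h1
    · rw [h a b (by omega), Matrix.one_apply_ne]
      rintro rfl
      exact hab le_rfl
  have heq : (C.adS F).lp C.posList y = (C.adS F).lp C.posList y' := by
    have h1 := inv_mul_eq_one.1 hone
    exact mul_right_cancel h1
  funext β
  by_cases hβ : C.Pos β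
  · exact C.lp_unique y y' heq β hβ
  · have h1 : y β = 0 := by
      by_contra hc
      exact hβ (hy β hc).1
    have h2 : y' β = 0 := by
      by_contra hc
      exact hβ (hy' β hc).1
    rw [h1, h2]

theorem mp_normal {F F' : Type*} [Field F] [Field F'] (f : F →+* F') (l : List (Fin n))
    (y : C.Root → F) :
    C.mp f ((C.adS F).lp C.posList y * (C.adS F).nword l) =
      (C.adS F').lp C.posList (fun β => f (y β)) * (C.adS F').nword l := by
  rw [map_mul, SLC.mp_lp]
  congr 1
  unfold StSys.nword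
  rw [map_list_prod, List.map_map]
  congr 1
  apply List.map_congr_left
  intro i _
  change C.mp f (nn (C.xg F) (C.simple i) 1) = nn (C.xg F') (C.simple i) 1
  unfold nn
  simp only [map_mul, SLC.mp_xg, map_inv₀, map_one]

theorem coords_perfect {K L : Type*} [Field K] [Field L] [Algebra K L] [IsAlgClosure K L]
    (l : List (Fin n)) (y : C.Root → L) (hy : ∀ β, y β ≠ 0 → C.Pos β ∧ ¬ C.Pos ((C.wd l)⁻¹ β))
    (g : GL C.Idx L) (hg : g = (C.adS L).lp C.posList y * (C.adS L).nword l)
    (hfix : ∀ σ : L ≃ₐ[K] L, C.Fil 0 ((g⁻¹ * C.mp (σ : L →+* L) g : GL C.Idx L) :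
      Matrix C.Idx C.Idx L)) (β : C.Root) :
    ∃ m : ℕ, y β ^ ringExpChar K ^ m ∈ Set.range (algebraMap K L) := by
  refine pow_mem_of_fixed (ringExpChar K) (y β) fun σ => ?_
  have h1 := hfix σ
  rw [hg, mp_normal] at h1
  have h2 := normal_unique C l y (fun β => (σ : L →+* L) (y β)) hy (fun β hβ => hy β fun h0 => ?_) h1
  · exact (congrFun h2 β).symm
  · apply hβ
    rw [h0, map_zero]

end Pool.Agent.H86.UM
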