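import Mathlib

/-!
# Project UM, module RD2: derivations of purely inseparable extensions

Let `y : ι → L` be a finite family of elements with `y i ^ (q ^ m) ∈ K` (`q` the exponential
characteristic), not all in `K`. Then `E = K(y)` has a `K`-derivation `D` with `D (y i) ≠ 0` for some `i`.
Proof: `E` is a finite purely inseparable extension (`isPurelyInseparable_iff_pow_mem`, adjoin of finitely
many algebraic elements). If all `K`-derivations `E → E` vanish then `Ω[E⁄K] = 0` (it is an `E`-vector
space, and linear maps `Ω[E⁄K] → E` are derivations), so `E / K` is formally unramified, so separable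
(`Algebra.FormallyUnramified.isSeparable` or similar), hence `algebraMap K E` is surjective
(`IsPurelyInseparable.surjective_algebraMap_of_isSeparable`), contradiction. A derivation `D ≠ 0` with
`D (y i) = 0` for all `i` would vanish on `E = adjoin` (for algebraic elements the field adjoin is the
algebra adjoin; `Derivation.eqOn_adjoin` or the subfield of constants).
-/

set_option autoImplicit false

namespace Pool.Agent.H86.UM

theorem exists_derivation {K L : Type*} [Field K] [Field L] [Algebra K L] {ι : Type*} [Finite ι]
    (y : ι → L)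
    (hy : ∀ i, ∃ m : ℕ, y i ^ ringExpChar K ^ m ∈ Set.range (algebraMap K L))
    (hne : ∃ i, y i ∉ Set.range (algebraMap K L)) :
    ∃ (E : IntermediateField K L) (hE : ∀ i, y i ∈ E) (D : Derivation K E E),
      ∃ i, D ⟨y i, hE i⟩ ≠ 0 := by
  classical
  have : ExpChar K (ringExpChar K) := ringExpChar.expChar K
  set E : IntermediateField K L := IntermediateField.adjoin K (Set.range y) with hEdef
  have hE : ∀ i, y i ∈ E := fun i =>
    IntermediateField.subset_adjoin K (Set.range y) (Set.mem_range_self i)
  have hpi : IsPurelyInseparable K E := by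
    rw [hEdef, IntermediateField.isPurelyInseparable_adjoin_iff_pow_mem K L (ringExpChar K)]
    rintro x ⟨i, rfl⟩
    obtain ⟨m, hm⟩ := hy i
    exact ⟨m, hm⟩
  have hfin : FiniteDimensional K E := by
    rw [hEdef]
    have : Finite (Set.range y) := Set.finite_range y
    refine IntermediateField.finiteDimensional_adjoin ?_
    rintro x ⟨i, rfl⟩
    obtain ⟨m, a, ha⟩ := hy i
    have hq : 0 < ringExpChar K ^ m := pow_pos (expChar_pos K (ringExpChar K)) m
    refine IsIntegral.of_pow hq ?_
    rw [← ha]
    exact isIntegral_algebraMap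
  by_contra hcon
  push Not at hcon
  -- all derivations vanish at the generators, hence everywhere
  have hD : ∀ D : Derivation K E E, ∀ x : E, D x = 0 := by
    intro D x
    obtain ⟨x, hx⟩ := x
    have hx' : x ∈ IntermediateField.adjoin K (Set.range y) := hx
    refine IntermediateField.adjoin_induction K (s := Set.range y)
      (p := fun z hz => D ⟨z, hz⟩ = 0) ?_ ?_ ?_ ?_ ?_ hx'
    · rintro z ⟨i, rfl⟩
      exact hcon E hE D i
    · intro a
      exact D.map_algebraMap a
    · intro a b ha hb h1 h2
      have h3 : (⟨a + b, add_mem ha hb⟩ : E) = ⟨a, ha⟩ + ⟨b, hb⟩ := rfl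
      rw [h3, map_add, h1, h2, add_zero]
    · intro a ha h1
      have h3 : (⟨a⁻¹, inv_mem ha⟩ : E) = (⟨a, ha⟩ : E)⁻¹ := rfl
      rw [h3, Derivation.leibniz_inv, h1, smul_zero]
    · intro a b ha hb h1 h2
      have h3 : (⟨a * b, mul_mem ha hb⟩ : E) = ⟨a, ha⟩ * ⟨b, hb⟩ := rfl
      rw [h3, Derivation.leibniz, h1, h2, smul_zero, smul_zero, add_zero]
  -- so the module of differentials is trivial
  have hsub : Subsingleton (Ω[E⁄K]) := by
    refine ⟨fun v w => ?_⟩
    have key : ∀ φ : Module.Dual E (Ω[E⁄K]), φ = 0 := by
      intro φ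
      apply Derivation.liftKaehlerDifferential_unique
      ext x
      rw [hD, hD]
    rw [← sub_eq_zero, ← Module.forall_dual_apply_eq_zero_iff E]
    intro φ
    rw [key φ, LinearMap.zero_apply]
  have : Algebra.FormallyUnramified K E := ⟨hsub⟩
  have : Algebra.IsSeparable K E := Algebra.FormallyUnramified.isSeparable K E
  obtain ⟨i, hi⟩ := hne
  obtain ⟨a, ha⟩ := IsPurelyInseparable.surjective_algebraMap_of_isSeparable K E ⟨y i, hE i⟩
  refine hi ⟨a, ?_⟩
  have := congrArg (fun z : E => (z : L)) ha
  exact this

end Pool.Agent.H86.UM
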