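import Pool.Agent.H75.UL.L5
import Pool.Agent.H75.UL.T5
import Pool.Agent.H75.UL.T7
import Pool.Agent.H75.UL.T3
import Pool.Agent.H75.UL.S5
import Pool.Agent.H75.UL.M0
import Pool.Agent.H86.UL.F2

/-!
# Project UM, module RD3: derivations of a chamber with rational stabiliser elements

`E / K` fields, `D` a `K`-derivation of `E`, `g = lp C.posList y * nword l ∈ Gad E` (the support of `y` in
the positive roots `β` with `(wd l)⁻¹ β` negative), `Γ` a set of elements of `Gad K` with
`g⁻¹ γ g` upper triangular (`Fil 0`), and for every root `δ` there is `γ ∈ Γ` such that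
the diagonal entry of `g⁻¹ γ g` at `δ` is not `1`. Then `D (y β) = 0` for all `β`.

Proof. For a matrix `M` over `E` let `D M = M.map D`; `D (M N) = (D M) N + M (D N)`; `D = 0` on matrices
with entries in `K`, e.g. on `nword l` (`nword l = mp (algebraMap K E) (nword l)`) and on
`mp (algebraMap K E) γ`; `D (g⁻¹) = - g⁻¹ (D g) g⁻¹`.
(1) `D (X β t) = D t • E_β X β t = D t • X β t E_β` (`E_β` the matrix of `C.E β` over `E`; use
`E_β E_β = 2 F_β`, `E_β F_β = 0`; `C.X` is `1 + t E + t ^ 2 F`).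
(2) Let `R = {β | Pos β ∧ ¬ Pos (w⁻¹ β)}`, `w = wd l`; `V` = span over `E` of the `E_β`, `β ∈ R`. For
`β, γ ∈ R`: `(X β t)⁻¹ E_γ (X β t) = E_γ` or `E_γ ± t E_(β+γ)`, and `β + γ ∈ R` if it is a root (heights;
the coordinates of a root have one sign, or `ht (w⁻¹ (β + γ)) = ht (w⁻¹ β) + ht (w⁻¹ γ)` as `w` is
induced by a linear map on roots, see R-modules). So `V` is stable under conjugation by `u = lp y`, and
`Y := u⁻¹ (D u) ∈ V`.
(3) `X := g⁻¹ (D g) = ν⁻¹ Y ν` (`ν = nword l`, `D ν = 0`), and `ν⁻¹ E_γ ν = c E_(w⁻¹ γ)`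
(`nword_acts`, or `L5_E` for each factor `nn`), so `X = ∑_δ c_δ E_δ` over roots `δ` with negative height.
(4) For `γ ∈ Γ` put `γ' = g⁻¹ γ g`. As `D γ = 0`, `D γ' = γ' X - X γ'`. `γ'` is `Fil 0`, so `D γ'` and
`γ' X - X γ'` are `Fil 0`.
(5) If `X ≠ 0` let `δ` be a root of minimal height with `c_δ ≠ 0`, `m = ht δ < 0`. Choose `i` with
`(δ i : E) ≠ 0` (a root is not divisible by a prime: `ip δ δ = 2`; compare `T3.lean`), and let
`a = inl i`, `b = inr (-δ)`; `hti a - hti b = m`. `X` vanishes at entries which lower the height by more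
than `-m`; so `(γ' X - X γ') a b = γ' a a X a b - X a b γ' b b` (the entries `γ' a c`, `hti c = hti a`,
`c ≠ a` vanish by `upper`, `Fil_U`, `T_diag`), `X a b = - c_δ δ_i ≠ 0`, `γ' a a = 1`,
`γ' b b = chi γ' (-δ)`. The entry is `0` by `Fil 0` and `m < 0`, so `chi γ' (-δ) = 1` for all `γ ∈ Γ`,
contradiction.
(6) So `X = 0`, `Y = 0`; and in `Y = ∑_β D (y β) • (conjugate of E_β)`, let `β` be a root of minimal height
with `D (y β) ≠ 0`: the coefficient of `E_β` in `Y` is `D (y β)` (the conjugations by elements of positive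
height only add root vectors of greater height), contradiction (the `E_β` are linearly independent, e.g. by
the entries used in (5)).
-/

set_option autoImplicit false
open Matrix

namespace Pool.Agent.H86.UM

open Pool.Agent.H75.UL

variable {n : ℕ} (C : SLC n)


private theorem RD3_map_mul {K E : Type*} [Field K] [Field E] [Algebra K E] (D : Derivation K E E)
    {ι : Type*} [Fintype ι] (M N : Matrix ι ι E) :
    (M * N).map D = M.map D * N + M * N.map D := by
  ext a b
  simp only [Matrix.map_apply, Matrix.mul_apply, Matrix.add_apply, map_sum, Derivation.leibniz,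
    smul_eq_mul]
  rw [← Finset.sum_add_distrib]
  refine Finset.sum_congr rfl fun c _ => ?_
  ring

private theorem RD3_map_one {K E : Type*} [Field K] [Field E] [Algebra K E] (D : Derivation K E E)
    {ι : Type*} [Fintype ι] [DecidableEq ι] : (1 : Matrix ι ι E).map D = 0 := by
  ext a b
  rw [Matrix.map_apply, Matrix.one_apply]
  split_ifs <;> simp

private theorem RD3_map_X {K E : Type*} [Field K] [Field E] [Algebra K E] (D : Derivation K E E)
    (β : C.Root) (t : E) :
    (C.X E β t).map D = D t • (C.X E β t * (C.E β).map (Int.cast : ℤ → E)) := by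
  have hEE : (C.E β).map (Int.cast : ℤ → E) * (C.E β).map (Int.cast : ℤ → E) =
      (2 : E) • (C.F β).map (Int.cast : ℤ → E) := by
    have h1 := congrArg (fun M : Matrix C.Idx C.Idx ℤ => M.map (Int.castRingHom E)) (C.E_mul_E β)
    rw [two_smul ℕ] at h1
    rw [two_smul E]
    ext a b
    have h2 := congrFun (congrFun h1 a) b
    simp only [Matrix.map_apply, Matrix.add_apply, Matrix.mul_apply, map_sum, map_mul, map_add,
      eq_intCast] at h2 ⊢
    exact h2
  have hFE : (C.F β).map (Int.cast : ℤ → E) * (C.E β).map (Int.cast : ℤ → E) = 0 := by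
    have h1 := congrArg (fun M : Matrix C.Idx C.Idx ℤ => M.map (Int.castRingHom E)) (C.F_mul_E β)
    ext a b
    have h2 := congrFun (congrFun h1 a) b
    simp only [Matrix.map_apply, Matrix.mul_apply, map_sum, map_mul, eq_intCast, Matrix.zero_apply,
      Int.cast_zero] at h2 ⊢
    exact h2
  have e1 : (C.X E β t).map D = D t • (C.E β).map (Int.cast : ℤ → E) +
      (2 * t * D t) • (C.F β).map (Int.cast : ℤ → E) := by
    ext a b
    unfold SLC.X
    have h0 : D ((1 : Matrix C.Idx C.Idx E) a b) = 0 := by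
      rw [Matrix.one_apply]
      split_ifs <;> simp
    simp only [Matrix.map_apply, Matrix.add_apply, Matrix.smul_apply, smul_eq_mul, map_add, h0,
      Derivation.leibniz, Derivation.map_intCast, Derivation.leibniz_pow]
    simp only [mul_zero, zero_add, nsmul_eq_mul, Nat.cast_ofNat]
    simp
    ring
  rw [e1]
  unfold SLC.X
  rw [add_mul, add_mul, one_mul, smul_mul_assoc, smul_mul_assoc, hEE, hFE]
  module

private theorem RD3_tor (u v : Matrix C.Idx C.Idx ℤ) (h : 2 • u = 2 • v) : u = v := by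
  ext x y
  have h1 := congrFun (congrFun h x) y
  simp only [Matrix.smul_apply, nsmul_eq_mul, Nat.cast_ofNat] at h1
  omega

private theorem RD3_F_comm (γ δ : C.Root) (h : 0 ≤ C.ip γ.1 δ.1) :
    C.F γ * C.E δ = C.E δ * C.F γ := by
  have hAB := C.E_comm γ δ h
  apply RD3_tor
  rw [← smul_mul_assoc, ← mul_smul_comm, ← C.E_mul_E, mul_assoc, hAB, ← mul_assoc, hAB, mul_assoc]

private theorem RD3_F_add (γ δ η : C.Root) (h : η.1 = γ.1 + δ.1) :
    C.F γ * C.E δ = C.E δ * C.F γ + C.eps γ.1 δ.1 • (C.E η * C.E γ) := by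
  have hip : C.ip γ.1 δ.1 = -1 := C.ip_add_root γ δ η h
  have hγη : 0 ≤ C.ip γ.1 η.1 := by
    rw [h, C.ip_add_right, γ.2, hip]
    norm_num
  have h1 : C.E γ * C.E δ = C.E δ * C.E γ + C.eps γ.1 δ.1 • C.E η := by
    have := C.E_comm_add γ δ η h
    rw [← this]
    abel
  have h2 := C.E_comm γ η hγη
  apply RD3_tor
  rw [smul_add, ← smul_mul_assoc, ← mul_smul_comm, ← C.E_mul_E, mul_assoc, h1, mul_add, ← mul_assoc,
    h1, add_mul, mul_assoc, mul_smul_comm, h2, smul_mul_assoc]
  abel

private theorem RD3_FE_zero (γ δ η : C.Root) (h : η.1 = γ.1 + δ.1) : C.F γ * C.E η = 0 := by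
  have hip : C.ip γ.1 δ.1 = -1 := C.ip_add_root γ δ η h
  have hγη : C.ip γ.1 η.1 = 1 := by
    rw [h, C.ip_add_right, γ.2, hip]
    norm_num
  ext a b
  rw [Matrix.mul_apply, Matrix.zero_apply]
  refine Finset.sum_eq_zero fun c _ => ?_
  rcases a with i | α <;> rcases c with j | β
  · simp [SLC.F]
  · simp [SLC.F]
  · simp [SLC.F]
  · by_cases hc : α.1 = γ.1 ∧ β.1 = -γ.1
    · have hz : C.E η (Sum.inr β) b = 0 := by
        rcases b with j | ρ
        · have h3 : β.1 ≠ η.1 := by
            intro h4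
            have h5 := hγη
            rw [← h4, hc.2, C.ip_neg_right, γ.2] at h5
            omega
          simp [SLC.E, h3]
        · have h3 : β.1 ≠ η.1 + ρ.1 := by
            intro h4
            have h5 := C.ip_add_root η ρ β h4
            have h6 : C.ip η.1 β.1 = 2 + C.ip η.1 ρ.1 := by
              rw [h4, C.ip_add_right, η.2]
            rw [hc.2, C.ip_neg_right, C.ip_comm η.1 γ.1, hγη, h5] at h6
            omega
          simp [SLC.E, h3]
      rw [hz, mul_zero]
    · simp [SLC.F, hc]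

/-- the span of the root vectors of negative height -/
private def RD3_V (E : Type*) [Field E] : Submodule E (Matrix C.Idx C.Idx E) :=
  Submodule.span E {M | ∃ β : C.Root, ¬ C.Pos β ∧ M = (C.E β).map (Int.cast : ℤ → E)}

private theorem RD3_cast_mul (E : Type*) [Field E] (A B : Matrix C.Idx C.Idx ℤ) :
    (A * B).map (Int.cast : ℤ → E) = A.map (Int.cast : ℤ → E) * B.map (Int.cast : ℤ → E) := by
  have := Matrix.map_mul (L := A) (M := B) (f := Int.castRingHom E)
  exact this

private theorem RD3_conj_nonneg (E : Type*) [Field E] (γ δ : C.Root) (h : 0 ≤ C.ip γ.1 δ.1) (t : E) :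
    (C.E δ).map (Int.cast : ℤ → E) * C.X E γ t = C.X E γ t * (C.E δ).map (Int.cast : ℤ → E) := by
  have h1 : (C.E γ).map (Int.cast : ℤ → E) * (C.E δ).map (Int.cast : ℤ → E) =
      (C.E δ).map (Int.cast : ℤ → E) * (C.E γ).map (Int.cast : ℤ → E) := by
    rw [← RD3_cast_mul, ← RD3_cast_mul, C.E_comm γ δ h]
  have h2 : (C.F γ).map (Int.cast : ℤ → E) * (C.E δ).map (Int.cast : ℤ → E) =
      (C.E δ).map (Int.cast : ℤ → E) * (C.F γ).map (Int.cast : ℤ → E) := by
    rw [← RD3_cast_mul, ← RD3_cast_mul, RD3_F_comm C γ δ h]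
  unfold SLC.X
  rw [mul_add, mul_add, add_mul, add_mul, mul_one, one_mul, mul_smul_comm, mul_smul_comm,
    smul_mul_assoc, smul_mul_assoc, h1, h2]

private theorem RD3_conj_neg (E : Type*) [Field E] (γ δ η : C.Root) (h : η.1 = γ.1 + δ.1) (t : E) :
    (C.E δ).map (Int.cast : ℤ → E) * C.X E γ t = C.X E γ t * ((C.E δ).map (Int.cast : ℤ → E) -
      (t * (C.eps γ.1 δ.1 : E)) • (C.E η).map (Int.cast : ℤ → E)) := by
  have hip : C.ip γ.1 δ.1 = -1 := C.ip_add_root γ δ η h
  have hγη : 0 ≤ C.ip γ.1 η.1 := by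
    rw [h, C.ip_add_right, γ.2, hip]
    norm_num
  have h1 : (C.E γ).map (Int.cast : ℤ → E) * (C.E δ).map (Int.cast : ℤ → E) =
      (C.E δ).map (Int.cast : ℤ → E) * (C.E γ).map (Int.cast : ℤ → E) +
        (C.eps γ.1 δ.1 : E) • (C.E η).map (Int.cast : ℤ → E) := by
    rw [← C.T5_map_comm_add γ δ η h]
    abel
  have h3 : (C.E γ).map (Int.cast : ℤ → E) * (C.E η).map (Int.cast : ℤ → E) =
      (C.E η).map (Int.cast : ℤ → E) * (C.E γ).map (Int.cast : ℤ → E) := by
    rw [← RD3_cast_mul, ← RD3_cast_mul, C.E_comm γ η hγη]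
  have h2 : (C.F γ).map (Int.cast : ℤ → E) * (C.E δ).map (Int.cast : ℤ → E) =
      (C.E δ).map (Int.cast : ℤ → E) * (C.F γ).map (Int.cast : ℤ → E) +
        (C.eps γ.1 δ.1 : E) • ((C.E η).map (Int.cast : ℤ → E) * (C.E γ).map (Int.cast : ℤ → E)) := by
    rw [← RD3_cast_mul, ← RD3_cast_mul, ← RD3_cast_mul, RD3_F_add C γ δ η h]
    ext a b
    rw [Matrix.map_apply, Matrix.add_apply, Matrix.smul_apply, Matrix.add_apply, Matrix.smul_apply,
      Matrix.map_apply, Matrix.map_apply, smul_eq_mul, smul_eq_mul, Int.cast_add, Int.cast_mul]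
  have h4 : (C.F γ).map (Int.cast : ℤ → E) * (C.E η).map (Int.cast : ℤ → E) = 0 := by
    rw [← RD3_cast_mul, RD3_FE_zero C γ δ η h]
    ext a b
    simp
  unfold SLC.X
  rw [mul_sub]
  simp only [mul_add, add_mul, mul_one, one_mul, mul_smul_comm, smul_mul_assoc, h1, h2, h3, h4,
    smul_add, smul_smul, smul_zero]
  module

private theorem RD3_V_conj (E : Type*) [Field E] (γ : C.Root) (hγ : ¬ C.Pos γ) (t : E)
    (M : Matrix C.Idx C.Idx E) (hM : M ∈ RD3_V C E) :
    ((C.xg E γ t)⁻¹ : GL C.Idx E).1 * M * (C.xg E γ t : GL C.Idx E).1 ∈ RD3_V C E := by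
  unfold RD3_V at hM
  induction hM using Submodule.span_induction with
  | mem x hx =>
    obtain ⟨δ, hδ, rfl⟩ := hx
    have hinv : ((C.xg E γ t)⁻¹ : GL C.Idx E).1 * (C.xg E γ t : GL C.Idx E).1 = 1 := by
      rw [← Units.val_mul, inv_mul_cancel, Units.val_one]
    have hval : (C.xg E γ t : GL C.Idx E).1 = C.X E γ t := rfl
    rcases C.ip_cases γ δ with h | h | h | h | h
    · exfalso
      have h1 := (C.ip_eq_neg_two_iff γ δ).1 h
      rw [h1] at hδ
      exact hδ ((C.not_pos_iff γ).1 hγ)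
    · obtain ⟨η, hη⟩ := C.exists_add γ δ h
      rw [mul_assoc, hval, RD3_conj_neg C E γ δ η hη t, ← hval, ← mul_assoc, hinv, one_mul]
      refine Submodule.sub_mem _ (Submodule.subset_span ⟨δ, hδ, rfl⟩)
        (Submodule.smul_mem _ _ (Submodule.subset_span ⟨η, ?_, rfl⟩))
      unfold SLC.Pos at hγ hδ ⊢
      rw [hη, ht_add]
      omega
    · rw [mul_assoc, hval, RD3_conj_nonneg C E γ δ (by omega) t, ← hval, ← mul_assoc, hinv, one_mul]
      exact Submodule.subset_span ⟨δ, hδ, rfl⟩
    · rw [mul_assoc, hval, RD3_conj_nonneg C E γ δ (by omega) t, ← hval, ← mul_assoc, hinv, one_mul]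
      exact Submodule.subset_span ⟨δ, hδ, rfl⟩
    · rw [mul_assoc, hval, RD3_conj_nonneg C E γ δ (by omega) t, ← hval, ← mul_assoc, hinv, one_mul]
      exact Submodule.subset_span ⟨δ, hδ, rfl⟩
  | zero =>
    rw [mul_zero, zero_mul]
    exact Submodule.zero_mem _
  | add x y _ _ hx hy =>
    rw [mul_add, add_mul]
    exact Submodule.add_mem _ hx hy
  | smul a x _ hx =>
    rw [mul_smul_comm, smul_mul_assoc]
    exact Submodule.smul_mem _ _ hx

/-- the logarithmic derivative of `v` lies in `V` and `V` is stable under `v⁻¹ . v` -/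
private def RD3_P {K E : Type*} [Field K] [Field E] [Algebra K E] (D : Derivation K E E)
    (v : GL C.Idx E) : Prop :=
  (v⁻¹ : GL C.Idx E).1 * (v : GL C.Idx E).1.map D ∈ RD3_V C E ∧
    ∀ M ∈ RD3_V C E, (v⁻¹ : GL C.Idx E).1 * M * (v : GL C.Idx E).1 ∈ RD3_V C E

private theorem RD3_P_mul {K E : Type*} [Field K] [Field E] [Algebra K E] (D : Derivation K E E)
    (v v' : GL C.Idx E) (h : RD3_P C D v) (h' : RD3_P C D v') : RD3_P C D (v * v') := by
  have hinv : (v⁻¹ : GL C.Idx E).1 * (v : GL C.Idx E).1 = 1 := by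
    rw [← Units.val_mul, inv_mul_cancel, Units.val_one]
  constructor
  · rw [_root_.mul_inv_rev, Units.val_mul, Units.val_mul, RD3_map_mul, mul_add]
    refine Submodule.add_mem _ ?_ ?_
    · have e : (v'⁻¹ : GL C.Idx E).1 * (v⁻¹ : GL C.Idx E).1 * ((v : GL C.Idx E).1.map D *
          (v' : GL C.Idx E).1) = (v'⁻¹ : GL C.Idx E).1 * ((v⁻¹ : GL C.Idx E).1 *
            (v : GL C.Idx E).1.map D) * (v' : GL C.Idx E).1 := by
        simp only [mul_assoc]
      rw [e]
      exact h'.2 _ h.1
    · have e : (v'⁻¹ : GL C.Idx E).1 * (v⁻¹ : GL C.Idx E).1 * ((v : GL C.Idx E).1 *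
          (v' : GL C.Idx E).1.map D) = (v'⁻¹ : GL C.Idx E).1 * (v' : GL C.Idx E).1.map D := by
        rw [mul_assoc, ← mul_assoc (v⁻¹ : GL C.Idx E).1, hinv, one_mul]
      rw [e]
      exact h'.1
  · intro M hM
    have e : ((v * v')⁻¹ : GL C.Idx E).1 * M * ((v * v' : GL C.Idx E)).1 =
        (v'⁻¹ : GL C.Idx E).1 * ((v⁻¹ : GL C.Idx E).1 * M * (v : GL C.Idx E).1) *
          (v' : GL C.Idx E).1 := by
      rw [_root_.mul_inv_rev, Units.val_mul, Units.val_mul]
      simp only [mul_assoc]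
    rw [e]
    exact h'.2 _ (h.2 _ hM)

private theorem RD3_P_one {K E : Type*} [Field K] [Field E] [Algebra K E] (D : Derivation K E E) :
    RD3_P C D 1 := by
  constructor
  · rw [Units.val_one, RD3_map_one, mul_zero]
    exact Submodule.zero_mem _
  · intro M hM
    simpa using hM

private theorem RD3_P_xg {K E : Type*} [Field K] [Field E] [Algebra K E] (D : Derivation K E E)
    (γ : C.Root) (hγ : ¬ C.Pos γ) (t : E) : RD3_P C D (C.xg E γ t) := by
  constructor
  · have hval : (C.xg E γ t : GL C.Idx E).1 = C.X E γ t := rfl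
    have hinv : ((C.xg E γ t)⁻¹ : GL C.Idx E).1 * (C.xg E γ t : GL C.Idx E).1 = 1 := by
      rw [← Units.val_mul, inv_mul_cancel, Units.val_one]
    rw [hval, RD3_map_X, ← hval, mul_smul_comm, ← mul_assoc, hinv, one_mul]
    exact Submodule.smul_mem _ _ (Submodule.subset_span ⟨γ, hγ, rfl⟩)
  · intro M hM
    exact RD3_V_conj C E γ hγ t M hM

/-- the triangular argument -/
private theorem RD3_V_zero {E : Type*} [Field E] (X : Matrix C.Idx C.Idx E) (hX : X ∈ RD3_V C E)
    (S : Set (GL C.Idx E)) (hS : ∀ γ ∈ S, γ ∈ C.Gad E ∧ C.Fil 0 (γ : Matrix C.Idx C.Idx E) ∧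
      C.Fil 0 ((γ : Matrix C.Idx C.Idx E) * X - X * (γ : Matrix C.Idx C.Idx E)))
    (hreg : ∀ δ : C.Root, ∃ γ ∈ S, C.chi (γ : Matrix C.Idx C.Idx E) δ ≠ 1) : X = 0 := by
  classical
  -- coordinates
  have hco : ∃ c : C.Root → E, (∀ δ, C.Pos δ → c δ = 0) ∧
      X = ∑ δ, c δ • (C.E δ).map (Int.cast : ℤ → E) := by
    clear hS hreg
    unfold RD3_V at hX
    induction hX using Submodule.span_induction with
    | mem x hx =>
      obtain ⟨δ, hδ, rfl⟩ := hx
      refine ⟨fun η => if η = δ then 1 else 0, ?_, ?_⟩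
      · intro η hη
        have : η ≠ δ := by
          rintro rfl
          exact hδ hη
        simp [this]
      · rw [Finset.sum_eq_single δ]
        · simp
        · intro η _ hη
          simp [hη]
        · intro h
          exact absurd (Finset.mem_univ _) h
    | zero => exact ⟨0, by simp, by simp⟩
    | add x y _ _ hx hy =>
      obtain ⟨c, hc, hx⟩ := hx
      obtain ⟨c', hc', hy⟩ := hy
      refine ⟨fun δ => c δ + c' δ, ?_, ?_⟩
      · intro δ hδ
        show c δ + c' δ = 0
        rw [hc δ hδ, hc' δ hδ, add_zero]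
      · rw [hx, hy, ← Finset.sum_add_distrib]
        exact Finset.sum_congr rfl fun δ _ => (add_smul _ _ _).symm
    | smul a x _ hx =>
      obtain ⟨c, hc, hx⟩ := hx
      refine ⟨fun δ => a * c δ, ?_, ?_⟩
      · intro δ hδ
        show a * c δ = 0
        rw [hc δ hδ, mul_zero]
      · rw [hx, Finset.smul_sum]
        exact Finset.sum_congr rfl fun δ _ => smul_smul _ _ _
  obtain ⟨c, hc, hXc⟩ := hco
  by_contra hne
  -- minimal height
  have hex : ∃ δ : C.Root, c δ ≠ 0 := by
    by_contra hcon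
    push Not at hcon
    apply hne
    rw [hXc]
    exact Finset.sum_eq_zero fun δ _ => by rw [hcon δ, zero_smul]
  obtain ⟨δ, hδ, hmin⟩ := Set.exists_min_image {δ : C.Root | c δ ≠ 0} (fun δ => ht δ.1)
    (Set.toFinite _) hex
  have hδ' : c δ ≠ 0 := hδ
  have hδneg : ht δ.1 < 0 := by
    have h1 : ¬ C.Pos δ := fun h => hδ' (hc δ h)
    have h2 := C.ht_ne_zero δ
    unfold SLC.Pos at h1
    omega
  have hFil : C.Fil (ht δ.1) X := by
    rw [hXc]
    refine C.Fil_sum _ _ fun η _ => ?_
    by_cases h0 : c η = 0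
    · rw [h0, zero_smul]
      exact C.Fil_zero _
    · exact C.Fil_smul _ (C.Fil_mono (hmin η h0) (C.Fil_E E η))
  obtain ⟨i, hi⟩ := C.exists_coeff_ne_zero δ E
  have hentry : X (Sum.inl i) (Sum.inr (-δ)) = - (c δ * (δ.1 i : E)) := by
    rw [hXc, Matrix.sum_apply, Finset.sum_eq_single δ]
    · simp [SLC.E]
    · intro η _ hη
      have h2 : ¬ ((-δ).1 = -η.1) := by
        intro h3
        apply hη
        apply SLC.Root.ext
        rw [SLC.Root.neg_val] at h3
        exact (neg_injective h3).symm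
      simp only [Matrix.smul_apply, Matrix.map_apply, SLC.E, if_neg h2, Int.cast_zero, smul_zero]
    · intro h
      exact absurd (Finset.mem_univ _) h
  have hentry0 : X (Sum.inl i) (Sum.inr (-δ)) ≠ 0 := by
    rw [hentry]
    exact neg_ne_zero.2 (mul_ne_zero hδ' hi)
  obtain ⟨γ, hγS, hγ⟩ := hreg (-δ)
  obtain ⟨hγG, hγ0, hγX⟩ := hS γ hγS
  obtain ⟨τ, hτ, u, hu, hγe⟩ := C.upper γ hγG hγ0
  obtain ⟨d, hd⟩ := C.T_diag τ hτ
  have hu1 := C.Fil_U 1 le_rfl u hu
  -- entries of γ of height 0
  have hent : ∀ a b : C.Idx, C.hti a = C.hti b → a ≠ b → (γ : Matrix C.Idx C.Idx E) a b = 0 := by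
    intro a b hab hne
    rw [hγe, Units.val_mul, hd, Matrix.diagonal_mul]
    have h1 := hu1 a b (by omega)
    rw [Matrix.sub_apply, Matrix.one_apply_ne hne, sub_zero] at h1
    rw [h1, mul_zero]
  have hdiag : (γ : Matrix C.Idx C.Idx E) (Sum.inl i) (Sum.inl i) = 1 := by
    rw [hγe, Units.val_mul, hd, Matrix.diagonal_mul]
    have h1 := hu1 (Sum.inl i) (Sum.inl i) (by omega)
    rw [Matrix.sub_apply, Matrix.one_apply_eq, sub_eq_zero] at h1
    rw [h1, Sum.elim_inl, one_mul]
  have hha : C.hti (Sum.inl i) = 0 := rfl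
  have hhb : C.hti (Sum.inr (-δ)) = - ht δ.1 := by
    simp only [SLC.hti, Sum.elim_inr, SLC.Root.neg_val, ht_neg]
  have h1 : ((γ : Matrix C.Idx C.Idx E) * X) (Sum.inl i) (Sum.inr (-δ)) =
      X (Sum.inl i) (Sum.inr (-δ)) := by
    rw [Matrix.mul_apply, Finset.sum_eq_single (Sum.inl i)]
    · rw [hdiag, one_mul]
    · intro b _ hb
      rcases lt_trichotomy (C.hti b) 0 with h | h | h
      · rw [hFil b (Sum.inr (-δ)) (by omega), mul_zero]
      · rw [hent (Sum.inl i) b (by omega) hb.symm, zero_mul]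
      · rw [hγ0 (Sum.inl i) b (by omega), zero_mul]
    · intro h
      exact absurd (Finset.mem_univ _) h
  have h2 : (X * (γ : Matrix C.Idx C.Idx E)) (Sum.inl i) (Sum.inr (-δ)) =
      X (Sum.inl i) (Sum.inr (-δ)) * C.chi (γ : Matrix C.Idx C.Idx E) (-δ) := by
    rw [Matrix.mul_apply, Finset.sum_eq_single (Sum.inr (-δ))]
    · rfl
    · intro b _ hb
      rcases lt_trichotomy (C.hti b) (- ht δ.1) with h | h | h
      · rw [hγ0 b (Sum.inr (-δ)) (by omega), mul_zero]
      · rw [hent b (Sum.inr (-δ)) (by omega) hb, mul_zero]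
      · rw [hFil (Sum.inl i) b (by omega), zero_mul]
    · intro h
      exact absurd (Finset.mem_univ _) h
  have h3 := hγX (Sum.inl i) (Sum.inr (-δ)) (by omega)
  rw [Matrix.sub_apply, h1, h2] at h3
  have h4 : X (Sum.inl i) (Sum.inr (-δ)) * (1 - C.chi (γ : Matrix C.Idx C.Idx E) (-δ)) = 0 := by
    rw [mul_sub, mul_one]
    exact h3
  rcases mul_eq_zero.1 h4 with h5 | h5
  · exact hentry0 h5
  · exact hγ (sub_eq_zero.1 h5).symm

/-- matrices killed by the derivation: ordered products with constant coordinates -/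
private theorem RD3_lp_const {K E : Type*} [Field K] [Field E] [Algebra K E] (D : Derivation K E E)
    (l : List C.Root) (t : C.Root → E) (h : ∀ β, D (t β) = 0) :
    ((C.adS E).lp l t : Matrix C.Idx C.Idx E).map D = 0 := by
  induction l with
  | nil =>
    have : (C.adS E).lp ([] : List C.Root) t = 1 := rfl
    rw [this, Units.val_one, RD3_map_one]
  | cons β l ih =>
    have e2 : (C.adS E).lp (β :: l) t = C.xg E β (t β) * (C.adS E).lp l t := by
      unfold StSys.lp
      rw [List.map_cons, List.prod_cons]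
      rfl
    have hval : (C.xg E β (t β) : GL C.Idx E).1 = C.X E β (t β) := rfl
    rw [e2, Units.val_mul, RD3_map_mul, ih, mul_zero, add_zero, hval, RD3_map_X, h β, zero_smul,
      zero_mul]

private theorem RD3_nword_const {K E : Type*} [Field K] [Field E] [Algebra K E]
    (D : Derivation K E E) (l : List (Fin n)) :
    ((C.adS E).nword l : Matrix C.Idx C.Idx E).map D = 0 := by
  induction l with
  | nil =>
    have : (C.adS E).nword ([] : List (Fin n)) = 1 := rfl
    rw [this, Units.val_one, RD3_map_one]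
  | cons i l ih =>
    have e2 : (C.adS E).nword (i :: l) = nn (C.xg E) (C.simple i) 1 * (C.adS E).nword l := by
      unfold StSys.nword
      rw [List.map_cons, List.prod_cons]
      rfl
    have e3 : ((nn (C.xg E) (C.simple i) 1 : GL C.Idx E) : Matrix C.Idx C.Idx E).map D = 0 := by
      have hval : (nn (C.xg E) (C.simple i) 1 : GL C.Idx E).1 =
        C.X E (C.simple i) 1 * C.X E (-(C.simple i)) 1⁻¹ * C.X E (C.simple i) 1 := rfl
      rw [hval, RD3_map_mul, RD3_map_mul, RD3_map_X, RD3_map_X]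
      simp
    rw [e2, Units.val_mul, RD3_map_mul, ih, mul_zero, add_zero, e3, zero_mul]

/-- if the derivative of an ordered product vanishes then its coordinates are constants -/
private theorem RD3_lp_deriv {K E : Type*} [Field K] [Field E] [Algebra K E] (D : Derivation K E E)
    (y : C.Root → E) (h : ((C.adS E).lp C.posList y : Matrix C.Idx C.Idx E).map D = 0) :
    ∀ k : ℕ, ∀ β : C.Root, C.Pos β → (ht β.1).toNat = k → D (y β) = 0 := by
  intro k
  induction k using Nat.strong_induction_on with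
  | _ k ih =>
    intro β hβ hk
    have hp : 0 < ht β.1 := hβ
    have h1 := (C.adS E).lp_split (ht β.1 - 1) y
    have h2 : ((C.adS E).lp C.posList (fun γ => if ht γ.1 ≤ ht β.1 - 1 then y γ else 0) :
        Matrix C.Idx C.Idx E).map D = 0 := by
      have e : (C.adS E).lp C.posList (fun γ => if ht γ.1 ≤ ht β.1 - 1 then y γ else 0) =
          (C.adS E).lp C.posList (fun γ => if C.Pos γ ∧ ht γ.1 ≤ ht β.1 - 1 then y γ else 0) := by
        apply StSys.lp_congr
        intro γ hγ
        have h3 : C.Pos γ := (C.mem_posList γ).mp hγ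
        simp [h3]
      rw [e]
      apply RD3_lp_const
      intro γ
      split_ifs with h3
      · have h4 : 0 < ht γ.1 := h3.1
        exact ih (ht γ.1).toNat (by omega) γ h3.1 rfl
      · exact map_zero D
    rw [h1, Units.val_mul, RD3_map_mul, h2, zero_mul, zero_add] at h
    have h5 : ((C.adS E).lp C.posList (fun γ => if ht γ.1 ≤ ht β.1 - 1 then 0 else y γ) :
        Matrix C.Idx C.Idx E).map D = 0 := by
      have h6 := congrArg (fun M => (((C.adS E).lp C.posList
        (fun γ => if ht γ.1 ≤ ht β.1 - 1 then y γ else 0))⁻¹ : GL C.Idx E).1 * M) h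
      simp only [mul_zero] at h6
      rw [← mul_assoc, ← Units.val_mul, inv_mul_cancel, Units.val_one, one_mul] at h6
      exact h6
    obtain ⟨i, hi⟩ := C.exists_coeff_ne_zero β E
    have h7 := C.lp_entry (fun γ => if ht γ.1 ≤ ht β.1 - 1 then 0 else y γ) (ht β.1) (by omega)
      (fun γ hγ => if_pos (by omega)) β rfl i
    have h8 := congrFun (congrFun h5 (Sum.inl i)) (Sum.inr (-β))
    rw [Matrix.map_apply, h7, if_neg (by omega), map_neg, Derivation.leibniz,
      Derivation.map_intCast, smul_zero, zero_add, smul_eq_mul, Matrix.zero_apply, neg_eq_zero] at h8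
    rcases mul_eq_zero.1 h8 with h9 | h9
    · exact absurd h9 hi
    · exact h9

theorem deriv_eq_zero {K E : Type*} [Field K] [Field E] [Algebra K E] (D : Derivation K E E)
    (l : List (Fin n)) (y : C.Root → E) (hy : ∀ β, y β ≠ 0 → C.Pos β ∧ ¬ C.Pos ((C.wd l)⁻¹ β))
    (g : GL C.Idx E) (hg : g = (C.adS E).lp C.posList y * (C.adS E).nword l)
    (Γ : Set (GL C.Idx K)) (hΓ : ∀ γ ∈ Γ, γ ∈ C.Gad K)
    (hB : ∀ γ ∈ Γ, C.Fil 0 ((g⁻¹ * C.mp (algebraMap K E) γ * g : GL C.Idx E) :
      Matrix C.Idx C.Idx E))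
    (hreg : ∀ δ : C.Root, ∃ γ ∈ Γ, C.chi ((g⁻¹ * C.mp (algebraMap K E) γ * g : GL C.Idx E) :
      Matrix C.Idx C.Idx E) δ ≠ 1) (β : C.Root) : D (y β) = 0 := by
  classical
  set u := (C.adS E).lp C.posList y with hu
  set ν := (C.adS E).nword l with hν
  have hνD : (ν : Matrix C.Idx C.Idx E).map D = 0 := RD3_nword_const C D l
  -- `v = ν⁻¹ u ν`
  have hvP : RD3_P C D (ν⁻¹ * u * ν) := by
    obtain ⟨c, hc, hact⟩ := (C.adS E).nword_acts l
    have key : ∀ L : List C.Root, RD3_P C D (ν⁻¹ * (C.adS E).lp L y * ν) := by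
      intro L
      induction L with
      | nil =>
        have : (C.adS E).lp ([] : List C.Root) y = 1 := rfl
        rw [this, mul_one, inv_mul_cancel]
        exact RD3_P_one C D
      | cons β L ih =>
        have e2 : (C.adS E).lp (β :: L) y = C.xg E β (y β) * (C.adS E).lp L y := by
          unfold StSys.lp
          rw [List.map_cons, List.prod_cons]
          rfl
        have e3 : ν⁻¹ * (C.adS E).lp (β :: L) y * ν = (ν⁻¹ * C.xg E β (y β) * ν) *
            (ν⁻¹ * (C.adS E).lp L y * ν) := by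
          rw [e2]
          group
        rw [e3]
        refine RD3_P_mul C D _ _ ?_ ih
        by_cases h0 : y β = 0
        · have h1 : C.xg E β (y β) = 1 := by
            rw [h0]
            exact (C.adS E).x_zero β
          rw [h1, mul_one, inv_mul_cancel]
          exact RD3_P_one C D
        · have h1 := hact ((C.wd l)⁻¹ β) ((c ((C.wd l)⁻¹ β))⁻¹ * y β)
          have h2 : C.wd l ((C.wd l)⁻¹ β) = β := by
            rw [← Equiv.Perm.mul_apply, mul_inv_cancel, Equiv.Perm.one_apply]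
          rw [h2, ← mul_assoc, mul_inv_cancel₀ (hc _), one_mul] at h1
          have h3 : ν⁻¹ * C.xg E β (y β) * ν =
              C.xg E ((C.wd l)⁻¹ β) ((c ((C.wd l)⁻¹ β))⁻¹ * y β) := by
            have h4 : C.xg E β (y β) = ν * C.xg E ((C.wd l)⁻¹ β)
              ((c ((C.wd l)⁻¹ β))⁻¹ * y β) * ν⁻¹ := h1.symm
            rw [h4]
            group
          rw [h3]
          exact RD3_P_xg C D _ (hy β h0).2 _
    exact key C.posList
  have hgv : g = ν * (ν⁻¹ * u * ν) := by
    rw [hg]
    group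
  -- `X = g⁻¹ D g`
  set X : Matrix C.Idx C.Idx E := (g⁻¹ : GL C.Idx E).1 * (g : GL C.Idx E).1.map D with hX
  have hinv : (g⁻¹ : GL C.Idx E).1 * (g : GL C.Idx E).1 = 1 := by
    rw [← Units.val_mul, inv_mul_cancel, Units.val_one]
  have hinv' : (g : GL C.Idx E).1 * (g⁻¹ : GL C.Idx E).1 = 1 := by
    rw [← Units.val_mul, mul_inv_cancel, Units.val_one]
  have hgX : (g : GL C.Idx E).1.map D = (g : GL C.Idx E).1 * X := by
    rw [hX, ← mul_assoc, hinv', one_mul]
  have hXV : X ∈ RD3_V C E := by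
    have h1 := hvP.1
    have h2 : X = ((ν⁻¹ * u * ν)⁻¹ : GL C.Idx E).1 *
        ((ν⁻¹ * u * ν : GL C.Idx E) : GL C.Idx E).1.map D := by
      have h3 : (g : GL C.Idx E).1.map D = (ν : GL C.Idx E).1 *
          ((ν⁻¹ * u * ν : GL C.Idx E) : GL C.Idx E).1.map D := by
        conv_lhs => rw [hgv]
        rw [Units.val_mul, RD3_map_mul, hνD, zero_mul, zero_add]
      have h4 : (g⁻¹ : GL C.Idx E).1 = ((ν⁻¹ * u * ν)⁻¹ : GL C.Idx E).1 *
          (ν⁻¹ : GL C.Idx E).1 := by
        rw [← Units.val_mul, ← _root_.mul_inv_rev, ← hgv]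
      rw [hX, h3, h4, mul_assoc, ← mul_assoc (ν⁻¹ : GL C.Idx E).1, ← Units.val_mul,
        inv_mul_cancel, Units.val_one, one_mul]
    rw [h2]
    exact h1
  have hgG : g ∈ C.Gad E := by
    rw [hg, ← C.gen_adS E]
    refine mul_mem ?_ ?_
    · apply (C.adS E).U_le_gen 1
      apply (C.adS E).lp_mem 1 y
      intro γ hγ
      by_contra h
      have h1 := (hy γ h).1
      unfold SLC.Pos at h1
      omega
    · exact (C.adS E).N_le_gen ((C.adS E).nword_mem l)
  have hX0 : X = 0 := by
    refine RD3_V_zero C X hXV {γ' | ∃ γ ∈ Γ, γ' = g⁻¹ * C.mp (algebraMap K E) γ * g} ?_ ?_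
    · rintro _ ⟨γ, hγ, rfl⟩
      have hF := hB γ hγ
      refine ⟨?_, hF, ?_⟩
      · exact mul_mem (mul_mem (inv_mem hgG) (C.mp_Gad (algebraMap K E) γ (hΓ γ hγ))) hgG
      · set γE : GL C.Idx E := C.mp (algebraMap K E) γ with hγE
        have hγD : (γE : GL C.Idx E).1.map D = 0 := by
          have h1 := C.mp_val (algebraMap K E) γ
          rw [← hγE] at h1
          rw [h1]
          ext a b
          simp [Matrix.map_apply]
        have h2 : (g : GL C.Idx E).1 * ((g⁻¹ * γE * g : GL C.Idx E)).1 =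
            (γE : GL C.Idx E).1 * (g : GL C.Idx E).1 := by
          rw [← Units.val_mul, ← Units.val_mul]
          congr 1
          group
        have h3 := congrArg (fun M : Matrix C.Idx C.Idx E => M.map D) h2
        beta_reduce at h3
        rw [RD3_map_mul, RD3_map_mul, hγD, zero_mul, zero_add, hgX] at h3
        have h4 : (((g⁻¹ * γE * g : GL C.Idx E)).1).map D =
            ((g⁻¹ * γE * g : GL C.Idx E)).1 * X - X * ((g⁻¹ * γE * g : GL C.Idx E)).1 := by
          have h5 := congrArg (fun M => (g⁻¹ : GL C.Idx E).1 * M) h3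
          simp only [mul_add] at h5
          have e1 : (g⁻¹ : GL C.Idx E).1 * ((g : GL C.Idx E).1 * X *
              ((g⁻¹ * γE * g : GL C.Idx E)).1) = X * ((g⁻¹ * γE * g : GL C.Idx E)).1 := by
            rw [← mul_assoc, ← mul_assoc, hinv, one_mul]
          have e2 : (g⁻¹ : GL C.Idx E).1 * ((g : GL C.Idx E).1 *
              (((g⁻¹ * γE * g : GL C.Idx E)).1).map D) =
              (((g⁻¹ * γE * g : GL C.Idx E)).1).map D := by
            rw [← mul_assoc, hinv, one_mul]
          have e3 : (g⁻¹ : GL C.Idx E).1 * ((γE : GL C.Idx E).1 * ((g : GL C.Idx E).1 * X)) =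
              ((g⁻¹ * γE * g : GL C.Idx E)).1 * X := by
            rw [Units.val_mul, Units.val_mul]
            simp only [mul_assoc]
          rw [e1, e2, e3] at h5
          rw [← h5]
          abel
        rw [← h4]
        intro a b hab
        rw [Matrix.map_apply, hF a b hab, map_zero]
    · intro δ
      obtain ⟨γ, hγ, h⟩ := hreg δ
      exact ⟨_, ⟨γ, hγ, rfl⟩, h⟩
  have hgD : (g : GL C.Idx E).1.map D = 0 := by
    rw [hgX, hX0, mul_zero]
  have huD : (u : GL C.Idx E).1.map D = 0 := by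
    rw [hg, Units.val_mul, RD3_map_mul, hνD, mul_zero, add_zero] at hgD
    have h1 := congrArg (fun M => M * (ν⁻¹ : GL C.Idx E).1) hgD
    simp only [zero_mul] at h1
    rw [mul_assoc, ← Units.val_mul, mul_inv_cancel, Units.val_one, mul_one] at h1
    exact h1
  by_cases hβ : C.Pos β
  · exact RD3_lp_deriv C D y huD _ β hβ rfl
  · have h0 : y β = 0 := by
      by_contra h
      exact hβ (hy β h).1
    rw [h0, map_zero]

end Pool.Agent.H86.UM
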