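import Pool.Agent.H86.UM.RD1
import Pool.Agent.H86.UM.RD2
import Pool.Agent.H86.UM.RD3
import Pool.Agent.H75.UL.P3b

/-!
# Project UM, module RD4: rational chambers (by derivations)

`g ∈ Gad L` with `g⁻¹ γ g` upper triangular for all `γ ∈ Γ ⊆ Gad K`, the chamber of `g` fixed by all
`K`-automorphisms of `L`, and for every root `δ` there is `γ ∈ Γ` whose eigenvalue at `δ` is not `1`.
Then the chamber is rational. Proof: `normal_form`: `g₁ = lp y * nword l` with `g₁⁻¹ g` in `Fil 0`. `g₁` has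
the same properties (`Fil_mul`, `upper_inv`, `P3b_chi_conj`-type argument for `chi`, `mp` of `Fil 0` is
`Fil 0`: `Fil_map`). `coords_perfect`. If all `y β ∈ K`, `y = algebraMap ∘ y₀`, then `g₀ = lp y₀ * nword l`
(`mp_normal`) and we are done. Otherwise `exists_derivation` and `deriv_eq_zero` (over `E`, with
`mp (E → L)` injective on matrices, `Fil_map_iff`, `chi_map`, `mp_normal`; `mp` is functorial:
`mp (E → L) (mp (K → E) γ) = mp (K → L) γ`) give a contradiction.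
-/

set_option autoImplicit false
open Matrix

namespace Pool.Agent.H86.UM

open Pool.Agent.H75.UL

variable {n : ℕ} (C : SLC n)

private theorem RD4_mem {F : Type*} [Field F] (l : List (Fin n)) (y : C.Root → F)
    (hy : ∀ β, y β ≠ 0 → C.Pos β ∧ ¬ C.Pos ((C.wd l)⁻¹ β)) :
    (C.adS F).lp C.posList y * (C.adS F).nword l ∈ C.Gad F := by
  rw [← C.gen_adS]
  refine mul_mem ?_ ?_
  · refine (C.adS F).U_le_gen 1 ((C.adS F).lp_mem 1 y ?_)
    intro β hβ
    by_contra h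
    have h1 : 0 < ht β.1 := (hy β h).1
    omega
  · exact (C.adS F).N_le_gen ((C.adS F).nword_mem l)

private theorem RD4_mp_mp {K E L : Type*} [Field K] [Field E] [Field L] (f : K →+* E)
    (f' : E →+* L) (f'' : K →+* L) (h : ∀ x, f' (f x) = f'' x) (γ : GL C.Idx K) :
    C.mp f' (C.mp f γ) = C.mp f'' γ := by
  apply Units.ext
  rw [C.mp_val, C.mp_val, C.mp_val]
  ext a b
  simp [h]

private theorem RD4_Fil_mul3 {F : Type*} [Field F] (a b c : GL C.Idx F)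
    (ha : C.Fil 0 (a : Matrix C.Idx C.Idx F)) (hb : C.Fil 0 (b : Matrix C.Idx C.Idx F))
    (hc : C.Fil 0 (c : Matrix C.Idx C.Idx F)) :
    C.Fil 0 ((a * b * c : GL C.Idx F) : Matrix C.Idx C.Idx F) := by
  have h := C.Fil_mul (C.Fil_mul ha hb) hc
  rw [add_zero, add_zero] at h
  exact h

theorem rational_der {K L : Type*} [Field K] [Field L] [Algebra K L] [IsAlgClosure K L]
    (Γ : Set (GL C.Idx K)) (hΓ : ∀ γ ∈ Γ, γ ∈ C.Gad K) (g : GL C.Idx L) (hg : g ∈ C.Gad L)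
    (hB : ∀ γ ∈ Γ, C.Fil 0 ((g⁻¹ * C.mp (algebraMap K L) γ * g : GL C.Idx L) :
      Matrix C.Idx C.Idx L))
    (hfix : ∀ σ : L ≃ₐ[K] L, C.Fil 0 ((g⁻¹ * C.mp (σ : L →+* L) g : GL C.Idx L) :
      Matrix C.Idx C.Idx L))
    (hreg : ∀ δ : C.Root, ∃ γ ∈ Γ, C.chi ((g⁻¹ * C.mp (algebraMap K L) γ * g : GL C.Idx L) :
      Matrix C.Idx C.Idx L) δ ≠ 1) :
    ∃ g₀ ∈ C.Gad K, C.Fil 0 ((g⁻¹ * C.mp (algebraMap K L) g₀ : GL C.Idx L) :
      Matrix C.Idx C.Idx L) := by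
  obtain ⟨l, y, hy, hgB⟩ := normal_form C g hg
  obtain ⟨g₁, hg₁⟩ : ∃ g₁ : GL C.Idx L,
      g₁ = (C.adS L).lp C.posList y * (C.adS L).nword l := ⟨_, rfl⟩
  have hm₁ : g₁ ∈ C.Gad L := by
    rw [hg₁]
    exact RD4_mem C l y hy
  rw [← hg₁] at hgB
  obtain ⟨b, hb⟩ : ∃ b : GL C.Idx L, b = g₁⁻¹ * g := ⟨_, rfl⟩
  have hbm : b ∈ C.Gad L := by
    rw [hb]
    exact mul_mem (inv_mem hm₁) hg
  rw [← hb] at hgB
  have hbi := C.upper_inv b hbm hgB
  have hg₁' : g₁ = g * b⁻¹ := by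
    rw [hb]
    group
  have hconj : ∀ x : GL C.Idx L, g₁⁻¹ * x * g₁ = b * (g⁻¹ * x * g) * b⁻¹ := by
    intro x
    rw [hg₁']
    group
  have hB₁ : ∀ γ ∈ Γ, C.Fil 0 ((g₁⁻¹ * C.mp (algebraMap K L) γ * g₁ : GL C.Idx L) :
      Matrix C.Idx C.Idx L) := by
    intro γ hγ
    rw [hconj]
    exact RD4_Fil_mul3 C _ _ _ hgB (hB γ hγ) hbi
  have hfix₁ : ∀ σ : L ≃ₐ[K] L, C.Fil 0 ((g₁⁻¹ * C.mp (σ : L →+* L) g₁ : GL C.Idx L) :
      Matrix C.Idx C.Idx L) := by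
    intro σ
    have e : g₁⁻¹ * C.mp (σ : L →+* L) g₁ =
        b * (g⁻¹ * C.mp (σ : L →+* L) g) * C.mp (σ : L →+* L) b⁻¹ := by
      rw [hg₁', _root_.map_mul]
      group
    rw [e]
    refine RD4_Fil_mul3 C _ _ _ hgB (hfix σ) ?_
    rw [C.mp_val]
    exact C.Fil_map _ hbi
  have hreg₁ : ∀ δ : C.Root, ∃ γ ∈ Γ, C.chi ((g₁⁻¹ * C.mp (algebraMap K L) γ * g₁ : GL C.Idx L) :
      Matrix C.Idx C.Idx L) δ ≠ 1 := by
    intro δ
    obtain ⟨γ, hγ, h⟩ := hreg δ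
    refine ⟨γ, hγ, ?_⟩
    have h1 := C.P3b_chi_conj (g⁻¹ * C.mp (algebraMap K L) γ * g) b⁻¹
      (mul_mem (mul_mem (inv_mem hg) (C.mp_Gad _ γ (hΓ γ hγ))) hg) (hB γ hγ) (inv_mem hbm) hbi δ
    rw [inv_inv] at h1
    rw [hconj, h1]
    exact h
  have hperf := coords_perfect C l y hy g₁ hg₁ hfix₁
  by_cases hall : ∀ β, y β ∈ Set.range (algebraMap K L)
  · choose y₀ hy₀ using hall
    have hy₀' : ∀ β, y₀ β ≠ 0 → C.Pos β ∧ ¬ C.Pos ((C.wd l)⁻¹ β) := by
      intro β h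
      apply hy β
      rw [← hy₀ β]
      simpa using h
    refine ⟨(C.adS K).lp C.posList y₀ * (C.adS K).nword l, RD4_mem C l y₀ hy₀', ?_⟩
    rw [mp_normal]
    have e : (fun β => (algebraMap K L) (y₀ β)) = y := funext hy₀
    rw [e, ← hg₁]
    have e2 : g⁻¹ * g₁ = b⁻¹ := by
      rw [hb]
      group
    rw [e2]
    exact hbi
  · exfalso
    push Not at hall
    obtain ⟨E, hE, D, i, hi⟩ := exists_derivation y hperf hall
    apply hi
    let yE : C.Root → E := fun β => ⟨y β, hE β⟩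
    have hyE : ∀ β, yE β ≠ 0 → C.Pos β ∧ ¬ C.Pos ((C.wd l)⁻¹ β) := by
      intro β h
      apply hy β
      intro h0
      apply h
      apply Subtype.ext
      exact h0
    let gE : GL C.Idx E := (C.adS E).lp C.posList yE * (C.adS E).nword l
    have hgE : C.mp (algebraMap E L) gE = g₁ := by
      rw [hg₁]
      exact mp_normal C (algebraMap E L) l yE
    have hmp : ∀ γ : GL C.Idx K, C.mp (algebraMap E L) (gE⁻¹ * C.mp (algebraMap K E) γ * gE) =
        g₁⁻¹ * C.mp (algebraMap K L) γ * g₁ := by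
      intro γ
      rw [_root_.map_mul, _root_.map_mul, _root_.map_inv, hgE,
        RD4_mp_mp C (algebraMap K E) (algebraMap E L) (algebraMap K L)
          (fun x => (IsScalarTower.algebraMap_apply K E L x).symm)]
    have hinj : Function.Injective (algebraMap E L) := (algebraMap E L).injective
    have hBE : ∀ γ ∈ Γ, C.Fil 0 ((gE⁻¹ * C.mp (algebraMap K E) γ * gE : GL C.Idx E) :
        Matrix C.Idx C.Idx E) := by
      intro γ hγ
      rw [← C.Fil_map_iff (algebraMap E L) hinj, ← C.mp_val, hmp]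
      exact hB₁ γ hγ
    have hregE : ∀ δ : C.Root, ∃ γ ∈ Γ,
        C.chi ((gE⁻¹ * C.mp (algebraMap K E) γ * gE : GL C.Idx E) :
          Matrix C.Idx C.Idx E) δ ≠ 1 := by
      intro δ
      obtain ⟨γ, hγ, h⟩ := hreg₁ δ
      refine ⟨γ, hγ, ?_⟩
      intro h1
      apply h
      rw [← hmp, C.mp_val, C.chi_map, h1, _root_.map_one]
    exact deriv_eq_zero C D l yE hyE gE rfl Γ hΓ hBE hregE i

end Pool.Agent.H86.UM
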