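import Pool.Agent.H86.UM.ZA

/-!
# Project UM, Suzuki-Ree groups, module ZB: the unipotent group of type `²B₂`

`B2s`: root groups `A` (short), `B` (long), `P` (`A + B`, short), `Q` (`2 A + B`, long) in characteristic `2`, with
`σ`. Compute in the group generated, which consists of the `A t * B u * P v * Q w`; `P, Q` are central,
`B b * A a = A a * B b * P (a b) * Q (a ^ 2 b)` (characteristic `2`: `P x = (P x)⁻¹`).
`σ (A t B u P v Q w) = A (θ⁻¹ u) B (θ t) P (θ⁻¹ u θ t + θ⁻¹ w) Q ((θ⁻¹ u) ^ 2 θ t + θ v)`.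
`ker`: the commutator of `xx t 0` and `xx t' 0` is `xx 0 (t θ t' + t' θ t)`; the set of `v` with
`xx 0 v ∈ ⁅X, X⁆` is an additive group `M`, the additive group `M'` generated by the `t θ t' + t' θ t` is closed
under multiplication with `λ θ λ`, not `0` (`t' = 1`: otherwise `θ t = t` for all `t`, `t ^ 2 = t`), `norm_module`.

`B2_rigid`: see the conclusion. Put `z(t, t') = t θ t' + t' θ t`. `F1` is a homomorphism of the group
`(t, v) (t', v') = (t + t', v + v' + t' θ t)` into an abelian group, so `F1 0 (z(t, t')) = 0`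
(`(t, 0) (t', 0) = (t', 0) (t, 0) (0, z)`), so `F1 0 v = 0` for all `v` (`norm_module`), `F1 t v = f t`, `f`
additive. `f ≠ 0`: otherwise `F2` is an injective homomorphism into an abelian group. `hT`: `semi` (for
`r = 0` trivial): `f t = c * φ t`, `κ' = φ κ`. `g v = F2 0 v` is additive and
`g (z(t, t')) = f t * θ' (f t') + f t' * θ' (f t)` (compare `F2` of the two products). Replacing `t, t'` by
`λ t, λ t'`: `g (λ θ λ z) = φ λ * θ' (φ λ) * g z` for `z = z(t, t')`, so (additive span, `norm_module`) for all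
`z`. `g` is injective by `hinj`. `norm_rigid`: `φ θ = θ' φ`, `g v = g 1 * φ v`, and
`g 1 = c * θ' c` (take `z(t, t') ≠ 0`). `ζ t = F2 t 0` is additive now, `ζ (κ t) = φ (κ θ κ) ζ t`, so
`ζ = 0` (`zeta2`). `F2 t v = F2 t 0 + F2 0 v`.
-/

set_option autoImplicit false

namespace Pool.Agent.H86.UM

/-- Root groups of type `B₂` in characteristic `2` with `σ`. -/
structure B2s {k : Type*} [Field k] (θ : k ≃+* k) {G : Type*} [Group G] (A B P Q : k → G)
    (σ : G →* G) : Prop where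
  chr : CharP k 2
  hθ : ∀ t, θ (θ t) = t ^ 2
  hA : ∀ s t, A (s + t) = A s * A t
  hB : ∀ s t, B (s + t) = B s * B t
  hP : ∀ s t, P (s + t) = P s * P t
  hQ : ∀ s t, Q (s + t) = Q s * Q t
  AB : ∀ t u, A t * B u = P (t * u) * Q (t ^ 2 * u) * (B u * A t)
  AP : ∀ t v, A t * P v = P v * A t
  AQ : ∀ t w, A t * Q w = Q w * A t
  BP : ∀ u v, B u * P v = P v * B u
  BQ : ∀ u w, B u * Q w = Q w * B u
  PQ : ∀ v w, P v * Q w = Q w * P v
  uniq : ∀ t u v w, A t * B u * P v * Q w = 1 → t = 0 ∧ u = 0 ∧ v = 0 ∧ w = 0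
  σA : ∀ t, σ (A t) = B (θ t)
  σB : ∀ u, σ (B u) = A (θ.symm u)
  σP : ∀ v, σ (P v) = Q (θ v)
  σQ : ∀ w, σ (Q w) = P (θ.symm w)

/-- The elements fixed by `σ`. -/
def B2x {k : Type*} [Field k] (θ : k ≃+* k) {G : Type*} [Group G] (A B P Q : k → G) (t v : k) : G :=
  A t * B (θ t) * P v * Q (θ v + t ^ 2 * θ t)

theorem ZB_zspan {k : Type*} [Field k] [Infinite k] [CharP k 2] (θ : k ≃+* k)
    (hθ : ∀ t, θ (θ t) = t ^ 2) (M : AddSubgroup k)
    (hM : ∀ t t', t * θ t' + t' * θ t ∈ M) : M = ⊤ := by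
  haveI : Fact (Nat.Prime 2) := ⟨Nat.prime_two⟩
  let M' : AddSubgroup k := AddSubgroup.closure {x | ∃ t t', x = t * θ t' + t' * θ t}
  have hle : M' ≤ M := by
    rw [AddSubgroup.closure_le]
    rintro x ⟨t, t', rfl⟩
    exact hM t t'
  have htop : M' = ⊤ := by
    refine norm_module 2 θ hθ M' ?_ ?_
    · intro s v hv
      induction hv using AddSubgroup.closure_induction with
      | mem x hx =>
        obtain ⟨t, t', rfl⟩ := hx
        refine AddSubgroup.subset_closure ⟨s * t, s * t', ?_⟩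
        rw [map_mul, map_mul]; ring
      | zero => rw [mul_zero]; exact M'.zero_mem
      | add x y _ _ hx hy => rw [mul_add]; exact M'.add_mem hx hy
      | neg x _ hx => rw [mul_neg]; exact M'.neg_mem hx
    · by_contra hne
      push Not at hne
      have h1 : ∀ t : k, θ t = t := by
        intro t
        have := hne (t * θ 1 + 1 * θ t) (AddSubgroup.subset_closure ⟨t, 1, rfl⟩)
        rw [map_one, mul_one, one_mul] at this
        have h2 := CharTwo.add_eq_zero.mp this
        exact h2.symm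
      have h2 : ∀ t : k, t ^ 2 - t = 0 := by
        intro t
        have := hθ t
        rw [h1, h1] at this
        rw [← this, sub_self]
      have h3 : (Polynomial.X ^ 2 - Polynomial.X : Polynomial k) = 0 := by
        refine Polynomial.funext fun t => ?_
        simpa using h2 t
      have h4 := congrArg (fun q : Polynomial k => q.coeff 2) h3
      simp [Polynomial.coeff_X] at h4
  exact top_le_iff.mp (htop ▸ hle)

theorem ZB_znz {k : Type*} [Field k] [Infinite k] [CharP k 2] (θ : k ≃+* k)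
    (hθ : ∀ t, θ (θ t) = t ^ 2) : ∃ t : k, t + θ t ≠ 0 := by
  by_contra hne
  push Not at hne
  have h1 : ∀ t : k, θ t = t := fun t => (CharTwo.add_eq_zero.mp (hne t)).symm
  have h2 : ∀ t : k, t ^ 2 - t = 0 := by
    intro t
    have := hθ t
    rw [h1, h1] at this
    rw [← this, sub_self]
  have h3 : (Polynomial.X ^ 2 - Polynomial.X : Polynomial k) = 0 := by
    refine Polynomial.funext fun t => ?_
    simpa using h2 t
  have h4 := congrArg (fun q : Polynomial k => q.coeff 2) h3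
  simp [Polynomial.coeff_X] at h4

section
variable {k : Type*} [Field k] {θ : k ≃+* k} {G : Type*} [Group G] {A B P Q : k → G} {σ : G →* G}
  (h : B2s θ A B P Q σ)

include h

theorem ZB_A0 : A 0 = 1 := by
  have := h.hA 0 0
  rw [add_zero] at this
  exact left_eq_mul.mp this

theorem ZB_B0 : B 0 = 1 := by
  have := h.hB 0 0
  rw [add_zero] at this
  exact left_eq_mul.mp this

theorem ZB_P0 : P 0 = 1 := by
  have := h.hP 0 0
  rw [add_zero] at this
  exact left_eq_mul.mp this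

theorem ZB_Q0 : Q 0 = 1 := by
  have := h.hQ 0 0
  rw [add_zero] at this
  exact left_eq_mul.mp this

theorem ZB_BA (t u : k) : B u * A t = A t * B u * P (t * u) * Q (t ^ 2 * u) := by
  haveI := h.chr
  have e2 : ∀ x : k, x + x = 0 := fun x => CharTwo.add_self_eq_zero x
  have hP1 : P (t * u) * P (t * u) = 1 := by rw [← h.hP, e2, ZB_P0 h]
  have hQ1 : Q (t ^ 2 * u) * Q (t ^ 2 * u) = 1 := by rw [← h.hQ, e2, ZB_Q0 h]
  rw [h.AB]
  have c1 : B u * A t * P (t * u) = P (t * u) * (B u * A t) := by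
    rw [mul_assoc, h.AP, ← mul_assoc, h.BP, mul_assoc]
  have c2 : B u * A t * Q (t ^ 2 * u) = Q (t ^ 2 * u) * (B u * A t) := by
    rw [mul_assoc, h.AQ, ← mul_assoc, h.BQ, mul_assoc]
  have c3 := h.PQ (t * u) (t ^ 2 * u)
  generalize B u * A t = x at *
  generalize P (t * u) = y at *
  generalize Q (t ^ 2 * u) = z at *
  calc x = (y * y) * x * (z * z) := by rw [hP1, hQ1]; simp
    _ = y * (y * x) * z * z := by group
    _ = y * (x * y) * z * z := by rw [c1]
    _ = y * x * (y * z) * z := by group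
    _ = y * x * (z * y) * z := by rw [c3]
    _ = y * (x * z) * y * z := by group
    _ = y * (z * x) * y * z := by rw [c2]
    _ = y * z * x * y * z := by group

theorem ZB_mul (t u v w t' u' v' w' : k) :
    A t * B u * P v * Q w * (A t' * B u' * P v' * Q w') =
      A (t + t') * B (u + u') * P (v + v' + t' * u) * Q (w + w' + t' ^ 2 * u) := by
  have c1 : Q w * A t' = A t' * Q w := (h.AQ t' w).symm
  have c2 : Q w * B u' = B u' * Q w := (h.BQ u' w).symm
  have c3 : Q w * P v' = P v' * Q w := (h.PQ v' w).symm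
  have c4 : P v * A t' = A t' * P v := (h.AP t' v).symm
  have c5 : P v * B u' = B u' * P v := (h.BP u' v).symm
  have c6 := ZB_BA h t' u
  have c7 : Q (t' ^ 2 * u) * B u' = B u' * Q (t' ^ 2 * u) := (h.BQ u' _).symm
  have c8 : P (t' * u) * B u' = B u' * P (t' * u) := (h.BP u' _).symm
  have c9 : Q (t' ^ 2 * u) * P v = P v * Q (t' ^ 2 * u) := (h.PQ v _).symm
  have c9' : Q (t' ^ 2 * u) * P v' = P v' * Q (t' ^ 2 * u) := (h.PQ v' _).symm
  have c10 : P (t' * u) * P v = P v * P (t' * u) := by rw [← h.hP, ← h.hP, add_comm]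
  have c10' : P (t' * u) * P v' = P v' * P (t' * u) := by rw [← h.hP, ← h.hP, add_comm]
  have c11 : Q (t' ^ 2 * u) * Q w = Q w * Q (t' ^ 2 * u) := by rw [← h.hQ, ← h.hQ, add_comm]
  have c12 : Q (t' ^ 2 * u) * Q w' = Q w' * Q (t' ^ 2 * u) := by rw [← h.hQ, ← h.hQ, add_comm]
  rw [h.hA, h.hB, h.hP, h.hP, h.hQ, h.hQ]
  generalize P (t' * u) = p at *
  generalize Q (t' ^ 2 * u) = q at *
  calc A t * B u * P v * Q w * (A t' * B u' * P v' * Q w')
      = A t * B u * P v * (Q w * A t') * B u' * P v' * Q w' := by group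
    _ = A t * B u * (P v * A t') * (Q w * B u') * P v' * Q w' := by rw [c1]; group
    _ = A t * (B u * A t') * (P v * B u') * (Q w * P v') * Q w' := by rw [c2, c4]; group
    _ = A t * A t' * B u * p * (q * B u') * P v * P v' * Q w * Q w' := by
        rw [c3, c5, c6]; group
    _ = A t * A t' * B u * (p * B u') * (q * P v) * P v' * Q w * Q w' := by rw [c7]; group
    _ = A t * A t' * (B u * B u') * (p * P v) * (q * P v') * Q w * Q w' := by
        rw [c8, c9]; group
    _ = A t * A t' * (B u * B u') * P v * (p * P v') * (q * Q w) * Q w' := by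
        rw [c10, c9']; group
    _ = A t * A t' * (B u * B u') * P v * P v' * p * Q w * (q * Q w') := by
        rw [c10', c11]; group
    _ = A t * A t' * (B u * B u') * (P v * P v' * p) * (Q w * Q w' * q) := by
        rw [c12]; group

theorem B2_coord (t u v w t' u' v' w' : k) (e : A t * B u * P v * Q w = A t' * B u' * P v' * Q w') :
    t = t' ∧ u = u' ∧ v = v' ∧ w = w' := by
  haveI := h.chr
  -- multiply by the form with coordinates making the inverse
  have hm := ZB_mul h t u v w t' u' (v' + t' * u') (w' + t' ^ 2 * u')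
  have hm' := ZB_mul h t' u' v' w' t' u' (v' + t' * u') (w' + t' ^ 2 * u')
  have e2 : ∀ x : k, x + x = 0 := fun x => CharTwo.add_self_eq_zero x
  have h1 : A t' * B u' * P v' * Q w' * (A t' * B u' * P (v' + t' * u') * Q (w' + t' ^ 2 * u'))
      = 1 := by
    rw [hm', e2, e2]
    have e3 : v' + (v' + t' * u') + t' * u' = 0 := by linear_combination e2 v' + e2 (t' * u')
    have e4 : w' + (w' + t' ^ 2 * u') + t' ^ 2 * u' = 0 := by
      linear_combination e2 w' + e2 (t' ^ 2 * u')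
    rw [e3, e4, ZB_A0 h, ZB_B0 h, ZB_P0 h, ZB_Q0 h]
    simp
  rw [e, h1] at hm
  obtain ⟨a1, a2, a3, a4⟩ := h.uniq _ _ _ _ hm.symm
  have b1 : t = t' := CharTwo.add_eq_zero.mp a1
  have b2 : u = u' := CharTwo.add_eq_zero.mp a2
  subst b1 b2
  refine ⟨rfl, rfl, ?_, ?_⟩
  · apply CharTwo.add_eq_zero.mp
    linear_combination a3 - e2 (t * u)
  · apply CharTwo.add_eq_zero.mp
    linear_combination a4 - e2 (t ^ 2 * u)

theorem B2_mul_form (t u v w t' u' v' w' : k) :
    A t * B u * P v * Q w * (A t' * B u' * P v' * Q w') =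
      A (t + t') * B (u + u') * P (v + v' + t' * u) * Q (w + w' + t' ^ 2 * u) :=
  ZB_mul h t u v w t' u' v' w'

theorem ZB_sig (t u v w : k) : σ (A t * B u * P v * Q w) =
    A (θ.symm u) * B (θ t) * P (θ.symm w + θ.symm u * θ t) *
      Q (θ v + θ.symm u ^ 2 * θ t) := by
  rw [map_mul, map_mul, map_mul, h.σA, h.σB, h.σP, h.σQ, ZB_BA h]
  have c1 : Q (θ v) * P (θ.symm w) = P (θ.symm w) * Q (θ v) := (h.PQ _ _).symm
  have c2 : Q (θ.symm u ^ 2 * θ t) * Q (θ v) = Q (θ v) * Q (θ.symm u ^ 2 * θ t) := by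
    rw [← h.hQ, ← h.hQ, add_comm]
  have c3 : Q (θ.symm u ^ 2 * θ t) * P (θ.symm w) = P (θ.symm w) * Q (θ.symm u ^ 2 * θ t) :=
    (h.PQ _ _).symm
  have c4 : P (θ.symm u * θ t) * P (θ.symm w) = P (θ.symm w) * P (θ.symm u * θ t) := by
    rw [← h.hP, ← h.hP, add_comm]
  rw [h.hP, h.hQ]
  generalize P (θ.symm u * θ t) = p at *
  generalize Q (θ.symm u ^ 2 * θ t) = q at *
  calc A (θ.symm u) * B (θ t) * p * q * Q (θ v) * P (θ.symm w)
      = A (θ.symm u) * B (θ t) * p * q * (Q (θ v) * P (θ.symm w)) := by group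
    _ = A (θ.symm u) * B (θ t) * p * (q * P (θ.symm w)) * Q (θ v) := by rw [c1]; group
    _ = A (θ.symm u) * B (θ t) * (p * P (θ.symm w)) * (q * Q (θ v)) := by rw [c3]; group
    _ = A (θ.symm u) * B (θ t) * (P (θ.symm w) * p) * (Q (θ v) * q) := by rw [c4, c2]

theorem B2_fix (t v : k) : σ (B2x θ A B P Q t v) = B2x θ A B P Q t v := by
  haveI := h.chr
  have e2 : ∀ x : k, x + x = 0 := fun x => CharTwo.add_self_eq_zero x
  unfold B2x
  rw [ZB_sig h, RingEquiv.symm_apply_apply]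
  have h1 : θ.symm (θ v + t ^ 2 * θ t) = v + θ t * t := by
    rw [map_add, map_mul, RingEquiv.symm_apply_apply, RingEquiv.symm_apply_apply, ← h.hθ,
      RingEquiv.symm_apply_apply]
  rw [h1]
  have h3 : v + θ t * t + t * θ t = v := by linear_combination e2 (t * θ t)
  rw [h3]

theorem B2_form (t u v w : k) (e : σ (A t * B u * P v * Q w) = A t * B u * P v * Q w) :
    A t * B u * P v * Q w = B2x θ A B P Q t v := by
  rw [ZB_sig h] at e
  obtain ⟨a1, a2, a3, a4⟩ := B2_coord h _ _ _ _ _ _ _ _ e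
  unfold B2x
  rw [← a4, ← a2, ← a1]
  have h1 : θ.symm (θ (θ.symm u)) = θ.symm u := by rw [RingEquiv.symm_apply_apply]
  rw [h1]

theorem B2_mul (t v t' v' : k) : B2x θ A B P Q t v * B2x θ A B P Q t' v' =
    B2x θ A B P Q (t + t') (v + v' + t' * θ t) := by
  haveI := h.chr
  have e2 : ∀ x : k, x + x = 0 := fun x => CharTwo.add_self_eq_zero x
  unfold B2x
  rw [ZB_mul h, map_add, map_add, map_add, map_mul, h.hθ]
  have h1 : θ v + t ^ 2 * θ t + (θ v' + t' ^ 2 * θ t') + t' ^ 2 * θ t =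
      θ v + θ v' + θ t' * t ^ 2 + (t + t') ^ 2 * (θ t + θ t') := by
    linear_combination (-1) * e2 (t ^ 2 * θ t') - (t * t' * (θ t + θ t')) * e2 1
  rw [h1]

open scoped commutatorElement in
theorem B2_ker [Infinite k] (X : Subgroup G) (hX : ∀ x, x ∈ X ↔ ∃ t v, x = B2x θ A B P Q t v)
    (v : k) : B2x θ A B P Q 0 v ∈ ⁅X, X⁆ := by
  haveI := h.chr
  have e2 : ∀ x : k, x + x = 0 := fun x => CharTwo.add_self_eq_zero x
  have hmul : ∀ v v', B2x θ A B P Q 0 v * B2x θ A B P Q 0 v' = B2x θ A B P Q 0 (v + v') := by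
    intro v v'
    rw [B2_mul h, zero_mul, add_zero, add_zero]
  have hone : B2x θ A B P Q 0 0 = 1 := by
    unfold B2x
    simp [ZB_A0 h, ZB_B0 h, ZB_P0 h, ZB_Q0 h]
  let M : AddSubgroup k :=
    { carrier := {v | B2x θ A B P Q 0 v ∈ ⁅X, X⁆}
      zero_mem' := by
        change B2x θ A B P Q 0 0 ∈ ⁅X, X⁆
        rw [hone]; exact Subgroup.one_mem _
      add_mem' := by
        intro a b ha hb
        change B2x θ A B P Q 0 (a + b) ∈ ⁅X, X⁆
        rw [← hmul]; exact Subgroup.mul_mem _ ha hb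
      neg_mem' := by
        intro a ha
        change B2x θ A B P Q 0 (-a) ∈ ⁅X, X⁆
        have : -a = a := CharTwo.neg_eq a
        rw [this]; exact ha }
  have hM : M = ⊤ := by
    refine ZB_zspan θ h.hθ M ?_
    intro t t'
    change B2x θ A B P Q 0 (t * θ t' + t' * θ t) ∈ ⁅X, X⁆
    have hx : B2x θ A B P Q t 0 ∈ X := (hX _).2 ⟨t, 0, rfl⟩
    have hy : B2x θ A B P Q t' 0 ∈ X := (hX _).2 ⟨t', 0, rfl⟩
    have hc := Subgroup.commutator_mem_commutator hx hy
    have h1 : B2x θ A B P Q 0 (t * θ t' + t' * θ t) *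
        (B2x θ A B P Q t' 0 * B2x θ A B P Q t 0) = B2x θ A B P Q t 0 * B2x θ A B P Q t' 0 := by
      rw [B2_mul h t' 0 t 0, B2_mul h, B2_mul h]
      have a1 : (0 : k) + (t' + t) = t + t' := by ring
      have a2 : t * θ t' + t' * θ t + (0 + 0 + t * θ t') + (t' + t) * θ 0 = 0 + 0 + t' * θ t := by
        rw [map_zero]; linear_combination e2 (t * θ t')
      rw [a1, a2]
    have h2 : B2x θ A B P Q 0 (t * θ t' + t' * θ t) =
        ⁅B2x θ A B P Q t 0, B2x θ A B P Q t' 0⁆ := by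
      rw [commutatorElement_def, ← h1]; group
    rw [h2]; exact hc
  have : v ∈ M := by rw [hM]; exact AddSubgroup.mem_top v
  exact this

end

theorem B2_rigid {k K : Type*} [Field k] [Field K] [Infinite k] [CharP k 2] [CharP K 2]
    (θ : k ≃+* k) (θ' : K ≃+* K)
    (hθ : ∀ t, θ (θ t) = t ^ 2) (hθ' : ∀ t, θ' (θ' t) = t ^ 2) (F1 F2 : k → k → K)
    (h1 : ∀ t v t' v', F1 (t + t') (v + v' + t' * θ t) = F1 t v + F1 t' v')
    (h2 : ∀ t v t' v', F2 (t + t') (v + v' + t' * θ t) =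
      F2 t v + F2 t' v' + F1 t' v' * θ' (F1 t v))
    (hinj : ∀ t v, F1 t v = 0 → F2 t v = 0 → t = 0 ∧ v = 0)
    (hT : ∀ κ, κ ≠ 0 → ∃ κ', κ' ≠ 0 ∧ ∀ t v, F1 (κ * t) (κ * θ κ * v) = κ' * F1 t v ∧
      F2 (κ * t) (κ * θ κ * v) = κ' * θ' κ' * F2 t v) :
    ∃ (c : K) (φ : k →+* K), c ≠ 0 ∧ (∀ t, φ (θ t) = θ' (φ t)) ∧
      ∀ t v, F1 t v = c * φ t ∧ F2 t v = c * θ' c * φ v := by
  haveI : Fact (Nat.Prime 2) := ⟨Nat.prime_two⟩
  have e2 : ∀ x : k, x + x = 0 := fun x => CharTwo.add_self_eq_zero x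
  have E2 : ∀ x : K, x + x = 0 := fun x => CharTwo.add_self_eq_zero x
  have hF1c : ∀ t v v', F1 t (v + v') = F1 t v + F1 0 v' := by
    intro t v v'
    have := h1 t v 0 v'
    rwa [add_zero, zero_mul, add_zero] at this
  have hF100 : F1 0 0 = 0 := by
    have := hF1c 0 0 0
    rw [add_zero] at this
    exact left_eq_add.mp this
  have hF1z : ∀ t t', F1 0 (t * θ t' + t' * θ t) = 0 := by
    intro t t'
    have a1 := h1 t 0 t' 0
    have a2 := h1 t' 0 t 0
    rw [add_zero, zero_add] at a1 a2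
    have a3 := hF1c (t + t') (t * θ t') (t * θ t' + t' * θ t)
    have a4 : t * θ t' + (t * θ t' + t' * θ t) = t' * θ t := by
      linear_combination e2 (t * θ t')
    rw [a4, a1, add_comm t t', a2, add_comm (F1 t' 0)] at a3
    exact left_eq_add.mp a3
  have hF10 : ∀ v, F1 0 v = 0 := by
    intro v
    let M : AddSubgroup k :=
      { carrier := {v | F1 0 v = 0}
        zero_mem' := hF100
        add_mem' := by
          intro a b ha hb
          change F1 0 (a + b) = 0
          rw [hF1c]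
          change F1 0 a = 0 at ha
          change F1 0 b = 0 at hb
          rw [ha, hb, add_zero]
        neg_mem' := by
          intro a ha
          change F1 0 (-a) = 0
          rw [CharTwo.neg_eq]; exact ha }
    have hM : M = ⊤ := ZB_zspan θ hθ M hF1z
    have : v ∈ M := by rw [hM]; exact AddSubgroup.mem_top v
    exact this
  have hF1t : ∀ t v, F1 t v = F1 t 0 := by
    intro t v
    have := hF1c t 0 v
    rw [zero_add, hF10, add_zero] at this
    exact this
  have hfadd : ∀ a b, F1 (a + b) 0 = F1 a 0 + F1 b 0 := by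
    intro a b
    have := h1 a 0 b 0
    rw [hF1t] at this
    exact this
  have hgc : ∀ t v v', F2 t (v + v') = F2 t v + F2 0 v' := by
    intro t v v'
    have := h2 t v 0 v'
    rwa [add_zero, zero_mul, add_zero, hF10, zero_mul, add_zero] at this
  have hgz : ∀ t t', F2 0 (t * θ t' + t' * θ t) =
      F1 t' 0 * θ' (F1 t 0) + F1 t 0 * θ' (F1 t' 0) := by
    intro t t'
    have a1 := h2 t 0 t' 0
    have a2 := h2 t' 0 t 0
    rw [add_zero, zero_add] at a1 a2
    have a3 := hgc (t + t') (t * θ t') (t * θ t' + t' * θ t)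
    have a4 : t * θ t' + (t * θ t' + t' * θ t) = t' * θ t := by
      linear_combination e2 (t * θ t')
    rw [a4, a1, add_comm t t', a2] at a3
    linear_combination (-1) * a3 - E2 (F1 t 0 * θ' (F1 t' 0))
  obtain ⟨t0, ht0⟩ := ZB_znz θ hθ
  have hz0 : t0 * θ 1 + 1 * θ t0 = t0 + θ t0 := by rw [map_one, mul_one, one_mul]
  have hfne : ∃ t, F1 t 0 ≠ 0 := by
    by_contra hne
    push Not at hne
    have a1 := hgz t0 1
    rw [hne, hne, map_zero, mul_zero, add_zero, hz0] at a1
    exact ht0 (hinj 0 _ (hF10 _) a1).2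
  obtain ⟨φ, hc, hφ, hφ1⟩ := semi (fun t => F1 t 0) hfadd hfne (by
    intro r
    by_cases hr : r = 0
    · exact ⟨0, fun t => by simp [hr, hF100]⟩
    · obtain ⟨r', _, h'⟩ := hT r hr
      refine ⟨r', fun t => ?_⟩
      have := (h' t 0).1
      rwa [mul_zero] at this)
  have hκ : ∀ κ, κ ≠ 0 → ∀ t v, F2 (κ * t) (κ * θ κ * v) = φ κ * θ' (φ κ) * F2 t v := by
    intro κ hκ t v
    obtain ⟨κ', _, h'⟩ := hT κ hκ
    obtain ⟨s, hs⟩ := hfne
    have a1 := (h' s 0).1
    rw [mul_zero] at a1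
    have a2 := hφ κ s
    have a3 : κ' = φ κ := by
      have : κ' * F1 s 0 = φ κ * F1 s 0 := by rw [← a1]; exact a2
      exact mul_right_cancel₀ hs this
    rw [← a3]
    exact (h' t v).2
  have hg0 : F2 0 0 = 0 := by
    have := hgc 0 0 0
    rw [add_zero] at this
    exact left_eq_add.mp this
  obtain ⟨hφθ, hg1, hg⟩ := norm_rigid 2 θ hθ θ' hθ' φ (fun v => F2 0 v) (fun a b => hgc 0 a b)
    ⟨1, fun h0 => one_ne_zero (hinj 0 1 (hF10 1) h0).2⟩ (by
      intro t v
      by_cases ht : t = 0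
      · simp [ht, hg0]
      · have := hκ t ht 0 v
        rwa [mul_zero] at this)
  have hcc : F2 0 1 = F1 1 0 * θ' (F1 1 0) := by
    have a1 := hgz t0 1
    rw [hz0] at a1
    have a2 : F2 0 (t0 + θ t0) = F2 0 1 * φ (t0 + θ t0) := hg _
    have a3 : F1 t0 0 = F1 1 0 * φ t0 := hφ1 t0
    rw [a2, a3, map_mul, ← hφθ] at a1
    have a4 : φ (t0 + θ t0) ≠ 0 := by
      rw [Ne, map_eq_zero]; exact ht0
    apply mul_right_cancel₀ a4
    rw [a1, map_add]; ring
  have hζadd : ∀ a b, F2 (a + b) 0 = F2 a 0 + F2 b 0 := by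
    intro a b
    have a1 := h2 a 0 b 0
    rw [add_zero] at a1
    have a2 := hgc (a + b) 0 (b * θ a)
    have a3 : F2 0 (b * θ a) = F2 0 1 * φ (b * θ a) := hg _
    have a4 : F1 a 0 = F1 1 0 * φ a := hφ1 a
    have a5 : F1 b 0 = F1 1 0 * φ b := hφ1 b
    rw [a1, a3, hcc, a4, a5, map_mul, map_mul, hφθ] at a2
    linear_combination (-1) * a2
  have hζ : ∀ t, F2 t 0 = 0 := by
    intro t
    refine zeta2 θ hθ φ (fun t => F2 t 0) hζadd ?_ t
    intro s t hs
    have := hκ s hs t 0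
    rw [mul_zero] at this
    rw [map_mul, hφθ]
    exact this
  refine ⟨F1 1 0, φ, hc, hφθ, fun t v => ⟨?_, ?_⟩⟩
  · rw [hF1t]; exact hφ1 t
  · have a1 := hgc t 0 v
    have a2 : F2 0 v = F2 0 1 * φ v := hg v
    rw [zero_add, hζ, zero_add, a2, hcc] at a1
    exact a1

end Pool.Agent.H86.UM
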