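import Pool.Agent.H86.UM.ZJ1
import Pool.Agent.H86.UM.ZB

/-!
# Project UM, Suzuki-Ree groups, module ZJ2: root groups `XJ` of type `²B₂`

`m = 2`, `i` a short node joined to `l = t0 i`; `i' = ρ i` is joined to `l` too and not to `i`. `JJ i = {i, i', l}`
(`l` is fixed by `ρ`). `βP = α_i + α_l`, `βQ = α_i + α_i' + α_l` are roots, `r βP = α_i' + α_l`. The positive roots
supported on `{i, i', l}`: if `β = a α_i + b α_i' + c α_l` then `ip β β = 2` reads
`a ^ 2 + (a - c) ^ 2 + (c - b) ^ 2 + b ^ 2 = 2`, with `a, b, c ≥ 0`: `(1,0,0), (0,1,0), (0,0,1), (1,0,1), (0,1,1),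
(1,1,1)`.
`B2s`: characteristic `2`, signs do not matter (`((e : ℤ) : k) = 1` for `e = ± 1`).
`A t = x_i(t) x_i'(t)`, `B u = x_l(u)`, `P v = x_βP(v) x_(r βP)(v)`, `Q w = x_βQ(w)` (up to signs).
`AB`: conjugate `B u` with `x_i'(t)`, then with `x_i(t)` (`xg_comm_add`): `x_l(u) ↦ x_l(u) x_(i'+l)(t u) ↦
x_l(u) x_(i+l)(t u) x_(i'+l)(t u) x_(i+i'+l)(t ^ 2 u)` (the last three commute with each other, `βQ` commutes with everything
here). `AP`: `x_i(t)` and `x_(i'+l)(v)` do not commute: commutator `x_βQ(t v)`; so does `x_i'(t)` and `x_(i+l)(v)`: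
`x_βQ(t v)`; together `x_βQ(2 t v) = 1`. The other commutators are trivial (`xg_comm`).
`uniq`: coordinates (`adS_inj` or `xi_yg` for `t, u`, then `yg_inj`-like arguments; the roots are in different
`rE`-cycles). `σA, σB`: `sig_yg` (`t0 l` is in the cycle of `i`). `σP, σQ`: `exists_tau`: `τ βP` is a fixed positive
root supported on `JJ i` (`tau_pos, tau_supp, tau_fix`) so `α_l` or `βQ`; not `α_l`, since `τ α_i` is in the cycle of
`α_l` (`tau_simple`) and `τ` is injective on cycles (`tau_tau`, `tau_cycle`). Similarly `τ βQ` is in the cycle of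
`βP`. `FR (RJ i)`: the products `A t * B u * P v * Q w` form a subgroup (`B2_mul_form`).
-/

set_option autoImplicit false
open Matrix

namespace Pool.Agent.H86.UM

open Pool.Agent.H75.UL

variable {n : ℕ} {C : SLC n} {D : Dg C} {t0 : Fin n → Fin n} (hS : Swap D t0)
  {k : Type*} [Field k] [Infinite k] {θ : k ≃+* k} {σ : GF D k →* GF D k}
  (h : SRs D t0 θ σ)

/-- the four (cycles of) positive roots of type `B₂` -/
structure B2r (D : Dg C) (t0 : Fin n → Fin n) (i : Fin n) (βP βQ : C.Root) : Prop where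
  hP : βP.1 = (C.simple i).1 + (C.simple (t0 i)).1
  hQ : βQ.1 = (C.simple i).1 + (C.simple (D.ρ i)).1 + (C.simple (t0 i)).1
  rP : D.r βP ≠ βP
  rQ : D.r βQ = βQ
  mem : ∀ β, β ∈ RJ D t0 i ↔ D.rE.SameCycle (C.simple i) β ∨ β = C.simple (t0 i) ∨
    D.rE.SameCycle βP β ∨ β = βQ

theorem ZJ2_ht_cycle (β γ : C.Root) (h : D.rE.SameCycle β γ) : ht β.1 = ht γ.1 := by
  obtain ⟨q, -, hq⟩ := h.exists_pow_eq'
  rw [← hq]
  clear hq
  induction q with
  | zero => rfl
  | succ q ih =>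
    rw [pow_succ', Equiv.Perm.mul_apply, Dg.rE_apply, D.r_ht]
    exact ih

theorem ZJ2_fix_cycle (β γ : C.Root) (hf : D.r β = β) (h : D.rE.SameCycle β γ) : γ = β := by
  obtain ⟨z, hz⟩ := h
  rw [← hz]
  have h2 : Function.IsFixedPt D.rE β := hf
  exact (Function.IsFixedPt.perm_zpow h2 z)

/-- the data of the simple roots -/
theorem ZJ2_data (hS : Swap D t0) (hm : D.m = 2) (i : Fin n) (hi : D.ρ i ≠ i)
    (ha : C.A i (t0 i) = -1) : D.ρ (t0 i) = t0 i ∧ C.A i (D.ρ i) = 0 ∧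
    C.A (D.ρ i) (t0 i) = -1 ∧ D.ρ (D.ρ i) = i ∧ t0 i ≠ i ∧ t0 i ≠ D.ρ i ∧
    ∀ j, JJ D t0 i j → j = i ∨ j = D.ρ i ∨ j = t0 i := by
  have hf : D.ρ (t0 i) = t0 i := (hS.fix_iff i).mpr hi
  have hρ2 : ∀ j, D.ρ (D.ρ j) = j := by
    intro j
    have h1 : D.ρ ^ 2 = 1 := by
      have h2 : orderOf D.ρ = 2 := hm
      rw [← h2]
      exact pow_orderOf_eq_one _
    have h3 := congrArg (fun e : Equiv.Perm (Fin n) => e j) h1
    exact h3
  have hra : D.r (C.simple i) ≠ C.simple i := by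
    rw [D.r_simple]
    intro h3
    exact hi (C.simple_injective h3)
  refine ⟨hf, ?_, ?_, hρ2 i, ?_, ?_, ?_⟩
  · have h1 := D.ip_r_NA hS.na _ hra
    rw [D.r_simple, SLC.simple_val, SLC.simple_val, C.ip_single] at h1
    exact h1
  · have h1 := D.hρ i (t0 i)
    rw [hf, ha] at h1
    exact h1
  · intro h
    rw [h] at hf
    exact hi hf
  · intro h
    rw [h, hρ2] at hf
    exact hi hf.symm
  · intro j hj
    rcases hj with hj | hj
    · obtain ⟨q, hq, hq2⟩ := hj.exists_pow_eq'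
      have h2 : orderOf D.ρ = 2 := hm
      rw [h2] at hq
      have h3 : q = 0 ∨ q = 1 := by omega
      rcases h3 with rfl | rfl
      · exact Or.inl hq2.symm
      · exact Or.inr (Or.inl hq2.symm)
    · right; right
      obtain ⟨z, hz⟩ := hj
      rw [← hz]
      exact (Function.IsFixedPt.perm_zpow hf z)

theorem ZJ2_solve (a b c : ℤ) (ha : 0 ≤ a) (hb : 0 ≤ b) (hc : 0 ≤ c)
    (h : a ^ 2 + (a - c) ^ 2 + (c - b) ^ 2 + b ^ 2 = 2) :
    (a = 1 ∧ b = 0 ∧ c = 0) ∨ (a = 0 ∧ b = 1 ∧ c = 0) ∨ (a = 0 ∧ b = 0 ∧ c = 1) ∨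
    (a = 1 ∧ b = 0 ∧ c = 1) ∨ (a = 0 ∧ b = 1 ∧ c = 1) ∨ (a = 1 ∧ b = 1 ∧ c = 1) := by
  have h1 : a ≤ 1 := by nlinarith [sq_nonneg (a - c), sq_nonneg (c - b), sq_nonneg b]
  have h2 : b ≤ 1 := by nlinarith [sq_nonneg (a - c), sq_nonneg (c - b), sq_nonneg a]
  have h3 : c ≤ 2 := by nlinarith [sq_nonneg (a - c), sq_nonneg (c - b), sq_nonneg a, sq_nonneg b]
  interval_cases a <;> interval_cases b <;> interval_cases c <;> simp_all

include hS in
theorem B2_roots (hm : D.m = 2) (i : Fin n) (hi : D.ρ i ≠ i) (ha : C.A i (t0 i) = -1) :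
    ∃ βP βQ, B2r D t0 i βP βQ := by
  obtain ⟨hf, hii, hil, hρ, hli, hli', hJ⟩ := ZJ2_data hS hm i hi ha
  have hrl : D.r (C.simple (t0 i)) = C.simple (t0 i) := by rw [D.r_simple, hf]
  obtain ⟨βP, hP⟩ := C.exists_add (C.simple i) (C.simple (t0 i)) (by
    rw [SLC.simple_val, SLC.simple_val, C.ip_single, ha])
  have hrP : (D.r βP).1 = (C.simple (D.ρ i)).1 + (C.simple (t0 i)).1 := by
    rw [D.r_add _ _ _ hP, D.r_simple, hrl]
  obtain ⟨βQ, hQ⟩ := C.exists_add (C.simple i) (D.r βP) (by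
    rw [hrP, C.ip_add_right, SLC.simple_val, SLC.simple_val, SLC.simple_val, C.ip_single,
      C.ip_single, hii, ha, zero_add])
  have hQ' : βQ.1 = (C.simple i).1 + (C.simple (D.ρ i)).1 + (C.simple (t0 i)).1 := by
    rw [hQ, hrP, add_assoc]
  have hrrP : D.r (D.r βP) = βP := by
    apply SLC.Root.ext
    rw [D.r_add _ _ _ hrP, D.r_simple, hρ, hrl, hP]
  have rQ : D.r βQ = βQ := by
    apply SLC.Root.ext
    rw [D.r_add _ _ _ hQ, hrrP, D.r_simple, hP, hQ']
    rw [← add_assoc, add_comm (C.simple (D.ρ i)).1]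
  have rP : D.r βP ≠ βP := by
    intro h
    have h1 := congrArg (fun β : C.Root => β.1) h
    simp only [hrP, hP] at h1
    have h2 := add_right_cancel h1
    exact hi (C.simple_injective (SLC.Root.ext h2))
  have hcl : ∀ β γ : C.Root, D.rE.SameCycle β γ → β ∈ RJ D t0 i → γ ∈ RJ D t0 i := by
    rintro β γ h ⟨h1, h2⟩
    exact ⟨(pos_cycle β γ h).mp h1, (suppJ_cycle i β γ h).mp h2⟩
  have hsum : ∀ (a b c : ℤ), C.ip (a • (Pi.single i 1 : Fin n → ℤ) + b • Pi.single (D.ρ i) 1 +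
      c • Pi.single (t0 i) 1) (a • (Pi.single i 1 : Fin n → ℤ) + b • Pi.single (D.ρ i) 1 +
      c • Pi.single (t0 i) 1) = a ^ 2 + (a - c) ^ 2 + (c - b) ^ 2 + b ^ 2 := by
    intro a b c
    simp only [C.ip_add_left, C.ip_add_right, C.ip_smul_left, C.ip_smul_right, C.ip_single,
      C.diag, hii, ha, hil, C.symm (D.ρ i) i, C.symm (t0 i) i, C.symm (t0 i) (D.ρ i)]
    ring
  have hPm : βP ∈ RJ D t0 i := by
    refine ⟨?_, ?_⟩
    · unfold SLC.Pos
      rw [hP, ht_add, C.ht_simple, C.ht_simple]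
      norm_num
    · intro j hj
      rw [hP, SLC.simple_val, SLC.simple_val, Pi.add_apply] at hj
      by_cases h1 : j = i
      · rw [h1]; exact JJ_refl i
      · by_cases h2 : j = t0 i
        · rw [h2]; exact Or.inr (Equiv.Perm.SameCycle.refl _ _)
        · rw [Pi.single_eq_of_ne h1, Pi.single_eq_of_ne h2] at hj
          exact absurd rfl hj
  have hQm : βQ ∈ RJ D t0 i := by
    refine ⟨?_, ?_⟩
    · unfold SLC.Pos
      rw [hQ', ht_add, ht_add, C.ht_simple, C.ht_simple, C.ht_simple]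
      norm_num
    · intro j hj
      rw [hQ', SLC.simple_val, SLC.simple_val, SLC.simple_val, Pi.add_apply, Pi.add_apply] at hj
      by_cases h1 : j = i
      · rw [h1]; exact JJ_refl i
      · by_cases h2 : j = t0 i
        · rw [h2]; exact Or.inr (Equiv.Perm.SameCycle.refl _ _)
        · by_cases h3 : j = D.ρ i
          · rw [h3]; exact (JJ_rho i i).mpr (JJ_refl i)
          · rw [Pi.single_eq_of_ne h1, Pi.single_eq_of_ne h2, Pi.single_eq_of_ne h3] at hj
            exact absurd rfl hj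
  refine ⟨βP, βQ, hP, hQ', rP, rQ, fun β => ⟨?_, ?_⟩⟩
  · rintro ⟨hpos, hsupp⟩
    have hnn := (C.pos_iff β).mp hpos
    have hval : β.1 = β.1 i • (Pi.single i 1 : Fin n → ℤ) + β.1 (D.ρ i) • Pi.single (D.ρ i) 1 +
        β.1 (t0 i) • Pi.single (t0 i) 1 := by
      funext j
      simp only [Pi.add_apply, Pi.smul_apply, smul_eq_mul]
      by_cases h1 : j = i
      · subst h1
        rw [Pi.single_eq_same, Pi.single_eq_of_ne hi.symm, Pi.single_eq_of_ne hli.symm]
        ring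
      · by_cases h2 : j = D.ρ i
        · subst h2
          rw [Pi.single_eq_of_ne hi, Pi.single_eq_same, Pi.single_eq_of_ne hli'.symm]
          ring
        · by_cases h3 : j = t0 i
          · subst h3
            rw [Pi.single_eq_of_ne hli, Pi.single_eq_same, Pi.single_eq_of_ne hli']
            ring
          · rw [Pi.single_eq_of_ne h1, Pi.single_eq_of_ne h2, Pi.single_eq_of_ne h3]
            have h4 : β.1 j = 0 := by
              by_contra h0
              rcases hJ j (hsupp j h0) with h | h | h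
              · exact h1 h
              · exact h2 h
              · exact h3 h
            rw [h4]
            ring
    have hn := β.2
    rw [hval] at hn
    simp only [← hval] at hn
    have hn2 := hsum (β.1 i) (β.1 (D.ρ i)) (β.1 (t0 i))
    rw [← hval, β.2] at hn2
    have hs := ZJ2_solve _ _ _ (hnn i) (hnn (D.ρ i)) (hnn (t0 i)) hn2.symm
    rcases hs with ⟨h1, h2, h3⟩ | ⟨h1, h2, h3⟩ | ⟨h1, h2, h3⟩ | ⟨h1, h2, h3⟩ | ⟨h1, h2, h3⟩ |
      ⟨h1, h2, h3⟩
    · left
      have h4 : β = C.simple i := by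
        apply SLC.Root.ext
        rw [hval, h1, h2, h3, SLC.simple_val]
        simp
      rw [h4]
    · left
      have h4 : β = C.simple (D.ρ i) := by
        apply SLC.Root.ext
        rw [hval, h1, h2, h3, SLC.simple_val]
        simp
      rw [h4]
      exact ZJ1_cyc i (D.ρ i) ⟨1, rfl⟩
    · right; left
      apply SLC.Root.ext
      rw [hval, h1, h2, h3, SLC.simple_val]
      simp
    · right; right; left
      have h4 : β = βP := by
        apply SLC.Root.ext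
        rw [hval, h1, h2, h3, hP, SLC.simple_val, SLC.simple_val]
        simp
      rw [h4]
    · right; right; left
      have h4 : β = D.r βP := by
        apply SLC.Root.ext
        rw [hval, h1, h2, h3, hrP, SLC.simple_val, SLC.simple_val]
        simp
      rw [h4]
      exact ⟨1, rfl⟩
    · right; right; right
      apply SLC.Root.ext
      rw [hval, h1, h2, h3, hQ', SLC.simple_val, SLC.simple_val, SLC.simple_val]
      simp
  · rintro (h | h | h | h)
    · exact hcl _ _ h (ZJ1_mem hS i).1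
    · rw [h]; exact (ZJ1_mem hS i).2
    · exact hcl _ _ h hPm
    · rw [h]; exact hQm

section char2
variable [CharP k 2]

theorem ZJ2_one (e : ℤ) (he : e = 1 ∨ e = -1) : (e : k) = 1 := by
  rcases he with rfl | rfl
  · simp
  · rw [Int.cast_neg, Int.cast_one]
    exact CharTwo.neg_eq 1

theorem ZJ2_cyc (hN : D.NA) (β γ : C.Root) (h : D.rE.SameCycle β γ) (t : k) :
    yg hN γ t = yg hN β t := by
  obtain ⟨e, he, h2⟩ := yg_cycle (k := k) hN β γ h
  rw [← h2, ZJ2_one e he, one_mul]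

theorem ZJ2_short (hN : D.NA) (hm : D.m = 2) (β : C.Root) (h : D.r β ≠ β) (t : k) :
    ((yg hN β t : GF D k) : GL C.Idx k) = C.xg k β t * C.xg k (D.r β) t := by
  rw [yg_val]
  unfold yb mo
  rw [if_neg h, hm]
  have h1 := ZJ1_factor (D := D) β t 0
  have h2 := ZJ1_factor (D := D) β t 1
  rw [ZJ2_one _ (D.sgp_eq 0 β), one_mul] at h1
  rw [ZJ2_one _ (D.sgp_eq 1 β), one_mul] at h2
  have h3 : List.range 2 = [0, 1] := rfl
  rw [h3, List.map_cons, List.map_cons, List.map_nil, List.prod_cons, List.prod_cons,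
    List.prod_nil, mul_one, h1, h2]
  rfl

theorem ZJ2_ca (α β γ : C.Root) (hγ : γ.1 = α.1 + β.1) (s t : k) :
    C.xg k α s * C.xg k β t = C.xg k γ (s * t) * (C.xg k β t * C.xg k α s) := by
  have h := C.xg_comm_add k α β γ s t hγ
  rw [ZJ2_one _ (C.eps_eq_one_or _ _), one_mul] at h
  rw [← h]
  group

end char2


section rel
variable [CharP k 2] (hm : D.m = 2) (i : Fin n) (hi : D.ρ i ≠ i) (ha : C.A i (t0 i) = -1)
    (βP βQ : C.Root) (hr : B2r D t0 i βP βQ)

include hS hm hi ha hr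

/-- the values of the form -/
theorem ZJ2_ips : (D.r βP).1 = (C.simple (D.ρ i)).1 + (C.simple (t0 i)).1 ∧
    C.ip (C.simple i).1 βP.1 = 1 ∧ C.ip (C.simple (D.ρ i)).1 (D.r βP).1 = 1 ∧
    C.ip (C.simple (t0 i)).1 βP.1 = 1 ∧ C.ip (C.simple (t0 i)).1 (D.r βP).1 = 1 ∧
    C.ip (C.simple i).1 βQ.1 = 1 ∧ C.ip (C.simple (D.ρ i)).1 βQ.1 = 1 ∧
    C.ip (C.simple (t0 i)).1 βQ.1 = 0 ∧ C.ip βP.1 βQ.1 = 1 ∧ C.ip (D.r βP).1 βQ.1 = 1 := by
  obtain ⟨hf, hii, hil, hρ, hli, hli', hJ⟩ := ZJ2_data hS hm i hi ha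
  have hrl : D.r (C.simple (t0 i)) = C.simple (t0 i) := by rw [D.r_simple, hf]
  have hrP : (D.r βP).1 = (C.simple (D.ρ i)).1 + (C.simple (t0 i)).1 := by
    rw [D.r_add _ _ _ hr.hP, D.r_simple, hrl]
  refine ⟨hrP, ?_, ?_, ?_, ?_, ?_, ?_, ?_, ?_, ?_⟩ <;>
  simp only [hrP, hr.hP, hr.hQ, SLC.simple_val, C.ip_add_left, C.ip_add_right, C.ip_single,
      C.diag, hii, ha, hil, C.symm (D.ρ i) i, C.symm (t0 i) i, C.symm (t0 i) (D.ρ i)] <;>
  norm_num

theorem ZJ2_AB (t u : k) : yg hS.na (C.simple i) t * yg hS.na (C.simple (t0 i)) u =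
    yg hS.na βP (t * u) * yg hS.na βQ (t ^ 2 * u) *
      (yg hS.na (C.simple (t0 i)) u * yg hS.na (C.simple i) t) := by
  obtain ⟨hf, hii, hil, hρ, hli, hli', hJ⟩ := ZJ2_data hS hm i hi ha
  obtain ⟨hrP, p1, p2, p3, p4, p5, p6, p7, p8, p9⟩ := ZJ2_ips hS hm i hi ha βP βQ hr
  have hrl : D.r (C.simple (t0 i)) = C.simple (t0 i) := by rw [D.r_simple, hf]
  have hra : D.r (C.simple i) ≠ C.simple i := by
    rw [D.r_simple]
    intro h3
    exact hi (C.simple_injective h3)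
  apply Subtype.ext
  simp only [Subgroup.coe_mul]
  rw [ZJ2_short hS.na hm _ hra, ZJ2_short hS.na hm _ hr.rP, yg_long hS.na _ hrl,
    yg_long hS.na _ hr.rQ, D.r_simple]
  have hQ2 : βQ.1 = (C.simple i).1 + (D.r βP).1 := by
    rw [hr.hQ, hrP, add_assoc]
  have e1 := ZJ2_ca (C.simple (D.ρ i)) (C.simple (t0 i)) (D.r βP) hrP t u
  have e2 := ZJ2_ca (C.simple i) (D.r βP) βQ hQ2 t (t * u)
  have e3 := ZJ2_ca (C.simple i) (C.simple (t0 i)) βP hr.hP t u
  have e2' : C.xg k (C.simple i) t * C.xg k (D.r βP) (t * u) =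
      C.xg k βQ (t ^ 2 * u) * (C.xg k (D.r βP) (t * u) * C.xg k (C.simple i) t) := by
    rw [e2]
    congr 2
    ring
  have c1 := C.xg_comm k βP (D.r βP) (t * u) (t * u) (by rw [D.ip_r_NA hS.na _ hr.rP])
  have c2 := C.xg_comm k βP βQ (t * u) (t ^ 2 * u) (by rw [p8]; norm_num)
  have c3 := C.xg_comm k (D.r βP) βQ (t * u) (t ^ 2 * u) (by rw [p9]; norm_num)
  calc C.xg k (C.simple i) t * C.xg k (C.simple (D.ρ i)) t * C.xg k (C.simple (t0 i)) u
      = C.xg k (C.simple i) t *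
        (C.xg k (C.simple (D.ρ i)) t * C.xg k (C.simple (t0 i)) u) := mul_assoc _ _ _
    _ = C.xg k (C.simple i) t * (C.xg k (D.r βP) (t * u) *
        (C.xg k (C.simple (t0 i)) u * C.xg k (C.simple (D.ρ i)) t)) := by rw [e1]
    _ = (C.xg k (C.simple i) t * C.xg k (D.r βP) (t * u)) *
        (C.xg k (C.simple (t0 i)) u * C.xg k (C.simple (D.ρ i)) t) := (mul_assoc _ _ _).symm
    _ = C.xg k βQ (t ^ 2 * u) * (C.xg k (D.r βP) (t * u) * C.xg k (C.simple i) t) *
        (C.xg k (C.simple (t0 i)) u * C.xg k (C.simple (D.ρ i)) t) := by rw [e2']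
    _ = C.xg k βQ (t ^ 2 * u) * C.xg k (D.r βP) (t * u) *
        (C.xg k (C.simple i) t * C.xg k (C.simple (t0 i)) u) *
        C.xg k (C.simple (D.ρ i)) t := by simp only [mul_assoc]
    _ = C.xg k βQ (t ^ 2 * u) * C.xg k (D.r βP) (t * u) *
        (C.xg k βP (t * u) * (C.xg k (C.simple (t0 i)) u * C.xg k (C.simple i) t)) *
        C.xg k (C.simple (D.ρ i)) t := by rw [e3]
    _ = (C.xg k βQ (t ^ 2 * u) * C.xg k (D.r βP) (t * u) * C.xg k βP (t * u)) *
        (C.xg k (C.simple (t0 i)) u * (C.xg k (C.simple i) t *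
        C.xg k (C.simple (D.ρ i)) t)) := by simp only [mul_assoc]
    _ = (C.xg k βP (t * u) * C.xg k (D.r βP) (t * u) * C.xg k βQ (t ^ 2 * u)) *
        (C.xg k (C.simple (t0 i)) u * (C.xg k (C.simple i) t *
        C.xg k (C.simple (D.ρ i)) t)) := by
      congr 1
      rw [← c3, mul_assoc, ← c2, ← mul_assoc, ← c1]

theorem ZJ2_AP (t v : k) : yg hS.na (C.simple i) t * yg hS.na βP v =
    yg hS.na βP v * yg hS.na (C.simple i) t := by
  obtain ⟨hf, hii, hil, hρ, hli, hli', hJ⟩ := ZJ2_data hS hm i hi ha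
  obtain ⟨hrP, p1, p2, p3, p4, p5, p6, p7, p8, p9⟩ := ZJ2_ips hS hm i hi ha βP βQ hr
  have hra : D.r (C.simple i) ≠ C.simple i := by
    rw [D.r_simple]
    intro h3
    exact hi (C.simple_injective h3)
  apply Subtype.ext
  simp only [Subgroup.coe_mul]
  rw [ZJ2_short hS.na hm _ hra, ZJ2_short hS.na hm _ hr.rP, D.r_simple]
  have hQ2 : βQ.1 = (C.simple i).1 + (D.r βP).1 := by
    rw [hr.hQ, hrP, add_assoc]
  have hQ3 : βQ.1 = (C.simple (D.ρ i)).1 + βP.1 := by
    rw [hr.hQ, hr.hP, ← add_assoc, add_comm (C.simple i).1]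
  have e1 := ZJ2_ca (C.simple (D.ρ i)) βP βQ hQ3 t v
  have e2 := ZJ2_ca (C.simple i) (D.r βP) βQ hQ2 t v
  have c1 := C.xg_comm k (C.simple i) βP t v (by rw [p1]; norm_num)
  have c2 := C.xg_comm k (C.simple (D.ρ i)) (D.r βP) t v (by rw [p2]; norm_num)
  have c3 := C.xg_comm k (C.simple i) βQ t (t * v) (by rw [p5]; norm_num)
  have c4 := C.xg_comm k βP βQ v (t * v) (by rw [p8]; norm_num)
  have c5 : C.xg k βQ (t * v) * C.xg k βQ (t * v) = 1 := by
    rw [← C.xg_map_add, CharTwo.add_self_eq_zero]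
    exact Units.ext (C.X_zero k βQ)
  calc C.xg k (C.simple i) t * C.xg k (C.simple (D.ρ i)) t * (C.xg k βP v * C.xg k (D.r βP) v)
      = C.xg k (C.simple i) t * (C.xg k (C.simple (D.ρ i)) t * C.xg k βP v) *
          C.xg k (D.r βP) v := by simp only [mul_assoc]
    _ = C.xg k (C.simple i) t * (C.xg k βQ (t * v) * (C.xg k βP v *
          C.xg k (C.simple (D.ρ i)) t)) * C.xg k (D.r βP) v := by rw [e1]
    _ = (C.xg k (C.simple i) t * C.xg k βQ (t * v)) * C.xg k βP v *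
          (C.xg k (C.simple (D.ρ i)) t * C.xg k (D.r βP) v) := by simp only [mul_assoc]
    _ = (C.xg k βQ (t * v) * C.xg k (C.simple i) t) * C.xg k βP v *
          (C.xg k (D.r βP) v * C.xg k (C.simple (D.ρ i)) t) := by rw [c3, c2]
    _ = C.xg k βQ (t * v) * (C.xg k (C.simple i) t * C.xg k βP v) *
          (C.xg k (D.r βP) v * C.xg k (C.simple (D.ρ i)) t) := by simp only [mul_assoc]
    _ = C.xg k βQ (t * v) * (C.xg k βP v * C.xg k (C.simple i) t) *
          (C.xg k (D.r βP) v * C.xg k (C.simple (D.ρ i)) t) := by rw [c1]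
    _ = C.xg k βQ (t * v) * C.xg k βP v * (C.xg k (C.simple i) t * C.xg k (D.r βP) v) *
          C.xg k (C.simple (D.ρ i)) t := by simp only [mul_assoc]
    _ = C.xg k βQ (t * v) * C.xg k βP v * (C.xg k βQ (t * v) * (C.xg k (D.r βP) v *
          C.xg k (C.simple i) t)) * C.xg k (C.simple (D.ρ i)) t := by rw [e2]
    _ = C.xg k βQ (t * v) * (C.xg k βP v * C.xg k βQ (t * v)) * (C.xg k (D.r βP) v *
          (C.xg k (C.simple i) t * C.xg k (C.simple (D.ρ i)) t)) := by simp only [mul_assoc]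
    _ = (C.xg k βQ (t * v) * C.xg k βQ (t * v)) * C.xg k βP v * (C.xg k (D.r βP) v *
          (C.xg k (C.simple i) t * C.xg k (C.simple (D.ρ i)) t)) := by
        rw [c4]
        simp only [mul_assoc]
    _ = C.xg k βP v * C.xg k (D.r βP) v *
          (C.xg k (C.simple i) t * C.xg k (C.simple (D.ρ i)) t) := by
        rw [c5, one_mul]
        simp only [mul_assoc]

/-- iterates of `r` on the roots -/
theorem ZJ2_iter (β : C.Root) (l : ℕ) : D.r^[l] β = β ∨ D.r^[l] β = D.r β := by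
  have h2 : D.r (D.r β) = β := by
    have h1 := D.r_m β
    rw [hm] at h1
    exact h1
  induction l with
  | zero => exact Or.inl rfl
  | succ l ih =>
    rw [Function.iterate_succ_apply']
    rcases ih with h | h
    · rw [h]; exact Or.inr rfl
    · rw [h, h2]; exact Or.inl rfl

theorem ZJ2_comms (s t : k) :
    yg hS.na (C.simple i) s * yg hS.na βQ t = yg hS.na βQ t * yg hS.na (C.simple i) s ∧
    yg hS.na (C.simple (t0 i)) s * yg hS.na βP t = yg hS.na βP t * yg hS.na (C.simple (t0 i)) s ∧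
    yg hS.na (C.simple (t0 i)) s * yg hS.na βQ t = yg hS.na βQ t * yg hS.na (C.simple (t0 i)) s ∧
    yg hS.na βP s * yg hS.na βQ t = yg hS.na βQ t * yg hS.na βP s ∧
    yg hS.na (-βP) s * yg hS.na (-βQ) t = yg hS.na (-βQ) t * yg hS.na (-βP) s := by
  obtain ⟨hf, hii, hil, hρ, hli, hli', hJ⟩ := ZJ2_data hS hm i hi ha
  obtain ⟨hrP, p1, p2, p3, p4, p5, p6, p7, p8, p9⟩ := ZJ2_ips hS hm i hi ha βP βQ hr
  have hrl : D.r (C.simple (t0 i)) = C.simple (t0 i) := by rw [D.r_simple, hf]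
  have hit := ZJ2_iter hS hm i hi ha βP βQ hr
  have hfQ : ∀ l, D.r^[l] βQ = βQ := fun l => ZJ1_iter_fix l _ hr.rQ
  have hfl : ∀ l, D.r^[l] (C.simple (t0 i)) = C.simple (t0 i) := fun l => ZJ1_iter_fix l _ hrl
  refine ⟨ZJ1_yg_comm hS.na _ _ ?_ s t, ZJ1_yg_comm hS.na _ _ ?_ s t,
    ZJ1_yg_comm hS.na _ _ ?_ s t, ZJ1_yg_comm hS.na _ _ ?_ s t,
    ZJ1_yg_comm hS.na _ _ ?_ s t⟩ <;> intro l l'
  · rw [hfQ]
    rcases hit (C.simple i) l with h | h
    · rw [h, p5]; norm_num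
    · rw [h, D.r_simple, p6]; norm_num
  · rw [hfl]
    rcases hit βP l' with h | h
    · rw [h, p3]; norm_num
    · rw [h, p4]; norm_num
  · rw [hfl, hfQ, p7]
  · rw [hfQ]
    rcases hit βP l with h | h
    · rw [h, p8]; norm_num
    · rw [h, p9]; norm_num
  · rw [ZJ1_iter_neg, ZJ1_iter_neg, SLC.Root.neg_val, SLC.Root.neg_val, C.ip_neg_neg, hfQ]
    rcases hit βP l with h | h
    · rw [h, p8]; norm_num
    · rw [h, p9]; norm_num

end rel

section tau
variable [CharP k 2] (hm : D.m = 2) (i : Fin n) (hi : D.ρ i ≠ i) (ha : C.A i (t0 i) = -1)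
    (βP βQ : C.Root) (hr : B2r D t0 i βP βQ)

include hS hi ha hr in
theorem ZJ2_tauP {τ : C.Root → C.Root} (ht : IsTau D t0 τ) : τ βP = βQ := by
  have hrl : D.r (C.simple (t0 i)) = C.simple (t0 i) := by
    rw [D.r_simple, (hS.fix_iff i).mpr hi]
  have hra : D.r (C.simple i) ≠ C.simple i := by
    rw [D.r_simple]
    intro h3
    exact hi (C.simple_injective h3)
  have hPm : βP ∈ RJ D t0 i := (hr.mem βP).mpr (Or.inr (Or.inr (Or.inl (.refl _ _))))
  have hfix : D.r (τ βP) = τ βP := (tau_fix hS ht βP).mpr hr.rP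
  have hmem : τ βP ∈ RJ D t0 i :=
    ⟨(tau_pos hS ht βP).mpr hPm.1, (tau_supp hS ht i βP).mpr hPm.2⟩
  rcases (hr.mem _).mp hmem with h | h | h | h
  · exact absurd ((fix_cycle _ _ h).mpr hfix) hra
  · exfalso
    have h1 := tau_simple hS ht i
    have h2 : D.r (τ (C.simple i)) = τ (C.simple i) := (tau_fix hS ht _).mpr hra
    have h3 : C.simple (t0 i) = τ (C.simple i) := ZJ2_fix_cycle _ _ h2 h1
    have h4 : τ βP = τ (C.simple i) := h.trans h3
    have h5 := (tau_tau hS ht βP).symm.trans ((congrArg τ h4) ▸ tau_tau hS ht (C.simple i))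
    have h6 := ZJ2_ht_cycle _ _ h5
    rw [hr.hP, ht_add, C.ht_simple, C.ht_simple] at h6
    omega
  · exact absurd ((fix_cycle _ _ h).mpr hfix) hr.rP
  · exact h

include hS hi ha hr in
theorem ZJ2_tauQ {τ : C.Root → C.Root} (ht : IsTau D t0 τ) : D.rE.SameCycle βP (τ βQ) := by
  have h1 := tau_tau hS ht βP
  rw [ZJ2_tauP hS i hi ha βP βQ hr ht] at h1
  exact h1.symm

end tau

include h in
theorem B2_inst (hm : D.m = 2) (i : Fin n) (hi : D.ρ i ≠ i) (ha : C.A i (t0 i) = -1)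
    (βP βQ : C.Root) (hr : B2r D t0 i βP βQ) :
    B2s θ (yg hS.na (C.simple i)) (yg hS.na (C.simple (t0 i))) (yg hS.na βP) (yg hS.na βQ) σ ∧
    ∀ x : GF D k, x ∈ FR hS.na k (RJ D t0 i) ↔ ∃ t u v w, x = yg hS.na (C.simple i) t *
      yg hS.na (C.simple (t0 i)) u * yg hS.na βP v * yg hS.na βQ w := by
  have hch : CharP k 2 := hm ▸ h.chr
  obtain ⟨hf, hii, hil, hρ, hli, hli', hJ⟩ := ZJ2_data hS hm i hi ha
  have hrl : D.r (C.simple (t0 i)) = C.simple (t0 i) := by rw [D.r_simple, hf]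
  have hra : D.r (C.simple i) ≠ C.simple i := by
    rw [D.r_simple]
    intro h3
    exact hi (C.simple_injective h3)
  have hPm : βP ∈ RJ D t0 i := (hr.mem βP).mpr (Or.inr (Or.inr (Or.inl (.refl _ _))))
  have hQm : βQ ∈ RJ D t0 i := (hr.mem βQ).mpr (Or.inr (Or.inr (Or.inr rfl)))
  obtain ⟨τ, e, hts⟩ := exists_tau hS h
  have hthP : ∀ t : k, th D θ βP t = θ t := fun t => by
    unfold th
    rw [if_neg hr.rP]
  have hthQ : ∀ t : k, th D θ βQ t = θ.symm t := fun t => by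
    unfold th
    rw [if_pos hr.rQ]
  have hU : ∀ (β : C.Root) (t : k), C.Pos β →
      ((yg hS.na β t : GF D k) : GL C.Idx k) ∈ (C.adS k).U 1 := by
    intro β t hβ
    have h1 : yg hS.na β t ∈ FU D k := yg_pos hS.na β hβ t
    exact (Subgroup.mem_subgroupOf.mp h1).1
  have hnsP : ∀ j, βP ≠ C.simple j := by
    intro j hj
    have h1 := congrArg (fun β : C.Root => ht β.1) hj
    simp only [hr.hP, ht_add, C.ht_simple] at h1
    omega
  have hnsQ : ∀ j, βQ ≠ C.simple j := by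
    intro j hj
    have h1 := congrArg (fun β : C.Root => ht β.1) hj
    simp only [hr.hQ, ht_add, C.ht_simple] at h1
    omega
  have hB : B2s θ (yg hS.na (C.simple i)) (yg hS.na (C.simple (t0 i))) (yg hS.na βP)
      (yg hS.na βQ) σ := by
    refine ⟨hch, ?_, fun s t => yg_add hS.na _ s t, fun s t => yg_add hS.na _ s t,
      fun s t => yg_add hS.na _ s t, fun s t => yg_add hS.na _ s t,
      fun t u => ZJ2_AB hS hm i hi ha βP βQ hr t u, fun t v => ZJ2_AP hS hm i hi ha βP βQ hr t v,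
      fun t w => (ZJ2_comms hS hm i hi ha βP βQ hr t w).1,
      fun u v => (ZJ2_comms hS hm i hi ha βP βQ hr u v).2.1,
      fun u w => (ZJ2_comms hS hm i hi ha βP βQ hr u w).2.2.1,
      fun v w => (ZJ2_comms hS hm i hi ha βP βQ hr v w).2.2.2.1, ?_,
      fun t => (ZJ1_sig hS h i hi t).1, fun t => (ZJ1_sig hS h i hi t).2.1, ?_, ?_⟩
    · intro t
      rw [h.hθ, hm]
    · intro t u v w h1
      have mA := hU _ t (C.simple_pos i)
      have mB := hU _ u (C.simple_pos (t0 i))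
      have mP := hU _ v hPm.1
      have mQ := hU _ w hQm.1
      have key : ∀ j, C.xi j (((yg hS.na (C.simple i) t : GF D k) : GL C.Idx k) :
          Matrix C.Idx C.Idx k) + C.xi j (((yg hS.na (C.simple (t0 i)) u : GF D k) :
          GL C.Idx k) : Matrix C.Idx C.Idx k) + C.xi j (((yg hS.na βP v : GF D k) :
          GL C.Idx k) : Matrix C.Idx C.Idx k) + C.xi j (((yg hS.na βQ w : GF D k) :
          GL C.Idx k) : Matrix C.Idx C.Idx k) = 0 := by
        intro j
        have h2 := congrArg (fun x : GF D k => C.xi j ((x : GL C.Idx k) :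
          Matrix C.Idx C.Idx k)) h1
        simp only [Subgroup.coe_mul] at h2
        rw [C.xi_mul j _ _ (mul_mem (mul_mem mA mB) mP) mQ,
          C.xi_mul j _ _ (mul_mem mA mB) mP, C.xi_mul j _ _ mA mB] at h2
        rw [h2]
        simp [SLC.xi]
      have hxP : ∀ j, C.xi j (((yg hS.na βP v : GF D k) :
          GL C.Idx k) : Matrix C.Idx C.Idx k) = 0 := fun j =>
        (xi_yg hS.na j βP hPm.1 v).2 (fun ⟨l, hl, _⟩ => hnsP l hl)
      have hxQ : ∀ j, C.xi j (((yg hS.na βQ w : GF D k) :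
          GL C.Idx k) : Matrix C.Idx C.Idx k) = 0 := fun j =>
        (xi_yg hS.na j βQ hQm.1 w).2 (fun ⟨l, hl, _⟩ => hnsQ l hl)
      have ht : t = 0 := by
        have h2 := key i
        rw [hxP, hxQ, (xi_yg hS.na i _ (C.simple_pos i) t).1 ⟨i, rfl, .refl _ _⟩,
          (xi_yg hS.na i _ (C.simple_pos (t0 i)) u).2 ?_, add_zero, add_zero, add_zero] at h2
        · exact h2
        · rintro ⟨l, hl, hc⟩
          have h3 := C.simple_injective hl
          rw [← h3] at hc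
          obtain ⟨z, hz⟩ := hc
          have h4 : (D.ρ ^ z) (t0 i) = t0 i := Function.IsFixedPt.perm_zpow hf z
          exact hli (h4.symm.trans hz)
      have hu : u = 0 := by
        have h2 := key (t0 i)
        rw [hxP, hxQ, (xi_yg hS.na (t0 i) _ (C.simple_pos (t0 i)) u).1 ⟨t0 i, rfl, .refl _ _⟩,
          (xi_yg hS.na (t0 i) _ (C.simple_pos i) t).2 ?_, add_zero, add_zero, zero_add] at h2
        · exact h2
        · rintro ⟨l, hl, hc⟩
          have h3 := C.simple_injective hl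
          rw [← h3] at hc
          obtain ⟨z, hz⟩ := hc.symm
          have h4 : (D.ρ ^ z) (t0 i) = t0 i := Function.IsFixedPt.perm_zpow hf z
          exact hli (h4.symm.trans hz)
      rw [ht, hu, yg_zero, yg_zero, one_mul, one_mul] at h1
      have hv : v = 0 := by
        by_contra hv
        have h2 : yg hS.na βP v = yg hS.na βQ (-w) := by
          rw [yg_neg]
          exact eq_inv_of_mul_eq_one_left h1
        have h3 := (yg_inj hS.na βP βQ v (-w) hv h2).1
        exact hr.rP ((fix_cycle _ _ h3).mpr hr.rQ)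
      rw [hv, yg_zero, one_mul] at h1
      have hw : w = 0 := by
        by_contra hw
        have h2 : yg hS.na βQ w = yg hS.na βQ 0 := by rw [h1, yg_zero]
        exact hw ((yg_inj hS.na βQ βQ w 0 hw h2).2 rfl)
      exact ⟨ht, hu, hv, hw⟩
    · intro v
      rw [hts.map, hthP, ZJ2_one _ (hts.e_eq βP), one_mul, ZJ2_tauP hS i hi ha βP βQ hr hts.tau]
    · intro w
      rw [hts.map, hthQ, ZJ2_one _ (hts.e_eq βQ), one_mul]
      exact ZJ2_cyc hS.na _ _ (ZJ2_tauQ hS i hi ha βP βQ hr hts.tau) _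
  refine ⟨hB, fun x => ⟨fun hx => ?_, ?_⟩⟩
  · unfold FR at hx
    induction hx using Subgroup.closure_induction with
    | mem x hx =>
      obtain ⟨β, hβ, t, rfl⟩ := hx
      rcases (hr.mem β).mp hβ with h1 | h1 | h1 | h1
      · refine ⟨t, 0, 0, 0, ?_⟩
        rw [yg_zero, yg_zero, yg_zero, mul_one, mul_one, mul_one, ZJ2_cyc hS.na _ _ h1]
      · refine ⟨0, t, 0, 0, ?_⟩
        rw [yg_zero, yg_zero, yg_zero, mul_one, mul_one, one_mul, h1]
      · refine ⟨0, 0, t, 0, ?_⟩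
        rw [yg_zero, yg_zero, yg_zero, mul_one, one_mul, one_mul, ZJ2_cyc hS.na _ _ h1]
      · refine ⟨0, 0, 0, t, ?_⟩
        rw [yg_zero, yg_zero, yg_zero, one_mul, one_mul, one_mul, h1]
    | one => exact ⟨0, 0, 0, 0, by rw [yg_zero, yg_zero, yg_zero, yg_zero]; simp⟩
    | mul x y _ _ hx hy =>
      obtain ⟨t, u, v, w, rfl⟩ := hx
      obtain ⟨t', u', v', w', rfl⟩ := hy
      exact ⟨_, _, _, _, B2_mul_form hB t u v w t' u' v' w'⟩
    | inv x _ hx =>
      obtain ⟨t, u, v, w, rfl⟩ := hx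
      refine ⟨t, u, v + t * u, w + t ^ 2 * u, ?_⟩
      symm
      apply eq_inv_of_mul_eq_one_right
      rw [B2_mul_form hB]
      have a1 : ∀ x : k, x + x = 0 := CharTwo.add_self_eq_zero
      have e1 : v + (v + t * u) + t * u = 0 := by
        have : v + (v + t * u) + t * u = (v + v) + (t * u + t * u) := by ring
        rw [this, a1, a1, add_zero]
      have e2 : w + (w + t ^ 2 * u) + t ^ 2 * u = 0 := by
        have : w + (w + t ^ 2 * u) + t ^ 2 * u = (w + w) + (t ^ 2 * u + t ^ 2 * u) := by ring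
        rw [this, a1, a1, add_zero]
      rw [e1, e2, a1, a1, yg_zero, yg_zero, yg_zero, yg_zero]
      simp
  · rintro ⟨t, u, v, w, rfl⟩
    exact mul_mem (mul_mem (mul_mem
      (Subgroup.subset_closure ⟨_, (ZJ1_mem hS i).1, t, rfl⟩)
      (Subgroup.subset_closure ⟨_, (ZJ1_mem hS i).2, u, rfl⟩))
      (Subgroup.subset_closure ⟨_, hPm, v, rfl⟩))
      (Subgroup.subset_closure ⟨_, hQm, w, rfl⟩)

include h in
/-- an element of the opposite root group -/
theorem B2_opp (hm : D.m = 2) (i : Fin n) (hi : D.ρ i ≠ i) (ha : C.A i (t0 i) = -1)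
    (βP βQ : C.Root) (hr : B2r D t0 i βP βQ) (v : k) :
    yg hS.na (-βP) v * yg hS.na (-βQ) (θ v) ∈ XmJ hS.na t0 σ i := by
  have hch : CharP k 2 := hm ▸ h.chr
  have hPm : βP ∈ RJ D t0 i := (hr.mem βP).mpr (Or.inr (Or.inr (Or.inl (.refl _ _))))
  have hQm : βQ ∈ RJ D t0 i := (hr.mem βQ).mpr (Or.inr (Or.inr (Or.inr rfl)))
  obtain ⟨τ, e, hts⟩ := exists_tau hS h
  have hfQ : D.r (-βQ) = -βQ := by rw [D.r_neg, hr.rQ]
  have hfP : D.r (-βP) ≠ -βP := by
    intro h1
    apply hr.rP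
    rw [D.r_neg] at h1
    have h2 := congrArg (fun β : C.Root => -β) h1
    simp only [ZJ1_neg_neg] at h2
    exact h2
  have hthP : ∀ t : k, th D θ (-βP) t = θ t := fun t => by
    unfold th
    rw [if_neg hfP]
  have hthQ : ∀ t : k, th D θ (-βQ) t = θ.symm t := fun t => by
    unfold th
    rw [if_pos hfQ]
  have hτP : D.rE.SameCycle (-βQ) (τ (-βP)) := by
    have h1 := tau_neg hS hts.tau βP
    rw [ZJ2_tauP hS i hi ha βP βQ hr hts.tau] at h1
    exact h1.symm
  have hτQ : D.rE.SameCycle (-βP) (τ (-βQ)) := by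
    have h1 := tau_neg hS hts.tau βQ
    have h2 := ZJ1_cyc_neg _ _ (ZJ2_tauQ hS i hi ha βP βQ hr hts.tau)
    exact h2.trans h1.symm
  refine ⟨mul_mem (Subgroup.subset_closure ⟨-βP, ?_, v, rfl⟩)
    (Subgroup.subset_closure ⟨-βQ, ?_, θ v, rfl⟩), ?_⟩
  · change - -βP ∈ RJ D t0 i
    rw [ZJ1_neg_neg]
    exact hPm
  · change - -βQ ∈ RJ D t0 i
    rw [ZJ1_neg_neg]
    exact hQm
  · change σ (yg hS.na (-βP) v * yg hS.na (-βQ) (θ v)) = yg hS.na (-βP) v * yg hS.na (-βQ) (θ v)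
    rw [map_mul, hts.map, hts.map, hthP, hthQ, ZJ2_one _ (hts.e_eq _), ZJ2_one _ (hts.e_eq _),
      one_mul, one_mul, ZJ2_cyc hS.na _ _ hτP, ZJ2_cyc hS.na _ _ hτQ,
      RingEquiv.symm_apply_apply, (ZJ2_comms hS hm i hi ha βP βQ hr v (θ v)).2.2.2.2]

end Pool.Agent.H86.UM
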