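import Pool.Agent.H86.UM.ZA

/-!
# Project UM, Suzuki-Ree groups, module ZG: the unipotent group of type `²G₂`

`G2s`: root groups `A` (short), `B` (long), `P` (`A + B`), `Q` (`2 A + B`), `R` (`3 A + B`),
`S` (`3 A + 2 B`) in characteristic `3`, with `σ`; `P, R` and `Q, S` are exchanged by `σ` up to signs `e₁`, `e₂`, which
are `-1`: apply `σ` to `AP` and compare with `BR`: `e₁ = e₂`; apply `σ` to `AB`: the `P`-coordinate
gives `e₁ = -1` (`1 ≠ -1` in characteristic `3`).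
`P, Q, R, S` commute, `Q, S` are central, and
`P v Q w R z S y * (A a * B b) = A a * B b * (P v Q (w - a v) R z S (y - b z))`,
`B b * A a = A a * B b * P (-a b) Q (-a ^ 2 b) R (-a ^ 3 b) S (-a ^ 3 b ^ 2)` (characteristic `3`).
An element `A t B u P v Q w R z S y` is fixed by `σ` iff `u = θ t`, `z = -θ v - t ^ 3 θ t`,
`y = -θ w - t ^ 3 (θ t) ^ 2`. The product of two fixed elements has the coordinates
`(t + t', v + v' - t' θ t, w + w' - t' v - t' ^ 2 θ t)`.
`ker`: commutators: `(t, 0, 0)`, `(t', 0, 0)`: second coordinate `t θ t' - t' θ t`; `(0, v, *)`,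
`(t', 0, 0)`: `(0, 0, -t' v)`. So all `(0, 0, w)` are commutators (in `⁅X, X⁆`), and for `(0, v, w)` use `norm_module`
for the additive group generated by the `t θ t' - t' θ t`.

`G2_rigid`: as `B2_rigid` (ZB.lean), with one more layer. `F1` is a homomorphism into an abelian group, so it kills the
commutator subgroup, which contains all `(0, v, w)`: `F1 t v w = f t`. `f ≠ 0`: otherwise by `h2` `F2` is a
homomorphism into an abelian group, `F2 0 v w = 0`, and then by `h3` `F3` restricted to ... : if `f = 0` then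
`F3 (product) = F3 + F3`, so `(F2, F3)` is an injective homomorphism into an abelian group, contradiction.
`semi_sq` gives `f t = c φ t` and `κ' = φ (s ^ 2)` for `κ = s ^ 2`. `F2 0 0 w = 0` (`(0, 0, w)` is a commutator of
elements of the form `(0, v, 0)`, `(t', 0, 0)`, and `F2` restricted to the `(0, v, w)`, times .. : use `h2` for
the two products `(0, v, 0) (t', 0, 0)`, `(t', 0, 0) (0, v, 0)`, `f 0 = 0`). `g v = F2 0 v 0 = F2 0 v w` is additive,
`g (t θ t' - t' θ t) = f t θ' (f t') - f t' θ' (f t)`; scaling `t, t'` with `λ`: `g (λ θ λ z) = φ λ θ' (φ λ) g z`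
for all `z`. `g ≠ 0`: otherwise the commutator of `(0, v, 0)` and `(t', 0, 0)` (use `h3`): `F3 0 0 (-t' v) = 0`,
contradiction to `hinj`. `norm_rigid`: `φ θ = θ' φ`, `g v = c θ' c φ v`. `F3 0 0 (-t' v) = - f t' * g v`, so
`F3 0 0 w = c ^ 2 θ' c φ w`. `ζ₂ t = F2 t 0 0` is additive with `ζ₂ (s ^ 2 t) = φ (s ^ 2 θ (s ^ 2)) ζ₂ t`:
`zeta3a`: `0`. So `F2 t v w = g v`. Then `F3 0 v 0 =: η v`: additive, `η (κ θ κ v) = κ' ^ 2 θ' κ' η v` for
`κ = s ^ 2`; and `F3` of the products `(t, 0, 0) (t', 0, 0)`: put `ζ₃ t = F3 t 0 0`; comparing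
`(t,0,0)(t',0,0) = (t + t', 0, 0) (0, -t' θ t, 0) (0, 0, *)`; get `ζ₃ (t + t') + η (-t' θ t) = ζ₃ t + ζ₃ t'` (the
terms with `φ` cancel as the map `(t, v, w) ↦ (c φ t, c θ' c φ v, c ^ 2 θ' c φ w)` is a homomorphism; better:
consider the difference `F3 t v w - c ^ 2 θ' c φ w =: δ(t, v, w)`, which is a homomorphism of the group into `K`, so
it vanishes on the commutator subgroup, i.e. on all `(0, v, w)`; so `δ = ζ₃ t` is additive,
`ζ₃ (s ^ 2 t) = φ (s ^ 4 θ (s ^ 2)) ζ₃ t`, `zeta3b`).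
-/

set_option autoImplicit false

namespace Pool.Agent.H86.UM

/-- Root groups of type `G₂` in characteristic `3` with `σ`. -/
structure G2s {k : Type*} [Field k] (θ : k ≃+* k) {G : Type*} [Group G] (A B P Q R S : k → G)
    (σ : G →* G) : Prop where
  chr : CharP k 3
  hθ : ∀ t, θ (θ t) = t ^ 3
  hA : ∀ s t, A (s + t) = A s * A t
  hB : ∀ s t, B (s + t) = B s * B t
  hP : ∀ s t, P (s + t) = P s * P t
  hQ : ∀ s t, Q (s + t) = Q s * Q t
  hR : ∀ s t, R (s + t) = R s * R t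
  hS : ∀ s t, S (s + t) = S s * S t
  AB : ∀ t u, A t * B u =
    P (t * u) * Q (-(t ^ 2 * u)) * R (t ^ 3 * u) * S (-(t ^ 3 * u ^ 2)) * (B u * A t)
  AP : ∀ t v, A t * P v = Q (t * v) * (P v * A t)
  BR : ∀ u z, B u * R z = S (u * z) * (R z * B u)
  AQ : ∀ t w, A t * Q w = Q w * A t
  AR : ∀ t z, A t * R z = R z * A t
  AS : ∀ t y, A t * S y = S y * A t
  BP : ∀ u v, B u * P v = P v * B u
  BQ : ∀ u w, B u * Q w = Q w * B u
  BS : ∀ u y, B u * S y = S y * B u
  PQ : ∀ v w, P v * Q w = Q w * P v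
  PR : ∀ v z, P v * R z = R z * P v
  PS : ∀ v y, P v * S y = S y * P v
  QR : ∀ w z, Q w * R z = R z * Q w
  QS : ∀ w y, Q w * S y = S y * Q w
  RS : ∀ z y, R z * S y = S y * R z
  uniq : ∀ t u v w z y, A t * B u * P v * Q w * R z * S y = 1 →
    t = 0 ∧ u = 0 ∧ v = 0 ∧ w = 0 ∧ z = 0 ∧ y = 0
  σA : ∀ t, σ (A t) = B (θ t)
  σB : ∀ u, σ (B u) = A (θ.symm u)
  σP : ∃ e : k, (e = 1 ∨ e = -1) ∧ (∀ v, σ (P v) = R (e * θ v)) ∧ ∀ z, σ (R z) = P (e * θ.symm z)
  σQ : ∃ e : k, (e = 1 ∨ e = -1) ∧ (∀ w, σ (Q w) = S (e * θ w)) ∧ ∀ y, σ (S y) = Q (e * θ.symm y)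

/-- The elements fixed by `σ`. -/
def G2x {k : Type*} [Field k] (θ : k ≃+* k) {G : Type*} [Group G] (A B P Q R S : k → G)
    (t v w : k) : G :=
  A t * B (θ t) * P v * Q w * R (-θ v - t ^ 3 * θ t) * S (-θ w - t ^ 3 * θ t ^ 2)

/-- The product of the four central-series root elements. -/
private def ZG_n {k G : Type*} [Group G] (P Q R S : k → G) (v w z y : k) : G :=
  P v * Q w * R z * S y

private theorem ZG_zero {k G : Type*} [Field k] [Group G] {P : k → G}
    (h : ∀ s t, P (s + t) = P s * P t) : P 0 = 1 := by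
  have : P 0 = P 0 * P 0 := by simpa using h 0 0
  exact left_eq_mul.mp this

private theorem ZG_neg {k G : Type*} [Field k] [Group G] {P : k → G}
    (h : ∀ s t, P (s + t) = P s * P t) (t : k) : P (-t) = (P t)⁻¹ := by
  rw [eq_inv_iff_mul_eq_one, ← h, neg_add_cancel, ZG_zero h]

section
variable {k : Type*} [Field k] {θ : k ≃+* k} {G : Type*} [Group G] {A B P Q R S : k → G}
  {σ : G →* G} (h : G2s θ A B P Q R S σ)

include h

private theorem ZG_mul (v w z y v' w' z' y' : k) :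
    ZG_n P Q R S v w z y * ZG_n P Q R S v' w' z' y' =
      ZG_n P Q R S (v + v') (w + w') (z + z') (y + y') := by
  have c1 : Commute (S y) (P v' * Q w' * R z') :=
    ((Commute.mul_right (h.PS v' y).symm (h.QS w' y).symm).mul_right (h.RS z' y).symm)
  have c2 : Commute (R z) (P v' * Q w') :=
    (Commute.mul_right (h.PR v' z).symm (h.QR w' z).symm)
  have c3 : Commute (Q w) (P v') := (h.PQ v' w).symm
  unfold ZG_n
  rw [c1.mul_mul_mul_comm, c2.mul_mul_mul_comm, c3.mul_mul_mul_comm, ← h.hP, ← h.hQ, ← h.hR,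
    ← h.hS]

private theorem ZG_n_A (v w z y a : k) :
    ZG_n P Q R S v w z y * A a = A a * ZG_n P Q R S v (w - a * v) z y := by
  have e1 : P v * A a = A a * (P v * Q (-(a * v))) := by
    rw [← mul_assoc, h.AP, ZG_neg h.hQ]
    have : Q (a * v) * (P v * A a) * (Q (a * v))⁻¹ = P v * A a := by
      rw [mul_inv_eq_iff_eq_mul]
      rw [mul_assoc (P v), h.AQ, ← mul_assoc (P v), h.PQ, mul_assoc]
    exact this.symm
  have e2 : ZG_n P Q R S v w z y * A a = P v * A a * (Q w * R z * S y) := by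
    unfold ZG_n
    have a1 : S y * A a = A a * S y := (h.AS a y).symm
    have a2 : R z * A a = A a * R z := (h.AR a z).symm
    have a3 : Q w * A a = A a * Q w := (h.AQ a w).symm
    calc P v * Q w * R z * S y * A a = P v * Q w * R z * (S y * A a) := by group
      _ = P v * Q w * (R z * A a) * S y := by rw [a1]; group
      _ = P v * (Q w * A a) * R z * S y := by rw [a2]; group
      _ = P v * A a * (Q w * R z * S y) := by rw [a3]; group
  rw [e2, e1]
  unfold ZG_n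
  have e3 : Q (w - a * v) = Q (-(a * v)) * Q w := by
    rw [← h.hQ]
    congr 1
    ring
  rw [e3]
  group

private theorem ZG_n_B (v w z y b : k) :
    ZG_n P Q R S v w z y * B b = B b * ZG_n P Q R S v w z (y - b * z) := by
  have e1 : R z * B b = B b * (R z * S (-(b * z))) := by
    rw [← mul_assoc, h.BR, ZG_neg h.hS]
    have : S (b * z) * (R z * B b) * (S (b * z))⁻¹ = R z * B b := by
      rw [mul_inv_eq_iff_eq_mul]
      rw [mul_assoc (R z), h.BS, ← mul_assoc (R z), h.RS, mul_assoc]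
    exact this.symm
  unfold ZG_n
  have a1 : S y * B b = B b * S y := (h.BS b y).symm
  have a2 : Q w * B b = B b * Q w := (h.BQ b w).symm
  have a3 : P v * B b = B b * P v := (h.BP b v).symm
  have e3 : S (y - b * z) = S (-(b * z)) * S y := by
    rw [← h.hS]
    congr 1
    ring
  calc P v * Q w * R z * S y * B b = P v * Q w * R z * (S y * B b) := by group
    _ = P v * Q w * (R z * B b) * S y := by rw [a1]; group
    _ = P v * (Q w * B b) * (R z * S (-(b * z))) * S y := by rw [e1]; group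
    _ = P v * B b * Q w * (R z * S (-(b * z))) * S y := by rw [a2]; group
    _ = B b * P v * Q w * (R z * S (-(b * z))) * S y := by rw [a3]
    _ = B b * (P v * Q w * R z * S (y - b * z)) := by rw [e3]; group

private theorem ZG_n_inv (v w z y : k) :
    ZG_n P Q R S (-v) (-w) (-z) (-y) * ZG_n P Q R S v w z y = 1 := by
  rw [ZG_mul h]
  simp [ZG_n, ZG_zero h.hP, ZG_zero h.hQ, ZG_zero h.hR, ZG_zero h.hS]

private theorem ZG_three : (3 : k) = 0 := by
  have := h.chr
  have := CharP.cast_eq_zero k 3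
  exact_mod_cast this

private theorem ZG_BA (a b : k) : B b * A a =
    A a * B b * ZG_n P Q R S (-(a * b)) (-(a ^ 2 * b)) (-(a ^ 3 * b)) (-(a ^ 3 * b ^ 2)) := by
  have e0 := h.AB a b
  have e1 : A a * B b = ZG_n P Q R S (a * b) (-(a ^ 2 * b)) (a ^ 3 * b) (-(a ^ 3 * b ^ 2)) *
      (B b * A a) := e0
  have e2 : B b * A a = ZG_n P Q R S (-(a * b)) (a ^ 2 * b) (-(a ^ 3 * b)) (a ^ 3 * b ^ 2) *
      (A a * B b) := by
    rw [e1, ← mul_assoc]
    have := ZG_n_inv h (a * b) (-(a ^ 2 * b)) (a ^ 3 * b) (-(a ^ 3 * b ^ 2))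
    rw [neg_neg, neg_neg] at this
    rw [this, one_mul]
  rw [e2, ← mul_assoc, ZG_n_A h, mul_assoc, ZG_n_B h, ← mul_assoc]
  congr 2
  · linear_combination (a ^ 2 * b) * ZG_three h
  · linear_combination (a ^ 3 * b ^ 2) * ZG_three h

/-- The general product formula. -/
private theorem ZG_prod (t u v w z y t' u' v' w' z' y' : k) :
    A t * B u * ZG_n P Q R S v w z y * (A t' * B u' * ZG_n P Q R S v' w' z' y') =
      A (t + t') * B (u + u') * ZG_n P Q R S (v + v' - t' * u) (w + w' - t' * v - t' ^ 2 * u)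
        (z + z' - t' ^ 3 * u) (y + y' - t' ^ 3 * u ^ 2 - u' * (z - t' ^ 3 * u)) := by
  calc A t * B u * ZG_n P Q R S v w z y * (A t' * B u' * ZG_n P Q R S v' w' z' y')
      = A t * B u * (ZG_n P Q R S v w z y * A t') * B u' * ZG_n P Q R S v' w' z' y' := by group
    _ = A t * (B u * A t') * ZG_n P Q R S v (w - t' * v) z y * B u' *
          ZG_n P Q R S v' w' z' y' := by rw [ZG_n_A h]; group
    _ = A t * A t' * B u * (ZG_n P Q R S (-(t' * u)) (-(t' ^ 2 * u)) (-(t' ^ 3 * u))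
          (-(t' ^ 3 * u ^ 2)) * ZG_n P Q R S v (w - t' * v) z y) * B u' *
          ZG_n P Q R S v' w' z' y' := by rw [ZG_BA h]; group
    _ = A t * A t' * B u * (ZG_n P Q R S (-(t' * u) + v) (-(t' ^ 2 * u) + (w - t' * v))
          (-(t' ^ 3 * u) + z) (-(t' ^ 3 * u ^ 2) + y) * B u') *
          ZG_n P Q R S v' w' z' y' := by rw [ZG_mul h]; group
    _ = A t * A t' * (B u * B u') * (ZG_n P Q R S (-(t' * u) + v) (-(t' ^ 2 * u) + (w - t' * v))
          (-(t' ^ 3 * u) + z) (-(t' ^ 3 * u ^ 2) + y - u' * (-(t' ^ 3 * u) + z)) *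
          ZG_n P Q R S v' w' z' y') := by rw [ZG_n_B h]; group
    _ = _ := by
      rw [ZG_mul h, ← h.hA, ← h.hB]
      congr 2 <;> ring

private theorem ZG_assoc (t u v w z y : k) :
    A t * B u * P v * Q w * R z * S y = A t * B u * ZG_n P Q R S v w z y := by
  unfold ZG_n
  group

theorem G2_coord (t u v w z y t' u' v' w' z' y' : k)
    (e : A t * B u * P v * Q w * R z * S y = A t' * B u' * P v' * Q w' * R z' * S y') :
    t = t' ∧ u = u' ∧ v = v' ∧ w = w' ∧ z = z' ∧ y = y' := by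
  rw [ZG_assoc h, ZG_assoc h] at e
  have e1 : A (t - t') * B (u - u') * ZG_n P Q R S (v - v') (w - w') (z - z')
      (y - y' + u' * (z - z')) = 1 := by
    have a1 : A (t - t') = (A t')⁻¹ * A t := by
      rw [← ZG_neg h.hA, ← h.hA]; congr 1; ring
    have a2 : B (u - u') = B u * (B u')⁻¹ := by
      rw [← ZG_neg h.hB, ← h.hB]; congr 1; ring
    have a3 : (B u')⁻¹ * ZG_n P Q R S (v - v') (w - w') (z - z') (y - y' + u' * (z - z')) =
        ZG_n P Q R S (v - v') (w - w') (z - z') (y - y') * (B u')⁻¹ := by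
      rw [inv_mul_eq_iff_eq_mul, ← mul_assoc, eq_mul_inv_iff_mul_eq, ZG_n_B h]
      congr 2
      ring
    have a4 : ZG_n P Q R S (v - v') (w - w') (z - z') (y - y') =
        ZG_n P Q R S v w z y * (ZG_n P Q R S v' w' z' y')⁻¹ := by
      rw [eq_mul_inv_iff_mul_eq, ZG_mul h]
      congr 1 <;> ring
    rw [a1, a2]
    calc (A t')⁻¹ * A t * (B u * (B u')⁻¹) *
          ZG_n P Q R S (v - v') (w - w') (z - z') (y - y' + u' * (z - z'))
        = (A t')⁻¹ * A t * B u * ((B u')⁻¹ *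
          ZG_n P Q R S (v - v') (w - w') (z - z') (y - y' + u' * (z - z'))) := by group
      _ = (A t')⁻¹ * (A t * B u * ZG_n P Q R S v w z y) * (ZG_n P Q R S v' w' z' y')⁻¹ *
          (B u')⁻¹ := by rw [a3, a4]; group
      _ = 1 := by rw [e]; group
  rw [← ZG_assoc h] at e1
  obtain ⟨h1, h2, h3, h4, h5, h6⟩ := h.uniq _ _ _ _ _ _ e1
  refine ⟨sub_eq_zero.mp h1, sub_eq_zero.mp h2, sub_eq_zero.mp h3, sub_eq_zero.mp h4,
    sub_eq_zero.mp h5, ?_⟩
  rw [h5, mul_zero, add_zero] at h6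
  exact sub_eq_zero.mp h6

theorem G2_sign : (∀ v, σ (P v) = R (-θ v)) ∧ (∀ z, σ (R z) = P (-θ.symm z)) ∧
    (∀ w, σ (Q w) = S (-θ w)) ∧ ∀ y, σ (S y) = Q (-θ.symm y) := by
  obtain ⟨e₁, he₁, hP1, hR1⟩ := h.σP
  obtain ⟨e₂, he₂, hQ1, hS1⟩ := h.σQ
  have hA0 := ZG_zero h.hA
  have hB0 := ZG_zero h.hB
  have hP0 := ZG_zero h.hP
  have hQ0 := ZG_zero h.hQ
  have hR0 := ZG_zero h.hR
  have hS0 := ZG_zero h.hS
  -- e₁ = e₂
  have k1 : e₁ = e₂ := by
    have x1 := congrArg σ (h.AP 1 1)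
    rw [map_mul, map_mul, map_mul, h.σA, hP1, hQ1] at x1
    simp only [map_one, mul_one] at x1
    have x2 := h.BR 1 e₁
    rw [one_mul] at x2
    rw [x2] at x1
    have x3 : S e₁ = S e₂ := mul_right_cancel x1
    have x4 := G2_coord h 0 0 0 0 0 e₁ 0 0 0 0 0 e₂
      (by rw [hA0, hB0, hP0, hQ0, hR0, x3])
    exact x4.2.2.2.2.2
  -- e₁ = -1
  have k2 : e₁ = -1 := by
    have x1 := congrArg σ (h.AB 1 1)
    have y1 : σ (A 1 * B 1) = B 1 * A 1 := by
      rw [map_mul, h.σA, h.σB, map_one, map_one]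
    have y2 : σ (P (1 * 1) * Q (-(1 ^ 2 * 1)) * R (1 ^ 3 * 1) * S (-(1 ^ 3 * 1 ^ 2)) *
        (B 1 * A 1)) = R e₁ * S (-e₂) * P e₁ * Q (-e₂) * (A 1 * B 1) := by
      simp only [map_mul, h.σA, h.σB, hP1, hQ1, hR1, hS1, one_pow, map_one, mul_one, map_neg,
        mul_neg]
    rw [y1, y2, ZG_BA h] at x1
    have y3 : R e₁ * S (-e₂) * P e₁ * Q (-e₂) = ZG_n P Q R S e₁ (-e₂) e₁ (-e₂) := by
      unfold ZG_n
      have c1 : R e₁ * S (-e₂) * P e₁ = P e₁ * (R e₁ * S (-e₂)) := by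
        rw [mul_assoc, ← h.PS, ← mul_assoc, ← h.PR, mul_assoc]
      have c2 : R e₁ * S (-e₂) * Q (-e₂) = Q (-e₂) * (R e₁ * S (-e₂)) := by
        rw [mul_assoc, ← h.QS, ← mul_assoc, ← h.QR, mul_assoc]
      rw [c1, mul_assoc, c2]
      group
    rw [y3, ← mul_assoc (ZG_n P Q R S e₁ (-e₂) e₁ (-e₂)), ZG_n_A h, mul_assoc (A 1) (ZG_n _ _ _ _ _ _ _ _),
      ZG_n_B h, ← mul_assoc (A 1) (B 1), ← ZG_assoc h, ← ZG_assoc h] at x1
    have x2 := G2_coord h _ _ _ _ _ _ _ _ _ _ _ _ x1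
    have x3 := x2.2.2.1
    rw [← x3]
    ring
  subst k1
  subst k2
  refine ⟨fun v => by rw [hP1]; congr 1; ring, fun z => by rw [hR1]; congr 1; ring,
    fun w => by rw [hQ1]; congr 1; ring, fun y => by rw [hS1]; congr 1; ring⟩

/-- the elements `A t * B u * P v * Q w * R z * S y` form a subgroup -/
theorem G2_mul_form (t u v w z y t' u' v' w' z' y' : k) : ∃ z'' y'',
    A t * B u * P v * Q w * R z * S y * (A t' * B u' * P v' * Q w' * R z' * S y') =
      A (t + t') * B (u + u') * P (v + v' - t' * u) * Q (w + w' - t' * v - t' ^ 2 * u) *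
        R z'' * S y'' := by
  refine ⟨z + z' - t' ^ 3 * u, y + y' - t' ^ 3 * u ^ 2 - u' * (z - t' ^ 3 * u), ?_⟩
  rw [ZG_assoc h, ZG_assoc h, ZG_assoc h, ZG_prod h]

private theorem ZG_sym (t : k) : θ.symm (t ^ 3) = θ t := by
  rw [← h.hθ, RingEquiv.symm_apply_apply]

private theorem ZG_sigma (t u v w z y : k) :
    σ (A t * B u * ZG_n P Q R S v w z y) = A (θ.symm u) * B (θ t) *
      ZG_n P Q R S (-(θ.symm u * θ t) - θ.symm z) (-(θ.symm u ^ 2 * θ t) - θ.symm y)
        (-(θ.symm u ^ 3 * θ t) - θ v) (-(θ.symm u ^ 3 * θ t ^ 2) - θ w) := by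
  obtain ⟨sP, sR, sQ, sS⟩ := G2_sign h
  have e1 : σ (ZG_n P Q R S v w z y) = ZG_n P Q R S (-θ.symm z) (-θ.symm y) (-θ v) (-θ w) := by
    unfold ZG_n
    rw [map_mul, map_mul, map_mul, sP, sQ, sR, sS]
    have c1 : R (-θ v) * S (-θ w) * P (-θ.symm z) = P (-θ.symm z) * (R (-θ v) * S (-θ w)) := by
      rw [mul_assoc, ← h.PS, ← mul_assoc, ← h.PR, mul_assoc]
    have c2 : R (-θ v) * S (-θ w) * Q (-θ.symm y) = Q (-θ.symm y) * (R (-θ v) * S (-θ w)) := by
      rw [mul_assoc, ← h.QS, ← mul_assoc, ← h.QR, mul_assoc]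
    rw [c1, mul_assoc, c2]
    group
  rw [map_mul, map_mul, h.σA, h.σB, e1, ZG_BA h, mul_assoc (A _ * B _), ZG_mul h]
  congr 2 <;> ring

theorem G2_fix (t v w : k) : σ (G2x θ A B P Q R S t v w) = G2x θ A B P Q R S t v w := by
  unfold G2x
  rw [ZG_assoc h, ZG_sigma h]
  have e1 : θ.symm (θ t) = t := θ.symm_apply_apply t
  congr 2
  · rw [e1]
  · simp only [map_sub, map_neg, map_mul, ZG_sym h, e1, RingEquiv.symm_apply_apply]
    ring
  · simp only [map_sub, map_neg, map_mul, map_pow, ZG_sym h, e1, RingEquiv.symm_apply_apply]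
    ring
  · rw [e1]
    ring
  · rw [e1]
    ring

theorem G2_form (t u v w z y : k)
    (e : σ (A t * B u * P v * Q w * R z * S y) = A t * B u * P v * Q w * R z * S y) :
    A t * B u * P v * Q w * R z * S y = G2x θ A B P Q R S t v w := by
  rw [ZG_assoc h, ZG_sigma h, ← ZG_assoc h, ← ZG_assoc h] at e
  obtain ⟨e1, e2, e3, e4, e5, e6⟩ := G2_coord h _ _ _ _ _ _ _ _ _ _ _ _ e
  unfold G2x
  rw [e1] at e5 e6
  rw [← e2, ← e5, ← e6]
  congr 2
  · congr 1
    ring
  · ring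

theorem G2_mul (t v w t' v' w' : k) : G2x θ A B P Q R S t v w * G2x θ A B P Q R S t' v' w' =
    G2x θ A B P Q R S (t + t') (v + v' - t' * θ t) (w + w' - t' * v - t' ^ 2 * θ t) := by
  obtain ⟨z'', y'', he⟩ := G2_mul_form h t (θ t) v w (-θ v - t ^ 3 * θ t)
    (-θ w - t ^ 3 * θ t ^ 2) t' (θ t') v' w' (-θ v' - t' ^ 3 * θ t') (-θ w' - t' ^ 3 * θ t' ^ 2)
  have h1 : G2x θ A B P Q R S t v w * G2x θ A B P Q R S t' v' w' = _ := he
  rw [h1]
  apply G2_form h
  rw [← h1, map_mul, G2_fix h, G2_fix h]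

end

section
variable {k : Type*} [Field k] [CharP k 3] [Infinite k] (θ : k ≃+* k)
  (hθ : ∀ t, θ (θ t) = t ^ 3)

include hθ

private theorem ZG_exists : ∃ t, t * θ 1 - 1 * θ t ≠ 0 := by
  by_contra hne
  push Not at hne
  have h1 : ∀ t, θ t = t := by
    intro t
    have := hne t
    rw [map_one, mul_one, one_mul] at this
    exact (sub_eq_zero.mp this).symm
  have h2 : ∀ t : k, t ^ 3 = t := by
    intro t
    rw [← hθ, h1, h1]
  have h3 : (Polynomial.X ^ 3 - Polynomial.X : Polynomial k) = 0 := by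
    apply Polynomial.funext
    intro r
    simp [h2 r]
  have h4 : (Polynomial.X ^ 3 - Polynomial.X : Polynomial k).coeff 3 = 1 := by
    simp [Polynomial.coeff_X]
  rw [h3] at h4
  simp at h4

private theorem ZG_gen :
    AddSubgroup.closure {z : k | ∃ t t', z = t * θ t' - t' * θ t} = ⊤ := by
  have : Fact (Nat.Prime 3) := ⟨Nat.prime_three⟩
  apply norm_module 3 θ hθ
  · intro s v hv
    induction hv using AddSubgroup.closure_induction with
    | mem x hx =>
      obtain ⟨t, t', rfl⟩ := hx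
      apply AddSubgroup.subset_closure
      refine ⟨s * t, s * t', ?_⟩
      rw [map_mul, map_mul]
      ring
    | zero => rw [mul_zero]; exact zero_mem _
    | add x y _ _ hx hy => rw [mul_add]; exact add_mem hx hy
    | neg x _ hx => rw [mul_neg]; exact neg_mem hx
  · obtain ⟨t, ht⟩ := ZG_exists θ hθ
    exact ⟨_, AddSubgroup.subset_closure ⟨t, 1, rfl⟩, ht⟩

private theorem ZG_hom {K : Type*} [AddCommGroup K] (H : k → k → k → K)
    (hH : ∀ t v w t' v' w', H (t + t') (v + v' - t' * θ t) (w + w' - t' * v - t' ^ 2 * θ t) =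
      H t v w + H t' v' w') :
    (∀ t v w, H t v w = H t 0 0) ∧ ∀ a b, H (a + b) 0 0 = H a 0 0 + H b 0 0 := by
  have e1 : ∀ t v w v' w', H t (v + v') (w + w') = H t v w + H 0 v' w' := by
    intro t v w v' w'
    have := hH t v w 0 v' w'
    simpa using this
  have e2 : ∀ w, H 0 0 w = 0 := by
    intro w
    have x1 := hH 0 (-w) 0 1 0 0
    have x2 := hH 1 0 0 0 (-w) 0
    simp only [map_zero, mul_zero, zero_add, add_zero, sub_zero, one_mul, zero_mul, mul_zero,
      zero_sub, neg_neg, ne_eq, OfNat.ofNat_ne_zero, not_false_eq_true, zero_pow] at x1 x2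
    have x3 := e1 1 (-w) 0 0 w
    rw [add_zero, zero_add] at x3
    rw [x3, x2, add_comm (H 0 (-w) 0)] at x1
    exact left_eq_add.mp x1.symm
  have e3 : ∀ t v w, H t v w = H t 0 0 + H 0 v 0 := by
    intro t v w
    have x1 := e1 t 0 0 v w
    have x2 := e1 0 v 0 0 w
    rw [zero_add, zero_add] at x1
    rw [add_zero, zero_add] at x2
    rw [x1, x2, e2, add_zero]
  have e4 : ∀ a b, H 0 (a + b) 0 = H 0 a 0 + H 0 b 0 := by
    intro a b
    have := e1 0 a 0 b 0
    rwa [add_zero] at this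
  -- m as an additive map
  have hm : ∀ v, H 0 v 0 = 0 := by
    let m : k →+ K := AddMonoidHom.mk' (fun v => H 0 v 0) e4
    have hker : (m.ker : AddSubgroup k) = ⊤ := by
      rw [eq_top_iff, ← ZG_gen θ hθ, AddSubgroup.closure_le]
      rintro z ⟨t, t', rfl⟩
      rw [SetLike.mem_coe, AddMonoidHom.mem_ker]
      have x1 := hH t 0 0 t' 0 0
      have x2 := hH t' 0 0 t 0 0
      rw [e3] at x1 x2
      rw [add_comm t' t] at x2
      have x3 : m (0 + 0 - t' * θ t) = m (0 + 0 - t * θ t') := by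
        have : H (t + t') 0 0 + m (0 + 0 - t' * θ t) = H (t + t') 0 0 + m (0 + 0 - t * θ t') := by
          rw [show m (0 + 0 - t' * θ t) = H 0 (0 + 0 - t' * θ t) 0 from rfl,
            show m (0 + 0 - t * θ t') = H 0 (0 + 0 - t * θ t') 0 from rfl, x1, x2, add_comm]
        exact add_left_cancel this
      rw [map_sub, sub_eq_zero]
      simp only [add_zero, zero_sub, map_neg, neg_inj] at x3
      exact x3.symm
    intro v
    have : v ∈ m.ker := by rw [hker]; trivial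
    exact this
  refine ⟨fun t v w => by rw [e3, hm, add_zero], fun a b => ?_⟩
  have x1 := hH a 0 0 b 0 0
  rw [e3, hm, add_zero] at x1
  exact x1

end

section
variable {k : Type*} [Field k] {θ : k ≃+* k} {G : Type*} [Group G] {A B P Q R S : k → G}
  {σ : G →* G} (h : G2s θ A B P Q R S σ)

include h

theorem G2_ker [Infinite k] (X : Subgroup G)
    (hX : ∀ x, x ∈ X ↔ ∃ t v w, x = G2x θ A B P Q R S t v w)
    (v w : k) : G2x θ A B P Q R S 0 v w ∈ ⁅X, X⁆ := by
  have : CharP k 3 := h.chr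
  have hθ := h.hθ
  have hmul := G2_mul h
  have hone : G2x θ A B P Q R S 0 0 0 = 1 := by
    unfold G2x
    simp [ZG_zero h.hA, ZG_zero h.hB, ZG_zero h.hP, ZG_zero h.hQ, ZG_zero h.hR, ZG_zero h.hS]
  set F := G2x θ A B P Q R S with hF
  have hmem : ∀ t v w, F t v w ∈ X := fun t v w => (hX _).mpr ⟨t, v, w, rfl⟩
  have hcomm : ∀ x ∈ X, ∀ y ∈ X, (y * x)⁻¹ * (x * y) ∈ ⁅X, X⁆ := by
    intro x hx y hy
    have := Subgroup.commutator_mem_commutator (inv_mem hx) (inv_mem hy)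
    rw [commutatorElement_def] at this
    convert this using 1
    group
  -- products with the kernel
  have hk : ∀ t v w v' w', F t (v + v') (w + w') = F t v w * F 0 v' w' := by
    intro t v w v' w'
    rw [hmul]
    simp
  have h0 : ∀ w, F 0 0 w ∈ ⁅X, X⁆ := by
    intro w
    have x1 := hcomm (F 0 (-w) 0) (hmem _ _ _) (F 1 0 0) (hmem _ _ _)
    rw [hmul, hmul] at x1
    have e1 : F (1 + 0) (0 + -w - 0 * θ 1) (0 + 0 - 0 * 0 - 0 ^ 2 * θ 1) = F 1 (-w) 0 := by
      simp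
    have e2 : F (0 + 1) (-w + 0 - 1 * θ 0) (0 + 0 - 1 * -w - 1 ^ 2 * θ 0) = F 1 (-w) w := by
      simp
    have e3 : F 1 (-w) w = F 1 (-w) 0 * F 0 0 w := by
      rw [← hk]
      simp
    rw [e1, e2, e3, inv_mul_cancel_left] at x1
    exact x1
  have hadd : ∀ a b, F 0 (a + b) 0 = F 0 a 0 * F 0 b 0 := by
    intro a b
    have := hk 0 a 0 b 0
    rwa [add_zero] at this
  let M : AddSubgroup k :=
    { carrier := {v | F 0 v 0 ∈ ⁅X, X⁆}
      add_mem' := by
        intro a b ha hb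
        rw [Set.mem_setOf_eq] at ha hb ⊢
        rw [hadd]
        exact mul_mem ha hb
      zero_mem' := by
        rw [Set.mem_setOf_eq, hone]
        exact one_mem _
      neg_mem' := by
        intro a ha
        rw [Set.mem_setOf_eq] at ha ⊢
        have : F 0 (-a) 0 = (F 0 a 0)⁻¹ := by
          rw [eq_inv_iff_mul_eq_one, ← hadd, neg_add_cancel, hone]
        rw [this]
        exact inv_mem ha }
  have hM : M = ⊤ := by
    rw [eq_top_iff, ← ZG_gen θ hθ, AddSubgroup.closure_le]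
    rintro z ⟨t, t', rfl⟩
    change F 0 (t * θ t' - t' * θ t) 0 ∈ ⁅X, X⁆
    have x1 := hcomm (F t 0 0) (hmem _ _ _) (F t' 0 0) (hmem _ _ _)
    rw [hmul, hmul, add_comm t' t] at x1
    have e3 : F (t + t') (0 + 0 - t' * θ t) (0 + 0 - t' * 0 - t' ^ 2 * θ t) =
        F (t + t') (0 + 0 - t * θ t') (0 + 0 - t * 0 - t ^ 2 * θ t') *
          F 0 (t * θ t' - t' * θ t) (t ^ 2 * θ t' - t' ^ 2 * θ t) := by
      rw [← hk]
      congr 1 <;> ring
    rw [e3, inv_mul_cancel_left] at x1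
    have e4 := hk 0 (t * θ t' - t' * θ t) 0 0 (t ^ 2 * θ t' - t' ^ 2 * θ t)
    rw [add_zero, zero_add] at e4
    rw [e4] at x1
    exact (Subgroup.mul_mem_cancel_right _ (h0 _)).mp x1
  have hv : F 0 v 0 ∈ ⁅X, X⁆ := by
    have : v ∈ M := by rw [hM]; trivial
    exact this
  have e5 := hk 0 v 0 0 w
  rw [add_zero, zero_add] at e5
  rw [e5]
  exact mul_mem hv (h0 w)

end

theorem G2_rigid {k K : Type*} [Field k] [Field K] [Infinite k] [CharP k 3] [CharP K 3]
    (θ : k ≃+* k) (θ' : K ≃+* K)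
    (hθ : ∀ t, θ (θ t) = t ^ 3) (hθ' : ∀ t, θ' (θ' t) = t ^ 3) (F1 F2 F3 : k → k → k → K)
    (h1 : ∀ t v w t' v' w', F1 (t + t') (v + v' - t' * θ t) (w + w' - t' * v - t' ^ 2 * θ t) =
      F1 t v w + F1 t' v' w')
    (h2 : ∀ t v w t' v' w', F2 (t + t') (v + v' - t' * θ t) (w + w' - t' * v - t' ^ 2 * θ t) =
      F2 t v w + F2 t' v' w' - F1 t' v' w' * θ' (F1 t v w))
    (h3 : ∀ t v w t' v' w', F3 (t + t') (v + v' - t' * θ t) (w + w' - t' * v - t' ^ 2 * θ t) =
      F3 t v w + F3 t' v' w' - F1 t' v' w' * F2 t v w - F1 t' v' w' ^ 2 * θ' (F1 t v w))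
    (hinj : ∀ t v w, F1 t v w = 0 → F2 t v w = 0 → F3 t v w = 0 → t = 0 ∧ v = 0 ∧ w = 0)
    (hT : ∀ s, s ≠ 0 → ∃ κ', κ' ≠ 0 ∧ ∀ t v w,
      F1 (s ^ 2 * t) (s ^ 2 * θ (s ^ 2) * v) (s ^ 4 * θ (s ^ 2) * w) = κ' * F1 t v w ∧
      F2 (s ^ 2 * t) (s ^ 2 * θ (s ^ 2) * v) (s ^ 4 * θ (s ^ 2) * w) = κ' * θ' κ' * F2 t v w ∧
      F3 (s ^ 2 * t) (s ^ 2 * θ (s ^ 2) * v) (s ^ 4 * θ (s ^ 2) * w) =
        κ' ^ 2 * θ' κ' * F3 t v w) :
    ∃ (c : K) (φ : k →+* K), c ≠ 0 ∧ (∀ t, φ (θ t) = θ' (φ t)) ∧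
      ∀ t v w, F1 t v w = c * φ t ∧ F2 t v w = c * θ' c * φ v ∧
        F3 t v w = c ^ 2 * θ' c * φ w := by
  have : Fact (Nat.Prime 3) := ⟨Nat.prime_three⟩
  obtain ⟨f1, fadd⟩ := ZG_hom θ hθ F1 h1
  have f0 : F1 0 0 0 = 0 := by
    have := fadd 0 0
    rw [add_zero] at this
    exact left_eq_add.mp this
  -- f is not zero
  have fne : ∃ t, F1 t 0 0 ≠ 0 := by
    by_contra hne
    push Not at hne
    have g1 : ∀ t v w, F1 t v w = 0 := fun t v w => by rw [f1, hne]
    obtain ⟨g2, -⟩ := ZG_hom θ hθ F2 (fun t v w t' v' w' => by rw [h2, g1, g1]; simp)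
    obtain ⟨g3, -⟩ := ZG_hom θ hθ F3 (fun t v w t' v' w' => by rw [h3, g1, g1]; simp)
    have g20 : F2 0 0 0 = 0 := by
      have := h2 0 0 0 0 0 0
      simp only [add_zero, zero_mul, mul_zero, sub_zero, map_zero, g1] at this
      exact left_eq_add.mp this
    have g30 : F3 0 0 0 = 0 := by
      have := h3 0 0 0 0 0 0
      simp only [add_zero, zero_mul, mul_zero, sub_zero, map_zero, g1, ne_eq, OfNat.ofNat_ne_zero,
        not_false_eq_true, zero_pow] at this
      exact left_eq_add.mp this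
    have := hinj 0 0 1 (g1 _ _ _) (by rw [g2, g20]) (by rw [g3, g30])
    exact one_ne_zero this.2.2
  obtain ⟨φ, fone, fmul, ffor⟩ := semi_sq (fun t => F1 t 0 0) fadd fne (by
    intro s hs
    obtain ⟨κ, -, hκ⟩ := hT s hs
    refine ⟨κ, fun t => ?_⟩
    have := (hκ t 0 0).1
    simpa using this)
  set c := F1 1 0 0 with hc
  have F1' : ∀ t v w, F1 t v w = c * φ t := fun t v w => by rw [f1, ffor]
  -- the torus
  have hT2 : ∀ s, s ≠ 0 → ∀ t v w,
      F2 (s ^ 2 * t) (s ^ 2 * θ (s ^ 2) * v) (s ^ 4 * θ (s ^ 2) * w) =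
        φ (s ^ 2) * θ' (φ (s ^ 2)) * F2 t v w ∧
      F3 (s ^ 2 * t) (s ^ 2 * θ (s ^ 2) * v) (s ^ 4 * θ (s ^ 2) * w) =
        φ (s ^ 2) ^ 2 * θ' (φ (s ^ 2)) * F3 t v w := by
    intro s hs t v w
    obtain ⟨κ, -, hκ⟩ := hT s hs
    have e1 : κ = φ (s ^ 2) := by
      have := (hκ 1 0 0).1
      rw [F1', F1', map_one, mul_one, mul_one, mul_comm κ] at this
      exact (mul_left_cancel₀ fone this).symm
    rw [← e1]
    exact ⟨(hκ t v w).2.1, (hκ t v w).2.2⟩
  -- second layer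
  have k2 : ∀ t v w v' w', F2 t (v + v') (w + w') = F2 t v w + F2 0 v' w' := by
    intro t v w v' w'
    have := h2 t v w 0 v' w'
    simpa [F1'] using this
  have g20 : ∀ w, F2 0 0 w = 0 := by
    intro w
    have x1 := h2 0 (-w) 0 1 0 0
    have x2 := h2 1 0 0 0 (-w) 0
    have x3 := k2 1 (-w) 0 0 w
    simp only [map_zero, mul_zero, zero_add, add_zero, sub_zero, one_mul, zero_mul, F1',
      zero_sub, neg_neg, ne_eq, OfNat.ofNat_ne_zero, not_false_eq_true, zero_pow] at x1 x2 x3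
    rw [x3, x2] at x1
    linear_combination x1
  set g : k → K := fun v => F2 0 v 0 with hg
  have gadd : ∀ a b, g (a + b) = g a + g b := by
    intro a b
    have := k2 0 a 0 b 0
    rwa [add_zero] at this
  have F2' : ∀ t v w, F2 t v w = F2 t 0 0 + g v := by
    intro t v w
    have x1 := k2 t 0 0 v w
    have x2 := k2 0 v 0 0 w
    rw [zero_add, zero_add] at x1
    rw [add_zero, zero_add, g20] at x2
    rw [x1, x2, add_zero]
  have gneg : ∀ a, g (-a) = - g a := by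
    intro a
    have x1 := gadd (-a) a
    rw [neg_add_cancel] at x1
    have x2 : g 0 = 0 := g20 0
    rw [x2] at x1
    linear_combination -x1
  -- g on the generators
  have ggen : ∀ t t', g (t * θ t' - t' * θ t) =
      c * φ t * θ' (c * φ t') - c * φ t' * θ' (c * φ t) := by
    intro t t'
    have x1 := h2 t 0 0 t' 0 0
    have x2 := h2 t' 0 0 t 0 0
    rw [F2', F1', F1'] at x1 x2
    rw [add_comm t' t] at x2
    have x3 : g (0 + 0 - t' * θ t) = - g (t' * θ t) := by rw [← gneg]; congr 1; ring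
    have x4 : g (0 + 0 - t * θ t') = - g (t * θ t') := by rw [← gneg]; congr 1; ring
    rw [x3] at x1
    rw [x4] at x2
    rw [sub_eq_add_neg, gadd, gneg]
    linear_combination x1 - x2
  have gscale : ∀ s z, g (s * θ s * z) = φ s * θ' (φ s) * g z := by
    intro s z
    have hz : z ∈ AddSubgroup.closure {z : k | ∃ t t', z = t * θ t' - t' * θ t} := by
      rw [ZG_gen θ hθ]; trivial
    induction hz using AddSubgroup.closure_induction with
    | mem x hx =>
      obtain ⟨t, t', rfl⟩ := hx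
      have e1 : s * θ s * (t * θ t' - t' * θ t) =
          (s * t) * θ (s * t') - (s * t') * θ (s * t) := by
        rw [map_mul, map_mul]; ring
      rw [e1, ggen, ggen]
      simp only [map_mul]
      ring
    | zero =>
      rw [mul_zero]
      have : g 0 = 0 := g20 0
      rw [this, mul_zero]
    | add x y _ _ hx hy => rw [mul_add, gadd, gadd, hx, hy]; ring
    | neg x _ hx => rw [mul_neg, gneg, gneg, hx]; ring
  have gne : ∃ t, g t ≠ 0 := by
    by_contra hne
    push Not at hne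
    have k3 : F3 1 (-1) 1 = F3 1 (-1) 0 + F3 0 0 1 := by
      have := h3 1 (-1) 0 0 0 1
      simpa [F1'] using this
    have x1 := h3 0 (-1) 0 1 0 0
    have x2 := h3 1 0 0 0 (-1) 0
    have x3 : F2 0 (-1) 0 = 0 := hne (-1)
    simp only [map_zero, mul_zero, zero_add, add_zero, sub_zero, one_mul, zero_mul, F1', x3,
      zero_sub, neg_neg, ne_eq, OfNat.ofNat_ne_zero, not_false_eq_true, zero_pow] at x1 x2
    have x4 : F3 0 0 1 = 0 := by
      rw [k3, x2] at x1
      linear_combination x1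
    have := hinj 0 0 1 (by rw [F1']; simp) (g20 1) x4
    exact one_ne_zero this.2.2
  obtain ⟨hφ, g1, gfor⟩ := norm_rigid 3 θ hθ θ' hθ' φ g gadd gne gscale
  have hg1 : g 1 = c * θ' c := by
    obtain ⟨t, ht⟩ := ZG_exists θ hθ
    have x1 := ggen t 1
    rw [gfor] at x1
    have x2 : φ (t * θ 1 - 1 * θ t) ≠ 0 := by
      rw [Ne, map_eq_zero]; exact ht
    apply mul_right_cancel₀ x2
    rw [x1]
    simp only [map_mul, map_sub, hφ, map_one]
    ring
  have gfor' : ∀ v, g v = c * θ' c * φ v := fun v => by rw [gfor, hg1]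
  -- the t-part of F2
  have z2 : ∀ t, F2 t 0 0 = 0 := by
    apply zeta3a θ hθ φ
    · intro a b
      have x1 := h2 a 0 0 b 0 0
      rw [F2', F1', F1', gfor'] at x1
      simp only [map_sub, map_add, map_mul, map_zero, hφ] at x1
      linear_combination x1
    · intro s t hs
      have x1 := (hT2 s hs t 0 0).1
      rw [mul_zero, mul_zero] at x1
      rw [x1, map_mul, hφ]
  have F2'' : ∀ t v w, F2 t v w = c * θ' c * φ v := fun t v w => by
    rw [F2', z2, gfor', zero_add]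
  -- third layer
  obtain ⟨d1, dadd⟩ := ZG_hom θ hθ (fun t v w => F3 t v w - c ^ 2 * θ' c * φ w) (by
    intro t v w t' v' w'
    rw [h3, F1', F1', F2'']
    simp only [map_sub, map_add, map_mul, map_pow, hφ]
    ring)
  simp only [map_zero, mul_zero, sub_zero] at d1 dadd
  have z3 : ∀ t, F3 t 0 0 = 0 := by
    apply zeta3b θ hθ φ
    · exact dadd
    · intro s t hs
      have x1 := (hT2 s hs t 0 0).2
      rw [mul_zero, mul_zero] at x1
      rw [x1, map_mul, hφ]
      simp only [map_pow]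
      ring
  refine ⟨c, φ, fone, hφ, fun t v w => ⟨F1' t v w, F2'' t v w, ?_⟩⟩
  have := d1 t v w
  rw [z3] at this
  exact sub_eq_zero.mp this

end Pool.Agent.H86.UM
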