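import Pool.Agent.H86.UM.ZJ1
import Pool.Agent.H86.UM.ZG
import Pool.Agent.H86.UM.ZTs

/-!
# Project UM, Suzuki-Ree groups, module ZJ3: root groups of type `²G₂` (`D₄`)

`D₄` with center `1`, leaves `0, 2, 3`, `ρ = (0 2 3)`. Positive roots `β = (a, c, b, d)` (coordinates at the nodes
`0, 1, 2, 3`): `ip β β = 2` reads `(2a - c)^2 + (2b - c)^2 + (2d - c)^2 + c^2 = 4`, with nonnegative
coordinates: `c = 0`: one of the leaves; `c = 1`: `a, b, d ∈ {0, 1}` arbitrary; `c = 2`: `a = b = d = 1`.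
`βP = (1,1,0,0)`, `βQ = (1,1,1,0)`, `βR = (1,1,1,1)`, `βS = (1,2,1,1)`; the orbits of `βP`, `βQ` have three
elements, `βR, βS` are fixed. Everything is supported on `JJ 0`.
Commutator formulas. `[x, y] = x y x⁻¹ y⁻¹`. With the signs `eps` of Defs.lean and `sg` one has (checked by
computer, for all fields):
`[yg α₀ t, yg α₁ u] = yg βP (t u) * yg βQ (-t² u) * yg βR (t³ u) * yg βS (2 t³ u²)`,
`[yg α₀ t, yg βP v] = yg βQ (-2 t v) * yg βR (3 t² v) * yg βS (-3 t v²)`,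
`[yg α₀ t, yg βQ w] = yg βR (-3 t w)`, `[yg α₁ u, yg βR z] = yg βS (u z)`, `[yg βP v, yg βQ w] = yg βS (3 v w)`,
and the other pairs commute; so in characteristic `3` this is `G2s` with all signs `+`.
Proof: `yg α₀ t = x₀(t) x₂(t) x₃(t)`, `yg α₁ u = x₁(u)`,
`yg βP v = x_(1100)(v) x_(0110)(-v) x_(0101)(-v)` (signs: `sg (1100) = -1`, `sg (0110) = 1`,
`sg (0101) = -1`), `yg βQ w = x_(1110)(w) x_(0111)(-w) x_(1101)(w)` (`sg (1110) = -1`,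
`sg (0111) = -1`, `sg (1101) = 1`). Use the commutator relations of the ambient group (`xg_comm`,
`xg_comm_add`; the values of `eps` by `decide`); conjugate with `x₃(t)`, `x₂(t)`, `x₀(t)` one after the other and
collect. Alternatively compute with `(C.adS k)` in the abstract. `σP`, `σQ`: `exists_tau`: `τ βP` is a fixed root in
`RJ` so `α₁`, `βR` or `βS`; precisely: `t0 = (1, 0, 1, 1)`, `TT v = (v 1, 3 v 0, v 1, v 1)`;
`osum βP = (1,3,1,1)`, `TT (osum βP) = (3,3,3,3)`, so `τ βP = (1,1,1,1) = βR` (`IsTau.short`);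
`osum βQ = (2,3,2,2)`, `TT (osum βQ) = (3,6,3,3)`, `τ βQ = (1,2,1,1) = βS`.
And `osum (τ βR) = TT βR = (1, 3, 1, 1)`, `osum (τ βS) = TT βS = (2,3,2,2)`, so
`τ βR` is in the cycle of `βP`, `τ βS` in the cycle of `βQ` (`osum_inj`); the signs of `σP`: the same sign `e` for
`P → R` and `R → P` because `σ (σ x) = x` (`sig_sig`).
-/

set_option autoImplicit false
set_option linter.unusedSimpArgs false
open Matrix

namespace Pool.Agent.H86.UM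

open Pool.Agent.H75.UL

/-- the cycles of positive roots of type `G₂` -/
structure G2r (βP βQ βR βS : cD4.Root) : Prop where
  hP : βP.1 = ![1, 1, 0, 0]
  hQ : βQ.1 = ![1, 1, 1, 0]
  hR : βR.1 = ![1, 1, 1, 1]
  hS : βS.1 = ![1, 2, 1, 1]
  rP : dD4.r βP ≠ βP
  rQ : dD4.r βQ ≠ βQ
  rR : dD4.r βR = βR
  rS : dD4.r βS = βS
  mem : ∀ β : cD4.Root, cD4.Pos β ↔ dD4.rE.SameCycle (cD4.simple 0) β ∨ β = cD4.simple 1 ∨
    dD4.rE.SameCycle βP β ∨ dD4.rE.SameCycle βQ β ∨ β = βR ∨ β = βS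

section abs

private theorem ZJ3_rl {H : Type*} [Group H] {x y : H} (h : x * y = y * x) (z : H) : x * (y * z) = y * (x * z) := by
  rw [← mul_assoc, h, mul_assoc]

private theorem ZJ3_rn {H : Type*} [Group H] {x y c : H} (h : x * y = c * (y * x)) (z : H) :
    x * (y * z) = c * (y * (x * z)) := by
  rw [← mul_assoc, h]; simp only [mul_assoc]

private theorem ZJ3_ra {H : Type*} [Group H] {x y c : H} (h : x * y = c) (z : H) :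
    x * (y * z) = c * z := by
  rw [← mul_assoc, h]

/-- the 12 root elements: 0,1,2 = P0,P2,P3; 3,4,5 = Q02,Q23,Q03; 6 = R; 7 = S; 8 = B; 9,10,11 = A0,A2,A3 -/
private structure ZJ3Sys {k H : Type*} [Field k] [Group H] (P0 P2 P3 Q02 Q23 Q03 R S B A0 A2 A3 : k → H) : Prop where
  aP0 : ∀ s t, P0 s * P0 t = P0 (s + t)
  aP2 : ∀ s t, P2 s * P2 t = P2 (s + t)
  aP3 : ∀ s t, P3 s * P3 t = P3 (s + t)
  aQ02 : ∀ s t, Q02 s * Q02 t = Q02 (s + t)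
  aQ23 : ∀ s t, Q23 s * Q23 t = Q23 (s + t)
  aQ03 : ∀ s t, Q03 s * Q03 t = Q03 (s + t)
  aR : ∀ s t, R s * R t = R (s + t)
  aS : ∀ s t, S s * S t = S (s + t)
  -- noncommuting
  c1 : ∀ t u, A0 t * B u = P0 (t * u) * (B u * A0 t)
  c2 : ∀ t u, A2 t * B u = P2 (-(t * u)) * (B u * A2 t)
  c3 : ∀ t u, A3 t * B u = P3 (-(t * u)) * (B u * A3 t)
  c4 : ∀ t u, A0 t * P2 u = Q02 (t * u) * (P2 u * A0 t)
  c5 : ∀ t u, A0 t * P3 u = Q03 (t * u) * (P3 u * A0 t)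
  c6 : ∀ t u, A2 t * P0 u = Q02 (-(t * u)) * (P0 u * A2 t)
  c7 : ∀ t u, A2 t * P3 u = Q23 (-(t * u)) * (P3 u * A2 t)
  c8 : ∀ t u, A3 t * P0 u = Q03 (-(t * u)) * (P0 u * A3 t)
  c9 : ∀ t u, A3 t * P2 u = Q23 (-(t * u)) * (P2 u * A3 t)
  c10 : ∀ t u, A0 t * Q23 u = R (t * u) * (Q23 u * A0 t)
  c11 : ∀ t u, A2 t * Q03 u = R (-(t * u)) * (Q03 u * A2 t)
  c12 : ∀ t u, A3 t * Q02 u = R (-(t * u)) * (Q02 u * A3 t)
  c13 : ∀ t u, B t * R u = S (t * u) * (R u * B t)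
  c14 : ∀ t u, Q23 t * P0 u = S (t * u) * (P0 u * Q23 t)
  c15 : ∀ t u, Q03 t * P2 u = S (t * u) * (P2 u * Q03 t)
  c16 : ∀ t u, Q02 t * P3 u = S (t * u) * (P3 u * Q02 t)
  -- commuting
  dA2A0 : ∀ s t, A2 s * A0 t = A0 t * A2 s
  dA3A0 : ∀ s t, A3 s * A0 t = A0 t * A3 s
  dA3A2 : ∀ s t, A3 s * A2 t = A2 t * A3 s
  dA0P0 : ∀ s t, A0 s * P0 t = P0 t * A0 s
  dA2P2 : ∀ s t, A2 s * P2 t = P2 t * A2 s
  dA3P3 : ∀ s t, A3 s * P3 t = P3 t * A3 s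
  dA0Q02 : ∀ s t, A0 s * Q02 t = Q02 t * A0 s
  dA0Q03 : ∀ s t, A0 s * Q03 t = Q03 t * A0 s
  dA2Q02 : ∀ s t, A2 s * Q02 t = Q02 t * A2 s
  dA2Q23 : ∀ s t, A2 s * Q23 t = Q23 t * A2 s
  dA3Q23 : ∀ s t, A3 s * Q23 t = Q23 t * A3 s
  dA3Q03 : ∀ s t, A3 s * Q03 t = Q03 t * A3 s
  dA0R : ∀ s t, A0 s * R t = R t * A0 s
  dA2R : ∀ s t, A2 s * R t = R t * A2 s
  dA3R : ∀ s t, A3 s * R t = R t * A3 s
  dA0S : ∀ s t, A0 s * S t = S t * A0 s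
  dA2S : ∀ s t, A2 s * S t = S t * A2 s
  dA3S : ∀ s t, A3 s * S t = S t * A3 s
  dBP0 : ∀ s t, B s * P0 t = P0 t * B s
  dBP2 : ∀ s t, B s * P2 t = P2 t * B s
  dBP3 : ∀ s t, B s * P3 t = P3 t * B s
  dBQ02 : ∀ s t, B s * Q02 t = Q02 t * B s
  dBQ23 : ∀ s t, B s * Q23 t = Q23 t * B s
  dBQ03 : ∀ s t, B s * Q03 t = Q03 t * B s
  dBS : ∀ s t, B s * S t = S t * B s
  dP2P0 : ∀ s t, P2 s * P0 t = P0 t * P2 s
  dP3P0 : ∀ s t, P3 s * P0 t = P0 t * P3 s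
  dP3P2 : ∀ s t, P3 s * P2 t = P2 t * P3 s
  dQ02P0 : ∀ s t, Q02 s * P0 t = P0 t * Q02 s
  dQ02P2 : ∀ s t, Q02 s * P2 t = P2 t * Q02 s
  dQ23P2 : ∀ s t, Q23 s * P2 t = P2 t * Q23 s
  dQ23P3 : ∀ s t, Q23 s * P3 t = P3 t * Q23 s
  dQ03P0 : ∀ s t, Q03 s * P0 t = P0 t * Q03 s
  dQ03P3 : ∀ s t, Q03 s * P3 t = P3 t * Q03 s
  dRP0 : ∀ s t, R s * P0 t = P0 t * R s
  dRP2 : ∀ s t, R s * P2 t = P2 t * R s
  dRP3 : ∀ s t, R s * P3 t = P3 t * R s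
  dSP0 : ∀ s t, S s * P0 t = P0 t * S s
  dSP2 : ∀ s t, S s * P2 t = P2 t * S s
  dSP3 : ∀ s t, S s * P3 t = P3 t * S s
  dQ23Q02 : ∀ s t, Q23 s * Q02 t = Q02 t * Q23 s
  dQ03Q02 : ∀ s t, Q03 s * Q02 t = Q02 t * Q03 s
  dQ03Q23 : ∀ s t, Q03 s * Q23 t = Q23 t * Q03 s
  dRQ02 : ∀ s t, R s * Q02 t = Q02 t * R s
  dRQ23 : ∀ s t, R s * Q23 t = Q23 t * R s
  dRQ03 : ∀ s t, R s * Q03 t = Q03 t * R s
  dSQ02 : ∀ s t, S s * Q02 t = Q02 t * S s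
  dSQ23 : ∀ s t, S s * Q23 t = Q23 t * S s
  dSQ03 : ∀ s t, S s * Q03 t = Q03 t * S s
  dSR : ∀ s t, S s * R t = R t * S s

section
variable {k H : Type*} [Field k] [Group H] {P0 P2 P3 Q02 Q23 Q03 R S B A0 A2 A3 : k → H}
  (h : ZJ3Sys P0 P2 P3 Q02 Q23 Q03 R S B A0 A2 A3)
include h

private theorem ZJ3_all (h3 : (3 : k) = 0) (t u : k) :
    A0 t * (A2 t * A3 t) * B u =
      P0 (t * u) * (P2 (-(t * u)) * P3 (-(t * u))) *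
      (Q02 (-(t ^ 2 * u)) * (Q23 (-(-(t ^ 2 * u))) * Q03 (-(t ^ 2 * u)))) *
      R (t ^ 3 * u) * S (-(t ^ 3 * u ^ 2)) * (B u * (A0 t * (A2 t * A3 t))) ∧
    A0 t * (A2 t * A3 t) * (P0 u * (P2 (-u) * P3 (-u))) =
      (Q02 (t * u) * (Q23 (-(t * u)) * Q03 (t * u))) * ((P0 u * (P2 (-u) * P3 (-u))) *
      (A0 t * (A2 t * A3 t))) ∧
    B t * R u = S (t * u) * (R u * B t) ∧
    A0 t * (A2 t * A3 t) * (Q02 u * (Q23 (-u) * Q03 u)) = (Q02 u * (Q23 (-u) * Q03 u)) *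
      (A0 t * (A2 t * A3 t)) ∧
    (P0 t * (P2 (-t) * P3 (-t))) * (Q02 u * (Q23 (-u) * Q03 u)) = (Q02 u * (Q23 (-u) * Q03 u)) *
      (P0 t * (P2 (-t) * P3 (-t))) := by
  have R0 : R 0 = 1 := by
    have := h.aR 0 0
    rwa [add_zero, mul_eq_left] at this
  have S0 : S 0 = 1 := by
    have := h.aS 0 0
    rwa [add_zero, mul_eq_left] at this
  refine ⟨?_, ?_, h.c13 _ _, ?_, ?_⟩
  · simp only [mul_assoc, h.aP0, h.aP2, h.aP3, h.aQ02, h.aQ23, h.aQ03, h.aR, h.aS,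
      ZJ3_ra (h.aP0 _ _), ZJ3_ra (h.aP2 _ _), ZJ3_ra (h.aP3 _ _), ZJ3_ra (h.aQ02 _ _), ZJ3_ra (h.aQ23 _ _), ZJ3_ra (h.aQ03 _ _),
      ZJ3_ra (h.aR _ _), ZJ3_ra (h.aS _ _),
      h.c1, h.c2, h.c3, h.c4, h.c5, h.c6, h.c7, h.c8, h.c9, h.c10, h.c11, h.c12, h.c13, h.c14, h.c15,
      h.c16,
      ZJ3_rn (h.c1 _ _), ZJ3_rn (h.c2 _ _), ZJ3_rn (h.c3 _ _), ZJ3_rn (h.c4 _ _), ZJ3_rn (h.c5 _ _), ZJ3_rn (h.c6 _ _),
      ZJ3_rn (h.c7 _ _), ZJ3_rn (h.c8 _ _), ZJ3_rn (h.c9 _ _), ZJ3_rn (h.c10 _ _), ZJ3_rn (h.c11 _ _), ZJ3_rn (h.c12 _ _),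
      ZJ3_rn (h.c13 _ _), ZJ3_rn (h.c14 _ _), ZJ3_rn (h.c15 _ _), ZJ3_rn (h.c16 _ _),
      h.dA2A0, h.dA3A0, h.dA3A2, h.dA0P0, h.dA2P2, h.dA3P3, h.dA0Q02, h.dA0Q03, h.dA2Q02, h.dA2Q23,
      h.dA3Q23, h.dA3Q03, h.dA0R, h.dA2R, h.dA3R, h.dA0S, h.dA2S, h.dA3S,
      h.dBP0, h.dBP2, h.dBP3, h.dBQ02, h.dBQ23, h.dBQ03, h.dBS,
      h.dP2P0, h.dP3P0, h.dP3P2, h.dQ02P0, h.dQ02P2, h.dQ23P2, h.dQ23P3, h.dQ03P0, h.dQ03P3,
      h.dRP0, h.dRP2, h.dRP3, h.dSP0, h.dSP2, h.dSP3, h.dQ23Q02, h.dQ03Q02, h.dQ03Q23,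
      h.dRQ02, h.dRQ23, h.dRQ03, h.dSQ02, h.dSQ23, h.dSQ03, h.dSR,
      ZJ3_rl (h.dA2A0 _ _), ZJ3_rl (h.dA3A0 _ _), ZJ3_rl (h.dA3A2 _ _), ZJ3_rl (h.dA0P0 _ _), ZJ3_rl (h.dA2P2 _ _),
      ZJ3_rl (h.dA3P3 _ _), ZJ3_rl (h.dA0Q02 _ _), ZJ3_rl (h.dA0Q03 _ _), ZJ3_rl (h.dA2Q02 _ _), ZJ3_rl (h.dA2Q23 _ _),
      ZJ3_rl (h.dA3Q23 _ _), ZJ3_rl (h.dA3Q03 _ _), ZJ3_rl (h.dA0R _ _), ZJ3_rl (h.dA2R _ _), ZJ3_rl (h.dA3R _ _),
      ZJ3_rl (h.dA0S _ _), ZJ3_rl (h.dA2S _ _), ZJ3_rl (h.dA3S _ _),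
      ZJ3_rl (h.dBP0 _ _), ZJ3_rl (h.dBP2 _ _), ZJ3_rl (h.dBP3 _ _), ZJ3_rl (h.dBQ02 _ _), ZJ3_rl (h.dBQ23 _ _),
      ZJ3_rl (h.dBQ03 _ _), ZJ3_rl (h.dBS _ _),
      ZJ3_rl (h.dP2P0 _ _), ZJ3_rl (h.dP3P0 _ _), ZJ3_rl (h.dP3P2 _ _), ZJ3_rl (h.dQ02P0 _ _), ZJ3_rl (h.dQ02P2 _ _),
      ZJ3_rl (h.dQ23P2 _ _), ZJ3_rl (h.dQ23P3 _ _), ZJ3_rl (h.dQ03P0 _ _), ZJ3_rl (h.dQ03P3 _ _),
      ZJ3_rl (h.dRP0 _ _), ZJ3_rl (h.dRP2 _ _), ZJ3_rl (h.dRP3 _ _), ZJ3_rl (h.dSP0 _ _), ZJ3_rl (h.dSP2 _ _),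
      ZJ3_rl (h.dSP3 _ _), ZJ3_rl (h.dQ23Q02 _ _), ZJ3_rl (h.dQ03Q02 _ _), ZJ3_rl (h.dQ03Q23 _ _),
      ZJ3_rl (h.dRQ02 _ _), ZJ3_rl (h.dRQ23 _ _), ZJ3_rl (h.dRQ03 _ _), ZJ3_rl (h.dSQ02 _ _), ZJ3_rl (h.dSQ23 _ _),
      ZJ3_rl (h.dSQ03 _ _), ZJ3_rl (h.dSR _ _)]
    have e1 : t * -(t * u) = -(t ^ 2 * u) := by ring
    have e2 : t * -(t * -(t * u)) = t ^ 3 * u := by ring
    have e3 : t * (-(t * u) * -(t * u)) + -(t * -(t * u)) * (t * u) = -(t ^ 3 * u ^ 2) := by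
      linear_combination (t ^ 3 * u ^ 2) * h3
    rw [e2, e3, e1]
  · simp only [mul_assoc, h.aP0, h.aP2, h.aP3, h.aQ02, h.aQ23, h.aQ03, h.aR, h.aS,
      ZJ3_ra (h.aP0 _ _), ZJ3_ra (h.aP2 _ _), ZJ3_ra (h.aP3 _ _), ZJ3_ra (h.aQ02 _ _), ZJ3_ra (h.aQ23 _ _), ZJ3_ra (h.aQ03 _ _),
      ZJ3_ra (h.aR _ _), ZJ3_ra (h.aS _ _),
      h.c1, h.c2, h.c3, h.c4, h.c5, h.c6, h.c7, h.c8, h.c9, h.c10, h.c11, h.c12, h.c13, h.c14, h.c15,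
      h.c16,
      ZJ3_rn (h.c1 _ _), ZJ3_rn (h.c2 _ _), ZJ3_rn (h.c3 _ _), ZJ3_rn (h.c4 _ _), ZJ3_rn (h.c5 _ _), ZJ3_rn (h.c6 _ _),
      ZJ3_rn (h.c7 _ _), ZJ3_rn (h.c8 _ _), ZJ3_rn (h.c9 _ _), ZJ3_rn (h.c10 _ _), ZJ3_rn (h.c11 _ _), ZJ3_rn (h.c12 _ _),
      ZJ3_rn (h.c13 _ _), ZJ3_rn (h.c14 _ _), ZJ3_rn (h.c15 _ _), ZJ3_rn (h.c16 _ _),
      h.dA2A0, h.dA3A0, h.dA3A2, h.dA0P0, h.dA2P2, h.dA3P3, h.dA0Q02, h.dA0Q03, h.dA2Q02, h.dA2Q23,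
      h.dA3Q23, h.dA3Q03, h.dA0R, h.dA2R, h.dA3R, h.dA0S, h.dA2S, h.dA3S,
      h.dBP0, h.dBP2, h.dBP3, h.dBQ02, h.dBQ23, h.dBQ03, h.dBS,
      h.dP2P0, h.dP3P0, h.dP3P2, h.dQ02P0, h.dQ02P2, h.dQ23P2, h.dQ23P3, h.dQ03P0, h.dQ03P3,
      h.dRP0, h.dRP2, h.dRP3, h.dSP0, h.dSP2, h.dSP3, h.dQ23Q02, h.dQ03Q02, h.dQ03Q23,
      h.dRQ02, h.dRQ23, h.dRQ03, h.dSQ02, h.dSQ23, h.dSQ03, h.dSR,
      ZJ3_rl (h.dA2A0 _ _), ZJ3_rl (h.dA3A0 _ _), ZJ3_rl (h.dA3A2 _ _), ZJ3_rl (h.dA0P0 _ _), ZJ3_rl (h.dA2P2 _ _),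
      ZJ3_rl (h.dA3P3 _ _), ZJ3_rl (h.dA0Q02 _ _), ZJ3_rl (h.dA0Q03 _ _), ZJ3_rl (h.dA2Q02 _ _), ZJ3_rl (h.dA2Q23 _ _),
      ZJ3_rl (h.dA3Q23 _ _), ZJ3_rl (h.dA3Q03 _ _), ZJ3_rl (h.dA0R _ _), ZJ3_rl (h.dA2R _ _), ZJ3_rl (h.dA3R _ _),
      ZJ3_rl (h.dA0S _ _), ZJ3_rl (h.dA2S _ _), ZJ3_rl (h.dA3S _ _),
      ZJ3_rl (h.dBP0 _ _), ZJ3_rl (h.dBP2 _ _), ZJ3_rl (h.dBP3 _ _), ZJ3_rl (h.dBQ02 _ _), ZJ3_rl (h.dBQ23 _ _),
      ZJ3_rl (h.dBQ03 _ _), ZJ3_rl (h.dBS _ _),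
      ZJ3_rl (h.dP2P0 _ _), ZJ3_rl (h.dP3P0 _ _), ZJ3_rl (h.dP3P2 _ _), ZJ3_rl (h.dQ02P0 _ _), ZJ3_rl (h.dQ02P2 _ _),
      ZJ3_rl (h.dQ23P2 _ _), ZJ3_rl (h.dQ23P3 _ _), ZJ3_rl (h.dQ03P0 _ _), ZJ3_rl (h.dQ03P3 _ _),
      ZJ3_rl (h.dRP0 _ _), ZJ3_rl (h.dRP2 _ _), ZJ3_rl (h.dRP3 _ _), ZJ3_rl (h.dSP0 _ _), ZJ3_rl (h.dSP2 _ _),
      ZJ3_rl (h.dSP3 _ _), ZJ3_rl (h.dQ23Q02 _ _), ZJ3_rl (h.dQ03Q02 _ _), ZJ3_rl (h.dQ03Q23 _ _),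
      ZJ3_rl (h.dRQ02 _ _), ZJ3_rl (h.dRQ23 _ _), ZJ3_rl (h.dRQ03 _ _), ZJ3_rl (h.dSQ02 _ _), ZJ3_rl (h.dSQ23 _ _),
      ZJ3_rl (h.dSQ03 _ _), ZJ3_rl (h.dSR _ _)]
    have e1 : t * -u + -(t * u) = t * u := by linear_combination -(t * u) * h3
    have e2 : -(t * -u) + -(t * -u) = -(t * u) := by linear_combination (t * u) * h3
    have e3 : t * -(t * u) + -(t * -(t * u)) = 0 := by ring
    have e4 : t * (-u * -u) + (-(t * u) * -u + -(t * u) * -u) = 0 := by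
      linear_combination (t * u ^ 2) * h3
    have e5 : t * (u * -u) + (-(t * u) * u + t * (u * -u)) = 0 := by
      linear_combination -(t * u ^ 2) * h3
    rw [e1, e2, e3, e4, e5, R0, S0, one_mul, one_mul]
  · simp only [mul_assoc, h.aP0, h.aP2, h.aP3, h.aQ02, h.aQ23, h.aQ03, h.aR, h.aS,
      ZJ3_ra (h.aP0 _ _), ZJ3_ra (h.aP2 _ _), ZJ3_ra (h.aP3 _ _), ZJ3_ra (h.aQ02 _ _), ZJ3_ra (h.aQ23 _ _), ZJ3_ra (h.aQ03 _ _),
      ZJ3_ra (h.aR _ _), ZJ3_ra (h.aS _ _),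
      h.c1, h.c2, h.c3, h.c4, h.c5, h.c6, h.c7, h.c8, h.c9, h.c10, h.c11, h.c12, h.c13, h.c14, h.c15,
      h.c16,
      ZJ3_rn (h.c1 _ _), ZJ3_rn (h.c2 _ _), ZJ3_rn (h.c3 _ _), ZJ3_rn (h.c4 _ _), ZJ3_rn (h.c5 _ _), ZJ3_rn (h.c6 _ _),
      ZJ3_rn (h.c7 _ _), ZJ3_rn (h.c8 _ _), ZJ3_rn (h.c9 _ _), ZJ3_rn (h.c10 _ _), ZJ3_rn (h.c11 _ _), ZJ3_rn (h.c12 _ _),
      ZJ3_rn (h.c13 _ _), ZJ3_rn (h.c14 _ _), ZJ3_rn (h.c15 _ _), ZJ3_rn (h.c16 _ _),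
      h.dA2A0, h.dA3A0, h.dA3A2, h.dA0P0, h.dA2P2, h.dA3P3, h.dA0Q02, h.dA0Q03, h.dA2Q02, h.dA2Q23,
      h.dA3Q23, h.dA3Q03, h.dA0R, h.dA2R, h.dA3R, h.dA0S, h.dA2S, h.dA3S,
      h.dBP0, h.dBP2, h.dBP3, h.dBQ02, h.dBQ23, h.dBQ03, h.dBS,
      h.dP2P0, h.dP3P0, h.dP3P2, h.dQ02P0, h.dQ02P2, h.dQ23P2, h.dQ23P3, h.dQ03P0, h.dQ03P3,
      h.dRP0, h.dRP2, h.dRP3, h.dSP0, h.dSP2, h.dSP3, h.dQ23Q02, h.dQ03Q02, h.dQ03Q23,
      h.dRQ02, h.dRQ23, h.dRQ03, h.dSQ02, h.dSQ23, h.dSQ03, h.dSR,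
      ZJ3_rl (h.dA2A0 _ _), ZJ3_rl (h.dA3A0 _ _), ZJ3_rl (h.dA3A2 _ _), ZJ3_rl (h.dA0P0 _ _), ZJ3_rl (h.dA2P2 _ _),
      ZJ3_rl (h.dA3P3 _ _), ZJ3_rl (h.dA0Q02 _ _), ZJ3_rl (h.dA0Q03 _ _), ZJ3_rl (h.dA2Q02 _ _), ZJ3_rl (h.dA2Q23 _ _),
      ZJ3_rl (h.dA3Q23 _ _), ZJ3_rl (h.dA3Q03 _ _), ZJ3_rl (h.dA0R _ _), ZJ3_rl (h.dA2R _ _), ZJ3_rl (h.dA3R _ _),
      ZJ3_rl (h.dA0S _ _), ZJ3_rl (h.dA2S _ _), ZJ3_rl (h.dA3S _ _),
      ZJ3_rl (h.dBP0 _ _), ZJ3_rl (h.dBP2 _ _), ZJ3_rl (h.dBP3 _ _), ZJ3_rl (h.dBQ02 _ _), ZJ3_rl (h.dBQ23 _ _),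
      ZJ3_rl (h.dBQ03 _ _), ZJ3_rl (h.dBS _ _),
      ZJ3_rl (h.dP2P0 _ _), ZJ3_rl (h.dP3P0 _ _), ZJ3_rl (h.dP3P2 _ _), ZJ3_rl (h.dQ02P0 _ _), ZJ3_rl (h.dQ02P2 _ _),
      ZJ3_rl (h.dQ23P2 _ _), ZJ3_rl (h.dQ23P3 _ _), ZJ3_rl (h.dQ03P0 _ _), ZJ3_rl (h.dQ03P3 _ _),
      ZJ3_rl (h.dRP0 _ _), ZJ3_rl (h.dRP2 _ _), ZJ3_rl (h.dRP3 _ _), ZJ3_rl (h.dSP0 _ _), ZJ3_rl (h.dSP2 _ _),
      ZJ3_rl (h.dSP3 _ _), ZJ3_rl (h.dQ23Q02 _ _), ZJ3_rl (h.dQ03Q02 _ _), ZJ3_rl (h.dQ03Q23 _ _),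
      ZJ3_rl (h.dRQ02 _ _), ZJ3_rl (h.dRQ23 _ _), ZJ3_rl (h.dRQ03 _ _), ZJ3_rl (h.dSQ02 _ _), ZJ3_rl (h.dSQ23 _ _),
      ZJ3_rl (h.dSQ03 _ _), ZJ3_rl (h.dSR _ _)]
    have e1 : t * -u + (-(t * u) + -(t * u)) = 0 := by linear_combination -(t * u) * h3
    rw [e1, R0, one_mul]
  · simp only [mul_assoc, h.aP0, h.aP2, h.aP3, h.aQ02, h.aQ23, h.aQ03, h.aR, h.aS,
      ZJ3_ra (h.aP0 _ _), ZJ3_ra (h.aP2 _ _), ZJ3_ra (h.aP3 _ _), ZJ3_ra (h.aQ02 _ _), ZJ3_ra (h.aQ23 _ _), ZJ3_ra (h.aQ03 _ _),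
      ZJ3_ra (h.aR _ _), ZJ3_ra (h.aS _ _),
      h.c1, h.c2, h.c3, h.c4, h.c5, h.c6, h.c7, h.c8, h.c9, h.c10, h.c11, h.c12, h.c13, h.c14, h.c15,
      h.c16,
      ZJ3_rn (h.c1 _ _), ZJ3_rn (h.c2 _ _), ZJ3_rn (h.c3 _ _), ZJ3_rn (h.c4 _ _), ZJ3_rn (h.c5 _ _), ZJ3_rn (h.c6 _ _),
      ZJ3_rn (h.c7 _ _), ZJ3_rn (h.c8 _ _), ZJ3_rn (h.c9 _ _), ZJ3_rn (h.c10 _ _), ZJ3_rn (h.c11 _ _), ZJ3_rn (h.c12 _ _),
      ZJ3_rn (h.c13 _ _), ZJ3_rn (h.c14 _ _), ZJ3_rn (h.c15 _ _), ZJ3_rn (h.c16 _ _),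
      h.dA2A0, h.dA3A0, h.dA3A2, h.dA0P0, h.dA2P2, h.dA3P3, h.dA0Q02, h.dA0Q03, h.dA2Q02, h.dA2Q23,
      h.dA3Q23, h.dA3Q03, h.dA0R, h.dA2R, h.dA3R, h.dA0S, h.dA2S, h.dA3S,
      h.dBP0, h.dBP2, h.dBP3, h.dBQ02, h.dBQ23, h.dBQ03, h.dBS,
      h.dP2P0, h.dP3P0, h.dP3P2, h.dQ02P0, h.dQ02P2, h.dQ23P2, h.dQ23P3, h.dQ03P0, h.dQ03P3,
      h.dRP0, h.dRP2, h.dRP3, h.dSP0, h.dSP2, h.dSP3, h.dQ23Q02, h.dQ03Q02, h.dQ03Q23,
      h.dRQ02, h.dRQ23, h.dRQ03, h.dSQ02, h.dSQ23, h.dSQ03, h.dSR,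
      ZJ3_rl (h.dA2A0 _ _), ZJ3_rl (h.dA3A0 _ _), ZJ3_rl (h.dA3A2 _ _), ZJ3_rl (h.dA0P0 _ _), ZJ3_rl (h.dA2P2 _ _),
      ZJ3_rl (h.dA3P3 _ _), ZJ3_rl (h.dA0Q02 _ _), ZJ3_rl (h.dA0Q03 _ _), ZJ3_rl (h.dA2Q02 _ _), ZJ3_rl (h.dA2Q23 _ _),
      ZJ3_rl (h.dA3Q23 _ _), ZJ3_rl (h.dA3Q03 _ _), ZJ3_rl (h.dA0R _ _), ZJ3_rl (h.dA2R _ _), ZJ3_rl (h.dA3R _ _),
      ZJ3_rl (h.dA0S _ _), ZJ3_rl (h.dA2S _ _), ZJ3_rl (h.dA3S _ _),
      ZJ3_rl (h.dBP0 _ _), ZJ3_rl (h.dBP2 _ _), ZJ3_rl (h.dBP3 _ _), ZJ3_rl (h.dBQ02 _ _), ZJ3_rl (h.dBQ23 _ _),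
      ZJ3_rl (h.dBQ03 _ _), ZJ3_rl (h.dBS _ _),
      ZJ3_rl (h.dP2P0 _ _), ZJ3_rl (h.dP3P0 _ _), ZJ3_rl (h.dP3P2 _ _), ZJ3_rl (h.dQ02P0 _ _), ZJ3_rl (h.dQ02P2 _ _),
      ZJ3_rl (h.dQ23P2 _ _), ZJ3_rl (h.dQ23P3 _ _), ZJ3_rl (h.dQ03P0 _ _), ZJ3_rl (h.dQ03P3 _ _),
      ZJ3_rl (h.dRP0 _ _), ZJ3_rl (h.dRP2 _ _), ZJ3_rl (h.dRP3 _ _), ZJ3_rl (h.dSP0 _ _), ZJ3_rl (h.dSP2 _ _),
      ZJ3_rl (h.dSP3 _ _), ZJ3_rl (h.dQ23Q02 _ _), ZJ3_rl (h.dQ03Q02 _ _), ZJ3_rl (h.dQ03Q23 _ _),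
      ZJ3_rl (h.dRQ02 _ _), ZJ3_rl (h.dRQ23 _ _), ZJ3_rl (h.dRQ03 _ _), ZJ3_rl (h.dSQ02 _ _), ZJ3_rl (h.dSQ23 _ _),
      ZJ3_rl (h.dSQ03 _ _), ZJ3_rl (h.dSR _ _)]
    have e1 : u * -t + (-u * t + u * -t) = 0 := by linear_combination -(t * u) * h3
    rw [e1, S0, mul_one]

private theorem ZJ3_all2 (t u : k) :
    A0 t * (A2 t * A3 t) * R u = R u * (A0 t * (A2 t * A3 t)) ∧
    A0 t * (A2 t * A3 t) * S u = S u * (A0 t * (A2 t * A3 t)) ∧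
    B t * (P0 u * (P2 (-u) * P3 (-u))) = (P0 u * (P2 (-u) * P3 (-u))) * B t ∧
    B t * (Q02 u * (Q23 (-u) * Q03 u)) = (Q02 u * (Q23 (-u) * Q03 u)) * B t ∧
    B t * S u = S u * B t ∧
    (P0 t * (P2 (-t) * P3 (-t))) * R u = R u * (P0 t * (P2 (-t) * P3 (-t))) ∧
    (P0 t * (P2 (-t) * P3 (-t))) * S u = S u * (P0 t * (P2 (-t) * P3 (-t))) ∧
    (Q02 t * (Q23 (-t) * Q03 t)) * R u = R u * (Q02 t * (Q23 (-t) * Q03 t)) ∧
    (Q02 t * (Q23 (-t) * Q03 t)) * S u = S u * (Q02 t * (Q23 (-t) * Q03 t)) ∧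
    R t * S u = S u * R t := by
  refine ⟨?_, ?_, ?_, ?_, ?_, ?_, ?_, ?_, ?_, ?_⟩ <;>
  simp only [mul_assoc, h.aP0, h.aP2, h.aP3, h.aQ02, h.aQ23, h.aQ03, h.aR, h.aS,
    ZJ3_ra (h.aP0 _ _), ZJ3_ra (h.aP2 _ _), ZJ3_ra (h.aP3 _ _), ZJ3_ra (h.aQ02 _ _), ZJ3_ra (h.aQ23 _ _), ZJ3_ra (h.aQ03 _ _),
    ZJ3_ra (h.aR _ _), ZJ3_ra (h.aS _ _),
    h.c1, h.c2, h.c3, h.c4, h.c5, h.c6, h.c7, h.c8, h.c9, h.c10, h.c11, h.c12, h.c13, h.c14, h.c15,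
    h.c16,
    ZJ3_rn (h.c1 _ _), ZJ3_rn (h.c2 _ _), ZJ3_rn (h.c3 _ _), ZJ3_rn (h.c4 _ _), ZJ3_rn (h.c5 _ _), ZJ3_rn (h.c6 _ _),
    ZJ3_rn (h.c7 _ _), ZJ3_rn (h.c8 _ _), ZJ3_rn (h.c9 _ _), ZJ3_rn (h.c10 _ _), ZJ3_rn (h.c11 _ _), ZJ3_rn (h.c12 _ _),
    ZJ3_rn (h.c13 _ _), ZJ3_rn (h.c14 _ _), ZJ3_rn (h.c15 _ _), ZJ3_rn (h.c16 _ _),
    h.dA2A0, h.dA3A0, h.dA3A2, h.dA0P0, h.dA2P2, h.dA3P3, h.dA0Q02, h.dA0Q03, h.dA2Q02, h.dA2Q23,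
    h.dA3Q23, h.dA3Q03, h.dA0R, h.dA2R, h.dA3R, h.dA0S, h.dA2S, h.dA3S,
    h.dBP0, h.dBP2, h.dBP3, h.dBQ02, h.dBQ23, h.dBQ03, h.dBS,
    h.dP2P0, h.dP3P0, h.dP3P2, h.dQ02P0, h.dQ02P2, h.dQ23P2, h.dQ23P3, h.dQ03P0, h.dQ03P3,
    h.dRP0, h.dRP2, h.dRP3, h.dSP0, h.dSP2, h.dSP3, h.dQ23Q02, h.dQ03Q02, h.dQ03Q23,
    h.dRQ02, h.dRQ23, h.dRQ03, h.dSQ02, h.dSQ23, h.dSQ03, h.dSR,
    ZJ3_rl (h.dA2A0 _ _), ZJ3_rl (h.dA3A0 _ _), ZJ3_rl (h.dA3A2 _ _), ZJ3_rl (h.dA0P0 _ _), ZJ3_rl (h.dA2P2 _ _),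
    ZJ3_rl (h.dA3P3 _ _), ZJ3_rl (h.dA0Q02 _ _), ZJ3_rl (h.dA0Q03 _ _), ZJ3_rl (h.dA2Q02 _ _), ZJ3_rl (h.dA2Q23 _ _),
    ZJ3_rl (h.dA3Q23 _ _), ZJ3_rl (h.dA3Q03 _ _), ZJ3_rl (h.dA0R _ _), ZJ3_rl (h.dA2R _ _), ZJ3_rl (h.dA3R _ _),
    ZJ3_rl (h.dA0S _ _), ZJ3_rl (h.dA2S _ _), ZJ3_rl (h.dA3S _ _),
    ZJ3_rl (h.dBP0 _ _), ZJ3_rl (h.dBP2 _ _), ZJ3_rl (h.dBP3 _ _), ZJ3_rl (h.dBQ02 _ _), ZJ3_rl (h.dBQ23 _ _),
    ZJ3_rl (h.dBQ03 _ _), ZJ3_rl (h.dBS _ _),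
    ZJ3_rl (h.dP2P0 _ _), ZJ3_rl (h.dP3P0 _ _), ZJ3_rl (h.dP3P2 _ _), ZJ3_rl (h.dQ02P0 _ _), ZJ3_rl (h.dQ02P2 _ _),
    ZJ3_rl (h.dQ23P2 _ _), ZJ3_rl (h.dQ23P3 _ _), ZJ3_rl (h.dQ03P0 _ _), ZJ3_rl (h.dQ03P3 _ _),
    ZJ3_rl (h.dRP0 _ _), ZJ3_rl (h.dRP2 _ _), ZJ3_rl (h.dRP3 _ _), ZJ3_rl (h.dSP0 _ _), ZJ3_rl (h.dSP2 _ _),
    ZJ3_rl (h.dSP3 _ _), ZJ3_rl (h.dQ23Q02 _ _), ZJ3_rl (h.dQ03Q02 _ _), ZJ3_rl (h.dQ03Q23 _ _),
    ZJ3_rl (h.dRQ02 _ _), ZJ3_rl (h.dRQ23 _ _), ZJ3_rl (h.dRQ03 _ _), ZJ3_rl (h.dSQ02 _ _), ZJ3_rl (h.dSQ23 _ _),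
    ZJ3_rl (h.dSQ03 _ _), ZJ3_rl (h.dSR _ _)]

end

end abs

section roots

private def zP0 : cD4.Root := ⟨![1, 1, 0, 0], by decide⟩
private def zP2 : cD4.Root := ⟨![0, 1, 1, 0], by decide⟩
private def zP3 : cD4.Root := ⟨![0, 1, 0, 1], by decide⟩
private def zQ02 : cD4.Root := ⟨![1, 1, 1, 0], by decide⟩
private def zQ23 : cD4.Root := ⟨![0, 1, 1, 1], by decide⟩
private def zQ03 : cD4.Root := ⟨![1, 1, 0, 1], by decide⟩
private def zR : cD4.Root := ⟨![1, 1, 1, 1], by decide⟩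
private def zS : cD4.Root := ⟨![1, 2, 1, 1], by decide⟩

private theorem ZJ3_ip (v : Fin 4 → ℤ) : 2 * cD4.ip v v = (2 * v 0 - v 1) ^ 2 + (2 * v 2 - v 1) ^ 2 +
    (2 * v 3 - v 1) ^ 2 + (v 1) ^ 2 := by
  simp [SLC.ip, cD4, Matrix.mulVec, dotProduct, Fin.sum_univ_four]
  ring

private theorem ZJ3_bd (x : ℤ) (h : x ^ 2 ≤ 4) : -2 ≤ x ∧ x ≤ 2 := by
  constructor <;> nlinarith

private theorem ZJ3_cls (a c b d : ℤ) (ha : 0 ≤ a) (hc : 0 ≤ c) (hb : 0 ≤ b) (hd : 0 ≤ d)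
    (h : (2 * a - c) ^ 2 + (2 * b - c) ^ 2 + (2 * d - c) ^ 2 + c ^ 2 = 4) :
    ![a, c, b, d] = ![1, 0, 0, 0] ∨ ![a, c, b, d] = ![0, 0, 1, 0] ∨ ![a, c, b, d] = ![0, 0, 0, 1] ∨
    ![a, c, b, d] = ![0, 1, 0, 0] ∨ ![a, c, b, d] = ![1, 1, 0, 0] ∨ ![a, c, b, d] = ![0, 1, 1, 0] ∨
    ![a, c, b, d] = ![0, 1, 0, 1] ∨ ![a, c, b, d] = ![1, 1, 1, 0] ∨ ![a, c, b, d] = ![0, 1, 1, 1] ∨
    ![a, c, b, d] = ![1, 1, 0, 1] ∨ ![a, c, b, d] = ![1, 1, 1, 1] ∨ ![a, c, b, d] = ![1, 2, 1, 1] := by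
  have h1 := sq_nonneg (2 * a - c)
  have h2 := sq_nonneg (2 * b - c)
  have h3 := sq_nonneg (2 * d - c)
  have h4 := sq_nonneg c
  obtain ⟨-, h5⟩ := ZJ3_bd c (by linarith)
  obtain ⟨-, h6⟩ := ZJ3_bd (2 * a - c) (by linarith)
  obtain ⟨-, h7⟩ := ZJ3_bd (2 * b - c) (by linarith)
  obtain ⟨-, h8⟩ := ZJ3_bd (2 * d - c) (by linarith)
  have ha2 : a ≤ 2 := by omega
  have hb2 : b ≤ 2 := by omega
  have hd2 : d ≤ 2 := by omega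
  clear h1 h2 h3 h4 h6 h7 h8
  interval_cases c <;> interval_cases a <;> interval_cases b <;> interval_cases d <;>
    first
    | (exfalso; revert h; decide)
    | decide

private theorem ZJ3_val (β : cD4.Root) (v : Fin 4 → ℤ) (h : ![β.1 0, β.1 1, β.1 2, β.1 3] = v)
    (γ : cD4.Root) (hγ : γ.1 = v) : β = γ := by
  apply SLC.Root.ext
  rw [hγ, ← h]
  funext i
  fin_cases i <;> rfl

private theorem ZJ3_cyc1 (β γ : cD4.Root) (h : dD4.r β = γ) : dD4.rE.SameCycle β γ :=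
  ⟨1, by rw [zpow_one, Dg.rE_apply, h]⟩

private theorem ZJ3_cases (β : cD4.Root) (hβ : cD4.Pos β) :
    β = cD4.simple 0 ∨ β = cD4.simple 2 ∨ β = cD4.simple 3 ∨ β = cD4.simple 1 ∨ β = zP0 ∨
    β = zP2 ∨ β = zP3 ∨ β = zQ02 ∨ β = zQ23 ∨ β = zQ03 ∨ β = zR ∨ β = zS := by
  have h0 := (cD4.pos_iff β).1 hβ
  have h1 := ZJ3_ip β.1
  rw [β.2] at h1
  rcases ZJ3_cls (β.1 0) (β.1 1) (β.1 2) (β.1 3) (h0 0) (h0 1) (h0 2) (h0 3) (by linarith) with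
    h | h | h | h | h | h | h | h | h | h | h | h
  · exact Or.inl (ZJ3_val β _ h _ (by decide))
  · exact Or.inr (Or.inl (ZJ3_val β _ h _ (by decide)))
  · exact Or.inr (Or.inr (Or.inl (ZJ3_val β _ h _ (by decide))))
  · exact Or.inr (Or.inr (Or.inr (Or.inl (ZJ3_val β _ h _ (by decide)))))
  · exact Or.inr (Or.inr (Or.inr (Or.inr (Or.inl (ZJ3_val β _ h _ (by decide))))))
  · exact Or.inr (Or.inr (Or.inr (Or.inr (Or.inr (Or.inl (ZJ3_val β _ h _ (by decide)))))))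
  · exact Or.inr (Or.inr (Or.inr (Or.inr (Or.inr (Or.inr (Or.inl
      (ZJ3_val β _ h _ (by decide))))))))
  · exact Or.inr (Or.inr (Or.inr (Or.inr (Or.inr (Or.inr (Or.inr (Or.inl
      (ZJ3_val β _ h _ (by decide)))))))))
  · exact Or.inr (Or.inr (Or.inr (Or.inr (Or.inr (Or.inr (Or.inr (Or.inr (Or.inl
      (ZJ3_val β _ h _ (by decide))))))))))
  · exact Or.inr (Or.inr (Or.inr (Or.inr (Or.inr (Or.inr (Or.inr (Or.inr (Or.inr (Or.inl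
      (ZJ3_val β _ h _ (by decide)))))))))))
  · exact Or.inr (Or.inr (Or.inr (Or.inr (Or.inr (Or.inr (Or.inr (Or.inr (Or.inr (Or.inr (Or.inl
      (ZJ3_val β _ h _ (by decide))))))))))))
  · exact Or.inr (Or.inr (Or.inr (Or.inr (Or.inr (Or.inr (Or.inr (Or.inr (Or.inr (Or.inr (Or.inr
      (ZJ3_val β _ h _ (by decide))))))))))))

end roots

theorem G2_roots : ∃ βP βQ βR βS, G2r βP βQ βR βS := by
  refine ⟨zP0, zQ02, zR, zS, ⟨rfl, rfl, rfl, rfl, by decide, by decide, by decide, by decide, ?_⟩⟩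
  intro β
  constructor
  · intro hβ
    have a1 : dD4.rE.SameCycle (cD4.simple 0) (cD4.simple 2) := ZJ3_cyc1 _ _ (by decide)
    have a2 : dD4.rE.SameCycle (cD4.simple 2) (cD4.simple 3) := ZJ3_cyc1 _ _ (by decide)
    have p1 : dD4.rE.SameCycle zP0 zP2 := ZJ3_cyc1 _ _ (by decide)
    have p2 : dD4.rE.SameCycle zP2 zP3 := ZJ3_cyc1 _ _ (by decide)
    have q1 : dD4.rE.SameCycle zQ02 zQ23 := ZJ3_cyc1 _ _ (by decide)
    have q2 : dD4.rE.SameCycle zQ23 zQ03 := ZJ3_cyc1 _ _ (by decide)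
    rcases ZJ3_cases β hβ with h | h | h | h | h | h | h | h | h | h | h | h
    · exact Or.inl (h ▸ Equiv.Perm.SameCycle.refl _ _)
    · exact Or.inl (h ▸ a1)
    · exact Or.inl (h ▸ a1.trans a2)
    · exact Or.inr (Or.inl h)
    · exact Or.inr (Or.inr (Or.inl (h ▸ Equiv.Perm.SameCycle.refl _ _)))
    · exact Or.inr (Or.inr (Or.inl (h ▸ p1)))
    · exact Or.inr (Or.inr (Or.inl (h ▸ p1.trans p2)))
    · exact Or.inr (Or.inr (Or.inr (Or.inl (h ▸ Equiv.Perm.SameCycle.refl _ _))))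
    · exact Or.inr (Or.inr (Or.inr (Or.inl (h ▸ q1))))
    · exact Or.inr (Or.inr (Or.inr (Or.inl (h ▸ q1.trans q2))))
    · exact Or.inr (Or.inr (Or.inr (Or.inr (Or.inl h))))
    · exact Or.inr (Or.inr (Or.inr (Or.inr (Or.inr h))))
  · rintro (h | h | h | h | h | h)
    · exact (pos_cycle _ _ h).1 (cD4.simple_pos 0)
    · rw [h]
      exact cD4.simple_pos 1
    · exact (pos_cycle _ _ h).1 (by decide)
    · exact (pos_cycle _ _ h).1 (by decide)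
    · rw [h]
      decide
    · rw [h]
      decide

theorem RJ_D4 : RJ dD4 tD4 0 = {β | cD4.Pos β} := by
  have hJ : ∀ j, JJ dD4 tD4 0 j := by
    have h1 : dD4.ρ.SameCycle 0 2 := ⟨1, by decide⟩
    have h2 : dD4.ρ.SameCycle 2 3 := ⟨1, by decide⟩
    intro j
    fin_cases j
    · exact Or.inl (Equiv.Perm.SameCycle.refl _ _)
    · exact Or.inr (Equiv.Perm.SameCycle.refl _ _)
    · exact Or.inl h1
    · exact Or.inl (h1.trans h2)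
  ext β
  exact ⟨fun h => h.1, fun h => ⟨h, fun j _ => hJ j⟩⟩

section
variable {k : Type*} [Field k] [Infinite k]

omit [Infinite k] in
private theorem ZJ3_ncp (α β γ : cD4.Root) (hγ : γ.1 = α.1 + β.1) (he : cD4.eps α.1 β.1 = 1)
    (t u : k) : cD4.xg k α t * cD4.xg k β u = cD4.xg k γ (t * u) * (cD4.xg k β u * cD4.xg k α t) := by
  have h := cD4.xg_comm_add k α β γ t u hγ
  rw [mul_inv_eq_iff_eq_mul, mul_inv_eq_iff_eq_mul, he, Int.cast_one, one_mul, mul_assoc] at h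
  exact h

omit [Infinite k] in
private theorem ZJ3_ncm (α β γ : cD4.Root) (hγ : γ.1 = α.1 + β.1) (he : cD4.eps α.1 β.1 = -1)
    (t u : k) : cD4.xg k α t * cD4.xg k β u =
      cD4.xg k γ (-(t * u)) * (cD4.xg k β u * cD4.xg k α t) := by
  have h := cD4.xg_comm_add k α β γ t u hγ
  rw [mul_inv_eq_iff_eq_mul, mul_inv_eq_iff_eq_mul, he, Int.cast_neg, Int.cast_one, neg_mul, one_mul,
    neg_mul, mul_assoc] at h
  exact h

omit [Infinite k] in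
private theorem ZJ3_sys : ZJ3Sys (cD4.xg k zP0) (cD4.xg k zP2) (cD4.xg k zP3) (cD4.xg k zQ02)
    (cD4.xg k zQ23) (cD4.xg k zQ03) (cD4.xg k zR) (cD4.xg k zS) (cD4.xg k (cD4.simple 1))
    (cD4.xg k (cD4.simple 0)) (cD4.xg k (cD4.simple 2)) (cD4.xg k (cD4.simple 3)) where
  aP0 := fun s t => (cD4.xg_map_add k zP0 s t).symm
  aP2 := fun s t => (cD4.xg_map_add k zP2 s t).symm
  aP3 := fun s t => (cD4.xg_map_add k zP3 s t).symm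
  aQ02 := fun s t => (cD4.xg_map_add k zQ02 s t).symm
  aQ23 := fun s t => (cD4.xg_map_add k zQ23 s t).symm
  aQ03 := fun s t => (cD4.xg_map_add k zQ03 s t).symm
  aR := fun s t => (cD4.xg_map_add k zR s t).symm
  aS := fun s t => (cD4.xg_map_add k zS s t).symm
  c1 := ZJ3_ncp (cD4.simple 0) (cD4.simple 1) zP0 (by decide) (by decide)
  c2 := ZJ3_ncm (cD4.simple 2) (cD4.simple 1) zP2 (by decide) (by decide)
  c3 := ZJ3_ncm (cD4.simple 3) (cD4.simple 1) zP3 (by decide) (by decide)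
  c4 := ZJ3_ncp (cD4.simple 0) zP2 zQ02 (by decide) (by decide)
  c5 := ZJ3_ncp (cD4.simple 0) zP3 zQ03 (by decide) (by decide)
  c6 := ZJ3_ncm (cD4.simple 2) zP0 zQ02 (by decide) (by decide)
  c7 := ZJ3_ncm (cD4.simple 2) zP3 zQ23 (by decide) (by decide)
  c8 := ZJ3_ncm (cD4.simple 3) zP0 zQ03 (by decide) (by decide)
  c9 := ZJ3_ncm (cD4.simple 3) zP2 zQ23 (by decide) (by decide)
  c10 := ZJ3_ncp (cD4.simple 0) zQ23 zR (by decide) (by decide)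
  c11 := ZJ3_ncm (cD4.simple 2) zQ03 zR (by decide) (by decide)
  c12 := ZJ3_ncm (cD4.simple 3) zQ02 zR (by decide) (by decide)
  c13 := ZJ3_ncp (cD4.simple 1) zR zS (by decide) (by decide)
  c14 := ZJ3_ncp zQ23 zP0 zS (by decide) (by decide)
  c15 := ZJ3_ncp zQ03 zP2 zS (by decide) (by decide)
  c16 := ZJ3_ncp zQ02 zP3 zS (by decide) (by decide)
  dA2A0 := fun s t => cD4.xg_comm k (cD4.simple 2) (cD4.simple 0) s t (by decide)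
  dA3A0 := fun s t => cD4.xg_comm k (cD4.simple 3) (cD4.simple 0) s t (by decide)
  dA3A2 := fun s t => cD4.xg_comm k (cD4.simple 3) (cD4.simple 2) s t (by decide)
  dA0P0 := fun s t => cD4.xg_comm k (cD4.simple 0) zP0 s t (by decide)
  dA2P2 := fun s t => cD4.xg_comm k (cD4.simple 2) zP2 s t (by decide)
  dA3P3 := fun s t => cD4.xg_comm k (cD4.simple 3) zP3 s t (by decide)
  dA0Q02 := fun s t => cD4.xg_comm k (cD4.simple 0) zQ02 s t (by decide)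
  dA0Q03 := fun s t => cD4.xg_comm k (cD4.simple 0) zQ03 s t (by decide)
  dA2Q02 := fun s t => cD4.xg_comm k (cD4.simple 2) zQ02 s t (by decide)
  dA2Q23 := fun s t => cD4.xg_comm k (cD4.simple 2) zQ23 s t (by decide)
  dA3Q23 := fun s t => cD4.xg_comm k (cD4.simple 3) zQ23 s t (by decide)
  dA3Q03 := fun s t => cD4.xg_comm k (cD4.simple 3) zQ03 s t (by decide)
  dA0R := fun s t => cD4.xg_comm k (cD4.simple 0) zR s t (by decide)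
  dA2R := fun s t => cD4.xg_comm k (cD4.simple 2) zR s t (by decide)
  dA3R := fun s t => cD4.xg_comm k (cD4.simple 3) zR s t (by decide)
  dA0S := fun s t => cD4.xg_comm k (cD4.simple 0) zS s t (by decide)
  dA2S := fun s t => cD4.xg_comm k (cD4.simple 2) zS s t (by decide)
  dA3S := fun s t => cD4.xg_comm k (cD4.simple 3) zS s t (by decide)
  dBP0 := fun s t => cD4.xg_comm k (cD4.simple 1) zP0 s t (by decide)
  dBP2 := fun s t => cD4.xg_comm k (cD4.simple 1) zP2 s t (by decide)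
  dBP3 := fun s t => cD4.xg_comm k (cD4.simple 1) zP3 s t (by decide)
  dBQ02 := fun s t => cD4.xg_comm k (cD4.simple 1) zQ02 s t (by decide)
  dBQ23 := fun s t => cD4.xg_comm k (cD4.simple 1) zQ23 s t (by decide)
  dBQ03 := fun s t => cD4.xg_comm k (cD4.simple 1) zQ03 s t (by decide)
  dBS := fun s t => cD4.xg_comm k (cD4.simple 1) zS s t (by decide)
  dP2P0 := fun s t => cD4.xg_comm k zP2 zP0 s t (by decide)
  dP3P0 := fun s t => cD4.xg_comm k zP3 zP0 s t (by decide)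
  dP3P2 := fun s t => cD4.xg_comm k zP3 zP2 s t (by decide)
  dQ02P0 := fun s t => cD4.xg_comm k zQ02 zP0 s t (by decide)
  dQ02P2 := fun s t => cD4.xg_comm k zQ02 zP2 s t (by decide)
  dQ23P2 := fun s t => cD4.xg_comm k zQ23 zP2 s t (by decide)
  dQ23P3 := fun s t => cD4.xg_comm k zQ23 zP3 s t (by decide)
  dQ03P0 := fun s t => cD4.xg_comm k zQ03 zP0 s t (by decide)
  dQ03P3 := fun s t => cD4.xg_comm k zQ03 zP3 s t (by decide)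
  dRP0 := fun s t => cD4.xg_comm k zR zP0 s t (by decide)
  dRP2 := fun s t => cD4.xg_comm k zR zP2 s t (by decide)
  dRP3 := fun s t => cD4.xg_comm k zR zP3 s t (by decide)
  dSP0 := fun s t => cD4.xg_comm k zS zP0 s t (by decide)
  dSP2 := fun s t => cD4.xg_comm k zS zP2 s t (by decide)
  dSP3 := fun s t => cD4.xg_comm k zS zP3 s t (by decide)
  dQ23Q02 := fun s t => cD4.xg_comm k zQ23 zQ02 s t (by decide)
  dQ03Q02 := fun s t => cD4.xg_comm k zQ03 zQ02 s t (by decide)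
  dQ03Q23 := fun s t => cD4.xg_comm k zQ03 zQ23 s t (by decide)
  dRQ02 := fun s t => cD4.xg_comm k zR zQ02 s t (by decide)
  dRQ23 := fun s t => cD4.xg_comm k zR zQ23 s t (by decide)
  dRQ03 := fun s t => cD4.xg_comm k zR zQ03 s t (by decide)
  dSQ02 := fun s t => cD4.xg_comm k zS zQ02 s t (by decide)
  dSQ23 := fun s t => cD4.xg_comm k zS zQ23 s t (by decide)
  dSQ03 := fun s t => cD4.xg_comm k zS zQ03 s t (by decide)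
  dSR := fun s t => cD4.xg_comm k zS zR s t (by decide)

omit [Infinite k] in
private theorem ZJ3_yb3 (β β' β'' : cD4.Root) (h1 : dD4.r β = β') (h2 : dD4.r β' = β'')
    (h3 : β' ≠ β) (e1 e2 : ℤ) (he1 : dD4.sg β = e1) (he2 : dD4.sg β' = e2) (t : k) :
    ((yg swap_D4.na β t : GF dD4 k) : GL cD4.Idx k) =
      cD4.xg k β t * (cD4.xg k β' (e1 * t) * cD4.xg k β'' (e2 * (e1 * t))) := by
  have hs : IsSig dD4 (RingEquiv.refl k) (cD4.adS k) (dD4.sgl (RingEquiv.refl k)) :=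
    isSig_adS dD4 _
  rw [yg_val]
  unfold yb mo
  rw [if_neg (by rw [h1]; exact h3), dD4_m]
  have a1 := hs β t
  have a2 := hs β' ((e1 : k) * t)
  rw [h1, he1] at a1
  rw [h2, he2] at a2
  simp only [RingEquiv.refl_apply] at a1 a2
  simp only [List.range_succ, List.range_zero, List.nil_append, List.map_append, List.map_cons,
    List.map_nil, List.prod_append, List.prod_cons, List.prod_nil, mul_one,
    Function.iterate_zero, id, Function.iterate_succ, Function.comp]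
  rw [a1, a2, mul_assoc]
  rfl

omit [Infinite k] in
private theorem ZJ3_A (t : k) : ((yg swap_D4.na (cD4.simple 0) t : GF dD4 k) : GL cD4.Idx k) =
    cD4.xg k (cD4.simple 0) t * (cD4.xg k (cD4.simple 2) t * cD4.xg k (cD4.simple 3) t) := by
  rw [ZJ3_yb3 (cD4.simple 0) (cD4.simple 2) (cD4.simple 3) (by decide) (by decide) (by decide) 1 1
    (by decide) (by decide)]
  simp

omit [Infinite k] in
private theorem ZJ3_P (t : k) : ((yg swap_D4.na zP0 t : GF dD4 k) : GL cD4.Idx k) =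
    cD4.xg k zP0 t * (cD4.xg k zP2 (-t) * cD4.xg k zP3 (-t)) := by
  rw [ZJ3_yb3 zP0 zP2 zP3 (by decide) (by decide) (by decide) (-1) 1 (by decide) (by decide)]
  simp

omit [Infinite k] in
private theorem ZJ3_Q (t : k) : ((yg swap_D4.na zQ02 t : GF dD4 k) : GL cD4.Idx k) =
    cD4.xg k zQ02 t * (cD4.xg k zQ23 (-t) * cD4.xg k zQ03 t) := by
  rw [ZJ3_yb3 zQ02 zQ23 zQ03 (by decide) (by decide) (by decide) (-1) (-1) (by decide) (by decide)]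
  simp

private theorem ZJ3_B (t : k) : ((yg swap_D4.na (cD4.simple 1) t : GF dD4 k) : GL cD4.Idx k) =
    cD4.xg k (cD4.simple 1) t := yg_long swap_D4.na _ (by decide) t

private theorem ZJ3_R (t : k) : ((yg swap_D4.na zR t : GF dD4 k) : GL cD4.Idx k) =
    cD4.xg k zR t := yg_long swap_D4.na _ (by decide) t

private theorem ZJ3_S (t : k) : ((yg swap_D4.na zS t : GF dD4 k) : GL cD4.Idx k) =
    cD4.xg k zS t := yg_long swap_D4.na _ (by decide) t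

private theorem ZJ3_sub {βP βQ βR βS : cD4.Root} (hr : G2r βP βQ βR βS) :
    βP = zP0 ∧ βQ = zQ02 ∧ βR = zR ∧ βS = zS :=
  ⟨SLC.Root.ext hr.hP, SLC.Root.ext hr.hQ, SLC.Root.ext hr.hR, SLC.Root.ext hr.hS⟩

/-- commutator relations in characteristic `3` -/
theorem G2_comms [CharP k 3] (βP βQ βR βS : cD4.Root) (hr : G2r βP βQ βR βS) (t u : k) :
    yg swap_D4.na (cD4.simple 0) t * yg swap_D4.na (cD4.simple 1) u =
      yg swap_D4.na βP (t * u) * yg swap_D4.na βQ (-(t ^ 2 * u)) * yg swap_D4.na βR (t ^ 3 * u) *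
        yg swap_D4.na βS (-(t ^ 3 * u ^ 2)) *
        (yg swap_D4.na (cD4.simple 1) u * yg swap_D4.na (cD4.simple 0) t) ∧
    yg swap_D4.na (cD4.simple 0) t * yg swap_D4.na βP u =
      yg swap_D4.na βQ (t * u) * (yg swap_D4.na βP u * yg swap_D4.na (cD4.simple 0) t) ∧
    yg swap_D4.na (cD4.simple 1) t * yg swap_D4.na βR u =
      yg swap_D4.na βS (t * u) * (yg swap_D4.na βR u * yg swap_D4.na (cD4.simple 1) t) ∧
    yg swap_D4.na (cD4.simple 0) t * yg swap_D4.na βQ u =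
      yg swap_D4.na βQ u * yg swap_D4.na (cD4.simple 0) t ∧
    yg swap_D4.na βP t * yg swap_D4.na βQ u =
      yg swap_D4.na βQ u * yg swap_D4.na βP t := by
  obtain ⟨rfl, rfl, rfl, rfl⟩ := ZJ3_sub hr
  have h3 : (3 : k) = 0 := by exact_mod_cast CharP.cast_eq_zero k 3
  obtain ⟨h1, h2, h4, h5, -⟩ := ZJ3_all (ZJ3_sys (k := k)) h3 t u
  obtain ⟨-, -, -, -, h6⟩ := ZJ3_all (ZJ3_sys (k := k)) h3 t u
  refine ⟨?_, ?_, ?_, ?_, ?_⟩ <;> apply Subtype.ext <;>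
    simp only [Subgroup.coe_mul, ZJ3_A, ZJ3_B, ZJ3_P, ZJ3_Q, ZJ3_R, ZJ3_S]
  · exact h1
  · exact h2
  · exact h4
  · exact h5
  · exact h6

private theorem ZJ3_inj (β : cD4.Root) (t : k) (h : yg swap_D4.na β t = 1) : t = 0 := by
  by_contra ht
  rw [← yg_zero swap_D4.na β] at h
  exact ht ((yg_inj swap_D4.na β β t 0 ht h).2 rfl)

omit [Infinite k] in
private theorem ZJ3_uniq {G : Type*} [Group G] {A B P Q R S : k → G}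
    (iQ : ∀ t, Q t = 1 → t = 0) (iS : ∀ t, S t = 1 → t = 0) (iQS : ∀ t u, Q t * S u = 1 → t = 0)
    (zP : P 0 = 1) (zA : A 0 = 1) (zB : B 0 = 1) (zR : R 0 = 1) (zQ : Q 0 = 1)
    (AP : ∀ t v, A t * P v = Q (t * v) * (P v * A t))
    (BR : ∀ u z, B u * R z = S (u * z) * (R z * B u))
    (AR : ∀ t z, A t * R z = R z * A t)
    (AQ : ∀ t z, A t * Q z = Q z * A t)
    (AS : ∀ t y, A t * S y = S y * A t)
    (BQ : ∀ u w, B u * Q w = Q w * B u)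
    (BS : ∀ u y, B u * S y = S y * B u)
    (PQ : ∀ v w, P v * Q w = Q w * P v)
    (PR : ∀ v z, P v * R z = R z * P v)
    (PS : ∀ v y, P v * S y = S y * P v)
    (QR : ∀ w z, Q w * R z = R z * Q w)
    (QS : ∀ w y, Q w * S y = S y * Q w)
    (RS : ∀ z y, R z * S y = S y * R z)
    (RR : ∀ z y, R z * R y = R y * R z)
    (PP : ∀ z y, P z * P y = P y * P z)
    (t u v w z y : k) (h : A t * B u * P v * Q w * R z * S y = 1) :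
    t = 0 ∧ u = 0 ∧ v = 0 ∧ w = 0 ∧ z = 0 ∧ y = 0 := by
  have hu : u = 0 := by
    have e1 : A t * B u * P v * Q w * R z * S y * R 1 =
        S u * (R 1 * (A t * B u * P v * Q w * R z * S y)) := by
      have := BR u 1
      rw [mul_one] at this
      rw [mul_assoc _ (S y) (R 1), ← RS, ← mul_assoc, mul_assoc _ (R z) (R 1), RR z 1, ← mul_assoc,
        mul_assoc _ (Q w) (R 1), QR, ← mul_assoc, mul_assoc _ (P v) (R 1), PR, ← mul_assoc,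
        mul_assoc _ (B u) (R 1), this, ← mul_assoc, AS, ← mul_assoc, mul_assoc _ (A t) (R 1), AR]
      simp only [mul_assoc]
    rw [h, mul_one, one_mul, right_eq_mul] at e1
    exact iS u e1
  rw [hu, zB, mul_one] at h
  have ht : t = 0 := by
    have e1 : A t * P v * Q w * R z * S y * P 1 =
        Q t * (P 1 * (A t * P v * Q w * R z * S y)) := by
      have := AP t 1
      rw [mul_one] at this
      rw [mul_assoc _ (S y) (P 1), ← PS, ← mul_assoc, mul_assoc _ (R z) (P 1), ← PR, ← mul_assoc,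
        mul_assoc _ (Q w) (P 1), ← PQ, ← mul_assoc, mul_assoc _ (P v) (P 1), PP v 1, ← mul_assoc,
        this]
      simp only [mul_assoc]
    rw [h, mul_one, one_mul, right_eq_mul] at e1
    exact iQ t e1
  rw [ht, zA, one_mul] at h
  have hv : v = 0 := by
    have e1 : A 1 * (P v * Q w * R z * S y) =
        Q v * (P v * Q w * R z * S y * A 1) := by
      have := AP 1 v
      rw [one_mul] at this
      simp only [mul_assoc]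
      rw [ZJ3_rn this, ZJ3_rl (AQ 1 w), ZJ3_rl (AR 1 z), AS]
    rw [h, mul_one, one_mul, right_eq_mul] at e1
    exact iQ v e1
  rw [hv, zP, one_mul] at h
  have hz : z = 0 := by
    have e1 : B 1 * (Q w * R z * S y) = S z * (Q w * R z * S y * B 1) := by
      have := BR 1 z
      rw [one_mul] at this
      simp only [mul_assoc]
      rw [ZJ3_rl (BQ 1 w), ZJ3_rn this, BS, ZJ3_rl (QS w z)]
    rw [h, mul_one, one_mul, right_eq_mul] at e1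
    exact iS z e1
  rw [hz, zR, mul_one] at h
  have hw : w = 0 := iQS w y h
  rw [hw, zQ, one_mul] at h
  exact ⟨ht, hu, hv, hw, hz, iS y h⟩

private theorem ZJ3_TT (v : Fin 4 → ℤ) : TT dD4 tD4 v = ![v 1, 3 * v 0, v 1, v 1] := by
  funext j
  unfold TT
  rw [dD4_m]
  fin_cases j <;> simp [dD4, tD4]

private theorem ZJ3_osum (β β' β'' : cD4.Root) (h1 : dD4.r β = β') (h2 : dD4.r β' = β'')
    (h3 : β' ≠ β) : osum dD4 β = β.1 + β'.1 + β''.1 := by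
  unfold osum mo
  rw [if_neg (by rw [h1]; exact h3), dD4_m]
  simp only [Finset.sum_range_succ, Finset.sum_range_zero, zero_add, Function.iterate_zero, id,
    Function.iterate_succ, Function.comp, h1, h2]

omit [Infinite k] in
private theorem ZJ3_tau {θ : k ≃+* k} {σ : GF dD4 k →* GF dD4 k} {τ : cD4.Root → cD4.Root}
    {e : cD4.Root → ℤ} (ht : SRt swap_D4.na tD4 θ σ τ e)
    (β β' β'' γ : cD4.Root) (h1 : dD4.r β = β') (h2 : dD4.r β' = β'') (h3 : β' ≠ β)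
    (hv : ∀ j, 3 * γ.1 j = (![(β.1 + β'.1 + β''.1) 1, 3 * (β.1 + β'.1 + β''.1) 0,
      (β.1 + β'.1 + β''.1) 1, (β.1 + β'.1 + β''.1) 1] : Fin 4 → ℤ) j) : τ β = γ := by
  have t1 := (ht.tau.short β (by rw [h1]; exact h3)).2
  rw [ZJ3_osum β β' β'' h1 h2 h3, ZJ3_TT, dD4_m] at t1
  apply SLC.Root.ext
  funext j
  have t2 := congrFun t1 j
  rw [← hv j] at t2
  simp only [Pi.smul_apply, smul_eq_mul, Nat.cast_ofNat] at t2
  omega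

private theorem ZJ3_pair {θ : k ≃+* k} {σ : GF dD4 k →* GF dD4 k} (h : SRs dD4 tD4 θ σ)
    (β β' β'' γ : cD4.Root) (h1 : dD4.r β = β') (h2 : dD4.r β' = β'') (h3 : β' ≠ β)
    (hγ : dD4.r γ = γ)
    (hv : ∀ j, 3 * γ.1 j = (![(β.1 + β'.1 + β''.1) 1, 3 * (β.1 + β'.1 + β''.1) 0,
      (β.1 + β'.1 + β''.1) 1, (β.1 + β'.1 + β''.1) 1] : Fin 4 → ℤ) j)
    (hv' : ![γ.1 1, 3 * γ.1 0, γ.1 1, γ.1 1] = β.1 + β'.1 + β''.1) :
    ∃ e : k, (e = 1 ∨ e = -1) ∧ (∀ v, σ (yg swap_D4.na β v) = yg swap_D4.na γ (e * θ v)) ∧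
      ∀ z, σ (yg swap_D4.na γ z) = yg swap_D4.na β (e * θ.symm z) := by
  obtain ⟨τ, e, ht⟩ := exists_tau swap_D4 h
  have hb : dD4.r β ≠ β := by rw [h1]; exact h3
  have t2 : τ β = γ := ZJ3_tau ht β β' β'' γ h1 h2 h3 hv
  have t3 := ht.tau.long γ hγ
  have t4 : dD4.rE.SameCycle (τ γ) β := by
    apply osum_inj swap_D4.na
    rw [t3.2, ZJ3_TT, ZJ3_osum β β' β'' h1 h2 h3, hv']
  obtain ⟨e', he', hy⟩ := yg_cycle (k := k) swap_D4.na (τ γ) β t4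
  have m1 : ∀ v, σ (yg swap_D4.na β v) = yg swap_D4.na γ ((e β : k) * θ v) := by
    intro v
    rw [ht.map β v, t2, th, if_neg hb]
  have m2 : ∀ z, σ (yg swap_D4.na γ z) =
      yg swap_D4.na β ((e' : k) * ((e γ : k) * θ.symm z)) := by
    intro z
    rw [ht.map γ z, hy, th, if_pos hγ]
  have hs := sig_sig swap_D4 h (yg swap_D4.na β 1)
  rw [m1, m2, map_one, mul_one, map_intCast] at hs
  have hE : (e' : k) * ((e γ : k) * (e β : k)) = 1 := by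
    by_contra hne
    have := (yg_inj swap_D4.na β β 1 _ one_ne_zero hs.symm).2 rfl
    exact hne this.symm
  have hE2 : (e β : k) = 1 ∨ (e β : k) = -1 := by
    rcases ht.e_eq β with h | h <;> rw [h] <;> simp
  have hE3 : (e β : k) * (e β : k) = 1 := by
    rcases hE2 with h | h <;> rw [h] <;> ring
  have hE4 : (e' : k) * (e γ : k) = (e β : k) := by
    calc (e' : k) * (e γ : k) = (e' : k) * (e γ : k) * ((e β : k) * (e β : k)) := by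
          rw [hE3, mul_one]
      _ = ((e' : k) * ((e γ : k) * (e β : k))) * (e β : k) := by ring
      _ = (e β : k) := by rw [hE, one_mul]
  refine ⟨(e β : k), hE2, m1, fun z => ?_⟩
  rw [m2, ← mul_assoc, hE4]

private theorem ZJ3_pos_yg (t : k) (β : cD4.Root) (hβ : cD4.Pos β) :
    (∃ s, yg swap_D4.na β t = yg swap_D4.na (cD4.simple 0) s) ∨
    (∃ s, yg swap_D4.na β t = yg swap_D4.na (cD4.simple 1) s) ∨
    (∃ s, yg swap_D4.na β t = yg swap_D4.na zP0 s) ∨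
    (∃ s, yg swap_D4.na β t = yg swap_D4.na zQ02 s) ∨
    (∃ s, yg swap_D4.na β t = yg swap_D4.na zR s) ∨
    (∃ s, yg swap_D4.na β t = yg swap_D4.na zS s) := by
  have key : ∀ γ : cD4.Root, dD4.rE.SameCycle γ β →
      ∃ s, yg swap_D4.na β t = yg swap_D4.na γ s := by
    intro γ hγ
    obtain ⟨e, -, he⟩ := yg_cycle (k := k) swap_D4.na β γ hγ.symm
    exact ⟨_, (he t).symm⟩
  obtain ⟨βP, βQ, βR, βS, hr⟩ := G2_roots
  obtain ⟨rfl, rfl, rfl, rfl⟩ := ZJ3_sub hr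
  rcases (hr.mem β).1 hβ with h | h | h | h | h | h
  · exact Or.inl (key _ h)
  · exact Or.inr (Or.inl ⟨t, by rw [h]⟩)
  · exact Or.inr (Or.inr (Or.inl (key _ h)))
  · exact Or.inr (Or.inr (Or.inr (Or.inl (key _ h))))
  · exact Or.inr (Or.inr (Or.inr (Or.inr (Or.inl ⟨t, by rw [h]⟩))))
  · exact Or.inr (Or.inr (Or.inr (Or.inr (Or.inr ⟨t, by rw [h]⟩))))

theorem G2_inst {θ : k ≃+* k} {σ : GF dD4 k →* GF dD4 k} (h : SRs dD4 tD4 θ σ)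
    (βP βQ βR βS : cD4.Root) (hr : G2r βP βQ βR βS) :
    G2s θ (yg swap_D4.na (cD4.simple 0)) (yg swap_D4.na (cD4.simple 1)) (yg swap_D4.na βP)
      (yg swap_D4.na βQ) (yg swap_D4.na βR) (yg swap_D4.na βS) σ ∧
    ∀ x : GF dD4 k, x ∈ FU dD4 k ↔ ∃ t u v w z y, x = yg swap_D4.na (cD4.simple 0) t *
      yg swap_D4.na (cD4.simple 1) u * yg swap_D4.na βP v * yg swap_D4.na βQ w *
      yg swap_D4.na βR z * yg swap_D4.na βS y := by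
  obtain ⟨rfl, rfl, rfl, rfl⟩ := ZJ3_sub hr
  have hN := swap_D4.na
  have hch : CharP k 3 := dD4_m ▸ h.chr
  have cm := fun t u => G2_comms (k := k) zP0 zQ02 zR zS hr t u
  have c2 := fun t u => ZJ3_all2 (ZJ3_sys (k := k)) t u
  have AR : ∀ t u : k, yg hN (cD4.simple 0) t * yg hN zR u = yg hN zR u * yg hN (cD4.simple 0) t := by
    intro t u
    apply Subtype.ext
    simp only [Subgroup.coe_mul, ZJ3_A, ZJ3_B, ZJ3_P, ZJ3_Q, ZJ3_R, ZJ3_S]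
    exact (c2 t u).1
  have AS : ∀ t u : k, yg hN (cD4.simple 0) t * yg hN zS u = yg hN zS u * yg hN (cD4.simple 0) t := by
    intro t u
    apply Subtype.ext
    simp only [Subgroup.coe_mul, ZJ3_A, ZJ3_B, ZJ3_P, ZJ3_Q, ZJ3_R, ZJ3_S]
    exact (c2 t u).2.1
  have BP : ∀ t u : k, yg hN (cD4.simple 1) t * yg hN zP0 u =
      yg hN zP0 u * yg hN (cD4.simple 1) t := by
    intro t u
    apply Subtype.ext
    simp only [Subgroup.coe_mul, ZJ3_A, ZJ3_B, ZJ3_P, ZJ3_Q, ZJ3_R, ZJ3_S]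
    exact (c2 t u).2.2.1
  have BQ : ∀ t u : k, yg hN (cD4.simple 1) t * yg hN zQ02 u =
      yg hN zQ02 u * yg hN (cD4.simple 1) t := by
    intro t u
    apply Subtype.ext
    simp only [Subgroup.coe_mul, ZJ3_A, ZJ3_B, ZJ3_P, ZJ3_Q, ZJ3_R, ZJ3_S]
    exact (c2 t u).2.2.2.1
  have BS : ∀ t u : k, yg hN (cD4.simple 1) t * yg hN zS u =
      yg hN zS u * yg hN (cD4.simple 1) t := by
    intro t u
    apply Subtype.ext
    simp only [Subgroup.coe_mul, ZJ3_A, ZJ3_B, ZJ3_P, ZJ3_Q, ZJ3_R, ZJ3_S]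
    exact (c2 t u).2.2.2.2.1
  have PR : ∀ t u : k, yg hN zP0 t * yg hN zR u = yg hN zR u * yg hN zP0 t := by
    intro t u
    apply Subtype.ext
    simp only [Subgroup.coe_mul, ZJ3_A, ZJ3_B, ZJ3_P, ZJ3_Q, ZJ3_R, ZJ3_S]
    exact (c2 t u).2.2.2.2.2.1
  have PS : ∀ t u : k, yg hN zP0 t * yg hN zS u = yg hN zS u * yg hN zP0 t := by
    intro t u
    apply Subtype.ext
    simp only [Subgroup.coe_mul, ZJ3_A, ZJ3_B, ZJ3_P, ZJ3_Q, ZJ3_R, ZJ3_S]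
    exact (c2 t u).2.2.2.2.2.2.1
  have QR : ∀ t u : k, yg hN zQ02 t * yg hN zR u = yg hN zR u * yg hN zQ02 t := by
    intro t u
    apply Subtype.ext
    simp only [Subgroup.coe_mul, ZJ3_A, ZJ3_B, ZJ3_P, ZJ3_Q, ZJ3_R, ZJ3_S]
    exact (c2 t u).2.2.2.2.2.2.2.1
  have QS : ∀ t u : k, yg hN zQ02 t * yg hN zS u = yg hN zS u * yg hN zQ02 t := by
    intro t u
    apply Subtype.ext
    simp only [Subgroup.coe_mul, ZJ3_A, ZJ3_B, ZJ3_P, ZJ3_Q, ZJ3_R, ZJ3_S]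
    exact (c2 t u).2.2.2.2.2.2.2.2.1
  have RS : ∀ t u : k, yg hN zR t * yg hN zS u = yg hN zS u * yg hN zR t := by
    intro t u
    apply Subtype.ext
    simp only [Subgroup.coe_mul, ZJ3_A, ZJ3_B, ZJ3_P, ZJ3_Q, ZJ3_R, ZJ3_S]
    exact (c2 t u).2.2.2.2.2.2.2.2.2
  have h0 : dD4.r (cD4.simple 0) ≠ cD4.simple 0 := by decide
  have h1 : dD4.r (cD4.simple 1) = cD4.simple 1 := by decide
  have hG : G2s θ (yg hN (cD4.simple 0)) (yg hN (cD4.simple 1)) (yg hN zP0)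
      (yg hN zQ02) (yg hN zR) (yg hN zS) σ :=
    { chr := hch
      hθ := fun t => by rw [h.hθ t, dD4_m]
      hA := fun s t => yg_add hN _ s t
      hB := fun s t => yg_add hN _ s t
      hP := fun s t => yg_add hN _ s t
      hQ := fun s t => yg_add hN _ s t
      hR := fun s t => yg_add hN _ s t
      hS := fun s t => yg_add hN _ s t
      AB := fun t u => (cm t u).1
      AP := fun t u => (cm t u).2.1
      BR := fun t u => (cm t u).2.2.1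
      AQ := fun t u => (cm t u).2.2.2.1
      AR := AR
      AS := AS
      BP := BP
      BQ := BQ
      BS := BS
      PQ := fun t u => (cm t u).2.2.2.2
      PR := PR
      PS := PS
      QR := QR
      QS := QS
      RS := RS
      uniq := by
        have hc : ∀ (β : cD4.Root) (s t : k), yg hN β s * yg hN β t = yg hN β t * yg hN β s := by
          intro β s t
          rw [← yg_add, ← yg_add, add_comm]
        refine ZJ3_uniq (ZJ3_inj zQ02) (ZJ3_inj zS) ?_ (yg_zero hN _) (yg_zero hN _)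
          (yg_zero hN _) (yg_zero hN _) (yg_zero hN _) (fun t u => (cm t u).2.1)
          (fun t u => (cm t u).2.2.1) AR (fun t u => (cm t u).2.2.2.1) AS BQ BS
          (fun t u => (cm t u).2.2.2.2) PR PS QR QS RS (hc _) (hc _)
        intro t u e
        by_contra ht
        rw [mul_eq_one_iff_eq_inv, ← yg_neg] at e
        have := (yg_inj hN _ _ _ _ ht e).1
        exact absurd (((fix_cycle _ _ this).2 (by decide))) (by decide)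
      σA := fun t => by
        have := (sig_yg swap_D4 h 0 t).1
        rw [th, if_neg h0] at this
        exact this
      σB := fun t => by
        have := (sig_yg swap_D4 h 1 t).1
        rw [th, if_pos h1] at this
        exact this
      σP := ZJ3_pair h zP0 zP2 zP3 zR (by decide) (by decide) (by decide) (by decide)
        (by decide) (by decide)
      σQ := ZJ3_pair h zQ02 zQ23 zQ03 zS (by decide) (by decide) (by decide) (by decide)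
        (by decide) (by decide) }
  refine ⟨hG, ?_⟩
  let F : k → k → k → k → k → k → GF dD4 k := fun t u v w z y => yg hN (cD4.simple 0) t *
    yg hN (cD4.simple 1) u * yg hN zP0 v * yg hN zQ02 w * yg hN zR z * yg hN zS y
  have hmul : ∀ x x' : GF dD4 k, (∃ t u v w z y, x = F t u v w z y) →
      (∃ t u v w z y, x' = F t u v w z y) → ∃ t u v w z y, x * x' = F t u v w z y := by
    rintro x x' ⟨t, u, v, w, z, y, rfl⟩ ⟨t', u', v', w', z', y', rfl⟩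
    obtain ⟨z'', y'', e⟩ := G2_mul_form hG t u v w z y t' u' v' w' z' y'
    exact ⟨_, _, _, _, z'', y'', e⟩
  have hz : ∀ β : cD4.Root, yg hN β (0 : k) = 1 := fun β => yg_zero hN β
  have g0 : ∀ s, ∃ t u v w z y, yg hN (cD4.simple 0) s = F t u v w z y := fun s =>
    ⟨s, 0, 0, 0, 0, 0, by simp only [F, hz, mul_one]⟩
  have g1 : ∀ s, ∃ t u v w z y, yg hN (cD4.simple 1) s = F t u v w z y := fun s =>
    ⟨0, s, 0, 0, 0, 0, by simp only [F, hz, mul_one, one_mul]⟩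
  have g2 : ∀ s, ∃ t u v w z y, yg hN zP0 s = F t u v w z y := fun s =>
    ⟨0, 0, s, 0, 0, 0, by simp only [F, hz, mul_one, one_mul]⟩
  have g3 : ∀ s, ∃ t u v w z y, yg hN zQ02 s = F t u v w z y := fun s =>
    ⟨0, 0, 0, s, 0, 0, by simp only [F, hz, mul_one, one_mul]⟩
  have g4 : ∀ s, ∃ t u v w z y, yg hN zR s = F t u v w z y := fun s =>
    ⟨0, 0, 0, 0, s, 0, by simp only [F, hz, mul_one, one_mul]⟩
  have g5 : ∀ s, ∃ t u v w z y, yg hN zS s = F t u v w z y := fun s =>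
    ⟨0, 0, 0, 0, 0, s, by simp only [F, hz, mul_one, one_mul]⟩
  intro x
  constructor
  · intro hx
    rw [FU_eq hN] at hx
    change ∃ t u v w z y, x = F t u v w z y
    induction hx using Subgroup.closure_induction with
    | mem x hx =>
      obtain ⟨β, hβ, t, rfl⟩ := hx
      rcases ZJ3_pos_yg t β hβ with ⟨s, e⟩ | ⟨s, e⟩ | ⟨s, e⟩ | ⟨s, e⟩ | ⟨s, e⟩ | ⟨s, e⟩ <;> rw [e]
      · exact g0 s
      · exact g1 s
      · exact g2 s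
      · exact g3 s
      · exact g4 s
      · exact g5 s
    | one => exact ⟨0, 0, 0, 0, 0, 0, by simp only [F, hz, mul_one]⟩
    | mul x y _ _ hx hy => exact hmul x y hx hy
    | inv x _ hx =>
      obtain ⟨t, u, v, w, z, y, rfl⟩ := hx
      have hinv : (F t u v w z y)⁻¹ = yg hN zS (-y) * (yg hN zR (-z) * (yg hN zQ02 (-w) *
          (yg hN zP0 (-v) * (yg hN (cD4.simple 1) (-u) * yg hN (cD4.simple 0) (-t))))) := by
        simp only [F, _root_.mul_inv_rev, yg_neg]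
      rw [hinv]
      have b1 := hmul _ _ (g1 (-u)) (g0 (-t))
      have b2 := hmul _ _ (g2 (-v)) b1
      have b3 := hmul _ _ (g3 (-w)) b2
      have b4 := hmul _ _ (g4 (-z)) b3
      exact hmul _ _ (g5 (-y)) b4
  · rintro ⟨t, u, v, w, z, y, rfl⟩
    exact mul_mem (mul_mem (mul_mem (mul_mem (mul_mem (yg_pos hN _ (by decide) _)
      (yg_pos hN _ (by decide) _)) (yg_pos hN _ (by decide) _)) (yg_pos hN _ (by decide) _))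
      (yg_pos hN _ (by decide) _)) (yg_pos hN _ (by decide) _)

/-- an element of the opposite root group -/
theorem G2_opp {θ : k ≃+* k} {σ : GF dD4 k →* GF dD4 k} (h : SRs dD4 tD4 θ σ)
    (βP βQ βR βS : cD4.Root) (hr : G2r βP βQ βR βS) : ∃ e : k, (e = 1 ∨ e = -1) ∧
    ∀ v : k, yg swap_D4.na (-βQ) v * yg swap_D4.na (-βS) (e * θ v) ∈
      XmJ swap_D4.na tD4 σ 0 := by
  obtain ⟨rfl, rfl, rfl, rfl⟩ := ZJ3_sub hr
  obtain ⟨τ, e, ht⟩ := exists_tau swap_D4 h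
  have hb : dD4.r (-zQ02) ≠ -zQ02 := by decide
  have t2 : τ zQ02 = zS := ZJ3_tau ht zQ02 zQ23 zQ03 zS (by decide) (by decide) (by decide)
    (by decide)
  have t3 := tau_neg swap_D4 ht.tau zQ02
  rw [t2] at t3
  have t4 : τ (-zQ02) = -zS := t3.eq_of_right (by
    change dD4.r (-zS) = -zS
    decide)
  have m1 : ∀ v, σ (yg swap_D4.na (-zQ02) v) = yg swap_D4.na (-zS) ((e (-zQ02) : k) * θ v) := by
    intro v
    rw [ht.map (-zQ02) v, t4, th, if_neg hb]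
  refine ⟨(e (-zQ02) : k), ?_, ?_⟩
  · rcases ht.e_eq (-zQ02) with h | h <;> rw [h] <;> simp
  · intro v
    rw [← m1]
    have hs := sig_sig swap_D4 h (yg swap_D4.na (-zQ02) v)
    have hcomm : yg swap_D4.na (-zQ02) v * σ (yg swap_D4.na (-zQ02) v) =
        σ (yg swap_D4.na (-zQ02) v) * yg swap_D4.na (-zQ02) v := by
      rw [m1]
      generalize (e (-zQ02) : k) * θ v = u
      apply Subtype.ext
      have eS : ((yg swap_D4.na (-zS) u : GF dD4 k) : GL cD4.Idx k) = cD4.xg k (-zS) u :=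
        yg_long swap_D4.na _ (by decide) u
      rw [Subgroup.coe_mul, Subgroup.coe_mul, eS, ZJ3_yb3 (-zQ02) (-zQ23) (-zQ03) (by decide)
        (by decide) (by decide) (-1) (-1) (by decide) (by decide)]
      have c1 := fun s => cD4.xg_comm k (-zQ02) (-zS) s u (by decide)
      have c2 := fun s => cD4.xg_comm k (-zQ23) (-zS) s u (by decide)
      have c3 := fun s => cD4.xg_comm k (-zQ03) (-zS) s u (by decide)
      simp only [mul_assoc]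
      rw [c3, ZJ3_rl (c2 _), ZJ3_rl (c1 _)]
    refine ⟨?_, ?_⟩
    · apply mul_mem
      · refine Subgroup.subset_closure ⟨-zQ02, ?_, v, rfl⟩
        change -(-zQ02) ∈ RJ dD4 tD4 0
        rw [RJ_D4]
        change cD4.Pos _
        decide
      · rw [m1]
        refine Subgroup.subset_closure ⟨-zS, ?_, _, rfl⟩
        change -(-zS) ∈ RJ dD4 tD4 0
        rw [RJ_D4]
        change cD4.Pos _
        decide
    · change σ _ = _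
      rw [map_mul, hs, hcomm]
      rfl

end

end Pool.Agent.H86.UM
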