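import Pool.Agent.H86.UM.Z9
import Pool.Agent.H86.UM.ZJ2
import Pool.Agent.H86.UM.ZJ3

/-!
# Project UM, Suzuki-Ree groups, module Z10: properties of the simple root groups

`onto2`, `ker2`, `opp2` (`m = 2`): the two types: `C.A i (t0 i) = 0` (`XJ_orth`: `x = yg α_i t * yg α_(t0 i) (θ t)`,
`ξ_i x = t`) or `-1` (`B2_roots`, `B2_inst`; `x = B2x .. t v ∈ XJ` by `B2_fix`; elements of `XJ` are of this form
by `B2_form`; `B2_ker` with `G := GF D k`, `X := XJ`; `ξ_i (B2x t v) = t` by `xi_mul, xi_yg`). `opp2`: `i` arbitrary: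
`exists_short`, `XJ_congr`; `XmJ_orth` with `t = 1`, resp. `B2_opp` with `v = 1` (it is `≠ 1`: if
`yg (-βP) 1 = (yg (-βQ) (θ 1))⁻¹` then `yg_inj` gives a contradiction). `D₄`: `RJ_D4`, `G2_roots`, `G2_inst`,
`G2_form`, `G2_fix`, `G2_ker`, `G2_opp`; all nodes are in one class; the short nodes `0, 2, 3` are in one cycle, so
`XJ i = XJ 0` (`XJ_congr`) and `ξ_i = ξ_0` on the folded group (`xi_sgl`).

`tor_ratio`: `C.IsHighest δ`, every positive root is in `RJ i`. `y = u ν v`, `y' = u' ν' v'` (`nuJ_of_opp`), `ν, ν'` act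
by the same `w` (`IswJ.unique`); `h = ν'⁻¹ ν ∈ FT` (`FN_T`), in `Esr` (`u, v, y` are: `XJ_le`). The matrix entry at
`(inr (-δ), inr δ)` of `y = u ν v` is that of `ν`: `v e_δ = e_δ` (`v - 1 ∈ Fil 1`, `δ` highest: `IsHighest.le`,
`uniq`), and the row `-δ` of `u` is the unit vector (the same reason); and
`ν = ν' h`, `h` diagonal (`T_diag`), so the entry of `ν` is the entry of `ν'` times `chi h δ`.
-/

set_option autoImplicit false
open Matrix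

namespace Pool.Agent.H86.UM

open Pool.Agent.H75.UL

section aux
variable {n : ℕ} {C : SLC n} {D : Dg C} {k : Type*} [Field k] [Infinite k]

theorem Z10_FU_U (x : GF D k) (hx : x ∈ FU D k) : (x : GL C.Idx k) ∈ (C.adS k).U 1 :=
  (Subgroup.mem_subgroupOf.mp hx).1

theorem Z10_xi_mul (i : Fin n) (x y : GF D k) (hx : x ∈ FU D k) (hy : y ∈ FU D k) :
    C.xi i (((x * y : GF D k) : GL C.Idx k) : Matrix C.Idx C.Idx k) =
      C.xi i ((x : GL C.Idx k) : Matrix C.Idx C.Idx k) +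
        C.xi i ((y : GL C.Idx k) : Matrix C.Idx C.Idx k) := by
  rw [Subgroup.coe_mul]
  exact C.xi_mul i _ _ (Z10_FU_U x hx) (Z10_FU_U y hy)

theorem Z10_xi_ht (hN : D.NA) (i : Fin n) (β : C.Root) (hβ : 2 ≤ ht β.1) (t : k) :
    C.xi i (((yg hN β t : GF D k) : GL C.Idx k) : Matrix C.Idx C.Idx k) = 0 := by
  have hp : C.Pos β := by
    unfold SLC.Pos
    omega
  refine (xi_yg hN i β hp t).2 ?_
  rintro ⟨j, hj, -⟩
  rw [hj, C.ht_simple] at hβ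
  omega

theorem Z10_xi_fix (hN : D.NA) (i j : Fin n) (hi : D.ρ i ≠ i) (hj : D.ρ j = j) (t : k) :
    C.xi i (((yg hN (C.simple j) t : GF D k) : GL C.Idx k) : Matrix C.Idx C.Idx k) = 0 := by
  refine (xi_yg hN i _ (C.simple_pos j) t).2 ?_
  rintro ⟨l, hl, hc⟩
  have h1 := C.simple_injective hl
  rw [← h1] at hc
  obtain ⟨z, hz⟩ := hc
  have h2 : (D.ρ ^ z) j = j := Function.IsFixedPt.perm_zpow hj z
  rw [h2] at hz
  rw [hz] at hj
  exact hi hj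

theorem Z10_ne_one (hN : D.NA) (β γ : C.Root) (h1 : D.r β ≠ β) (h2 : D.r γ = γ) (t : k) :
    yg hN β (1 : k) * yg hN γ t ≠ 1 := by
  intro h
  have h3 : yg hN β (1 : k) = yg hN γ (-t) := by
    rw [yg_neg]
    exact eq_inv_of_mul_eq_one_left h
  have h4 := (yg_inj hN β γ 1 (-t) one_ne_zero h3).1
  exact h1 ((fix_cycle _ _ h4).mpr h2)

end aux

section
variable {n : ℕ} {C : SLC n} {D : Dg C} {t0 : Fin n → Fin n} (hS : Swap D t0)
  {k : Type*} [Field k] [Infinite k] {θ : k ≃+* k} {σ : GF D k →* GF D k}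
  (h : SRs D t0 θ σ)

include h

include hS in
omit h in
theorem Z10_dich (i : Fin n) (hi : D.ρ i ≠ i) : C.A i (t0 i) = 0 ∨ C.A i (t0 i) = -1 := by
  apply C.off
  intro h1
  have h2 := (hS.fix_iff i).mpr hi
  rw [← h1] at h2
  exact hi h2

theorem Z10_B2 (hm : D.m = 2) (i : Fin n) (hi : D.ρ i ≠ i) (ha : C.A i (t0 i) = -1)
    (βP βQ : C.Root) (hr : B2r D t0 i βP βQ) :
    (∀ x : GF D k, x ∈ XJ hS.na t0 σ i ↔ ∃ t v, x = B2x θ (yg hS.na (C.simple i))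
      (yg hS.na (C.simple (t0 i))) (yg hS.na βP) (yg hS.na βQ) t v) ∧
    ∀ t v, C.xi i (((B2x θ (yg hS.na (C.simple i)) (yg hS.na (C.simple (t0 i))) (yg hS.na βP)
      (yg hS.na βQ) t v : GF D k) : GL C.Idx k) : Matrix C.Idx C.Idx k) = t := by
  obtain ⟨hB, hF⟩ := B2_inst hS h hm i hi ha βP βQ hr
  constructor
  · intro x
    constructor
    · rintro ⟨hx, hf⟩
      obtain ⟨t, u, v, w, rfl⟩ := (hF x).mp hx
      exact ⟨t, v, B2_form hB t u v w hf⟩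
    · rintro ⟨t, v, rfl⟩
      exact ⟨(hF _).mpr ⟨_, _, _, _, rfl⟩, B2_fix hB t v⟩
  · intro t v
    have hP2 : 2 ≤ ht βP.1 := by
      rw [hr.hP, ht_add, C.ht_simple, C.ht_simple]
      norm_num
    have hQ2 : 2 ≤ ht βQ.1 := by
      rw [hr.hQ, ht_add, ht_add, C.ht_simple, C.ht_simple, C.ht_simple]
      norm_num
    have hf : D.ρ (t0 i) = t0 i := (hS.fix_iff i).mpr hi
    have mA := yg_pos hS.na (C.simple i) (C.simple_pos i) t
    have mB := yg_pos hS.na (C.simple (t0 i)) (C.simple_pos (t0 i)) (θ t)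
    have mP := yg_pos hS.na βP (by unfold SLC.Pos; omega) v
    have mQ := yg_pos hS.na βQ (by unfold SLC.Pos; omega) (θ v + t ^ 2 * θ t)
    unfold B2x
    rw [Z10_xi_mul i _ _ (mul_mem (mul_mem mA mB) mP) mQ, Z10_xi_mul i _ _ (mul_mem mA mB) mP,
      Z10_xi_mul i _ _ mA mB, Z10_xi_ht hS.na i βP hP2, Z10_xi_ht hS.na i βQ hQ2,
      Z10_xi_fix hS.na i (t0 i) hi hf,
      (xi_yg hS.na i _ (C.simple_pos i) t).1 ⟨i, rfl, .refl _ _⟩]
    ring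

theorem Z10_orth (i : Fin n) (hi : D.ρ i ≠ i) (t : k) :
    C.xi i (((yg hS.na (C.simple i) t * yg hS.na (C.simple (t0 i)) (θ t) : GF D k) :
      GL C.Idx k) : Matrix C.Idx C.Idx k) = t := by
  have hf : D.ρ (t0 i) = t0 i := (hS.fix_iff i).mpr hi
  have mA := yg_pos hS.na (C.simple i) (C.simple_pos i) t
  have mB := yg_pos hS.na (C.simple (t0 i)) (C.simple_pos (t0 i)) (θ t)
  rw [Z10_xi_mul i _ _ mA mB, Z10_xi_fix hS.na i (t0 i) hi hf,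
    (xi_yg hS.na i _ (C.simple_pos i) t).1 ⟨i, rfl, .refl _ _⟩, add_zero]

theorem onto2 (hm : D.m = 2) (i : Fin n) (hi : D.ρ i ≠ i) (t : k) :
    ∃ x ∈ XJ hS.na t0 σ i, C.xi i ((x : GL C.Idx k) : Matrix C.Idx C.Idx k) = t := by
  rcases Z10_dich hS i hi with ha | ha
  · exact ⟨_, (XJ_orth hS h i hi ha _).mpr ⟨t, rfl⟩, Z10_orth hS h i hi t⟩
  · obtain ⟨βP, βQ, hr⟩ := B2_roots hS hm i hi ha
    obtain ⟨h1, h2⟩ := Z10_B2 hS h hm i hi ha βP βQ hr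
    exact ⟨_, (h1 _).mpr ⟨t, 0, rfl⟩, h2 t 0⟩

theorem ker2 (hm : D.m = 2) (i : Fin n) (hi : D.ρ i ≠ i) (x : GF D k)
    (hx : x ∈ XJ hS.na t0 σ i) (h0 : C.xi i ((x : GL C.Idx k) : Matrix C.Idx C.Idx k) = 0) :
    x ∈ ⁅XJ hS.na t0 σ i, XJ hS.na t0 σ i⁆ := by
  rcases Z10_dich hS i hi with ha | ha
  · obtain ⟨t, rfl⟩ := (XJ_orth hS h i hi ha _).mp hx
    rw [Z10_orth hS h i hi] at h0
    rw [h0, map_zero, yg_zero, yg_zero, one_mul]
    exact one_mem _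
  · obtain ⟨βP, βQ, hr⟩ := B2_roots hS hm i hi ha
    obtain ⟨h1, h2⟩ := Z10_B2 hS h hm i hi ha βP βQ hr
    obtain ⟨t, v, rfl⟩ := (h1 _).mp hx
    rw [h2] at h0
    rw [h0]
    exact B2_ker (B2_inst hS h hm i hi ha βP βQ hr).1 _ h1 v

theorem opp2 (hm : D.m = 2) (i : Fin n) : ∃ y ∈ XmJ hS.na t0 σ i, y ≠ 1 := by
  obtain ⟨j, hij, hj⟩ := exists_short hS i
  rw [(XJ_congr hS (σ := σ) i j hij).2]
  have hf : D.ρ (t0 j) = t0 j := (hS.fix_iff j).mpr hj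
  rcases Z10_dich hS j hj with ha | ha
  · refine ⟨_, (XmJ_orth hS h j hj ha _).mpr ⟨1, rfl⟩, Z10_ne_one hS.na _ _ ?_ ?_ _⟩
    · rw [D.r_neg, D.r_simple]
      intro h3
      have h5 := congrArg (fun β : C.Root => -β) h3
      simp only [ZJ1_neg_neg] at h5
      exact hj (C.simple_injective h5)
    · rw [D.r_neg, D.r_simple, hf]
  · obtain ⟨βP, βQ, hr⟩ := B2_roots hS hm j hj ha
    refine ⟨_, B2_opp hS h hm j hj ha βP βQ hr 1, Z10_ne_one hS.na _ _ ?_ ?_ _⟩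
    · rw [D.r_neg]
      intro h3
      have h5 := congrArg (fun β : C.Root => -β) h3
      simp only [ZJ1_neg_neg] at h5
      exact hr.rP h5
    · rw [D.r_neg, hr.rQ]

theorem tor_ratio (i : Fin n) (hall : ∀ β : C.Root, C.Pos β → suppJ D t0 i β) (δ : C.Root)
    (hδ : C.IsHighest δ) (y y' : GF D k) (hy : y ∈ XmJ hS.na t0 σ i)
    (hy' : y' ∈ XmJ hS.na t0 σ i)
    (h1 : ((y : GL C.Idx k) : Matrix C.Idx C.Idx k) (Sum.inr (-δ)) (Sum.inr δ) ≠ 0)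
    (h2 : ((y' : GL C.Idx k) : Matrix C.Idx C.Idx k) (Sum.inr (-δ)) (Sum.inr δ) ≠ 0) :
    ∃ x ∈ FT D k ⊓ Esr D σ, C.chi ((x : GL C.Idx k) : Matrix C.Idx C.Idx k) δ =
      ((y : GL C.Idx k) : Matrix C.Idx C.Idx k) (Sum.inr (-δ)) (Sum.inr δ) /
        ((y' : GL C.Idx k) : Matrix C.Idx C.Idx k) (Sum.inr (-δ)) (Sum.inr δ) := by
  have hne : ∀ z : GF D k, ((z : GL C.Idx k) : Matrix C.Idx C.Idx k) (Sum.inr (-δ)) (Sum.inr δ) ≠ 0
      → z ≠ 1 := by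
    rintro z hz rfl
    apply hz
    rw [Subgroup.coe_one, Units.val_one]
    apply Matrix.one_apply_ne
    intro h3
    exact C.neg_ne_self δ (congrArg (fun β : C.Root => β.1) (Sum.inr_injective h3))
  have hmem : ∀ z ∈ XJ hS.na t0 σ i, z ∈ Esr D σ := fun z hz =>
    (le_sup_left : _ ≤ Esr D σ) ((XJ_le hS i).1 hz)
  have hmem' : ∀ z ∈ XmJ hS.na t0 σ i, z ∈ Esr D σ := fun z hz =>
    (le_sup_right : _ ≤ Esr D σ) ((XJ_le hS i).2 hz)
  have hU1 : ∀ z ∈ XJ hS.na t0 σ i, C.Fil 1 (((z : GL C.Idx k) : Matrix C.Idx C.Idx k) - 1) :=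
    fun z hz => C.Fil_U 1 le_rfl _ (Z10_FU_U z ((XJ_le hS i).1 hz).1)
  have hhti : ∀ a : C.Idx, C.hti a ≤ ht δ.1 ∧ - ht δ.1 ≤ C.hti a := by
    intro a
    have h0 : 0 ≤ ht δ.1 := by
      unfold ht
      exact Finset.sum_nonneg fun j _ => by have := hδ.full j; omega
    rcases a with a | β
    · change (0 : ℤ) ≤ _ ∧ _ ≤ (0 : ℤ)
      omega
    · change ht β.1 ≤ _ ∧ _ ≤ ht β.1
      refine ⟨hδ.le β, ?_⟩
      have := hδ.le (-β)
      rw [SLC.Root.neg_val, ht_neg] at this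
      omega
  -- the entry of `y` is the entry of `ν`
  have hentry : ∀ (u ν v : GF D k), u ∈ XJ hS.na t0 σ i → v ∈ XJ hS.na t0 σ i →
      (((u * ν * v : GF D k) : GL C.Idx k) : Matrix C.Idx C.Idx k) (Sum.inr (-δ)) (Sum.inr δ) =
      ((ν : GL C.Idx k) : Matrix C.Idx C.Idx k) (Sum.inr (-δ)) (Sum.inr δ) := by
    intro u ν v hu hv
    have hu1 : ∀ b, ((u : GL C.Idx k) : Matrix C.Idx C.Idx k) (Sum.inr (-δ)) b =
        (1 : Matrix C.Idx C.Idx k) (Sum.inr (-δ)) b := by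
      intro b
      have h3 := hU1 u hu (Sum.inr (-δ)) b (by
        change ht (-δ).1 < _
        rw [SLC.Root.neg_val, ht_neg]
        have := (hhti b).2
        omega)
      rw [Matrix.sub_apply] at h3
      exact sub_eq_zero.mp h3
    have hv1 : ∀ a, ((v : GL C.Idx k) : Matrix C.Idx C.Idx k) a (Sum.inr δ) =
        (1 : Matrix C.Idx C.Idx k) a (Sum.inr δ) := by
      intro a
      have h3 := hU1 v hv a (Sum.inr δ) (by
        change _ < ht δ.1 + 1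
        have := (hhti a).1
        omega)
      rw [Matrix.sub_apply] at h3
      exact sub_eq_zero.mp h3
    rw [Subgroup.coe_mul, Subgroup.coe_mul, Units.val_mul, Units.val_mul, Matrix.mul_apply]
    simp_rw [hv1]
    rw [← Matrix.mul_apply, Matrix.mul_one, Matrix.mul_apply]
    simp_rw [hu1]
    rw [← Matrix.mul_apply, Matrix.one_mul]
  obtain ⟨u, hu, v, hv, ν, hν, hsν, hyν, w, hw, hIw, hact⟩ := nuJ_of_opp hS h i y hy (hne y h1)
  obtain ⟨u', hu', v', hv', ν', hν', hsν', hyν', w', hw', hIw', hact'⟩ :=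
    nuJ_of_opp hS h i y' hy' (hne y' h2)
  have hww : w = w' := IswJ.unique hw hw' hIw hIw'
  rw [← hww] at hact'
  have hT := FN_T hS.na ν' ν hν' hν w hact' hact
  have hνE : ν ∈ Esr D σ := by
    have e1 : ν = u⁻¹ * y * v⁻¹ := by rw [hyν]; group
    rw [e1]
    exact mul_mem (mul_mem (inv_mem (hmem u hu)) (hmem' y hy)) (inv_mem (hmem v hv))
  have hνE' : ν' ∈ Esr D σ := by
    have e1 : ν' = u'⁻¹ * y' * v'⁻¹ := by rw [hyν']; group
    rw [e1]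
    exact mul_mem (mul_mem (inv_mem (hmem u' hu')) (hmem' y' hy')) (inv_mem (hmem v' hv'))
  refine ⟨ν'⁻¹ * ν, Subgroup.mem_inf.mpr ⟨hT, mul_mem (inv_mem hνE') hνE⟩, ?_⟩
  rw [hyν, hyν', hentry u ν v hu hv, hentry u' ν' v' hu' hv']
  have hν'0 : ((ν' : GL C.Idx k) : Matrix C.Idx C.Idx k) (Sum.inr (-δ)) (Sum.inr δ) ≠ 0 := by
    rw [hyν', hentry u' ν' v' hu' hv'] at h2
    exact h2
  rw [eq_div_iff hν'0]
  obtain ⟨c, hc⟩ := C.T_diag _ (Subgroup.mem_subgroupOf.mp hT)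
  have e2 : ((ν : GL C.Idx k) : Matrix C.Idx C.Idx k) =
      ((ν' : GL C.Idx k) : Matrix C.Idx C.Idx k) *
        (((ν'⁻¹ * ν : GF D k) : GL C.Idx k) : Matrix C.Idx C.Idx k) := by
    rw [← Units.val_mul, ← Subgroup.coe_mul, mul_inv_cancel_left]
  conv_rhs => rw [e2]
  unfold SLC.chi
  rw [hc, Matrix.mul_diagonal, Matrix.diagonal_apply_eq, mul_comm]

end

section
variable {k : Type*} [Field k] [Infinite k] {θ : k ≃+* k} {σ : GF dD4 k →* GF dD4 k}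
  (h : SRs dD4 tD4 θ σ)

theorem Z10_J4 (i : Fin 4) : JJ dD4 tD4 0 i := by
  have h0 : dD4.ρ.SameCycle 0 2 := ⟨1, rfl⟩
  have h1 : dD4.ρ.SameCycle 0 3 := ⟨2, rfl⟩
  fin_cases i
  · exact Or.inl (.refl _ _)
  · exact Or.inr (.refl _ _)
  · exact Or.inl h0
  · exact Or.inl h1

theorem Z10_c4 (i : Fin 4) (hi : dD4.ρ i ≠ i) : dD4.ρ.SameCycle 0 i := by
  have h0 : dD4.ρ.SameCycle 0 2 := ⟨1, rfl⟩
  have h1 : dD4.ρ.SameCycle 0 3 := ⟨2, rfl⟩
  fin_cases i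
  · exact .refl _ _
  · exact absurd rfl hi
  · exact h0
  · exact h1

include h

theorem Z10_G2 (βP βQ βR βS : cD4.Root) (hr : G2r βP βQ βR βS) :
    (∀ x : GF dD4 k, x ∈ XJ swap_D4.na tD4 σ 0 ↔ ∃ t v w, x = G2x θ
      (yg swap_D4.na (cD4.simple 0)) (yg swap_D4.na (cD4.simple 1)) (yg swap_D4.na βP)
      (yg swap_D4.na βQ) (yg swap_D4.na βR) (yg swap_D4.na βS) t v w) ∧
    ∀ i, dD4.ρ i ≠ i → ∀ t v w, cD4.xi i (((G2x θ (yg swap_D4.na (cD4.simple 0))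
      (yg swap_D4.na (cD4.simple 1)) (yg swap_D4.na βP) (yg swap_D4.na βQ) (yg swap_D4.na βR)
      (yg swap_D4.na βS) t v w : GF dD4 k) : GL cD4.Idx k) : Matrix cD4.Idx cD4.Idx k) = t := by
  obtain ⟨hB, hF⟩ := G2_inst h βP βQ βR βS hr
  constructor
  · intro x
    have hX : x ∈ XJ swap_D4.na tD4 σ 0 ↔ x ∈ FU dD4 k ⊓ Fx σ := by
      unfold XJ
      rw [RJ_D4, FU_FR swap_D4.na]
    rw [hX]
    constructor
    · rintro ⟨hx, hf⟩
      obtain ⟨t, u, v, w, z, y, rfl⟩ := (hF x).mp hx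
      exact ⟨t, v, w, G2_form hB t u v w z y hf⟩
    · rintro ⟨t, v, w, rfl⟩
      exact ⟨(hF _).mpr ⟨_, _, _, _, _, _, rfl⟩, G2_fix hB t v w⟩
  · intro i hi t v w
    have hP2 : 2 ≤ ht βP.1 := by
      rw [hr.hP]
      decide
    have hQ2 : 2 ≤ ht βQ.1 := by
      rw [hr.hQ]
      decide
    have hR2 : 2 ≤ ht βR.1 := by
      rw [hr.hR]
      decide
    have hS2 : 2 ≤ ht βS.1 := by
      rw [hr.hS]
      decide
    have mA := yg_pos swap_D4.na (cD4.simple 0) (cD4.simple_pos 0) t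
    have mB := yg_pos swap_D4.na (cD4.simple 1) (cD4.simple_pos 1) (θ t)
    have mP := yg_pos swap_D4.na βP (by unfold SLC.Pos; omega) v
    have mQ := yg_pos swap_D4.na βQ (by unfold SLC.Pos; omega) w
    have mR := yg_pos swap_D4.na βR (by unfold SLC.Pos; omega) (-θ v - t ^ 3 * θ t)
    have mS := yg_pos swap_D4.na βS (by unfold SLC.Pos; omega) (-θ w - t ^ 3 * θ t ^ 2)
    unfold G2x
    rw [Z10_xi_mul i _ _ (mul_mem (mul_mem (mul_mem (mul_mem mA mB) mP) mQ) mR) mS,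
      Z10_xi_mul i _ _ (mul_mem (mul_mem (mul_mem mA mB) mP) mQ) mR,
      Z10_xi_mul i _ _ (mul_mem (mul_mem mA mB) mP) mQ, Z10_xi_mul i _ _ (mul_mem mA mB) mP,
      Z10_xi_mul i _ _ mA mB, Z10_xi_ht swap_D4.na i βP hP2, Z10_xi_ht swap_D4.na i βQ hQ2,
      Z10_xi_ht swap_D4.na i βR hR2, Z10_xi_ht swap_D4.na i βS hS2,
      Z10_xi_fix swap_D4.na i 1 hi rfl,
      (xi_yg swap_D4.na i _ (cD4.simple_pos 0) t).1 ⟨0, rfl, Z10_c4 i hi⟩]
    ring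

theorem onto3 (i : Fin 4) (hi : dD4.ρ i ≠ i) (t : k) : ∃ x ∈ XJ swap_D4.na tD4 σ i,
    cD4.xi i ((x : GL cD4.Idx k) : Matrix cD4.Idx cD4.Idx k) = t := by
  obtain ⟨βP, βQ, βR, βS, hr⟩ := G2_roots
  obtain ⟨h1, h2⟩ := Z10_G2 h βP βQ βR βS hr
  rw [← (XJ_congr swap_D4 (σ := σ) 0 i (Z10_J4 i)).1]
  exact ⟨_, (h1 _).mpr ⟨t, 0, 0, rfl⟩, h2 i hi t 0 0⟩

theorem ker3 (i : Fin 4) (hi : dD4.ρ i ≠ i) (x : GF dD4 k) (hx : x ∈ XJ swap_D4.na tD4 σ i)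
    (h0 : cD4.xi i ((x : GL cD4.Idx k) : Matrix cD4.Idx cD4.Idx k) = 0) :
    x ∈ ⁅XJ swap_D4.na tD4 σ i, XJ swap_D4.na tD4 σ i⁆ := by
  obtain ⟨βP, βQ, βR, βS, hr⟩ := G2_roots
  obtain ⟨h1, h2⟩ := Z10_G2 h βP βQ βR βS hr
  rw [← (XJ_congr swap_D4 (σ := σ) 0 i (Z10_J4 i)).1] at hx ⊢
  obtain ⟨t, v, w, rfl⟩ := (h1 _).mp hx
  rw [h2 i hi] at h0
  rw [h0]
  exact G2_ker (G2_inst h βP βQ βR βS hr).1 _ h1 v w

theorem opp3 (i : Fin 4) : ∃ y ∈ XmJ swap_D4.na tD4 σ i, y ≠ 1 := by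
  obtain ⟨βP, βQ, βR, βS, hr⟩ := G2_roots
  obtain ⟨e, -, he⟩ := G2_opp h βP βQ βR βS hr
  rw [← (XJ_congr swap_D4 (σ := σ) 0 i (Z10_J4 i)).2]
  refine ⟨_, he 1, Z10_ne_one swap_D4.na _ _ ?_ ?_ _⟩
  · rw [dD4.r_neg]
    intro h3
    have h5 := congrArg (fun β : cD4.Root => -β) h3
    simp only [ZJ1_neg_neg] at h5
    exact hr.rQ h5
  · rw [dD4.r_neg, hr.rS]

end

end Pool.Agent.H86.UM
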