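import Pool.Agent.H86.UM.Z10

/-!
# Project UM, Suzuki-Ree groups, module Z11: torus elements, rank one

`A₃`: `βP = α₀ + α₁`, `βQ = α₀ + α₁ + α₂ = δ` is the highest root (`B2_roots` with `i = 0`, `t0 0 = 1`). The matrix
entry of `y = yg (-βP) v * yg (-βQ) w` at `(-δ, δ)` is `w ^ 2`: `yg (-βQ) w = x_(-δ)(w)` maps `e_δ` to
`e_δ + w * (Cartan) + w ^ 2 e_(-δ)` (`X = 1 + w E + w ^ 2 F`), and `yg (-βP) v = x_(-βP)(v) x_(-r βP)(v)`
(up to signs) has the entries `1` at `(-δ, -δ)` and `0` at `(-δ, δ)`, `(-δ, inl i)`: the entries of a product of two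
factors `x_(-β₁)(·) x_(-β₂)(·)` at `(-δ, a)`: `-δ` must be `a - c₁ β₁ - c₂ β₂` with `0 ≤ c₁, c₂ ≤ 2` (weights),
`β₁ = (1,1,0)`, `β₂ = (0,1,1)`, `δ = (1,1,1)`: `δ = c₁ β₁ + c₂ β₂` or `2 δ = c₁ β₁ + c₂ β₂` are impossible.
(Or compute the row `-δ` directly: row `-δ` of `x_(-β₁)(v)` has the nonzero entries `1` at `-δ` and `± v` at
`-δ + β₁` only, then multiply by `x_(-β₂)(v)`: row `-δ + β₁ = (0,0,-1)`: nonzero entries at itself and (if
`(0,0,-1) + β₂ = (0,1,0)` is a root) at `(0,1,0)`; so the row `-δ` of the product is supported at `-δ, -δ+β₁, -δ+β₂,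
(0,1,0)`.)
So `tor_ratio` with `B2_opp`: `w = θ v`: there is `x ∈ FT ⊓ Esr` with `χ_δ(x) = z ^ 2` for arbitrary `z ≠ 0`.
`χ_δ = χ_0 χ_1 χ_2` (`chi_prod`), `χ_2 = χ_0`, `χ_1 = θ χ_0` (`chi_sgl`, `sig_chi_simple`, `σ x = x`): with
`c = χ_0(x)`: `c ^ 2 θ c = z ^ 2`. Take `z = s * θ⁻¹ s`: `z ^ 2 = s ^ 2 * θ s`. So `d = c / s` satisfies
`d ^ 2 θ d = 1`, `θ d = d⁻²`, `d ^ 2 = θ (θ d) = d ^ 4`, `d = 1` (characteristic `2`). So `χ_0(x) = s`. For `i = 2` the
same. No other class. `N = 1`.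

`D₄`: `δ = βS = (1,2,1,1)`; `y = yg (-βQ) v * yg (-βS) (e θ v)` (`G2_opp`), entry `(θ v) ^ 2` (the same
argument: `yg (-βQ) v` is a product of three `x_(-β_l)`, `β_l ∈ {(1,1,1,0), (0,1,1,1), (1,1,0,1)}`; weights:
`δ = ∑ c_l β_l`: coordinates `0, 2, 3`: pairwise sums of the `c_l` are `1`, sum `3/2`: impossible;
`2 δ = ∑ c_l β_l`: pairwise sums `2`, so `c_l = 1`, but the coordinate at the node `1` is `∑ c_l = 3 ≠ 4`).
`χ_δ = χ_0 χ_1 ^ 2 χ_2 χ_3 = c ^ 3 (θ c) ^ 2`; `z = s ^ 3 (θ s) ^ 2`, `c` with `c ^ 3 (θ c) ^ 2 = z ^ 2`,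
`d = c / s ^ 2`: `d ^ 3 (θ d) ^ 2 = 1`, `(θ d) ^ 2 = (θ (θ d))⁻¹`, so `d ^ 2 = (θ d)⁻¹`, `θ d = d⁻²`,
`d ^ 3 = θ (θ d) = d ^ 4`, `d = 1`. So `χ_0(x) = s ^ 2`, `N = 2`.
-/

set_option autoImplicit false
open Matrix

namespace Pool.Agent.H86.UM

open Pool.Agent.H75.UL

section gen
variable {n : ℕ} {C : SLC n} {k : Type*} [Field k]

/-- weights -/
private def Z11_wt (C : SLC n) : C.Idx → (Fin n → ℤ) := Sum.elim (fun _ => 0) (fun β => β.1)

/-- `M` is compatible with the weight function `f` and strictly lowers the height, up to the identity. -/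
private def Z11_P (C : SLC n) (f : (Fin n → ℤ) →+ ℤ) (M : Matrix C.Idx C.Idx k) : Prop :=
  (∀ a b, f (Z11_wt C a) ≠ f (Z11_wt C b) → M a b = 0) ∧
    ∀ a b, C.hti b ≤ C.hti a → M a b = (1 : Matrix C.Idx C.Idx k) a b

private theorem Z11_P_one (f : (Fin n → ℤ) →+ ℤ) : Z11_P C f (1 : Matrix C.Idx C.Idx k) := by
  refine ⟨fun a b h => ?_, fun a b _ => rfl⟩
  rw [Matrix.one_apply, if_neg]
  rintro rfl
  exact h rfl

private theorem Z11_P_mul (f : (Fin n → ℤ) →+ ℤ) {M N : Matrix C.Idx C.Idx k}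
    (hM : Z11_P C f M) (hN : Z11_P C f N) : Z11_P C f (M * N) := by
  refine ⟨fun a b h => ?_, fun a b h => ?_⟩
  · rw [Matrix.mul_apply]
    apply Finset.sum_eq_zero
    intro c _
    by_cases h1 : f (Z11_wt C a) = f (Z11_wt C c)
    · rw [hN.1 c b (fun h2 => h (h1.trans h2)), mul_zero]
    · rw [hM.1 a c h1, zero_mul]
  · rw [Matrix.mul_apply, Finset.sum_eq_single a]
    · rw [hM.2 a a le_rfl, Matrix.one_apply_eq, one_mul, hN.2 a b h]
    · intro c _ hc
      by_cases h1 : C.hti c ≤ C.hti a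
      · rw [hM.2 a c h1, Matrix.one_apply_ne (Ne.symm hc), zero_mul]
      · rw [not_le] at h1
        rw [hN.2 c b (h.trans h1.le), Matrix.one_apply_ne, mul_zero]
        rintro rfl
        exact absurd h (not_le.mpr h1)
    · intro h1
      exact absurd (Finset.mem_univ a) h1

private theorem Z11_P_X (f : (Fin n → ℤ) →+ ℤ) (α : C.Root) (hα : f α.1 = 0)
    (hneg : ht α.1 < 0) (t : k) : Z11_P C f (C.X k α t) := by
  have key : ∀ a b, (f (Z11_wt C a) ≠ f (Z11_wt C b) ∨ C.hti b ≤ C.hti a) →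
      C.E α a b = 0 ∧ C.F α a b = 0 := by
    intro a b h
    rcases a with i | γ <;> rcases b with j | β
    · exact ⟨rfl, rfl⟩
    · refine ⟨?_, rfl⟩
      change (if β.1 = -α.1 then - α.1 i else 0) = 0
      rw [if_neg]
      intro h1
      rcases h with h | h
      · apply h
        change f 0 = f β.1
        rw [h1, map_neg, hα, map_zero, neg_zero]
      · have h2 : ht β.1 ≤ 0 := h
        rw [h1, ht_neg] at h2
        omega
    · refine ⟨?_, rfl⟩
      change (if γ.1 = α.1 then - C.ip (Pi.single j 1) α.1 else 0) = 0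
      rw [if_neg]
      intro h1
      rcases h with h | h
      · apply h
        change f γ.1 = f 0
        rw [h1, hα, map_zero]
      · have h2 : 0 ≤ ht γ.1 := h
        rw [h1] at h2
        omega
    · constructor
      · change (if γ.1 = α.1 + β.1 then C.eps α.1 β.1 else 0) = 0
        rw [if_neg]
        intro h1
        rcases h with h | h
        · apply h
          change f γ.1 = f β.1
          rw [h1, map_add, hα, zero_add]
        · have h2 : ht β.1 ≤ ht γ.1 := h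
          rw [h1, ht_add] at h2
          omega
      · change (if γ.1 = α.1 ∧ β.1 = -α.1 then (1 : ℤ) else 0) = 0
        rw [if_neg]
        rintro ⟨h1, h3⟩
        rcases h with h | h
        · apply h
          change f γ.1 = f β.1
          rw [h1, h3, map_neg, hα, neg_zero]
        · have h2 : ht β.1 ≤ ht γ.1 := h
          rw [h1, h3, ht_neg] at h2
          omega
  have hX : ∀ a b, (f (Z11_wt C a) ≠ f (Z11_wt C b) ∨ C.hti b ≤ C.hti a) →
      C.X k α t a b = (1 : Matrix C.Idx C.Idx k) a b := by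
    intro a b h
    obtain ⟨h1, h2⟩ := key a b h
    unfold SLC.X
    rw [Matrix.add_apply, Matrix.add_apply, Matrix.smul_apply, Matrix.smul_apply,
      Matrix.map_apply, Matrix.map_apply, h1, h2, Int.cast_zero, smul_zero, smul_zero, add_zero,
      add_zero]
  refine ⟨fun a b h => ?_, fun a b h => hX a b (Or.inr h)⟩
  rw [hX a b (Or.inl h), Matrix.one_apply, if_neg]
  rintro rfl
  exact h rfl

private theorem Z11_P_list (f : (Fin n → ℤ) →+ ℤ) (l : List (GL C.Idx k))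
    (hl : ∀ g ∈ l, Z11_P C f (g : Matrix C.Idx C.Idx k)) :
    Z11_P C f ((l.prod : GL C.Idx k) : Matrix C.Idx C.Idx k) := by
  induction l with
  | nil => exact Z11_P_one f
  | cons g l ih =>
    rw [List.prod_cons, Units.val_mul]
    exact Z11_P_mul f (hl g (List.mem_cons_self))
      (ih fun x hx => hl x (List.mem_cons_of_mem _ hx))

variable {D : Dg C}

private theorem Z11_ht_iter (β : C.Root) (l : ℕ) : ht (D.r^[l] β).1 = ht β.1 := by
  induction l with
  | zero => rfl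
  | succ l ih => rw [Function.iterate_succ_apply', D.r_ht, ih]

private theorem Z11_f_iter (f : (Fin n → ℤ) →+ ℤ) (hf : ∀ v, f (SLC.lmap D.ρ v) = f v)
    (β : C.Root) (l : ℕ) : f (D.r^[l] β).1 = f β.1 := by
  induction l with
  | zero => rfl
  | succ l ih =>
    rw [Function.iterate_succ_apply']
    change f (SLC.lmap D.ρ (D.r^[l] β).1) = _
    rw [hf, ih]

private theorem Z11_ht_cycle (β γ : C.Root) (h : D.rE.SameCycle β γ) : ht γ.1 = ht β.1 := by
  obtain ⟨l, -, rfl⟩ := (D.sameCycle_iff _ _).1 h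
  exact Z11_ht_iter β l

private theorem Z11_entry [Infinite k] (hN : D.NA) (f : (Fin n → ℤ) →+ ℤ)
    (hf : ∀ v, f (SLC.lmap D.ρ v) = f v)
    (β δ : C.Root) (hβ : f β.1 = 0) (hpos : 0 < ht β.1) (hδ : f δ.1 ≠ 0) (hr : D.r δ = δ)
    (v w : k) :
    (((yg hN (-β) v * yg hN (-δ) w : GF D k) : GL C.Idx k) : Matrix C.Idx C.Idx k)
      (Sum.inr (-δ)) (Sum.inr δ) = w ^ 2 := by
  have hrn : D.r (-δ) = -δ := by rw [D.r_neg, hr]
  have hP : Z11_P C f (((yg hN (-β) v : GF D k) : GL C.Idx k) : Matrix C.Idx C.Idx k) := by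
    rw [yg_val]
    unfold yb
    apply Z11_P_list
    intro g hg
    rw [List.mem_map] at hg
    obtain ⟨l, -, rfl⟩ := hg
    rw [ZJ1_factor]
    apply Z11_P_X
    · rw [Z11_f_iter f hf, SLC.Root.neg_val, map_neg, hβ, neg_zero]
    · rw [Z11_ht_iter, SLC.Root.neg_val, ht_neg]
      omega
  rw [Subgroup.coe_mul, Units.val_mul, yg_long hN (-δ) hrn, Matrix.mul_apply,
    Finset.sum_eq_single (Sum.inr (-δ))]
  · rw [hP.2 _ _ le_rfl, Matrix.one_apply_eq, one_mul]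
    change C.X k (-δ) w (Sum.inr (-δ)) (Sum.inr δ) = w ^ 2
    have hne : (Sum.inr (-δ) : C.Idx) ≠ Sum.inr δ := by
      intro h
      have h1 := congrArg (fun β : C.Root => β.1) (Sum.inr_injective h)
      exact C.neg_ne_self δ h1
    have h1 : C.E (-δ) (Sum.inr (-δ)) (Sum.inr δ) = 0 := by
      change (if (-δ).1 = (-δ).1 + δ.1 then C.eps (-δ).1 δ.1 else 0) = 0
      rw [if_neg]
      intro h
      exact C.root_ne_zero δ (left_eq_add.mp h)
    have h2 : C.F (-δ) (Sum.inr (-δ)) (Sum.inr δ) = 1 := by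
      change (if (-δ).1 = (-δ).1 ∧ δ.1 = -(-δ).1 then (1 : ℤ) else 0) = 1
      rw [if_pos]
      exact ⟨rfl, by rw [SLC.Root.neg_val, neg_neg]⟩
    unfold SLC.X
    rw [Matrix.add_apply, Matrix.add_apply, Matrix.smul_apply, Matrix.smul_apply,
      Matrix.map_apply, Matrix.map_apply, h1, h2, Matrix.one_apply_ne hne, Int.cast_zero,
      Int.cast_one, smul_zero, smul_eq_mul, mul_one, add_zero, zero_add]
  · rintro (i | γ) _ hc
    · rw [hP.1 _ (Sum.inl i), zero_mul]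
      change f (-δ).1 ≠ f 0
      rw [SLC.Root.neg_val, map_neg, map_zero]
      exact neg_ne_zero.mpr hδ
    · by_cases hγ : γ = δ
      · rw [hP.1 _ (Sum.inr γ), zero_mul]
        change f (-δ).1 ≠ f γ.1
        rw [hγ, SLC.Root.neg_val, map_neg]
        omega
      · have h0 : (C.X k (-δ) w) (Sum.inr γ) (Sum.inr δ) = 0 := by
          have hne : (Sum.inr γ : C.Idx) ≠ Sum.inr δ := fun h => hγ (Sum.inr_injective h)
          have h1 : C.E (-δ) (Sum.inr γ) (Sum.inr δ) = 0 := by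
            change (if γ.1 = (-δ).1 + δ.1 then C.eps (-δ).1 δ.1 else 0) = 0
            rw [if_neg]
            intro h
            rw [SLC.Root.neg_val, neg_add_cancel] at h
            exact C.root_ne_zero γ h
          have h2 : C.F (-δ) (Sum.inr γ) (Sum.inr δ) = 0 := by
            change (if γ.1 = (-δ).1 ∧ δ.1 = -(-δ).1 then (1 : ℤ) else 0) = 0
            rw [if_neg]
            rintro ⟨h, -⟩
            exact hc (congrArg Sum.inr (SLC.Root.ext h))
          unfold SLC.X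
          rw [Matrix.add_apply, Matrix.add_apply, Matrix.smul_apply, Matrix.smul_apply,
            Matrix.map_apply, Matrix.map_apply, h1, h2, Matrix.one_apply_ne hne, Int.cast_zero,
            smul_zero, smul_zero, add_zero, add_zero]
        change _ * C.X k (-δ) w (Sum.inr γ) (Sum.inr δ) = 0
        rw [h0, mul_zero]
  · intro h
    exact absurd (Finset.mem_univ _) h

private theorem Z11_chi_prod (x : GF D k) (hx : x ∈ FT D k) (γ : C.Root) :
    C.chi ((x : GL C.Idx k) : Matrix C.Idx C.Idx k) γ =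
      ∏ j, C.chi ((x : GL C.Idx k) : Matrix C.Idx C.Idx k) (C.simple j) ^ γ.1 j := by
  have hx' : (x : GL C.Idx k) ∈ (C.adS k).T := hx
  obtain ⟨c, hc⟩ := C.T_diag _ hx'
  have h1 : ∀ δ : C.Root, C.chi ((x : GL C.Idx k) : Matrix C.Idx C.Idx k) δ =
      ((∏ j, c j ^ δ.1 j : kˣ) : k) := by
    intro δ
    unfold SLC.chi
    rw [hc, Matrix.diagonal_apply_eq]
    rfl
  have h2 : ∀ j, C.chi ((x : GL C.Idx k) : Matrix C.Idx C.Idx k) (C.simple j) = (c j : k) := by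
    intro j
    rw [h1, Finset.prod_eq_single j]
    · rw [SLC.simple_val, Pi.single_eq_same, zpow_one]
    · intro i _ hi
      rw [SLC.simple_val, Pi.single_eq_of_ne hi, zpow_zero]
    · intro h
      exact absurd (Finset.mem_univ j) h
  rw [h1, Units.coe_prod]
  refine Finset.prod_congr rfl fun j _ => ?_
  rw [h2, Units.val_zpow_eq_zpow_val]

private theorem Z11_chi_ne (x : GF D k) (hx : x ∈ FT D k) (γ : C.Root) :
    C.chi ((x : GL C.Idx k) : Matrix C.Idx C.Idx k) γ ≠ 0 := by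
  have hx' : (x : GL C.Idx k) ∈ (C.adS k).T := hx
  exact (C.T_fix _ hx' γ 0).1

private theorem Z11_chi_rho [Infinite k] (hN : D.NA) (x : GF D k) (j : Fin n) :
    C.chi ((x : GL C.Idx k) : Matrix C.Idx C.Idx k) (C.simple (D.ρ j)) =
      C.chi ((x : GL C.Idx k) : Matrix C.Idx C.Idx k) (C.simple j) := by
  have h1 := chi_sgl D (RingEquiv.refl k) (x : GL C.Idx k) (C.simple j)
  rw [(mem_GF_fix hN _ x.2).1, D.r_simple] at h1
  exact h1

end gen

variable {k : Type*} [Field k] [Infinite k] {θ : k ≃+* k}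

private theorem Z11_JJ_A3 (i j : Fin 3) : JJ dA3 tA3 i j := by
  have h0 : ∀ j : Fin 3, JJ dA3 tA3 0 j := by
    intro j
    fin_cases j
    · exact Or.inl (Equiv.Perm.SameCycle.refl _ _)
    · exact Or.inr (Equiv.Perm.SameCycle.refl _ _)
    · exact Or.inl ⟨1, rfl⟩
  exact JJ_trans swap_A3 _ _ _ (JJ_symm swap_A3 _ _ (h0 i)) (h0 j)

private theorem Z11_JJ_D4 (i j : Fin 4) : JJ dD4 tD4 i j := by
  have h0 : ∀ j : Fin 4, JJ dD4 tD4 0 j := by
    intro j
    fin_cases j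
    · exact Or.inl (Equiv.Perm.SameCycle.refl _ _)
    · exact Or.inr (Equiv.Perm.SameCycle.refl _ _)
    · exact Or.inl ⟨1, rfl⟩
    · exact Or.inl ⟨2, rfl⟩
  exact JJ_trans swap_D4 _ _ _ (JJ_symm swap_D4 _ _ (h0 i)) (h0 j)

/-- `v 0 + v 2 - v 1` -/
private def Z11_fA : (Fin 3 → ℤ) →+ ℤ where
  toFun v := v 0 + v 2 - v 1
  map_zero' := rfl
  map_add' v w := by
    simp only [Pi.add_apply]
    ring

/-- `v 0 + v 2 + v 3 - 2 v 1` -/
private def Z11_fD : (Fin 4 → ℤ) →+ ℤ where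
  toFun v := v 0 + v 2 + v 3 - 2 * v 1
  map_zero' := rfl
  map_add' v w := by
    simp only [Pi.add_apply]
    ring

private theorem Z11_highest {n : ℕ} {C : SLC n} (hn : 0 < n) (δ : C.Root) (hδ : C.Pos δ)
    (h : ∀ β, C.Pos β → ht δ.1 ≤ ht β.1 → β = δ) : C.IsHighest δ := by
  obtain ⟨θ0, h0⟩ := C.exists_highest hn
  have h1 : θ0 = δ := by
    have h2 := h0.le δ
    refine h θ0 ?_ h2
    unfold SLC.Pos at hδ ⊢
    omega
  rw [← h1]
  exact h0

private theorem Z11_A3 {σ : GF dA3 k →* GF dA3 k} (h : SRs dA3 tA3 θ σ) (s : k) (hs : s ≠ 0) :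
    ∃ x ∈ FT dA3 k ⊓ Esr dA3 σ,
      cA3.chi ((x : GL cA3.Idx k) : Matrix cA3.Idx cA3.Idx k) (cA3.simple 0) = s := by
  obtain ⟨βP, βQ, hr⟩ := B2_roots swap_A3 dA3_m 0 (by decide) (by rfl)
  have hP : βP.1 = ![1, 1, 0] := by
    rw [hr.hP]
    decide
  have hQ : βQ.1 = ![1, 1, 1] := by
    rw [hr.hQ]
    decide
  have htP : ht βP.1 = 2 := by rw [hP]; decide
  have htQ : ht βQ.1 = 3 := by rw [hQ]; decide
  have hhi : cA3.IsHighest βQ := by
    apply Z11_highest (by norm_num)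
    · unfold SLC.Pos
      omega
    · intro β hβ hle
      have hβ' : β ∈ RJ dA3 tA3 0 := ⟨hβ, fun j _ => Z11_JJ_A3 0 j⟩
      rcases (hr.mem β).1 hβ' with h1 | h1 | h1 | h1
      · have h2 := Z11_ht_cycle _ _ h1
        rw [SLC.ht_simple] at h2
        omega
      · rw [h1, SLC.ht_simple] at hle
        omega
      · have h2 := Z11_ht_cycle _ _ h1
        omega
      · exact h1
  have hfinv : ∀ v, Z11_fA (SLC.lmap dA3.ρ v) = Z11_fA v := by
    intro v
    change v 2 + v 0 - v 1 = v 0 + v 2 - v 1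
    ring
  have hent : ∀ v : k, ((((yg swap_A3.na (-βP) v * yg swap_A3.na (-βQ) (θ v) : GF dA3 k)) :
      GL cA3.Idx k) : Matrix cA3.Idx cA3.Idx k) (Sum.inr (-βQ)) (Sum.inr βQ) = (θ v) ^ 2 := by
    intro v
    refine Z11_entry swap_A3.na Z11_fA hfinv βP βQ ?_ (by omega) ?_ hr.rQ v (θ v)
    · rw [hP]; decide
    · rw [hQ]; decide
  have hmem : ∀ v : k, yg swap_A3.na (-βP) v * yg swap_A3.na (-βQ) (θ v) ∈
      XmJ swap_A3.na tA3 σ 0 := fun v =>
    B2_opp swap_A3 h dA3_m 0 (by decide) (by rfl) βP βQ hr v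
  have hz : s * θ.symm s ≠ 0 := by
    apply mul_ne_zero hs
    rw [Ne, map_eq_zero]
    exact hs
  obtain ⟨x, hx, hchi⟩ := tor_ratio swap_A3 h 0 (fun β _ j _ => Z11_JJ_A3 0 j) βQ hhi _ _
    (hmem (θ.symm (s * θ.symm s))) (hmem 1)
    (by rw [hent, RingEquiv.apply_symm_apply]; exact pow_ne_zero 2 hz)
    (by rw [hent, map_one, one_pow]; exact one_ne_zero)
  rw [hent, hent, map_one, one_pow, div_one, RingEquiv.apply_symm_apply] at hchi
  refine ⟨x, hx, ?_⟩
  have hxT : x ∈ FT dA3 k := hx.1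
  have hxs : σ x = x := Esr_le_Fx hx.2
  have hc0 := Z11_chi_ne x hxT (cA3.simple 0)
  rw [Z11_chi_prod x hxT, Fin.prod_univ_three] at hchi
  have e2 : cA3.chi ((x : GL cA3.Idx k) : Matrix cA3.Idx cA3.Idx k) (cA3.simple 2) =
      cA3.chi ((x : GL cA3.Idx k) : Matrix cA3.Idx cA3.Idx k) (cA3.simple 0) :=
    Z11_chi_rho swap_A3.na x 0
  have e1 : cA3.chi ((x : GL cA3.Idx k) : Matrix cA3.Idx cA3.Idx k) (cA3.simple 1) =
      θ (cA3.chi ((x : GL cA3.Idx k) : Matrix cA3.Idx cA3.Idx k) (cA3.simple 0)) := by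
    have h1 := sig_chi_simple swap_A3 h x hxT 0
    rw [hxs] at h1
    unfold th at h1
    rw [if_neg] at h1
    · exact h1
    · intro h2
      rw [Dg.r_simple] at h2
      have h3 := cA3.simple_injective h2
      revert h3
      decide
  rw [e1, e2, hQ] at hchi
  generalize cA3.chi ((x : GL cA3.Idx k) : Matrix cA3.Idx cA3.Idx k) (cA3.simple 0) = c at hchi hc0 ⊢
  change c ^ (1 : ℤ) * θ c ^ (1 : ℤ) * c ^ (1 : ℤ) = _ at hchi
  rw [zpow_one, zpow_one] at hchi
  have hθs : θ s = (θ.symm s) ^ 2 := by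
    have h1 := h.hθ (θ.symm s)
    rw [RingEquiv.apply_symm_apply, dA3_m] at h1
    exact h1
  have hsq : ∀ a : k, θ (θ a) = a ^ 2 := by
    intro a
    rw [h.hθ, dA3_m]
  -- `d = c / s`
  have hd : (c / s) ^ 2 * θ (c / s) = 1 := by
    rw [map_div₀]
    have hθs0 : θ s ≠ 0 := by rwa [Ne, map_eq_zero]
    rw [div_pow, div_mul_div_comm, div_eq_one_iff_eq (mul_ne_zero (pow_ne_zero 2 hs) hθs0)]
    calc c ^ 2 * θ c = c * θ c * c := by ring
      _ = (s * θ.symm s) ^ 2 := hchi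
      _ = s ^ 2 * θ s := by rw [hθs]; ring
  generalize hdd : c / s = d at hd
  have hd' := congrArg θ hd
  rw [map_mul, map_pow, hsq, map_one] at hd'
  have hd0 : d ≠ 0 := by
    rintro rfl
    rw [zero_pow (by norm_num), zero_mul] at hd
    exact zero_ne_one hd
  have hθd0 : θ d ≠ 0 := by rwa [Ne, map_eq_zero]
  have h5 : θ d = 1 := by
    have h6 : (d ^ 2 * θ d) * θ d = (d ^ 2 * θ d) * 1 := by
      rw [hd]
      calc 1 * θ d = θ d := one_mul _
        _ = (d ^ 2 * θ d) * θ d := by rw [hd, one_mul]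
        _ = θ d ^ 2 * d ^ 2 := by ring
        _ = 1 := hd'
        _ = 1 * 1 := (one_mul 1).symm
    exact mul_left_cancel₀ (mul_ne_zero (pow_ne_zero 2 hd0) hθd0) h6
  have h7 : d = 1 := by
    apply θ.injective
    rw [h5, map_one]
  rw [h7] at hdd
  exact (div_eq_one_iff_eq hs).mp hdd

theorem jhyp_A3 {σ : GF dA3 k →* GF dA3 k} (h : SRs dA3 tA3 θ σ) : JHyp swap_A3 σ 1 where
  N_ne := one_ne_zero
  onto i hi t := onto2 swap_A3 h dA3_m i hi t
  ker i hi x hx h0 := ker2 swap_A3 h dA3_m i hi x hx h0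
  opp i := opp2 swap_A3 h dA3_m i
  sep i hi s hs := by
    obtain ⟨x, hx, hc⟩ := Z11_A3 h s hs
    refine ⟨x, hx, ?_, fun j _ hj => absurd (Z11_JJ_A3 i j) hj⟩
    rw [pow_one]
    have h2 : i = 0 ∨ i = 2 := by
      revert hi
      revert i
      decide
    rcases h2 with rfl | rfl
    · exact hc
    · rw [← hc]
      exact Z11_chi_rho swap_A3.na x 0

private theorem Z11_D4 {σ : GF dD4 k →* GF dD4 k} (h : SRs dD4 tD4 θ σ) (s : k) (hs : s ≠ 0) :
    ∃ x ∈ FT dD4 k ⊓ Esr dD4 σ,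
      cD4.chi ((x : GL cD4.Idx k) : Matrix cD4.Idx cD4.Idx k) (cD4.simple 0) = s ^ 2 := by
  obtain ⟨βP, βQ, βR, βS, hr⟩ := G2_roots
  have htP : ht βP.1 = 2 := by rw [hr.hP]; decide
  have htQ : ht βQ.1 = 3 := by rw [hr.hQ]; decide
  have htR : ht βR.1 = 4 := by rw [hr.hR]; decide
  have htS : ht βS.1 = 5 := by rw [hr.hS]; decide
  have hhi : cD4.IsHighest βS := by
    apply Z11_highest (by norm_num)
    · unfold SLC.Pos
      omega
    · intro β hβ hle
      rcases (hr.mem β).1 hβ with h1 | h1 | h1 | h1 | h1 | h1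
      · have h2 := Z11_ht_cycle _ _ h1
        rw [SLC.ht_simple] at h2
        omega
      · rw [h1, SLC.ht_simple] at hle
        omega
      · have h2 := Z11_ht_cycle _ _ h1
        omega
      · have h2 := Z11_ht_cycle _ _ h1
        omega
      · rw [h1] at hle
        omega
      · exact h1
  have hfinv : ∀ v, Z11_fD (SLC.lmap dD4.ρ v) = Z11_fD v := by
    intro v
    change v 3 + v 0 + v 2 - 2 * v 1 = v 0 + v 2 + v 3 - 2 * v 1
    ring
  obtain ⟨e, he, hmem⟩ := G2_opp h βP βQ βR βS hr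
  have hent : ∀ v : k, ((((yg swap_D4.na (-βQ) v * yg swap_D4.na (-βS) (e * θ v) : GF dD4 k)) :
      GL cD4.Idx k) : Matrix cD4.Idx cD4.Idx k) (Sum.inr (-βS)) (Sum.inr βS) = (θ v) ^ 2 := by
    intro v
    rw [Z11_entry swap_D4.na Z11_fD hfinv βQ βS ?_ (by omega) ?_ hr.rS v (e * θ v)]
    · rcases he with rfl | rfl <;> ring
    · rw [hr.hQ]; decide
    · rw [hr.hS]; decide
  have hθs0 : θ s ≠ 0 := by rwa [Ne, map_eq_zero]
  have hz : s ^ 3 * (θ s) ^ 2 ≠ 0 := mul_ne_zero (pow_ne_zero 3 hs) (pow_ne_zero 2 hθs0)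
  obtain ⟨x, hx, hchi⟩ := tor_ratio swap_D4 h 0 (fun β _ j _ => Z11_JJ_D4 0 j) βS hhi _ _
    (hmem (θ.symm (s ^ 3 * (θ s) ^ 2))) (hmem 1)
    (by rw [hent, RingEquiv.apply_symm_apply]; exact pow_ne_zero 2 hz)
    (by rw [hent, map_one, one_pow]; exact one_ne_zero)
  rw [hent, hent, map_one, one_pow, div_one, RingEquiv.apply_symm_apply] at hchi
  refine ⟨x, hx, ?_⟩
  have hxT : x ∈ FT dD4 k := hx.1
  have hxs : σ x = x := Esr_le_Fx hx.2
  have hc0 := Z11_chi_ne x hxT (cD4.simple 0)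
  rw [Z11_chi_prod x hxT, Fin.prod_univ_four] at hchi
  have e2 : cD4.chi ((x : GL cD4.Idx k) : Matrix cD4.Idx cD4.Idx k) (cD4.simple 2) =
      cD4.chi ((x : GL cD4.Idx k) : Matrix cD4.Idx cD4.Idx k) (cD4.simple 0) :=
    Z11_chi_rho swap_D4.na x 0
  have e3 : cD4.chi ((x : GL cD4.Idx k) : Matrix cD4.Idx cD4.Idx k) (cD4.simple 3) =
      cD4.chi ((x : GL cD4.Idx k) : Matrix cD4.Idx cD4.Idx k) (cD4.simple 0) :=
    (Z11_chi_rho swap_D4.na x 2).trans e2
  have e1 : cD4.chi ((x : GL cD4.Idx k) : Matrix cD4.Idx cD4.Idx k) (cD4.simple 1) =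
      θ (cD4.chi ((x : GL cD4.Idx k) : Matrix cD4.Idx cD4.Idx k) (cD4.simple 0)) := by
    have h1 := sig_chi_simple swap_D4 h x hxT 0
    rw [hxs] at h1
    unfold th at h1
    rw [if_neg] at h1
    · exact h1
    · intro h2
      rw [Dg.r_simple] at h2
      have h3 := cD4.simple_injective h2
      revert h3
      decide
  rw [e1, e2, e3, hr.hS] at hchi
  generalize cD4.chi ((x : GL cD4.Idx k) : Matrix cD4.Idx cD4.Idx k) (cD4.simple 0) = c at hchi hc0 ⊢
  change c ^ (1 : ℤ) * θ c ^ (2 : ℤ) * c ^ (1 : ℤ) * c ^ (1 : ℤ) = _ at hchi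
  rw [zpow_one, zpow_two] at hchi
  have hcu : ∀ a : k, θ (θ a) = a ^ 3 := by
    intro a
    rw [h.hθ, dD4_m]
  have hs2 : s ^ 2 ≠ 0 := pow_ne_zero 2 hs
  have hd : (c / s ^ 2) ^ 3 * θ (c / s ^ 2) ^ 2 = 1 := by
    rw [map_div₀, map_pow]
    rw [div_pow, div_pow, div_mul_div_comm, div_eq_one_iff_eq
      (mul_ne_zero (pow_ne_zero 3 hs2) (pow_ne_zero 2 (pow_ne_zero 2 hθs0)))]
    calc c ^ 3 * θ c ^ 2 = c * (θ c * θ c) * c * c := by ring
      _ = (s ^ 3 * θ s ^ 2) ^ 2 := hchi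
      _ = (s ^ 2) ^ 3 * (θ s ^ 2) ^ 2 := by ring
  generalize hdd : c / s ^ 2 = d at hd
  have hd' := congrArg θ hd
  rw [map_mul, map_pow, map_pow, hcu, map_one] at hd'
  have hd0 : d ≠ 0 := by
    rintro rfl
    rw [zero_pow (by norm_num), zero_mul] at hd
    exact zero_ne_one hd
  have hθd0 : θ d ≠ 0 := by rwa [Ne, map_eq_zero]
  have h5 : θ d = 1 := by
    have h6 : (θ d ^ 3 * (d ^ 3) ^ 2) * θ d = (θ d ^ 3 * (d ^ 3) ^ 2) * 1 := by
      calc (θ d ^ 3 * (d ^ 3) ^ 2) * θ d = (d ^ 3 * θ d ^ 2) ^ 2 := by ring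
        _ = 1 := by rw [hd, one_pow]
        _ = (θ d ^ 3 * (d ^ 3) ^ 2) * 1 := by rw [hd', one_mul]
    exact mul_left_cancel₀ (mul_ne_zero (pow_ne_zero 3 hθd0)
      (pow_ne_zero 2 (pow_ne_zero 3 hd0))) h6
  have h7 : d = 1 := by
    apply θ.injective
    rw [h5, map_one]
  rw [h7] at hdd
  exact (div_eq_one_iff_eq hs2).mp hdd

theorem jhyp_D4 {σ : GF dD4 k →* GF dD4 k} (h : SRs dD4 tD4 θ σ) : JHyp swap_D4 σ 2 where
  N_ne := two_ne_zero
  onto i hi t := onto3 h i hi t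
  ker i hi x hx h0 := ker3 h i hi x hx h0
  opp i := opp3 h i
  sep i hi s hs := by
    obtain ⟨x, hx, hc⟩ := Z11_D4 h s hs
    refine ⟨x, hx, ?_, fun j _ hj => absurd (Z11_JJ_D4 i j) hj⟩
    have h2 : i = 0 ∨ i = 2 ∨ i = 3 := by
      revert hi
      revert i
      decide
    rcases h2 with rfl | rfl | rfl
    · exact hc
    · rw [← hc]
      exact Z11_chi_rho swap_D4.na x 0
    · rw [← hc]
      exact (Z11_chi_rho swap_D4.na x 2).trans (Z11_chi_rho swap_D4.na x 0)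

end Pool.Agent.H86.UM
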