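import Pool.Agent.H86.UM.Z10

/-!
# Project UM, Suzuki-Ree groups, module Z12: torus elements for `E₆`

`z t = yg α₀ t * yg α₁ (θ t) ∈ XJ 0`, `z' t = yg (-α₀) t * yg (-α₁) (θ t) ∈ XmJ 0` (`XJ_orth, XmJ_orth`;
`t0 0 = 1`, `C.A 0 1 = 0`). `nz t = z t * z' t⁻¹ * z t`; since everything commutes (`orth_comm`) this is
`nn x_α₀ t * nn x_α₅ t * nn x_α₁ (θ t)`, and `hz t = nz t * nz (-1)` is
`hh α₀ t * hh α₅ t * hh α₁ (θ t) ∈ FT` (characteristic `2`: `-1 = 1`, `θ (-1) = -1`), so by `h_conj`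
`χ_γ(hz t) = t ^ (ip α₀ γ + ip α₅ γ) * (θ t) ^ (ip α₁ γ)`.
`ν`: `nuJ_of_opp` for `i = 2` and `opp2` (`XJ_le`: `ν ∈ Esr`), acting by `w` with `IswJ 2 w`; the element
`w' = wd [2, 3, 4, 2, 3, 2]` (the longest element of the parabolic subgroup of the nodes `2, 3, 4`) also satisfies
`IswJ 2 w'` — or avoid this: `w` preserves `RcJ 2` and `- w` permutes `RJ 2`, and `w α₂`, `w α₄` are
`- α₂` or `- α₄`, `w α₃ = - α₃` (see Z9.lean, `a_ν`; `w` commutes with `rE`); from the inner products with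
these roots `w α₀ = α₀ + α₂ + α₃ + α₄` (write `w α₀ = ∑ c_j α_j`, inner products
with `w α₂, w α₃, w α₄` are `-1, 0, 0`, so if `w α₂ = -α₄`: `ip (w α₀) α₄ = 1, ip (w α₀) α₃ = 0, ip (w α₀) α₂ = 0`; and
the coordinates outside the nodes `2, 3, 4` are unchanged (`w` is a product of reflections? or use `w'`)).
It is probably easiest to show `w = w'` by `IswJ.unique`: `IswJ 2 w'` by `decide`-like computation on the roots:
`w' β` for the simple roots `β` (`wd`, `reflE`, coordinates): `α₂ ↦ -α₄, α₃ ↦ -α₃, α₄ ↦ -α₂,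
α₀ ↦ α₀+α₂+α₃+α₄, α₅ ↦ α₅+α₂+α₃+α₄, α₁ ↦ α₁+α₂+2α₃+α₄`, and linearity (`W_lin`): so the coordinates of
`w' β` at the nodes `0, 1, 5` are those of `β`; hence `w'` preserves `RcJ 2` (a positive coordinate outside
`{2,3,4}`), and on `RJ 2` (`β = a α₂ + b α₃ + c α₄`, nonnegative) `- w' β = a α₄ + b α₃ + c α₂`.
`χ_γ(ν x ν⁻¹) = χ_(w⁻¹ γ)(x)`, and `w⁻¹ = w` (`w w = 1`, or `IswJ.inv`, `IswJ.unique`).
With `T₁ = hz t`: `(χ_0, χ_2) = (t ^ 2, t⁻¹)`; `T₂ = ν (hz t) ν⁻¹`: `χ_0 = χ_(α₀+α₂+α₃+α₄)(hz t) =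
t ^ 2 * t⁻¹ * (θ t)⁻¹ * t⁻¹ = (θ t)⁻¹`, `χ_2 = χ_(-α₄)(hz t) = t`.
`sep` for the class of `0` (short nodes `0, 5`): `T₁(t) T₂(t)`: `(t ^ 2 / θ t, 1)`, and with `t = s * θ⁻¹ s`:
`t ^ 2 = s ^ 2 * θ s`, `θ t = θ s * s`: `χ_0 = s`. For the class of `2` (short nodes `2, 4`): `T₁(x) T₂(y)` with
`y = θ x`: `χ_0 = x ^ 2 * (θ (θ x))⁻¹ = 1`, `χ_2 = x⁻¹ θ x`, with `x = s * θ s`: `θ x = θ s * s ^ 2`, `χ_2 = s`.
`χ_5 = χ_0`, `χ_4 = χ_2` (`chi_sgl`). `N = 1`.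
`hz_spec` is needed later: it says that `hz t` is a product of `z`'s with the given characters.
-/

set_option autoImplicit false
open Matrix

namespace Pool.Agent.H86.UM

open Pool.Agent.H75.UL

private theorem Z12_s (j : Fin 6) (β : cE6.Root) : (cE6.reflE (cE6.simple j) β).1 =
    β.1 - Pi.single j ((cE6.A *ᵥ β.1) j) := by
  rw [SLC.reflE_apply, SLC.refl_val, SLC.simple_val, cE6.ip_single_left]
  congr 1
  funext l
  rw [Pi.smul_apply, smul_eq_mul]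
  by_cases h : l = j
  · subst h
    simp
  · rw [Pi.single_eq_of_ne h, Pi.single_eq_of_ne h, mul_zero]

private theorem Z12_s2 (β : cE6.Root) (a b c d e f : ℤ) (h : β.1 = ![a, b, c, d, e, f]) :
    (cE6.reflE (cE6.simple 2) β).1 = ![a, b, a + d - c, d, e, f] := by
  rw [Z12_s, h]
  funext l
  fin_cases l <;> simp [cE6, Matrix.mulVec, dotProduct, Fin.sum_univ_succ]
  ring

private theorem Z12_s3 (β : cE6.Root) (a b c d e f : ℤ) (h : β.1 = ![a, b, c, d, e, f]) :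
    (cE6.reflE (cE6.simple 3) β).1 = ![a, b, c, b + c + e - d, e, f] := by
  rw [Z12_s, h]
  funext l
  fin_cases l <;> simp [cE6, Matrix.mulVec, dotProduct, Fin.sum_univ_succ]
  ring

private theorem Z12_s4 (β : cE6.Root) (a b c d e f : ℤ) (h : β.1 = ![a, b, c, d, e, f]) :
    (cE6.reflE (cE6.simple 4) β).1 = ![a, b, c, d, d + f - e, f] := by
  rw [Z12_s, h]
  funext l
  fin_cases l <;> simp [cE6, Matrix.mulVec, dotProduct, Fin.sum_univ_succ]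
  ring

/-- the longest element of the parabolic subgroup of the nodes `2, 3, 4` -/
private def Z12_w : Equiv.Perm cE6.Root := cE6.wd [2, 3, 4, 2, 3, 2]

private theorem Z12_w_val (β : cE6.Root) : (Z12_w β).1 =
    ![β.1 0, β.1 1, β.1 0 + β.1 1 + β.1 5 - β.1 4, β.1 0 + 2 * β.1 1 + β.1 5 - β.1 3,
      β.1 0 + β.1 1 + β.1 5 - β.1 2, β.1 5] := by
  have h0 : β.1 = ![β.1 0, β.1 1, β.1 2, β.1 3, β.1 4, β.1 5] := by
    funext l
    fin_cases l <;> rfl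
  have h1 := Z12_s2 β _ _ _ _ _ _ h0
  have h2 := Z12_s3 _ _ _ _ _ _ _ h1
  have h3 := Z12_s2 _ _ _ _ _ _ _ h2
  have h4 := Z12_s4 _ _ _ _ _ _ _ h3
  have h5 := Z12_s3 _ _ _ _ _ _ _ h4
  have h6 := Z12_s2 _ _ _ _ _ _ _ h5
  have e : Z12_w β = cE6.reflE (cE6.simple 2) (cE6.reflE (cE6.simple 3)
      (cE6.reflE (cE6.simple 4) (cE6.reflE (cE6.simple 2) (cE6.reflE (cE6.simple 3)
      (cE6.reflE (cE6.simple 2) β))))) := by
    unfold Z12_w SLC.wd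
    simp only [List.map_cons, List.map_nil, List.prod_cons, List.prod_nil, mul_one,
      Equiv.Perm.mul_apply]
  rw [e, h6]
  funext l
  fin_cases l <;> simp <;> ring

private theorem Z12_JJ2 (j : Fin 6) : JJ dE6 tE6 2 j ↔ j = 2 ∨ j = 3 ∨ j = 4 := by
  unfold JJ
  revert j
  decide

private theorem Z12_JJ0 : JJ dE6 tE6 0 5 ∧ JJ dE6 tE6 5 0 := by
  unfold JJ
  decide

private theorem Z12_JJ4 : JJ dE6 tE6 2 4 ∧ JJ dE6 tE6 4 2 := by
  unfold JJ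
  decide


private theorem Z12_Isw : IswJ dE6 tE6 2 Z12_w where
  pos := by
    rintro β ⟨hp, hs⟩
    have hz : ∀ j : Fin 6, ¬ (j = 2 ∨ j = 3 ∨ j = 4) → β.1 j = 0 := by
      intro j hj
      by_contra h
      exact hj ((Z12_JJ2 j).1 (hs j h))
    have h0 := hz 0 (by decide)
    have h1 := hz 1 (by decide)
    have h5 := hz 5 (by decide)
    have hn := (cE6.pos_iff β).1 hp
    have h2 := hn 2
    have h3 := hn 3
    have h4 := hn 4
    have hv : (-(Z12_w β)).1 = ![0, 0, β.1 4, β.1 3, β.1 2, 0] := by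
      rw [SLC.Root.neg_val, Z12_w_val, h0, h1, h5]
      funext l
      fin_cases l <;> simp
    refine ⟨?_, ?_⟩
    · rw [cE6.pos_iff, hv]
      intro l
      fin_cases l
      · exact le_refl (0 : ℤ)
      · exact le_refl (0 : ℤ)
      · exact h4
      · exact h3
      · exact h2
      · exact le_refl (0 : ℤ)
    · intro j hj
      rw [Z12_JJ2]
      rw [hv] at hj
      fin_cases j
      · exact absurd rfl hj
      · exact absurd rfl hj
      · exact Or.inl rfl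
      · exact Or.inr (Or.inl rfl)
      · exact Or.inr (Or.inr rfl)
      · exact absurd rfl hj
  out := by
    rintro β ⟨hp, hs⟩
    have hn := (cE6.pos_iff β).1 hp
    have hex : ∃ j : Fin 6, β.1 j ≠ 0 ∧ ¬ (j = 2 ∨ j = 3 ∨ j = 4) := by
      by_contra h
      apply hs
      intro j hj
      rw [Z12_JJ2]
      by_contra h1
      exact h ⟨j, hj, h1⟩
    obtain ⟨j, hj, hj1⟩ := hex
    have hj2 : (Z12_w β).1 j = β.1 j := by
      rw [Z12_w_val]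
      fin_cases j
      · rfl
      · rfl
      · exact absurd (Or.inl rfl) hj1
      · exact absurd (Or.inr (Or.inl rfl)) hj1
      · exact absurd (Or.inr (Or.inr rfl)) hj1
      · rfl
    have hj3 : 0 < (Z12_w β).1 j := by
      rw [hj2]
      exact lt_of_le_of_ne (hn j) (Ne.symm hj)
    refine ⟨?_, ?_⟩
    · rw [cE6.pos_iff]
      rcases cE6.pos_or_neg (Z12_w β) with h1 | h1
      · exact h1
      · have := h1 j
        omega
    · intro h1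
      apply hj1
      rw [← Z12_JJ2]
      exact h1 j (by rw [hj2]; exact hj)

section
variable {k : Type*} [Field k] [Infinite k] {θ : k ≃+* k} {σ : GF dE6 k →* GF dE6 k}

omit [Infinite k] in
private theorem Z12_chi_mul (x y : GF dE6 k) (hx : x ∈ FT dE6 k) (hy : y ∈ FT dE6 k)
    (γ : cE6.Root) : cE6.chi (((x * y : GF dE6 k) : GL cE6.Idx k) : Matrix cE6.Idx cE6.Idx k) γ =
      cE6.chi ((x : GL cE6.Idx k) : Matrix cE6.Idx cE6.Idx k) γ *
        cE6.chi ((y : GL cE6.Idx k) : Matrix cE6.Idx cE6.Idx k) γ := by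
  have hx' : (x : GL cE6.Idx k) ∈ (cE6.adS k).T := hx
  have hy' : (y : GL cE6.Idx k) ∈ (cE6.adS k).T := hy
  have h1 := cE6.T_fix (((x * y : GF dE6 k) : GL cE6.Idx k)) (mul_mem hx' hy') γ 1
  have h2 := cE6.T_fix _ hy' γ 1
  have h3 := (cE6.T_fix _ hx' γ (cE6.chi ((y : GL cE6.Idx k) : Matrix cE6.Idx cE6.Idx k) γ * 1)).2
  rw [← h2.2] at h3
  have h4 : (((x * y : GF dE6 k) : GL cE6.Idx k)) * cE6.xg k γ 1 *
      (((x * y : GF dE6 k) : GL cE6.Idx k))⁻¹ =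
      (x : GL cE6.Idx k) * ((y : GL cE6.Idx k) * cE6.xg k γ 1 * (y : GL cE6.Idx k)⁻¹) *
        (x : GL cE6.Idx k)⁻¹ := by
    rw [Subgroup.coe_mul]
    group
  rw [h1.2, h3] at h4
  have h5 := (cE6.xg_inj _ _ _ _ (mul_ne_zero h1.1 one_ne_zero) h4).2
  rw [mul_one, mul_one] at h5
  exact h5

omit [Infinite k] in
private theorem Z12_chi_conj (x ν : GF dE6 k) (hx : x ∈ FT dE6 k) (hc : ν * x * ν⁻¹ ∈ FT dE6 k)
    (w : Equiv.Perm cE6.Root) (ha : (cE6.adS k).Acts (ν : GL cE6.Idx k) w)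
    (γ : cE6.Root) :
    cE6.chi (((ν * x * ν⁻¹ : GF dE6 k) : GL cE6.Idx k) : Matrix cE6.Idx cE6.Idx k) γ =
      cE6.chi ((x : GL cE6.Idx k) : Matrix cE6.Idx cE6.Idx k) (w⁻¹ γ) := by
  have hx' : (x : GL cE6.Idx k) ∈ (cE6.adS k).T := hx
  have hc' : ((ν * x * ν⁻¹ : GF dE6 k) : GL cE6.Idx k) ∈ (cE6.adS k).T := hc
  obtain ⟨c, hc0, hact⟩ := ha
  have hw : w (w⁻¹ γ) = γ := w.apply_symm_apply γ
  set β : cE6.Root := w⁻¹ γ with hβ
  have h1 := cE6.T_fix _ hc' γ (c β)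
  have h2 := cE6.T_fix _ hx' β 1
  have e1 := hact β 1
  have e2 := hact β (cE6.chi ((x : GL cE6.Idx k) : Matrix cE6.Idx cE6.Idx k) β * 1)
  rw [hw, mul_one] at e1
  rw [hw] at e2
  have h3 := h1.2
  have h4 : ((ν * x * ν⁻¹ : GF dE6 k) : GL cE6.Idx k) *
      ((ν : GL cE6.Idx k) * cE6.xg k β 1 * (ν : GL cE6.Idx k)⁻¹) *
      ((ν * x * ν⁻¹ : GF dE6 k) : GL cE6.Idx k)⁻¹ =
      (ν : GL cE6.Idx k) * ((x : GL cE6.Idx k) * cE6.xg k β 1 * (x : GL cE6.Idx k)⁻¹) *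
        (ν : GL cE6.Idx k)⁻¹ := by
    rw [Subgroup.coe_mul, Subgroup.coe_mul, Subgroup.coe_inv]
    group
  have e1' : (ν : GL cE6.Idx k) * cE6.xg k β 1 * (ν : GL cE6.Idx k)⁻¹ = cE6.xg k γ (c β) := e1
  have e2' : (ν : GL cE6.Idx k) * cE6.xg k β
      (cE6.chi ((x : GL cE6.Idx k) : Matrix cE6.Idx cE6.Idx k) β * 1) * (ν : GL cE6.Idx k)⁻¹ =
      cE6.xg k γ (c β * (cE6.chi ((x : GL cE6.Idx k) : Matrix cE6.Idx cE6.Idx k) β * 1)) := e2
  rw [e1', h2.2, e2', h3] at h4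
  have h5 := (cE6.xg_inj _ _ _ _ (mul_ne_zero h1.1 (hc0 β)) h4).2
  rw [mul_one, mul_comm] at h5
  exact mul_left_cancel₀ (hc0 β) h5

private theorem Z12_chi_orb (x : GF dE6 k) (i : Fin 6) :
    cE6.chi ((x : GL cE6.Idx k) : Matrix cE6.Idx cE6.Idx k) (cE6.simple (dE6.ρ i)) =
      cE6.chi ((x : GL cE6.Idx k) : Matrix cE6.Idx cE6.Idx k) (cE6.simple i) := by
  have h1 := chi_sgl dE6 (RingEquiv.refl k) (x : GL cE6.Idx k) (cE6.simple i)
  rw [(mem_GF_fix swap_E6.na _ x.2).1, dE6.r_simple] at h1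
  exact h1

omit [Infinite k] in
private theorem Z12_ip0 (i j : Fin 6) (hij : cE6.A i j = 0) :
    0 ≤ cE6.ip (cE6.simple i).1 (cE6.simple j).1 ∧
    0 ≤ cE6.ip (cE6.simple i).1 (-(cE6.simple j)).1 ∧
    0 ≤ cE6.ip (-(cE6.simple i)).1 (cE6.simple j).1 ∧
    0 ≤ cE6.ip (-(cE6.simple i)).1 (-(cE6.simple j)).1 := by
  rw [SLC.Root.neg_val, SLC.Root.neg_val, cE6.ip_neg_neg, cE6.ip_neg_left, cE6.ip_neg_right,
    SLC.simple_val, SLC.simple_val, cE6.ip_single, hij]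
  simp

private theorem Z12_c2 {G : Type*} [Group G] (a a' b b' : G) (h1 : Commute a b)
    (h2 : Commute a b') (h3 : Commute a' b) :
    a * b * (a' * b') * (a * b) = (a * a' * a) * (b * b' * b) := by
  calc a * b * (a' * b') * (a * b) = a * (b * a') * (b' * a) * b := by group
    _ = a * (a' * b) * (a * b') * b := by rw [h3.eq, h2.eq]
    _ = a * a' * (b * a) * b' * b := by group
    _ = a * a' * (a * b) * b' * b := by rw [h1.eq]
    _ = (a * a' * a) * (b * b' * b) := by group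

private theorem Z12_nn_comm {G : Type*} [Group G] (a a' b b' : G) (h1 : Commute a b)
    (h2 : Commute a b') (h3 : Commute a' b) (h4 : Commute a' b') :
    Commute (a * a' * a) (b * b' * b) := by
  have e1 : Commute a (b * b' * b) := (h1.mul_right h2).mul_right h1
  have e2 : Commute a' (b * b' * b) := (h3.mul_right h4).mul_right h3
  exact (e1.mul_left e2).mul_left e1

omit [Infinite k] in
private theorem Z12_iter (l : ℕ) (j : Fin 6) (t : k) :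
    (dE6.sgl (RingEquiv.refl k))^[l] ((cE6.adS k).x (cE6.simple j) t) =
      (cE6.adS k).x (cE6.simple ((dE6.ρ ^ l) j)) t ∧
    (dE6.sgl (RingEquiv.refl k))^[l] ((cE6.adS k).x (-(cE6.simple j)) t) =
      (cE6.adS k).x (-(cE6.simple ((dE6.ρ ^ l) j))) t := by
  have hs : IsSig dE6 (RingEquiv.refl k) (cE6.adS k) (dE6.sgl (RingEquiv.refl k)) :=
    isSig_adS dE6 _
  induction l with
  | zero => exact ⟨rfl, rfl⟩
  | succ l ih =>
    rw [Function.iterate_succ_apply', Function.iterate_succ_apply', ih.1, ih.2, hs, hs, dE6.r_neg,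
      dE6.sg_neg, dE6.r_simple, dE6.sg_simple, pow_succ', Equiv.Perm.mul_apply]
    simp

private theorem Z12_r0 : dE6.r (cE6.simple 0) ≠ cE6.simple 0 := by
  rw [dE6.r_simple]
  intro h
  exact absurd (cE6.simple_injective h) (by decide)

private theorem Z12_r1 : dE6.r (cE6.simple 1) = cE6.simple 1 := by
  rw [dE6.r_simple]
  rfl

private theorem Z12_rn0 : dE6.r (-(cE6.simple 0)) ≠ -(cE6.simple 0) := by
  rw [dE6.r_neg]
  intro h
  apply Z12_r0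
  rw [← cE6.neg_neg_root (dE6.r (cE6.simple 0)), h, cE6.neg_neg_root]

private theorem Z12_rn1 : dE6.r (-(cE6.simple 1)) = -(cE6.simple 1) := by
  rw [dE6.r_neg, Z12_r1]

omit [Infinite k] in
private theorem Z12_y0 (t : k) : ((yg swap_E6.na (cE6.simple 0) t : GF dE6 k) : GL cE6.Idx k) =
    cE6.xg k (cE6.simple 0) t * cE6.xg k (cE6.simple 5) t := by
  rw [yg_val]
  unfold yb mo
  rw [if_neg Z12_r0, dE6_m]
  have h0 := (Z12_iter (k := k) 0 0 t).1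
  have h1 := (Z12_iter (k := k) 1 0 t).1
  simp only [List.range_succ, List.range_zero, List.nil_append, List.map_append, List.map_cons,
    List.map_nil, List.prod_append, List.prod_cons, List.prod_nil, mul_one]
  rw [h0, h1]
  rfl

omit [Infinite k] in
private theorem Z12_yn0 (t : k) :
    ((yg swap_E6.na (-(cE6.simple 0)) t : GF dE6 k) : GL cE6.Idx k) =
    cE6.xg k (-(cE6.simple 0)) t * cE6.xg k (-(cE6.simple 5)) t := by
  rw [yg_val]
  unfold yb mo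
  rw [if_neg Z12_rn0, dE6_m]
  have h0 := (Z12_iter (k := k) 0 0 t).2
  have h1 := (Z12_iter (k := k) 1 0 t).2
  simp only [List.range_succ, List.range_zero, List.nil_append, List.map_append, List.map_cons,
    List.map_nil, List.prod_append, List.prod_cons, List.prod_nil, mul_one]
  rw [h0, h1]
  rfl

omit [Infinite k] in
private theorem Z12_cm (i j : Fin 6) (hij : cE6.A i j = 0) (s t : k) :
    Commute (cE6.xg k (cE6.simple i) s) (cE6.xg k (cE6.simple j) t) ∧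
    Commute (cE6.xg k (cE6.simple i) s) (cE6.xg k (-(cE6.simple j)) t) ∧
    Commute (cE6.xg k (-(cE6.simple i)) s) (cE6.xg k (cE6.simple j) t) ∧
    Commute (cE6.xg k (-(cE6.simple i)) s) (cE6.xg k (-(cE6.simple j)) t) := by
  obtain ⟨h1, h2, h3, h4⟩ := Z12_ip0 i j hij
  exact ⟨cE6.xg_comm k _ _ _ _ h1, cE6.xg_comm k _ _ _ _ h2, cE6.xg_comm k _ _ _ _ h3,
    cE6.xg_comm k _ _ _ _ h4⟩

omit [Infinite k] in
private theorem Z12_nn (i j : Fin 6) (hij : cE6.A i j = 0) (s t : k) :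
    Commute (nn (cE6.xg k) (cE6.simple i) s) (nn (cE6.xg k) (cE6.simple j) t) := by
  unfold nn
  exact Z12_nn_comm _ _ _ _ (Z12_cm i j hij s t).1 (Z12_cm i j hij s t⁻¹).2.1
    (Z12_cm i j hij s⁻¹ t).2.2.1 (Z12_cm i j hij s⁻¹ t⁻¹).2.2.2

/-- the element `nz t` -/
private theorem Z12_nz (t : k) :
    (((yg swap_E6.na (cE6.simple 0) t * yg swap_E6.na (cE6.simple 1) (θ t)) *
      (yg swap_E6.na (-(cE6.simple 0)) t⁻¹ * yg swap_E6.na (-(cE6.simple 1)) (θ t⁻¹)) *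
      (yg swap_E6.na (cE6.simple 0) t * yg swap_E6.na (cE6.simple 1) (θ t)) : GF dE6 k) :
        GL cE6.Idx k) =
    nn (cE6.xg k) (cE6.simple 0) t * nn (cE6.xg k) (cE6.simple 5) t *
      nn (cE6.xg k) (cE6.simple 1) (θ t) := by
  have a05 : cE6.A 0 5 = 0 := by decide
  have a01 : cE6.A 0 1 = 0 := by decide
  have a51 : cE6.A 5 1 = 0 := by decide
  simp only [Subgroup.coe_mul]
  rw [Z12_y0, Z12_yn0, yg_long swap_E6.na _ Z12_r1, yg_long swap_E6.na _ Z12_rn1, map_inv₀]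
  rw [Z12_c2 _ _ _ _ ((Z12_cm 0 1 a01 t (θ t)).1.mul_left (Z12_cm 5 1 a51 t (θ t)).1)
    ((Z12_cm 0 1 a01 t (θ t)⁻¹).2.1.mul_left (Z12_cm 5 1 a51 t (θ t)⁻¹).2.1)
    ((Z12_cm 0 1 a01 t⁻¹ (θ t)).2.2.1.mul_left (Z12_cm 5 1 a51 t⁻¹ (θ t)).2.2.1)]
  rw [Z12_c2 _ _ _ _ (Z12_cm 0 5 a05 t t).1 (Z12_cm 0 5 a05 t t⁻¹).2.1
    (Z12_cm 0 5 a05 t⁻¹ t).2.2.1]
  rfl

private theorem Z12_c3 {G : Type*} [Group G] (a b c a' b' c' : G) (h1 : Commute b a')
    (h2 : Commute c a') (h3 : Commute c b') :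
    a * b * c * (a' * b' * c') = (a * a') * (b * b') * (c * c') := by
  calc a * b * c * (a' * b' * c') = a * b * (c * a') * b' * c' := by group
    _ = a * b * (a' * c) * b' * c' := by rw [h2.eq]
    _ = a * (b * a') * (c * b') * c' := by group
    _ = a * (a' * b) * (b' * c) * c' := by rw [h1.eq, h3.eq]
    _ = (a * a') * (b * b') * (c * c') := by group

variable (h : SRs dE6 tE6 θ σ)

include h

theorem hz_spec (t : k) (ht : t ≠ 0) : ∃ x ∈ Subgroup.closure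
      {g : GF dE6 k | g ∈ XJ swap_E6.na tE6 σ 0 ∨ g ∈ XmJ swap_E6.na tE6 σ 0}, x ∈ FT dE6 k ∧
    ∀ γ : cE6.Root, cE6.chi ((x : GL cE6.Idx k) : Matrix cE6.Idx cE6.Idx k) γ =
      t ^ (cE6.ip (cE6.simple 0).1 γ.1 + cE6.ip (cE6.simple 5).1 γ.1) *
        θ t ^ (cE6.ip (cE6.simple 1).1 γ.1) := by
  have a05 : cE6.A 0 5 = 0 := by decide
  have a01 : cE6.A 0 1 = 0 := by decide
  have a51 : cE6.A 5 1 = 0 := by decide
  have a50 : cE6.A 5 0 = 0 := by decide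
  have a10 : cE6.A 1 0 = 0 := by decide
  have a15 : cE6.A 1 5 = 0 := by decide
  have hθ : θ t ≠ 0 := by simpa using ht
  have hz1 : ∀ u : k, yg swap_E6.na (cE6.simple 0) u * yg swap_E6.na (cE6.simple 1) (θ u) ∈
      XJ swap_E6.na tE6 σ 0 := fun u =>
    (XJ_orth swap_E6 h 0 (by decide) (by decide) _).2 ⟨u, rfl⟩
  have hz2 : ∀ u : k, yg swap_E6.na (-(cE6.simple 0)) u *
      yg swap_E6.na (-(cE6.simple 1)) (θ u) ∈ XmJ swap_E6.na tE6 σ 0 := fun u =>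
    (XmJ_orth swap_E6 h 0 (by decide) (by decide) _).2 ⟨u, rfl⟩
  have hn : ∀ u : k, (yg swap_E6.na (cE6.simple 0) u * yg swap_E6.na (cE6.simple 1) (θ u)) *
      (yg swap_E6.na (-(cE6.simple 0)) u⁻¹ * yg swap_E6.na (-(cE6.simple 1)) (θ u⁻¹)) *
      (yg swap_E6.na (cE6.simple 0) u * yg swap_E6.na (cE6.simple 1) (θ u)) ∈
      Subgroup.closure {g : GF dE6 k | g ∈ XJ swap_E6.na tE6 σ 0 ∨
        g ∈ XmJ swap_E6.na tE6 σ 0} := fun u =>
    mul_mem (mul_mem (Subgroup.subset_closure (Or.inl (hz1 u)))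
      (Subgroup.subset_closure (Or.inr (hz2 u⁻¹))))
      (Subgroup.subset_closure (Or.inl (hz1 u)))
  refine ⟨_, mul_mem (hn t) (hn (-1)), ?_⟩
  generalize hx : (yg swap_E6.na (cE6.simple 0) t * yg swap_E6.na (cE6.simple 1) (θ t)) *
      (yg swap_E6.na (-(cE6.simple 0)) t⁻¹ * yg swap_E6.na (-(cE6.simple 1)) (θ t⁻¹)) *
      (yg swap_E6.na (cE6.simple 0) t * yg swap_E6.na (cE6.simple 1) (θ t)) *
      ((yg swap_E6.na (cE6.simple 0) (-1) * yg swap_E6.na (cE6.simple 1) (θ (-1))) *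
      (yg swap_E6.na (-(cE6.simple 0)) (-1)⁻¹ * yg swap_E6.na (-(cE6.simple 1)) (θ (-1)⁻¹)) *
      (yg swap_E6.na (cE6.simple 0) (-1) * yg swap_E6.na (cE6.simple 1) (θ (-1)))) = x
  have hxv : (x : GL cE6.Idx k) = hh (cE6.xg k) (cE6.simple 0) t *
      hh (cE6.xg k) (cE6.simple 5) t * hh (cE6.xg k) (cE6.simple 1) (θ t) := by
    rw [← hx, Subgroup.coe_mul, Z12_nz, Z12_nz, map_neg, map_one]
    rw [Z12_c3 _ _ _ _ _ _ (Z12_nn 5 0 a50 _ _) (Z12_nn 1 0 a10 _ _) (Z12_nn 1 5 a15 _ _)]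
    rfl
  have hT0 : hh (cE6.xg k) (cE6.simple 0) t ∈ (cE6.adS k).T :=
    Subgroup.subset_closure ⟨_, _, ht, rfl⟩
  have hT5 : hh (cE6.xg k) (cE6.simple 5) t ∈ (cE6.adS k).T :=
    Subgroup.subset_closure ⟨_, _, ht, rfl⟩
  have hT1 : hh (cE6.xg k) (cE6.simple 1) (θ t) ∈ (cE6.adS k).T :=
    Subgroup.subset_closure ⟨_, _, hθ, rfl⟩
  have hxT : (x : GL cE6.Idx k) ∈ (cE6.adS k).T := by
    rw [hxv]
    exact mul_mem (mul_mem hT0 hT5) hT1
  refine ⟨hxT, fun γ => ?_⟩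
  have h1 := cE6.T_fix _ hxT γ 1
  have c0 : ∀ u : k, hh (cE6.xg k) (cE6.simple 0) t * cE6.xg k γ u *
      (hh (cE6.xg k) (cE6.simple 0) t)⁻¹ =
      cE6.xg k γ (t ^ cE6.ip (cE6.simple 0).1 γ.1 * u) := fun u =>
    (cE6.adS k).h_conj (cE6.simple 0) γ t u ht
  have c5 : ∀ u : k, hh (cE6.xg k) (cE6.simple 5) t * cE6.xg k γ u *
      (hh (cE6.xg k) (cE6.simple 5) t)⁻¹ =
      cE6.xg k γ (t ^ cE6.ip (cE6.simple 5).1 γ.1 * u) := fun u =>
    (cE6.adS k).h_conj (cE6.simple 5) γ t u ht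
  have c1 : ∀ u : k, hh (cE6.xg k) (cE6.simple 1) (θ t) * cE6.xg k γ u *
      (hh (cE6.xg k) (cE6.simple 1) (θ t))⁻¹ =
      cE6.xg k γ (θ t ^ cE6.ip (cE6.simple 1).1 γ.1 * u) := fun u =>
    (cE6.adS k).h_conj (cE6.simple 1) γ (θ t) u hθ
  have h2 : (x : GL cE6.Idx k) * cE6.xg k γ 1 * (x : GL cE6.Idx k)⁻¹ =
      cE6.xg k γ (t ^ cE6.ip (cE6.simple 0).1 γ.1 * (t ^ cE6.ip (cE6.simple 5).1 γ.1 *
        (θ t ^ cE6.ip (cE6.simple 1).1 γ.1 * 1))) := by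
    rw [hxv, ← c0, ← c5, ← c1]
    group
  rw [h1.2] at h2
  have h3 := (cE6.xg_inj _ _ _ _ (mul_ne_zero h1.1 one_ne_zero) h2).2
  rw [mul_one, mul_one, ← mul_assoc, ← zpow_add₀ ht] at h3
  exact h3

private theorem Z12_T1 (t : k) (ht : t ≠ 0) : ∃ x ∈ FT dE6 k ⊓ Esr dE6 σ,
    cE6.chi ((x : GL cE6.Idx k) : Matrix cE6.Idx cE6.Idx k) (cE6.simple 0) = t ^ 2 ∧
    cE6.chi ((x : GL cE6.Idx k) : Matrix cE6.Idx cE6.Idx k) (cE6.simple 2) = t⁻¹ ∧
    ∀ γ : cE6.Root, cE6.chi ((x : GL cE6.Idx k) : Matrix cE6.Idx cE6.Idx k) γ =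
      t ^ (cE6.ip (cE6.simple 0).1 γ.1 + cE6.ip (cE6.simple 5).1 γ.1) *
        θ t ^ (cE6.ip (cE6.simple 1).1 γ.1) := by
  obtain ⟨x, hx, hxT, hc⟩ := hz_spec h t ht
  have hG : Subgroup.closure {g : GF dE6 k | g ∈ XJ swap_E6.na tE6 σ 0 ∨
      g ∈ XmJ swap_E6.na tE6 σ 0} ≤ G0 swap_E6.na tE6 σ := by
    unfold G0
    exact Subgroup.closure_mono fun g hg => ⟨0, hg⟩
  refine ⟨x, ⟨hxT, G0_le_Esr swap_E6 (hG hx)⟩, ?_, ?_, hc⟩
  · have e0 : cE6.A 0 0 = 2 := by decide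
    have e5 : cE6.A 5 0 = 0 := by decide
    have e1 : cE6.A 1 0 = 0 := by decide
    rw [hc]
    simp only [SLC.simple_val, SLC.ip_single]
    rw [e0, e5, e1, add_zero, zpow_zero, mul_one]
    exact zpow_natCast t 2
  · have e0 : cE6.A 0 2 = -1 := by decide
    have e5 : cE6.A 5 2 = 0 := by decide
    have e1 : cE6.A 1 2 = 0 := by decide
    rw [hc]
    simp only [SLC.simple_val, SLC.ip_single]
    rw [e0, e5, e1, add_zero, zpow_zero, mul_one, _root_.zpow_neg_one]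

private theorem Z12_T2 (t : k) (ht : t ≠ 0) : ∃ x ∈ FT dE6 k ⊓ Esr dE6 σ,
    cE6.chi ((x : GL cE6.Idx k) : Matrix cE6.Idx cE6.Idx k) (cE6.simple 0) = (θ t)⁻¹ ∧
    cE6.chi ((x : GL cE6.Idx k) : Matrix cE6.Idx cE6.Idx k) (cE6.simple 2) = t := by
  obtain ⟨x, hx, -, -, hc⟩ := Z12_T1 h t ht
  obtain ⟨ν, ⟨hν, hνG⟩, w, hw, hI, ha⟩ :=
    G0_nu swap_E6 h (fun i => opp2 swap_E6 h dE6_m i) 2
  have hww : w⁻¹ = Z12_w := IswJ.unique (inv_mem hw) (cE6.wd_mem_W _) (IswJ.inv hw hI) Z12_Isw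
  have hνE : ν ∈ Esr dE6 σ := G0_le_Esr swap_E6 hνG
  have hT : ν * x * ν⁻¹ ∈ FT dE6 k := (FT_conj swap_E6.na x hx.1).2.2 ν hν
  have hE : ν * x * ν⁻¹ ∈ Esr dE6 σ := mul_mem (mul_mem hνE hx.2) (inv_mem hνE)
  refine ⟨ν * x * ν⁻¹, ⟨hT, hE⟩, ?_, ?_⟩
  · rw [Z12_chi_conj x ν hx.1 hT w ha, hww, hc]
    have hv : (Z12_w (cE6.simple 0)).1 = ![1, 0, 1, 1, 1, 0] := by
      rw [Z12_w_val]
      decide
    have e0 : (cE6.A *ᵥ ![1, 0, 1, 1, 1, 0]) 0 = 1 := by decide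
    have e5 : (cE6.A *ᵥ ![1, 0, 1, 1, 1, 0]) 5 = -1 := by decide
    have e1 : (cE6.A *ᵥ ![1, 0, 1, 1, 1, 0]) 1 = -1 := by decide
    rw [hv]
    simp only [SLC.simple_val, SLC.ip_single_left]
    rw [e0, e5, e1, add_neg_cancel, zpow_zero, one_mul, _root_.zpow_neg_one]
  · rw [Z12_chi_conj x ν hx.1 hT w ha, hww, hc]
    have hv : (Z12_w (cE6.simple 2)).1 = ![0, 0, 0, 0, -1, 0] := by
      rw [Z12_w_val]
      decide
    have e0 : (cE6.A *ᵥ ![0, 0, 0, 0, -1, 0]) 0 = 0 := by decide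
    have e5 : (cE6.A *ᵥ ![0, 0, 0, 0, -1, 0]) 5 = 1 := by decide
    have e1 : (cE6.A *ᵥ ![0, 0, 0, 0, -1, 0]) 1 = 0 := by decide
    rw [hv]
    simp only [SLC.simple_val, SLC.ip_single_left]
    rw [e0, e5, e1, zero_add, zpow_zero, mul_one, zpow_one]

/-- the class of `0` -/
private theorem Z12_A (s : k) (hs : s ≠ 0) : ∃ x ∈ FT dE6 k ⊓ Esr dE6 σ,
    cE6.chi ((x : GL cE6.Idx k) : Matrix cE6.Idx cE6.Idx k) (cE6.simple 0) = s ∧
    cE6.chi ((x : GL cE6.Idx k) : Matrix cE6.Idx cE6.Idx k) (cE6.simple 2) = 1 := by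
  have hu : θ.symm s ≠ 0 := by simpa using hs
  have ht : s * θ.symm s ≠ 0 := mul_ne_zero hs hu
  obtain ⟨x, hx, hx0, hx2, -⟩ := Z12_T1 h _ ht
  obtain ⟨y, hy, hy0, hy2⟩ := Z12_T2 h _ ht
  refine ⟨x * y, mul_mem hx hy, ?_, ?_⟩
  · rw [Z12_chi_mul x y hx.1 hy.1, hx0, hy0]
    have h1 : (θ.symm s) ^ 2 = θ s := by
      have h2 := h.hθ (θ.symm s)
      rw [dE6_m, RingEquiv.apply_symm_apply] at h2
      exact h2.symm
    have h3 : θ s ≠ 0 := by simpa using hs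
    rw [mul_pow, h1, map_mul, RingEquiv.apply_symm_apply]
    field_simp
  · rw [Z12_chi_mul x y hx.1 hy.1, hx2, hy2, inv_mul_cancel₀ ht]

/-- the class of `2` -/
private theorem Z12_B (s : k) (hs : s ≠ 0) : ∃ x ∈ FT dE6 k ⊓ Esr dE6 σ,
    cE6.chi ((x : GL cE6.Idx k) : Matrix cE6.Idx cE6.Idx k) (cE6.simple 0) = 1 ∧
    cE6.chi ((x : GL cE6.Idx k) : Matrix cE6.Idx cE6.Idx k) (cE6.simple 2) = s := by
  have hu : θ s ≠ 0 := by simpa using hs
  have ht : s * θ s ≠ 0 := mul_ne_zero hs hu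
  have ht' : θ (s * θ s) ≠ 0 := by simpa using ht
  have h1 : ∀ t, θ (θ t) = t ^ 2 := fun t => by
    have h2 := h.hθ t
    rwa [dE6_m] at h2
  obtain ⟨x, hx, hx0, hx2, -⟩ := Z12_T1 h _ ht
  obtain ⟨y, hy, hy0, hy2⟩ := Z12_T2 h _ ht'
  refine ⟨x * y, mul_mem hx hy, ?_, ?_⟩
  · rw [Z12_chi_mul x y hx.1 hy.1, hx0, hy0, h1, mul_inv_cancel₀ (pow_ne_zero 2 ht)]
  · rw [Z12_chi_mul x y hx.1 hy.1, hx2, hy2, map_mul, h1]
    field_simp

theorem jhyp_E6 : JHyp swap_E6 σ 1 where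
  N_ne := one_ne_zero
  onto := fun i hi t => onto2 swap_E6 h dE6_m i hi t
  ker := fun i hi x hx h0 => ker2 swap_E6 h dE6_m i hi x hx h0
  opp := fun i => opp2 swap_E6 h dE6_m i
  sep := by
    intro i hi s hs
    obtain ⟨x, hx, hx0, hx2⟩ := Z12_A h s hs
    obtain ⟨y, hy, hy0, hy2⟩ := Z12_B h s hs
    have hx5 : cE6.chi ((x : GL cE6.Idx k) : Matrix cE6.Idx cE6.Idx k) (cE6.simple 5) = s :=
      (Z12_chi_orb x 0).trans hx0
    have hx4 : cE6.chi ((x : GL cE6.Idx k) : Matrix cE6.Idx cE6.Idx k) (cE6.simple 4) = 1 :=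
      (Z12_chi_orb x 2).trans hx2
    have hy5 : cE6.chi ((y : GL cE6.Idx k) : Matrix cE6.Idx cE6.Idx k) (cE6.simple 5) = 1 :=
      (Z12_chi_orb y 0).trans hy0
    have hy4 : cE6.chi ((y : GL cE6.Idx k) : Matrix cE6.Idx cE6.Idx k) (cE6.simple 4) = s :=
      (Z12_chi_orb y 2).trans hy2
    have n1 : ¬ dE6.ρ 1 ≠ 1 := by decide
    have n3 : ¬ dE6.ρ 3 ≠ 3 := by decide
    rw [pow_one]
    fin_cases i
    · refine ⟨x, hx, hx0, fun j hj hJ => ?_⟩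
      fin_cases j
      · exact absurd (JJ_refl _) hJ
      · exact absurd hj n1
      · exact hx2
      · exact absurd hj n3
      · exact hx4
      · exact absurd Z12_JJ0.1 hJ
    · exact absurd hi n1
    · refine ⟨y, hy, hy2, fun j hj hJ => ?_⟩
      fin_cases j
      · exact hy0
      · exact absurd hj n1
      · exact absurd (JJ_refl _) hJ
      · exact absurd hj n3
      · exact absurd Z12_JJ4.1 hJ
      · exact hy5
    · exact absurd hi n3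
    · refine ⟨y, hy, hy4, fun j hj hJ => ?_⟩
      fin_cases j
      · exact hy0
      · exact absurd hj n1
      · exact absurd Z12_JJ4.2 hJ
      · exact absurd hj n3
      · exact absurd (JJ_refl _) hJ
      · exact hy5
    · refine ⟨x, hx, hx5, fun j hj hJ => ?_⟩
      fin_cases j
      · exact absurd Z12_JJ0.2 hJ
      · exact absurd hj n1
      · exact hx2
      · exact absurd hj n3
      · exact hx4
      · exact absurd (JJ_refl _) hJ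

end

end Pool.Agent.H86.UM
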