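import Pool.Agent.H86.UM.Z1

/-!
# Project UM, Suzuki-Ree groups, module Z2: `σ` on all root elements

`root_induct`: the proof is similar to the proof of `Eg_gen` (GEN.lean, see the header there). First the positive
roots, for the predicate `P' β := P β ∧ P (-β)` (`P' (simple i)`: `wd (wl i) (simple i)` is
`-(simple i')` with `i'` in the orbit of `i`; `P'` is stable under `D.r` and the `wd (wl i)`, `W_neg`, `r_neg`), by
induction on the height: a positive root supported on one orbit is in the `rE`-cycle of a simple root (`supp_NA`,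
UK/F1a); otherwise there is `i` with `ip β (∑ orbit of α_i) > 0` (otherwise `ip v v ≤ 0` for the sum `v`
of the orbit of `β`), `wd (wl i) β` is positive (`wJ_pos`) of smaller height, and `wJ_sq`.

`TT_refl`: `B = osum (simple j)`. `TT` of the simple roots: if `j` is fixed then
`TT (simple j) = osum (simple (t0 j))`, otherwise `TT (osum (simple j)) = m • simple (t0 j)` (compare
coordinates, using `fix_iff, rho, inv`). `w = wd (wl j)` is the product of the commuting reflections in the roots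
of the orbit of `simple j`, so `osum (w β) = osum β - ip (osum β) (simple j) • osum (simple j)`
(`ip (osum β) (simple (ρ j)) = ip (osum β) (simple j)`); apply `TT` and use `scale`:
`ip (TT v) (simple (t0 j)) = ip v (simple j)` if `j` is fixed, `= m * ip v (simple j)` otherwise
(`v` invariant).

`exists_tau`: `root_induct` for `P β := ∃ γ e, (e = ±1) ∧ (∀ t, σ (yg β t) = yg γ (e * th β t)) ∧
(D.r β = β → D.r γ ≠ γ ∧ osum γ = TT β.1) ∧ (D.r β ≠ β → D.r γ = γ ∧ m • γ.1 = TT (osum β))`;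
`P (simple j)`: `h.pos`. `P (D.r β)`: `yg_r`, same `γ`. `P (wd (wl j) β)`: `σ (nJ j) = nJ (t0 j)` (`h.pos`,
`h.neg`, `th 1 = 1`), `nJ_conj` for `j` and for `t0 j`: `σ (yg (w β) (± t)) = nJ (t0 j) yg γ (e th t) nJ⁻¹
= yg (w' γ) (± e th t)`, `w' = wd (wl (t0 j))`, and `th` for `w β` and `β` is the same (`r (w β) = w (r β)`,
`wJ_comm`). Then choose.
-/

set_option autoImplicit false
open Matrix

namespace Pool.Agent.H86.UM

open Pool.Agent.H75.UL

variable {n : ℕ} {C : SLC n} {D : Dg C} {t0 : Fin n → Fin n}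

private theorem Z2_m_pos : 0 < D.m := by
  rcases D.m_cases with h | h | h <;> omega

private theorem Z2_wd_cons (j : Fin n) (l : List (Fin n)) :
    C.wd (j :: l) = C.reflE (C.simple j) * C.wd l := by
  simp [SLC.wd]

private theorem Z2_cyc (i j : Fin n) (h : D.ρ.SameCycle i j) :
    ∃ l, l < D.m ∧ (D.ρ ^ l) i = j := by
  obtain ⟨z, hz⟩ := h
  have hm : 0 < D.m := Z2_m_pos
  have h1 : 0 ≤ z % (D.m : ℤ) := Int.emod_nonneg _ (by omega)
  have h2 : z % (D.m : ℤ) < D.m := Int.emod_lt_of_pos _ (by omega)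
  refine ⟨(z % (D.m : ℤ)).toNat, by omega, ?_⟩
  have h3 : D.ρ ^ (z % (D.m : ℤ)) = D.ρ ^ z := zpow_mod_orderOf _ _
  rw [← hz, ← h3]
  conv_rhs => rw [← Int.toNat_of_nonneg h1]
  rw [zpow_natCast]

private theorem Z2_same (i : Fin n) (l : ℕ) : D.ρ.SameCycle i ((D.ρ ^ l) i) :=
  ⟨l, by rw [zpow_natCast]⟩

private theorem Z2_A_pow (l : ℕ) (i k : Fin n) :
    C.A ((D.ρ ^ l) i) ((D.ρ ^ l) k) = C.A i k := by
  induction l with
  | zero => rfl
  | succ l ih =>
    rw [pow_succ', Equiv.Perm.mul_apply, Equiv.Perm.mul_apply, D.hρ, ih]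

private theorem Z2_simple_r (i : Fin n) : D.r (C.simple i) = C.simple i ↔ D.ρ i = i := by
  rw [D.r_simple]
  exact ⟨fun h => C.simple_injective h, fun h => by rw [h]⟩

private theorem Z2_simple_ne (i : Fin n) (h : D.ρ i ≠ i) :
    D.r (C.simple i) ≠ C.simple i := fun h1 => h ((Z2_simple_r i).1 h1)

private theorem Z2_fix_cyc (i j : Fin n) (h : D.ρ i = i) (hj : D.ρ.SameCycle i j) : j = i := by
  obtain ⟨a, ha, rfl⟩ := Z2_cyc i j hj
  exact Equiv.Perm.pow_apply_eq_self_of_apply_eq_self h a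

private theorem Z2_cyc_fix (i j : Fin n) (h : D.ρ j = j) (hj : D.ρ.SameCycle i j) : i = j :=
  Z2_fix_cyc j i h hj.symm

private theorem Z2_orth (h : D.NA) (i j k : Fin n) (hj : D.ρ.SameCycle i j)
    (hk : D.ρ.SameCycle i k) (hne : j ≠ k) : C.A j k = 0 := by
  obtain ⟨a, ha, rfl⟩ := Z2_cyc i j hj
  obtain ⟨b, hb, rfl⟩ := Z2_cyc i k hk
  by_cases hi : D.ρ i = i
  · exfalso
    apply hne
    rw [Equiv.Perm.pow_apply_eq_self_of_apply_eq_self hi,
      Equiv.Perm.pow_apply_eq_self_of_apply_eq_self hi]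
  · have h0 : ∀ l, 0 < l → l < D.m → C.A i ((D.ρ ^ l) i) = 0 := by
      intro l hl hl'
      have h1 := D.ip_orb (C.simple i) (Z2_simple_ne i hi) l hl hl'
      rw [D.ip_r_NA h _ (Z2_simple_ne i hi), D.r_iter_simple] at h1
      simpa only [SLC.simple_val, SLC.ip_single] using h1
    rcases lt_trichotomy a b with hab | hab | hab
    · have h1 : (D.ρ ^ b) i = (D.ρ ^ a) ((D.ρ ^ (b - a)) i) := by
        rw [← Equiv.Perm.mul_apply, ← pow_add]
        congr 2
        omega
      rw [h1, Z2_A_pow]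
      exact h0 _ (by omega) (by omega)
    · exact absurd (by rw [hab]) hne
    · have h1 : (D.ρ ^ a) i = (D.ρ ^ b) ((D.ρ ^ (a - b)) i) := by
        rw [← Equiv.Perm.mul_apply, ← pow_add]
        congr 2
        omega
      rw [h1, Z2_A_pow, C.symm]
      exact h0 _ (by omega) (by omega)

private theorem Z2_mem (hN : D.NA) (i j : Fin n) : j ∈ D.wl i ↔ D.ρ.SameCycle i j := by
  unfold Dg.wl
  rw [if_neg (hN i)]
  split_ifs with hi
  · rw [List.mem_singleton]
    constructor
    · rintro rfl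
      exact Equiv.Perm.SameCycle.refl _ _
    · intro hj
      exact Z2_fix_cyc i j hi hj
  · rw [List.mem_map]
    constructor
    · rintro ⟨l, -, rfl⟩
      exact Z2_same i l
    · intro hj
      obtain ⟨a, ha, rfl⟩ := Z2_cyc i j hj
      exact ⟨a, List.mem_range.2 ha, rfl⟩

private theorem Z2_nodup (hN : D.NA) (i : Fin n) : (D.wl i).Nodup := by
  unfold Dg.wl
  rw [if_neg (hN i)]
  split_ifs with hi
  · exact List.nodup_singleton _
  · refine List.Nodup.map_on ?_ List.nodup_range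
    intro a ha b hb hab
    rw [List.mem_range] at ha hb
    refine D.r_iter_eq (C.simple i) (Z2_simple_ne i hi) a b ha hb ?_
    rw [D.r_iter_simple, D.r_iter_simple, hab]

private theorem Z2_wd_out (l : List (Fin n)) (β : C.Root) (k : Fin n) (hk : k ∉ l) :
    (C.wd l β).1 k = β.1 k := by
  induction l with
  | nil => rfl
  | cons j l ih =>
    rw [List.mem_cons, not_or] at hk
    rw [Z2_wd_cons, Equiv.Perm.mul_apply, SLC.reflE_apply, SLC.refl_val]
    simp only [Pi.sub_apply, Pi.smul_apply, SLC.simple_val, Pi.single_eq_of_ne hk.1, smul_zero,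
      sub_zero]
    exact ih hk.2

private theorem Z2_ip_orth (l : List (Fin n)) (β : C.Root) (j : Fin n)
    (h : ∀ k ∈ l, C.A j k = 0) :
    C.ip (C.simple j).1 (C.wd l β).1 = C.ip (C.simple j).1 β.1 := by
  induction l with
  | nil => rfl
  | cons k l ih =>
    rw [Z2_wd_cons, Equiv.Perm.mul_apply, SLC.reflE_apply, SLC.refl_val, SLC.ip_sub_right,
      SLC.ip_smul_right]
    have h1 : C.ip (C.simple j).1 (C.simple k).1 = 0 := by
      simp only [SLC.simple_val, SLC.ip_single]
      exact h k List.mem_cons_self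
    rw [h1, mul_zero, sub_zero]
    exact ih fun k' hk' => h k' (List.mem_cons_of_mem _ hk')

private theorem Z2_wd_in (l : List (Fin n)) (hnd : l.Nodup)
    (ho : ∀ j ∈ l, ∀ k ∈ l, j ≠ k → C.A j k = 0) (β : C.Root) (k : Fin n) (hk : k ∈ l) :
    (C.wd l β).1 k = β.1 k - C.ip (C.simple k).1 β.1 := by
  induction l with
  | nil => exact absurd hk List.not_mem_nil
  | cons j l ih =>
    rw [List.nodup_cons] at hnd
    rw [Z2_wd_cons, Equiv.Perm.mul_apply, SLC.reflE_apply, SLC.refl_val]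
    simp only [Pi.sub_apply, Pi.smul_apply, SLC.simple_val]
    by_cases hkj : k = j
    · subst hkj
      have h1 := Z2_ip_orth l β k fun k' hk' => ho k List.mem_cons_self k'
        (List.mem_cons_of_mem _ hk') (fun he => hnd.1 (he ▸ hk'))
      simp only [SLC.simple_val] at h1
      rw [h1, Z2_wd_out l β k hnd.1, Pi.single_eq_same, smul_eq_mul, mul_one]
    · have hk' : k ∈ l := by
        rcases List.mem_cons.1 hk with h | h
        · exact absurd h hkj
        · exact h
      rw [Pi.single_eq_of_ne hkj, smul_zero, sub_zero]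
      exact ih hnd.2 (fun a ha b hb => ho a (List.mem_cons_of_mem _ ha) b
        (List.mem_cons_of_mem _ hb)) hk'

private theorem Z2_in (hN : D.NA) (i : Fin n) (β : C.Root) (k : Fin n)
    (hk : D.ρ.SameCycle i k) :
    (C.wd (D.wl i) β).1 k = β.1 k - C.ip (C.simple k).1 β.1 :=
  Z2_wd_in _ (Z2_nodup hN i) (fun a ha b hb hab =>
    Z2_orth hN i a b ((Z2_mem hN i a).1 ha) ((Z2_mem hN i b).1 hb) hab) β k
    ((Z2_mem hN i k).2 hk)

private theorem Z2_out (hN : D.NA) (i : Fin n) (β : C.Root) (k : Fin n)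
    (hk : ¬ D.ρ.SameCycle i k) : (C.wd (D.wl i) β).1 k = β.1 k :=
  Z2_wd_out _ β k fun h => hk ((Z2_mem hN i k).1 h)

/-- the relative reflection commutes with `r` -/
private theorem Z2_comm (i : Fin n) (β : C.Root) :
    D.r (C.wd (D.wl i) β) = C.wd (D.wl i) (D.r β) := by
  have h := D.wJ_comm i
  rw [mul_inv_eq_iff_eq_mul] at h
  have h3 := congrArg (fun σ : Equiv.Perm C.Root => σ β) h
  simpa using h3

private theorem Z2_comm_iter (i : Fin n) (l : ℕ) (β : C.Root) :
    D.r^[l] (C.wd (D.wl i) β) = C.wd (D.wl i) (D.r^[l] β) := by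
  induction l with
  | zero => rfl
  | succ l ih => rw [Function.iterate_succ_apply', ih, Z2_comm, Function.iterate_succ_apply']

private theorem Z2_fix_wd (i : Fin n) (β : C.Root) :
    D.r (C.wd (D.wl i) β) = C.wd (D.wl i) β ↔ D.r β = β := by
  rw [Z2_comm]
  exact (C.wd (D.wl i)).injective.eq_iff

private theorem Z2_mo_wd (i : Fin n) (β : C.Root) : mo D (C.wd (D.wl i) β) = mo D β := by
  unfold mo
  by_cases h : D.r β = β
  · rw [if_pos h, if_pos ((Z2_fix_wd i β).2 h)]
  · rw [if_neg h, if_neg fun h1 => h ((Z2_fix_wd i β).1 h1)]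

private theorem Z2_mo_pos (β : C.Root) : 0 < mo D β := by
  unfold mo
  split_ifs
  · exact Nat.one_pos
  · exact Z2_m_pos

private theorem Z2_wd_neg (i : Fin n) (β : C.Root) :
    C.wd (D.wl i) (-β) = -(C.wd (D.wl i) β) := C.W_neg _ (C.wd_mem_W _) β

private theorem Z2_wd_wd (i : Fin n) (β : C.Root) :
    C.wd (D.wl i) (C.wd (D.wl i) β) = β := by
  have h := congrArg (fun σ : Equiv.Perm C.Root => σ β) (D.wJ_sq i)
  simpa using h

private theorem Z2_ip_sum (C : SLC n) {ι : Type*} (v : Fin n → ℤ) (s : Finset ι)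
    (f : ι → Fin n → ℤ) : C.ip v (∑ i ∈ s, f i) = ∑ i ∈ s, C.ip v (f i) :=
  map_sum (AddMonoidHom.mk' (C.ip v) (C.ip_add_right v)) f s

private theorem Z2_lmap_sum {ι : Type*} (π : Equiv.Perm (Fin n)) (s : Finset ι)
    (f : ι → Fin n → ℤ) : SLC.lmap π (∑ i ∈ s, f i) = ∑ i ∈ s, SLC.lmap π (f i) :=
  map_sum (AddMonoidHom.mk' (SLC.lmap π) (SLC.lmap_add π)) f s

private theorem Z2_ht_sum {ι : Type*} (s : Finset ι)
    (f : ι → Fin n → ℤ) : ht (∑ i ∈ s, f i) = ∑ i ∈ s, ht (f i) :=
  map_sum (AddMonoidHom.mk' (ht (n := n)) ht_add) f s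

private theorem Z2_ht_iter (β : C.Root) (l : ℕ) : ht (D.r^[l] β).1 = ht β.1 := by
  induction l with
  | zero => rfl
  | succ l ih => rw [Function.iterate_succ_apply', D.r_ht, ih]

private theorem Z2_ht_osum (β : C.Root) : ht (osum D β) = mo D β * ht β.1 := by
  unfold osum
  rw [Z2_ht_sum, Finset.sum_congr rfl (fun l _ => Z2_ht_iter β l), Finset.sum_const,
    Finset.card_range, nsmul_eq_mul]

private theorem Z2_osum_fix (β : C.Root) (h : D.r β = β) : osum D β = β.1 := by
  unfold osum mo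
  rw [if_pos h]
  simp

private theorem Z2_osum_ne (β : C.Root) (h : D.r β ≠ β) :
    osum D β = ∑ l ∈ Finset.range D.m, (D.r^[l] β).1 := by
  unfold osum mo
  rw [if_neg h]

private theorem Z2_osum_inv (β : C.Root) : SLC.lmap D.ρ (osum D β) = osum D β := by
  by_cases h : D.r β = β
  · rw [Z2_osum_fix β h]
    exact congrArg SLC.Root.val h
  rw [Z2_osum_ne β h, Z2_lmap_sum]
  have h1 : ∀ l, SLC.lmap D.ρ (D.r^[l] β).1 = (D.r^[l + 1] β).1 := by
    intro l
    rw [Function.iterate_succ_apply']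
    rfl
  rw [Finset.sum_congr rfl (fun l _ => h1 l)]
  have h2 := Finset.sum_range_succ' (fun l => (D.r^[l] β).1) D.m
  have h3 := Finset.sum_range_succ (fun l => (D.r^[l] β).1) D.m
  rw [h3] at h2
  simp only [D.r_m, Function.iterate_zero_apply] at h2
  exact (add_right_cancel h2).symm

private theorem Z2_ip_inv (v : Fin n → ℤ) (hv : SLC.lmap D.ρ v = v) (β : C.Root) (l : ℕ) :
    C.ip v (D.r^[l] β).1 = C.ip v β.1 := by
  induction l with
  | zero => rfl
  | succ l ih =>
    rw [Function.iterate_succ_apply', ← ih]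
    have h1 := C.ip_lmap D.ρ D.hρ v (D.r^[l] β).1
    rw [hv] at h1
    exact h1

private theorem Z2_ip_osum (v : Fin n → ℤ) (hv : SLC.lmap D.ρ v = v) (β : C.Root) :
    C.ip v (osum D β) = mo D β * C.ip v β.1 := by
  unfold osum
  rw [Z2_ip_sum, Finset.sum_congr rfl (fun l _ => Z2_ip_inv v hv β l), Finset.sum_const,
    Finset.card_range, nsmul_eq_mul]

private theorem Z2_ip_same (v : Fin n → ℤ) (hv : SLC.lmap D.ρ v = v) (i j : Fin n)
    (h : D.ρ.SameCycle i j) : C.ip v (C.simple j).1 = C.ip v (C.simple i).1 := by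
  obtain ⟨a, -, rfl⟩ := Z2_cyc i j h
  rw [← D.r_iter_simple, Z2_ip_inv v hv]

/-- the orbit sum of a simple root -/
private theorem Z2_osum_simple (j k : Fin n) :
    (D.ρ.SameCycle j k → osum D (C.simple j) k = 1) ∧
      (¬ D.ρ.SameCycle j k → osum D (C.simple j) k = 0) := by
  by_cases h : D.ρ j = j
  · rw [Z2_osum_fix _ ((Z2_simple_r j).2 h), SLC.simple_val]
    constructor
    · intro hk
      rw [Z2_fix_cyc j k h hk, Pi.single_eq_same]
    · intro hk
      rw [Pi.single_eq_of_ne]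
      rintro rfl
      exact hk (Equiv.Perm.SameCycle.refl _ _)
  · rw [Z2_osum_ne _ (Z2_simple_ne j h), Finset.sum_apply]
    constructor
    · intro hk
      obtain ⟨a, ha, rfl⟩ := Z2_cyc j k hk
      rw [Finset.sum_eq_single a]
      · rw [D.r_iter_simple, SLC.simple_val, Pi.single_eq_same]
      · intro b hb hba
        rw [D.r_iter_simple, SLC.simple_val, Pi.single_eq_of_ne]
        intro he
        rw [Finset.mem_range] at hb
        apply hba
        refine D.r_iter_eq (C.simple j) (Z2_simple_ne j h) b a hb ha ?_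
        rw [D.r_iter_simple, D.r_iter_simple, he]
      · intro hn
        exact absurd (Finset.mem_range.2 ha) hn
    · intro hk
      apply Finset.sum_eq_zero
      intro a _
      rw [D.r_iter_simple, SLC.simple_val, Pi.single_eq_of_ne]
      rintro rfl
      exact hk (Z2_same j a)

private theorem Z2_osum_refl (hN : D.NA) (j : Fin n) (β : C.Root) :
    osum D (C.wd (D.wl j) β) =
      osum D β - C.ip (osum D β) (C.simple j).1 • osum D (C.simple j) := by
  have e : osum D (C.wd (D.wl j) β) =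
      ∑ l ∈ Finset.range (mo D β), (C.wd (D.wl j) (D.r^[l] β)).1 := by
    unfold osum
    rw [Z2_mo_wd]
    exact Finset.sum_congr rfl fun l _ => by rw [Z2_comm_iter]
  rw [e]
  funext k
  rw [Finset.sum_apply, Pi.sub_apply, Pi.smul_apply, smul_eq_mul]
  by_cases hk : D.ρ.SameCycle j k
  · rw [(Z2_osum_simple j k).1 hk, mul_one, Finset.sum_congr rfl (fun l _ => Z2_in hN j _ k hk),
      Finset.sum_sub_distrib, ← Z2_ip_same (osum D β) (Z2_osum_inv β) j k hk, C.ip_comm (osum D β)]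
    unfold osum
    rw [Z2_ip_sum, Finset.sum_apply]
  · rw [(Z2_osum_simple j k).2 hk, mul_zero, sub_zero,
      Finset.sum_congr rfl (fun l _ => Z2_out hN j _ k hk)]
    unfold osum
    rw [Finset.sum_apply]

/-- the relative reflection of a simple root -/
private theorem Z2_wd_simple (hN : D.NA) (i : Fin n) :
    C.wd (D.wl i) (C.simple i) = -(C.simple i) := by
  apply SLC.Root.ext
  funext k
  rw [SLC.Root.neg_val, Pi.neg_apply]
  by_cases hk : D.ρ.SameCycle i k
  · rw [Z2_in hN i _ k hk]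
    by_cases hik : k = i
    · subst hik
      rw [(C.simple k).2, SLC.simple_val, Pi.single_eq_same]
      norm_num
    · rw [SLC.simple_val, SLC.simple_val, C.ip_single, Pi.single_eq_of_ne hik,
        Z2_orth hN i k i hk (Equiv.Perm.SameCycle.refl _ _) hik]
      norm_num
  · rw [Z2_out hN i _ k hk, SLC.simple_val, Pi.single_eq_of_ne]
    · norm_num
    · rintro rfl
      exact hk (Equiv.Perm.SameCycle.refl _ _)

private theorem Z2_iter (P : C.Root → Prop) (hr : ∀ β, P β → P (D.r β)) (β γ : C.Root)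
    (h : D.rE.SameCycle β γ) (hβ : P β) : P γ := by
  obtain ⟨l, -, rfl⟩ := (D.sameCycle_iff β γ).1 h
  clear h
  induction l with
  | zero => exact hβ
  | succ l ih =>
    rw [Function.iterate_succ_apply']
    exact hr _ ih

/-- a positive root has positive inner product with some simple root -/
private theorem Z2_exists (β : C.Root) (hβ : C.Pos β) :
    ∃ j, 0 < C.ip (osum D β) (C.simple j).1 := by
  by_contra hcon
  push Not at hcon
  have h0 : ∀ i, 0 ≤ osum D β i := by
    intro i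
    unfold osum
    rw [Finset.sum_apply]
    apply Finset.sum_nonneg
    intro l _
    refine (C.pos_iff _).1 ?_ i
    unfold SLC.Pos
    rw [Z2_ht_iter]
    exact hβ
  have h1 : osum D β ≠ 0 := by
    intro h
    have h2 := Z2_ht_osum (D := D) β
    rw [h] at h2
    have h3 : 0 < (mo D β : ℤ) * ht β.1 :=
      mul_pos (by exact_mod_cast Z2_mo_pos β) hβ
    rw [← h2] at h3
    simp [ht] at h3
  have h2 := C.ip_pos _ h1
  rw [← C.sum_ip_single] at h2
  refine absurd h2 (not_lt.mpr (Finset.sum_nonpos fun i _ => ?_))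
  rw [C.ip_comm]
  exact mul_nonpos_of_nonneg_of_nonpos (h0 i) (hcon i)

private theorem Z2_ht_lt (hN : D.NA) (β : C.Root) (j : Fin n)
    (hj : 0 < C.ip (osum D β) (C.simple j).1) : ht (C.wd (D.wl j) β).1 < ht β.1 := by
  have h1 := congrArg ht (Z2_osum_refl hN j β)
  rw [ht_sub, ht_smul, Z2_ht_osum, Z2_ht_osum, Z2_ht_osum, Z2_mo_wd] at h1
  have h2 : (0 : ℤ) < mo D β := by exact_mod_cast Z2_mo_pos β
  have h3 : (0 : ℤ) < mo D (C.simple j) := by exact_mod_cast Z2_mo_pos _
  have h4 : (0 : ℤ) < ht (C.simple j).1 := C.simple_pos j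
  have h5 : 0 < C.ip (osum D β) (C.simple j).1 * (mo D (C.simple j) * ht (C.simple j).1) :=
    mul_pos hj (mul_pos h3 h4)
  have h6 : (mo D β : ℤ) * ht (C.wd (D.wl j) β).1 < mo D β * ht β.1 := by omega
  exact lt_of_mul_lt_mul_left h6 h2.le

theorem root_induct (hN : D.NA) (P : C.Root → Prop) (h0 : ∀ i, P (C.simple i))
    (hr : ∀ β, P β → P (D.r β)) (hw : ∀ i β, P β → P (C.wd (D.wl i) β)) (β : C.Root) : P β := by
  have hpos : ∀ N : ℕ, ∀ β : C.Root, C.Pos β → ht β.1 ≤ N → P β ∧ P (-β) := by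
    intro N
    induction N with
    | zero =>
      intro β hβ hN0
      unfold SLC.Pos at hβ
      exact absurd hβ (by push_cast at hN0; omega)
    | succ N ih =>
      intro β hβ hN1
      obtain ⟨j, hj⟩ := Z2_exists (D := D) β hβ
      by_cases hs : D.supp j β
      · have hc := D.supp_NA hN j β hβ hs
        refine ⟨Z2_iter P hr _ _ hc (h0 j), ?_⟩
        refine Z2_iter (fun γ => P (-γ)) (fun γ hγ => ?_) _ _ hc ?_
        · rw [← D.r_neg]
          exact hr _ hγ
        · rw [← Z2_wd_simple hN j]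
          exact hw _ _ (h0 j)
      · have h1 := Z2_ht_lt hN β j hj
        have h2 := ih _ (D.wJ_pos j β hβ hs) (by push_cast at hN1; omega)
        constructor
        · have h3 := hw j _ h2.1
          rwa [Z2_wd_wd] at h3
        · have h3 := hw j _ h2.2
          rwa [Z2_wd_neg, Z2_wd_wd] at h3
  by_cases hβ : C.Pos β
  · exact (hpos (ht β.1).toNat β hβ (Int.self_le_toNat _)).1
  · have h1 := (hpos (ht (-β).1).toNat (-β) ((C.not_pos_iff β).1 hβ) (Int.self_le_toNat _)).2
    rwa [C.neg_neg_root] at h1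

theorem osum_inv (β : C.Root) : SLC.lmap D.ρ (osum D β) = osum D β := by
  exact Z2_osum_inv β

theorem TT_inv (hS : Swap D t0) (v : Fin n → ℤ) : SLC.lmap D.ρ (TT D t0 v) = TT D t0 v := by
  funext j
  unfold TT
  change (if D.ρ (D.ρ.symm j) = D.ρ.symm j then (D.m : ℤ) else 1) * v (t0 (D.ρ.symm j)) =
    (if D.ρ j = j then (D.m : ℤ) else 1) * v (t0 j)
  have h1 : t0 (D.ρ.symm j) = t0 j := by
    have h := hS.rho (D.ρ.symm j)
    rw [Equiv.apply_symm_apply] at h
    exact h.symm
  have h2 : D.ρ (D.ρ.symm j) = D.ρ.symm j ↔ D.ρ j = j := by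
    rw [Equiv.apply_symm_apply, Equiv.eq_symm_apply]
  rw [h1]
  by_cases h : D.ρ j = j
  · rw [if_pos h, if_pos (h2.2 h)]
  · rw [if_neg h, if_neg fun h3 => h (h2.1 h3)]

theorem TT_simple (hS : Swap D t0) (j : Fin n) :
    (D.ρ j = j → TT D t0 (C.simple j).1 = osum D (C.simple (t0 j))) ∧
    (D.ρ j ≠ j → TT D t0 (osum D (C.simple j)) = (D.m : ℤ) • (C.simple (t0 j)).1) := by
  have hcyc : ∀ a b, D.ρ.SameCycle a b → t0 b = t0 a := by
    intro a b h
    obtain ⟨l, -, rfl⟩ := Z2_cyc a b h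
    clear h
    induction l with
    | zero => rfl
    | succ l ih => rw [pow_succ', Equiv.Perm.mul_apply, hS.rho, ih]
  constructor
  · intro hj
    have h1 : t0 (t0 j) = j := Z2_fix_cyc j _ hj (hS.inv j)
    funext k
    unfold TT
    rw [SLC.simple_val]
    by_cases hk : D.ρ.SameCycle (t0 j) k
    · have h2 : t0 k = j := by rw [hcyc _ _ hk, h1]
      have h3 : ¬ D.ρ k = k := by
        rw [← ne_eq, ← hS.fix_iff, h2]
        exact hj
      rw [(Z2_osum_simple _ k).1 hk, if_neg h3, h2, Pi.single_eq_same, one_mul]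
    · rw [(Z2_osum_simple _ k).2 hk, Pi.single_eq_of_ne, mul_zero]
      intro h2
      apply hk
      have h3 := hS.inv k
      rw [h2] at h3
      exact h3.symm
  · intro hj
    funext k
    rw [Pi.smul_apply, smul_eq_mul, SLC.simple_val]
    unfold TT
    by_cases hk : k = t0 j
    · have h1 : D.ρ k = k := by
        rw [hk]
        exact (hS.fix_iff j).2 hj
      rw [if_pos h1, hk, (Z2_osum_simple j _).1 (hS.inv j), Pi.single_eq_same]
    · rw [Pi.single_eq_of_ne hk, mul_zero, (Z2_osum_simple j _).2, mul_zero]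
      intro h1
      apply hk
      have h2 : ¬ D.ρ (t0 k) = t0 k := by
        intro h3
        have h4 := Z2_cyc_fix j _ h3 h1
        rw [← h4] at h3
        exact hj h3
      have h3 : D.ρ k = k := by
        by_contra h4
        exact h2 ((hS.fix_iff k).2 h4)
      have h4 : t0 (t0 k) = k := Z2_fix_cyc k _ h3 (hS.inv k)
      rw [← h4, hcyc _ _ h1]

theorem osum_refl (hN : D.NA) (j : Fin n) (β : C.Root) : osum D (C.wd (D.wl j) β) =
    osum D β - C.ip (osum D β) (C.simple j).1 • osum D (C.simple j) := by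
  exact Z2_osum_refl hN j β

private theorem Z2_TT_sub (v w : Fin n → ℤ) (c : ℤ) :
    TT D t0 (v - c • w) = TT D t0 v - c • TT D t0 w := by
  funext k
  unfold TT
  simp only [Pi.sub_apply, Pi.smul_apply, smul_eq_mul]
  ring

private theorem Z2_TT_star (hS : Swap D t0) (j : Fin n) (v : Fin n → ℤ)
    (hv : SLC.lmap D.ρ v = v) :
    TT D t0 (v - C.ip v (C.simple j).1 • osum D (C.simple j)) =
      TT D t0 v - C.ip (TT D t0 v) (C.simple (t0 j)).1 • osum D (C.simple (t0 j)) := by
  have hm : (D.m : ℤ) ≠ 0 := by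
    have := Z2_m_pos (D := D)
    exact_mod_cast this.ne'
  have hTv := TT_inv hS v
  rw [Z2_TT_sub]
  by_cases hj : D.ρ j = j
  · have h1 := (TT_simple hS j).1 hj
    have h2 : ¬ D.ρ (t0 j) = t0 j := fun h => (hS.fix_iff j).1 h hj
    have h3 : SLC.lmap D.ρ (C.simple j).1 = (C.simple j).1 := by
      rw [SLC.simple_val, SLC.lmap_single, hj]
    have h4 := hS.scale v (C.simple j).1 hv h3
    rw [h1, Z2_ip_osum _ hTv] at h4
    have h5 : mo D (C.simple (t0 j)) = D.m := by
      unfold mo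
      rw [if_neg (Z2_simple_ne _ h2)]
    rw [h5] at h4
    have h6 := mul_left_cancel₀ hm h4
    rw [Z2_osum_fix _ ((Z2_simple_r j).2 hj), h1, h6]
  · have h1 := (TT_simple hS j).2 hj
    have h2 : D.ρ (t0 j) = t0 j := (hS.fix_iff j).2 hj
    have h4 := hS.scale v (osum D (C.simple j)) hv (Z2_osum_inv _)
    have h5 : mo D (C.simple j) = D.m := by
      unfold mo
      rw [if_neg (Z2_simple_ne _ hj)]
    rw [h1, Z2_ip_osum _ hv, C.ip_smul_right, h5] at h4
    have h6 := mul_left_cancel₀ hm h4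
    rw [Z2_osum_fix _ ((Z2_simple_r (t0 j)).2 h2), h1, h6, smul_smul, mul_comm]

theorem TT_refl (hS : Swap D t0) (j : Fin n) (β γ : C.Root)
    (h1 : D.r β = β → D.r γ ≠ γ ∧ osum D γ = TT D t0 β.1)
    (h2 : D.r β ≠ β → D.r γ = γ ∧ (D.m : ℤ) • γ.1 = TT D t0 (osum D β)) :
    (D.r (C.wd (D.wl j) β) = C.wd (D.wl j) β →
      D.r (C.wd (D.wl (t0 j)) γ) ≠ C.wd (D.wl (t0 j)) γ ∧
      osum D (C.wd (D.wl (t0 j)) γ) = TT D t0 (C.wd (D.wl j) β).1) ∧
    (D.r (C.wd (D.wl j) β) ≠ C.wd (D.wl j) β →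
      D.r (C.wd (D.wl (t0 j)) γ) = C.wd (D.wl (t0 j)) γ ∧
      (D.m : ℤ) • (C.wd (D.wl (t0 j)) γ).1 = TT D t0 (osum D (C.wd (D.wl j) β))) := by
  constructor
  · intro h
    have hβ := (Z2_fix_wd j β).1 h
    obtain ⟨h3, h4⟩ := h1 hβ
    refine ⟨fun h5 => h3 ((Z2_fix_wd _ γ).1 h5), ?_⟩
    rw [Z2_osum_refl hS.na, h4, ← Z2_osum_fix β hβ, ← Z2_TT_star hS j _ (Z2_osum_inv β),
      ← Z2_osum_refl hS.na, Z2_osum_fix _ h]
  · intro h
    have hβ : D.r β ≠ β := fun h3 => h ((Z2_fix_wd j β).2 h3)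
    obtain ⟨h3, h4⟩ := h2 hβ
    have h5 := (Z2_fix_wd (t0 j) γ).2 h3
    refine ⟨h5, ?_⟩
    rw [← Z2_osum_fix _ h5, Z2_osum_refl hS.na, Z2_osum_fix γ h3, Z2_osum_refl hS.na,
      Z2_TT_star hS j _ (Z2_osum_inv β), ← h4, C.ip_smul_left, smul_sub, smul_smul]

section
variable {k : Type*} [Field k] {θ : k ≃+* k}

private theorem Z2_th_sign (β : C.Root) (e : ℤ) (he : e = 1 ∨ e = -1) (t : k) :
    th D θ β ((e : k) * t) = (e : k) * th D θ β t := by
  unfold th
  rcases he with rfl | rfl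
  · simp
  · split_ifs <;> simp

private theorem Z2_th_one (β : C.Root) : th D θ β (1 : k) = 1 := by
  unfold th
  split_ifs <;> simp

private theorem Z2_th_wd (j : Fin n) (β : C.Root) (t : k) :
    th D θ (C.wd (D.wl j) β) t = th D θ β t := by
  unfold th
  by_cases h : D.r β = β
  · rw [if_pos h, if_pos ((Z2_fix_wd j β).2 h)]
  · rw [if_neg h, if_neg fun h1 => h ((Z2_fix_wd j β).1 h1)]

private theorem Z2_r_r (β : C.Root) : D.r (D.r β) = D.r β ↔ D.r β = β :=
  ⟨fun h => D.r_injective h, fun h => by rw [h, h]⟩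

private theorem Z2_th_r (β : C.Root) (t : k) : th D θ (D.r β) t = th D θ β t := by
  by_cases h : D.r β = β
  · rw [h]
  · unfold th
    rw [if_neg h, if_neg fun h1 => h ((Z2_r_r β).1 h1)]

private theorem Z2_osum_r (β : C.Root) (h : D.r β ≠ β) : osum D (D.r β) = osum D β := by
  rw [← Z2_osum_inv β, Z2_osum_ne β h, Z2_osum_ne _ fun h1 => h ((Z2_r_r β).1 h1), Z2_lmap_sum]
  refine Finset.sum_congr rfl fun l _ => ?_
  rw [← Function.iterate_succ_apply, Function.iterate_succ_apply']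
  rfl

private theorem Z2_sign_mul {a b : ℤ} (ha : a = 1 ∨ a = -1) (hb : b = 1 ∨ b = -1) :
    a * b = 1 ∨ a * b = -1 := by
  rcases ha with rfl | rfl <;> rcases hb with rfl | rfl <;> norm_num

private theorem Z2_sign_sq (k : Type*) [Field k] {a : ℤ} (ha : a = 1 ∨ a = -1) (t : k) :
    (a : k) * ((a : k) * t) = t := by
  rcases ha with rfl | rfl <;> simp

end

theorem exists_tau (hS : Swap D t0) {k : Type*} [Field k] [Infinite k] {θ : k ≃+* k}
    {σ : GF D k →* GF D k} (h : SRs D t0 θ σ) :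
    ∃ τ e, SRt hS.na t0 θ σ τ e := by
  have key : ∀ β : C.Root, ∃ (γ : C.Root) (e : ℤ), (e = 1 ∨ e = -1) ∧
      (∀ t, σ (yg hS.na β t) = yg hS.na γ ((e : k) * th D θ β t)) ∧
      (D.r β = β → D.r γ ≠ γ ∧ osum D γ = TT D t0 β.1) ∧
      (D.r β ≠ β → D.r γ = γ ∧ (D.m : ℤ) • γ.1 = TT D t0 (osum D β)) := by
    have hpos : ∀ (j : Fin n) (t : k), σ (yg hS.na (C.simple j) t) =
        yg hS.na (C.simple (t0 j)) (th D θ (C.simple j) t) := by
      intro j t
      apply Subtype.ext
      exact h.pos j t _ (yg_val _ _ _)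
    have hneg : ∀ (j : Fin n) (t : k), σ (yg hS.na (-(C.simple j)) t) =
        yg hS.na (-(C.simple (t0 j))) (th D θ (C.simple j) t) := by
      intro j t
      apply Subtype.ext
      exact h.neg j t _ (yg_val _ _ _)
    have hnJ : ∀ j, σ (nJ hS.na k j) = nJ hS.na k (t0 j) := by
      intro j
      unfold nJ
      rw [map_mul, map_mul, hpos, hneg, Z2_th_one]
    refine root_induct hS.na _ ?_ ?_ ?_
    · intro j
      refine ⟨C.simple (t0 j), 1, Or.inl rfl, fun t => ?_, fun hj => ?_, fun hj => ?_⟩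
      · rw [hpos, Int.cast_one, one_mul]
      · rw [Z2_simple_r] at hj
        refine ⟨Z2_simple_ne _ fun h1 => (hS.fix_iff j).1 h1 hj, ?_⟩
        exact ((TT_simple hS j).1 hj).symm
      · rw [ne_eq, Z2_simple_r] at hj
        refine ⟨(Z2_simple_r _).2 ((hS.fix_iff j).2 hj), ?_⟩
        exact ((TT_simple hS j).2 hj).symm
    · rintro β ⟨γ, e, he, h1, h2, h3⟩
      refine ⟨γ, e * D.sg β, Z2_sign_mul he (D.sg_eq β), fun t => ?_, fun hj => ?_, fun hj => ?_⟩
      · have h4 := yg_r hS.na β ((D.sg β : k) * t)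
        rw [Z2_sign_sq k (D.sg_eq β)] at h4
        rw [h4, h1, Z2_th_sign β _ (D.sg_eq β), Z2_th_r, Int.cast_mul, mul_assoc]
      · have h4 := (Z2_r_r β).1 hj
        rw [h4]
        exact h2 h4
      · have h4 : D.r β ≠ β := fun h5 => hj ((Z2_r_r β).2 h5)
        rw [Z2_osum_r β h4]
        exact h3 h4
    · rintro j β ⟨γ, e, he, h1, h2, h3⟩
      obtain ⟨e1, he1, hc1⟩ := nJ_conj hS.na j β (k := k)
      obtain ⟨e2, he2, hc2⟩ := nJ_conj hS.na (t0 j) γ (k := k)
      have h4 := TT_refl hS j β γ h2 h3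
      refine ⟨C.wd (D.wl (t0 j)) γ, e2 * (e * e1), Z2_sign_mul he2 (Z2_sign_mul he he1),
        fun t => ?_, h4.1, h4.2⟩
      have h5 := hc1 ((e1 : k) * t)
      rw [Z2_sign_sq k he1] at h5
      rw [← h5, map_mul, map_mul, map_inv, hnJ, h1, hc2, Z2_th_sign β _ he1, Z2_th_wd]
      push_cast
      congr 1
      ring
  choose τ e h1 h2 h3 h4 using key
  exact ⟨τ, e, ⟨⟨h3, h4⟩, h1, h2⟩⟩

end Pool.Agent.H86.UM
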