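import Pool.Agent.H86.UM.Z2

/-!
# Project UM, Suzuki-Ree groups, module Z3: combinatorics of `τ`

`osum_inj`: by `osum β = osum γ` and invariance `∑_l ip β (r^l γ) = ip β (osum γ) = ip β (osum β) = 2`
(for `β` not fixed the other roots of the orbit are orthogonal to `β`: `ip_r_NA`, `ip_orb`; both are fixed or both
are not fixed, as `ip (osum β) (osum β) = 2 * mo β`). If some `ip β (r^l γ) = 2` we are done (`ip_eq_two_iff`).
Otherwise (`ip ≤ 1`) there is `l` with `ip β (r^l γ) = 1` (not fixed case), `δ = β - r^l γ` is a root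
(`exists_sub`) with `∑_l r^l δ = 0`, so `m * ht δ = 0`, contradiction to `ht_ne_zero`.
`tau_pos`: `osum β` has nonnegative coordinates iff `β` is positive (`pos_iff`, `r_pos`), `TT` preserves this
(`t0` is surjective up to cycles, `inv`). `tau_cycle`: `osum_inj`. `tau_tau`: `TT (TT v) = m • v` for
invariant `v` (`inv`, `rho`, `fix_iff`). `tau_simple`: `TT_simple`. `tau_neg`: `TT (-v) = - TT v`.
`tau_supp`: the support of `osum β` is the union of the cycles of the support of `β` (for a root, all coordinates have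
the same sign), and the coordinate of `TT v` at `j` is a nonzero multiple of `v (t0 j)`; `JJ i` is a union
of cycles and `JJ i (t0 j) ↔ JJ i j`.
-/

set_option autoImplicit false
open Matrix

namespace Pool.Agent.H86.UM

open Pool.Agent.H75.UL

variable {n : ℕ} {C : SLC n} {D : Dg C} {t0 : Fin n → Fin n} {τ : C.Root → C.Root}

private theorem Z3_m_pos : 0 < D.m := by
  rcases D.m_cases with h | h | h <;> omega

private theorem Z3_mo_pos (β : C.Root) : 0 < mo D β := by
  unfold mo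
  split_ifs
  · exact one_pos
  · exact Z3_m_pos

private theorem Z3_osum_r (β : C.Root) : osum D (D.r β) = osum D β := by
  by_cases h : D.r β = β
  · rw [h]
  · have h' : D.r (D.r β) ≠ D.r β := fun h1 => h (D.r_injective h1)
    unfold osum mo
    rw [if_neg h, if_neg h']
    have h1 : ∀ l, (D.r^[l] (D.r β)).1 = (D.r^[l + 1] β).1 := fun l => rfl
    rw [Finset.sum_congr rfl (fun l _ => h1 l)]
    have h2 := Finset.sum_range_succ' (fun l => (D.r^[l] β).1) D.m
    have h3 := Finset.sum_range_succ (fun l => (D.r^[l] β).1) D.m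
    rw [h3] at h2
    simp only [D.r_m, Function.iterate_zero_apply] at h2
    exact (add_right_cancel h2).symm

private theorem Z3_osum_iter (l : ℕ) (β : C.Root) : osum D (D.r^[l] β) = osum D β := by
  induction l with
  | zero => rfl
  | succ l ih => rw [Function.iterate_succ_apply', Z3_osum_r, ih]

theorem osum_cycle (β γ : C.Root) (h : D.rE.SameCycle β γ) : osum D β = osum D γ := by
  obtain ⟨l, -, rfl⟩ := (D.sameCycle_iff β γ).mp h
  exact (Z3_osum_iter l β).symm

private theorem Z3_ht_iter (β : C.Root) (l : ℕ) : ht (D.r^[l] β).1 = ht β.1 := by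
  induction l with
  | zero => rfl
  | succ l ih => rw [Function.iterate_succ_apply', D.r_ht, ih]

private theorem Z3_ht_sum {ι : Type*} (s : Finset ι)
    (f : ι → Fin n → ℤ) : ht (∑ i ∈ s, f i) = ∑ i ∈ s, ht (f i) :=
  map_sum (AddMonoidHom.mk' (ht (n := n)) ht_add) f s

private theorem Z3_ht_osum (β : C.Root) : ht (osum D β) = mo D β * ht β.1 := by
  unfold osum
  rw [Z3_ht_sum, Finset.sum_congr rfl (fun l _ => Z3_ht_iter β l), Finset.sum_const,
    Finset.card_range, nsmul_eq_mul]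

private theorem Z3_ip_sum (C : SLC n) {ι : Type*} (v : Fin n → ℤ) (s : Finset ι)
    (f : ι → Fin n → ℤ) : C.ip v (∑ i ∈ s, f i) = ∑ i ∈ s, C.ip v (f i) :=
  map_sum (AddMonoidHom.mk' (C.ip v) (C.ip_add_right v)) f s

private theorem Z3_ip_inv (v : Fin n → ℤ) (hv : SLC.lmap D.ρ v = v) (β : C.Root) (l : ℕ) :
    C.ip v (D.r^[l] β).1 = C.ip v β.1 := by
  induction l with
  | zero => rfl
  | succ l ih =>
    rw [Function.iterate_succ_apply', ← ih]
    have h1 := C.ip_lmap D.ρ D.hρ v (D.r^[l] β).1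
    rw [hv] at h1
    exact h1

private theorem Z3_ip_self (hN : D.NA) (β : C.Root) : C.ip β.1 (osum D β) = 2 := by
  unfold osum
  rw [Z3_ip_sum, Finset.sum_eq_single_of_mem 0 (Finset.mem_range.mpr (Z3_mo_pos β))]
  · rw [Function.iterate_zero_apply, β.2]
  · intro l hl hl0
    rw [Finset.mem_range] at hl
    by_cases hβ : D.r β = β
    · unfold mo at hl
      rw [if_pos hβ] at hl
      omega
    · unfold mo at hl
      rw [if_neg hβ] at hl
      rw [D.ip_orb β hβ l (by omega) hl]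
      exact D.ip_r_NA hN β hβ

private theorem Z3_ip_osum (hN : D.NA) (β : C.Root) :
    C.ip (osum D β) (osum D β) = 2 * mo D β := by
  have h1 : C.ip (osum D β) (osum D β) =
      ∑ l ∈ Finset.range (mo D β), C.ip (osum D β) (D.r^[l] β).1 := Z3_ip_sum C _ _ _
  rw [h1, Finset.sum_congr rfl (fun l _ => Z3_ip_inv _ (osum_inv β) β l),
    Finset.sum_const, Finset.card_range, nsmul_eq_mul, C.ip_comm, Z3_ip_self hN]
  ring

theorem osum_inj (hN : D.NA) (β γ : C.Root) (h : osum D β = osum D γ) :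
    D.rE.SameCycle β γ := by
  have hm : (mo D β : ℤ) = mo D γ := by
    have h1 := Z3_ip_osum hN β
    rw [h, Z3_ip_osum hN γ] at h1
    omega
  have hht : ht β.1 = ht γ.1 := by
    have h1 := Z3_ht_osum (D := D) β
    rw [h, Z3_ht_osum, hm] at h1
    have h2 : (mo D γ : ℤ) ≠ 0 := by
      have := Z3_mo_pos (D := D) γ
      omega
    exact (mul_left_cancel₀ h2 h1).symm
  have hs : ∑ l ∈ Finset.range (mo D β), C.ip γ.1 (D.r^[l] β).1 = 2 := by
    rw [← Z3_ip_sum]
    change C.ip γ.1 (osum D β) = 2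
    rw [h, Z3_ip_self hN]
  by_cases hex : ∃ l ∈ Finset.range (mo D β), C.ip γ.1 (D.r^[l] β).1 = 2
  · obtain ⟨l, -, hl⟩ := hex
    have h1 := (C.ip_eq_two_iff _ _).mp hl
    rw [h1]
    exact ⟨l, by
      rw [zpow_natCast]
      clear h1 hl hs hht hm h
      induction l with
      | zero => rfl
      | succ l ih =>
        rw [pow_succ', Equiv.Perm.mul_apply, ih, Function.iterate_succ_apply']
        rfl⟩
  · exfalso
    push Not at hex
    have h1 : ∃ l ∈ Finset.range (mo D β), 0 < C.ip γ.1 (D.r^[l] β).1 := by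
      by_contra hc
      push Not at hc
      have := Finset.sum_nonpos hc
      omega
    obtain ⟨l, hl, hl0⟩ := h1
    have h2 : C.ip γ.1 (D.r^[l] β).1 = 1 := by
      have := C.ip_cases γ (D.r^[l] β)
      have := hex l hl
      omega
    obtain ⟨δ, hδ⟩ := C.exists_sub _ _ h2
    have h3 := C.ht_ne_zero δ
    rw [hδ, ht_sub, Z3_ht_iter] at h3
    omega

private theorem Z3_cyc (i j : Fin n) (h : D.ρ.SameCycle i j) :
    ∃ l, l < D.m ∧ (D.ρ ^ l) i = j := by
  obtain ⟨z, hz⟩ := h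
  have hm := Z3_m_pos (D := D)
  have h1 : 0 ≤ z % (D.m : ℤ) := Int.emod_nonneg _ (by omega)
  have h2 : z % (D.m : ℤ) < D.m := Int.emod_lt_of_pos _ (by omega)
  refine ⟨(z % (D.m : ℤ)).toNat, by omega, ?_⟩
  have h3 : D.ρ ^ (z % (D.m : ℤ)) = D.ρ ^ z := zpow_mod_orderOf _ _
  rw [← hz, ← h3]
  conv_rhs => rw [← Int.toNat_of_nonneg h1]
  rw [zpow_natCast]

theorem t0_cycle (hS : Swap D t0) (i j : Fin n) (h : D.ρ.SameCycle i j) : t0 i = t0 j := by
  obtain ⟨l, -, hl⟩ := Z3_cyc i j h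
  rw [← hl]
  clear hl
  induction l with
  | zero => rfl
  | succ l ih => rw [pow_succ', Equiv.Perm.mul_apply, hS.rho, ih]

theorem JJ_refl (i : Fin n) : JJ D t0 i i := Or.inl (Equiv.Perm.SameCycle.refl _ _)

theorem JJ_symm (hS : Swap D t0) (i j : Fin n) (h : JJ D t0 i j) : JJ D t0 j i := by
  rcases h with h | h
  · exact Or.inl h.symm
  · right
    have h1 := t0_cycle hS _ _ h
    rw [← h1]
    exact (hS.inv i).symm

theorem JJ_trans (hS : Swap D t0) (i j l : Fin n) (h : JJ D t0 i j) (h' : JJ D t0 j l) :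
    JJ D t0 i l := by
  rcases h with h | h <;> rcases h' with h' | h'
  · exact Or.inl (h.trans h')
  · right
    rw [t0_cycle hS _ _ h]
    exact h'
  · exact Or.inr (h.trans h')
  · left
    have h1 := t0_cycle hS _ _ h
    rw [← h1] at h'
    exact (hS.inv i).trans h'

theorem JJ_t0 (hS : Swap D t0) (i j : Fin n) : JJ D t0 i (t0 j) ↔ JJ D t0 i j := by
  have h1 : JJ D t0 j (t0 j) := Or.inr (Equiv.Perm.SameCycle.refl _ _)
  exact ⟨fun h => JJ_trans hS _ _ _ h (JJ_symm hS _ _ h1), fun h => JJ_trans hS _ _ _ h h1⟩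

theorem JJ_rho (i j : Fin n) : JJ D t0 i (D.ρ j) ↔ JJ D t0 i j := by
  unfold JJ
  rw [Equiv.Perm.sameCycle_apply_right, Equiv.Perm.sameCycle_apply_right]

private theorem Z3_supp_r (i : Fin n) (β : C.Root) :
    suppJ D t0 i (D.r β) ↔ suppJ D t0 i β := by
  constructor
  · intro h j hj
    rw [← D.r_val β j] at hj
    exact (JJ_rho i j).mp (h _ hj)
  · intro h j hj
    obtain ⟨j', rfl⟩ := D.ρ.surjective j
    rw [D.r_val β j'] at hj
    exact (JJ_rho i j').mpr (h _ hj)

theorem suppJ_cycle (i : Fin n) (β γ : C.Root) (h : D.rE.SameCycle β γ) :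
    suppJ D t0 i β ↔ suppJ D t0 i γ := by
  obtain ⟨l, -, rfl⟩ := (D.sameCycle_iff β γ).mp h
  clear h
  induction l with
  | zero => exact Iff.rfl
  | succ l ih => rw [Function.iterate_succ_apply', Z3_supp_r, ih]

theorem pos_cycle (β γ : C.Root) (h : D.rE.SameCycle β γ) : C.Pos β ↔ C.Pos γ :=
  D.sameCycle_pos β γ h

theorem fix_cycle (β γ : C.Root) (h : D.rE.SameCycle β γ) : D.r β = β ↔ D.r γ = γ := by
  obtain ⟨l, -, rfl⟩ := (D.sameCycle_iff β γ).mp h
  clear h
  induction l with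
  | zero => exact Iff.rfl
  | succ l ih =>
    rw [Function.iterate_succ_apply', ih]
    exact ⟨fun h => by rw [h, h], fun h => D.r_injective h⟩

theorem tau_fix (hS : Swap D t0) (h : IsTau D t0 τ) (β : C.Root) :
    D.r (τ β) = τ β ↔ D.r β ≠ β :=
  ⟨fun h1 h2 => (h.long β h2).1 h1, fun h1 => (h.short β h1).1⟩

private theorem Z3_inv_val (v : Fin n → ℤ) (hv : SLC.lmap D.ρ v = v) (i j : Fin n)
    (h : D.ρ.SameCycle i j) : v i = v j := by
  obtain ⟨l, -, rfl⟩ := Z3_cyc i j h
  clear h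
  induction l with
  | zero => rfl
  | succ l ih =>
    rw [ih, pow_succ', Equiv.Perm.mul_apply]
    have h1 := congrFun hv (D.ρ ((D.ρ ^ l) i))
    unfold SLC.lmap at h1
    rw [Equiv.symm_apply_apply] at h1
    exact h1

private theorem Z3_c_pos (j : Fin n) : 0 < (if D.ρ j = j then (D.m : ℤ) else 1) := by
  have := Z3_m_pos (D := D)
  split_ifs <;> omega

private theorem Z3_TT_nn (hS : Swap D t0) (v : Fin n → ℤ) (hv : SLC.lmap D.ρ v = v) :
    (∀ j, 0 ≤ TT D t0 v j) ↔ ∀ j, 0 ≤ v j := by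
  constructor
  · intro h j
    have h1 := h (t0 j)
    unfold TT at h1
    have h2 := nonneg_of_mul_nonneg_right h1 (Z3_c_pos _)
    rwa [Z3_inv_val v hv j _ (hS.inv j)]
  · intro h j
    unfold TT
    exact mul_nonneg (Z3_c_pos _).le (h _)

private theorem Z3_ht_nn (v : Fin n → ℤ) (h : ∀ j, 0 ≤ v j) : 0 ≤ ht v :=
  Finset.sum_nonneg fun i _ => h i

private theorem Z3_pos_iter (β : C.Root) (l : ℕ) : C.Pos (D.r^[l] β) ↔ C.Pos β := by
  unfold SLC.Pos
  rw [Z3_ht_iter]

private theorem Z3_pos_osum (β : C.Root) : C.Pos β ↔ ∀ j, 0 ≤ osum D β j := by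
  constructor
  · intro h j
    unfold osum
    rw [Finset.sum_apply]
    exact Finset.sum_nonneg fun l _ => (C.pos_iff _).mp ((Z3_pos_iter β l).mpr h) j
  · intro h
    have h1 := Z3_ht_nn _ h
    rw [Z3_ht_osum] at h1
    have h2 := Z3_mo_pos (D := D) β
    have h3 := nonneg_of_mul_nonneg_right h1 (by exact_mod_cast h2)
    have h4 := C.ht_ne_zero β
    unfold SLC.Pos
    omega

private theorem Z3_inv_fix (β : C.Root) (h : D.r β = β) : SLC.lmap D.ρ β.1 = β.1 :=
  congrArg SLC.Root.val h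

private theorem Z3_osum_fix (β : C.Root) (h : D.r β = β) : osum D β = β.1 := by
  unfold osum mo
  rw [if_pos h, Finset.sum_range_one]
  rfl

theorem tau_pos (hS : Swap D t0) (h : IsTau D t0 τ) (β : C.Root) :
    C.Pos (τ β) ↔ C.Pos β := by
  by_cases hβ : D.r β = β
  · rw [Z3_pos_osum (D := D) (τ β), (h.long β hβ).2, Z3_TT_nn hS _ (Z3_inv_fix β hβ), C.pos_iff β]
  · have h1 := (h.short β hβ).2
    rw [Z3_pos_osum (D := D) β, ← Z3_TT_nn hS _ (osum_inv β), ← h1, C.pos_iff]
    have hm : 0 < (D.m : ℤ) := by exact_mod_cast Z3_m_pos (D := D)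
    constructor
    · intro h2 j
      rw [Pi.smul_apply, smul_eq_mul]
      exact mul_nonneg hm.le (h2 j)
    · intro h2 j
      have h3 := h2 j
      rw [Pi.smul_apply, smul_eq_mul] at h3
      exact nonneg_of_mul_nonneg_right h3 hm

private theorem Z3_smul_inj (v w : Fin n → ℤ) (h : (D.m : ℤ) • v = (D.m : ℤ) • w) : v = w := by
  have hm : (D.m : ℤ) ≠ 0 := by
    have := Z3_m_pos (D := D)
    omega
  funext j
  have h1 := congrFun h j
  rw [Pi.smul_apply, Pi.smul_apply, smul_eq_mul, smul_eq_mul] at h1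
  exact mul_left_cancel₀ hm h1

private theorem Z3_long (h : IsTau D t0 τ) (β : C.Root) (hβ : D.r β = β) :
    osum D (τ β) = TT D t0 (osum D β) := by
  rw [Z3_osum_fix β hβ]
  exact (h.long β hβ).2

theorem tau_cycle (hS : Swap D t0) (h : IsTau D t0 τ) (β γ : C.Root)
    (hc : D.rE.SameCycle β γ) : D.rE.SameCycle (τ β) (τ γ) := by
  have ho := osum_cycle β γ hc
  have hf := fix_cycle β γ hc
  by_cases hβ : D.r β = β
  · apply osum_inj hS.na
    rw [Z3_long h β hβ, Z3_long h γ (hf.mp hβ), ho]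
  · have hγ : D.r γ ≠ γ := fun h1 => hβ (hf.mpr h1)
    have h1 := (h.short β hβ).2
    rw [ho, ← (h.short γ hγ).2] at h1
    have h2 : τ β = τ γ := SLC.Root.ext (Z3_smul_inj (D := D) _ _ h1)
    rw [h2]

private theorem Z3_TT_TT (hS : Swap D t0) (v : Fin n → ℤ) (hv : SLC.lmap D.ρ v = v) :
    TT D t0 (TT D t0 v) = (D.m : ℤ) • v := by
  funext j
  rw [Pi.smul_apply, smul_eq_mul]
  change (if D.ρ j = j then (D.m : ℤ) else 1) *
    ((if D.ρ (t0 j) = t0 j then (D.m : ℤ) else 1) * v (t0 (t0 j))) = _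
  rw [← Z3_inv_val v hv j _ (hS.inv j)]
  by_cases hj : D.ρ j = j
  · rw [if_pos hj, if_neg (fun h1 => (hS.fix_iff j).mp h1 hj), one_mul]
  · rw [if_neg hj, if_pos ((hS.fix_iff j).mpr hj), one_mul]

private theorem Z3_TT_smul (a : ℤ) (v : Fin n → ℤ) : TT D t0 (a • v) = a • TT D t0 v := by
  funext j
  unfold TT
  simp only [Pi.smul_apply, smul_eq_mul]
  ring

private theorem Z3_TT_neg (v : Fin n → ℤ) : TT D t0 (-v) = - TT D t0 v := by
  funext j
  unfold TT
  simp only [Pi.neg_apply, mul_neg]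

theorem tau_tau (hS : Swap D t0) (h : IsTau D t0 τ) (β : C.Root) :
    D.rE.SameCycle (τ (τ β)) β := by
  by_cases hβ : D.r β = β
  · have h1 := h.long β hβ
    have h2 := (h.short (τ β) h1.1).2
    rw [h1.2, Z3_TT_TT hS _ (Z3_inv_fix β hβ)] at h2
    have h3 : τ (τ β) = β := SLC.Root.ext (Z3_smul_inj (D := D) _ _ h2)
    rw [h3]
  · have h1 := h.short β hβ
    have h2 := (h.long (τ β) h1.1).2
    apply osum_inj hS.na
    apply Z3_smul_inj (D := D)
    rw [h2, ← Z3_TT_smul, h1.2, Z3_TT_TT hS _ (osum_inv β)]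

theorem tau_simple (hS : Swap D t0) (h : IsTau D t0 τ) (j : Fin n) :
    D.rE.SameCycle (τ (C.simple j)) (C.simple (t0 j)) := by
  have h0 := TT_simple (C := C) hS j
  by_cases hj : D.ρ j = j
  · have h1 : D.r (C.simple j) = C.simple j := by rw [D.r_simple, hj]
    apply osum_inj hS.na
    rw [(h.long _ h1).2, h0.1 hj]
  · have h1 : D.r (C.simple j) ≠ C.simple j := by
      rw [D.r_simple]
      exact fun h2 => hj (C.simple_injective h2)
    have h2 := (h.short _ h1).2
    rw [h0.2 hj] at h2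
    have h3 : τ (C.simple j) = C.simple (t0 j) := SLC.Root.ext (Z3_smul_inj (D := D) _ _ h2)
    rw [h3]

private theorem Z3_iter_neg (l : ℕ) (β : C.Root) : D.r^[l] (-β) = -(D.r^[l] β) := by
  induction l with
  | zero => rfl
  | succ l ih => rw [Function.iterate_succ_apply', ih, D.r_neg, Function.iterate_succ_apply']

private theorem Z3_fix_neg (β : C.Root) : D.r (-β) = -β ↔ D.r β = β := by
  rw [D.r_neg]
  constructor
  · intro h
    apply SLC.Root.ext
    have h1 := congrArg SLC.Root.val h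
    simpa using h1
  · intro h
    rw [h]

private theorem Z3_osum_neg (β : C.Root) : osum D (-β) = - osum D β := by
  have hmo : mo D (-β) = mo D β := by
    unfold mo
    by_cases h : D.r β = β
    · rw [if_pos h, if_pos ((Z3_fix_neg β).mpr h)]
    · rw [if_neg h, if_neg (fun h1 => h ((Z3_fix_neg β).mp h1))]
  unfold osum
  rw [hmo, ← Finset.sum_neg_distrib]
  exact Finset.sum_congr rfl fun l _ => by rw [Z3_iter_neg, SLC.Root.neg_val]

theorem tau_neg (hS : Swap D t0) (h : IsTau D t0 τ) (β : C.Root) :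
    D.rE.SameCycle (τ (-β)) (-(τ β)) := by
  by_cases hβ : D.r β = β
  · apply osum_inj hS.na
    rw [Z3_long h _ ((Z3_fix_neg β).mpr hβ), Z3_osum_neg, Z3_osum_neg, Z3_TT_neg,
      Z3_long h β hβ]
  · have hβ' : D.r (-β) ≠ -β := fun h1 => hβ ((Z3_fix_neg β).mp h1)
    have h1 := (h.short (-β) hβ').2
    rw [Z3_osum_neg, Z3_TT_neg, ← (h.short β hβ).2, ← smul_neg] at h1
    have h3 : τ (-β) = -(τ β) := SLC.Root.ext (Z3_smul_inj (D := D) _ _ h1)
    rw [h3]

private theorem Z3_osum_ne (β : C.Root) (j : Fin n) (hj : β.1 j ≠ 0) : osum D β j ≠ 0 := by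
  have key : ∀ γ : C.Root, C.Pos γ → γ.1 j ≠ 0 → osum D γ j ≠ 0 := by
    intro γ hγ hj
    unfold osum
    rw [Finset.sum_apply]
    have h0 : ∀ l ∈ Finset.range (mo D γ), 0 ≤ (D.r^[l] γ).1 j := fun l _ =>
      (C.pos_iff _).mp ((Z3_pos_iter γ l).mpr hγ) j
    have h1 := Finset.single_le_sum h0 (Finset.mem_range.mpr (Z3_mo_pos (D := D) γ))
    rw [Function.iterate_zero_apply] at h1
    have h2 := (C.pos_iff γ).mp hγ j
    omega
  by_cases hp : C.Pos β
  · exact key β hp hj
  · have h1 := key (-β) ((C.not_pos_iff β).mp hp) (by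
      rw [SLC.Root.neg_val, Pi.neg_apply]
      omega)
    rw [Z3_osum_neg, Pi.neg_apply] at h1
    omega

private theorem Z3_supp_osum (i : Fin n) (β : C.Root) :
    suppJ D t0 i β ↔ ∀ j, osum D β j ≠ 0 → JJ D t0 i j := by
  constructor
  · intro h j hj
    unfold osum at hj
    rw [Finset.sum_apply] at hj
    obtain ⟨l, -, hl⟩ := Finset.exists_ne_zero_of_sum_ne_zero hj
    have h1 : suppJ D t0 i (D.r^[l] β) := by
      clear hj hl
      induction l with
      | zero => exact h
      | succ l ih => rw [Function.iterate_succ_apply', Z3_supp_r]; exact ih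
    exact h1 j hl
  · intro h j hj
    exact h j (Z3_osum_ne β j hj)

private theorem Z3_supp_TT (hS : Swap D t0) (i : Fin n) (v : Fin n → ℤ)
    (hv : SLC.lmap D.ρ v = v) :
    (∀ j, TT D t0 v j ≠ 0 → JJ D t0 i j) ↔ ∀ j, v j ≠ 0 → JJ D t0 i j := by
  constructor
  · intro h j hj
    rw [Z3_inv_val v hv j _ (hS.inv j)] at hj
    exact (JJ_t0 hS i j).mp (h (t0 j) (mul_ne_zero (Z3_c_pos _).ne' hj))
  · intro h j hj
    exact (JJ_t0 hS i j).mp (h (t0 j) (right_ne_zero_of_mul hj))

theorem tau_supp (hS : Swap D t0) (h : IsTau D t0 τ) (i : Fin n) (β : C.Root) :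
    suppJ D t0 i (τ β) ↔ suppJ D t0 i β := by
  by_cases hβ : D.r β = β
  · rw [Z3_supp_osum i (τ β), (h.long β hβ).2, Z3_supp_TT hS i _ (Z3_inv_fix β hβ)]
    rfl
  · rw [Z3_supp_osum i β, ← Z3_supp_TT hS i _ (osum_inv β), ← (h.short β hβ).2]
    have hm : (D.m : ℤ) ≠ 0 := by
      have := Z3_m_pos (D := D)
      omega
    unfold suppJ
    constructor
    · intro h1 j hj
      rw [Pi.smul_apply, smul_eq_mul] at hj
      exact h1 j (right_ne_zero_of_mul hj)
    · intro h1 j hj
      apply h1 j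
      rw [Pi.smul_apply, smul_eq_mul]
      exact mul_ne_zero hm hj

/-- `th` -/
theorem th_add {k : Type*} [Field k] (θ : k ≃+* k) (β : C.Root) (s t : k) :
    th D θ β (s + t) = th D θ β s + th D θ β t := by
  unfold th
  split_ifs <;> simp

theorem th_mul {k : Type*} [Field k] (θ : k ≃+* k) (β : C.Root) (s t : k) :
    th D θ β (s * t) = th D θ β s * th D θ β t := by
  unfold th
  split_ifs <;> simp

theorem th_int {k : Type*} [Field k] (θ : k ≃+* k) (β : C.Root) (e : ℤ) (t : k) :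
    th D θ β ((e : k) * t) = (e : k) * th D θ β t := by
  unfold th
  split_ifs <;> simp

theorem th_th (hS : Swap D t0) (h : IsTau D t0 τ) {k : Type*} [Field k] (θ : k ≃+* k)
    (β : C.Root) (t : k) : th D θ (τ β) (th D θ β t) = t := by
  by_cases hβ : D.r β = β
  · unfold th
    rw [if_pos hβ, if_neg (h.long β hβ).1, RingEquiv.apply_symm_apply]
  · unfold th
    rw [if_neg hβ, if_pos (h.short β hβ).1, RingEquiv.symm_apply_apply]

theorem th_one {k : Type*} [Field k] (θ : k ≃+* k) (β : C.Root) : th D θ β (1 : k) = 1 := by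
  unfold th
  split_ifs <;> simp

theorem th_cycle {k : Type*} [Field k] (θ : k ≃+* k) (β γ : C.Root)
    (h : D.rE.SameCycle β γ) (t : k) : th D θ β t = th D θ γ t := by
  have hf := fix_cycle β γ h
  unfold th
  by_cases hβ : D.r β = β
  · rw [if_pos hβ, if_pos (hf.mp hβ)]
  · rw [if_neg hβ, if_neg (fun h1 => hβ (hf.mpr h1))]

end Pool.Agent.H86.UM
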