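import Pool.Agent.H86.UM.Z1
import Pool.Agent.H75.UT.D8u

/-!
# Project UM, Suzuki-Ree groups, module Z4: closed sets of positive roots

`R` closed: `u ∈ UR R` iff `u = lp posList t` with `t` supported on `R`. For the product of such elements: let
`u ∈ U m` be of this form and let `β ∈ R`; use layers (`exists_layer`, `lp_split`, `lp_add_layer` have the technique):
prove by descending induction on `m` that for each `g ∈ UR R ∩ U m` (or: for each `g` in the closure of the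
`x_β t` with `β ∈ R`, `ht β ≥ m`) there is `t` supported on `R`, vanishing in heights `< m`, with
`g = lp posList t`. (All the groups `UR (R ∩ {ht ≥ m})` are closed; `UR (R ∩ {ht ≥ m})` is generated by the
`x_β`, `β ∈ R` of height `m`, and by the normal subgroup `UR (R ∩ {ht ≥ m + 1})`, and commutators of the
former are in the latter (`xg_comm, xg_comm_add`, `R` closed).) `UR_coord`: `lp_unique`.
`UR_fix`: `x ∈ UR R` fixed by `s`: as in UT/D3.lean (`layer`): the coordinates of lowest height `m` satisfy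
`t (r β) = sg β * t β`; so `x` is a product of elements `yb β (t β)`, one for each orbit of roots of height `m` in `R`,
times a fixed element of `UR (R ∩ {ht ≥ m + 1})`; induction on `m`. (FX.lean contains private lemmas
`FX_R_..` on coordinates in one height.)
`UR_normal`: generators. `UR_split`: closure induction with `UR_normal`. `UR_inf`: coordinates.
`FR_split`: `UR_split`, apply `s` and use `UR_inf` (`UR A`, `UR B` are `s`-stable), `UR_fix`.
-/

set_option autoImplicit false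
open Matrix

namespace Pool.Agent.H86.UM

open Pool.Agent.H75.UL

variable {n : ℕ} {C : SLC n} {D : Dg C}

/-- `R` is a closed set of positive roots. -/
def ClR (C : SLC n) (R : Set C.Root) : Prop := (∀ β ∈ R, C.Pos β) ∧
  ∀ α ∈ R, ∀ β ∈ R, ∀ γ : C.Root, γ.1 = α.1 + β.1 → γ ∈ R

/-- The group generated by the root elements for the roots in `R`. -/
noncomputable def UR (C : SLC n) (k : Type*) [Field k] (R : Set C.Root) : Subgroup (GL C.Idx k) :=
  Subgroup.closure {g | ∃ β ∈ R, ∃ t : k, g = C.xg k β t}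

variable {k : Type*} [Field k] [Infinite k]

theorem UR_mono {R R' : Set C.Root} (h : R ⊆ R') : UR C k R ≤ UR C k R' :=
  Subgroup.closure_mono fun _ ⟨β, hβ, t, ht⟩ => ⟨β, h hβ, t, ht⟩

theorem UR_le_U {R : Set C.Root} (hR : ∀ β ∈ R, C.Pos β) : UR C k R ≤ (C.adS k).U 1 := by
  unfold UR StSys.U
  apply Subgroup.closure_mono
  rintro g ⟨β, hβ, t, rfl⟩
  refine ⟨β, t, ?_, rfl⟩
  have := hR β hβ
  unfold SLC.Pos at this
  omega

private theorem Z4_mem {R : Set C.Root} (β : C.Root) (hβ : β ∈ R) (t : k) :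
    (C.adS k).x β t ∈ UR C k R := Subgroup.subset_closure ⟨β, hβ, t, rfl⟩

private theorem Z4_conj_gen {R B : Set C.Root} (hB : B ⊆ R) (hR : ∀ β ∈ R, C.Pos β)
    (hI : ∀ α ∈ R, ∀ β ∈ B, ∀ γ : C.Root, γ.1 = α.1 + β.1 → γ ∈ B) (γ : C.Root) (s : k)
    (hγ : γ ∈ R) (u : GL C.Idx k) (hu : u ∈ UR C k B) :
    (C.adS k).x γ s * u * ((C.adS k).x γ s)⁻¹ ∈ UR C k B := by
  unfold UR at hu
  induction hu using Subgroup.closure_induction with
  | mem u hu =>
    obtain ⟨β, hβ, t, rfl⟩ := hu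
    change (C.adS k).x γ s * (C.adS k).x β t * ((C.adS k).x γ s)⁻¹ ∈ UR C k B
    rcases C.ip_cases γ β with h | h | h
    · exfalso
      rw [C.ip_eq_neg_two_iff] at h
      have h1 := hR γ hγ
      have h2 := hR β (hB hβ)
      unfold SLC.Pos at h1 h2
      rw [h, SLC.Root.neg_val, ht_neg] at h2
      omega
    · obtain ⟨δ, hδ⟩ := C.exists_add γ β h
      have h1 := (C.adS k).comm_add γ β δ s t hδ
      have h2 : (C.adS k).x γ s * (C.adS k).x β t * ((C.adS k).x γ s)⁻¹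
          = (C.adS k).x δ (C.eps γ.1 β.1 * s * t) * (C.adS k).x β t := by
        rw [← h1]
        group
      rw [h2]
      exact mul_mem (Z4_mem δ (hI γ hγ β hβ δ hδ) _) (Z4_mem β hβ t)
    · have h0 : 0 ≤ C.ip γ.1 β.1 := by omega
      rw [(C.adS k).comm γ β s t h0, mul_inv_cancel_right]
      exact Z4_mem β hβ t
  | one => simpa using one_mem _
  | mul a b _ _ ha hb =>
    have : (C.adS k).x γ s * (a * b) * ((C.adS k).x γ s)⁻¹
        = ((C.adS k).x γ s * a * ((C.adS k).x γ s)⁻¹) *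
          ((C.adS k).x γ s * b * ((C.adS k).x γ s)⁻¹) := by group
    rw [this]
    exact mul_mem ha hb
  | inv a _ ha =>
    have : (C.adS k).x γ s * a⁻¹ * ((C.adS k).x γ s)⁻¹
        = ((C.adS k).x γ s * a * ((C.adS k).x γ s)⁻¹)⁻¹ := by group
    rw [this]
    exact inv_mem ha

private theorem Z4_normal {R B : Set C.Root} (hB : B ⊆ R) (hR : ∀ β ∈ R, C.Pos β)
    (hI : ∀ α ∈ R, ∀ β ∈ B, ∀ γ : C.Root, γ.1 = α.1 + β.1 → γ ∈ B) (g u : GL C.Idx k)
    (hg : g ∈ UR C k R) (hu : u ∈ UR C k B) : g * u * g⁻¹ ∈ UR C k B := by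
  have key : ∀ g ∈ UR C k R, (∀ u ∈ UR C k B, g * u * g⁻¹ ∈ UR C k B) ∧
      (∀ u ∈ UR C k B, g⁻¹ * u * g⁻¹⁻¹ ∈ UR C k B) := by
    intro g hg
    unfold UR at hg
    induction hg using Subgroup.closure_induction with
    | mem g hg =>
      obtain ⟨γ, hγ, s, rfl⟩ := hg
      refine ⟨fun u hu => Z4_conj_gen hB hR hI γ s hγ u hu, fun u hu => ?_⟩
      have h1 : (C.xg k γ s)⁻¹ = (C.adS k).x γ (-s) := ((C.adS k).x_neg γ s).symm
      rw [h1]
      exact Z4_conj_gen hB hR hI γ (-s) hγ u hu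
    | one => exact ⟨fun u hu => by simpa using hu, fun u hu => by simpa using hu⟩
    | mul a b _ _ ha hb =>
      refine ⟨fun u hu => ?_, fun u hu => ?_⟩
      · have : a * b * u * (a * b)⁻¹ = a * (b * u * b⁻¹) * a⁻¹ := by group
        rw [this]
        exact ha.1 _ (hb.1 u hu)
      · have : (a * b)⁻¹ * u * (a * b)⁻¹⁻¹ = b⁻¹ * (a⁻¹ * u * a⁻¹⁻¹) * b⁻¹⁻¹ := by group
        rw [this]
        exact hb.2 _ (ha.2 u hu)
    | inv a _ ha =>
      refine ⟨ha.2, fun u hu => ?_⟩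
      rw [inv_inv]
      exact ha.1 u hu
  exact (key g hg).1 u hu

/-- the roots of height at least `m` in `R` -/
private def ZR (R : Set C.Root) (m : ℤ) : Set C.Root := {β | β ∈ R ∧ m ≤ ht β.1}

private theorem ZR_sub (R : Set C.Root) (m : ℤ) : ZR R m ⊆ R := fun _ h => h.1

private theorem ZR_mono (R : Set C.Root) {m m' : ℤ} (h : m ≤ m') : ZR R m' ⊆ ZR R m :=
  fun _ h1 => ⟨h1.1, h.trans h1.2⟩

private theorem Z4_conj {R : Set C.Root} (hR : ClR C R) (m : ℤ) (g u : GL C.Idx k)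
    (hg : g ∈ UR C k R) (hu : u ∈ UR C k (ZR R m)) : g * u * g⁻¹ ∈ UR C k (ZR R m) := by
  refine Z4_normal (ZR_sub R m) hR.1 ?_ g u hg hu
  intro α hα β hβ γ hγ
  refine ⟨hR.2 α hα β hβ.1 γ hγ, ?_⟩
  have h1 := hR.1 α hα
  have h2 := hβ.2
  unfold SLC.Pos at h1
  rw [hγ, ht_add]
  omega

private theorem Z4_conj' {R : Set C.Root} (hR : ClR C R) (m : ℤ) (g u : GL C.Idx k)
    (hg : g ∈ UR C k R) (hu : u ∈ UR C k (ZR R m)) : g⁻¹ * u * g ∈ UR C k (ZR R m) := by
  have := Z4_conj hR m g⁻¹ u (inv_mem hg) hu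
  rwa [inv_inv] at this

private theorem Z4_cons (β : C.Root) (l : List C.Root) (t : C.Root → k) :
    (C.adS k).lp (β :: l) t = (C.adS k).x β (t β) * (C.adS k).lp l t := by
  unfold StSys.lp
  rw [List.map_cons, List.prod_cons]

private theorem Z4_single (β : C.Root) (s : k) (l : List C.Root) (hl : l.Nodup)
    (hβ : β ∈ l) : (C.adS k).lp l (fun γ => if γ = β then s else 0) = (C.adS k).x β s := by
  induction l with
  | nil => simp at hβ
  | cons γ l ih =>
    rw [Z4_cons]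
    rw [List.nodup_cons] at hl
    by_cases h : γ = β
    · subst h
      rw [(C.adS k).lp_zero l, if_pos rfl, mul_one]
      intro δ hδ
      rw [if_neg]
      rintro rfl
      exact hl.1 hδ
    · rw [if_neg h, (C.adS k).x_zero, one_mul]
      refine ih hl.2 ?_
      rw [List.mem_cons] at hβ
      rcases hβ with rfl | hβ
      · exact absurd rfl h
      · exact hβ

private theorem Z4_lp_mem {R : Set C.Root} (l : List C.Root) (t : C.Root → k)
    (h : ∀ β, β ∉ R → t β = 0) : (C.adS k).lp l t ∈ UR C k R := by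
  unfold StSys.lp
  apply Subgroup.list_prod_mem
  intro g hg
  rw [List.mem_map] at hg
  obtain ⟨β, -, rfl⟩ := hg
  by_cases hβ : β ∈ R
  · exact Z4_mem β hβ _
  · rw [h β hβ, (C.adS k).x_zero]
    exact one_mem _

/-- commutator of a root element with an element of `UR (ZR R m)` -/
private theorem Z4_comm_gen {R : Set C.Root} (hR : ClR C R) (m : ℤ) (hm : 1 ≤ m) (β : C.Root)
    (s : k) (hβ : β ∈ ZR R m) (b : GL C.Idx k) (hb : b ∈ UR C k (ZR R m)) :
    (C.adS k).x β s * b * ((C.adS k).x β s)⁻¹ * b⁻¹ ∈ UR C k (ZR R (m + 1)) := by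
  unfold UR at hb
  induction hb using Subgroup.closure_induction with
  | mem b hb =>
    obtain ⟨γ, hγ, t, rfl⟩ := hb
    change (C.adS k).x β s * (C.adS k).x γ t * ((C.adS k).x β s)⁻¹ * ((C.adS k).x γ t)⁻¹ ∈ _
    rcases C.ip_cases β γ with h | h | h
    · exfalso
      rw [C.ip_eq_neg_two_iff] at h
      have h1 := hβ.2
      have h2 := hγ.2
      rw [h, SLC.Root.neg_val, ht_neg] at h2
      omega
    · obtain ⟨δ, hδ⟩ := C.exists_add β γ h
      rw [(C.adS k).comm_add β γ δ s t hδ]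
      have h3 : δ ∈ ZR R (m + 1) := by
        refine ⟨hR.2 β hβ.1 γ hγ.1 δ hδ, ?_⟩
        have h1 := hβ.2
        have h2 := hγ.2
        rw [hδ, ht_add]
        omega
      exact Z4_mem δ h3 _
    · have h0 : 0 ≤ C.ip β.1 γ.1 := by omega
      rw [(C.adS k).comm β γ s t h0, mul_inv_cancel_right, mul_inv_cancel]
      exact one_mem _
  | one => simpa using one_mem _
  | mul b1 b2 h1 h2 ih1 ih2 =>
    have e : (C.adS k).x β s * (b1 * b2) * ((C.adS k).x β s)⁻¹ * (b1 * b2)⁻¹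
        = ((C.adS k).x β s * b1 * ((C.adS k).x β s)⁻¹ * b1⁻¹) *
          (b1 * ((C.adS k).x β s * b2 * ((C.adS k).x β s)⁻¹ * b2⁻¹) * b1⁻¹) := by group
    rw [e]
    refine mul_mem ih1 (Z4_conj hR (m + 1) b1 _ ?_ ih2)
    exact UR_mono (ZR_sub R m) h1
  | inv b1 h1 ih1 =>
    have e : (C.adS k).x β s * b1⁻¹ * ((C.adS k).x β s)⁻¹ * b1⁻¹⁻¹
        = b1⁻¹ * ((C.adS k).x β s * b1 * ((C.adS k).x β s)⁻¹ * b1⁻¹)⁻¹ * b1 := by group
    rw [e]
    exact Z4_conj' hR (m + 1) b1 _ (UR_mono (ZR_sub R m) h1) (inv_mem ih1)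

/-- additivity modulo `UR (ZR R (m + 1))` -/
private theorem Z4_add {R : Set C.Root} (hR : ClR C R) (m : ℤ) (hm : 1 ≤ m) (t t' : C.Root → k)
    (h : ∀ β, ¬ (β ∈ R ∧ ht β.1 = m) → t β = 0)
    (h' : ∀ β, ¬ (β ∈ R ∧ ht β.1 = m) → t' β = 0) (l : List C.Root) :
    ((C.adS k).lp l t * (C.adS k).lp l t')⁻¹ * (C.adS k).lp l (fun β => t β + t' β) ∈
      UR C k (ZR R (m + 1)) := by
  have hmem : ∀ (l : List C.Root) (s : C.Root → k), (∀ β, ¬ (β ∈ R ∧ ht β.1 = m) → s β = 0) →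
      (C.adS k).lp l s ∈ UR C k (ZR R m) := by
    intro l s hs
    refine Z4_lp_mem l s fun β hβ => hs β fun h1 => hβ ⟨h1.1, h1.2.ge⟩
  induction l with
  | nil => simp [StSys.lp]
  | cons β l ih =>
    rw [Z4_cons, Z4_cons, Z4_cons]
    set A := (C.adS k).lp l t with hA
    set B := (C.adS k).lp l t' with hB
    set E := (C.adS k).lp l (fun β => t β + t' β) with hE
    have hAm' : A ∈ UR C k (ZR R m) := hmem l t h
    have hAm : A ∈ UR C k R := UR_mono (ZR_sub R m) hAm'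
    have hBm : B ∈ UR C k R := UR_mono (ZR_sub R m) (hmem l t' h')
    simp only [(C.adS k).map_add]
    by_cases hβ : β ∈ R ∧ ht β.1 = m
    · have hβ' : β ∈ ZR R m := ⟨hβ.1, hβ.2.ge⟩
      have h1 := Z4_comm_gen hR m hm β (t' β) hβ' A hAm'
      have e : ((C.adS k).x β (t β) * A * ((C.adS k).x β (t' β) * B))⁻¹ *
            ((C.adS k).x β (t β) * (C.adS k).x β (t' β) * E)
          = (B⁻¹ * (((C.adS k).x β (t' β))⁻¹ *
              (A⁻¹ * ((C.adS k).x β (t' β) * A * ((C.adS k).x β (t' β))⁻¹ * A⁻¹) * A)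
              * (C.adS k).x β (t' β)) * B) * ((A * B)⁻¹ * E) := by group
      rw [e]
      refine mul_mem ?_ ih
      refine Z4_conj' hR (m + 1) B _ hBm ?_
      refine Z4_conj' hR (m + 1) _ _ (Z4_mem β hβ.1 _) ?_
      exact Z4_conj' hR (m + 1) A _ hAm h1
    · rw [h β hβ, h' β hβ, (C.adS k).x_zero]
      simpa using ih

/-- `g` has the coordinates `t` in height `m`. -/
private def ZQ (R : Set C.Root) (m : ℤ) (g : GL C.Idx k) (t : C.Root → k) : Prop :=
  (∀ β, ¬ (β ∈ R ∧ ht β.1 = m) → t β = 0) ∧ ∃ u' ∈ UR C k (ZR R (m + 1)),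
    g = (C.adS k).lp C.posList t * u'

private theorem ZQ_one (R : Set C.Root) (m : ℤ) (g : GL C.Idx k)
    (hg : g ∈ UR C k (ZR R (m + 1))) : ZQ R m g (fun _ => 0) :=
  ⟨fun _ _ => rfl, g, hg, by rw [(C.adS k).lp_zero _ _ (fun _ _ => rfl), one_mul]⟩

private theorem ZQ_single {R : Set C.Root} (hR : ClR C R) (m : ℤ) (β : C.Root)
    (hβ : β ∈ R ∧ ht β.1 = m) (a : k) :
    ZQ R m ((C.adS k).x β a) (fun γ => if γ = β then a else 0) := by
  refine ⟨fun γ hγ => if_neg ?_, 1, one_mem _, ?_⟩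
  · rintro rfl
    exact hγ hβ
  · rw [Z4_single β a C.posList C.posList_nodup, mul_one]
    rw [C.mem_posList]
    exact hR.1 β hβ.1

private theorem ZQ_lp_mem {R : Set C.Root} (m : ℤ) (t : C.Root → k)
    (h : ∀ β, ¬ (β ∈ R ∧ ht β.1 = m) → t β = 0) (l : List C.Root) :
    (C.adS k).lp l t ∈ UR C k R :=
  Z4_lp_mem l t fun β hβ => h β fun h1 => hβ h1.1

private theorem ZQ_mul {R : Set C.Root} (hR : ClR C R) (m : ℤ) (hm : 1 ≤ m) {g g' : GL C.Idx k}
    {t t' : C.Root → k} (h : ZQ R m g t) (h' : ZQ R m g' t') :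
    ZQ R m (g * g') (fun β => t β + t' β) := by
  obtain ⟨h0, u, hu, rfl⟩ := h
  obtain ⟨h0', u', hu', rfl⟩ := h'
  have h3 := Z4_add hR m hm t t' h0 h0' C.posList
  set A := (C.adS k).lp C.posList t with hA
  set B := (C.adS k).lp C.posList t' with hB
  set E := (C.adS k).lp C.posList (fun β => t β + t' β) with hE
  refine ⟨fun β hβ => by simp only [h0 β hβ, h0' β hβ, add_zero],
    ((A * B)⁻¹ * E)⁻¹ * ((B⁻¹ * u * B) * u'), ?_, ?_⟩
  · refine mul_mem (inv_mem h3) (mul_mem ?_ hu')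
    exact Z4_conj' hR (m + 1) _ _ (ZQ_lp_mem m t' h0' _) hu
  · rw [← hE]
    group

private theorem Z4_exists_layer {R : Set C.Root} (hR : ClR C R) (m : ℤ) (hm : 1 ≤ m)
    (u : GL C.Idx k) (hu : u ∈ UR C k (ZR R m)) : ∃ t : C.Root → k, ZQ R m u t := by
  have step : ∀ (β : C.Root) (s : k), β ∈ ZR R m → ∀ y : GL C.Idx k,
      (∃ t : C.Root → k, ZQ R m y t) → ∃ t : C.Root → k, ZQ R m ((C.adS k).x β s * y) t := by
    rintro β s hβ y ⟨t, ht0⟩
    by_cases hβm : ht β.1 = m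
    · exact ⟨_, ZQ_mul hR m hm (ZQ_single hR m β ⟨hβ.1, hβm⟩ s) ht0⟩
    · have h1 := hβ.2
      have h2 : β ∈ ZR R (m + 1) := ⟨hβ.1, by omega⟩
      exact ⟨_, ZQ_mul hR m hm (ZQ_one R m _ (Z4_mem β h2 s)) ht0⟩
  unfold UR at hu
  induction hu using Subgroup.closure_induction_left with
  | one => exact ⟨_, ZQ_one R m 1 (one_mem _)⟩
  | mul_left x hx y _ ih =>
    obtain ⟨β, hβ, s, rfl⟩ := hx
    exact step β s hβ y ih
  | inv_mul_cancel x hx y _ ih =>
    obtain ⟨β, hβ, s, rfl⟩ := hx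
    have h1 : (C.xg k β s)⁻¹ = (C.adS k).x β (-s) := ((C.adS k).x_neg β s).symm
    rw [h1]
    exact step β (-s) hβ y ih

private theorem Z4_UR_le (R : Set C.Root) (m : ℤ) : UR C k (ZR R m) ≤ (C.adS k).U m := by
  unfold UR StSys.U
  apply Subgroup.closure_mono
  rintro g ⟨β, hβ, t, rfl⟩
  exact ⟨β, t, hβ.2, rfl⟩

private theorem Z4_ZR_one {R : Set C.Root} (hR : ∀ β ∈ R, C.Pos β) : ZR R 1 = R := by
  ext β
  refine ⟨fun h => h.1, fun h => ⟨h, ?_⟩⟩
  have := hR β h
  unfold SLC.Pos at this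
  omega

private theorem Z4_exists_lp {R : Set C.Root} (hR : ClR C R) (m : ℤ) (hm : 1 ≤ m)
    (u : GL C.Idx k) (hu : u ∈ UR C k (ZR R m)) :
    ∃ t : C.Root → k, (∀ β, ¬ (β ∈ R ∧ m ≤ ht β.1) → t β = 0) ∧
      u = (C.adS k).lp C.posList t := by
  obtain ⟨M, hM1, hM2, hM3⟩ := (C.adS k).exists_U_eq_bot
  have key : ∀ j : ℕ, ∀ m : ℤ, 1 ≤ m → M ≤ m + j → ∀ u ∈ UR C k (ZR R m),
      ∃ t : C.Root → k, (∀ β, ¬ (β ∈ R ∧ m ≤ ht β.1) → t β = 0) ∧
        u = (C.adS k).lp C.posList t := by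
    intro j
    induction j with
    | zero =>
      intro m hm hMm u hu
      have h1 : u ∈ (C.adS k).U M := by
        apply Z4_UR_le R M
        exact UR_mono (ZR_mono R (by simpa using hMm)) hu
      rw [hM3, Subgroup.mem_bot] at h1
      refine ⟨fun _ => 0, fun _ _ => rfl, ?_⟩
      rw [h1, (C.adS k).lp_zero _ _ (fun _ _ => rfl)]
    | succ j ih =>
      intro m hm hMm u hu
      obtain ⟨t, ht0, u', hu', rfl⟩ := Z4_exists_layer hR m hm u hu
      obtain ⟨t', ht', rfl⟩ := ih (m + 1) (by omega) (by push_cast at hMm; omega) u' hu'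
      refine ⟨fun β => if ht β.1 ≤ m then t β else t' β, fun β hβ => ?_, ?_⟩
      · by_cases h1 : ht β.1 ≤ m
        · simp only [if_pos h1]
          exact ht0 β fun h2 => hβ ⟨h2.1, h2.2.ge⟩
        · simp only [if_neg h1]
          exact ht' β fun h2 => hβ ⟨h2.1, by omega⟩
      · rw [(C.adS k).lp_split m (fun β => if ht β.1 ≤ m then t β else t' β)]
        congr 1
        · apply (C.adS k).lp_congr
          intro β _
          by_cases hβ : ht β.1 ≤ m
          · simp only [if_pos hβ]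
          · simp only [if_neg hβ]
            exact ht0 β fun h => by omega
        · apply (C.adS k).lp_congr
          intro β _
          by_cases hβ : ht β.1 ≤ m
          · simp only [if_pos hβ]
            exact ht' β fun h => by omega
          · simp only [if_neg hβ]
  exact key (M - m).toNat m hm (by have := Int.self_le_toNat (M - m); omega) u hu

theorem UR_lp {R : Set C.Root} (hR : ClR C R) (u : GL C.Idx k) (hu : u ∈ UR C k R) :
    ∃ t : C.Root → k, (∀ β, β ∉ R → t β = 0) ∧ u = (C.adS k).lp C.posList t := by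
  rw [← Z4_ZR_one hR.1] at hu
  obtain ⟨t, h1, h2⟩ := Z4_exists_lp hR 1 le_rfl u hu
  exact ⟨t, fun β hβ => h1 β fun h3 => hβ h3.1, h2⟩

theorem UR_coord {R : Set C.Root} (hR : ClR C R) (t : C.Root → k)
    (h : (C.adS k).lp C.posList t ∈ UR C k R) (β : C.Root) (hβ : C.Pos β) (hβR : β ∉ R) :
    t β = 0 := by
  obtain ⟨t', h1, h2⟩ := UR_lp hR _ h
  rw [C.lp_unique t t' h2 β hβ, h1 β hβR]

theorem UR_x {R : Set C.Root} (hR : ClR C R) (β : C.Root) (t : k) (ht : t ≠ 0)
    (h : C.xg k β t ∈ UR C k R) : β ∈ R := by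
  by_contra hβ
  by_cases hp : C.Pos β
  · have h1 := Z4_single β t C.posList C.posList_nodup ((C.mem_posList β).2 hp)
    have h2 : (C.adS k).lp C.posList (fun γ => if γ = β then t else 0) ∈ UR C k R := by
      rw [h1]
      exact h
    have h3 := UR_coord hR _ h2 β hp hβ
    rw [if_pos rfl] at h3
    exact ht h3
  · have h1 : C.xg k β t ∈ (C.adS k).Um := by
      refine Subgroup.subset_closure ⟨β, t, ?_, rfl⟩
      have := C.ht_ne_zero β
      unfold SLC.Pos at hp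
      omega
    have h2 := U_inf_Um _ (UR_le_U hR.1 h) h1
    have h3 : C.xg k β t = C.xg k (-β) 0 := by
      rw [h2]
      exact ((C.adS k).x_zero (-β)).symm
    exact ht (C.xg_inj β (-β) t 0 ht h3).2

theorem UR_normal {R B : Set C.Root} (hB : B ⊆ R) (hR : ∀ β ∈ R, C.Pos β)
    (hI : ∀ α ∈ R, ∀ β ∈ B, ∀ γ : C.Root, γ.1 = α.1 + β.1 → γ ∈ B) (g u : GL C.Idx k)
    (hg : g ∈ UR C k R) (hu : u ∈ UR C k B) : g * u * g⁻¹ ∈ UR C k B :=
  Z4_normal hB hR hI g u hg hu

theorem UR_split {R A B : Set C.Root} (hR : ∀ β ∈ R, C.Pos β) (hAB : R = A ∪ B)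
    (hI : ∀ α ∈ R, ∀ β ∈ B, ∀ γ : C.Root, γ.1 = α.1 + β.1 → γ ∈ B) (u : GL C.Idx k)
    (hu : u ∈ UR C k R) : ∃ a ∈ UR C k A, ∃ b ∈ UR C k B, u = a * b := by
  have hAR : A ⊆ R := by
    rw [hAB]
    exact Set.subset_union_left
  have hBR : B ⊆ R := by
    rw [hAB]
    exact Set.subset_union_right
  have step : ∀ (β : C.Root) (s : k), β ∈ R → ∀ y : GL C.Idx k,
      (∃ a ∈ UR C k A, ∃ b ∈ UR C k B, y = a * b) →
      ∃ a ∈ UR C k A, ∃ b ∈ UR C k B, (C.adS k).x β s * y = a * b := by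
    rintro β s hβ y ⟨a, ha, b, hb, rfl⟩
    have hβ' : β ∈ A ∪ B := hAB ▸ hβ
    rcases hβ' with h1 | h1
    · exact ⟨(C.adS k).x β s * a, mul_mem (Z4_mem β h1 s) ha, b, hb, by group⟩
    · refine ⟨a, ha, (a⁻¹ * (C.adS k).x β s * a⁻¹⁻¹) * b, mul_mem ?_ hb, by group⟩
      exact Z4_normal hBR hR hI _ _ (inv_mem (UR_mono hAR ha)) (Z4_mem β h1 s)
  unfold UR at hu
  induction hu using Subgroup.closure_induction_left with
  | one => exact ⟨1, one_mem _, 1, one_mem _, by simp⟩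
  | mul_left x hx y _ ih =>
    obtain ⟨β, hβ, s, rfl⟩ := hx
    exact step β s hβ y ih
  | inv_mul_cancel x hx y _ ih =>
    obtain ⟨β, hβ, s, rfl⟩ := hx
    have h1 : (C.xg k β s)⁻¹ = (C.adS k).x β (-s) := ((C.adS k).x_neg β s).symm
    rw [h1]
    exact step β (-s) hβ y ih

theorem UR_inf {A B : Set C.Root} (hA : ClR C A) (hB : ClR C B) (hd : ∀ β ∈ A, β ∉ B)
    (u : GL C.Idx k) (ha : u ∈ UR C k A) (hb : u ∈ UR C k B) : u = 1 := by
  obtain ⟨t, h1, h2⟩ := UR_lp hA u ha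
  obtain ⟨t', h1', h2'⟩ := UR_lp hB u hb
  rw [h2]
  apply (C.adS k).lp_zero
  intro β hβ
  rw [C.mem_posList] at hβ
  by_cases h : β ∈ A
  · rw [C.lp_unique t t' (h2.symm.trans h2') β hβ]
    exact h1' β (hd β h)
  · exact h1 β h

theorem FR_mono (hN : D.NA) {R R' : Set C.Root} (h : R ⊆ R') : FR hN k R ≤ FR hN k R' :=
  Subgroup.closure_mono fun _ ⟨β, hβ, t, ht⟩ => ⟨β, h hβ, t, ht⟩

private theorem Z4_iter_mem {R : Set C.Root} (hr : ∀ β ∈ R, D.r β ∈ R) (l : ℕ) (β : C.Root)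
    (hβ : β ∈ R) : D.r^[l] β ∈ R := by
  induction l with
  | zero => exact hβ
  | succ l ih =>
    rw [Function.iterate_succ_apply']
    exact hr _ ih

private theorem Z4_iter_ht (D : Dg C) (l : ℕ) (β : C.Root) : ht (D.r^[l] β).1 = ht β.1 := by
  induction l with
  | zero => rfl
  | succ l ih => rw [Function.iterate_succ_apply', D.r_ht, ih]

/-- The product over the orbit. -/
private noncomputable def ZP (D : Dg C) (β : C.Root) (a : ℕ → k) (N : ℕ) : GL C.Idx k :=
  ((List.range N).map fun l => (C.adS k).x (D.r^[l] β) (a l)).prod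

private theorem ZP_succ (D : Dg C) (β : C.Root) (a : ℕ → k) (N : ℕ) :
    ZP D β a (N + 1) = ZP D β a N * (C.adS k).x (D.r^[N] β) (a N) := by
  unfold ZP
  rw [List.range_succ, List.map_append, List.prod_append, List.map_cons, List.map_nil,
    List.prod_cons, List.prod_nil, mul_one]

private theorem ZP_yg (hN : D.NA) (β : C.Root) (t : k) :
    ((yg hN β t : GF D k) : GL C.Idx k) = ZP D β (fun l => (D.sgp l β : k) * t) (mo D β) := by
  rw [yg_val]
  unfold yb ZP
  congr 1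
  apply List.map_congr_left
  intro l _
  have hs : IsSig D (RingEquiv.refl k) (C.adS k) (D.sgl (RingEquiv.refl k)) := isSig_adS D _
  rw [hs.iter l β t]
  congr 2
  have : (⇑(RingEquiv.refl k)) = id := rfl
  rw [this, Function.iterate_id, id]

private theorem Z4_yg_mem (hN : D.NA) {R : Set C.Root} (hr : ∀ β ∈ R, D.r β ∈ R) (β : C.Root)
    (hβ : β ∈ R) (t : k) : ((yg hN β t : GF D k) : GL C.Idx k) ∈ UR C k R := by
  rw [ZP_yg]
  unfold ZP
  apply Subgroup.list_prod_mem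
  intro g hg
  rw [List.mem_map] at hg
  obtain ⟨l, -, rfl⟩ := hg
  exact Z4_mem _ (Z4_iter_mem hr l β hβ) _

private theorem ZP_Q {R : Set C.Root} (hR : ClR C R) (hr : ∀ β ∈ R, D.r β ∈ R) (m : ℤ)
    (hm : 1 ≤ m) (β : C.Root) (hβ : β ∈ R ∧ ht β.1 = m) (a : ℕ → k) (N : ℕ) :
    ZQ R m (ZP D β a N)
      (fun γ => ∑ l ∈ Finset.range N, if γ = D.r^[l] β then a l else 0) := by
  induction N with
  | zero => exact ZQ_one R m 1 (one_mem _)
  | succ N ih =>
    rw [ZP_succ]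
    have h1 := ZQ_mul hR m hm ih (ZQ_single hR m (D.r^[N] β)
      ⟨Z4_iter_mem hr N β hβ.1, by rw [Z4_iter_ht, hβ.2]⟩ (a N))
    have e : (fun γ : C.Root => ∑ l ∈ Finset.range (N + 1), if γ = D.r^[l] β then a l else 0) =
        fun γ => (∑ l ∈ Finset.range N, if γ = D.r^[l] β then a l else 0) +
          (if γ = D.r^[N] β then a N else 0) := by
      funext γ
      rw [Finset.sum_range_succ]
    rw [e]
    exact h1

private theorem Z4_map {R : Set C.Root} (hr : ∀ β ∈ R, D.r β ∈ R) (m : ℤ) (u : GL C.Idx k)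
    (hu : u ∈ UR C k (ZR R m)) : D.sgl (RingEquiv.refl k) u ∈ UR C k (ZR R m) := by
  have hs : IsSig D (RingEquiv.refl k) (C.adS k) (D.sgl (RingEquiv.refl k)) := isSig_adS D _
  have h1 : UR C k (ZR R m) ≤ (UR C k (ZR R m)).comap (D.sgl (RingEquiv.refl k)) := by
    conv_lhs => unfold UR
    rw [Subgroup.closure_le]
    rintro g ⟨β, hβ, t, rfl⟩
    change D.sgl (RingEquiv.refl k) ((C.adS k).x β t) ∈ UR C k (ZR R m)
    rw [hs]
    have h2 : D.r β ∈ ZR R m := by
      refine ⟨hr β hβ.1, ?_⟩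
      rw [D.r_ht]
      exact hβ.2
    exact Z4_mem _ h2 _
  exact h1 hu

private theorem ZQ_map_lp {R : Set C.Root} (hR : ClR C R) (hr : ∀ β ∈ R, D.r β ∈ R) (m : ℤ)
    (hm : 1 ≤ m) (t : C.Root → k) (h0 : ∀ β, ¬ (β ∈ R ∧ ht β.1 = m) → t β = 0)
    (l : List C.Root) (hl : l.Nodup) :
    ∃ T : C.Root → k, ZQ R m (D.sgl (RingEquiv.refl k) ((C.adS k).lp l t)) T ∧
      (∀ β ∈ l, T (D.r β) = (D.sg β : k) * t β) ∧ (∀ β, β ∉ l → T (D.r β) = 0) := by
  have hs : IsSig D (RingEquiv.refl k) (C.adS k) (D.sgl (RingEquiv.refl k)) := isSig_adS D _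
  induction l with
  | nil =>
    refine ⟨fun _ => 0, ?_, by simp, by simp⟩
    have : (C.adS k).lp ([] : List C.Root) t = 1 := by simp [StSys.lp]
    rw [this, _root_.map_one]
    exact ZQ_one R m 1 (one_mem _)
  | cons β l ih =>
    rw [List.nodup_cons] at hl
    obtain ⟨T, hT, hT1, hT2⟩ := ih hl.2
    rw [Z4_cons, _root_.map_mul, hs β (t β)]
    have hb : ZQ R m ((C.adS k).x (D.r β) ((D.sg β : k) * t β))
        (fun γ => if γ = D.r β then (D.sg β : k) * t β else 0) := by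
      by_cases hβ : β ∈ R ∧ ht β.1 = m
      · exact ZQ_single hR m (D.r β) ⟨hr β hβ.1, by rw [D.r_ht, hβ.2]⟩ _
      · rw [h0 β hβ, mul_zero, (C.adS k).x_zero]
        have : (fun γ : C.Root => if γ = D.r β then (0 : k) else 0) = fun _ => 0 := by
          funext γ
          simp
        rw [this]
        exact ZQ_one R m 1 (one_mem _)
    refine ⟨_, ZQ_mul hR m hm hb hT, fun γ hγ => ?_, fun γ hγ => ?_⟩
    · rw [List.mem_cons] at hγ
      by_cases h1 : γ = β
      · subst h1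
        simp only [if_true]
        rw [hT2 γ hl.1, add_zero]
      · have h2 : γ ∈ l := by
          rcases hγ with h3 | h3
          · exact absurd h3 h1
          · exact h3
        have h3 : ¬ D.r γ = D.r β := fun h4 => h1 (D.r_injective h4)
        simp only [if_neg h3, zero_add]
        exact hT1 γ h2
    · rw [List.mem_cons, not_or] at hγ
      have h3 : ¬ D.r γ = D.r β := fun h4 => hγ.1 (D.r_injective h4)
      simp only [if_neg h3, zero_add]
      exact hT2 γ hγ.2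

private theorem ZQ_unique {R : Set C.Root} (hR : ClR C R) (m : ℤ) (hm : 1 ≤ m)
    {g : GL C.Idx k} {t t' : C.Root → k} (h : ZQ R m g t) (h' : ZQ R m g t') : t = t' := by
  obtain ⟨h0, u, hu, hg⟩ := h
  obtain ⟨h0', u', hu', hg'⟩ := h'
  obtain ⟨t1, ht1, rfl⟩ := Z4_exists_lp hR (m + 1) (by omega) u hu
  obtain ⟨t2, ht2, rfl⟩ := Z4_exists_lp hR (m + 1) (by omega) u' hu'
  have key : ∀ (a b : C.Root → k), (∀ β, ¬ (β ∈ R ∧ ht β.1 = m) → a β = 0) →
      (∀ β, ¬ (β ∈ R ∧ m + 1 ≤ ht β.1) → b β = 0) →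
      (C.adS k).lp C.posList a * (C.adS k).lp C.posList b =
        (C.adS k).lp C.posList (fun β => if ht β.1 ≤ m then a β else b β) := by
    intro a b ha hb
    rw [(C.adS k).lp_split m (fun β => if ht β.1 ≤ m then a β else b β)]
    congr 1
    · apply (C.adS k).lp_congr
      intro β _
      by_cases hβ : ht β.1 ≤ m
      · simp only [if_pos hβ]
      · simp only [if_neg hβ]
        exact ha β fun h => by omega
    · apply (C.adS k).lp_congr
      intro β _
      by_cases hβ : ht β.1 ≤ m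
      · simp only [if_pos hβ]
        exact hb β fun h => by omega
      · simp only [if_neg hβ]
  rw [hg, key t t1 h0 ht1, key t' t2 h0' ht2] at hg'
  have h4 := C.lp_unique _ _ hg'
  funext β
  by_cases hβ : ht β.1 = m
  · have h5 := h4 β (by unfold SLC.Pos; omega)
    simpa only [if_pos hβ.le] using h5
  · rw [h0 β fun h => hβ h.2, h0' β fun h => hβ h.2]

/-- A fixed element has coordinates compatible with `σ`. -/
private theorem ZQ_fixed {R : Set C.Root} (hR : ClR C R) (hr : ∀ β ∈ R, D.r β ∈ R) (m : ℤ)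
    (hm : 1 ≤ m) {g : GL C.Idx k} {t : C.Root → k} (hg : ZQ R m g t)
    (hs : D.sgl (RingEquiv.refl k) g = g) (β : C.Root) : t (D.r β) = (D.sg β : k) * t β := by
  have hg0 := hg
  obtain ⟨h0, u, hu, rfl⟩ := hg
  obtain ⟨T, hT, hT1, hT2⟩ := ZQ_map_lp hR hr m hm t h0 C.posList C.posList_nodup
  have h1 := ZQ_mul hR m hm hT (ZQ_one R m _ (Z4_map hr (m + 1) u hu))
  rw [← _root_.map_mul, hs] at h1
  have h2 := ZQ_unique hR m hm hg0 h1
  have h3 : t (D.r β) = T (D.r β) := by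
    conv_lhs => rw [h2]
    exact add_zero _
  rw [h3]
  by_cases hβ : β ∈ C.posList
  · exact hT1 β hβ
  · rw [hT2 β hβ, h0 β, mul_zero]
    rintro ⟨h4, -⟩
    exact hβ ((C.mem_posList β).2 (hR.1 β h4))

private theorem Z4_sgp (t : C.Root → k) (ht : ∀ β, t (D.r β) = (D.sg β : k) * t β) (l : ℕ)
    (β : C.Root) : t (D.r^[l] β) = (D.sgp l β : k) * t β := by
  induction l with
  | zero => simp [Dg.sgp]
  | succ l ih =>
    rw [Function.iterate_succ_apply', ht, ih]
    unfold Dg.sgp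
    rw [Finset.prod_range_succ]
    push_cast
    ring

/-- the orbit of `β` starts with `β` and does not return before `mo D β` -/
private theorem Z4_count (D : Dg C) (β : C.Root) :
    (∑ l ∈ Finset.range (mo D β), if β = D.r^[l] β then (1 : k) else 0) = 1 := by
  have hpos : 0 < mo D β := by
    unfold mo
    split_ifs
    · exact Nat.one_pos
    · rcases D.m_cases with h | h | h <;> omega
  rw [Finset.sum_eq_single 0]
  · simp
  · intro l hl hne
    rw [Finset.mem_range] at hl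
    refine if_neg fun h => hne ?_
    unfold mo at hl
    by_cases h1 : D.r β = β
    · rw [if_pos h1] at hl
      omega
    · rw [if_neg h1] at hl
      exact (D.r_iter_eq β h1 0 l (by omega) hl h).symm
  · intro h
    exact absurd (Finset.mem_range.2 hpos) h

/-- the induction on the support of the coordinates -/
private theorem Z4_supp (hN : D.NA) {R : Set C.Root} (hR : ClR C R) (hr : ∀ β ∈ R, D.r β ∈ R)
    (m : ℤ) (hm : 1 ≤ m)
    (ih : ∀ x : GF D k, (x : GL C.Idx k) ∈ UR C k (ZR R (m + 1)) → x ∈ FR hN k R) (N : ℕ) :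
    ∀ (x : GF D k) (t : C.Root → k), ZQ R m (x : GL C.Idx k) t → {β | t β ≠ 0}.ncard ≤ N →
      x ∈ FR hN k R := by
  have hzero : ∀ (x : GF D k) (t : C.Root → k), ZQ R m (x : GL C.Idx k) t → (∀ β, t β = 0) →
      x ∈ FR hN k R := by
    rintro x t ⟨-, u, hu, h1⟩ h2
    rw [(C.adS k).lp_zero _ _ (fun β _ => h2 β), one_mul] at h1
    apply ih
    rw [h1]
    exact hu
  induction N with
  | zero =>
    intro x t hx hk
    have h1 : {β | t β ≠ 0} = ∅ := by
      rw [← Set.ncard_eq_zero (Set.toFinite _)]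
      omega
    refine hzero x t hx fun β => ?_
    by_contra h3
    have : β ∈ {β | t β ≠ 0} := h3
    rw [h1] at this
    exact this
  | succ N ihN =>
    intro x t hx hk
    by_cases hz : ∀ β, t β = 0
    · exact hzero x t hx hz
    push Not at hz
    obtain ⟨β, hβ⟩ := hz
    have hβR : β ∈ R ∧ ht β.1 = m := by
      by_contra h1
      exact hβ (hx.1 β h1)
    have hfix := (mem_GF_fix hN (x : GL C.Idx k) x.2).1
    have heq := ZQ_fixed hR hr m hm hx hfix
    have hsg := Z4_sgp t heq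
    have h1 := ZP_Q hR hr m hm β hβR (fun l => (D.sgp l β : k) * (-(t β))) (mo D β)
    rw [← ZP_yg hN] at h1
    have h2 := ZQ_mul hR m hm h1 hx
    have h3 : ∀ γ, (∑ l ∈ Finset.range (mo D β),
        if γ = D.r^[l] β then (D.sgp l β : k) * (-(t β)) else 0) + t γ =
        (1 - ∑ l ∈ Finset.range (mo D β), if γ = D.r^[l] β then (1 : k) else 0) * t γ := by
      intro γ
      have h4 : (∑ l ∈ Finset.range (mo D β),
          if γ = D.r^[l] β then (D.sgp l β : k) * (-(t β)) else 0) =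
          - ((∑ l ∈ Finset.range (mo D β), if γ = D.r^[l] β then (1 : k) else 0) * t γ) := by
        rw [Finset.sum_mul, ← Finset.sum_neg_distrib]
        apply Finset.sum_congr rfl
        intro l _
        by_cases h5 : γ = D.r^[l] β
        · rw [if_pos h5, if_pos h5, h5, hsg l β]
          ring
        · rw [if_neg h5, if_neg h5]
          ring
      rw [h4]
      ring
    have h5 : {γ | (∑ l ∈ Finset.range (mo D β),
        if γ = D.r^[l] β then (D.sgp l β : k) * (-(t β)) else 0) + t γ ≠ 0} ⊂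
        {γ | t γ ≠ 0} := by
      rw [Set.ssubset_iff_of_subset]
      · refine ⟨β, hβ, ?_⟩
        intro h6
        apply h6
        rw [h3, Z4_count, sub_self, zero_mul]
      · intro γ hγ h6
        apply hγ
        rw [h3, h6, mul_zero]
    have h6 := Set.ncard_lt_ncard h5 (Set.toFinite _)
    have h7 := ihN (yg hN β (-(t β)) * x) _ h2 (by
      change {γ | (∑ l ∈ Finset.range (mo D β),
        if γ = D.r^[l] β then (D.sgp l β : k) * (-(t β)) else 0) + t γ ≠ 0}.ncard ≤ N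
      omega)
    have h8 : yg hN β (-(t β)) ∈ FR hN k R := Subgroup.subset_closure ⟨β, hβR.1, _, rfl⟩
    have h9 : x = (yg hN β (-(t β)))⁻¹ * (yg hN β (-(t β)) * x) := by group
    rw [h9]
    exact mul_mem (inv_mem h8) h7

/-- fixed points -/
theorem UR_fix (hN : D.NA) {R : Set C.Root} (hR : ClR C R) (hr : ∀ β ∈ R, D.r β ∈ R)
    (x : GF D k) : (x : GL C.Idx k) ∈ UR C k R ↔ x ∈ FR hN k R := by
  constructor
  · intro hx
    obtain ⟨M, hM1, hM2, hM3⟩ := (C.adS k).exists_U_eq_bot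
    have key : ∀ j : ℕ, ∀ m : ℤ, 1 ≤ m → M ≤ m + j → ∀ x : GF D k,
        (x : GL C.Idx k) ∈ UR C k (ZR R m) → x ∈ FR hN k R := by
      intro j
      induction j with
      | zero =>
        intro m hm hMm x hx
        have h1 : (x : GL C.Idx k) ∈ (C.adS k).U M := by
          apply Z4_UR_le R M
          exact UR_mono (ZR_mono R (by simpa using hMm)) hx
        rw [hM3, Subgroup.mem_bot] at h1
        have h2 : x = 1 := Subtype.ext h1
        rw [h2]
        exact one_mem _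
      | succ j ih =>
        intro m hm hMm x hx
        obtain ⟨t, ht0⟩ := Z4_exists_layer hR m hm _ hx
        have ih' := ih (m + 1) (by omega) (by push_cast at hMm; omega)
        exact Z4_supp hN hR hr m hm ih' _ x t ht0 le_rfl
    rw [← Z4_ZR_one hR.1] at hx
    exact key (M - 1).toNat 1 le_rfl (by have := Int.self_le_toNat (M - 1); omega) x hx
  · intro hx
    have h1 : FR hN k R ≤ (UR C k R).subgroupOf (GF D k) := by
      unfold FR
      rw [Subgroup.closure_le]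
      rintro g ⟨β, hβ, t, rfl⟩
      change ((yg hN β t : GF D k) : GL C.Idx k) ∈ UR C k R
      exact Z4_yg_mem hN hr β hβ t
    exact h1 hx

theorem FR_split (hN : D.NA) {R A B : Set C.Root} (hR : ClR C R) (hA : ClR C A) (hB : ClR C B)
    (hAr : ∀ β ∈ A, D.r β ∈ A) (hBr : ∀ β ∈ B, D.r β ∈ B) (hAB : R = A ∪ B)
    (hd : ∀ β ∈ A, β ∉ B)
    (hI : ∀ α ∈ R, ∀ β ∈ B, ∀ γ : C.Root, γ.1 = α.1 + β.1 → γ ∈ B) (u : GF D k)
    (hu : u ∈ FR hN k R) : ∃ a ∈ FR hN k A, ∃ b ∈ FR hN k B, u = a * b := by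
  have hr : ∀ β ∈ R, D.r β ∈ R := by
    intro β hβ
    rw [hAB] at hβ ⊢
    rcases hβ with h | h
    · exact Or.inl (hAr β h)
    · exact Or.inr (hBr β h)
  rw [← UR_fix hN hR hr] at hu
  obtain ⟨a, ha, b, hb, hab⟩ := UR_split hR.1 hAB hI _ hu
  have hfix := (mem_GF_fix hN (u : GL C.Idx k) u.2).1
  have ha' : D.sgl (RingEquiv.refl k) a ∈ UR C k A := by
    rw [← Z4_ZR_one hA.1] at ha ⊢
    exact Z4_map hAr 1 a ha
  have hb' : D.sgl (RingEquiv.refl k) b ∈ UR C k B := by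
    rw [← Z4_ZR_one hB.1] at hb ⊢
    exact Z4_map hBr 1 b hb
  have h1 : D.sgl (RingEquiv.refl k) a * D.sgl (RingEquiv.refl k) b = a * b := by
    rw [← _root_.map_mul, ← hab, hfix]
  have h2 : a⁻¹ * D.sgl (RingEquiv.refl k) a = b * (D.sgl (RingEquiv.refl k) b)⁻¹ := by
    rw [inv_mul_eq_iff_eq_mul, ← mul_assoc, ← h1, mul_inv_cancel_right]
  have h3 : a⁻¹ * D.sgl (RingEquiv.refl k) a = 1 := by
    refine UR_inf hA hB hd _ (mul_mem (inv_mem ha) ha') ?_
    rw [h2]
    exact mul_mem hb (inv_mem hb')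
  have h4 : D.sgl (RingEquiv.refl k) a = a := by
    rwa [inv_mul_eq_one, eq_comm] at h3
  have h5 : D.sgl (RingEquiv.refl k) b = b := by
    rw [h4] at h1
    exact mul_left_cancel h1
  have hag : a ∈ GF D k :=
    (le_sup_left : fixU _ _ ≤ _) ⟨UR_le_U hA.1 ha, h4⟩
  have hbg : b ∈ GF D k :=
    (le_sup_left : fixU _ _ ≤ _) ⟨UR_le_U hB.1 hb, h5⟩
  exact ⟨⟨a, hag⟩, (UR_fix hN hA hAr ⟨a, hag⟩).1 ha, ⟨b, hbg⟩, (UR_fix hN hB hBr ⟨b, hbg⟩).1 hb,
    Subtype.ext hab⟩

theorem FR_inf (hN : D.NA) {A B : Set C.Root} (hA : ClR C A) (hB : ClR C B)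
    (hAr : ∀ β ∈ A, D.r β ∈ A) (hBr : ∀ β ∈ B, D.r β ∈ B) (hd : ∀ β ∈ A, β ∉ B)
    (u : GF D k) (ha : u ∈ FR hN k A) (hb : u ∈ FR hN k B) : u = 1 := by
  rw [← UR_fix hN hA hAr] at ha
  rw [← UR_fix hN hB hBr] at hb
  exact Subtype.ext (UR_inf hA hB hd _ ha hb)

theorem FR_normal (hN : D.NA) {R B : Set C.Root} (hR : ClR C R) (hBc : ClR C B) (hB : B ⊆ R)
    (hr : ∀ β ∈ R, D.r β ∈ R) (hBr : ∀ β ∈ B, D.r β ∈ B)
    (hI : ∀ α ∈ R, ∀ β ∈ B, ∀ γ : C.Root, γ.1 = α.1 + β.1 → γ ∈ B) (g u : GF D k)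
    (hg : g ∈ FR hN k R) (hu : u ∈ FR hN k B) : g * u * g⁻¹ ∈ FR hN k B := by
  rw [← UR_fix hN hR hr] at hg
  rw [← UR_fix hN hBc hBr] at hu ⊢
  exact Z4_normal hB hR.1 hI _ _ hg hu

/-- all positive roots -/
theorem FU_FR (hN : D.NA) : FU D k = FR hN k {β | C.Pos β} := FU_eq hN

theorem FUm_FR (hN : D.NA) : FUm D k = FR hN k {β | ¬ C.Pos β} := FUm_eq hN

theorem ClR_pos : ClR C {β : C.Root | C.Pos β} := by
  refine ⟨fun β hβ => hβ, fun α hα β hβ γ hγ => ?_⟩
  change C.Pos γ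
  have h1 : C.Pos α := hα
  have h2 : C.Pos β := hβ
  unfold SLC.Pos at *
  rw [hγ, ht_add]
  omega

end Pool.Agent.H86.UM
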