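import Pool.Agent.H86.UM.Z5

/-!
# Project UM, Suzuki-Ree groups, module Z4n: closed sets of negative roots

`-R` for a closed set `R` of positive roots. Conjugation with `omG` (OM.lean) maps `x_β(t)` to `x_(-β)(t)`
(`omG_xg`), commutes with `s = D.sgl (RingEquiv.refl k)` on root elements (`sg (-β) = sg β`, `r (-β) = - r β`), so on
`Gad`; it maps `yb β t` to `yb (-β) t`, `GF D k` to itself. So `UR_fix` for `R` gives `UR_fix_neg`.
-/

set_option autoImplicit false
open Matrix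

namespace Pool.Agent.H86.UM

open Pool.Agent.H75.UL

variable {n : ℕ} {C : SLC n} {D : Dg C} {k : Type*} [Field k] [Infinite k]

omit [Infinite k] in
private theorem Z4n_mul (x y : GL C.Idx k) : omG C k * (x * y) * (omG C k)⁻¹ =
    (omG C k * x * (omG C k)⁻¹) * (omG C k * y * (omG C k)⁻¹) := by
  group

omit [Infinite k] in
private theorem Z4n_inv (x : GL C.Idx k) : omG C k * x⁻¹ * (omG C k)⁻¹ =
    (omG C k * x * (omG C k)⁻¹)⁻¹ := by
  group

omit [Infinite k] in
private theorem Z4n_invol (x : GL C.Idx k) :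
    omG C k * (omG C k * x * (omG C k)⁻¹) * (omG C k)⁻¹ = x := by
  have h : omG C k * omG C k = 1 := by
    apply Units.ext
    exact omM_sq C k
  calc omG C k * (omG C k * x * (omG C k)⁻¹) * (omG C k)⁻¹
      = (omG C k * omG C k) * x * (omG C k * omG C k)⁻¹ := by group
    _ = x := by rw [h, one_mul, inv_one, mul_one]

omit [Infinite k] in
private theorem Z4n_cl {A : Set (GL C.Idx k)} {S : Subgroup (GL C.Idx k)}
    (h : ∀ a ∈ A, omG C k * a * (omG C k)⁻¹ ∈ S) :
    ∀ x ∈ Subgroup.closure A, omG C k * x * (omG C k)⁻¹ ∈ S := by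
  have h1 : Subgroup.closure A ≤ S.comap (MulAut.conj (omG C k)).toMonoidHom :=
    (Subgroup.closure_le _).2 h
  exact fun x hx => h1 hx

theorem omG_sgl (x : GL C.Idx k) (hx : x ∈ C.Gad k) :
    D.sgl (RingEquiv.refl k) (omG C k * x * (omG C k)⁻¹) =
      omG C k * D.sgl (RingEquiv.refl k) x * (omG C k)⁻¹ := by
  have hs : ∀ (β : C.Root) (t : k), D.sgl (RingEquiv.refl k) (C.xg k β t) =
      C.xg k (D.r β) ((D.sg β : k) * t) := fun β t => isSig_adS D (RingEquiv.refl k) β t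
  unfold SLC.Gad at hx
  induction hx using Subgroup.closure_induction with
  | mem g hg =>
    obtain ⟨p, rfl⟩ := hg
    change D.sgl (RingEquiv.refl k) (omG C k * C.xg k p.1 p.2 * (omG C k)⁻¹) =
      omG C k * D.sgl (RingEquiv.refl k) (C.xg k p.1 p.2) * (omG C k)⁻¹
    rw [omG_xg, hs, hs, omG_xg, D.r_neg, D.sg_neg]
  | one => rw [mul_one, mul_inv_cancel, map_one, mul_one, mul_inv_cancel]
  | mul a b _ _ ha hb => rw [Z4n_mul, map_mul, ha, hb, map_mul, Z4n_mul]
  | inv a _ ha => rw [Z4n_inv, map_inv, ha, map_inv, Z4n_inv]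

omit [Infinite k] in
private theorem Z4n_Um_Gad (x : GL C.Idx k) (hx : x ∈ (C.adS k).Um) : x ∈ C.Gad k := by
  have h1 : (C.adS k).Um ≤ C.Gad k := by
    unfold StSys.Um
    rw [Subgroup.closure_le]
    rintro g ⟨β, t, -, rfl⟩
    exact Subgroup.subset_closure ⟨(β, t), rfl⟩
  exact h1 hx

private theorem Z4n_U_Gad (x : GL C.Idx k) (hx : x ∈ (C.adS k).U 1) : x ∈ C.Gad k := by
  rw [← C.gen_adS]
  exact (C.adS k).U_le_gen 1 hx

private theorem Z4n_GF (x : GL C.Idx k) (hx : x ∈ GF D k) :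
    omG C k * x * (omG C k)⁻¹ ∈ GF D k := by
  have h1 : GF D k ≤ (GF D k).comap (MulAut.conj (omG C k)).toMonoidHom := by
    refine sup_le ?_ ?_
    · rintro y ⟨hy, hy'⟩
      change omG C k * y * (omG C k)⁻¹ ∈ GF D k
      refine (le_sup_right : fixUm _ _ ≤ _) ⟨?_, ?_⟩
      · change omG C k * y * (omG C k)⁻¹ ∈ (C.adS k).Um
        rw [← omG_U, Z4n_invol]
        exact hy
      · change D.sgl (RingEquiv.refl k) _ = _
        rw [omG_sgl _ (Z4n_U_Gad _ hy)]
        have h2 : D.sgl (RingEquiv.refl k) y = y := hy'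
        rw [h2]
        rfl
    · rintro y ⟨hy, hy'⟩
      change omG C k * y * (omG C k)⁻¹ ∈ GF D k
      refine (le_sup_left : fixU _ _ ≤ _) ⟨(omG_U C _).2 hy, ?_⟩
      change D.sgl (RingEquiv.refl k) _ = _
      rw [omG_sgl _ (Z4n_Um_Gad _ hy)]
      have h2 : D.sgl (RingEquiv.refl k) y = y := hy'
      rw [h2]
      rfl
  exact h1 hx

theorem omG_GF (x : GL C.Idx k) : omG C k * x * (omG C k)⁻¹ ∈ GF D k ↔ x ∈ GF D k := by
  constructor
  · intro h
    have h1 := Z4n_GF _ h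
    rwa [Z4n_invol] at h1
  · exact Z4n_GF x

omit [Infinite k] in
private theorem Z4n_conj_prod (l : List ℕ) (f : ℕ → GL C.Idx k) :
    omG C k * (l.map f).prod * (omG C k)⁻¹ =
      (l.map fun i => omG C k * f i * (omG C k)⁻¹).prod := by
  induction l with
  | nil => rw [List.map_nil, List.map_nil, List.prod_nil, mul_one, mul_inv_cancel]
  | cons a l ih =>
    rw [List.map_cons, List.map_cons, List.prod_cons, List.prod_cons, ← ih]
    group

private theorem Z4n_iter_neg (D : Dg C) (l : ℕ) (β : C.Root) :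
    D.r^[l] (-β) = -(D.r^[l] β) := by
  induction l with
  | zero => rfl
  | succ l ih => rw [Function.iterate_succ_apply', Function.iterate_succ_apply', ih, D.r_neg]

omit [Infinite k] in
private theorem Z4n_om_yb (D : Dg C) (β : C.Root) (t : k) :
    omG C k * yb D (C.adS k) (D.sgl (RingEquiv.refl k)) (-β) t * (omG C k)⁻¹ =
      yb D (C.adS k) (D.sgl (RingEquiv.refl k)) β t := by
  have hmo : mo D (-β) = mo D β := by
    unfold mo
    have h1 : D.r (-β) = -β ↔ D.r β = β := by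
      rw [D.r_neg]
      constructor
      · intro h
        have h2 := congrArg (fun γ : C.Root => -γ) h
        change - -(D.r β) = - -β at h2
        rwa [C.neg_neg_root, C.neg_neg_root] at h2
      · intro h
        rw [h]
    by_cases h : D.r β = β
    · rw [if_pos (h1.2 h), if_pos h]
    · rw [if_neg (fun h' => h (h1.1 h')), if_neg h]
  unfold yb
  rw [hmo, Z4n_conj_prod]
  congr 1
  apply List.map_congr_left
  intro l _
  have hs := isSig_adS D (RingEquiv.refl k) (C := C)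
  rw [hs.iter, hs.iter, Z4n_iter_neg]
  have hsg : D.sgp l (-β) = D.sgp l β := by
    unfold Dg.sgp
    refine Finset.prod_congr rfl fun j _ => ?_
    rw [Z4n_iter_neg, D.sg_neg]
  rw [hsg]
  change omG C k * C.xg k _ _ * (omG C k)⁻¹ = C.xg k _ _
  rw [omG_xg, C.neg_neg_root]

theorem omG_yb (hN : D.NA) (β : C.Root) (t : k) :
    omG C k * ((yg hN β t : GF D k) : GL C.Idx k) * (omG C k)⁻¹ =
      ((yg hN (-β) t : GF D k) : GL C.Idx k) := by
  have h := Z4n_om_yb (k := k) D (-β) t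
  rw [C.neg_neg_root] at h
  exact h

/-- conjugation with `omG` on the folded group -/
private noncomputable def Z4n_c (D : Dg C) (k : Type*) [Field k] [Infinite k] :
    GF D k →* GF D k where
  toFun x := ⟨omG C k * (x : GL C.Idx k) * (omG C k)⁻¹, (omG_GF _).2 x.2⟩
  map_one' := by
    apply Subtype.ext
    change omG C k * ((1 : GF D k) : GL C.Idx k) * (omG C k)⁻¹ = 1
    rw [Subgroup.coe_one, mul_one, mul_inv_cancel]
  map_mul' x y := by
    apply Subtype.ext
    change omG C k * ((x * y : GF D k) : GL C.Idx k) * (omG C k)⁻¹ =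
      (omG C k * (x : GL C.Idx k) * (omG C k)⁻¹) * (omG C k * (y : GL C.Idx k) * (omG C k)⁻¹)
    rw [Subgroup.coe_mul, Z4n_mul]

private theorem Z4n_c_val (x : GF D k) :
    ((Z4n_c D k x : GF D k) : GL C.Idx k) = omG C k * (x : GL C.Idx k) * (omG C k)⁻¹ := rfl

private theorem Z4n_c_c (x : GF D k) : Z4n_c D k (Z4n_c D k x) = x := by
  apply Subtype.ext
  rw [Z4n_c_val, Z4n_c_val, Z4n_invol]

private theorem Z4n_c_yg (hN : D.NA) (β : C.Root) (t : k) :
    Z4n_c D k (yg hN β t) = yg hN (-β) t :=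
  Subtype.ext (omG_yb hN β t)

private theorem Z4n_FR (hN : D.NA) (R R' : Set C.Root) (h : ∀ β ∈ R, -β ∈ R') (x : GF D k)
    (hx : x ∈ FR hN k R) : Z4n_c D k x ∈ FR hN k R' := by
  have h1 : FR hN k R ≤ (FR hN k R').comap (Z4n_c D k) := by
    refine (Subgroup.closure_le _).2 ?_
    rintro g ⟨β, hβ, t, rfl⟩
    change Z4n_c D k (yg hN β t) ∈ FR hN k R'
    rw [Z4n_c_yg]
    exact Subgroup.subset_closure ⟨-β, h β hβ, t, rfl⟩
  exact h1 hx

omit [Infinite k] in
private theorem Z4n_UR (R R' : Set C.Root) (h : ∀ β ∈ R, -β ∈ R') (x : GL C.Idx k)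
    (hx : x ∈ UR C k R) : omG C k * x * (omG C k)⁻¹ ∈ UR C k R' := by
  unfold UR at hx
  refine Z4n_cl ?_ x hx
  rintro g ⟨β, hβ, t, rfl⟩
  rw [omG_xg]
  exact Subgroup.subset_closure ⟨-β, h β hβ, t, rfl⟩

private theorem Z4n_h1 (R : Set C.Root) (β : C.Root) (hβ : β ∈ R) : -β ∈ {β : C.Root | -β ∈ R} := by
  change - -β ∈ R
  rwa [C.neg_neg_root]

theorem UR_fix_neg (hN : D.NA) {R : Set C.Root} (hR : ClR C R) (hr : ∀ β ∈ R, D.r β ∈ R)
    (x : GF D k) : (x : GL C.Idx k) ∈ UR C k {β | -β ∈ R} ↔ x ∈ FR hN k {β | -β ∈ R} := by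
  constructor
  · intro h
    have h1 : ((Z4n_c D k x : GF D k) : GL C.Idx k) ∈ UR C k R :=
      Z4n_UR _ _ (fun β hβ => hβ) _ h
    have h2 := (UR_fix hN hR hr _).1 h1
    have h3 := Z4n_FR hN R {β | -β ∈ R} (Z4n_h1 R) _ h2
    rwa [Z4n_c_c] at h3
  · intro h
    have h1 := Z4n_FR hN {β | -β ∈ R} R (fun β hβ => hβ) _ h
    have h2 := (UR_fix hN hR hr _).2 h1
    have h3 := Z4n_UR R {β | -β ∈ R} (Z4n_h1 R) _ h2
    rwa [Z4n_c_val, Z4n_invol] at h3

theorem UR_omG {R : Set C.Root} (x : GL C.Idx k) :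
    omG C k * x * (omG C k)⁻¹ ∈ UR C k {β | -β ∈ R} ↔ x ∈ UR C k R := by
  constructor
  · intro h
    have h1 := Z4n_UR {β | -β ∈ R} R (fun β hβ => hβ) _ h
    rwa [Z4n_invol] at h1
  · exact Z4n_UR R {β | -β ∈ R} (Z4n_h1 R) x

end Pool.Agent.H86.UM
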