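import Pool.Agent.H86.UM.Z3
import Pool.Agent.H86.UM.Z4
import Pool.Agent.H86.UM.OM
import Pool.Agent.H86.UM.UC

/-!
# Project UM, Suzuki-Ree groups, module Z5: `σ` and the subgroups of the folded group

`obtain ⟨τ, e, ht⟩ := exists_tau hS h`. `sig_sig`: on the generators (`GF_gen`; `th_th` for simple roots: directly
from `h.pos`, `h.neg`, `inv`, `yg_cycle_simple`). `sig_FU`, `sig_FUm`: `FU_eq`, `FUm_eq`, `tau_pos`.
`sig_B_split`: `upper` (`g = t u`), apply `s`: `t⁻¹ s(t) = u s(u)⁻¹ ∈ T ∩ U = 1` (`S9_T_one`), so `u ∈ fixU`.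
`sig_FT`: `x ∈ FT` normalises `FU`, `FUm` (`T_conj_U`), so `σ x` normalises `σ FU = FU` (`sig_sig`), `FUm`;
`upper_of_fix` with `Γ = FU` (nonvanishing: `xi_yg`) gives `Fil 0 (σ x)`; conjugating with `omG` (OM.lean; `omG`
exchanges `U`, `Um`) and `lower_of_fix`, `T_of_both`: `σ x ∈ T`.
`sig_chi`: `yg_T` and `σ`, `yg_inj`. `exists_FN`: `Wr_induct` with the elements `nJ` : each `w ∈ W` commuting with
`rE` is induced by an element `ν₀` of the subgroup generated by the `nJ`; `sig_FN`: `ν = ν₀ t`, `t ∈ FT`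
(`N_one`), `σ (nJ j) = nJ (t0 j)`; for the last statement of `sig_FN`: conjugate `yg β t` and apply `σ`
(`yg_acts`, `ht.map`, `yg_inj`). `sig_xi`: `FU_eq`, `xi_mul`, `xi_yg`. `sig_FR`: generators; `yg_cycle`.
`FN_rE`: `ν ∈ FN` is fixed by `s`, so its `w` commutes with `rE` (`IsSig.acts`, uniqueness of `w`: `xg_inj`).
-/

set_option autoImplicit false
open Matrix

namespace Pool.Agent.H86.UM

open Pool.Agent.H75.UL

variable {n : ℕ} {C : SLC n} {D : Dg C} {t0 : Fin n → Fin n}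

private theorem Z5_unique {k : Type*} [Field k] (ν : GL C.Idx k) (w w' : Equiv.Perm C.Root)
    (h : (C.adS k).Acts ν w) (h' : (C.adS k).Acts ν w') : w = w' := by
  obtain ⟨c, hc, h1⟩ := h
  obtain ⟨c', hc', h1'⟩ := h'
  ext β
  have h2 : C.xg k (w β) (c β * 1) = C.xg k (w' β) (c' β * 1) := (h1 β 1).symm.trans (h1' β 1)
  rw [(C.xg_inj _ _ _ _ (mul_ne_zero (hc β) one_ne_zero) h2).1]

private theorem Z5_fix_conj {H : Type*} [Group H] (s : H →* H) (h x : H) (h1 : s h = h)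
    (h2 : s x = x) : s (h * x * h⁻¹) = h * x * h⁻¹ := by
  rw [map_mul, map_mul, map_inv, h1, h2]

private theorem Z5_conj_FU (hN : D.NA) {k : Type*} [Field k] [Infinite k] (t : GF D k)
    (ht : (t : GL C.Idx k) ∈ (C.adS k).T) (u : GF D k) (hu : u ∈ FU D k) :
    t * u * t⁻¹ ∈ FU D k :=
  ⟨(C.adS k).T_conj_U 1 _ _ ht hu.1, Z5_fix_conj _ _ _ (mem_GF_fix hN _ t.2).1
    (mem_GF_fix hN _ u.2).1⟩

private theorem Z5_T_Um {k : Type*} [Field k] (τ u : GL C.Idx k) (hτ : τ ∈ (C.adS k).T)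
    (hu : u ∈ (C.adS k).Um) : τ * u * τ⁻¹ ∈ (C.adS k).Um := by
  obtain ⟨c, hc, -, h1⟩ := (C.adS k).T_acts' τ hτ
  unfold StSys.Um at hu
  induction hu using Subgroup.closure_induction with
  | mem g hg =>
    obtain ⟨β, t, hβ, rfl⟩ := hg
    rw [h1]
    exact Subgroup.subset_closure ⟨β, _, hβ, rfl⟩
  | one =>
    rw [mul_one, mul_inv_cancel]
    exact one_mem _
  | mul a b _ _ ha hb =>
    have e : τ * (a * b) * τ⁻¹ = τ * a * τ⁻¹ * (τ * b * τ⁻¹) := by group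
    rw [e]
    exact mul_mem ha hb
  | inv a _ ha =>
    have e : τ * a⁻¹ * τ⁻¹ = (τ * a * τ⁻¹)⁻¹ := by group
    rw [e]
    exact inv_mem ha

private theorem Z5_conj_FUm (hN : D.NA) {k : Type*} [Field k] [Infinite k] (t : GF D k)
    (ht : (t : GL C.Idx k) ∈ (C.adS k).T) (u : GF D k) (hu : u ∈ FUm D k) :
    t * u * t⁻¹ ∈ FUm D k :=
  ⟨Z5_T_Um _ _ ht hu.1, Z5_fix_conj _ _ _ (mem_GF_fix hN _ t.2).1
    (mem_GF_fix hN _ u.2).1⟩

section
variable (hN : D.NA) {k : Type*} [Field k] [Infinite k]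

include hN in
/-- the elements of `FN` act by elements of `W` commuting with `rE` -/
theorem FN_acts (ν : GF D k) (hν : ν ∈ FN D k) : ∃ w ∈ C.W, D.rE * w * D.rE⁻¹ = w ∧
    (C.adS k).Acts (ν : GL C.Idx k) w := by
  obtain ⟨w, hw, hact, -⟩ := (C.adS k).N_acts (ν : GL C.Idx k) hν
  refine ⟨w, hw, ?_, hact⟩
  have h1 := (isSig_adS D (RingEquiv.refl k)).acts _ w hact
  rw [(mem_GF_fix hN _ ν.2).1] at h1
  exact Z5_unique _ _ _ h1 hact

include hN in
/-- uniqueness of the action -/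
theorem FN_unique (ν : GL C.Idx k) (w w' : Equiv.Perm C.Root) (h : (C.adS k).Acts ν w)
    (h' : (C.adS k).Acts ν w') : w = w' := by
  exact Z5_unique _ _ _ h h'

include hN in
theorem FN_T (ν ν' : GF D k) (hν : ν ∈ FN D k) (hν' : ν' ∈ FN D k) (w : Equiv.Perm C.Root)
    (h : (C.adS k).Acts (ν : GL C.Idx k) w) (h' : (C.adS k).Acts (ν' : GL C.Idx k) w) :
    ν⁻¹ * ν' ∈ FT D k := by
  have h1 := C.Acts_mul (C.adS k) _ _ _ _ (C.Acts_inv (C.adS k) _ _ h) h'
  rw [inv_mul_cancel] at h1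
  exact C.N_one _ h1 (mul_mem (inv_mem hν) hν')

include hN in
/-- every element of `W` commuting with `rE` is induced by a product of elements `nJ` -/
theorem exists_FN (w : Equiv.Perm C.Root) (hw : w ∈ C.W) (hr : D.rE * w * D.rE⁻¹ = w) :
    ∃ ν ∈ Subgroup.closure (Set.range fun j => nJ hN k j), ν ∈ FN D k ∧
      (C.adS k).Acts (ν : GL C.Idx k) w := by
  refine D.Wr_induct (fun w => ∃ ν ∈ Subgroup.closure (Set.range fun j => nJ hN k j), ν ∈ FN D k ∧
      (C.adS k).Acts (ν : GL C.Idx k) w) ?_ ?_ w hw hr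
  · refine ⟨1, one_mem _, one_mem _, fun _ => 1, fun _ => one_ne_zero, fun β u => ?_⟩
    rw [one_mul, Equiv.Perm.one_apply, Subgroup.coe_one, one_mul, inv_one, mul_one]
  · rintro w i - ⟨ν, h1, h2, h3⟩
    refine ⟨ν * nJ hN k i, mul_mem h1 (Subgroup.subset_closure ⟨i, rfl⟩),
      mul_mem h2 (nJ_mem hN i).1, ?_⟩
    rw [Subgroup.coe_mul]
    exact C.Acts_mul (C.adS k) _ _ _ _ h3 (nJ_mem hN i).2

include hN in
/-- the elements of the Borel subgroup -/
theorem B_split (b : GF D k) (hb : C.Fil 0 ((b : GL C.Idx k) : Matrix C.Idx C.Idx k)) :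
    (∃ t ∈ FT D k, ∃ u ∈ FU D k, b = t * u) ∧ ∃ t ∈ FT D k, ∃ u ∈ FU D k, b = u * t := by
  obtain ⟨h1, h2⟩ := mem_GF_fix hN _ b.2
  obtain ⟨τ, hτ, u, hu, hb'⟩ := C.upper _ h2 hb
  have hs := isSig_adS D (RingEquiv.refl k) (C := C)
  have hsτ := hs.map_T τ hτ
  have hsu := hs.map_U 1 u hu
  have e1 : D.sgl (RingEquiv.refl k) τ * D.sgl (RingEquiv.refl k) u = τ * u := by
    rw [← map_mul, ← hb', h1]
  have e2 : τ⁻¹ * D.sgl (RingEquiv.refl k) τ = u * (D.sgl (RingEquiv.refl k) u)⁻¹ := by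
    rw [inv_mul_eq_iff_eq_mul, ← mul_assoc, ← e1, mul_inv_cancel_right]
  have e3 : τ⁻¹ * D.sgl (RingEquiv.refl k) τ = 1 :=
    C.S9_T_one _ (mul_mem (inv_mem hτ) hsτ) (e2 ▸ mul_mem hu (inv_mem hsu))
  have e4 : D.sgl (RingEquiv.refl k) u = u := by
    rw [e3] at e2
    exact (mul_inv_eq_one.1 e2.symm).symm
  have hfu : u ∈ fixU (C.adS k) (D.sgl (RingEquiv.refl k)) := ⟨hu, e4⟩
  have huG : u ∈ GF D k := (le_sup_left : fixU _ _ ≤ _) hfu
  have hτG : τ ∈ GF D k := by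
    have e5 : τ = (b : GL C.Idx k) * u⁻¹ := by rw [hb', mul_inv_cancel_right]
    rw [e5]
    exact mul_mem b.2 (inv_mem huG)
  have e6 : b = (⟨τ, hτG⟩ : GF D k) * ⟨u, huG⟩ := Subtype.ext hb'
  refine ⟨⟨⟨τ, hτG⟩, hτ, ⟨u, huG⟩, hfu, e6⟩, ⟨τ, hτG⟩, hτ,
    (⟨τ, hτG⟩ : GF D k) * ⟨u, huG⟩ * (⟨τ, hτG⟩ : GF D k)⁻¹, ?_, ?_⟩
  · exact Z5_conj_FU hN _ hτ _ hfu
  · rw [inv_mul_cancel_right]
    exact e6

include hN in
theorem FT_FU (x : GF D k) (h : x ∈ FT D k) (h' : x ∈ FU D k) : x = 1 := by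
  exact Subtype.ext (C.S9_T_one _ h h'.1)

include hN in
/-- the Borel subgroup meets `U⁻` trivially -/
theorem B_FUm (x : GF D k) (h : C.Fil 0 ((x : GL C.Idx k) : Matrix C.Idx C.Idx k))
    (h' : x ∈ FUm D k) : x = 1 := by
  have h1 : omG C k * (x : GL C.Idx k) * (omG C k)⁻¹ ∈ (C.adS k).U 1 :=
    (omG_U C _).2 h'.1
  have h2 := T_of_both C _ (mem_GF_fix hN _ x.2).2 h (C.Fil_U_zero _ h1)
  have h3 := C.S9_T_one _ ((omG_T C _).2 h2) h1
  apply Subtype.ext
  rw [mul_inv_eq_one] at h3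
  exact mul_eq_left.1 h3

include hN in
theorem FU_Fil (x : GF D k) (h : x ∈ FU D k) :
    C.Fil 0 ((x : GL C.Idx k) : Matrix C.Idx C.Idx k) := by
  exact C.Fil_U_zero _ h.1

include hN in
theorem FT_conj (t : GF D k) (ht : t ∈ FT D k) : (∀ u ∈ FU D k, t * u * t⁻¹ ∈ FU D k) ∧
    (∀ u ∈ FUm D k, t * u * t⁻¹ ∈ FUm D k) ∧ ∀ ν ∈ FN D k, ν * t * ν⁻¹ ∈ FT D k := by
  refine ⟨fun u hu => Z5_conj_FU hN t ht u hu, fun u hu => Z5_conj_FUm hN t ht u hu,
    fun ν hν => (C.adS k).N_conj_T _ _ hν ht⟩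

end

private theorem Z5_conj_prod {H : Type*} [Group H] (g : H) (l : List ℕ) (f : ℕ → H) :
    g * (l.map f).prod * g⁻¹ = (l.map fun i => g * f i * g⁻¹).prod := by
  induction l with
  | nil => rw [List.map_nil, List.map_nil, List.prod_nil, mul_one, mul_inv_cancel]
  | cons a l ih =>
    rw [List.map_cons, List.map_cons, List.prod_cons, List.prod_cons, ← ih]
    group

private theorem Z5_iter_neg (D : Dg C) (l : ℕ) (β : C.Root) : D.r^[l] (-β) = -(D.r^[l] β) := by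
  induction l with
  | zero => rfl
  | succ l ih => rw [Function.iterate_succ_apply', Function.iterate_succ_apply', ih, D.r_neg]

private theorem Z5_om_yb (D : Dg C) {k : Type*} [Field k] (β : C.Root) (t : k) :
    omG C k * yb D (C.adS k) (D.sgl (RingEquiv.refl k)) (-β) t * (omG C k)⁻¹ =
      yb D (C.adS k) (D.sgl (RingEquiv.refl k)) β t := by
  have hmo : mo D (-β) = mo D β := by
    unfold mo
    have h1 : D.r (-β) = -β ↔ D.r β = β := by
      rw [D.r_neg]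
      constructor
      · intro h
        have h2 := congrArg (fun γ : C.Root => -γ) h
        change - -(D.r β) = - -β at h2
        rwa [C.neg_neg_root, C.neg_neg_root] at h2
      · intro h
        rw [h]
    by_cases h : D.r β = β
    · rw [if_pos (h1.2 h), if_pos h]
    · rw [if_neg (fun h' => h (h1.1 h')), if_neg h]
  unfold yb
  rw [hmo, Z5_conj_prod]
  congr 1
  apply List.map_congr_left
  intro l _
  have hs := isSig_adS D (RingEquiv.refl k) (C := C)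
  rw [hs.iter, hs.iter, Z5_iter_neg]
  have hsg : D.sgp l (-β) = D.sgp l β := by
    unfold Dg.sgp
    refine Finset.prod_congr rfl fun j _ => ?_
    rw [Z5_iter_neg, D.sg_neg]
  rw [hsg]
  change omG C k * C.xg k _ _ * (omG C k)⁻¹ = C.xg k _ _
  rw [omG_xg, C.neg_neg_root]

private theorem Z5_om (hN : D.NA) {k : Type*} [Field k] (j : Fin n) (t : k) :
    omG C k * ((yg hN (-(C.simple j)) t : GF D k) : GL C.Idx k) * (omG C k)⁻¹ =
      ((yg hN (C.simple j) t : GF D k) : GL C.Idx k) := Z5_om_yb D _ t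

private theorem Z5_simple (D : Dg C) (a : Fin n) (γ : C.Root)
    (h : D.rE.SameCycle (C.simple a) γ) : ∃ b, γ = C.simple b ∧ D.ρ.SameCycle a b := by
  obtain ⟨l, -, h1⟩ := (D.sameCycle_iff _ _).1 h
  rw [D.r_iter_simple] at h1
  exact ⟨_, h1, (l : ℤ), by rw [zpow_natCast]⟩

private theorem Z5_e {k : Type*} [Field k] (e : ℤ) (h : e = 1 ∨ e = -1) : (e : k) ≠ 0 := by
  rcases h with rfl | rfl
  · rw [Int.cast_one]
    exact one_ne_zero
  · rw [Int.cast_neg, Int.cast_one]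
    exact neg_ne_zero.2 one_ne_zero

private theorem Z5_FU (hS : Swap D t0) {k : Type*} [Field k] [Infinite k] {θ : k ≃+* k}
    {σ : GF D k →* GF D k} {τ : C.Root → C.Root} {e : C.Root → ℤ} (ht : SRt hS.na t0 θ σ τ e)
    (x : GF D k) (hx : x ∈ FU D k) : σ x ∈ FU D k := by
  rw [FU_eq hS.na] at hx
  induction hx using Subgroup.closure_induction with
  | mem g hg =>
    obtain ⟨β, hβ, t, rfl⟩ := hg
    rw [ht.map]
    exact yg_pos hS.na _ ((tau_pos hS ht.tau β).2 hβ) _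
  | one =>
    rw [map_one]
    exact one_mem _
  | mul a b _ _ ha hb =>
    rw [map_mul]
    exact mul_mem ha hb
  | inv a _ ha =>
    rw [map_inv]
    exact inv_mem ha

private theorem Z5_FUm (hS : Swap D t0) {k : Type*} [Field k] [Infinite k] {θ : k ≃+* k}
    {σ : GF D k →* GF D k} {τ : C.Root → C.Root} {e : C.Root → ℤ} (ht : SRt hS.na t0 θ σ τ e)
    (x : GF D k) (hx : x ∈ FUm D k) : σ x ∈ FUm D k := by
  rw [FUm_eq hS.na] at hx
  induction hx using Subgroup.closure_induction with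
  | mem g hg =>
    obtain ⟨β, hβ, t, rfl⟩ := hg
    rw [ht.map]
    exact yg_npos hS.na _ (fun h' => hβ ((tau_pos hS ht.tau β).1 h')) _
  | one =>
    rw [map_one]
    exact one_mem _
  | mul a b _ _ ha hb =>
    rw [map_mul]
    exact mul_mem ha hb
  | inv a _ ha =>
    rw [map_inv]
    exact inv_mem ha

private theorem Z5_chi (hN : D.NA) {k : Type*} [Field k] [Infinite k] (y : GF D k)
    (hy : y ∈ FT D k) (β γ : C.Root) (h : D.rE.SameCycle β γ) :
    C.chi ((y : GL C.Idx k) : Matrix C.Idx C.Idx k) γ =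
      C.chi ((y : GL C.Idx k) : Matrix C.Idx C.Idx k) β := by
  have h1 : ∀ δ, C.chi ((y : GL C.Idx k) : Matrix C.Idx C.Idx k) (D.r δ) =
      C.chi ((y : GL C.Idx k) : Matrix C.Idx C.Idx k) δ := fun δ =>
    SR_chi (env_ad D hN k) (y : GL C.Idx k) hy (mem_GF_fix hN _ y.2).1 δ
  obtain ⟨l, -, rfl⟩ := (D.sameCycle_iff _ _).1 h
  clear h
  induction l with
  | zero => rfl
  | succ l ih => rw [Function.iterate_succ_apply', h1, ih]

private theorem Z5_xi_mul (j : Fin n) {k : Type*} [Field k] (a b : GF D k)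
    (ha : a ∈ FU D k) (hb : b ∈ FU D k) :
    C.xi j (((a * b : GF D k) : GL C.Idx k) : Matrix C.Idx C.Idx k) =
      C.xi j ((a : GL C.Idx k) : Matrix C.Idx C.Idx k) +
        C.xi j ((b : GL C.Idx k) : Matrix C.Idx C.Idx k) := by
  rw [Subgroup.coe_mul]
  exact C.xi_mul j _ _ ha.1 hb.1

private theorem Z5_xi_inv (j : Fin n) {k : Type*} [Field k] (a : GF D k)
    (ha : a ∈ FU D k) :
    C.xi j (((a⁻¹ : GF D k) : GL C.Idx k) : Matrix C.Idx C.Idx k) =
      -C.xi j ((a : GL C.Idx k) : Matrix C.Idx C.Idx k) := by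
  rw [Subgroup.coe_inv]
  exact C.xi_inv j _ ha.1

private theorem Z5_xi_one (j : Fin n) {k : Type*} [Field k] :
    C.xi j (((1 : GF D k) : GL C.Idx k) : Matrix C.Idx C.Idx k) = 0 := by
  rw [Subgroup.coe_one, Units.val_one]
  exact C.xi_one j

section
variable (hS : Swap D t0) {k : Type*} [Field k] [Infinite k] {θ : k ≃+* k}
  {σ : GF D k →* GF D k} (h : SRs D t0 θ σ)

include hS h

theorem sig_yg (j : Fin n) (t : k) :
    σ (yg hS.na (C.simple j) t) = yg hS.na (C.simple (t0 j)) (th D θ (C.simple j) t) ∧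
    σ (yg hS.na (-(C.simple j)) t) = yg hS.na (-(C.simple (t0 j))) (th D θ (C.simple j) t) := by
  exact ⟨Subtype.ext (h.pos j t _ rfl), Subtype.ext (h.neg j t _ rfl)⟩

theorem sig_nJ (j : Fin n) : σ (nJ hS.na k j) = nJ hS.na k (t0 j) := by
  unfold nJ
  rw [map_mul, map_mul, (sig_yg hS h j 1).1, (sig_yg hS h j 1).2, th_one]

theorem sig_sig (x : GF D k) : σ (σ x) = x := by
  obtain ⟨τ, e, ht⟩ := exists_tau hS h
  have h1 : ∀ (j : Fin n) (t : k), th D θ (C.simple (t0 j)) (th D θ (C.simple j) t) = t := by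
    intro j t
    rw [← th_cycle θ _ _ (tau_simple hS ht.tau j)]
    exact th_th hS ht.tau θ _ t
  have key : σ.comp σ = MonoidHom.id _ := by
    refine MonoidHom.eq_of_eqOn_dense (GF_gen hS.na) ?_
    rintro g ⟨j, t, rfl | rfl⟩
    · change σ (σ _) = _
      rw [(sig_yg hS h j t).1, (sig_yg hS h (t0 j) _).1, h1]
      exact (yg_cycle_simple hS.na _ _ (hS.inv j) t).1.symm
    · change σ (σ _) = _
      rw [(sig_yg hS h j t).2, (sig_yg hS h (t0 j) _).2, h1]
      exact (yg_cycle_simple hS.na _ _ (hS.inv j) t).2.symm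
  exact DFunLike.congr_fun key x

theorem sig_FU (x : GF D k) : σ x ∈ FU D k ↔ x ∈ FU D k := by
  obtain ⟨τ, e, ht⟩ := exists_tau hS h
  constructor
  · intro hx
    have h1 := Z5_FU hS ht _ hx
    rwa [sig_sig hS h] at h1
  · exact Z5_FU hS ht x

theorem sig_FUm (x : GF D k) : σ x ∈ FUm D k ↔ x ∈ FUm D k := by
  obtain ⟨τ, e, ht⟩ := exists_tau hS h
  constructor
  · intro hx
    have h1 := Z5_FUm hS ht _ hx
    rwa [sig_sig hS h] at h1
  · exact Z5_FUm hS ht x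

theorem sig_FT (x : GF D k) : σ x ∈ FT D k ↔ x ∈ FT D k := by
  have key : ∀ x : GF D k, x ∈ FT D k → σ x ∈ FT D k := by
    intro x hx
    have e1 : ∀ u : GF D k, (σ x)⁻¹ * u * σ x = σ (x⁻¹ * σ u * x⁻¹⁻¹) := by
      intro u
      rw [map_mul, map_mul, map_inv, sig_sig hS h, inv_inv]
    have hU : ∀ u ∈ FU D k, (σ x)⁻¹ * u * σ x ∈ FU D k := by
      intro u hu
      rw [e1]
      exact (sig_FU hS h _).2 ((FT_conj hS.na _ (inv_mem hx)).1 _ ((sig_FU hS h _).2 hu))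
    have hUm : ∀ u ∈ FUm D k, (σ x)⁻¹ * u * σ x ∈ FUm D k := by
      intro u hu
      rw [e1]
      exact (sig_FUm hS h _).2 ((FT_conj hS.na _ (inv_mem hx)).2.1 _ ((sig_FUm hS h _).2 hu))
    have hy := (mem_GF_fix hS.na _ (σ x).2).2
    have hF := upper_of_fix C {g : GL C.Idx k | ∃ u ∈ FU D k, g = (u : GL C.Idx k)}
      (by
        rintro _ ⟨u, hu, rfl⟩
        exact hu.1) (by
        intro j
        refine ⟨_, ⟨yg hS.na (C.simple j) 1, yg_pos hS.na _ (C.simple_pos j) _, rfl⟩, ?_⟩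
        rw [(xi_yg hS.na j (C.simple j) (C.simple_pos j) 1).1
          ⟨j, rfl, Equiv.Perm.SameCycle.refl _ _⟩]
        exact one_ne_zero) _ hy (by
        rintro _ ⟨u, hu, rfl⟩
        exact C.Fil_U_zero _ (hU u hu).1)
    have hF' := lower_of_fix C {g : GL C.Idx k | ∃ u ∈ FUm D k, g = (u : GL C.Idx k)}
      (by
        rintro _ ⟨u, hu, rfl⟩
        exact hu.1) (by
        intro j
        refine ⟨_, ⟨yg hS.na (-(C.simple j)) 1, yg_npos hS.na _
          ((C.not_pos_iff _).2 ?_) _, rfl⟩, ?_⟩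
        · rw [C.neg_neg_root]
          exact C.simple_pos j
        · rw [Z5_om hS.na, (xi_yg hS.na j (C.simple j) (C.simple_pos j) 1).1
            ⟨j, rfl, Equiv.Perm.SameCycle.refl _ _⟩]
          exact one_ne_zero) _ hy (by
        rintro _ ⟨u, hu, rfl⟩
        exact (hUm u hu).1)
    exact T_of_both C _ hy hF hF'
  constructor
  · intro hx
    have h1 := key _ hx
    rwa [sig_sig hS h] at h1
  · exact key x

theorem sig_Fil (x : GF D k) : C.Fil 0 ((σ x : GL C.Idx k) : Matrix C.Idx C.Idx k) ↔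
    C.Fil 0 ((x : GL C.Idx k) : Matrix C.Idx C.Idx k) := by
  have key : ∀ x : GF D k, C.Fil 0 ((x : GL C.Idx k) : Matrix C.Idx C.Idx k) →
      C.Fil 0 ((σ x : GL C.Idx k) : Matrix C.Idx C.Idx k) := by
    intro x hx
    obtain ⟨⟨t, ht, u, hu, rfl⟩, -⟩ := B_split hS.na x hx
    rw [map_mul, Subgroup.coe_mul, Units.val_mul]
    have h1 := C.Fil_mul (C.Fil_T _ ((sig_FT hS h t).2 ht))
      (C.Fil_U_zero _ ((sig_FU hS h u).2 hu).1)
    simpa using h1
  constructor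
  · intro hx
    have h1 := key _ hx
    rwa [sig_sig hS h] at h1
  · exact key x

theorem sig_FN {τ : C.Root → C.Root} {e : C.Root → ℤ} (ht : SRt hS.na t0 θ σ τ e)
    (ν : GF D k) (hν : ν ∈ FN D k) : σ ν ∈ FN D k ∧
    ∀ w w' : Equiv.Perm C.Root, (C.adS k).Acts (ν : GL C.Idx k) w →
      (C.adS k).Acts (σ ν : GL C.Idx k) w' → ∀ β, D.rE.SameCycle (w' (τ β)) (τ (w β)) := by
  obtain ⟨w, hw, hr, hact⟩ := FN_acts hS.na ν hν
  obtain ⟨ν₀, h0, h0N, h0act⟩ := exists_FN hS.na (k := k) w hw hr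
  have hT := FN_T hS.na ν₀ ν h0N hν w h0act hact
  have h1 : σ ν₀ ∈ FN D k := by
    clear h0N h0act hT
    induction h0 using Subgroup.closure_induction with
    | mem g hg =>
      obtain ⟨j, rfl⟩ := hg
      change σ (nJ hS.na k j) ∈ FN D k
      rw [sig_nJ hS h]
      exact (nJ_mem hS.na _).1
    | one =>
      rw [map_one]
      exact one_mem _
    | mul a b _ _ ha hb =>
      rw [map_mul]
      exact mul_mem ha hb
    | inv a _ ha =>
      rw [map_inv]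
      exact inv_mem ha
  have h2 : σ ν = σ ν₀ * σ (ν₀⁻¹ * ν) := by rw [← map_mul, mul_inv_cancel_left]
  have h3 : σ ν ∈ FN D k := by
    rw [h2]
    exact mul_mem h1 ((C.adS k).T_le_N ((sig_FT hS h _).2 hT))
  refine ⟨h3, fun w₁ w' hw₁ hw' β => ?_⟩
  have e1 : w₁ = w := FN_unique hS.na _ _ _ hw₁ hact
  obtain ⟨w₂, -, hr₂, hact₂⟩ := FN_acts hS.na (σ ν) h3
  have e2 : w' = w₂ := FN_unique hS.na _ _ _ hw' hact₂
  obtain ⟨c, hc, hcv⟩ := yg_acts hS.na ν w hact hr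
  obtain ⟨c', hc', hcv'⟩ := yg_acts hS.na (σ ν) w₂ hact₂ hr₂
  have e3 := congrArg σ (hcv β 1)
  rw [map_mul, map_mul, map_inv, ht.map, ht.map, hcv'] at e3
  rw [e1, e2]
  refine (yg_inj hS.na _ _ _ _ ?_ e3).1
  rw [th_one, mul_one]
  exact mul_ne_zero (hc' _) (Z5_e _ (ht.e_eq β))

theorem sig_chi {τ : C.Root → C.Root} {e : C.Root → ℤ} (ht : SRt hS.na t0 θ σ τ e)
    (x : GF D k) (hx : x ∈ FT D k) (β : C.Root) :
    C.chi ((σ x : GL C.Idx k) : Matrix C.Idx C.Idx k) (τ β) =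
      th D θ β (C.chi ((x : GL C.Idx k) : Matrix C.Idx C.Idx k) β) := by
  have h1 := congrArg σ (yg_T hS.na x hx β 1)
  have hy := (sig_FT hS h x).2 hx
  rw [map_mul, map_mul, map_inv, ht.map, ht.map, yg_T hS.na _ hy, th_one, mul_one, mul_one] at h1
  have h2 := (yg_inj hS.na _ _ _ _ (mul_ne_zero (C.T_fix _ hy (τ β) 0).1
    (Z5_e _ (ht.e_eq β))) h1).2 rfl
  rw [mul_comm] at h2
  exact mul_left_cancel₀ (Z5_e _ (ht.e_eq β)) h2

theorem sig_chi_simple (x : GF D k) (hx : x ∈ FT D k) (j : Fin n) :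
    C.chi ((σ x : GL C.Idx k) : Matrix C.Idx C.Idx k) (C.simple (t0 j)) =
      th D θ (C.simple j) (C.chi ((x : GL C.Idx k) : Matrix C.Idx C.Idx k) (C.simple j)) := by
  obtain ⟨τ, e, ht⟩ := exists_tau hS h
  rw [← sig_chi hS h ht x hx]
  exact Z5_chi hS.na _ ((sig_FT hS h x).2 hx) _ _ (tau_simple hS ht.tau j)

theorem sig_xi (x : GF D k) (hx : x ∈ FU D k) (j : Fin n) :
    C.xi (t0 j) ((σ x : GL C.Idx k) : Matrix C.Idx C.Idx k) =
      th D θ (C.simple j) (C.xi j ((x : GL C.Idx k) : Matrix C.Idx C.Idx k)) := by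
  obtain ⟨τ, e, ht⟩ := exists_tau hS h
  have key : ∀ x : GF D k, x ∈ FU D k →
      C.xi (t0 j) ((σ x : GL C.Idx k) : Matrix C.Idx C.Idx k) =
      th D θ (C.simple j) (C.xi j ((x : GL C.Idx k) : Matrix C.Idx C.Idx k)) := by
    have h0 : th D θ (C.simple j) (0 : k) = 0 := by
      have h1 := th_add θ (C.simple j) (0 : k) 0 (D := D)
      rw [add_zero] at h1
      exact left_eq_add.1 h1
    intro x hx
    rw [FU_eq hS.na] at hx
    have hgen : ∀ g ∈ {g : GF D k | ∃ β : C.Root, C.Pos β ∧ ∃ t : k, g = yg hS.na β t},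
        C.xi (t0 j) ((σ g : GL C.Idx k) : Matrix C.Idx C.Idx k) =
        th D θ (C.simple j) (C.xi j ((g : GL C.Idx k) : Matrix C.Idx C.Idx k)) := by
      rintro g ⟨β, hβ, t, rfl⟩
      by_cases hc : ∃ i, β = C.simple i ∧ D.ρ.SameCycle i j
      · rw [(xi_yg hS.na j β hβ t).1 hc]
        obtain ⟨i, rfl, hi⟩ := hc
        rw [(sig_yg hS h i t).1, t0_cycle hS i j hi,
          (xi_yg hS.na (t0 j) _ (C.simple_pos _) _).1 ⟨t0 j, rfl, Equiv.Perm.SameCycle.refl _ _⟩]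
        exact th_cycle θ _ _ ((D.sameCycle_simple i j).2 hi) t
      · rw [(xi_yg hS.na j β hβ t).2 hc, h0, ht.map]
        apply (xi_yg hS.na (t0 j) _ ((tau_pos hS ht.tau β).2 hβ) _).2
        rintro ⟨i, hi, hij⟩
        apply hc
        have h1 := tau_tau hS ht.tau β
        rw [hi] at h1
        have h2 : D.rE.SameCycle (C.simple (t0 i)) β :=
          (tau_simple hS ht.tau i).symm.trans h1
        rw [t0_cycle hS i (t0 j) hij] at h2
        obtain ⟨b, hb, hb2⟩ := Z5_simple D _ _ h2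
        exact ⟨b, hb, hb2.symm.trans (hS.inv j).symm⟩
    have hm : ∀ g ∈ Subgroup.closure {g : GF D k | ∃ β : C.Root, C.Pos β ∧ ∃ t : k,
        g = yg hS.na β t}, g ∈ FU D k := by
      intro g hg
      rw [FU_eq hS.na]
      exact hg
    induction hx using Subgroup.closure_induction with
    | mem g hg => exact hgen g hg
    | one => rw [map_one, Z5_xi_one, Z5_xi_one, h0]
    | mul a b ha' hb' ha hb =>
      rw [map_mul, Z5_xi_mul _ _ _ (Z5_FU hS ht _ (hm _ ha')) (Z5_FU hS ht _ (hm _ hb')),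
        Z5_xi_mul _ _ _ (hm _ ha') (hm _ hb'), ha, hb, th_add]
    | inv a ha' ha =>
      rw [map_inv, Z5_xi_inv _ _ (Z5_FU hS ht _ (hm _ ha')), Z5_xi_inv _ _ (hm _ ha'), ha]
      have h1 := th_add θ (C.simple j) (C.xi j ((a : GL C.Idx k) : Matrix C.Idx C.Idx k))
        (-(C.xi j ((a : GL C.Idx k) : Matrix C.Idx C.Idx k))) (D := D)
      rw [add_neg_cancel, h0] at h1
      exact neg_eq_of_add_eq_zero_right h1.symm
  exact key x hx

theorem sig_FR {τ : C.Root → C.Root} {e : C.Root → ℤ} (ht : SRt hS.na t0 θ σ τ e)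
    (R R' : Set C.Root) (hR : ∀ β ∈ R, ∃ γ ∈ R', D.rE.SameCycle (τ β) γ) (x : GF D k)
    (hx : x ∈ FR hS.na k R) : σ x ∈ FR hS.na k R' := by
  unfold FR at hx
  induction hx using Subgroup.closure_induction with
  | mem g hg =>
    obtain ⟨β, hβ, t, rfl⟩ := hg
    obtain ⟨γ, hγ, hc⟩ := hR β hβ
    obtain ⟨e', -, he'⟩ := yg_cycle hS.na (k := k) _ _ hc
    rw [ht.map, ← he']
    exact Subgroup.subset_closure ⟨γ, hγ, _, rfl⟩
  | one =>
    rw [map_one]
    exact one_mem _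
  | mul a b _ _ ha hb =>
    rw [map_mul]
    exact mul_mem ha hb
  | inv a _ ha =>
    rw [map_inv]
    exact inv_mem ha

end

end Pool.Agent.H86.UM
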