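import Pool.Agent.H86.UM.Z5
import Pool.Agent.H75.UT.D8

/-!
# Project UM, Suzuki-Ree groups, module Z6: Bruhat decomposition of the folded group and `σ`

`Nw w`: positive roots `β` with `w⁻¹ β` negative; closed; `D.r`-stable if `w` commutes with `rE`.
`GF_bruhat`: `g ∈ Gad`; `StSys.bruhat` and `exists_lp_inv`: `g = u ν b`, `u = lp t`, `t β = 0` unless
`¬ Pos (w⁻¹ β)`, so `u ∈ UR (Nw w)`. As in UT/D8.lean (see the header there) with `θ = 1`, `s(g) = g`: `w` commutes with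
`rE`, we may take `ν ∈ FN` (`exists_nW` or `exists_FN`; change `b`), and then `s(u) = u` (the argument of D8), so
`u ∈ FR (Nw w)` (`UR_fix`), `b = (u ν)⁻¹ g ∈ GF`.
`GF_bruhat_unique`: `w = w'` by `bruhat_unique`; `ν⁻¹ (u⁻¹ u') ν = b b'⁻¹ (ν'⁻¹ ν)` is in the Borel subgroup
(`FN_T`), and in `Um` (it is a product of root elements for the roots `w⁻¹ β`, `β ∈ Nw w`), so `1` (`B_FUm` or
`U_inf_Um`).
`sig_bruhat`: `σ g = g * b₀`: `σ u * σ ν * σ b = u ν (b b₀)`; `σ ν ∈ FN` acts by `w'` with `w' (τ β) ~ τ (w β)`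
(`sig_FN`, `FN_acts`), `σ b` is in the Borel subgroup (`sig_Fil`); `σ u ∈ FR (Nw w')`: for `β ∈ Nw w`
the root `τ β` is positive, and `w'⁻¹ (τ β) ~ τ (w⁻¹ β)` is negative (`sig_FR`, `tau_pos`, `pos_cycle`). So
`w' = w`, `σ u = u` by uniqueness, and `ν⁻¹ σ ν ∈ FT` (`FN_T`).
`sig_bruhat_fix` (`b₀ = 1`): `b = t v` (`B_split`), `ν' = ν t`; `σ ν' σ v = ν' v`, so
`ν'⁻¹ σ ν' = v (σ v)⁻¹ ∈ FT ∩ FU = 1`.
-/

set_option autoImplicit false
open Matrix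

namespace Pool.Agent.H86.UM

open Pool.Agent.H75.UL

variable {n : ℕ} {C : SLC n} {D : Dg C} {t0 : Fin n → Fin n}

/-- the positive roots made negative by `w⁻¹` -/
def Nw (C : SLC n) (w : Equiv.Perm C.Root) : Set C.Root := {β | C.Pos β ∧ ¬ C.Pos (w⁻¹ β)}

private theorem Z6_comm (w : Equiv.Perm C.Root) (hr : D.rE * w * D.rE⁻¹ = w) :
    Commute D.rE w := by
  have h1 : D.rE * w = w * D.rE := by
    calc D.rE * w = (D.rE * w * D.rE⁻¹) * D.rE := by group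
      _ = w * D.rE := by rw [hr]
  exact h1

private theorem Z6_r_inv (w : Equiv.Perm C.Root) (hr : D.rE * w * D.rE⁻¹ = w) (β : C.Root) :
    w⁻¹ (D.r β) = D.r (w⁻¹ β) := by
  have h1 : w⁻¹ * D.rE = D.rE * w⁻¹ := ((Z6_comm w hr).inv_right).eq.symm
  exact congrArg (fun f : Equiv.Perm C.Root => f β) h1

private theorem Z6_comm_inv (w : Equiv.Perm C.Root) (hr : D.rE * w * D.rE⁻¹ = w) :
    D.rE * w⁻¹ * D.rE⁻¹ = w⁻¹ := by
  rw [((Z6_comm w hr).inv_right).eq]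
  group

private theorem Z6_mul {K : Type*} [Field K] (g h : GL C.Idx K)
    (hg : C.Fil 0 (g : Matrix C.Idx C.Idx K)) (hh : C.Fil 0 (h : Matrix C.Idx C.Idx K)) :
    C.Fil 0 ((g * h : GL C.Idx K) : Matrix C.Idx C.Idx K) := by
  have h1 := C.Fil_mul hg hh
  rw [add_zero] at h1
  rw [Units.val_mul]
  exact h1

private theorem Z6_nil {K : Type*} [Field K] (M : Matrix C.Idx C.Idx K) (hM : C.Fil 1 M) :
    IsNilpotent M := by
  obtain ⟨m₀, hm₀⟩ := C.exists_Fil_eq_zero' K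
  have key : ∀ k : ℕ, C.Fil (k : ℤ) (M ^ k) := by
    intro k
    induction k with
    | zero =>
      rw [pow_zero]
      exact C.Fil_one
    | succ k ih =>
      rw [pow_succ]
      have h1 := C.Fil_mul ih hM
      push_cast
      exact h1
  exact ⟨m₀.toNat, hm₀ _ (C.Fil_mono (Int.self_le_toNat m₀) (key m₀.toNat))⟩

private theorem Z6_conj_nil {K : Type*} [Field K] (x ν : GL C.Idx K)
    (h : IsNilpotent ((x : Matrix C.Idx C.Idx K) - 1)) :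
    IsNilpotent (((ν⁻¹ * x * ν : GL C.Idx K) : Matrix C.Idx C.Idx K) - 1) := by
  obtain ⟨k, hk⟩ := h
  refine ⟨k, ?_⟩
  have h1 : ∀ j : ℕ, (((ν⁻¹ * x * ν : GL C.Idx K) : Matrix C.Idx C.Idx K) - 1) ^ j =
      ((ν⁻¹ : GL C.Idx K) : Matrix C.Idx C.Idx K) * ((x : Matrix C.Idx C.Idx K) - 1) ^ j *
        (ν : Matrix C.Idx C.Idx K) := by
    intro j
    induction j with
    | zero =>
      rw [pow_zero, pow_zero, mul_one, ← Units.val_mul, inv_mul_cancel, Units.val_one]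
    | succ j ih =>
      have e : ((ν⁻¹ * x * ν : GL C.Idx K) : Matrix C.Idx C.Idx K) - 1 =
          ((ν⁻¹ : GL C.Idx K) : Matrix C.Idx C.Idx K) * ((x : Matrix C.Idx C.Idx K) - 1) *
            (ν : Matrix C.Idx C.Idx K) := by
        rw [mul_sub, sub_mul, mul_one, Units.val_mul, Units.val_mul, ← Units.val_mul ν⁻¹ ν,
          inv_mul_cancel, Units.val_one]
      have e2 : (ν : Matrix C.Idx C.Idx K) * ((ν⁻¹ : GL C.Idx K) : Matrix C.Idx C.Idx K) = 1 := by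
        rw [← Units.val_mul, mul_inv_cancel, Units.val_one]
      rw [pow_succ, ih, e, pow_succ]
      simp only [mul_assoc]
      rw [← mul_assoc (ν : Matrix C.Idx C.Idx K) _ _, e2, one_mul]
  rw [h1, hk, mul_zero, zero_mul]

/-- The elements whose conjugate by `ν` is in `Um`. -/
private noncomputable def Z6_V {K : Type*} [Field K] (S : StSys C K (GL C.Idx K))
    (ν : GL C.Idx K) : Subgroup (GL C.Idx K) :=
  S.Um.comap (MulAut.conj ν⁻¹).toMonoidHom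

private theorem Z6_mem {K : Type*} [Field K] (S : StSys C K (GL C.Idx K)) (ν x : GL C.Idx K) :
    x ∈ Z6_V S ν ↔ ν⁻¹ * x * ν ∈ S.Um := by
  unfold Z6_V
  rw [Subgroup.mem_comap]
  change ν⁻¹ * x * ν⁻¹⁻¹ ∈ S.Um ↔ _
  rw [inv_inv]

private theorem Z6_root {K : Type*} [Field K] (S : StSys C K (GL C.Idx K)) (ν : GL C.Idx K)
    (w : Equiv.Perm C.Root) (hw : S.Acts ν w) (β : C.Root) (t : K) (h : ¬ C.Pos (w⁻¹ β)) :
    S.x β t ∈ Z6_V S ν := by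
  rw [Z6_mem]
  obtain ⟨c, -, hc⟩ := C.Acts_inv S ν w hw
  have h1 := hc β t
  rw [inv_inv] at h1
  rw [h1]
  refine Subgroup.subset_closure ⟨w⁻¹ β, c β * t, ?_, rfl⟩
  have h2 := C.ht_ne_zero (w⁻¹ β)
  unfold SLC.Pos at h
  omega

theorem Nw_closed (w : Equiv.Perm C.Root) (hw : w ∈ C.W) : ClR C (Nw C w) := by
  refine ⟨fun β hβ => hβ.1, fun α hα β hβ γ hγ => ⟨?_, ?_⟩⟩
  · have h1 := hα.1
    have h2 := hβ.1
    unfold SLC.Pos at h1 h2 ⊢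
    rw [hγ, ht_add]
    omega
  · have h1 := hα.2
    have h2 := hβ.2
    have h3 := C.W_add w⁻¹ (inv_mem hw) α β γ hγ
    unfold SLC.Pos at h1 h2 ⊢
    rw [h3, ht_add]
    omega

theorem Nw_r (w : Equiv.Perm C.Root) (hr : D.rE * w * D.rE⁻¹ = w) :
    ∀ β ∈ Nw C w, D.r β ∈ Nw C w := by
  intro β hβ
  refine ⟨(D.r_pos β).2 hβ.1, ?_⟩
  rw [Z6_r_inv w hr β, D.r_pos]
  exact hβ.2

theorem Nw_cycle (w : Equiv.Perm C.Root) (hr : D.rE * w * D.rE⁻¹ = w) (β γ : C.Root)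
    (h : D.rE.SameCycle β γ) : D.rE.SameCycle (w β) (w γ) ∧ D.rE.SameCycle (w⁻¹ β) (w⁻¹ γ) := by
  obtain ⟨i, hi⟩ := h
  have h1 := ((Z6_comm w hr).zpow_left i).eq
  have h2 := ((Z6_comm w hr).inv_right.zpow_left i).eq
  constructor
  · refine ⟨i, ?_⟩
    have h3 := congrArg (fun f : Equiv.Perm C.Root => f β) h1
    simp only [Equiv.Perm.mul_apply] at h3
    rw [h3, hi]
  · refine ⟨i, ?_⟩
    have h3 := congrArg (fun f : Equiv.Perm C.Root => f β) h2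
    simp only [Equiv.Perm.mul_apply] at h3
    rw [h3, hi]

section
variable (hN : D.NA) {k : Type*} [Field k] [Infinite k]

theorem GF_bruhat (g : GF D k) : ∃ w ∈ C.W, D.rE * w * D.rE⁻¹ = w ∧
    ∃ u ∈ FR hN k (Nw C w), ∃ ν ∈ FN D k, (C.adS k).Acts (ν : GL C.Idx k) w ∧
      ∃ b : GF D k, C.Fil 0 ((b : GL C.Idx k) : Matrix C.Idx C.Idx k) ∧ g = u * ν * b := by
  obtain ⟨hfix, hgG⟩ := mem_GF_fix hN (g : GL C.Idx k) g.2
  have hsig : IsSig D (RingEquiv.refl k) (C.adS k) (D.sgl (RingEquiv.refl k)) := isSig_adS D _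
  have hUG : ∀ x, x ∈ (C.adS k).U 1 → x ∈ C.Gad k := by
    intro x hx
    rw [← C.gen_adS]
    exact (C.adS k).U_le_gen 1 hx
  have hNG : ∀ x, x ∈ (C.adS k).N → x ∈ C.Gad k := by
    intro x hx
    rw [← C.gen_adS]
    exact (C.adS k).N_le_gen hx
  obtain ⟨u₀, hu₀, ν₀, hν₀, v₀, hv₀, hguv⟩ :=
    (C.adS k).bruhat (g : GL C.Idx k) (by rw [C.gen_adS]; exact hgG)
  obtain ⟨w, hw, hact, -⟩ := (C.adS k).N_acts ν₀ hν₀
  obtain ⟨t, ht, b₀, hb₀, hlp⟩ := (C.adS k).exists_lp_inv ν₀ w hact u₀ hu₀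
  set u : GL C.Idx k := (C.adS k).lp C.posList t with hu
  have huU : u ∈ (C.adS k).U 1 := by
    refine Subgroup.list_prod_mem _ ?_
    intro y hy
    obtain ⟨β, hβ, rfl⟩ := List.mem_map.1 hy
    refine Subgroup.subset_closure ⟨β, t β, ?_, rfl⟩
    have := (C.mem_posList β).1 hβ
    unfold SLC.Pos at this
    omega
  set b₁ : GL C.Idx k := b₀ * v₀ with hb₁
  have hb₁U : b₁ ∈ (C.adS k).U 1 := mul_mem hb₀ hv₀
  have hg1 : (g : GL C.Idx k) = u * ν₀ * b₁ := by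
    rw [hguv, hlp, hb₁, mul_assoc _ b₀ v₀]
  have hsb₁ : D.sgl (RingEquiv.refl k) b₁ ∈ (C.adS k).U 1 := hsig.map_U 1 b₁ hb₁U
  -- the Weyl group element commutes with the diagram automorphism
  have hr : D.rE * w * D.rE⁻¹ = w := by
    refine bruhat_unique (D.sgl (RingEquiv.refl k) u) u (D.sgl (RingEquiv.refl k) ν₀) ν₀
      (b₁ * (D.sgl (RingEquiv.refl k) b₁)⁻¹) _ _
      (hsig.map_U 1 u huU) huU (hsig.map_N ν₀ hν₀) hν₀ (hsig.acts ν₀ w hact) hact ?_ ?_ ?_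
    · exact mul_mem (hUG _ hb₁U) (inv_mem (hUG _ hsb₁))
    · exact Z6_mul _ _ (C.Fil_U_zero b₁ hb₁U) (C.Fil_U_zero _ (inv_mem hsb₁))
    · have h1 : D.sgl (RingEquiv.refl k) (u * ν₀ * b₁) = u * ν₀ * b₁ := by
        rw [← hg1]
        exact hfix
      rw [map_mul, map_mul] at h1
      rw [← mul_assoc, ← h1]
      group
  -- replace the monomial element by a fixed one
  obtain ⟨ν, -, hνN', hνact⟩ := exists_FN hN (k := k) w hw hr
  have hνN : (ν : GL C.Idx k) ∈ (C.adS k).N := Subgroup.mem_subgroupOf.1 hνN'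
  have hτT : (ν : GL C.Idx k)⁻¹ * ν₀ ∈ (C.adS k).T := by
    refine C.N_one _ ?_ (mul_mem (inv_mem hνN) hν₀)
    have h1 := C.Acts_mul (C.adS k) (ν : GL C.Idx k)⁻¹ ν₀ w⁻¹ w
      (C.Acts_inv (C.adS k) (ν : GL C.Idx k) w hνact) hact
    rw [inv_mul_cancel] at h1
    exact h1
  set b : GL C.Idx k := (ν : GL C.Idx k)⁻¹ * ν₀ * b₁ with hb
  have hbG : b ∈ C.Gad k := mul_mem (mul_mem (inv_mem (hNG _ hνN)) (hNG _ hν₀)) (hUG _ hb₁U)
  have hb0 : C.Fil 0 (b : Matrix C.Idx C.Idx k) :=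
    Z6_mul _ _ (C.Fil_T _ hτT) (C.Fil_U_zero b₁ hb₁U)
  have hg2 : (g : GL C.Idx k) = u * (ν : GL C.Idx k) * b := by
    rw [hg1, hb]
    group
  have hνfix : D.sgl (RingEquiv.refl k) (ν : GL C.Idx k) = (ν : GL C.Idx k) :=
    (mem_GF_fix hN (ν : GL C.Idx k) ν.2).1
  -- the element `z`
  have hz : (ν : GL C.Idx k)⁻¹ * (u⁻¹ * D.sgl (RingEquiv.refl k) u) * (ν : GL C.Idx k) =
      b * (D.sgl (RingEquiv.refl k) b)⁻¹ := by
    have h1 : D.sgl (RingEquiv.refl k) (u * (ν : GL C.Idx k) * b) = u * (ν : GL C.Idx k) * b := by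
      rw [← hg2]
      exact hfix
    rw [map_mul, map_mul, hνfix] at h1
    have h2 : D.sgl (RingEquiv.refl k) u =
        u * (ν : GL C.Idx k) * b * (D.sgl (RingEquiv.refl k) b)⁻¹ * (ν : GL C.Idx k)⁻¹ := by
      rw [← h1]
      group
    rw [h2]
    group
  have hσb0 : C.Fil 0 ((D.sgl (RingEquiv.refl k) b : GL C.Idx k) : Matrix C.Idx C.Idx k) :=
    (sgl_Fil D (RingEquiv.refl k) 0 b).2 hb0
  have hz0 : C.Fil 0 (((ν : GL C.Idx k)⁻¹ * (u⁻¹ * D.sgl (RingEquiv.refl k) u) *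
      (ν : GL C.Idx k) : GL C.Idx k) : Matrix C.Idx C.Idx k) := by
    rw [hz]
    exact Z6_mul _ _ hb0 (C.upper_inv _ (sgl_Gad D (RingEquiv.refl k) b hbG) hσb0)
  have huσ : u⁻¹ * D.sgl (RingEquiv.refl k) u ∈ (C.adS k).U 1 :=
    mul_mem (inv_mem huU) (hsig.map_U 1 u huU)
  have hzU : (ν : GL C.Idx k)⁻¹ * (u⁻¹ * D.sgl (RingEquiv.refl k) u) * (ν : GL C.Idx k) ∈
      (C.adS k).U 1 := by
    refine C.mem_U_of_unipotent _ ?_ hz0 ?_
    · exact mul_mem (mul_mem (inv_mem (hNG _ hνN)) (hUG _ huσ)) (hNG _ hνN)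
    · exact Z6_conj_nil _ _ (Z6_nil _ (C.Fil_U 1 le_rfl _ huσ))
  have hu1 : u ∈ Z6_V (C.adS k) (ν : GL C.Idx k) := by
    refine Subgroup.list_prod_mem _ ?_
    intro y hy
    obtain ⟨β, hβ, rfl⟩ := List.mem_map.1 hy
    by_cases hp : C.Pos (w⁻¹ β)
    · rw [ht β hp, (C.adS k).x_zero]
      exact one_mem _
    · exact Z6_root (C.adS k) (ν : GL C.Idx k) w hνact β _ hp
  have hu2 : D.sgl (RingEquiv.refl k) u ∈ Z6_V (C.adS k) (ν : GL C.Idx k) := by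
    rw [hu]
    unfold StSys.lp
    rw [map_list_prod, List.map_map]
    refine Subgroup.list_prod_mem _ ?_
    intro y hy
    obtain ⟨β, hβ, rfl⟩ := List.mem_map.1 hy
    rw [Function.comp_apply, hsig β (t β)]
    by_cases hp : C.Pos (w⁻¹ β)
    · rw [ht β hp, map_zero, mul_zero, (C.adS k).x_zero]
      exact one_mem _
    · refine Z6_root (C.adS k) (ν : GL C.Idx k) w hνact _ _ ?_
      rw [Z6_r_inv w hr β, D.r_pos]
      exact hp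
  have hzV : u⁻¹ * D.sgl (RingEquiv.refl k) u ∈ Z6_V (C.adS k) (ν : GL C.Idx k) :=
    mul_mem (inv_mem hu1) hu2
  rw [Z6_mem] at hzV
  have hz1 := U_inf_Um _ hzU hzV
  have hufix : D.sgl (RingEquiv.refl k) u = u := by
    have h1 : u⁻¹ * D.sgl (RingEquiv.refl k) u = 1 := by
      have h2 : (ν : GL C.Idx k) * ((ν : GL C.Idx k)⁻¹ *
          (u⁻¹ * D.sgl (RingEquiv.refl k) u) * (ν : GL C.Idx k)) * (ν : GL C.Idx k)⁻¹ =
          (ν : GL C.Idx k) * 1 * (ν : GL C.Idx k)⁻¹ := by rw [hz1]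
      rw [mul_one, mul_inv_cancel] at h2
      rw [← h2]
      group
    exact (inv_mul_eq_one.1 h1).symm
  have huUR : u ∈ UR C k (Nw C w) := by
    refine Subgroup.list_prod_mem _ ?_
    intro y hy
    obtain ⟨β, hβ, rfl⟩ := List.mem_map.1 hy
    by_cases hp : C.Pos (w⁻¹ β)
    · rw [ht β hp, (C.adS k).x_zero]
      exact one_mem _
    · exact Subgroup.subset_closure ⟨β, ⟨(C.mem_posList β).1 hβ, hp⟩, t β, rfl⟩
  have huGF : u ∈ GF D k := Subgroup.mem_sup_left ⟨huU, hufix⟩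
  refine ⟨w, hw, hr, ⟨u, huGF⟩, ?_, ν, hνN', hνact, ((⟨u, huGF⟩ : GF D k) * ν)⁻¹ * g, ?_, ?_⟩
  · exact (UR_fix hN (Nw_closed w hw) (Nw_r w hr) ⟨u, huGF⟩).1 huUR
  · have h1 : (((((⟨u, huGF⟩ : GF D k) * ν)⁻¹ * g : GF D k)) : GL C.Idx k) = b := by
      change (u * (ν : GL C.Idx k))⁻¹ * (g : GL C.Idx k) = b
      rw [hg2]
      group
    rw [h1]
    exact hb0
  · group

theorem GF_bruhat_unique (w w' : Equiv.Perm C.Root) (hw : w ∈ C.W) (hw' : w' ∈ C.W)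
    (hr : D.rE * w * D.rE⁻¹ = w) (hr' : D.rE * w' * D.rE⁻¹ = w') (u u' ν ν' b b' : GF D k)
    (hu : u ∈ FR hN k (Nw C w)) (hu' : u' ∈ FR hN k (Nw C w')) (hν : ν ∈ FN D k)
    (hν' : ν' ∈ FN D k) (ha : (C.adS k).Acts (ν : GL C.Idx k) w)
    (ha' : (C.adS k).Acts (ν' : GL C.Idx k) w')
    (hb : C.Fil 0 ((b : GL C.Idx k) : Matrix C.Idx C.Idx k))
    (hb' : C.Fil 0 ((b' : GL C.Idx k) : Matrix C.Idx C.Idx k))
    (h : u * ν * b = u' * ν' * b') : w = w' ∧ u = u' := by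
  have hU : ∀ w₁ : Equiv.Perm C.Root, w₁ ∈ C.W → D.rE * w₁ * D.rE⁻¹ = w₁ →
      ∀ x : GF D k, x ∈ FR hN k (Nw C w₁) → (x : GL C.Idx k) ∈ (C.adS k).U 1 :=
    fun w₁ h1 h2 x hx => UR_le_U (Nw_closed w₁ h1).1
      ((UR_fix hN (Nw_closed w₁ h1) (Nw_r w₁ h2) x).2 hx)
  have hG : ∀ x : GF D k, (x : GL C.Idx k) ∈ C.Gad k :=
    fun x => (mem_GF_fix hN (x : GL C.Idx k) x.2).2
  have hFb : C.Fil 0 (((b' * b⁻¹ : GF D k) : GL C.Idx k) : Matrix C.Idx C.Idx k) :=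
    Z6_mul (b' : GL C.Idx k) (b : GL C.Idx k)⁻¹ hb' (C.upper_inv _ (hG b) hb)
  have hww : w = w' := by
    refine bruhat_unique (u : GL C.Idx k) (u' : GL C.Idx k) (ν : GL C.Idx k) (ν' : GL C.Idx k)
      ((b' * b⁻¹ : GF D k) : GL C.Idx k) w w' (hU w hw hr u hu) (hU w' hw' hr' u' hu')
      (Subgroup.mem_subgroupOf.1 hν) (Subgroup.mem_subgroupOf.1 hν') ha ha' (hG _) hFb ?_
    have h1 : u * ν = u' * ν' * (b' * b⁻¹) := by
      rw [← mul_assoc, ← h]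
      group
    exact congrArg (fun x : GF D k => (x : GL C.Idx k)) h1
  subst hww
  refine ⟨rfl, ?_⟩
  have hT : ν'⁻¹ * ν ∈ FT D k := FN_T hN ν' ν hν' hν w ha' ha
  have hz : ν⁻¹ * (u⁻¹ * u') * ν = b * b'⁻¹ * (ν'⁻¹ * ν) := by
    have h1 : u' = u * ν * b * b'⁻¹ * ν'⁻¹ := by
      rw [h]
      group
    rw [h1]
    group
  have hzF : C.Fil 0 (((ν⁻¹ * (u⁻¹ * u') * ν : GF D k) : GL C.Idx k) :
      Matrix C.Idx C.Idx k) := by
    rw [hz]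
    exact Z6_mul ((b : GL C.Idx k) * (b' : GL C.Idx k)⁻¹) _
      (Z6_mul (b : GL C.Idx k) (b' : GL C.Idx k)⁻¹ hb (C.upper_inv _ (hG b') hb'))
      (C.Fil_T _ (Subgroup.mem_subgroupOf.1 hT))
  have hle : FR hN k (Nw C w) ≤ (FUm D k).comap (MulAut.conj ν⁻¹).toMonoidHom := by
    refine (Subgroup.closure_le _).2 ?_
    rintro x ⟨β, hβ, t, rfl⟩
    obtain ⟨c, -, hc⟩ := yg_acts hN ν⁻¹ w⁻¹ (C.Acts_inv (C.adS k) (ν : GL C.Idx k) w ha)
      (Z6_comm_inv w hr)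
    change ν⁻¹ * yg hN β t * ν⁻¹⁻¹ ∈ FUm D k
    rw [hc β t]
    exact yg_npos hN (w⁻¹ β) hβ.2 _
  have hzU : ν⁻¹ * (u⁻¹ * u') * ν ∈ FUm D k := by
    have h1 : u⁻¹ * u' ∈ (FUm D k).comap (MulAut.conj ν⁻¹).toMonoidHom :=
      hle (mul_mem (inv_mem hu) hu')
    have h2 : ν⁻¹ * (u⁻¹ * u') * ν⁻¹⁻¹ ∈ FUm D k := h1
    rw [inv_inv] at h2
    exact h2
  have hz1 := B_FUm hN _ hzF hzU
  have h3 : u⁻¹ * u' = 1 := by
    have h2 : ν * (ν⁻¹ * (u⁻¹ * u') * ν) * ν⁻¹ = ν * 1 * ν⁻¹ := by rw [hz1]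
    rw [mul_one, mul_inv_cancel] at h2
    rw [← h2]
    group
  exact inv_mul_eq_one.1 h3

omit [Infinite k] in
private theorem Z6_acts_T (ν τ : GF D k) (w : Equiv.Perm C.Root)
    (ha : (C.adS k).Acts (ν : GL C.Idx k) w) (hτ : τ ∈ FT D k) :
    (C.adS k).Acts ((ν * τ : GF D k) : GL C.Idx k) w := by
  obtain ⟨c, hc, -, h1⟩ := (C.adS k).T_acts' (τ : GL C.Idx k) (Subgroup.mem_subgroupOf.1 hτ)
  have h2 : (C.adS k).Acts (τ : GL C.Idx k) 1 := ⟨c, hc, h1⟩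
  have h3 := C.Acts_mul (C.adS k) (ν : GL C.Idx k) (τ : GL C.Idx k) w 1 ha h2
  rw [mul_one] at h3
  exact h3

omit [Infinite k] in
private theorem Z6_FT_le_FN : FT D k ≤ FN D k := by
  intro x hx
  exact Subgroup.mem_subgroupOf.2 ((C.adS k).T_le_N (Subgroup.mem_subgroupOf.1 hx))

end

variable (hS : Swap D t0) {k : Type*} [Field k] [Infinite k] {θ : k ≃+* k}
  {σ : GF D k →* GF D k} (h : SRs D t0 θ σ)

include h

theorem sig_bruhat {τ : C.Root → C.Root} {e : C.Root → ℤ} (ht : SRt hS.na t0 θ σ τ e)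
    (g b₀ : GF D k) (hg : σ g = g * b₀)
    (hb₀ : C.Fil 0 ((b₀ : GL C.Idx k) : Matrix C.Idx C.Idx k)) :
    ∃ w ∈ C.W, D.rE * w * D.rE⁻¹ = w ∧ (∀ β, D.rE.SameCycle (w (τ β)) (τ (w β))) ∧
    ∃ u ∈ FR hS.na k (Nw C w), σ u = u ∧
      ∃ ν ∈ FN D k, (C.adS k).Acts (ν : GL C.Idx k) w ∧ ν⁻¹ * σ ν ∈ FT D k ∧
      ∃ b : GF D k, C.Fil 0 ((b : GL C.Idx k) : Matrix C.Idx C.Idx k) ∧ g = u * ν * b := by
  obtain ⟨w, hw, hr, u, hu, ν, hν, ha, b, hb, hgu⟩ := GF_bruhat hS.na g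
  obtain ⟨hσν, hrel⟩ := sig_FN hS h ht ν hν
  obtain ⟨w', hw', hr', ha'⟩ := FN_acts hS.na (σ ν) hσν
  have hrel' := hrel w w' ha ha'
  have hσu : σ u ∈ FR hS.na k (Nw C w') := by
    refine sig_FR hS h ht (Nw C w) (Nw C w') ?_ u hu
    intro β hβ
    refine ⟨τ β, ⟨(tau_pos hS ht.tau β).2 hβ.1, ?_⟩, Equiv.Perm.SameCycle.refl _ _⟩
    have h1 := hrel' (w⁻¹ β)
    have h2 : w (w⁻¹ β) = β := w.apply_symm_apply β
    rw [h2] at h1
    have h3 := (Nw_cycle w' hr' _ _ h1).2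
    have h4 : w'⁻¹ (w' (τ (w⁻¹ β))) = τ (w⁻¹ β) := w'.symm_apply_apply _
    rw [h4] at h3
    rw [← pos_cycle _ _ h3, tau_pos hS ht.tau]
    exact hβ.2
  have hσb : C.Fil 0 ((σ b : GL C.Idx k) : Matrix C.Idx C.Idx k) := (sig_Fil hS h b).2 hb
  have hbb : C.Fil 0 (((b * b₀ : GF D k) : GL C.Idx k) : Matrix C.Idx C.Idx k) :=
    Z6_mul (b : GL C.Idx k) (b₀ : GL C.Idx k) hb hb₀
  have heq : σ u * σ ν * σ b = u * ν * (b * b₀) := by
    rw [← map_mul, ← map_mul, ← hgu, hg, hgu]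
    group
  obtain ⟨hww, huu⟩ := GF_bruhat_unique hS.na w' w hw' hw hr' hr (σ u) u (σ ν) ν (σ b) (b * b₀)
    hσu hu hσν hν ha' ha hσb hbb heq
  subst hww
  exact ⟨w', hw', hr', hrel', u, hu, huu, ν, hν, ha,
    FN_T hS.na ν (σ ν) hν hσν w' ha ha', b, hb, hgu⟩

theorem sig_bruhat_fix {τ : C.Root → C.Root} {e : C.Root → ℤ} (ht : SRt hS.na t0 θ σ τ e)
    (g : GF D k) (hg : σ g = g) :
    ∃ w ∈ C.W, D.rE * w * D.rE⁻¹ = w ∧ (∀ β, D.rE.SameCycle (w (τ β)) (τ (w β))) ∧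
    ∃ u ∈ FR hS.na k (Nw C w), σ u = u ∧
      ∃ ν ∈ FN D k, (C.adS k).Acts (ν : GL C.Idx k) w ∧ σ ν = ν ∧
      ∃ v ∈ FU D k, σ v = v ∧ g = u * ν * v := by
  have h1 : C.Fil 0 (((1 : GF D k) : GL C.Idx k) : Matrix C.Idx C.Idx k) := by
    change C.Fil 0 (((1 : GL C.Idx k)) : Matrix C.Idx C.Idx k)
    rw [Units.val_one]
    exact C.Fil_one
  obtain ⟨w, hw, hr, hrel, u, hu, huu, ν, hν, ha, hT, b, hb, hgu⟩ :=
    sig_bruhat hS h ht g 1 (by rw [hg, mul_one]) h1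
  obtain ⟨⟨t, htT, v, hv, hbt⟩, -⟩ := B_split hS.na b hb
  have hνt : ν * t ∈ FN D k := mul_mem hν (Z6_FT_le_FN htT)
  have hat : (C.adS k).Acts ((ν * t : GF D k) : GL C.Idx k) w := Z6_acts_T ν t w ha htT
  have hσt : σ t ∈ FT D k := (sig_FT hS h t).2 htT
  have hTσ : (ν * t)⁻¹ * σ (ν * t) ∈ FT D k := by
    have h2 : (ν * t)⁻¹ * σ (ν * t) = t⁻¹ * (ν⁻¹ * σ ν) * σ t := by
      rw [map_mul]
      group
    rw [h2]
    exact mul_mem (mul_mem (inv_mem htT) hT) hσt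
  have hσv : σ v ∈ FU D k := (sig_FU hS h v).2 hv
  have heq : (ν * t)⁻¹ * σ (ν * t) = v * (σ v)⁻¹ := by
    have h2 : σ g = g := hg
    rw [hgu, hbt, map_mul, map_mul, map_mul, huu] at h2
    have h3 : σ ν = u⁻¹ * (u * ν * (t * v)) * (σ v)⁻¹ * (σ t)⁻¹ := by
      rw [← h2]
      group
    rw [map_mul, h3]
    group
  have hone : (ν * t)⁻¹ * σ (ν * t) = 1 := by
    refine FT_FU hS.na _ hTσ ?_
    rw [heq]
    exact mul_mem hv (inv_mem hσv)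
  refine ⟨w, hw, hr, hrel, u, hu, huu, ν * t, hνt, hat, (inv_mul_eq_one.1 hone).symm, v, hv, ?_, ?_⟩
  · rw [hone] at heq
    exact (mul_inv_eq_one.1 heq.symm).symm
  · rw [hgu, hbt]
    group

end Pool.Agent.H86.UM
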