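import Pool.Agent.H86.UM.Z5

/-!
# Project UM, Suzuki-Ree groups, module ZJ1: root groups `XJ`, orthogonal type (`A₁ × A₁`)

`i` a short node, `t0 i` not joined to `i` (hence not to the nodes of the orbit of `i`). A positive root supported on
`JJ i` (the orbit of `i` and `t0 i`) is simple (`RJ_orth`: the nodes of `JJ i` are pairwise not joined (`NA`, `ip_orb`),
so `ip β β = 2 ∑ (β_j)^2`). `FR (RJ i)` consists of the products `yg α_i t * yg α_(t0 i) u`, which commute;
`σ` maps this to `yg α_(t0 i) (θ t) * yg α_i (θ⁻¹ u)` (`sig_yg`; `t0 (t0 i)` is in the cycle of `i`); compare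
(`yg_inj`, or `xi_yg`). Negative roots: in the same way.
`XJ_congr`: `RJ i = RJ j` if `JJ i j`. `XJ_le`, `XmJ_le`: definitions, `FU_eq`.
-/

set_option autoImplicit false
open Matrix

namespace Pool.Agent.H86.UM

open Pool.Agent.H75.UL

variable {n : ℕ} {C : SLC n} {D : Dg C} {t0 : Fin n → Fin n} (hS : Swap D t0)
  {k : Type*} [Field k] [Infinite k] {θ : k ≃+* k} {σ : GF D k →* GF D k}

theorem ZJ1_iter_ip (l : ℕ) (α β : C.Root) :
    C.ip (D.r^[l] α).1 (D.r^[l] β).1 = C.ip α.1 β.1 := by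
  induction l with
  | zero => rfl
  | succ l ih => rw [Function.iterate_succ_apply', Function.iterate_succ_apply', D.r_ip, ih]

theorem ZJ1_iter_neg (l : ℕ) (β : C.Root) : D.r^[l] (-β) = -(D.r^[l] β) := by
  induction l with
  | zero => rfl
  | succ l ih => rw [Function.iterate_succ_apply', Function.iterate_succ_apply', ih, D.r_neg]

theorem ZJ1_iter_fix (l : ℕ) (β : C.Root) (h : D.r β = β) : D.r^[l] β = β := by
  induction l with
  | zero => rfl
  | succ l ih => rw [Function.iterate_succ_apply', ih, h]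

theorem ZJ1_factor (β : C.Root) (t : k) (l : ℕ) :
    (D.sgl (RingEquiv.refl k))^[l] ((C.adS k).x β t) =
      C.xg k (D.r^[l] β) ((D.sgp l β : k) * t) := by
  have h := (isSig_adS D (RingEquiv.refl k)).iter l β t
  rw [h, SLC.adS_x]
  have h2 : (⇑(RingEquiv.refl k))^[l] t = t := by
    have : (⇑(RingEquiv.refl k)) = id := rfl
    rw [this, Function.iterate_id, id]
  rw [h2]

theorem ZJ1_yg_comm (hN : D.NA) (β γ : C.Root)
    (h : ∀ l l' : ℕ, 0 ≤ C.ip (D.r^[l] β).1 (D.r^[l'] γ).1) (t u : k) :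
    yg hN β t * yg hN γ u = yg hN γ u * yg hN β t := by
  apply Subtype.ext
  rw [Subgroup.coe_mul, Subgroup.coe_mul, yg_val, yg_val]
  unfold yb
  change Commute _ _
  apply Commute.list_prod_right
  intro y hy
  apply Commute.list_prod_left
  intro x hx
  rw [List.mem_map] at hx hy
  obtain ⟨l, -, rfl⟩ := hx
  obtain ⟨l', -, rfl⟩ := hy
  rw [ZJ1_factor, ZJ1_factor]
  exact C.xg_comm k _ _ _ _ (h l l')

theorem ZJ1_neg_neg (β : C.Root) : - -β = β := by
  apply SLC.Root.ext
  rw [SLC.Root.neg_val, SLC.Root.neg_val, neg_neg]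

theorem ZJ1_cyc_neg (β γ : C.Root) (h : D.rE.SameCycle β γ) : D.rE.SameCycle (-β) (-γ) := by
  obtain ⟨z, hz⟩ := h
  refine ⟨z, ?_⟩
  rw [← hz]
  have key : ∀ (l : ℕ) (β : C.Root), (D.rE ^ l) (-β) = -((D.rE ^ l) β) := by
    intro l
    induction l with
    | zero => intro β; rfl
    | succ l ih =>
      intro β
      rw [pow_succ, Equiv.Perm.mul_apply, Equiv.Perm.mul_apply, Dg.rE_apply, Dg.rE_apply,
        D.r_neg, ih]
  rcases Int.eq_nat_or_neg z with ⟨l, rfl | rfl⟩
  · rw [zpow_natCast, key]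
  · rw [_root_.zpow_neg, zpow_natCast]
    apply (D.rE ^ l).injective
    rw [← Equiv.Perm.mul_apply, mul_inv_cancel, Equiv.Perm.one_apply, key,
      ← Equiv.Perm.mul_apply, mul_inv_cancel, Equiv.Perm.one_apply]

include hS in
theorem RJ_congr (i j : Fin n) (hij : JJ D t0 i j) : RJ D t0 i = RJ D t0 j := by
  have h1 : ∀ β : C.Root, suppJ D t0 i β ↔ suppJ D t0 j β := by
    intro β
    constructor
    · intro h l hl
      exact JJ_trans hS j i l (JJ_symm hS i j hij) (h l hl)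
    · intro h l hl
      exact JJ_trans hS i j l hij (h l hl)
  ext β
  exact and_congr_right fun _ => h1 β

theorem XJ_congr (i j : Fin n) (hij : JJ D t0 i j) : XJ hS.na t0 σ i = XJ hS.na t0 σ j ∧
    XmJ hS.na t0 σ i = XmJ hS.na t0 σ j := by
  unfold XJ XmJ
  rw [RJ_congr hS i j hij]
  exact ⟨rfl, rfl⟩

include hS in
/-- a short node in the same class -/
theorem exists_short (i : Fin n) : ∃ j, JJ D t0 i j ∧ D.ρ j ≠ j := by
  by_cases h : D.ρ i = i
  · refine ⟨t0 i, Or.inr (Equiv.Perm.SameCycle.refl _ _), ?_⟩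
    intro h2
    exact ((hS.fix_iff i).mp h2) h
  · exact ⟨i, JJ_refl i, h⟩

theorem XJ_le (i : Fin n) : XJ hS.na t0 σ i ≤ FU D k ⊓ Fx σ ∧
    XmJ hS.na t0 σ i ≤ FUm D k ⊓ Fx σ := by
  constructor
  · unfold XJ
    rw [FU_FR hS.na]
    exact inf_le_inf_right _ (FR_mono hS.na fun β hβ => hβ.1)
  · unfold XmJ
    rw [FUm_FR hS.na]
    refine inf_le_inf_right _ (FR_mono hS.na fun β hβ => ?_)
    have h1 : C.Pos (-β) := hβ.1
    exact (C.not_pos_iff β).mpr h1

theorem ZJ1_cyc (i j : Fin n) (h : D.ρ.SameCycle i j) :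
    D.rE.SameCycle (C.simple i) (C.simple j) := by
  obtain ⟨z, hz⟩ := h
  refine ⟨z, ?_⟩
  rw [← hz]
  have key : ∀ (l : ℕ) (i : Fin n), (D.rE ^ l) (C.simple i) = C.simple ((D.ρ ^ l) i) := by
    intro l
    induction l with
    | zero => intro i; rfl
    | succ l ih =>
      intro i
      rw [pow_succ, Equiv.Perm.mul_apply, pow_succ, Equiv.Perm.mul_apply, Dg.rE_apply,
        D.r_simple, ih]
  rcases Int.eq_nat_or_neg z with ⟨l, rfl | rfl⟩
  · rw [zpow_natCast, zpow_natCast, key]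
  · rw [_root_.zpow_neg, zpow_natCast, _root_.zpow_neg, zpow_natCast]
    apply (D.rE ^ l).injective
    rw [← Equiv.Perm.mul_apply, mul_inv_cancel, Equiv.Perm.one_apply, key,
      ← Equiv.Perm.mul_apply, mul_inv_cancel, Equiv.Perm.one_apply]

theorem ZJ1_orth (hN : D.NA) (i : Fin n) (hf : D.ρ (t0 i) = t0 i) (ha : C.A i (t0 i) = 0)
    (j l : Fin n) (hj : JJ D t0 i j) (hl : JJ D t0 i l) (hjl : j ≠ l) : C.A j l = 0 := by
  have hcyc0 : ∀ a b : Fin n, D.ρ.SameCycle a b → ∃ q : ℕ, q < D.m ∧ b = (D.ρ ^ q) a := by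
    intro a b h
    obtain ⟨q, hq, h2⟩ := h.exists_pow_eq'
    exact ⟨q, hq, h2.symm⟩
  have hfix : ∀ a : Fin n, D.ρ.SameCycle (t0 i) a → a = t0 i := by
    intro a h
    obtain ⟨z, hz⟩ := h
    rw [← hz]
    exact (Function.IsFixedPt.perm_zpow hf z)
  have hA : ∀ (q : ℕ) (a b : Fin n), C.A ((D.ρ ^ q) a) ((D.ρ ^ q) b) = C.A a b := by
    intro q
    induction q with
    | zero => intro a b; rfl
    | succ q ih => intro a b; rw [pow_succ', Equiv.Perm.mul_apply, Equiv.Perm.mul_apply, D.hρ, ih]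
  have hcross : ∀ a : Fin n, D.ρ.SameCycle i a → C.A a (t0 i) = 0 := by
    intro a h
    obtain ⟨q, -, rfl⟩ := hcyc0 i a h
    have h1 := hA q i (t0 i)
    have h2 : (D.ρ ^ q) (t0 i) = t0 i := by
      have := Function.IsFixedPt.perm_zpow hf (q : ℤ)
      rw [zpow_natCast] at this
      exact this
    rw [h2] at h1
    rw [h1, ha]
  rcases hj with hj | hj <;> rcases hl with hl | hl
  · have h3 : D.ρ.SameCycle j l := hj.symm.trans hl
    obtain ⟨q, hq, rfl⟩ := hcyc0 j l h3
    have hq0 : 0 < q := by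
      rcases Nat.eq_zero_or_pos q with rfl | h
      · exact absurd rfl hjl
      · exact h
    have hr : D.r (C.simple j) ≠ C.simple j := by
      intro h4
      rw [D.r_simple] at h4
      have h5 := C.simple_injective h4
      apply hjl
      have := Function.IsFixedPt.perm_zpow h5 (q : ℤ)
      rw [zpow_natCast] at this
      exact this.symm
    have h4 := D.ip_orb (C.simple j) hr q hq0 hq
    rw [D.ip_r_NA hN _ hr] at h4
    have h5 : ∀ q : ℕ, D.r^[q] (C.simple j) = C.simple ((D.ρ ^ q) j) := by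
      intro q
      induction q with
      | zero => rfl
      | succ q ih =>
        rw [Function.iterate_succ_apply', ih, D.r_simple, pow_succ', Equiv.Perm.mul_apply]
    rw [h5, SLC.simple_val, SLC.simple_val, C.ip_single] at h4
    exact h4
  · rw [hfix l hl]
    exact hcross j hj
  · rw [hfix j hj, C.symm]
    exact hcross l hl
  · exact absurd ((hfix j hj).trans (hfix l hl).symm) hjl

section
variable (h : SRs D t0 θ σ) (i : Fin n) (hi : D.ρ i ≠ i) (ha : C.A i (t0 i) = 0)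

include hi ha hS in
theorem RJ_orth (β : C.Root) (hβ : β ∈ RJ D t0 i) :
    D.rE.SameCycle (C.simple i) β ∨ β = C.simple (t0 i) := by
  obtain ⟨hpos, hsupp⟩ := hβ
  have hf : D.ρ (t0 i) = t0 i := (hS.fix_iff i).mpr hi
  -- the nodes are pairwise orthogonal
  have horth : ∀ j l, JJ D t0 i j → JJ D t0 i l → j ≠ l → C.A j l = 0 :=
    ZJ1_orth hS.na i hf ha
  have h1 : ∀ j, β.1 j ≠ 0 → C.ip (Pi.single j 1) β.1 = 2 * β.1 j := by
    intro j hj
    rw [C.ip_comm, ← C.sum_ip_single]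
    rw [Finset.sum_eq_single j]
    · rw [C.ip_single, C.diag, mul_comm]
    · intro l _ hl
      by_cases h0 : β.1 l = 0
      · rw [h0, zero_mul]
      · rw [C.ip_single, horth l j (hsupp l h0) (hsupp j hj) hl, mul_zero]
    · intro h
      exact absurd (Finset.mem_univ _) h
  have h2 : ∑ j, β.1 j * (2 * β.1 j) = 2 := by
    have h3 := C.sum_ip_single β.1 β.1
    rw [β.2] at h3
    refine Eq.trans ?_ h3
    apply Finset.sum_congr rfl
    intro j _
    by_cases h0 : β.1 j = 0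
    · rw [h0]; ring
    · rw [h1 j h0]
  have hnn := (C.pos_iff β).mp hpos
  obtain ⟨j, hj⟩ : ∃ j, β.1 j ≠ 0 := by
    by_contra hcon
    push Not at hcon
    exact C.root_ne_zero β (funext hcon)
  have hj1 : 1 ≤ β.1 j := by
    have := hnn j
    omega
  have h4 : β.1 j * (2 * β.1 j) + ∑ l ∈ Finset.univ.erase j, β.1 l * (2 * β.1 l) = 2 :=
    (Finset.add_sum_erase Finset.univ (fun l => β.1 l * (2 * β.1 l)) (Finset.mem_univ j)).trans h2
  have h5 : ∀ l ∈ Finset.univ.erase j, 0 ≤ β.1 l * (2 * β.1 l) := by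
    intro l _
    nlinarith [sq_nonneg (β.1 l)]
  have h6 := Finset.sum_nonneg h5
  have h7 : ∑ l ∈ Finset.univ.erase j, β.1 l * (2 * β.1 l) = 0 := by nlinarith
  have h8 := (Finset.sum_eq_zero_iff_of_nonneg h5).mp h7
  have h9 : β.1 j = 1 := by nlinarith
  have h10 : β = C.simple j := by
    apply SLC.Root.ext
    rw [SLC.simple_val]
    funext l
    by_cases hlj : l = j
    · subst hlj
      rw [h9, Pi.single_eq_same]
    · rw [Pi.single_eq_of_ne hlj]
      have h11 := h8 l (Finset.mem_erase.mpr ⟨hlj, Finset.mem_univ l⟩)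
      have h12 : β.1 l * β.1 l = 0 := by linarith
      exact mul_self_eq_zero.mp h12
  rcases hsupp j hj with h | h
  · left
    rw [h10]
    exact ZJ1_cyc i j h
  · right
    rw [h10]
    congr 1
    obtain ⟨z, hz⟩ := h
    rw [← hz]
    exact (Function.IsFixedPt.perm_zpow hf z)

include hi ha in
theorem orth_comm (t u : k) :
    yg hS.na (C.simple i) t * yg hS.na (C.simple (t0 i)) u =
      yg hS.na (C.simple (t0 i)) u * yg hS.na (C.simple i) t ∧
    yg hS.na (-(C.simple i)) t * yg hS.na (-(C.simple (t0 i))) u =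
      yg hS.na (-(C.simple (t0 i))) u * yg hS.na (-(C.simple i)) t ∧
    yg hS.na (C.simple i) t * yg hS.na (-(C.simple (t0 i))) u =
      yg hS.na (-(C.simple (t0 i))) u * yg hS.na (C.simple i) t ∧
    yg hS.na (-(C.simple i)) t * yg hS.na (C.simple (t0 i)) u =
      yg hS.na (C.simple (t0 i)) u * yg hS.na (-(C.simple i)) t := by
  have hf : D.ρ (t0 i) = t0 i := (hS.fix_iff i).mpr hi
  have hr : D.r (C.simple (t0 i)) = C.simple (t0 i) := by rw [D.r_simple, hf]
  have h1 : ∀ l l' : ℕ, C.ip (D.r^[l] (C.simple i)).1 (D.r^[l'] (C.simple (t0 i))).1 = 0 := by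
    intro l l'
    rw [ZJ1_iter_fix l' _ hr, ← ZJ1_iter_fix l _ hr, ZJ1_iter_ip, SLC.simple_val, SLC.simple_val,
      C.ip_single, ha]
  refine ⟨ZJ1_yg_comm hS.na _ _ ?_ t u, ZJ1_yg_comm hS.na _ _ ?_ t u,
    ZJ1_yg_comm hS.na _ _ ?_ t u, ZJ1_yg_comm hS.na _ _ ?_ t u⟩ <;> intro l l'
  · rw [h1]
  · rw [ZJ1_iter_neg, ZJ1_iter_neg, SLC.Root.neg_val, SLC.Root.neg_val, C.ip_neg_neg, h1]
  · rw [ZJ1_iter_neg, SLC.Root.neg_val, C.ip_neg_right, h1, neg_zero]
  · rw [ZJ1_iter_neg, SLC.Root.neg_val, C.ip_neg_left, h1, neg_zero]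

theorem ZJ1_form (hN : D.NA) (a b : C.Root) (R : Set C.Root)
    (hcomm : ∀ t u : k, yg hN a t * yg hN b u = yg hN b u * yg hN a t)
    (hR : ∀ β ∈ R, D.rE.SameCycle a β ∨ β = b) (haR : a ∈ R) (hbR : b ∈ R)
    (hσa : ∀ t, σ (yg hN a t) = yg hN b (θ t)) (hσb : ∀ u, σ (yg hN b u) = yg hN a (θ.symm u))
    (hra : D.r a ≠ a) (hrb : D.r b = b) (x : GF D k) :
    x ∈ FR hN k R ⊓ Fx σ ↔ ∃ t, x = yg hN a t * yg hN b (θ t) := by
  constructor
  · rintro ⟨hx, hfx⟩
    have hform : ∃ t u, x = yg hN a t * yg hN b u := by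
      clear hfx
      unfold FR at hx
      induction hx using Subgroup.closure_induction with
      | mem x hx =>
        obtain ⟨β, hβ, t, rfl⟩ := hx
        rcases hR β hβ with h | h
        · obtain ⟨e, he, h2⟩ := yg_cycle (k := k) hN a β h
          refine ⟨(e : k) * t, 0, ?_⟩
          rw [yg_zero, mul_one, ← h2, ← mul_assoc]
          have h3 : (e : k) * (e : k) = 1 := by
            rcases he with rfl | rfl <;> simp
          rw [h3, one_mul]
        · exact ⟨0, t, by rw [yg_zero, one_mul, h]⟩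
      | one => exact ⟨0, 0, by rw [yg_zero, yg_zero, one_mul]⟩
      | mul x y _ _ hx hy =>
        obtain ⟨t, u, rfl⟩ := hx
        obtain ⟨t', u', rfl⟩ := hy
        refine ⟨t + t', u + u', ?_⟩
        rw [yg_add, yg_add, mul_assoc, ← mul_assoc (yg hN b u), ← hcomm t' u]
        simp only [mul_assoc]
      | inv x _ hx =>
        obtain ⟨t, u, rfl⟩ := hx
        refine ⟨-t, -u, ?_⟩
        rw [hcomm (-t) (-u), yg_neg, yg_neg, _root_.mul_inv_rev]
    obtain ⟨t, u, rfl⟩ := hform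
    have h1 : σ (yg hN a t * yg hN b u) = yg hN a t * yg hN b u := hfx
    rw [map_mul, hσa, hσb, ← hcomm] at h1
    -- `yg a (θ⁻¹ u) * yg b (θ t) = yg a t * yg b u`
    have h2 : yg hN a (θ.symm u - t) = yg hN b (u - θ t) := by
      have h3 : yg hN a (θ.symm u) = yg hN a t * yg hN b (u - θ t) := by
        rw [sub_eq_add_neg, yg_add, yg_neg, ← mul_assoc, ← h1, mul_inv_cancel_right]
      rw [sub_eq_add_neg (θ.symm u), yg_add, yg_neg, h3, hcomm, mul_inv_cancel_right]
    have h3 : θ.symm u - t = 0 := by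
      by_contra hne
      have h4 := (yg_inj hN a b _ _ hne h2).1
      exact hra ((fix_cycle a b h4).mpr hrb)
    have h5 : u = θ t := by
      rw [sub_eq_zero] at h3
      rw [← h3, RingEquiv.apply_symm_apply]
    exact ⟨t, by rw [h5]⟩
  · rintro ⟨t, rfl⟩
    refine ⟨mul_mem (Subgroup.subset_closure ⟨a, haR, t, rfl⟩)
      (Subgroup.subset_closure ⟨b, hbR, θ t, rfl⟩), ?_⟩
    change σ (yg hN a t * yg hN b (θ t)) = yg hN a t * yg hN b (θ t)
    rw [map_mul, hσa, hσb, RingEquiv.symm_apply_apply, hcomm]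

theorem ZJ1_mem (hS : Swap D t0) (i : Fin n) : C.simple i ∈ RJ D t0 i ∧
    C.simple (t0 i) ∈ RJ D t0 i := by
  constructor
  · refine ⟨C.simple_pos i, fun j hj => ?_⟩
    rw [SLC.simple_val] at hj
    have : j = i := by
      by_contra hne
      exact hj (Pi.single_eq_of_ne hne _)
    rw [this]
    exact JJ_refl i
  · refine ⟨C.simple_pos _, fun j hj => ?_⟩
    rw [SLC.simple_val] at hj
    have : j = t0 i := by
      by_contra hne
      exact hj (Pi.single_eq_of_ne hne _)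
    rw [this]
    exact Or.inr (Equiv.Perm.SameCycle.refl _ _)

include h hi in
/-- `σ` on the root elements of `± simple i` and `± simple (t0 i)` -/
theorem ZJ1_sig (t : k) :
    σ (yg hS.na (C.simple i) t) = yg hS.na (C.simple (t0 i)) (θ t) ∧
    σ (yg hS.na (C.simple (t0 i)) t) = yg hS.na (C.simple i) (θ.symm t) ∧
    σ (yg hS.na (-(C.simple i)) t) = yg hS.na (-(C.simple (t0 i))) (θ t) ∧
    σ (yg hS.na (-(C.simple (t0 i))) t) = yg hS.na (-(C.simple i)) (θ.symm t) := by
  have hf : D.ρ (t0 i) = t0 i := (hS.fix_iff i).mpr hi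
  have hr : D.r (C.simple (t0 i)) = C.simple (t0 i) := by rw [D.r_simple, hf]
  have hra : D.r (C.simple i) ≠ C.simple i := by
    rw [D.r_simple]
    intro h3
    exact hi (C.simple_injective h3)
  have e1 : ∀ t : k, th D θ (C.simple i) t = θ t := fun t => by
    unfold th
    rw [if_neg hra]
  have e2 : ∀ t : k, th D θ (C.simple (t0 i)) t = θ.symm t := fun t => by
    unfold th
    rw [if_pos hr]
  have hc : D.ρ.SameCycle (t0 (t0 i)) i := (hS.inv i).symm
  have h1 := sig_yg hS h i t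
  have h2 := sig_yg hS h (t0 i) t
  rw [e1] at h1
  rw [e2] at h2
  have h3 := yg_cycle_simple hS.na (t0 (t0 i)) i hc (θ.symm t)
  rw [h3.1, h3.2] at h2
  exact ⟨h1.1, h2.1, h1.2, h2.2⟩

include h hi ha in
theorem XJ_orth (x : GF D k) : x ∈ XJ hS.na t0 σ i ↔
    ∃ t, x = yg hS.na (C.simple i) t * yg hS.na (C.simple (t0 i)) (θ t) := by
  have hf : D.ρ (t0 i) = t0 i := (hS.fix_iff i).mpr hi
  have hr : D.r (C.simple (t0 i)) = C.simple (t0 i) := by rw [D.r_simple, hf]
  have hra : D.r (C.simple i) ≠ C.simple i := by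
    rw [D.r_simple]
    intro h3
    exact hi (C.simple_injective h3)
  exact ZJ1_form hS.na (C.simple i) (C.simple (t0 i)) (RJ D t0 i)
    (fun t u => (orth_comm hS i hi ha t u).1) (fun β hβ => RJ_orth hS i hi ha β hβ)
    (ZJ1_mem hS i).1 (ZJ1_mem hS i).2 (fun t => (ZJ1_sig hS h i hi t).1)
    (fun t => (ZJ1_sig hS h i hi t).2.1) hra hr x

include h hi ha in
theorem XmJ_orth (x : GF D k) : x ∈ XmJ hS.na t0 σ i ↔
    ∃ t, x = yg hS.na (-(C.simple i)) t * yg hS.na (-(C.simple (t0 i))) (θ t) := by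
  have hf : D.ρ (t0 i) = t0 i := (hS.fix_iff i).mpr hi
  have hr : D.r (-(C.simple (t0 i))) = -(C.simple (t0 i)) := by rw [D.r_neg, D.r_simple, hf]
  have hra : D.r (-(C.simple i)) ≠ -(C.simple i) := by
    rw [D.r_neg, D.r_simple]
    intro h3
    have h4 : C.simple (D.ρ i) = C.simple i := by
      have h5 := congrArg (fun β : C.Root => -β) h3
      simp only [ZJ1_neg_neg] at h5
      exact h5
    exact hi (C.simple_injective h4)
  refine ZJ1_form hS.na (-(C.simple i)) (-(C.simple (t0 i))) {β | -β ∈ RJ D t0 i}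
    (fun t u => (orth_comm hS i hi ha t u).2.1) ?_ ?_ ?_
    (fun t => (ZJ1_sig hS h i hi t).2.2.1) (fun t => (ZJ1_sig hS h i hi t).2.2.2) hra hr x
  · intro β hβ
    rcases RJ_orth hS i hi ha (-β) hβ with h1 | h1
    · left
      have h2 := ZJ1_cyc_neg _ _ h1
      rwa [ZJ1_neg_neg] at h2
    · right
      rw [← h1, ZJ1_neg_neg]
  · change - -(C.simple i) ∈ RJ D t0 i
    rw [ZJ1_neg_neg]
    exact (ZJ1_mem hS i).1
  · change - -(C.simple (t0 i)) ∈ RJ D t0 i
    rw [ZJ1_neg_neg]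
    exact (ZJ1_mem hS i).2

end

end Pool.Agent.H86.UM
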