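import Pool.Agent.H86.UM.Z6
import Pool.Agent.H86.UM.ZJ1

/-!
# Project UM, Suzuki-Ree groups, module Z7: the elements `ν_J`

Sets of roots: `RJ i`, `RcJ i` are closed, stable under `D.r`, disjoint, `RJ i ∪ RcJ i` = positive roots, and
`RcJ i` is an ideal: `α` positive, `β ∈ RcJ i`, `γ = α + β`: `γ ∈ RcJ i` (a coordinate `> 0` outside `JJ i`; positive
roots have nonnegative coordinates, `pos_iff`); also for `α = -α'`, `α' ∈ RJ i`.

`w_inv`: `w` commutes with `rE` and with `τ` up to cycles; if `w α_i` is negative then so are `w α_(ρ i)`,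
`w α_(t0 i)` (`tau_simple`, `tau_pos`, `Nw_cycle`), so `w α_j` for all `j ∈ JJ i`, so `w β` for `β ∈ RJ i`
(`W_lin`, `pos_iff`: `w β = ∑ β_j w α_j`, all nonpositive).

`exists_nuJ`: let `y ∈ XmJ i`, `y ≠ 1`. `sig_bruhat_fix`: `y = u ν v`, `ν` acts by `w`.
(1) `w ≠ 1`: otherwise `ν ∈ FT` (`FN_T` with `1`), `y` is in the Borel subgroup and in `FUm`, so `1` (`B_FUm`).
(2) `y` normalises `UR (RcJ i)`: `y` is a product of ambient root elements `x_(-β)(t)`, `β ∈ RJ i` (`UR_fix` is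
for positive roots; here only: `yg (-β) t` is a product of `x_(-r^l β)`), and for `γ ∈ RcJ i` the commutator
of `x_(-β)` and `x_γ` is trivial or a root element for `γ - β ∈ RcJ i` (`ip = -2` is impossible). `u, v ∈ FU`
normalise it (`UR_normal`). So `ν` does: `x_(w γ)(c) ∈ UR (RcJ i)`, `c ≠ 0`, so `w γ ∈ RcJ i` for `γ ∈ RcJ i`
(`UR_x`). So (finite) `w` permutes `RcJ i`, and `-RcJ i`, hence `RJ i ∪ -RJ i`.
(3) As `w ≠ 1` there is `j` with `w α_j` negative (`eq_one_of_pos`), `j ∈ JJ i` by (2), so `w β` is negative for all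
`β ∈ RJ j = RJ i` (`w_inv`), hence `-(w β) ∈ RJ i`.
(4) `Nw w = RJ i` (the same statements hold for `w⁻¹`), so `u ∈ XJ i`.
(5) `v ∈ XJ i`: `FR_split` (`R = {Pos}`, `A = RJ i`, `B = RcJ i`): `v = a b`. `ν⁻¹, u⁻¹, y, a⁻¹` preserve
the grading of the index set by `d(β) = ∑_{j ∉ JJ i} β_j` (`d = 0` on the Cartan part): a matrix `M` is
`d`-homogeneous if `M x y = 0` unless `d x = d y`; `x_β(t)` with `± β ∈ RJ i` is homogeneous, and so is `ν` (`N_mono`:
`ν` maps the root space of `γ` to that of `w γ` and the Cartan part to itself; and `d (w γ) = d γ` for all `γ`: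
`d (w γ) - d γ` is additive in `γ` (`W_lin`), zero for `γ ∈ RJ i`; for `j ∉ JJ i`: `w α_j ∈ RcJ i`, so
`d (w α_j) ≥ 1 = d α_j`; so `d (w γ) ≥ d γ` for all positive `γ`; and the sum over `γ ∈ RcJ i` of both sides is the
same as `w` permutes `RcJ i`, so equality holds there). Products and inverses of homogeneous matrices are homogeneous. So
`b = a⁻¹ ν⁻¹ u⁻¹ y` is homogeneous, and `b - 1` strictly increases `d` (product of `x_γ(t)`, `γ ∈ RcJ i`,
`d γ ≥ 1`); so `b = 1`.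
`XmJ_ne`: there is `y ≠ 1`: orthogonal type: `XmJ_orth` with `t = 1`. Other types: hypothesis `hne` here.
-/

set_option autoImplicit false
open Matrix

namespace Pool.Agent.H86.UM

open Pool.Agent.H75.UL

variable {n : ℕ} {C : SLC n} {D : Dg C} {t0 : Fin n → Fin n}

private theorem Z7_cyc (β : C.Root) : D.rE.SameCycle β (D.r β) := ⟨1, by simp⟩

private theorem Z7_supp_r (i : Fin n) (β : C.Root) :
    suppJ D t0 i (D.r β) ↔ suppJ D t0 i β :=
  (suppJ_cycle i β (D.r β) (Z7_cyc β)).symm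

theorem RJ_closed (i : Fin n) : ClR C (RJ D t0 i) ∧ ClR C (RcJ D t0 i) ∧
    (∀ β ∈ RJ D t0 i, D.r β ∈ RJ D t0 i) ∧ (∀ β ∈ RcJ D t0 i, D.r β ∈ RcJ D t0 i) ∧
    {β : C.Root | C.Pos β} = RJ D t0 i ∪ RcJ D t0 i ∧ (∀ β ∈ RJ D t0 i, β ∉ RcJ D t0 i) ∧
    (∀ α : C.Root, C.Pos α → ∀ β ∈ RcJ D t0 i, ∀ γ : C.Root, γ.1 = α.1 + β.1 →
      γ ∈ RcJ D t0 i) ∧
    ∀ α ∈ RJ D t0 i, ∀ β ∈ RcJ D t0 i, ∀ γ : C.Root, γ.1 = -α.1 + β.1 →
      γ ∈ RcJ D t0 i := by
  have hpos : ∀ α β γ : C.Root, C.Pos α → C.Pos β → γ.1 = α.1 + β.1 → C.Pos γ := by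
    intro α β γ h1 h2 h
    unfold SLC.Pos at *
    rw [h, ht_add]
    omega
  have hns : ∀ β : C.Root, ¬ suppJ D t0 i β → ∃ j, β.1 j ≠ 0 ∧ ¬ JJ D t0 i j := by
    intro β h
    unfold suppJ at h
    push Not at h
    exact h
  have hid : ∀ α : C.Root, C.Pos α → ∀ β ∈ RcJ D t0 i, ∀ γ : C.Root, γ.1 = α.1 + β.1 →
      γ ∈ RcJ D t0 i := by
    intro α h1 β hβ γ h
    refine ⟨hpos α β γ h1 hβ.1 h, fun hs => ?_⟩
    obtain ⟨j, hj, hJ⟩ := hns β hβ.2
    have h2 := (C.pos_iff α).mp h1 j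
    have h3 := (C.pos_iff β).mp hβ.1 j
    apply hJ
    apply hs
    rw [h, Pi.add_apply]
    omega
  refine ⟨⟨fun β h => h.1, ?_⟩, ⟨fun β h => h.1, ?_⟩, ?_, ?_, ?_, ?_, hid, ?_⟩
  · rintro α ⟨h1, h2⟩ β ⟨h3, h4⟩ γ h
    refine ⟨hpos α β γ h1 h3 h, fun j hj => ?_⟩
    rw [h, Pi.add_apply] at hj
    by_cases h5 : α.1 j = 0
    · exact h4 j (by omega)
    · exact h2 j h5
  · exact fun α h1 => hid α h1.1
  · rintro β ⟨h1, h2⟩
    exact ⟨(D.r_pos β).mpr h1, (Z7_supp_r i β).mpr h2⟩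
  · rintro β ⟨h1, h2⟩
    exact ⟨(D.r_pos β).mpr h1, fun h3 => h2 ((Z7_supp_r i β).mp h3)⟩
  · ext β
    simp only [Set.mem_ofPred_eq, Set.mem_union, RJ, RcJ]
    tauto
  · exact fun β h1 h2 => h2.2 h1.2
  · intro α hα β hβ γ h
    obtain ⟨j, hj, hJ⟩ := hns β hβ.2
    have h2 : α.1 j = 0 := by
      by_contra h3
      exact hJ (hα.2 j h3)
    have h3 := (C.pos_iff β).mp hβ.1 j
    have h4 : γ.1 j = β.1 j := by
      rw [h, Pi.add_apply, Pi.neg_apply, h2]
      omega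
    refine ⟨?_, fun hs => hJ (hs j (by omega))⟩
    rcases C.pos_or_neg γ with h5 | h5
    · exact (C.pos_iff γ).mpr h5
    · exfalso
      have := h5 j
      omega

private theorem Z7_coord (w : Equiv.Perm C.Root) (hw : w ∈ C.W) (β : C.Root) (l : Fin n) :
    (w β).1 l = ∑ j, β.1 j * (w (C.simple j)).1 l := by
  obtain ⟨f, hf, -⟩ := C.W_lin w hw
  have e : β.1 = ∑ j, β.1 j • (C.simple j).1 := by
    funext l
    simp [Finset.sum_apply, Pi.single_apply]
  rw [hf]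
  conv_lhs => rw [e]
  rw [map_sum, Finset.sum_apply]
  refine Finset.sum_congr rfl fun j _ => ?_
  rw [map_zsmul, ← hf]
  simp

private theorem Z7_simple_cyc (a b : Fin n) (h : D.ρ.SameCycle a b) :
    D.rE.SameCycle (C.simple a) (C.simple b) := by
  obtain ⟨l, _, hl⟩ := h.exists_pow_eq'
  refine ⟨(l : ℤ), ?_⟩
  rw [zpow_natCast, ← Equiv.Perm.iterate_eq_pow]
  have h1 : (⇑D.rE)^[l] (C.simple a) = D.r^[l] (C.simple a) := rfl
  rw [h1, D.r_iter_simple, hl]

private theorem Z7_pos_JJ (hS : Swap D t0) {τ : C.Root → C.Root} (hτ : IsTau D t0 τ)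
    (w : Equiv.Perm C.Root) (hr : D.rE * w * D.rE⁻¹ = w)
    (hc : ∀ β, D.rE.SameCycle (w (τ β)) (τ (w β))) (i j : Fin n) (hj : JJ D t0 i j) :
    C.Pos (w (C.simple j)) ↔ C.Pos (w (C.simple i)) := by
  rcases hj with hj | hj
  · exact (pos_cycle _ _ (Nw_cycle w hr _ _ (Z7_simple_cyc i j hj)).1).symm
  · have h1 := pos_cycle _ _ (Nw_cycle w hr _ _ (Z7_simple_cyc (t0 i) j hj)).1
    have h2 := pos_cycle _ _ (Nw_cycle w hr _ _ (tau_simple hS hτ i)).1
    have h3 := pos_cycle _ _ (hc (C.simple i))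
    have h4 := tau_pos hS hτ (w (C.simple i))
    rw [← h1, ← h2, h3, h4]

theorem w_inv (hS : Swap D t0) {τ : C.Root → C.Root} (hτ : IsTau D t0 τ)
    (w : Equiv.Perm C.Root) (hw : w ∈ C.W) (hr : D.rE * w * D.rE⁻¹ = w)
    (hc : ∀ β, D.rE.SameCycle (w (τ β)) (τ (w β))) (i : Fin n)
    (hi : ¬ C.Pos (w (C.simple i))) : ∀ β ∈ RJ D t0 i, ¬ C.Pos (w β) := by
  intro β hβ hp
  have h0 : ∀ l, (w β).1 l ≤ 0 := by
    intro l
    rw [Z7_coord w hw]
    apply Finset.sum_nonpos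
    intro j _
    by_cases h : β.1 j = 0
    · rw [h, zero_mul]
    · have h1 := Z7_pos_JJ hS hτ w hr hc i j (hβ.2 j h)
      have h2 : ¬ C.Pos (w (C.simple j)) := fun h3 => hi (h1.mp h3)
      have h3 := (C.pos_iff _).mp ((C.not_pos_iff _).mp h2) l
      have h4 := (C.pos_iff β).mp hβ.1 j
      rw [SLC.Root.neg_val, Pi.neg_apply] at h3
      exact mul_nonpos_of_nonneg_of_nonpos h4 (by omega)
  have h1 : ht (w β).1 ≤ 0 := Finset.sum_nonpos fun l _ => h0 l
  unfold SLC.Pos at hp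
  omega

theorem w_inv' (hS : Swap D t0) {τ : C.Root → C.Root} (hτ : IsTau D t0 τ)
    (w : Equiv.Perm C.Root) (hw : w ∈ C.W) (hr : D.rE * w * D.rE⁻¹ = w)
    (hc : ∀ β, D.rE.SameCycle (w (τ β)) (τ (w β))) (i : Fin n)
    (hi : C.Pos (w (C.simple i))) : ∀ β ∈ RJ D t0 i, C.Pos (w β) := by
  intro β hβ
  rw [C.pos_iff]
  intro l
  rw [Z7_coord w hw]
  apply Finset.sum_nonneg
  intro j _
  by_cases h : β.1 j = 0
  · rw [h, zero_mul]
  · have h1 := Z7_pos_JJ hS hτ w hr hc i j (hβ.2 j h)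
    have h3 := (C.pos_iff _).mp (h1.mpr hi) l
    have h4 := (C.pos_iff β).mp hβ.1 j
    exact mul_nonneg h4 h3

/-- `w` acts like the longest element of the parabolic subgroup belonging to `JJ i` -/
structure IswJ (D : Dg C) (t0 : Fin n → Fin n) (i : Fin n) (w : Equiv.Perm C.Root) : Prop where
  pos : ∀ β ∈ RJ D t0 i, -(w β) ∈ RJ D t0 i
  out : ∀ β ∈ RcJ D t0 i, w β ∈ RcJ D t0 i

private theorem Z7_surj (R : Set C.Root) (f : C.Root → C.Root) (hf : Function.Injective f)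
    (hR : ∀ β ∈ R, f β ∈ R) : ∀ β ∈ R, ∃ γ ∈ R, f γ = β := by
  intro β hβ
  have h1 : Function.Injective (fun x : R => (⟨f x.1, hR x.1 x.2⟩ : R)) := by
    intro a b h
    exact Subtype.ext (hf (congrArg Subtype.val h))
  obtain ⟨⟨γ, hγ⟩, h2⟩ := (Finite.injective_iff_surjective.1 h1) ⟨β, hβ⟩
  exact ⟨γ, hγ, congrArg Subtype.val h2⟩

private theorem Z7_neg_inj : Function.Injective (fun β : C.Root => -β) := by
  intro a b h
  have h1 : -(-a) = -(-b) := congrArg (fun x : C.Root => -x) h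
  rwa [C.neg_neg_root, C.neg_neg_root] at h1

theorem IswJ.inv {i : Fin n} {w : Equiv.Perm C.Root} (hw : w ∈ C.W) (h : IswJ D t0 i w) :
    IswJ D t0 i w⁻¹ := by
  constructor
  · intro β hβ
    obtain ⟨γ, hγ, h1⟩ := Z7_surj (RJ D t0 i) (fun β => -(w β))
      (fun a b hab => w.injective (Z7_neg_inj hab)) h.pos β hβ
    have h2 : w⁻¹ β = -γ := by
      rw [← h1, C.W_neg w⁻¹ (Subgroup.inv_mem _ hw)]
      congr 1
      exact w.symm_apply_apply γ
    rw [h2, C.neg_neg_root]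
    exact hγ
  · intro β hβ
    obtain ⟨γ, hγ, h1⟩ := Z7_surj (RcJ D t0 i) w w.injective h.out β hβ
    have h2 : w⁻¹ β = γ := by
      rw [← h1]
      exact w.symm_apply_apply γ
    rw [h2]
    exact hγ

theorem IswJ.unique {i : Fin n} {w w' : Equiv.Perm C.Root} (hw : w ∈ C.W) (hw' : w' ∈ C.W)
    (h : IswJ D t0 i w) (h' : IswJ D t0 i w') : w = w' := by
  have h1 := h.inv hw
  have hwi := Subgroup.inv_mem _ hw
  have h2 : w⁻¹ * w' = 1 := by
    apply C.eq_one_of_pos _ (Subgroup.mul_mem _ hwi hw')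
    intro j
    rw [Equiv.Perm.mul_apply]
    by_cases hj : suppJ D t0 i (C.simple j)
    · have h3 := h'.pos (C.simple j) ⟨C.simple_pos j, hj⟩
      have h4 := h1.pos _ h3
      rw [C.W_neg _ hwi, C.neg_neg_root] at h4
      exact h4.1
    · have h3 := h'.out (C.simple j) ⟨C.simple_pos j, hj⟩
      exact (h1.out _ h3).1
  exact (inv_mul_eq_one.mp h2)

section
variable {k : Type*} [Field k]

private theorem Z7_iter_mem (R : Set C.Root) (hr : ∀ β ∈ R, D.r β ∈ R) (β : C.Root)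
    (hβ : β ∈ R) (l : ℕ) : D.r^[l] β ∈ R := by
  induction l with
  | zero => exact hβ
  | succ l ih =>
    rw [Function.iterate_succ_apply']
    exact hr _ ih

private theorem Z7_yg_UR (hN : D.NA) (R : Set C.Root) (hr : ∀ β ∈ R, D.r β ∈ R) (β : C.Root)
    (hβ : β ∈ R) (t : k) : ((yg hN β t : GF D k) : GL C.Idx k) ∈ UR C k R := by
  rw [yg_val]
  unfold yb
  apply Subgroup.list_prod_mem
  intro g hg
  obtain ⟨l, _, rfl⟩ := List.mem_map.mp hg
  have hs : IsSig D (RingEquiv.refl k) (C.adS k) (D.sgl (RingEquiv.refl k)) := isSig_adS D _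
  rw [hs.iter l β t]
  exact Subgroup.subset_closure ⟨D.r^[l] β, Z7_iter_mem R hr β hβ l, _, rfl⟩

private theorem Z7_FR_UR (hN : D.NA) (R : Set C.Root) (hr : ∀ β ∈ R, D.r β ∈ R) (x : GF D k)
    (hx : x ∈ FR hN k R) : (x : GL C.Idx k) ∈ UR C k R := by
  have h1 : FR hN k R ≤ (UR C k R).comap (Subgroup.subtype (GF D k)) := by
    unfold FR
    rw [Subgroup.closure_le]
    rintro g ⟨β, hβ, t, rfl⟩
    exact Z7_yg_UR hN R hr β hβ t
  exact h1 hx

private theorem Z7_norm (R B : Set C.Root) (hn : ∀ α ∈ R, ∀ β ∈ B, β ≠ -α)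
    (hI : ∀ α ∈ R, ∀ β ∈ B, ∀ γ : C.Root, γ.1 = α.1 + β.1 → γ ∈ B) (g : GL C.Idx k)
    (hg : g ∈ UR C k R) : ∀ u ∈ UR C k B, g * u * g⁻¹ ∈ UR C k B ∧ g⁻¹ * u * g ∈ UR C k B := by
  have key : ∀ α ∈ R, ∀ s : k, ∀ u ∈ UR C k B,
      C.xg k α s * u * (C.xg k α s)⁻¹ ∈ UR C k B := by
    intro α hα s u hu
    unfold UR at hu
    induction hu using Subgroup.closure_induction with
    | mem x hx =>
      obtain ⟨β, hβ, t, rfl⟩ := hx
      have hb : C.xg k β t ∈ UR C k B := Subgroup.subset_closure ⟨β, hβ, t, rfl⟩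
      by_cases hip : 0 ≤ C.ip α.1 β.1
      · rw [C.xg_comm k α β s t hip, mul_inv_cancel_right]
        exact hb
      · rcases C.ip_cases α β with h1 | h1 | h1 | h1 | h1
        · exact absurd ((C.ip_eq_neg_two_iff α β).mp h1) (hn α hα β hβ)
        · obtain ⟨γ, hγ⟩ := C.exists_add α β h1
          have h2 := C.xg_comm_add k α β γ s t hγ
          have h3 : C.xg k α s * C.xg k β t * (C.xg k α s)⁻¹ =
              C.xg k γ (C.eps α.1 β.1 * s * t) * C.xg k β t := by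
            rw [← h2]
            group
          rw [h3]
          exact Subgroup.mul_mem _ (Subgroup.subset_closure ⟨γ, hI α hα β hβ γ hγ, _, rfl⟩) hb
        all_goals omega
    | one => simp
    | mul x y _ _ hx hy =>
      have e : C.xg k α s * (x * y) * (C.xg k α s)⁻¹ =
          (C.xg k α s * x * (C.xg k α s)⁻¹) * (C.xg k α s * y * (C.xg k α s)⁻¹) := by group
      rw [e]
      exact Subgroup.mul_mem _ hx hy
    | inv x _ hx =>
      have e : C.xg k α s * x⁻¹ * (C.xg k α s)⁻¹ = (C.xg k α s * x * (C.xg k α s)⁻¹)⁻¹ := by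
        group
      rw [e]
      exact Subgroup.inv_mem _ hx
  unfold UR at hg
  induction hg using Subgroup.closure_induction with
  | mem x hx =>
    obtain ⟨α, hα, s, rfl⟩ := hx
    intro u hu
    refine ⟨key α hα s u hu, ?_⟩
    have h1 := key α hα (-s) u hu
    have h2 : C.xg k α (-s) = (C.xg k α s)⁻¹ := (C.adS k).x_neg α s
    rwa [h2, inv_inv] at h1
  | one => intro u hu; simpa using hu
  | mul x y _ _ hx hy =>
    intro u hu
    have e1 : x * y * u * (x * y)⁻¹ = x * (y * u * y⁻¹) * x⁻¹ := by group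
    have e2 : (x * y)⁻¹ * u * (x * y) = y⁻¹ * (x⁻¹ * u * x) * y := by group
    rw [e1, e2]
    exact ⟨(hx _ (hy u hu).1).1, (hy _ (hx u hu).2).2⟩
  | inv x _ hx =>
    intro u hu
    rw [inv_inv]
    exact ⟨(hx u hu).2, (hx u hu).1⟩

private theorem Z7_comm (v : Fin n → ℤ) (R : Set C.Root) (hR : ∀ β ∈ R, C.ip v β.1 = 0)
    (s : k) (hs : s ≠ 0) (g : GL C.Idx k) (hg : g ∈ UR C k R) :
    (C.adS k).tor v s * g * ((C.adS k).tor v s)⁻¹ = g := by
  unfold UR at hg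
  induction hg using Subgroup.closure_induction with
  | mem x hx =>
    obtain ⟨β, hβ, t, rfl⟩ := hx
    have h1 := (C.adS k).tor_conj v s hs β t
    rw [hR β hβ, zpow_zero, one_mul] at h1
    exact h1
  | one => simp
  | mul x y _ _ hx hy =>
    calc (C.adS k).tor v s * (x * y) * ((C.adS k).tor v s)⁻¹
        = ((C.adS k).tor v s * x * ((C.adS k).tor v s)⁻¹) *
          ((C.adS k).tor v s * y * ((C.adS k).tor v s)⁻¹) := by group
      _ = x * y := by rw [hx, hy]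
  | inv x _ hx =>
    calc (C.adS k).tor v s * x⁻¹ * ((C.adS k).tor v s)⁻¹
        = ((C.adS k).tor v s * x * ((C.adS k).tor v s)⁻¹)⁻¹ := by group
      _ = x⁻¹ := by rw [hx]

private theorem Z7_exists_pow [Infinite k] (N : ℤ) (hN : N ≠ 0) :
    ∃ s : k, s ≠ 0 ∧ s ^ N ≠ 1 := by
  classical
  obtain ⟨s, hs⟩ := Infinite.exists_notMem_finset
    (insert 0 (Polynomial.nthRoots N.natAbs (1 : k)).toFinset)
  rw [Finset.mem_insert, not_or, Multiset.mem_toFinset,
    Polynomial.mem_nthRoots (by omega)] at hs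
  refine ⟨s, hs.1, fun h => hs.2 ?_⟩
  rcases Int.natAbs_eq N with h1 | h1
  · rw [h1, zpow_natCast] at h
    exact h
  · rw [h1, _root_.zpow_neg, inv_eq_one, zpow_natCast] at h
    exact h

end

variable (hS : Swap D t0) {k : Type*} [Field k] [Infinite k] {θ : k ≃+* k}
  {σ : GF D k →* GF D k} (h : SRs D t0 θ σ)

include h

theorem nuJ_of_opp (i : Fin n) (y : GF D k) (hy : y ∈ XmJ hS.na t0 σ i) (hy1 : y ≠ 1) :
    ∃ u ∈ XJ hS.na t0 σ i, ∃ v ∈ XJ hS.na t0 σ i, ∃ ν ∈ FN D k, σ ν = ν ∧ y = u * ν * v ∧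
      ∃ w ∈ C.W, IswJ D t0 i w ∧ (C.adS k).Acts (ν : GL C.Idx k) w := by
  classical
  obtain ⟨τ, e, ht⟩ := exists_tau hS h
  obtain ⟨hy2, hy3⟩ := hy
  obtain ⟨hA, hB, hAr, hBr, hAB, hd, hI, hI'⟩ := RJ_closed (C := C) (D := D) (t0 := t0) i
  obtain ⟨w, hw, hr, hc, u, hu, hsu, ν, hν, hact, hsν, v, hv, hsv, hyuv⟩ :=
    sig_bruhat_fix hS h ht y hy3
  -- the negative roots
  have hnr : ∀ β ∈ {β : C.Root | -β ∈ RJ D t0 i}, D.r β ∈ {β : C.Root | -β ∈ RJ D t0 i} := by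
    intro β hβ
    have h1 := hAr _ hβ
    rw [D.r_neg] at h1
    exact h1
  have hyU : (y : GL C.Idx k) ∈ UR C k {β : C.Root | -β ∈ RJ D t0 i} :=
    Z7_FR_UR hS.na _ hnr y hy2
  have hposr : ∀ β ∈ {β : C.Root | C.Pos β}, D.r β ∈ {β : C.Root | C.Pos β} :=
    fun β hβ => (D.r_pos β).mpr hβ
  have huFU : u ∈ FU D k := by
    rw [FU_FR hS.na]
    exact FR_mono hS.na (fun β hβ => hβ.1) hu
  have huU : (u : GL C.Idx k) ∈ UR C k {β : C.Root | C.Pos β} := by
    rw [FU_FR hS.na] at huFU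
    exact Z7_FR_UR hS.na _ hposr u huFU
  have hvU : (v : GL C.Idx k) ∈ UR C k {β : C.Root | C.Pos β} := by
    have h1 := hv
    rw [FU_FR hS.na] at h1
    exact Z7_FR_UR hS.na _ hposr v h1
  have hNy := Z7_norm {β : C.Root | -β ∈ RJ D t0 i} (RcJ D t0 i)
    (fun α hα β hβ h1 => hd _ (show -α ∈ RJ D t0 i from hα) (h1 ▸ hβ))
    (fun α hα β hβ γ hγ => hI' (-α) hα β hβ γ (by
      rw [hγ, SLC.Root.neg_val, neg_neg])) _ hyU
  have hNp := fun g hg => Z7_norm (k := k) {β : C.Root | C.Pos β} (RcJ D t0 i)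
    (fun α hα β hβ h1 => by
      have h2 := (C.not_pos_iff α).not.mp (by simpa using hα)
      rw [← h1] at h2
      exact h2 hβ.1)
    (fun α hα β hβ γ hγ => hI α hα β hβ γ hγ) g hg
  have hyGL : (y : GL C.Idx k) = (u : GL C.Idx k) * (ν : GL C.Idx k) * (v : GL C.Idx k) := by
    rw [hyuv]
    rfl
  have hνeq : (ν : GL C.Idx k) = (u : GL C.Idx k)⁻¹ * (y : GL C.Idx k) * (v : GL C.Idx k)⁻¹ := by
    rw [hyGL]
    group
  -- `w` preserves `RcJ`
  have hout : ∀ γ ∈ RcJ D t0 i, w γ ∈ RcJ D t0 i := by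
    intro γ hγ
    obtain ⟨c, hc0, hc1⟩ := hact
    have h1 := hc1 γ 1
    have h2 : C.xg k γ (1 : k) ∈ UR C k (RcJ D t0 i) :=
      Subgroup.subset_closure ⟨γ, hγ, 1, rfl⟩
    have h3 := (hNp _ huU _ (hNy _ (hNp _ hvU _ h2).2).1).2
    have h4 : (ν : GL C.Idx k) * C.xg k γ (1 : k) * (ν : GL C.Idx k)⁻¹ ∈ UR C k (RcJ D t0 i) := by
      have e1 : (ν : GL C.Idx k) * C.xg k γ (1 : k) * (ν : GL C.Idx k)⁻¹ =
          (u : GL C.Idx k)⁻¹ * ((y : GL C.Idx k) * ((v : GL C.Idx k)⁻¹ * C.xg k γ (1 : k) *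
            (v : GL C.Idx k)) * (y : GL C.Idx k)⁻¹) * (u : GL C.Idx k) := by
        rw [hνeq]
        group
      rw [e1]
      exact h3
    have h5 : C.xg k (w γ) (c γ * 1) ∈ UR C k (RcJ D t0 i) := by
      have h6 : C.xg k (w γ) (c γ * 1) =
          (ν : GL C.Idx k) * C.xg k γ (1 : k) * (ν : GL C.Idx k)⁻¹ := h1.symm
      rw [h6]
      exact h4
    exact UR_x hB (w γ) (c γ * 1) (by rw [mul_one]; exact hc0 γ) h5
  -- `w ≠ 1`
  have hw1 : w ≠ 1 := by
    intro hw1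
    apply hy1
    have hyB : C.Fil 0 ((y : GL C.Idx k) : Matrix C.Idx C.Idx k) := by
      have h1 : (ν : GL C.Idx k) ∈ (C.adS k).T := C.N_one _ (hw1 ▸ hact) hν
      have h2 := C.Fil_T _ h1
      have h3 := FU_Fil hS.na u huFU
      have h4 := FU_Fil hS.na v hv
      rw [hyGL, Units.val_mul, Units.val_mul]
      have h5 := C.Fil_mul (C.Fil_mul h3 h2) h4
      simpa using h5
    refine B_FUm hS.na y hyB ?_
    rw [FUm_FR hS.na]
    refine FR_mono hS.na (fun β hβ => ?_) hy2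
    have h1 : C.Pos (-β) := hβ.1
    exact (C.not_pos_iff β).mpr h1
  -- `w` is `w_J`
  have hpos : ∀ β ∈ RJ D t0 i, -(w β) ∈ RJ D t0 i := by
    have h1 : ∃ j, ¬ C.Pos (w (C.simple j)) := by
      by_contra h2
      push Not at h2
      exact hw1 (C.eq_one_of_pos w hw h2)
    obtain ⟨j, hj⟩ := h1
    have h2 : suppJ D t0 i (C.simple j) := by
      by_contra h3
      exact hj (hout _ ⟨C.simple_pos j, h3⟩).1
    have h3 : JJ D t0 i j := h2 j (by simp)
    have h4 := RJ_congr hS i j h3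
    intro β hβ
    have h5 := w_inv hS ht.tau w hw hr hc j hj β (h4 ▸ hβ)
    have h6 : -(w β) ∈ RJ D t0 i ∪ RcJ D t0 i := by
      rw [← hAB]
      exact (C.not_pos_iff _).mp h5
    rcases h6 with h6 | h6
    · exact h6
    · exfalso
      obtain ⟨γ, hγ, h7⟩ := Z7_surj (RcJ D t0 i) w w.injective hout _ h6
      have h8 : γ = -β := by
        apply w.injective
        rw [h7, C.W_neg w hw]
      have h9 : C.Pos (-β) := h8 ▸ hγ.1
      exact ((C.not_pos_iff β).mpr h9) hβ.1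
  have hJ : IswJ D t0 i w := ⟨hpos, hout⟩
  have hNw : Nw C w = RJ D t0 i := by
    have hinv := hJ.inv hw
    ext β
    constructor
    · rintro ⟨h1, h2⟩
      have h3 : β ∈ RJ D t0 i ∪ RcJ D t0 i := by
        rw [← hAB]
        exact h1
      rcases h3 with h3 | h3
      · exact h3
      · exact absurd (hinv.out β h3).1 h2
    · intro h1
      exact ⟨h1.1, (C.not_pos_iff _).mpr (hinv.pos β h1).1⟩
  rw [hNw] at hu
  -- `v`
  have hvR : v ∈ FR hS.na k {β : C.Root | C.Pos β} := by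
    rw [← FU_FR hS.na]
    exact hv
  obtain ⟨a, ha, b, hb, hab⟩ := FR_split hS.na ClR_pos hA hB hAr hBr hAB hd
    (fun α hα β hβ γ hγ => hI α hα β hβ γ hγ) v hvR
  have hb1 : b = 1 := by
    obtain ⟨v0, hv0⟩ := C.exists_coweight (fun j => if JJ D t0 i j then 0 else 1)
    have hip : ∀ β : C.Root, C.ip v0 β.1 =
        C.A.det * ∑ j, β.1 j * (if JJ D t0 i j then 0 else 1) := by
      intro β
      rw [C.ip_comm, ← C.sum_ip_single, Finset.mul_sum]
      refine Finset.sum_congr rfl fun j _ => ?_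
      rw [hv0]
      ring
    have hip0 : ∀ β : C.Root, suppJ D t0 i β → C.ip v0 β.1 = 0 := by
      intro β hβ
      rw [hip, Finset.sum_eq_zero, mul_zero]
      intro j _
      by_cases h1 : β.1 j = 0
      · rw [h1, zero_mul]
      · rw [if_pos (hβ j h1), mul_zero]
    have hip1 : ∀ β ∈ RcJ D t0 i, C.ip v0 β.1 ≠ 0 := by
      intro β hβ
      rw [hip]
      refine mul_ne_zero C.det_ne_zero (ne_of_gt ?_)
      obtain ⟨j, hj, hJ⟩ : ∃ j, β.1 j ≠ 0 ∧ ¬ JJ D t0 i j := by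
        have h1 := hβ.2
        unfold suppJ at h1
        push Not at h1
        exact h1
      have hnn := (C.pos_iff β).mp hβ.1
      apply Finset.sum_pos'
      · intro l _
        have := hnn l
        split_ifs
        · simp
        · simpa using this
      · refine ⟨j, Finset.mem_univ j, ?_⟩
        have := hnn j
        rw [if_neg hJ, mul_one]
        omega
    have huR : (u : GL C.Idx k) ∈ UR C k (RJ D t0 i) := Z7_FR_UR hS.na _ hAr u hu
    have haR : (a : GL C.Idx k) ∈ UR C k (RJ D t0 i) := Z7_FR_UR hS.na _ hAr a ha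
    have hbR : (b : GL C.Idx k) ∈ UR C k (RcJ D t0 i) := Z7_FR_UR hS.na _ hBr b hb
    have haU1 : (a : GL C.Idx k) ∈ (C.adS k).U 1 := UR_le_U (fun β hβ => hβ.1) haR
    have hbU1 : (b : GL C.Idx k) ∈ (C.adS k).U 1 := UR_le_U (fun β hβ => hβ.1) hbR
    have hvGL : (v : GL C.Idx k) = (a : GL C.Idx k) * (b : GL C.Idx k) := by
      rw [hab]
      rfl
    have hbeq : (b : GL C.Idx k) = (a : GL C.Idx k)⁻¹ * (ν : GL C.Idx k)⁻¹ *
        (u : GL C.Idx k)⁻¹ * (y : GL C.Idx k) := by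
      rw [hyGL, hvGL]
      group
    have hνN : (ν : GL C.Idx k) ∈ (C.adS k).N := hν
    have key : ∀ s : k, s ≠ 0 → (C.adS k).tor v0 s * (b : GL C.Idx k) *
        ((C.adS k).tor v0 s)⁻¹ = b := by
      intro s hs
      have ey := Z7_comm v0 {β : C.Root | -β ∈ RJ D t0 i} (fun β hβ => by
        have h1 : C.ip v0 (-β).1 = 0 := hip0 (-β) hβ.2
        rw [SLC.Root.neg_val, C.ip_neg_right] at h1
        omega) s hs _ hyU
      have eu := Z7_comm v0 (RJ D t0 i) (fun β hβ => hip0 β hβ.2) s hs _ huR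
      have ea := Z7_comm v0 (RJ D t0 i) (fun β hβ => hip0 β hβ.2) s hs _ haR
      have hz := (C.adS k).tor_mem v0 s hs
      generalize (C.adS k).tor v0 s = z at *
      have h1 : z * ((ν : GL C.Idx k)⁻¹ * z⁻¹ * ((ν : GL C.Idx k)⁻¹)⁻¹) ∈ (C.adS k).T :=
        Subgroup.mul_mem _ hz ((C.adS k).N_conj_T _ _ (Subgroup.inv_mem _ hνN)
          (Subgroup.inv_mem _ hz))
      have e1 : (a : GL C.Idx k) * (z * (b : GL C.Idx k) * z⁻¹ * (b : GL C.Idx k)⁻¹) *
          (a : GL C.Idx k)⁻¹ =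
          z * ((ν : GL C.Idx k)⁻¹ * z⁻¹ * ((ν : GL C.Idx k)⁻¹)⁻¹) := by
        calc (a : GL C.Idx k) * (z * (b : GL C.Idx k) * z⁻¹ * (b : GL C.Idx k)⁻¹) *
              (a : GL C.Idx k)⁻¹
            = (a : GL C.Idx k) * ((z * (a : GL C.Idx k) * z⁻¹)⁻¹ *
              (z * (ν : GL C.Idx k)⁻¹ * z⁻¹) * (z * (u : GL C.Idx k) * z⁻¹)⁻¹ *
              (z * (y : GL C.Idx k) * z⁻¹) * ((y : GL C.Idx k)⁻¹ * (u : GL C.Idx k) *
              (ν : GL C.Idx k) * (a : GL C.Idx k))) * (a : GL C.Idx k)⁻¹ := by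
              rw [hbeq]
              group
          _ = z * ((ν : GL C.Idx k)⁻¹ * z⁻¹ * ((ν : GL C.Idx k)⁻¹)⁻¹) := by
              rw [ea, eu, ey]
              group
      have h2 : (a : GL C.Idx k) * (z * (b : GL C.Idx k) * z⁻¹ * (b : GL C.Idx k)⁻¹) *
          (a : GL C.Idx k)⁻¹ ∈ (C.adS k).U 1 :=
        Subgroup.mul_mem _ (Subgroup.mul_mem _ haU1 (Subgroup.mul_mem _
          ((C.adS k).T_conj_U 1 z _ hz hbU1) (Subgroup.inv_mem _ hbU1)))
          (Subgroup.inv_mem _ haU1)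
      have h3 := C.S9_T_one _ h1 (e1 ▸ h2)
      rw [h3] at e1
      have h4 : z * (b : GL C.Idx k) * z⁻¹ * (b : GL C.Idx k)⁻¹ = 1 := by
        have h5 : z * (b : GL C.Idx k) * z⁻¹ * (b : GL C.Idx k)⁻¹ =
            (a : GL C.Idx k)⁻¹ * ((a : GL C.Idx k) * (z * (b : GL C.Idx k) * z⁻¹ *
              (b : GL C.Idx k)⁻¹) * (a : GL C.Idx k)⁻¹) * (a : GL C.Idx k) := by group
        rw [h5, e1]
        group
      exact mul_inv_eq_one.mp h4
    obtain ⟨t, ht0, hbt⟩ := UR_lp hB (b : GL C.Idx k) hbR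
    have ht1 : ∀ β, t β = 0 := by
      intro β
      by_cases hβ : β ∈ RcJ D t0 i
      · obtain ⟨s, hs, hs1⟩ := Z7_exists_pow (k := k) (C.ip v0 β.1) (hip1 β hβ)
        have hz := (C.adS k).tor_mem v0 s hs
        have h1 := key s hs
        rw [hbt, C.T8_conj_lp _ hz] at h1
        have h2 := C.lp_unique _ _ h1 β hβ.1
        have h3 := (C.T_fix _ hz β 1).2
        have h4 := (C.adS k).tor_conj v0 s hs β 1
        have h5 : C.xg k β (s ^ (C.ip v0 β.1) * 1) = C.xg k β (C.chi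
            (((C.adS k).tor v0 s : GL C.Idx k) : Matrix C.Idx C.Idx k) β * 1) := by
          rw [← h3]
          exact h4.symm
        have h6 := (C.xg_inj _ _ _ _ (by
          rw [mul_one]
          exact zpow_ne_zero _ hs) h5).2
        rw [mul_one, mul_one] at h6
        simp only [← h6] at h2
        by_contra h7
        exact hs1 (mul_right_cancel₀ h7 (by rw [h2, one_mul]))
      · exact ht0 β hβ
    apply Subtype.ext
    rw [hbt]
    exact (C.adS k).lp_zero _ t fun β _ => ht1 β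
  refine ⟨u, ⟨hu, hsu⟩, v, ⟨?_, hsv⟩, ν, hν, hsν, hyuv, w, hw, hJ, hact⟩
  rw [hab, hb1, mul_one]
  exact ha

end Pool.Agent.H86.UM
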