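import Pool.Agent.H86.UM.Z7

/-!
# Project UM, Suzuki-Ree groups, module Z8: chambers and generation

`G0`: the group generated by the `XJ i, XmJ i`. `hne : ∀ i, ∃ y ∈ XmJ i, y ≠ 1`.
`G0_nu`: from `nuJ_of_opp`: `ν = u⁻¹ y v⁻¹ ∈ G0`.
`tau_comm_of_fix`: `ν ∈ FN`, `σ ν = ν`, acting by `w`: `w (τ β) ~ τ (w β)` (`sig_FN` with `w' = w`).
`exists_nuW`: by induction on the number of positive roots made negative by `w`. If it is `0`, `w = 1`. Otherwise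
there is a simple root `α_i` with `w α_i` negative (`eq_one_of_pos`), so `w` is negative on `RJ i` (`w_inv`). Let `ν_i`
be as in `G0_nu`, acting by `w_i`, `IswJ i w_i`. `w w_i` commutes with `rE`, `τ` too and makes fewer positive
roots negative: for `β ∈ RJ i`: `w_i β = -β'`, `β' ∈ RJ i`, `w w_i β = - w β'` is positive; `w_i` permutes `RcJ i`.
So `w w_i` is induced by `ν' ∈ G0`; `ν = ν' ν_i⁻¹`.
`sig_chamber_SR`: `sig_bruhat`: `g = u ν b`, `u ∈ FU ⊓ Fx σ`; `ν₁ ∈ G0 ∩ FN` inducing the same `w`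
(`exists_nuW`), `ν = ν₁ t` (`FN_T`), `g₁ = u ν₁`.
`FU_le_G0`: claim: for `ν ∈ G0 ∩ FN` acting by `w`: every `u ∈ FU` with `σ u = u` and `ν u ν⁻¹ ∈ FUm` is in
`G0`; induction on the number of positive roots made negative by `w`. If `w = 1` then `u ∈ FU ∩ FUm`, `u = 1`.
Otherwise choose `i` with `w α_i` negative, `u = a b`, `a ∈ FR (RJ i)`, `b ∈ FR (RcJ i)` (`FR_split`, `FU_FR`); apply
`σ` (`sig_FR`, `tau_supp`, `tau_pos`) and `FR_inf`: `σ a = a`, `σ b = b`. `a ∈ XJ i`. `ν a ν⁻¹ ∈ FUm` as `w` is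
negative on `RJ i`, so `ν b ν⁻¹ ∈ FUm`. `b' = ν_i b ν_i⁻¹ ∈ FU` (`w_i` preserves `RcJ i`) is fixed by `σ`, and for
`ν' = ν ν_i⁻¹`: `ν' b' ν'⁻¹ = ν b ν⁻¹ ∈ FUm`. Induction (`w w_i⁻¹` makes fewer positive roots negative).
Existence of an element `ν₀ ∈ G0 ∩ FN` making all positive roots negative: choose `ν ∈ G0 ∩ FN` for which the
number of positive roots made negative is maximal; if some simple `α_i` has `w α_i` positive then (as `w_inv`, for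
`w` with signs reversed: apply it to the same argument) `w` is positive on `RJ i`, and `w w_i` makes more
roots negative. `Esr_gen`: `FU ⊓ Fx σ ≤ G0` by the claim with `ν₀`; `FUm ⊓ Fx σ`: for `x` in it,
`ν₀ x ν₀⁻¹ ∈ FU ⊓ Fx σ` (`ν₀⁻¹` also makes all positive roots negative and hence all negative ones positive).
-/

set_option autoImplicit false
open Matrix

namespace Pool.Agent.H86.UM

open Pool.Agent.H75.UL

variable {n : ℕ} {C : SLC n} {D : Dg C} {t0 : Fin n → Fin n}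

/-- The group generated by the simple root groups and the opposite ones. -/
noncomputable def G0 (hN : D.NA) (t0 : Fin n → Fin n) {k : Type*} [Field k]
    (σ : GF D k →* GF D k) : Subgroup (GF D k) :=
  Subgroup.closure {g | ∃ i, g ∈ XJ hN t0 σ i ∨ g ∈ XmJ hN t0 σ i}

section aux
variable {k : Type*} [Field k]

private theorem Z8_mul {g g' : GL C.Idx k} {w w' : Equiv.Perm C.Root}
    (h : (C.adS k).Acts g w) (h' : (C.adS k).Acts g' w') :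
    (C.adS k).Acts (g * g') (w * w') := by
  obtain ⟨c, hc, h1⟩ := h
  obtain ⟨c', hc', h1'⟩ := h'
  refine ⟨fun β => c (w' β) * c' β, fun β => mul_ne_zero (hc _) (hc' _), fun β u => ?_⟩
  have e : g * g' * (C.adS k).x β u * (g * g')⁻¹ =
      g * (g' * (C.adS k).x β u * g'⁻¹) * g⁻¹ := by group
  rw [e, h1', h1, Equiv.Perm.mul_apply, mul_assoc]

private theorem Z8_inv {g : GL C.Idx k} {w : Equiv.Perm C.Root}
    (h : (C.adS k).Acts g w) : (C.adS k).Acts g⁻¹ w⁻¹ := by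
  obtain ⟨c, hc, h1⟩ := h
  refine ⟨fun β => (c (w⁻¹ β))⁻¹, fun β => inv_ne_zero (hc _), fun β u => ?_⟩
  have h2 := h1 (w⁻¹ β) ((c (w⁻¹ β))⁻¹ * u)
  have h0 : w (w⁻¹ β) = β := Equiv.apply_symm_apply w β
  rw [h0, mul_inv_cancel_left₀ (hc _)] at h2
  rw [← h2]
  group

private theorem Z8_one : (C.adS k).Acts (1 : GL C.Idx k) 1 :=
  ⟨fun _ => 1, fun _ => one_ne_zero, fun β u => by simp⟩

end aux

private theorem Z8_nn (β : C.Root) : -(-β) = β := by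
  apply SLC.Root.ext
  rw [SLC.Root.neg_val, SLC.Root.neg_val, neg_neg]

/-- the positive roots made negative by `w` -/
private def Z8_S (C : SLC n) (w : Equiv.Perm C.Root) : Set C.Root :=
  {β | C.Pos β ∧ ¬ C.Pos (w β)}

private theorem Z8_simple (i : Fin n) : C.simple i ∈ RJ D t0 i := by
  refine ⟨?_, fun j hj => ?_⟩
  · rw [C.pos_iff]
    intro j
    change 0 ≤ (Pi.single i (1 : ℤ) : Fin n → ℤ) j
    by_cases e : j = i
    · subst e
      simp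
    · rw [Pi.single_eq_of_ne e]
  · have e : j = i := by
      by_contra e
      exact hj (by
        change (Pi.single i (1 : ℤ) : Fin n → ℤ) j = 0
        rw [Pi.single_eq_of_ne e])
    subst e
    exact JJ_refl _

private theorem Z8_card {w wi : Equiv.Perm C.Root} (hw : w ∈ C.W) {i : Fin n}
    (hI : IswJ D t0 i wi) (hn : ∀ β ∈ RJ D t0 i, ¬ C.Pos (w β)) :
    (Z8_S C (w * wi)).ncard < (Z8_S C w).ncard := by
  have h1 : wi '' (Z8_S C (w * wi)) ⊆ Z8_S C w ∩ RcJ D t0 i := by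
    rintro _ ⟨β, ⟨hβ, hβ'⟩, rfl⟩
    have hcase : β ∈ RJ D t0 i ∨ β ∈ RcJ D t0 i := by
      by_cases hs : suppJ D t0 i β
      · exact Or.inl ⟨hβ, hs⟩
      · exact Or.inr ⟨hβ, hs⟩
    rcases hcase with hr | hr
    · exfalso
      have h2 := hI.pos β hr
      have h3 := hn _ h2
      rw [C.W_neg w hw, C.not_pos_iff, Z8_nn] at h3
      exact hβ' h3
    · have h2 := hI.out β hr
      exact ⟨⟨h2.1, hβ'⟩, h2⟩
  have h2 : Z8_S C w ∩ RcJ D t0 i ⊂ Z8_S C w := by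
    refine ⟨Set.inter_subset_left, fun hh => ?_⟩
    have h3 : C.simple i ∈ RJ D t0 i := Z8_simple i
    have h4 : C.simple i ∈ Z8_S C w := ⟨h3.1, hn _ h3⟩
    exact (hh h4).2.2 h3.2
  calc (Z8_S C (w * wi)).ncard = (wi '' (Z8_S C (w * wi))).ncard :=
        (Set.ncard_image_of_injective _ wi.injective).symm
    _ ≤ (Z8_S C w ∩ RcJ D t0 i).ncard := Set.ncard_le_ncard h1 (Set.toFinite _)
    _ < (Z8_S C w).ncard := Set.ncard_lt_ncard h2 (Set.toFinite _)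

private theorem Z8_card' {w wi : Equiv.Perm C.Root} (hw : w ∈ C.W) (hwi : wi ∈ C.W) {i : Fin n}
    (hI : IswJ D t0 i wi) (hn : ∀ β ∈ RJ D t0 i, C.Pos (w β)) :
    (Z8_S C w).ncard < (Z8_S C (w * wi)).ncard := by
  have h1 := Z8_card (C.W.mul_mem hw hwi) (IswJ.inv hwi hI) (fun β hβ => by
    rw [Equiv.Perm.mul_apply]
    have h2 := hn _ (hI.pos β hβ)
    rw [C.W_neg w hw] at h2
    exact (C.not_pos_iff _).2 h2)
  rwa [mul_inv_cancel_right] at h1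

/-- if all `w α_i` are negative then so is `w β` for `β` positive -/
private theorem Z8_allneg {w : Equiv.Perm C.Root} (hw : w ∈ C.W)
    (h : ∀ i, ¬ C.Pos (w (C.simple i))) (β : C.Root) (hβ : C.Pos β) : ¬ C.Pos (w β) := by
  obtain ⟨f, hf, -⟩ := C.W_lin w hw
  rw [C.not_pos_iff, C.pos_iff]
  intro j
  rw [SLC.Root.neg_val, hf]
  have e : β.1 = ∑ l, β.1 l • (C.simple l).1 := by
    funext m
    rw [Finset.sum_apply, Finset.sum_eq_single m]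
    · change β.1 m = β.1 m * (Pi.single m (1 : ℤ) : Fin n → ℤ) m
      rw [Pi.single_eq_same, mul_one]
    · intro l _ hl
      change β.1 l * (Pi.single l (1 : ℤ) : Fin n → ℤ) m = 0
      rw [Pi.single_eq_of_ne (Ne.symm hl), mul_zero]
    · intro hh
      exact absurd (Finset.mem_univ _) hh
  rw [e, map_sum, Pi.neg_apply, Finset.sum_apply, ← Finset.sum_neg_distrib]
  refine Finset.sum_nonneg fun l _ => ?_
  rw [map_zsmul, ← hf]
  change 0 ≤ -(β.1 l * (w (C.simple l)).1 j)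
  have h1 := (C.pos_iff β).1 hβ l
  have h2 := (C.pos_iff _).1 ((C.not_pos_iff _).1 (h l)) j
  rw [SLC.Root.neg_val, Pi.neg_apply] at h2
  nlinarith

variable (hS : Swap D t0) {k : Type*} [Field k] [Infinite k] {θ : k ≃+* k}
  {σ : GF D k →* GF D k} (h : SRs D t0 θ σ)
  (hne : ∀ i, ∃ y ∈ XmJ hS.na t0 σ i, y ≠ 1)

theorem G0_le_Esr : G0 hS.na t0 σ ≤ Esr D σ := by
  unfold G0
  rw [Subgroup.closure_le]
  rintro g ⟨i, hg | hg⟩
  · exact (le_sup_left : FU D k ⊓ Fx σ ≤ Esr D σ) ((XJ_le hS (σ := σ) i).1 hg)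
  · exact (le_sup_right : FUm D k ⊓ Fx σ ≤ Esr D σ) ((XJ_le hS (σ := σ) i).2 hg)

omit [Infinite k] in
theorem Esr_le_Fx : Esr D σ ≤ Fx σ := sup_le inf_le_right inf_le_right

include h

theorem tau_comm_of_fix {τ : C.Root → C.Root} {e : C.Root → ℤ} (ht : SRt hS.na t0 θ σ τ e)
    (ν : GF D k) (hν : ν ∈ FN D k) (hs : σ ν = ν) (w : Equiv.Perm C.Root)
    (hw : (C.adS k).Acts (ν : GL C.Idx k) w) (β : C.Root) :
    D.rE.SameCycle (w (τ β)) (τ (w β)) :=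
  (sig_FN hS h ht ν hν).2 w w hw (by rw [hs]; exact hw) β

include hne

theorem G0_nu (i : Fin n) : ∃ ν ∈ FN D k ⊓ G0 hS.na t0 σ, ∃ w ∈ C.W, IswJ D t0 i w ∧
    (C.adS k).Acts (ν : GL C.Idx k) w := by
  obtain ⟨y, hy, hy1⟩ := hne i
  obtain ⟨u, hu, v, hv, ν, hν, -, e, w, hw, hI, ha⟩ := nuJ_of_opp hS h i y hy hy1
  refine ⟨ν, ⟨hν, ?_⟩, w, hw, hI, ha⟩
  have e1 : ν = u⁻¹ * y * v⁻¹ := by
    rw [e]
    group
  have hu' : u ∈ G0 hS.na t0 σ := Subgroup.subset_closure ⟨i, Or.inl hu⟩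
  have hv' : v ∈ G0 hS.na t0 σ := Subgroup.subset_closure ⟨i, Or.inl hv⟩
  have hy' : y ∈ G0 hS.na t0 σ := Subgroup.subset_closure ⟨i, Or.inr hy⟩
  rw [e1]
  exact (G0 hS.na t0 σ).mul_mem ((G0 hS.na t0 σ).mul_mem ((G0 hS.na t0 σ).inv_mem hu') hy')
    ((G0 hS.na t0 σ).inv_mem hv')

omit h hne in
private theorem Z8_fix (ν : GF D k) (hν : ν ∈ FN D k ⊓ G0 hS.na t0 σ) : σ ν = ν :=
  Esr_le_Fx (G0_le_Esr hS hν.2)

omit h hne in
include hS in
private theorem Z8_W (ν : GF D k) (hν : ν ∈ FN D k) (w : Equiv.Perm C.Root)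
    (ha : (C.adS k).Acts (ν : GL C.Idx k) w) : w ∈ C.W ∧ D.rE * w * D.rE⁻¹ = w := by
  obtain ⟨w', hw', hr', ha'⟩ := FN_acts hS.na ν hν
  rw [FN_unique hS.na _ w w' ha ha']
  exact ⟨hw', hr'⟩

omit hne in
private theorem Z8_exists (hnu : ∀ i, ∃ ν ∈ FN D k ⊓ G0 hS.na t0 σ, ∃ w ∈ C.W, IswJ D t0 i w ∧
    (C.adS k).Acts (ν : GL C.Idx k) w) {τ : C.Root → C.Root} {e : C.Root → ℤ}
    (ht : SRt hS.na t0 θ σ τ e) (N : ℕ) : ∀ (w : Equiv.Perm C.Root), w ∈ C.W →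
    D.rE * w * D.rE⁻¹ = w → (∀ β, D.rE.SameCycle (w (τ β)) (τ (w β))) →
    (Z8_S C w).ncard = N →
    ∃ ν ∈ FN D k ⊓ G0 hS.na t0 σ, (C.adS k).Acts (ν : GL C.Idx k) w := by
  induction N using Nat.strong_induction_on with
  | _ N ih =>
  intro w hw hr hc hN
  by_cases hp : ∀ i, C.Pos (w (C.simple i))
  · rw [C.eq_one_of_pos w hw hp]
    exact ⟨1, Subgroup.one_mem _, Z8_one⟩
  · push Not at hp
    obtain ⟨i, hi⟩ := hp
    have hneg := w_inv hS ht.tau w hw hr hc i hi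
    obtain ⟨νi, hνi, wi, hwi, hI, hai⟩ := hnu i
    have hfi := Z8_fix hS νi hνi
    obtain ⟨-, hri⟩ := Z8_W hS νi hνi.1 wi hai
    have hlt := Z8_card hw hI hneg
    obtain ⟨ν', hν', ha'⟩ := ih _ (hN ▸ hlt) (w * wi) (C.W.mul_mem hw hwi) (by
      calc D.rE * (w * wi) * D.rE⁻¹ = (D.rE * w * D.rE⁻¹) * (D.rE * wi * D.rE⁻¹) := by group
        _ = w * wi := by rw [hr, hri]) (fun β => by
      rw [Equiv.Perm.mul_apply, Equiv.Perm.mul_apply]
      exact ((Nw_cycle w hr _ _ (tau_comm_of_fix hS h ht νi hνi.1 hfi wi hai β)).1).trans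
        (hc _)) rfl
    refine ⟨ν' * νi⁻¹, Subgroup.mul_mem _ hν' (Subgroup.inv_mem _ hνi), ?_⟩
    have h3 := Z8_mul ha' (Z8_inv hai)
    rw [mul_inv_cancel_right] at h3
    exact h3

theorem exists_nuW {τ : C.Root → C.Root} (hτ : IsTau D t0 τ)
    (w : Equiv.Perm C.Root) (hw : w ∈ C.W) (hr : D.rE * w * D.rE⁻¹ = w)
    (hc : ∀ β, D.rE.SameCycle (w (τ β)) (τ (w β))) :
    ∃ ν ∈ FN D k ⊓ G0 hS.na t0 σ, (C.adS k).Acts (ν : GL C.Idx k) w := by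
  obtain ⟨τ', e, ht⟩ := exists_tau hS h
  have hm : (D.m : ℤ) ≠ 0 := by
    have := D.m_cases
    omega
  have hττ : ∀ β, D.rE.SameCycle (τ β) (τ' β) := by
    intro β
    by_cases hβ : D.r β = β
    · apply osum_inj hS.na
      rw [(hτ.long β hβ).2, (ht.tau.long β hβ).2]
    · have h1 := (hτ.short β hβ).2
      have h2 := (ht.tau.short β hβ).2
      have h3 : τ β = τ' β := by
        apply SLC.Root.ext
        exact smul_right_injective _ hm (h1.trans h2.symm)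
      rw [h3]
  refine Z8_exists hS h (fun i => G0_nu hS h hne i) ht _ w hw hr (fun β => ?_) rfl
  exact ((Nw_cycle w hr _ _ (hττ β).symm).1.trans (hc β)).trans (hττ (w β))

/-- `σ`-stable chambers -/
theorem sig_chamber_SR (g b₀ : GF D k) (hg : σ g = g * b₀)
    (hb₀ : C.Fil 0 ((b₀ : GL C.Idx k) : Matrix C.Idx C.Idx k)) :
    ∃ g₁ ∈ Esr D σ, C.Fil 0 (((g₁⁻¹ * g : GF D k) : GL C.Idx k) : Matrix C.Idx C.Idx k) := by
  obtain ⟨τ, e, ht⟩ := exists_tau hS h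
  obtain ⟨w, hw, hr, hc, u, hu, hsu, ν, hν, ha, -, b, hb, eg⟩ := sig_bruhat hS h ht g b₀ hg hb₀
  obtain ⟨ν₁, hν₁, ha₁⟩ := exists_nuW hS h hne ht.tau w hw hr hc
  have hT := FN_T hS.na ν₁ ν hν₁.1 hν w ha₁ ha
  have huU : u ∈ FU D k := by
    rw [FU_FR hS.na]
    exact FR_mono hS.na (fun β hβ => hβ.1) hu
  refine ⟨u * ν₁, (Esr D σ).mul_mem ((le_sup_left : FU D k ⊓ Fx σ ≤ Esr D σ) ⟨huU, hsu⟩)
    (G0_le_Esr hS hν₁.2), ?_⟩
  have e1 : (u * ν₁)⁻¹ * g = (ν₁⁻¹ * ν) * b := by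
    rw [eg]
    group
  rw [e1]
  have h1 : C.Fil 0 (((ν₁⁻¹ * ν : GF D k) : GL C.Idx k) : Matrix C.Idx C.Idx k) :=
    C.Fil_T _ hT
  have h2 := C.Fil_mul h1 hb
  rw [add_zero] at h2
  exact h2

theorem exists_w0 : ∃ ν ∈ FN D k ⊓ G0 hS.na t0 σ, ∃ w ∈ C.W,
    (C.adS k).Acts (ν : GL C.Idx k) w ∧ ∀ β, C.Pos β → ¬ C.Pos (w β) := by
  obtain ⟨τ, e, ht⟩ := exists_tau hS h
  let A : Set (Equiv.Perm C.Root) :=
    {w | ∃ ν ∈ FN D k ⊓ G0 hS.na t0 σ, (C.adS k).Acts (ν : GL C.Idx k) w}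
  have hA : A.Nonempty := ⟨1, 1, Subgroup.one_mem _, Z8_one⟩
  obtain ⟨w, ⟨ν, hν, ha⟩, hmax⟩ := Set.exists_max_image A (fun w => (Z8_S C w).ncard)
    (Set.toFinite A) hA
  obtain ⟨hw, hr⟩ := Z8_W hS ν hν.1 w ha
  have hf := Z8_fix hS ν hν
  refine ⟨ν, hν, w, hw, ha, Z8_allneg hw fun i hi => ?_⟩
  have hpos := w_inv' hS ht.tau w hw hr (tau_comm_of_fix hS h ht ν hν.1 hf w ha) i hi
  obtain ⟨νi, hνi, wi, hwi, hI, hai⟩ := G0_nu hS h hne i
  have h1 := Z8_card' hw hwi hI hpos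
  have h2 := hmax (w * wi) ⟨ν * νi, Subgroup.mul_mem _ hν hνi, Z8_mul ha hai⟩
  exact absurd h1 (not_lt.2 h2)

omit h hne in
private theorem Z8_conj (ν : GF D k) (hν : ν ∈ FN D k) (w : Equiv.Perm C.Root)
    (ha : (C.adS k).Acts (ν : GL C.Idx k) w) (R : Set C.Root) (H : Subgroup (GF D k))
    (hH : ∀ β ∈ R, ∀ t : k, yg hS.na (w β) t ∈ H) (x : GF D k) (hx : x ∈ FR hS.na k R) :
    ν * x * ν⁻¹ ∈ H := by
  obtain ⟨-, hr⟩ := Z8_W hS ν hν w ha
  obtain ⟨c, -, h1⟩ := yg_acts hS.na ν w ha hr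
  refine Subgroup.closure_induction (p := fun x _ => ν * x * ν⁻¹ ∈ H) ?_ ?_ ?_ ?_ hx
  · rintro _ ⟨β, hβ, t, rfl⟩
    rw [h1]
    exact hH β hβ _
  · rw [mul_one, mul_inv_cancel]
    exact H.one_mem
  · intro a b _ _ h2 h3
    have e : ν * (a * b) * ν⁻¹ = (ν * a * ν⁻¹) * (ν * b * ν⁻¹) := by group
    rw [e]
    exact H.mul_mem h2 h3
  · intro a _ h2
    have e : ν * a⁻¹ * ν⁻¹ = (ν * a * ν⁻¹)⁻¹ := by group
    rw [e]
    exact H.inv_mem h2

private theorem Z8_claim {τ : C.Root → C.Root} {e : C.Root → ℤ}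
    (ht : SRt hS.na t0 θ σ τ e) (N : ℕ) : ∀ (w : Equiv.Perm C.Root) (ν : GF D k),
    ν ∈ FN D k ⊓ G0 hS.na t0 σ → (C.adS k).Acts (ν : GL C.Idx k) w → (Z8_S C w).ncard = N →
    ∀ u ∈ FU D k, σ u = u → ν * u * ν⁻¹ ∈ FUm D k → u ∈ G0 hS.na t0 σ := by
  induction N using Nat.strong_induction_on with
  | _ N ih =>
  intro w ν hν ha hN u hu hsu hum
  obtain ⟨hw, hr⟩ := Z8_W hS ν hν.1 w ha
  have hf := Z8_fix hS ν hν
  have hc := tau_comm_of_fix hS h ht ν hν.1 hf w ha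
  by_cases hp : ∀ i, C.Pos (w (C.simple i))
  · have hw1 := C.eq_one_of_pos w hw hp
    have hT : ν ∈ FT D k := by
      have h1 := FN_T hS.na 1 ν (Subgroup.one_mem _) hν.1 w (by rw [hw1]; exact Z8_one) ha
      rwa [inv_one, one_mul] at h1
    have h2 := (FT_conj hS.na ν⁻¹ ((FT D k).inv_mem hT)).2.1 _ hum
    have e1 : ν⁻¹ * (ν * u * ν⁻¹) * ν⁻¹⁻¹ = u := by group
    rw [e1] at h2
    rw [B_FUm hS.na u (FU_Fil hS.na u hu) h2]
    exact Subgroup.one_mem _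
  · push Not at hp
    obtain ⟨i, hi⟩ := hp
    have hneg := w_inv hS ht.tau w hw hr hc i hi
    obtain ⟨νi, hνi, wi, hwi, hI, hai⟩ := G0_nu hS h hne i
    have hfi := Z8_fix hS νi hνi
    obtain ⟨cA, cB, rA, rB, hAB, hd, hid, -⟩ := RJ_closed (D := D) (t0 := t0) i
    have huF : u ∈ FR hS.na k {β : C.Root | C.Pos β} := by
      rw [← FU_FR hS.na]
      exact hu
    obtain ⟨a, hA, b, hB, eu⟩ := FR_split hS.na ClR_pos cA cB rA rB hAB hd
      (fun α hα β hβ γ hγ => hid α hα β hβ γ hγ) u huF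
    have hsA : σ a ∈ FR hS.na k (RJ D t0 i) := sig_FR hS h ht (RJ D t0 i) (RJ D t0 i) (fun β hβ =>
      ⟨τ β, ⟨(tau_pos hS ht.tau β).2 hβ.1, (tau_supp hS ht.tau i β).2 hβ.2⟩,
        Equiv.Perm.SameCycle.refl _ _⟩) a hA
    have hsB : σ b ∈ FR hS.na k (RcJ D t0 i) := sig_FR hS h ht (RcJ D t0 i) (RcJ D t0 i) (fun β hβ =>
      ⟨τ β, ⟨(tau_pos hS ht.tau β).2 hβ.1, fun hh => hβ.2 ((tau_supp hS ht.tau i β).1 hh)⟩,
        Equiv.Perm.SameCycle.refl _ _⟩) b hB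
    have e1 : σ a * σ b = a * b := by
      rw [← _root_.map_mul, ← eu, hsu]
    have e2 : a⁻¹ * σ a = b * (σ b)⁻¹ := by
      rw [eq_mul_inv_iff_mul_eq, mul_assoc, e1]
      group
    have e3 : a⁻¹ * σ a = 1 := by
      refine FR_inf hS.na cA cB rA rB hd _ (Subgroup.mul_mem _ (Subgroup.inv_mem _ hA) hsA) ?_
      rw [e2]
      exact Subgroup.mul_mem _ hB (Subgroup.inv_mem _ hsB)
    have hσa : σ a = a := (inv_mul_eq_one.1 e3).symm
    have hσb : σ b = b := by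
      rw [hσa] at e1
      exact mul_left_cancel e1
    have haG : a ∈ G0 hS.na t0 σ := Subgroup.subset_closure ⟨i, Or.inl ⟨hA, hσa⟩⟩
    have hνa : ν * a * ν⁻¹ ∈ FUm D k := Z8_conj hS ν hν.1 w ha (RJ D t0 i) (FUm D k)
      (fun β hβ t => yg_npos hS.na _ (hneg β hβ) t) a hA
    have hνb : ν * b * ν⁻¹ ∈ FUm D k := by
      have e4 : ν * b * ν⁻¹ = (ν * a * ν⁻¹)⁻¹ * (ν * u * ν⁻¹) := by
        rw [eu]
        group
      rw [e4]
      exact Subgroup.mul_mem _ (Subgroup.inv_mem _ hνa) hum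
    have hb' : νi * b * νi⁻¹ ∈ FU D k := Z8_conj hS νi hνi.1 wi hai (RcJ D t0 i) (FU D k)
      (fun β hβ t => yg_pos hS.na _ (hI.out β hβ).1 t) b hB
    have hsb' : σ (νi * b * νi⁻¹) = νi * b * νi⁻¹ := by
      rw [_root_.map_mul, _root_.map_mul, map_inv, hfi, hσb]
    have hlt := Z8_card hw (IswJ.inv hwi hI) hneg
    have h5 := ih _ (hN ▸ hlt) (w * wi⁻¹) (ν * νi⁻¹)
      (Subgroup.mul_mem _ hν (Subgroup.inv_mem _ hνi)) (Z8_mul ha (Z8_inv hai)) rfl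
      (νi * b * νi⁻¹) hb' hsb' (by
        have e5 : ν * νi⁻¹ * (νi * b * νi⁻¹) * (ν * νi⁻¹)⁻¹ = ν * b * ν⁻¹ := by group
        rw [e5]
        exact hνb)
    have e6 : u = a * (νi⁻¹ * (νi * b * νi⁻¹) * νi) := by
      rw [eu]
      group
    rw [e6]
    exact Subgroup.mul_mem _ haG (Subgroup.mul_mem _ (Subgroup.mul_mem _
      (Subgroup.inv_mem _ hνi.2) h5) hνi.2)

/-- the Suzuki-Ree group is generated by the simple root groups and the opposite ones -/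
theorem Esr_gen : Esr D σ = G0 hS.na t0 σ := by
  obtain ⟨τ, e, ht⟩ := exists_tau hS h
  obtain ⟨ν, hν, w, hw, ha, hall⟩ := exists_w0 hS h hne
  have hf := Z8_fix hS ν hν
  have hU : FU D k ⊓ Fx σ ≤ G0 hS.na t0 σ := by
    intro u hu
    refine Z8_claim hS h hne ht _ w ν hν ha rfl u hu.1 hu.2 ?_
    refine Z8_conj hS ν hν.1 w ha {β | C.Pos β} (FUm D k)
      (fun β hβ t => yg_npos hS.na _ (hall β hβ) t) u ?_
    rw [← FU_FR hS.na]
    exact hu.1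
  refine le_antisymm (sup_le hU ?_) (G0_le_Esr hS)
  intro x hx
  have h1 : ν * x * ν⁻¹ ∈ FU D k := by
    refine Z8_conj hS ν hν.1 w ha {β | ¬ C.Pos β} (FU D k) (fun β hβ t => ?_) x ?_
    · refine yg_pos hS.na _ ?_ t
      have h2 := hall (-β) ((C.not_pos_iff β).1 hβ)
      rw [C.W_neg w hw, C.not_pos_iff, Z8_nn] at h2
      exact h2
    · rw [← FUm_FR hS.na]
      exact hx.1
  have h2 : σ (ν * x * ν⁻¹) = ν * x * ν⁻¹ := by
    have h3 : σ x = x := hx.2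
    rw [_root_.map_mul, _root_.map_mul, map_inv, hf, h3]
  have h3 : ν * x * ν⁻¹ ∈ G0 hS.na t0 σ := hU ⟨h1, h2⟩
  have e4 : x = ν⁻¹ * (ν * x * ν⁻¹) * ν := by group
  rw [e4]
  exact Subgroup.mul_mem _ (Subgroup.mul_mem _ (Subgroup.inv_mem _ hν.2) h3) hν.2

end Pool.Agent.H86.UM
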