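import Pool.Agent.H86.UM.Z8
import Pool.Agent.H86.UM.Src

/-!
# Project UM, Suzuki-Ree groups, module Z9: the source structure

`TOrb`: classes of nodes. `srep J`: a short node in the class `J`. In the class of a short node `i` the short nodes are
exactly the nodes of the cycle of `i` (`t0 i` is long), so `XJ`, `ξ`, `χ` do not depend on the choice of the short
node on `FU`, `FT` (`xi_sgl`, `chi_sgl` with `θ = 1`).
`cent`: `χ_i(h) = 1` for `i = srep J`, `σ h = h`: `χ_(t0 i)(h) = θ (χ_i(h)) = 1` (`sig_chi_simple`), so `χ_β(h) = 1`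
for all `β ∈ RJ i` (`chi_prod`), `h` commutes with `yg (± β) t` (`yg_T`). `cent_neg`: `ν x ν⁻¹ ∈ XmJ i`
(`nu_XJ`). `a_ν`: `χ_β(ν⁻¹ h ν) = χ_(w β)(h)`, `w` the action of `ν`, `IswJ i w`; `w α_i = - α_j` with `j` in the cycle
of `i`: the map `β ↦ - w β` permutes `RJ i` and is additive, so it permutes the simple roots in `RJ i` (those not
a sum of two elements of `RJ i`; `exists_descent`), and it commutes with `rE`, so it maps `α_i` to a simple root
which is not fixed. `ker_q`: `JHyp.ker`, transported from subgroups of `GF D k` to subgroups of `Esr D σ`.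
`nu_XJ`: `yg_acts` for the generators of `FR (RJ i)`, `σ ν = ν`, `IswJ`.
-/

set_option autoImplicit false
open Matrix

namespace Pool.Agent.H86.UM

open Pool.Agent.H75.UL

variable {n : ℕ} {C : SLC n} {D : Dg C} {t0 : Fin n → Fin n}

private theorem Z9_w_r (w : Equiv.Perm C.Root) (hw : D.rE * w * D.rE⁻¹ = w) (β : C.Root) :
    D.r (w β) = w (D.r β) := by
  have h1 : D.rE * w = w * D.rE := by
    conv_rhs => rw [← hw]
    group
  have h2 := congrArg (fun f : Equiv.Perm C.Root => f β) h1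
  simpa only [Equiv.Perm.mul_apply, Dg.rE_apply] using h2

private theorem Z9_inv {k : Type*} [Field k] {g : GL C.Idx k} {w : Equiv.Perm C.Root}
    (h : (C.adS k).Acts g w) : (C.adS k).Acts g⁻¹ w⁻¹ := by
  obtain ⟨c, hc, h1⟩ := h
  refine ⟨fun β => (c (w⁻¹ β))⁻¹, fun β => inv_ne_zero (hc _), fun β u => ?_⟩
  have h2 := h1 (w⁻¹ β) ((c (w⁻¹ β))⁻¹ * u)
  have h0 : w (w⁻¹ β) = β := Equiv.apply_symm_apply w β
  rw [h0, mul_inv_cancel_left₀ (hc _)] at h2
  rw [← h2]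
  group

section
variable {k : Type*} [Field k] [Infinite k]

private theorem Z9_rE (hN : D.NA) (ν : GF D k) (hν : ν ∈ FN D k) (w : Equiv.Perm C.Root)
    (ha : (C.adS k).Acts (ν : GL C.Idx k) w) : D.rE * w * D.rE⁻¹ = w := by
  obtain ⟨w', -, hr, ha'⟩ := FN_acts hN ν hν
  rw [FN_unique hN _ w w' ha ha']
  exact hr

private theorem Z9_conj (hN : D.NA) (g : GF D k) (w : Equiv.Perm C.Root)
    (hr : D.rE * w * D.rE⁻¹ = w) (ha : (C.adS k).Acts (g : GL C.Idx k) w)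
    (R R' : Set C.Root) (hR : ∀ β ∈ R, w β ∈ R') (x : GF D k) (hx : x ∈ FR hN k R) :
    g * x * g⁻¹ ∈ FR hN k R' := by
  obtain ⟨c, hc, h1⟩ := yg_acts hN g w ha hr
  have h2 : FR hN k R ≤ (FR hN k R').comap (MulAut.conj g).toMonoidHom := by
    conv_lhs => unfold FR
    rw [Subgroup.closure_le]
    rintro _ ⟨β, hβ, t, rfl⟩
    change g * yg hN β t * g⁻¹ ∈ FR hN k R'
    rw [h1]
    exact Subgroup.subset_closure ⟨w β, hR β hβ, _, rfl⟩
  exact h2 hx

/-- elements of the torus commute with the root elements for which the character is `1` -/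
private theorem Z9_cent (hN : D.NA) (g : GF D k) (hg : g ∈ FT D k) (R : Set C.Root)
    (hR : ∀ β ∈ R, C.chi ((g : GL C.Idx k) : Matrix C.Idx C.Idx k) β = 1) (x : GF D k)
    (hx : x ∈ FR hN k R) : g * x = x * g := by
  have h2 : FR hN k R ≤ Subgroup.centralizer {g} := by
    unfold FR
    rw [Subgroup.closure_le]
    rintro _ ⟨β, hβ, t, rfl⟩
    rw [SetLike.mem_coe, Subgroup.mem_centralizer_singleton_iff]
    have h3 := yg_T hN g hg β t
    rw [hR β hβ, one_mul, mul_inv_eq_iff_eq_mul] at h3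
    exact h3.symm
  have h3 := h2 hx
  rw [Subgroup.mem_centralizer_singleton_iff] at h3
  exact h3.symm

private theorem Z9_T_conj (hN : D.NA) (g : GF D k) (hg : g ∈ FT D k) (R : Set C.Root)
    (x : GF D k) (hx : x ∈ FR hN k R) : g * x * g⁻¹ ∈ FR hN k R := by
  have h2 : FR hN k R ≤ (FR hN k R).comap (MulAut.conj g).toMonoidHom := by
    conv_lhs => unfold FR
    rw [Subgroup.closure_le]
    rintro _ ⟨β, hβ, t, rfl⟩
    change g * yg hN β t * g⁻¹ ∈ FR hN k R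
    rw [yg_T hN g hg]
    exact Subgroup.subset_closure ⟨β, hβ, _, rfl⟩
  exact h2 hx

private theorem Z9_Gad (hN : D.NA) (x : GF D k) : (x : GL C.Idx k) ∈ C.Gad k :=
  (mem_GF_fix hN _ x.2).2

private theorem Z9_Fil (x : GF D k) (hx : x ∈ FT D k) :
    C.Fil 0 ((x : GL C.Idx k) : Matrix C.Idx C.Idx k) :=
  C.Fil_T _ hx

private theorem Z9_U (x : GF D k) (hx : x ∈ FU D k) : (x : GL C.Idx k) ∈ (C.adS k).U 1 :=
  hx.1

private theorem Z9_chi_r (hN : D.NA) (x : GF D k) (hx : x ∈ FT D k) (β : C.Root) :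
    C.chi ((x : GL C.Idx k) : Matrix C.Idx C.Idx k) (D.r β) =
      C.chi ((x : GL C.Idx k) : Matrix C.Idx C.Idx k) β :=
  SR_chi (env_ad D hN k) (x : GL C.Idx k) hx (mem_GF_fix hN _ x.2).1 β

private theorem Z9_chi_cycle (hN : D.NA) (x : GF D k) (hx : x ∈ FT D k) (β γ : C.Root)
    (h : D.rE.SameCycle β γ) : C.chi ((x : GL C.Idx k) : Matrix C.Idx C.Idx k) γ =
      C.chi ((x : GL C.Idx k) : Matrix C.Idx C.Idx k) β := by
  obtain ⟨l, -, rfl⟩ := (D.sameCycle_iff _ _).mp h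
  clear h
  induction l with
  | zero => rfl
  | succ l ih =>
    rw [Function.iterate_succ_apply', Z9_chi_r hN x hx]
    exact ih

private theorem Z9_chi_neg (hN : D.NA) (x : GF D k) (hx : x ∈ FT D k) (β : C.Root) :
    C.chi ((x : GL C.Idx k) : Matrix C.Idx C.Idx k) (-β) =
      (C.chi ((x : GL C.Idx k) : Matrix C.Idx C.Idx k) β)⁻¹ := by
  rw [C.chi_prod _ (Z9_Gad hN x) (Z9_Fil x hx) (-β), C.chi_prod _ (Z9_Gad hN x) (Z9_Fil x hx) β,
    ← Finset.prod_inv_distrib]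
  apply Finset.prod_congr rfl
  intro j _
  rw [SLC.Root.neg_val, Pi.neg_apply, _root_.zpow_neg]

private theorem Z9_chi_conj (hN : D.NA) (x ν : GF D k) (hx : x ∈ FT D k) (hν : ν ∈ FN D k)
    (w : Equiv.Perm C.Root) (ha : (C.adS k).Acts (ν : GL C.Idx k) w) (β : C.Root) :
    C.chi (((ν⁻¹ * x * ν : GF D k) : GL C.Idx k) : Matrix C.Idx C.Idx k) β =
      C.chi ((x : GL C.Idx k) : Matrix C.Idx C.Idx k) (w β) := by
  have hx' : ν⁻¹ * x * ν ∈ FT D k := by
    have h1 := (FT_conj hN x hx).2.2 ν⁻¹ (inv_mem hν)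
    rwa [inv_inv] at h1
  obtain ⟨c, hc, h1⟩ := ha
  obtain ⟨h2, h3⟩ := SR_T (env_ad D hN k) ((ν⁻¹ * x * ν : GF D k) : GL C.Idx k) hx' β 1
  obtain ⟨h4, h5⟩ := SR_T (env_ad D hN k) (x : GL C.Idx k) hx (w β) (c β * 1)
  have h6 := h1 β (C.chi ((x : GL C.Idx k) : Matrix C.Idx C.Idx k) (w β))
  have e : (((ν⁻¹ * x * ν : GF D k) : GL C.Idx k)) * (C.adS k).x β 1 *
      (((ν⁻¹ * x * ν : GF D k) : GL C.Idx k))⁻¹ =
      (ν : GL C.Idx k)⁻¹ * ((x : GL C.Idx k) * ((ν : GL C.Idx k) * (C.adS k).x β 1 *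
        (ν : GL C.Idx k)⁻¹) * (x : GL C.Idx k)⁻¹) * (ν : GL C.Idx k) := by
    push_cast
    group
  rw [e, h1, h5] at h3
  have e2 : C.chi (((MonoidHom.id (GL C.Idx k)) (x : GL C.Idx k) : GL C.Idx k) :
      Matrix C.Idx C.Idx k) (w β) * (c β * 1) = c β *
        C.chi ((x : GL C.Idx k) : Matrix C.Idx C.Idx k) (w β) := by
    rw [mul_one, mul_comm]
    rfl
  rw [e2, ← h6] at h3
  have e3 : (ν : GL C.Idx k)⁻¹ * ((ν : GL C.Idx k) * (C.adS k).x β
      (C.chi ((x : GL C.Idx k) : Matrix C.Idx C.Idx k) (w β)) * (ν : GL C.Idx k)⁻¹) *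
        (ν : GL C.Idx k) = (C.adS k).x β
      (C.chi ((x : GL C.Idx k) : Matrix C.Idx C.Idx k) (w β)) := by group
  rw [e3] at h3
  have h7 := (C.xg_inj β β _ _ h4 h3).2
  rw [mul_one] at h7
  exact h7.symm

end

private theorem Z9_wJ (hS : Swap D t0) (i : Fin n) (hi : D.ρ i ≠ i) (w : Equiv.Perm C.Root)
    (hw : w ∈ C.W) (hr : D.rE * w * D.rE⁻¹ = w) (h : IswJ D t0 i w) :
    ∃ j, D.rE.SameCycle (C.simple i) (C.simple j) ∧ w (C.simple i) = -(C.simple j) := by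
  have h1 := h.pos (C.simple i) (ZJ1_mem hS i).1
  have hinv := h.inv hw
  have hwi := Subgroup.inv_mem _ hw
  by_cases hc : ∀ l, -(w (C.simple i)) ≠ C.simple l
  · exfalso
    obtain ⟨l, γ, hγ, h2⟩ := C.exists_descent _ h1.1 hc
    have hl : C.simple l ∈ RJ D t0 i := by
      refine ⟨C.simple_pos l, fun j hj => h1.2 j ?_⟩
      have h3 := (C.pos_iff _).mp (C.simple_pos l) j
      have h4 := (C.pos_iff _).mp hγ j
      rw [h2, Pi.add_apply]
      omega
    have hγ' : γ ∈ RJ D t0 i := by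
      refine ⟨hγ, fun j hj => h1.2 j ?_⟩
      have h3 := (C.pos_iff _).mp (C.simple_pos l) j
      have h4 := (C.pos_iff _).mp hγ j
      rw [h2, Pi.add_apply]
      omega
    have h3 := C.W_add w⁻¹ hwi _ _ _ h2
    have h4 : w⁻¹ (-(w (C.simple i))) = -(C.simple i) := by
      rw [C.W_neg _ hwi]
      congr 1
      exact w.symm_apply_apply _
    rw [h4] at h3
    have h5 := hinv.pos _ hl
    have h6 := hinv.pos _ hγ'
    have h7 := C.simple_pos i
    have h8 := h5.1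
    have h9 := h6.1
    have h10 := congrArg ht h3
    rw [ht_add, SLC.Root.neg_val, ht_neg] at h10
    unfold SLC.Pos at h8 h9
    rw [SLC.Root.neg_val, ht_neg] at h8 h9
    have h11 : ht (C.simple i).1 = 1 := C.ht_simple i
    omega
  · push Not at hc
    obtain ⟨l, hl⟩ := hc
    have e : w (C.simple i) = -(C.simple l) := by
      rw [← hl, C.neg_neg_root]
    refine ⟨l, ?_, e⟩
    rw [D.sameCycle_simple]
    have h2 : JJ D t0 i l := by
      apply h1.2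
      rw [hl, SLC.simple_val]
      simp
    rcases h2 with h2 | h2
    · exact h2
    · exfalso
      have h3 : D.ρ (t0 i) = t0 i := (hS.fix_iff i).mpr hi
      have h4 : l = t0 i := by
        obtain ⟨z, hz⟩ := h2
        rw [← hz]
        exact Equiv.Perm.zpow_apply_eq_self_of_apply_eq_self h3 z
      have h5 : D.r (w (C.simple i)) = w (C.simple i) := by
        rw [e, D.r_neg, D.r_simple, h4, h3]
      rw [Z9_w_r w hr] at h5
      have h6 := w.injective h5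
      rw [D.r_simple] at h6
      exact hi (C.simple_injective h6)


/-- classes of nodes -/
def tset (hS : Swap D t0) : Setoid (Fin n) where
  r := JJ D t0
  iseqv := ⟨fun i => JJ_refl i, fun h => JJ_symm hS _ _ h, fun h h' => JJ_trans hS _ _ _ h h'⟩

/-- classes of nodes -/
abbrev TOrb (hS : Swap D t0) : Type := Quotient (tset hS)

/-- a short node in the class -/
noncomputable def srep (hS : Swap D t0) (J : TOrb hS) : Fin n :=
  (exists_short hS (Quotient.out J)).choose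

theorem srep_spec (hS : Swap D t0) (J : TOrb hS) :
    D.ρ (srep hS J) ≠ srep hS J ∧ (Quotient.mk (tset hS) (srep hS J) : TOrb hS) = J ∧
      ∀ i, (Quotient.mk (tset hS) i : TOrb hS) = J ↔ JJ D t0 (srep hS J) i := by
  have h0 := (exists_short hS (Quotient.out J)).choose_spec
  have h1 : JJ D t0 (Quotient.out J) (srep hS J) := h0.1
  have h2 : (Quotient.mk (tset hS) (srep hS J) : TOrb hS) = J := by
    conv_rhs => rw [← Quotient.out_eq J]
    exact Quotient.sound (JJ_symm hS _ _ h1)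
  exact ⟨h0.2, h2, fun i => ⟨fun h3 => JJ_symm hS _ _ (Quotient.exact (h3.trans h2.symm)),
    fun h3 => (Quotient.sound (JJ_symm hS _ _ h3)).trans h2⟩⟩

/-- Properties of the simple root groups. -/
structure JHyp (hS : Swap D t0) {k : Type*} [Field k] (σ : GF D k →* GF D k) (N : ℕ) :
    Prop where
  N_ne : N ≠ 0
  onto : ∀ i, D.ρ i ≠ i → ∀ t : k, ∃ x ∈ XJ hS.na t0 σ i,
    C.xi i ((x : GL C.Idx k) : Matrix C.Idx C.Idx k) = t
  ker : ∀ i, D.ρ i ≠ i → ∀ x ∈ XJ hS.na t0 σ i,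
    C.xi i ((x : GL C.Idx k) : Matrix C.Idx C.Idx k) = 0 →
      x ∈ ⁅XJ hS.na t0 σ i, XJ hS.na t0 σ i⁆
  opp : ∀ i, ∃ y ∈ XmJ hS.na t0 σ i, y ≠ 1
  sep : ∀ i, D.ρ i ≠ i → ∀ s : k, s ≠ 0 → ∃ h ∈ FT D k ⊓ Esr D σ,
    C.chi ((h : GL C.Idx k) : Matrix C.Idx C.Idx k) (C.simple i) = s ^ N ∧
      ∀ j, D.ρ j ≠ j → ¬ JJ D t0 i j →
        C.chi ((h : GL C.Idx k) : Matrix C.Idx C.Idx k) (C.simple j) = 1

variable (hS : Swap D t0) {k : Type*} [Field k] [Infinite k] {θ : k ≃+* k}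
  {σ : GF D k →* GF D k} (h : SRs D t0 θ σ)

include h in
/-- conjugation with elements acting like `w_J` -/
theorem nu_XJ (i : Fin n) (ν : GF D k) (hν : ν ∈ FN D k) (hs : σ ν = ν)
    (w : Equiv.Perm C.Root) (hw : w ∈ C.W) (hi : IswJ D t0 i w)
    (ha : (C.adS k).Acts (ν : GL C.Idx k) w) (x : GF D k) :
    (x ∈ XJ hS.na t0 σ i ↔ ν * x * ν⁻¹ ∈ XmJ hS.na t0 σ i) ∧
    (x ∈ XmJ hS.na t0 σ i ↔ ν * x * ν⁻¹ ∈ XJ hS.na t0 σ i) := by
  have hr := Z9_rE hS.na ν hν w ha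
  have hi' := hi.inv hw
  have ha' : (C.adS k).Acts ((ν⁻¹ : GF D k) : GL C.Idx k) w⁻¹ := Z9_inv ha
  have hwi := Subgroup.inv_mem _ hw
  have hr' : D.rE * w⁻¹ * D.rE⁻¹ = w⁻¹ := by
    conv_rhs => rw [← hr]
    group
  have hs' : σ ν⁻¹ = ν⁻¹ := by rw [map_inv, hs]
  have hf : ∀ g y : GF D k, σ g = g → y ∈ Fx σ → g * y * g⁻¹ ∈ Fx σ := by
    intro g y hg hy
    rw [mem_Fx] at hy ⊢
    rw [map_mul, map_mul, map_inv, hg, hy]
  have e : ∀ y : GF D k, ν⁻¹ * (ν * y * ν⁻¹) * ν⁻¹⁻¹ = y := fun y => by group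
  have k1 : ∀ (v : Equiv.Perm C.Root), v ∈ C.W → (∀ β ∈ RJ D t0 i, -(v β) ∈ RJ D t0 i) →
      ∀ β ∈ {β : C.Root | -β ∈ RJ D t0 i}, v β ∈ RJ D t0 i := by
    intro v hv hv1 β hβ
    have h1 := hv1 (-β) hβ
    rwa [C.W_neg v hv, C.neg_neg_root] at h1
  constructor
  · constructor
    · intro hx
      exact ⟨Z9_conj hS.na ν w hr ha _ _ (fun β hβ => hi.pos β hβ) x hx.1, hf ν x hs hx.2⟩
    · intro hx
      have h1 := Z9_conj hS.na ν⁻¹ w⁻¹ hr' ha' {β | -β ∈ RJ D t0 i} (RJ D t0 i)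
        (k1 _ hwi hi'.pos) _ hx.1
      have h2 := hf ν⁻¹ _ hs' hx.2
      rw [e] at h1 h2
      exact ⟨h1, h2⟩
  · constructor
    · intro hx
      exact ⟨Z9_conj hS.na ν w hr ha _ _ (k1 _ hw hi.pos) x hx.1, hf ν x hs hx.2⟩
    · intro hx
      have h1 := Z9_conj hS.na ν⁻¹ w⁻¹ hr' ha' (RJ D t0 i) {β | -β ∈ RJ D t0 i}
        (fun β hβ => hi'.pos β hβ) _ hx.1
      have h2 := hf ν⁻¹ _ hs' hx.2
      rw [e] at h1 h2
      exact ⟨h1, h2⟩

/-- a monomial element for the class of `i` -/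
noncomputable def nuS {N : ℕ} (hJ : JHyp hS σ N) (i : Fin n) : GF D k :=
  (G0_nu hS h hJ.opp i).choose

theorem nuS_spec {N : ℕ} (hJ : JHyp hS σ N) (i : Fin n) :
    nuS hS h hJ i ∈ FN D k ∧ nuS hS h hJ i ∈ Esr D σ ∧ σ (nuS hS h hJ i) = nuS hS h hJ i ∧
      ∃ w ∈ C.W, IswJ D t0 i w ∧ (C.adS k).Acts (nuS hS h hJ i : GL C.Idx k) w := by
  obtain ⟨⟨h1, h2⟩, w, hw, hi, ha⟩ := (G0_nu hS h hJ.opp i).choose_spec
  have h3 := G0_le_Esr hS h2
  exact ⟨h1, h3, Esr_le_Fx h3, w, hw, hi, ha⟩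

include hS h in
private theorem Z9_chi_all (i : Fin n) (x : GF D k) (hx : x ∈ FT D k) (hs : σ x = x)
    (h1 : C.chi ((x : GL C.Idx k) : Matrix C.Idx C.Idx k) (C.simple i) = 1) (β : C.Root)
    (hβ : suppJ D t0 i β) : C.chi ((x : GL C.Idx k) : Matrix C.Idx C.Idx k) β = 1 := by
  rw [C.chi_prod _ (Z9_Gad hS.na x) (Z9_Fil x hx) β]
  apply Finset.prod_eq_one
  intro j _
  by_cases h2 : β.1 j = 0
  · rw [h2, zpow_zero]
  · rcases hβ j h2 with h3 | h3
    · rw [Z9_chi_cycle hS.na x hx (C.simple i) (C.simple j) ((D.sameCycle_simple i j).mpr h3), h1,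
        _root_.one_zpow]
    · have h4 := sig_chi_simple hS h x hx i
      rw [hs, h1, th_one] at h4
      rw [Z9_chi_cycle hS.na x hx (C.simple (t0 i)) (C.simple j)
        ((D.sameCycle_simple _ _).mpr h3), h4, _root_.one_zpow]

/-- The source structure of the Suzuki-Ree group. -/
noncomputable def srcSR {N : ℕ} (hJ : JHyp hS σ N) : Src (TOrb hS) (Esr D σ) k where
  U := (FU D k).subgroupOf (Esr D σ)
  T := (FT D k).subgroupOf (Esr D σ)
  X J := (XJ hS.na t0 σ (srep hS J)).subgroupOf (Esr D σ)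
  q J x := C.xi (srep hS J) (((x : GF D k) : GL C.Idx k) : Matrix C.Idx C.Idx k)
  a J x := C.chi (((x : GF D k) : GL C.Idx k) : Matrix C.Idx C.Idx k)
    (C.simple (srep hS J))
  ν J := ⟨nuS hS h hJ (srep hS J), (nuS_spec hS h hJ (srep hS J)).2.1⟩
  k0 := ⊤
  N := N
  T_comm := by
    intro s hs t ht
    apply Subtype.ext
    apply Subtype.ext
    exact (C.adS k).T_comm _ _ hs ht
  T_conj_U := by
    intro x hx u hu
    exact (FT_conj hS.na (x : GF D k) hx).1 _ hu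
  X_le := by
    intro J x hx
    exact ((XJ_le hS (σ := σ) (srep hS J)).1 hx).1
  q_mul := by
    intro J x hx y hy
    exact C.xi_mul _ _ _ (Z9_U _ ((XJ_le hS (σ := σ) (srep hS J)).1 hx).1)
      (Z9_U _ ((XJ_le hS (σ := σ) (srep hS J)).1 hy).1)
  a_mul := by
    intro J s hs t ht
    exact C.chi_mul _ _ (Z9_Gad hS.na _) (Z9_Gad hS.na _) (Z9_Fil _ hs) (Z9_Fil _ ht) _
  a_ne := by
    intro J s hs
    exact C.chi_ne_zero _ (Z9_Gad hS.na _) (Z9_Fil _ hs) _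
  X_conj := by
    intro J s hs x hx
    refine ⟨Z9_T_conj hS.na (s : GF D k) hs _ _ hx.1, ?_⟩
    have h1 : σ (s : GF D k) = s := Esr_le_Fx s.2
    have h2 : σ (x : GF D k) = x := hx.2
    change σ ((s : GF D k) * (x : GF D k) * (s : GF D k)⁻¹) = _
    rw [map_mul, map_mul, map_inv, h1, h2]
    rfl
  q_conj := by
    intro J s hs x hx
    exact (C.xi_conj _ _ (Z9_Gad hS.na _) (Z9_Fil _ hs)
      (Z9_U _ ((XJ_le hS (σ := σ) (srep hS J)).1 hx).1) _).2
  q_smul := by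
    intro J c _ x hx
    obtain ⟨y, hy, h1⟩ := hJ.onto (srep hS J) (srep_spec hS J).1
      (c * C.xi (srep hS J) (((x : GF D k) : GL C.Idx k) : Matrix C.Idx C.Idx k))
    have hy' : y ∈ Esr D σ :=
      (le_sup_left : FU D k ⊓ Fx σ ≤ Esr D σ) ((XJ_le hS (σ := σ) (srep hS J)).1 hy)
    exact ⟨⟨y, hy'⟩, hy, h1⟩
  ker_q := by
    intro J x hx h0
    have h1 := hJ.ker (srep hS J) (srep_spec hS J).1 (x : GF D k) hx h0
    have hle : XJ hS.na t0 σ (srep hS J) ≤ Esr D σ := fun y hy =>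
      (le_sup_left : FU D k ⊓ Fx σ ≤ Esr D σ) ((XJ_le hS (σ := σ) (srep hS J)).1 hy)
    have h2 : ((XJ hS.na t0 σ (srep hS J)).subgroupOf (Esr D σ)).map (Esr D σ).subtype =
        XJ hS.na t0 σ (srep hS J) := Subgroup.map_subgroupOf_eq_of_le hle
    rw [← h2, ← Subgroup.map_commutator] at h1
    obtain ⟨y, hy, hyx⟩ := h1
    have h3 : y = x := Subtype.ext hyx
    rw [← h3]
    exact hy
  cent := by
    intro J s hs h1 x hx
    apply Subtype.ext
    exact Z9_cent hS.na (s : GF D k) hs (RJ D t0 (srep hS J))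
      (fun β hβ => Z9_chi_all hS h (srep hS J) _ hs (Esr_le_Fx s.2) h1 β hβ.2) _ hx.1
  cent_neg := by
    intro J s hs h1 x hx
    obtain ⟨h2, -, h3, w, hw, hi, ha⟩ := nuS_spec hS h hJ (srep hS J)
    apply Subtype.ext
    refine Z9_cent hS.na (s : GF D k) hs {β | -β ∈ RJ D t0 (srep hS J)}
      (fun β hβ => ?_) _ ((nu_XJ hS h (srep hS J) _ h2 h3 w hw hi ha (x : GF D k)).1.mp hx).1
    have h4 := Z9_chi_all hS h (srep hS J) (s : GF D k) hs (Esr_le_Fx s.2) h1 (-β) hβ.2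
    rw [Z9_chi_neg hS.na (s : GF D k) hs] at h4
    exact inv_eq_one.mp h4
  k0_inf := by
    exact Infinite.of_injective (fun t : k => (⟨t, Subfield.mem_top t⟩ : (⊤ : Subfield k)))
      (fun a b hab => congrArg Subtype.val hab)
  N_ne := hJ.N_ne
  sep := by
    intro J s _ hs0
    obtain ⟨x, hx, h1, h2⟩ := hJ.sep (srep hS J) (srep_spec hS J).1 s hs0
    refine ⟨⟨x, hx.2⟩, hx.1, h1, fun J' hJ' => ?_⟩
    apply h2 (srep hS J') (srep_spec hS J').1
    intro h3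
    apply hJ'
    rw [← (srep_spec hS J').2.1]
    exact ((srep_spec hS J).2.2 _).mpr h3
  ν_conj := by
    intro J s hs
    have h1 := (FT_conj hS.na (s : GF D k) hs).2.2 (nuS hS h hJ (srep hS J))⁻¹
      (inv_mem (nuS_spec hS h hJ (srep hS J)).1)
    rw [inv_inv] at h1
    exact h1
  a_ν := by
    intro J s hs _
    obtain ⟨h2, -, h3, w, hw, hi, ha⟩ := nuS_spec hS h hJ (srep hS J)
    obtain ⟨j, hj, h4⟩ := Z9_wJ hS (srep hS J) (srep_spec hS J).1 w hw
      (Z9_rE hS.na _ h2 w ha) hi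
    have h5 := Z9_chi_conj hS.na (s : GF D k) (nuS hS h hJ (srep hS J)) hs h2 w ha
      (C.simple (srep hS J))
    rw [h4, Z9_chi_neg hS.na (s : GF D k) hs, Z9_chi_cycle hS.na (s : GF D k) hs _ _ hj] at h5
    exact h5

end Pool.Agent.H86.UM
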