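import Mathlib

/-!
# Project UM, Suzuki-Ree groups, module ZA: fields with `θ (θ t) = t ^ p`

`norm_span`: `R` is a subring with `t * θ t ∈ R`, so (polarisation `t ↦ t + 1`) `t + θ t ∈ R`; `R` is closed under
inverses: for `r ∈ R`, `r ≠ 0`, `r⁻¹ = (r⁻¹ + θ r⁻¹) - (r⁻¹ * θ r⁻¹) * r ∈ R`. From `t + θ t ∈ R` and
`θ t + θ (θ t) ∈ R`: `s := t - t ^ p ∈ R`. `p` odd: apply this to `t ^ 2`:
`t ^ 2 - t ^ (2 p) = s * (t + t ^ p) = s * (2 t - s)`, so `2 s t ∈ R`, so `t ∈ R` if `s ≠ 0`. `p = 2`: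
`s = t + t ^ 2`; apply it to `t ^ 3`: `t ^ 3 + t ^ 6 = t ^ 2 * s * (1 + s)`, so `t ^ 2 ∈ R`, `t = s + t ^ 2 ∈ R` if
`s ≠ 0, 1`. `s = 0`: `t ^ p = t`, `t` is in the prime field (`t ^ p - t` has only `p` roots) so in `R`.
`p = 2`, `s = 1`: `t ^ 2 + t = 1`; then `t ∈ R`: (`t ^ 3 = 1`, `θ t ∈ {t, t ^ 2}` is a root of the same polynomial,
`θ (θ t) = t ^ 2 ≠ t` but if `θ t = t` then `θ (θ t) = t`, and if `θ t = t ^ 2` then `θ (θ t) = t ^ 4 = t`:
contradiction, so this case does not occur.)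

`norm_module`: `R := {r | ∀ v ∈ M, r * v ∈ M}`.
`two_homs`: `{t | χ t = φ t}` and `{t | χ t = ψ t}` are additive subgroups whose union is everything; a group is not
the union of two proper subgroups.
`semi`: `φ r` := the unique `r'`; `f r = φ r * f 1`.
`semi_sq`: the set of `r` with `∃ r', ∀ t, f (r t) = r' f t` is a subring containing all squares; `p = 3`, so
every element is a difference of two squares times a constant: `r = (r + 1) ^ 2 - (r - 1) ^ 2` (`4 = 1`).
`norm_rigid`: the set of `r` with `∃ r', ∀ v, g (r v) = r' g v` is a subring containing all `t * θ t`, so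
everything (`norm_span`), `g v = ψ v * g 1` with a ring homomorphism `ψ` (`semi`), `ψ (t θ t) = φ t * θ' (φ t)`
(for `t ≠ 0`; uniqueness of `r'`). Polarise: `ψ t + ψ (θ t) = φ t + θ' (φ t)`, so `ψ t` is a root of
`(X - φ t) (X - θ' (φ t))`; `two_homs` for `ψ, φ, θ' ∘ φ`. If `ψ = φ` then `φ (θ t) = ψ (θ t) = θ' (φ t)`.
If `ψ = θ' ∘ φ` then `θ' (φ (θ t)) = ψ (θ t) = φ t` for all `t`, so `φ (θ t) = θ' (φ (θ (θ t))) = (θ' (φ t)) ^ p`,
`φ t = θ' (φ (θ t)) = (θ' (θ' (φ t))) ^ p = φ t ^ (p * p)`, so `t ^ (p * p) = t` for all `t`: contradiction as `k` is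
infinite.
`zeta2`: if `ζ t ≠ 0` then `(s + 1) θ (s + 1) = s θ s + 1` for all `s ≠ 0, -1`, so `s + θ s = 0`, so `θ s = s`
(`p = 2`), `s ^ 2 = s` for all `s`. `zeta3a`, `zeta3b`: `p = 3`; `(s + 1) ^ 2 + (s - 1) ^ 2 = 2 s ^ 2 + 2`, so with
`χ(s) = s ^ 2 θ(s ^ 2)`, resp. `χ(s) = s ^ 4 θ(s ^ 2)`, `χ(s + 1) + χ(s - 1) = 2 χ(s) + 2 χ(1)` for `s ≠ 0, 1, -1`
if `ζ t ≠ 0`; the difference of the two sides is `2 (s - θ s) ^ 2`, resp.
`2 (θ s - s) (θ s - s ^ 3) = - 2 (θ s - s) * θ (θ s - s)`; so `θ s = s`, `s ^ 3 = s` for almost all `s`.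
-/

set_option autoImplicit false

namespace Pool.Agent.H86.UM

variable {k : Type*} [Field k] (p : ℕ) [Fact p.Prime] [CharP k p] (θ : k ≃+* k)
  (hθ : ∀ t, θ (θ t) = t ^ p)

include hθ

theorem norm_span (R : AddSubgroup k) (hm : ∀ a ∈ R, ∀ b ∈ R, a * b ∈ R)
    (h : ∀ t, t * θ t ∈ R) : R = ⊤ := by
  have h1 : (1 : k) ∈ R := by
    have := h 1
    rwa [map_one, mul_one] at this
  have hp : ∀ t, t + θ t ∈ R := by
    intro t
    have e : t + θ t = (t + 1) * θ (t + 1) - t * θ t - 1 := by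
      rw [map_add, map_one]
      ring
    rw [e]
    exact R.sub_mem (R.sub_mem (h _) (h _)) h1
  have hinv : ∀ r ∈ R, r ≠ 0 → r⁻¹ ∈ R := by
    intro r hr hr0
    have e : r⁻¹ = (r⁻¹ + θ r⁻¹) - (r⁻¹ * θ r⁻¹) * r := by
      have e1 : r⁻¹ * θ r⁻¹ * r = θ r⁻¹ := by
        rw [mul_comm, ← mul_assoc, mul_inv_cancel₀ hr0, one_mul]
      rw [e1]
      ring
    rw [e]
    exact R.sub_mem (hp _) (hm _ (h _) _ hr)
  have hs : ∀ t, t - t ^ p ∈ R := by
    intro t
    have e : t - t ^ p = (t + θ t) - (θ t + θ (θ t)) := by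
      rw [hθ]
      ring
    rw [e]
    exact R.sub_mem (hp _) (hp _)
  have hcancel : ∀ a b : k, a ∈ R → a ≠ 0 → a * b ∈ R → b ∈ R := by
    intro a b ha ha0 hab
    have e : b = a⁻¹ * (a * b) := by
      rw [← mul_assoc, inv_mul_cancel₀ ha0, one_mul]
    rw [e]
    exact hm _ (hinv a ha ha0) _ hab
  -- the prime field
  let F : Subfield k :=
    { carrier := R
      mul_mem' := fun {a b} ha hb => hm a ha b hb
      one_mem' := h1
      add_mem' := fun {a b} ha hb => R.add_mem ha hb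
      zero_mem' := R.zero_mem
      neg_mem' := fun {a} ha => R.neg_mem ha
      inv_mem' := by
        intro a ha
        by_cases ha0 : a = 0
        · rw [ha0, inv_zero]
          exact R.zero_mem
        · exact hinv a ha ha0 }
  have hprime : ∀ t : k, t ^ p = t → t ∈ R := by
    intro t ht
    have h2 : t ∈ (⊥ : Subfield k) := (Subfield.mem_bot_iff_pow_eq_self k p).2 ht
    exact (bot_le : (⊥ : Subfield k) ≤ F) h2
  rw [eq_top_iff]
  intro t _
  by_cases hs0 : t - t ^ p = 0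
  · exact hprime t (sub_eq_zero.1 hs0).symm
  · rcases Nat.Prime.eq_two_or_odd' (Fact.out : p.Prime) with hp2 | hodd
    · subst hp2
      have h2 : (2 : k) = 0 := CharTwo.two_eq_zero
      by_cases hs1 : t - t ^ 2 = 1
      · exfalso
        have ht2 : t ^ 2 = t + 1 := by linear_combination -hs1 - h2
        have ht1 : (1 : k) ≠ 0 := one_ne_zero
        have hθ2 : (θ t) ^ 2 = θ t + 1 := by
          rw [← map_pow, ht2, map_add, map_one]
        have hprod : (θ t - t) * (θ t - t - 1) = 0 := by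
          linear_combination hθ2 + ht2 + (- θ t * t + t + 1) * h2
        rcases mul_eq_zero.1 hprod with h3 | h3
        · have h4 : θ t = t := sub_eq_zero.1 h3
          have h5 := hθ t
          rw [h4, h4] at h5
          apply ht1
          linear_combination -h5 - ht2
        · have h4 : θ t = t + 1 := by linear_combination h3
          have h5 := hθ t
          rw [h4, map_add, map_one, h4] at h5
          apply ht1
          linear_combination h5 + ht2
      · have e : (t - t ^ 2) * (1 + (t - t ^ 2)) * t ^ 2 = t ^ 3 - (t ^ 3) ^ 2 := by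
          linear_combination (t ^ 6 - t ^ 5) * h2
        have hne : (t - t ^ 2) * (1 + (t - t ^ 2)) ≠ 0 := by
          refine mul_ne_zero hs0 fun h3 => hs1 ?_
          linear_combination h3 - h2
        have h3 : t ^ 2 ∈ R := by
          refine hcancel _ _ (hm _ (hs t) _ (R.add_mem h1 (hs t))) hne ?_
          rw [e]
          exact hs _
        have e2 : t = (t - t ^ 2) + t ^ 2 := by ring
        rw [e2]
        exact R.add_mem (hs t) h3
    · have h2 : (2 : k) ≠ 0 := by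
        intro h0
        have h3 : ((2 : ℕ) : k) = 0 := by exact_mod_cast h0
        rw [CharP.cast_eq_zero_iff k p 2] at h3
        have h4 := Nat.le_of_dvd (by norm_num) h3
        have h5 := (Fact.out : p.Prime).two_le
        have h6 : p = 2 := by omega
        rw [h6] at hodd
        exact absurd hodd (by decide)
      have h2R : (2 : k) ∈ R := by
        rw [← one_add_one_eq_two]
        exact R.add_mem h1 h1
      have e : 2 * (t - t ^ p) * t = (t ^ 2 - (t ^ 2) ^ p) + (t - t ^ p) * (t - t ^ p) := by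
        have e1 : (t ^ 2) ^ p = (t ^ p) ^ 2 := by rw [← pow_mul, ← pow_mul, mul_comm]
        rw [e1]
        ring
      refine hcancel (2 * (t - t ^ p)) t (hm _ h2R _ (hs t)) (mul_ne_zero h2 hs0) ?_
      rw [e]
      exact R.add_mem (hs _) (hm _ (hs t) _ (hs t))

theorem norm_module (M : AddSubgroup k) (hM : ∀ t, ∀ v ∈ M, t * θ t * v ∈ M)
    (hne : ∃ v ∈ M, v ≠ 0) : M = ⊤ := by
  obtain ⟨v, hv, hv0⟩ := hne
  let R : AddSubgroup k :=
    { carrier := {r | ∀ v ∈ M, r * v ∈ M}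
      add_mem' := by
        intro a b ha hb v hv
        rw [add_mul]
        exact M.add_mem (ha v hv) (hb v hv)
      zero_mem' := by
        intro v _
        rw [zero_mul]
        exact M.zero_mem
      neg_mem' := by
        intro a ha v hv
        rw [neg_mul]
        exact M.neg_mem (ha v hv) }
  have hR : R = ⊤ := by
    refine norm_span p θ hθ R ?_ ?_
    · intro a ha b hb v hv
      rw [mul_assoc]
      exact ha _ (hb v hv)
    · intro t v hv
      exact hM t v hv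
  rw [eq_top_iff]
  intro x _
  have hx : x / v ∈ R := by
    rw [hR]
    exact AddSubgroup.mem_top _
  have h2 : x / v * v ∈ M := hx v hv
  rwa [div_mul_cancel₀ x hv0] at h2

omit hθ in
theorem two_homs {G A : Type*} [AddGroup G] [AddGroup A] (χ φ ψ : G →+ A)
    (h : ∀ t, χ t = φ t ∨ χ t = ψ t) : (∀ t, χ t = φ t) ∨ ∀ t, χ t = ψ t := by
  by_contra hcon
  rw [not_or, not_forall, not_forall] at hcon
  obtain ⟨⟨a, ha⟩, ⟨b, hb⟩⟩ := hcon
  have ha' : χ a = ψ a := (h a).resolve_left ha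
  have hb' : χ b = φ b := (h b).resolve_right hb
  rcases h (a + b) with h1 | h1
  · rw [map_add, map_add, hb'] at h1
    exact ha (add_right_cancel h1)
  · rw [map_add, map_add, ha'] at h1
    exact hb (add_left_cancel h1)

omit [Fact p.Prime] [CharP k p] hθ in
theorem semi {K : Type*} [Field K] (f : k → K) (hadd : ∀ a b, f (a + b) = f a + f b)
    (hne : ∃ t, f t ≠ 0) (h : ∀ r, ∃ r' : K, ∀ t, f (r * t) = r' * f t) :
    ∃ φ : k →+* K, f 1 ≠ 0 ∧ (∀ r t, f (r * t) = φ r * f t) ∧ ∀ r, f r = f 1 * φ r := by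
  have h1 : f 1 ≠ 0 := by
    obtain ⟨t, ht⟩ := hne
    intro h0
    obtain ⟨r', hr'⟩ := h t
    have := hr' 1
    rw [mul_one, h0, mul_zero] at this
    exact ht this
  have h2 : ∀ r t, f (r * t) = f r / f 1 * f t := by
    intro r t
    obtain ⟨r', hr'⟩ := h r
    have h3 := hr' 1
    rw [mul_one] at h3
    rw [hr' t, h3, mul_div_cancel_right₀ _ h1]
  have h0 : f 0 = 0 := by
    have := hadd 0 0
    rw [add_zero] at this
    exact left_eq_add.1 this
  refine ⟨{ toFun := fun r => f r / f 1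
            map_one' := div_self h1
            map_mul' := ?_
            map_zero' := ?_
            map_add' := ?_ }, h1, ?_, ?_⟩
  · intro a b
    show f (a * b) / f 1 = f a / f 1 * (f b / f 1)
    rw [h2, mul_div_assoc]
  · show f 0 / f 1 = 0
    rw [h0, zero_div]
  · intro a b
    show f (a + b) / f 1 = f a / f 1 + f b / f 1
    rw [hadd, add_div]
  · intro r t
    exact h2 r t
  · intro r
    show f r = f 1 * (f r / f 1)
    rw [mul_div_cancel₀ _ h1]

omit [Fact p.Prime] [CharP k p] hθ in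
theorem semi_sq [CharP k 3] {K : Type*} [Field K] (f : k → K)
    (hadd : ∀ a b, f (a + b) = f a + f b)
    (hne : ∃ t, f t ≠ 0) (h : ∀ s, s ≠ 0 → ∃ r' : K, ∀ t, f (s ^ 2 * t) = r' * f t) :
    ∃ φ : k →+* K, f 1 ≠ 0 ∧ (∀ r t, f (r * t) = φ r * f t) ∧ ∀ r, f r = f 1 * φ r := by
  have h3 : (3 : k) = 0 := by
    have := CharP.cast_eq_zero k 3
    exact_mod_cast this
  have h0 : f 0 = 0 := by
    have := hadd 0 0
    rw [add_zero] at this
    exact left_eq_add.1 this
  have hsub : ∀ a b, f (a - b) = f a - f b := by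
    intro a b
    have := hadd (a - b) b
    rw [sub_add_cancel] at this
    rw [this, add_sub_cancel_right]
  have h' : ∀ s, ∃ r' : K, ∀ t, f (s ^ 2 * t) = r' * f t := by
    intro s
    by_cases hs : s = 0
    · refine ⟨0, fun t => ?_⟩
      rw [hs, zero_pow two_ne_zero, zero_mul, zero_mul, h0]
    · exact h s hs
  refine semi f hadd hne ?_
  intro r
  obtain ⟨a, ha⟩ := h' (r + 1)
  obtain ⟨b, hb⟩ := h' (r - 1)
  refine ⟨a - b, fun t => ?_⟩
  have e : r * t = (r + 1) ^ 2 * t - (r - 1) ^ 2 * t := by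
    linear_combination (- r * t) * h3
  rw [e, hsub, ha, hb, sub_mul]

theorem norm_rigid [Infinite k] {K : Type*} [Field K] (θ' : K ≃+* K)
    (hθ' : ∀ t, θ' (θ' t) = t ^ p) (φ : k →+* K) (g : k → K)
    (hadd : ∀ a b, g (a + b) = g a + g b) (hne : ∃ t, g t ≠ 0)
    (h : ∀ t v, g (t * θ t * v) = φ t * θ' (φ t) * g v) :
    (∀ t, φ (θ t) = θ' (φ t)) ∧ g 1 ≠ 0 ∧ ∀ v, g v = g 1 * φ v := by
  have h0 : g 0 = 0 := by
    have := hadd 0 0
    rw [add_zero] at this
    exact left_eq_add.1 this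
  have hneg : ∀ a, g (-a) = - g a := by
    intro a
    have := hadd (-a) a
    rw [neg_add_cancel, h0] at this
    exact eq_neg_of_add_eq_zero_left this.symm
  let R : AddSubgroup k :=
    { carrier := {r | ∃ r' : K, ∀ v, g (r * v) = r' * g v}
      add_mem' := by
        rintro a b ⟨a', ha⟩ ⟨b', hb⟩
        refine ⟨a' + b', fun v => ?_⟩
        rw [add_mul, hadd, ha, hb, add_mul]
      zero_mem' := by
        refine ⟨0, fun v => ?_⟩
        rw [zero_mul, zero_mul, h0]
      neg_mem' := by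
        rintro a ⟨a', ha⟩
        refine ⟨-a', fun v => ?_⟩
        rw [neg_mul, neg_mul, hneg, ha] }
  have hR : R = ⊤ := by
    refine norm_span p θ hθ R ?_ ?_
    · rintro a ⟨a', ha⟩ b ⟨b', hb⟩
      refine ⟨a' * b', fun v => ?_⟩
      rw [mul_assoc, ha, hb, mul_assoc]
    · intro t
      exact ⟨φ t * θ' (φ t), fun v => h t v⟩
  have hall : ∀ r, ∃ r' : K, ∀ v, g (r * v) = r' * g v := by
    intro r
    have : r ∈ R := by
      rw [hR]
      exact AddSubgroup.mem_top _
    exact this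
  obtain ⟨ψ, hg1, hψ1, hψ2⟩ := semi g hadd hne hall
  have hprod : ∀ t, ψ t * ψ (θ t) = φ t * θ' (φ t) := by
    intro t
    have h2 := h t 1
    rw [hψ1, map_mul] at h2
    exact mul_right_cancel₀ hg1 h2
  have hsum : ∀ t, ψ t + ψ (θ t) = φ t + θ' (φ t) := by
    intro t
    have h2 := hprod (t + 1)
    simp only [map_add, map_one] at h2
    linear_combination h2 - hprod t
  have hroot : ∀ t, ψ t = φ t ∨ ψ t = θ' (φ t) := by
    intro t
    have h2 : (ψ t - φ t) * (ψ t - θ' (φ t)) = 0 := by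
      linear_combination (ψ t) * hsum t - hprod t
    rcases mul_eq_zero.1 h2 with h3 | h3
    · exact Or.inl (sub_eq_zero.1 h3)
    · exact Or.inr (sub_eq_zero.1 h3)
  rcases two_homs (ψ : k →+ K) (φ : k →+ K) ((θ' : K →+ K).comp (φ : k →+ K)) hroot with h4 | h4
  · have h5 : ∀ t, ψ t = φ t := h4
    refine ⟨?_, hg1, ?_⟩
    · intro t
      have h6 := hsum t
      rw [h5, h5] at h6
      exact add_left_cancel h6
    · intro v
      rw [hψ2, h5]
  · exfalso
    have h5 : ∀ t, ψ t = θ' (φ t) := h4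
    have h6 : ∀ t, θ' (φ (θ t)) = φ t := by
      intro t
      have h7 := hsum t
      rw [h5, h5, add_comm] at h7
      exact add_right_cancel h7
    have h7 : ∀ t, φ (θ t) = (θ' (φ t)) ^ p := by
      intro t
      rw [← h6 (θ t), hθ, map_pow, map_pow]
    have h8 : ∀ t : k, t ^ (p * p) = t := by
      intro t
      apply φ.injective
      rw [map_pow]
      have h9 := h6 t
      rw [h7, map_pow, hθ', ← pow_mul] at h9
      exact h9
    have hpp : 1 < p * p := by
      have := (Fact.out : p.Prime).two_le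
      nlinarith
    have hP : (Polynomial.X ^ (p * p) - Polynomial.X : Polynomial k) ≠ 0 := by
      intro h9
      have h10 : (Polynomial.X ^ (p * p) - Polynomial.X : Polynomial k).coeff (p * p) = 0 := by
        rw [h9, Polynomial.coeff_zero]
      rw [Polynomial.coeff_sub, Polynomial.coeff_X_pow_self, Polynomial.coeff_X_of_ne_one (by omega),
        sub_zero] at h10
      exact one_ne_zero h10
    have hfin := Polynomial.finite_setOfPred_isRoot hP
    refine Set.infinite_univ (hfin.subset ?_)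
    intro t _
    show (Polynomial.X ^ (p * p) - Polynomial.X : Polynomial k).eval t = 0
    rw [Polynomial.eval_sub, Polynomial.eval_pow, Polynomial.eval_X, h8, sub_self]

omit [Fact p.Prime] [CharP k p] hθ in
theorem zeta2 [Infinite k] [CharP k 2] (hθ : ∀ t, θ (θ t) = t ^ 2) {K : Type*} [Field K]
    (φ : k →+* K) (ζ : k → K) (hadd : ∀ a b, ζ (a + b) = ζ a + ζ b)
    (h : ∀ s t, s ≠ 0 → ζ (s * t) = φ (s * θ s) * ζ t) (t : k) : ζ t = 0 := by
  classical
  by_contra ht
  have h2 : (2 : k) = 0 := CharTwo.two_eq_zero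
  obtain ⟨s, hs⟩ := Infinite.exists_notMem_finset ({0, 1, -1} : Finset k)
  simp only [Finset.mem_insert, Finset.mem_singleton, not_or] at hs
  obtain ⟨hs0, hs1, hs2⟩ := hs
  have hs3 : s + 1 ≠ 0 := fun h3 => hs2 (eq_neg_of_add_eq_zero_left h3)
  have e1 := h (s + 1) t hs3
  rw [add_mul, hadd, h s t hs0, one_mul] at e1
  have e2 : φ ((s + 1) * θ (s + 1)) = φ (s * θ s + 1) := by
    apply mul_right_cancel₀ ht
    rw [← e1, map_add φ (s * θ s) 1, map_one, add_mul, one_mul]
  have e3 := φ.injective e2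
  rw [map_add θ, map_one] at e3
  have e4 : θ s = s := by linear_combination e3 - s * h2
  have e5 := hθ s
  rw [e4, e4] at e5
  have e6 : s * (s - 1) = 0 := by linear_combination -e5
  rcases mul_eq_zero.1 e6 with h3 | h3
  · exact hs0 h3
  · exact hs1 (sub_eq_zero.1 h3)

omit [Fact p.Prime] [CharP k p] hθ in
theorem zeta3a [Infinite k] [CharP k 3] (hθ : ∀ t, θ (θ t) = t ^ 3) {K : Type*} [Field K]
    (φ : k →+* K) (ζ : k → K) (hadd : ∀ a b, ζ (a + b) = ζ a + ζ b)
    (h : ∀ s t, s ≠ 0 → ζ (s ^ 2 * t) = φ (s ^ 2 * θ (s ^ 2)) * ζ t) (t : k) : ζ t = 0 := by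
  classical
  by_contra ht
  have h3 : (3 : k) = 0 := by
    have := CharP.cast_eq_zero k 3
    exact_mod_cast this
  obtain ⟨s, hs⟩ := Infinite.exists_notMem_finset ({0, 1, -1} : Finset k)
  simp only [Finset.mem_insert, Finset.mem_singleton, not_or] at hs
  obtain ⟨hs0, hs1, hs2⟩ := hs
  have hs3 : s + 1 ≠ 0 := fun h4 => hs2 (eq_neg_of_add_eq_zero_left h4)
  have hs4 : s - 1 ≠ 0 := fun h4 => hs1 (sub_eq_zero.1 h4)
  have e0 : (s + 1) ^ 2 * t + (s - 1) ^ 2 * t = (s ^ 2 * t + s ^ 2 * t) + (t + t) := by ring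
  have e1 := congrArg ζ e0
  rw [hadd, hadd, hadd, hadd, h _ _ hs3, h _ _ hs4, h _ _ hs0] at e1
  have e2 : φ ((s + 1) ^ 2 * θ ((s + 1) ^ 2) + (s - 1) ^ 2 * θ ((s - 1) ^ 2)) =
      φ ((s ^ 2 * θ (s ^ 2) + s ^ 2 * θ (s ^ 2)) + (1 + 1)) := by
    apply mul_right_cancel₀ ht
    rw [map_add φ, map_add φ (s ^ 2 * θ (s ^ 2) + s ^ 2 * θ (s ^ 2)), map_add φ (s ^ 2 * θ (s ^ 2)),
      map_add φ 1 1, map_one]
    linear_combination e1
  have e3 := φ.injective e2
  simp only [map_pow, map_add, map_sub, map_one] at e3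
  have h2 : (2 : k) ≠ 0 := by
    intro h4
    apply one_ne_zero (α := k)
    linear_combination h3 - h4
  have e4 : 2 * (s - θ s) ^ 2 = 0 := by
    linear_combination e3 - 4 * s * θ s * h3
  have e5 : s - θ s = 0 := by
    rcases mul_eq_zero.1 e4 with h4 | h4
    · exact absurd h4 h2
    · exact pow_eq_zero_iff (two_ne_zero) |>.1 h4
  have e6 : θ s = s := by linear_combination -e5
  have e7 := hθ s
  rw [e6, e6] at e7
  have e8 : s * ((s - 1) * (s + 1)) = 0 := by linear_combination -e7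
  rcases mul_eq_zero.1 e8 with h4 | h4
  · exact hs0 h4
  · rcases mul_eq_zero.1 h4 with h5 | h5
    · exact hs4 h5
    · exact hs3 h5

omit [Fact p.Prime] [CharP k p] hθ in
theorem zeta3b [Infinite k] [CharP k 3] (hθ : ∀ t, θ (θ t) = t ^ 3) {K : Type*} [Field K]
    (φ : k →+* K) (ζ : k → K) (hadd : ∀ a b, ζ (a + b) = ζ a + ζ b)
    (h : ∀ s t, s ≠ 0 → ζ (s ^ 2 * t) = φ (s ^ 4 * θ (s ^ 2)) * ζ t) (t : k) : ζ t = 0 := by
  classical
  by_contra ht
  have h3 : (3 : k) = 0 := by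
    have := CharP.cast_eq_zero k 3
    exact_mod_cast this
  obtain ⟨s, hs⟩ := Infinite.exists_notMem_finset ({0, 1, -1} : Finset k)
  simp only [Finset.mem_insert, Finset.mem_singleton, not_or] at hs
  obtain ⟨hs0, hs1, hs2⟩ := hs
  have hs3 : s + 1 ≠ 0 := fun h4 => hs2 (eq_neg_of_add_eq_zero_left h4)
  have hs4 : s - 1 ≠ 0 := fun h4 => hs1 (sub_eq_zero.1 h4)
  have e0 : (s + 1) ^ 2 * t + (s - 1) ^ 2 * t = (s ^ 2 * t + s ^ 2 * t) + (t + t) := by ring
  have e1 := congrArg ζ e0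
  rw [hadd, hadd, hadd, hadd, h _ _ hs3, h _ _ hs4, h _ _ hs0] at e1
  have e2 : φ ((s + 1) ^ 4 * θ ((s + 1) ^ 2) + (s - 1) ^ 4 * θ ((s - 1) ^ 2)) =
      φ ((s ^ 4 * θ (s ^ 2) + s ^ 4 * θ (s ^ 2)) + (1 + 1)) := by
    apply mul_right_cancel₀ ht
    rw [map_add φ, map_add φ (s ^ 4 * θ (s ^ 2) + s ^ 4 * θ (s ^ 2)), map_add φ (s ^ 4 * θ (s ^ 2)),
      map_add φ 1 1, map_one]
    linear_combination e1
  have e3 := φ.injective e2
  simp only [map_pow, map_add, map_sub, map_one] at e3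
  have h2 : (2 : k) ≠ 0 := by
    intro h4
    apply one_ne_zero (α := k)
    linear_combination h3 - h4
  have e4 : 2 * ((θ s - s) * (θ s - s ^ 3)) = 0 := by
    linear_combination e3 + (- 4 * s ^ 2 * θ s ^ 2 - 4 * s ^ 2 - 6 * s ^ 3 * θ s - 6 * s * θ s) * h3
  have e5 : (θ s - s) * θ (θ s - s) = 0 := by
    rw [map_sub, hθ]
    rcases mul_eq_zero.1 e4 with h4 | h4
    · exact absurd h4 h2
    · linear_combination -h4
  have e6 : θ s = s := by
    rcases mul_eq_zero.1 e5 with h4 | h4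
    · exact sub_eq_zero.1 h4
    · rw [map_eq_zero_iff θ θ.injective] at h4
      exact sub_eq_zero.1 h4
  have e7 := hθ s
  rw [e6, e6] at e7
  have e8 : s * ((s - 1) * (s + 1)) = 0 := by linear_combination -e7
  rcases mul_eq_zero.1 e8 with h4 | h4
  · exact hs0 h4
  · rcases mul_eq_zero.1 h4 with h5 | h5
    · exact hs4 h5
    · exact hs3 h5

end Pool.Agent.H86.UM
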