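import Pool.Agent.H86.UM.Z5

/-!
# Project UM, Suzuki-Ree groups, module ZC: commutators in characteristic `2`

`m = 2`, characteristic `2` (signs do not matter), `NA`. Commutators `[x, y] = x y x⁻¹ y⁻¹` of `yg α t`, `yg β u`,
`α, β ∈ R` (positive): `yg β u = x_β(u)` if `β` is fixed, `x_β(u) x_(rβ)(u)` otherwise.
(LL) both fixed: `1` or `yg (α+β) (t u)`.
(LS) `α` fixed, `β` not: `ip α (r β) = ip α β`. If this is `≥ 0`: `1`. If it is `-1`: `γ = α + β` is a root, not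
fixed, `ip γ (r β) = -1`, `δ = α + β + r β` is a root, fixed, and the commutator is `yg γ (t u) * yg δ (t u ^ 2)`.
(SS) both not fixed. If `α, β` are in one cycle: `1`. Consider `ip α β`, `ip α (r β)` (`ip (r α) (r β) = ip α β`,
`ip (r α) β = ip α (r β)`). If both are `≥ 0`: `1`. We may assume `ip α β = -1` (replace `β` by `r β`).
`γ = α + β`. If `γ` is fixed: `r α + r β = α + β`, so `ip α (r β) = ip α (γ - r α) = 1 - 0`; the commutator is
`x_γ(t u) x_γ(t u) = 1` (the two pairs `(α, β)`, `(r α, r β)`; characteristic `2`). If `γ` is not fixed: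
`0 = ip γ (r γ) = 2 ip α (r β)` (`ip_r_NA`), so `ip α (r β) = 0` and the commutator is `yg γ (t u)`.
Hence for generators: `[yg α t, yg β u] ∈ AW (wt α + wt β)`. Then `AW a` is normalised by `AW b` for `b ≥ 1`
(`wt α ≥ 1`), and `[x, y] ∈ AW (a + b)` for `x ∈ AW a`, `y ∈ AW b`, `a, b ≥ 1`, by closure induction
(`[x x', y] = x [x', y] x⁻¹ [x, y]`).
`icomm_AW`: `icomm` is iterated `c ↦ h c h⁻¹ c⁻¹`. `icomm_AW'`: one of the elements has weight `≥ a`.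
-/

set_option autoImplicit false
open Matrix

namespace Pool.Agent.H86.UM

open Pool.Agent.H75.UL

variable {n : ℕ} {C : SLC n} {D : Dg C}

/-- `wt` is a weight function on the set of roots `R` -/
structure Wt2 (D : Dg C) (R : Set C.Root) (wt : C.Root → ℤ) : Prop where
  pos : ∀ β ∈ R, C.Pos β
  stab : ∀ β ∈ R, D.r β ∈ R ∧ wt (D.r β) = wt β
  one : ∀ β ∈ R, 1 ≤ wt β
  add : ∀ α ∈ R, ∀ β ∈ R, ∀ γ : C.Root, γ.1 = α.1 + β.1 →
    (D.r γ ≠ γ ∨ (D.r α = α ∧ D.r β = β)) → γ ∈ R ∧ wt α + wt β ≤ wt γ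
  add2 : ∀ α ∈ R, ∀ β ∈ R, ∀ γ : C.Root, D.r α = α → D.r β ≠ β → C.ip α.1 β.1 = -1 →
    γ.1 = α.1 + β.1 + (D.r β).1 → γ ∈ R ∧ wt α + wt β ≤ wt γ

/-- the subgroup of weight `≥ a` -/
noncomputable def AW (hN : D.NA) (k : Type*) [Field k] (R : Set C.Root) (wt : C.Root → ℤ)
    (a : ℤ) : Subgroup (GF D k) := FR hN k {β | β ∈ R ∧ a ≤ wt β}

private theorem ZC_sg {k : Type*} [Field k] [CharP k 2] (e : ℤ) (h : e = 1 ∨ e = -1) :
    (e : k) = 1 := by
  rcases h with rfl | rfl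
  · simp
  · have h2 : (2 : k) = 0 := by exact_mod_cast CharP.cast_eq_zero k 2
    push_cast
    linear_combination (-1 : k) * h2

private theorem ZC_self {k : Type*} [Field k] [CharP k 2] (t : k) : t + t = 0 := by
  have h2 : (2 : k) = 0 := by exact_mod_cast CharP.cast_eq_zero k 2
  linear_combination t * h2

private theorem ZC_rr (hm : D.m = 2) (β : C.Root) : D.r (D.r β) = β := by
  have h := D.r_m β
  rw [hm] at h
  exact h

private theorem ZC_ip_rr (hm : D.m = 2) (α β : C.Root) :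
    C.ip (D.r α).1 β.1 = C.ip α.1 (D.r β).1 := by
  have h := D.r_ip α (D.r β)
  rwa [ZC_rr hm] at h

private theorem ZC_short (hN : D.NA) (hm : D.m = 2) {k : Type*} [Field k] [CharP k 2]
    (β : C.Root) (h : D.r β ≠ β) (t : k) :
    ((yg hN β t : GF D k) : GL C.Idx k) = C.xg k β t * C.xg k (D.r β) t := by
  rw [yg_val]
  unfold yb mo
  rw [if_neg h, hm]
  have h1 := isSig_adS D (RingEquiv.refl k) β t
  have h2 : ((D.sg β : ℤ) : k) = 1 := ZC_sg _ (D.sg_eq β)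
  rw [h2, one_mul] at h1
  change ([0, 1].map _).prod = _
  rw [List.map_cons, List.map_cons, List.map_nil, List.prod_cons, List.prod_cons, List.prod_nil,
    mul_one]
  change (C.adS k).x β t * D.sgl (RingEquiv.refl k) ((C.adS k).x β t) = _
  rw [h1]
  rfl

private theorem ZC_r (hN : D.NA) {k : Type*} [Field k] [Infinite k] [CharP k 2]
    (β : C.Root) (t : k) : yg hN (D.r β) t = yg hN β t := by
  have h := yg_r hN β t
  rwa [ZC_sg _ (D.sg_eq β), one_mul] at h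

private theorem ZC_add {k : Type*} [Field k] [CharP k 2] (α β γ : C.Root) (s t : k)
    (h : γ.1 = α.1 + β.1) : C.xg k α s * C.xg k β t * (C.xg k α s)⁻¹ * (C.xg k β t)⁻¹ =
      C.xg k γ (s * t) := by
  rw [C.xg_comm_add k α β γ s t h, ZC_sg _ (C.eps_eq_one_or _ _), one_mul]

private theorem ZC_g0 {H : Type*} [Group H] (x y : H) (h : x * y = y * x) :
    x * y * x⁻¹ * y⁻¹ = 1 := by
  rw [h, mul_inv_cancel_right, mul_inv_cancel]

private theorem ZC_g1 {H : Type*} [Group H] (x y z a b c : H)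
    (h1 : x * y * x⁻¹ * y⁻¹ = a) (h2 : x * z * x⁻¹ * z⁻¹ = b) (h3 : y * b * y⁻¹ * b⁻¹ = c)
    (h4 : c * b = b * c) : x * (y * z) * x⁻¹ * (y * z)⁻¹ = a * b * c := by
  have e1 : x * (y * z) * x⁻¹ * (y * z)⁻¹ =
      (x * y * x⁻¹ * y⁻¹) * ((y * (x * z * x⁻¹ * z⁻¹) * y⁻¹ * (x * z * x⁻¹ * z⁻¹)⁻¹) *
        (x * z * x⁻¹ * z⁻¹)) := by group
  rw [e1, h1, h2, h3, h4, mul_assoc]

private theorem ZC_g2 {H : Type*} [Group H] (a₁ a₂ b₁ b₂ c c' : H)
    (h1 : a₂ * b₁ = b₁ * a₂) (h2 : a₁ * b₂ = b₂ * a₁) (h3 : a₁ * b₁ * a₁⁻¹ * b₁⁻¹ = c)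
    (h4 : a₂ * b₂ * a₂⁻¹ * b₂⁻¹ = c') (h5 : c' * a₁ = a₁ * c') (h6 : c' * b₁ = b₁ * c') :
    a₁ * a₂ * (b₁ * b₂) * (a₁ * a₂)⁻¹ * (b₁ * b₂)⁻¹ = c * c' := by
  have e1 : a₁ * a₂ * (b₁ * b₂) * (a₁ * a₂)⁻¹ * (b₁ * b₂)⁻¹ =
      a₁ * (a₂ * b₁) * b₂ * a₂⁻¹ * (b₂ * a₁)⁻¹ * b₁⁻¹ := by group
  have e2 : a₁ * (b₁ * a₂) * b₂ * a₂⁻¹ * (a₁ * b₂)⁻¹ * b₁⁻¹ =
      a₁ * b₁ * (a₂ * b₂ * a₂⁻¹ * b₂⁻¹) * a₁⁻¹ * b₁⁻¹ := by group
  have h5' : c' * a₁⁻¹ = a₁⁻¹ * c' := by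
    rw [mul_inv_eq_iff_eq_mul, mul_assoc, h5, inv_mul_cancel_left]
  have h6' : c' * b₁⁻¹ = b₁⁻¹ * c' := by
    rw [mul_inv_eq_iff_eq_mul, mul_assoc, h6, inv_mul_cancel_left]
  rw [e1, h1, ← h2, e2, h4, mul_assoc (a₁ * b₁) c' a₁⁻¹, h5', ← mul_assoc, mul_assoc _ c' b₁⁻¹,
    h6', ← mul_assoc, h3]

private theorem ZC_ll (hN : D.NA) {k : Type*} [Field k] [Infinite k] [CharP k 2]
    (α β : C.Root) (hα : D.r α = α) (hβ : D.r β = β) (t u : k) :
    (0 ≤ C.ip α.1 β.1 → yg hN α t * yg hN β u * (yg hN α t)⁻¹ * (yg hN β u)⁻¹ = 1) ∧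
    (∀ γ : C.Root, γ.1 = α.1 + β.1 →
      yg hN α t * yg hN β u * (yg hN α t)⁻¹ * (yg hN β u)⁻¹ = yg hN γ (t * u)) := by
  constructor
  · intro h
    apply Subtype.ext
    push_cast
    rw [yg_long hN α hα, yg_long hN β hβ]
    exact ZC_g0 _ _ (C.xg_comm k α β t u h)
  · intro γ h
    have hγ : D.r γ = γ := by
      apply SLC.Root.ext
      rw [D.r_add α β γ h, hα, hβ, h]
    apply Subtype.ext
    push_cast
    rw [yg_long hN α hα, yg_long hN β hβ, yg_long hN γ hγ]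
    exact ZC_add α β γ t u h

private theorem ZC_ls (hN : D.NA) (hm : D.m = 2) {k : Type*} [Field k] [Infinite k] [CharP k 2]
    (α β : C.Root) (hα : D.r α = α) (hβ : D.r β ≠ β) (t u : k) :
    (0 ≤ C.ip α.1 β.1 → yg hN α t * yg hN β u * (yg hN α t)⁻¹ * (yg hN β u)⁻¹ = 1) ∧
    (C.ip α.1 β.1 = -1 → ∃ γ δ : C.Root, γ.1 = α.1 + β.1 ∧ D.r γ ≠ γ ∧
      δ.1 = α.1 + β.1 + (D.r β).1 ∧
      yg hN α t * yg hN β u * (yg hN α t)⁻¹ * (yg hN β u)⁻¹ =
        yg hN γ (t * u) * yg hN δ (u * (t * u))) := by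
  have e0 : C.ip α.1 (D.r β).1 = C.ip α.1 β.1 := by rw [← ZC_ip_rr hm, hα]
  have hββ := D.ip_r_NA hN β hβ
  constructor
  · intro h
    apply Subtype.ext
    push_cast
    rw [yg_long hN α hα, ZC_short hN hm β hβ]
    apply ZC_g0
    rw [← mul_assoc, C.xg_comm k α β t u h, mul_assoc, C.xg_comm k α (D.r β) t u (e0 ▸ h),
      ← mul_assoc]
  · intro h
    obtain ⟨γ, hγ⟩ := C.exists_add α β h
    have hrγ : (D.r γ).1 = α.1 + (D.r β).1 := by rw [D.r_add α β γ hγ, hα]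
    have hne : D.r γ ≠ γ := by
      intro h1
      rw [h1, hγ] at hrγ
      exact hβ (SLC.Root.ext (add_left_cancel hrγ)).symm
    have i1 : C.ip γ.1 (D.r β).1 = -1 := by
      rw [hγ, C.ip_add_left, e0, h, hββ]
      rfl
    obtain ⟨δ, hδ⟩ := C.exists_add γ (D.r β) i1
    have hδ' : δ.1 = α.1 + β.1 + (D.r β).1 := by rw [hδ, hγ]
    have hδ2 : δ.1 = β.1 + (D.r γ).1 := by rw [hδ', hrγ]; abel
    have hδf : D.r δ = δ := by
      apply SLC.Root.ext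
      rw [D.r_add γ (D.r β) δ hδ, ZC_rr hm, hδ2, add_comm]
    refine ⟨γ, δ, hγ, hne, hδ', ?_⟩
    apply Subtype.ext
    push_cast
    rw [yg_long hN α hα, ZC_short hN hm β hβ, ZC_short hN hm γ hne, yg_long hN δ hδf]
    refine ZC_g1 _ _ _ _ _ _ (ZC_add α β γ t u hγ) (ZC_add α (D.r β) (D.r γ) t u hrγ)
      (ZC_add β (D.r γ) δ u (t * u) hδ2) (C.xg_comm k δ (D.r γ) _ _ ?_)
    have i2 : C.ip β.1 (D.r γ).1 = -1 := C.ip_add_root β (D.r γ) δ hδ2
    rw [hδ2, C.ip_add_left, i2, (D.r γ).2]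
    norm_num

private theorem ZC_ss0 (hN : D.NA) (hm : D.m = 2) {k : Type*} [Field k] [Infinite k]
    [CharP k 2] (α β : C.Root) (hα : D.r α ≠ α) (hβ : D.r β ≠ β) (t u : k)
    (h1 : 0 ≤ C.ip α.1 β.1) (h2 : 0 ≤ C.ip α.1 (D.r β).1) :
    yg hN α t * yg hN β u * (yg hN α t)⁻¹ * (yg hN β u)⁻¹ = 1 := by
  have h3 : 0 ≤ C.ip (D.r α).1 β.1 := by rw [ZC_ip_rr hm]; exact h2
  have h4 : 0 ≤ C.ip (D.r α).1 (D.r β).1 := by rw [D.r_ip]; exact h1
  apply Subtype.ext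
  push_cast
  rw [ZC_short hN hm α hα, ZC_short hN hm β hβ]
  apply ZC_g0
  have c1 : Commute (C.xg k α t) (C.xg k β u) := C.xg_comm k α β t u h1
  have c2 : Commute (C.xg k α t) (C.xg k (D.r β) u) := C.xg_comm k α _ t u h2
  have c3 : Commute (C.xg k (D.r α) t) (C.xg k β u) := C.xg_comm k _ β t u h3
  have c4 : Commute (C.xg k (D.r α) t) (C.xg k (D.r β) u) := C.xg_comm k _ _ t u h4
  exact ((c1.mul_right c2).mul_left (c3.mul_right c4))

private theorem ZC_ss1 (hN : D.NA) (hm : D.m = 2) {k : Type*} [Field k] [Infinite k]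
    [CharP k 2] (α β : C.Root) (hα : D.r α ≠ α) (hβ : D.r β ≠ β) (t u : k)
    (h1 : C.ip α.1 β.1 = -1) :
    yg hN α t * yg hN β u * (yg hN α t)⁻¹ * (yg hN β u)⁻¹ = 1 ∨
    ∃ γ : C.Root, γ.1 = α.1 + β.1 ∧ D.r γ ≠ γ ∧
      yg hN α t * yg hN β u * (yg hN α t)⁻¹ * (yg hN β u)⁻¹ = yg hN γ (t * u) := by
  have hαα := D.ip_r_NA hN α hα
  have hββ := D.ip_r_NA hN β hβ
  have i1 : C.ip (D.r α).1 β.1 = C.ip α.1 (D.r β).1 := ZC_ip_rr hm α β
  have i1' : C.ip β.1 (D.r α).1 = C.ip α.1 (D.r β).1 := by rw [C.ip_comm, i1]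
  obtain ⟨γ, hγ⟩ := C.exists_add α β h1
  have hrγ : (D.r γ).1 = (D.r α).1 + (D.r β).1 := D.r_add α β γ hγ
  have a2 : C.ip (D.r γ).1 α.1 = 0 + C.ip α.1 (D.r β).1 := by
    rw [hrγ, C.ip_add_left, C.ip_comm (D.r α).1, hαα, C.ip_comm (D.r β).1]
  have a3 : C.ip (D.r γ).1 β.1 = C.ip α.1 (D.r β).1 + 0 := by
    rw [hrγ, C.ip_add_left, i1, C.ip_comm (D.r β).1, hββ]
  have c3 : C.xg k α t * C.xg k β u * (C.xg k α t)⁻¹ * (C.xg k β u)⁻¹ = C.xg k γ (t * u) :=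
    ZC_add α β γ t u hγ
  have c4 : C.xg k (D.r α) t * C.xg k (D.r β) u * (C.xg k (D.r α) t)⁻¹ *
      (C.xg k (D.r β) u)⁻¹ = C.xg k (D.r γ) (t * u) := ZC_add (D.r α) (D.r β) (D.r γ) t u hrγ
  have key : 0 ≤ C.ip α.1 (D.r β).1 → yg hN α t * yg hN β u * (yg hN α t)⁻¹ * (yg hN β u)⁻¹ =
      yg hN α t * yg hN β u * (yg hN α t)⁻¹ * (yg hN β u)⁻¹ ∧
      ((yg hN α t * yg hN β u * (yg hN α t)⁻¹ * (yg hN β u)⁻¹ : GF D k) : GL C.Idx k) =
        C.xg k γ (t * u) * C.xg k (D.r γ) (t * u) := by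
    intro h
    refine ⟨rfl, ?_⟩
    push_cast
    rw [ZC_short hN hm α hα, ZC_short hN hm β hβ]
    refine ZC_g2 _ _ _ _ _ _ ?_ ?_ c3 c4 ?_ ?_
    · exact C.xg_comm k _ _ _ _ (by rw [i1]; exact h)
    · exact C.xg_comm k _ _ _ _ h
    · exact C.xg_comm k _ _ _ _ (by rw [a2, zero_add]; exact h)
    · exact C.xg_comm k _ _ _ _ (by rw [a3, add_zero]; exact h)
  by_cases hγf : D.r γ = γ
  · left
    have i2 : C.ip α.1 (D.r β).1 = 1 := by
      rw [hγf, hγ] at hrγ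
      have e1 : (D.r β).1 = α.1 + β.1 - (D.r α).1 := by rw [hrγ]; abel
      rw [e1, C.ip_sub_right, C.ip_add_right, α.2, h1, hαα]
      norm_num
    obtain ⟨-, h3⟩ := key (by rw [i2]; norm_num)
    apply Subtype.ext
    rw [h3, hγf, ← C.xg_map_add, ZC_self]
    have h4 := C.xg_map_add k γ (0 : k) 0
    rw [add_zero] at h4
    exact (left_eq_mul.mp h4)
  · right
    have i3 := D.ip_r_NA hN γ hγf
    have i2 : C.ip α.1 (D.r β).1 = 0 := by
      rw [hγ, hrγ, C.ip_add_left, C.ip_add_right, C.ip_add_right, hαα, hββ, i1'] at i3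
      omega
    obtain ⟨-, h3⟩ := key (by rw [i2])
    refine ⟨γ, hγ, hγf, ?_⟩
    apply Subtype.ext
    rw [h3, ZC_short hN hm γ hγf]

private theorem ZC_gen (hN : D.NA) (hm : D.m = 2) {k : Type*} [Field k] [Infinite k]
    [CharP k 2] (R : Set C.Root) (wt : C.Root → ℤ) (hw : Wt2 D R wt) (a b : ℤ)
    (α β : C.Root) (hα : α ∈ R) (ha : a ≤ wt α) (hβ : β ∈ R) (hb : b ≤ wt β) (t u : k) :
    yg hN α t * yg hN β u * (yg hN α t)⁻¹ * (yg hN β u)⁻¹ ∈ AW hN k R wt (a + b) := by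
  have hne : ∀ α' ∈ R, ∀ β' ∈ R, C.ip α'.1 β'.1 ≠ -2 := by
    intro α' hα' β' hβ' h
    rw [C.ip_eq_neg_two_iff] at h
    have h1 := hw.pos α' hα'
    have h2 := hw.pos β' hβ'
    have h3 := ht_neg α'.1
    rw [h] at h2
    unfold SLC.Pos at h1 h2
    change 0 < ht (-α'.1) at h2
    omega
  have hip : ∀ α' ∈ R, ∀ β' ∈ R, 0 ≤ C.ip α'.1 β'.1 ∨ C.ip α'.1 β'.1 = -1 := by
    intro α' hα' β' hβ'
    have h1 := hne α' hα' β' hβ'
    rcases C.ip_cases α' β' with h | h | h | h | h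
    · exact absurd h h1
    · exact Or.inr h
    · left; omega
    · left; omega
    · left; omega
  have hmem : ∀ γ ∈ R, a + b ≤ wt γ → ∀ v : k, yg hN γ v ∈ AW hN k R wt (a + b) :=
    fun γ hγ h v => Subgroup.subset_closure ⟨γ, ⟨hγ, h⟩, v, rfl⟩
  have ls : ∀ α ∈ R, ∀ β ∈ R, a + b ≤ wt α + wt β → D.r α = α → D.r β ≠ β → ∀ t u : k,
      yg hN α t * yg hN β u * (yg hN α t)⁻¹ * (yg hN β u)⁻¹ ∈ AW hN k R wt (a + b) := by
    intro α hα β hβ hab h1 h2 t u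
    obtain ⟨g1, g2⟩ := ZC_ls hN hm α β h1 h2 t u
    rcases hip α hα β hβ with h | h
    · rw [g1 h]
      exact one_mem _
    · obtain ⟨γ, δ, e1, e2, e3, e4⟩ := g2 h
      obtain ⟨m1, w1⟩ := hw.add α hα β hβ γ e1 (Or.inl e2)
      obtain ⟨m2, w2⟩ := hw.add2 α hα β hβ δ h1 h2 h e3
      rw [e4]
      exact mul_mem (hmem γ m1 (by omega) _) (hmem δ m2 (by omega) _)
  by_cases h1 : D.r α = α
  · by_cases h2 : D.r β = β
    · obtain ⟨g1, g2⟩ := ZC_ll hN α β h1 h2 t u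
      rcases hip α hα β hβ with h | h
      · rw [g1 h]
        exact one_mem _
      · obtain ⟨γ, hγ⟩ := C.exists_add α β h
        rw [g2 γ hγ]
        obtain ⟨m1, w1⟩ := hw.add α hα β hβ γ hγ (Or.inr ⟨h1, h2⟩)
        exact hmem γ m1 (by omega) _
    · exact ls α hα β hβ (by omega) h1 h2 t u
  · by_cases h2 : D.r β = β
    · have h3 := ls β hβ α hα (by omega) h2 h1 u t
      have e : yg hN α t * yg hN β u * (yg hN α t)⁻¹ * (yg hN β u)⁻¹ =
          (yg hN β u * yg hN α t * (yg hN β u)⁻¹ * (yg hN α t)⁻¹)⁻¹ := by group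
      rw [e]
      exact inv_mem h3
    · rcases hip α hα β hβ with h | h
      · obtain ⟨s1, s2⟩ := hw.stab β hβ
        rcases hip α hα (D.r β) s1 with h' | h'
        · rw [ZC_ss0 hN hm α β h1 h2 t u h h']
          exact one_mem _
        · rw [← ZC_r hN β u]
          have h2' : D.r (D.r β) ≠ D.r β := fun hh => h2 (D.r_injective hh)
          rcases ZC_ss1 hN hm α (D.r β) h1 h2' t u h' with g | ⟨γ, e1, e2, e3⟩
          · rw [g]
            exact one_mem _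
          · rw [e3]
            obtain ⟨m1, w1⟩ := hw.add α hα (D.r β) s1 γ e1 (Or.inl e2)
            exact hmem γ m1 (by omega) _
      · rcases ZC_ss1 hN hm α β h1 h2 t u h with g | ⟨γ, e1, e2, e3⟩
        · rw [g]
          exact one_mem _
        · rw [e3]
          obtain ⟨m1, w1⟩ := hw.add α hα β hβ γ e1 (Or.inl e2)
          exact hmem γ m1 (by omega) _

private theorem ZC_anti (hN : D.NA) {k : Type*} [Field k] [Infinite k] (R : Set C.Root)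
    (wt : C.Root → ℤ) {a b : ℤ} (h : a ≤ b) : AW hN k R wt b ≤ AW hN k R wt a :=
  FR_mono hN fun _ hβ => ⟨hβ.1, h.trans hβ.2⟩

/-- `AW c` is normalised by `AW b`, `b ≥ 0` -/
private theorem ZC_norm (hN : D.NA) (hm : D.m = 2) {k : Type*} [Field k] [Infinite k]
    [CharP k 2] (R : Set C.Root) (wt : C.Root → ℤ) (hw : Wt2 D R wt) (b c : ℤ) (hb : 0 ≤ b)
    (g : GF D k) (hg : g ∈ AW hN k R wt b) : ∀ n ∈ AW hN k R wt c,
      g * n * g⁻¹ ∈ AW hN k R wt c ∧ g⁻¹ * n * g ∈ AW hN k R wt c := by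
  have h1 : ∀ β ∈ R, b ≤ wt β → ∀ u : k, ∀ n ∈ AW hN k R wt c,
      yg hN β u * n * (yg hN β u)⁻¹ ∈ AW hN k R wt c := by
    intro β hβ hbβ u n hn
    unfold AW FR at hn
    induction hn using Subgroup.closure_induction with
    | mem x hx =>
      obtain ⟨γ, ⟨hγ, hcγ⟩, v, rfl⟩ := hx
      have e : yg hN β u * yg hN γ v * (yg hN β u)⁻¹ =
          yg hN β u * yg hN γ v * (yg hN β u)⁻¹ * (yg hN γ v)⁻¹ * yg hN γ v := by group
      rw [e]
      refine mul_mem (ZC_anti hN R wt ?_ (ZC_gen hN hm R wt hw b c β γ hβ hbβ hγ hcγ u v))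
        (Subgroup.subset_closure ⟨γ, ⟨hγ, hcγ⟩, v, rfl⟩)
      omega
    | one => rw [mul_one, mul_inv_cancel]; exact one_mem _
    | mul x y _ _ hx hy =>
      have e : yg hN β u * (x * y) * (yg hN β u)⁻¹ =
          (yg hN β u * x * (yg hN β u)⁻¹) * (yg hN β u * y * (yg hN β u)⁻¹) := by group
      rw [e]
      exact mul_mem hx hy
    | inv x _ hx =>
      have e : yg hN β u * x⁻¹ * (yg hN β u)⁻¹ = (yg hN β u * x * (yg hN β u)⁻¹)⁻¹ := by group
      rw [e]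
      exact inv_mem hx
  unfold AW FR at hg
  induction hg using Subgroup.closure_induction with
  | mem x hx =>
    obtain ⟨β, ⟨hβ, hbβ⟩, u, rfl⟩ := hx
    intro n hn
    refine ⟨h1 β hβ hbβ u n hn, ?_⟩
    have h2 := h1 β hβ hbβ (-u) n hn
    rwa [yg_neg, inv_inv] at h2
  | one =>
    intro n hn
    rw [one_mul, inv_one, mul_one, one_mul, mul_one]
    exact ⟨hn, hn⟩
  | mul x y _ _ hx hy =>
    intro n hn
    constructor
    · have e : x * y * n * (x * y)⁻¹ = x * (y * n * y⁻¹) * x⁻¹ := by group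
      rw [e]
      exact (hx _ (hy n hn).1).1
    · have e : (x * y)⁻¹ * n * (x * y) = y⁻¹ * (x⁻¹ * n * x) * y := by group
      rw [e]
      exact (hy _ (hx n hn).2).2
  | inv x _ hx =>
    intro n hn
    rw [inv_inv]
    exact ⟨(hx n hn).2, (hx n hn).1⟩

theorem AW_comm (hN : D.NA) (hm : D.m = 2) {k : Type*} [Field k] [Infinite k] [CharP k 2]
    (R : Set C.Root) (wt : C.Root → ℤ) (hw : Wt2 D R wt) (a b : ℤ) (ha : 1 ≤ a) (hb : 1 ≤ b)
    (x y : GF D k) (hx : x ∈ AW hN k R wt a) (hy : y ∈ AW hN k R wt b) :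
    x * y * x⁻¹ * y⁻¹ ∈ AW hN k R wt (a + b) := by
  have hna := ZC_norm hN hm (k := k) R wt hw a (a + b) (by omega)
  have hnb := ZC_norm hN hm (k := k) R wt hw b (a + b) (by omega)
  have h1 : ∀ α ∈ R, a ≤ wt α → ∀ t : k,
      yg hN α t * y * (yg hN α t)⁻¹ * y⁻¹ ∈ AW hN k R wt (a + b) := by
    intro α hα haα t
    have hy' := hy
    unfold AW FR at hy'
    induction hy' using Subgroup.closure_induction with
    | mem z hz =>
      obtain ⟨β, ⟨hβ, hbβ⟩, u, rfl⟩ := hz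
      exact ZC_gen hN hm R wt hw a b α β hα haα hβ hbβ t u
    | one =>
      rw [mul_one, mul_inv_cancel, inv_one, mul_one]
      exact one_mem _
    | mul z w hz hw' h2 h3 =>
      have e : yg hN α t * (z * w) * (yg hN α t)⁻¹ * (z * w)⁻¹ =
          (yg hN α t * z * (yg hN α t)⁻¹ * z⁻¹) *
            (z * (yg hN α t * w * (yg hN α t)⁻¹ * w⁻¹) * z⁻¹) := by group
      rw [e]
      exact mul_mem (h2 hz) (hnb z hz _ (h3 hw')).1
    | inv z hz h2 =>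
      have e : yg hN α t * z⁻¹ * (yg hN α t)⁻¹ * z⁻¹⁻¹ =
          z⁻¹ * (yg hN α t * z * (yg hN α t)⁻¹ * z⁻¹)⁻¹ * z := by group
      rw [e]
      exact (hnb z hz _ (inv_mem (h2 hz))).2
  have hx' := hx
  unfold AW FR at hx'
  induction hx' using Subgroup.closure_induction with
  | mem z hz =>
    obtain ⟨α, ⟨hα, haα⟩, t, rfl⟩ := hz
    exact h1 α hα haα t
  | one =>
    rw [one_mul, inv_one, mul_one, mul_inv_cancel]
    exact one_mem _
  | mul z w hz hw' h2 h3 =>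
    have e : z * w * y * (z * w)⁻¹ * y⁻¹ =
        (z * (w * y * w⁻¹ * y⁻¹) * z⁻¹) * (z * y * z⁻¹ * y⁻¹) := by group
    rw [e]
    exact mul_mem (hna z hz _ (h3 hw')).1 (h2 hz)
  | inv z hz h2 =>
    have e : z⁻¹ * y * z⁻¹⁻¹ * y⁻¹ = z⁻¹ * (z * y * z⁻¹ * y⁻¹)⁻¹ * z := by group
    rw [e]
    exact (hna z hz _ (inv_mem (h2 hz))).2

theorem icomm_AW (hN : D.NA) (hm : D.m = 2) {k : Type*} [Field k] [Infinite k] [CharP k 2]
    (R : Set C.Root) (wt : C.Root → ℤ) (hw : Wt2 D R wt) (a : ℤ) (ha : 1 ≤ a) (b : ℤ)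
    (hb : 1 ≤ b) (g : GF D k) (l : List (GF D k)) (hg : g ∈ AW hN k R wt a)
    (hl : ∀ x ∈ l, x ∈ AW hN k R wt b) : icomm g l ∈ AW hN k R wt (a + l.length * b) := by
  induction l generalizing a g with
  | nil =>
    change g ∈ _
    simpa using hg
  | cons x l ih =>
    have h1 : x * g * x⁻¹ * g⁻¹ ∈ AW hN k R wt (a + b) := by
      rw [add_comm]
      exact AW_comm hN hm R wt hw b a hb ha x g (hl x List.mem_cons_self) hg
    have h2 := ih (a + b) (by omega) (x * g * x⁻¹ * g⁻¹) h1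
      (fun y hy => hl y (List.mem_cons_of_mem _ hy))
    have e : a + ((x :: l).length : ℤ) * b = a + b + (l.length : ℤ) * b := by
      rw [List.length_cons]
      push_cast
      ring
    rw [e]
    exact h2

private theorem ZC_icomm (hN : D.NA) (hm : D.m = 2) {k : Type*} [Field k] [Infinite k]
    [CharP k 2] (R : Set C.Root) (wt : C.Root → ℤ) (hw : Wt2 D R wt) (b : ℤ)
    (hb : 1 ≤ b) (c : ℤ) (hc : b ≤ c) (l : List (GF D k)) : ∀ (a : ℤ), 1 ≤ a → ∀ g : GF D k,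
    g ∈ AW hN k R wt a → (∀ x ∈ l, x ∈ AW hN k R wt b) → (∃ x ∈ l, x ∈ AW hN k R wt c) →
    icomm g l ∈ AW hN k R wt (a + c + ((l.length : ℤ) - 1) * b) := by
  induction l with
  | nil =>
    rintro a - g - - ⟨x, hx, -⟩
    exact absurd hx List.not_mem_nil
  | cons x l ih =>
    rintro a ha g hg hl ⟨z, hz, hzc⟩
    have e : ((x :: l).length : ℤ) = l.length + 1 := by
      rw [List.length_cons]
      push_cast
      ring
    have hl' : ∀ y ∈ l, y ∈ AW hN k R wt b := fun y hy => hl y (List.mem_cons_of_mem _ hy)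
    rcases List.mem_cons.mp hz with rfl | hz'
    · have h1 : z * g * z⁻¹ * g⁻¹ ∈ AW hN k R wt (a + c) := by
        rw [add_comm]
        exact AW_comm hN hm R wt hw c a (by omega) ha z g hzc hg
      have h2 := icomm_AW hN hm R wt hw (a + c) (by omega) b hb (z * g * z⁻¹ * g⁻¹) l h1 hl'
      rw [e, add_sub_cancel_right]
      exact h2
    · have h1 : x * g * x⁻¹ * g⁻¹ ∈ AW hN k R wt (a + b) := by
        rw [add_comm]
        exact AW_comm hN hm R wt hw b a hb ha x g (hl x List.mem_cons_self) hg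
      have h2 := ih (a + b) (by omega) (x * g * x⁻¹ * g⁻¹) h1 hl' ⟨z, hz', hzc⟩
      have e2 : a + c + (((x :: l).length : ℤ) - 1) * b =
          a + b + c + ((l.length : ℤ) - 1) * b := by
        rw [e]
        ring
      rw [e2]
      exact h2

/-- one element of larger weight -/
theorem icomm_AW' (hN : D.NA) (hm : D.m = 2) {k : Type*} [Field k] [Infinite k] [CharP k 2]
    (R : Set C.Root) (wt : C.Root → ℤ) (hw : Wt2 D R wt) (b : ℤ)
    (hb : 1 ≤ b) (c : ℤ) (hc : b ≤ c) (g : GF D k) (l : List (GF D k))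
    (hg : g ∈ AW hN k R wt b) (hl : ∀ x ∈ l, x ∈ AW hN k R wt b)
    (h1 : ∃ x ∈ g :: l, x ∈ AW hN k R wt c) :
    icomm g l ∈ AW hN k R wt (c + l.length * b) := by
  obtain ⟨x, hx, hxc⟩ := h1
  rcases List.mem_cons.mp hx with rfl | hx'
  · exact icomm_AW hN hm R wt hw c (by omega) b hb x l hxc hl
  · have h2 := ZC_icomm hN hm R wt hw b hb c hc l b hb g hg hl ⟨x, hx', hxc⟩
    have e : c + (l.length : ℤ) * b = b + c + ((l.length : ℤ) - 1) * b := by ring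
    rw [e]
    exact h2

end Pool.Agent.H86.UM
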