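import Pool.Agent.H86.UM.ZC
import Pool.Agent.H86.UM.ZTs
import Pool.Agent.H86.UM.ZJ2

/-!
# Project UM, Suzuki-Ree groups, module ZC2: nonvanishing in characteristic `2`

`hfx β = ∑_{ρ j = j} β_j`. `dp β = ht β + hfx β` if `β` is fixed, `2 ht β` otherwise: twice the depth of `β`. It is a
weight function on all positive roots (with values `≥ 2`): `add`: both fixed: additive. `γ = α + β` not fixed:
`dp γ = 2 ht α + 2 ht β` and `hfx α ≤ ht α` for positive `α`. `add2`: `dp γ = ht α + 2 ht β + hfx α + 2 hfx β`.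
Let `sup i β = 1` if `β_j ≠ 0` for some `j` in the cycle of `i`, `0` otherwise. On `Ri = {positive roots not in the
cycle of α_i}`, `wt β = dp β - 2 sup i β` is a weight function with values `≥ 2`: `dp β ≥ 4` for `β` not simple: not
fixed: `ht β ≥ 2`. Fixed, `ht β ≥ 2`: `dp β = ht β + hfx β ≥ 3` unless `hfx β = 0, ht β = 2`; `dp β` is even
(the non-fixed coordinates come in equal pairs, `m = 2`), and if `ht β = 2`, `hfx β = 0` then `β = α_j + α_(ρ j)`,
not a root by `NA`; so `dp β ≥ 4` if `ht β ≥ 2`: (`ht = 2`: `hfx β = 2`, or `hfx β = 1`: odd, impossible; `ht ≥ 3`: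
`dp ≥ 3` and even.) `sup i` is subadditive.
`nonvan2`: (1) suppose `ξ_j g = 0` for all `g` in the list and for the node `i = j`. Then all `g` are in
`FR Ri`: `FR_split` with `A = {β | rE.SameCycle (α_i) β}`, `B = Ri` (`g = a b`, `a = yg α_i t`, `t = ξ_i g = 0`),
so `icomm g₀ l ∈ AW (2 * (l.length + 1)) = AW (2 c)` for the weight on `Ri`; but on `Ri` the weight is `≤ 2 c - 2`: if
`dp β ≤ 2 c - 1` then (even) `dp β ≤ 2 c - 2`; if `dp β = 2 c` then `sup i β = 1` (hypothesis). So `AW (2 c) = ⊥`,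
contradiction. (2) if `ξ_j g = 0` for all `j`, then `g ∈ FR {β | Pos β, ht β ≥ 2} ≤ AW 4` for the weight `dp`, so
`icomm g₀ l ∈ AW (4 + 2 * l.length) = AW (2 c + 2) = ⊥`.
`dp_A3`, `dp_E6`: positive roots of `A₃`: see ZJ2. `E₆`: non-fixed roots have height `≤ 8`, and those of height `8` have full
support: the highest root is `(1,2,2,3,2,1)` (height `11`); going down from it: height `10`: `(1,1,2,3,2,1)`, height
`9`: `(1,1,2,2,2,1)`, height `8`: `(1,1,1,2,2,1), (1,1,2,2,1,1)` (a root of height `h` which is not the highest has a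
simple root which can be added: `IsHighest.chain`; the highest root minus a simple root `α_i` is a root iff
`ip δ α_i = 1`); the roots of height `9, 10, 11` are fixed. Fixed roots: `dp ≤ 16`, with equality only for the
highest root (`11 + 5`): `hfx δ = 3 + 2 = 5`; for the fixed roots of height `10`: `10 + 4`, height `9`: `9 + 3`; for
height `≤ 8`: `dp = ht + hfx ≤ 16` with equality only if `hfx = ht = 8`, impossible as the fixed nodes `1, 3` span
`A₂` with roots of height `≤ 2`.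
-/

set_option autoImplicit false
open Matrix

namespace Pool.Agent.H86.UM

open Pool.Agent.H75.UL

section
variable {n : ℕ} {C : SLC n} {D : Dg C}

/-- twice the depth -/
noncomputable def dp (D : Dg C) (β : C.Root) : ℤ := by
  classical
  exact if D.r β = β then ht β.1 + ∑ j, (if D.ρ j = j then β.1 j else 0) else 2 * ht β.1

/-- the part of the height at the fixed nodes -/
def ZC2_hfx (D : Dg C) (β : C.Root) : ℤ := ∑ j, (if D.ρ j = j then β.1 j else 0)

theorem ZC2_fx (β : C.Root) (h : D.r β = β) : dp D β = ht β.1 + ZC2_hfx D β := by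
  unfold dp ZC2_hfx
  rw [if_pos h]

theorem ZC2_nfx (β : C.Root) (h : D.r β ≠ β) : dp D β = 2 * ht β.1 := by
  unfold dp
  rw [if_neg h]

theorem ZC2_hfx_le (β : C.Root) (hβ : C.Pos β) : 0 ≤ ZC2_hfx D β ∧ ZC2_hfx D β ≤ ht β.1 := by
  have h := (C.pos_iff β).mp hβ
  unfold ZC2_hfx ht
  constructor
  · apply Finset.sum_nonneg
    intro j _
    split_ifs
    · exact h j
    · exact le_rfl
  · apply Finset.sum_le_sum
    intro j _
    split_ifs
    · exact le_rfl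
    · exact h j

theorem ZC2_hfx_add (α β γ : C.Root) (h : γ.1 = α.1 + β.1) :
    ZC2_hfx D γ = ZC2_hfx D α + ZC2_hfx D β := by
  unfold ZC2_hfx
  rw [← Finset.sum_add_distrib]
  apply Finset.sum_congr rfl
  intro j _
  rw [h]
  split_ifs
  · rfl
  · simp

theorem ZC2_hfx_add3 (α β δ γ : C.Root) (h : γ.1 = α.1 + β.1 + δ.1) :
    ZC2_hfx D γ = ZC2_hfx D α + ZC2_hfx D β + ZC2_hfx D δ := by
  unfold ZC2_hfx
  rw [← Finset.sum_add_distrib, ← Finset.sum_add_distrib]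
  apply Finset.sum_congr rfl
  intro j _
  rw [h]
  split_ifs
  · rfl
  · simp

theorem ZC2_hfx_r (β : C.Root) : ZC2_hfx D (D.r β) = ZC2_hfx D β := by
  unfold ZC2_hfx
  apply Finset.sum_congr rfl
  intro j _
  split_ifs with h
  · have h1 := D.r_val β j
    rw [h] at h1
    exact h1
  · rfl

theorem ZC2_fix_iff (β : C.Root) : D.r β = β ↔ ∀ j, β.1 (D.ρ j) = β.1 j := by
  constructor
  · intro h j
    have h1 := D.r_val β j
    rw [h] at h1
    exact h1
  · intro h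
    apply SLC.Root.ext
    funext j
    obtain ⟨l, rfl⟩ := D.ρ.surjective j
    rw [D.r_val, h]

theorem ZC2_rho2 (hm : D.m = 2) (j : Fin n) : D.ρ (D.ρ j) = j := by
  have h1 : D.ρ ^ 2 = 1 := by
    have h2 : orderOf D.ρ = 2 := hm
    rw [← h2]
    exact pow_orderOf_eq_one _
  have h3 := congrArg (fun e : Equiv.Perm (Fin n) => e j) h1
  exact h3

theorem ZC2_even (hm : D.m = 2) (β : C.Root) (h : D.r β = β) :
    ∃ e, ht β.1 = ZC2_hfx D β + 2 * e := by
  have h0 := (ZC2_fix_iff β).mp h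
  have h1 : ht β.1 - ZC2_hfx D β = ∑ j, (if D.ρ j = j then 0 else β.1 j) := by
    unfold ht ZC2_hfx
    rw [← Finset.sum_sub_distrib]
    apply Finset.sum_congr rfl
    intro j _
    split_ifs <;> ring
  have h2 : ((∑ j, (if D.ρ j = j then 0 else β.1 j) : ℤ) : ZMod 2) = 0 := by
    push_cast
    apply Finset.sum_involution (fun j _ => D.ρ j)
    · intro j _
      by_cases hj : D.ρ j = j
      · rw [if_pos hj, hj, if_pos hj, add_zero]
      · rw [if_neg hj, if_neg (by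
          rw [ZC2_rho2 hm]
          exact fun h3 => hj h3.symm), h0]
        exact CharTwo.add_self_eq_zero _
    · intro j _ hne hj
      apply hne
      rw [if_pos hj]
    · intro j _
      exact Finset.mem_univ _
    · intro j _
      exact ZC2_rho2 hm j
  rw [← h1, ZMod.intCast_zmod_eq_zero_iff_dvd] at h2
  obtain ⟨e, he⟩ := h2
  exact ⟨e, by push_cast at he; linarith⟩

theorem ZC2_ge2 (hm : D.m = 2) (β : C.Root) (hβ : C.Pos β) : 2 ≤ dp D β := by
  have h0 : 0 < ht β.1 := hβ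
  by_cases h : D.r β = β
  · obtain ⟨e, he⟩ := ZC2_even hm β h
    have h1 := ZC2_hfx_le (D := D) β hβ
    rw [ZC2_fx β h]
    omega
  · rw [ZC2_nfx β h]
    omega

theorem ZC2_simple_of_ht (β : C.Root) (hβ : C.Pos β) (h : ht β.1 = 1) :
    ∃ j, β = C.simple j := by
  by_contra hcon
  push Not at hcon
  obtain ⟨i, γ, hγ, he⟩ := C.exists_descent β hβ hcon
  rw [he, ht_add, C.ht_simple] at h
  have : 0 < ht γ.1 := hγ
  omega

theorem ZC2_ge4 (hN : D.NA) (hm : D.m = 2) (β : C.Root) (hβ : 2 ≤ ht β.1) : 4 ≤ dp D β := by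
  have hpos : C.Pos β := by
    unfold SLC.Pos
    omega
  by_cases h : D.r β = β
  · obtain ⟨e, he⟩ := ZC2_even hm β h
    have h1 := ZC2_hfx_le (D := D) β hpos
    rw [ZC2_fx β h]
    by_contra hcon
    have he1 : e = 1 := by omega
    have hf0 : ZC2_hfx D β = 0 := by omega
    have hh2 : ht β.1 = 2 := by omega
    have hns : ∀ i, β ≠ C.simple i := by
      intro i hi
      rw [hi, C.ht_simple] at hh2
      omega
    obtain ⟨i, γ, hγ, hγe⟩ := C.exists_descent β hpos hns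
    have hγ1 : ht γ.1 = 1 := by
      rw [hγe, ht_add, C.ht_simple] at hh2
      omega
    obtain ⟨j, rfl⟩ := ZC2_simple_of_ht γ hγ hγ1
    have hnn := (C.pos_iff β).mp hpos
    have hsv : ∀ i l : Fin n, 0 ≤ (C.simple i).1 l := fun i l =>
      (C.pos_iff _).mp (C.simple_pos i) l
    have hβi : 1 ≤ β.1 i := by
      have h2 : β.1 i = (C.simple i).1 i + (C.simple j).1 i := by rw [hγe]; rfl
      have h3 := hsv j i
      have h4 : (C.simple i).1 i = 1 := by rw [SLC.simple_val, Pi.single_eq_same]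
      omega
    have hρi : D.ρ i ≠ i := by
      intro hρ
      have h2 : β.1 i ≤ ZC2_hfx D β := by
        unfold ZC2_hfx
        have h3 := Finset.single_le_sum (f := fun j => if D.ρ j = j then β.1 j else 0)
          (fun l _ => by
            split_ifs
            · exact hnn l
            · exact le_rfl) (Finset.mem_univ i)
        simp only [if_pos hρ] at h3
        exact h3
      omega
    have hβρ : β.1 (D.ρ i) = β.1 i := (ZC2_fix_iff β).mp h i
    have hji : j = D.ρ i := by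
      by_contra hne
      have h2 : β.1 (D.ρ i) = (C.simple i).1 (D.ρ i) + (C.simple j).1 (D.ρ i) := by
        rw [hγe]; rfl
      rw [SLC.simple_val, SLC.simple_val, Pi.single_eq_of_ne hρi,
        Pi.single_eq_of_ne (Ne.symm hne)] at h2
      omega
    have h5 := C.ip_add_root _ _ _ hγe
    rw [SLC.simple_val, SLC.simple_val, C.ip_single, hji] at h5
    exact hN i h5
  · rw [ZC2_nfx β h]
    omega

theorem ZC2_le (β : C.Root) (hβ : C.Pos β) : dp D β ≤ 2 * ht β.1 := by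
  by_cases h : D.r β = β
  · have h1 := ZC2_hfx_le (D := D) β hβ
    rw [ZC2_fx β h]
    omega
  · rw [ZC2_nfx β h]

theorem ZC2_dp_r (β : C.Root) : dp D (D.r β) = dp D β := by
  by_cases h : D.r β = β
  · rw [h]
  · have h1 : D.r (D.r β) ≠ D.r β := fun h2 => h (D.r_injective h2)
    rw [ZC2_nfx β h, ZC2_nfx _ h1, D.r_ht]

theorem ZC2_add (α β γ : C.Root) (hα : C.Pos α) (hβ : C.Pos β) (hγ : γ.1 = α.1 + β.1)
    (h : D.r γ ≠ γ ∨ (D.r α = α ∧ D.r β = β)) : dp D α + dp D β ≤ dp D γ := by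
  have hht : ht γ.1 = ht α.1 + ht β.1 := by rw [hγ, ht_add]
  rcases h with h | ⟨h1, h2⟩
  · have h1 := ZC2_le (D := D) α hα
    have h2 := ZC2_le (D := D) β hβ
    rw [ZC2_nfx γ h]
    omega
  · have h3 : D.r γ = γ := by
      apply SLC.Root.ext
      rw [D.r_add _ _ _ hγ, h1, h2, hγ]
    rw [ZC2_fx α h1, ZC2_fx β h2, ZC2_fx γ h3, ZC2_hfx_add α β γ hγ, hht]
    omega

theorem ZC2_add2 (hm : D.m = 2) (α β γ : C.Root) (hβ : C.Pos β)
    (h1 : D.r α = α) (h2 : D.r β ≠ β) (hγ : γ.1 = α.1 + β.1 + (D.r β).1) :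
    dp D α + dp D β ≤ dp D γ := by
  have hrr : D.r (D.r β) = β := by
    have h1 := D.r_m β
    rw [hm] at h1
    exact h1
  have h3 : D.r γ = γ := by
    apply SLC.Root.ext
    have e1 : (D.r γ).1 = (D.r α).1 + (D.r β).1 + (D.r (D.r β)).1 := by
      change SLC.lmap D.ρ γ.1 = SLC.lmap D.ρ α.1 + SLC.lmap D.ρ β.1 + SLC.lmap D.ρ (D.r β).1
      rw [hγ, SLC.lmap_add, SLC.lmap_add]
    rw [e1, h1, hrr, hγ]
    abel
  have h4 := ZC2_hfx_add3 (D := D) α β (D.r β) γ hγ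
  have h5 := ZC2_hfx_r (D := D) β
  have h6 := (ZC2_hfx_le (D := D) β hβ).1
  have hht : ht γ.1 = ht α.1 + ht β.1 + ht β.1 := by
    rw [hγ, ht_add, ht_add, D.r_ht]
  rw [ZC2_fx α h1, ZC2_nfx β h2, ZC2_fx γ h3]
  omega

/-- the depth is a weight function on all positive roots -/
theorem ZC2_wt (hm : D.m = 2) : Wt2 D {β : C.Root | C.Pos β} (dp D) where
  pos := fun β hβ => hβ
  stab := fun β hβ => ⟨(D.r_pos β).mpr hβ, ZC2_dp_r β⟩
  one := fun β hβ => by have := ZC2_ge2 hm β hβ; omega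
  add := fun α hα β hβ γ hγ h => ⟨by
    change 0 < ht γ.1
    have h1 : 0 < ht α.1 := hα
    have h2 : 0 < ht β.1 := hβ
    rw [hγ, ht_add]
    omega, ZC2_add α β γ hα hβ hγ h⟩
  add2 := fun α hα β hβ γ h1 h2 _ hγ => ⟨by
    change 0 < ht γ.1
    have h1 : 0 < ht α.1 := hα
    have h2 : 0 < ht β.1 := hβ
    rw [hγ, ht_add, ht_add, D.r_ht]
    omega, ZC2_add2 hm α β γ hβ h1 h2 hγ⟩

open Classical in
/-- `1` if the support of `β` meets the cycle of `i`. -/
noncomputable def ZC2_sup (D : Dg C) (i : Fin n) (β : C.Root) : ℤ :=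
  if ∃ j, D.ρ.SameCycle i j ∧ β.1 j ≠ 0 then 1 else 0

theorem ZC2_sup_cases (i : Fin n) (β : C.Root) :
    (ZC2_sup D i β = 1 ∧ ∃ j, D.ρ.SameCycle i j ∧ β.1 j ≠ 0) ∨
    (ZC2_sup D i β = 0 ∧ ∀ j, D.ρ.SameCycle i j → β.1 j = 0) := by
  unfold ZC2_sup
  split_ifs with h
  · exact Or.inl ⟨rfl, h⟩
  · right
    push Not at h
    exact ⟨rfl, h⟩

theorem ZC2_sup_r (i : Fin n) (β : C.Root) : ZC2_sup D i (D.r β) = ZC2_sup D i β := by
  unfold ZC2_sup
  congr 1
  apply propext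
  constructor
  · rintro ⟨j, h1, h2⟩
    obtain ⟨l, rfl⟩ := D.ρ.surjective j
    rw [D.r_val] at h2
    exact ⟨l, (Equiv.Perm.sameCycle_apply_right).mp h1, h2⟩
  · rintro ⟨j, h1, h2⟩
    exact ⟨D.ρ j, (Equiv.Perm.sameCycle_apply_right).mpr h1, by rw [D.r_val]; exact h2⟩

theorem ZC2_sup_le (i : Fin n) (α β γ : C.Root)
    (h : ∀ j, γ.1 j ≠ 0 → (∃ l, D.ρ.SameCycle j l ∧ α.1 l ≠ 0) ∨ ∃ l, D.ρ.SameCycle j l ∧ β.1 l ≠ 0) :
    ZC2_sup D i γ ≤ ZC2_sup D i α + ZC2_sup D i β := by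
  rcases ZC2_sup_cases (D := D) i α with ⟨a1, a2⟩ | ⟨a1, a2⟩ <;>
  rcases ZC2_sup_cases (D := D) i β with ⟨b1, b2⟩ | ⟨b1, b2⟩ <;>
  rcases ZC2_sup_cases (D := D) i γ with ⟨c1, c2⟩ | ⟨c1, c2⟩ <;> rw [a1, b1, c1] <;> try norm_num
  obtain ⟨j, hj, hj0⟩ := c2
  rcases h j hj0 with ⟨l, hl, hl0⟩ | ⟨l, hl, hl0⟩
  · exact hl0 (a2 l (hj.trans hl))
  · exact hl0 (b2 l (hj.trans hl))

/-- the positive roots not in the cycle of `α_i` -/
def ZC2_R (D : Dg C) (i : Fin n) : Set C.Root :=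
  {β | C.Pos β ∧ ¬ D.rE.SameCycle (C.simple i) β}

theorem ZC2_ht_R (i : Fin n) (β : C.Root) (h : 2 ≤ ht β.1) : β ∈ ZC2_R D i := by
  refine ⟨by unfold SLC.Pos; omega, fun hc => ?_⟩
  have h1 := ZJ2_ht_cycle _ _ hc
  rw [C.ht_simple] at h1
  omega

theorem ZC2_wtR (hN : D.NA) (hm : D.m = 2) (i : Fin n) :
    Wt2 D (ZC2_R D i) (fun β => dp D β - 2 * ZC2_sup D i β) ∧
      ∀ β ∈ ZC2_R D i, 2 ≤ dp D β - 2 * ZC2_sup D i β := by
  have h2 : ∀ β ∈ ZC2_R D i, 2 ≤ dp D β - 2 * ZC2_sup D i β := by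
    rintro β ⟨hβ, hc⟩
    rcases ZC2_sup_cases (D := D) i β with ⟨a1, a2⟩ | ⟨a1, a2⟩
    · rw [a1]
      have h0 : 0 < ht β.1 := hβ
      by_cases h1 : ht β.1 = 1
      · exfalso
        obtain ⟨j, rfl⟩ := ZC2_simple_of_ht β hβ h1
        obtain ⟨l, hl, hl0⟩ := a2
        have hlj : l = j := by
          by_contra hne
          rw [SLC.simple_val, Pi.single_eq_of_ne hne] at hl0
          exact hl0 rfl
        rw [hlj] at hl
        exact hc (ZJ1_cyc i j hl)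
      · have := ZC2_ge4 hN hm β (by omega)
        omega
    · rw [a1]
      have := ZC2_ge2 hm β hβ
      omega
  refine ⟨⟨fun β hβ => hβ.1, fun β hβ => ⟨⟨(D.r_pos β).mpr hβ.1, fun hc => hβ.2 ?_⟩, ?_⟩,
    fun β hβ => by have := h2 β hβ; omega, ?_, ?_⟩, h2⟩
  · exact (Equiv.Perm.sameCycle_apply_right (f := D.rE)).mp hc
  · simp only [ZC2_dp_r, ZC2_sup_r]
  · intro α hα β hβ γ hγ h
    have e1 : 0 < ht α.1 := hα.1
    have e2 : 0 < ht β.1 := hβ.1
    refine ⟨ZC2_ht_R i γ (by rw [hγ, ht_add]; omega), ?_⟩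
    have h3 := ZC2_add α β γ hα.1 hβ.1 hγ h
    have h4 := ZC2_sup_le (D := D) i α β γ (by
      intro j hj
      rw [hγ] at hj
      by_cases h5 : α.1 j = 0
      · right
        refine ⟨j, .refl _ _, fun h6 => hj ?_⟩
        rw [Pi.add_apply, h5, h6, add_zero]
      · exact Or.inl ⟨j, .refl _ _, h5⟩)
    omega
  · intro α hα β hβ γ h1 h2 _ hγ
    have e1 : 0 < ht α.1 := hα.1
    have e2 : 0 < ht β.1 := hβ.1
    refine ⟨ZC2_ht_R i γ (by rw [hγ, ht_add, ht_add, D.r_ht]; omega), ?_⟩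
    have h3 := ZC2_add2 hm α β γ hβ.1 h1 h2 hγ
    have h4 := ZC2_sup_le (D := D) i α β γ (by
      intro j hj
      rw [hγ] at hj
      by_cases h5 : α.1 j = 0
      · right
        by_cases h6 : β.1 j = 0
        · obtain ⟨l, rfl⟩ := D.ρ.surjective j
          refine ⟨l, (Equiv.Perm.sameCycle_apply_left).mpr (.refl _ _), fun h7 => hj ?_⟩
          rw [Pi.add_apply, Pi.add_apply, h5, h6, D.r_val, h7, add_zero, add_zero]
        · exact ⟨j, .refl _ _, h6⟩
      · exact Or.inl ⟨j, .refl _ _, h5⟩)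
    omega

section van
variable {k : Type*} [Field k] [Infinite k]

theorem ZC2_FU_U (x : GF D k) (hx : x ∈ FU D k) : (x : GL C.Idx k) ∈ (C.adS k).U 1 :=
  (Subgroup.mem_subgroupOf.mp hx).1

theorem ZC2_xi_mul (i : Fin n) (x y : GF D k) (hx : x ∈ FU D k) (hy : y ∈ FU D k) :
    C.xi i (((x * y : GF D k) : GL C.Idx k) : Matrix C.Idx C.Idx k) =
      C.xi i ((x : GL C.Idx k) : Matrix C.Idx C.Idx k) +
        C.xi i ((y : GL C.Idx k) : Matrix C.Idx C.Idx k) := by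
  rw [Subgroup.coe_mul]
  exact C.xi_mul i _ _ (ZC2_FU_U x hx) (ZC2_FU_U y hy)

theorem ZC2_FR_FU (hN : D.NA) (R : Set C.Root) (hR : ∀ β ∈ R, C.Pos β) (x : GF D k)
    (hx : x ∈ FR hN k R) : x ∈ FU D k := by
  rw [FU_FR hN]
  exact FR_mono hN hR hx

/-- the coordinate vanishes on the group of the other roots -/
theorem ZC2_xi_R (hN : D.NA) (i : Fin n) (x : GF D k) (hx : x ∈ FR hN k (ZC2_R D i)) :
    C.xi i ((x : GL C.Idx k) : Matrix C.Idx C.Idx k) = 0 := by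
  have key : x ∈ FU D k ∧ C.xi i ((x : GL C.Idx k) : Matrix C.Idx C.Idx k) = 0 := by
    unfold FR at hx
    induction hx using Subgroup.closure_induction with
    | mem x hx =>
      obtain ⟨β, hβ, t, rfl⟩ := hx
      refine ⟨yg_pos hN β hβ.1 t, (xi_yg hN i β hβ.1 t).2 ?_⟩
      rintro ⟨j, rfl, hc⟩
      exact hβ.2 (ZJ1_cyc i j hc.symm)
    | one =>
      refine ⟨one_mem _, ?_⟩
      rw [Subgroup.coe_one, Units.val_one, C.xi_one]
    | mul x y _ _ hx hy =>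
      refine ⟨mul_mem hx.1 hy.1, ?_⟩
      rw [ZC2_xi_mul i x y hx.1 hy.1, hx.2, hy.2, add_zero]
    | inv x _ hx =>
      refine ⟨inv_mem hx.1, ?_⟩
      rw [Subgroup.coe_inv, C.xi_inv i _ (ZC2_FU_U x hx.1), hx.2, neg_zero]
  exact key.2

theorem ZC2_mem_R (hN : D.NA) (hm : D.m = 2) (i : Fin n) (x : GF D k) (hx : x ∈ FU D k)
    (h0 : C.xi i ((x : GL C.Idx k) : Matrix C.Idx C.Idx k) = 0) :
    x ∈ FR hN k (ZC2_R D i) := by
  have hA : ClR C {β : C.Root | D.rE.SameCycle (C.simple i) β} := by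
    refine ⟨fun β hβ => (pos_cycle _ _ hβ).mp (C.simple_pos i), ?_⟩
    intro α hα β hβ γ hγ
    exfalso
    have hform : ∀ β : C.Root, D.rE.SameCycle (C.simple i) β →
        β = C.simple i ∨ β = C.simple (D.ρ i) := by
      intro β hβ
      obtain ⟨q, -, hq⟩ := hβ.exists_pow_eq'
      have h3 : ∀ q : ℕ, (D.rE ^ q) (C.simple i) = C.simple i ∨
          (D.rE ^ q) (C.simple i) = C.simple (D.ρ i) := by
        intro q
        induction q with
        | zero => exact Or.inl rfl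
        | succ q ih =>
          rw [pow_succ', Equiv.Perm.mul_apply, Dg.rE_apply]
          rcases ih with ih | ih
          · right
            rw [ih, D.r_simple]
          · left
            rw [ih, D.r_simple, ZC2_rho2 hm]
      rw [← hq]
      exact h3 q
    have hip := C.ip_add_root _ _ _ hγ
    have h1 := hN i
    rcases hform α hα with rfl | rfl <;> rcases hform β hβ with rfl | rfl
    · rw [(C.simple i).2] at hip; omega
    · rw [SLC.simple_val, SLC.simple_val, C.ip_single] at hip; exact h1 hip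
    · rw [SLC.simple_val, SLC.simple_val, C.ip_single, C.symm] at hip; exact h1 hip
    · rw [(C.simple (D.ρ i)).2] at hip; omega
  have hB : ClR C (ZC2_R D i) := by
    refine ⟨fun β hβ => hβ.1, fun α hα β hβ γ hγ => ?_⟩
    have e1 : 0 < ht α.1 := hα.1
    have e2 : 0 < ht β.1 := hβ.1
    exact ZC2_ht_R i γ (by rw [hγ, ht_add]; omega)
  rw [FU_FR hN] at hx
  obtain ⟨a, ha, b, hb, hab⟩ := FR_split hN ClR_pos hA hB
    (fun β hβ => (Equiv.Perm.sameCycle_apply_right (f := D.rE)).mpr hβ)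
    (fun β hβ => ⟨(D.r_pos β).mpr hβ.1, fun hc =>
      hβ.2 ((Equiv.Perm.sameCycle_apply_right (f := D.rE)).mp hc)⟩)
    (by
      ext β
      constructor
      · intro hβ
        by_cases hc : D.rE.SameCycle (C.simple i) β
        · exact Or.inl hc
        · exact Or.inr ⟨hβ, hc⟩
      · rintro (hβ | hβ)
        · exact (pos_cycle _ _ hβ).mp (C.simple_pos i)
        · exact hβ.1)
    (fun β hβ hβ' => hβ'.2 hβ)
    (fun α hα β hβ γ hγ => by
      have e1 : 0 < ht α.1 := hα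
      have e2 : 0 < ht β.1 := hβ.1
      exact ZC2_ht_R i γ (by rw [hγ, ht_add]; omega)) x hx
  have haf : ∃ t : k, a = yg hN (C.simple i) t := by
    clear hab
    unfold FR at ha
    induction ha using Subgroup.closure_induction with
    | mem x hx =>
      obtain ⟨β, hβ, t, rfl⟩ := hx
      obtain ⟨e, he, h2⟩ := yg_cycle (k := k) hN _ β hβ
      refine ⟨(e : k) * t, ?_⟩
      rw [← h2, ← mul_assoc]
      have h3 : (e : k) * (e : k) = 1 := by
        rcases he with rfl | rfl <;> simp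
      rw [h3, one_mul]
    | one => exact ⟨0, (yg_zero hN _).symm⟩
    | mul x y _ _ hx hy =>
      obtain ⟨t, rfl⟩ := hx
      obtain ⟨u, rfl⟩ := hy
      exact ⟨t + u, (yg_add hN _ t u).symm⟩
    | inv x _ hx =>
      obtain ⟨t, rfl⟩ := hx
      exact ⟨-t, (yg_neg hN _ t).symm⟩
  obtain ⟨t, rfl⟩ := haf
  rw [hab, ZC2_xi_mul i _ _ (yg_pos hN _ (C.simple_pos i) t)
    (ZC2_FR_FU hN _ (fun β hβ => hβ.1) b hb), ZC2_xi_R hN i b hb, add_zero,
    (xi_yg hN i _ (C.simple_pos i) t).1 ⟨i, rfl, .refl _ _⟩] at h0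
  rw [hab, h0, yg_zero, one_mul]
  exact hb

/-- elements with all coordinates zero -/
theorem ZC2_mem_2 (hN : D.NA) (x : GF D k) (hx : x ∈ FU D k)
    (h0 : ∀ i, C.xi i ((x : GL C.Idx k) : Matrix C.Idx C.Idx k) = 0) :
    x ∈ FR hN k {β : C.Root | 2 ≤ ht β.1} := by
  have hx' : (x : GL C.Idx k) ∈ UR C k {β : C.Root | C.Pos β} := by
    rw [FU_FR hN] at hx
    exact (UR_fix hN ClR_pos (fun β hβ => (D.r_pos β).mpr hβ) x).mpr hx
  obtain ⟨t, ht0, hxt⟩ := UR_lp ClR_pos _ hx'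
  have ht1 : ∀ β : C.Root, ht β.1 < 2 → t β = 0 := by
    intro β hβ
    by_cases hp : C.Pos β
    · have h1 : 0 < ht β.1 := hp
      have h2 : ht β.1 = 1 := by omega
      obtain ⟨j, rfl⟩ := ZC2_simple_of_ht β hp h2
      have h3 := C.lp_entry t 1 le_rfl (fun γ hγ => ht0 γ (by
        intro h4
        have h5 : 0 < ht γ.1 := h4
        omega)) (C.simple j) h2 j
      rw [← hxt] at h3
      have h4 := h0 j
      unfold SLC.xi at h4
      rw [h3, SLC.simple_val, Pi.single_eq_same] at h4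
      simpa using h4
    · exact ht0 β hp
  refine (UR_fix hN (R := {β : C.Root | 2 ≤ ht β.1}) ⟨fun β hβ => ?_, ?_⟩ ?_ x).mp ?_
  · have h1 : 2 ≤ ht β.1 := hβ
    unfold SLC.Pos
    omega
  · intro α hα β hβ γ hγ
    have h1 : 2 ≤ ht α.1 := hα
    have h2 : 2 ≤ ht β.1 := hβ
    change 2 ≤ ht γ.1
    rw [hγ, ht_add]
    omega
  · intro β hβ
    change 2 ≤ ht (D.r β).1
    rw [D.r_ht]
    exact hβ
  · rw [hxt]
    unfold StSys.lp
    apply Subgroup.list_prod_mem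
    intro g hg
    rw [List.mem_map] at hg
    obtain ⟨β, -, rfl⟩ := hg
    by_cases h1 : ht β.1 < 2
    · rw [ht1 β h1, StSys.x_zero]
      exact one_mem _
    · exact Subgroup.subset_closure ⟨β, not_lt.mp h1, t β, rfl⟩

theorem ZC2_bot (hN : D.NA) (R : Set C.Root) (wt : C.Root → ℤ) (a : ℤ)
    (h : ∀ β ∈ R, wt β < a) (x : GF D k) (hx : x ∈ AW hN k R wt a) : x = 1 := by
  unfold AW FR at hx
  have h1 : {g : GF D k | ∃ β ∈ {β | β ∈ R ∧ a ≤ wt β}, ∃ t : k, g = yg hN β t} = ∅ := by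
    rw [Set.eq_empty_iff_forall_notMem]
    rintro g ⟨β, ⟨hβ, hw⟩, -⟩
    have := h β hβ
    omega
  rw [h1, Subgroup.closure_empty] at hx
  exact Subgroup.mem_bot.mp hx

end van

theorem nonvan2 (hN : D.NA) (hm : D.m = 2) {k : Type*} [Field k] [Infinite k] [CharP k 2]
    (c : ℕ) (hc : ∀ β : C.Root, C.Pos β → dp D β ≤ 2 * c)
    (hf : ∀ β : C.Root, C.Pos β → dp D β = 2 * c → ∀ i, ∃ j, D.ρ.SameCycle i j ∧ β.1 j ≠ 0)
    (g₀ : GF D k) (l : List (GF D k)) (hg : ∀ g ∈ g₀ :: l, g ∈ FU D k)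
    (hlen : l.length + 1 = c) (hne : icomm g₀ l ≠ 1) :
    (∀ j, ∃ g ∈ g₀ :: l, C.xi j ((g : GL C.Idx k) : Matrix C.Idx C.Idx k) ≠ 0) ∧
    ∀ g ∈ g₀ :: l, ∃ j, C.xi j ((g : GL C.Idx k) : Matrix C.Idx C.Idx k) ≠ 0 := by
  constructor
  · intro i
    by_contra hcon
    push Not at hcon
    apply hne
    obtain ⟨hw, hw2⟩ := ZC2_wtR hN hm i
    have hmem : ∀ g ∈ g₀ :: l, g ∈ AW hN k (ZC2_R D i)
        (fun β => dp D β - 2 * ZC2_sup D i β) 2 := by
      intro g hgl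
      have h1 := ZC2_mem_R hN hm i g (hg g hgl) (hcon g hgl)
      unfold AW
      refine FR_mono hN ?_ h1
      intro β hβ
      exact ⟨hβ, hw2 β hβ⟩
    have h2 := icomm_AW hN hm _ _ hw 2 (by norm_num) 2 (by norm_num) g₀ l
      (hmem g₀ List.mem_cons_self) (fun x hx => hmem x (List.mem_cons_of_mem _ hx))
    refine ZC2_bot hN _ _ _ (fun β hβ => ?_) _ h2
    have h3 := hc β hβ.1
    have hl : (l.length : ℤ) + 1 = c := by exact_mod_cast hlen
    rcases ZC2_sup_cases (D := D) i β with ⟨a1, a2⟩ | ⟨a1, a2⟩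
    · simp only [a1]
      omega
    · simp only [a1]
      have h4 : dp D β ≠ 2 * c := by
        intro h5
        obtain ⟨j, hj, hj0⟩ := hf β hβ.1 h5 i
        exact hj0 (a2 j hj)
      omega
  · intro g hgl
    by_contra hcon
    push Not at hcon
    apply hne
    have hw := ZC2_wt (D := D) (C := C) hm
    have hmem : ∀ g ∈ g₀ :: l, g ∈ AW hN k {β : C.Root | C.Pos β} (dp D) 2 := by
      intro g hgl
      have h1 := hg g hgl
      rw [FU_FR hN] at h1
      unfold AW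
      refine FR_mono hN ?_ h1
      intro β hβ
      exact ⟨hβ, ZC2_ge2 hm β hβ⟩
    have h4 : g ∈ AW hN k {β : C.Root | C.Pos β} (dp D) 4 := by
      have h1 := ZC2_mem_2 hN g (hg g hgl) hcon
      unfold AW
      refine FR_mono hN ?_ h1
      intro β hβ
      refine ⟨?_, ZC2_ge4 hN hm β hβ⟩
      have h5 : 2 ≤ ht β.1 := hβ
      change 0 < ht β.1
      omega
    have h2 := icomm_AW' hN hm _ _ hw 2 (by norm_num) 4 (by norm_num) g₀ l
      (hmem g₀ List.mem_cons_self) (fun x hx => hmem x (List.mem_cons_of_mem _ hx))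
      ⟨g, hgl, h4⟩
    refine ZC2_bot hN _ _ _ (fun β hβ => ?_) _ h2
    have h3 := hc β hβ
    have hl : (l.length : ℤ) + 1 = c := by exact_mod_cast hlen
    omega

end

theorem ZC2_A3 (a c b : ℤ) (ha : 0 ≤ a) (hb : 0 ≤ b) (hc : 0 ≤ c)
    (h : a ^ 2 + (a - c) ^ 2 + (c - b) ^ 2 + b ^ 2 = 2) :
    (a = b → a + c + b + c ≤ 4 ∧ (a + c + b + c = 4 → a ≠ 0 ∧ c ≠ 0)) ∧
    2 * (a + c + b) ≤ 6 ∧ (a ≠ b → 2 * (a + c + b) ≤ 4 ∧
      (2 * (a + c + b) = 4 → (a ≠ 0 ∨ b ≠ 0) ∧ c ≠ 0)) := by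
  rcases ZJ2_solve a b c ha hb hc h with h | h | h | h | h | h <;> obtain ⟨rfl, rfl, rfl⟩ := h <;>
    norm_num

theorem dp_A3 (β : cA3.Root) (hβ : cA3.Pos β) : dp dA3 β ≤ 4 ∧
    (dp dA3 β = 4 → ∀ i, ∃ j, dA3.ρ.SameCycle i j ∧ β.1 j ≠ 0) := by
  have hnn := (cA3.pos_iff β).mp hβ
  have hn : β.1 0 ^ 2 + (β.1 0 - β.1 1) ^ 2 + (β.1 1 - β.1 2) ^ 2 + β.1 2 ^ 2 = 2 := by
    have h := β.2
    have h2 : cA3.ip β.1 β.1 =
        β.1 0 ^ 2 + (β.1 0 - β.1 1) ^ 2 + (β.1 1 - β.1 2) ^ 2 + β.1 2 ^ 2 := by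
      unfold SLC.ip cA3
      simp [dotProduct, mulVec, Fin.sum_univ_succ]
      ring
    rw [← h2, h]
  obtain ⟨h1, h2, h3⟩ := ZC2_A3 _ _ _ (hnn 0) (hnn 2) (hnn 1) hn
  have hht : ht β.1 = β.1 0 + β.1 1 + β.1 2 := by
    unfold ht
    rw [Fin.sum_univ_three]
  have hhf : ZC2_hfx dA3 β = β.1 1 := by
    unfold ZC2_hfx
    rw [Fin.sum_univ_three, if_neg (by decide), if_pos (by decide), if_neg (by decide)]
    ring
  have hfix : dA3.r β = β ↔ β.1 0 = β.1 2 := by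
    rw [ZC2_fix_iff]
    constructor
    · intro h
      exact (h 0).symm
    · intro h j
      fin_cases j
      · exact h.symm
      · rfl
      · exact h
  have c02 : dA3.ρ.SameCycle 0 2 := ⟨1, rfl⟩
  have fin : (β.1 0 ≠ 0 ∨ β.1 2 ≠ 0) ∧ β.1 1 ≠ 0 →
      ∀ i, ∃ j, dA3.ρ.SameCycle i j ∧ β.1 j ≠ 0 := by
    rintro ⟨h4, h5⟩ i
    fin_cases i
    · rcases h4 with h4 | h4
      · exact ⟨0, .refl _ _, h4⟩
      · exact ⟨2, c02, h4⟩
    · exact ⟨1, .refl _ _, h5⟩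
    · rcases h4 with h4 | h4
      · exact ⟨0, c02.symm, h4⟩
      · exact ⟨2, .refl _ _, h4⟩
  by_cases hf : dA3.r β = β
  · rw [ZC2_fx β hf, hht, hhf]
    have h4 := h1 (hfix.mp hf)
    exact ⟨h4.1, fun h5 => fin ⟨Or.inl (h4.2 h5).1, (h4.2 h5).2⟩⟩
  · rw [ZC2_nfx β hf, hht]
    have h4 := h3 (fun h5 => hf (hfix.mpr h5))
    exact ⟨h4.1, fun h5 => fin (h4.2 h5)⟩

/-- part of the finite check for `E₆` -/
def ZC2_Q (s a b c d e f : ℕ) : Prop :=
  s ≤ 16 ∧ (s = 16 → (a ≠ 0 ∨ f ≠ 0) ∧ b ≠ 0 ∧ (c ≠ 0 ∨ e ≠ 0) ∧ d ≠ 0)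

instance (s a b c d e f : ℕ) : Decidable (ZC2_Q s a b c d e f) := by
  unfold ZC2_Q
  infer_instance

/-- the finite check for `E₆` -/
def ZC2_P (a b c d e f : ℕ) : Prop :=
  a ^ 2 + b ^ 2 + c ^ 2 + d ^ 2 + e ^ 2 + f ^ 2 = a * c + c * d + b * d + d * e + e * f + 1 →
    (a = f ∧ c = e → ZC2_Q ((a + b + c + d + e + f) + (b + d)) a b c d e f) ∧
    (¬ (a = f ∧ c = e) → ZC2_Q (2 * (a + b + c + d + e + f)) a b c d e f)

instance (a b c d e f : ℕ) : Decidable (ZC2_P a b c d e f) := by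
  unfold ZC2_P
  infer_instance

theorem ZC2_E6 (a : Fin 2) (b c : Fin 3) (d : Fin 4) (e : Fin 3) (f : Fin 2) :
    ZC2_P a.val b.val c.val d.val e.val f.val := by
  revert f
  revert e
  revert d
  revert c
  revert b
  revert a
  decide +kernel

theorem ZC2_E6_bd (β : cE6.Root) : β.1 0 ^ 2 < 4 ∧ β.1 1 ^ 2 < 9 ∧ β.1 2 ^ 2 < 9 ∧
    β.1 3 ^ 2 < 16 ∧ β.1 4 ^ 2 < 9 ∧ β.1 5 ^ 2 < 4 := by
  have key : ∀ (y : Fin 6 → ℤ) (i : Fin 6) (q : ℤ),
      (∀ v, cE6.ip v y = 3 * v i) → cE6.ip y y = q → 9 * β.1 i ^ 2 ≤ 2 * q := by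
    intro y i q h1 h2
    have h3 := cE6.ip_sq_le β.1 y
    rw [h1, h2, β.2] at h3
    nlinarith
  have e0 := key ![4, 3, 5, 6, 4, 2] 0 12 (by
    intro v
    unfold SLC.ip cE6
    simp [dotProduct, mulVec, Fin.sum_univ_succ]
    ring) (by decide)
  have e1 := key ![3, 6, 6, 9, 6, 3] 1 18 (by
    intro v
    unfold SLC.ip cE6
    simp [dotProduct, mulVec, Fin.sum_univ_succ]
    ring) (by decide)
  have e2 := key ![5, 6, 10, 12, 8, 4] 2 30 (by
    intro v
    unfold SLC.ip cE6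
    simp [dotProduct, mulVec, Fin.sum_univ_succ]
    ring) (by decide)
  have e3 := key ![6, 9, 12, 18, 12, 6] 3 54 (by
    intro v
    unfold SLC.ip cE6
    simp [dotProduct, mulVec, Fin.sum_univ_succ]
    ring) (by decide)
  have e4 := key ![4, 6, 8, 12, 10, 5] 4 30 (by
    intro v
    unfold SLC.ip cE6
    simp [dotProduct, mulVec, Fin.sum_univ_succ]
    ring) (by decide)
  have e5 := key ![2, 3, 4, 6, 5, 4] 5 12 (by
    intro v
    unfold SLC.ip cE6
    simp [dotProduct, mulVec, Fin.sum_univ_succ]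
    ring) (by decide)
  refine ⟨by omega, by omega, by omega, by omega, by omega, by omega⟩

theorem dp_E6 (β : cE6.Root) (hβ : cE6.Pos β) : dp dE6 β ≤ 16 ∧
    (dp dE6 β = 16 → ∀ i, ∃ j, dE6.ρ.SameCycle i j ∧ β.1 j ≠ 0) := by
  have hnn := (cE6.pos_iff β).mp hβ
  obtain ⟨b0, b1, b2, b3, b4, b5⟩ := ZC2_E6_bd β
  have g : ∀ (x : ℤ) (m : ℕ), 0 ≤ x → x ^ 2 < (m : ℤ) ^ 2 → ∃ y : Fin m, x = (y.val : ℤ) := by
    intro x m h1 h2
    have h3 : x < m := by
      by_contra hcon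
      push Not at hcon
      have h4 : (0 : ℤ) ≤ m := by positivity
      nlinarith
    exact ⟨⟨x.toNat, by omega⟩, by simp [Int.toNat_of_nonneg h1]⟩
  obtain ⟨a, ha⟩ := g _ 2 (hnn 0) (by norm_num; exact b0)
  obtain ⟨b, hb⟩ := g _ 3 (hnn 1) (by norm_num; exact b1)
  obtain ⟨c, hc⟩ := g _ 3 (hnn 2) (by norm_num; exact b2)
  obtain ⟨d, hd⟩ := g _ 4 (hnn 3) (by norm_num; exact b3)
  obtain ⟨e, he⟩ := g _ 3 (hnn 4) (by norm_num; exact b4)
  obtain ⟨f, hf⟩ := g _ 2 (hnn 5) (by norm_num; exact b5)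
  have hn : (a.val : ℤ) ^ 2 + b.val ^ 2 + c.val ^ 2 + d.val ^ 2 + e.val ^ 2 + f.val ^ 2 =
      a.val * c.val + c.val * d.val + b.val * d.val + d.val * e.val + e.val * f.val + 1 := by
    have h := β.2
    have h2 : cE6.ip β.1 β.1 = 2 * (β.1 0 ^ 2 + β.1 1 ^ 2 + β.1 2 ^ 2 + β.1 3 ^ 2 +
        β.1 4 ^ 2 + β.1 5 ^ 2) - 2 * (β.1 0 * β.1 2 + β.1 2 * β.1 3 + β.1 1 * β.1 3 +
        β.1 3 * β.1 4 + β.1 4 * β.1 5) := by
      unfold SLC.ip cE6
      simp [dotProduct, mulVec, Fin.sum_univ_succ]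
      ring
    rw [h2, ha, hb, hc, hd, he, hf] at h
    linarith
  have hn0 := ZC2_E6 a b c d e f
  unfold ZC2_P ZC2_Q at hn0
  have hn' := hn0 (by exact_mod_cast hn)
  have hht : ht β.1 = a.val + b.val + c.val + d.val + e.val + f.val := by
    unfold ht
    rw [Fin.sum_univ_six, ha, hb, hc, hd, he, hf]
  have hhf : ZC2_hfx dE6 β = b.val + d.val := by
    unfold ZC2_hfx
    rw [Fin.sum_univ_six, if_neg (by decide), if_pos (by decide), if_neg (by decide),
      if_pos (by decide), if_neg (by decide), if_neg (by decide), hb, hd]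
    ring
  have hfix : dE6.r β = β ↔ a.val = f.val ∧ c.val = e.val := by
    rw [ZC2_fix_iff]
    constructor
    · intro h
      have h0 : β.1 5 = β.1 0 := h 0
      have h2 : β.1 4 = β.1 2 := h 2
      rw [hf, ha] at h0
      rw [he, hc] at h2
      exact ⟨by exact_mod_cast h0.symm, by exact_mod_cast h2.symm⟩
    · rintro ⟨h1, h2⟩ j
      have h3 : β.1 5 = β.1 0 := by rw [hf, ha, h1]
      have h4 : β.1 4 = β.1 2 := by rw [he, hc, h2]
      fin_cases j
      · exact h3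
      · rfl
      · exact h4
      · rfl
      · exact h4.symm
      · exact h3.symm
  have c05 : dE6.ρ.SameCycle 0 5 := ⟨1, rfl⟩
  have c24 : dE6.ρ.SameCycle 2 4 := ⟨1, rfl⟩
  have fin : (a.val ≠ 0 ∨ f.val ≠ 0) ∧ b.val ≠ 0 ∧ (c.val ≠ 0 ∨ e.val ≠ 0) ∧ d.val ≠ 0 →
      ∀ i, ∃ j, dE6.ρ.SameCycle i j ∧ β.1 j ≠ 0 := by
    rintro ⟨h1, h2, h3, h4⟩ i
    have k1 : β.1 1 ≠ 0 := by rw [hb]; exact_mod_cast h2
    have k3 : β.1 3 ≠ 0 := by rw [hd]; exact_mod_cast h4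
    have k0 : β.1 0 ≠ 0 ∨ β.1 5 ≠ 0 := by
      rw [ha, hf]
      rcases h1 with h1 | h1
      · exact Or.inl (by exact_mod_cast h1)
      · exact Or.inr (by exact_mod_cast h1)
    have k2 : β.1 2 ≠ 0 ∨ β.1 4 ≠ 0 := by
      rw [hc, he]
      rcases h3 with h3 | h3
      · exact Or.inl (by exact_mod_cast h3)
      · exact Or.inr (by exact_mod_cast h3)
    fin_cases i
    · rcases k0 with h | h
      · exact ⟨0, .refl _ _, h⟩
      · exact ⟨5, c05, h⟩
    · exact ⟨1, .refl _ _, k1⟩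
    · rcases k2 with h | h
      · exact ⟨2, .refl _ _, h⟩
      · exact ⟨4, c24, h⟩
    · exact ⟨3, .refl _ _, k3⟩
    · rcases k2 with h | h
      · exact ⟨2, c24.symm, h⟩
      · exact ⟨4, .refl _ _, h⟩
    · rcases k0 with h | h
      · exact ⟨0, c05.symm, h⟩
      · exact ⟨5, .refl _ _, h⟩
  by_cases hfx : dE6.r β = β
  · rw [ZC2_fx β hfx, hht, hhf]
    have h4 := hn'.1 (hfix.mp hfx)
    exact ⟨by exact_mod_cast h4.1, fun h5 => fin (h4.2 (by exact_mod_cast h5))⟩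
  · rw [ZC2_nfx β hfx, hht]
    have h4 := hn'.2 (fun h5 => hfx (hfix.mpr h5))
    exact ⟨by exact_mod_cast h4.1, fun h5 => fin (h4.2 (by exact_mod_cast h5))⟩

end Pool.Agent.H86.UM
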