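import Pool.Agent.H86.UM.ZJ3

/-!
# Project UM, Suzuki-Ree groups, module ZCD: nonvanishing for `D₄`, characteristic `3`

`G2_roots`, `G2_comms` (relations, no `σ` here). Every element of `FU` is a product of the `yg` of the six classes of positive
roots (`FU_eq`, `G2r.mem`, `yg_cycle`). `A2` := the subgroup generated by the `yg βP, yg βQ, yg βR, yg βS`: abelian, normal
in `FU`; `A3` := generated by `yg βQ, yg βS`: central in `FU` in characteristic `3`. Commutators: `[FU, FU] ≤ A2`,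
`[FU, A2] ≤ A3`. The pairs not in `G2_comms` commute because no sums are roots (`xg_comm`).
For `g ∈ FU`: `g = yg α₀ t * yg α₁ u * a`, `a ∈ A2`, `ξ_0 g = t` (also `= ξ_2 g = ξ_3 g`), `ξ_1 g = u`.
`icomm g₀ [g₁, g₂] = [g₂, [g₁, g₀]]`.
(1) If `ξ_0 = 0` on all three: they are in the group generated by `yg α₁ u` and `A2`, whose commutators are in
`⟨yg βS⟩ ≤ A3`, central: `icomm = 1`. If `ξ_1 = 0` on all three: the group generated by `yg α₀ t`, `A2`: commutators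
in `A3`. (2) If `g₂ ∈ A2`: `[g₂, [g₁, g₀]] = 1` as `A2` is abelian; if `g₀` or `g₁` is in `A2`: `[g₁, g₀] ∈ A3` is
central.
-/

set_option autoImplicit false
open Matrix

namespace Pool.Agent.H86.UM

open Pool.Agent.H75.UL

section abs

variable {G : Type*} [Group G]

private theorem ZCD_comm_gen {S1 S2 : Set G} {L : Subgroup G}
    (n1 : ∀ x ∈ Subgroup.closure S1, ∀ l ∈ L, x * l * x⁻¹ ∈ L)
    (n2 : ∀ x ∈ Subgroup.closure S2, ∀ l ∈ L, x * l * x⁻¹ ∈ L)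
    (h : ∀ a ∈ S1, ∀ b ∈ S2, a * b * a⁻¹ * b⁻¹ ∈ L) :
    ∀ x ∈ Subgroup.closure S1, ∀ y ∈ Subgroup.closure S2, x * y * x⁻¹ * y⁻¹ ∈ L := by
  have h1 : ∀ x ∈ Subgroup.closure S1, ∀ b ∈ S2, x * b * x⁻¹ * b⁻¹ ∈ L := by
    intro x hx b hb
    induction hx using Subgroup.closure_induction with
    | mem x hx => exact h x hx b hb
    | one => simp
    | mul x y hx hy ihx ihy =>
      have e : x * y * b * (x * y)⁻¹ * b⁻¹ = x * (y * b * y⁻¹ * b⁻¹) * x⁻¹ * (x * b * x⁻¹ * b⁻¹) := by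
        group
      rw [e]
      exact L.mul_mem (n1 x hx _ ihy) ihx
    | inv x hx ih =>
      have e : x⁻¹ * b * x⁻¹⁻¹ * b⁻¹ = x⁻¹ * (x * b * x⁻¹ * b⁻¹)⁻¹ * x⁻¹⁻¹ := by group
      rw [e]
      exact n1 _ (Subgroup.inv_mem _ hx) _ (L.inv_mem ih)
  intro x hx y hy
  induction hy using Subgroup.closure_induction with
  | mem y hy => exact h1 x hx y hy
  | one => simp
  | mul y z hy hz ihy ihz =>
    have e : x * (y * z) * x⁻¹ * (y * z)⁻¹ = (x * y * x⁻¹ * y⁻¹) * (y * (x * z * x⁻¹ * z⁻¹) * y⁻¹) := by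
      group
    rw [e]
    exact L.mul_mem ihy (n2 y hy _ ihz)
  | inv y hy ih =>
    have e : x * y⁻¹ * x⁻¹ * y⁻¹⁻¹ = y⁻¹ * (x * y * x⁻¹ * y⁻¹)⁻¹ * y⁻¹⁻¹ := by group
    rw [e]
    exact n2 _ (Subgroup.inv_mem _ hy) _ (L.inv_mem ih)

private theorem ZCD_norm_gen {S T : Set G} (hS : ∀ s ∈ S, s⁻¹ ∈ S)
    (h : ∀ s ∈ S, ∀ t ∈ T, s * t * s⁻¹ ∈ Subgroup.closure T) :
    ∀ x ∈ Subgroup.closure S, ∀ l ∈ Subgroup.closure T, x * l * x⁻¹ ∈ Subgroup.closure T := by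
  have h0 : ∀ s ∈ S, ∀ l ∈ Subgroup.closure T, s * l * s⁻¹ ∈ Subgroup.closure T := by
    intro s hs l hl
    induction hl using Subgroup.closure_induction with
    | mem t ht => exact h s hs t ht
    | one => simp
    | mul y z hy hz ihy ihz =>
      have e : s * (y * z) * s⁻¹ = (s * y * s⁻¹) * (s * z * s⁻¹) := by group
      rw [e]
      exact Subgroup.mul_mem _ ihy ihz
    | inv y hy ih =>
      have e : s * y⁻¹ * s⁻¹ = (s * y * s⁻¹)⁻¹ := by group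
      rw [e]
      exact Subgroup.inv_mem _ ih
  intro x hx
  induction hx using Subgroup.closure_induction'' with
  | mem x hx => exact h0 x hx
  | inv_mem x hx => exact h0 _ (hS x hx)
  | one => intro l hl; simpa using hl
  | mul x y hx hy ihx ihy =>
    intro l hl
    have e : x * y * l * (x * y)⁻¹ = x * (y * l * y⁻¹) * x⁻¹ := by group
    rw [e]
    exact ihx _ (ihy _ hl)

private theorem ZCD_cent {S : Set G} {z : G} (h : ∀ s ∈ S, s * z = z * s) :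
    ∀ x ∈ Subgroup.closure S, x * z = z * x := by
  intro x hx
  have : Subgroup.closure S ≤ Subgroup.centralizer {z} := by
    rw [Subgroup.closure_le]
    intro s hs
    rw [SetLike.mem_coe, Subgroup.mem_centralizer_singleton_iff]
    exact h s hs
  have := this hx
  rw [Subgroup.mem_centralizer_singleton_iff] at this
  exact this

private theorem ZCD_cent2 {S T : Set G} (h : ∀ s ∈ S, ∀ t ∈ T, s * t = t * s) :
    ∀ x ∈ Subgroup.closure S, ∀ y ∈ Subgroup.closure T, x * y = y * x := by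
  intro x hx y hy
  refine (ZCD_cent (S := T) (z := x) ?_ y hy).symm
  intro t ht
  exact (ZCD_cent (S := S) (z := t) (fun s hs => h s hs t ht) x hx).symm

variable {k : Type*} [Field k] (A B P Q R S : k → G)

/-- relations used -/
private structure ZCDr : Prop where
  nA : ∀ t, (A t)⁻¹ = A (-t)
  nB : ∀ t, (B t)⁻¹ = B (-t)
  nP : ∀ t, (P t)⁻¹ = P (-t)
  nQ : ∀ t, (Q t)⁻¹ = Q (-t)
  nR : ∀ t, (R t)⁻¹ = R (-t)
  nS : ∀ t, (S t)⁻¹ = S (-t)
  aA : ∀ s t, A (s + t) = A s * A t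
  aB : ∀ s t, B (s + t) = B s * B t
  AB : ∀ t u, A t * B u * (A t)⁻¹ * (B u)⁻¹ ∈
    Subgroup.closure (Set.range P ∪ Set.range Q ∪ Set.range R ∪ Set.range S)
  AP : ∀ t v, A t * P v * (A t)⁻¹ * (P v)⁻¹ ∈ Subgroup.closure (Set.range Q ∪ Set.range S)
  BR : ∀ u z, B u * R z * (B u)⁻¹ * (R z)⁻¹ ∈ Subgroup.closure (Set.range Q ∪ Set.range S)
  AQ : ∀ t w, A t * Q w = Q w * A t
  AR : ∀ t z, A t * R z = R z * A t
  AS : ∀ t y, A t * S y = S y * A t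
  AA : ∀ t y, A t * A y = A y * A t
  BB : ∀ t y, B t * B y = B y * B t
  PP : ∀ t y, P t * P y = P y * P t
  QQ : ∀ t y, Q t * Q y = Q y * Q t
  RR : ∀ t y, R t * R y = R y * R t
  SS : ∀ t y, S t * S y = S y * S t
  BP : ∀ u v, B u * P v = P v * B u
  BQ : ∀ u w, B u * Q w = Q w * B u
  BS : ∀ u y, B u * S y = S y * B u
  PQ : ∀ v w, P v * Q w = Q w * P v
  PR : ∀ v z, P v * R z = R z * P v
  PS : ∀ v y, P v * S y = S y * P v
  QR : ∀ w z, Q w * R z = R z * Q w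
  QS : ∀ w y, Q w * S y = S y * Q w
  RS : ∀ z y, R z * S y = S y * R z

/-- `A2` -/
private def ZCDA2 : Set G := Set.range P ∪ Set.range Q ∪ Set.range R ∪ Set.range S
/-- `A3` -/
private def ZCDA3 : Set G := Set.range Q ∪ Set.range S
/-- all -/
private def ZCDF : Set G := Set.range A ∪ Set.range B ∪ ZCDA2 P Q R S

variable {A B P Q R S}

private theorem ZCD_A3_le_A2 : ZCDA3 Q S ⊆ ZCDA2 P Q R S := by
  rintro x (hx | hx)
  · exact Or.inl (Or.inl (Or.inr hx))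
  · exact Or.inr hx

private theorem ZCD_A2_le_F : ZCDA2 P Q R S ⊆ ZCDF A B P Q R S := fun _ hx => Or.inr hx

variable (h : ZCDr A B P Q R S)
include h

private theorem ZCD_F_inv : ∀ s ∈ ZCDF A B P Q R S, s⁻¹ ∈ ZCDF A B P Q R S := by
  rintro s ((⟨t, rfl⟩ | ⟨t, rfl⟩) | (((⟨t, rfl⟩ | ⟨t, rfl⟩) | ⟨t, rfl⟩) | ⟨t, rfl⟩))
  · rw [h.nA]; exact Or.inl (Or.inl ⟨_, rfl⟩)
  · rw [h.nB]; exact Or.inl (Or.inr ⟨_, rfl⟩)
  · rw [h.nP]; exact Or.inr (Or.inl (Or.inl (Or.inl ⟨_, rfl⟩)))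
  · rw [h.nQ]; exact Or.inr (Or.inl (Or.inl (Or.inr ⟨_, rfl⟩)))
  · rw [h.nR]; exact Or.inr (Or.inl (Or.inr ⟨_, rfl⟩))
  · rw [h.nS]; exact Or.inr (Or.inr ⟨_, rfl⟩)

/-- `A3` is central -/
private theorem ZCD_central : ∀ x ∈ Subgroup.closure (ZCDF A B P Q R S),
    ∀ y ∈ Subgroup.closure (ZCDA3 Q S), x * y = y * x := by
  refine ZCD_cent2 ?_
  rintro s ((⟨t, rfl⟩ | ⟨t, rfl⟩) | (((⟨t, rfl⟩ | ⟨t, rfl⟩) | ⟨t, rfl⟩) | ⟨t, rfl⟩)) y
    (⟨u, rfl⟩ | ⟨u, rfl⟩)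
  · exact h.AQ t u
  · exact h.AS t u
  · exact h.BQ t u
  · exact h.BS t u
  · exact h.PQ t u
  · exact h.PS t u
  · exact h.QQ t u
  · exact h.QS t u
  · exact (h.QR u t).symm
  · exact h.RS t u
  · exact (h.QS u t).symm
  · exact h.SS t u

/-- `A2` is abelian -/
private theorem ZCD_abelian : ∀ x ∈ Subgroup.closure (ZCDA2 P Q R S),
    ∀ y ∈ Subgroup.closure (ZCDA2 P Q R S), x * y = y * x := by
  refine ZCD_cent2 ?_
  rintro s (((⟨t, rfl⟩ | ⟨t, rfl⟩) | ⟨t, rfl⟩) | ⟨t, rfl⟩) y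
    (((⟨u, rfl⟩ | ⟨u, rfl⟩) | ⟨u, rfl⟩) | ⟨u, rfl⟩)
  · exact h.PP t u
  · exact h.PQ t u
  · exact h.PR t u
  · exact h.PS t u
  · exact (h.PQ u t).symm
  · exact h.QQ t u
  · exact h.QR t u
  · exact h.QS t u
  · exact (h.PR u t).symm
  · exact (h.QR u t).symm
  · exact h.RR t u
  · exact h.RS t u
  · exact (h.PS u t).symm
  · exact (h.QS u t).symm
  · exact (h.RS u t).symm
  · exact h.SS t u

private theorem ZCD_n3 : ∀ x ∈ Subgroup.closure (ZCDF A B P Q R S),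
    ∀ y ∈ Subgroup.closure (ZCDA3 Q S), x * y * x⁻¹ ∈ Subgroup.closure (ZCDA3 Q S) := by
  intro x hx y hy
  rw [ZCD_central h x hx y hy, mul_inv_cancel_right]
  exact hy

omit h in
private theorem ZCD_comm_one {a b : G} (e : a * b = b * a) (L : Subgroup G) :
    a * b * a⁻¹ * b⁻¹ ∈ L := by
  rw [e, mul_inv_cancel_right, mul_inv_cancel]
  exact L.one_mem

omit h in
private theorem ZCD_comm_swap {a b : G} {L : Subgroup G} (e : a * b * a⁻¹ * b⁻¹ ∈ L) :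
    b * a * b⁻¹ * a⁻¹ ∈ L := by
  have := L.inv_mem e
  have e2 : (a * b * a⁻¹ * b⁻¹)⁻¹ = b * a * b⁻¹ * a⁻¹ := by group
  rwa [e2] at this

/-- `[F, A2] ≤ A3` -/
private theorem ZCD_FA2 : ∀ x ∈ Subgroup.closure (ZCDF A B P Q R S),
    ∀ y ∈ Subgroup.closure (ZCDA2 P Q R S), x * y * x⁻¹ * y⁻¹ ∈ Subgroup.closure (ZCDA3 Q S) := by
  refine ZCD_comm_gen (ZCD_n3 h)
    (fun x hx => ZCD_n3 h x (Subgroup.closure_mono ZCD_A2_le_F hx)) ?_
  rintro s ((⟨t, rfl⟩ | ⟨t, rfl⟩) | hs) y hy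
  · rcases hy with (((⟨u, rfl⟩ | ⟨u, rfl⟩) | ⟨u, rfl⟩) | ⟨u, rfl⟩)
    · exact h.AP t u
    · exact ZCD_comm_one (h.AQ t u) _
    · exact ZCD_comm_one (h.AR t u) _
    · exact ZCD_comm_one (h.AS t u) _
  · rcases hy with (((⟨u, rfl⟩ | ⟨u, rfl⟩) | ⟨u, rfl⟩) | ⟨u, rfl⟩)
    · exact ZCD_comm_one (h.BP t u) _
    · exact ZCD_comm_one (h.BQ t u) _
    · exact h.BR t u
    · exact ZCD_comm_one (h.BS t u) _
  · exact ZCD_comm_one (ZCD_abelian h s (Subgroup.subset_closure hs) y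
      (Subgroup.subset_closure hy)) _

private theorem ZCD_n2 : ∀ x ∈ Subgroup.closure (ZCDF A B P Q R S),
    ∀ y ∈ Subgroup.closure (ZCDA2 P Q R S), x * y * x⁻¹ ∈ Subgroup.closure (ZCDA2 P Q R S) := by
  intro x hx y hy
  have h1 : x * y * x⁻¹ * y⁻¹ ∈ Subgroup.closure (ZCDA2 P Q R S) :=
    Subgroup.closure_mono ZCD_A3_le_A2 (ZCD_FA2 h x hx y hy)
  have e : x * y * x⁻¹ = x * y * x⁻¹ * y⁻¹ * y := by group
  rw [e]
  exact Subgroup.mul_mem _ h1 hy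

/-- `[F, F] ≤ A2` -/
private theorem ZCD_FF : ∀ x ∈ Subgroup.closure (ZCDF A B P Q R S),
    ∀ y ∈ Subgroup.closure (ZCDF A B P Q R S),
      x * y * x⁻¹ * y⁻¹ ∈ Subgroup.closure (ZCDA2 P Q R S) := by
  refine ZCD_comm_gen (ZCD_n2 h) (ZCD_n2 h) ?_
  have h2 : ∀ s ∈ ZCDF A B P Q R S, ∀ y ∈ ZCDA2 P Q R S,
      s * y * s⁻¹ * y⁻¹ ∈ Subgroup.closure (ZCDA2 P Q R S) := fun s hs y hy =>
    Subgroup.closure_mono ZCD_A3_le_A2 (ZCD_FA2 h s (Subgroup.subset_closure hs) y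
      (Subgroup.subset_closure hy))
  intro s hs y hy
  rcases hy with (⟨u, rfl⟩ | ⟨u, rfl⟩) | hy
  · rcases hs with (⟨t, rfl⟩ | ⟨t, rfl⟩) | hs
    · exact ZCD_comm_one (h.AA t u) _
    · exact ZCD_comm_swap (h.AB u t)
    · exact ZCD_comm_swap (h2 _ (Or.inl (Or.inl ⟨u, rfl⟩)) s hs)
  · rcases hs with (⟨t, rfl⟩ | ⟨t, rfl⟩) | hs
    · exact h.AB t u
    · exact ZCD_comm_one (h.BB t u) _
    · exact ZCD_comm_swap (h2 _ (Or.inl (Or.inr ⟨u, rfl⟩)) s hs)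
  · exact h2 s hs y hy

/-- the group generated by `B` and `A2` is abelian modulo `A3` -/
private theorem ZCD_BB : ∀ x ∈ Subgroup.closure (Set.range B ∪ ZCDA2 P Q R S),
    ∀ y ∈ Subgroup.closure (Set.range B ∪ ZCDA2 P Q R S),
      x * y * x⁻¹ * y⁻¹ ∈ Subgroup.closure (ZCDA3 Q S) := by
  have hle : (Set.range B ∪ ZCDA2 P Q R S) ⊆ ZCDF A B P Q R S := by
    rintro x (hx | hx)
    · exact Or.inl (Or.inr hx)
    · exact Or.inr hx
  refine ZCD_comm_gen (fun x hx => ZCD_n3 h x (Subgroup.closure_mono hle hx))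
    (fun x hx => ZCD_n3 h x (Subgroup.closure_mono hle hx)) ?_
  intro s hs y hy
  rcases hy with ⟨u, rfl⟩ | hy
  · rcases hs with ⟨t, rfl⟩ | hs
    · exact ZCD_comm_one (h.BB t u) _
    · exact ZCD_comm_swap (ZCD_FA2 h _ (Subgroup.subset_closure (Or.inl (Or.inr ⟨u, rfl⟩))) s
        (Subgroup.subset_closure hs))
  · exact ZCD_FA2 h _ (Subgroup.subset_closure (hle hs)) y (Subgroup.subset_closure hy)

/-- the group generated by `A` and `A2` is abelian modulo `A3` -/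
private theorem ZCD_AA : ∀ x ∈ Subgroup.closure (Set.range A ∪ ZCDA2 P Q R S),
    ∀ y ∈ Subgroup.closure (Set.range A ∪ ZCDA2 P Q R S),
      x * y * x⁻¹ * y⁻¹ ∈ Subgroup.closure (ZCDA3 Q S) := by
  have hle : (Set.range A ∪ ZCDA2 P Q R S) ⊆ ZCDF A B P Q R S := by
    rintro x (hx | hx)
    · exact Or.inl (Or.inl hx)
    · exact Or.inr hx
  refine ZCD_comm_gen (fun x hx => ZCD_n3 h x (Subgroup.closure_mono hle hx))
    (fun x hx => ZCD_n3 h x (Subgroup.closure_mono hle hx)) ?_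
  intro s hs y hy
  rcases hy with ⟨u, rfl⟩ | hy
  · rcases hs with ⟨t, rfl⟩ | hs
    · exact ZCD_comm_one (h.AA t u) _
    · exact ZCD_comm_swap (ZCD_FA2 h _ (Subgroup.subset_closure (Or.inl (Or.inl ⟨u, rfl⟩))) s
        (Subgroup.subset_closure hs))
  · exact ZCD_FA2 h _ (Subgroup.subset_closure (hle hs)) y (Subgroup.subset_closure hy)

/-- the normal form modulo `A2` -/
private theorem ZCD_form (hA0 : A 0 = 1) (hB0 : B 0 = 1) :
    ∀ x ∈ Subgroup.closure (ZCDF A B P Q R S),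
      ∃ t u, ∃ a ∈ Subgroup.closure (ZCDA2 P Q R S), x = A t * B u * a := by
  have hFA : ∀ t, A t ∈ Subgroup.closure (ZCDF A B P Q R S) := fun t =>
    Subgroup.subset_closure (Or.inl (Or.inl ⟨t, rfl⟩))
  have hFB : ∀ t, B t ∈ Subgroup.closure (ZCDF A B P Q R S) := fun t =>
    Subgroup.subset_closure (Or.inl (Or.inr ⟨t, rfl⟩))
  have hF2 : ∀ a ∈ Subgroup.closure (ZCDA2 P Q R S), a ∈ Subgroup.closure (ZCDF A B P Q R S) :=
    fun a ha => Subgroup.closure_mono ZCD_A2_le_F ha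
  have hmul : ∀ t u a t' u' a', a ∈ Subgroup.closure (ZCDA2 P Q R S) →
      a' ∈ Subgroup.closure (ZCDA2 P Q R S) → ∃ a'' ∈ Subgroup.closure (ZCDA2 P Q R S),
        (A t * B u * a) * (A t' * B u' * a') = A (t + t') * B (u + u') * a'' := by
    intro t u a t' u' a' ha ha'
    have hAB : A t' * B u' ∈ Subgroup.closure (ZCDF A B P Q R S) :=
      Subgroup.mul_mem _ (hFA _) (hFB _)
    refine ⟨(B (u'))⁻¹ * ((B u) ⁻¹ * ((A t')⁻¹ * B u * (A t')⁻¹⁻¹ * (B u)⁻¹) * (B u)⁻¹⁻¹) *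
      (B u')⁻¹⁻¹ * ((A t' * B u')⁻¹ * a * (A t' * B u')⁻¹⁻¹) * a', ?_, ?_⟩
    · refine Subgroup.mul_mem _ (Subgroup.mul_mem _ ?_ ?_) ha'
      · refine ZCD_n2 h _ (Subgroup.inv_mem _ (hFB _)) _ ?_
        refine ZCD_n2 h _ (Subgroup.inv_mem _ (hFB _)) _ ?_
        exact ZCD_FF h _ (Subgroup.inv_mem _ (hFA _)) _ (hFB _)
      · exact ZCD_n2 h _ (Subgroup.inv_mem _ hAB) _ ha
    · rw [h.aA, h.aB]
      group
  intro x hx
  induction hx using Subgroup.closure_induction with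
  | mem x hx =>
    rcases hx with (⟨t, rfl⟩ | ⟨u, rfl⟩) | hx
    · exact ⟨t, 0, 1, Subgroup.one_mem _, by rw [hB0]; group⟩
    · exact ⟨0, u, 1, Subgroup.one_mem _, by rw [hA0]; group⟩
    · exact ⟨0, 0, x, Subgroup.subset_closure hx, by rw [hA0, hB0]; group⟩
  | one => exact ⟨0, 0, 1, Subgroup.one_mem _, by rw [hA0, hB0]; group⟩
  | mul x y hx hy ihx ihy =>
    obtain ⟨t, u, a, ha, rfl⟩ := ihx
    obtain ⟨t', u', a', ha', rfl⟩ := ihy
    obtain ⟨a'', ha'', e⟩ := hmul t u a t' u' a' ha ha'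
    exact ⟨_, _, a'', ha'', e⟩
  | inv x hx ih =>
    obtain ⟨t, u, a, ha, rfl⟩ := ih
    obtain ⟨a'', ha'', e⟩ := hmul t u a (-t) (-u) 1 ha (Subgroup.one_mem _)
    rw [add_neg_cancel, add_neg_cancel, hA0, hB0, one_mul, one_mul, mul_one] at e
    refine ⟨-t, -u, a''⁻¹, Subgroup.inv_mem _ ha'', ?_⟩
    rw [← e]
    group

/-- the abstract statement -/
private theorem ZCD_main (hA0 : A 0 = 1) (hB0 : B 0 = 1) (x0 x1 : G → k)
    (hx0 : ∀ t u, ∀ a ∈ Subgroup.closure (ZCDA2 P Q R S), x0 (A t * B u * a) = t)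
    (hx1 : ∀ t u, ∀ a ∈ Subgroup.closure (ZCDA2 P Q R S), x1 (A t * B u * a) = u)
    (g0 g1 g2 : G) (h0 : g0 ∈ Subgroup.closure (ZCDF A B P Q R S))
    (h1 : g1 ∈ Subgroup.closure (ZCDF A B P Q R S)) (h2 : g2 ∈ Subgroup.closure (ZCDF A B P Q R S))
    (hne : g2 * (g1 * g0 * g1⁻¹ * g0⁻¹) * g2⁻¹ * (g1 * g0 * g1⁻¹ * g0⁻¹)⁻¹ ≠ 1) :
    ¬ (x0 g0 = 0 ∧ x0 g1 = 0 ∧ x0 g2 = 0) ∧ ¬ (x1 g0 = 0 ∧ x1 g1 = 0 ∧ x1 g2 = 0) ∧
      ¬ (x0 g0 = 0 ∧ x1 g0 = 0) ∧ ¬ (x0 g1 = 0 ∧ x1 g1 = 0) ∧ ¬ (x0 g2 = 0 ∧ x1 g2 = 0) := by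
  have hc : ∀ c ∈ Subgroup.closure (ZCDA3 Q S), g1 * g0 * g1⁻¹ * g0⁻¹ = c → False := by
    intro c hc e
    apply hne
    rw [e, ZCD_central h g2 h2 c hc]
    group
  have k0 : ∀ g ∈ Subgroup.closure (ZCDF A B P Q R S), x0 g = 0 →
      g ∈ Subgroup.closure (Set.range B ∪ ZCDA2 P Q R S) := by
    intro g hg hx
    obtain ⟨t, u, a, ha, rfl⟩ := ZCD_form h hA0 hB0 g hg
    rw [hx0 t u a ha] at hx
    rw [hx, hA0, one_mul]
    exact Subgroup.mul_mem _ (Subgroup.subset_closure (Or.inl ⟨u, rfl⟩))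
      (Subgroup.closure_mono Set.subset_union_right ha)
  have k1 : ∀ g ∈ Subgroup.closure (ZCDF A B P Q R S), x1 g = 0 →
      g ∈ Subgroup.closure (Set.range A ∪ ZCDA2 P Q R S) := by
    intro g hg hx
    obtain ⟨t, u, a, ha, rfl⟩ := ZCD_form h hA0 hB0 g hg
    rw [hx1 t u a ha] at hx
    rw [hx, hB0, mul_one]
    exact Subgroup.mul_mem _ (Subgroup.subset_closure (Or.inl ⟨t, rfl⟩))
      (Subgroup.closure_mono Set.subset_union_right ha)
  have k2 : ∀ g ∈ Subgroup.closure (ZCDF A B P Q R S), x0 g = 0 → x1 g = 0 →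
      g ∈ Subgroup.closure (ZCDA2 P Q R S) := by
    intro g hg hx hx'
    obtain ⟨t, u, a, ha, rfl⟩ := ZCD_form h hA0 hB0 g hg
    rw [hx0 t u a ha] at hx
    rw [hx1 t u a ha] at hx'
    rw [hx, hx', hA0, hB0, one_mul, one_mul]
    exact ha
  refine ⟨?_, ?_, ?_, ?_, ?_⟩
  · rintro ⟨e0, e1, e2⟩
    exact hc _ (ZCD_BB h g1 (k0 _ h1 e1) g0 (k0 _ h0 e0)) rfl
  · rintro ⟨e0, e1, e2⟩
    exact hc _ (ZCD_AA h g1 (k1 _ h1 e1) g0 (k1 _ h0 e0)) rfl
  · rintro ⟨e0, e1⟩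
    exact hc _ (ZCD_FA2 h g1 h1 g0 (k2 _ h0 e0 e1)) rfl
  · rintro ⟨e0, e1⟩
    exact hc _ (ZCD_comm_swap (ZCD_FA2 h g0 h0 g1 (k2 _ h1 e0 e1))) rfl
  · rintro ⟨e0, e1⟩
    apply hne
    have m1 := ZCD_FF h g1 h1 g0 h0
    rw [ZCD_abelian h g2 (k2 _ h2 e0 e1) _ m1]
    group

end abs

private theorem ZCD_ip (β γ : cD4.Root) (v w : Fin 4 → ℤ) (hv : β.1 = v) (hw : γ.1 = w)
    (key : ∀ a b : Fin 3, 0 ≤ cD4.ip (SLC.lmap (dD4.ρ ^ (a : ℕ)) v) (SLC.lmap (dD4.ρ ^ (b : ℕ)) w)) :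
    ∀ l l' : ℕ, 0 ≤ cD4.ip (dD4.r^[l] β).1 (dD4.r^[l'] γ).1 := by
  intro l l'
  rw [dD4.r_iter, dD4.r_iter, hv, hw]
  have h3 : ∀ l : ℕ, dD4.ρ ^ l = dD4.ρ ^ (l % 3) := by
    intro l
    have h4 : dD4.ρ ^ 3 = 1 := by decide
    conv_lhs => rw [← Nat.div_add_mod l 3, pow_add, pow_mul, h4, one_pow, one_mul]
  rw [h3 l, h3 l']
  exact key ⟨l % 3, Nat.mod_lt _ (by norm_num)⟩ ⟨l' % 3, Nat.mod_lt _ (by norm_num)⟩

theorem nonvan3 {k : Type*} [Field k] [Infinite k] [CharP k 3]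
    (g₀ : GF dD4 k) (l : List (GF dD4 k)) (hg : ∀ g ∈ g₀ :: l, g ∈ FU dD4 k)
    (hlen : l.length + 1 = 3) (hne : icomm g₀ l ≠ 1) :
    (∀ j, ∃ g ∈ g₀ :: l, cD4.xi j ((g : GL cD4.Idx k) : Matrix cD4.Idx cD4.Idx k) ≠ 0) ∧
    ∀ g ∈ g₀ :: l, ∃ j, cD4.xi j ((g : GL cD4.Idx k) : Matrix cD4.Idx cD4.Idx k) ≠ 0 := by
  obtain ⟨βP, βQ, βR, βS, hr⟩ := G2_roots
  have hN := swap_D4.na
  have v0 : (cD4.simple 0).1 = ![1, 0, 0, 0] := by
    rw [SLC.simple_val]; decide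
  have v1 : (cD4.simple 1).1 = ![0, 1, 0, 0] := by
    rw [SLC.simple_val]; decide
  have hcomm := fun t u : k => G2_comms βP βQ βR βS hr t u
  have cm : ∀ (β γ : cD4.Root) (v w : Fin 4 → ℤ) (_ : β.1 = v) (_ : γ.1 = w)
      (_ : ∀ a b : Fin 3, 0 ≤ cD4.ip (SLC.lmap (dD4.ρ ^ (a : ℕ)) v)
        (SLC.lmap (dD4.ρ ^ (b : ℕ)) w)) (t u : k),
      yg hN β t * yg hN γ u = yg hN γ u * yg hN β t :=
    fun β γ v w hv hw key t u => ZJ1_yg_comm hN β γ (ZCD_ip β γ v w hv hw key) t u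
  have self : ∀ (β : cD4.Root) (t u : k), yg hN β t * yg hN β u = yg hN β u * yg hN β t := by
    intro β t u
    rw [← yg_add, ← yg_add, add_comm]
  have hrel : ZCDr (yg hN (cD4.simple 0)) (yg hN (cD4.simple 1)) (yg hN βP) (yg hN βQ)
      (yg hN βR) (yg hN βS : k → GF dD4 k) :=
    { nA := fun t => (yg_neg hN _ t).symm
      nB := fun t => (yg_neg hN _ t).symm
      nP := fun t => (yg_neg hN _ t).symm
      nQ := fun t => (yg_neg hN _ t).symm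
      nR := fun t => (yg_neg hN _ t).symm
      nS := fun t => (yg_neg hN _ t).symm
      aA := fun s t => yg_add hN _ s t
      aB := fun s t => yg_add hN _ s t
      AB := by
        intro t u
        rw [(hcomm t u).1]
        have e : ∀ a b c d x y : GF dD4 k, a * b * c * d * (x * y) * y⁻¹ * x⁻¹ = a * b * c * d := by
          intro a b c d x y
          group
        rw [e]
        refine Subgroup.mul_mem _ (Subgroup.mul_mem _ (Subgroup.mul_mem _ ?_ ?_) ?_) ?_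
        · exact Subgroup.subset_closure (Or.inl (Or.inl (Or.inl ⟨_, rfl⟩)))
        · exact Subgroup.subset_closure (Or.inl (Or.inl (Or.inr ⟨_, rfl⟩)))
        · exact Subgroup.subset_closure (Or.inl (Or.inr ⟨_, rfl⟩))
        · exact Subgroup.subset_closure (Or.inr ⟨_, rfl⟩)
      AP := by
        intro t u
        rw [(hcomm t u).2.1]
        have e : ∀ a x y : GF dD4 k, a * (x * y) * y⁻¹ * x⁻¹ = a := by
          intro a x y
          group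
        rw [e]
        exact Subgroup.subset_closure (Or.inl ⟨_, rfl⟩)
      BR := by
        intro t u
        rw [(hcomm t u).2.2.1]
        have e : ∀ a x y : GF dD4 k, a * (x * y) * y⁻¹ * x⁻¹ = a := by
          intro a x y
          group
        rw [e]
        exact Subgroup.subset_closure (Or.inr ⟨_, rfl⟩)
      AQ := fun t u => (hcomm t u).2.2.2.1
      AR := cm _ _ _ _ v0 hr.hR (by decide)
      AS := cm _ _ _ _ v0 hr.hS (by decide)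
      AA := self _
      BB := self _
      PP := self _
      QQ := self _
      RR := self _
      SS := self _
      BP := cm _ _ _ _ v1 hr.hP (by decide)
      BQ := cm _ _ _ _ v1 hr.hQ (by decide)
      BS := cm _ _ _ _ v1 hr.hS (by decide)
      PQ := fun t u => (hcomm t u).2.2.2.2
      PR := cm _ _ _ _ hr.hP hr.hR (by decide)
      PS := cm _ _ _ _ hr.hP hr.hS (by decide)
      QR := cm _ _ _ _ hr.hQ hr.hR (by decide)
      QS := cm _ _ _ _ hr.hQ hr.hS (by decide)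
      RS := cm _ _ _ _ hr.hR hr.hS (by decide) }
  have hpos : ∀ β : cD4.Root, (∀ i, 0 ≤ β.1 i) → cD4.Pos β := fun β hβ => (cD4.pos_iff β).mpr hβ
  have pP : cD4.Pos βP := hpos _ (by rw [hr.hP]; decide)
  have pQ : cD4.Pos βQ := hpos _ (by rw [hr.hQ]; decide)
  have pR : cD4.Pos βR := hpos _ (by rw [hr.hR]; decide)
  have pS : cD4.Pos βS := hpos _ (by rw [hr.hS]; decide)
  -- `FU` is generated by the six root groups
  have hFU : FU dD4 k ≤ Subgroup.closure (ZCDF (yg hN (cD4.simple 0)) (yg hN (cD4.simple 1))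
      (yg hN βP) (yg hN βQ) (yg hN βR) (yg hN βS : k → GF dD4 k)) := by
    rw [FU_eq hN, Subgroup.closure_le]
    rintro g ⟨β, hβ, t, rfl⟩
    have cyc : ∀ γ : cD4.Root, dD4.rE.SameCycle γ β → ∃ s : k, yg hN γ s = yg hN β t := by
      intro γ hγ
      obtain ⟨e, -, he⟩ := yg_cycle hN β γ (k := k) hγ.symm
      exact ⟨_, he t⟩
    rcases (hr.mem β).mp hβ with h1 | rfl | h1 | h1 | rfl | rfl
    · obtain ⟨s, hs⟩ := cyc _ h1
      rw [← hs]
      exact Subgroup.subset_closure (Or.inl (Or.inl ⟨_, rfl⟩))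
    · exact Subgroup.subset_closure (Or.inl (Or.inr ⟨_, rfl⟩))
    · obtain ⟨s, hs⟩ := cyc _ h1
      rw [← hs]
      exact Subgroup.subset_closure (Or.inr (Or.inl (Or.inl (Or.inl ⟨_, rfl⟩))))
    · obtain ⟨s, hs⟩ := cyc _ h1
      rw [← hs]
      exact Subgroup.subset_closure (Or.inr (Or.inl (Or.inl (Or.inr ⟨_, rfl⟩))))
    · exact Subgroup.subset_closure (Or.inr (Or.inl (Or.inr ⟨_, rfl⟩)))
    · exact Subgroup.subset_closure (Or.inr (Or.inr ⟨_, rfl⟩))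
  -- the coordinates
  have xmul : ∀ (j : Fin 4) (a b : GF dD4 k), a ∈ FU dD4 k → b ∈ FU dD4 k →
      cD4.xi j (((a * b : GF dD4 k) : GL cD4.Idx k) : Matrix cD4.Idx cD4.Idx k) =
      cD4.xi j ((a : GL cD4.Idx k) : Matrix cD4.Idx cD4.Idx k) +
        cD4.xi j ((b : GL cD4.Idx k) : Matrix cD4.Idx cD4.Idx k) := by
    intro j a b ha hb
    rw [Subgroup.coe_mul]
    exact cD4.xi_mul j _ _ ha.1 hb.1
  have xinv : ∀ (j : Fin 4) (a : GF dD4 k), a ∈ FU dD4 k →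
      cD4.xi j (((a⁻¹ : GF dD4 k) : GL cD4.Idx k) : Matrix cD4.Idx cD4.Idx k) =
      -cD4.xi j ((a : GL cD4.Idx k) : Matrix cD4.Idx cD4.Idx k) := by
    intro j a ha
    rw [Subgroup.coe_inv]
    exact cD4.xi_inv j _ ha.1
  have nsimp : ∀ (β : cD4.Root) (v : Fin 4 → ℤ), β.1 = v → (∀ j : Fin 4, v ≠ Pi.single j 1) →
      ∀ i : Fin 4, ¬ ∃ j, β = cD4.simple j ∧ dD4.ρ.SameCycle j i := by
    rintro β v hv hn i ⟨j, rfl, -⟩
    rw [SLC.simple_val] at hv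
    exact hn j hv.symm
  have x2 : ∀ (j : Fin 4), ∀ a ∈ Subgroup.closure (ZCDA2 (yg hN βP) (yg hN βQ) (yg hN βR)
      (yg hN βS : k → GF dD4 k)), a ∈ FU dD4 k ∧
      cD4.xi j ((a : GL cD4.Idx k) : Matrix cD4.Idx cD4.Idx k) = 0 := by
    intro j a ha
    induction ha using Subgroup.closure_induction with
    | mem a ha =>
      rcases ha with (((⟨u, rfl⟩ | ⟨u, rfl⟩) | ⟨u, rfl⟩) | ⟨u, rfl⟩)
      · exact ⟨yg_pos hN _ pP u, (xi_yg hN j _ pP u).2 (nsimp _ _ hr.hP (by decide) j)⟩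
      · exact ⟨yg_pos hN _ pQ u, (xi_yg hN j _ pQ u).2 (nsimp _ _ hr.hQ (by decide) j)⟩
      · exact ⟨yg_pos hN _ pR u, (xi_yg hN j _ pR u).2 (nsimp _ _ hr.hR (by decide) j)⟩
      · exact ⟨yg_pos hN _ pS u, (xi_yg hN j _ pS u).2 (nsimp _ _ hr.hS (by decide) j)⟩
    | one =>
      refine ⟨Subgroup.one_mem _, ?_⟩
      rw [Subgroup.coe_one, Units.val_one]
      exact cD4.xi_one j
    | mul x y hx hy ihx ihy =>
      refine ⟨Subgroup.mul_mem _ ihx.1 ihy.1, ?_⟩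
      rw [xmul j _ _ ihx.1 ihy.1, ihx.2, ihy.2, add_zero]
    | inv x hx ih =>
      refine ⟨Subgroup.inv_mem _ ih.1, ?_⟩
      rw [xinv j _ ih.1, ih.2, neg_zero]
  have sc0 : ∀ j : Fin 4, j ≠ 1 → dD4.ρ.SameCycle 0 j := by
    intro j hj
    have : ∀ j : Fin 4, j ≠ 1 → ∃ i : Fin 3, (dD4.ρ ^ (i : ℕ)) 0 = j := by decide
    obtain ⟨i, hi⟩ := this j hj
    exact ⟨(i : ℕ), by rw [zpow_natCast]; exact hi⟩
  have sc1 : ∀ j : Fin 4, dD4.ρ.SameCycle 1 j → j = 1 := by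
    rintro j ⟨z, hz⟩
    rw [← hz]
    exact Function.IsFixedPt.perm_zpow (show Function.IsFixedPt dD4.ρ 1 by decide) z
  have si : ∀ i j : Fin 4, cD4.simple i = cD4.simple j → i = j :=
    fun i j hij => cD4.simple_injective hij
  have xA : ∀ (j : Fin 4) (t u : k), ∀ a ∈ Subgroup.closure (ZCDA2 (yg hN βP) (yg hN βQ)
      (yg hN βR) (yg hN βS : k → GF dD4 k)),
      cD4.xi j (((yg hN (cD4.simple 0) t * yg hN (cD4.simple 1) u * a : GF dD4 k) :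
        GL cD4.Idx k) : Matrix cD4.Idx cD4.Idx k) = if j = 1 then u else t := by
    intro j t u a ha
    have m0 := yg_pos hN (cD4.simple 0) (cD4.simple_pos 0) t
    have m1 := yg_pos hN (cD4.simple 1) (cD4.simple_pos 1) u
    rw [xmul j _ _ (Subgroup.mul_mem _ m0 m1) (x2 j a ha).1, xmul j _ _ m0 m1, (x2 j a ha).2,
      add_zero]
    by_cases hj : j = 1
    · rw [if_pos hj, (xi_yg hN j _ (cD4.simple_pos 0) t).2, zero_add,
        (xi_yg hN j _ (cD4.simple_pos 1) u).1]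
      · exact ⟨1, rfl, by rw [hj]⟩
      · rintro ⟨i, h1, h2⟩
        have h3 := si _ _ h1
        subst h3
        rw [hj] at h2
        have h4 := sc1 _ h2.symm
        exact absurd h4 (by decide)
    · rw [if_neg hj, (xi_yg hN j _ (cD4.simple_pos 0) t).1 ⟨0, rfl, sc0 j hj⟩,
        (xi_yg hN j _ (cD4.simple_pos 1) u).2, add_zero]
      rintro ⟨i, h1, h2⟩
      have h3 := si _ _ h1
      subst h3
      exact hj (sc1 _ h2)
  have hA0 : (yg hN (cD4.simple 0) (0 : k)) = 1 := yg_zero hN _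
  have hB0 : (yg hN (cD4.simple 1) (0 : k)) = 1 := yg_zero hN _
  have xx : ∀ (j : Fin 4), j ≠ 1 → ∀ g ∈ FU dD4 k,
      cD4.xi j ((g : GL cD4.Idx k) : Matrix cD4.Idx cD4.Idx k) =
      cD4.xi 0 ((g : GL cD4.Idx k) : Matrix cD4.Idx cD4.Idx k) := by
    intro j hj g hg
    obtain ⟨t, u, a, ha, rfl⟩ := ZCD_form hrel hA0 hB0 g (hFU hg)
    rw [xA j t u a ha, xA 0 t u a ha, if_neg hj, if_neg (by decide)]
  obtain ⟨g₁, g₂, rfl⟩ : ∃ g₁ g₂, l = [g₁, g₂] := by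
    match l, hlen with
    | [a, b], _ => exact ⟨a, b, rfl⟩
  have m0 := hg g₀ (by simp)
  have m1 := hg g₁ (by simp)
  have m2 := hg g₂ (by simp)
  have hmain := ZCD_main hrel hA0 hB0
    (fun g => cD4.xi 0 ((g : GL cD4.Idx k) : Matrix cD4.Idx cD4.Idx k))
    (fun g => cD4.xi 1 ((g : GL cD4.Idx k) : Matrix cD4.Idx cD4.Idx k))
    (fun t u a ha => by simpa using xA 0 t u a ha) (fun t u a ha => by simpa using xA 1 t u a ha)
    g₀ g₁ g₂ (hFU m0) (hFU m1) (hFU m2) hne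
  obtain ⟨c1, c2, c3, c4, c5⟩ := hmain
  constructor
  · intro j
    by_contra hcon
    push Not at hcon
    by_cases hj : j = 1
    · subst hj
      exact c2 ⟨hcon _ (by simp), hcon _ (by simp), hcon _ (by simp)⟩
    · refine c1 ⟨?_, ?_, ?_⟩
      · rw [← xx j hj _ m0]; exact hcon _ (by simp)
      · rw [← xx j hj _ m1]; exact hcon _ (by simp)
      · rw [← xx j hj _ m2]; exact hcon _ (by simp)
  · intro g hgm
    by_contra hcon
    push Not at hcon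
    rw [List.mem_cons, List.mem_cons, List.mem_singleton] at hgm
    rcases hgm with rfl | rfl | rfl
    · exact c3 ⟨hcon 0, hcon 1⟩
    · exact c4 ⟨hcon 0, hcon 1⟩
    · exact c5 ⟨hcon 0, hcon 1⟩

end Pool.Agent.H86.UM
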