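import Pool.Agent.H86.UM.ZJ1
import Pool.Agent.H86.UM.FCa

/-!
# Project UM, Suzuki-Ree groups, module ZF0: the standard homomorphisms `Φ`

`φ : k →+* K`, `cc : Fin n → Kˣ` with `cc (ρ j) = cc j`: `Φ x = tad cc * mp φ x * (tad cc)⁻¹`.
`exists_Phi`: `mp φ` maps `x_β(t)` to `x_β(φ t)` (`SLC.mp_xg`) and `tad_xg`, so (`yb` is the product of
`x_(r^l β)(± t)`: `ZJ1_factor`; `ccr cc (D.r β) = ccr cc β`; the signs are integers) `yg hN β t ↦ yg hN β (ccr cc β * φ t)`;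
by `GF_gen` the map has values in `GF D K`. Injective: `SLC.mp_injective`. `FN`, `FT`: `SLC.mp_N`, `SLC.mp_T`,
`SLC.mp_acts` for `mp φ`; conjugation with `tad cc` maps `nn (x_α) t` to `nn (x_α) (ccr cc α * t)` and
`hh (x_α) t` to itself (diagonal matrices commute), and `Acts` with the same `w`
(`tad_xg` for `cc` and `cc⁻¹`).
`xi`: `ξ_j (Φ x) = cc j * φ (ξ_j x)` for `x ∈ FU` — directly from the definition of `xi` as a matrix entry
(`SLC.xi`) or by closure induction with `xi_mul`, `xi_yg`. `chi`: `SLC.chi_map`, diagonal matrices.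

`Phi_sig`: `GF_gen`, `sig_yg`; `th D θ' (simple j) (cc j ^ (± 1) * φ t) = cc (t0 j) ^ (± 1) * φ (th D θ (simple j) t)`:
for `j` short this is `CC.t0` and `hφ`; for `j` long: `t0 j` is short (`hS.fix_iff`), `t0 (t0 j) = j` (`hS.inv`: `j` is
fixed), so `cc j = θ' (cc (t0 j))`; and `φ (θ.symm t) = θ'.symm (φ t)` from `hφ`.
`Phi_pin`: `FR` is generated by the `yg`, and `Phi_sig`; `FU, FUm` (`FU_FR`, `FUm_FR`).
-/

set_option autoImplicit false
open Matrix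

namespace Pool.Agent.H86.UM

open Pool.Agent.H75.UL

variable {n : ℕ} {C : SLC n} {D : Dg C}

/-- the character `β` of `cc` -/
noncomputable def ccr {K : Type*} [Field K] (cc : Fin n → Kˣ) (β : C.Root) : K :=
  ((∏ j, cc j ^ β.1 j : Kˣ) : K)

/-- compatible with `ρ` and `t0` -/
structure CC (D : Dg C) (t0 : Fin n → Fin n) {K : Type*} [Field K] (θ' : K ≃+* K)
    (cc : Fin n → Kˣ) : Prop where
  rho : ∀ j, cc (D.ρ j) = cc j
  t0 : ∀ j, D.ρ j ≠ j → (cc (t0 j) : K) = θ' (cc j)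

/-- standard homomorphisms -/
structure PhiS (hN : D.NA) {k K : Type*} [Field k] [Field K] (φ : k →+* K) (cc : Fin n → Kˣ)
    (Φ : GF D k →* GF D K) : Prop where
  inj : Function.Injective Φ
  val : ∀ x, (Φ x : GL C.Idx K) = tad C cc * C.mp φ x * (tad C cc)⁻¹
  yg : ∀ β t, Φ (yg hN β t) = yg hN β (ccr cc β * φ t)
  nor : ∀ x ∈ FN D k, Φ x ∈ FN D K ∧ ∀ w : Equiv.Perm C.Root,
    (C.adS k).Acts (x : GL C.Idx k) w → (C.adS K).Acts (Φ x : GL C.Idx K) w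
  tor : ∀ x ∈ FT D k, Φ x ∈ FT D K
  xi : ∀ x ∈ FU D k, ∀ j, C.xi j ((Φ x : GL C.Idx K) : Matrix C.Idx C.Idx K) =
    cc j * φ (C.xi j ((x : GL C.Idx k) : Matrix C.Idx C.Idx k))
  chi : ∀ x, ∀ β, C.chi ((Φ x : GL C.Idx K) : Matrix C.Idx C.Idx K) β =
    φ (C.chi ((x : GL C.Idx k) : Matrix C.Idx C.Idx k) β)

section aux
variable {K : Type*} [Field K]

private theorem ZF0_single (cc : Fin n → Kˣ) (j : Fin n) :
    (∏ i, cc i ^ (Pi.single j (1 : ℤ) : Fin n → ℤ) i : Kˣ) = cc j := by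
  rw [Finset.prod_eq_single j]
  · simp
  · intro i _ hi
    rw [Pi.single_eq_of_ne hi, zpow_zero]
  · intro h
    exact absurd (Finset.mem_univ _) h

private theorem ZF0_ne (cc : Fin n → Kˣ) (β : C.Root) : (ccr cc β : K) ≠ 0 := Units.ne_zero _

private theorem ZF0_neg (cc : Fin n → Kˣ) (β : C.Root) : (ccr cc (-β) : K) = (ccr cc β)⁻¹ := by
  unfold ccr
  rw [← Units.val_inv_eq_inv_val, ← Finset.prod_inv_distrib]
  congr 1
  refine Finset.prod_congr rfl fun j _ => ?_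
  rw [SLC.Root.neg_val, Pi.neg_apply, _root_.zpow_neg]

private theorem ZF0_r (cc : Fin n → Kˣ) (hc : ∀ j, cc (D.ρ j) = cc j) (β : C.Root) :
    (ccr cc (D.r β) : K) = ccr cc β := by
  unfold ccr
  congr 1
  rw [← Equiv.prod_comp D.ρ]
  refine Finset.prod_congr rfl fun j _ => ?_
  rw [hc, D.r_val]

private theorem ZF0_iter (cc : Fin n → Kˣ) (hc : ∀ j, cc (D.ρ j) = cc j) (l : ℕ) (β : C.Root) :
    (ccr cc (D.r^[l] β) : K) = ccr cc β := by
  induction l with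
  | zero => rfl
  | succ l ih => rw [Function.iterate_succ_apply', ZF0_r cc hc, ih]

private theorem ZF0_conj (cc : Fin n → Kˣ) (β : C.Root) (t : K) :
    tad C cc * C.xg K β t * (tad C cc)⁻¹ = C.xg K β (ccr cc β * t) := tad_xg C cc β t

private theorem ZF0_inv (cc : Fin n → Kˣ) : (tad C cc : GL C.Idx K)⁻¹ = tad C cc⁻¹ := by
  apply inv_eq_of_mul_eq_one_right
  rw [tad_mul, mul_inv_cancel]
  exact Units.ext (tadM_one C)

private theorem ZF0_conj' (cc : Fin n → Kˣ) (β : C.Root) (t : K) :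
    (tad C cc)⁻¹ * C.xg K β t * tad C cc = C.xg K β ((ccr cc β)⁻¹ * t) := by
  have h := ZF0_conj (C := C) cc β ((ccr cc β)⁻¹ * t)
  rw [mul_inv_cancel_left₀ (ZF0_ne cc β)] at h
  rw [← h]
  group

/-- the entries of a conjugate with `tad` -/
private theorem ZF0_entry (cc : Fin n → Kˣ) (x : GL C.Idx K) (a b : C.Idx) :
    ((tad C cc * x * (tad C cc)⁻¹ : GL C.Idx K) : Matrix C.Idx C.Idx K) a b =
      (Sum.elim (fun _ => (1 : K)) (fun γ : C.Root => (ccr cc γ : K)) a) *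
        (x : Matrix C.Idx C.Idx K) a b *
      (Sum.elim (fun _ => (1 : K)) (fun γ : C.Root => (ccr cc γ : K)) b)⁻¹ := by
  rw [ZF0_inv]
  rw [Units.val_mul, Units.val_mul]
  change (tadM C cc * (x : Matrix C.Idx C.Idx K) * tadM C cc⁻¹) a b = _
  unfold tadM
  rw [Matrix.mul_diagonal, Matrix.diagonal_mul]
  have h : ∀ c : C.Idx, Sum.elim (fun _ => (1 : K)) (fun γ : C.Root =>
      ((∏ j, (cc⁻¹) j ^ γ.1 j : Kˣ) : K)) c =
      (Sum.elim (fun _ => (1 : K)) (fun γ : C.Root => (ccr cc γ : K)) c)⁻¹ := by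
    intro c
    rcases c with i | γ
    · simp
    · simp only [Sum.elim_inr]
      unfold ccr
      rw [← Units.val_inv_eq_inv_val, ← Finset.prod_inv_distrib]
      congr 1
      refine Finset.prod_congr rfl fun j _ => ?_
      rw [Pi.inv_apply, _root_.inv_zpow]
  rw [h b]
  rfl

private theorem ZF0_nn (cc : Fin n → Kˣ) (α : C.Root) (t : K) :
    tad C cc * nn (C.adS K).x α t * (tad C cc)⁻¹ = nn (C.adS K).x α (ccr cc α * t) := by
  have h1 := ZF0_conj (C := C) cc α t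
  have h2 := ZF0_conj (C := C) cc (-α) t⁻¹
  rw [ZF0_neg, ← mul_inv] at h2
  change tad C cc * (C.xg K α t * C.xg K (-α) t⁻¹ * C.xg K α t) * (tad C cc)⁻¹ =
    C.xg K α (ccr cc α * t) * C.xg K (-α) (ccr cc α * t)⁻¹ * C.xg K α (ccr cc α * t)
  rw [← h1, ← h2]
  group

private theorem ZF0_N (cc : Fin n → Kˣ) (ν : GL C.Idx K) (hν : ν ∈ (C.adS K).N) :
    tad C cc * ν * (tad C cc)⁻¹ ∈ (C.adS K).N := by
  have h1 : (C.adS K).N ≤ ((C.adS K).N).comap (MulAut.conj (tad C cc)).toMonoidHom := by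
    conv_lhs => unfold StSys.N
    rw [Subgroup.closure_le]
    rintro x ⟨α, t, ht, rfl⟩
    change tad C cc * nn (C.adS K).x α t * (tad C cc)⁻¹ ∈ (C.adS K).N
    rw [ZF0_nn]
    exact Subgroup.subset_closure ⟨α, _, mul_ne_zero (ZF0_ne cc α) ht, rfl⟩
  exact h1 hν

private theorem ZF0_T (cc : Fin n → Kˣ) (τ : GL C.Idx K) (hτ : τ ∈ (C.adS K).T) :
    tad C cc * τ * (tad C cc)⁻¹ = τ := by
  obtain ⟨c, rfl, -⟩ := T_eq_tad C τ hτ
  rw [tad_mul, mul_comm, ← tad_mul, mul_inv_cancel_right]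

private theorem ZF0_acts (cc : Fin n → Kˣ) (ν : GL C.Idx K) (w : Equiv.Perm C.Root)
    (h : (C.adS K).Acts ν w) : (C.adS K).Acts (tad C cc * ν * (tad C cc)⁻¹) w := by
  obtain ⟨c, hc, hact⟩ := h
  refine ⟨fun β => ccr cc (w β) * c β * (ccr cc β)⁻¹,
    fun β => mul_ne_zero (mul_ne_zero (ZF0_ne cc _) (hc β)) (inv_ne_zero (ZF0_ne cc β)), ?_⟩
  intro β u
  have h1 := hact β ((ccr cc β)⁻¹ * u)
  rw [SLC.adS_x] at h1
  change tad C cc * ν * (tad C cc)⁻¹ * C.xg K β u * (tad C cc * ν * (tad C cc)⁻¹)⁻¹ =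
    C.xg K (w β) _
  have h2 : tad C cc * ν * (tad C cc)⁻¹ * C.xg K β u * (tad C cc * ν * (tad C cc)⁻¹)⁻¹ =
      tad C cc * (ν * ((tad C cc)⁻¹ * C.xg K β u * tad C cc) * ν⁻¹) * (tad C cc)⁻¹ := by
    group
  rw [h2, ZF0_conj', h1]
  change tad C cc * C.xg K (w β) _ * (tad C cc)⁻¹ = _
  rw [ZF0_conj]
  congr 1
  ring

end aux

private theorem ZF0_yb {k K : Type*} [Field k] [Infinite k] [Field K] [Infinite K]
    (φ : k →+* K) (cc : Fin n → Kˣ) (hc : ∀ j, cc (D.ρ j) = cc j) (β : C.Root) (t : k) :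
    tad C cc * C.mp φ (yb D (C.adS k) (D.sgl (RingEquiv.refl k)) β t) * (tad C cc)⁻¹ =
      yb D (C.adS K) (D.sgl (RingEquiv.refl K)) β (ccr cc β * φ t) := by
  unfold yb
  rw [map_list_prod, List.map_map]
  have h1 : tad C cc * (List.map (⇑(C.mp φ) ∘ fun l => (⇑(D.sgl (RingEquiv.refl k)))^[l]
      ((C.adS k).x β t)) (List.range (mo D β))).prod * (tad C cc)⁻¹ =
      (MulAut.conj (tad C cc)).toMonoidHom (List.map (⇑(C.mp φ) ∘ fun l =>
        (⇑(D.sgl (RingEquiv.refl k)))^[l] ((C.adS k).x β t)) (List.range (mo D β))).prod := rfl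
  rw [h1, map_list_prod, List.map_map]
  congr 1
  apply List.map_congr_left
  intro l _
  change tad C cc * C.mp φ ((⇑(D.sgl (RingEquiv.refl k)))^[l] ((C.adS k).x β t)) *
    (tad C cc)⁻¹ = _
  rw [ZJ1_factor, ZJ1_factor, SLC.mp_xg, ZF0_conj, ZF0_iter cc hc, _root_.map_mul, map_intCast]
  congr 1
  ring

theorem exists_Phi (hN : D.NA) {k K : Type*} [Field k] [Infinite k] [Field K] [Infinite K]
    (φ : k →+* K) (cc : Fin n → Kˣ) (hc : ∀ j, cc (D.ρ j) = cc j) :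
    ∃ Φ : GF D k →* GF D K, PhiS hN φ cc Φ := by
  have hmem : ∀ x : GF D k, tad C cc * C.mp φ (x : GL C.Idx k) * (tad C cc)⁻¹ ∈ GF D K := by
    intro x
    have h1 : (⊤ : Subgroup (GF D k)) ≤ (GF D K).comap (((MulAut.conj (tad C cc)).toMonoidHom.comp
        (C.mp φ)).comp (GF D k).subtype) := by
      rw [← GF_gen hN, Subgroup.closure_le]
      rintro g ⟨j, t, rfl | rfl⟩
      · change tad C cc * C.mp φ ((yg hN (C.simple j) t : GF D k) : GL C.Idx k) *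
          (tad C cc)⁻¹ ∈ GF D K
        rw [yg_val, ZF0_yb φ cc hc]
        exact yb_mem D hN K _ _
      · change tad C cc * C.mp φ ((yg hN (-(C.simple j)) t : GF D k) : GL C.Idx k) *
          (tad C cc)⁻¹ ∈ GF D K
        rw [yg_val, ZF0_yb φ cc hc]
        exact yb_mem D hN K _ _
    exact h1 (Subgroup.mem_top x)
  refine ⟨(((MulAut.conj (tad C cc)).toMonoidHom.comp (C.mp φ)).comp
    (GF D k).subtype).codRestrict (GF D K) hmem, ?_⟩
  constructor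
  · intro x y hxy
    have h1 : tad C cc * C.mp φ (x : GL C.Idx k) * (tad C cc)⁻¹ =
        tad C cc * C.mp φ (y : GL C.Idx k) * (tad C cc)⁻¹ := congrArg Subtype.val hxy
    have h2 := mul_left_cancel (mul_right_cancel h1)
    exact Subtype.ext (C.mp_injective φ φ.injective h2)
  · intro x
    rfl
  · intro β t
    apply Subtype.ext
    change tad C cc * C.mp φ ((yg hN β t : GF D k) : GL C.Idx k) * (tad C cc)⁻¹ = _
    rw [yg_val, ZF0_yb φ cc hc]
    rfl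
  · intro x hx
    rw [FN, Subgroup.mem_subgroupOf] at hx
    refine ⟨?_, fun w hw => ?_⟩
    · rw [FN, Subgroup.mem_subgroupOf]
      exact ZF0_N cc _ (C.mp_N φ _ hx)
    · exact ZF0_acts cc _ w (C.mp_acts φ _ w hx hw)
  · intro x hx
    rw [FT, Subgroup.mem_subgroupOf] at hx ⊢
    change tad C cc * C.mp φ (x : GL C.Idx k) * (tad C cc)⁻¹ ∈ _
    rw [ZF0_T cc _ (C.mp_T φ _ hx)]
    exact C.mp_T φ _ hx
  · intro x _ j
    unfold SLC.xi
    change -((tad C cc * C.mp φ (x : GL C.Idx k) * (tad C cc)⁻¹ : GL C.Idx K) :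
      Matrix C.Idx C.Idx K) (Sum.inl j) (Sum.inr (-(C.simple j))) = _
    rw [ZF0_entry, Sum.elim_inl, Sum.elim_inr, SLC.mp_val, Matrix.map_apply, ZF0_neg, inv_inv]
    have h1 : (ccr cc (C.simple j) : K) = cc j := by
      unfold ccr
      rw [SLC.simple_val, ZF0_single]
    rw [h1, _root_.map_neg]
    ring
  · intro x β
    unfold SLC.chi
    change ((tad C cc * C.mp φ (x : GL C.Idx k) * (tad C cc)⁻¹ : GL C.Idx K) :
      Matrix C.Idx C.Idx K) (Sum.inr β) (Sum.inr β) = _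
    rw [ZF0_entry, Sum.elim_inr, SLC.mp_val, Matrix.map_apply]
    field_simp [ZF0_ne cc β]

theorem ccr_simple {K : Type*} [Field K] (cc : Fin n → Kˣ) (j : Fin n) :
    ccr cc (C.simple j) = (cc j : K) := by
  unfold ccr
  rw [SLC.simple_val, ZF0_single]

theorem ccr_add {K : Type*} [Field K] (cc : Fin n → Kˣ) (α β γ : C.Root)
    (h : γ.1 = α.1 + β.1) : ccr cc γ = (ccr cc α * ccr cc β : K) := by
  unfold ccr
  rw [← Units.val_mul, ← Finset.prod_mul_distrib, h]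
  congr 1
  refine Finset.prod_congr rfl fun j _ => ?_
  rw [Pi.add_apply, _root_.zpow_add]

variable {t0 : Fin n → Fin n} (hS : Swap D t0) {k K : Type*} [Field k] [Infinite k] [Field K]
  [Infinite K] {θ : k ≃+* k} {θ' : K ≃+* K} {σ : GF D k →* GF D k} {σ' : GF D K →* GF D K}
  (h : SRs D t0 θ σ) (h' : SRs D t0 θ' σ') (φ : k →+* K) (hφ : ∀ t, φ (θ t) = θ' (φ t))
  (cc : Fin n → Kˣ) (hc : CC D t0 θ' cc) (Φ : GF D k →* GF D K) (hΦ : PhiS hS.na φ cc Φ)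

include h h' hφ hc hΦ

private theorem ZF0_th (j : Fin n) (t : k) :
    th D θ' (C.simple j) ((cc j : K) * φ t) = (cc (t0 j) : K) * φ (th D θ (C.simple j) t) ∧
    th D θ' (C.simple j) ((cc j : K)⁻¹ * φ t) =
      (cc (t0 j) : K)⁻¹ * φ (th D θ (C.simple j) t) := by
  have hr : D.r (C.simple j) = C.simple j ↔ D.ρ j = j := by
    rw [D.r_simple]
    exact ⟨fun h1 => C.simple_injective h1, fun h1 => by rw [h1]⟩
  unfold th
  by_cases hj : D.ρ j = j
  · simp only [if_pos (hr.mpr hj)]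
    have h1 : D.ρ (t0 j) ≠ t0 j := fun h2 => (hS.fix_iff j).mp h2 hj
    have h2 := hc.t0 (t0 j) h1
    have h3 : t0 (t0 j) = j := by
      obtain ⟨z, hz⟩ := hS.inv j
      rw [← hz]
      exact (Function.IsFixedPt.perm_zpow hj z)
    rw [h3] at h2
    have h4 : ∀ t, θ'.symm (φ t) = φ (θ.symm t) := by
      intro t
      rw [RingEquiv.symm_apply_eq, ← hφ, RingEquiv.apply_symm_apply]
    rw [_root_.map_mul, _root_.map_mul, map_inv₀, h4, h2, RingEquiv.symm_apply_apply]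
    exact ⟨rfl, rfl⟩
  · simp only [if_neg (fun h1 => hj (hr.mp h1))]
    rw [_root_.map_mul, _root_.map_mul, map_inv₀, hc.t0 j hj, hφ]
    exact ⟨rfl, rfl⟩

theorem Phi_sig (x : GF D k) : σ' (Φ x) = Φ (σ x) := by
  have key : σ'.comp Φ = Φ.comp σ := by
    refine MonoidHom.eq_of_eqOn_dense (GF_gen hS.na) ?_
    rintro g ⟨j, t, rfl | rfl⟩
    · change σ' (Φ _) = Φ (σ _)
      rw [hΦ.yg, (sig_yg hS h j t).1, hΦ.yg, ccr_simple, ccr_simple, (sig_yg hS h' j _).1,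
        (ZF0_th hS h h' φ hφ cc hc Φ hΦ j t).1]
    · change σ' (Φ _) = Φ (σ _)
      rw [hΦ.yg, (sig_yg hS h j t).2, hΦ.yg, ZF0_neg, ZF0_neg, ccr_simple, ccr_simple,
        (sig_yg hS h' j _).2, (ZF0_th hS h h' φ hφ cc hc Φ hΦ j t).2]
  exact DFunLike.congr_fun key x

theorem Phi_pin : (∀ x ∈ Esr D σ, Φ x ∈ Esr D σ') ∧
    (∀ i, ∀ x ∈ XJ hS.na t0 σ i, Φ x ∈ XJ hS.na t0 σ' i) ∧
    ∀ i, ∀ x ∈ XmJ hS.na t0 σ i, Φ x ∈ XmJ hS.na t0 σ' i := by
  have hFR : ∀ (R : Set C.Root) (x : GF D k), x ∈ FR hS.na k R → Φ x ∈ FR hS.na K R := by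
    intro R x hx
    have h1 : FR hS.na k R ≤ (FR hS.na K R).comap Φ := by
      conv_lhs => unfold FR
      rw [Subgroup.closure_le]
      rintro g ⟨β, hβ, t, rfl⟩
      change Φ _ ∈ FR hS.na K R
      rw [hΦ.yg]
      exact Subgroup.subset_closure ⟨β, hβ, _, rfl⟩
    exact h1 hx
  have hFx : ∀ x : GF D k, x ∈ Fx σ → Φ x ∈ Fx σ' := by
    intro x hx
    rw [mem_Fx] at hx ⊢
    rw [Phi_sig hS h h' φ hφ cc hc Φ hΦ, hx]
  refine ⟨?_, fun i x hx => ⟨hFR _ x hx.1, hFx x hx.2⟩, fun i x hx => ⟨hFR _ x hx.1, hFx x hx.2⟩⟩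
  intro x hx
  have h1 : Esr D σ ≤ (Esr D σ').comap Φ := by
    unfold Esr
    refine sup_le ?_ ?_
    · intro y hy
      refine (le_sup_left : FU D K ⊓ Fx σ' ≤ _) ⟨?_, hFx y hy.2⟩
      have h2 := hy.1
      rw [FU_FR hS.na] at h2 ⊢
      exact hFR _ y h2
    · intro y hy
      refine (le_sup_right : FUm D K ⊓ Fx σ' ≤ _) ⟨?_, hFx y hy.2⟩
      have h2 := hy.1
      rw [FUm_FR hS.na] at h2 ⊢
      exact hFR _ y h2
  exact h1 hx

end Pool.Agent.H86.UM
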