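import Pool.Agent.H86.UM.ZF0
import Pool.Agent.H86.UM.Z9
import Pool.Agent.H86.UM.ZJ2

/-!
# Project UM, Suzuki-Ree groups, module ZF1: rank one, types `A₁ × A₁` and `B₂`

`Ψ : Esr D σ → Esr D σ'` pinned. Values of `Ψ` are fixed by `σ'` (`Esr_le_Fx`).

`exists_JR_orth`: `x(t) = yg α_i t * yg α_(t0 i) (θ t)`, `XJ i = {x(t)}` (`XJ_orth`), additive in `t` (`yg_add`,
`orth_comm`), `ξ_i x(t) = t` (`xi_yg`, `xi_mul`), the same over `K`; so `Ψ x(t) = x'(f t)` with `f t = ξ_i (Ψ x(t))`,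
additive, injective. For `s ≠ 0`: `JHyp.sep` gives `y ∈ FT ⊓ Esr` with `χ_i(y) = s ^ 1`; `y x(t) y⁻¹` is in `XJ i`
(`yg_T`; `σ y = y`) with `ξ_i = s t`, so it is `x(s t)`. With `r' = χ_i(Ψ y)` (`PinS.tor`): `f (s t) = r' f t`
(`ξ_i` of `Ψ y * x'(f t) * (Ψ y)⁻¹`, `yg_T`). `semi` (for `r = 0` take `r' = 0`): `c = f 1`, `φ`. `coord` is
`ξ_i (Ψ x(t)) = f t = f 1 * φ t`. `eq`: `exists_Phi`: `Φ x(t) = yg α_i (cc i * φ t) * yg α_(t0 i) (cc (t0 i) * φ (θ t))`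
and this is `x'(c * φ t)` by `CC.t0`, `hφ`.

`exists_JR_B2`: `B2_roots`, `B2_inst` for `σ` and `σ'` (the same `βP`, `βQ`). `XJ i = {B2x t v}` (`B2_form`,
`B2_fix`); `Ψ (B2x θ .. t v) = B2x θ' .. (F1 t v) (F2 t v)` (choice). `h1`, `h2` of `B2_rigid`: `B2_mul` and `B2_coord`.
`hinj`: `B2x .. 0 0 = 1`, injectivity of `Ψ`, `B2_coord`. `hT`: `sep` with `s = κ`: `y` with `χ_i(y) = κ`,
`χ_(t0 i)(y) = θ κ` (`sig_chi_simple`), `χ_βP(y) = κ θ κ` (`chi_prod` or `chi_add`-like), so `y (B2x t v) y⁻¹ =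
A (κ t) B (θ κ θ t) P (κ θ κ v) Q (..)` (`yg_T`) is fixed by `σ`, hence `= B2x (κ t) (κ θ κ v)` (`B2_form`); the same
over `K` for `Ψ y` with `κ' = χ_i(Ψ y)`. `coord`: `ξ_i (B2x t v) = t`. `eq`: `Φ (B2x t v)` (`PhiS.yg`,
`ccr_simple`, `ccr_add`) `= A (cc i φ t) B (..) P (cc i cc (t0 i) φ v) Q (..)`, fixed by `σ'` (`Phi_sig`), so
(`B2_form`) `= B2x θ' .. (c φ t) (c θ' c φ v)`.
-/

set_option autoImplicit false
open Matrix

namespace Pool.Agent.H86.UM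

open Pool.Agent.H75.UL

variable {n : ℕ} {C : SLC n} {D : Dg C} {t0 : Fin n → Fin n}

/-- pinned homomorphisms -/
structure PinS (hS : Swap D t0) {k K : Type*} [Field k] [Field K] {σ : GF D k →* GF D k}
    {σ' : GF D K →* GF D K} (Ψ : Esr D σ →* Esr D σ') : Prop where
  inj : Function.Injective Ψ
  pos : ∀ i, ∀ x : Esr D σ, (x : GF D k) ∈ XJ hS.na t0 σ i →
    ((Ψ x : Esr D σ') : GF D K) ∈ XJ hS.na t0 σ' i
  neg : ∀ i, ∀ x : Esr D σ, (x : GF D k) ∈ XmJ hS.na t0 σ i →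
    ((Ψ x : Esr D σ') : GF D K) ∈ XmJ hS.na t0 σ' i
  tor : ∀ x : Esr D σ, (x : GF D k) ∈ FT D k → ((Ψ x : Esr D σ') : GF D K) ∈ FT D K

/-- `Ψ` is standard on `XJ i` -/
structure JR (hS : Swap D t0) {k K : Type*} [Field k] [Field K] (θ : k ≃+* k) (θ' : K ≃+* K)
    {σ : GF D k →* GF D k} {σ' : GF D K →* GF D K} (Ψ : Esr D σ →* Esr D σ') (i : Fin n)
    (c : K) (φ : k →+* K) : Prop where
  c_ne : c ≠ 0
  coord : ∀ x : Esr D σ, (x : GF D k) ∈ XJ hS.na t0 σ i →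
    C.xi i ((((Ψ x : Esr D σ') : GF D K) : GL C.Idx K) : Matrix C.Idx C.Idx K) =
      c * φ (C.xi i (((x : GF D k) : GL C.Idx k) : Matrix C.Idx C.Idx k))
  eq : (∀ t, φ (θ t) = θ' (φ t)) → ∀ cc : Fin n → Kˣ, CC D t0 θ' cc → (cc i : K) = c →
    ∀ x : Esr D σ, (x : GF D k) ∈ XJ hS.na t0 σ i →
      (((Ψ x : Esr D σ') : GF D K) : GL C.Idx K) =
        tad C cc * C.mp φ ((x : GF D k) : GL C.Idx k) * (tad C cc)⁻¹

section ZF1helpers

private theorem ZF1_Esr (hS : Swap D t0) {k : Type*} [Field k] [Infinite k]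
    {σ : GF D k →* GF D k} (i : Fin n) (x : GF D k) (hx : x ∈ XJ hS.na t0 σ i) :
    x ∈ Esr D σ :=
  (le_sup_left : FU D k ⊓ Fx σ ≤ Esr D σ) ((XJ_le hS (σ := σ) i).1 hx)

private theorem ZF1_xi_mul (j : Fin n) {k : Type*} [Field k] (a b : GF D k)
    (ha : a ∈ FU D k) (hb : b ∈ FU D k) :
    C.xi j (((a * b : GF D k) : GL C.Idx k) : Matrix C.Idx C.Idx k) =
      C.xi j ((a : GL C.Idx k) : Matrix C.Idx C.Idx k) +
        C.xi j ((b : GL C.Idx k) : Matrix C.Idx C.Idx k) := by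
  rw [Subgroup.coe_mul]
  exact C.xi_mul j _ _ ha.1 hb.1

private theorem ZF1_chi (hS : Swap D t0) {k : Type*} [Field k] [Infinite k] {θ : k ≃+* k}
    {σ : GF D k →* GF D k} (h : SRs D t0 θ σ) (i : Fin n) (hi : D.ρ i ≠ i) (x : GF D k)
    (hx : x ∈ FT D k) (hs : σ x = x) :
    C.chi ((x : GL C.Idx k) : Matrix C.Idx C.Idx k) (C.simple (t0 i)) =
      θ (C.chi ((x : GL C.Idx k) : Matrix C.Idx C.Idx k) (C.simple i)) := by
  have h1 := sig_chi_simple hS h x hx i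
  have hr : D.r (C.simple i) ≠ C.simple i := by
    rw [D.r_simple]
    intro h3
    exact hi (C.simple_injective h3)
  unfold th at h1
  rw [hs, if_neg hr] at h1
  exact h1

private theorem ZF1_xi_i (hN : D.NA) {k : Type*} [Field k] [Infinite k] (i : Fin n) (t : k) :
    C.xi i (((yg hN (C.simple i) t : GF D k) : GL C.Idx k) : Matrix C.Idx C.Idx k) = t :=
  (xi_yg hN i _ (C.simple_pos _) t).1 ⟨i, rfl, Equiv.Perm.SameCycle.refl _ _⟩

private theorem ZF1_xi_t0 (hS : Swap D t0) {k : Type*} [Field k] [Infinite k] (i : Fin n)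
    (hi : D.ρ i ≠ i) (t : k) :
    C.xi i (((yg hS.na (C.simple (t0 i)) t : GF D k) : GL C.Idx k) :
      Matrix C.Idx C.Idx k) = 0 := by
  apply (xi_yg hS.na i _ (C.simple_pos _) t).2
  rintro ⟨j, hj, hc⟩
  have h1 : t0 i = j := C.simple_injective hj
  have h2 : D.ρ (t0 i) = t0 i := (hS.fix_iff i).mpr hi
  rw [← h1] at hc
  obtain ⟨l, hl⟩ := hc
  have h3 : (D.ρ ^ l) (t0 i) = t0 i := Equiv.Perm.zpow_apply_eq_self_of_apply_eq_self h2 l
  rw [h3] at hl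
  rw [hl] at h2
  exact hi h2

private theorem ZF1_chi_add (hN : D.NA) {k : Type*} [Field k] [Infinite k] (x : GF D k)
    (hx : x ∈ FT D k) (α β γ : C.Root) (hγ : γ.1 = α.1 + β.1) :
    C.chi ((x : GL C.Idx k) : Matrix C.Idx C.Idx k) γ =
      C.chi ((x : GL C.Idx k) : Matrix C.Idx C.Idx k) α *
        C.chi ((x : GL C.Idx k) : Matrix C.Idx C.Idx k) β := by
  have h1 : (x : GL C.Idx k) ∈ C.Gad k := (mem_GF_fix hN _ x.2).2
  have h2 := C.Fil_T _ hx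
  rw [C.chi_prod _ h1 h2 γ, C.chi_prod _ h1 h2 α, C.chi_prod _ h1 h2 β,
    ← Finset.prod_mul_distrib]
  apply Finset.prod_congr rfl
  intro j _
  rw [hγ, Pi.add_apply]
  exact zpow_add₀ (C.chi_ne_zero _ h1 h2 _) _ _

private theorem ZF1_B2_X (hS : Swap D t0) {k : Type*} [Field k] [Infinite k] {θ : k ≃+* k}
    {σ : GF D k →* GF D k} {i : Fin n} {βP βQ : C.Root}
    (hB : B2s θ (yg hS.na (C.simple i)) (yg hS.na (C.simple (t0 i))) (yg hS.na βP)
      (yg hS.na βQ) σ)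
    (hFR : ∀ x : GF D k, x ∈ FR hS.na k (RJ D t0 i) ↔ ∃ t u v w, x = yg hS.na (C.simple i) t *
      yg hS.na (C.simple (t0 i)) u * yg hS.na βP v * yg hS.na βQ w) (x : GF D k) :
    x ∈ XJ hS.na t0 σ i ↔ ∃ t v, x = B2x θ (yg hS.na (C.simple i))
      (yg hS.na (C.simple (t0 i))) (yg hS.na βP) (yg hS.na βQ) t v := by
  constructor
  · rintro ⟨h1, h2⟩
    obtain ⟨t, u, v, w, rfl⟩ := (hFR x).mp h1
    exact ⟨t, v, B2_form hB t u v w h2⟩
  · rintro ⟨t, v, rfl⟩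
    exact ⟨(hFR _).mpr ⟨t, θ t, v, θ v + t ^ 2 * θ t, rfl⟩, B2_fix hB t v⟩

private theorem ZF1_B2_zero {k : Type*} [Field k] {θ : k ≃+* k} {G : Type*} [Group G]
    {A B P Q : k → G} {σ : G →* G} (h : B2s θ A B P Q σ) : B2x θ A B P Q 0 0 = 1 := by
  unfold B2x
  have h1 : θ 0 + (0 : k) ^ 2 * θ 0 = 0 := by rw [map_zero]; ring
  rw [h1, map_zero, ZB_A0 h, ZB_B0 h, ZB_P0 h, ZB_Q0 h]
  group

private theorem ZF1_B2_conj (hS : Swap D t0) {k : Type*} [Field k] [Infinite k] {θ : k ≃+* k}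
    {σ : GF D k →* GF D k} (h : SRs D t0 θ σ) (i : Fin n) (hi : D.ρ i ≠ i) {βP βQ : C.Root}
    (hr : B2r D t0 i βP βQ)
    (hB : B2s θ (yg hS.na (C.simple i)) (yg hS.na (C.simple (t0 i))) (yg hS.na βP)
      (yg hS.na βQ) σ) (y : GF D k) (hy : y ∈ FT D k) (hs : σ y = y) (t v : k) :
    y * B2x θ (yg hS.na (C.simple i)) (yg hS.na (C.simple (t0 i))) (yg hS.na βP)
      (yg hS.na βQ) t v * y⁻¹ =
    B2x θ (yg hS.na (C.simple i)) (yg hS.na (C.simple (t0 i))) (yg hS.na βP) (yg hS.na βQ)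
      (C.chi ((y : GL C.Idx k) : Matrix C.Idx C.Idx k) (C.simple i) * t)
      (C.chi ((y : GL C.Idx k) : Matrix C.Idx C.Idx k) (C.simple i) *
        θ (C.chi ((y : GL C.Idx k) : Matrix C.Idx C.Idx k) (C.simple i)) * v) := by
  set κ := C.chi ((y : GL C.Idx k) : Matrix C.Idx C.Idx k) (C.simple i) with hκ
  have hP : C.chi ((y : GL C.Idx k) : Matrix C.Idx C.Idx k) βP = κ * θ κ := by
    rw [ZF1_chi_add hS.na y hy (C.simple i) (C.simple (t0 i)) βP hr.hP,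
      ZF1_chi hS h i hi y hy hs]
  have e1 : y * B2x θ (yg hS.na (C.simple i)) (yg hS.na (C.simple (t0 i))) (yg hS.na βP)
      (yg hS.na βQ) t v * y⁻¹ = yg hS.na (C.simple i) (κ * t) *
        yg hS.na (C.simple (t0 i))
          (C.chi ((y : GL C.Idx k) : Matrix C.Idx C.Idx k) (C.simple (t0 i)) * θ t) *
        yg hS.na βP (κ * θ κ * v) *
        yg hS.na βQ (C.chi ((y : GL C.Idx k) : Matrix C.Idx C.Idx k) βQ *
          (θ v + t ^ 2 * θ t)) := by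
    rw [← hP, hκ, ← yg_T hS.na y hy, ← yg_T hS.na y hy, ← yg_T hS.na y hy, ← yg_T hS.na y hy]
    unfold B2x
    group
  rw [e1]
  apply B2_form hB
  rw [← e1, map_mul, map_mul, map_inv, hs, B2_fix hB]

private theorem ZF1_B2_xi (hS : Swap D t0) {k : Type*} [Field k] [Infinite k] (i : Fin n)
    (hi : D.ρ i ≠ i) {βP βQ : C.Root} (hr : B2r D t0 i βP βQ) (θ : k ≃+* k) (t v : k) :
    C.xi i (((B2x θ (yg hS.na (C.simple i)) (yg hS.na (C.simple (t0 i))) (yg hS.na βP)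
      (yg hS.na βQ) t v : GF D k) : GL C.Idx k) : Matrix C.Idx C.Idx k) = t := by
  have hne : t0 i ≠ i := by
    intro h1
    have h2 : D.ρ (t0 i) = t0 i := (hS.fix_iff i).mpr hi
    rw [h1] at h2
    exact hi h2
  have hposP : C.Pos βP := ((hr.mem βP).mpr
    (Or.inr (Or.inr (Or.inl (Equiv.Perm.SameCycle.refl _ _))))).1
  have hposQ : C.Pos βQ := ((hr.mem βQ).mpr (Or.inr (Or.inr (Or.inr rfl)))).1
  have hP : ∀ u : k, C.xi i (((yg hS.na βP u : GF D k) : GL C.Idx k) :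
      Matrix C.Idx C.Idx k) = 0 := by
    intro u
    apply (xi_yg hS.na i βP hposP u).2
    rintro ⟨j, hj, -⟩
    have h1 := hr.hP
    rw [hj] at h1
    have h2 := congrFun h1 i
    have h3 := congrFun h1 (t0 i)
    simp only [C.simple_val, Pi.add_apply, Pi.single_apply, if_neg hne, if_neg hne.symm,
      if_pos rfl] at h2 h3
    by_cases hij : i = j
    · rw [if_neg (fun h => hne (h.trans hij.symm))] at h3
      simp at h3
    · rw [if_neg hij] at h2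
      simp at h2
  have hQ : ∀ u : k, C.xi i (((yg hS.na βQ u : GF D k) : GL C.Idx k) :
      Matrix C.Idx C.Idx k) = 0 := by
    intro u
    apply (xi_yg hS.na i βQ hposQ u).2
    rintro ⟨j, hj, -⟩
    have h1 := hr.hQ
    rw [hj] at h1
    have h2 := congrFun h1 i
    have h3 := congrFun h1 (D.ρ i)
    simp only [C.simple_val, Pi.add_apply, Pi.single_apply, if_neg hne.symm, if_neg hi,
      if_neg (Ne.symm hi), if_pos rfl] at h2 h3
    by_cases hij : i = j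
    · rw [if_neg (fun h => hi (h.trans hij.symm))] at h3
      split_ifs at h3 <;> simp at h3
    · rw [if_neg hij] at h2
      simp at h2
  have m1 := yg_pos hS.na (k := k) _ (C.simple_pos i) t
  have m2 := yg_pos hS.na (k := k) _ (C.simple_pos (t0 i)) (θ t)
  have m3 := yg_pos hS.na (k := k) _ hposP v
  have m4 := yg_pos hS.na (k := k) _ hposQ (θ v + t ^ 2 * θ t)
  unfold B2x
  rw [ZF1_xi_mul i _ _ (mul_mem (mul_mem m1 m2) m3) m4, ZF1_xi_mul i _ _ (mul_mem m1 m2) m3,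
    ZF1_xi_mul i _ _ m1 m2, ZF1_xi_i, ZF1_xi_t0 hS i hi, hP, hQ, add_zero, add_zero, add_zero]

end ZF1helpers

variable (hS : Swap D t0) {k K : Type*} [Field k] [Infinite k] [Field K]
  [Infinite K] {θ : k ≃+* k} {θ' : K ≃+* K} {σ : GF D k →* GF D k} {σ' : GF D K →* GF D K}
  (h : SRs D t0 θ σ) (h' : SRs D t0 θ' σ') (hJ : JHyp hS σ 1)
  (Ψ : Esr D σ →* Esr D σ') (hΨ : PinS hS Ψ)

include h h' hJ hΨ

theorem exists_JR_orth (i : Fin n) (hi : D.ρ i ≠ i) (ha : C.A i (t0 i) = 0) :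
    ∃ (c : K) (φ : k →+* K), JR hS θ θ' Ψ i c φ := by
  have hX := XJ_orth hS h i hi ha
  have hX' := XJ_orth hS h' i hi ha
  have hFU : ∀ t : k, yg hS.na (C.simple i) t * yg hS.na (C.simple (t0 i)) (θ t) ∈
      XJ hS.na t0 σ i := fun t => (hX _).mpr ⟨t, rfl⟩
  have hxi : ∀ t : k, C.xi i (((yg hS.na (C.simple i) t * yg hS.na (C.simple (t0 i)) (θ t) :
      GF D k) : GL C.Idx k) : Matrix C.Idx C.Idx k) = t := by
    intro t
    rw [ZF1_xi_mul i _ _ (yg_pos hS.na _ (C.simple_pos _) _) (yg_pos hS.na _ (C.simple_pos _) _),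
      ZF1_xi_i, ZF1_xi_t0 hS i hi, add_zero]
  have hxi' : ∀ t : K, C.xi i (((yg hS.na (C.simple i) t * yg hS.na (C.simple (t0 i)) (θ' t) :
      GF D K) : GL C.Idx K) : Matrix C.Idx C.Idx K) = t := by
    intro t
    rw [ZF1_xi_mul i _ _ (yg_pos hS.na _ (C.simple_pos _) _) (yg_pos hS.na _ (C.simple_pos _) _),
      ZF1_xi_i, ZF1_xi_t0 hS i hi, add_zero]
  have hmul : ∀ s t : k, yg hS.na (C.simple i) (s + t) * yg hS.na (C.simple (t0 i)) (θ (s + t)) =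
      yg hS.na (C.simple i) s * yg hS.na (C.simple (t0 i)) (θ s) *
        (yg hS.na (C.simple i) t * yg hS.na (C.simple (t0 i)) (θ t)) := by
    intro s t
    have h1 := (orth_comm hS i hi ha t (θ s)).1
    rw [map_add, yg_add, yg_add]
    calc yg hS.na (C.simple i) s * yg hS.na (C.simple i) t *
          (yg hS.na (C.simple (t0 i)) (θ s) * yg hS.na (C.simple (t0 i)) (θ t))
        = yg hS.na (C.simple i) s * (yg hS.na (C.simple i) t *
          yg hS.na (C.simple (t0 i)) (θ s)) * yg hS.na (C.simple (t0 i)) (θ t) := by group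
      _ = yg hS.na (C.simple i) s * (yg hS.na (C.simple (t0 i)) (θ s) *
          yg hS.na (C.simple i) t) * yg hS.na (C.simple (t0 i)) (θ t) := by rw [h1]
      _ = _ := by group
  have hmul' : ∀ s t : K, yg hS.na (C.simple i) (s + t) *
      yg hS.na (C.simple (t0 i)) (θ' (s + t)) =
      yg hS.na (C.simple i) s * yg hS.na (C.simple (t0 i)) (θ' s) *
        (yg hS.na (C.simple i) t * yg hS.na (C.simple (t0 i)) (θ' t)) := by
    intro s t
    have h1 := (orth_comm hS i hi ha t (θ' s)).1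
    rw [map_add, yg_add, yg_add]
    calc yg hS.na (C.simple i) s * yg hS.na (C.simple i) t *
          (yg hS.na (C.simple (t0 i)) (θ' s) * yg hS.na (C.simple (t0 i)) (θ' t))
        = yg hS.na (C.simple i) s * (yg hS.na (C.simple i) t *
          yg hS.na (C.simple (t0 i)) (θ' s)) * yg hS.na (C.simple (t0 i)) (θ' t) := by group
      _ = yg hS.na (C.simple i) s * (yg hS.na (C.simple (t0 i)) (θ' s) *
          yg hS.na (C.simple i) t) * yg hS.na (C.simple (t0 i)) (θ' t) := by rw [h1]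
      _ = _ := by group
  -- the elements of `Esr`
  let E : k → Esr D σ := fun t => ⟨yg hS.na (C.simple i) t * yg hS.na (C.simple (t0 i)) (θ t),
    ZF1_Esr hS i _ (hFU t)⟩
  have hE : ∀ t, ((E t : Esr D σ) : GF D k) =
      yg hS.na (C.simple i) t * yg hS.na (C.simple (t0 i)) (θ t) := fun t => rfl
  have hEadd : ∀ s t, E (s + t) = E s * E t := fun s t => Subtype.ext (hmul s t)
  have hf : ∀ t, ∃ a : K, ((Ψ (E t) : Esr D σ') : GF D K) =
      yg hS.na (C.simple i) a * yg hS.na (C.simple (t0 i)) (θ' a) := fun t =>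
    (hX' _).mp (hΨ.pos i (E t) (hFU t))
  choose f hf using hf
  have hfxi : ∀ t, C.xi i ((((Ψ (E t) : Esr D σ') : GF D K) : GL C.Idx K) :
      Matrix C.Idx C.Idx K) = f t := by
    intro t
    rw [hf t, hxi']
  have huniq : ∀ (t : k) (a : K), ((Ψ (E t) : Esr D σ') : GF D K) =
      yg hS.na (C.simple i) a * yg hS.na (C.simple (t0 i)) (θ' a) → f t = a := by
    intro t a e
    rw [← hfxi t, e, hxi']
  have hadd : ∀ a b, f (a + b) = f a + f b := by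
    intro a b
    apply huniq
    rw [hEadd, map_mul, Subgroup.coe_mul, hf a, hf b, hmul']
  have hne : ∃ t, f t ≠ 0 := by
    refine ⟨1, fun h0 => ?_⟩
    have h1 := hf 1
    rw [h0, map_zero, yg_zero, yg_zero, mul_one] at h1
    have h2 : Ψ (E 1) = 1 := Subtype.ext h1
    have h3 : E 1 = 1 := hΨ.inj (h2.trans (map_one Ψ).symm)
    have h4 : E 0 = 1 := by
      apply Subtype.ext
      rw [hE, map_zero, yg_zero, yg_zero, mul_one]
      rfl
    have h5 := hxi 1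
    rw [← hE, h3, ← h4, hE, hxi] at h5
    exact zero_ne_one h5
  have hsm : ∀ r, ∃ r' : K, ∀ t, f (r * t) = r' * f t := by
    intro r
    by_cases hr : r = 0
    · refine ⟨0, fun t => ?_⟩
      have h0 : f (0 + 0) = f 0 + f 0 := hadd 0 0
      rw [add_zero] at h0
      rw [hr, zero_mul, zero_mul]
      exact left_eq_add.mp h0
    · obtain ⟨y, hy, hchi, -⟩ := hJ.sep i hi r hr
      rw [pow_one] at hchi
      have hys : σ y = y := Esr_le_Fx hy.2
      have hyt := ZF1_chi hS h i hi y hy.1 hys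
      rw [hchi] at hyt
      have hyT : ((Ψ ⟨y, hy.2⟩ : Esr D σ') : GF D K) ∈ FT D K := hΨ.tor ⟨y, hy.2⟩ hy.1
      have hyt' := ZF1_chi hS h' i hi _ hyT (Esr_le_Fx (Ψ ⟨y, hy.2⟩).2)
      refine ⟨C.chi ((((Ψ ⟨y, hy.2⟩ : Esr D σ') : GF D K) : GL C.Idx K) :
        Matrix C.Idx C.Idx K) (C.simple i), fun t => ?_⟩
      apply huniq
      have h1 : E (r * t) = ⟨y, hy.2⟩ * E t * (⟨y, hy.2⟩)⁻¹ := by
        apply Subtype.ext
        change yg hS.na (C.simple i) (r * t) * yg hS.na (C.simple (t0 i)) (θ (r * t)) =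
          y * (yg hS.na (C.simple i) t * yg hS.na (C.simple (t0 i)) (θ t)) * y⁻¹
        have e1 := yg_T hS.na y hy.1 (C.simple i) t
        have e2 := yg_T hS.na y hy.1 (C.simple (t0 i)) (θ t)
        rw [hchi] at e1
        rw [hyt, ← map_mul] at e2
        rw [← e1, ← e2]
        group
      rw [h1, map_mul, map_mul, map_inv, Subgroup.coe_mul, Subgroup.coe_mul, Subgroup.coe_inv,
        hf t]
      have e1 := yg_T hS.na _ hyT (C.simple i) (f t)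
      have e2 := yg_T hS.na _ hyT (C.simple (t0 i)) (θ' (f t))
      rw [hyt', ← map_mul] at e2
      rw [← e1, ← e2]
      group
  obtain ⟨φ, hf1, -, hfφ⟩ := semi f hadd hne hsm
  have hform : ∀ x : Esr D σ, (x : GF D k) ∈ XJ hS.na t0 σ i → ∃ t, x = E t := by
    intro x hx
    obtain ⟨t, ht⟩ := (hX _).mp hx
    exact ⟨t, Subtype.ext ht⟩
  refine ⟨f 1, φ, hf1, ?_, ?_⟩
  · intro x hx
    obtain ⟨t, rfl⟩ := hform x hx
    rw [hfxi, hE, hxi]
    exact hfφ t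
  · intro hφ cc hcc hci x hx
    obtain ⟨t, rfl⟩ := hform x hx
    obtain ⟨Φ, hΦ⟩ := exists_Phi hS.na φ cc hcc.rho
    rw [← hΦ.val]
    congr 1
    rw [hf t, hE, map_mul, hΦ.yg, hΦ.yg, ccr_simple, ccr_simple, hcc.t0 i hi, hci, hφ,
      ← map_mul, ← hfφ]

theorem exists_JR_B2 (hm : D.m = 2) (i : Fin n) (hi : D.ρ i ≠ i) (ha : C.A i (t0 i) = -1) :
    ∃ (c : K) (φ : k →+* K), JR hS θ θ' Ψ i c φ ∧ ∀ t, φ (θ t) = θ' (φ t) := by
  obtain ⟨βP, βQ, hr⟩ := B2_roots hS hm i hi ha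
  obtain ⟨hB, hFR⟩ := B2_inst hS h hm i hi ha βP βQ hr
  obtain ⟨hB', hFR'⟩ := B2_inst hS h' hm i hi ha βP βQ hr
  haveI := hB.chr
  haveI := hB'.chr
  have hX : ∀ x : GF D k, x ∈ XJ hS.na t0 σ i ↔ ∃ t v, x = B2x θ (yg hS.na (C.simple i))
      (yg hS.na (C.simple (t0 i))) (yg hS.na βP) (yg hS.na βQ) t v := ZF1_B2_X hS hB hFR
  have hX' : ∀ x : GF D K, x ∈ XJ hS.na t0 σ' i ↔ ∃ t v, x = B2x θ' (yg hS.na (C.simple i))
      (yg hS.na (C.simple (t0 i))) (yg hS.na βP) (yg hS.na βQ) t v := ZF1_B2_X hS hB' hFR'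
  have hm0 : ∀ t v : k, B2x θ (yg hS.na (C.simple i)) (yg hS.na (C.simple (t0 i)))
      (yg hS.na βP) (yg hS.na βQ) t v ∈ XJ hS.na t0 σ i := fun t v => (hX _).mpr ⟨t, v, rfl⟩
  let E : k → k → Esr D σ := fun t v => ⟨B2x θ (yg hS.na (C.simple i))
      (yg hS.na (C.simple (t0 i))) (yg hS.na βP) (yg hS.na βQ) t v, ZF1_Esr hS i _ (hm0 t v)⟩
  have hE : ∀ t v, ((E t v : Esr D σ) : GF D k) = B2x θ (yg hS.na (C.simple i))
      (yg hS.na (C.simple (t0 i))) (yg hS.na βP) (yg hS.na βQ) t v := fun t v => rfl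
  have hf : ∀ t v, ∃ a b : K, ((Ψ (E t v) : Esr D σ') : GF D K) = B2x θ'
      (yg hS.na (C.simple i)) (yg hS.na (C.simple (t0 i))) (yg hS.na βP) (yg hS.na βQ) a b :=
    fun t v => (hX' _).mp (hΨ.pos i (E t v) (hm0 t v))
  choose F1 F2 hF using hf
  have huniq : ∀ (t v : k) (a b : K), ((Ψ (E t v) : Esr D σ') : GF D K) = B2x θ'
      (yg hS.na (C.simple i)) (yg hS.na (C.simple (t0 i))) (yg hS.na βP) (yg hS.na βQ) a b →
      F1 t v = a ∧ F2 t v = b := by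
    intro t v a b e
    rw [hF] at e
    unfold B2x at e
    obtain ⟨h1, -, h3, -⟩ := B2_coord hB' _ _ _ _ _ _ _ _ e
    exact ⟨h1, h3⟩
  have hmul : ∀ t v t' v', E (t + t') (v + v' + t' * θ t) = E t v * E t' v' := by
    intro t v t' v'
    apply Subtype.ext
    rw [hE, Subgroup.coe_mul, hE, hE, B2_mul hB]
  have h12 : ∀ t v t' v', F1 (t + t') (v + v' + t' * θ t) = F1 t v + F1 t' v' ∧
      F2 (t + t') (v + v' + t' * θ t) = F2 t v + F2 t' v' + F1 t' v' * θ' (F1 t v) := by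
    intro t v t' v'
    apply huniq
    rw [hmul, map_mul, Subgroup.coe_mul, hF, hF, B2_mul hB']
  have hinj : ∀ t v, F1 t v = 0 → F2 t v = 0 → t = 0 ∧ v = 0 := by
    intro t v h1 h2
    have h3 := hF t v
    rw [h1, h2, ZF1_B2_zero hB'] at h3
    have h4 : Ψ (E t v) = 1 := Subtype.ext h3
    have h5 : E t v = 1 := hΨ.inj (h4.trans (map_one Ψ).symm)
    have h6 := congrArg (fun x : Esr D σ => (x : GF D k)) h5
    change B2x θ (yg hS.na (C.simple i)) (yg hS.na (C.simple (t0 i))) (yg hS.na βP)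
      (yg hS.na βQ) t v = 1 at h6
    unfold B2x at h6
    obtain ⟨h7, -, h8, -⟩ := hB.uniq _ _ _ _ h6
    exact ⟨h7, h8⟩
  have hT : ∀ κ, κ ≠ 0 → ∃ κ', κ' ≠ 0 ∧ ∀ t v, F1 (κ * t) (κ * θ κ * v) = κ' * F1 t v ∧
      F2 (κ * t) (κ * θ κ * v) = κ' * θ' κ' * F2 t v := by
    intro κ hκ
    obtain ⟨y, hy, hchi, -⟩ := hJ.sep i hi κ hκ
    rw [pow_one] at hchi
    have hys : σ y = y := Esr_le_Fx hy.2
    have hyT : ((Ψ ⟨y, hy.2⟩ : Esr D σ') : GF D K) ∈ FT D K := hΨ.tor ⟨y, hy.2⟩ hy.1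
    refine ⟨C.chi ((((Ψ ⟨y, hy.2⟩ : Esr D σ') : GF D K) : GL C.Idx K) :
      Matrix C.Idx C.Idx K) (C.simple i), (SR_T (env_ad D hS.na K) _ hyT _ 0).1,
      fun t v => ?_⟩
    apply huniq
    have h1 : E (κ * t) (κ * θ κ * v) = ⟨y, hy.2⟩ * E t v * (⟨y, hy.2⟩)⁻¹ := by
      apply Subtype.ext
      have e1 := ZF1_B2_conj hS h i hi hr hB y hy.1 hys t v
      rw [hchi] at e1
      exact e1.symm
    rw [h1, map_mul, map_mul, map_inv, Subgroup.coe_mul, Subgroup.coe_mul, Subgroup.coe_inv,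
      hF t v]
    exact ZF1_B2_conj hS h' i hi hr hB' _ hyT (Esr_le_Fx (Ψ ⟨y, hy.2⟩).2) _ _
  obtain ⟨c, φ, hc, hφ, hFF⟩ := B2_rigid θ θ' hB.hθ hB'.hθ F1 F2 (fun t v t' v' =>
    (h12 t v t' v').1) (fun t v t' v' => (h12 t v t' v').2) hinj hT
  have hform : ∀ x : Esr D σ, (x : GF D k) ∈ XJ hS.na t0 σ i → ∃ t v, x = E t v := by
    intro x hx
    obtain ⟨t, v, ht⟩ := (hX _).mp hx
    exact ⟨t, v, Subtype.ext ht⟩
  refine ⟨c, φ, ⟨hc, ?_, ?_⟩, hφ⟩
  · intro x hx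
    obtain ⟨t, v, rfl⟩ := hform x hx
    rw [hF, hE, ZF1_B2_xi hS i hi hr θ, ZF1_B2_xi hS i hi hr θ']
    exact (hFF t v).1
  · intro _ cc hcc hci x hx
    obtain ⟨t, v, rfl⟩ := hform x hx
    obtain ⟨Φ, hΦ⟩ := exists_Phi hS.na φ cc hcc.rho
    rw [← hΦ.val]
    congr 1
    have h1 : σ' (Φ (E t v : GF D k)) = Φ (E t v : GF D k) := by
      rw [Phi_sig hS h h' φ hφ cc hcc Φ hΦ]
      congr 1
      exact Esr_le_Fx (E t v).2
    have h2 : Φ ((E t v : Esr D σ) : GF D k) = yg hS.na (C.simple i) (c * φ t) *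
        yg hS.na (C.simple (t0 i)) (ccr cc (C.simple (t0 i)) * φ (θ t)) *
        yg hS.na βP (c * θ' c * φ v) * yg hS.na βQ (ccr cc βQ * φ (θ v + t ^ 2 * θ t)) := by
      rw [hE]
      unfold B2x
      rw [map_mul, map_mul, map_mul, hΦ.yg, hΦ.yg, hΦ.yg, hΦ.yg, ccr_simple,
        ccr_add cc (C.simple i) (C.simple (t0 i)) βP hr.hP, ccr_simple, ccr_simple,
        hcc.t0 i hi, hci]
    rw [h2] at h1
    have h3 := B2_form hB' _ _ _ _ h1
    rw [hF t v, h2, h3, (hFF t v).1, (hFF t v).2]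

end Pool.Agent.H86.UM
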