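import Pool.Agent.H86.UM.ZF1
import Pool.Agent.H86.UM.ZJ3
import Pool.Agent.H86.UM.Z10

/-!
# Project UM, Suzuki-Ree groups, module ZF1g: rank one, type `G₂`

As `exists_JR_B2` (see ZF1.lean) with `G2_roots`, `G2_inst`, `G2_form`, `G2_fix`, `G2_mul`, `G2_coord`, `G2_rigid`
(`i = 0`, `RJ_D4`, `FU_FR`): `Ψ (G2x θ .. t v w) = G2x θ' .. (F1 t v w) (F2 t v w) (F3 t v w)`. `hT`: `sep` (with
`N = 2`) for `s`: `y` with `χ_0(y) = s ^ 2`, `χ_1(y) = θ (s ^ 2)`, `χ_2(y) = s ^ 2` (`chi_sgl`-like, `y` is in the folded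
group), so `χ_βP(y) = s ^ 2 θ (s ^ 2)`, `χ_βQ(y) = s ^ 4 θ (s ^ 2)`, and `y (G2x t v w) y⁻¹` is a product of the same
form with parameters `s ^ 2 t, .., s ^ 2 θ (s ^ 2) v, s ^ 4 θ (s ^ 2) w, ..` fixed by `σ`, so (`G2_form`) `=
G2x (s ^ 2 t) (s ^ 2 θ (s ^ 2) v) (s ^ 4 θ (s ^ 2) w)`; over `K` the same with `κ' = χ_0(Ψ y)` instead of `s ^ 2`:
`G2x (κ' t) (κ' θ' κ' v) (κ' ^ 2 θ' κ' w)`. The signs of `G2s.σP`, `σQ` are in `G2_form`. `eq`: `Φ (G2x t v w)` is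
of this form with first parameters `cc 0 * φ t`, `cc 0 * cc 1 * φ v`, `cc 0 * cc 1 * cc 2 * φ w`, `cc 2 = cc 0`
(`CC.rho`: `ρ 0 = 2`), `cc 1 = θ' (cc 0)`.
-/

set_option autoImplicit false
open Matrix

namespace Pool.Agent.H86.UM

open Pool.Agent.H75.UL

private theorem ZF1g_chi_prod {n : ℕ} {C : SLC n} {D : Dg C} {k : Type*} [Field k] (x : GF D k)
    (hx : x ∈ FT D k) (γ : C.Root) :
    C.chi ((x : GL C.Idx k) : Matrix C.Idx C.Idx k) γ =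
      ∏ j, C.chi ((x : GL C.Idx k) : Matrix C.Idx C.Idx k) (C.simple j) ^ γ.1 j := by
  have hx' : (x : GL C.Idx k) ∈ (C.adS k).T := hx
  obtain ⟨c, hc⟩ := C.T_diag _ hx'
  have h1 : ∀ δ : C.Root, C.chi ((x : GL C.Idx k) : Matrix C.Idx C.Idx k) δ =
      ((∏ j, c j ^ δ.1 j : kˣ) : k) := by
    intro δ
    unfold SLC.chi
    rw [hc, Matrix.diagonal_apply_eq]
    rfl
  have h2 : ∀ j, C.chi ((x : GL C.Idx k) : Matrix C.Idx C.Idx k) (C.simple j) = (c j : k) := by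
    intro j
    rw [h1, Finset.prod_eq_single j]
    · rw [SLC.simple_val, Pi.single_eq_same, zpow_one]
    · intro i _ hi
      rw [SLC.simple_val, Pi.single_eq_of_ne hi, zpow_zero]
    · intro h
      exact absurd (Finset.mem_univ j) h
  rw [h1, Units.coe_prod]
  refine Finset.prod_congr rfl fun j _ => ?_
  rw [h2, Units.val_zpow_eq_zpow_val]

private theorem ZF1g_chi_ne {n : ℕ} {C : SLC n} {D : Dg C} {k : Type*} [Field k] (x : GF D k)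
    (hx : x ∈ FT D k) (γ : C.Root) :
    C.chi ((x : GL C.Idx k) : Matrix C.Idx C.Idx k) γ ≠ 0 := by
  have hx' : (x : GL C.Idx k) ∈ (C.adS k).T := hx
  exact (C.T_fix _ hx' γ 0).1

private theorem ZF1g_chi_rho {n : ℕ} {C : SLC n} {D : Dg C} {k : Type*} [Field k] [Infinite k]
    (hN : D.NA) (x : GF D k) (j : Fin n) :
    C.chi ((x : GL C.Idx k) : Matrix C.Idx C.Idx k) (C.simple (D.ρ j)) =
      C.chi ((x : GL C.Idx k) : Matrix C.Idx C.Idx k) (C.simple j) := by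
  have h1 := chi_sgl D (RingEquiv.refl k) (x : GL C.Idx k) (C.simple j)
  rw [(mem_GF_fix hN _ x.2).1, D.r_simple] at h1
  exact h1

/-- the elements of the root group of type `G₂` -/
private noncomputable abbrev ZF1g_x {k : Type*} [Field k] (θ : k ≃+* k)
    (βP βQ βR βS : cD4.Root) (t v w : k) : GF dD4 k :=
  G2x θ (yg swap_D4.na (cD4.simple 0)) (yg swap_D4.na (cD4.simple 1)) (yg swap_D4.na βP)
    (yg swap_D4.na βQ) (yg swap_D4.na βR) (yg swap_D4.na βS) t v w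

private theorem ZF1g_inj {k : Type*} [Field k] [Infinite k] {θ : k ≃+* k}
    {σ : GF dD4 k →* GF dD4 k} (h : SRs dD4 tD4 θ σ) (βP βQ βR βS : cD4.Root)
    (hr : G2r βP βQ βR βS) (t v w t' v' w' : k)
    (e : ZF1g_x θ βP βQ βR βS t v w = ZF1g_x θ βP βQ βR βS t' v' w') :
    t = t' ∧ v = v' ∧ w = w' := by
  have h1 := G2_coord (G2_inst h βP βQ βR βS hr).1 _ _ _ _ _ _ _ _ _ _ _ _ e
  exact ⟨h1.1, h1.2.2.1, h1.2.2.2.1⟩

private theorem ZF1g_zero {k : Type*} [Field k] [Infinite k] {θ : k ≃+* k}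
    (βP βQ βR βS : cD4.Root) : ZF1g_x θ βP βQ βR βS (0 : k) 0 0 = 1 := by
  simp only [ZF1g_x, G2x, map_zero, neg_zero, mul_zero, sub_zero, yg_zero, mul_one, ne_eq,
    OfNat.ofNat_ne_zero, not_false_eq_true, zero_pow]

/-- conjugation with the torus -/
private theorem ZF1g_tor {k : Type*} [Field k] [Infinite k] {θ : k ≃+* k}
    {σ : GF dD4 k →* GF dD4 k} (h : SRs dD4 tD4 θ σ) (βP βQ βR βS : cD4.Root)
    (hr : G2r βP βQ βR βS) (y : GF dD4 k) (hy : y ∈ FT dD4 k) (hs : σ y = y) (c : k)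
    (hc : cD4.chi ((y : GL cD4.Idx k) : Matrix cD4.Idx cD4.Idx k) (cD4.simple 0) = c)
    (t v w : k) :
    y * ZF1g_x θ βP βQ βR βS t v w * y⁻¹ =
      ZF1g_x θ βP βQ βR βS (c * t) (c * θ c * v) (c ^ 2 * θ c * w) := by
  have hG := (G2_inst h βP βQ βR βS hr).1
  have c2 : cD4.chi ((y : GL cD4.Idx k) : Matrix cD4.Idx cD4.Idx k) (cD4.simple 2) = c := by
    rw [← hc]
    exact ZF1g_chi_rho swap_D4.na y 0
  have c3 : cD4.chi ((y : GL cD4.Idx k) : Matrix cD4.Idx cD4.Idx k) (cD4.simple 3) = c := by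
    rw [← c2]
    exact ZF1g_chi_rho swap_D4.na y 2
  have c1 : cD4.chi ((y : GL cD4.Idx k) : Matrix cD4.Idx cD4.Idx k) (cD4.simple 1) = θ c := by
    have h1 := sig_chi_simple swap_D4 h y hy 0
    rw [hs, hc] at h1
    have h2 : th dD4 θ (cD4.simple 0) c = θ c := by
      unfold th
      rw [if_neg (by decide)]
    rw [h2] at h1
    exact h1
  have cP : cD4.chi ((y : GL cD4.Idx k) : Matrix cD4.Idx cD4.Idx k) βP = c * θ c := by
    rw [ZF1g_chi_prod y hy, Fin.prod_univ_four, hc, c1, c2, c3, hr.hP]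
    change c ^ (1 : ℤ) * θ c ^ (1 : ℤ) * c ^ (0 : ℤ) * c ^ (0 : ℤ) = _
    simp
  have cQ : cD4.chi ((y : GL cD4.Idx k) : Matrix cD4.Idx cD4.Idx k) βQ = c ^ 2 * θ c := by
    rw [ZF1g_chi_prod y hy, Fin.prod_univ_four, hc, c1, c2, c3, hr.hQ]
    change c ^ (1 : ℤ) * θ c ^ (1 : ℤ) * c ^ (1 : ℤ) * c ^ (0 : ℤ) = _
    simp only [zpow_one, zpow_zero]
    ring
  have hfix : σ (y * ZF1g_x θ βP βQ βR βS t v w * y⁻¹) =
      y * ZF1g_x θ βP βQ βR βS t v w * y⁻¹ := by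
    rw [map_mul, map_mul, map_inv, hs, G2_fix hG]
  have hsplit : ∀ a b p q r s : GF dD4 k, y * (a * b * p * q * r * s) * y⁻¹ =
      (y * a * y⁻¹) * (y * b * y⁻¹) * (y * p * y⁻¹) * (y * q * y⁻¹) * (y * r * y⁻¹) *
        (y * s * y⁻¹) := by
    intro a b p q r s
    group
  have e : y * ZF1g_x θ βP βQ βR βS t v w * y⁻¹ =
      yg swap_D4.na (cD4.simple 0) (c * t) * yg swap_D4.na (cD4.simple 1) (θ c * θ t) *
        yg swap_D4.na βP (c * θ c * v) * yg swap_D4.na βQ (c ^ 2 * θ c * w) *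
        yg swap_D4.na βR (cD4.chi ((y : GL cD4.Idx k) : Matrix cD4.Idx cD4.Idx k) βR *
          (-θ v - t ^ 3 * θ t)) *
        yg swap_D4.na βS (cD4.chi ((y : GL cD4.Idx k) : Matrix cD4.Idx cD4.Idx k) βS *
          (-θ w - t ^ 3 * θ t ^ 2)) := by
    change y * (_ * _ * _ * _ * _ * _) * y⁻¹ = _
    rw [hsplit, yg_T swap_D4.na y hy, yg_T swap_D4.na y hy, yg_T swap_D4.na y hy,
      yg_T swap_D4.na y hy, yg_T swap_D4.na y hy, yg_T swap_D4.na y hy, hc, c1, cP, cQ]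
  rw [e] at hfix ⊢
  exact G2_form hG _ _ _ _ _ _ hfix

private theorem ZF1g_mem {k : Type*} [Field k] [Infinite k] {θ : k ≃+* k}
    {σ : GF dD4 k →* GF dD4 k} (h : SRs dD4 tD4 θ σ) (βP βQ βR βS : cD4.Root)
    (hr : G2r βP βQ βR βS) (t v w : k) :
    ZF1g_x θ βP βQ βR βS t v w ∈ XJ swap_D4.na tD4 σ 0 :=
  ((Z10_G2 h βP βQ βR βS hr).1 _).2 ⟨t, v, w, rfl⟩

variable {k K : Type*} [Field k] [Infinite k] [Field K]
  [Infinite K] {θ : k ≃+* k} {θ' : K ≃+* K} {σ : GF dD4 k →* GF dD4 k}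
  {σ' : GF dD4 K →* GF dD4 K}
  (h : SRs dD4 tD4 θ σ) (h' : SRs dD4 tD4 θ' σ') (hJ : JHyp swap_D4 σ 2)
  (Ψ : Esr dD4 σ →* Esr dD4 σ') (hΨ : PinS swap_D4 Ψ)

include h h' hJ hΨ

theorem exists_JR_G2 :
    ∃ (c : K) (φ : k →+* K), JR swap_D4 θ θ' Ψ 0 c φ ∧ ∀ t, φ (θ t) = θ' (φ t) := by
  obtain ⟨βP, βQ, βR, βS, hr⟩ := G2_roots
  have hG := (G2_inst h βP βQ βR βS hr).1
  have hG' := (G2_inst h' βP βQ βR βS hr).1
  have : CharP k 3 := hG.chr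
  have : CharP K 3 := hG'.chr
  have hE : ∀ t v w : k, ZF1g_x θ βP βQ βR βS t v w ∈ Esr dD4 σ := fun t v w =>
    (le_sup_left : _ ≤ Esr dD4 σ) ((XJ_le swap_D4 0).1 (ZF1g_mem h βP βQ βR βS hr t v w))
  let X : k → k → k → Esr dD4 σ := fun t v w => ⟨ZF1g_x θ βP βQ βR βS t v w, hE t v w⟩
  have hX : ∀ t v w, ((X t v w : Esr dD4 σ) : GF dD4 k) = ZF1g_x θ βP βQ βR βS t v w :=
    fun t v w => rfl
  have hch : ∀ p : k × k × k, ∃ q : K × K × K, ((Ψ (X p.1 p.2.1 p.2.2) : Esr dD4 σ') : GF dD4 K) =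
      ZF1g_x θ' βP βQ βR βS q.1 q.2.1 q.2.2 := by
    rintro ⟨t, v, w⟩
    have h1 := hΨ.pos 0 (X t v w) (ZF1g_mem h βP βQ βR βS hr t v w)
    obtain ⟨a, b, c, e⟩ := ((Z10_G2 h' βP βQ βR βS hr).1 _).1 h1
    exact ⟨(a, b, c), e⟩
  choose q hq using hch
  let F1 : k → k → k → K := fun t v w => (q (t, v, w)).1
  let F2 : k → k → k → K := fun t v w => (q (t, v, w)).2.1
  let F3 : k → k → k → K := fun t v w => (q (t, v, w)).2.2
  have hF : ∀ t v w, ((Ψ (X t v w) : Esr dD4 σ') : GF dD4 K) =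
      ZF1g_x θ' βP βQ βR βS (F1 t v w) (F2 t v w) (F3 t v w) := fun t v w => hq (t, v, w)
  have hinj' := fun t v w t' v' w' => ZF1g_inj h' βP βQ βR βS hr t v w t' v' w'
  have hmul : ∀ t v w t' v' w', X t v w * X t' v' w' =
      X (t + t') (v + v' - t' * θ t) (w + w' - t' * v - t' ^ 2 * θ t) := by
    intro t v w t' v' w'
    apply Subtype.ext
    exact G2_mul hG t v w t' v' w'
  have hM : ∀ t v w t' v' w',
      F1 (t + t') (v + v' - t' * θ t) (w + w' - t' * v - t' ^ 2 * θ t) =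
        F1 t v w + F1 t' v' w' ∧
      F2 (t + t') (v + v' - t' * θ t) (w + w' - t' * v - t' ^ 2 * θ t) =
        F2 t v w + F2 t' v' w' - F1 t' v' w' * θ' (F1 t v w) ∧
      F3 (t + t') (v + v' - t' * θ t) (w + w' - t' * v - t' ^ 2 * θ t) =
        F3 t v w + F3 t' v' w' - F1 t' v' w' * F2 t v w - F1 t' v' w' ^ 2 * θ' (F1 t v w) := by
    intro t v w t' v' w'
    apply hinj'
    rw [← hF, ← hmul, map_mul, Subgroup.coe_mul, hF, hF]
    exact G2_mul hG' _ _ _ _ _ _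
  have hinj : ∀ t v w, F1 t v w = 0 → F2 t v w = 0 → F3 t v w = 0 → t = 0 ∧ v = 0 ∧ w = 0 := by
    intro t v w e1 e2 e3
    have e4 := hF t v w
    rw [e1, e2, e3, ZF1g_zero] at e4
    have e5 : Ψ (X t v w) = 1 := Subtype.ext e4
    have e6 : X t v w = 1 := hΨ.inj (by rw [e5, map_one])
    have e7 : ZF1g_x θ βP βQ βR βS t v w = ZF1g_x θ βP βQ βR βS 0 0 0 := by
      rw [ZF1g_zero, ← hX, e6]
      rfl
    exact ZF1g_inj h βP βQ βR βS hr _ _ _ _ _ _ e7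
  have hT : ∀ s : k, s ≠ 0 → ∃ κ' : K, κ' ≠ 0 ∧ ∀ t v w,
      F1 (s ^ 2 * t) (s ^ 2 * θ (s ^ 2) * v) (s ^ 4 * θ (s ^ 2) * w) = κ' * F1 t v w ∧
      F2 (s ^ 2 * t) (s ^ 2 * θ (s ^ 2) * v) (s ^ 4 * θ (s ^ 2) * w) =
        κ' * θ' κ' * F2 t v w ∧
      F3 (s ^ 2 * t) (s ^ 2 * θ (s ^ 2) * v) (s ^ 4 * θ (s ^ 2) * w) =
        κ' ^ 2 * θ' κ' * F3 t v w := by
    intro s hs
    obtain ⟨y, hy, hc, -⟩ := hJ.sep 0 (by decide) s hs
    obtain ⟨hyT, hyE⟩ := Subgroup.mem_inf.1 hy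
    have hys : σ y = y := Esr_le_Fx hyE
    let y' : Esr dD4 σ := ⟨y, hyE⟩
    have hzT : ((Ψ y' : Esr dD4 σ') : GF dD4 K) ∈ FT dD4 K := hΨ.tor y' hyT
    have hzs : σ' ((Ψ y' : Esr dD4 σ') : GF dD4 K) = ((Ψ y' : Esr dD4 σ') : GF dD4 K) :=
      Esr_le_Fx (Ψ y').2
    refine ⟨_, ZF1g_chi_ne _ hzT (cD4.simple 0), fun t v w => ?_⟩
    apply hinj'
    rw [← hF, ← ZF1g_tor h' βP βQ βR βS hr _ hzT hzs _ rfl, ← hF]
    have e : X (s ^ 2 * t) (s ^ 2 * θ (s ^ 2) * v) (s ^ 4 * θ (s ^ 2) * w) =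
        y' * X t v w * y'⁻¹ := by
      apply Subtype.ext
      have e1 := ZF1g_tor h βP βQ βR βS hr y hyT hys _ hc t v w
      change ZF1g_x θ βP βQ βR βS _ _ _ = y * ZF1g_x θ βP βQ βR βS t v w * y⁻¹
      rw [e1, ← pow_mul]
    rw [e, map_mul, map_mul, map_inv, Subgroup.coe_mul, Subgroup.coe_mul, Subgroup.coe_inv]
  obtain ⟨c, φ, hc0, hφ, hval⟩ := G2_rigid θ θ' hG.hθ hG'.hθ F1 F2 F3
    (fun t v w t' v' w' => (hM t v w t' v' w').1)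
    (fun t v w t' v' w' => (hM t v w t' v' w').2.1)
    (fun t v w t' v' w' => (hM t v w t' v' w').2.2) hinj hT
  refine ⟨c, φ, ⟨hc0, ?_, ?_⟩, hφ⟩
  · intro x hx
    obtain ⟨t, v, w, e⟩ := ((Z10_G2 h βP βQ βR βS hr).1 _).1 hx
    have ex : x = X t v w := Subtype.ext e
    rw [ex, hF, hX, (Z10_G2 h' βP βQ βR βS hr).2 0 (by decide),
      (Z10_G2 h βP βQ βR βS hr).2 0 (by decide), (hval t v w).1]
  · intro _ cc hcc hcc0 x hx
    obtain ⟨Φ, hΦ⟩ := exists_Phi swap_D4.na φ cc hcc.rho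
    rw [← hΦ.val]
    congr 1
    obtain ⟨t, v, w, e⟩ := ((Z10_G2 h βP βQ βR βS hr).1 _).1 hx
    have ex : x = X t v w := Subtype.ext e
    rw [ex, hF, hX, (hval t v w).1, (hval t v w).2.1, (hval t v w).2.2]
    have hfix : σ' (Φ (ZF1g_x θ βP βQ βR βS t v w)) = Φ (ZF1g_x θ βP βQ βR βS t v w) := by
      rw [Phi_sig swap_D4 h h' φ hφ cc hcc Φ hΦ, G2_fix hG]
    have c2 : (cc 2 : K) = c := by
      have h1 := hcc.rho 0
      have h2 : dD4.ρ 0 = 2 := rfl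
      rw [h2] at h1
      rw [h1, hcc0]
    have c1 : (cc 1 : K) = θ' c := by
      have h1 := hcc.t0 0 (by decide)
      rw [hcc0] at h1
      exact h1
    have kP : ccr cc βP = c * θ' c := by
      unfold ccr
      rw [Fin.prod_univ_four, hr.hP]
      change ((cc 0 ^ (1 : ℤ) * cc 1 ^ (1 : ℤ) * cc 2 ^ (0 : ℤ) * cc 3 ^ (0 : ℤ) : Kˣ) : K) = _
      simp [hcc0, c1]
    have kQ : ccr cc βQ = c ^ 2 * θ' c := by
      unfold ccr
      rw [Fin.prod_univ_four, hr.hQ]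
      change ((cc 0 ^ (1 : ℤ) * cc 1 ^ (1 : ℤ) * cc 2 ^ (1 : ℤ) * cc 3 ^ (0 : ℤ) : Kˣ) : K) = _
      simp only [zpow_one, zpow_zero, mul_one, Units.val_mul, hcc0, c1, c2]
      ring
    have e2 : Φ (ZF1g_x θ βP βQ βR βS t v w) =
        yg swap_D4.na (cD4.simple 0) (c * φ t) * yg swap_D4.na (cD4.simple 1) (θ' c * φ (θ t)) *
          yg swap_D4.na βP (c * θ' c * φ v) * yg swap_D4.na βQ (c ^ 2 * θ' c * φ w) *
          yg swap_D4.na βR (ccr cc βR * φ (-θ v - t ^ 3 * θ t)) *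
          yg swap_D4.na βS (ccr cc βS * φ (-θ w - t ^ 3 * θ t ^ 2)) := by
      change Φ (_ * _ * _ * _ * _ * _) = _
      simp only [map_mul, hΦ.yg, kP, kQ, ccr_simple, hcc0, c1]
    rw [e2] at hfix ⊢
    exact (G2_form hG' _ _ _ _ _ _ hfix).symm

end Pool.Agent.H86.UM
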