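import Pool.Agent.H86.UM.ZF1

/-!
# Project UM, Suzuki-Ree groups, module ZF2: from the positive root groups to everything

`rig_of_JR`. `Φ` from `exists_Phi` (`hc.rho`), `Φ x ∈ Esr D σ'` for `x ∈ Esr D σ` (`Phi_pin`). For `x ∈ XJ i`:
`Ψ x = Φ x`: let `j` be as in `hJR`; `XJ i = XJ j` (`XJ_congr`); `JR.eq`.
For `y ∈ XmJ i`, `y ≠ 1`: `nuJ_of_opp`: `y = u * ν * v`, `u, v ∈ XJ i`, `ν ∈ FN`, `σ ν = ν`, `ν` acts by `w`,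
`IswJ i w`; `ν = u⁻¹ y v⁻¹ ∈ Esr D σ` (`XJ_le`, `Esr` contains `FU ⊓ Fx`, `FUm ⊓ Fx`).
Let `z = Ψ y * (Φ y)⁻¹ ∈ XmJ' i` (`PinS.neg`, `Phi_pin`). `Ψ y = Φ u * Ψ ν * Φ v`, `Φ y = Φ u * Φ ν * Φ v`, so
`z = Φ u * m * (Φ u)⁻¹`, `m = Ψ ν * (Φ ν)⁻¹`. For `x ∈ XJ i`: `ν⁻¹ x ν ∈ XmJ i` (`nu_XJ`: for `x' = ν⁻¹ x ν`:
`x' ∈ XmJ ↔ ν x' ν⁻¹ = x ∈ XJ`), so
`m⁻¹ * Φ x * m = Φ ν * (Ψ ν)⁻¹ * Ψ x * Ψ ν * (Φ ν)⁻¹ = Φ ν * Ψ (ν⁻¹ x ν) * (Φ ν)⁻¹ ∈ XJ' i` (`nu_XJ` for `Φ ν`: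
`PhiS.nor`, `Phi_sig`). Hence `z⁻¹ * Φ x' * z = Φ u * (m⁻¹ * Φ (u⁻¹ x' u) * m) * (Φ u)⁻¹ ∈ XJ' i` for all `x' ∈ XJ i`.
Suppose `z ≠ 1`: `nuJ_of_opp` for `z`, `σ'`: `z = u₂ * ν₂ * v₂`, so
`ν₂⁻¹ * (u₂⁻¹ * Φ x' * u₂) * ν₂ = v₂ * (z⁻¹ * Φ x' * z) * v₂⁻¹ ∈ XJ' i`; but `u₂⁻¹ * Φ x' * u₂ ∈ XJ' i` and so (`nu_XJ`)
`ν₂⁻¹ * .. * ν₂ ∈ XmJ' i`. `FU` and `FUm` intersect trivially (`B_FUm`, `FU_Fil`), so `Φ x' = 1`, `x' = 1` for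
all `x' ∈ XJ i`. But `ν * y * ν⁻¹ ∈ XJ i` (`nu_XJ`) is not `1`. So `z = 1`, `Ψ y = Φ y`.
`Esr_gen`: `Esr D σ = G0` is generated by the `XJ i`, `XmJ i`; `Ψ` and `Φ` agree on it (`Subgroup.closure_induction`
with a statement for elements of `GF D k` lying in `Esr D σ`).
-/

set_option autoImplicit false
open Matrix

namespace Pool.Agent.H86.UM

open Pool.Agent.H75.UL

variable {n : ℕ} {C : SLC n} {D : Dg C} {t0 : Fin n → Fin n}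
  (hS : Swap D t0) {k K : Type*} [Field k] [Infinite k] [Field K]
  [Infinite K] {θ : k ≃+* k} {θ' : K ≃+* K} {σ : GF D k →* GF D k} {σ' : GF D K →* GF D K}
  (h : SRs D t0 θ σ) (h' : SRs D t0 θ' σ')
  (Ψ : Esr D σ →* Esr D σ') (hΨ : PinS hS Ψ)

include h h' hΨ

theorem rig_of_JR (hne : ∀ i, ∃ y ∈ XmJ hS.na t0 σ i, y ≠ 1)
    (φ : k →+* K) (hφ : ∀ t, φ (θ t) = θ' (φ t)) (cc : Fin n → Kˣ)
    (hc : CC D t0 θ' cc) (hJR : ∀ i, ∃ j, JJ D t0 i j ∧ JR hS θ θ' Ψ j (cc j : K) φ)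
    (x : Esr D σ) : (((Ψ x : Esr D σ') : GF D K) : GL C.Idx K) =
      tad C cc * C.mp φ ((x : GF D k) : GL C.Idx k) * (tad C cc)⁻¹ := by
  have hN := hS.na
  obtain ⟨Φ, hΦ⟩ := exists_Phi hN φ cc hc.rho
  have hsig := Phi_sig hS h h' φ hφ cc hc Φ hΦ
  obtain ⟨hE, hX, hXm⟩ := Phi_pin hS h h' φ hφ cc hc Φ hΦ
  have hXE : ∀ i, ∀ g ∈ XJ hS.na t0 σ i, g ∈ Esr D σ := fun i g hg =>
    (le_sup_left : FU D k ⊓ Fx σ ≤ Esr D σ) ((XJ_le hS i).1 hg)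
  have hXmE : ∀ i, ∀ g ∈ XmJ hS.na t0 σ i, g ∈ Esr D σ := fun i g hg =>
    (le_sup_right : FUm D k ⊓ Fx σ ≤ Esr D σ) ((XJ_le hS i).2 hg)
  -- the positive root groups
  have hP : ∀ i, ∀ x : Esr D σ, (x : GF D k) ∈ XJ hS.na t0 σ i →
      ((Ψ x : Esr D σ') : GF D K) = Φ (x : GF D k) := by
    intro i x hx
    obtain ⟨j, hij, hj⟩ := hJR i
    rw [(XJ_congr hS (σ := σ) i j hij).1] at hx
    apply Subtype.ext
    rw [hΦ.val]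
    exact hj.eq hφ cc hc rfl x hx
  -- the opposite root groups
  have hM : ∀ i, ∀ y : Esr D σ, (y : GF D k) ∈ XmJ hS.na t0 σ i →
      ((Ψ y : Esr D σ') : GF D K) = Φ (y : GF D k) := by
    intro i y hy
    by_cases hy1 : (y : GF D k) = 1
    · have h1 : y = 1 := Subtype.ext hy1
      rw [h1, map_one, Subgroup.coe_one, Subgroup.coe_one, map_one]
    obtain ⟨u, hu, v, hv, ν, hν, hσν, hyuv, w, hw, hI, ha⟩ := nuJ_of_opp hS h i y hy hy1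
    have huE := hXE i u hu
    have hvE := hXE i v hv
    have hνE : ν ∈ Esr D σ := by
      have e1 : ν = u⁻¹ * (y : GF D k) * v⁻¹ := by
        rw [hyuv]
        group
      rw [e1]
      exact mul_mem (mul_mem (inv_mem huE) y.2) (inv_mem hvE)
    have hyE : y = (⟨u, huE⟩ : Esr D σ) * ⟨ν, hνE⟩ * ⟨v, hvE⟩ := Subtype.ext hyuv
    have hΦN := hΦ.nor ν hν
    have hΦs : σ' (Φ ν) = Φ ν := by rw [hsig, hσν]
    obtain ⟨Nν, hNν⟩ : ∃ a : GF D K, a = ((Ψ ⟨ν, hνE⟩ : Esr D σ') : GF D K) := ⟨_, rfl⟩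
    have hΨy : ((Ψ y : Esr D σ') : GF D K) = Φ u * Nν * Φ v := by
      rw [hyE, map_mul, map_mul, Subgroup.coe_mul, Subgroup.coe_mul, hP i ⟨u, huE⟩ hu,
        hP i ⟨v, hvE⟩ hv, hNν]
    have hΦy : Φ (y : GF D k) = Φ u * Φ ν * Φ v := by rw [hyuv, map_mul, map_mul]
    obtain ⟨z, hz⟩ : ∃ z : GF D K, z = ((Ψ y : Esr D σ') : GF D K) * (Φ (y : GF D k))⁻¹ :=
      ⟨_, rfl⟩
    have hzX : z ∈ XmJ hS.na t0 σ' i := by
      rw [hz]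
      exact mul_mem (hΨ.neg i y hy) (inv_mem (hXm i _ hy))
    have hzm : z = Φ u * (Nν * (Φ ν)⁻¹) * (Φ u)⁻¹ := by
      rw [hz, hΨy, hΦy]
      group
    -- conjugation with `m = Nν * (Φ ν)⁻¹`
    have hm : ∀ x ∈ XJ hS.na t0 σ i,
        (Nν * (Φ ν)⁻¹)⁻¹ * Φ x * (Nν * (Φ ν)⁻¹) ∈ XJ hS.na t0 σ' i := by
      intro x hx
      have hxE := hXE i x hx
      obtain ⟨x', hx'⟩ : ∃ x' : Esr D σ, x' = (⟨ν, hνE⟩ : Esr D σ)⁻¹ * ⟨x, hxE⟩ * ⟨ν, hνE⟩ :=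
        ⟨_, rfl⟩
      have hx'v : (x' : GF D k) = ν⁻¹ * x * ν := by
        rw [hx']
        rfl
      have hx'X : (x' : GF D k) ∈ XmJ hS.na t0 σ i := by
        refine (nu_XJ hS h i ν hν hσν w hw hI ha _).2.2 ?_
        have e1 : ν * (x' : GF D k) * ν⁻¹ = x := by
          rw [hx'v]
          group
        rw [e1]
        exact hx
      have h2 := (nu_XJ hS h' i (Φ ν) hΦN.1 hΦs w hw hI (hΦN.2 w ha)
        ((Ψ x' : Esr D σ') : GF D K)).2.1 (hΨ.neg i x' hx'X)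
      have e2 : (Nν * (Φ ν)⁻¹)⁻¹ * Φ x * (Nν * (Φ ν)⁻¹) =
          Φ ν * ((Ψ x' : Esr D σ') : GF D K) * (Φ ν)⁻¹ := by
        rw [hx', map_mul, map_mul, map_inv, Subgroup.coe_mul, Subgroup.coe_mul, Subgroup.coe_inv,
          hP i ⟨x, hxE⟩ hx, ← hNν]
        group
      rw [e2]
      exact h2
    have hzc : ∀ x ∈ XJ hS.na t0 σ i, z⁻¹ * Φ x * z ∈ XJ hS.na t0 σ' i := by
      intro x hx
      have h1 := hm (u⁻¹ * x * u) (mul_mem (mul_mem (inv_mem hu) hx) hu)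
      have e1 : z⁻¹ * Φ x * z = Φ u * ((Nν * (Φ ν)⁻¹)⁻¹ * Φ (u⁻¹ * x * u) *
          (Nν * (Φ ν)⁻¹)) * (Φ u)⁻¹ := by
        rw [hzm, map_mul, map_mul, map_inv]
        group
      rw [e1]
      exact mul_mem (mul_mem (hX i u hu) h1) (inv_mem (hX i u hu))
    have hz1 : z = 1 := by
      by_contra hz1
      obtain ⟨u₂, hu₂, v₂, hv₂, ν₂, hν₂, hσν₂, hz₂, w₂, hw₂, hI₂, ha₂⟩ :=
        nuJ_of_opp hS h' i z hzX hz1
      have htriv : ∀ x ∈ XJ hS.na t0 σ i, x = 1 := by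
        intro x hx
        have hA : u₂⁻¹ * Φ x * u₂ ∈ XJ hS.na t0 σ' i :=
          mul_mem (mul_mem (inv_mem hu₂) (hX i x hx)) hu₂
        have hB1 : ν₂⁻¹ * (u₂⁻¹ * Φ x * u₂) * ν₂ ∈ XJ hS.na t0 σ' i := by
          have e1 : ν₂⁻¹ * (u₂⁻¹ * Φ x * u₂) * ν₂ = v₂ * (z⁻¹ * Φ x * z) * v₂⁻¹ := by
            rw [hz₂]
            group
          rw [e1]
          exact mul_mem (mul_mem hv₂ (hzc x hx)) (inv_mem hv₂)
        have hB2 : ν₂⁻¹ * (u₂⁻¹ * Φ x * u₂) * ν₂ ∈ XmJ hS.na t0 σ' i := by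
          refine (nu_XJ hS h' i ν₂ hν₂ hσν₂ w₂ hw₂ hI₂ ha₂ _).2.2 ?_
          have e1 : ν₂ * (ν₂⁻¹ * (u₂⁻¹ * Φ x * u₂) * ν₂) * ν₂⁻¹ = u₂⁻¹ * Φ x * u₂ := by group
          rw [e1]
          exact hA
        have hB := B_FUm hN _ (FU_Fil hN _ ((XJ_le hS i).1 hB1).1) ((XJ_le hS i).2 hB2).1
        have e3 : Φ x = 1 := by
          have e4 : Φ x = u₂ * ν₂ * (ν₂⁻¹ * (u₂⁻¹ * Φ x * u₂) * ν₂) * ν₂⁻¹ * u₂⁻¹ := by group
          rw [e4, hB]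
          group
        apply hΦ.inj
        rw [e3, map_one]
      have h3 := (nu_XJ hS h i ν hν hσν w hw hI ha (y : GF D k)).2.1 hy
      have h4 := htriv _ h3
      apply hy1
      have e5 : (y : GF D k) = ν⁻¹ * (ν * (y : GF D k) * ν⁻¹) * ν := by group
      rw [e5, h4]
      group
    rw [hz] at hz1
    exact mul_inv_eq_one.1 hz1
  -- generation
  have hgen := Esr_gen hS h hne
  have key : ∀ g ∈ G0 hS.na t0 σ, ∀ hg : g ∈ Esr D σ,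
      ((Ψ ⟨g, hg⟩ : Esr D σ') : GF D K) = Φ g := by
    intro g hg
    unfold G0 at hg
    have hcl : ∀ x, x ∈ Subgroup.closure {g | ∃ i, g ∈ XJ hS.na t0 σ i ∨
        g ∈ XmJ hS.na t0 σ i} → x ∈ Esr D σ := by
      intro x hx
      rw [hgen]
      exact hx
    induction hg using Subgroup.closure_induction with
    | mem x hx =>
      intro hg
      obtain ⟨i, hi | hi⟩ := hx
      · exact hP i ⟨x, hg⟩ hi
      · exact hM i ⟨x, hg⟩ hi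
    | one =>
      intro hg
      have e1 : (⟨1, hg⟩ : Esr D σ) = 1 := rfl
      rw [e1, map_one, map_one, Subgroup.coe_one]
    | mul x y hx hy ihx ihy =>
      intro hg
      have hx' := hcl x hx
      have hy' := hcl y hy
      have e1 : (⟨x * y, hg⟩ : Esr D σ) = ⟨x, hx'⟩ * ⟨y, hy'⟩ := rfl
      rw [e1, map_mul, map_mul, Subgroup.coe_mul, ihx hx', ihy hy']
    | inv x hx ihx =>
      intro hg
      have hx' := hcl x hx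
      have e1 : (⟨x⁻¹, hg⟩ : Esr D σ) = (⟨x, hx'⟩)⁻¹ := rfl
      rw [e1, map_inv, map_inv, Subgroup.coe_inv, ihx hx']
  have hx : (x : GF D k) ∈ G0 hS.na t0 σ := by
    rw [← hgen]
    exact x.2
  have h1 := key _ hx x.2
  have h2 := congrArg (fun a : GF D K => (a : GL C.Idx K)) h1
  have h3 := h2.trans (hΦ.val _)
  exact h3

end Pool.Agent.H86.UM
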