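import Pool.Agent.H86.UM.ZL
import Pool.Agent.H86.UM.Z4n
import Pool.Agent.H86.UM.ImN

/-!
# Project UM, Suzuki-Ree groups, module ZM: the `σ'`-stable chamber and the images of the simple root groups

`Ψ : Esr D σ → Esr D σ'` injective, `Ψ₁ x = (Ψ x : GL)`. `sr_stage_sig`: `sr_stage_GF` gives `g ∈ GF D K`. Let
`y = g⁻¹ σ' g ∈ GF D K`. For `u ∈ S.U`: `y⁻¹ (g⁻¹ Ψ u g) y = σ'(g)⁻¹ Ψ u σ'(g) = σ'(g⁻¹ Ψ u g)` (`σ' (Ψ u) = Ψ u`:
`Esr_le_Fx`), upper triangular (`sig_Fil`, the element is in `GF D K`), and for `x ∈ S.T` it is in the torus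
(`sig_FT`). `torus_of_Tgt`: `y ∈ T`. `sig_chamber_SR` (for `σ'`): `g₁ ∈ Esr D σ'`, `b = g₁⁻¹ g` upper
triangular, `b = u t` (`B_split`), `σ' b = b y`, so `u⁻¹ σ'(u) = t y σ'(t)⁻¹ ∈ FT ∩ FU = 1` (`FT_FU`; `sig_FU`,
`sig_FT`), `σ' u = u`, `g₂ = g₁ u ∈ Esr D σ'`, `g = g₂ t`, `cj Ψ₁ g₂ x = t (cj Ψ₁ g x) t⁻¹`. Conjugation with
a torus element preserves `Tgt` (`xi_conj`, `T_conj_U`), images in `T`, `Fib` (`EX1.lean` has this argument).
`fib (t0 j) = fib j`: for `x ∈ S.X J` the element `y = cj Ψ₁ g₂ x` is in `FU D K`, fixed by `σ'`, so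
`ξ_(t0 j)(y) = th (ξ_j y)` (`sig_xi`), nonzero if `ξ_j y ≠ 0`; `Fib.ne`, `Fib.zero`.

`sr_exact`: `fib` is constant on the classes of nodes, so it induces `TOrb → TOrb`, surjective, hence bijective; `π` its
inverse. Let `i, i'` with `mk i' = π (mk i)`, `J = mk i`, so `{j | fib j = J}` is the class of `i'`.
Positive part: `exists_semiregular'` for `J` and `image_pos`: `cj Ψ₁ g x = lp posList y`, `y β ≠ 0 → Pos β` and `β`
supported on the class of `i'`, so it is in `UR (RJ i')` (`RJ_congr`; a product of root elements), in `FR (RJ i')`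
(`UR_fix`, `RJ_closed`), and fixed by `σ'`: in `XJ i'`. Negative part: `image_neg`: for `x ∈ S.X J`:
`cj Ψ₁ g (ν x ν⁻¹) = ν' lp(y) ν'⁻¹` is a product of root elements for the roots `w β`, negative and supported on the
class of `i'`, so in `UR {β | -β ∈ RJ i'}`; `UR_fix_neg`. Every element of `XmJ i` is `ν x ν⁻¹` with `x ∈ XJ i` (`nu_XJ`,
`nuS_spec`).
-/

set_option autoImplicit false
open Matrix

namespace Pool.Agent.H86.UM

open Pool.Agent.H75.UL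

/-- conjugation of the target with an element of the torus -/
private theorem ZM_conj {n : ℕ} {C : SLC n} {ι : Type} {E : Type*} [Group E] {k : Type*} [Field k]
    (S : Src ι E k) {K : Type*} [Field K] (Φ Φ' : E →* GL C.Idx K) (τ : GL C.Idx K)
    (hτ : τ ∈ (C.adS K).T) (hc : ∀ x, Φ' x = τ * Φ x * τ⁻¹) (hT : Tgt C S Φ)
    (hTT : ∀ h ∈ S.T, Φ h ∈ (C.adS K).T) (fib : Fin n → ι) (hf : Fib C S Φ fib) :
    Tgt C S Φ' ∧ (∀ h ∈ S.T, Φ' h ∈ (C.adS K).T) ∧ Fib C S Φ' fib := by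
  have hτG : τ ∈ C.Gad K := by
    rw [← C.gen_adS]
    exact (C.adS K).T_le_gen hτ
  have hτ0 := C.Fil_T τ hτ
  have hcjT : ∀ x ∈ S.T, Φ' x = Φ x := by
    intro x hx
    rw [hc, (C.adS K).T_comm τ _ hτ (hTT x hx)]
    group
  have hxi : ∀ x ∈ S.U, ∀ j, C.xi j (Φ' x : Matrix C.Idx C.Idx K) =
      C.chi (τ : Matrix C.Idx C.Idx K) (C.simple j) *
        C.xi j (Φ x : Matrix C.Idx C.Idx K) := by
    intro x hx j
    rw [hc]
    exact (C.xi_conj τ (Φ x) hτG hτ0 (hT.U_le x hx) j).2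
  have hxine : ∀ x ∈ S.U, ∀ j, C.xi j (Φ x : Matrix C.Idx C.Idx K) ≠ 0 →
      C.xi j (Φ' x : Matrix C.Idx C.Idx K) ≠ 0 := by
    intro x hx j h
    rw [hxi x hx j]
    exact mul_ne_zero (C.chi_ne_zero τ hτG hτ0 _) h
  refine ⟨⟨?_, ?_, ?_, ?_, ?_⟩, ?_, ⟨hf.surj, ?_, ?_, ?_, ?_⟩⟩
  · intro x
    rw [hc]
    exact mul_mem (mul_mem hτG (hT.mem x)) (inv_mem hτG)
  · intro x hx
    rw [hc]
    exact (C.adS K).T_conj_U 1 τ _ hτ (hT.U_le x hx)
  · intro x hx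
    rw [hcjT x hx]
    exact hT.T_le x hx
  · intro j
    obtain ⟨J, x, hx, h⟩ := hT.nonvan j
    exact ⟨J, x, hx, hxine x (S.X_le J hx) j h⟩
  · intro J
    obtain ⟨j, x, hx, h⟩ := hT.occ J
    exact ⟨j, x, hx, hxine x (S.X_le J hx) j h⟩
  · intro x hx
    rw [hcjT x hx]
    exact hTT x hx
  · intro j
    obtain ⟨x, hx, h⟩ := hf.ne j
    exact ⟨x, hx, hxine x (S.X_le _ hx) j h⟩
  · intro j J hJ x hx
    rw [hxi x (S.X_le _ hx) j, hf.zero j J hJ x hx, mul_zero]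
  · intro j h hh ha
    rw [hcjT h hh]
    exact hf.chi_one j h hh ha
  · intro j
    obtain ⟨Φ₁, h1, h2, h3, h4⟩ := hf.poly j
    refine ⟨Φ₁, h1, h2, ?_, h4⟩
    intro h hh s hs ha
    rw [hcjT h hh]
    exact h3 h hh s hs ha

variable {n : ℕ} {C : SLC n} {D : Dg C} {t0 : Fin n → Fin n} (hS : Swap D t0) (hn : 0 < n)
  {k : Type*} [Field k] [Infinite k] {θ : k ≃+* k} {σ : GF D k →* GF D k}
  (h : SRs D t0 θ σ) {N : ℕ} (hJ : JHyp hS σ N) {c : ℕ} (hw : WordS hS σ c)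
  {K : Type*} [Field K] [Infinite K] {θ' : K ≃+* K} {σ' : GF D K →* GF D K}
  (h' : SRs D t0 θ' σ') (hne' : ∀ i, ∃ y ∈ XmJ hS.na t0 σ' i, y ≠ 1)
  (hL : NVp D (AlgebraicClosure K) c) (Ψ : Esr D σ →* Esr D σ')
  (hinj : Function.Injective Ψ)

/-- the inclusion into the matrix group -/
noncomputable def inclE (σ' : GF D K →* GF D K) : Esr D σ' →* GL C.Idx K :=
  (GF D K).subtype.comp (Esr D σ').subtype

private theorem ZM_lp {n : ℕ} {C : SLC n} {K : Type*} [Field K] (A : Subgroup (GL C.Idx K))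
    (y : C.Root → K) (hy : ∀ β, y β ≠ 0 → C.xg K β (y β) ∈ A) :
    (C.adS K).lp C.posList y ∈ A := by
  unfold StSys.lp
  apply Subgroup.list_prod_mem
  intro x hx
  rw [List.mem_map] at hx
  obtain ⟨β, -, rfl⟩ := hx
  by_cases h0 : y β = 0
  · rw [h0, (C.adS K).x_zero]
    exact one_mem _
  · exact hy β h0

include hn hw h' hne' hL hinj

theorem sr_stage_sig : ∃ g : Esr D σ',
    Tgt C (srcSR hS h hJ) (cj ((inclE σ').comp Ψ) (inclE σ' g)) ∧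
      (∀ x ∈ (srcSR hS h hJ).T, cj ((inclE σ').comp Ψ) (inclE σ' g) x ∈ (C.adS K).T) ∧
      ∃ fib : Fin n → TOrb hS,
        Fib C (srcSR hS h hJ) (cj ((inclE σ').comp Ψ) (inclE σ' g)) fib ∧
        (∀ i j, JJ D t0 i j → fib i = fib j) := by
  have hN := hS.na
  have : CharP K D.m := h'.chr
  obtain ⟨S, hSdef⟩ : ∃ S, S = srcSR hS h hJ := ⟨_, rfl⟩
  obtain ⟨Ψ₁, hΨ₁⟩ : ∃ Ψ₁, Ψ₁ = (inclE σ').comp Ψ := ⟨_, rfl⟩
  have hΨval : ∀ x, Ψ₁ x = (((Ψ x : Esr D σ') : GF D K) : GL C.Idx K) := by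
    intro x
    rw [hΨ₁]
    rfl
  obtain ⟨g₀, hg₀, hT, hTT, fib, hf, hfρ, hsgl⟩ := sr_stage_GF hS hn h hJ hw hL Ψ₁
    (fun x => by rw [hΨval]; exact ((Ψ x : Esr D σ') : GF D K).2)
    (by
      intro x y hxy
      rw [hΨval, hΨval] at hxy
      exact hinj (Subtype.ext (Subtype.ext hxy)))
  rw [← hSdef] at hT hTT hf
  rw [← hSdef, ← hΨ₁]
  obtain ⟨G, hG⟩ : ∃ G : GF D K, (G : GL C.Idx K) = g₀ := ⟨⟨g₀, hg₀⟩, rfl⟩
  have hfix : ∀ x : Esr D σ', σ' (x : GF D K) = x := fun x => Esr_le_Fx x.2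
  -- the element of the folded group with matrix `cj Ψ₁ g₀ x`
  have hz : ∀ x, (((G⁻¹ * ((Ψ x : Esr D σ') : GF D K) * G : GF D K)) : GL C.Idx K) =
      cj Ψ₁ g₀ x := by
    intro x
    rw [cj_apply, hΨval, Subgroup.coe_mul, Subgroup.coe_mul, Subgroup.coe_inv, hG]
  obtain ⟨y, hy⟩ : ∃ y : GF D K, y = G⁻¹ * σ' G := ⟨_, rfl⟩
  have hconj : ∀ x, (y : GL C.Idx K)⁻¹ * cj Ψ₁ g₀ x * (y : GL C.Idx K) =
      ((σ' (G⁻¹ * ((Ψ x : Esr D σ') : GF D K) * G) : GF D K) : GL C.Idx K) := by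
    intro x
    rw [← hz, ← Subgroup.coe_inv, ← Subgroup.coe_mul, ← Subgroup.coe_mul]
    apply congrArg
    rw [map_mul, map_mul, map_inv, hfix, hy]
    group
  have hyT : (y : GL C.Idx K) ∈ (C.adS K).T := by
    refine torus_of_Tgt C S (cj Ψ₁ g₀) hT hTT fib hf _ (mem_GF_fix hN _ y.2).2 ?_ ?_
    · intro u hu
      rw [hconj]
      refine (sig_Fil hS h' _).2 ?_
      rw [hz]
      exact C.Fil_U_zero _ (hT.U_le u hu)
    · intro x hx
      rw [hconj]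
      have h1 : (G⁻¹ * ((Ψ x : Esr D σ') : GF D K) * G : GF D K) ∈ FT D K := by
        change ((G⁻¹ * ((Ψ x : Esr D σ') : GF D K) * G : GF D K) : GL C.Idx K) ∈ (C.adS K).T
        rw [hz]
        exact hTT x hx
      exact (sig_FT hS h' _).2 h1
  have hyFT : y ∈ FT D K := hyT
  have hσG : σ' G = G * y := by
    rw [hy]
    group
  obtain ⟨g₁, hg₁, hb⟩ := sig_chamber_SR hS h' hne' G y hσG (C.Fil_T _ hyT)
  obtain ⟨-, t, ht, u, hu, hut⟩ := B_split hN _ hb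
  have hGe : G = g₁ * u * t := by
    rw [mul_assoc, ← hut]
    group
  have hσg₁ : σ' g₁ = g₁ := hfix ⟨g₁, hg₁⟩
  have hσu : σ' u = u := by
    have h1 := hσG
    rw [hGe, map_mul, map_mul, hσg₁] at h1
    have h2 : u⁻¹ * σ' u = t * y * (σ' t)⁻¹ := by
      have h3 : u⁻¹ * σ' u = u⁻¹ * g₁⁻¹ * (g₁ * σ' u * σ' t) * (σ' t)⁻¹ := by group
      rw [h3, h1]
      group
    have h4 : u⁻¹ * σ' u ∈ FT D K := by
      rw [h2]
      exact mul_mem (mul_mem ht hyFT) (inv_mem ((sig_FT hS h' _).2 ht))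
    have h5 : u⁻¹ * σ' u ∈ FU D K := mul_mem (inv_mem hu) ((sig_FU hS h' _).2 hu)
    have h6 := FT_FU hN _ h4 h5
    exact (inv_mul_eq_one.1 h6).symm
  have hg₂ : g₁ * u ∈ Esr D σ' :=
    mul_mem hg₁ ((le_sup_left : FU D K ⊓ Fx σ' ≤ Esr D σ') ⟨hu, hσu⟩)
  have hincl : (inclE σ' ⟨g₁ * u, hg₂⟩ : GL C.Idx K) = ((g₁ * u : GF D K) : GL C.Idx K) := rfl
  have hcj : ∀ x, cj Ψ₁ (inclE σ' ⟨g₁ * u, hg₂⟩) x =
      (t : GL C.Idx K) * cj Ψ₁ g₀ x * (t : GL C.Idx K)⁻¹ := by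
    intro x
    rw [cj_apply, cj_apply, hincl, ← hG, hGe, Subgroup.coe_mul (GF D K) (g₁ * u) t]
    group
  obtain ⟨hT', hTT', hf'⟩ := ZM_conj S (cj Ψ₁ g₀) (cj Ψ₁ (inclE σ' ⟨g₁ * u, hg₂⟩))
    (t : GL C.Idx K) ht hcj hT hTT fib hf
  refine ⟨⟨g₁ * u, hg₂⟩, hT', hTT', fib, hf', ?_⟩
  have hρ : ∀ i j, D.ρ.SameCycle i j → fib i = fib j := by
    intro i j hij
    obtain ⟨q, -, h2⟩ := hij.exists_pow_eq'
    rw [← h2]
    clear h2
    induction q with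
    | zero => rfl
    | succ q ih => rw [pow_succ', Equiv.Perm.mul_apply, hfρ, ih]
  have ht0 : ∀ j, fib (t0 j) = fib j := by
    intro j
    obtain ⟨x, hx, h1⟩ := hf'.ne j
    by_contra hne
    have h2 := hf'.zero (t0 j) (fib j) (fun h => hne h.symm) x hx
    obtain ⟨w, hwdef⟩ : ∃ w : Esr D σ', w = (⟨g₁ * u, hg₂⟩ : Esr D σ')⁻¹ * Ψ x * ⟨g₁ * u, hg₂⟩ :=
      ⟨_, rfl⟩
    have hwv : ((w : GF D K) : GL C.Idx K) = cj Ψ₁ (inclE σ' ⟨g₁ * u, hg₂⟩) x := by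
      rw [cj_apply, hwdef, hΨval]
      rfl
    have hwU : (w : GF D K) ∈ FU D K := by
      change ((w : GF D K) : GL C.Idx K) ∈ fixU (C.adS K) (D.sgl (RingEquiv.refl K))
      refine ⟨?_, (mem_GF_fix hN _ (w : GF D K).2).1⟩
      rw [hwv]
      exact hT'.U_le x (S.X_le _ hx)
    have h3 := sig_xi hS h' (w : GF D K) hwU j
    rw [hfix w, hwv, h2] at h3
    have h4 : th D θ' (C.simple j) (C.xi j (cj Ψ₁ (inclE σ' ⟨g₁ * u, hg₂⟩) x :
        Matrix C.Idx C.Idx K)) ≠ 0 := by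
      unfold th
      split_ifs
      · exact (map_ne_zero θ'.symm).mpr h1
      · exact (map_ne_zero θ').mpr h1
    exact h4 h3.symm
  intro i j hij
  rcases hij with h1 | h1
  · exact hρ i j h1
  · rw [← ht0 i]
    exact hρ _ _ h1

include h hJ in
theorem sr_exact : ∃ (g : Esr D σ') (π : Equiv.Perm (TOrb hS)),
    (∀ i i' : Fin n, (Quotient.mk (tset hS) i' : TOrb hS) = π (Quotient.mk (tset hS) i) →
      (∀ x : Esr D σ, (x : GF D k) ∈ XJ hS.na t0 σ i →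
        ((g⁻¹ * Ψ x * g : Esr D σ') : GF D K) ∈ XJ hS.na t0 σ' i') ∧
      ∀ x : Esr D σ, (x : GF D k) ∈ XmJ hS.na t0 σ i →
        ((g⁻¹ * Ψ x * g : Esr D σ') : GF D K) ∈ XmJ hS.na t0 σ' i') ∧
    ∀ x : Esr D σ, (x : GF D k) ∈ FT D k →
      ((g⁻¹ * Ψ x * g : Esr D σ') : GF D K) ∈ FT D K := by
  classical
  obtain ⟨g, hT, hTT, fib, hf, hfib⟩ := sr_stage_sig hS hn h hJ hw h' hne' hL Ψ hinj
  have hN := hS.na
  have hfix : ∀ x : Esr D σ', ((x : Esr D σ') : GF D K) ∈ Fx σ' := fun x => Esr_le_Fx x.2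
  have hval : ∀ x : Esr D σ, (((g⁻¹ * Ψ x * g : Esr D σ') : GF D K) : GL C.Idx K) =
      cj ((inclE σ').comp Ψ) (inclE σ' g) x := by
    intro x
    rw [cj_apply]
    rfl
  let F : TOrb hS → TOrb hS := Quotient.lift fib hfib
  have hFmk : ∀ j, F (Quotient.mk (tset hS) j) = fib j := fun j => rfl
  have hFs : Function.Surjective F := by
    intro J
    obtain ⟨j, hj⟩ := hf.surj J
    exact ⟨Quotient.mk (tset hS) j, hj⟩
  have hFin : Finite (TOrb hS) := inferInstance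
  have hFb : Function.Bijective F := ⟨Finite.injective_iff_surjective.mpr hFs, hFs⟩
  refine ⟨g, (Equiv.ofBijective F hFb).symm, ?_, ?_⟩
  · intro i i' hii
    obtain ⟨J, hJdef⟩ : ∃ J : TOrb hS, J = Quotient.mk (tset hS) i := ⟨_, rfl⟩
    have hfi : fib i' = J := by
      rw [← hFmk i', hii, hJdef]
      exact (Equiv.ofBijective F hFb).apply_symm_apply _
    have hcls : ∀ j, fib j = J → JJ D t0 i' j := by
      intro j hj
      have h1 : F (Quotient.mk (tset hS) i') = F (Quotient.mk (tset hS) j) := by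
        rw [hFmk, hFmk, hj, hfi]
      have h2 : (Quotient.mk (tset hS) i' : TOrb hS) = Quotient.mk (tset hS) j := hFb.1 h1
      exact Quotient.exact h2
    have hRJ : ∀ β : C.Root, C.Pos β → (∀ j, fib j ≠ J → β.1 j = 0) → β ∈ RJ D t0 i' := by
      intro β hβ h1
      refine ⟨hβ, fun j hj => hcls j ?_⟩
      by_contra h2
      exact hj (h1 j h2)
    have hsi : JJ D t0 (srep hS J) i := ((srep_spec hS J).2.2 i).1 hJdef.symm
    have hXc := XJ_congr hS (σ := σ) (srep hS J) i hsi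
    obtain ⟨hcl1, -, hcl3, -⟩ := RJ_closed (t0 := t0) (D := D) i'
    constructor
    · intro x hx
      have hxX : x ∈ (srcSR hS h hJ).X J := by
        change (x : GF D k) ∈ XJ hS.na t0 σ (srep hS J)
        rw [hXc.1]
        exact hx
      obtain ⟨t, ht, ht1, hsemi⟩ := exists_semiregular' C _ _ hT fib hf J
      obtain ⟨y, hy1, hy2⟩ := image_pos C _ _ hT fib hTT J t ht ht1 hsemi x hxX
      refine ⟨?_, hfix _⟩
      refine (UR_fix hN hcl1 hcl3 _).1 ?_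
      rw [hval, hy1]
      apply ZM_lp
      intro β hβ
      exact Subgroup.subset_closure ⟨β, hRJ β (hy2 β hβ).1 (hy2 β hβ).2, y β, rfl⟩
    · intro x hx
      obtain ⟨ν', -, w, -, hact, hw2, hx'⟩ := image_neg C _ _ hT fib hf hTT J
      obtain ⟨ν, hνdef⟩ : ∃ ν, ν = (srcSR hS h hJ).ν J := ⟨_, rfl⟩
      have hνval : (ν : GF D k) = nuS hS h hJ (srep hS J) := by
        rw [hνdef]
        rfl
      have hx1 : ν⁻¹ * x * ν ∈ (srcSR hS h hJ).X J := by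
        change ((ν⁻¹ * x * ν : Esr D σ) : GF D k) ∈ XJ hS.na t0 σ (srep hS J)
        obtain ⟨h1, h2, h3, w1, hw1, hI, ha⟩ := nuS_spec hS h hJ (srep hS J)
        refine (nu_XJ hS h (srep hS J) (ν : GF D k) (by rw [hνval]; exact h1)
          (by rw [hνval]; exact h3) w1 hw1 hI (by rw [hνval]; exact ha) _).1.2 ?_
        have e1 : (ν : GF D k) * ((ν⁻¹ * x * ν : Esr D σ) : GF D k) * (ν : GF D k)⁻¹ = x := by
          rw [Subgroup.coe_mul, Subgroup.coe_mul, Subgroup.coe_inv]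
          group
        rw [e1, hXc.2]
        exact hx
      obtain ⟨y, hy1, hy2⟩ := hx' _ hx1
      have e2 : (srcSR hS h hJ).ν J * (ν⁻¹ * x * ν) * ((srcSR hS h hJ).ν J)⁻¹ = x := by
        rw [hνdef]
        group
      rw [e2] at hy1
      refine ⟨?_, hfix _⟩
      refine (UR_fix_neg hN hcl1 hcl3 _).1 ?_
      rw [hval, hy1]
      have h5 : (C.adS K).lp C.posList y ∈
          (UR C K {β | -β ∈ RJ D t0 i'}).comap (MulAut.conj ν').toMonoidHom := by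
        apply ZM_lp
        intro β hβ
        change ν' * C.xg K β (y β) * ν'⁻¹ ∈ UR C K {β | -β ∈ RJ D t0 i'}
        obtain ⟨cc, -, hcc⟩ := hact
        have h6 := hcc β (y β)
        rw [SLC.adS_x] at h6
        rw [h6]
        refine Subgroup.subset_closure ⟨w β, ?_, _, rfl⟩
        obtain ⟨h7, h8⟩ := hw2 β (hy2 β hβ).1 (hy2 β hβ).2
        refine hRJ (-(w β)) ((C.not_pos_iff _).1 h7) fun j hj => ?_
        rw [SLC.Root.neg_val, Pi.neg_apply, h8 j hj, neg_zero]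
      exact h5
  · intro x hx
    change (((g⁻¹ * Ψ x * g : Esr D σ') : GF D K) : GL C.Idx K) ∈ (C.adS K).T
    rw [hval]
    exact hTT x hx

end Pool.Agent.H86.UM
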