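import Pool.Agent.H86.UM.ZF1
import Pool.Agent.H86.UM.Z12
import Pool.Agent.H86.UM.ZM

/-!
# Project UM, Suzuki-Ree groups, module ZF3: `E₆`

`chi_block_E6`: let `V` be spanned by the basis vectors with the indices `inr α₂`, `inr (α₀ + α₂)`. Say `P g` for a
matrix `g` if `g a b = 0` for `b ∈ V`, `a ∉ V` and the `2 × 2` block on `V` has determinant `1`. `P` is multiplicative.
It holds for `x_(± α₀)(t)` (block unitriangular), `x_(± α₅)(t)`, `x_(± α₁)(t)` (block `1`): the columns of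
`X β t = 1 + t E_β + t ^ 2 F_β` at `inr γ` are supported on `γ`, `γ + β`, `γ + 2 β` (`E`, `F` of Base.lean / Defs.lean), and
`α₂ ± α₅`, `α₂ ± α₁`, `α₀ + α₂ ± α₅`, `α₀ + α₂ ± α₁`, `α₂ - α₀`, `2 α₀ + α₂` are not roots (inner products `0`:
`ip β γ = 0` implies that `β + γ`, `β - γ` are not roots in the simply laced case).
The elements of `XJ 0`, `XmJ 0` are products of these (`XJ_orth`, `XmJ_orth` with `i = 0`, `tE6 0 = 1`,
`cE6.A 0 1 = 0`; `yg (± α₀) t = x_(± α₀)(t) x_(± α₅)(± t)`, `yg_long`). The set `{g | g ∈ XJ 0 ∨ g ∈ XmJ 0}` is closed under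
inverses, so each element of the closure is a product of elements of the set (`Subgroup.closure_toSubmonoid` or
`Subgroup.exists_list_of_mem_closure`). For `x ∈ FT` (diagonal, `T_diag`): the determinant of the block is
`χ_(α₂) χ_(α₀+α₂) = χ_2 ^ 2 χ_0` (`chi_prod` or `chi` additive).

`phi_eq_E6`: let `t ≠ 0`, `x` from `hz_spec` (`x ∈ Esr`: it is in the group generated by `XJ 0`, `XmJ 0`), `y = Ψ x`, in
`FT` (`PinS.tor`) and in the group generated by `XJ' 0`, `XmJ' 0` (`PinS.pos, neg`, map of a closure).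
`χ_0(x) = t ^ 2`, `χ_2(x) = t⁻¹` (`ip α₀ α₀ = 2`, `ip α₅ α₀ = 0`, `ip α₁ α₀ = 0`, `ip α₀ α₂ = -1`, others `0`).
For `x₁ ∈ XJ 0` with `ξ_0 x₁ = 1` (`JHyp.onto`): `ξ_0(x x₁ x⁻¹) = χ_0(x) ξ_0(x₁)` (`yg_T`, `xi_yg`, or `xi` of a
conjugate with a diagonal matrix), the same over `K`, so by `JR.coord` `χ_0(y) * c₀ * φ₀ 1 = c₀ * φ₀ (t ^ 2)`:
`χ_0(y) = φ₀ t ^ 2`; `χ_2(y) = φ₂ (t⁻¹)`. `chi_block_E6`: `(φ₂ t)⁻¹ ^ 2 * φ₀ t ^ 2 = 1`, so `φ₀ t ^ 2 = φ₂ t ^ 2`,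
`φ₀ t = φ₂ t` (characteristic `2`).

`pi_E6`: `TOrb` has two elements `mk 0`, `mk 2`. If `π (mk 2) = mk 0` then `XJ 2` is mapped into `XJ' 0`
(take `i = 2`, `i' = 0`), which is commutative (`XJ_orth`, `orth_comm`, `yg_add`), so by injectivity `XJ 2` is commutative.
But `B2x t v * B2x t' v' = B2x (t + t') (v + v' + t' θ t)` (`B2_roots` with `i = 2`, `tE6 2 = 3`, `cE6.A 2 3 = -1`,
`B2_inst`, `B2_mul`, `B2_fix`): `t' θ t = t θ t'` for all `t, t'` gives (`t' = 1`) `θ t = t`, so `t ^ 2 = θ (θ t) = t` for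
all `t`, impossible (`k` infinite). So `π (mk 2) = mk 2`, `π (mk 0) = mk 0`.
-/

set_option autoImplicit false
open Matrix

namespace Pool.Agent.H86.UM

open Pool.Agent.H75.UL

/-- the block condition for a matrix -/
private def ZF3_P {ι : Type*} {K : Type*} [CommRing K] (p q : ι) (g : Matrix ι ι K) : Prop :=
  (∀ a, a ≠ p → a ≠ q → g a p = 0 ∧ g a q = 0) ∧ g p p * g q q - g p q * g q p = 1

private theorem ZF3_P_mul {ι : Type*} [Fintype ι] [DecidableEq ι] {K : Type*} [CommRing K]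
    (p q : ι) (hpq : p ≠ q) (g h : Matrix ι ι K) (hg : ZF3_P p q g) (hh : ZF3_P p q h) :
    ZF3_P p q (g * h) := by
  have e : ∀ a b, (b = p ∨ b = q) → (g * h) a b = g a p * h p b + g a q * h q b := by
    intro a b hb
    rw [Matrix.mul_apply]
    refine Fintype.sum_eq_add p q hpq ?_
    rintro c ⟨h1, h2⟩
    rcases hb with hb | hb
    · rw [hb, (hh.1 c h1 h2).1, mul_zero]
    · rw [hb, (hh.1 c h1 h2).2, mul_zero]
  refine ⟨fun a h1 h2 => ⟨?_, ?_⟩, ?_⟩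
  · rw [e a p (Or.inl rfl), (hg.1 a h1 h2).1, (hg.1 a h1 h2).2]
    ring
  · rw [e a q (Or.inr rfl), (hg.1 a h1 h2).1, (hg.1 a h1 h2).2]
    ring
  · rw [e p p (Or.inl rfl), e q q (Or.inr rfl), e p q (Or.inr rfl), e q p (Or.inl rfl)]
    linear_combination (h p p * h q q - h p q * h q p) * hg.2 + hh.2

private theorem ZF3_P_one {ι : Type*} [Fintype ι] [DecidableEq ι] {K : Type*} [CommRing K]
    (p q : ι) (hpq : p ≠ q) : ZF3_P p q (1 : Matrix ι ι K) := by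
  refine ⟨fun a h1 h2 => ⟨Matrix.one_apply_ne h1, Matrix.one_apply_ne h2⟩, ?_⟩
  rw [Matrix.one_apply_eq, Matrix.one_apply_eq, Matrix.one_apply_ne hpq]
  ring

private theorem ZF3_P_symm {ι : Type*} {K : Type*} [CommRing K] (p q : ι) (g : Matrix ι ι K)
    (hg : ZF3_P p q g) : ZF3_P q p g := by
  refine ⟨fun a h1 h2 => ⟨(hg.1 a h2 h1).2, (hg.1 a h2 h1).1⟩, ?_⟩
  linear_combination hg.2

/-- the subgroup of the matrices with the block condition -/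
private def ZF3_H {ι : Type*} [Fintype ι] [DecidableEq ι] {K : Type*} [CommRing K]
    (p q : ι) (hpq : p ≠ q) : Subgroup (GL ι K) where
  carrier := {g | ZF3_P p q (g : Matrix ι ι K) ∧ ZF3_P p q ((g⁻¹ : GL ι K) : Matrix ι ι K)}
  mul_mem' := by
    rintro g h ⟨h1, h2⟩ ⟨h3, h4⟩
    refine ⟨?_, ?_⟩
    · rw [Units.val_mul]
      exact ZF3_P_mul p q hpq _ _ h1 h3
    · rw [_root_.mul_inv_rev, Units.val_mul]
      exact ZF3_P_mul p q hpq _ _ h4 h2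
  one_mem' := by
    refine ⟨?_, ?_⟩
    · rw [Units.val_one]
      exact ZF3_P_one p q hpq
    · rw [inv_one, Units.val_one]
      exact ZF3_P_one p q hpq
  inv_mem' := by
    rintro g ⟨h1, h2⟩
    exact ⟨h2, by rw [inv_inv]; exact h1⟩

private theorem ZF3_mem_H {ι : Type*} [Fintype ι] [DecidableEq ι] {K : Type*} [CommRing K]
    (p q : ι) (hpq : p ≠ q) (g : GL ι K) : g ∈ ZF3_H p q hpq ↔
      ZF3_P p q (g : Matrix ι ι K) ∧ ZF3_P p q ((g⁻¹ : GL ι K) : Matrix ι ι K) := Iff.rfl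

section
variable {n : ℕ} {C : SLC n} {K : Type*} [Field K]

private theorem ZF3_X_apply (β : C.Root) (u : K) (a b : C.Idx) :
    C.X K β u a b = (1 : Matrix C.Idx C.Idx K) a b + u * (C.E β a b : K) +
      u ^ 2 * (C.F β a b : K) := by
  simp [SLC.X, Matrix.add_apply, Matrix.smul_apply, Matrix.map_apply]

private theorem ZF3_X0 (β γ : C.Root) (u : K) (a : C.Idx) (h : 0 ≤ C.ip β.1 γ.1) :
    C.X K β u a (Sum.inr γ) = (1 : Matrix C.Idx C.Idx K) a (Sum.inr γ) := by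
  have h1 : γ.1 ≠ -β.1 := by
    intro h2
    rw [h2, C.ip_neg_right, β.2] at h
    omega
  have hE : C.E β a (Sum.inr γ) = 0 := by
    rcases a with i | δ
    · simp only [SLC.E]
      rw [if_neg h1]
    · simp only [SLC.E]
      rw [if_neg]
      intro h2
      have := C.ip_add_root β γ δ h2
      omega
  have hF : C.F β a (Sum.inr γ) = 0 := by
    rcases a with i | δ
    · rfl
    · simp only [SLC.F]
      rw [if_neg]
      intro h2
      exact h1 h2.2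
  rw [ZF3_X_apply, hE, hF]
  simp

private theorem ZF3_X1 (β γ δ : C.Root) (u : K) (a : C.Idx) (h : δ.1 = β.1 + γ.1)
    (ha : a ≠ Sum.inr δ) :
    C.X K β u a (Sum.inr γ) = (1 : Matrix C.Idx C.Idx K) a (Sum.inr γ) := by
  have h0 := C.ip_add_root β γ δ h
  have h1 : γ.1 ≠ -β.1 := by
    intro h2
    rw [h2, C.ip_neg_right, β.2] at h0
    omega
  have hE : C.E β a (Sum.inr γ) = 0 := by
    rcases a with i | δ'
    · simp only [SLC.E]
      rw [if_neg h1]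
    · simp only [SLC.E]
      rw [if_neg]
      intro h2
      apply ha
      congr 1
      exact SLC.Root.ext (h2.trans h.symm)
  have hF : C.F β a (Sum.inr γ) = 0 := by
    rcases a with i | δ'
    · rfl
    · simp only [SLC.F]
      rw [if_neg]
      intro h2
      exact h1 h2.2
  rw [ZF3_X_apply, hE, hF]
  simp

private theorem ZF3_PX0 (β γ₁ γ₂ : C.Root) (hne : (Sum.inr γ₁ : C.Idx) ≠ Sum.inr γ₂) (u : K)
    (h1 : 0 ≤ C.ip β.1 γ₁.1) (h2 : 0 ≤ C.ip β.1 γ₂.1) :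
    ZF3_P (Sum.inr γ₁ : C.Idx) (Sum.inr γ₂) (C.X K β u) := by
  refine ⟨fun a ha hb => ?_, ?_⟩
  · rw [ZF3_X0 β γ₁ u a h1, ZF3_X0 β γ₂ u a h2, Matrix.one_apply_ne ha, Matrix.one_apply_ne hb]
    exact ⟨rfl, rfl⟩
  · rw [ZF3_X0 β γ₁ u _ h1, ZF3_X0 β γ₂ u _ h2, ZF3_X0 β γ₁ u _ h1, ZF3_X0 β γ₂ u _ h2,
      Matrix.one_apply_eq, Matrix.one_apply_eq, Matrix.one_apply_ne hne]
    ring

private theorem ZF3_PX1 (β γ₁ γ₂ : C.Root) (hne : (Sum.inr γ₁ : C.Idx) ≠ Sum.inr γ₂) (u : K)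
    (h1 : γ₂.1 = β.1 + γ₁.1) (h2 : 0 ≤ C.ip β.1 γ₂.1) :
    ZF3_P (Sum.inr γ₁ : C.Idx) (Sum.inr γ₂) (C.X K β u) := by
  refine ⟨fun a ha hb => ?_, ?_⟩
  · rw [ZF3_X1 β γ₁ γ₂ u a h1 hb, ZF3_X0 β γ₂ u a h2, Matrix.one_apply_ne ha,
      Matrix.one_apply_ne hb]
    exact ⟨rfl, rfl⟩
  · rw [ZF3_X1 β γ₁ γ₂ u _ h1 hne, ZF3_X0 β γ₂ u _ h2, ZF3_X0 β γ₂ u _ h2,
      Matrix.one_apply_eq, Matrix.one_apply_eq, Matrix.one_apply_ne hne]
    ring

private theorem ZF3_xg (β : C.Root) (p q : C.Idx) (hpq : p ≠ q) (u : K)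
    (h : ∀ u : K, ZF3_P p q (C.X K β u)) : C.xg K β u ∈ ZF3_H p q hpq :=
  ⟨h u, h (-u)⟩

end

section
variable {n : ℕ} {C : SLC n} {D : Dg C} {t0 : Fin n → Fin n} (hS : Swap D t0)
  {k K : Type*} [Field k] [Infinite k] [Field K] [Infinite K] {θ : k ≃+* k} {θ' : K ≃+* K}
  {σ : GF D k →* GF D k} {σ' : GF D K →* GF D K}

private theorem ZF3_FR_conj (hN : D.NA) (g : GF D k) (hg : g ∈ FT D k) (R : Set C.Root)
    (x : GF D k) (hx : x ∈ FR hN k R) : g * x * g⁻¹ ∈ FR hN k R := by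
  have h2 : FR hN k R ≤ (FR hN k R).comap (MulAut.conj g).toMonoidHom := by
    conv_lhs => unfold FR
    rw [Subgroup.closure_le]
    rintro _ ⟨β, hβ, t, rfl⟩
    change g * yg hN β t * g⁻¹ ∈ FR hN k R
    rw [yg_T hN g hg]
    exact Subgroup.subset_closure ⟨β, hβ, _, rfl⟩
  exact h2 hx

private theorem ZF3_xi_conj (hN : D.NA) (g u : GF D k) (hg : g ∈ FT D k) (hu : u ∈ FU D k)
    (j : Fin n) : C.xi j (((g * u * g⁻¹ : GF D k) : GL C.Idx k) : Matrix C.Idx C.Idx k) =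
      C.chi ((g : GL C.Idx k) : Matrix C.Idx C.Idx k) (C.simple j) *
        C.xi j ((u : GL C.Idx k) : Matrix C.Idx C.Idx k) := by
  have hg' : (g : GL C.Idx k) ∈ (C.adS k).T := hg
  have hu' : (u : GL C.Idx k) ∈ (C.adS k).U 1 := Z10_FU_U u hu
  exact (C.xi_conj _ _ (mem_GF_fix hN _ g.2).2 (C.Fil_T _ hg') hu' j).2

private theorem ZF3_chi (i : Fin n) (hon : ∃ x ∈ XJ hS.na t0 σ i,
    C.xi i ((x : GL C.Idx k) : Matrix C.Idx C.Idx k) = 1) (Ψ : Esr D σ →* Esr D σ')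
    (hΨ : PinS hS Ψ) (c : K) (φ : k →+* K) (hR : JR hS θ θ' Ψ i c φ) (X : Esr D σ)
    (hX : (X : GF D k) ∈ FT D k) :
    C.chi ((((Ψ X : Esr D σ') : GF D K) : GL C.Idx K) : Matrix C.Idx C.Idx K) (C.simple i) =
      φ (C.chi (((X : GF D k) : GL C.Idx k) : Matrix C.Idx C.Idx k) (C.simple i)) := by
  obtain ⟨x₁, hx₁, h1⟩ := hon
  have hle : XJ hS.na t0 σ i ≤ Esr D σ := (XJ_le hS i).1.trans le_sup_left
  obtain ⟨X₁, hX₁⟩ : ∃ X₁ : Esr D σ, (X₁ : GF D k) = x₁ := ⟨⟨x₁, hle hx₁⟩, rfl⟩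
  rw [← hX₁] at hx₁ h1
  have hXfix : σ (X : GF D k) = X := Esr_le_Fx X.2
  have hXfix1 : σ (X₁ : GF D k) = X₁ := Esr_le_Fx X₁.2
  have hc : ((X * X₁ * X⁻¹ : Esr D σ) : GF D k) ∈ XJ hS.na t0 σ i := by
    refine ⟨ZF3_FR_conj hS.na _ hX _ _ hx₁.1, ?_⟩
    change σ ((X : GF D k) * X₁ * (X : GF D k)⁻¹) = (X : GF D k) * X₁ * (X : GF D k)⁻¹
    rw [map_mul, map_mul, map_inv, hXfix, hXfix1]
  have e0 := hR.coord _ hx₁
  rw [h1, map_one, mul_one] at e0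
  have e1 := hR.coord _ hc
  have e2 := ZF3_xi_conj hS.na ((Ψ X : Esr D σ') : GF D K) ((Ψ X₁ : Esr D σ') : GF D K)
    (hΨ.tor X hX) ((XJ_le hS i).1 (hΨ.pos i X₁ hx₁)).1 i
  have e3 := ZF3_xi_conj hS.na (X : GF D k) (X₁ : GF D k) hX ((XJ_le hS i).1 hx₁).1 i
  rw [h1, mul_one] at e3
  rw [e0] at e2
  have e4 : (((Ψ (X * X₁ * X⁻¹) : Esr D σ') : GF D K)) =
      ((Ψ X : Esr D σ') : GF D K) * ((Ψ X₁ : Esr D σ') : GF D K) *
        ((Ψ X : Esr D σ') : GF D K)⁻¹ := by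
    rw [map_mul, map_mul, map_inv]
    rfl
  rw [e4, e2] at e1
  have e5 : (((X * X₁ * X⁻¹ : Esr D σ) : GF D k)) =
      (X : GF D k) * (X₁ : GF D k) * (X : GF D k)⁻¹ := rfl
  rw [e5, e3, mul_comm] at e1
  exact mul_left_cancel₀ hR.c_ne e1

end

private theorem ZF3_iter {k : Type*} [Field k] (l : ℕ) (j : Fin 6) (t : k) :
    (dE6.sgl (RingEquiv.refl k))^[l] ((cE6.adS k).x (cE6.simple j) t) =
      (cE6.adS k).x (cE6.simple ((dE6.ρ ^ l) j)) t ∧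
    (dE6.sgl (RingEquiv.refl k))^[l] ((cE6.adS k).x (-(cE6.simple j)) t) =
      (cE6.adS k).x (-(cE6.simple ((dE6.ρ ^ l) j))) t := by
  have hs : IsSig dE6 (RingEquiv.refl k) (cE6.adS k) (dE6.sgl (RingEquiv.refl k)) :=
    isSig_adS dE6 _
  induction l with
  | zero => exact ⟨rfl, rfl⟩
  | succ l ih =>
    rw [Function.iterate_succ_apply', Function.iterate_succ_apply', ih.1, ih.2, hs, hs, dE6.r_neg,
      dE6.sg_neg, dE6.r_simple, dE6.sg_simple, pow_succ', Equiv.Perm.mul_apply]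
    simp

private theorem ZF3_r0 : dE6.r (cE6.simple 0) ≠ cE6.simple 0 := by
  rw [dE6.r_simple]
  intro h
  exact absurd (cE6.simple_injective h) (by decide)

private theorem ZF3_r1 : dE6.r (cE6.simple 1) = cE6.simple 1 := by
  rw [dE6.r_simple]
  rfl

private theorem ZF3_rn0 : dE6.r (-(cE6.simple 0)) ≠ -(cE6.simple 0) := by
  rw [dE6.r_neg]
  intro h
  apply ZF3_r0
  rw [← cE6.neg_neg_root (dE6.r (cE6.simple 0)), h, cE6.neg_neg_root]

private theorem ZF3_rn1 : dE6.r (-(cE6.simple 1)) = -(cE6.simple 1) := by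
  rw [dE6.r_neg, ZF3_r1]

private theorem ZF3_y0 {k : Type*} [Field k] (t : k) :
    ((yg swap_E6.na (cE6.simple 0) t : GF dE6 k) : GL cE6.Idx k) =
    cE6.xg k (cE6.simple 0) t * cE6.xg k (cE6.simple 5) t := by
  rw [yg_val]
  unfold yb mo
  rw [if_neg ZF3_r0, dE6_m]
  have h0 := (ZF3_iter (k := k) 0 0 t).1
  have h1 := (ZF3_iter (k := k) 1 0 t).1
  simp only [List.range_succ, List.range_zero, List.nil_append, List.map_append, List.map_cons,
    List.map_nil, List.prod_append, List.prod_cons, List.prod_nil, mul_one]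
  rw [h0, h1]
  rfl

private theorem ZF3_yn0 {k : Type*} [Field k] (t : k) :
    ((yg swap_E6.na (-(cE6.simple 0)) t : GF dE6 k) : GL cE6.Idx k) =
    cE6.xg k (-(cE6.simple 0)) t * cE6.xg k (-(cE6.simple 5)) t := by
  rw [yg_val]
  unfold yb mo
  rw [if_neg ZF3_rn0, dE6_m]
  have h0 := (ZF3_iter (k := k) 0 0 t).2
  have h1 := (ZF3_iter (k := k) 1 0 t).2
  simp only [List.range_succ, List.range_zero, List.nil_append, List.map_append, List.map_cons,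
    List.map_nil, List.prod_append, List.prod_cons, List.prod_nil, mul_one]
  rw [h0, h1]
  rfl

section
variable {K : Type*} [Field K] [Infinite K] {θ' : K ≃+* K} {σ' : GF dE6 K →* GF dE6 K}
  (h' : SRs dE6 tE6 θ' σ')

include h'

theorem chi_block_E6 (x : GF dE6 K) (hx : x ∈ Subgroup.closure
    {g : GF dE6 K | g ∈ XJ swap_E6.na tE6 σ' 0 ∨ g ∈ XmJ swap_E6.na tE6 σ' 0})
    (hT : x ∈ FT dE6 K) :
    cE6.chi ((x : GL cE6.Idx K) : Matrix cE6.Idx cE6.Idx K) (cE6.simple 2) ^ 2 *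
      cE6.chi ((x : GL cE6.Idx K) : Matrix cE6.Idx cE6.Idx K) (cE6.simple 0) = 1 := by
  have a02 : cE6.A 0 2 = -1 := by decide
  have a00 : cE6.A 0 0 = 2 := by decide
  have a52 : cE6.A 5 2 = 0 := by decide
  have a50 : cE6.A 5 0 = 0 := by decide
  have a12 : cE6.A 1 2 = 0 := by decide
  have a10 : cE6.A 1 0 = 0 := by decide
  obtain ⟨δ, hδ⟩ := cE6.exists_add (cE6.simple 0) (cE6.simple 2) (by
    rw [SLC.simple_val, SLC.simple_val, cE6.ip_single, a02])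
  have i02 : cE6.ip (cE6.simple 0).1 (cE6.simple 2).1 = -1 := by
    rw [SLC.simple_val, SLC.simple_val, cE6.ip_single, a02]
  have i00 : cE6.ip (cE6.simple 0).1 (cE6.simple 0).1 = 2 := by
    rw [SLC.simple_val, cE6.ip_single, a00]
  have i52 : cE6.ip (cE6.simple 5).1 (cE6.simple 2).1 = 0 := by
    rw [SLC.simple_val, SLC.simple_val, cE6.ip_single, a52]
  have i50 : cE6.ip (cE6.simple 5).1 (cE6.simple 0).1 = 0 := by
    rw [SLC.simple_val, SLC.simple_val, cE6.ip_single, a50]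
  have i12 : cE6.ip (cE6.simple 1).1 (cE6.simple 2).1 = 0 := by
    rw [SLC.simple_val, SLC.simple_val, cE6.ip_single, a12]
  have i10 : cE6.ip (cE6.simple 1).1 (cE6.simple 0).1 = 0 := by
    rw [SLC.simple_val, SLC.simple_val, cE6.ip_single, a10]
  have hpq : (Sum.inr (cE6.simple 2) : cE6.Idx) ≠ Sum.inr δ := by
    intro h1
    have h2 := congrArg SLC.Root.val (Sum.inr.inj h1)
    rw [hδ] at h2
    have h3 := congrFun h2 0
    rw [Pi.add_apply, SLC.simple_val, SLC.simple_val, Pi.single_eq_same,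
      Pi.single_eq_of_ne (by decide)] at h3
    omega
  -- the root elements
  have m0 : ∀ u : K, cE6.xg K (cE6.simple 0) u ∈ ZF3_H _ _ hpq := fun u =>
    ZF3_xg _ _ _ hpq u fun u => ZF3_PX1 _ _ _ hpq u hδ (by
      rw [hδ, cE6.ip_add_right, i00, i02]
      norm_num)
  have mn0 : ∀ u : K, cE6.xg K (-(cE6.simple 0)) u ∈ ZF3_H _ _ hpq := fun u =>
    ZF3_xg _ _ _ hpq u fun u => ZF3_P_symm _ _ _ (ZF3_PX1 _ _ _ hpq.symm u (by
      rw [SLC.Root.neg_val, hδ, neg_add_cancel_left]) (by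
      rw [SLC.Root.neg_val, cE6.ip_neg_left, i02]
      norm_num))
  have m5 : ∀ u : K, cE6.xg K (cE6.simple 5) u ∈ ZF3_H _ _ hpq := fun u =>
    ZF3_xg _ _ _ hpq u fun u => ZF3_PX0 _ _ _ hpq u i52.ge (by
      rw [hδ, cE6.ip_add_right, i50, i52]
      norm_num)
  have mn5 : ∀ u : K, cE6.xg K (-(cE6.simple 5)) u ∈ ZF3_H _ _ hpq := fun u =>
    ZF3_xg _ _ _ hpq u fun u => ZF3_PX0 _ _ _ hpq u (by
      rw [SLC.Root.neg_val, cE6.ip_neg_left, i52]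
      norm_num) (by
      rw [SLC.Root.neg_val, cE6.ip_neg_left, hδ, cE6.ip_add_right, i50, i52]
      norm_num)
  have m1 : ∀ u : K, cE6.xg K (cE6.simple 1) u ∈ ZF3_H _ _ hpq := fun u =>
    ZF3_xg _ _ _ hpq u fun u => ZF3_PX0 _ _ _ hpq u i12.ge (by
      rw [hδ, cE6.ip_add_right, i10, i12]
      norm_num)
  have mn1 : ∀ u : K, cE6.xg K (-(cE6.simple 1)) u ∈ ZF3_H _ _ hpq := fun u =>
    ZF3_xg _ _ _ hpq u fun u => ZF3_PX0 _ _ _ hpq u (by
      rw [SLC.Root.neg_val, cE6.ip_neg_left, i12]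
      norm_num) (by
      rw [SLC.Root.neg_val, cE6.ip_neg_left, hδ, cE6.ip_add_right, i10, i12]
      norm_num)
  have hle : Subgroup.closure
      {g : GF dE6 K | g ∈ XJ swap_E6.na tE6 σ' 0 ∨ g ∈ XmJ swap_E6.na tE6 σ' 0} ≤
      (ZF3_H _ _ hpq).comap (GF dE6 K).subtype := by
    rw [Subgroup.closure_le]
    rintro g (hg | hg)
    · obtain ⟨t, rfl⟩ := (XJ_orth swap_E6 h' 0 (by decide) (by decide) _).1 hg
      change ((yg swap_E6.na (cE6.simple 0) t * yg swap_E6.na (cE6.simple (tE6 0)) (θ' t) :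
        GF dE6 K) : GL cE6.Idx K) ∈ ZF3_H _ _ hpq
      rw [Subgroup.coe_mul, ZF3_y0]
      have e1 : ((yg swap_E6.na (cE6.simple (tE6 0)) (θ' t) : GF dE6 K) : GL cE6.Idx K) =
        cE6.xg K (cE6.simple 1) (θ' t) := yg_long swap_E6.na _ ZF3_r1 _
      rw [e1]
      exact mul_mem (mul_mem (m0 t) (m5 t)) (m1 _)
    · obtain ⟨t, rfl⟩ := (XmJ_orth swap_E6 h' 0 (by decide) (by decide) _).1 hg
      change ((yg swap_E6.na (-(cE6.simple 0)) t * yg swap_E6.na (-(cE6.simple (tE6 0))) (θ' t) :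
        GF dE6 K) : GL cE6.Idx K) ∈ ZF3_H _ _ hpq
      rw [Subgroup.coe_mul, ZF3_yn0]
      have e1 : ((yg swap_E6.na (-(cE6.simple (tE6 0))) (θ' t) : GF dE6 K) : GL cE6.Idx K) =
        cE6.xg K (-(cE6.simple 1)) (θ' t) := yg_long swap_E6.na _ ZF3_rn1 _
      rw [e1]
      exact mul_mem (mul_mem (mn0 t) (mn5 t)) (mn1 _)
  have hP : ZF3_P _ _ ((x : GL cE6.Idx K) : Matrix cE6.Idx cE6.Idx K) := (hle hx).1
  have hT' : (x : GL cE6.Idx K) ∈ (cE6.adS K).T := hT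
  obtain ⟨c, hc⟩ := cE6.T_diag _ hT'
  have hchi : ∀ γ : cE6.Root, cE6.chi ((x : GL cE6.Idx K) : Matrix cE6.Idx cE6.Idx K) γ =
      ((∏ j, c j ^ γ.1 j : Kˣ) : K) := by
    intro γ
    unfold SLC.chi
    rw [hc, Matrix.diagonal_apply_eq]
    rfl
  have hadd : cE6.chi ((x : GL cE6.Idx K) : Matrix cE6.Idx cE6.Idx K) δ =
      cE6.chi ((x : GL cE6.Idx K) : Matrix cE6.Idx cE6.Idx K) (cE6.simple 0) *
        cE6.chi ((x : GL cE6.Idx K) : Matrix cE6.Idx cE6.Idx K) (cE6.simple 2) := by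
    rw [hchi, hchi, hchi, ← Units.val_mul, ← Finset.prod_mul_distrib]
    congr 1
    refine Finset.prod_congr rfl fun j _ => ?_
    rw [← _root_.zpow_add, ← Pi.add_apply, ← hδ]
  have h2 := hP.2
  have h3 : ((x : GL cE6.Idx K) : Matrix cE6.Idx cE6.Idx K) (Sum.inr (cE6.simple 2))
      (Sum.inr δ) = 0 := by
    rw [hc]
    exact Matrix.diagonal_apply_ne _ hpq
  rw [h3, zero_mul, sub_zero] at h2
  change cE6.chi ((x : GL cE6.Idx K) : Matrix cE6.Idx cE6.Idx K) (cE6.simple 2) *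
    cE6.chi ((x : GL cE6.Idx K) : Matrix cE6.Idx cE6.Idx K) δ = 1 at h2
  rw [hadd] at h2
  rw [← h2]
  ring

end

variable {k K : Type*} [Field k] [Infinite k] [Field K]
  [Infinite K] {θ : k ≃+* k} {θ' : K ≃+* K} {σ : GF dE6 k →* GF dE6 k}
  {σ' : GF dE6 K →* GF dE6 K}
  (h : SRs dE6 tE6 θ σ) (h' : SRs dE6 tE6 θ' σ')
  (Ψ : Esr dE6 σ →* Esr dE6 σ')

include h h'

theorem phi_eq_E6 (hΨ : PinS swap_E6 Ψ) (c₀ c₂ : K) (φ₀ φ₂ : k →+* K)
    (h₀ : JR swap_E6 θ θ' Ψ 0 c₀ φ₀) (h₂ : JR swap_E6 θ θ' Ψ 2 c₂ φ₂) : φ₀ = φ₂ := by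
  have hch : CharP K 2 := dE6_m ▸ h'.chr
  apply RingHom.ext
  intro t
  by_cases ht : t = 0
  · rw [ht, map_zero, map_zero]
  obtain ⟨x, hx, hxT, hc⟩ := hz_spec h t ht
  have hG : Subgroup.closure {g : GF dE6 k | g ∈ XJ swap_E6.na tE6 σ 0 ∨
      g ∈ XmJ swap_E6.na tE6 σ 0} ≤ G0 swap_E6.na tE6 σ := by
    unfold G0
    exact Subgroup.closure_mono fun g hg => ⟨0, hg⟩
  obtain ⟨X, hX⟩ : ∃ X : Esr dE6 σ, (X : GF dE6 k) = x :=
    ⟨⟨x, G0_le_Esr swap_E6 (hG hx)⟩, rfl⟩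
  have hsub : Subgroup.closure {g : GF dE6 k | g ∈ XJ swap_E6.na tE6 σ 0 ∨
      g ∈ XmJ swap_E6.na tE6 σ 0} ≤ ((Subgroup.closure {g : GF dE6 K |
        g ∈ XJ swap_E6.na tE6 σ' 0 ∨ g ∈ XmJ swap_E6.na tE6 σ' 0}).comap
        ((Esr dE6 σ').subtype.comp Ψ)).map (Esr dE6 σ).subtype := by
    rw [Subgroup.closure_le]
    intro g hg
    refine ⟨⟨g, G0_le_Esr swap_E6 (hG (Subgroup.subset_closure hg))⟩, ?_, rfl⟩
    change ((Ψ ⟨g, _⟩ : Esr dE6 σ') : GF dE6 K) ∈ Subgroup.closure _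
    apply Subgroup.subset_closure
    rcases hg with hg | hg
    · exact Or.inl (hΨ.pos 0 _ hg)
    · exact Or.inr (hΨ.neg 0 _ hg)
  obtain ⟨z, hz1, hz2⟩ := hsub hx
  have hzX : z = X := Subtype.ext (hz2.trans hX.symm)
  rw [hzX] at hz1
  have hXT : (X : GF dE6 k) ∈ FT dE6 k := by
    rw [hX]
    exact hxT
  have hb := chi_block_E6 h' ((Ψ X : Esr dE6 σ') : GF dE6 K) hz1 (hΨ.tor X hXT)
  have hJ := jhyp_E6 h
  rw [ZF3_chi swap_E6 0 (hJ.onto 0 (by decide) 1) Ψ hΨ c₀ φ₀ h₀ X hXT,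
    ZF3_chi swap_E6 2 (hJ.onto 2 (by decide) 1) Ψ hΨ c₂ φ₂ h₂ X hXT, hX, hc, hc] at hb
  have e00 : cE6.A 0 0 = 2 := by decide
  have e50 : cE6.A 5 0 = 0 := by decide
  have e10 : cE6.A 1 0 = 0 := by decide
  have e02 : cE6.A 0 2 = -1 := by decide
  have e52 : cE6.A 5 2 = 0 := by decide
  have e12 : cE6.A 1 2 = 0 := by decide
  simp only [SLC.simple_val, SLC.ip_single] at hb
  rw [e00, e50, e10, e02, e52, e12, add_zero, add_zero, zpow_zero, mul_one, mul_one,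
    _root_.zpow_neg_one, map_inv₀] at hb
  have e1 : φ₀ (t ^ (2 : ℤ)) = φ₀ t ^ 2 := by
    rw [← map_pow]
    congr 1
    exact zpow_natCast t 2
  rw [e1] at hb
  have h2 : φ₂ t ≠ 0 := by simpa using ht
  have e2 : φ₀ t ^ 2 = φ₂ t ^ 2 := by
    field_simp at hb
    exact hb
  rcases sq_eq_sq_iff_eq_or_eq_neg.1 e2 with h3 | h3
  · exact h3
  · rw [h3, CharTwo.neg_eq]

theorem pi_E6 (hinj : Function.Injective Ψ) (π : Equiv.Perm (TOrb swap_E6))
    (hπ : ∀ i i' : Fin 6, (Quotient.mk (tset swap_E6) i' : TOrb swap_E6) =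
        π (Quotient.mk (tset swap_E6) i) →
      ∀ x : Esr dE6 σ, (x : GF dE6 k) ∈ XJ swap_E6.na tE6 σ i →
        ((Ψ x : Esr dE6 σ') : GF dE6 K) ∈ XJ swap_E6.na tE6 σ' i') : π = 1 := by
  have hch : CharP k 2 := dE6_m ▸ h.chr
  have hcov : ∀ i : Fin 6, JJ dE6 tE6 0 i ∨ JJ dE6 tE6 2 i := by
    unfold JJ
    decide
  have hcl : ∀ J : TOrb swap_E6, J = Quotient.mk (tset swap_E6) 0 ∨
      J = Quotient.mk (tset swap_E6) 2 := by
    intro J
    induction J using Quotient.inductionOn with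
    | h i =>
      rcases hcov i with h1 | h1
      · exact Or.inl (Quotient.sound h1).symm
      · exact Or.inr (Quotient.sound h1).symm
  have hcomm : ∀ x y : GF dE6 K, x ∈ XJ swap_E6.na tE6 σ' 0 → y ∈ XJ swap_E6.na tE6 σ' 0 →
      x * y = y * x := by
    intro x y hx hy
    obtain ⟨t, rfl⟩ := (XJ_orth swap_E6 h' 0 (by decide) (by decide) _).1 hx
    obtain ⟨s, rfl⟩ := (XJ_orth swap_E6 h' 0 (by decide) (by decide) _).1 hy
    have key : ∀ t s u v : K, yg swap_E6.na (cE6.simple 0) t *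
        yg swap_E6.na (cE6.simple (tE6 0)) u * (yg swap_E6.na (cE6.simple 0) s *
        yg swap_E6.na (cE6.simple (tE6 0)) v) = yg swap_E6.na (cE6.simple 0) (t + s) *
        yg swap_E6.na (cE6.simple (tE6 0)) (u + v) := by
      intro t s u v
      have h1 := (orth_comm swap_E6 0 (by decide) (by decide) s u).1
      rw [yg_add, yg_add, mul_assoc, ← mul_assoc (yg swap_E6.na (cE6.simple (tE6 0)) u), ← h1]
      simp only [mul_assoc]
    rw [key, key, add_comm t s, add_comm (θ' t) (θ' s)]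
  have hne : π (Quotient.mk (tset swap_E6) 2) ≠ Quotient.mk (tset swap_E6) 0 := by
    intro h1
    obtain ⟨βP, βQ, hr⟩ := B2_roots swap_E6 dE6_m 2 (by decide) (by decide)
    obtain ⟨h2, -⟩ := Z10_B2 swap_E6 h dE6_m 2 (by decide) (by decide) βP βQ hr
    have hB := (B2_inst swap_E6 h dE6_m 2 (by decide) (by decide) βP βQ hr).1
    have hle : XJ swap_E6.na tE6 σ 2 ≤ Esr dE6 σ := (XJ_le swap_E6 2).1.trans le_sup_left
    have hc2 : ∀ x y : GF dE6 k, x ∈ XJ swap_E6.na tE6 σ 2 → y ∈ XJ swap_E6.na tE6 σ 2 →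
        x * y = y * x := by
      intro x y hx hy
      have h3 := hcomm _ _ (hπ 2 0 h1.symm ⟨x, hle hx⟩ hx) (hπ 2 0 h1.symm ⟨y, hle hy⟩ hy)
      have h4 : Ψ ⟨x, hle hx⟩ * Ψ ⟨y, hle hy⟩ = Ψ ⟨y, hle hy⟩ * Ψ ⟨x, hle hx⟩ := Subtype.ext h3
      rw [← map_mul, ← map_mul] at h4
      exact congrArg Subtype.val (hinj h4)
    obtain ⟨t, ht⟩ := ZB_znz θ (fun t => by rw [h.hθ, dE6_m])
    apply ht
    have h3 := hc2 _ _ ((h2 _).2 ⟨t, 0, rfl⟩) ((h2 _).2 ⟨1, 0, rfl⟩)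
    rw [B2_mul hB, B2_mul hB] at h3
    unfold B2x at h3
    have h4 := (B2_coord hB _ _ _ _ _ _ _ _ h3).2.2.1
    rw [map_one, one_mul, mul_one, zero_add, zero_add, zero_add] at h4
    rw [h4, CharTwo.add_self_eq_zero]
  have e2 : π (Quotient.mk (tset swap_E6) 2) = Quotient.mk (tset swap_E6) 2 :=
    (hcl _).resolve_left hne
  have hne2 : (Quotient.mk (tset swap_E6) 0 : TOrb swap_E6) ≠ Quotient.mk (tset swap_E6) 2 := by
    intro h1
    have h2 : JJ dE6 tE6 0 2 := Quotient.exact h1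
    revert h2
    unfold JJ
    decide
  have e0 : π (Quotient.mk (tset swap_E6) 0) = Quotient.mk (tset swap_E6) 0 := by
    refine (hcl _).resolve_right fun h1 => hne2 (π.injective (h1.trans e2.symm))
  apply Equiv.ext
  intro J
  rw [Equiv.Perm.one_apply]
  rcases hcl J with h1 | h1
  · rw [h1, e0]
  · rw [h1, e2]

end Pool.Agent.H86.UM
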