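import Pool.Agent.H86.UM.ZN
import Pool.Agent.H86.UM.ZF1g
import Pool.Agent.H86.UM.ZF2
import Pool.Agent.H86.UM.ZF3

/-!
# Project UM, Suzuki-Ree groups, module ZFin: rigidity for the three types

`rigid_gen`: `sr_exact`, with `π = 1` (`hπ`) the homomorphism `Ψ₁ = cj Ψ g` (`x ↦ g⁻¹ Ψ x g`) is pinned
(`PinS`; `i' = i`), `hJR` and `rig_of_JR` for `Ψ₁`, then `Ψ x = g Ψ₁ x g⁻¹`.
`rigid_A3`: `TOrb` has one element (all nodes in the class of `0`), so `π = 1`; `jhyp_A3`, `word_A3`, `NVp_A3`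
(`AlgebraicClosure K` has characteristic `2`: `charP_of_injective_algebraMap`, and is infinite), `JHyp.opp` for `σ'`
(`jhyp_A3 h'`), `exists_JR_B2` with `i = 0` (`tA3 0 = 1`, `cA3.A 0 1 = -1`), `cc j = c` for `j ≠ 1`, `cc 1 = θ' c`.
`rigid_D4`: the same with `exists_JR_G2`. `rigid_E6`: `pi_E6`, `exists_JR_orth` with `i = 0`, `exists_JR_B2` with
`i = 2`, `phi_eq_E6`; `cc = (c₀, θ' c₀, c₂, θ' c₂, c₂, c₀)`.
-/

set_option autoImplicit false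
open Matrix

namespace Pool.Agent.H86.UM

open Pool.Agent.H75.UL

section
variable {n : ℕ} {C : SLC n}

/-- `Ψ` is induced by an embedding of fields compatible with `θ`, up to an inner automorphism and an element of the
torus which is compatible with `ρ` and `t0`. -/
def RigS (D : Dg C) (t0 : Fin n → Fin n) {k K : Type*} [Field k] [Field K] (θ : k ≃+* k)
    (θ' : K ≃+* K) {σ : GF D k →* GF D k} {σ' : GF D K →* GF D K}
    (Ψ : Esr D σ →* Esr D σ') : Prop :=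
  ∃ (φ : k →+* K) (cc : Fin n → Kˣ) (g : Esr D σ'), (∀ t, φ (θ t) = θ' (φ t)) ∧
    (∀ j, cc (D.ρ j) = cc j) ∧ (∀ j, D.ρ j ≠ j → (cc (t0 j) : K) = θ' (cc j)) ∧
    ∀ x : Esr D σ, (((Ψ x : Esr D σ') : GF D K) : GL C.Idx K) =
      ((g : GF D K) : GL C.Idx K) *
        (tad C cc * C.mp φ ((x : GF D k) : GL C.Idx k) * (tad C cc)⁻¹) *
        ((g : GF D K) : GL C.Idx K)⁻¹

variable {D : Dg C} {t0 : Fin n → Fin n} (hS : Swap D t0) (hn : 0 < n)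
  {k K : Type*} [Field k] [Infinite k] [Field K] [Infinite K] {θ : k ≃+* k}
  {θ' : K ≃+* K} {σ : GF D k →* GF D k} {σ' : GF D K →* GF D K}
  (h : SRs D t0 θ σ) (h' : SRs D t0 θ' σ') {N : ℕ} (hJ : JHyp hS σ N)
  {c : ℕ} (hw : WordS hS σ c) (hne' : ∀ i, ∃ y ∈ XmJ hS.na t0 σ' i, y ≠ 1)
  (hL : NVp D (AlgebraicClosure K) c)

include hn h h' hJ hw hne' hL

theorem rigid_gen
    (hπ : ∀ (Ψ : Esr D σ →* Esr D σ'), Function.Injective Ψ →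
      ∀ π : Equiv.Perm (TOrb hS), (∀ i i' : Fin n, (Quotient.mk (tset hS) i' : TOrb hS) =
        π (Quotient.mk (tset hS) i) → ∀ x : Esr D σ, (x : GF D k) ∈ XJ hS.na t0 σ i →
        ((Ψ x : Esr D σ') : GF D K) ∈ XJ hS.na t0 σ' i') → π = 1)
    (hR : ∀ (Ψ : Esr D σ →* Esr D σ'), PinS hS Ψ →
      ∃ (φ : k →+* K) (cc : Fin n → Kˣ), (∀ t, φ (θ t) = θ' (φ t)) ∧ CC D t0 θ' cc ∧
        ∀ i, ∃ j, JJ D t0 i j ∧ JR hS θ θ' Ψ j (cc j : K) φ)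
    (Ψ : Esr D σ →* Esr D σ') (hinj : Function.Injective Ψ) : RigS D t0 θ θ' Ψ := by
  obtain ⟨g, π, h1, h2⟩ := sr_exact hS hn h hJ hw h' hne' hL Ψ hinj
  obtain ⟨Ψ₁, hΨ₁⟩ : ∃ Ψ₁ : Esr D σ →* Esr D σ', ∀ x, Ψ₁ x = g⁻¹ * Ψ x * g :=
    ⟨(MulAut.conj g⁻¹).toMonoidHom.comp Ψ, fun x => by
      change g⁻¹ * Ψ x * g⁻¹⁻¹ = _
      rw [inv_inv]⟩
  have hinj₁ : Function.Injective Ψ₁ := by
    intro x y hxy
    rw [hΨ₁, hΨ₁] at hxy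
    exact hinj (mul_left_cancel (mul_right_cancel hxy))
  have hπ1 : π = 1 := by
    refine hπ Ψ₁ hinj₁ π fun i i' hii x hx => ?_
    rw [hΨ₁]
    exact (h1 i i' hii).1 x hx
  have hmk : ∀ i : Fin n, (Quotient.mk (tset hS) i : TOrb hS) = π (Quotient.mk (tset hS) i) := by
    intro i
    rw [hπ1]
    rfl
  have hpin : PinS hS Ψ₁ := by
    refine ⟨hinj₁, ?_, ?_, ?_⟩
    · intro i x hx
      rw [hΨ₁]
      exact (h1 i i (hmk i)).1 x hx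
    · intro i x hx
      rw [hΨ₁]
      exact (h1 i i (hmk i)).2 x hx
    · intro x hx
      rw [hΨ₁]
      exact h2 x hx
  obtain ⟨φ, cc, hφ, hcc, hJR⟩ := hR Ψ₁ hpin
  refine ⟨φ, cc, g, hφ, hcc.rho, hcc.t0, fun x => ?_⟩
  have e : Ψ x = g * Ψ₁ x * g⁻¹ := by
    rw [hΨ₁]
    group
  rw [← rig_of_JR hS h h' Ψ₁ hpin hJ.opp φ hφ cc hcc hJR x, e]
  rfl

end

variable {k K : Type*} [Field k] [Infinite k] [Field K] [Infinite K] {θ : k ≃+* k}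
  {θ' : K ≃+* K}

private theorem ZFin_one {n : ℕ} {C : SLC n} {D : Dg C} {t0 : Fin n → Fin n} (hS : Swap D t0)
    (i₀ : Fin n) (h : ∀ i, JJ D t0 i i₀) (π : Equiv.Perm (TOrb hS)) : π = 1 := by
  have h1 : ∀ a b : TOrb hS, a = b := by
    intro a b
    induction a using Quotient.inductionOn with
    | _ a =>
      induction b using Quotient.inductionOn with
      | _ b => exact Quotient.sound (JJ_trans hS _ _ _ (h a) (JJ_symm hS _ _ (h b)))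
  exact Equiv.ext fun a => h1 _ _

private theorem ZFin_A3 (i : Fin 3) : JJ dA3 tA3 i 0 := by
  fin_cases i
  · exact Or.inl (Equiv.Perm.SameCycle.refl _ _)
  · exact Or.inr (Equiv.Perm.SameCycle.refl _ _)
  · exact Or.inl ⟨1, rfl⟩

private theorem ZFin_D4 (i : Fin 4) : JJ dD4 tD4 i 0 := by
  fin_cases i
  · exact Or.inl (Equiv.Perm.SameCycle.refl _ _)
  · exact Or.inr (Equiv.Perm.SameCycle.refl _ _)
  · exact Or.inl ⟨2, rfl⟩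
  · exact Or.inl ⟨1, rfl⟩

private theorem ZFin_E6 (i : Fin 6) : JJ dE6 tE6 i 0 ∨ JJ dE6 tE6 i 2 := by
  fin_cases i
  · exact Or.inl (Or.inl (Equiv.Perm.SameCycle.refl _ _))
  · exact Or.inl (Or.inr (Equiv.Perm.SameCycle.refl _ _))
  · exact Or.inr (Or.inl (Equiv.Perm.SameCycle.refl _ _))
  · exact Or.inr (Or.inr (Equiv.Perm.SameCycle.refl _ _))
  · exact Or.inr (Or.inl ⟨1, rfl⟩)
  · exact Or.inl (Or.inl ⟨1, rfl⟩)

private theorem ZFin_un {K : Type*} [Field K] (θ' : K ≃+* K) (u : Kˣ) :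
    ∃ v : Kˣ, (v : K) = θ' (u : K) :=
  ⟨Units.map (θ' : K →* K) u, rfl⟩

private theorem ZFin_cl {K : Type*} [Field K] [Infinite K] (m : ℕ) [CharP K m] :
    CharP (AlgebraicClosure K) m ∧ Infinite (AlgebraicClosure K) :=
  ⟨charP_of_injective_algebraMap (algebraMap K (AlgebraicClosure K)).injective m,
    Infinite.of_injective _ (algebraMap K (AlgebraicClosure K)).injective⟩

theorem rigid_A3 {σ : GF dA3 k →* GF dA3 k} {σ' : GF dA3 K →* GF dA3 K}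
    (h : SRs dA3 tA3 θ σ) (h' : SRs dA3 tA3 θ' σ') (Ψ : Esr dA3 σ →* Esr dA3 σ')
    (hinj : Function.Injective Ψ) : RigS dA3 tA3 θ θ' Ψ := by
  have c2 : CharP K 2 := by
    have h1 := h'.chr
    rwa [dA3_m] at h1
  obtain ⟨c3, c4⟩ := ZFin_cl (K := K) 2
  refine rigid_gen swap_A3 (by norm_num) h h' (jhyp_A3 h) (word_A3 h) (jhyp_A3 h').opp
    (NVp_A3 _) (fun _ _ π _ => ZFin_one swap_A3 0 ZFin_A3 π) ?_ Ψ hinj
  intro Ψ₁ hΨ₁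
  obtain ⟨c, φ, hJR, hφ⟩ := exists_JR_B2 swap_A3 h h' (jhyp_A3 h) Ψ₁ hΨ₁ dA3_m 0 (by decide)
    (by decide)
  obtain ⟨v, hv⟩ := ZFin_un θ' (Units.mk0 c hJR.c_ne)
  refine ⟨φ, ![Units.mk0 c hJR.c_ne, v, Units.mk0 c hJR.c_ne], hφ, ⟨?_, ?_⟩,
    fun i => ⟨0, ZFin_A3 i, hJR⟩⟩
  · intro j
    fin_cases j <;> rfl
  · intro j hj
    fin_cases j
    · exact hv
    · exact absurd rfl hj
    · exact hv

theorem rigid_D4 {σ : GF dD4 k →* GF dD4 k} {σ' : GF dD4 K →* GF dD4 K}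
    (h : SRs dD4 tD4 θ σ) (h' : SRs dD4 tD4 θ' σ') (Ψ : Esr dD4 σ →* Esr dD4 σ')
    (hinj : Function.Injective Ψ) : RigS dD4 tD4 θ θ' Ψ := by
  have c2 : CharP K 3 := by
    have h1 := h'.chr
    rwa [dD4_m] at h1
  obtain ⟨c3, c4⟩ := ZFin_cl (K := K) 3
  refine rigid_gen swap_D4 (by norm_num) h h' (jhyp_D4 h) (word_D4 h) (jhyp_D4 h').opp
    (NVp_D4 _) (fun _ _ π _ => ZFin_one swap_D4 0 ZFin_D4 π) ?_ Ψ hinj
  intro Ψ₁ hΨ₁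
  obtain ⟨c, φ, hJR, hφ⟩ := exists_JR_G2 h h' (jhyp_D4 h) Ψ₁ hΨ₁
  obtain ⟨v, hv⟩ := ZFin_un θ' (Units.mk0 c hJR.c_ne)
  refine ⟨φ, ![Units.mk0 c hJR.c_ne, v, Units.mk0 c hJR.c_ne, Units.mk0 c hJR.c_ne], hφ,
    ⟨?_, ?_⟩, fun i => ⟨0, ZFin_D4 i, hJR⟩⟩
  · intro j
    fin_cases j <;> rfl
  · intro j hj
    fin_cases j
    · exact hv
    · exact absurd rfl hj
    · exact hv
    · exact hv

theorem rigid_E6 {σ : GF dE6 k →* GF dE6 k} {σ' : GF dE6 K →* GF dE6 K}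
    (h : SRs dE6 tE6 θ σ) (h' : SRs dE6 tE6 θ' σ') (Ψ : Esr dE6 σ →* Esr dE6 σ')
    (hinj : Function.Injective Ψ) : RigS dE6 tE6 θ θ' Ψ := by
  have c2 : CharP K 2 := by
    have h1 := h'.chr
    rwa [dE6_m] at h1
  obtain ⟨c3, c4⟩ := ZFin_cl (K := K) 2
  refine rigid_gen swap_E6 (by norm_num) h h' (jhyp_E6 h) (word_E6 h) (jhyp_E6 h').opp
    (NVp_E6 _) (fun Ψ₁ hi π hπ => pi_E6 h h' Ψ₁ hi π hπ) ?_ Ψ hinj
  intro Ψ₁ hΨ₁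
  obtain ⟨c₀, φ₀, hJR₀⟩ := exists_JR_orth swap_E6 h h' (jhyp_E6 h) Ψ₁ hΨ₁ 0 (by decide)
    (by decide)
  obtain ⟨c₂, φ₂, hJR₂, hφ⟩ := exists_JR_B2 swap_E6 h h' (jhyp_E6 h) Ψ₁ hΨ₁ dE6_m 2 (by decide)
    (by decide)
  obtain rfl := phi_eq_E6 h h' Ψ₁ hΨ₁ c₀ c₂ φ₀ φ₂ hJR₀ hJR₂
  obtain ⟨v₀, hv₀⟩ := ZFin_un θ' (Units.mk0 c₀ hJR₀.c_ne)
  obtain ⟨v₂, hv₂⟩ := ZFin_un θ' (Units.mk0 c₂ hJR₂.c_ne)
  refine ⟨φ₀, ![Units.mk0 c₀ hJR₀.c_ne, v₀, Units.mk0 c₂ hJR₂.c_ne, v₂, Units.mk0 c₂ hJR₂.c_ne,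
    Units.mk0 c₀ hJR₀.c_ne], hφ, ⟨?_, ?_⟩, fun i => ?_⟩
  · intro j
    fin_cases j <;> rfl
  · intro j hj
    fin_cases j
    · exact hv₀
    · exact absurd rfl hj
    · exact hv₂
    · exact absurd rfl hj
    · exact hv₂
    · exact hv₀
  · rcases ZFin_E6 i with h1 | h1
    · exact ⟨0, h1, hJR₀⟩
    · exact ⟨2, h1, hJR₂⟩

end Pool.Agent.H86.UM
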