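import Pool.Agent.H86.UM.Z9
import Pool.Agent.H86.UM.AS1
import Pool.Agent.H86.UM.EX1
import Pool.Agent.H75.UK.FG

/-!
# Project UM, Suzuki-Ree groups, module ZL: the chamber over the algebraic closure, and over `K`

`S = srcSR hS h hJ`, `Ψ : Esr D σ → GL C.Idx K` with values in `GF D K`, injective, `K` of characteristic `m = char k`.
`NVp D L c`: nonvanishing property of the target over `L`.

`sr_stage_L`: `Ψ_L = mp (algebraMap K L) ∘ Ψ`, `Γ` the image of `S.U` under `Ψ_L`: in `Gad L`, fixed by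
`sgl 1` (`sgl_mp`, `mem_GF_fix`). Unipotent: for `u ∈ FU`: `u - 1` is nilpotent (`Fil_U`, `exists_Fil_eq_zero'`), so
`u ^ (m ^ e) = 1` for large `e` (`CharP`; `(u - 1) ^ (m ^ e) = u ^ (m ^ e) - 1`), so the same for `Ψ_L u`, hence
`(Ψ_L u - 1) ^ (m ^ e) = 0`. `fold_conj` (UK/FG; `0 < n`): `g ∈ GF D L` with `g⁻¹ Γ g ≤ U 1`. For `u ∈ S.U` the
element `g⁻¹ Ψ_L(u) g` is in `GF D L` and in `U 1`, so in `FU D L`. The word: `icomm x₀ l ≠ 1` in `GF D k`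
(elements of `XJ ≤ Esr`), so (injectivity, conjugation) `icomm` of the images is `≠ 1`, `NVp` gives: each `ξ_j` is
nonzero at the image of some member of the word, and each member has some `ξ_j ≠ 0`. A member `x ∈ XJ b` is in
`S.X J`, `J` the class of `b` (`XJ_congr`, `srep_spec`). Hence `nonvan`, `occ` (by `hocc`). `T_le`: `t ∈ S.T`
normalises `S.U`, so `y = g⁻¹ Ψ_L(t) g` satisfies `y⁻¹ γ y ∈ U 1` for `γ` in the image: `upper_of_fix`. The last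
statement: as in `stage_L` (AS1.lean): for `y = g⁻¹ mp σ g` and `u ∈ S.U`, `y⁻¹ (g⁻¹ Ψ_L(u) g) y = mp σ (g⁻¹ Ψ_L(u) g)`
is upper triangular; `upper_of_fix` or `unique_of_Tgt`.

`sr_stage_GF`: `L = AlgebraicClosure K`; `sr_stage_L`, `stage_K`, `sigma_stage` with `θ' = 1` (`NA`).
-/

set_option autoImplicit false
open Matrix

namespace Pool.Agent.H86.UM

open Pool.Agent.H75.UL

variable {n : ℕ} {C : SLC n}

/-- nonvanishing property: commutators of length `c` -/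
def NVp (D : Dg C) (L : Type*) [Field L] (c : ℕ) : Prop :=
  ∀ (g₀ : GF D L) (l : List (GF D L)), (∀ g ∈ g₀ :: l, g ∈ FU D L) → l.length + 1 = c →
    icomm g₀ l ≠ 1 →
    (∀ j, ∃ g ∈ g₀ :: l, C.xi j ((g : GL C.Idx L) : Matrix C.Idx C.Idx L) ≠ 0) ∧
    ∀ g ∈ g₀ :: l, ∃ j, C.xi j ((g : GL C.Idx L) : Matrix C.Idx C.Idx L) ≠ 0

/-- a word of length `c` -/
structure WordS {D : Dg C} {t0 : Fin n → Fin n} (hS : Swap D t0) {k : Type*} [Field k]
    (σ : GF D k →* GF D k) (c : ℕ) : Prop where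
  ex : ∃ (b₀ : Fin n) (bs : List (Fin n)) (x₀ : GF D k) (l : List (GF D k)),
    x₀ ∈ XJ hS.na t0 σ b₀ ∧ List.Forall₂ (fun b x => x ∈ XJ hS.na t0 σ b) bs l ∧
    icomm x₀ l ≠ 1 ∧ l.length + 1 = c ∧ ∀ i, JJ D t0 b₀ i ∨ ∃ b ∈ bs, JJ D t0 b i

private theorem ZL_icomm_map {G H : Type*} [Group G] [Group H] (f : G →* H) (g : G)
    (l : List G) : icomm (f g) (l.map f) = f (icomm g l) := by
  unfold icomm
  induction l generalizing g with
  | nil => rfl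
  | cons a l ih =>
    rw [List.map_cons, List.foldl_cons, List.foldl_cons, ← ih, _root_.map_mul, _root_.map_mul,
      _root_.map_mul, _root_.map_inv, _root_.map_inv]

private theorem ZL_nil_conj {F : Type*} [Field F] (g x : GL C.Idx F)
    (hx : IsNilpotent ((x : Matrix C.Idx C.Idx F) - 1)) :
    IsNilpotent (((g⁻¹ * x * g : GL C.Idx F) : Matrix C.Idx C.Idx F) - 1) := by
  obtain ⟨N, hN⟩ := hx
  refine ⟨N, ?_⟩
  have e : ((g⁻¹ * x * g : GL C.Idx F) : Matrix C.Idx C.Idx F) - 1 =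
      ((g⁻¹ : GL C.Idx F) : Matrix C.Idx C.Idx F) * ((x : Matrix C.Idx C.Idx F) - 1) *
        (g : Matrix C.Idx C.Idx F) := by
    rw [mul_sub, sub_mul, mul_one, Units.inv_mul, Units.val_mul, Units.val_mul]
  rw [e, Units.conj_pow', hN, mul_zero, zero_mul]

private theorem ZL_U_nil {F : Type*} [Field F] (u : GL C.Idx F) (hu : u ∈ (C.adS F).U 1) :
    IsNilpotent ((u : Matrix C.Idx C.Idx F) - 1) := by
  have h1 := C.Fil_U 1 le_rfl u hu
  obtain ⟨m₀, hm₀⟩ := C.exists_Fil_eq_zero' F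
  have hp : ∀ N : ℕ, C.Fil (N : ℤ) (((u : Matrix C.Idx C.Idx F) - 1) ^ N) := by
    intro N
    induction N with
    | zero =>
      rw [pow_zero]
      exact C.Fil_one
    | succ N ih =>
      have h := C.Fil_mul ih h1
      rw [pow_succ]
      push_cast
      exact h
  refine ⟨m₀.toNat, hm₀ _ (C.Fil_mono ?_ (hp _))⟩
  exact Int.self_le_toNat m₀

/-- in characteristic `p` the unipotent matrices are those of order a power of `p` -/
private theorem ZL_unip (hn : 0 < n) {F : Type*} [Field F] (p : ℕ) [Fact p.Prime] [CharP F p]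
    (x : GL C.Idx F) : IsNilpotent ((x : Matrix C.Idx C.Idx F) - 1) ↔ ∃ e : ℕ, x ^ p ^ e = 1 := by
  have hne : Nonempty C.Idx := ⟨Sum.inl ⟨0, hn⟩⟩
  have key : ∀ e : ℕ, ((x : Matrix C.Idx C.Idx F) - 1) ^ p ^ e =
      ((x ^ p ^ e : GL C.Idx F) : Matrix C.Idx C.Idx F) - 1 := by
    intro e
    rw [sub_pow_char_pow_of_commute p e (Commute.one_right (x : Matrix C.Idx C.Idx F)), one_pow,
      Units.val_pow_eq_pow_val]
  constructor
  · rintro ⟨N, hN⟩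
    refine ⟨N, ?_⟩
    have h1 : ((x : Matrix C.Idx C.Idx F) - 1) ^ p ^ N = 0 :=
      pow_eq_zero_of_le (Nat.lt_pow_self (Fact.out (p := p.Prime)).one_lt).le hN
    rw [key] at h1
    exact Units.ext (sub_eq_zero.1 h1)
  · rintro ⟨e, he⟩
    refine ⟨p ^ e, ?_⟩
    rw [key, he, Units.val_one, sub_self]

private theorem ZL_mp_fixU (D : Dg C) {F F' : Type*} [Field F] [Field F'] (f : F →+* F')
    (x : GL C.Idx F) (hx : x ∈ fixU (C.adS F) (D.sgl (RingEquiv.refl F))) :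
    C.mp f x ∈ fixU (C.adS F') (D.sgl (RingEquiv.refl F')) := by
  refine ⟨C.mp_U f 1 x hx.1, ?_⟩
  have h1 : D.sgl (RingEquiv.refl F) x = x := hx.2
  show D.sgl (RingEquiv.refl F') (C.mp f x) = C.mp f x
  rw [← sgl_mp D (RingEquiv.refl F) (RingEquiv.refl F') f (fun t => rfl), h1]

private theorem ZL_mp_fixUm (D : Dg C) {F F' : Type*} [Field F] [Field F'] (f : F →+* F')
    (x : GL C.Idx F) (hx : x ∈ fixUm (C.adS F) (D.sgl (RingEquiv.refl F))) :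
    C.mp f x ∈ fixUm (C.adS F') (D.sgl (RingEquiv.refl F')) := by
  have h0 : (C.adS F).Um ≤ ((C.adS F').Um).comap (C.mp f) := by
    unfold StSys.Um
    rw [Subgroup.closure_le]
    rintro y ⟨β, t, hβ, rfl⟩
    change C.mp f (C.xg F β t) ∈ (C.adS F').Um
    rw [C.mp_xg]
    exact Subgroup.subset_closure ⟨β, f t, hβ, rfl⟩
  refine ⟨h0 hx.1, ?_⟩
  have h1 : D.sgl (RingEquiv.refl F) x = x := hx.2
  show D.sgl (RingEquiv.refl F') (C.mp f x) = C.mp f x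
  rw [← sgl_mp D (RingEquiv.refl F) (RingEquiv.refl F') f (fun t => rfl), h1]

private theorem ZL_mp_GF (D : Dg C) {F F' : Type*} [Field F] [Field F'] (f : F →+* F')
    (x : GL C.Idx F) (hx : x ∈ GF D F) : C.mp f x ∈ GF D F' := by
  have h1 : GF D F ≤ (GF D F').comap (C.mp f) := by
    refine sup_le ?_ ?_
    · intro y hy
      exact Subgroup.mem_sup_left (ZL_mp_fixU D f y hy)
    · intro y hy
      exact Subgroup.mem_sup_right (ZL_mp_fixUm D f y hy)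
  exact h1 hx

variable {D : Dg C} {t0 : Fin n → Fin n} (hS : Swap D t0) (hn : 0 < n)
  {k : Type*} [Field k] [Infinite k] {θ : k ≃+* k} {σ : GF D k →* GF D k}
  (h : SRs D t0 θ σ) {N : ℕ} (hJ : JHyp hS σ N) {c : ℕ} (hw : WordS hS σ c)

include hn hw

theorem sr_stage_L {K L : Type*} [Field K] [Infinite K] [Field L] [Algebra K L]
    [IsAlgClosure K L] [CharP L D.m] (hL : NVp D L c)
    (Ψ : Esr D σ →* GL C.Idx K) (hΨ : ∀ x, Ψ x ∈ GF D K) (hinj : Function.Injective Ψ) :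
    ∃ g ∈ C.Gad L, Tgt C (srcSR hS h hJ) (cj ((C.mp (algebraMap K L)).comp Ψ) g) ∧
      ∀ σ₁ : L ≃ₐ[K] L, C.Fil 0 ((g⁻¹ * C.mp (σ₁ : L →+* L) g : GL C.Idx L) :
        Matrix C.Idx C.Idx L) := by
  have hN := hS.na
  have hLc : IsAlgClosed L := IsAlgClosure.isAlgClosed K
  have hLi : Infinite L := IsAlgClosed.instInfinite
  have hp : Nat.Prime D.m := by
    rcases D.m_cases with h1 | h1 | h1
    · exact absurd h1 hS.m_ne
    · rw [h1]
      exact Nat.prime_two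
    · rw [h1]
      exact Nat.prime_three
  have : Fact (Nat.Prime D.m) := ⟨hp⟩
  have : CharP k D.m := h.chr
  obtain ⟨Φ, hΦ0⟩ : ∃ Φ : Esr D σ →* GL C.Idx L, Φ = (C.mp (algebraMap K L)).comp Ψ := ⟨_, rfl⟩
  have hΦ : ∀ x, Φ x = C.mp (algebraMap K L) (Ψ x) := by
    intro x
    rw [hΦ0]
    rfl
  have hΦF : ∀ x, Φ x ∈ GF D L := by
    intro x
    rw [hΦ]
    exact ZL_mp_GF D _ _ (hΨ x)
  have hΦm : ∀ x, Φ x ∈ C.Gad L := fun x => (mem_GF_fix hN _ (hΦF x)).2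
  have hΦs : ∀ x, D.sgl (RingEquiv.refl L) (Φ x) = Φ x := fun x => (mem_GF_fix hN _ (hΦF x)).1
  have hΦi : Function.Injective Φ := by
    intro x y hxy
    rw [hΦ, hΦ] at hxy
    exact hinj (C.mp_injective _ (algebraMap K L).injective hxy)
  have hUmem : ∀ u : Esr D σ, u ∈ (srcSR hS h hJ).U ↔ (u : GF D k) ∈ FU D k := fun u => Iff.rfl
  have hXmem : ∀ (J : TOrb hS) (u : Esr D σ), u ∈ (srcSR hS h hJ).X J ↔
    (u : GF D k) ∈ XJ hS.na t0 σ (srep hS J) := fun J u => Iff.rfl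
  -- unipotent
  have huni : ∀ u ∈ (srcSR hS h hJ).U, IsNilpotent ((Φ u : Matrix C.Idx C.Idx L) - 1) := by
    intro u hu
    have h1 : (((u : GF D k) : GL C.Idx k)) ∈ (C.adS k).U 1 := ((hUmem u).1 hu).1
    obtain ⟨e, he⟩ := (ZL_unip hn D.m _).1 (ZL_U_nil _ h1)
    rw [ZL_unip hn D.m]
    refine ⟨e, ?_⟩
    have h2 : u ^ D.m ^ e = 1 := by
      apply Subtype.ext
      apply Subtype.ext
      rw [SubmonoidClass.coe_pow, SubmonoidClass.coe_pow, he]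
      rfl
    rw [← _root_.map_pow, h2, _root_.map_one]
  obtain ⟨g, hg, hgU⟩ := fold_conj D hN hn (((srcSR hS h hJ).U).map Φ) (by
    rintro _ ⟨x, _, rfl⟩
    exact hΦm x) (by
    rintro _ ⟨x, _, rfl⟩
    exact hΦs x) (by
    rintro _ ⟨x, hx, rfl⟩
    exact huni x hx)
  have hgF : g ∈ GF D L := hg
  obtain ⟨hgs, hgG⟩ := mem_GF_fix hN g hgF
  have hcjF : ∀ x, cj Φ g x ∈ GF D L := by
    intro x
    rw [cj_apply]
    exact mul_mem (mul_mem (inv_mem hgF) (hΦF x)) hgF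
  have hUle : ∀ u ∈ (srcSR hS h hJ).U, cj Φ g u ∈ (C.adS L).U 1 := by
    intro u hu
    rw [cj_apply]
    exact hgU _ (Subgroup.mem_map_of_mem Φ hu)
  -- the homomorphism to `GF D L`
  obtain ⟨Θ, hΘ⟩ : ∃ Θ : Esr D σ →* GF D L, ∀ x, ((Θ x : GF D L) : GL C.Idx L) = cj Φ g x :=
    ⟨(cj Φ g).codRestrict (GF D L) hcjF, fun x => rfl⟩
  have hΘi : Function.Injective Θ := by
    intro x y hxy
    have h1 : cj Φ g x = cj Φ g y := by rw [← hΘ, ← hΘ, hxy]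
    rw [cj_apply, cj_apply] at h1
    exact hΦi (mul_left_cancel (mul_right_cancel h1))
  have hΘU : ∀ u ∈ (srcSR hS h hJ).U, Θ u ∈ FU D L := by
    intro u hu
    show ((Θ u : GF D L) : GL C.Idx L) ∈ fixU (C.adS L) (D.sgl (RingEquiv.refl L))
    refine ⟨?_, (mem_GF_fix hN _ (Θ u).2).1⟩
    rw [hΘ]
    exact hUle u hu
  -- the word
  obtain ⟨b₀, bs, x₀, l, hx₀, hl, hne, hlen, hocc⟩ := hw.ex
  have hXE : ∀ (b : Fin n) (x : GF D k), x ∈ XJ hS.na t0 σ b → x ∈ Esr D σ := fun b x hx =>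
    Subgroup.mem_sup_left ((XJ_le hS b).1 hx)
  have hlb : ∀ x ∈ l, ∃ b ∈ bs, x ∈ XJ hS.na t0 σ b := by
    intro x hx
    obtain ⟨i, hi, rfl⟩ := List.getElem_of_mem hx
    have h1 := hl.length_eq
    exact ⟨bs[i]'(by omega), List.getElem_mem _, hl.get (by omega) hi⟩
  have hbl : ∀ b ∈ bs, ∃ x ∈ l, x ∈ XJ hS.na t0 σ b := by
    intro b hb
    obtain ⟨i, hi, rfl⟩ := List.getElem_of_mem hb
    have h1 := hl.length_eq
    exact ⟨l[i]'(by omega), List.getElem_mem _, hl.get hi (by omega)⟩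
  obtain ⟨x₀', hx₀'⟩ : ∃ x₀' : Esr D σ, (x₀' : GF D k) = x₀ := ⟨⟨x₀, hXE b₀ x₀ hx₀⟩, rfl⟩
  obtain ⟨l', hl'⟩ : ∃ l' : List (Esr D σ), l'.map (Esr D σ).subtype = l := by
    refine ⟨l.attach.map fun x => ⟨x.1, ?_⟩, ?_⟩
    · obtain ⟨b, _, h1⟩ := hlb x.1 x.2
      exact hXE b x.1 h1
    · rw [List.map_map]
      exact List.attach_map_subtype_val l
  have hne' : icomm (Θ x₀') (l'.map Θ) ≠ 1 := by
    rw [ZL_icomm_map]
    intro h1
    rw [← _root_.map_one Θ] at h1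
    have h2 := hΘi h1
    apply hne
    have h3 := ZL_icomm_map (Esr D σ).subtype x₀' l'
    rw [h2, hl', _root_.map_one] at h3
    rw [← hx₀']
    exact h3
  -- members of the word
  have hcl : ∀ (b : Fin n) (x : Esr D σ), (x : GF D k) ∈ XJ hS.na t0 σ b →
      x ∈ (srcSR hS h hJ).X (Quotient.mk (tset hS) b) := by
    intro b x hx
    rw [hXmem]
    have h1 := ((srep_spec hS (Quotient.mk (tset hS) b)).2.2 b).1 rfl
    rw [(XJ_congr hS _ _ h1).1]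
    exact hx
  have hmem : ∀ x ∈ x₀' :: l', ∃ J, x ∈ (srcSR hS h hJ).X J := by
    intro x hx
    rcases List.mem_cons.1 hx with rfl | hx
    · exact ⟨_, hcl b₀ _ (by rw [hx₀']; exact hx₀)⟩
    · have h1 : (x : GF D k) ∈ l := by
        rw [← hl']
        exact List.mem_map_of_mem (f := (Esr D σ).subtype) hx
      obtain ⟨b, _, h2⟩ := hlb _ h1
      exact ⟨_, hcl b x h2⟩
  have hmem' : ∀ i : Fin n, ∃ x ∈ x₀' :: l', x ∈ (srcSR hS h hJ).X (Quotient.mk (tset hS) i) := by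
    intro i
    rcases hocc i with h1 | ⟨b, hb, h1⟩
    · refine ⟨x₀', List.mem_cons_self, hcl i x₀' ?_⟩
      rw [← (XJ_congr hS _ _ h1).1, hx₀']
      exact hx₀
    · obtain ⟨x, hx, h2⟩ := hbl b hb
      rw [← hl'] at hx
      obtain ⟨x', hx', rfl⟩ := List.mem_map.1 hx
      refine ⟨x', List.mem_cons_of_mem _ hx', hcl i x' ?_⟩
      rw [← (XJ_congr hS _ _ h1).1]
      exact h2
  have hlist : ∀ y ∈ Θ x₀' :: l'.map Θ, ∃ x ∈ x₀' :: l', Θ x = y := by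
    intro y hy
    rw [← List.map_cons] at hy
    obtain ⟨x, hx, h1⟩ := List.mem_map.1 hy
    exact ⟨x, hx, h1⟩
  obtain ⟨hnv1, hnv2⟩ := hL (Θ x₀') (l'.map Θ) (by
    intro y hy
    obtain ⟨x, hx, rfl⟩ := hlist y hy
    obtain ⟨J, h1⟩ := hmem x hx
    exact hΘU x ((srcSR hS h hJ).X_le J h1)) (by
    rw [List.length_map, ← hlen, ← hl', List.length_map]) hne'
  have hnv : ∀ j, ∃ J, ∃ x ∈ (srcSR hS h hJ).X J,
      C.xi j (cj Φ g x : Matrix C.Idx C.Idx L) ≠ 0 := by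
    intro j
    obtain ⟨y, hy, h1⟩ := hnv1 j
    obtain ⟨x, hx, rfl⟩ := hlist y hy
    obtain ⟨J, h2⟩ := hmem x hx
    rw [hΘ] at h1
    exact ⟨J, x, h2, h1⟩
  have hocc' : ∀ J, ∃ j, ∃ x ∈ (srcSR hS h hJ).X J,
      C.xi j (cj Φ g x : Matrix C.Idx C.Idx L) ≠ 0 := by
    intro J
    obtain ⟨x, hx, h1⟩ := hmem' (srep hS J)
    rw [(srep_spec hS J).2.1] at h1
    obtain ⟨j, h2⟩ := hnv2 (Θ x) (by
      rw [← List.map_cons]
      exact List.mem_map_of_mem hx)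
    rw [hΘ] at h2
    exact ⟨j, x, h1, h2⟩
  have hmemG : ∀ x, cj Φ g x ∈ C.Gad L := fun x => (mem_GF_fix hN _ (hcjF x)).2
  have hnv' : ∀ j, ∃ γ ∈ (cj Φ g) '' ((srcSR hS h hJ).U : Set (Esr D σ)),
      C.xi j (γ : Matrix C.Idx C.Idx L) ≠ 0 := by
    intro j
    obtain ⟨J, x, hx, h1⟩ := hnv j
    exact ⟨_, ⟨x, (srcSR hS h hJ).X_le J hx, rfl⟩, h1⟩
  have hΓU : ∀ γ ∈ (cj Φ g) '' ((srcSR hS h hJ).U : Set (Esr D σ)), γ ∈ (C.adS L).U 1 := by
    rintro _ ⟨u, hu, rfl⟩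
    exact hUle u hu
  have hTle : ∀ t ∈ (srcSR hS h hJ).T, C.Fil 0 (cj Φ g t : Matrix C.Idx C.Idx L) := by
    intro t ht
    refine upper_of_fix C _ hΓU hnv' _ (hmemG t) ?_
    rintro _ ⟨u, hu, rfl⟩
    rw [← _root_.map_inv, ← _root_.map_mul, ← _root_.map_mul]
    have h1 := (srcSR hS h hJ).T_conj_U t⁻¹ (inv_mem ht) u hu
    rw [inv_inv] at h1
    exact C.Fil_U_zero _ (hUle _ h1)
  rw [← hΦ0]
  refine ⟨g, hgG, ⟨hmemG, hUle, hTle, hnv, hocc'⟩, ?_⟩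
  intro σ₁
  refine upper_of_fix C _ hΓU hnv' _ (mul_mem (inv_mem hgG) (C.mp_Gad _ g hgG)) ?_
  rintro _ ⟨u, hu, rfl⟩
  have e : (g⁻¹ * C.mp (σ₁ : L →+* L) g)⁻¹ * cj Φ g u * (g⁻¹ * C.mp (σ₁ : L →+* L) g) =
      C.mp (σ₁ : L →+* L) (cj Φ g u) := by
    rw [cj_apply, _root_.map_mul, _root_.map_mul, _root_.map_inv, hΦ, C.P3b_mp_fix]
    group
  rw [e, C.mp_val]
  exact C.Fil_map _ (C.Fil_U_zero _ (hUle u hu))

theorem sr_stage_GF {K : Type*} [Field K] [Infinite K] [CharP K D.m]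
    (hL : NVp D (AlgebraicClosure K) c)
    (Ψ : Esr D σ →* GL C.Idx K) (hΨ : ∀ x, Ψ x ∈ GF D K) (hinj : Function.Injective Ψ) :
    ∃ g ∈ GF D K, Tgt C (srcSR hS h hJ) (cj Ψ g) ∧
      (∀ x ∈ (srcSR hS h hJ).T, cj Ψ g x ∈ (C.adS K).T) ∧
      ∃ fib : Fin n → TOrb hS, Fib C (srcSR hS h hJ) (cj Ψ g) fib ∧
        (∀ j, fib (D.ρ j) = fib j) ∧ ∀ x, D.sgl (RingEquiv.refl K) (cj Ψ g x) = cj Ψ g x := by
  have hG : ∀ x, Ψ x ∈ C.Gad K := fun x => (mem_GF_fix hS.na _ (hΨ x)).2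
  have hs : ∀ x, D.sgl (RingEquiv.refl K) (Ψ x) = Ψ x := fun x =>
    (mem_GF_fix hS.na _ (hΨ x)).1
  obtain ⟨g, hg, hT, hfix⟩ := sr_stage_L hS hn h hJ hw (L := AlgebraicClosure K) hL Ψ hΨ hinj
  obtain ⟨g₀, hg₀, hT₀, hTT₀, fib, hf⟩ := stage_K C (srcSR hS h hJ) Ψ hG g hg hT hfix
  obtain ⟨g₁, hg₁, hT₁, hTT₁, hf₁, hρ, hs₁⟩ := sigma_stage C D (srcSR hS h hJ)
    (RingEquiv.refl K) (fun t => Function.iterate_fixed rfl _) (Or.inl hS.na) Ψ hG hs g₀ hg₀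
    hT₀ hTT₀ fib hf
  exact ⟨g₁, hg₁, hT₁, hTT₁, fib, hf₁, hρ, hs₁⟩

end Pool.Agent.H86.UM
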