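import Pool.Agent.H86.UM.ZW
import Pool.Agent.H86.UM.ZTs

/-!
# Project UM, Suzuki-Ree groups, module ZW3: the three words

`iad A [B₁, B₂, ..] = ..[B₂, [B₁, A]]..` with `[X, Y] = X Y - Y X`. `vm (ind D b) = ∑ E_(α_j)` over the cycle of `b`
(`W1_vm_single`-like; the coefficients are `0, 1`). Brackets of the matrices `E_α` (mapped to `k`): `T5_map_comm`
(`ip α β ≥ 0`: `0`), `T5_map_comm_add` (`γ = α + β`: `eps α β • E_γ`).
`A₃`, characteristic `2`: `[E_1, E_0 + E_2] = ± E_(110) ± E_(011) ≠ 0`.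
`D₄`, characteristic `3`, nodes `0, 1, 2, 3`: start with `E_1`, then twice `B = E_0 + E_2 + E_3`:
`[B, E_1] = ± E_(1100) ± E_(0110) ± E_(0101)`, `[B, .]`: a combination of `E_(1110), E_(1101), E_(0111)` with
coefficients `± 2` (in the computer calculation with the signs `eps` of Defs.lean: `(1,1,0,0): 1, (0,1,1,0): -1,
(0,1,0,1): -1`, then `(1,1,1,0): 1, (1,1,0,1): 1, (0,1,1,1): -1` modulo `3`), nonzero in characteristic `3`; it is
enough to look at one coefficient.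
`E₆`, characteristic `2`, nodes `0 - 2 - 3 - 4 - 5`, `1 - 3`; cycles `{0,5}, {2,4}, {3}, {1}`; start with the cycle of `0`,
then `2, 3, 1, 2, 3, 2, 0`. Signs do not matter. The brackets are (roots as vectors of the coordinates at the nodes
`0..5`), each time the sum of two `E_γ` :
`(1,0,1,0,0,0), (0,0,0,0,1,1)`; `(1,0,1,1,0,0), (0,0,0,1,1,1)`; `(1,1,1,1,0,0), (0,1,0,1,1,1)`;
`(0,1,1,1,1,1), (1,1,1,1,1,0)`; `(0,1,1,2,1,1), (1,1,1,2,1,0)`; `(1,1,2,2,1,0), (0,1,1,2,2,1)`;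
`(1,1,1,2,2,1), (1,1,2,2,1,1)`. In each step `[E_a + E_b, E_γ + E_γ']` (or `[E_a, ..]`) has the contributions
`a + γ` etc. which are roots (`ip = -1`); terms which cancel or vanish: `ip ≥ 0`.
A nonzero combination of different `E_γ` is nonzero (look at an entry).
-/

set_option autoImplicit false
open Matrix

namespace Pool.Agent.H86.UM

open Pool.Agent.H75.UL

/-! ### helper lemmas -/

/-- the matrix of `ad e_v` over `k` for a vector `v` of norm `2`, and `0` otherwise -/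
private noncomputable def ev {n : ℕ} (C : SLC n) (k : Type*) [Field k] (v : Fin n → ℤ) :
    Matrix C.Idx C.Idx k :=
  if h : C.ip v v = 2 then (C.E ⟨v, h⟩).map (Int.cast : ℤ → k) else 0

private theorem ev_root {n : ℕ} (C : SLC n) (k : Type*) [Field k] (α : C.Root) :
    ev C k α.1 = (C.E α).map (Int.cast : ℤ → k) := by
  unfold ev
  rw [dif_pos α.2]

private theorem ev_comm {n : ℕ} (C : SLC n) (k : Type*) [Field k] (v w : Fin n → ℤ)
    (h : 0 ≤ C.ip v w) : ev C k v * ev C k w - ev C k w * ev C k v = 0 := by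
  unfold ev
  by_cases hv : C.ip v v = 2
  · by_cases hw : C.ip w w = 2
    · rw [dif_pos hv, dif_pos hw]
      exact C.T5_map_comm ⟨v, hv⟩ ⟨w, hw⟩ h
    · rw [dif_neg hw, mul_zero, zero_mul, sub_zero]
  · rw [dif_neg hv, mul_zero, zero_mul, sub_zero]

private theorem ev_add {n : ℕ} (C : SLC n) (k : Type*) [Field k] (v w u : Fin n → ℤ)
    (hv : C.ip v v = 2) (hw : C.ip w w = 2) (hu : C.ip u u = 2) (h : u = v + w) :
    ev C k v * ev C k w - ev C k w * ev C k v = (C.eps v w : k) • ev C k u := by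
  unfold ev
  rw [dif_pos hv, dif_pos hw, dif_pos hu]
  exact C.T5_map_comm_add ⟨v, hv⟩ ⟨w, hw⟩ ⟨u, hu⟩ h

private theorem eps2 {n : ℕ} (C : SLC n) (k : Type*) [Field k] [CharP k 2] (v w : Fin n → ℤ) :
    (C.eps v w : k) = 1 := by
  unfold SLC.eps
  rcases Int.units_eq_one_or (C.hf v w).negOnePow with h | h
  · rw [h]
    simp
  · rw [h]
    have h2 : (2 : k) = 0 := CharP.cast_eq_zero k 2
    have h3 : (1 : k) + 1 = 0 := by rw [one_add_one_eq_two, h2]
    simp only [Units.val_neg, Units.val_one, Int.cast_neg, Int.cast_one]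
    exact neg_eq_of_add_eq_zero_left h3

private theorem ev_add2 {n : ℕ} (C : SLC n) (k : Type*) [Field k] [CharP k 2] (v w u : Fin n → ℤ)
    (hv : C.ip v v = 2) (hw : C.ip w w = 2) (hu : C.ip u u = 2) (h : u = v + w) :
    ev C k v * ev C k w - ev C k w * ev C k v = ev C k u := by
  rw [ev_add C k v w u hv hw hu h, eps2, one_smul]

private theorem br22 {ι k : Type*} [Fintype ι] [Field k] {a b c d x y z w : Matrix ι ι k}
    (h1 : a * c - c * a = x) (h2 : a * d - d * a = y) (h3 : b * c - c * b = z)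
    (h4 : b * d - d * b = w) : (a + b) * (c + d) - (c + d) * (a + b) = x + y + z + w := by
  rw [← h1, ← h2, ← h3, ← h4, add_mul, mul_add, mul_add, add_mul, mul_add, mul_add]
  abel

private theorem br12 {ι k : Type*} [Fintype ι] [Field k] {a c d x y : Matrix ι ι k}
    (h1 : a * c - c * a = x) (h2 : a * d - d * a = y) :
    a * (c + d) - (c + d) * a = x + y := by
  rw [← h1, ← h2, mul_add, add_mul]
  abel

private theorem ev_col {n : ℕ} (C : SLC n) (k : Type*) [Field k] (v w : Fin n → ℤ)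
    (hv : C.ip v v = 2) (i : Fin n) :
    ev C k w (Sum.inr ⟨v, hv⟩) (Sum.inl i) =
      if v = w then ((-C.ip (Pi.single i 1) w : ℤ) : k) else 0 := by
  unfold ev
  by_cases hw : C.ip w w = 2
  · rw [dif_pos hw, Matrix.map_apply]
    show ((if v = w then - C.ip (Pi.single i 1) w else 0 : ℤ) : k) = _
    split_ifs with h
    · rfl
    · exact Int.cast_zero
  · rw [dif_neg hw, if_neg]
    · rfl
    · rintro rfl
      exact hw hv

private theorem ne0 {n : ℕ} (C : SLC n) (k : Type*) [Field k] (v w : Fin n → ℤ)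
    (hv : C.ip v v = 2) (i : Fin n) (hi : C.ip (Pi.single i 1) v = 1) (hvw : v ≠ w) :
    ev C k v + ev C k w ≠ 0 := by
  intro h
  have h1 := congrFun (congrFun h (Sum.inr ⟨v, hv⟩)) (Sum.inl i)
  rw [Matrix.add_apply, ev_col, ev_col, if_pos rfl, if_neg hvw, hi] at h1
  simp at h1

theorem iad_A3 (k : Type*) [Field k] [CharP k 2] :
    iad (vm cA3 (ind dA3 k 0)) ([1].map fun b => vm cA3 (ind dA3 k b)) ≠ 0 := by
  have v0 : vm cA3 (ind dA3 k 0) = ev cA3 k ![1, 0, 0] + ev cA3 k ![0, 0, 1] := by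
    unfold vm ind
    rw [Fin.sum_univ_three, if_pos (by decide), if_neg (by decide), if_pos (by decide),
      one_smul, zero_smul, one_smul, add_zero, ← ev_root, ← ev_root]
    have e0 : (cA3.simple 0).val = ![1, 0, 0] := by decide +kernel
    have e2 : (cA3.simple 2).val = ![0, 0, 1] := by decide +kernel
    rw [e0, e2]
  have v1 : vm cA3 (ind dA3 k 1) = ev cA3 k ![0, 1, 0] := by
    unfold vm ind
    rw [Fin.sum_univ_three, if_neg (by decide), if_pos (by decide), if_neg (by decide),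
      one_smul, zero_smul, zero_smul, add_zero, zero_add, ← ev_root]
    have e1 : (cA3.simple 1).val = ![0, 1, 0] := by decide +kernel
    rw [e1]
  show vm cA3 (ind dA3 k 1) * vm cA3 (ind dA3 k 0) - vm cA3 (ind dA3 k 0) * vm cA3 (ind dA3 k 1) ≠ 0
  rw [v0, v1, br12 (ev_add2 cA3 k ![0, 1, 0] ![1, 0, 0] ![1, 1, 0] (by decide +kernel)
      (by decide +kernel) (by decide +kernel) (by decide +kernel))
    (ev_add2 cA3 k ![0, 1, 0] ![0, 0, 1] ![0, 1, 1] (by decide +kernel)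
      (by decide +kernel) (by decide +kernel) (by decide +kernel))]
  exact ne0 cA3 k ![1, 1, 0] ![0, 1, 1] (by decide +kernel) 0 (by decide +kernel) (by decide +kernel)

theorem iad_D4 (k : Type*) [Field k] [CharP k 3] :
    iad (vm cD4 (ind dD4 k 1)) ([0, 0].map fun b => vm cD4 (ind dD4 k b)) ≠ 0 := by
  have v0 : vm cD4 (ind dD4 k 0) = ev cD4 k ![1, 0, 0, 0] + ev cD4 k ![0, 0, 1, 0] +
      ev cD4 k ![0, 0, 0, 1] := by
    unfold vm ind
    rw [Fin.sum_univ_four, if_pos (by decide), if_neg (by decide), if_pos (by decide),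
      if_pos (by decide), one_smul, zero_smul, one_smul, one_smul, add_zero, ← ev_root, ← ev_root,
      ← ev_root]
    have e0 : (cD4.simple 0).val = ![1, 0, 0, 0] := by decide +kernel
    have e2 : (cD4.simple 2).val = ![0, 0, 1, 0] := by decide +kernel
    have e3 : (cD4.simple 3).val = ![0, 0, 0, 1] := by decide +kernel
    rw [e0, e2, e3]
  have v1 : vm cD4 (ind dD4 k 1) = ev cD4 k ![0, 1, 0, 0] := by
    unfold vm ind
    rw [Fin.sum_univ_four, if_neg (by decide), if_pos (by decide), if_neg (by decide),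
      if_neg (by decide), one_smul, zero_smul, zero_smul, zero_smul, add_zero, add_zero, zero_add,
      ← ev_root]
    have e1 : (cD4.simple 1).val = ![0, 1, 0, 0] := by decide +kernel
    rw [e1]
  have a0 := ev_add cD4 k ![1, 0, 0, 0] ![0, 1, 0, 0] ![1, 1, 0, 0] (by decide +kernel)
    (by decide +kernel) (by decide +kernel) (by decide +kernel)
  have a2 := ev_add cD4 k ![0, 0, 1, 0] ![0, 1, 0, 0] ![0, 1, 1, 0] (by decide +kernel)
    (by decide +kernel) (by decide +kernel) (by decide +kernel)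
  have a3 := ev_add cD4 k ![0, 0, 0, 1] ![0, 1, 0, 0] ![0, 1, 0, 1] (by decide +kernel)
    (by decide +kernel) (by decide +kernel) (by decide +kernel)
  have s0 : cD4.eps ![1, 0, 0, 0] ![0, 1, 0, 0] = 1 := by decide +kernel
  have s2 : cD4.eps ![0, 0, 1, 0] ![0, 1, 0, 0] = -1 := by decide +kernel
  have s3 : cD4.eps ![0, 0, 0, 1] ![0, 1, 0, 0] = -1 := by decide +kernel
  rw [s0, Int.cast_one, one_smul] at a0
  rw [s2, Int.cast_neg, Int.cast_one, neg_one_smul] at a2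
  rw [s3, Int.cast_neg, Int.cast_one, neg_one_smul] at a3
  have b00 := ev_comm cD4 k ![1, 0, 0, 0] ![1, 1, 0, 0] (by decide +kernel)
  have b22 := ev_comm cD4 k ![0, 0, 1, 0] ![0, 1, 1, 0] (by decide +kernel)
  have b33 := ev_comm cD4 k ![0, 0, 0, 1] ![0, 1, 0, 1] (by decide +kernel)
  have b02 := ev_add cD4 k ![1, 0, 0, 0] ![0, 1, 1, 0] ![1, 1, 1, 0] (by decide +kernel)
    (by decide +kernel) (by decide +kernel) (by decide +kernel)
  have b03 := ev_add cD4 k ![1, 0, 0, 0] ![0, 1, 0, 1] ![1, 1, 0, 1] (by decide +kernel)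
    (by decide +kernel) (by decide +kernel) (by decide +kernel)
  have b20 := ev_add cD4 k ![0, 0, 1, 0] ![1, 1, 0, 0] ![1, 1, 1, 0] (by decide +kernel)
    (by decide +kernel) (by decide +kernel) (by decide +kernel)
  have b23 := ev_add cD4 k ![0, 0, 1, 0] ![0, 1, 0, 1] ![0, 1, 1, 1] (by decide +kernel)
    (by decide +kernel) (by decide +kernel) (by decide +kernel)
  have b30 := ev_add cD4 k ![0, 0, 0, 1] ![1, 1, 0, 0] ![1, 1, 0, 1] (by decide +kernel)
    (by decide +kernel) (by decide +kernel) (by decide +kernel)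
  have b32 := ev_add cD4 k ![0, 0, 0, 1] ![0, 1, 1, 0] ![0, 1, 1, 1] (by decide +kernel)
    (by decide +kernel) (by decide +kernel) (by decide +kernel)
  have t02 : cD4.eps ![1, 0, 0, 0] ![0, 1, 1, 0] = 1 := by decide +kernel
  have t20 : cD4.eps ![0, 0, 1, 0] ![1, 1, 0, 0] = -1 := by decide +kernel
  rw [t02, Int.cast_one, one_smul] at b02
  rw [t20, Int.cast_neg, Int.cast_one, neg_one_smul] at b20
  have r2 : cD4.ip ![1, 1, 1, 0] ![1, 1, 1, 0] = 2 := by decide +kernel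
  have c0 := ev_col cD4 k ![1, 1, 1, 0] ![1, 1, 1, 0] r2 0
  have c2 := ev_col cD4 k ![1, 1, 1, 0] ![1, 1, 0, 1] r2 0
  have c3 := ev_col cD4 k ![1, 1, 1, 0] ![0, 1, 1, 1] r2 0
  have i0 : cD4.ip (Pi.single 0 1) ![1, 1, 1, 0] = 1 := by decide +kernel
  rw [if_pos rfl, i0] at c0
  rw [if_neg (by decide)] at c2
  rw [if_neg (by decide)] at c3
  set A := ev cD4 k ![1, 0, 0, 0] with hA
  set B := ev cD4 k ![0, 0, 1, 0] with hB
  set D := ev cD4 k ![0, 0, 0, 1] with hD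
  set M := ev cD4 k ![0, 1, 0, 0] with hM
  set A1 := ev cD4 k ![1, 1, 0, 0] with hA1
  set B1 := ev cD4 k ![0, 1, 1, 0] with hB1
  set D1 := ev cD4 k ![0, 1, 0, 1] with hD1
  set P := ev cD4 k ![1, 1, 1, 0] with hP
  set Q := ev cD4 k ![1, 1, 0, 1] with hQ
  set R := ev cD4 k ![0, 1, 1, 1] with hR
  show vm cD4 (ind dD4 k 0) * (vm cD4 (ind dD4 k 0) * vm cD4 (ind dD4 k 1) -
    vm cD4 (ind dD4 k 1) * vm cD4 (ind dD4 k 0)) - (vm cD4 (ind dD4 k 0) * vm cD4 (ind dD4 k 1) -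
    vm cD4 (ind dD4 k 1) * vm cD4 (ind dD4 k 0)) * vm cD4 (ind dD4 k 0) ≠ 0
  rw [v0, v1]
  have h1 : (A + B + D) * M - M * (A + B + D) = A1 - B1 - D1 := by
    have : (A + B + D) * M - M * (A + B + D) = (A * M - M * A) + (B * M - M * B) +
        (D * M - M * D) := by
      simp only [add_mul, mul_add]
      abel
    rw [this, a0, a2, a3]
    abel
  rw [h1]
  have h2 : (A + B + D) * (A1 - B1 - D1) - (A1 - B1 - D1) * (A + B + D) =
      (A * A1 - A1 * A) + (B * A1 - A1 * B) + (D * A1 - A1 * D) -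
      ((A * B1 - B1 * A) + (B * B1 - B1 * B) + (D * B1 - B1 * D)) -
      ((A * D1 - D1 * A) + (B * D1 - D1 * B) + (D * D1 - D1 * D)) := by
    simp only [add_mul, mul_add, sub_mul, mul_sub]
    abel
  rw [h2, b00, b22, b33, b02, b03, b20, b23, b30, b32]
  intro h3
  have h4 := congrFun (congrFun h3 (Sum.inr ⟨![1, 1, 1, 0], r2⟩)) (Sum.inl 0)
  simp only [Matrix.add_apply, Matrix.sub_apply, Matrix.neg_apply, Matrix.smul_apply,
    Matrix.zero_apply, c0, c2, c3, smul_zero, smul_eq_mul, mul_zero, add_zero, zero_add,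
    sub_zero] at h4
  have h5 : (3 : k) = 0 := CharP.cast_eq_zero k 3
  have h6 : (2 : k) = 0 := by
    push_cast at h4
    linear_combination h4
  have h7 : (1 : k) = 0 := by linear_combination h5 - h6
  exact one_ne_zero h7

theorem iad_E6 (k : Type*) [Field k] [CharP k 2] :
    iad (vm cE6 (ind dE6 k 0)) ([2, 3, 1, 2, 3, 2, 0].map fun b => vm cE6 (ind dE6 k b)) ≠ 0 := by
  have n0 : (cE6.simple 0).val = ![1, 0, 0, 0, 0, 0] := by decide +kernel
  have n1 : (cE6.simple 1).val = ![0, 1, 0, 0, 0, 0] := by decide +kernel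
  have n2 : (cE6.simple 2).val = ![0, 0, 1, 0, 0, 0] := by decide +kernel
  have n3 : (cE6.simple 3).val = ![0, 0, 0, 1, 0, 0] := by decide +kernel
  have n4 : (cE6.simple 4).val = ![0, 0, 0, 0, 1, 0] := by decide +kernel
  have n5 : (cE6.simple 5).val = ![0, 0, 0, 0, 0, 1] := by decide +kernel
  have v0 : vm cE6 (ind dE6 k 0) = ev cE6 k ![1, 0, 0, 0, 0, 0] + ev cE6 k ![0, 0, 0, 0, 0, 1] := by
    unfold vm ind
    rw [Fin.sum_univ_six, if_pos (by decide), if_neg (by decide), if_neg (by decide), if_neg (by decide), if_neg (by decide), if_pos (by decide)]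
    simp only [one_smul, zero_smul, add_zero, zero_add]
    rw [← ev_root, ← ev_root, n0, n5]
  have v1 : vm cE6 (ind dE6 k 1) = ev cE6 k ![0, 1, 0, 0, 0, 0] := by
    unfold vm ind
    rw [Fin.sum_univ_six, if_neg (by decide), if_pos (by decide), if_neg (by decide), if_neg (by decide), if_neg (by decide), if_neg (by decide)]
    simp only [one_smul, zero_smul, add_zero, zero_add]
    rw [← ev_root, n1]
  have v2 : vm cE6 (ind dE6 k 2) = ev cE6 k ![0, 0, 1, 0, 0, 0] + ev cE6 k ![0, 0, 0, 0, 1, 0] := by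
    unfold vm ind
    rw [Fin.sum_univ_six, if_neg (by decide), if_neg (by decide), if_pos (by decide), if_neg (by decide), if_pos (by decide), if_neg (by decide)]
    simp only [one_smul, zero_smul, add_zero, zero_add]
    rw [← ev_root, ← ev_root, n2, n4]
  have v3 : vm cE6 (ind dE6 k 3) = ev cE6 k ![0, 0, 0, 1, 0, 0] := by
    unfold vm ind
    rw [Fin.sum_univ_six, if_neg (by decide), if_neg (by decide), if_neg (by decide), if_pos (by decide), if_neg (by decide), if_neg (by decide)]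
    simp only [one_smul, zero_smul, add_zero, zero_add]
    rw [← ev_root, n3]
  have w0 : (ev cE6 k ![0, 0, 1, 0, 0, 0] + ev cE6 k ![0, 0, 0, 0, 1, 0]) *
      (ev cE6 k ![1, 0, 0, 0, 0, 0] + ev cE6 k ![0, 0, 0, 0, 0, 1]) -
      (ev cE6 k ![1, 0, 0, 0, 0, 0] + ev cE6 k ![0, 0, 0, 0, 0, 1]) *
      (ev cE6 k ![0, 0, 1, 0, 0, 0] + ev cE6 k ![0, 0, 0, 0, 1, 0]) =
      ev cE6 k ![1, 0, 1, 0, 0, 0] + ev cE6 k ![0, 0, 0, 0, 1, 1] := by
    rw [br22 (ev_add2 cE6 k ![0, 0, 1, 0, 0, 0] ![1, 0, 0, 0, 0, 0] ![1, 0, 1, 0, 0, 0]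
      (by decide +kernel) (by decide +kernel) (by decide +kernel) (by decide +kernel))
      (ev_comm cE6 k ![0, 0, 1, 0, 0, 0] ![0, 0, 0, 0, 0, 1] (by decide +kernel))
      (ev_comm cE6 k ![0, 0, 0, 0, 1, 0] ![1, 0, 0, 0, 0, 0] (by decide +kernel))
      (ev_add2 cE6 k ![0, 0, 0, 0, 1, 0] ![0, 0, 0, 0, 0, 1] ![0, 0, 0, 0, 1, 1]
      (by decide +kernel) (by decide +kernel) (by decide +kernel) (by decide +kernel))]
    simp only [add_zero, zero_add]
  have w1 : ev cE6 k ![0, 0, 0, 1, 0, 0] *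
      (ev cE6 k ![1, 0, 1, 0, 0, 0] + ev cE6 k ![0, 0, 0, 0, 1, 1]) -
      (ev cE6 k ![1, 0, 1, 0, 0, 0] + ev cE6 k ![0, 0, 0, 0, 1, 1]) *
      ev cE6 k ![0, 0, 0, 1, 0, 0] =
      ev cE6 k ![1, 0, 1, 1, 0, 0] + ev cE6 k ![0, 0, 0, 1, 1, 1] :=
    br12 (ev_add2 cE6 k ![0, 0, 0, 1, 0, 0] ![1, 0, 1, 0, 0, 0] ![1, 0, 1, 1, 0, 0]
      (by decide +kernel) (by decide +kernel) (by decide +kernel) (by decide +kernel))
    (ev_add2 cE6 k ![0, 0, 0, 1, 0, 0] ![0, 0, 0, 0, 1, 1] ![0, 0, 0, 1, 1, 1]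
      (by decide +kernel) (by decide +kernel) (by decide +kernel) (by decide +kernel))
  have w2 : ev cE6 k ![0, 1, 0, 0, 0, 0] *
      (ev cE6 k ![1, 0, 1, 1, 0, 0] + ev cE6 k ![0, 0, 0, 1, 1, 1]) -
      (ev cE6 k ![1, 0, 1, 1, 0, 0] + ev cE6 k ![0, 0, 0, 1, 1, 1]) *
      ev cE6 k ![0, 1, 0, 0, 0, 0] =
      ev cE6 k ![1, 1, 1, 1, 0, 0] + ev cE6 k ![0, 1, 0, 1, 1, 1] :=
    br12 (ev_add2 cE6 k ![0, 1, 0, 0, 0, 0] ![1, 0, 1, 1, 0, 0] ![1, 1, 1, 1, 0, 0]
      (by decide +kernel) (by decide +kernel) (by decide +kernel) (by decide +kernel))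
    (ev_add2 cE6 k ![0, 1, 0, 0, 0, 0] ![0, 0, 0, 1, 1, 1] ![0, 1, 0, 1, 1, 1]
      (by decide +kernel) (by decide +kernel) (by decide +kernel) (by decide +kernel))
  have w3 : (ev cE6 k ![0, 0, 1, 0, 0, 0] + ev cE6 k ![0, 0, 0, 0, 1, 0]) *
      (ev cE6 k ![1, 1, 1, 1, 0, 0] + ev cE6 k ![0, 1, 0, 1, 1, 1]) -
      (ev cE6 k ![1, 1, 1, 1, 0, 0] + ev cE6 k ![0, 1, 0, 1, 1, 1]) *
      (ev cE6 k ![0, 0, 1, 0, 0, 0] + ev cE6 k ![0, 0, 0, 0, 1, 0]) =
      ev cE6 k ![0, 1, 1, 1, 1, 1] + ev cE6 k ![1, 1, 1, 1, 1, 0] := by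
    rw [br22 (ev_comm cE6 k ![0, 0, 1, 0, 0, 0] ![1, 1, 1, 1, 0, 0] (by decide +kernel))
      (ev_add2 cE6 k ![0, 0, 1, 0, 0, 0] ![0, 1, 0, 1, 1, 1] ![0, 1, 1, 1, 1, 1]
      (by decide +kernel) (by decide +kernel) (by decide +kernel) (by decide +kernel))
      (ev_add2 cE6 k ![0, 0, 0, 0, 1, 0] ![1, 1, 1, 1, 0, 0] ![1, 1, 1, 1, 1, 0]
      (by decide +kernel) (by decide +kernel) (by decide +kernel) (by decide +kernel))
      (ev_comm cE6 k ![0, 0, 0, 0, 1, 0] ![0, 1, 0, 1, 1, 1] (by decide +kernel))]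
    simp only [add_zero, zero_add]
  have w4 : ev cE6 k ![0, 0, 0, 1, 0, 0] *
      (ev cE6 k ![0, 1, 1, 1, 1, 1] + ev cE6 k ![1, 1, 1, 1, 1, 0]) -
      (ev cE6 k ![0, 1, 1, 1, 1, 1] + ev cE6 k ![1, 1, 1, 1, 1, 0]) *
      ev cE6 k ![0, 0, 0, 1, 0, 0] =
      ev cE6 k ![0, 1, 1, 2, 1, 1] + ev cE6 k ![1, 1, 1, 2, 1, 0] :=
    br12 (ev_add2 cE6 k ![0, 0, 0, 1, 0, 0] ![0, 1, 1, 1, 1, 1] ![0, 1, 1, 2, 1, 1]
      (by decide +kernel) (by decide +kernel) (by decide +kernel) (by decide +kernel))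
    (ev_add2 cE6 k ![0, 0, 0, 1, 0, 0] ![1, 1, 1, 1, 1, 0] ![1, 1, 1, 2, 1, 0]
      (by decide +kernel) (by decide +kernel) (by decide +kernel) (by decide +kernel))
  have w5 : (ev cE6 k ![0, 0, 1, 0, 0, 0] + ev cE6 k ![0, 0, 0, 0, 1, 0]) *
      (ev cE6 k ![0, 1, 1, 2, 1, 1] + ev cE6 k ![1, 1, 1, 2, 1, 0]) -
      (ev cE6 k ![0, 1, 1, 2, 1, 1] + ev cE6 k ![1, 1, 1, 2, 1, 0]) *
      (ev cE6 k ![0, 0, 1, 0, 0, 0] + ev cE6 k ![0, 0, 0, 0, 1, 0]) =
      ev cE6 k ![1, 1, 2, 2, 1, 0] + ev cE6 k ![0, 1, 1, 2, 2, 1] := by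
    rw [br22 (ev_comm cE6 k ![0, 0, 1, 0, 0, 0] ![0, 1, 1, 2, 1, 1] (by decide +kernel))
      (ev_add2 cE6 k ![0, 0, 1, 0, 0, 0] ![1, 1, 1, 2, 1, 0] ![1, 1, 2, 2, 1, 0]
      (by decide +kernel) (by decide +kernel) (by decide +kernel) (by decide +kernel))
      (ev_add2 cE6 k ![0, 0, 0, 0, 1, 0] ![0, 1, 1, 2, 1, 1] ![0, 1, 1, 2, 2, 1]
      (by decide +kernel) (by decide +kernel) (by decide +kernel) (by decide +kernel))
      (ev_comm cE6 k ![0, 0, 0, 0, 1, 0] ![1, 1, 1, 2, 1, 0] (by decide +kernel))]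
    simp only [add_zero, zero_add]
  have w6 : (ev cE6 k ![1, 0, 0, 0, 0, 0] + ev cE6 k ![0, 0, 0, 0, 0, 1]) *
      (ev cE6 k ![1, 1, 2, 2, 1, 0] + ev cE6 k ![0, 1, 1, 2, 2, 1]) -
      (ev cE6 k ![1, 1, 2, 2, 1, 0] + ev cE6 k ![0, 1, 1, 2, 2, 1]) *
      (ev cE6 k ![1, 0, 0, 0, 0, 0] + ev cE6 k ![0, 0, 0, 0, 0, 1]) =
      ev cE6 k ![1, 1, 1, 2, 2, 1] + ev cE6 k ![1, 1, 2, 2, 1, 1] := by
    rw [br22 (ev_comm cE6 k ![1, 0, 0, 0, 0, 0] ![1, 1, 2, 2, 1, 0] (by decide +kernel))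
      (ev_add2 cE6 k ![1, 0, 0, 0, 0, 0] ![0, 1, 1, 2, 2, 1] ![1, 1, 1, 2, 2, 1]
      (by decide +kernel) (by decide +kernel) (by decide +kernel) (by decide +kernel))
      (ev_add2 cE6 k ![0, 0, 0, 0, 0, 1] ![1, 1, 2, 2, 1, 0] ![1, 1, 2, 2, 1, 1]
      (by decide +kernel) (by decide +kernel) (by decide +kernel) (by decide +kernel))
      (ev_comm cE6 k ![0, 0, 0, 0, 0, 1] ![0, 1, 1, 2, 2, 1] (by decide +kernel))]
    simp only [add_zero, zero_add]
  show iad (vm cE6 (ind dE6 k 0)) [vm cE6 (ind dE6 k 2), vm cE6 (ind dE6 k 3),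
    vm cE6 (ind dE6 k 1), vm cE6 (ind dE6 k 2), vm cE6 (ind dE6 k 3), vm cE6 (ind dE6 k 2),
    vm cE6 (ind dE6 k 0)] ≠ 0
  rw [v0, v1, v2, v3]
  have hc : ∀ (A B : Matrix cE6.Idx cE6.Idx k) (l : List (Matrix cE6.Idx cE6.Idx k)),
      iad A (B :: l) = iad (B * A - A * B) l := fun _ _ _ => rfl
  have hn : ∀ A : Matrix cE6.Idx cE6.Idx k, iad A [] = A := fun _ => rfl
  rw [hc, w0, hc, w1, hc, w2, hc, w3, hc, w4, hc, w5, hc, w6, hn]
  exact ne0 cE6 k ![1, 1, 1, 2, 2, 1] ![1, 1, 2, 2, 1, 1] (by decide +kernel) 0 (by decide +kernel) (by decide +kernel)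

end Pool.Agent.H86.UM
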