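import Pool.Agent.H86.UM.ZL
import Pool.Agent.H86.UM.ZW3
import Pool.Agent.H86.UM.ZC2
import Pool.Agent.H86.UM.ZCD
import Pool.Agent.H86.UM.Z11
import Pool.Agent.H86.UM.Z12

/-!
# Project UM, Suzuki-Ree groups, module ZN: words and nonvanishing for the three types

`NVp_..`: `nonvan2` with `dp_A3`, `dp_E6`; `nonvan3`.
`word_..`: `exists_word_sr` with `iad_..` and `JHyp.onto` of `jhyp_..` (`SRs.chr` with `dA3_m` etc.); the length of `l` is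
that of `bs` (`List.Forall₂.length_eq`). Last component: `A₃`: `b₀ = 0`, `bs = [1]`: `JJ 0 i` for all `i` (`ρ 0 = 2`,
`t0 0 = 1`). `D₄`: `b₀ = 1`, `bs = [0, 0]`, `JJ 1 i` for all `i` (`t0 1 = 0`, cycle `0, 2, 3`). `E₆`: `b₀ = 0`,
`bs = [2, 3, 1, 2, 3, 2, 0]`: `JJ 0 i` for `i = 0, 1, 5`, `JJ 2 i` for `i = 2, 3, 4`.
-/

set_option autoImplicit false
open Matrix

namespace Pool.Agent.H86.UM

open Pool.Agent.H75.UL

theorem NVp_A3 (L : Type*) [Field L] [Infinite L] [CharP L 2] : NVp dA3 L 2 := by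
  intro g₀ l hg hlen hne
  exact nonvan2 swap_A3.na dA3_m 2 (fun β hβ => (dp_A3 β hβ).1) (fun β hβ h => (dp_A3 β hβ).2 h)
    g₀ l hg hlen hne

theorem NVp_D4 (L : Type*) [Field L] [Infinite L] [CharP L 3] : NVp dD4 L 3 := by
  intro g₀ l hg hlen hne
  exact nonvan3 g₀ l hg hlen hne

theorem NVp_E6 (L : Type*) [Field L] [Infinite L] [CharP L 2] : NVp dE6 L 8 := by
  intro g₀ l hg hlen hne
  exact nonvan2 swap_E6.na dE6_m 8 (fun β hβ => (dp_E6 β hβ).1) (fun β hβ h => (dp_E6 β hβ).2 h)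
    g₀ l hg hlen hne

variable {k : Type*} [Field k] [Infinite k] {θ : k ≃+* k}

private theorem ZN_word {n : ℕ} {C : SLC n} {D : Dg C} {t0 : Fin n → Fin n} (hS : Swap D t0)
    {σ : GF D k →* GF D k} (h : SRs D t0 θ σ) {N : ℕ} (hJ : JHyp hS σ N)
    (b₀ : Fin n) (bs : List (Fin n))
    (hb : iad (vm C (ind D k b₀)) (bs.map fun b => vm C (ind D k b)) ≠ 0)
    (c : ℕ) (hc : bs.length + 1 = c) (hj : ∀ i, JJ D t0 b₀ i ∨ ∃ b ∈ bs, JJ D t0 b i) :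
    WordS hS σ c := by
  obtain ⟨x₀, l, h1, h2, h3⟩ := exists_word_sr hS h hJ.onto b₀ bs hb
  exact ⟨b₀, bs, x₀, l, h1, h2, h3, by rw [← h2.length_eq]; exact hc, hj⟩

theorem word_A3 {σ : GF dA3 k →* GF dA3 k} (h : SRs dA3 tA3 θ σ) : WordS swap_A3 σ 2 := by
  have : CharP k 2 := by
    have h1 := h.chr
    rwa [dA3_m] at h1
  refine ZN_word swap_A3 h (jhyp_A3 h) 0 [1] (iad_A3 k) 2 rfl ?_
  unfold JJ
  decide

theorem word_D4 {σ : GF dD4 k →* GF dD4 k} (h : SRs dD4 tD4 θ σ) : WordS swap_D4 σ 3 := by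
  have : CharP k 3 := by
    have h1 := h.chr
    rwa [dD4_m] at h1
  refine ZN_word swap_D4 h (jhyp_D4 h) 1 [0, 0] (iad_D4 k) 3 rfl ?_
  unfold JJ
  decide

theorem word_E6 {σ : GF dE6 k →* GF dE6 k} (h : SRs dE6 tE6 θ σ) : WordS swap_E6 σ 8 := by
  have : CharP k 2 := by
    have h1 := h.chr
    rwa [dE6_m] at h1
  refine ZN_word swap_E6 h (jhyp_E6 h) 0 [2, 3, 1, 2, 3, 2, 0] (iad_E6 k) 8 rfl ?_
  unfold JJ
  decide

end Pool.Agent.H86.UM
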