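import Pool.Agent.H86.UM.Z9
import Pool.Agent.H86.UM.W1

/-!
# Project UM, Suzuki-Ree groups, module ZW: words

`icomm_ne_one'`: the proof of `icomm_ne_one` in W1.lean does not use that `l.length + 1` is the height of the highest
root; copy it (with the private lemmas `W1_Hom_..`, `W1_eq_zero`).

`exists_word_sr`: `ind D b` is the indicator vector of the cycle of `b`. Let `V b` be the set of the vectors
`(ξ_j x)_j` for `x ∈ XJ b`. For `x ∈ XJ i`, `i` short, `ξ_i x = t`: `ξ_j x = t` for `j` in the cycle of `i`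
(`xi_sgl` with `θ = 1`), `ξ_(t0 i) x = θ t` (`sig_xi`, `σ x = x`), `ξ_j x = 0` for `j` outside `JJ i`
(`FR (RJ i)`: generators, `xi_yg`). As all `t` occur (`hon`), `ind D i` and `ind D (t0 i)` are in the span of
`V i = V (t0 i)` (`XJ_congr`): take `t = 1` and a `t` with `θ t ≠ t` (exists since `θ (θ t) = t ^ m`, `m = 2, 3`, and
`k` is infinite). `ld x = vm (ξ_j x)_j` (definition). `iad A l` is multilinear in `A` and the members of `l`
(private lemmas `W1_iad_add`, `W1_iad_smul`, `W1_exists`, `W1_replace` in W1.lean): if it is nonzero for the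
`vm (ind D b)` then it is nonzero for some choice of elements of `V b`: replace one vector after the other
(if a linear function is nonzero at a vector of a span, then at one of the generators). Then `icomm_ne_one'`
(`x ∈ FU`, so in `U 1`), and `icomm` is compatible with the inclusion `GF D k → GL`.
-/

set_option autoImplicit false
open Matrix

namespace Pool.Agent.H86.UM

open Pool.Agent.H75.UL

variable {n : ℕ} {C : SLC n}

section
open Pool.Agent.H75.UL.SLC
variable (C)

private theorem ZW_iad_add {ι R : Type*} [Fintype ι] [CommRing R] (l : List (Matrix ι ι R))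
    (A B : Matrix ι ι R) : iad (A + B) l = iad A l + iad B l := by
  induction l generalizing A B with
  | nil => rfl
  | cons M l ih =>
    have h1 : ∀ D : Matrix ι ι R, iad D (M :: l) = iad (M * D - D * M) l := fun D => rfl
    rw [h1, h1, h1, ← ih]
    congr 1
    rw [mul_add, add_mul]
    abel

private theorem ZW_iad_smul {ι R : Type*} [Fintype ι] [CommRing R] (l : List (Matrix ι ι R))
    (c : R) (A : Matrix ι ι R) : iad (c • A) l = c • iad A l := by
  induction l generalizing A with
  | nil => rfl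
  | cons M l ih =>
    have h1 : ∀ D : Matrix ι ι R, iad D (M :: l) = iad (M * D - D * M) l := fun D => rfl
    rw [h1, h1, ← ih]
    congr 1
    rw [mul_smul_comm, smul_mul_assoc, smul_sub]

private theorem ZW_vm_add {k : Type*} [Field k] (v w : Fin n → k) :
    vm C (v + w) = vm C v + vm C w := by
  unfold vm
  rw [← Finset.sum_add_distrib]
  exact Finset.sum_congr rfl fun j _ => by rw [Pi.add_apply, add_smul]

private theorem ZW_vm_smul {k : Type*} [Field k] (c : k) (v : Fin n → k) :
    vm C (c • v) = c • vm C v := by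
  unfold vm
  rw [Finset.smul_sum]
  exact Finset.sum_congr rfl fun j _ => by rw [Pi.smul_apply, smul_eq_mul, mul_smul]

private def ZW_Hom {R : Type*} [CommRing R] (m : ℤ) (M : Matrix C.Idx C.Idx R) : Prop :=
  ∀ a b, C.hti a ≠ C.hti b + m → M a b = 0

private theorem ZW_Hom_mul {R : Type*} [CommRing R] {m k : ℤ} {M N : Matrix C.Idx C.Idx R}
    (hM : ZW_Hom C m M) (hN : ZW_Hom C k N) : ZW_Hom C (m + k) (M * N) := by
  intro a b hab
  rw [Matrix.mul_apply]
  refine Finset.sum_eq_zero fun c _ => ?_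
  by_cases h : C.hti a = C.hti c + m
  · rw [hN c b (by omega), mul_zero]
  · rw [hM a c h, zero_mul]

private theorem ZW_Hom_sub {R : Type*} [CommRing R] {m : ℤ} {M N : Matrix C.Idx C.Idx R}
    (hM : ZW_Hom C m M) (hN : ZW_Hom C m N) : ZW_Hom C m (M - N) := by
  intro a b hab
  rw [Matrix.sub_apply, hM a b hab, hN a b hab, sub_zero]

private theorem ZW_Hom_E (R : Type*) [CommRing R] (α : C.Root) :
    ZW_Hom C (ht α.1) ((C.E α).map (Int.cast : ℤ → R)) := by
  intro a b hab
  rw [Matrix.map_apply]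
  have h : C.E α a b = 0 := by
    rcases a with i | γ <;> rcases b with j | β
    · rfl
    · simp only [E]
      rw [if_neg]
      intro h
      simp only [hti, Sum.elim_inl, Sum.elim_inr] at hab
      rw [h, ht_neg] at hab
      omega
    · simp only [E]
      rw [if_neg]
      intro h
      simp only [hti, Sum.elim_inl, Sum.elim_inr] at hab
      rw [h] at hab
      omega
    · simp only [E]
      rw [if_neg]
      intro h
      simp only [hti, Sum.elim_inr] at hab
      rw [h, ht_add] at hab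
      omega
  rw [h, Int.cast_zero]

private theorem ZW_Hom_ld {K : Type*} [Field K] (M : Matrix C.Idx C.Idx K) :
    ZW_Hom C 1 (C.ld M) := by
  intro a b hab
  unfold ld
  rw [Matrix.sum_apply]
  refine Finset.sum_eq_zero fun j _ => ?_
  have h1 := ZW_Hom_E C K (C.simple j)
  rw [C.ht_simple] at h1
  rw [Matrix.smul_apply, h1 a b hab, smul_zero]

private theorem ZW_Hom_iad {K : Type*} [Field K] (l : List (Matrix C.Idx C.Idx K))
    (hl : ∀ B ∈ l, ZW_Hom C 1 B) (m : ℤ) (A : Matrix C.Idx C.Idx K) (hA : ZW_Hom C m A) :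
    ZW_Hom C (m + l.length) (iad A l) := by
  induction l generalizing m A with
  | nil => simpa [iad] using hA
  | cons B l ih =>
    have hB := hl B List.mem_cons_self
    have h1 : ZW_Hom C (m + 1) (B * A - A * B) := by
      refine ZW_Hom_sub C ?_ (ZW_Hom_mul C hA hB)
      have h2 := ZW_Hom_mul C hB hA
      rwa [add_comm 1 m] at h2
    have h2 := ih (fun B' hB' => hl B' (List.mem_cons_of_mem _ hB')) (m + 1) _ h1
    have e : iad A (B :: l) = iad (B * A - A * B) l := rfl
    have e2 : m + (((B :: l).length : ℕ) : ℤ) = m + 1 + (l.length : ℤ) := by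
      rw [List.length_cons]
      push_cast
      ring
    rw [e, e2]
    exact h2

private theorem ZW_eq_zero {R : Type*} [CommRing R] {m : ℤ} {M : Matrix C.Idx C.Idx R}
    (hM : ZW_Hom C m M) (hF : C.Fil (m + 1) M) : M = 0 := by
  ext a b
  rw [Matrix.zero_apply]
  by_cases h : C.hti a = C.hti b + m
  · exact hF a b (by omega)
  · exact hM a b h


end

theorem icomm_ne_one' {k : Type*} [Field k] (g : GL C.Idx k) (l : List (GL C.Idx k))
    (hg : g ∈ (C.adS k).U 1) (hl : ∀ h ∈ l, h ∈ (C.adS k).U 1)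
    (h : iad (C.ld (g : Matrix C.Idx C.Idx k))
      (l.map fun h => C.ld (h : Matrix C.Idx C.Idx k)) ≠ 0) : icomm g l ≠ 1 := by
  intro h1
  apply h
  have hg2 : C.Fil (1 + 1) ((g : Matrix C.Idx C.Idx k) - 1 - C.ld (g : Matrix C.Idx C.Idx k)) :=
    C.lead_U g hg
  have h2 := (C.icomm_lead g l 1 le_rfl _ (C.Fil_ld _) hg2 hl).2
  rw [h1, Units.val_one, sub_self, zero_sub] at h2
  have h3 := C.Fil_neg h2
  rw [neg_neg] at h3
  have h4 := ZW_Hom_iad C (l.map fun h => C.ld (h : Matrix C.Idx C.Idx k))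
    (by
      intro B hB
      obtain ⟨x, _, rfl⟩ := List.mem_map.1 hB
      exact ZW_Hom_ld C _) 1 (C.ld (g : Matrix C.Idx C.Idx k)) (ZW_Hom_ld C _)
  rw [List.length_map] at h4
  have h5 : ∀ l : List (GL C.Idx k),
      (l >>= fun a => pure (a : Matrix C.Idx C.Idx k)).length = l.length := by
    intro l
    simp
  rw [h5] at h4
  exact ZW_eq_zero C h4 h3

open Classical in
/-- the indicator vector of a cycle of nodes -/
noncomputable def ind (D : Dg C) (k : Type*) [Field k] (b : Fin n) : Fin n → k :=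
  fun j => if D.ρ.SameCycle b j then 1 else 0

/-- a linear function which is not zero at a vector of a span is not zero at a generator -/
private theorem ZW_exists {k M : Type*} [Field k] [AddCommGroup M] [Module k M]
    (f : (Fin n → k) → M) (hadd : ∀ v w, f (v + w) = f v + f w)
    (hsmul : ∀ (c : k) v, f (c • v) = c • f v)
    (G : Set (Fin n → k)) (v : Fin n → k) (h1 : v ∈ Submodule.span k G) (hv : f v ≠ 0) :
    ∃ w ∈ G, f w ≠ 0 := by
  by_contra hcon
  push Not at hcon
  apply hv
  clear hv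
  induction h1 using Submodule.span_induction with
  | mem x hx => exact hcon x hx
  | zero =>
    have h := hsmul 0 0
    rwa [zero_smul, zero_smul] at h
  | add x y _ _ hx hy => rw [hadd, hx, hy, add_zero]
  | smul c x _ hx => rw [hsmul, hx, smul_zero]

/-- the vector of an element -/
private noncomputable def ZW_vec (D : Dg C) {k : Type*} [Field k] (x : GF D k) : Fin n → k :=
  fun j => C.xi j ((x : GL C.Idx k) : Matrix C.Idx C.Idx k)

private theorem ZW_ld (D : Dg C) {k : Type*} [Field k] (x : GF D k) :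
    vm C (ZW_vec D x) = C.ld ((x : GL C.Idx k) : Matrix C.Idx C.Idx k) := rfl

/-- the coordinates of the elements of `FR (RJ i)` -/
private theorem ZW_FR {D : Dg C} {t0 : Fin n → Fin n} (hS : Swap D t0)
    {k : Type*} [Field k] [Infinite k] (b : Fin n) (x : GF D k)
    (hx : x ∈ FR hS.na k (RJ D t0 b)) :
    (∀ i j, D.ρ.SameCycle i j → ZW_vec D x i = ZW_vec D x j) ∧
      ∀ j, ¬ JJ D t0 b j → ZW_vec D x j = 0 := by
  have hle : FR hS.na k (RJ D t0 b) ≤ FU D k := by
    rw [FU_FR hS.na]
    exact FR_mono hS.na fun β hβ => hβ.1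
  have hone : ∀ j, ZW_vec D (1 : GF D k) j = 0 := by
    intro j
    unfold ZW_vec
    rw [Subgroup.coe_one, Units.val_one]
    exact C.xi_one j
  have hmul : ∀ x y : GF D k, x ∈ FU D k → y ∈ FU D k → ∀ j,
      ZW_vec D (x * y) j = ZW_vec D x j + ZW_vec D y j := by
    intro x y hx hy j
    unfold ZW_vec
    rw [Subgroup.coe_mul]
    exact C.xi_mul j _ _ hx.1 hy.1
  have hinv : ∀ x : GF D k, x ∈ FU D k → ∀ j, ZW_vec D (x⁻¹) j = - ZW_vec D x j := by
    intro x hx j
    unfold ZW_vec
    rw [Subgroup.coe_inv]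
    exact C.xi_inv j _ hx.1
  unfold FR at hx
  induction hx using Subgroup.closure_induction with
  | mem g hg =>
    obtain ⟨β, hβ, t, rfl⟩ := hg
    constructor
    · intro i j hij
      by_cases hc : ∃ l, β = C.simple l ∧ D.ρ.SameCycle l i
      · have h1 := (xi_yg hS.na i β hβ.1 t).1 hc
        obtain ⟨l, hl, hl'⟩ := hc
        have h2 := (xi_yg hS.na j β hβ.1 t).1 ⟨l, hl, hl'.trans hij⟩
        unfold ZW_vec
        rw [h1, h2]
      · have h1 := (xi_yg hS.na i β hβ.1 t).2 hc
        have h2 := (xi_yg hS.na j β hβ.1 t).2 (by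
          rintro ⟨l, hl, hl'⟩
          exact hc ⟨l, hl, hl'.trans hij.symm⟩)
        unfold ZW_vec
        rw [h1, h2]
    · intro j hj
      apply (xi_yg hS.na j β hβ.1 t).2
      rintro ⟨l, hl, hl'⟩
      apply hj
      have h3 : JJ D t0 b l := by
        apply hβ.2
        rw [hl, SLC.simple_val, Pi.single_eq_same]
        exact one_ne_zero
      exact JJ_trans hS _ _ _ h3 (Or.inl hl')
  | one => exact ⟨fun i j _ => by rw [hone, hone], fun j _ => hone j⟩
  | mul x y hx' hy' hx hy =>
    have h1 := hmul x y (hle hx') (hle hy')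
    constructor
    · intro i j hij
      rw [h1, h1, hx.1 i j hij, hy.1 i j hij]
    · intro j hj
      rw [h1, hx.2 j hj, hy.2 j hj, add_zero]
  | inv x hx' hx =>
    have h1 := hinv x (hle hx')
    constructor
    · intro i j hij
      rw [h1, h1, hx.1 i j hij]
    · intro j hj
      rw [h1, hx.2 j hj, neg_zero]

/-- there is an element which is not fixed by `θ` -/
private theorem ZW_theta {D : Dg C} {t0 : Fin n → Fin n} (hS : Swap D t0)
    {k : Type*} [Field k] [Infinite k] {θ : k ≃+* k} {σ : GF D k →* GF D k}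
    (h : SRs D t0 θ σ) : ∃ t : k, θ t ≠ t := by
  by_contra hcon
  push Not at hcon
  have h1 : ∀ t : k, t ^ D.m = t := by
    intro t
    rw [← h.hθ, hcon, hcon]
  have h2 : (Polynomial.X ^ D.m : Polynomial k) = Polynomial.X := by
    apply Polynomial.funext
    intro r
    rw [Polynomial.eval_pow, Polynomial.eval_X, h1]
  have h3 := congrArg Polynomial.natDegree h2
  rw [Polynomial.natDegree_X_pow, Polynomial.natDegree_X] at h3
  exact hS.m_ne h3

private theorem ZW_short {D : Dg C} {t0 : Fin n → Fin n} (hS : Swap D t0)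
    {k : Type*} [Field k] [Infinite k] {θ : k ≃+* k} {σ : GF D k →* GF D k}
    (h : SRs D t0 θ σ)
    (hon : ∀ i, D.ρ i ≠ i → ∀ t : k, ∃ x ∈ XJ hS.na t0 σ i,
      C.xi i ((x : GL C.Idx k) : Matrix C.Idx C.Idx k) = t) (b : Fin n) (hb : D.ρ b ≠ b) :
    ind D k b ∈ Submodule.span k {v | ∃ x ∈ XJ hS.na t0 σ b, v = ZW_vec D x} ∧
    ind D k (t0 b) ∈ Submodule.span k {v | ∃ x ∈ XJ hS.na t0 σ b, v = ZW_vec D x} := by
  have key : ∀ t : k, t • ind D k b + θ t • ind D k (t0 b) ∈
      Submodule.span k {v | ∃ x ∈ XJ hS.na t0 σ b, v = ZW_vec D x} := by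
    intro t
    obtain ⟨x, hx, ht⟩ := hon b hb t
    have hU := ((XJ_le hS b).1 hx).1
    have hfr := ZW_FR hS b x hx.1
    have hs := sig_xi hS h x hU b
    rw [(mem_Fx σ x).1 hx.2, ht] at hs
    have hth : th D θ (C.simple b) t = θ t := by
      unfold th
      rw [if_neg]
      rw [D.r_simple]
      intro h1
      exact hb (C.simple_injective h1)
    rw [hth] at hs
    apply Submodule.subset_span
    refine ⟨x, hx, ?_⟩
    funext j
    have hnc : ¬ D.ρ.SameCycle b (t0 b) := by
      intro h1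
      have h2 : D.ρ (t0 b) = t0 b := (hS.fix_iff b).2 hb
      have h3 : D.ρ.SameCycle (t0 b) b := h1.symm
      obtain ⟨z, hz⟩ := h3
      rw [Equiv.Perm.zpow_apply_eq_self_of_apply_eq_self h2] at hz
      rw [hz] at h2
      exact hb h2
    simp only [Pi.add_apply, Pi.smul_apply, smul_eq_mul, ind]
    by_cases h1 : D.ρ.SameCycle b j
    · have h2 : ¬ D.ρ.SameCycle (t0 b) j := fun h3 => hnc (h1.trans h3.symm)
      rw [if_pos h1, if_neg h2, ← hfr.1 b j h1, mul_one, mul_zero, add_zero]
      exact ht.symm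
    · by_cases h2 : D.ρ.SameCycle (t0 b) j
      · rw [if_neg h1, if_pos h2, ← hfr.1 _ j h2, mul_one, mul_zero, zero_add]
        exact hs.symm
      · rw [if_neg h1, if_neg h2, hfr.2 j (fun h3 => h3.elim h1 h2), mul_zero, mul_zero, add_zero]
  obtain ⟨t, ht⟩ := ZW_theta hS h
  have h1 := key 1
  have h2 := key t
  rw [map_one, one_smul, one_smul] at h1
  have h3 := Submodule.sub_mem _ h2 (Submodule.smul_mem _ t h1)
  have h4 : t • ind D k b + θ t • ind D k (t0 b) - t • (ind D k b + ind D k (t0 b)) =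
      (θ t - t) • ind D k (t0 b) := by
    rw [smul_add, sub_smul]
    abel
  rw [h4] at h3
  have h5 : ind D k (t0 b) ∈
      Submodule.span k {v | ∃ x ∈ XJ hS.na t0 σ b, v = ZW_vec D x} := by
    have h6 := Submodule.smul_mem _ (θ t - t)⁻¹ h3
    rwa [smul_smul, inv_mul_cancel₀ (sub_ne_zero.2 ht), one_smul] at h6
  refine ⟨?_, h5⟩
  have h7 := Submodule.sub_mem _ h1 h5
  rwa [add_sub_cancel_right] at h7

private theorem ZW_span {D : Dg C} {t0 : Fin n → Fin n} (hS : Swap D t0)
    {k : Type*} [Field k] [Infinite k] {θ : k ≃+* k} {σ : GF D k →* GF D k}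
    (h : SRs D t0 θ σ)
    (hon : ∀ i, D.ρ i ≠ i → ∀ t : k, ∃ x ∈ XJ hS.na t0 σ i,
      C.xi i ((x : GL C.Idx k) : Matrix C.Idx C.Idx k) = t) (b : Fin n) :
    ind D k b ∈ Submodule.span k {v | ∃ x ∈ XJ hS.na t0 σ b, v = ZW_vec D x} := by
  by_cases hb : D.ρ b = b
  · have h1 : D.ρ (t0 b) ≠ t0 b := by
      intro h2
      exact (hS.fix_iff b).1 h2 hb
    have h2 := (ZW_short hS h hon (t0 b) h1).2
    have h3 : ind D k (t0 (t0 b)) = ind D k b := by
      funext j
      have h4 : D.ρ.SameCycle (t0 (t0 b)) j ↔ D.ρ.SameCycle b j :=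
        ⟨fun h5 => (hS.inv b).trans h5, fun h5 => (hS.inv b).symm.trans h5⟩
      simp only [ind, h4]
    have h4 : XJ hS.na t0 σ b = XJ hS.na t0 σ (t0 b) :=
      (XJ_congr hS b (t0 b) (Or.inr (Equiv.Perm.SameCycle.refl _ _))).1
    rw [h3] at h2
    rw [h4]
    exact h2
  · exact (ZW_short hS h hon b hb).1

private theorem ZW_replace {D : Dg C} {t0 : Fin n → Fin n} (hS : Swap D t0)
    {k : Type*} [Field k] [Infinite k] {θ : k ≃+* k} {σ : GF D k →* GF D k}
    (h : SRs D t0 θ σ)
    (hon : ∀ i, D.ρ i ≠ i → ∀ t : k, ∃ x ∈ XJ hS.na t0 σ i,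
      C.xi i ((x : GL C.Idx k) : Matrix C.Idx C.Idx k) = t) (bs : List (Fin n))
    (A : Matrix C.Idx C.Idx k)
    (hb : iad A (bs.map fun b => vm C (ind D k b)) ≠ 0) :
    ∃ l : List (GF D k), List.Forall₂ (fun b x => x ∈ XJ hS.na t0 σ b) bs l ∧
      iad A (l.map fun x => vm C (ZW_vec D x)) ≠ 0 := by
  induction bs generalizing A with
  | nil => exact ⟨[], List.Forall₂.nil, hb⟩
  | cons b bs ih =>
    obtain ⟨l, hl, hne⟩ := ih (vm C (ind D k b) * A - A * vm C (ind D k b)) hb
    obtain ⟨w, ⟨x, hx, rfl⟩, hwne⟩ := ZW_exists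
      (fun w => iad (vm C w * A - A * vm C w) (l.map fun x => vm C (ZW_vec D x)))
      (by
        intro x y
        rw [← ZW_iad_add, ZW_vm_add]
        congr 1
        rw [mul_add, add_mul]
        abel)
      (by
        intro c x
        rw [← ZW_iad_smul, ZW_vm_smul]
        congr 1
        rw [mul_smul_comm, smul_mul_assoc, smul_sub])
      _ _ (ZW_span hS h hon b) hne
    exact ⟨x :: l, List.Forall₂.cons hx hl, hwne⟩

private theorem ZW_bind.{v} {α β : Type v} (f : α → β) (l : List α) :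
    (l >>= fun a => pure (f a)) = l.map f := by
  induction l with
  | nil => rfl
  | cons x l ih =>
    rw [List.map_cons, ← ih]
    rfl

private theorem ZW_icomm (D : Dg C) {k : Type*} [Field k] (x : GF D k) (l : List (GF D k)) :
    ((icomm x l : GF D k) : GL C.Idx k) = icomm (x : GL C.Idx k) (l.map Subtype.val) := by
  induction l generalizing x with
  | nil => rfl
  | cons y l ih =>
    have e1 : icomm x (y :: l) = icomm (y * x * y⁻¹ * x⁻¹) l := rfl
    have e2 : icomm (x : GL C.Idx k) ((y :: l).map Subtype.val) =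
      icomm ((y : GL C.Idx k) * x * (y : GL C.Idx k)⁻¹ * (x : GL C.Idx k)⁻¹)
        (l.map Subtype.val) := rfl
    rw [e1, e2, ih]
    rfl

theorem exists_word_sr {D : Dg C} {t0 : Fin n → Fin n} (hS : Swap D t0)
    {k : Type*} [Field k] [Infinite k] {θ : k ≃+* k} {σ : GF D k →* GF D k}
    (h : SRs D t0 θ σ)
    (hon : ∀ i, D.ρ i ≠ i → ∀ t : k, ∃ x ∈ XJ hS.na t0 σ i,
      C.xi i ((x : GL C.Idx k) : Matrix C.Idx C.Idx k) = t)
    (b₀ : Fin n) (bs : List (Fin n))
    (hb : iad (vm C (ind D k b₀)) (bs.map fun b => vm C (ind D k b)) ≠ 0) :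
    ∃ (x₀ : GF D k) (l : List (GF D k)), x₀ ∈ XJ hS.na t0 σ b₀ ∧
      List.Forall₂ (fun b x => x ∈ XJ hS.na t0 σ b) bs l ∧ icomm x₀ l ≠ 1 := by
  obtain ⟨l, hl, hne⟩ := ZW_replace hS h hon bs _ hb
  obtain ⟨w, ⟨x₀, hx₀, rfl⟩, hwne⟩ := ZW_exists
    (fun w => iad (vm C w) (l.map fun x => vm C (ZW_vec D x)))
    (by intro x y; rw [← ZW_iad_add, ZW_vm_add])
    (by intro c x; rw [← ZW_iad_smul, ZW_vm_smul]) _ _ (ZW_span hS h hon b₀) hne
  refine ⟨x₀, l, hx₀, hl, ?_⟩
  intro h1
  have h2 := congrArg (Subtype.val) h1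
  rw [ZW_icomm] at h2
  have hU : ∀ b, ∀ x ∈ XJ hS.na t0 σ b, (x : GL C.Idx k) ∈ (C.adS k).U 1 := by
    intro b x hx
    exact (((XJ_le hS b).1 hx).1).1
  have hlU : ∀ x ∈ l, (x : GL C.Idx k) ∈ (C.adS k).U 1 := by
    intro x hx
    clear hwne hne h1 h2 hb
    induction hl with
    | nil => exact absurd hx List.not_mem_nil
    | cons hb' _ ih =>
      rcases List.mem_cons.1 hx with rfl | hx
      · exact hU _ _ hb'
      · exact ih hx
  refine icomm_ne_one' (x₀ : GL C.Idx k) (l.map Subtype.val) (hU _ _ hx₀) ?_ ?_ h2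
  · intro y hy
    obtain ⟨x, hx, rfl⟩ := List.mem_map.1 hy
    exact hlU x hx
  · rw [ZW_bind (fun a : GL C.Idx k => (a : Matrix C.Idx C.Idx k)), List.map_map, List.map_map]
    exact hwne

end Pool.Agent.H86.UM
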